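import Mathlib
import Pool.Agent.ZD.Defs

/-!
# Critical zeros of the quadratic twists `E_d : y² = x³ - d² x` (MP_553913_nt): shared definitions

`c n` = coefficients of `y² = x³ - x`, `bd D n = jacobiSym D n * c n`, critical line `Re s = 1`.
-/

set_option autoImplicit false

open Complex Finset MeasureTheory

namespace Pool.Agent.CZ

open Pool.Agent.H5 (c bd)
open Pool.Agent.ZD (S Lf nu tau)

/-- odd primes in `(a, b]` -/
def primesIoc (a b : ℕ) : Finset ℕ := (Ioc a b).filter (fun p => p.Prime ∧ p ≠ 2)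

/-- `n^{-1-it}` -/
noncomputable def npow (n : ℕ) (t : ℝ) : ℂ := (n : ℂ) ^ (-(1 + (t : ℂ) * I))

/-- `λ(p)² = c(p)²/p` -/
noncomputable def lam2 (p : ℕ) : ℝ := (c p : ℝ) ^ 2 / p

/-- `ρ(y,P,t) ≍ max(1, min(log P, 1/|t|)/log y)` -/
noncomputable def rho (y P : ℕ) (t : ℝ) : ℝ :=
  ((1 + Real.log P) * (1 + |t| * Real.log y)) / ((1 + |t| * Real.log P) * (1 + Real.log y))

/-- inverse of the Euler factor of `L(E_D, 1 + it)` at an odd prime `p` -/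
noncomputable def ellInv (D : ℤ) (p : ℕ) (t : ℝ) : ℂ :=
  1 - (bd D p : ℂ) * npow p t + ((jacobiSym D p : ℤ) : ℂ) ^ 2 * p * (npow p t) ^ 2

/-- the finite Euler product over the odd primes `a < p ≤ b` -/
noncomputable def LP (a b : ℕ) (D : ℤ) (t : ℝ) : ℂ := ∏ p ∈ primesIoc a b, (ellInv D p t)⁻¹

/-- prime sum `P_{(a,b]}(D,t) = ∑ bd_D(p) p^{-1-it}` -/
noncomputable def PSum (a b : ℕ) (D : ℤ) (t : ℝ) : ℂ :=
  ∑ p ∈ primesIoc a b, (bd D p : ℂ) * npow p t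

/-- integers with all prime factors in `(a, b]`, at most `m` prime factors (with multiplicity) -/
noncomputable def smoothSet (a b m : ℕ) : Finset ℕ := by
  classical
  exact (Icc 1 (b ^ m)).filter (fun h => (∀ p, p.Prime → p ∣ h → a < p ∧ p ≤ b) ∧
    h.primeFactorsList.length ≤ m)

/-- truncated inverse of `LP a b`: `∑_{Ω(h) ≤ m, p ∣ h ⇒ a < p ≤ b} ν(h) (D/h) h^{-1-it}` -/
noncomputable def Mo' (a b m : ℕ) (D : ℤ) (t : ℝ) : ℂ :=
  ∑ h ∈ smoothSet a b m, ((nu h * jacobiSym D h : ℤ) : ℂ) * npow h t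

/-- the constant `z₀` -/
def z0 : ℕ := 10000

/-- mollifier: exact inverse Euler product up to `z₀`, truncated above -/
noncomputable def Mo (y m : ℕ) (D : ℤ) (t : ℝ) : ℂ :=
  (∏ p ∈ primesIoc 0 z0, ellInv D p t) * Mo' z0 y m D t

/-- the modulus of the random model -/
def MP (P : ℕ) : ℕ := ∏ p ∈ primesIoc 0 P, p

/-- expectation in the random model: average over a full period -/
noncomputable def RA (P : ℕ) (f : ℤ → ℂ) : ℂ := (∑ D ∈ range (MP P), f D) / MP P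

/-- real expectation in the random model -/
noncomputable def RR (P : ℕ) (f : ℤ → ℝ) : ℝ := (∑ D ∈ range (MP P), f D) / MP P

/-- the weighted family average `X⁻¹ ∑_D e^{-π D²/(2X)²} f(D)` -/
noncomputable def ED (X : ℝ) (f : ℤ → ℝ) : ℝ :=
  (∑' D : ℤ, Real.exp (-(Real.pi * D ^ 2 / (2 * X) ^ 2)) * f D) / X

/-- normalised theta block `s(D,M,x) = (eˣ/M) S(D; eˣ/M)` -/
noncomputable def sB (D : ℤ) (M x : ℝ) : ℂ := ((Real.exp x / M : ℝ) : ℂ) * S D ((Real.exp x / M : ℝ) : ℂ)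

/-- window functional `∫ s(D,M,x) Ψ(x) dx` -/
noncomputable def FF (D : ℤ) (M : ℝ) (Ψ : ℝ → ℂ) : ℂ := ∫ x : ℝ, sB D M x * Ψ x

/-- square root of the conductor of `E_d` -/
noncomputable def Md (d : ℕ) : ℝ := if Even d then 4 * d else 4 * Real.sqrt 2 * d

/-- the weight `w(t) = (sin(t/2K)/(t/2K))^{2K}` (value 1 at 0) -/
noncomputable def wK (K : ℕ) (t : ℝ) : ℝ := (Real.sinc (t / (2 * K))) ^ (2 * K)

/-- its Fourier transform `∫ w(t) e^{itx} dt` -/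
noncomputable def what (K : ℕ) (x : ℝ) : ℂ := ∫ t : ℝ, (wK K t : ℂ) * exp (I * t * x)

/-- Gaussian block `B_D(x,t) = ∑ λ_D(n) n^{-1/2-it} exp(-(log n - x)²/2)`, `λ(n) = c(n)/√n` -/
noncomputable def BB (D : ℤ) (x t : ℝ) : ℂ :=
  ∑' n : ℕ, (bd D n : ℂ) * npow n t * ((Real.exp (-((Real.log n - x) ^ 2 / 2)) : ℝ) : ℂ)

/-- smooth step: `1` on `(-∞,1]`, `0` on `[2,∞)` -/
noncomputable def eta (x : ℝ) : ℝ := Real.smoothTransition (2 - x)

/-- window function: `x` between `A` and `2 B` -/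
noncomputable def Psi (K : ℕ) (h t₀ A B x : ℝ) : ℂ :=
  exp (I * t₀ * x) * what K (h * x) * ((eta (x / B) - eta (x / A) : ℝ) : ℂ)

/-- `θ(D,t) = Im P_{(a,b]}(D,t)` -/
noncomputable def theta (a b : ℕ) (D : ℤ) (t : ℝ) : ℝ := (PSum a b D t).im

/-- truncated `exp(-iθ)` -/
noncomputable def gT (a b m : ℕ) (D : ℤ) (t : ℝ) : ℂ :=
  ∑ j ∈ range (m + 1), (-(I * theta a b D t)) ^ j / (j.factorial : ℂ)

/-- the test function -/
noncomputable def TT (z₁ z y m : ℕ) (D : ℤ) (t t₀ : ℝ) : ℂ :=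
  Mo z₁ m D t₀ * Mo' z₁ z m D t * gT z y m D t

/-- the tested integral -/
noncomputable def GG (K N z₁ z y m : ℕ) (h : ℝ) (D : ℤ) (t₀ : ℝ) : ℂ :=
  (∫ t : ℝ, (∑ n ∈ Icc 1 N, (bd D n : ℂ) * npow n t) * TT z₁ z y m D t t₀ *
    (wK K ((t - t₀) / h) : ℂ)) / h

/-- exact integrand of the random model -/
noncomputable def EX (z₁ z y P : ℕ) (D : ℤ) (t t₀ : ℝ) : ℂ :=
  LP 0 z₁ D t * (LP 0 z₁ D t₀)⁻¹ * LP z y D t * exp (-(I * theta z y D t)) * LP y P D t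

/-- exact version of `GG` -/
noncomputable def GGex (K z₁ z y P : ℕ) (h : ℝ) (D : ℤ) (t₀ : ℝ) : ℂ :=
  (∫ t : ℝ, EX z₁ z y P D t t₀ * (wK K ((t - t₀) / h) : ℂ)) / h

/-- twisted version of `ZD.gk`: `c(x) c(y) τ_k(x y g) / √(x y g)` -/
noncomputable def gkg (k : ℤ) (g x y : ℕ) : ℂ :=
  ((c x * c y : ℤ) : ℂ) * (tau k (x * y * g) / (Real.sqrt (x * y * g : ℕ) : ℂ))

/-- twisted version of `ZD.eps` -/
noncomputable def epsg (k : ℤ) (q g : ℕ) (b₁ b₂ : ℕ) : ℂ :=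
  ∑ x ∈ b₁.divisors, ∑ y ∈ b₂.divisors,
    ((jacobiSym q (b₁ / x) * nu (b₁ / x) : ℤ) : ℂ) * ((jacobiSym q (b₂ / y) * nu (b₂ / y) : ℤ) : ℂ) *
      gkg k g x y

/-- exponent of the mean of one factor `ell_p e^{-iθ_p}` -/
noncomputable def sloc (p : ℕ) (t : ℝ) : ℂ :=
  ((lam2 p / 4 * (1 - Real.cos (2 * t * Real.log p)) / p : ℝ) : ℂ) +
    I * ((lam2 p * Real.sin (2 * t * Real.log p) / 2 / p : ℝ) : ℂ) +
    ((lam2 p - 1 : ℝ) : ℂ) * npow p (2 * t)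

/-- `∑ λ(p)² cos(v log p)/p` -/
noncomputable def SBr (z y : ℕ) (v : ℝ) : ℝ :=
  ∑ p ∈ primesIoc z y, lam2 p * Real.cos (v * Real.log p) / p

/-- `∑ λ(p)² p^{-1-iv}` -/
noncomputable def SG (y P : ℕ) (v : ℝ) : ℂ := ∑ p ∈ primesIoc y P, ((lam2 p : ℝ) : ℂ) * npow p v

/-- exponent of the mean of `EX` (large primes) -/
noncomputable def sig (z y P : ℕ) (t : ℝ) : ℂ :=
  (∑ p ∈ primesIoc z y, sloc p t) + ∑ p ∈ primesIoc y P, ((lam2 p - 1 : ℝ) : ℂ) * npow p (2 * t)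

/-- `|u| log z (1 + |u| log z)^C` -/
noncomputable def mm (z : ℕ) (C u : ℝ) : ℝ := |u| * Real.log z * (1 + |u| * Real.log z) ^ C

/-- majorant of the normalised covariance kernel of `EX` -/
noncomputable def Qk (C : ℝ) (z₁ z y P : ℕ) (t₀ t t' : ℝ) : ℝ :=
  ((mm z₁ C (t - t₀) + mm z₁ C (t' - t₀)) + (if |t - t'| * Real.log z < 1 then 1 else 0)) *
      ((rho z y (t - t')) ^ (1 / 2 : ℝ) * rho y P (t - t')) +
    (if |t - t'| * Real.log z < 1 then 0 else |SBr z y (t - t')| + ‖SG y P (t - t')‖) +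
    |SBr z y (t + t')| + 1 / z +
    (‖sig z y P t - sig z y P t₀‖ + 1 / z) * (‖sig z y P t' - sig z y P t₀‖ + 1 / z) +
    (mm z₁ C (t - t₀) + mm z₁ C (t' - t₀))

/-- `x` if it exceeds `V`, else `0` -/
noncomputable def big (V x : ℝ) : ℝ := if V < x then x else 0

/-- `f` is a polynomial of length `N` in the characters `D ↦ (D/n)`, `n` odd, with coefficient
norm at most `B` -/
def CP (N : ℕ) (B : ℝ) (f : ℤ → ℂ) : Prop :=
  ∃ a : ℕ → ℂ, (∀ n, Even n → a n = 0) ∧ ∑ n ∈ Icc 1 N, ‖a n‖ ≤ B ∧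
    ∀ D : ℤ, f D = ∑ n ∈ Icc 1 N, a n * ((jacobiSym D n : ℤ) : ℂ)

end Pool.Agent.CZ
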