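import Mathlib
import Pool.Agent.CZ.Defs
import Pool.Agent.ZD.F
import Pool.Agent.ZD.R
import Pool.Agent.H6.HeatSimple

/-!
# CZ (MP_553913_nt): second moment on the critical line (module CL2)
-/

set_option autoImplicit false

open Complex Finset MeasureTheory

namespace Pool.Agent.CZ

open Pool.Agent.ZD (Lf MM)

/-! ### the ratio of Gamma factors -/

lemma cl2_gamma_low : ∃ c : ℝ, 0 < c ∧ ∀ x ∈ Set.Icc (3 / 2 : ℝ) 2, c ≤ Real.Gamma x := by
  have hcont : ContinuousOn Real.Gamma (Set.Icc (3 / 2 : ℝ) 2) := fun x hx =>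
    (Real.differentiableAt_Gamma (fun m => by
      have := hx.1
      have h2 : (0:ℝ) ≤ m := Nat.cast_nonneg m
      intro h; linarith)).continuousAt.continuousWithinAt
  obtain ⟨x₀, hx₀, hmin⟩ := isCompact_Icc.exists_isMinOn ⟨3 / 2, by norm_num, by norm_num⟩ hcont
  exact ⟨Real.Gamma x₀, Real.Gamma_pos_of_pos (by linarith [hx₀.1]), fun x hx => hmin hx⟩

lemma cl2_gamma_high : ∃ C : ℝ, 0 < C ∧ ∀ x ∈ Set.Icc (1 : ℝ) (3 / 2), Real.Gamma x ≤ C := by
  have hcont : ContinuousOn Real.Gamma (Set.Icc (1 : ℝ) (3 / 2)) := fun x hx =>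
    (Real.differentiableAt_Gamma (fun m => by
      have := hx.1
      have h2 : (0:ℝ) ≤ m := Nat.cast_nonneg m
      intro h; linarith)).continuousAt.continuousWithinAt
  obtain ⟨x₀, hx₀, hmax⟩ := isCompact_Icc.exists_isMaxOn ⟨1, by norm_num, by norm_num⟩ hcont
  exact ⟨Real.Gamma x₀, Real.Gamma_pos_of_pos (by linarith [hx₀.1]), fun x hx => hmax hx⟩

lemma cl2_ratio {s : ℂ} (h0 : 0 ≤ s.re) (h1 : s.re ≤ 1 / 2) :
    ‖Gamma (1 + s)‖ ≤ ‖1 + s‖ * ‖Gamma (1 - s)‖ := by
  set f : ℂ → ℂ := fun s => Gamma (1 + s) * (Gamma (1 - s))⁻¹ * (1 + s)⁻¹ with hf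
  have hne : ∀ z : ℂ, 0 ≤ z.re → 1 + z ≠ 0 := by
    intro z hz h
    have := congrArg Complex.re h
    simp at this
    linarith
  have hd : ∀ z : ℂ, 0 ≤ z.re → DifferentiableAt ℂ f z := by
    intro z hz
    have e1 : DifferentiableAt ℂ (fun s : ℂ => Gamma (1 + s)) z := by
      have h := Complex.differentiableAt_Gamma (1 + z) (fun m h => by
        have := congrArg Complex.re h
        simp at this
        have h2 : (0:ℝ) ≤ m := Nat.cast_nonneg m
        linarith)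
      exact h.comp z (by fun_prop)
    have e2 : DifferentiableAt ℂ (fun s : ℂ => (Gamma (1 - s))⁻¹) z := by
      have h := Complex.differentiable_one_div_Gamma (1 - z)
      exact h.comp z (by fun_prop)
    have e3 : DifferentiableAt ℂ (fun s : ℂ => (1 + s)⁻¹) z :=
      (by fun_prop : DifferentiableAt ℂ (fun s : ℂ => 1 + s) z).inv (hne z hz)
    exact (e1.mul e2).mul e3
  have hcl : closure (re ⁻¹' Set.Ioo (0:ℝ) (1 / 2)) ⊆ {z : ℂ | 0 ≤ z.re} := by
    apply closure_minimal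
    · intro z hz; exact hz.1.le
    · exact isClosed_le continuous_const Complex.continuous_re
  have hdc : DiffContOnCl ℂ f (re ⁻¹' Set.Ioo (0:ℝ) (1 / 2)) :=
    DifferentiableOn.diffContOnCl fun z hz => (hd z (hcl hz)).differentiableWithinAt
  obtain ⟨c, hc, hc2⟩ := cl2_gamma_low
  obtain ⟨C, hC, hC2⟩ := cl2_gamma_high
  have hgrow : ∃ c' < Real.pi / (1 / 2 - 0), ∃ B,
      f =O[Filter.comap (abs ∘ im) Filter.atTop ⊓ Filter.principal (re ⁻¹' Set.Ioo (0:ℝ) (1 / 2))]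
        fun z => Real.exp (B * Real.exp (c' * |z.im|)) := by
    refine ⟨1, by rw [lt_div_iff₀ (by norm_num)]; linarith [Real.pi_gt_three], 3, ?_⟩
    apply Asymptotics.IsBigO.of_bound (C * c⁻¹)
    apply Filter.Eventually.filter_mono inf_le_right
    rw [Filter.eventually_principal]
    intro z hz
    have hz0 : 0 < z.re := hz.1
    have hz1 : z.re < 1 / 2 := hz.2
    rw [Real.norm_of_nonneg (Real.exp_pos _).le, hf]
    simp only
    rw [norm_mul, norm_mul, norm_inv, norm_inv]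
    have g1 : ‖Gamma (1 + z)‖ ≤ C := by
      refine (H6.FEData.norm_Gamma_le_re (by simp; linarith)).trans (hC2 _ ?_)
      simp only [Complex.add_re, Complex.one_re]
      exact ⟨by linarith, by linarith⟩
    have g2 : c * Real.exp (-(Real.pi / 2 * |z.im|)) ≤ ‖Gamma (2 - z)‖ := by
      have h := ZD.norm_Gamma_ge (η := 1 - z.re) (by linarith) (-z.im)
      have e : (1 + ((1 - z.re : ℝ) : ℂ) + ((-z.im : ℝ) : ℂ) * I) = 2 - z := by
        apply Complex.ext
        · simp; ring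
        · simp
      rw [e, abs_neg] at h
      refine le_trans (mul_le_mul_of_nonneg_right (hc2 _ ?_) (Real.exp_pos _).le) h
      constructor <;> linarith
    have hne2 : 1 - z ≠ 0 := by
      intro h
      have := congrArg Complex.re h
      simp at this
      linarith
    have g3 : ‖Gamma (2 - z)‖ = ‖1 - z‖ * ‖Gamma (1 - z)‖ := by
      rw [← norm_mul, ← Complex.Gamma_add_one _ hne2]
      congr 2; ring
    have g4 : ‖Gamma (1 - z)‖⁻¹ ≤ ‖1 - z‖ * (c⁻¹ * Real.exp (Real.pi / 2 * |z.im|)) := by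
      have hpos : 0 < ‖Gamma (1 - z)‖ :=
        norm_pos_iff.2 (Complex.Gamma_ne_zero_of_re_pos (by simp; linarith))
      rw [g3] at g2
      rw [inv_le_iff_one_le_mul₀ hpos]
      have h5 : c⁻¹ * Real.exp (Real.pi / 2 * |z.im|) * (c * Real.exp (-(Real.pi / 2 * |z.im|))) = 1 := by
        rw [Real.exp_neg]
        field_simp
      calc (1:ℝ) = c⁻¹ * Real.exp (Real.pi / 2 * |z.im|) * (c * Real.exp (-(Real.pi / 2 * |z.im|))) := h5.symm
        _ ≤ c⁻¹ * Real.exp (Real.pi / 2 * |z.im|) * (‖1 - z‖ * ‖Gamma (1 - z)‖) :=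
            mul_le_mul_of_nonneg_left g2 (by positivity)
        _ = _ := by ring
    have g5 : ‖1 - z‖ * ‖1 + z‖⁻¹ ≤ 1 := by
      rw [← div_eq_mul_inv, div_le_one (norm_pos_iff.2 (hne z hz0.le))]
      rw [Complex.norm_def, Complex.norm_def]
      apply Real.sqrt_le_sqrt
      simp only [Complex.normSq_apply, Complex.sub_re, Complex.one_re, Complex.sub_im,
        Complex.one_im, Complex.add_re, Complex.add_im]
      nlinarith
    have g6 : Real.exp (Real.pi / 2 * |z.im|) ≤ Real.exp (3 * Real.exp (1 * |z.im|)) := by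
      apply Real.exp_le_exp.2
      have h6 : |z.im| ≤ Real.exp (1 * |z.im|) := by
        have := Real.add_one_le_exp (1 * |z.im|)
        linarith
      have h7 : Real.pi / 2 ≤ 3 := by linarith [Real.pi_lt_four]
      nlinarith [abs_nonneg z.im, Real.exp_pos (1 * |z.im|)]
    calc ‖Gamma (1 + z)‖ * ‖Gamma (1 - z)‖⁻¹ * ‖1 + z‖⁻¹
        ≤ C * (‖1 - z‖ * (c⁻¹ * Real.exp (Real.pi / 2 * |z.im|))) * ‖1 + z‖⁻¹ := by
          apply mul_le_mul_of_nonneg_right _ (by positivity)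
          exact mul_le_mul g1 g4 (by positivity) hC.le
      _ = C * c⁻¹ * (‖1 - z‖ * ‖1 + z‖⁻¹) * Real.exp (Real.pi / 2 * |z.im|) := by ring
      _ ≤ C * c⁻¹ * 1 * Real.exp (3 * Real.exp (1 * |z.im|)) := by
          gcongr
      _ = _ := by ring
  have hle0 : ∀ z : ℂ, z.re = 0 → ‖f z‖ ≤ 1 := by
    intro z hz
    rw [hf]
    simp only
    rw [norm_mul, norm_mul, norm_inv, norm_inv]
    have e1 : (starRingEnd ℂ) (1 + z) = 1 - z := by
      apply Complex.ext
      · simp [hz]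
      · simp
    have e2 : ‖Gamma (1 - z)‖ = ‖Gamma (1 + z)‖ := by
      rw [← e1, Complex.Gamma_conj, Complex.norm_conj]
    have hpos : 0 < ‖Gamma (1 + z)‖ :=
      norm_pos_iff.2 (Complex.Gamma_ne_zero_of_re_pos (by simp [hz]))
    rw [e2, mul_inv_cancel₀ hpos.ne', one_mul]
    apply inv_le_one_of_one_le₀
    calc (1:ℝ) = (1 + z).re := by simp [hz]
      _ ≤ ‖1 + z‖ := Complex.re_le_norm _
  have hle1 : ∀ z : ℂ, z.re = 1 / 2 → ‖f z‖ ≤ 1 := by
    intro z hz
    rw [hf]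
    simp only
    rw [norm_mul, norm_mul, norm_inv, norm_inv]
    have hz0 : z ≠ 0 := by
      intro h
      rw [h] at hz
      norm_num at hz
    have e1 : (starRingEnd ℂ) z = 1 - z := by
      apply Complex.ext
      · simp [hz]; norm_num
      · simp
    have e2 : ‖Gamma (1 - z)‖ = ‖Gamma z‖ := by
      rw [← e1, Complex.Gamma_conj, Complex.norm_conj]
    have e3 : ‖Gamma (1 + z)‖ = ‖z‖ * ‖Gamma z‖ := by
      rw [← norm_mul, ← Complex.Gamma_add_one _ hz0, add_comm]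
    have hpos : 0 < ‖Gamma z‖ :=
      norm_pos_iff.2 (Complex.Gamma_ne_zero_of_re_pos (by rw [hz]; norm_num))
    rw [e2, e3, mul_assoc ‖z‖, mul_inv_cancel₀ hpos.ne', mul_one, ← div_eq_mul_inv,
      div_le_one (norm_pos_iff.2 (hne z (by rw [hz]; norm_num)))]
    rw [Complex.norm_def, Complex.norm_def]
    apply Real.sqrt_le_sqrt
    simp only [Complex.normSq_apply, Complex.one_re, Complex.one_im, Complex.add_re, Complex.add_im]
    nlinarith
  have hmain := PhragmenLindelof.vertical_strip hdc hgrow hle0 hle1 h0 h1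
  rw [hf] at hmain
  rw [norm_mul, norm_mul, norm_inv, norm_inv] at hmain
  have hpos1 : 0 < ‖Gamma (1 - s)‖ :=
    norm_pos_iff.2 (Complex.Gamma_ne_zero_of_re_pos (by simp; linarith))
  have hpos2 : 0 < ‖1 + s‖ := norm_pos_iff.2 (hne s h0)
  rw [mul_assoc, ← mul_inv, ← div_eq_mul_inv, div_le_one (by positivity)] at hmain
  linarith [hmain, mul_comm ‖Gamma (1 - s)‖ ‖1 + s‖]

/-! ### the critical line -/

lemma cl2_MM_nonneg (a η : ℝ) (d : ℕ) : 0 ≤ MM a η d :=
  Real.iSup_nonneg fun t => by positivity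

lemma cl2_right {d : ℕ} (hd : Squarefree d) {a η : ℝ} (ha : 0 < a) (hη : 0 < η) (v : ℝ) :
    ‖Lf d (1 + η + v * I)‖ ≤ MM a η d * Real.exp (a * |v|) := by
  have h := le_ciSup (ZD.MM_bdd hd ha hη) v
  have h2 : ‖Lf d (1 + η + v * I)‖ * Real.exp (-(a * |v|)) ≤ MM a η d := h
  rwa [Real.exp_neg, ← div_eq_mul_inv, div_le_iff₀ (Real.exp_pos _)] at h2

lemma cl2_left {d : ℕ} (hd : Squarefree d) {η : ℝ} (hη : 0 < η) (hη1 : η ≤ 1 / 2)
    (hdη : (d : ℝ) ^ (2 * η) ≤ 2) (v : ℝ) :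
    ‖Lf d (1 - η + v * I)‖ ≤ 2 * (3 / 2 + |v|) * ‖Lf d (1 + η + ((-v : ℝ) : ℂ) * I)‖ := by
  obtain ⟨w, hw, hfe⟩ := H5.Th_fe d hd
  have hd0 : 0 < d := Nat.pos_of_ne_zero hd.ne_zero
  have hQ0 : (0:ℝ) < ((H5.Q d : ℕ) : ℝ) := by
    have : 0 < H5.Q d := by
      unfold H5.Q
      split_ifs <;> positivity
    exact_mod_cast this
  obtain ⟨Λ, D, hΛ⟩ := H6.exists_FEData (d : ℤ) hQ0 hw hfe
  have E : H6.EdData d (√(H5.Q d) / Real.pi) Λ := ⟨H6.exists_ThData hd, D.diff, hΛ⟩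
  set M : ℝ := √(H5.Q d) / Real.pi with hMdef
  have hM : 0 < M := E.Mpos
  set s : ℂ := 1 - η + v * I with hs
  have hsre : s.re = 1 - η := by simp [hs]
  have hs2 : 2 - s = 1 + η + ((-v : ℝ) : ℂ) * I := by
    rw [hs]; push_cast; ring
  have hs2re : (2 - s).re = 1 + η := by rw [hs2]; simp
  have h1 := ZD.Lf_eq hd E (s := s) (by rw [hsre]; linarith)
  have h3 := ZD.Lf_eq hd E (s := 2 - s) (by rw [hs2re]; linarith)
  rw [D.fe s, ← h1] at h3
  have h4 := congrArg norm h3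
  rw [norm_mul, norm_mul, norm_mul, norm_mul, norm_mul, D.norm_w, one_mul,
    Complex.norm_cpow_eq_rpow_re_of_pos hM, Complex.norm_cpow_eq_rpow_re_of_pos hM, hsre, hs2re,
    hs2] at h4
  -- Gamma ratio
  have h5 := cl2_ratio (s := (η : ℂ) + ((-v : ℝ) : ℂ) * I) (by simp; linarith) (by simpa using hη1)
  have e1 : 1 + ((η : ℂ) + ((-v : ℝ) : ℂ) * I) = 1 + η + ((-v : ℝ) : ℂ) * I := by ring
  have e2 : 1 - ((η : ℂ) + ((-v : ℝ) : ℂ) * I) = s := by rw [hs]; push_cast; ring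
  rw [e1, e2] at h5
  have h6 : ‖(1 : ℂ) + η + ((-v : ℝ) : ℂ) * I‖ ≤ 3 / 2 + |v| := by
    refine (Complex.norm_le_abs_re_add_abs_im _).trans ?_
    simp only [Complex.add_re, Complex.one_re, Complex.ofReal_re, Complex.mul_re, Complex.I_re,
      Complex.ofReal_im, Complex.I_im, Complex.add_im, Complex.one_im, Complex.mul_im]
    rw [abs_of_pos (by linarith)]
    simp
    linarith
  have hG0 : 0 < ‖Gamma s‖ :=
    norm_pos_iff.2 (Complex.Gamma_ne_zero_of_re_pos (by rw [hsre]; linarith))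
  -- M ^ (2η) ≤ 2
  have hMd : M ≤ d := by
    rw [hMdef, div_le_iff₀ Real.pi_pos]
    apply Real.sqrt_le_iff.2
    constructor
    · positivity
    · have h7 : ((H5.Q d : ℕ) : ℝ) ≤ 8 * (d : ℝ) ^ 2 := by
        have : H5.Q d ≤ 8 * d ^ 2 := by
          unfold H5.Q
          split_ifs
          · nlinarith [sq_nonneg d]
          · exact le_rfl
        exact_mod_cast this
      have h8 : (8:ℝ) ≤ Real.pi ^ 2 := by nlinarith [Real.pi_gt_three]
      nlinarith [sq_nonneg (d : ℝ)]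
  have hMη : M ^ (1 + η) ≤ 2 * M ^ (1 - η) := by
    have e3 : M ^ (1 + η) = M ^ (2 * η) * M ^ (1 - η) := by
      rw [← Real.rpow_add hM]; congr 1; ring
    rw [e3]
    gcongr
    exact (Real.rpow_le_rpow hM.le hMd (by linarith)).trans hdη
  have hM1 : 0 < M ^ (1 - η) := Real.rpow_pos_of_pos hM _
  -- combine
  have h9 : M ^ (1 - η) * ‖Gamma s‖ * ‖Lf d s‖ ≤ M ^ (1 - η) * ‖Gamma s‖ *
      (2 * (3 / 2 + |v|) * ‖Lf d (1 + η + ((-v : ℝ) : ℂ) * I)‖) := by
    calc M ^ (1 - η) * ‖Gamma s‖ * ‖Lf d s‖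
        = M ^ (1 + η) * ‖Gamma (1 + η + ((-v : ℝ) : ℂ) * I)‖ *
            ‖Lf d (1 + η + ((-v : ℝ) : ℂ) * I)‖ := by linarith [h4]
      _ ≤ (2 * M ^ (1 - η)) * ((3 / 2 + |v|) * ‖Gamma s‖) *
            ‖Lf d (1 + η + ((-v : ℝ) : ℂ) * I)‖ := by
          gcongr
          exact h5.trans (by gcongr)
      _ = _ := by ring
  exact le_of_mul_le_mul_left h9 (by positivity)

lemma cl2_gauss {u : ℝ} (hu : 0 ≤ u) {a : ℝ} (ha : a ≤ 1 / 8) :
    (1 + u) * (Real.exp (a * u) * Real.exp (-u ^ 2)) ≤ Real.exp 1 := by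
  have h1 : 1 + u ≤ Real.exp u := by linarith [Real.add_one_le_exp u]
  calc (1 + u) * (Real.exp (a * u) * Real.exp (-u ^ 2))
      ≤ Real.exp u * (Real.exp (a * u) * Real.exp (-u ^ 2)) := by gcongr
    _ = Real.exp (u + a * u - u ^ 2) := by
        rw [← Real.exp_add, ← Real.exp_add]; congr 1; ring
    _ ≤ Real.exp 1 := by
        apply Real.exp_le_exp.2
        nlinarith [sq_nonneg (u - 9 / 16), mul_le_mul_of_nonneg_right ha hu]

theorem crit_le_MM : ∃ C : ℝ, ∀ (J d : ℕ) (a t : ℝ), 1 ≤ J → Squarefree d → d ≤ 2 ^ J → 0 < a →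
    a ≤ 1 / 8 → ‖Lf d (1 + t * I)‖ ≤ C * (1 + |t|) * Real.exp (2 * a * |t|) * MM a (1 / (2 * J)) d := by
  refine ⟨3 * Real.exp 2, ?_⟩
  intro J d a t hJ hd hdJ ha ha8
  set η : ℝ := 1 / (2 * J) with hη
  have hJ1 : (1:ℝ) ≤ J := by exact_mod_cast hJ
  have hη0 : 0 < η := by rw [hη]; positivity
  have hη1 : η ≤ 1 / 2 := by
    rw [hη]
    apply one_div_le_one_div_of_le (by norm_num)
    linarith
  have hdη : (d : ℝ) ^ (2 * η) ≤ 2 := by
    have h1 : (d : ℝ) ≤ (2 : ℝ) ^ (J : ℝ) := by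
      rw [Real.rpow_natCast]; exact_mod_cast hdJ
    have h2 : 2 * η = 1 / J := by rw [hη]; field_simp
    calc (d : ℝ) ^ (2 * η) ≤ ((2 : ℝ) ^ (J : ℝ)) ^ (2 * η) :=
          Real.rpow_le_rpow (by positivity) h1 (by linarith)
      _ = 2 := by
          rw [← Real.rpow_mul (by norm_num), h2]
          have : (J : ℝ) * (1 / J) = 1 := by field_simp
          rw [this, Real.rpow_one]
  set P := MM a η d with hP
  have hP0 : 0 ≤ P := cl2_MM_nonneg a η d
  set f : ℂ → ℂ := fun z => Lf d z * Complex.exp ((z - 1 - t * I) ^ 2) with hf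
  have hLd : Differentiable ℂ (Lf d) := (ZD.Lf_spec hd).1
  have hfd : Differentiable ℂ f := hLd.mul (by fun_prop)
  have hnexp : ∀ z : ℂ, ‖Complex.exp ((z - 1 - t * I) ^ 2)‖ =
      Real.exp ((z.re - 1) ^ 2 - (z.im - t) ^ 2) := by
    intro z
    rw [Complex.norm_exp]
    congr 1
    simp [sq, Complex.mul_re]
  set B : ℝ := 3 * (1 + |t|) * Real.exp (a * |t|) * P * Real.exp (1 / 4) * Real.exp 1 with hB
  have hedge : ∀ (z : ℂ), |z.re - 1| = η → ‖f z‖ ≤ B := by
    intro z hz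
    set v := z.im with hv
    have hL : ‖Lf d z‖ ≤ 2 * (3 / 2 + |v|) * (P * Real.exp (a * |v|)) := by
      rcases abs_eq hη0.le |>.1 hz with h | h
      · have e : z = 1 + η + v * I := by
          apply Complex.ext
          · simp; linarith
          · simp [hv]
        rw [e]
        refine (cl2_right hd ha hη0 v).trans ?_
        have h1 : (1:ℝ) ≤ 2 * (3 / 2 + |v|) := by linarith [abs_nonneg v]
        calc MM a η d * Real.exp (a * |v|) = 1 * (P * Real.exp (a * |v|)) := by rw [one_mul]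
          _ ≤ _ := by gcongr
      · have e : z = 1 - η + v * I := by
          apply Complex.ext
          · simp; linarith
          · simp [hv]
        rw [e]
        refine (cl2_left hd hη0 hη1 hdη v).trans ?_
        gcongr
        have := cl2_right hd ha hη0 (-v)
        rwa [abs_neg] at this
    have hu : |v| ≤ |t| + |v - t| := by
      have := abs_add_le t (v - t)
      rwa [add_sub_cancel] at this
    set u := |v - t| with hudef
    have hu0 : 0 ≤ u := abs_nonneg _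
    have hexp : Real.exp ((z.re - 1) ^ 2 - (v - t) ^ 2) ≤ Real.exp (1 / 4) * Real.exp (-u ^ 2) := by
      rw [← Real.exp_add]
      apply Real.exp_le_exp.2
      have h1 : (z.re - 1) ^ 2 = η ^ 2 := by rw [← sq_abs, hz]
      have h2 : (v - t) ^ 2 = u ^ 2 := by rw [hudef, sq_abs]
      rw [h1, h2]
      nlinarith
    have hexp2 : Real.exp (a * |v|) ≤ Real.exp (a * |t|) * Real.exp (a * u) := by
      rw [← Real.exp_add]
      apply Real.exp_le_exp.2
      nlinarith
    have h32 : 2 * (3 / 2 + |v|) ≤ 3 * ((1 + |t|) * (1 + u)) := by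
      nlinarith [abs_nonneg t, mul_nonneg (abs_nonneg t) hu0]
    have hgauss := cl2_gauss hu0 ha8
    rw [hf]
    simp only
    rw [norm_mul, hnexp]
    calc ‖Lf d z‖ * Real.exp ((z.re - 1) ^ 2 - (v - t) ^ 2)
        ≤ (3 * ((1 + |t|) * (1 + u)) * (P * (Real.exp (a * |t|) * Real.exp (a * u)))) *
          (Real.exp (1 / 4) * Real.exp (-u ^ 2)) := by
          gcongr
          refine hL.trans ?_
          gcongr
      _ = (3 * (1 + |t|) * Real.exp (a * |t|) * P * Real.exp (1 / 4)) *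
          ((1 + u) * (Real.exp (a * u) * Real.exp (-u ^ 2))) := by ring
      _ ≤ (3 * (1 + |t|) * Real.exp (a * |t|) * P * Real.exp (1 / 4)) * Real.exp 1 := by
          gcongr
      _ = B := by rw [hB]
  have hgrow : ∃ c' < Real.pi / ((1 + η) - (1 - η)), ∃ B,
      f =O[Filter.comap (abs ∘ im) Filter.atTop ⊓
        Filter.principal (re ⁻¹' Set.Ioo (1 - η) (1 + η))]
        fun z => Real.exp (B * Real.exp (c' * |z.im|)) := by
    obtain ⟨K, hK⟩ := ZD.growth hd (a := 1) one_pos (σ₁ := 1 - η) (by linarith) (1 + η)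
    refine ⟨1, by rw [lt_div_iff₀ (by linarith)]; linarith [Real.pi_gt_three], 1, ?_⟩
    apply Asymptotics.IsBigO.of_bound (K * Real.exp (1 / 4))
    apply Filter.Eventually.filter_mono inf_le_right
    rw [Filter.eventually_principal]
    intro z hz
    have hz0 : 1 - η < z.re := hz.1
    have hz1 : z.re < 1 + η := hz.2
    rw [Real.norm_of_nonneg (Real.exp_pos _).le, hf]
    simp only
    rw [norm_mul, hnexp]
    have h1 := hK z hz0.le hz1.le
    have hKn : 0 ≤ K * Real.exp (1 * |z.im|) := (norm_nonneg _).trans h1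
    have hK0 : 0 ≤ K := by
      by_contra hneg
      rw [not_le] at hneg
      have := mul_neg_of_neg_of_pos hneg (Real.exp_pos (1 * |z.im|))
      linarith
    have h2 : Real.exp ((z.re - 1) ^ 2 - (z.im - t) ^ 2) ≤ Real.exp (1 / 4) := by
      apply Real.exp_le_exp.2
      nlinarith [sq_nonneg (z.im - t)]
    have h3 : Real.exp (1 * |z.im|) ≤ Real.exp (1 * Real.exp (1 * |z.im|)) := by
      apply Real.exp_le_exp.2
      have := Real.add_one_le_exp (1 * |z.im|)
      linarith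
    calc ‖Lf d z‖ * Real.exp ((z.re - 1) ^ 2 - (z.im - t) ^ 2)
        ≤ (K * Real.exp (1 * |z.im|)) * Real.exp (1 / 4) := by gcongr
      _ = K * Real.exp (1 / 4) * Real.exp (1 * |z.im|) := by ring
      _ ≤ _ := by gcongr
  have hmain := PhragmenLindelof.vertical_strip (z := (1 : ℂ) + t * I) (f := f) (C := B)
    hfd.diffContOnCl hgrow
    (fun z hz => hedge z (by rw [hz]; rw [abs_sub_comm]; simp [abs_of_pos hη0]))
    (fun z hz => hedge z (by rw [hz]; simp [abs_of_pos hη0]))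
    (by simp; linarith) (by simp; linarith)
  rw [hf] at hmain
  simp only at hmain
  rw [norm_mul, hnexp] at hmain
  have e0 : ((1 : ℂ) + t * I).re = 1 := by simp
  have e1 : ((1 : ℂ) + t * I).im = t := by simp
  rw [e0, e1] at hmain
  simp only [sub_self] at hmain
  norm_num at hmain
  refine hmain.trans ?_
  rw [hB]
  have h1 : Real.exp (a * |t|) ≤ Real.exp (2 * a * |t|) := by
    apply Real.exp_le_exp.2
    nlinarith [abs_nonneg t, mul_nonneg ha.le (abs_nonneg t)]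
  have h2 : Real.exp (1 / 4) * Real.exp 1 ≤ Real.exp 2 := by
    rw [← Real.exp_add]
    apply Real.exp_le_exp.2
    norm_num
  calc 3 * (1 + |t|) * Real.exp (a * |t|) * P * Real.exp (1 / 4) * Real.exp 1
      = 3 * (1 + |t|) * Real.exp (a * |t|) * P * (Real.exp (1 / 4) * Real.exp 1) := by ring
    _ ≤ 3 * (1 + |t|) * Real.exp (2 * a * |t|) * P * Real.exp 2 := by gcongr
    _ = _ := by ring

theorem crit_second_moment : ∃ A : ℕ, ∀ (X : ℕ) (t : ℝ), 3 ≤ X →
    ∑ d ∈ (Icc 1 X).filter Squarefree, ‖Lf d (1 + t * I)‖ ^ 2 ≤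
      A * (Real.log X) ^ A * (1 + |t|) ^ A * X := by
  obtain ⟨C, hC⟩ := crit_le_MM
  obtain ⟨A, hA⟩ := ZD.R_main
  set K : ℝ := 4 * C ^ 2 * (24 * A) ^ A with hK
  set N : ℕ := max (A + 2) ⌈K⌉₊ with hN
  refine ⟨N, ?_⟩
  intro X t hX
  have hX3 : (3:ℝ) ≤ X := by exact_mod_cast hX
  have hlog : 1 ≤ Real.log X := by
    have h1 : Real.exp 1 ≤ X := by linarith [Real.exp_one_lt_d9]
    rw [Real.le_log_iff_exp_le (by linarith)]; exact h1
  set J : ℕ := Nat.clog 2 X with hJ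
  have hXJ : X ≤ 2 ^ J := Nat.le_pow_clog (by norm_num) X
  have hJX : 2 ^ (J - 1) < X := Nat.pow_pred_clog_lt_self (by norm_num) (by omega)
  have hJ1 : 1 ≤ J := Nat.clog_pos (by norm_num) (by omega)
  have hJ2 : (2:ℝ) ^ J ≤ 2 * X := by
    have : 2 ^ J ≤ 2 * X := by
      have e : 2 ^ J = 2 * 2 ^ (J - 1) := by
        rw [← pow_succ']
        congr 1
        omega
      omega
    exact_mod_cast this
  have hJlog : (J : ℝ) ≤ 3 * Real.log X := by
    have h1 : (2:ℝ) ^ (J - 1) ≤ X := by exact_mod_cast hJX.le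
    have h2 : ((J - 1 : ℕ) : ℝ) * Real.log 2 ≤ Real.log X := by
      rw [← Real.log_pow]
      exact Real.log_le_log (by positivity) h1
    have h3 : ((J - 1 : ℕ) : ℝ) = J - 1 := by
      rw [Nat.cast_sub hJ1]; simp
    rw [h3] at h2
    have h4 : (0.69 : ℝ) ≤ Real.log 2 := by linarith [Real.log_two_gt_d9]
    have h5 : ((J:ℝ) - 1) * 0.69 ≤ Real.log X := by
      have h6 : (0:ℝ) ≤ (J:ℝ) - 1 := by
        have : (1:ℝ) ≤ J := by exact_mod_cast hJ1
        linarith
      nlinarith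
    nlinarith
  set a : ℝ := 1 / (8 * (1 + |t|)) with ha
  have ht0 : 0 ≤ |t| := abs_nonneg t
  have ha0 : 0 < a := by rw [ha]; positivity
  have ha8 : a ≤ 1 / 8 := by
    rw [ha]
    apply one_div_le_one_div_of_le (by norm_num)
    linarith
  have hat : 4 * a * |t| ≤ 1 / 2 := by
    rw [ha]
    rw [mul_one_div, div_mul_eq_mul_div, div_le_div_iff₀ (by positivity) (by norm_num)]
    linarith
  have hexp : (Real.exp (2 * a * |t|)) ^ 2 ≤ 2 := by
    rw [← Real.exp_nat_mul]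
    have h1 : ((2:ℕ):ℝ) * (2 * a * |t|) ≤ 1 / 2 := by push_cast; linarith
    have h2 := Real.exp_le_exp.2 h1
    refine h2.trans ?_
    have h3 : Real.exp (1 / 2) ^ 2 ≤ 2 ^ 2 := by
      rw [← Real.exp_nat_mul]
      have : ((2:ℕ):ℝ) * (1 / 2) = 1 := by norm_num
      rw [this]
      linarith [Real.exp_one_lt_d9]
    exact le_of_sq_le_sq h3 (by norm_num)
  have hstep : ∀ d ∈ (Icc 1 X).filter Squarefree, ‖Lf d (1 + t * I)‖ ^ 2 ≤
      2 * C ^ 2 * (1 + |t|) ^ 2 * (MM a (1 / (2 * J)) d) ^ 2 := by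
    intro d hd
    rw [Finset.mem_filter, Finset.mem_Icc] at hd
    have h1 := hC J d a t hJ1 hd.2 (hd.1.2.trans hXJ) ha0 ha8
    have h2 := pow_le_pow_left₀ (norm_nonneg _) h1 2
    refine h2.trans ?_
    calc (C * (1 + |t|) * Real.exp (2 * a * |t|) * MM a (1 / (2 * J)) d) ^ 2
        = C ^ 2 * (1 + |t|) ^ 2 * (Real.exp (2 * a * |t|)) ^ 2 * (MM a (1 / (2 * J)) d) ^ 2 := by
          ring
      _ ≤ C ^ 2 * (1 + |t|) ^ 2 * 2 * (MM a (1 / (2 * J)) d) ^ 2 := by gcongr
      _ = _ := by ring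
  have hsum : ∑ d ∈ (Icc 1 X).filter Squarefree, ‖Lf d (1 + t * I)‖ ^ 2 ≤
      2 * C ^ 2 * (1 + |t|) ^ 2 * ((A * J / a) ^ A * 2 ^ J) := by
    refine (Finset.sum_le_sum hstep).trans ?_
    rw [← Finset.mul_sum]
    gcongr
    refine le_trans ?_ (hA J a hJ1 ha0 ha8)
    apply Finset.sum_le_sum_of_subset_of_nonneg
    · intro d hd
      rw [Finset.mem_filter, Finset.mem_Icc] at hd ⊢
      exact ⟨⟨hd.1.1, hd.1.2.trans hXJ⟩, hd.2⟩
    · intros; positivity
  refine hsum.trans ?_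
  have hJa : A * J / a ≤ (24 * A) * Real.log X * (1 + |t|) := by
    have e : A * J / a = A * J * (8 * (1 + |t|)) := by
      rw [ha]; field_simp
    rw [e]
    calc (A:ℝ) * J * (8 * (1 + |t|)) ≤ A * (3 * Real.log X) * (8 * (1 + |t|)) := by gcongr
      _ = _ := by ring
  have hJa0 : 0 ≤ A * J / a := by positivity
  have hN1 : A + 2 ≤ N := le_max_left _ _
  have hN2 : K ≤ N := (Nat.le_ceil K).trans (by exact_mod_cast le_max_right _ _)
  calc 2 * C ^ 2 * (1 + |t|) ^ 2 * ((A * J / a) ^ A * 2 ^ J)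
      ≤ 2 * C ^ 2 * (1 + |t|) ^ 2 * (((24 * A) * Real.log X * (1 + |t|)) ^ A * (2 * X)) := by
        gcongr
    _ = K * (Real.log X) ^ A * (1 + |t|) ^ (A + 2) * X := by
        rw [hK, mul_pow, mul_pow]; ring
    _ ≤ N * (Real.log X) ^ N * (1 + |t|) ^ N * X := by
        have h1 : (Real.log X) ^ A ≤ (Real.log X) ^ N := pow_le_pow_right₀ hlog (by omega)
        have h2 : (1 + |t|) ^ (A + 2) ≤ (1 + |t|) ^ N :=
          pow_le_pow_right₀ (by linarith) hN1
        have hK0 : 0 ≤ K := by rw [hK]; positivity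
        gcongr

end Pool.Agent.CZ
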