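import Mathlib
import Pool.Agent.H5.PrimePow
import Pool.Agent.H5.Euler

/-!
Critical zeros for the twists `E_d : y² = x³ - d² x` (MP_553913_nt), analytic inputs: definitions.
-/

set_option autoImplicit false

open Complex Finset MeasureTheory

namespace Pool.Agent.CZ.Inp

open Pool.Agent.H5 (c bd P)

/-- normalised coefficients of `y² = x³ - x` -/
noncomputable def lam (n : ℕ) : ℝ := (c n : ℝ) / Real.sqrt n

/-- `∑ (z/|z|)^(2j)` over the primary Gaussian integers `z` of norm `n` (the sum is real) -/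
noncomputable def hr (j n : ℕ) : ℝ :=
  ∑ z ∈ P n, (((GaussianInt.toComplex z) / (‖GaussianInt.toComplex z‖ : ℂ)) ^ (2 * j)).re

/-- the nontrivial character mod 4, with real values -/
noncomputable def x4 (n : ℕ) : ℝ := ((ZMod.χ₄ (n : ZMod 4) : ℤ) : ℝ)

/-- summatory function of `hr j` -/
noncomputable def HA (j : ℕ) (t : ℝ) : ℝ := ∑ n ∈ Icc 1 ⌊t⌋₊, hr j n

/-- `L_j(s) = ∑ hr j n n^{-s}` continued to `Re s > 1/2` (for `j ≥ 1`) -/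
noncomputable def HL (j : ℕ) (s : ℂ) : ℂ :=
  s * ∫ t in Set.Ioi (1 : ℝ), (HA j t : ℂ) * (t : ℂ) ^ (-(s + 1))

/-- `(s - 1) L_0(s)` continued to `Re s > 1/2` -/
noncomputable def H0 (s : ℂ) : ℂ :=
  Real.pi / 8 * s + s * (s - 1) * ∫ t in Set.Ioi (1 : ℝ),
    ((HA 0 t - Real.pi / 8 * t : ℝ) : ℂ) * (t : ℂ) ^ (-(s + 1))

/-- summatory function of `x4` -/
noncomputable def XA (t : ℝ) : ℝ := ∑ n ∈ Icc 1 ⌊t⌋₊, x4 n

/-- `L(χ₋₄, s)` continued to `Re s > 0` -/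
noncomputable def LX (s : ℂ) : ℂ :=
  s * ∫ t in Set.Ioi (1 : ℝ), (XA t : ℂ) * (t : ℂ) ^ (-(s + 1))

/-- `(1 - 2^{-s}) ζ(s)` -/
noncomputable def z2 (s : ℂ) : ℂ := (1 - (2 : ℂ) ^ (-s)) * riemannZeta s

/-- `∑ lam(n²) n^{-w}` -/
noncomputable def A2 (w : ℂ) : ℂ := LX w * HL 1 w / z2 (2 * w)

/-- `(w - 1) ∑ lam(n)² n^{-w}` -/
noncomputable def R1 (w : ℂ) : ℂ := H0 w * HL 1 w / z2 (2 * w)

/-- sharp prime sums `∑_{p ≤ y} f(p) p^{-1-iv}` -/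
noncomputable def ps (f : ℕ → ℝ) (y v : ℝ) : ℂ :=
  ∑ p ∈ (Icc 1 ⌊y⌋₊).filter Nat.Prime, (f p : ℂ) * (p : ℂ) ^ (-(1 + v * I))

end Pool.Agent.CZ.Inp
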