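import Mathlib
import Pool.Agent.CZ.Defs
import Pool.Agent.CZ.InpDefs

/-!
# Critical zeros (MP_553913_nt), part (I): Gaussian blocks, definitions
-/

set_option autoImplicit false

open Complex Finset MeasureTheory

namespace Pool.Agent.CZ

open Pool.Agent.H5 (c bd)
open Pool.Agent.ZD (Lf gk eps)
open Pool.Agent.CZ.Inp (lam A2 R1)

/-- Gaussian window at `log n` -/
noncomputable def ga (x : ℝ) (n : ℕ) : ℝ := Real.exp (-((Real.log n - x) ^ 2 / 2))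

/-- contribution of the frequency `k` after Poisson summation in `D` -/
noncomputable def PK (k : ℤ) (Z x t : ℝ) : ℂ :=
  ∑' n : ℕ × ℕ, gk k n.1 n.2 * ((Real.sqrt (n.1 * n.2 : ℕ) : ℝ) : ℂ)⁻¹ *
    exp (-(Real.pi * k ^ 2 * Z ^ 2 / ((n.1 * n.2 : ℕ) : ℂ) ^ 2)) *
    ((npow n.1 t * (ga x n.1 : ℂ)) * (npow n.2 (-t) * (ga x n.2 : ℂ)))

/-- the sum over `(b₁, b₂)` -/
noncomputable def YS (k : ℤ) (q : ℕ) (x t₁ t₂ : ℝ) : ℂ :=
  ∑' b : ℕ × ℕ, eps k q b.1 b.2 *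
    ((npow b.1 t₁ * BB q (x - Real.log b.1) t₁) * (npow b.2 t₂ * BB q (x - Real.log b.2) t₂))

/-- normalised kernel `eps / √(b₁ b₂)` -/
noncomputable def epsn (k : ℤ) (q a b : ℕ) : ℂ := eps k q a b / (Real.sqrt (a * b : ℕ) : ℂ)

/-- coefficients of `A2(2 w₁) A2(2 w₂) R(w₁ + w₂)` -/
noncomputable def G1 (a b : ℕ) : ℝ :=
  ∑ l ∈ (a.gcd b).divisors,
    if IsSquare (a / l) ∧ IsSquare (b / l) then lam (a / l) * lam (b / l) * lam l ^ 2 else 0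

/-- reduced kernel: Dirichlet convolution of `epsn` and `G1` -/
noncomputable def E0 (k : ℤ) (q a b : ℕ) : ℂ :=
  ∑ x ∈ a.divisors, ∑ y ∈ b.divisors, epsn k q x y * (G1 (a / x) (b / y) : ℂ)

/-- multiplier `1 / A2(1 + 2η + 2 i v)` -/
noncomputable def mA (η v : ℝ) : ℂ := (A2 (1 + 2 * η + 2 * v * I))⁻¹
/-- multiplier `1 / R(1 + 2η + i v)` -/
noncomputable def mR (η v : ℝ) : ℂ := (2 * η + v * I) / R1 (1 + 2 * η + v * I)

/-- the `L`-function on the line `Re s = 1 + η` -/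
noncomputable def LfL (η : ℝ) (q : ℕ) (v : ℝ) : ℂ := Lf q (1 + η + v * I)

/-- Gabor integrand -/
noncomputable def gI (F : ℝ → ℂ) (x t v : ℝ) : ℂ :=
  F v * exp (I * (v - t) * x) * (Real.exp (-((v - t) ^ 2 / 2)) : ℂ)

/-- Gabor transform -/
noncomputable def Gt (F : ℝ → ℂ) (x t : ℝ) : ℂ := ∫ v : ℝ, gI F x t v

/-- `C²` function with polynomial bounds -/
def PolyC2 (C : ℝ) (A : ℕ) (m : ℝ → ℂ) : Prop := ContDiff ℝ 2 m ∧ ∀ v : ℝ,
  ‖m v‖ ≤ C * (1 + |v|) ^ A ∧ ‖deriv m v‖ ≤ C * (1 + |v|) ^ A ∧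
    ‖iteratedDeriv 2 m v‖ ≤ C * (1 + |v|) ^ A

/-- two Gabor transforms with three multipliers -/
noncomputable def LS3 (F G m₁ m₂ m₃ : ℝ → ℂ) (x₁ x₂ t₁ t₂ : ℝ) : ℂ :=
  ∫ v : ℝ × ℝ, gI F x₁ t₁ v.1 * gI G x₂ t₂ v.2 * (m₁ v.1 * m₂ v.2 * m₃ (v.1 + v.2))

/-- local majorant of `E0` -/
noncomputable def ym (A v p e : ℕ) : ℝ :=
  if e = 0 then 1 else if p ∣ v then ((e : ℝ) + 1) ^ A * Real.sqrt p ^ min e (3 * v.factorization p + 6)
  else if e ≤ 2 then 0 else ((e : ℝ) + 1) ^ A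

/-- majorant of `E0`, independent of `q` -/
noncomputable def YM (A v n : ℕ) : ℝ := n.factorization.prod (fun p e => ym A v p e)

/-- squarefree numbers up to `X` -/
noncomputable def sqf (X : ℝ) : Finset ℕ := (Icc 1 ⌊X⌋₊).filter Squarefree

/-- moment bound with exponent `a` of the logarithm -/
def HypE (a : ℝ) : Prop := ∀ κ : ℝ, 0 < κ → ∃ C : ℝ, 0 < C ∧ ∀ (X x t : ℝ), 3 ≤ X →
  ∑ q ∈ sqf X, ‖BB q x t‖ ^ 2 ≤ C * X * (Real.log X) ^ a * Real.exp (κ * |t|)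

/-- the same, good for `x ≤ log X` only -/
def HypL (a : ℝ) : Prop := ∀ κ : ℝ, 0 < κ → ∃ C : ℝ, 0 < C ∧ ∀ (X x t : ℝ), 3 ≤ X →
  ∑ q ∈ sqf X, ‖BB q x t‖ ^ 2 ≤
    C * (X + Real.exp (3 / 2 * x) / Real.sqrt X) * (Real.log X) ^ a * Real.exp (κ * |t|)

/-- kernel of the functional equation in the shift variable -/
noncomputable def wE (y : ℝ) : ℝ := min (Real.exp (y / 2)) (Real.exp (-(2 * y)))

end Pool.Agent.CZ
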