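import Mathlib
import Pool.Agent.CZ.IDefs
import Pool.Agent.ZD.E1

/-!
# Critical zeros (MP_553913_nt), part (I), module BAS: elementary facts on Gaussian blocks
-/

set_option autoImplicit false

open Complex Finset MeasureTheory

namespace Pool.Agent.CZ

open Pool.Agent.H5 (c bd)

theorem BB_eq (D : ℤ) (x t : ℝ) : BB D x t = ∑' n : ℕ, (bd D n : ℂ) * npow n t * (ga x n : ℂ) := rfl

theorem norm_npow {n : ℕ} (hn : 0 < n) (t : ℝ) : ‖npow n t‖ = (n : ℝ)⁻¹ := by
  unfold npow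
  rw [norm_natCast_cpow_of_pos hn]
  have : (-(1 + (t : ℂ) * I)).re = -1 := by simp
  rw [this, Real.rpow_neg_one]

theorem bas_ga_pos (x : ℝ) (n : ℕ) : 0 < ga x n := Real.exp_pos _

theorem bas_ga_le_one (x : ℝ) (n : ℕ) : ga x n ≤ 1 := by
  unfold ga
  apply Real.exp_le_one_iff.2
  have := sq_nonneg (Real.log n - x)
  linarith

theorem bas_norm_ga (x : ℝ) (n : ℕ) : ‖(ga x n : ℂ)‖ = ga x n := by
  rw [Complex.norm_real, Real.norm_eq_abs, abs_of_pos (bas_ga_pos x n)]

theorem bas_bd_zero (D : ℤ) : bd D 0 = 0 := by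
  unfold bd
  rw [Pool.Agent.H5.c_zero, mul_zero]

theorem bas_abs_bd_le (D : ℤ) (n : ℕ) : |(bd D n : ℝ)| ≤ |(c n : ℝ)| := by
  unfold bd
  push_cast
  rw [abs_mul]
  have h : |((jacobiSym D n : ℤ) : ℝ)| ≤ 1 := by
    rcases jacobiSym.trichotomy D n with h | h | h <;> simp [h]
  calc |((jacobiSym D n : ℤ) : ℝ)| * |(c n : ℝ)| ≤ 1 * |(c n : ℝ)| :=
        mul_le_mul_of_nonneg_right h (abs_nonneg _)
    _ = |(c n : ℝ)| := one_mul _

theorem bas_divisors_le (n : ℕ) : (n.divisors.card : ℝ) ≤ 2 * Real.sqrt n := by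
  classical
  have h1 : n.divisors ⊆ (Icc 1 (Nat.sqrt n)) ∪ (Icc 1 (Nat.sqrt n)).image (fun d => n / d) := by
    intro d hd
    have hdn := Nat.dvd_of_mem_divisors hd
    have hd0 : 0 < d := Nat.pos_of_mem_divisors hd
    have hn0 : n ≠ 0 := (Nat.mem_divisors.1 hd).2
    obtain ⟨e, rfl⟩ := hdn
    have he0 : 0 < e := by
      rcases Nat.eq_zero_or_pos e with rfl | h
      · simp at hn0
      · exact h
    rw [Finset.mem_union, Finset.mem_image, Finset.mem_Icc]
    by_cases hs : d ≤ Nat.sqrt (d * e)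
    · left; exact ⟨hd0, hs⟩
    · right
      refine ⟨e, ?_, ?_⟩
      · rw [Finset.mem_Icc]
        refine ⟨he0, ?_⟩
        by_contra hcon
        push Not at hs hcon
        have h2 := Nat.sqrt_lt.1 hs
        have h3 := Nat.sqrt_lt.1 hcon
        nlinarith
      · exact Nat.mul_div_cancel _ he0
  have h2 : n.divisors.card ≤ 2 * Nat.sqrt n := by
    calc n.divisors.card ≤ ((Icc 1 (Nat.sqrt n)) ∪ (Icc 1 (Nat.sqrt n)).image (fun d => n / d)).card :=
          Finset.card_le_card h1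
      _ ≤ (Icc 1 (Nat.sqrt n)).card + ((Icc 1 (Nat.sqrt n)).image (fun d => n / d)).card :=
          Finset.card_union_le _ _
      _ ≤ (Icc 1 (Nat.sqrt n)).card + (Icc 1 (Nat.sqrt n)).card :=
          Nat.add_le_add_left Finset.card_image_le _
      _ = 2 * Nat.sqrt n := by rw [Nat.card_Icc]; omega
  calc (n.divisors.card : ℝ) ≤ ((2 * Nat.sqrt n : ℕ) : ℝ) := by exact_mod_cast h2
    _ = 2 * (Nat.sqrt n : ℝ) := by push_cast; ring
    _ ≤ 2 * Real.sqrt n := by
        gcongr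
        exact Real.nat_sqrt_le_real_sqrt

theorem bas_abs_bd_le' (D : ℤ) (n : ℕ) : |(bd D n : ℝ)| ≤ 2 * n := by
  calc |(bd D n : ℝ)| ≤ |(c n : ℝ)| := bas_abs_bd_le D n
    _ ≤ n.divisors.card * Real.sqrt n := Pool.Agent.ZD.abs_c_le' n
    _ ≤ (2 * Real.sqrt n) * Real.sqrt n := by
        gcongr
        exact bas_divisors_le n
    _ = 2 * n := by rw [mul_assoc, Real.mul_self_sqrt (Nat.cast_nonneg n)]

/-- each term of the block is at most twice the window -/
theorem bas_term_le (D : ℤ) (x t : ℝ) (n : ℕ) :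
    ‖(bd D n : ℂ) * npow n t * (ga x n : ℂ)‖ ≤ if n = 0 then 0 else 2 * ga x n := by
  split_ifs with h0
  · subst h0; simp [bas_bd_zero]
  · have hn : 0 < n := Nat.pos_of_ne_zero h0
    rw [norm_mul, norm_mul, norm_npow hn, bas_norm_ga, Complex.norm_intCast]
    have hn' : (0 : ℝ) < n := by exact_mod_cast hn
    have h1 := bas_abs_bd_le' D n
    have h2 : |(bd D n : ℝ)| * (n : ℝ)⁻¹ ≤ 2 := by
      rw [← div_eq_mul_inv, div_le_iff₀ hn']
      exact h1
    exact mul_le_mul_of_nonneg_right h2 (bas_ga_pos x n).le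

theorem bas_tilt_ga {n : ℕ} (hn : 0 < n) (a x : ℝ) :
    (n : ℝ) ^ a * ga x n = Real.exp (a * x + a ^ 2 / 2) * ga (x + a) n := by
  have hn' : (0 : ℝ) < n := by exact_mod_cast hn
  unfold ga
  rw [Real.rpow_def_of_pos hn', ← Real.exp_add, ← Real.exp_add]
  congr 1
  ring

theorem bas_pow_ga_le {n : ℕ} (hn : 0 < n) (a x : ℝ) :
    (n : ℝ) ^ a * ga x n ≤ Real.exp (a * x + a ^ 2 / 2) := by
  rw [bas_tilt_ga hn]
  calc Real.exp (a * x + a ^ 2 / 2) * ga (x + a) n ≤ Real.exp (a * x + a ^ 2 / 2) * 1 := by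
        gcongr
        exact bas_ga_le_one _ _
    _ = _ := mul_one _

/-- majorant with decay `n⁻²` -/
theorem bas_pow_ga_le' {n : ℕ} (hn : 0 < n) (a x : ℝ) :
    (n : ℝ) ^ a * ga x n ≤ Real.exp ((a + 2) * x + (a + 2) ^ 2 / 2) * (n : ℝ) ^ (-2 : ℝ) := by
  have hn' : (0 : ℝ) < n := by exact_mod_cast hn
  have h1 := bas_pow_ga_le hn (a + 2) x
  rw [Real.rpow_add hn'] at h1
  have h2 : (n : ℝ) ^ a * ga x n = ((n : ℝ) ^ a * (n : ℝ) ^ (2 : ℝ) * ga x n) * (n : ℝ) ^ (-2 : ℝ) := by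
    have : (n : ℝ) ^ (2 : ℝ) * (n : ℝ) ^ (-2 : ℝ) = 1 := by
      rw [← Real.rpow_add hn']; norm_num
    calc (n : ℝ) ^ a * ga x n = (n : ℝ) ^ a * ga x n * ((n : ℝ) ^ (2 : ℝ) * (n : ℝ) ^ (-2 : ℝ)) := by
          rw [this, mul_one]
      _ = _ := by ring
  rw [h2]
  gcongr

theorem bas_summable_two : Summable (fun n : ℕ => (n : ℝ) ^ (-2 : ℝ)) :=
  Real.summable_nat_rpow.2 (by norm_num)

theorem BB_summable (D : ℤ) (x t : ℝ) (a : ℝ) :
    Summable (fun n : ℕ => (n : ℝ) ^ a * ‖(bd D n : ℂ) * npow n t * (ga x n : ℂ)‖) := by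
  refine Summable.of_nonneg_of_le (fun n => by positivity) (fun n => ?_)
    (bas_summable_two.mul_left (2 * Real.exp ((a + 2) * x + (a + 2) ^ 2 / 2)))
  have h := bas_term_le D x t n
  rcases Nat.eq_zero_or_pos n with rfl | hn
  · rw [if_pos rfl] at h
    have h0 : ‖(bd D 0 : ℂ) * npow 0 t * (ga x 0 : ℂ)‖ = 0 := le_antisymm h (norm_nonneg _)
    rw [h0, mul_zero]
    positivity
  · rw [if_neg hn.ne'] at h
    calc (n : ℝ) ^ a * ‖(bd D n : ℂ) * npow n t * (ga x n : ℂ)‖ ≤ (n : ℝ) ^ a * (2 * ga x n) := by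
          gcongr
      _ = 2 * ((n : ℝ) ^ a * ga x n) := by ring
      _ ≤ 2 * (Real.exp ((a + 2) * x + (a + 2) ^ 2 / 2) * (n : ℝ) ^ (-2 : ℝ)) :=
          mul_le_mul_of_nonneg_left (bas_pow_ga_le' hn a x) (by norm_num)
      _ = _ := by ring

theorem bas_norm_summable (D : ℤ) (x t : ℝ) :
    Summable (fun n : ℕ => ‖(bd D n : ℂ) * npow n t * (ga x n : ℂ)‖) := by
  have := BB_summable D x t 0
  simpa using this

/-! ### the sum of the windows -/

/-- telescoping series -/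
theorem bas_tele {y : ℝ} (hy : 0 < y) (N : ℕ) :
    ∑ n ∈ Finset.range N, ((y + n) * (y + n + 1))⁻¹ = y⁻¹ - (y + N)⁻¹ := by
  induction N with
  | zero => simp
  | succ N ih =>
    rw [Finset.sum_range_succ, ih]
    have h1 : 0 < y + N := by positivity
    have h2 : 0 < y + N + 1 := by positivity
    push_cast
    have h3 : y + (N + 1) = y + N + 1 := by ring
    rw [h3]
    field_simp
    ring

theorem bas_ga_le {n : ℕ} (hn : 0 < n) (x : ℝ) :
    ga x n ≤ 4 * Real.exp 2 * (Real.exp x) ^ 2 / (Real.exp x + n) ^ 2 := by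
  have hn' : (0 : ℝ) < n := by exact_mod_cast hn
  have hx := Real.exp_pos x
  rw [le_div_iff₀ (by positivity)]
  obtain ⟨z, hz⟩ : ∃ z, Real.log n = x + z := ⟨Real.log n - x, by ring⟩
  have hnz : (n : ℝ) = Real.exp x * Real.exp z := by
    rw [← Real.exp_add, ← hz, Real.exp_log hn']
  have hg : ga x n = Real.exp (-(z ^ 2 / 2)) := by
    unfold ga
    rw [hz]
    congr 2
    ring
  rw [hg, hnz]
  have h1 : Real.exp (-(z ^ 2 / 2)) * (1 + Real.exp z) ^ 2 ≤ 4 * Real.exp 2 := by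
    rcases le_total z 0 with h | h
    · have h2 : Real.exp z ≤ 1 := Real.exp_le_one_iff.2 h
      have h3 : (1 + Real.exp z) ^ 2 ≤ 4 := by nlinarith [Real.exp_pos z]
      have h4 : Real.exp (-(z ^ 2 / 2)) ≤ Real.exp 2 := by
        apply Real.exp_le_exp.2
        nlinarith [sq_nonneg z]
      calc Real.exp (-(z ^ 2 / 2)) * (1 + Real.exp z) ^ 2 ≤ Real.exp 2 * 4 := by gcongr
        _ = _ := by ring
    · have h2 : 1 ≤ Real.exp z := Real.one_le_exp h
      have h3 : (1 + Real.exp z) ^ 2 ≤ 4 * Real.exp (2 * z) := by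
        have : Real.exp (2 * z) = Real.exp z ^ 2 := by
          rw [← Real.exp_nat_mul]; push_cast; ring_nf
        rw [this]
        nlinarith
      calc Real.exp (-(z ^ 2 / 2)) * (1 + Real.exp z) ^ 2 ≤
            Real.exp (-(z ^ 2 / 2)) * (4 * Real.exp (2 * z)) := by gcongr
        _ = 4 * Real.exp (-(z ^ 2 / 2) + 2 * z) := by rw [Real.exp_add]; ring
        _ ≤ 4 * Real.exp 2 := by
          gcongr
          nlinarith [sq_nonneg (z - 2)]
  calc Real.exp (-(z ^ 2 / 2)) * (Real.exp x + Real.exp x * Real.exp z) ^ 2 =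
        (Real.exp (-(z ^ 2 / 2)) * (1 + Real.exp z) ^ 2) * Real.exp x ^ 2 := by ring
    _ ≤ 4 * Real.exp 2 * Real.exp x ^ 2 := by gcongr

/-- the sum of the windows over `n ≥ 1` -/
theorem bas_sum_ga (x : ℝ) :
    Summable (fun n : ℕ => if n = 0 then 0 else ga x n) ∧
    ∑' n : ℕ, (if n = 0 then 0 else ga x n) ≤ 4 * Real.exp 2 * Real.exp x := by
  have hx := Real.exp_pos x
  have hnn : ∀ n : ℕ, 0 ≤ (if n = 0 then 0 else ga x n) := by
    intro n
    split_ifs
    · exact le_rfl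
    · exact (bas_ga_pos x n).le
  have hb : ∀ N : ℕ, ∑ n ∈ Finset.range N, (if n = 0 then 0 else ga x n) ≤
      4 * Real.exp 2 * Real.exp x := by
    intro N
    calc ∑ n ∈ Finset.range N, (if n = 0 then 0 else ga x n) ≤
          ∑ n ∈ Finset.range (N + 1), (if n = 0 then 0 else ga x n) :=
          Finset.sum_le_sum_of_subset_of_nonneg (Finset.range_mono (Nat.le_succ N))
            (fun n _ _ => hnn n)
      _ = ∑ n ∈ Finset.range N, ga x (n + 1) := by
          rw [Finset.sum_range_succ']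
          simp
      _ ≤ ∑ n ∈ Finset.range N, 4 * Real.exp 2 * Real.exp x ^ 2 *
            ((Real.exp x + n) * (Real.exp x + n + 1))⁻¹ := by
          apply Finset.sum_le_sum
          intro n _
          refine (bas_ga_le (Nat.succ_pos n) x).trans ?_
          rw [div_eq_mul_inv]
          gcongr
          push_cast
          nlinarith [Nat.cast_nonneg (α := ℝ) n]
      _ = 4 * Real.exp 2 * Real.exp x ^ 2 * ((Real.exp x)⁻¹ - (Real.exp x + N)⁻¹) := by
          rw [← Finset.mul_sum, bas_tele hx]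
      _ ≤ 4 * Real.exp 2 * Real.exp x ^ 2 * (Real.exp x)⁻¹ := by
          gcongr
          have : 0 < (Real.exp x + N)⁻¹ := by positivity
          linarith
      _ = 4 * Real.exp 2 * Real.exp x := by
          field_simp
  have hs := summable_of_sum_range_le hnn hb
  exact ⟨hs, hs.tsum_le_of_sum_range_le hb⟩

/-- crude bound, arbitrary decay for `x → -∞` -/
theorem BB_crude (A : ℕ) : ∃ C : ℝ, 0 < C ∧ ∀ (D : ℤ) (x t : ℝ), ‖BB D x t‖ ≤ C * Real.exp ((A + 1) * x) := by
  refine ⟨2 * Real.exp ((A : ℝ) ^ 2 / 2) * (4 * Real.exp 2) * Real.exp A, by positivity, ?_⟩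
  intro D x t
  obtain ⟨h1, h2⟩ := bas_sum_ga (x + A)
  have hterm : ∀ n : ℕ, ‖(bd D n : ℂ) * npow n t * (ga x n : ℂ)‖ ≤
      2 * Real.exp (A * x + (A : ℝ) ^ 2 / 2) * (if n = 0 then 0 else ga (x + A) n) := by
    intro n
    have h := bas_term_le D x t n
    rcases Nat.eq_zero_or_pos n with rfl | hn
    · simpa using h
    · rw [if_neg hn.ne'] at h ⊢
      have hn1 : (1 : ℝ) ≤ (n : ℝ) ^ (A : ℝ) := by
        apply Real.one_le_rpow
        · exact_mod_cast hn
        · positivity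
      calc _ ≤ 2 * ga x n := h
        _ ≤ 2 * ((n : ℝ) ^ (A : ℝ) * ga x n) := by
            have := mul_le_mul_of_nonneg_right hn1 (bas_ga_pos x n).le
            linarith
        _ = 2 * (Real.exp (A * x + (A : ℝ) ^ 2 / 2) * ga (x + A) n) := by rw [bas_tilt_ga hn]
        _ = _ := by ring
  rw [BB_eq]
  calc ‖∑' n : ℕ, (bd D n : ℂ) * npow n t * (ga x n : ℂ)‖ ≤
        ∑' n : ℕ, ‖(bd D n : ℂ) * npow n t * (ga x n : ℂ)‖ :=
        norm_tsum_le_tsum_norm (bas_norm_summable D x t)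
    _ ≤ ∑' n : ℕ, 2 * Real.exp (A * x + (A : ℝ) ^ 2 / 2) * (if n = 0 then 0 else ga (x + A) n) :=
        (bas_norm_summable D x t).tsum_le_tsum hterm (h1.mul_left _)
    _ = 2 * Real.exp (A * x + (A : ℝ) ^ 2 / 2) * ∑' n : ℕ, (if n = 0 then 0 else ga (x + A) n) :=
        tsum_mul_left
    _ ≤ 2 * Real.exp (A * x + (A : ℝ) ^ 2 / 2) * (4 * Real.exp 2 * Real.exp (x + A)) := by gcongr
    _ = _ := by
        have h3 : Real.exp (A * x + (A : ℝ) ^ 2 / 2) = Real.exp (A * x) * Real.exp ((A : ℝ) ^ 2 / 2) :=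
          Real.exp_add _ _
        have h4 : Real.exp (x + A) = Real.exp x * Real.exp A := Real.exp_add _ _
        have h5 : Real.exp (((A : ℝ) + 1) * x) = Real.exp (A * x) * Real.exp x := by
          rw [← Real.exp_add]; ring_nf
        rw [h3, h4, h5]
        ring

theorem bas_npow_cont {n : ℕ} (hn : 0 < n) : Continuous (fun t : ℝ => npow n t) := by
  unfold npow
  have hn' : (n : ℂ) ≠ 0 := by exact_mod_cast hn.ne'
  refine Continuous.const_cpow ?_ (Or.inl hn')
  fun_prop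

theorem BB_cont (D : ℤ) : Continuous (fun p : ℝ × ℝ => BB D p.1 p.2) := by
  rw [continuous_iff_continuousAt]
  intro p₀
  obtain ⟨R, hR⟩ : ∃ R : ℝ, |p₀.1| < R := ⟨|p₀.1| + 1, by linarith⟩
  have hopen : IsOpen {p : ℝ × ℝ | |p.1| < R} :=
    isOpen_lt (continuous_abs.comp continuous_fst) continuous_const
  have hc : ContinuousOn (fun p : ℝ × ℝ => BB D p.1 p.2) {p : ℝ × ℝ | |p.1| < R} := by
    simp only [BB_eq]
    refine continuousOn_tsum (u := fun n : ℕ => 2 * Real.exp (2 * R + 2) * (n : ℝ) ^ (-2 : ℝ))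
      (fun n => ?_) (bas_summable_two.mul_left _) (fun n p hp => ?_)
    · apply Continuous.continuousOn
      rcases Nat.eq_zero_or_pos n with rfl | hn
      · simp only [bas_bd_zero]
        simp only [Int.cast_zero, zero_mul]
        exact continuous_const
      · have h1 : Continuous (fun p : ℝ × ℝ => npow n p.2) := (bas_npow_cont hn).comp continuous_snd
        have h2 : Continuous (fun p : ℝ × ℝ => (ga p.1 n : ℂ)) := by
          unfold ga
          fun_prop
        exact (continuous_const.mul h1).mul h2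
    · have h := bas_term_le D p.1 p.2 n
      refine h.trans ?_
      split_ifs with h0
      · positivity
      · have hn : 0 < n := Nat.pos_of_ne_zero h0
        have h1 := bas_pow_ga_le' hn 0 p.1
        rw [Real.rpow_zero, one_mul] at h1
        have h2 : p.1 ≤ R := (le_abs_self _).trans (le_of_lt hp)
        have h3 : Real.exp ((0 + 2) * p.1 + (0 + 2) ^ 2 / 2) ≤ Real.exp (2 * R + 2) := by
          apply Real.exp_le_exp.2
          linarith
        calc 2 * ga p.1 n ≤ 2 * (Real.exp ((0 + 2) * p.1 + (0 + 2) ^ 2 / 2) * (n : ℝ) ^ (-2 : ℝ)) := by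
              gcongr
          _ ≤ 2 * (Real.exp (2 * R + 2) * (n : ℝ) ^ (-2 : ℝ)) := by gcongr
          _ = _ := by ring
  exact hc.continuousAt (hopen.mem_nhds hR)

theorem bas_conj_npow {n : ℕ} (hn : 0 < n) (t : ℝ) :
    (starRingEnd ℂ) (npow n t) = npow n (-t) := by
  unfold npow
  have harg : (n : ℂ).arg ≠ Real.pi := by
    rw [Complex.natCast_arg]
    exact Real.pi_ne_zero.symm
  have h1 : (n : ℂ) ^ (-(1 + ((-t : ℝ) : ℂ) * I)) =
      (n : ℂ) ^ ((starRingEnd ℂ) (-(1 + (t : ℂ) * I))) := by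
    congr 1
    simp
  rw [h1, Complex.cpow_conj _ _ harg, Complex.conj_natCast]

theorem BB_conj (D : ℤ) (x t : ℝ) : (starRingEnd ℂ) (BB D x t) = BB D x (-t) := by
  rw [BB_eq, BB_eq, Complex.conj_tsum]
  congr 1
  ext n
  rcases Nat.eq_zero_or_pos n with rfl | hn
  · simp [bas_bd_zero]
  · rw [map_mul, map_mul, bas_conj_npow hn, Complex.conj_ofReal]
    simp

/-- tilt, termwise -/
theorem bas_tilt_term (b m : ℕ) (hb : 0 < b) (hm : 0 < m) (u : ℂ) (x t : ℝ) :
    ((b * m : ℕ) : ℂ) ^ u * (npow (b * m) t * (ga x (b * m) : ℂ)) =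
      (Real.exp (u.re * x + u.re ^ 2 / 2) : ℂ) * npow b (t - u.im) *
        (npow m (t - u.im) * (ga (x + u.re - Real.log b) m : ℂ)) := by
  have hbm : 0 < b * m := Nat.mul_pos hb hm
  have hbm' : ((b * m : ℕ) : ℂ) ≠ 0 := by exact_mod_cast hbm.ne'
  have hb' : (b : ℝ) ≠ 0 := by exact_mod_cast hb.ne'
  have hm' : (m : ℝ) ≠ 0 := by exact_mod_cast hm.ne'
  have hpow : ((b * m : ℕ) : ℂ) ^ u * npow (b * m) t =
      (((b * m : ℕ) : ℝ) ^ u.re : ℝ) * (npow b (t - u.im) * npow m (t - u.im)) := by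
    have h1 : npow (b * m) (t - u.im) = npow b (t - u.im) * npow m (t - u.im) := by
      unfold npow
      rw [Nat.cast_mul, Complex.natCast_mul_natCast_cpow]
    rw [← h1]
    unfold npow
    rw [← Complex.cpow_add _ _ hbm', Complex.ofReal_cpow (Nat.cast_nonneg _), Complex.ofReal_natCast,
      ← Complex.cpow_add _ _ hbm']
    congr 1
    apply Complex.ext <;> simp <;> ring
  have hga : ga (x + u.re) (b * m) = ga (x + u.re - Real.log b) m := by
    unfold ga
    rw [Nat.cast_mul, Real.log_mul hb' hm']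
    congr 3
    ring
  have hreal : (((b * m : ℕ) : ℝ) ^ u.re : ℝ) * ga x (b * m) =
      Real.exp (u.re * x + u.re ^ 2 / 2) * ga (x + u.re - Real.log b) m := by
    rw [← hga]
    exact bas_tilt_ga hbm u.re x
  calc ((b * m : ℕ) : ℂ) ^ u * (npow (b * m) t * (ga x (b * m) : ℂ)) =
        (((b * m : ℕ) : ℂ) ^ u * npow (b * m) t) * (ga x (b * m) : ℂ) := by ring
    _ = ((((b * m : ℕ) : ℝ) ^ u.re * ga x (b * m) : ℝ) : ℂ) *
          (npow b (t - u.im) * npow m (t - u.im)) := by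
        rw [hpow]
        push_cast
        ring
    _ = _ := by
        rw [hreal]
        push_cast
        ring

/-- tilt -/
theorem BB_tilt (D : ℤ) (b : ℕ) (hb : 0 < b) (u : ℂ) (x t : ℝ) :
    Summable (fun m : ℕ => ‖(bd D m : ℂ) * (((b * m : ℕ) : ℂ) ^ u * (npow (b * m) t * (ga x (b * m) : ℂ)))‖) ∧
    ∑' m : ℕ, (bd D m : ℂ) * (((b * m : ℕ) : ℂ) ^ u * (npow (b * m) t * (ga x (b * m) : ℂ))) =
      Real.exp (u.re * x + u.re ^ 2 / 2) * (npow b (t - u.im) *
        BB D (x + u.re - Real.log b) (t - u.im)) := by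
  have hterm : ∀ m : ℕ, (bd D m : ℂ) * (((b * m : ℕ) : ℂ) ^ u * (npow (b * m) t * (ga x (b * m) : ℂ))) =
      ((Real.exp (u.re * x + u.re ^ 2 / 2) : ℂ) * npow b (t - u.im)) *
        ((bd D m : ℂ) * npow m (t - u.im) * (ga (x + u.re - Real.log b) m : ℂ)) := by
    intro m
    rcases Nat.eq_zero_or_pos m with rfl | hm
    · simp [bas_bd_zero]
    · rw [bas_tilt_term b m hb hm]
      ring
  constructor
  · simp only [hterm, norm_mul _ ((bd D _ : ℂ) * npow _ _ * _)]
    exact (bas_norm_summable D _ _).mul_left _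
  · simp only [hterm]
    rw [tsum_mul_left, BB_eq]
    ring

end Pool.Agent.CZ
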