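import Mathlib
import Pool.Agent.CZ.Defs

/-!
# Critical zeros (MP_553913_nt): the random model
-/

set_option autoImplicit false

open Complex Finset MeasureTheory

namespace Pool.Agent.CZ

open Pool.Agent.H5 (c bd)
open Pool.Agent.ZD (S Lf nu nuF tau)

theorem rm_c_even {n : ℕ} (hn : n % 2 = 0) : c n = 0 := by
  unfold Pool.Agent.H5.c
  rw [Pool.Agent.H5.C_of_even hn]
  simp

/-! ### averages over periods -/

/-- average over `0, ..., M - 1` -/
noncomputable def rmA (M : ℕ) (f : ℤ → ℂ) : ℂ := (∑ D ∈ range M, f D) / M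

theorem rm_periodic {M : ℕ} {f : ℤ → ℂ} (hf : ∀ D : ℤ, f (D + M) = f D) :
    Function.Periodic (fun n : ℕ => f n) M := by
  intro n
  simp only
  rw [Nat.cast_add]
  exact hf n

theorem rm_mod {M : ℕ} {f : ℤ → ℂ} (hf : ∀ D : ℤ, f (D + M) = f D) (n : ℕ) :
    f ((n % M : ℕ) : ℤ) = f n := (rm_periodic hf).map_mod_nat n

theorem rm_mult {M N : ℕ} {f : ℤ → ℂ} (hf : ∀ D : ℤ, f (D + M) = f D) (h : M ∣ N) (D : ℤ) :
    f (D + N) = f D := by
  obtain ⟨k, rfl⟩ := h
  induction k with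
  | zero => simp
  | succ k ih =>
    have : (D + ((M * (k + 1) : ℕ) : ℤ)) = (D + ((M * k : ℕ) : ℤ)) + M := by push_cast; ring
    rw [this, hf, ih]

theorem rm_const {M N : ℕ} {f : ℤ → ℂ} (hf : ∀ D : ℤ, f (D + M) = f D) (h : M ∣ N) (hN : 0 < N) :
    rmA N f = rmA M f := by
  obtain ⟨k, rfl⟩ := h
  have hM : 0 < M := Nat.pos_of_mul_pos_right hN |> fun h => by
    rcases Nat.eq_zero_or_pos M with h0 | h0
    · subst h0; simp at hN
    · exact h0
  have hk : 0 < k := by
    rcases Nat.eq_zero_or_pos k with h0 | h0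
    · subst h0; simp at hN
    · exact h0
  have key : ∀ j : ℕ, ∑ D ∈ range (M * j), f D = j * ∑ D ∈ range M, f D := by
    intro j
    induction j with
    | zero => simp
    | succ j ih =>
      rw [Nat.mul_succ, Finset.sum_range_add, ih]
      have : ∑ x ∈ range M, f ((M * j + x : ℕ) : ℤ) = ∑ x ∈ range M, f x := by
        refine Finset.sum_congr rfl fun x _ => ?_
        have := rm_mult hf (dvd_mul_right M j) x
        rw [← this]
        congr 1
        push_cast
        ring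
      rw [this]
      push_cast
      ring
  unfold rmA
  rw [key]
  have h1 : (M : ℂ) ≠ 0 := by exact_mod_cast hM.ne'
  have h2 : (k : ℂ) ≠ 0 := by exact_mod_cast hk.ne'
  push_cast
  field_simp

theorem rm_coprime {M N : ℕ} {f g : ℤ → ℂ} (hf : ∀ D : ℤ, f (D + M) = f D)
    (hg : ∀ D : ℤ, g (D + N) = g D) (h : M.Coprime N) (hM : 0 < M) (hN : 0 < N) :
    rmA (M * N) (fun D => f D * g D) = rmA M f * rmA N g := by
  unfold rmA
  have key : ∑ D ∈ range (M * N), f D * g D = (∑ D ∈ range M, f D) * ∑ D ∈ range N, g D := by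
    rw [Finset.sum_mul_sum, ← Finset.sum_product']
    refine Finset.sum_bij' (fun D _ => (D % M, D % N))
      (fun x _ => (Nat.chineseRemainder h x.1 x.2 : ℕ)) ?_ ?_ ?_ ?_ ?_
    · intro D _
      rw [Finset.mem_product, mem_range, mem_range]
      exact ⟨Nat.mod_lt _ hM, Nat.mod_lt _ hN⟩
    · intro x _
      rw [mem_range]
      exact Nat.chineseRemainder_lt_mul h x.1 x.2 hM.ne' hN.ne'
    · intro D hD
      rw [mem_range] at hD
      have h1 := (Nat.chineseRemainder h (D % M) (D % N)).2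
      have h2 : (Nat.chineseRemainder h (D % M) (D % N) : ℕ) ≡ D [MOD M * N] := by
        rw [← Nat.modEq_and_modEq_iff_modEq_mul h]
        exact ⟨h1.1.trans (Nat.mod_modEq D M), h1.2.trans (Nat.mod_modEq D N)⟩
      exact Nat.ModEq.eq_of_lt_of_lt h2
        (Nat.chineseRemainder_lt_mul h _ _ hM.ne' hN.ne') hD
    · rintro ⟨a, b⟩ hx
      rw [Finset.mem_product, mem_range, mem_range] at hx
      have h1 := (Nat.chineseRemainder h a b).2
      simp only [Prod.mk.injEq]
      exact ⟨by rw [h1.1, Nat.mod_eq_of_lt hx.1], by rw [h1.2, Nat.mod_eq_of_lt hx.2]⟩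
    · intro D _
      simp only
      rw [rm_mod hf, rm_mod hg]
  simp only at key ⊢
  rw [key]
  push_cast
  rw [div_mul_div_comm]

theorem rm_RA (P : ℕ) (f : ℤ → ℂ) : RA P f = rmA (MP P) f := rfl

theorem rm_mem {a b p : ℕ} : p ∈ primesIoc a b ↔ (a < p ∧ p ≤ b) ∧ p.Prime ∧ p ≠ 2 := by
  unfold primesIoc
  rw [Finset.mem_filter, mem_Ioc]

theorem rm_prod_pos (s : Finset ℕ) (hs : ∀ p ∈ s, p.Prime) : 0 < ∏ p ∈ s, p :=
  Finset.prod_pos fun p hp => (hs p hp).pos

theorem rm_MP_pos (P : ℕ) : 0 < MP P := rm_prod_pos _ fun _ hp => (rm_mem.1 hp).2.1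

theorem rm_cop {p : ℕ} {s : Finset ℕ} (hs : ∀ p ∈ s, p.Prime) (hp : p.Prime) (h : p ∉ s) :
    p.Coprime (∏ q ∈ s, q) := by
  apply Nat.Coprime.prod_right
  intro q hq
  rw [Nat.coprime_primes hp (hs q hq)]
  rintro rfl
  exact h hq

theorem rm_prod (s : Finset ℕ) (hs : ∀ p ∈ s, p.Prime) (F : ℕ → ℤ → ℂ)
    (hF : ∀ p ∈ s, ∀ D : ℤ, F p (D + p) = F p D) :
    rmA (∏ p ∈ s, p) (fun D => ∏ p ∈ s, F p D) = ∏ p ∈ s, rmA p (F p) := by
  classical
  induction s using Finset.induction_on with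
  | empty => simp [rmA]
  | insert q s hq ih =>
    have hs' : ∀ p ∈ s, p.Prime := fun p hp => hs p (Finset.mem_insert_of_mem hp)
    have hF' : ∀ p ∈ s, ∀ D : ℤ, F p (D + p) = F p D :=
      fun p hp => hF p (Finset.mem_insert_of_mem hp)
    rw [Finset.prod_insert hq, Finset.prod_insert hq, ← ih hs' hF']
    have hqp := hs q (Finset.mem_insert_self q s)
    rw [← rm_coprime (M := q) (N := ∏ p ∈ s, p) (f := F q) (g := fun D => ∏ p ∈ s, F p D)
      (hF q (Finset.mem_insert_self q s)) ?_ (rm_cop hs' hqp hq) hqp.pos (rm_prod_pos s hs')]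
    · congr 1
      ext D
      rw [Finset.prod_insert hq]
    · intro D
      refine Finset.prod_congr rfl fun p hp => ?_
      exact rm_mult (hF' p hp) (Finset.dvd_prod_of_mem _ hp) D

theorem rm_MP_dvd {a b P : ℕ} (hbP : b ≤ P) : (∏ p ∈ primesIoc a b, p) ∣ MP P := by
  unfold MP
  apply Finset.prod_dvd_prod_of_subset
  intro p hp
  rw [rm_mem] at hp ⊢
  exact ⟨⟨by have := hp.1.1; omega, by have := hp.1.2; omega⟩, hp.2⟩

/-- average over one prime of a function of the symbol -/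
theorem loc_avg {p : ℕ} (hp : p.Prime) (h2 : p ≠ 2) (f : ℤ → ℂ) :
    (∑ x ∈ range p, f (jacobiSym x p)) / p = f 0 / p + (1 - 1 / p) * (f 1 + f (-1)) / 2 := by
  classical
  have : Fact p.Prime := ⟨hp⟩
  have hp0 : (p : ℂ) ≠ 0 := by exact_mod_cast hp.ne_zero
  -- pass to the residue field
  have h1 : ∑ x ∈ range p, f (jacobiSym x p) = ∑ x : ZMod p, f (quadraticChar (ZMod p) x) := by
    refine Finset.sum_bij' (fun x _ => (x : ZMod p)) (fun x _ => x.val) ?_ ?_ ?_ ?_ ?_
    · intro x _; exact Finset.mem_univ _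
    · intro x _; exact mem_range.2 (ZMod.val_lt x)
    · intro x hx
      exact ZMod.val_cast_of_lt (mem_range.1 hx)
    · intro x _
      exact ZMod.natCast_zmod_val x
    · intro x _
      rw [← jacobiSym.legendreSym.to_jacobiSym]
      unfold legendreSym
      simp
  rw [h1]
  have hchar : ringChar (ZMod p) ≠ 2 := by rwa [ZMod.ringChar_zmod_n]
  have h0 := quadraticChar_sum_zero hchar
  rw [← Finset.add_sum_erase _ _ (Finset.mem_univ (0 : ZMod p))] at h0 ⊢
  rw [quadraticChar_zero] at h0 ⊢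
  rw [zero_add] at h0
  have hdich : ∀ x ∈ (Finset.univ : Finset (ZMod p)).erase 0,
      f (quadraticChar (ZMod p) x) =
        (f 1 + f (-1)) / 2 + ((quadraticChar (ZMod p) x : ℤ) : ℂ) * ((f 1 - f (-1)) / 2) := by
    intro x hx
    rcases quadraticChar_dichotomy (Finset.ne_of_mem_erase hx) with h | h
    · rw [h]; push_cast; ring
    · rw [h]; push_cast; ring
  rw [Finset.sum_congr rfl hdich, Finset.sum_add_distrib, ← Finset.sum_mul, Finset.sum_const,
    Finset.card_erase_of_mem (Finset.mem_univ _), Finset.card_univ, ZMod.card]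
  have h3 : ∑ x ∈ (Finset.univ : Finset (ZMod p)).erase 0,
      ((quadraticChar (ZMod p) x : ℤ) : ℂ) = 0 := by exact_mod_cast h0
  rw [h3, nsmul_eq_mul, Nat.cast_sub hp.one_lt.le]
  push_cast
  field_simp
  ring

theorem RA_prodIoc {a b P : ℕ} (hbP : b ≤ P) (F : ℕ → ℤ → ℂ)
    (hF : ∀ p ∈ primesIoc a b, ∀ D : ℤ, F p (D + p) = F p D) :
    RA P (fun D => ∏ p ∈ primesIoc a b, F p D) =
      ∏ p ∈ primesIoc a b, ((∑ x ∈ range p, F p x) / p) := by
  rw [rm_RA, rm_const (M := ∏ p ∈ primesIoc a b, p) ?_ (rm_MP_dvd hbP) (rm_MP_pos P),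
    rm_prod _ (fun p hp => (rm_mem.1 hp).2.1) F hF]
  · rfl
  · intro D
    refine Finset.prod_congr rfl fun p hp => ?_
    exact rm_mult (hF p hp) (Finset.dvd_prod_of_mem _ hp) D

theorem rm_split {y P : ℕ} (hyP : y ≤ P) : MP P = MP y * ∏ p ∈ primesIoc y P, p := by
  classical
  unfold MP
  rw [← Finset.prod_union]
  · congr 1
    ext p
    rw [Finset.mem_union, rm_mem, rm_mem, rm_mem]
    constructor
    · rintro ⟨⟨h1, h2⟩, h3⟩
      rcases le_or_gt p y with h | h
      · exact Or.inl ⟨⟨h1, h⟩, h3⟩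
      · exact Or.inr ⟨⟨h, h2⟩, h3⟩
    · rintro (⟨⟨h1, h2⟩, h3⟩ | ⟨⟨h1, h2⟩, h3⟩)
      · exact ⟨⟨h1, h2.trans hyP⟩, h3⟩
      · exact ⟨⟨by omega, h2⟩, h3⟩
  · rw [Finset.disjoint_left]
    intro p hp hp'
    rw [rm_mem] at hp hp'
    omega

theorem rm_split_coprime (y P : ℕ) : (MP y).Coprime (∏ p ∈ primesIoc y P, p) := by
  apply Nat.Coprime.prod_right
  intro q hq
  apply Nat.Coprime.symm
  apply rm_cop (fun p hp => (rm_mem.1 hp).2.1) (rm_mem.1 hq).2.1
  intro h
  have h1 := (rm_mem.1 hq).1.1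
  have h2 := (rm_mem.1 h).1.2
  omega

theorem RA_indep {y P : ℕ} (hyP : y ≤ P) (f g : ℤ → ℂ) (hf : ∀ D : ℤ, f (D + MP y) = f D)
    (hg : ∀ D : ℤ, g (D + (∏ p ∈ primesIoc y P, p : ℕ)) = g D) :
    RA P (fun D => f D * g D) = RA P f * RA P g := by
  have hQ : 0 < ∏ p ∈ primesIoc y P, p := rm_prod_pos _ fun _ hp => (rm_mem.1 hp).2.1
  have h1 : rmA (MP P) (fun D => f D * g D) =
      rmA (MP y * ∏ p ∈ primesIoc y P, p) (fun D => f D * g D) := by
    rw [← rm_split hyP]
  rw [rm_RA, h1, rm_coprime hf hg (rm_split_coprime y P) (rm_MP_pos y) hQ, rm_RA, rm_RA]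
  rw [rm_const hf (by rw [rm_split hyP]; exact dvd_mul_right _ _) (rm_MP_pos P),
    rm_const hg (by rw [rm_split hyP]; exact dvd_mul_left _ _) (rm_MP_pos P)]

theorem RA_restrict {y P : ℕ} (hyP : y ≤ P) (f : ℤ → ℂ) (hf : ∀ D : ℤ, f (D + MP y) = f D) :
    RA P f = RA y f := by
  rw [rm_RA, rm_RA]
  exact rm_const hf (by rw [rm_split hyP]; exact dvd_mul_right _ _) (rm_MP_pos P)

/-! ### periodicity -/

theorem rm_jacobi_congr {n : ℕ} {D D' : ℤ}
    (h : ∀ p, p.Prime → p ∣ n → (D : ZMod p) = (D' : ZMod p)) (_hn : n ≠ 0) :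
    jacobiSym D n = jacobiSym D' n := by
  unfold jacobiSym
  congr 1
  apply List.pmap_congr_left
  intro p hp h1 h2
  unfold legendreSym
  rw [h p h1 (Nat.dvd_of_mem_primeFactorsList hp)]

theorem rm_cast {p : ℕ} {M : ℕ} (h : p ∣ M) (D : ℤ) : ((D + M : ℤ) : ZMod p) = (D : ZMod p) := by
  push_cast
  rw [(ZMod.natCast_eq_zero_iff M p).2 h, add_zero]

theorem rm_dvd_MP {p P : ℕ} (hp : p.Prime) (h2 : p ≠ 2) (hP : p ≤ P) : p ∣ MP P :=
  Finset.dvd_prod_of_mem _ (rm_mem.2 ⟨⟨hp.pos, hP⟩, hp, h2⟩)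

theorem rm_bd {M n : ℕ} (h : ∀ p, p.Prime → p ≠ 2 → p ∣ n → p ∣ M) (D : ℤ) :
    bd (D + M) n = bd D n := by
  unfold Pool.Agent.H5.bd
  rcases Nat.even_or_odd n with hn | hn
  · rw [rm_c_even (Nat.even_iff.1 hn), mul_zero, mul_zero]
  · congr 1
    apply rm_jacobi_congr _ hn.pos.ne'
    intro p hp hpn
    refine rm_cast (h p hp ?_ hpn) D
    rintro rfl
    exact (Nat.not_even_iff_odd.2 hn) (even_iff_two_dvd.2 hpn)

/-- periodicity of the building blocks -/
theorem bd_period {n P : ℕ} (h : ∀ p, p.Prime → p ∣ n → p ≤ P) (D : ℤ) :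
    bd (D + MP P) n = bd D n :=
  rm_bd (fun p hp h2 hpn => rm_dvd_MP hp h2 (h p hp hpn)) D

theorem rm_ellInv {M p : ℕ} (hp : p.Prime) (h : p ∣ M) (D : ℤ) (t : ℝ) :
    ellInv (D + M) p t = ellInv D p t := by
  unfold ellInv
  rw [rm_bd (n := p), rm_jacobi_congr (n := p) (D := D + M) (D' := D) _ hp.ne_zero]
  · intro q hq hqp
    have : q = p := (Nat.prime_dvd_prime_iff_eq hq hp).1 hqp
    subst this
    exact rm_cast h D
  · intro q hq _ hqp
    have : q = p := (Nat.prime_dvd_prime_iff_eq hq hp).1 hqp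
    subst this
    exact h

theorem rm_LP {a b M : ℕ} (h : ∀ p ∈ primesIoc a b, p ∣ M) (D : ℤ) (t : ℝ) :
    LP a b (D + M) t = LP a b D t := by
  unfold LP
  refine Finset.prod_congr rfl fun p hp => ?_
  rw [rm_ellInv (rm_mem.1 hp).2.1 (h p hp)]

theorem LP_period {a b P : ℕ} (hbP : b ≤ P) (D : ℤ) (t : ℝ) : LP a b (D + MP P) t = LP a b D t :=
  rm_LP (fun _ hp => (Finset.dvd_prod_of_mem _ hp).trans (rm_MP_dvd hbP)) D t

theorem LP_period' (y P : ℕ) (D : ℤ) (t : ℝ) :
    LP y P (D + (∏ p ∈ primesIoc y P, p : ℕ)) t = LP y P D t :=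
  rm_LP (fun _ hp => Finset.dvd_prod_of_mem _ hp) D t

theorem rm_nu_even {n : ℕ} (hn : n ≠ 0) (h : 2 ∣ n) : nu n = 0 := by
  unfold Pool.Agent.ZD.nu
  rw [Finsupp.prod]
  apply Finset.prod_eq_zero (i := 2)
  · rw [Nat.support_factorization, Nat.mem_primeFactors]
    exact ⟨Nat.prime_two, h, hn⟩
  · have h1 : n.factorization 2 ≠ 0 := by
      rw [← Nat.pos_iff_ne_zero]
      exact Nat.Prime.factorization_pos_of_dvd Nat.prime_two hn h
    unfold Pool.Agent.ZD.nuF
    rw [if_neg h1]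
    rw [rm_c_even (n := 2) (by norm_num)]
    simp

theorem Mo'_period {a b m P : ℕ} (hb : b ≤ P) (D : ℤ) (t : ℝ) :
    Mo' a b m (D + MP P) t = Mo' a b m D t := by
  classical
  unfold Mo'
  refine Finset.sum_congr rfl fun h hh => ?_
  congr 2
  unfold smoothSet at hh
  rw [Finset.mem_filter, mem_Icc] at hh
  obtain ⟨⟨h1, _⟩, h3, _⟩ := hh
  rcases Nat.even_or_odd h with he | ho
  · rw [rm_nu_even (by omega) (even_iff_two_dvd.1 he), zero_mul, zero_mul]
  · congr 1
    apply rm_jacobi_congr _ (by omega)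
    intro p hp hph
    refine rm_cast (rm_dvd_MP hp ?_ (((h3 p hp hph).2).trans hb)) D
    rintro rfl
    exact (Nat.not_even_iff_odd.2 ho) (even_iff_two_dvd.2 hph)

theorem Mo_period {y m P : ℕ} (hy : y ≤ P) (hz : z0 ≤ P) (D : ℤ) (t : ℝ) :
    Mo y m (D + MP P) t = Mo y m D t := by
  unfold Mo
  rw [Mo'_period hy]
  congr 1
  refine Finset.prod_congr rfl fun p hp => ?_
  exact rm_ellInv (rm_mem.1 hp).2.1 ((Finset.dvd_prod_of_mem _ hp).trans (rm_MP_dvd hz)) D t

theorem PSum_period {a b P : ℕ} (hb : b ≤ P) (D : ℤ) (t : ℝ) :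
    PSum a b (D + MP P) t = PSum a b D t := by
  unfold PSum
  refine Finset.sum_congr rfl fun p hp => ?_
  congr 2
  apply bd_period
  intro q hq hqp
  have : q = p := (Nat.prime_dvd_prime_iff_eq hq (rm_mem.1 hp).2.1).1 hqp
  subst this
  exact ((rm_mem.1 hp).1.2).trans hb

/-! ### expectation of a symbol -/

theorem rm_isSquare {n : ℕ} (hn : n ≠ 0) : IsSquare n ↔ ∀ p, Even (n.factorization p) := by
  constructor
  · rintro ⟨r, rfl⟩ p
    have hr : r ≠ 0 := fun h => hn (by rw [h])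
    rw [Nat.factorization_mul hr hr]
    exact ⟨_, rfl⟩
  · intro h
    refine ⟨n.factorization.prod fun p e => p ^ (e / 2), ?_⟩
    conv_lhs => rw [← Nat.prod_factorization_pow_eq_self hn]
    rw [Finsupp.prod, Finsupp.prod, ← Finset.prod_mul_distrib]
    refine Finset.prod_congr rfl fun p _ => ?_
    rw [← pow_add]
    congr 1
    obtain ⟨r, hr⟩ := h p
    omega

/-- expectation of a symbol -/
theorem RA_jacobi {n P : ℕ} (hn : Odd n) (h : ∀ p, p.Prime → p ∣ n → p ≤ P) :
    RA P (fun D => ((jacobiSym D n : ℤ) : ℂ)) = if IsSquare n then ((n.totient : ℝ) / n : ℝ) else 0 := by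
  classical
  have hn0 : n ≠ 0 := hn.pos.ne'
  have hodd : ∀ p, p.Prime → p ∣ n → p ≠ 2 := by
    rintro p _ hpn rfl
    exact (Nat.not_even_iff_odd.2 hn) (even_iff_two_dvd.2 hpn)
  have hsub : n.primeFactors ⊆ primesIoc 0 P := by
    intro p hp
    have hp' := Nat.mem_primeFactors.1 hp
    exact rm_mem.2 ⟨⟨hp'.1.pos, h p hp'.1 hp'.2.1⟩, hp'.1, hodd p hp'.1 hp'.2.1⟩
  -- the symbol as a product
  have hJ : ∀ D : ℤ, ((jacobiSym D n : ℤ) : ℂ) =
      ∏ p ∈ primesIoc 0 P, ((jacobiSym D p : ℤ) : ℂ) ^ n.factorization p := by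
    intro D
    rw [← Finset.prod_subset hsub]
    · have h1 : jacobiSym D n = ∏ p ∈ n.primeFactors, jacobiSym D p ^ n.factorization p := by
        have h2 : ∀ s : Finset ℕ, (∀ p ∈ s, p.Prime) →
            jacobiSym D (∏ p ∈ s, p ^ n.factorization p) =
              ∏ p ∈ s, jacobiSym D p ^ n.factorization p := by
          intro s hs
          induction s using Finset.induction_on with
          | empty => simp
          | insert q s hq ih =>
            rw [Finset.prod_insert hq, Finset.prod_insert hq, jacobiSym.mul_right', jacobiSym.pow_right,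
              ih fun p hp => hs p (Finset.mem_insert_of_mem hp)]
            · exact pow_ne_zero _ (hs q (Finset.mem_insert_self q s)).ne_zero
            · exact Finset.prod_ne_zero_iff.2 fun p hp =>
                pow_ne_zero _ (hs p (Finset.mem_insert_of_mem hp)).ne_zero
        rw [← h2 _ fun p hp => (Nat.mem_primeFactors.1 hp).1]
        congr 1
        conv_lhs => rw [← Nat.prod_factorization_pow_eq_self hn0]
        rfl
      rw [h1]
      push_cast
      rfl
    · intro p _ hp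
      have : n.factorization p = 0 := by
        rw [← Finsupp.notMem_support_iff, Nat.support_factorization]
        exact hp
      rw [this, pow_zero]
  have hfun : (fun D : ℤ => ((jacobiSym D n : ℤ) : ℂ)) =
      fun D => ∏ p ∈ primesIoc 0 P, ((jacobiSym D p : ℤ) : ℂ) ^ n.factorization p := funext hJ
  rw [hfun, RA_prodIoc le_rfl (fun p D => ((jacobiSym D p : ℤ) : ℂ) ^ n.factorization p)]
  swap
  · intro p hp D
    congr 2
    apply rm_jacobi_congr _ (rm_mem.1 hp).2.1.ne_zero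
    intro q hq hqp
    have : q = p := (Nat.prime_dvd_prime_iff_eq hq (rm_mem.1 hp).2.1).1 hqp
    subst this
    exact rm_cast dvd_rfl D
  -- local averages
  have hloc : ∀ p ∈ primesIoc 0 P, (∑ x ∈ range p, ((jacobiSym x p : ℤ) : ℂ) ^ n.factorization p) / p =
      if n.factorization p = 0 then 1 else if Even (n.factorization p) then 1 - 1 / (p : ℂ) else 0 := by
    intro p hp
    have hp' := rm_mem.1 hp
    have hp0 : (p : ℂ) ≠ 0 := by exact_mod_cast hp'.2.1.ne_zero
    have := loc_avg hp'.2.1 hp'.2.2 (fun z : ℤ => (z : ℂ) ^ n.factorization p)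
    rw [this]
    by_cases h0 : n.factorization p = 0
    · rw [if_pos h0, h0]
      simp only [pow_zero]
      field_simp
      ring
    · rw [if_neg h0]
      push_cast
      rw [zero_pow h0, one_pow]
      split_ifs with he
      · rw [he.neg_one_pow]; ring
      · rw [(Nat.not_even_iff_odd.1 he).neg_one_pow]; ring
  rw [Finset.prod_congr rfl hloc]
  split_ifs with hsq
  · rw [rm_isSquare hn0] at hsq
    rw [← Finset.prod_subset hsub]
    · have h5 : ∀ p ∈ n.primeFactors, (if n.factorization p = 0 then (1 : ℂ) else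
          if Even (n.factorization p) then 1 - 1 / (p : ℂ) else 0) = 1 - 1 / (p : ℂ) := by
        intro p hp
        have h6 : n.factorization p ≠ 0 := by
          rw [← Finsupp.mem_support_iff, Nat.support_factorization]
          exact hp
        rw [if_neg h6, if_pos (hsq p)]
      rw [Finset.prod_congr rfl h5]
      have h7 := Nat.totient_eq_mul_prod_factors n
      have h8 : ((n.totient : ℚ) : ℂ) = n * ∏ p ∈ n.primeFactors, (1 - (p : ℂ)⁻¹) := by
        rw [h7]
        push_cast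
        rfl
      have h9 : (n : ℂ) ≠ 0 := by exact_mod_cast hn0
      push_cast at h8 ⊢
      rw [h8, mul_div_cancel_left₀ _ h9]
      simp only [one_div]
    · intro p _ hp
      have : n.factorization p = 0 := by
        rw [← Finsupp.notMem_support_iff, Nat.support_factorization]
        exact hp
      rw [if_pos this]
  · rw [rm_isSquare hn0] at hsq
    push Not at hsq
    obtain ⟨p, hp⟩ := hsq
    have h6 : n.factorization p ≠ 0 := by
      intro h0
      rw [h0] at hp
      exact hp (by simp)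
    have h7 : p ∈ n.primeFactors := by
      rw [← Nat.support_factorization, Finsupp.mem_support_iff]
      exact h6
    apply Finset.prod_eq_zero (hsub h7)
    rw [if_neg h6, if_neg hp]

end Pool.Agent.CZ
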