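import Mathlib
import Pool.Agent.CZ.Defs
import Pool.Agent.CZ.IBAS
import Pool.Agent.CZ.RM
import Pool.Agent.ZD.G1

/-!
# Critical zeros (MP_553913_nt): short character polynomials
-/

set_option autoImplicit false

open Complex Finset MeasureTheory

namespace Pool.Agent.CZ

open Pool.Agent.H5 (c bd)
open Pool.Agent.ZD (S Lf nu nuF tau)

/-! ### formal rules -/

theorem cpl_norm_jacobi (D : ℤ) (n : ℕ) : ‖((jacobiSym D n : ℤ) : ℂ)‖ ≤ 1 := by
  rcases jacobiSym.trichotomy D n with h | h | h <;> simp [h]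

theorem cpl_B_nonneg {N : ℕ} {B : ℝ} {f : ℤ → ℂ} (h : CP N B f) : 0 ≤ B := by
  obtain ⟨a, _, h2, _⟩ := h
  exact (Finset.sum_nonneg fun n _ => norm_nonneg _).trans h2

theorem CP_bdd {N : ℕ} {B : ℝ} {f : ℤ → ℂ} (hf : CP N B f) (D : ℤ) : ‖f D‖ ≤ B := by
  obtain ⟨a, _, h2, h3⟩ := hf
  rw [h3]
  refine (norm_sum_le _ _).trans (le_trans ?_ h2)
  refine Finset.sum_le_sum fun n _ => ?_
  rw [norm_mul]
  exact mul_le_of_le_one_right (norm_nonneg _) (cpl_norm_jacobi D n)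

theorem CP_congr {N : ℕ} {B : ℝ} {f g : ℤ → ℂ} (h : CP N B f) (hfg : ∀ D, g D = f D) : CP N B g := by
  obtain ⟨a, h1, h2, h3⟩ := h
  exact ⟨a, h1, h2, fun D => by rw [hfg, h3]⟩

theorem CP_mono {N N' : ℕ} {B B' : ℝ} {f : ℤ → ℂ} (h : CP N B f) (hN : N ≤ N') (hB : B ≤ B') :
    CP N' B' f := by
  classical
  obtain ⟨a, h1, h2, h3⟩ := h
  have hsub : Icc 1 N ⊆ Icc 1 N' := Finset.Icc_subset_Icc_right hN
  refine ⟨fun n => if n ∈ Icc 1 N then a n else 0, ?_, ?_, ?_⟩
  · intro n hn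
    simp only
    split_ifs
    · exact h1 n hn
    · rfl
  · refine le_trans (le_of_eq ?_) (h2.trans hB)
    rw [← Finset.sum_subset hsub]
    · exact Finset.sum_congr rfl fun n hn => by beta_reduce; rw [if_pos hn]
    · intro n _ hn
      beta_reduce
      rw [if_neg hn, norm_zero]
  · intro D
    rw [h3, ← Finset.sum_subset hsub]
    · exact Finset.sum_congr rfl fun n hn => by beta_reduce; rw [if_pos hn]
    · intro n _ hn
      beta_reduce
      rw [if_neg hn, zero_mul]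

theorem CP_char {n N : ℕ} (hn : Odd n) (hN : n ≤ N) : CP N 1 (fun D => ((jacobiSym D n : ℤ) : ℂ)) := by
  classical
  have hmem : n ∈ Icc 1 N := mem_Icc.2 ⟨hn.pos, hN⟩
  refine ⟨fun k => if k = n then 1 else 0, ?_, ?_, ?_⟩
  · intro k hk
    simp only
    rw [if_neg]
    rintro rfl
    exact (Nat.not_even_iff_odd.2 hn) hk
  · rw [Finset.sum_eq_single n]
    · simp
    · intro k _ hk
      beta_reduce
      rw [if_neg hk, norm_zero]
    · intro h; exact absurd hmem h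
  · intro D
    rw [Finset.sum_eq_single n]
    · simp
    · intro k _ hk
      beta_reduce
      rw [if_neg hk, zero_mul]
    · intro h; exact absurd hmem h

theorem CP_add {N : ℕ} {B B' : ℝ} {f g : ℤ → ℂ} (hf : CP N B f) (hg : CP N B' g) :
    CP N (B + B') (fun D => f D + g D) := by
  obtain ⟨a, a1, a2, a3⟩ := hf
  obtain ⟨b, b1, b2, b3⟩ := hg
  refine ⟨fun n => a n + b n, fun n hn => by beta_reduce; rw [a1 n hn, b1 n hn, add_zero], ?_, fun D => ?_⟩
  · refine le_trans ?_ (add_le_add a2 b2)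
    rw [← Finset.sum_add_distrib]
    exact Finset.sum_le_sum fun n _ => norm_add_le _ _
  · beta_reduce
    rw [a3, b3, ← Finset.sum_add_distrib]
    exact Finset.sum_congr rfl fun n _ => by ring

theorem CP_smul {N : ℕ} {B : ℝ} {f : ℤ → ℂ} (w : ℂ) (hf : CP N B f) :
    CP N (‖w‖ * B) (fun D => w * f D) := by
  obtain ⟨a, a1, a2, a3⟩ := hf
  refine ⟨fun n => w * a n, fun n hn => by beta_reduce; rw [a1 n hn, mul_zero], ?_, fun D => ?_⟩
  · simp only [norm_mul]
    rw [← Finset.mul_sum]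
    exact mul_le_mul_of_nonneg_left a2 (norm_nonneg _)
  · beta_reduce
    rw [a3, Finset.mul_sum]
    exact Finset.sum_congr rfl fun n _ => by ring

theorem cpl_zero (N : ℕ) : CP N 0 (fun _ => 0) :=
  ⟨fun _ => 0, fun _ _ => rfl, by simp, fun D => by simp⟩

theorem CP_const {N : ℕ} (hN : 1 ≤ N) {B : ℝ} {w : ℂ} (hw : ‖w‖ ≤ B) : CP N B (fun _ => w) := by
  have h := CP_smul w (CP_char (n := 1) (N := N) odd_one hN)
  refine CP_congr (CP_mono h le_rfl (by rw [mul_one]; exact hw)) fun D => ?_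
  simp

theorem CP_sum {ι : Type*} (s : Finset ι) {N : ℕ} {B : ι → ℝ} {f : ι → ℤ → ℂ}
    (hf : ∀ i ∈ s, CP N (B i) (f i)) : CP N (∑ i ∈ s, B i) (fun D => ∑ i ∈ s, f i D) := by
  classical
  induction s using Finset.induction_on with
  | empty =>
    refine CP_congr (CP_mono (cpl_zero N) le_rfl (by simp)) fun D => by simp
  | insert i s hi ih =>
    rw [Finset.sum_insert hi]
    refine CP_congr (CP_add (hf i (Finset.mem_insert_self i s))
      (ih fun j hj => hf j (Finset.mem_insert_of_mem hj))) fun D => ?_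
    rw [Finset.sum_insert hi]

theorem CP_mul {N N' : ℕ} {B B' : ℝ} {f g : ℤ → ℂ} (hf : CP N B f) (hg : CP N' B' g) :
    CP (N * N') (B * B') (fun D => f D * g D) := by
  classical
  have hB := cpl_B_nonneg hf
  obtain ⟨a, a1, a2, a3⟩ := hf
  obtain ⟨b, b1, b2, b3⟩ := hg
  -- sum of multiples of symbols
  have h1 : ∀ x ∈ (Icc 1 N) ×ˢ (Icc 1 N'), CP (N * N') (‖a x.1 * b x.2‖)
      (fun D => (a x.1 * b x.2) * ((jacobiSym D (x.1 * x.2) : ℤ) : ℂ)) := by
    rintro ⟨n, n'⟩ hx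
    rw [Finset.mem_product, mem_Icc, mem_Icc] at hx
    obtain ⟨⟨h1, h2⟩, ⟨h3, h4⟩⟩ := hx
    simp only at h1 h2 h3 h4 ⊢
    by_cases he : Even n
    · rw [a1 n he, zero_mul, norm_zero]
      exact CP_congr (cpl_zero _) fun D => by simp
    · by_cases he' : Even n'
      · rw [b1 n' he', mul_zero, norm_zero]
        exact CP_congr (cpl_zero _) fun D => by simp
      · have ho : Odd (n * n') := (Nat.not_even_iff_odd.1 he).mul (Nat.not_even_iff_odd.1 he')
        have := CP_smul (a n * b n') (CP_char ho (Nat.mul_le_mul h2 h4))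
        rwa [mul_one] at this
  have h2 := CP_sum _ h1
  refine CP_congr (CP_mono h2 le_rfl ?_) fun D => ?_
  · rw [Finset.sum_product]
    simp only [norm_mul]
    calc ∑ x ∈ Icc 1 N, ∑ y ∈ Icc 1 N', ‖a x‖ * ‖b y‖
        = (∑ x ∈ Icc 1 N, ‖a x‖) * ∑ y ∈ Icc 1 N', ‖b y‖ := by
          rw [Finset.sum_mul_sum]
      _ ≤ B * B' := mul_le_mul a2 b2 (Finset.sum_nonneg fun n _ => norm_nonneg _) hB
  · rw [a3, b3, Finset.sum_mul_sum, ← Finset.sum_product']
    refine Finset.sum_congr rfl ?_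
    rintro ⟨n, n'⟩ hx
    rw [Finset.mem_product, mem_Icc, mem_Icc] at hx
    simp only at hx ⊢
    rw [jacobiSym.mul_right' D (by omega : n ≠ 0) (by omega : n' ≠ 0)]
    push_cast
    ring

theorem CP_pow {N : ℕ} (_hN : 1 ≤ N) {B : ℝ} {f : ℤ → ℂ} (hf : CP N B f) (k : ℕ) :
    CP (N ^ k) (B ^ k) (fun D => f D ^ k) := by
  induction k with
  | zero =>
    simp only [pow_zero]
    exact CP_const le_rfl (by simp)
  | succ k ih =>
    simp only [pow_succ]
    exact CP_mul ih hf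

theorem cpl_prod {ι : Type*} (s : Finset ι) {N : ι → ℕ} {B : ι → ℝ} {f : ι → ℤ → ℂ}
    (hf : ∀ i ∈ s, CP (N i) (B i) (f i)) :
    CP (∏ i ∈ s, N i) (∏ i ∈ s, B i) (fun D => ∏ i ∈ s, f i D) := by
  classical
  induction s using Finset.induction_on with
  | empty =>
    simp only [Finset.prod_empty]
    exact CP_const le_rfl (by simp)
  | insert i s hi ih =>
    rw [Finset.prod_insert hi, Finset.prod_insert hi]
    refine CP_congr (CP_mul (hf i (Finset.mem_insert_self i s))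
      (ih fun j hj => hf j (Finset.mem_insert_of_mem hj))) fun D => ?_
    rw [Finset.prod_insert hi]

theorem CP_conj {N : ℕ} {B : ℝ} {f : ℤ → ℂ} (hf : CP N B f) :
    CP N B (fun D => (starRingEnd ℂ) (f D)) := by
  obtain ⟨a, a1, a2, a3⟩ := hf
  refine ⟨fun n => (starRingEnd ℂ) (a n), fun n hn => by beta_reduce; rw [a1 n hn, map_zero], ?_, fun D => ?_⟩
  · simp only [RCLike.norm_conj]
    exact a2
  · beta_reduce
    rw [a3, map_sum]
    refine Finset.sum_congr rfl fun n _ => ?_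
    rw [map_mul, map_intCast]

/-! ### examples -/

theorem cpl_c_abs (n : ℕ) : |(c n : ℝ)| ≤ 2 * n := by
  have := bas_abs_bd_le' 1 n
  simpa [Pool.Agent.H5.bd] using this

theorem CP_bd (N : ℕ) (t : ℝ) :
    CP N (2 * N) (fun D => ∑ n ∈ Icc 1 N, (bd D n : ℂ) * npow n t) := by
  refine ⟨fun n => (c n : ℂ) * npow n t, ?_, ?_, ?_⟩
  · intro n hn
    simp only
    rw [rm_c_even (Nat.even_iff.1 hn)]
    simp
  · have : ∀ n ∈ Icc 1 N, ‖(c n : ℂ) * npow n t‖ ≤ 2 := by
      intro n hn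
      have hn1 : 0 < n := (mem_Icc.1 hn).1
      have hn2 : (0 : ℝ) < n := by exact_mod_cast hn1
      rw [norm_mul, norm_npow hn1, Complex.norm_intCast, ← div_eq_mul_inv, div_le_iff₀ hn2]
      exact cpl_c_abs n
    refine (Finset.sum_le_sum this).trans (le_of_eq ?_)
    rw [Finset.sum_const, Nat.card_Icc, nsmul_eq_mul]
    push_cast
    ring
  · intro D
    refine Finset.sum_congr rfl fun n _ => ?_
    unfold Pool.Agent.H5.bd
    push_cast
    ring

theorem cpl_c_prime {p : ℕ} (hp : p.Prime) : |(c p : ℝ)| ≤ 2 * Real.sqrt p := by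
  have := Pool.Agent.ZD.abs_c_le' p
  rw [hp.divisors, Finset.card_pair hp.one_lt.ne] at this
  exact_mod_cast this

theorem cpl_c_prime' {p : ℕ} (hp : p.Prime) : |(c p : ℝ)| ≤ p := by
  rcases le_or_gt 4 p with h | h
  · refine (cpl_c_prime hp).trans ?_
    have h1 : (2 : ℝ) ≤ Real.sqrt p := by
      rw [show (2 : ℝ) = Real.sqrt 4 by rw [show (4 : ℝ) = 2 ^ 2 by norm_num]; simp]
      exact Real.sqrt_le_sqrt (by exact_mod_cast h)
    calc 2 * Real.sqrt p ≤ Real.sqrt p * Real.sqrt p :=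
          mul_le_mul_of_nonneg_right h1 (Real.sqrt_nonneg _)
      _ = p := Real.mul_self_sqrt (Nat.cast_nonneg p)
  · have h2 := hp.two_le
    interval_cases p
    · rw [rm_c_even (by norm_num)]; simp
    · -- p = 3
      have h3 := cpl_c_prime hp
      rw [Nat.cast_ofNat] at h3
      have h4 : Real.sqrt 3 < 9 / 5 := by
        rw [Real.sqrt_lt' (by norm_num)]; norm_num
      have h5 : |(c 3 : ℝ)| < 4 := by linarith
      have h6 : |c 3| < 4 := by exact_mod_cast h5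
      have h7 : |c 3| ≤ 3 := by omega
      exact_mod_cast h7

theorem CP_PSum {a b : ℕ} (_hb : 1 ≤ b) (t : ℝ) : CP b b (fun D => PSum a b D t) := by
  classical
  have hsub : primesIoc a b ⊆ Icc 1 b := by
    intro p hp
    have := rm_mem.1 hp
    exact mem_Icc.2 ⟨this.2.1.pos, this.1.2⟩
  have h1 : ∀ p ∈ primesIoc a b, CP b 1 (fun D => (bd D p : ℂ) * npow p t) := by
    intro p hp
    have hp' := rm_mem.1 hp
    have ho : Odd p := hp'.2.1.odd_of_ne_two hp'.2.2
    have h2 := CP_smul ((c p : ℂ) * npow p t) (CP_char ho hp'.1.2)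
    refine CP_congr (CP_mono h2 le_rfl ?_) fun D => ?_
    · rw [mul_one, norm_mul, norm_npow hp'.2.1.pos, Complex.norm_intCast, ← div_eq_mul_inv]
      have hp0 : (0 : ℝ) < p := by exact_mod_cast hp'.2.1.pos
      rw [div_le_one hp0]
      exact cpl_c_prime' hp'.2.1
    · unfold Pool.Agent.H5.bd
      push_cast
      ring
  have h2 := CP_sum _ h1
  refine CP_mono h2 le_rfl ?_
  rw [Finset.sum_const, nsmul_eq_mul, mul_one]
  have h3 := Finset.card_le_card hsub
  rw [Nat.card_Icc] at h3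
  have : (primesIoc a b).card ≤ b := by omega
  exact_mod_cast this

theorem CP_theta {a b : ℕ} (hb : 1 ≤ b) (t : ℝ) : CP b b (fun D => (theta a b D t : ℂ)) := by
  have h1 := CP_PSum (a := a) hb t
  have h2 := CP_smul (1 / (2 * I)) h1
  have h3 := CP_smul (-(1 / (2 * I))) (CP_conj h1)
  have h4 := CP_add h2 h3
  refine CP_congr (CP_mono h4 le_rfl (le_of_eq ?_)) fun D => ?_
  · rw [norm_neg, norm_div, norm_mul, Complex.norm_I]
    simp
    ring
  · unfold theta
    rw [Complex.im_eq_sub_conj]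
    ring

theorem CP_gT {z y m : ℕ} (hy : 2 ≤ y) (t : ℝ) :
    CP (y ^ m) (3 * (y : ℝ) ^ m) (fun D => gT z y m D t) := by
  unfold gT
  have hy1 : (1 : ℝ) ≤ y := by exact_mod_cast (by omega : 1 ≤ y)
  have h1 : ∀ j ∈ range (m + 1), CP (y ^ m) ((y : ℝ) ^ m * (1 / (j.factorial : ℝ)))
      (fun D => (-(I * theta z y D t)) ^ j / (j.factorial : ℂ)) := by
    intro j hj
    have hj' : j ≤ m := Nat.lt_succ_iff.1 (mem_range.1 hj)
    have h2 := CP_smul (-I) (CP_theta (a := z) (b := y) (by omega) t)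
    have h3 := CP_pow (by omega) h2 j
    have h4 := CP_smul (1 / (j.factorial : ℂ)) h3
    refine CP_congr (CP_mono h4 (Nat.pow_le_pow_right (by omega) hj') ?_) fun D => ?_
    · rw [norm_neg, Complex.norm_I, one_mul, norm_div, norm_one, Complex.norm_natCast, mul_comm]
      apply mul_le_mul_of_nonneg_right _ (by positivity)
      exact pow_le_pow_right₀ hy1 hj'
    · rw [one_div, div_eq_inv_mul]
      congr 2
      ring
  refine CP_mono (CP_sum _ h1) le_rfl ?_
  rw [← Finset.mul_sum, mul_comm]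
  apply mul_le_mul_of_nonneg_right _ (by positivity)
  have h5 := Real.sum_le_exp_of_nonneg (x := 1) (by norm_num) (m + 1)
  have h6 : ∑ i ∈ range (m + 1), (1 : ℝ) / (i.factorial : ℝ) ≤ Real.exp 1 := by
    simpa using h5
  have := Real.exp_one_lt_d9
  linarith

/-! ### the mollifier -/

theorem cpl_nuF_le {p : ℕ} (hp : p.Prime) (e : ℕ) : |(nuF p e : ℝ)| ≤ (p : ℝ) ^ e := by
  unfold Pool.Agent.ZD.nuF
  split_ifs with h0 h1 h2 h3
  · subst h0; simp
  · subst h1
    push_cast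
    rw [abs_neg, pow_one]
    exact cpl_c_prime' hp
  · simp
  · subst h2
    push_cast
    rw [Nat.abs_cast]
    have : (1 : ℝ) ≤ p := by exact_mod_cast hp.one_lt.le
    nlinarith
  · simp

theorem cpl_nu_le {n : ℕ} (hn : n ≠ 0) : |(nu n : ℝ)| ≤ n := by
  unfold Pool.Agent.ZD.nu
  have h1 : |((n.factorization.prod nuF : ℤ) : ℝ)| =
      ∏ p ∈ n.primeFactors, |(nuF p (n.factorization p) : ℝ)| := by
    rw [Finsupp.prod, Nat.support_factorization]
    push_cast
    rw [Finset.abs_prod]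
  rw [h1]
  have h2 : (n : ℝ) = ∏ p ∈ n.primeFactors, (p : ℝ) ^ n.factorization p := by
    conv_lhs => rw [← Nat.prod_factorization_pow_eq_self hn]
    rw [Finsupp.prod, Nat.support_factorization]
    push_cast
    rfl
  conv_rhs => rw [h2]
  exact Finset.prod_le_prod (fun p _ => abs_nonneg _)
    fun p hp => cpl_nuF_le (Nat.mem_primeFactors.1 hp).1 _

theorem CP_Mo' {a b m : ℕ} (ha : z0 ≤ a) (_hab : a ≤ b) (t : ℝ) :
    CP (b ^ m) ((b : ℝ) ^ m) (fun D => Mo' a b m D t) := by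
  classical
  unfold Mo'
  have hmem : ∀ h ∈ smoothSet a b m, (1 ≤ h ∧ h ≤ b ^ m) ∧
      ∀ p, p.Prime → p ∣ h → a < p ∧ p ≤ b := by
    intro h hh
    unfold smoothSet at hh
    rw [Finset.mem_filter, mem_Icc] at hh
    exact ⟨hh.1, hh.2.1⟩
  have hz : z0 = 10000 := rfl
  have h1 : ∀ h ∈ smoothSet a b m, CP (b ^ m) 1
      (fun D => ((nu h * jacobiSym D h : ℤ) : ℂ) * npow h t) := by
    intro h hh
    obtain ⟨⟨h1, h2⟩, h3⟩ := hmem h hh
    have ho : Odd h := by
      rw [← Nat.not_even_iff_odd]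
      intro he
      have := (h3 2 Nat.prime_two (even_iff_two_dvd.1 he)).1
      omega
    have h4 := CP_smul ((nu h : ℂ) * npow h t) (CP_char ho h2)
    refine CP_congr (CP_mono h4 le_rfl ?_) fun D => ?_
    · rw [mul_one, norm_mul, norm_npow (by omega), Complex.norm_intCast, ← div_eq_mul_inv]
      have hp0 : (0 : ℝ) < h := by exact_mod_cast (by omega : 0 < h)
      rw [div_le_one hp0]
      exact cpl_nu_le (by omega)
    · push_cast
      ring
  refine CP_mono (CP_sum _ h1) le_rfl ?_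
  rw [Finset.sum_const, nsmul_eq_mul, mul_one]
  have h3 : (smoothSet a b m).card ≤ (Icc 1 (b ^ m)).card :=
    Finset.card_le_card fun h hh => mem_Icc.2 (hmem h hh).1
  rw [Nat.card_Icc] at h3
  have : (smoothSet a b m).card ≤ b ^ m := by omega
  exact_mod_cast this

theorem cpl_ellInv {p : ℕ} (hp : p.Prime) (h2 : p ≠ 2) (t : ℝ) :
    CP (p ^ 2) 3 (fun D => ellInv D p t) := by
  have ho : Odd p := hp.odd_of_ne_two h2
  have hp0 : (0 : ℝ) < p := by exact_mod_cast hp.pos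
  have hp1 : (1 : ℝ) ≤ p := by exact_mod_cast hp.one_lt.le
  have hpow : 1 ≤ p ^ 2 := Nat.one_le_pow _ _ hp.pos
  have h1 : CP (p ^ 2) 1 (fun _ : ℤ => (1 : ℂ)) := CP_const hpow (by simp)
  have h3 := CP_smul (-((c p : ℂ) * npow p t)) (CP_char ho (show p ≤ p ^ 2 by nlinarith [hp.pos]))
  have h4 := CP_smul ((p : ℂ) * (npow p t) ^ 2) (CP_char (ho.pow (n := 2)) (le_refl (p ^ 2)))
  refine CP_congr (CP_mono (CP_add (CP_add h1 h3) h4) le_rfl ?_) fun D => ?_
  · rw [mul_one, mul_one, norm_neg, norm_mul, norm_mul, norm_pow, norm_npow hp.pos,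
      Complex.norm_intCast, Complex.norm_natCast]
    have e1 : |(c p : ℝ)| * (p : ℝ)⁻¹ ≤ 1 := by
      rw [← div_eq_mul_inv, div_le_one hp0]
      exact cpl_c_prime' hp
    have e2 : (p : ℝ) * ((p : ℝ)⁻¹) ^ 2 ≤ 1 := by
      have : (p : ℝ) * ((p : ℝ)⁻¹) ^ 2 = (p : ℝ)⁻¹ := by field_simp
      rw [this]
      exact inv_le_one_of_one_le₀ hp1
    linarith
  · unfold ellInv Pool.Agent.H5.bd
    rw [jacobiSym.pow_right]
    push_cast
    ring

theorem cpl_Mo_aux (s : Finset ℕ) (hs : ∀ p ∈ s, p.Prime ∧ p ≠ 2) (t : ℝ) {N : ℕ} {B : ℝ}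
    {f : ℤ → ℂ} (hf : CP N B f) :
    CP ((∏ p ∈ s, p ^ 2) * 3 ^ s.card * N) (((((∏ p ∈ s, p ^ 2) * 3 ^ s.card : ℕ)) : ℝ) * B)
      (fun D => (∏ p ∈ s, ellInv D p t) * f D) := by
  classical
  have h1 := cpl_prod s (N := fun p => p ^ 2) (B := fun _ => 3)
    (f := fun p D => ellInv D p t) (fun p hp => cpl_ellInv (hs p hp).1 (hs p hp).2 t)
  have h2 := CP_mul h1 hf
  have hB := cpl_B_nonneg hf
  have h3 : 1 ≤ 3 ^ s.card := Nat.one_le_pow _ _ (by norm_num)
  have h4 : 1 ≤ ∏ p ∈ s, p ^ 2 := Finset.prod_pos fun p hp => Nat.pow_pos (hs p hp).1.pos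
  refine CP_mono h2 ?_ ?_
  · apply Nat.mul_le_mul_right
    exact Nat.le_mul_of_pos_right _ h3
  · apply mul_le_mul_of_nonneg_right _ hB
    rw [Finset.prod_const, Nat.cast_mul, Nat.cast_pow]
    have e1 : (1 : ℝ) ≤ ((∏ p ∈ s, p ^ 2 : ℕ) : ℝ) := by exact_mod_cast h4
    have e2 : (0 : ℝ) ≤ (3 : ℝ) ^ s.card := by positivity
    have e3 : (((3 : ℕ) : ℝ)) = 3 := by norm_num
    rw [e3]
    nlinarith

theorem CP_Mo : ∃ C : ℕ, ∀ (y m : ℕ) (t : ℝ), z0 ≤ y →
    CP (C * y ^ m) (C * (y : ℝ) ^ m) (fun D => Mo y m D t) :=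
  ⟨(∏ p ∈ primesIoc 0 z0, p ^ 2) * 3 ^ (primesIoc 0 z0).card, fun y m t hy =>
    cpl_Mo_aux (primesIoc 0 z0) (fun _ hp => (rm_mem.1 hp).2) t
      (CP_Mo' (a := z0) (b := y) (m := m) le_rfl hy t)⟩

/-! ### family averages -/

/-- the weighted family average of a symbol -/
theorem cpl_ED_char {X : ℝ} (hX : 1 ≤ X) {m : ℕ} (hm : Odd m) (hmX : (m : ℝ) ^ 2 ≤ X) :
    Summable (fun D : ℤ => ((jacobiSym D m : ℤ) : ℂ) * exp (-(Real.pi * D ^ 2 / (2 * X : ℝ) ^ 2))) ∧
    ‖(∑' D : ℤ, ((jacobiSym D m : ℤ) : ℂ) * exp (-(Real.pi * D ^ 2 / (2 * X : ℝ) ^ 2))) / X -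
      2 * (tau 0 m / m)‖ ≤ 12 * Real.exp (-(4 * X)) := by
  have hX0 : 0 < X := by linarith
  have hm0 : (0 : ℝ) < m := by exact_mod_cast hm.pos
  obtain ⟨hs, hk⟩ := Pool.Agent.ZD.poisson hm (Z := 2 * X) (by linarith)
  refine ⟨hs, ?_⟩
  -- split off the zero frequency
  have hXc : (X : ℂ) ≠ 0 := by exact_mod_cast hX0.ne'
  have hmc : (m : ℂ) ≠ 0 := by exact_mod_cast hm0.ne'
  set u : ℤ → ℂ := fun k => (((2 * X) / m : ℝ) : ℂ) *
    (tau k m * exp (-(Real.pi * k ^ 2 * ((2 * X : ℝ) : ℂ) ^ 2 / m ^ 2))) with hu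
  have hk2 : HasSum (fun k => u k / X) ((∑' D : ℤ, ((jacobiSym D m : ℤ) : ℂ) *
      exp (-(Real.pi * D ^ 2 / (2 * X : ℝ) ^ 2))) / X) := hk.div_const _
  have hb : ∀ k : ℤ, k ≠ 0 → ‖u k / X‖ ≤ 2 * Real.exp (-(4 * X)) * Real.exp (-(|(k : ℝ)| - 1)) := by
    intro k hk0
    have hk1 : (1 : ℝ) ≤ |(k : ℝ)| := by
      have : (1 : ℤ) ≤ |k| := Int.one_le_abs hk0
      exact_mod_cast this
    simp only [hu]
    rw [norm_div, norm_mul, norm_mul, Complex.norm_real, Complex.norm_real,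
      Real.norm_of_nonneg (by positivity), Real.norm_of_nonneg hX0.le]
    have e1 := Pool.Agent.ZD.norm_tau_le k m
    have e2 : ‖exp (-(Real.pi * k ^ 2 * ((2 * X : ℝ) : ℂ) ^ 2 / m ^ 2))‖ =
        Real.exp (-(Real.pi * k ^ 2 * (2 * X) ^ 2 / m ^ 2)) := by
      have : (-(Real.pi * k ^ 2 * ((2 * X : ℝ) : ℂ) ^ 2 / m ^ 2) : ℂ) =
          ((-(Real.pi * k ^ 2 * (2 * X) ^ 2 / m ^ 2) : ℝ) : ℂ) := by push_cast; ring
      rw [this, Complex.norm_exp, Complex.ofReal_re]
    rw [e2]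
    have e3 : Real.exp (-(Real.pi * k ^ 2 * (2 * X) ^ 2 / m ^ 2)) ≤
        Real.exp (-(4 * X)) * Real.exp (-(|(k : ℝ)| - 1)) := by
      rw [← Real.exp_add]
      apply Real.exp_le_exp.2
      have h5 : 4 * Real.pi * X * (k : ℝ) ^ 2 ≤ Real.pi * k ^ 2 * (2 * X) ^ 2 / m ^ 2 := by
        rw [le_div_iff₀ (by positivity)]
        have h6 : 0 ≤ 4 * Real.pi * X * (k : ℝ) ^ 2 := by positivity
        calc 4 * Real.pi * X * (k : ℝ) ^ 2 * (m : ℝ) ^ 2 ≤ 4 * Real.pi * X * (k : ℝ) ^ 2 * X :=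
              mul_le_mul_of_nonneg_left hmX h6
          _ = Real.pi * k ^ 2 * (2 * X) ^ 2 := by ring
      have h7 := Real.pi_gt_three
      have h8 : (k : ℝ) ^ 2 = |(k : ℝ)| ^ 2 := (sq_abs _).symm
      rw [h8] at h5
      have h9 : 4 * X + (|(k : ℝ)| - 1) ≤ 4 * Real.pi * X * |(k : ℝ)| ^ 2 := by
        have h10 : |(k : ℝ)| ≤ |(k : ℝ)| ^ 2 := by nlinarith
        have h11 : 12 * X * |(k : ℝ)| ≤ 4 * Real.pi * X * |(k : ℝ)| ^ 2 := by
          have : 12 * X * |(k : ℝ)| ≤ 12 * X * |(k : ℝ)| ^ 2 :=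
            mul_le_mul_of_nonneg_left h10 (by positivity)
          have h12 : 12 * X * |(k : ℝ)| ^ 2 ≤ 4 * Real.pi * X * |(k : ℝ)| ^ 2 := by
            apply mul_le_mul_of_nonneg_right _ (by positivity)
            nlinarith
          linarith
        nlinarith
      rw [h8]
      linarith
    calc 2 * X / m * (‖tau k m‖ * Real.exp (-(Real.pi * k ^ 2 * (2 * X) ^ 2 / m ^ 2))) / X
        ≤ 2 * X / m * (m * (Real.exp (-(4 * X)) * Real.exp (-(|(k : ℝ)| - 1)))) / X := by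
          gcongr
      _ = 2 * Real.exp (-(4 * X)) * Real.exp (-(|(k : ℝ)| - 1)) := by
          field_simp
  -- the majorant
  set r : ℝ := Real.exp (-1) with hr
  have hr0 : 0 < r := Real.exp_pos _
  have he1 := Real.exp_one_gt_d9
  have he2 := Real.exp_one_lt_d9
  have hre : r * Real.exp 1 = 1 := by rw [hr, ← Real.exp_add]; simp
  have hr1 : r < 1 := by rw [hr, Real.exp_lt_one_iff]; norm_num
  have hgeo := hasSum_geometric_of_lt_one hr0.le hr1
  have hG0 : HasSum (fun k : ℤ => r ^ k.natAbs) ((1 - r)⁻¹ + r * (1 - r)⁻¹) := by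
    apply HasSum.of_nat_of_neg_add_one
    · simpa using hgeo
    · have h := hgeo.mul_left r
      have hfun : (fun n : ℕ => r ^ (-((n : ℤ) + 1)).natAbs) = fun n : ℕ => r * r ^ n := by
        funext n
        have : (-((n : ℤ) + 1)).natAbs = n + 1 := by omega
        rw [this, pow_succ]; ring
      rw [hfun]
      exact h
  have hG := hG0.mul_left (2 * Real.exp (-(4 * X)) * Real.exp 1)
  have hd := hk2.sub (hasSum_ite_eq (0 : ℤ) (u 0 / X))
  have hle := hd.norm_le_of_bounded hG ?_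
  · have hu0 : u 0 / X = 2 * (tau 0 m / m) := by
      simp only [hu]
      push_cast
      simp
      field_simp
    rw [hu0] at hle
    refine hle.trans ?_
    have e5 : (1 - r)⁻¹ + r * (1 - r)⁻¹ ≤ 2.2 := by
      have : (1 - r)⁻¹ + r * (1 - r)⁻¹ = (1 + r) / (1 - r) := by field_simp
      rw [this, div_le_iff₀ (by linarith)]
      have : r < 0.368 := by nlinarith
      linarith
    have e6 : 0 < Real.exp (-(4 * X)) := Real.exp_pos _
    calc 2 * Real.exp (-(4 * X)) * Real.exp 1 * ((1 - r)⁻¹ + r * (1 - r)⁻¹)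
        ≤ 2 * Real.exp (-(4 * X)) * 2.7182818286 * 2.2 := by
          apply mul_le_mul _ e5 _ (by positivity)
          · apply mul_le_mul_of_nonneg_left he2.le (by positivity)
          · have : 0 < 1 - r := by linarith
            positivity
      _ ≤ 12 * Real.exp (-(4 * X)) := by nlinarith
  · intro k
    by_cases h0 : k = 0
    · subst h0
      simp
      positivity
    · rw [if_neg h0, sub_zero]
      refine (hb k h0).trans (le_of_eq ?_)
      have : Real.exp (-(|(k : ℝ)| - 1)) = Real.exp 1 * r ^ k.natAbs := by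
        rw [hr, ← Real.exp_nat_mul, ← Real.exp_add]
        congr 1
        have : ((k.natAbs : ℕ) : ℝ) = |(k : ℝ)| := by
          rw [Nat.cast_natAbs, Int.cast_abs]
        rw [this]
        ring
      rw [this]
      ring

theorem cpl_tau_zero {m : ℕ} (hm : Odd m) :
    tau 0 m / m = if IsSquare m then ((m.totient : ℝ) / m : ℝ) else 0 := by
  classical
  split_ifs with h
  · obtain ⟨r, rfl⟩ := h
    have hr : r ≠ 0 := by
      rintro rfl
      simp at hm
    have h1 : tau 0 (r * r) = ((r * r).totient : ℂ) := by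
      unfold Pool.Agent.ZD.tau
      have h2 : ∀ x ∈ range (r * r), (jacobiSym x (r * r) : ℂ) *
          exp (2 * Real.pi * I * ((0 : ℤ) * x / (r * r : ℕ))) =
          if (r * r).Coprime x then 1 else 0 := by
        intro x _
        have e1 : jacobiSym x (r * r) = jacobiSym x r ^ 2 := by
          rw [jacobiSym.mul_right' _ hr hr, sq]
        rw [e1]
        split_ifs with hc
        · have h3 : (x : ℤ).gcd r = 1 := by
            rw [Int.gcd_natCast_natCast]
            exact (Nat.Coprime.coprime_mul_right hc).symm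
          rw [jacobiSym.sq_one h3]
          simp
        · have h3 : ¬ (x : ℤ).gcd r = 1 := by
            rw [Int.gcd_natCast_natCast]
            intro h4
            apply hc
            have h5 : r.Coprime x := Nat.Coprime.symm h4
            exact h5.mul_left h5
          have h6 : jacobiSym x r = 0 := jacobiSym.eq_zero_iff.2 ⟨hr, h3⟩
          rw [h6]
          simp
      rw [Finset.sum_congr rfl h2, Finset.sum_boole]
      rfl
    rw [h1]
    push_cast
    rfl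
  · rw [Pool.Agent.ZD.tau_zero_not_square hm h, zero_div]
    simp

/-- the random model computes the family average of short quadratic forms -/
theorem CP_ED : ∃ X₀ : ℝ, ∀ (X B : ℝ) (N P : ℕ) (f : ℤ → ℂ), X₀ ≤ X → (N : ℝ) ^ 4 ≤ X → N ≤ P →
    CP N B f →
    |ED X (fun D => ‖f D‖ ^ 2) - 2 * RR P (fun D => ‖f D‖ ^ 2)| ≤ Real.exp (-X) * B ^ 2 := by
  classical
  refine ⟨1, fun X B N P f hX hN hNP hf => ?_⟩
  have hX0 : 0 < X := by linarith
  have hXc : (X : ℂ) ≠ 0 := by exact_mod_cast hX0.ne'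
  have hB := cpl_B_nonneg hf
  obtain ⟨a, a1, a2, a3⟩ := hf
  set I2 := (Icc 1 N) ×ˢ (Icc 1 N) with hI2
  set w : ℕ × ℕ → ℂ := fun x => a x.1 * (starRingEnd ℂ) (a x.2) with hw
  -- the square of the norm
  have hsq : ∀ D : ℤ, ((‖f D‖ ^ 2 : ℝ) : ℂ) =
      ∑ x ∈ I2, w x * ((jacobiSym D (x.1 * x.2) : ℤ) : ℂ) := by
    intro D
    have h1 : ((‖f D‖ ^ 2 : ℝ) : ℂ) = f D * (starRingEnd ℂ) (f D) := by
      rw [Complex.mul_conj, Complex.normSq_eq_norm_sq]
    rw [h1, a3, map_sum, Finset.sum_mul_sum, ← Finset.sum_product']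
    refine Finset.sum_congr rfl ?_
    rintro ⟨n, n'⟩ hx
    rw [hI2, Finset.mem_product, mem_Icc, mem_Icc] at hx
    simp only at hx ⊢
    rw [jacobiSym.mul_right' D (by omega : n ≠ 0) (by omega : n' ≠ 0), map_mul, map_intCast]
    simp only [hw]
    push_cast
    ring
  -- properties of the index set
  have hzero : ∀ x ∈ I2, ¬ Odd (x.1 * x.2) → w x = 0 := by
    rintro ⟨n, n'⟩ _ h
    simp only [hw]
    rw [Nat.odd_mul, not_and_or, Nat.not_odd_iff_even, Nat.not_odd_iff_even] at h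
    rcases h with h | h
    · rw [a1 n h, zero_mul]
    · rw [a1 n' h, map_zero, mul_zero]
  have hmX : ∀ x ∈ I2, (((x.1 * x.2 : ℕ)) : ℝ) ^ 2 ≤ X := by
    rintro ⟨n, n'⟩ hx
    rw [hI2, Finset.mem_product, mem_Icc, mem_Icc] at hx
    simp only at hx ⊢
    refine le_trans ?_ hN
    have h1 : n * n' ≤ N * N := Nat.mul_le_mul hx.1.2 hx.2.2
    calc (((n * n' : ℕ)) : ℝ) ^ 2 ≤ (((N * N : ℕ)) : ℝ) ^ 2 := by
          apply pow_le_pow_left₀ (by positivity)
          exact_mod_cast h1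
      _ = (N : ℝ) ^ 4 := by push_cast; ring
  have hprime : ∀ x ∈ I2, ∀ p, p.Prime → p ∣ x.1 * x.2 → p ≤ P := by
    rintro ⟨n, n'⟩ hx p hp hd
    rw [hI2, Finset.mem_product, mem_Icc, mem_Icc] at hx
    simp only at hx hd
    rcases (Nat.Prime.dvd_mul hp).1 hd with h | h
    · exact ((Nat.le_of_dvd (by omega) h).trans hx.1.2).trans hNP
    · exact ((Nat.le_of_dvd (by omega) h).trans hx.2.2).trans hNP
  -- both averages as sums over pairs
  have hED : ((ED X (fun D => ‖f D‖ ^ 2) : ℝ) : ℂ) = ∑ x ∈ I2, w x *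
      ((∑' D : ℤ, ((jacobiSym D (x.1 * x.2) : ℤ) : ℂ) *
        exp (-(Real.pi * D ^ 2 / (2 * X : ℝ) ^ 2))) / X) := by
    unfold ED
    have h1 : ((((∑' D : ℤ, Real.exp (-(Real.pi * D ^ 2 / (2 * X) ^ 2)) * ‖f D‖ ^ 2) / X : ℝ)) : ℂ) =
        (∑' D : ℤ, ∑ x ∈ I2, w x * (((jacobiSym D (x.1 * x.2) : ℤ) : ℂ) *
          exp (-(Real.pi * D ^ 2 / (2 * X : ℝ) ^ 2)))) / X := by
      push_cast
      congr 1
      refine tsum_congr fun D => ?_
      have h2 := hsq D
      push_cast at h2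
      rw [h2, Finset.mul_sum]
      refine Finset.sum_congr rfl fun x _ => ?_
      ring
    rw [h1, Summable.tsum_finsetSum, Finset.sum_div]
    · refine Finset.sum_congr rfl fun x _ => ?_
      rw [tsum_mul_left, mul_div_assoc]
    · intro x hx
      by_cases ho : Odd (x.1 * x.2)
      · exact (cpl_ED_char hX ho (hmX x hx)).1.mul_left _
      · rw [hzero x hx ho]
        simp only [zero_mul]
        exact summable_zero
  have hRR : ((RR P (fun D => ‖f D‖ ^ 2) : ℝ) : ℂ) = ∑ x ∈ I2, w x *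
      RA P (fun D => ((jacobiSym D (x.1 * x.2) : ℤ) : ℂ)) := by
    unfold RR RA
    rw [Complex.ofReal_div, Complex.ofReal_sum]
    have h1 : ∀ D ∈ range (MP P), (((‖f (D : ℤ)‖ ^ 2 : ℝ)) : ℂ) =
        ∑ x ∈ I2, w x * ((jacobiSym (D : ℤ) (x.1 * x.2) : ℤ) : ℂ) := fun D _ => hsq D
    rw [Finset.sum_congr rfl h1, Finset.sum_comm, Finset.sum_div]
    refine Finset.sum_congr rfl fun x _ => ?_
    rw [← Finset.mul_sum, mul_div_assoc]
    push_cast
    rfl
  have hnorm : |ED X (fun D => ‖f D‖ ^ 2) - 2 * RR P (fun D => ‖f D‖ ^ 2)| =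
      ‖((ED X (fun D => ‖f D‖ ^ 2) : ℝ) : ℂ) - 2 * ((RR P (fun D => ‖f D‖ ^ 2) : ℝ) : ℂ)‖ := by
    rw [← Real.norm_eq_abs, ← Complex.norm_real]
    push_cast
    rfl
  rw [hnorm, hED, hRR, Finset.mul_sum, ← Finset.sum_sub_distrib]
  have hterm : ∀ x ∈ I2, ‖w x * ((∑' D : ℤ, ((jacobiSym D (x.1 * x.2) : ℤ) : ℂ) *
        exp (-(Real.pi * D ^ 2 / (2 * X : ℝ) ^ 2))) / X) -
      2 * (w x * RA P (fun D => ((jacobiSym D (x.1 * x.2) : ℤ) : ℂ)))‖ ≤
      (‖a x.1‖ * ‖a x.2‖) * Real.exp (-X) := by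
    intro x hx
    by_cases ho : Odd (x.1 * x.2)
    · have h1 := (cpl_ED_char hX ho (hmX x hx)).2
      rw [RA_jacobi ho (hprime x hx), ← cpl_tau_zero ho]
      have h2 : w x * ((∑' D : ℤ, ((jacobiSym D (x.1 * x.2) : ℤ) : ℂ) *
          exp (-(Real.pi * D ^ 2 / (2 * X : ℝ) ^ 2))) / X) -
          2 * (w x * (tau 0 (x.1 * x.2) / ((x.1 * x.2 : ℕ) : ℂ))) =
          w x * ((∑' D : ℤ, ((jacobiSym D (x.1 * x.2) : ℤ) : ℂ) *
          exp (-(Real.pi * D ^ 2 / (2 * X : ℝ) ^ 2))) / X -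
          2 * (tau 0 (x.1 * x.2) / ((x.1 * x.2 : ℕ) : ℂ))) := by ring
      rw [h2, norm_mul]
      have h3 : ‖w x‖ = ‖a x.1‖ * ‖a x.2‖ := by
        simp only [hw]
        rw [norm_mul, RCLike.norm_conj]
      rw [h3]
      apply mul_le_mul_of_nonneg_left _ (by positivity)
      refine h1.trans ?_
      have h4 : Real.exp (-X) = Real.exp (-(4 * X)) * Real.exp (3 * X) := by
        rw [← Real.exp_add]; congr 1; ring
      rw [h4, mul_comm]
      apply mul_le_mul_of_nonneg_left _ (Real.exp_pos _).le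
      have h5 : Real.exp 3 ≤ Real.exp (3 * X) := Real.exp_le_exp.2 (by linarith)
      have h6 : (12 : ℝ) ≤ Real.exp 3 := by
        have h7 := Real.exp_one_gt_d9
        have h8 : Real.exp 3 = Real.exp 1 * Real.exp 1 * Real.exp 1 := by
          rw [← Real.exp_add, ← Real.exp_add]; norm_num
        rw [h8]
        nlinarith [mul_pos (Real.exp_pos 1) (Real.exp_pos 1)]
      linarith
    · rw [hzero x hx ho]
      simp only [zero_mul, mul_zero, sub_zero, norm_zero]
      positivity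
  refine (norm_sum_le _ _).trans ((Finset.sum_le_sum hterm).trans ?_)
  rw [← Finset.sum_mul, mul_comm]
  apply mul_le_mul_of_nonneg_left _ (Real.exp_pos _).le
  rw [hI2, Finset.sum_product, sq]
  have : ∑ x ∈ Icc 1 N, ∑ y ∈ Icc 1 N, ‖a x‖ * ‖a y‖ = (∑ x ∈ Icc 1 N, ‖a x‖) * ∑ y ∈ Icc 1 N, ‖a y‖ := by
    rw [Finset.sum_mul_sum]
  simp only
  rw [this]
  exact mul_le_mul a2 a2 (Finset.sum_nonneg fun n _ => norm_nonneg _) hB

end Pool.Agent.CZ
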