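import Mathlib
import Pool.Agent.CZ.InpDefs

/-!
Critical zeros for the twists `E_d : y² = x³ - d² x` (MP_553913_nt), analytic inputs:
arithmetic of the coefficients `hr`, `lam`.
-/

set_option autoImplicit false

open Complex Finset MeasureTheory

namespace Pool.Agent.CZ.Inp

open Pool.Agent.H5 (c bd P GI Primary mem_P PS)

/-! ### Sums of a multiplicative function over the primary elements of norm `n` -/

section general

variable (Φ : GI → ℂ) (hΦ : ∀ z w, Φ (z * w) = Φ z * Φ w)

/-- the sum of `Φ` over the primary elements of norm `n` -/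
noncomputable def PSum (n : ℕ) : ℂ := ∑ z ∈ P n, Φ z

lemma P_one : P 1 = {1} := by
  ext z
  rw [mem_P, Finset.mem_singleton]
  constructor
  · rintro ⟨h1, h2⟩
    have h3 : IsUnit z := Zsqrtd.norm_eq_one_iff.1 (by rw [h2]; rfl)
    exact Pool.Agent.H5.primary_unit h3 h1
  · rintro rfl
    exact ⟨Pool.Agent.H5.primary_one, by simp⟩

lemma PSum_even {n : ℕ} (hn : n % 2 = 0) : PSum Φ n = 0 := by
  unfold PSum
  rw [Pool.Agent.H5.P_zero_of_even hn, Finset.sum_empty]

lemma PSum_one : PSum Φ 1 = Φ 1 := by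
  unfold PSum
  rw [P_one, Finset.sum_singleton]

include hΦ

theorem PSum_mul {m n : ℕ} (hmn : m.Coprime n) (hm : m ≠ 0) :
    PSum Φ (m * n) = PSum Φ m * PSum Φ n := by
  classical
  unfold PSum
  rw [Finset.sum_mul_sum, ← Finset.sum_product']
  symm
  refine Finset.sum_bij (fun zw _ => zw.1 * zw.2) ?_ ?_ ?_ ?_
  · rintro ⟨z, w⟩ h
    rw [Finset.mem_product, mem_P, mem_P] at h
    rw [mem_P]
    refine ⟨Pool.Agent.H5.primary_mul h.1.1 h.2.1, ?_⟩
    simp only [Zsqrtd.norm_mul]
    rw [h.1.2, h.2.2]; push_cast; ring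
  · rintro ⟨z, w⟩ h ⟨z', w'⟩ h' heq
    rw [Finset.mem_product, mem_P, mem_P] at h h'
    simp only at h h' heq
    have h1 : IsCoprime z w' := Pool.Agent.H5.coprime_of_norm hmn h.1.2 h'.2.2
    have h2 : z ∣ z' := h1.dvd_of_dvd_mul_right (heq ▸ ⟨w, rfl⟩)
    have h3 : z = z' := Pool.Agent.H5.eq_of_dvd_primary hm h.1.1 h'.1.1 h.1.2 h'.1.2 h2
    have hz0 : z ≠ 0 := by
      rintro rfl
      have := h.1.2
      rw [Zsqrtd.norm_zero] at this
      exact hm (by exact_mod_cast this.symm)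
    rw [← h3] at heq
    have h4 : w = w' := mul_left_cancel₀ hz0 heq
    rw [h3, h4]
  · intro v hv
    rw [mem_P] at hv
    obtain ⟨z, hz, w, hw, hzw⟩ := Pool.Agent.H5.exists_factor hm hmn hv.1 hv.2
    exact ⟨(z, w), Finset.mem_product.2 ⟨hz, hw⟩, hzw⟩
  · rintro ⟨z, w⟩ _
    exact (hΦ z w).symm

theorem PSum_inert (p : ℕ) [hp : Fact p.Prime] (h3 : p % 4 = 3) (k : ℕ) :
    PSum Φ (p ^ (k + 2)) = Φ (-(p : GI)) * PSum Φ (p ^ k) := by
  have hprime := GaussianInt.prime_of_nat_prime_of_mod_four_eq_three p h3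
  have hprim : Primary (-(p : GI)) := by
    unfold Primary; simp; omega
  unfold PSum
  rw [Finset.mul_sum]
  symm
  refine Finset.sum_bij (fun z _ => -(p : GI) * z) ?_ ?_ ?_ ?_
  · intro z hz
    rw [mem_P] at *
    refine ⟨Pool.Agent.H5.primary_mul hprim hz.1, ?_⟩
    rw [Zsqrtd.norm_mul, hz.2, Zsqrtd.norm_neg, Zsqrtd.norm_natCast]; push_cast; ring
  · intro a _ b _ h
    exact mul_left_cancel₀ (neg_ne_zero.2 hprime.ne_zero) h
  · intro v hv
    rw [mem_P] at hv
    have h4 : (p : GI) ∣ v * star v := by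
      rw [Pool.Agent.H5.norm_cast_mul, hv.2]
      push_cast
      exact dvd_pow_self _ (by omega)
    have h5 : (p : GI) ∣ v := by
      rcases hprime.dvd_or_dvd h4 with h | h
      · exact h
      · obtain ⟨t, ht⟩ := h
        refine ⟨star t, ?_⟩
        rw [← star_star v, ht]; simp [star_mul']
    obtain ⟨t, ht⟩ := h5
    refine ⟨-t, ?_, by rw [ht]; ring⟩
    rw [mem_P]
    have h6 : -(p : GI) * (-t) = v := by rw [ht]; ring
    refine ⟨Pool.Agent.H5.primary_of_mul hprim (h6 ▸ hv.1), ?_⟩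
    have h7 := congrArg Zsqrtd.norm ht
    rw [Zsqrtd.norm_mul, hv.2, Zsqrtd.norm_natCast] at h7
    rw [Zsqrtd.norm_neg]
    have hp0 : (p : ℤ) * p ≠ 0 := by
      have := hp.out.ne_zero
      positivity
    push_cast at *
    apply mul_left_cancel₀ hp0
    rw [← h7]; ring
  · intro z _
    exact (hΦ _ _).symm

omit hΦ in
theorem PSum_inert_one (p : ℕ) (h3 : p % 4 = 3) : PSum Φ p = 0 := by
  have : P p = ∅ := by
    rw [Finset.eq_empty_iff_forall_notMem]
    intro z hz
    rw [mem_P] at hz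
    have h1 := hz.2
    rw [Pool.Agent.H5.norm_def] at h1
    obtain ⟨a, ha⟩ : ∃ a, z.re = 2 * a + 1 :=
      ⟨z.re / 2, by have := hz.1; unfold Primary at this; omega⟩
    obtain ⟨b, hb⟩ : ∃ b, z.im = 2 * b := ⟨z.im / 2, by have := hz.1; unfold Primary at this; omega⟩
    rw [ha, hb] at h1
    have h2 : (2 * a + 1) ^ 2 + (2 * b) ^ 2 = 4 * (a ^ 2 + a + b ^ 2) + 1 := by ring
    omega
  unfold PSum; rw [this, Finset.sum_empty]

theorem PSum_split (p : ℕ) [hp : Fact p.Prime] {π : GI} (hπ : Primary π) (hn : π.norm = p) :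
    PSum Φ p = Φ π * Φ 1 + Φ (star π) * Φ 1 ∧ ∀ k, PSum Φ (p ^ (k + 2)) =
      (Φ π + Φ (star π)) * PSum Φ (p ^ (k + 1)) - Φ (p : GI) * PSum Φ (p ^ k) := by
  classical
  have hprime : Prime π := Pool.Agent.H5.prime_of_norm_prime hp.out hn
  have hns : (star π).norm = p := by rw [Zsqrtd.norm_conj]; exact hn
  have hprime' : Prime (star π) := Pool.Agent.H5.prime_of_norm_prime hp.out hns
  have hπs : Primary (star π) := Pool.Agent.H5.primary_star hπ
  have hp0 : (p : ℤ) ≠ 0 := by exact_mod_cast hp.out.ne_zero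
  have hpn : p ≠ 0 := hp.out.ne_zero
  have hne : π ≠ star π := by
    intro h
    have h1 := congrArg Zsqrtd.im h
    rw [Zsqrtd.im_star] at h1
    have h2 : π.im = 0 := by omega
    rw [Pool.Agent.H5.norm_def, h2] at hn
    have h3 : (π.re.natAbs) * (π.re.natAbs) = p := by
      zify; rw [abs_mul_abs_self]; rw [← hn]; ring
    have := hp.out
    rw [← h3] at this
    have hne1 : π.re.natAbs ≠ 1 := by
      intro h5
      rw [h5] at this
      exact Nat.not_prime_one (by simpa using this)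
    exact Nat.not_prime_mul hne1 hne1 this
  have hcop : ¬ π ∣ star π := by
    intro h
    exact hne (Pool.Agent.H5.eq_of_dvd_primary hpn hπ hπs hn hns h)
  have hpp : (p : GI) = π * star π := by
    rw [Pool.Agent.H5.norm_cast_mul, hn]; simp
  -- the union decomposition
  have hunion : ∀ k, P (p ^ (k + 1)) = (P (p ^ k)).image (fun z => π * z) ∪
      (P (p ^ k)).image (fun z => star π * z) := by
    intro k
    ext v
    rw [Finset.mem_union, Finset.mem_image, Finset.mem_image]
    constructor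
    · intro hv
      rw [mem_P] at hv
      have h4 : π ∣ v * star v := by
        rw [Pool.Agent.H5.norm_cast_mul, hv.2]
        push_cast
        rw [pow_succ, hpp]
        exact ⟨(π * star π) ^ k * star π, by ring⟩
      rcases hprime.dvd_or_dvd h4 with h | h
      · left
        obtain ⟨t, ht⟩ := h
        refine ⟨t, ?_, ht.symm⟩
        rw [mem_P]
        refine ⟨Pool.Agent.H5.primary_of_mul hπ (ht ▸ hv.1), ?_⟩
        have h7 := congrArg Zsqrtd.norm ht
        rw [Zsqrtd.norm_mul, hv.2, hn] at h7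
        apply mul_left_cancel₀ hp0
        rw [← h7]; push_cast; ring
      · right
        obtain ⟨t, ht⟩ := h
        have ht' : v = star π * star t := by
          rw [← star_star v, ht]; simp [star_mul']
        refine ⟨star t, ?_, ht'.symm⟩
        rw [mem_P]
        refine ⟨Pool.Agent.H5.primary_of_mul hπs (ht' ▸ hv.1), ?_⟩
        have h7 := congrArg Zsqrtd.norm ht'
        rw [Zsqrtd.norm_mul, hv.2, hns] at h7
        apply mul_left_cancel₀ hp0
        rw [← h7]; push_cast; ring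
    · rintro (⟨z, hz, rfl⟩ | ⟨z, hz, rfl⟩)
      · rw [mem_P] at *
        refine ⟨Pool.Agent.H5.primary_mul hπ hz.1, ?_⟩
        rw [Zsqrtd.norm_mul, hz.2, hn]; push_cast; ring
      · rw [mem_P] at *
        refine ⟨Pool.Agent.H5.primary_mul hπs hz.1, ?_⟩
        rw [Zsqrtd.norm_mul, hz.2, hns]; push_cast; ring
  have hinj : ∀ k, Set.InjOn (fun z => π * z) (P (p ^ k) : Set GI) :=
    fun k a _ b _ h => mul_left_cancel₀ hprime.ne_zero h
  have hinj' : ∀ k, Set.InjOn (fun z => star π * z) (P (p ^ k) : Set GI) :=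
    fun k a _ b _ h => mul_left_cancel₀ hprime'.ne_zero h
  constructor
  · have h0 := hunion 0
    simp only [zero_add, pow_one, pow_zero, P_one, Finset.image_singleton, mul_one] at h0
    unfold PSum
    rw [h0, Finset.sum_union (by simpa using hne), Finset.sum_singleton, Finset.sum_singleton,
      ← hΦ, ← hΦ, mul_one, mul_one]
  · intro k
    have hU := hunion (k + 1)
    have hinter : (P (p ^ (k + 1))).image (fun z => π * z) ∩ (P (p ^ (k + 1))).image (fun z => star π * z)
        = (P (p ^ k)).image (fun z => (p : GI) * z) := by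
      ext v
      rw [Finset.mem_inter, Finset.mem_image, Finset.mem_image, Finset.mem_image]
      constructor
      · rintro ⟨⟨a, ha, hav⟩, ⟨b, hb, hbv⟩⟩
        rw [mem_P] at ha hb
        have h1 : π ∣ star π * b := ⟨a, by rw [hbv, hav]⟩
        rcases hprime.dvd_or_dvd h1 with h | h
        · exact absurd h hcop
        · obtain ⟨t, ht⟩ := h
          refine ⟨t, ?_, ?_⟩
          · rw [mem_P]
            refine ⟨Pool.Agent.H5.primary_of_mul hπ (ht ▸ hb.1), ?_⟩
            have h7 := congrArg Zsqrtd.norm ht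
            rw [Zsqrtd.norm_mul, hb.2, hn] at h7
            apply mul_left_cancel₀ hp0
            rw [← h7]; push_cast; ring
          · rw [← hbv, ht, hpp]; ring
      · rintro ⟨z, hz, rfl⟩
        rw [mem_P] at hz
        refine ⟨⟨star π * z, ?_, by rw [hpp]; ring⟩, ⟨π * z, ?_, by rw [hpp]; ring⟩⟩
        · rw [mem_P]
          refine ⟨Pool.Agent.H5.primary_mul hπs hz.1, ?_⟩
          rw [Zsqrtd.norm_mul, hz.2, hns]; push_cast; ring
        · rw [mem_P]
          refine ⟨Pool.Agent.H5.primary_mul hπ hz.1, ?_⟩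
          rw [Zsqrtd.norm_mul, hz.2, hn]; push_cast; ring
    have hsum := Finset.sum_union_inter (s₁ := (P (p ^ (k + 1))).image (fun z => π * z))
      (s₂ := (P (p ^ (k + 1))).image (fun z => star π * z)) (f := Φ)
    rw [hinter, ← hU, Finset.sum_image (hinj (k+1)), Finset.sum_image (hinj' (k+1)),
      Finset.sum_image (fun a _ b _ h => mul_left_cancel₀ (by exact_mod_cast hpn) h)] at hsum
    simp only [hΦ] at hsum
    rw [← Finset.mul_sum, ← Finset.mul_sum, ← Finset.mul_sum] at hsum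
    unfold PSum
    linear_combination hsum

end general

/-! ### The angular characters -/

/-- `z ↦ (z/|z|)^(2j)` -/
noncomputable def ang (j : ℕ) (z : GI) : ℂ :=
  ((GaussianInt.toComplex z) / (‖GaussianInt.toComplex z‖ : ℂ)) ^ (2 * j)

lemma ang_mul (j : ℕ) (z w : GI) : ang j (z * w) = ang j z * ang j w := by
  unfold ang
  rw [map_mul, norm_mul, ofReal_mul, mul_div_mul_comm, mul_pow]

lemma ang_one (j : ℕ) : ang j 1 = 1 := by
  unfold ang
  simp

lemma ang_natCast (j : ℕ) {n : ℕ} (hn : n ≠ 0) : ang j (n : GI) = 1 := by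
  unfold ang
  have h : (n : ℂ) ≠ 0 := by exact_mod_cast hn
  rw [map_natCast, Complex.norm_natCast, ofReal_natCast, div_self h, one_pow]

lemma ang_neg (j : ℕ) (z : GI) : ang j (-z) = ang j z := by
  unfold ang
  rw [map_neg, norm_neg, neg_div, pow_mul, neg_sq, ← pow_mul]

lemma ang_star (j : ℕ) (z : GI) : ang j (star z) = (starRingEnd ℂ) (ang j z) := by
  unfold ang
  rw [GaussianInt.toComplex_star, map_pow, map_div₀, Complex.norm_conj, Complex.conj_ofReal]

lemma norm_ang_le (j : ℕ) (z : GI) : ‖ang j z‖ ≤ 1 := by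
  unfold ang
  rw [norm_pow]
  apply pow_le_one₀ (norm_nonneg _)
  rw [norm_div, Complex.norm_real, norm_norm]
  exact div_self_le_one _

lemma sum_star (j n : ℕ) : (starRingEnd ℂ) (PSum (ang j) n) = PSum (ang j) n := by
  unfold PSum
  rw [map_sum]
  refine Finset.sum_bij (fun z _ => star z) ?_ ?_ ?_ ?_
  · intro z hz
    rw [mem_P] at *
    exact ⟨Pool.Agent.H5.primary_star hz.1, by rw [Zsqrtd.norm_conj]; exact hz.2⟩
  · intro a _ b _ h
    exact star_injective h
  · intro z hz
    rw [mem_P] at hz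
    exact ⟨star z, by
      rw [mem_P]
      exact ⟨Pool.Agent.H5.primary_star hz.1, by rw [Zsqrtd.norm_conj]; exact hz.2⟩, star_star z⟩
  · intro z _
    exact (ang_star j z).symm

/-- `hr` is the (real) sum of the angular character -/
theorem hr_eq_PSum (j n : ℕ) : (hr j n : ℂ) = PSum (ang j) n := by
  have h1 : hr j n = (PSum (ang j) n).re := by
    unfold hr PSum
    rw [Complex.re_sum]
    rfl
  rw [h1]
  exact Complex.conj_eq_iff_re.1 (sum_star j n)

theorem hr_zero_right (j : ℕ) : hr j 0 = 0 := by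
  unfold hr
  rw [Pool.Agent.H5.P_zero_of_even (by norm_num), Finset.sum_empty]

theorem hr_one (j : ℕ) : hr j 1 = 1 := by
  have h := hr_eq_PSum j 1
  rw [PSum_one, ang_one] at h
  exact_mod_cast h

theorem hr_zero_eq_card (n : ℕ) : hr 0 n = (P n).card := by
  unfold hr
  simp

theorem hr_nonneg (n : ℕ) : 0 ≤ hr 0 n := by
  rw [hr_zero_eq_card]
  positivity

theorem abs_hr_le_hr (j n : ℕ) : |hr j n| ≤ hr 0 n := by
  rw [hr_zero_eq_card]
  unfold hr
  refine (Finset.abs_sum_le_sum_abs _ _).trans ?_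
  refine (Finset.sum_le_card_nsmul _ _ 1 ?_).trans (by simp)
  intro z _
  exact (Complex.abs_re_le_norm _).trans (norm_ang_le j z)

theorem hr_mul (j : ℕ) {m n : ℕ} (h : m.Coprime n) : hr j (m * n) = hr j m * hr j n := by
  rcases Nat.eq_zero_or_pos m with hm | hm
  · rw [hm, zero_mul, hr_zero_right, zero_mul]
  · have h1 : (hr j (m * n) : ℂ) = hr j m * hr j n := by
      rw [hr_eq_PSum, hr_eq_PSum, hr_eq_PSum]
      exact PSum_mul (ang j) (ang_mul j) h (by omega)
    exact_mod_cast h1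

theorem hr_two_pow (j k : ℕ) (hk : 1 ≤ k) : hr j (2 ^ k) = 0 := by
  have h1 : (hr j (2 ^ k) : ℂ) = 0 := by
    rw [hr_eq_PSum]
    apply PSum_even
    obtain ⟨l, rfl⟩ : ∃ l, k = l + 1 := ⟨k - 1, by omega⟩
    rw [pow_succ]
    omega
  exact_mod_cast h1

/-- inert primes -/
theorem hr_inert (j : ℕ) {p : ℕ} (hp : p.Prime) (h3 : p % 4 = 3) (k : ℕ) :
    hr j p = 0 ∧ hr j (p ^ (k + 2)) = hr j (p ^ k) := by
  have : Fact p.Prime := ⟨hp⟩
  constructor
  · have h1 : (hr j p : ℂ) = 0 := by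
      rw [hr_eq_PSum]
      exact PSum_inert_one (ang j) p h3
    exact_mod_cast h1
  · have h1 : (hr j (p ^ (k + 2)) : ℂ) = hr j (p ^ k) := by
      rw [hr_eq_PSum, hr_eq_PSum, PSum_inert (ang j) (ang_mul j) p h3, ang_neg,
        ang_natCast j hp.ne_zero, one_mul]
    exact_mod_cast h1

/-- a primary element of norm `p` -/
theorem exists_primary_norm {p : ℕ} (hp : p.Prime) (h1 : p % 4 = 1) :
    ∃ π : GI, Primary π ∧ π.norm = p := by
  have : Fact p.Prime := ⟨hp⟩
  obtain ⟨a, b, hab⟩ := Nat.Prime.sq_add_sq (p := p) (by omega)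
  have h2 : (⟨(a : ℤ), (b : ℤ)⟩ : GI).norm = p := by
    rw [Pool.Agent.H5.norm_def, ← hab]
    push_cast
    ring
  obtain ⟨u, hu, hpu⟩ := Pool.Agent.H5.exists_unit_primary (z := ⟨(a : ℤ), (b : ℤ)⟩)
    (by rw [h2]; omega)
  refine ⟨_, hpu, ?_⟩
  have hun : u.norm = 1 := by
    have h1 := Zsqrtd.norm_eq_one_iff.2 hu
    have h3 := GaussianInt.norm_nonneg u
    omega
  rw [Zsqrtd.norm_mul, hun, one_mul, h2]

lemma norm_toComplex_sq (z : GI) : ‖GaussianInt.toComplex z‖ ^ 2 = z.norm := by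
  rw [← Complex.normSq_eq_norm_sq, ← GaussianInt.intCast_real_norm]

lemma norm_toComplex {z : GI} {n : ℕ} (hz : z.norm = n) :
    ‖GaussianInt.toComplex z‖ = Real.sqrt n := by
  have h1 := norm_toComplex_sq z
  rw [hz] at h1
  rw [← Real.sqrt_sq (norm_nonneg (GaussianInt.toComplex z)), h1]
  simp

lemma ang_eq_cos (j : ℕ) {z : GI} (hz : z ≠ 0) :
    ang j z + ang j (star z) = 2 * Real.cos (2 * j * Complex.arg (GaussianInt.toComplex z)) := by
  set w := GaussianInt.toComplex z with hw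
  have hw0 : w ≠ 0 := by
    rw [hw, Ne, GaussianInt.toComplex_eq_zero]
    exact hz
  have hn : (‖w‖ : ℂ) ≠ 0 := by
    exact_mod_cast norm_ne_zero_iff.2 hw0
  have h1 : ang j z = Complex.exp ((2 * j * Complex.arg w : ℝ) * I) := by
    unfold ang
    rw [← hw]
    conv_lhs => rw [← Complex.norm_mul_exp_arg_mul_I w]
    rw [norm_mul, Complex.norm_exp_ofReal_mul_I, mul_one, Complex.norm_real, norm_norm,
      mul_div_cancel_left₀ _ hn, ← Complex.exp_nat_mul]
    congr 1
    push_cast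
    ring
  rw [ang_star, h1, ← Complex.exp_conj]
  rw [map_mul, Complex.conj_ofReal, Complex.conj_I]
  push_cast
  rw [Complex.cos]
  ring_nf

/-- split primes: `θ` is the argument of a primary element of norm `p` -/
theorem hr_split {p : ℕ} (hp : p.Prime) (h1 : p % 4 = 1) :
    ∃ θ : ℝ, lam p = 2 * Real.cos θ ∧ ∀ j : ℕ, hr j p = 2 * Real.cos (2 * j * θ) ∧
      ∀ k : ℕ, hr j (p ^ (k + 2)) = hr j p * hr j (p ^ (k + 1)) - hr j (p ^ k) := by
  have : Fact p.Prime := ⟨hp⟩
  obtain ⟨π, hπ, hn⟩ := exists_primary_norm hp h1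
  have hπ0 : π ≠ 0 := by
    rintro rfl
    rw [Zsqrtd.norm_zero] at hn
    exact hp.ne_zero (by exact_mod_cast hn.symm)
  refine ⟨Complex.arg (GaussianInt.toComplex π), ?_, fun j => ?_⟩
  · have h2 : (c p : ℝ) = 2 * (GaussianInt.toComplex π).re := by
      have h3 := (Pool.Agent.H5.C_split p hπ hn).1
      rw [Pool.Agent.H5.C_eq] at h3
      have h4 := congrArg Zsqrtd.re h3
      rw [Zsqrtd.re_add, Zsqrtd.re_star, Zsqrtd.re_intCast] at h4
      rw [← GaussianInt.intCast_re, h4]
      push_cast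
      ring
    have h5 : (0 : ℝ) < Real.sqrt p := Real.sqrt_pos.2 (by exact_mod_cast hp.pos)
    unfold lam
    have hw0 : GaussianInt.toComplex π ≠ 0 := by
      rw [Ne, GaussianInt.toComplex_eq_zero]
      exact hπ0
    rw [Complex.cos_arg hw0, norm_toComplex hn, h2]
    ring
  · obtain ⟨h2, h3⟩ := PSum_split (ang j) (ang_mul j) p hπ hn
    have h4 : ang j π + ang j (star π) = hr j p := by
      rw [hr_eq_PSum, h2, ang_one, mul_one, mul_one]
    constructor
    · have h5 : (hr j p : ℂ) = (2 * Real.cos (2 * j * Complex.arg (GaussianInt.toComplex π)) : ℝ) := by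
        rw [← h4, ang_eq_cos j hπ0]
        push_cast
        ring
      exact_mod_cast h5
    · intro k
      have h5 := h3 k
      rw [h4, ang_natCast j hp.ne_zero, one_mul, ← hr_eq_PSum, ← hr_eq_PSum, ← hr_eq_PSum] at h5
      exact_mod_cast h5

theorem hr_zero_prime_pow {p : ℕ} (hp : p.Prime) (k : ℕ) : hr 0 (p ^ k) ≤ k + 1 := by
  rcases hp.eq_two_or_odd with h2 | h2
  · rcases Nat.eq_zero_or_pos k with hk | hk
    · rw [hk, pow_zero, hr_one]
      norm_num
    · rw [h2, hr_two_pow 0 k hk]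
      positivity
  · have h4 : p % 4 = 1 ∨ p % 4 = 3 := by omega
    rcases h4 with h4 | h4
    · obtain ⟨θ, _, h5⟩ := hr_split hp h4
      obtain ⟨h6, h7⟩ := h5 0
      have h8 : hr 0 p = 2 := by
        rw [h6]
        simp
      have h9 : ∀ k : ℕ, hr 0 (p ^ k) = k + 1 ∧ hr 0 (p ^ (k + 1)) = k + 2 := by
        intro k
        induction k with
        | zero =>
          rw [pow_zero, hr_one, zero_add, pow_one, h8]
          norm_num
        | succ k ih =>
          refine ⟨by rw [ih.2]; push_cast; ring, ?_⟩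
          rw [h7 k, h8, ih.1, ih.2]
          push_cast
          ring
      exact (h9 k).1.le
    · have h9 : ∀ k : ℕ, hr 0 (p ^ k) ≤ 1 ∧ hr 0 (p ^ (k + 1)) ≤ 1 := by
        intro k
        induction k with
        | zero =>
          rw [pow_zero, hr_one, zero_add, pow_one, (hr_inert 0 hp h4 0).1]
          norm_num
        | succ k ih =>
          refine ⟨ih.2, ?_⟩
          rw [(hr_inert 0 hp h4 k).2]
          exact ih.1
      refine (h9 k).1.trans ?_
      have : (0 : ℝ) ≤ k := Nat.cast_nonneg k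
      linarith

theorem hr_zero_le_card (n : ℕ) : hr 0 n ≤ n.divisors.card := by
  induction n using Nat.recOnPosPrimePosCoprime with
  | prime_pow p n hp hn =>
    rw [Nat.divisors_prime_pow hp, Finset.card_map, Finset.card_range]
    have := hr_zero_prime_pow hp n
    push_cast
    exact this
  | zero => rw [hr_zero_right]; positivity
  | one => rw [hr_one]; simp
  | coprime a b _ _ hab iha ihb =>
    rw [hr_mul 0 hab, hab.card_divisors_mul]
    push_cast
    exact mul_le_mul iha ihb (hr_nonneg b) (by positivity)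

theorem hr_le_card (j n : ℕ) : |hr j n| ≤ n.divisors.card :=
  (abs_hr_le_hr j n).trans (hr_zero_le_card n)

theorem lam_zero : lam 0 = 0 := by
  unfold lam
  simp

theorem lam_one : lam 1 = 1 := by
  unfold lam
  rw [Pool.Agent.H5.c_one]
  simp

theorem lam_mul {m n : ℕ} (h : m.Coprime n) : lam (m * n) = lam m * lam n := by
  rcases Nat.eq_zero_or_pos m with hm | hm
  · rw [hm, zero_mul, lam_zero, zero_mul]
  · unfold lam
    rw [Pool.Agent.H5.c_mul h (by omega), Nat.cast_mul, Real.sqrt_mul (Nat.cast_nonneg m)]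
    push_cast
    rw [mul_div_mul_comm]

theorem lam_two_pow (k : ℕ) (hk : 1 ≤ k) : lam (2 ^ k) = 0 := by
  unfold lam
  have h1 : c (2 ^ k) = 0 := by
    unfold c
    rw [Pool.Agent.H5.C_of_even, Zsqrtd.re_zero]
    obtain ⟨l, rfl⟩ : ∃ l, k = l + 1 := ⟨k - 1, by omega⟩
    rw [pow_succ]
    omega
  rw [h1]
  simp

theorem lam_inert {p : ℕ} (_ : p.Prime) (h3 : p % 4 = 3) : lam p = 0 := by
  unfold lam
  have h1 : c p = 0 := by
    unfold c
    rw [Pool.Agent.H5.C_inert_one p h3, Zsqrtd.re_zero]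
  rw [h1]
  simp

theorem lam_prime_pow {p : ℕ} (hp : p.Prime) (h2 : p ≠ 2) (k : ℕ) :
    lam (p ^ (k + 2)) = lam p * lam (p ^ (k + 1)) - lam (p ^ k) := by
  have : Fact p.Prime := ⟨hp⟩
  have hs : (0 : ℝ) < Real.sqrt p := Real.sqrt_pos.2 (by exact_mod_cast hp.pos)
  have hsp : Real.sqrt p ^ 2 = p := Real.sq_sqrt (Nat.cast_nonneg p)
  have hpw : ∀ m : ℕ, Real.sqrt ((p ^ m : ℕ) : ℝ) = Real.sqrt p ^ m := by
    intro m
    rw [Nat.cast_pow, Real.sqrt_eq_iff_mul_self_eq (by positivity) (by positivity), ← mul_pow,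
      Real.mul_self_sqrt (Nat.cast_nonneg p)]
  have hodd := hp.eq_two_or_odd.resolve_left h2
  have h4 : p % 4 = 1 ∨ p % 4 = 3 := by omega
  rcases h4 with h4 | h4
  · obtain ⟨π, hπ, hn⟩ := exists_primary_norm hp h4
    obtain ⟨h5, h6⟩ := Pool.Agent.H5.C_split p hπ hn
    have h7 := h6 k
    rw [← h5] at h7
    rw [Pool.Agent.H5.C_eq, Pool.Agent.H5.C_eq, Pool.Agent.H5.C_eq, Pool.Agent.H5.C_eq] at h7
    have h8 : c (p ^ (k + 2)) = c p * c (p ^ (k + 1)) - p * c (p ^ k) := by exact_mod_cast h7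
    have key : ∀ r q a b e : ℝ, 0 < r → q = r ^ 2 →
        (a * b - q * e) / r ^ (k + 2) = a / r * (b / r ^ (k + 1)) - e / r ^ k := by
      intro r q a b e hr hq
      rw [hq]
      field_simp
      ring
    unfold lam
    rw [hpw, hpw, hpw, h8]
    push_cast
    exact key _ _ _ _ _ hs hsp.symm
  · rw [lam_inert hp h4, zero_mul, zero_sub]
    have h7 := Pool.Agent.H5.C_inert p h4 k
    rw [Pool.Agent.H5.C_eq, Pool.Agent.H5.C_eq] at h7
    have h8 : c (p ^ (k + 2)) = - (p * c (p ^ k)) := by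
      have : ((c (p ^ (k + 2)) : ℤ) : GI) = ((- (p * c (p ^ k)) : ℤ) : GI) := by
        rw [h7]
        push_cast
        ring
      exact_mod_cast this
    have key : ∀ r q e : ℝ, 0 < r → q = r ^ 2 → -(q * e) / r ^ (k + 2) = - (e / r ^ k) := by
      intro r q e hr hq
      rw [hq]
      field_simp
      ring
    unfold lam
    rw [hpw, hpw, h8]
    push_cast
    exact key _ _ _ hs hsp.symm

theorem abs_lam_le (n : ℕ) : |lam n| ≤ n.divisors.card := by
  refine le_trans ?_ (hr_zero_le_card n)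
  rcases Nat.eq_zero_or_pos n with hn | hn
  · rw [hn, lam_zero, hr_zero_right, abs_zero]
  · have hs : (0 : ℝ) < Real.sqrt n := Real.sqrt_pos.2 (by exact_mod_cast hn)
    have h1 := Pool.Agent.H5.abs_c_le n
    rw [Finset.sum_const, nsmul_eq_mul] at h1
    unfold lam
    rw [abs_div, abs_of_pos hs, div_le_iff₀ hs, hr_zero_eq_card]
    exact h1

/-- `λ(p)² = 1 + χ(p) + hr 1 p` for odd primes -/
theorem lam_sq {p : ℕ} (hp : p.Prime) (h2 : p ≠ 2) : lam p ^ 2 = 1 + x4 p + hr 1 p := by
  have hodd := hp.eq_two_or_odd.resolve_left h2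
  have h4 : p % 4 = 1 ∨ p % 4 = 3 := by omega
  unfold x4
  rcases h4 with h4 | h4
  · obtain ⟨θ, h5, h6⟩ := hr_split hp h4
    rw [h5, (h6 1).1, ZMod.χ₄_nat_one_mod_four h4]
    have : Real.cos (2 * ((1 : ℕ) : ℝ) * θ) = 2 * Real.cos θ ^ 2 - 1 := by
      rw [← Real.cos_two_mul]
      congr 1
      push_cast
      ring
    rw [this]
    push_cast
    ring
  · rw [lam_inert hp h4, (hr_inert 1 hp h4 0).1, ZMod.χ₄_nat_three_mod_four h4]
    norm_num

end Pool.Agent.CZ.Inp
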