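import Mathlib

/-!
Critical zeros for the twists `E_d` (MP_553913_nt), analytic inputs: Chebyshev type bounds.
-/

set_option autoImplicit false

open Complex Finset MeasureTheory

namespace Pool.Agent.CZ.Inp

/-- `∑_{x < p ≤ e x} 1/p ≤ C / log x` -/
theorem chb_block : ∃ C : ℝ, ∀ x : ℝ, 2 ≤ x →
    ∑ p ∈ (Icc 1 ⌊Real.exp 1 * x⌋₊).filter (fun p => Nat.Prime p ∧ x < p), (1 : ℝ) / p ≤
      C / Real.log x := by
  refine ⟨Real.log 4 * Real.exp 1, fun x hx => ?_⟩
  have hx0 : 0 < x := by linarith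
  have hlog : 0 < Real.log x := Real.log_pos (by linarith)
  have hex : 0 ≤ Real.exp 1 * x := by positivity
  have h1 : ∀ p ∈ (Icc 1 ⌊Real.exp 1 * x⌋₊).filter (fun p => Nat.Prime p ∧ x < p),
      (1 : ℝ) / p ≤ (x * Real.log x)⁻¹ * Real.log p := by
    intro p hp
    rw [Finset.mem_filter] at hp
    obtain ⟨-, -, hxp⟩ := hp
    have hp0 : (0 : ℝ) < p := by linarith
    have hl : Real.log x ≤ Real.log p := Real.log_le_log hx0 hxp.le
    rw [div_le_iff₀ hp0, mul_inv, mul_assoc, mul_assoc]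
    have e1 : 1 ≤ (Real.log x)⁻¹ * Real.log p := by
      rw [inv_mul_eq_div, one_le_div hlog]
      exact hl
    have e2 : 1 ≤ x⁻¹ * (p : ℝ) := by
      rw [inv_mul_eq_div, one_le_div hx0]
      exact hxp.le
    have e3 : x⁻¹ * ((Real.log x)⁻¹ * (Real.log p * p)) = ((Real.log x)⁻¹ * Real.log p) * (x⁻¹ * p) := by
      ring
    rw [e3]
    exact one_le_mul_of_one_le_of_one_le e1 e2
  refine (Finset.sum_le_sum h1).trans ?_
  rw [← Finset.mul_sum]
  have h2 : ∑ p ∈ (Icc 1 ⌊Real.exp 1 * x⌋₊).filter (fun p => Nat.Prime p ∧ x < p), Real.log p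
      ≤ Chebyshev.theta (Real.exp 1 * x) := by
    unfold Chebyshev.theta
    apply Finset.sum_le_sum_of_subset_of_nonneg
    · intro p hp
      rw [Finset.mem_filter, Finset.mem_Icc] at hp
      rw [Finset.mem_filter, Finset.mem_Ioc]
      exact ⟨⟨by omega, hp.1.2⟩, hp.2.1⟩
    · intro p _ _
      exact Real.log_natCast_nonneg p
  have h3 := Chebyshev.theta_le_log4_mul_x hex
  have h4 : 0 ≤ (x * Real.log x)⁻¹ := by positivity
  calc (x * Real.log x)⁻¹ * ∑ p ∈ (Icc 1 ⌊Real.exp 1 * x⌋₊).filter (fun p => Nat.Prime p ∧ x < p), Real.log p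
      ≤ (x * Real.log x)⁻¹ * (Real.log 4 * (Real.exp 1 * x)) :=
        mul_le_mul_of_nonneg_left (h2.trans h3) h4
    _ = Real.log 4 * Real.exp 1 / Real.log x := by
        field_simp

lemma sum_log_primeFactors_le {m : ℕ} (hm : m ≠ 0) :
    ∑ p ∈ m.primeFactors, Real.log p ≤ Real.log m := by
  have h1 : ∑ p ∈ m.primeFactors, Real.log (p : ℝ) = Real.log ((∏ p ∈ m.primeFactors, p : ℕ) : ℝ) := by
    rw [Nat.cast_prod, Real.log_prod]
    intro p hp
    exact_mod_cast (Nat.prime_of_mem_primeFactors hp).ne_zero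
  rw [h1]
  apply Real.log_le_log
  · have : 0 < ∏ p ∈ m.primeFactors, p :=
      Finset.prod_pos fun p hp => (Nat.prime_of_mem_primeFactors hp).pos
    exact_mod_cast this
  · exact_mod_cast Nat.le_of_dvd (Nat.pos_of_ne_zero hm) (Nat.prod_primeFactors_dvd m)

lemma sum_div_mul_log_le (n : ℕ) :
    ∑ p ∈ (Icc 1 n).filter Nat.Prime, ((n / p : ℕ) : ℝ) * Real.log p ≤ n * Real.log n := by
  have h1 : ∀ p ∈ (Icc 1 n).filter Nat.Prime, ((n / p : ℕ) : ℝ) * Real.log p
      = ∑ m ∈ Icc 1 n, if p ∣ m then Real.log (p : ℝ) else 0 := by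
    intro p _
    rw [← Finset.sum_filter, Finset.sum_const, nsmul_eq_mul]
    congr 2
    have h2 := Nat.Ioc_filter_dvd_card_eq_div n p
    have h3 : Icc 1 n = Ioc 0 n := by
      ext x
      simp [Finset.mem_Icc, Finset.mem_Ioc]
      omega
    rw [h3, h2]
  rw [Finset.sum_congr rfl h1, Finset.sum_comm]
  have h4 : ∀ m ∈ Icc 1 n, ∑ p ∈ (Icc 1 n).filter Nat.Prime, (if p ∣ m then Real.log (p : ℝ) else 0)
      ≤ Real.log n := by
    intro m hm
    rw [Finset.mem_Icc] at hm
    have hm0 : m ≠ 0 := by omega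
    have h5 : ∑ p ∈ (Icc 1 n).filter Nat.Prime, (if p ∣ m then Real.log (p : ℝ) else 0)
        = ∑ p ∈ m.primeFactors, Real.log (p : ℝ) := by
      rw [← Finset.sum_filter]
      apply Finset.sum_congr _ (fun _ _ => rfl)
      ext p
      rw [Finset.mem_filter, Finset.mem_filter, Nat.mem_primeFactors, Finset.mem_Icc]
      constructor
      · rintro ⟨⟨-, hp⟩, hd⟩
        exact ⟨hp, hd, hm0⟩
      · rintro ⟨hp, hd, -⟩
        exact ⟨⟨⟨hp.one_lt.le, (Nat.le_of_dvd (by omega) hd).trans hm.2⟩, hp⟩, hd⟩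
    rw [h5]
    refine (sum_log_primeFactors_le hm0).trans ?_
    apply Real.log_le_log
    · exact_mod_cast Nat.pos_of_ne_zero hm0
    · exact_mod_cast hm.2
  refine (Finset.sum_le_sum h4).trans ?_
  rw [Finset.sum_const, Nat.card_Icc, nsmul_eq_mul]
  simp

/-- `∑_{p ≤ x} log p / p ≤ log x + C` -/
theorem chb_log : ∃ C : ℝ, ∀ x : ℝ, 1 ≤ x →
    ∑ p ∈ (Icc 1 ⌊x⌋₊).filter Nat.Prime, Real.log p / p ≤ Real.log x + C := by
  refine ⟨Real.log 4, fun x hx => ?_⟩
  obtain ⟨n, hn⟩ : ∃ n, n = ⌊x⌋₊ := ⟨_, rfl⟩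
  have hn1 : 1 ≤ n := by
    rw [hn]
    exact Nat.le_floor (by exact_mod_cast hx)
  have hnx : (n : ℝ) ≤ x := by
    rw [hn]
    exact Nat.floor_le (by linarith)
  have hn0 : (0 : ℝ) < n := by exact_mod_cast hn1
  rw [← hn]
  have h1 : ∀ p ∈ (Icc 1 n).filter Nat.Prime, (n : ℝ) * (Real.log p / p)
      ≤ ((n / p : ℕ) : ℝ) * Real.log p + Real.log p := by
    intro p hp
    have hpp := (Finset.mem_filter.mp hp).2
    have hp0 : (0 : ℝ) < p := by exact_mod_cast hpp.pos
    have h2 : (n : ℝ) / p ≤ ((n / p : ℕ) : ℝ) + 1 := by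
      rw [div_le_iff₀ hp0]
      have h3 := Nat.lt_div_mul_add (a := n) hpp.pos
      have h4 : (n : ℝ) < ((n / p : ℕ) : ℝ) * p + p := by exact_mod_cast h3
      linarith
    have h5 : 0 ≤ Real.log p := Real.log_natCast_nonneg p
    calc (n : ℝ) * (Real.log p / p) = (n : ℝ) / p * Real.log p := by ring
      _ ≤ (((n / p : ℕ) : ℝ) + 1) * Real.log p := mul_le_mul_of_nonneg_right h2 h5
      _ = _ := by ring
  have h2 := Finset.sum_le_sum h1
  rw [← Finset.mul_sum, Finset.sum_add_distrib] at h2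
  have h3 := sum_div_mul_log_le n
  have h4 : ∑ p ∈ (Icc 1 n).filter Nat.Prime, Real.log (p : ℝ) ≤ Real.log 4 * n := by
    have h5 := Chebyshev.theta_le_log4_mul_x hn0.le
    unfold Chebyshev.theta at h5
    rw [Nat.floor_natCast] at h5
    refine le_trans (le_of_eq ?_) h5
    apply Finset.sum_congr _ (fun _ _ => rfl)
    ext p
    simp only [Finset.mem_filter, Finset.mem_Icc, Finset.mem_Ioc]
    constructor
    · rintro ⟨h, h'⟩; exact ⟨by omega, h'⟩
    · rintro ⟨h, h'⟩; exact ⟨by omega, h'⟩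
  have h6 : (n : ℝ) * ∑ p ∈ (Icc 1 n).filter Nat.Prime, Real.log (p : ℝ) / p
      ≤ n * (Real.log n + Real.log 4) := by
    calc _ ≤ _ := h2
      _ ≤ n * Real.log n + Real.log 4 * n := add_le_add h3 h4
      _ = _ := by ring
  have h7 := le_of_mul_le_mul_left h6 hn0
  have h8 : Real.log n ≤ Real.log x := Real.log_le_log hn0 hnx
  linarith

/-- tails: `∑_{p > x} p^{-1-δ} ≤ C x^{-δ} / (δ log x)` -/
theorem chb_tail : ∃ C : ℝ, ∀ x δ : ℝ, 2 ≤ x → 0 < δ → δ ≤ 2 →
    Summable (fun p : Nat.Primes => if x < (p : ℕ) then ((p : ℕ) : ℝ) ^ (-(1 + δ)) else 0) ∧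
    ∑' p : Nat.Primes, (if x < (p : ℕ) then ((p : ℕ) : ℝ) ^ (-(1 + δ)) else 0) ≤
      C * x ^ (-δ) / (δ * Real.log x) := by
  classical
  obtain ⟨C₀, hC₀⟩ := chb_block
  have hC₀' : 0 ≤ C₀ := by
    have h1 := hC₀ 2 le_rfl
    have h2 : 0 ≤ ∑ p ∈ (Icc 1 ⌊Real.exp 1 * 2⌋₊).filter (fun p => Nat.Prime p ∧ (2 : ℝ) < p), (1 : ℝ) / p :=
      Finset.sum_nonneg fun p _ => by positivity
    have h3 := h2.trans h1
    have h4 : 0 < Real.log 2 := Real.log_pos (by norm_num)
    by_contra hneg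
    push Not at hneg
    have := div_neg_of_neg_of_pos hneg h4
    linarith
  refine ⟨3 * C₀, fun x δ hx hδ hδ2 => ?_⟩
  have hx0 : 0 < x := by linarith
  have hlog : 0 < Real.log x := Real.log_pos (by linarith)
  set f : Nat.Primes → ℝ := fun p => if x < (p : ℕ) then ((p : ℕ) : ℝ) ^ (-(1 + δ)) else 0 with hf
  have hfnn : ∀ p, 0 ≤ f p := by
    intro p
    simp only [hf]
    split_ifs
    · positivity
    · exact le_rfl
  have key : ∀ s : Finset Nat.Primes, ∑ p ∈ s, f p ≤ 3 * C₀ * x ^ (-δ) / (δ * Real.log x) := by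
    intro s
    let k : Nat.Primes → ℕ := fun p => ⌈Real.log ((p : ℕ) / x)⌉₊ - 1
    have hk : ∀ p : Nat.Primes, x < (p : ℕ) → x * Real.exp (k p) < (p : ℕ) ∧
        ((p : ℕ) : ℝ) ≤ x * Real.exp (k p) * Real.exp 1 := by
      intro p hp
      have hp0 : (0 : ℝ) < (p : ℕ) := by linarith
      have h1 : 0 < Real.log ((p : ℕ) / x) := Real.log_pos (by rwa [one_lt_div hx0])
      have h2 : 1 ≤ ⌈Real.log ((p : ℕ) / x)⌉₊ := Nat.one_le_ceil_iff.mpr h1
      have h3 : ((k p : ℕ) : ℝ) + 1 = ⌈Real.log ((p : ℕ) / x)⌉₊ := by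
        have : k p + 1 = ⌈Real.log ((p : ℕ) / x)⌉₊ := Nat.sub_add_cancel h2
        exact_mod_cast this
      have h4 := Nat.ceil_lt_add_one h1.le
      have h5 := Nat.le_ceil (Real.log ((p : ℕ) / x))
      have e1 : ((p : ℕ) : ℝ) = x * Real.exp (Real.log ((p : ℕ) / x)) := by
        rw [Real.exp_log (by positivity)]
        field_simp
      constructor
      · conv_rhs => rw [e1]
        apply mul_lt_mul_of_pos_left _ hx0
        apply Real.exp_lt_exp.mpr
        linarith
      · conv_lhs => rw [e1]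
        rw [mul_assoc, ← Real.exp_add]
        apply mul_le_mul_of_nonneg_left _ hx0.le
        apply Real.exp_le_exp.mpr
        linarith
    obtain ⟨K, hK⟩ : ∃ K, ∀ p ∈ s, k p < K :=
      ⟨(s.sup k) + 1, fun p hp => Nat.lt_succ_of_le (Finset.le_sup hp)⟩
    rw [← Finset.sum_fiberwise_of_maps_to (s := s) (t := Finset.range K) (g := k)
      (fun p hp => Finset.mem_range.mpr (hK p hp))]
    have hblock : ∀ j ∈ Finset.range K, ∑ p ∈ s.filter (fun p => k p = j), f p
        ≤ C₀ * x ^ (-δ) / Real.log x * (Real.exp (-δ)) ^ j := by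
      intro j _
      have hy2 : 2 ≤ x * Real.exp j := by
        have : 1 ≤ Real.exp (j : ℝ) := Real.one_le_exp (Nat.cast_nonneg j)
        nlinarith
      have hy0 : 0 < x * Real.exp j := by positivity
      have hb := hC₀ (x * Real.exp j) hy2
      have h1 : ∑ p ∈ s.filter (fun p => k p = j), f p
          = ∑ p ∈ (s.filter (fun p => k p = j)).filter (fun p : Nat.Primes => x < ((p : ℕ) : ℝ)), f p := by
        symm
        apply Finset.sum_subset (Finset.filter_subset _ _)
        intro p hp hp2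
        simp only [hf]
        rw [if_neg]
        intro h
        exact hp2 (Finset.mem_filter.mpr ⟨hp, h⟩)
      have h2 : ∀ p ∈ (s.filter (fun p => k p = j)).filter (fun p : Nat.Primes => x < ((p : ℕ) : ℝ)),
          f p ≤ (x * Real.exp j) ^ (-δ) * (1 / ((p : ℕ) : ℝ)) := by
        intro p hp
        rw [Finset.mem_filter, Finset.mem_filter] at hp
        have hp1 := hk p hp.2
        rw [hp.1.2] at hp1
        have hp0 : (0 : ℝ) < (p : ℕ) := by linarith [hp.2]
        simp only [hf]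
        rw [if_pos hp.2, neg_add, Real.rpow_add hp0, Real.rpow_neg_one, mul_comm, one_div]
        apply mul_le_mul_of_nonneg_right _ (by positivity)
        exact Real.rpow_le_rpow_of_nonpos hy0 hp1.1.le (by linarith)
      rw [h1]
      refine (Finset.sum_le_sum h2).trans ?_
      rw [← Finset.mul_sum]
      have h3 : ∑ p ∈ (s.filter (fun p => k p = j)).filter (fun p : Nat.Primes => x < ((p : ℕ) : ℝ)), 1 / ((p : ℕ) : ℝ)
          ≤ ∑ p ∈ (Icc 1 ⌊Real.exp 1 * (x * Real.exp j)⌋₊).filter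
            (fun p => Nat.Prime p ∧ x * Real.exp j < p), (1 : ℝ) / p := by
        rw [← Finset.sum_image (f := fun p : ℕ => 1 / (p : ℝ))
          (g := fun p : Nat.Primes => (p : ℕ)) (s := (s.filter (fun p => k p = j)).filter
            (fun p : Nat.Primes => x < ((p : ℕ) : ℝ)))
          (fun a _ b _ h => Subtype.ext h)]
        apply Finset.sum_le_sum_of_subset_of_nonneg
        · intro n hn
          rw [Finset.mem_image] at hn
          obtain ⟨p, hp, rfl⟩ := hn
          rw [Finset.mem_filter, Finset.mem_filter] at hp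
          have hp1 := hk p hp.2
          rw [hp.1.2] at hp1
          rw [Finset.mem_filter, Finset.mem_Icc]
          refine ⟨⟨p.2.one_lt.le, Nat.le_floor ?_⟩, p.2, hp1.1⟩
          rw [mul_comm]
          exact hp1.2
        · intro n _ _
          positivity
      have h4 : Real.log x ≤ Real.log (x * Real.exp j) := by
        apply Real.log_le_log hx0
        have : 1 ≤ Real.exp (j : ℝ) := Real.one_le_exp (Nat.cast_nonneg j)
        nlinarith
      have h5 : C₀ / Real.log (x * Real.exp j) ≤ C₀ / Real.log x :=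
        div_le_div_of_nonneg_left hC₀' hlog h4
      have h6 : (x * Real.exp j) ^ (-δ) = x ^ (-δ) * (Real.exp (-δ)) ^ j := by
        rw [Real.mul_rpow hx0.le (Real.exp_pos _).le, ← Real.exp_mul, ← Real.exp_nat_mul]
      calc (x * Real.exp j) ^ (-δ) * ∑ p ∈ (s.filter (fun p => k p = j)).filter
              (fun p : Nat.Primes => x < ((p : ℕ) : ℝ)), 1 / ((p : ℕ) : ℝ)
          ≤ (x * Real.exp j) ^ (-δ) * (C₀ / Real.log x) :=
            mul_le_mul_of_nonneg_left ((h3.trans hb).trans h5) (by positivity)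
        _ = _ := by rw [h6]; ring
    refine (Finset.sum_le_sum hblock).trans ?_
    rw [← Finset.mul_sum]
    have hr0 : 0 ≤ Real.exp (-δ) := (Real.exp_pos _).le
    have hr1 : Real.exp (-δ) < 1 := by
      have := Real.exp_lt_exp.mpr (show -δ < 0 by linarith)
      rwa [Real.exp_zero] at this
    have hgeo : ∑ j ∈ Finset.range K, (Real.exp (-δ)) ^ j ≤ (1 - Real.exp (-δ))⁻¹ := by
      rw [← tsum_geometric_of_lt_one hr0 hr1]
      exact (summable_geometric_of_lt_one hr0 hr1).sum_le_tsum _ (fun j _ => by positivity)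
    have hinv : (1 - Real.exp (-δ))⁻¹ ≤ 3 / δ := by
      have h1 : δ / (1 + δ) ≤ 1 - Real.exp (-δ) := by
        have h2 : Real.exp (-δ) ≤ 1 / (1 + δ) := by
          rw [Real.exp_neg, ← one_div]
          apply one_div_le_one_div_of_le (by linarith)
          linarith [Real.add_one_le_exp δ]
        have h3 : 1 - 1 / (1 + δ) = δ / (1 + δ) := by
          field_simp
          ring
        linarith
      have h4 : 0 < δ / (1 + δ) := by positivity
      calc (1 - Real.exp (-δ))⁻¹ ≤ (δ / (1 + δ))⁻¹ := inv_anti₀ h4 h1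
        _ = (1 + δ) / δ := by rw [inv_div]
        _ ≤ 3 / δ := div_le_div_of_nonneg_right (by linarith) hδ.le
    have hpos : 0 ≤ C₀ * x ^ (-δ) / Real.log x := by positivity
    calc C₀ * x ^ (-δ) / Real.log x * ∑ j ∈ Finset.range K, (Real.exp (-δ)) ^ j
        ≤ C₀ * x ^ (-δ) / Real.log x * (3 / δ) :=
          mul_le_mul_of_nonneg_left (hgeo.trans hinv) hpos
      _ = 3 * C₀ * x ^ (-δ) / (δ * Real.log x) := by
          field_simp
  have hsum : Summable f := summable_of_sum_le hfnn key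
  exact ⟨hsum, hsum.tsum_le_of_sum_le key⟩

end Pool.Agent.CZ.Inp
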