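import Mathlib
import Pool.Agent.CZ.InpDefs

/-!
Lattice point sums over primary Gaussian integers: the plane is tiled by bricks of area eight
around the primary Gaussian integers.
-/

set_option autoImplicit false

open Complex Finset MeasureTheory

namespace Pool.Agent.CZ.Inp

open Pool.Agent.H5 (c bd P GI Primary mem_P)

namespace LAT

/-- the angular function -/
noncomputable def fj (j : ℕ) (w : ℂ) : ℝ := ((w / (‖w‖ : ℂ)) ^ (2 * j)).re

/-- the brick around `z` -/
def brick (z : ℂ) : Set ℂ :=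
  {w | (z.re - 2 ≤ w.re ∧ w.re < z.re + 2) ∧ (z.im - 1 ≤ w.im ∧ w.im < z.im + 1)}

/-- primary Gaussian integers of norm at most `t` -/
noncomputable def S (t : ℝ) : Finset GI := (Icc 1 ⌊t⌋₊).biUnion P

theorem norm_sq (z : GI) : ‖(GaussianInt.toComplex z : ℂ)‖ ^ 2 = ((z.norm : ℤ) : ℝ) := by
  rw [GaussianInt.intCast_real_norm, Complex.normSq_eq_norm_sq]

theorem prim_ne {z : GI} (hz : Primary z) : z ≠ 0 := by
  rintro rfl
  unfold Primary at hz
  simp at hz

theorem norm_pos' {z : GI} (hz : Primary z) : 1 ≤ z.norm := by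
  have h0 := prim_ne hz
  have h1 : 0 ≤ z.norm := Zsqrtd.norm_nonneg (by norm_num) z
  have h2 : z.norm ≠ 0 := by
    intro h
    exact h0 ((Zsqrtd.norm_eq_zero_iff (by norm_num) z).mp h)
  omega

theorem mem_S {t : ℝ} (ht : 0 ≤ t) (z : GI) : z ∈ S t ↔ Primary z ∧ ((z.norm : ℤ) : ℝ) ≤ t := by
  unfold S
  rw [Finset.mem_biUnion]
  constructor
  · rintro ⟨n, hn, hz⟩
    rw [mem_P] at hz
    rw [Finset.mem_Icc] at hn
    refine ⟨hz.1, ?_⟩
    rw [hz.2]
    have := Nat.le_floor_iff ht |>.mp hn.2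
    exact_mod_cast this
  · rintro ⟨hz, hn⟩
    have h1 := norm_pos' hz
    obtain ⟨n, hn'⟩ := Int.eq_ofNat_of_zero_le (by omega : 0 ≤ z.norm)
    refine ⟨n, ?_, ?_⟩
    · rw [Finset.mem_Icc]
      constructor
      · omega
      · apply Nat.le_floor
        rw [hn'] at hn
        exact_mod_cast hn
    · rw [mem_P]
      exact ⟨hz, hn'⟩

theorem HA_eq (j : ℕ) (t : ℝ) : HA j t = ∑ z ∈ S t, fj j (GaussianInt.toComplex z) := by
  unfold HA S
  rw [Finset.sum_biUnion]
  · rfl
  · intro m _ n _ hmn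
    rw [Function.onFun, Finset.disjoint_left]
    intro z hz hz'
    rw [mem_P] at hz hz'
    apply hmn
    have := hz.2.symm.trans hz'.2
    exact_mod_cast this

theorem abs_fj_le (j : ℕ) (w : ℂ) : |fj j w| ≤ 1 := by
  unfold fj
  refine (Complex.abs_re_le_norm _).trans ?_
  rw [norm_pow]
  apply pow_le_one₀ (norm_nonneg _)
  rw [norm_div, Complex.norm_real, norm_norm]
  exact div_self_le_one _

theorem norm_unit_le (w : ℂ) : ‖w / (‖w‖ : ℂ)‖ ≤ 1 := by
  rw [norm_div, Complex.norm_real, norm_norm]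
  exact div_self_le_one _

theorem pow_sub_le {u v : ℂ} (hu : ‖u‖ ≤ 1) (hv : ‖v‖ ≤ 1) (n : ℕ) :
    ‖u ^ n - v ^ n‖ ≤ n * ‖u - v‖ := by
  induction n with
  | zero => simp
  | succ n ih =>
    have h : u ^ (n + 1) - v ^ (n + 1) = u ^ n * (u - v) + (u ^ n - v ^ n) * v := by ring
    rw [h]
    refine (norm_add_le _ _).trans ?_
    rw [norm_mul, norm_mul, norm_pow]
    have h1 : ‖u‖ ^ n * ‖u - v‖ ≤ 1 * ‖u - v‖ :=
      mul_le_mul_of_nonneg_right (pow_le_one₀ (norm_nonneg _) hu) (norm_nonneg _)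
    have h2 : ‖u ^ n - v ^ n‖ * ‖v‖ ≤ (n * ‖u - v‖) * 1 :=
      mul_le_mul ih hv (norm_nonneg _) (by positivity)
    push_cast
    linarith

theorem unit_sub_le {z w : ℂ} (hz : z ≠ 0) :
    ‖z / (‖z‖ : ℂ) - w / (‖w‖ : ℂ)‖ ≤ 2 * ‖z - w‖ / ‖z‖ := by
  have hz' : 0 < ‖z‖ := norm_pos_iff.mpr hz
  by_cases hw : w = 0
  · subst hw
    simp only [zero_div, sub_zero]
    have h1 := norm_unit_le z
    rw [le_div_iff₀ hz']
    nlinarith
  have hw' : 0 < ‖w‖ := norm_pos_iff.mpr hw
  have hzc : (‖z‖ : ℂ) ≠ 0 := by exact_mod_cast hz'.ne'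
  have hwc : (‖w‖ : ℂ) ≠ 0 := by exact_mod_cast hw'.ne'
  have h : z / (‖z‖ : ℂ) - w / (‖w‖ : ℂ) =
      (z - w) / (‖z‖ : ℂ) + (w / (‖w‖ : ℂ)) * (((‖w‖ - ‖z‖ : ℝ) : ℂ) / (‖z‖ : ℂ)) := by
    push_cast
    field_simp
    ring
  rw [h]
  refine (norm_add_le _ _).trans ?_
  rw [norm_mul, norm_div, norm_div, norm_div, Complex.norm_real, Complex.norm_real,
    Complex.norm_real, norm_norm, norm_norm, div_self hw'.ne', one_mul, Real.norm_eq_abs,
    ← add_div]
  apply div_le_div_of_nonneg_right _ hz'.le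
  have := abs_norm_sub_norm_le w z
  rw [norm_sub_rev] at this
  linarith

theorem fj_sub_le (j : ℕ) {z w : ℂ} (hz : z ≠ 0) :
    |fj j z - fj j w| ≤ 4 * j * ‖z - w‖ / ‖z‖ := by
  unfold fj
  rw [← Complex.sub_re]
  refine (Complex.abs_re_le_norm _).trans ?_
  refine (pow_sub_le (norm_unit_le z) (norm_unit_le w) _).trans ?_
  have := unit_sub_le (w := w) hz
  push_cast
  calc (2 * (j : ℝ)) * ‖z / (‖z‖ : ℂ) - w / (‖w‖ : ℂ)‖ ≤ (2 * (j : ℝ)) * (2 * ‖z - w‖ / ‖z‖) :=
        mul_le_mul_of_nonneg_left this (by positivity)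
    _ = _ := by ring

/-- every point lies in exactly one brick -/
theorem exists_center (w : ℂ) : ∃ z : GI, Primary z ∧ w ∈ brick (GaussianInt.toComplex z) := by
  let b : ℤ := 2 * ⌊(w.im + 1) / 2⌋
  let a : ℤ := 1 - b + 4 * ⌊(w.re + 2 - (1 - b)) / 4⌋
  refine ⟨⟨a, b⟩, ?_, ?_⟩
  · unfold Primary
    refine ⟨?_, ?_⟩
    · change b % 2 = 0
      simp only [b]
      omega
    · change (a + b) % 4 = 1
      simp only [a]
      omega
  · unfold brick
    simp only [Set.mem_ofPred_eq, GaussianInt.re_toComplex, GaussianInt.im_toComplex]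
    have h1 := Int.floor_le ((w.im + 1) / 2)
    have h2 := Int.lt_floor_add_one ((w.im + 1) / 2)
    have h3 := Int.floor_le ((w.re + 2 - (1 - b)) / 4)
    have h4 := Int.lt_floor_add_one ((w.re + 2 - (1 - b)) / 4)
    have hb : (b : ℝ) = 2 * (⌊(w.im + 1) / 2⌋ : ℝ) := by simp [b]
    have ha : (a : ℝ) = 1 - b + 4 * (⌊(w.re + 2 - (1 - b)) / 4⌋ : ℝ) := by
      simp only [a]; push_cast; ring
    refine ⟨⟨?_, ?_⟩, ⟨?_, ?_⟩⟩
    · rw [ha]; linarith
    · rw [ha]; linarith
    · rw [hb]; linarith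
    · rw [hb]; linarith

theorem center_unique {w : ℂ} {z z' : GI} (hz : Primary z) (hz' : Primary z')
    (h : w ∈ brick (GaussianInt.toComplex z)) (h' : w ∈ brick (GaussianInt.toComplex z')) :
    z = z' := by
  unfold Primary at hz hz'
  obtain ⟨⟨h1, h2⟩, ⟨h3, h4⟩⟩ := h
  obtain ⟨⟨h1', h2'⟩, ⟨h3', h4'⟩⟩ := h'
  rw [← GaussianInt.intCast_re] at h1 h2 h1' h2'
  rw [← GaussianInt.intCast_im] at h3 h4 h3' h4'
  have e1 : (z.im : ℝ) < z'.im + 2 := by linarith
  have e2 : (z'.im : ℝ) < z.im + 2 := by linarith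
  have e3 : (z.re : ℝ) < z'.re + 4 := by linarith
  have e4 : (z'.re : ℝ) < z.re + 4 := by linarith
  have f1 : z.im < z'.im + 2 := by exact_mod_cast e1
  have f2 : z'.im < z.im + 2 := by exact_mod_cast e2
  have f3 : z.re < z'.re + 4 := by exact_mod_cast e3
  have f4 : z'.re < z.re + 4 := by exact_mod_cast e4
  have g1 : z.im = z'.im := by omega
  have g2 : z.re = z'.re := by omega
  exact Zsqrtd.ext g2 g1

theorem dist_brick {z w : ℂ} (h : w ∈ brick z) : ‖z - w‖ ≤ 3 := by
  obtain ⟨⟨h1, h2⟩, ⟨h3, h4⟩⟩ := h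
  refine (Complex.norm_le_abs_re_add_abs_im _).trans ?_
  rw [Complex.sub_re, Complex.sub_im]
  have e1 : |z.re - w.re| ≤ 2 := by rw [abs_le]; constructor <;> linarith
  have e2 : |z.im - w.im| ≤ 1 := by rw [abs_le]; constructor <;> linarith
  linarith

theorem brick_eq (z : ℂ) : brick z = measurableEquivRealProd ⁻¹'
    (Set.Ico (z.re - 2) (z.re + 2) ×ˢ Set.Ico (z.im - 1) (z.im + 1)) := by
  ext w
  simp [brick, measurableEquivRealProd_apply]

theorem measurable_brick (z : ℂ) : MeasurableSet (brick z) := by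
  rw [brick_eq]
  exact measurableEquivRealProd.measurable (measurableSet_Ico.prod measurableSet_Ico)

theorem volume_brick (z : ℂ) : volume (brick z) = 8 := by
  rw [brick_eq, volume_preserving_equiv_real_prod.measure_preimage
    (measurableSet_Ico.prod measurableSet_Ico).nullMeasurableSet, Measure.volume_eq_prod,
    Measure.prod_prod, Real.volume_Ico, Real.volume_Ico]
  have e1 : z.re + 2 - (z.re - 2) = 4 := by ring
  have e2 : z.im + 1 - (z.im - 1) = 2 := by ring
  rw [e1, e2, ← ENNReal.ofReal_mul (by norm_num)]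
  norm_num

theorem measurable_fj (j : ℕ) : Measurable (fj j) := by
  unfold fj
  apply Complex.measurable_re.comp
  apply Measurable.pow_const
  exact measurable_id.div (Complex.measurable_ofReal.comp measurable_norm)

theorem integrableOn_fj (j : ℕ) {s : Set ℂ} (hs : volume s ≠ ⊤) : IntegrableOn (fj j) s := by
  apply Measure.integrableOn_of_bounded hs (measurable_fj j).aestronglyMeasurable (M := 1)
  filter_upwards with w
  exact abs_fj_le j w

/-- the brick integral against the value at the centre -/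
theorem brick_integral (j : ℕ) {z : ℂ} (hz : z ≠ 0) :
    |8 * fj j z - ∫ w in brick z, fj j w| ≤ 96 * j / ‖z‖ := by
  have hv : volume (brick z) ≠ ⊤ := by rw [volume_brick]; norm_num
  have hv8 : volume.real (brick z) = 8 := by
    rw [Measure.real, volume_brick]; norm_num
  have h1 : 8 * fj j z = ∫ _w in brick z, fj j z := by
    rw [setIntegral_const, hv8, smul_eq_mul]
  have hc : IntegrableOn (fun _ : ℂ => fj j z) (brick z) := integrableOn_const hv (by finiteness)
  rw [h1, ← integral_sub hc (integrableOn_fj j hv)]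
  have h2 : ‖∫ w in brick z, (fj j z - fj j w)‖ ≤ (12 * j / ‖z‖) * volume.real (brick z) := by
    apply norm_setIntegral_le_of_norm_le_const (lt_top_iff_ne_top.mpr hv)
    intro w hw
    rw [Real.norm_eq_abs]
    refine (fj_sub_le j hz).trans ?_
    apply div_le_div_of_nonneg_right _ (norm_nonneg _)
    have := dist_brick hw
    have hj : (0 : ℝ) ≤ j := Nat.cast_nonneg _
    nlinarith
  rw [Real.norm_eq_abs, hv8] at h2
  refine h2.trans (le_of_eq ?_)
  ring

/-- the weighted count -/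
theorem sum_inv_le {t : ℝ} (ht : 1 ≤ t) :
    ∑ z ∈ S t, 1 / ‖(GaussianInt.toComplex z : ℂ)‖ ≤ 8 * Real.sqrt t := by
  classical
  have ht0 : 0 ≤ t := by linarith
  let g : GI → ℕ := fun z => max z.re.natAbs z.im.natAbs
  have hgle : ∀ z : GI, ((g z : ℕ) : ℝ) ≤ ‖(GaussianInt.toComplex z : ℂ)‖ := by
    intro z
    have h1 : |(GaussianInt.toComplex z : ℂ).re| ≤ ‖(GaussianInt.toComplex z : ℂ)‖ :=
      Complex.abs_re_le_norm _
    have h2 : |(GaussianInt.toComplex z : ℂ).im| ≤ ‖(GaussianInt.toComplex z : ℂ)‖ :=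
      Complex.abs_im_le_norm _
    rw [← GaussianInt.intCast_re] at h1
    rw [← GaussianInt.intCast_im] at h2
    have h3 : ((z.re.natAbs : ℕ) : ℝ) = |(z.re : ℝ)| := by
      rw [Nat.cast_natAbs]; push_cast; rfl
    have h4 : ((z.im.natAbs : ℕ) : ℝ) = |(z.im : ℝ)| := by
      rw [Nat.cast_natAbs]; push_cast; rfl
    simp only [g]
    rw [Nat.cast_max, h3, h4]
    exact max_le h1 h2
  have hgpos : ∀ z : GI, Primary z → 1 ≤ g z := by
    intro z hz
    by_contra hlt
    have h0 : g z = 0 := by omega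
    simp only [g] at h0
    have h1 : z.re.natAbs = 0 := by omega
    have h2 : z.im.natAbs = 0 := by omega
    apply prim_ne hz
    exact Zsqrtd.ext (Int.natAbs_eq_zero.mp h1) (Int.natAbs_eq_zero.mp h2)
  have hmaps : ∀ z ∈ S t, g z ∈ Icc 1 ⌊Real.sqrt t⌋₊ := by
    intro z hz
    rw [mem_S ht0] at hz
    rw [Finset.mem_Icc]
    refine ⟨hgpos z hz.1, ?_⟩
    apply Nat.le_floor
    apply (hgle z).trans
    apply Real.le_sqrt_of_sq_le
    rw [norm_sq]
    exact hz.2
  rw [← Finset.sum_fiberwise_of_maps_to hmaps]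
  have hk : ∀ k ∈ Icc 1 ⌊Real.sqrt t⌋₊,
      ∑ z ∈ S t with g z = k, 1 / ‖(GaussianInt.toComplex z : ℂ)‖ ≤ 8 := by
    intro k hk
    rw [Finset.mem_Icc] at hk
    have hk0 : (0 : ℝ) < k := by exact_mod_cast hk.1
    have h1 : ∀ z ∈ (S t).filter (fun z => g z = k), 1 / ‖(GaussianInt.toComplex z : ℂ)‖ ≤
        1 / (k : ℝ) := by
      intro z hz
      rw [Finset.mem_filter] at hz
      apply one_div_le_one_div_of_le hk0
      have := hgle z
      rw [hz.2] at this
      exact this
    refine (Finset.sum_le_card_nsmul _ _ _ h1).trans ?_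
    have hcard : ((S t).filter (fun z => g z = k)).card ≤ 8 * k := by
      rw [← Int.card_box (by omega : k ≠ 0)]
      apply Finset.card_le_card_of_injOn (fun z : GI => (z.re, z.im))
      · intro z hz
        have hz' := Finset.mem_filter.mp hz
        exact Int.mem_box.mpr hz'.2
      · intro _ _ _ _ h
        simp only [Prod.mk.injEq] at h
        exact Zsqrtd.ext h.1 h.2
    rw [nsmul_eq_mul]
    have hcard' : (((S t).filter (fun z => g z = k)).card : ℝ) ≤ 8 * k := by exact_mod_cast hcard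
    calc _ ≤ (8 * k : ℝ) * (1 / k) := mul_le_mul_of_nonneg_right hcard' (by positivity)
      _ = 8 := by field_simp
  refine (Finset.sum_le_card_nsmul _ _ _ hk).trans ?_
  rw [Nat.card_Icc, nsmul_eq_mul]
  have := Nat.floor_le (Real.sqrt_nonneg t)
  have h2 : ((⌊Real.sqrt t⌋₊ + 1 - 1 : ℕ) : ℝ) = (⌊Real.sqrt t⌋₊ : ℝ) := by
    congr 1
  rw [h2]
  linarith

/-- the union of the bricks -/
def U (t : ℝ) : Set ℂ := ⋃ z ∈ S t, brick (GaussianInt.toComplex z)

theorem measurable_U (t : ℝ) : MeasurableSet (U t) :=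
  Finset.measurableSet_biUnion _ (fun z _ => measurable_brick _)

theorem U_subset {t : ℝ} (ht : 1 ≤ t) : U t ⊆ Metric.closedBall 0 (Real.sqrt t + 3) := by
  intro w hw
  unfold U at hw
  simp only [Set.mem_iUnion] at hw
  obtain ⟨z, hz, hw⟩ := hw
  rw [mem_S (by linarith)] at hz
  rw [mem_closedBall_zero_iff]
  have h1 := dist_brick hw
  have h2 : ‖(GaussianInt.toComplex z : ℂ)‖ ≤ Real.sqrt t := by
    apply Real.le_sqrt_of_sq_le
    rw [norm_sq]; exact hz.2
  have h3 := norm_sub_norm_le w (GaussianInt.toComplex z : ℂ)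
  rw [norm_sub_rev] at h3
  linarith

theorem subset_U {t : ℝ} (ht : 1 ≤ t) : Metric.closedBall 0 (Real.sqrt t - 3) ⊆ U t := by
  intro w hw
  rw [mem_closedBall_zero_iff] at hw
  obtain ⟨z, hz, hwz⟩ := exists_center w
  unfold U
  simp only [Set.mem_iUnion]
  refine ⟨z, ?_, hwz⟩
  rw [mem_S (by linarith)]
  refine ⟨hz, ?_⟩
  have h1 := dist_brick hwz
  have h3 := norm_sub_norm_le (GaussianInt.toComplex z : ℂ) w
  have h4 : ‖(GaussianInt.toComplex z : ℂ)‖ ≤ Real.sqrt t := by linarith
  rw [← norm_sq]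
  calc ‖(GaussianInt.toComplex z : ℂ)‖ ^ 2 ≤ (Real.sqrt t) ^ 2 :=
        pow_le_pow_left₀ (norm_nonneg _) h4 2
    _ = t := Real.sq_sqrt (by linarith)

theorem volume_real_ball {r : ℝ} (hr : 0 ≤ r) :
    volume.real (Metric.closedBall (0 : ℂ) r) = Real.pi * r ^ 2 := by
  rw [Measure.real, Complex.volume_closedBall, ENNReal.toReal_mul, ENNReal.toReal_pow,
    ENNReal.toReal_ofReal hr]
  simp [mul_comm]

theorem ball_fin (r : ℝ) : volume (Metric.closedBall (0 : ℂ) r) ≠ ⊤ :=
  measure_closedBall_lt_top.ne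

/-- the union of the bricks against the disc -/
theorem U_integral (j : ℕ) {t : ℝ} (ht : 1 ≤ t) :
    |(∫ w in U t, fj j w) - ∫ w in Metric.closedBall 0 (Real.sqrt t), fj j w| ≤
      150 * Real.sqrt t := by
  set R := Real.sqrt t with hR
  have hR1 : 1 ≤ R := by rw [hR]; exact Real.one_le_sqrt.mpr ht
  set B := Metric.closedBall (0 : ℂ) R with hB
  have hUfin : volume (U t) ≠ ⊤ :=
    ((measure_mono (U_subset ht)).trans_lt measure_closedBall_lt_top).ne
  have hBfin : volume B ≠ ⊤ := ball_fin R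
  have e1 := integral_inter_add_sdiff (f := fj j) (s := U t) (t := B) (μ := volume)
    measurableSet_closedBall (integrableOn_fj j hUfin)
  have e2 := integral_inter_add_sdiff (f := fj j) (s := B) (t := U t) (μ := volume)
    (measurable_U t) (integrableOn_fj j hBfin)
  rw [Set.inter_comm] at e2
  have h1 : |∫ w in U t \ B, fj j w| ≤ Real.pi * (R + 3) ^ 2 - Real.pi * R ^ 2 := by
    have hv : volume (U t \ B) ≠ ⊤ := (measure_mono Set.sdiff_subset |>.trans_lt hUfin.lt_top).ne
    have h := norm_setIntegral_le_of_norm_le_const (μ := volume) (s := U t \ B) (f := fj j) (C := 1)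
      hv.lt_top (fun w _ => by rw [Real.norm_eq_abs]; exact abs_fj_le j w)
    rw [Real.norm_eq_abs, one_mul] at h
    refine h.trans ?_
    have h2 : U t \ B ⊆ Metric.closedBall (0 : ℂ) (R + 3) \ B := Set.sdiff_subset_sdiff_left (U_subset ht)
    have h3 := measureReal_mono (μ := volume) h2
      ((measure_mono Set.sdiff_subset).trans_lt (ball_fin (R + 3)).lt_top).ne
    refine h3.trans (le_of_eq ?_)
    rw [measureReal_sdiff (Metric.closedBall_subset_closedBall (by linarith))
      measurableSet_closedBall (ball_fin _), volume_real_ball (by linarith), volume_real_ball (by linarith)]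
  have h2 : |∫ w in B \ U t, fj j w| ≤ Real.pi * R ^ 2 - Real.pi * (max (R - 3) 0) ^ 2 := by
    have hv : volume (B \ U t) ≠ ⊤ := (measure_mono Set.sdiff_subset |>.trans_lt hBfin.lt_top).ne
    have h := norm_setIntegral_le_of_norm_le_const (μ := volume) (s := B \ U t) (f := fj j) (C := 1)
      hv.lt_top (fun w _ => by rw [Real.norm_eq_abs]; exact abs_fj_le j w)
    rw [Real.norm_eq_abs, one_mul] at h
    refine h.trans ?_
    rcases le_or_gt 3 R with h3R | h3R
    · have h2 : B \ U t ⊆ B \ Metric.closedBall (0 : ℂ) (R - 3) :=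
        Set.sdiff_subset_sdiff_right (subset_U ht)
      have h3 := measureReal_mono (μ := volume) h2
        ((measure_mono Set.sdiff_subset).trans_lt hBfin.lt_top).ne
      refine h3.trans (le_of_eq ?_)
      rw [measureReal_sdiff (Metric.closedBall_subset_closedBall (by linarith))
        measurableSet_closedBall hBfin, volume_real_ball (by linarith), volume_real_ball (by linarith),
        max_eq_left (by linarith)]
    · have h3 := measureReal_mono (μ := volume) (Set.sdiff_subset : B \ U t ⊆ B) hBfin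
      refine h3.trans (le_of_eq ?_)
      rw [volume_real_ball (by linarith), max_eq_right (by linarith)]
      ring
  have hpi : Real.pi ≤ 4 := Real.pi_le_four
  have hpi0 : 0 < Real.pi := Real.pi_pos
  have h3 : (∫ w in U t, fj j w) - ∫ w in B, fj j w =
      (∫ w in U t \ B, fj j w) - ∫ w in B \ U t, fj j w := by
    rw [← e1, ← e2]; ring
  rw [h3]
  refine (abs_sub _ _).trans ?_
  rcases le_or_gt 3 R with h3R | h3R
  · rw [max_eq_left (by linarith)] at h2
    nlinarith
  · rw [max_eq_right (by linarith)] at h2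
    nlinarith

/-- the integral over the disc vanishes for positive `j` -/
theorem ball_integral {j : ℕ} (hj : 1 ≤ j) (R : ℝ) :
    ∫ w in Metric.closedBall (0 : ℂ) R, fj j w = 0 := by
  let θ : ℝ := Real.pi / (2 * j)
  let e : ℂ ≃ₗᵢ[ℝ] ℂ := rotation (Circle.exp θ)
  have hmp : MeasurePreserving e volume volume := e.measurePreserving
  have hj0 : (j : ℂ) ≠ 0 := by
    have : j ≠ 0 := by omega
    exact_mod_cast this
  have he : ∀ w, fj j (e w) = - fj j w := by
    intro w
    unfold fj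
    rw [LinearIsometryEquiv.norm_map]
    have h1 : e w = (Circle.exp θ : ℂ) * w := rotation_apply _ _
    rw [h1, mul_div_assoc, mul_pow, Circle.coe_exp, ← Complex.exp_nat_mul]
    have h2 : ((2 * j : ℕ) : ℂ) * ((θ : ℂ) * I) = Real.pi * I := by
      simp only [θ]
      push_cast
      field_simp
    rw [h2, Complex.exp_pi_mul_I]
    simp
  have h1 : ∫ w in Metric.closedBall (0 : ℂ) R, fj j w =
      ∫ w in Metric.closedBall (0 : ℂ) R, fj j (e w) := by
    have h2 := hmp.setIntegral_preimage_emb e.toHomeomorph.measurableEmbedding (fj j)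
      (Metric.closedBall (0 : ℂ) R)
    rw [← h2]
    congr 1
    have : e ⁻¹' (Metric.closedBall (0 : ℂ) R) = Metric.closedBall (0 : ℂ) R := by
      ext w
      simp
    rw [this]
  simp only [he, integral_neg] at h1
  linarith

theorem ball_integral_zero {R : ℝ} (hR : 0 ≤ R) :
    ∫ w in Metric.closedBall (0 : ℂ) R, fj 0 w = Real.pi * R ^ 2 := by
  have : ∀ w, fj 0 w = 1 := by intro w; simp [fj]
  simp only [this]
  rw [setIntegral_const, volume_real_ball hR, smul_eq_mul, mul_one]

/-- the sum against the disc -/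
theorem HA_ball (j : ℕ) {t : ℝ} (ht : 1 ≤ t) :
    |8 * HA j t - ∫ w in Metric.closedBall 0 (Real.sqrt t), fj j w| ≤
      (768 * j + 150) * Real.sqrt t := by
  classical
  have h0 : ∫ w in U t, fj j w = ∑ z ∈ S t, ∫ w in brick (GaussianInt.toComplex z), fj j w := by
    unfold U
    apply integral_biUnion_finset
    · intro z _; exact measurable_brick _
    · intro z hz z' hz' hne
      rw [Function.onFun, Set.disjoint_left]
      intro w hw hw'
      apply hne
      have hz1 := (mem_S (by linarith) z).mp hz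
      have hz2 := (mem_S (by linarith) z').mp hz'
      exact center_unique hz1.1 hz2.1 hw hw'
    · intro z _
      apply integrableOn_fj
      rw [volume_brick]; norm_num
  have h1 : |8 * HA j t - ∫ w in U t, fj j w| ≤ 768 * j * Real.sqrt t := by
    rw [h0, HA_eq, Finset.mul_sum, ← Finset.sum_sub_distrib]
    refine (Finset.abs_sum_le_sum_abs _ _).trans ?_
    have h2 : ∀ z ∈ S t, |8 * fj j (GaussianInt.toComplex z) -
        ∫ w in brick (GaussianInt.toComplex z), fj j w| ≤
          96 * j * (1 / ‖(GaussianInt.toComplex z : ℂ)‖) := by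
      intro z hz
      have hz1 := (mem_S (by linarith) z).mp hz
      have hz0 : (GaussianInt.toComplex z : ℂ) ≠ 0 := by
        rw [Ne, GaussianInt.toComplex_eq_zero]
        exact prim_ne hz1.1
      refine (brick_integral j hz0).trans (le_of_eq ?_)
      ring
    refine (Finset.sum_le_sum h2).trans ?_
    rw [← Finset.mul_sum]
    have h3 := sum_inv_le ht
    have hj : (0 : ℝ) ≤ 96 * j := by positivity
    calc _ ≤ 96 * (j : ℝ) * (8 * Real.sqrt t) := mul_le_mul_of_nonneg_left h3 hj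
      _ = _ := by ring
  have h2 := U_integral j ht
  have h3 : 8 * HA j t - ∫ w in Metric.closedBall 0 (Real.sqrt t), fj j w =
      (8 * HA j t - ∫ w in U t, fj j w) +
      ((∫ w in U t, fj j w) - ∫ w in Metric.closedBall 0 (Real.sqrt t), fj j w) := by ring
  rw [h3]
  refine (abs_add_le _ _).trans ?_
  linarith

end LAT

theorem HA_le {j : ℕ} (hj : 1 ≤ j) : ∃ C : ℝ, ∀ t : ℝ, 1 ≤ t → |HA j t| ≤ C * Real.sqrt t := by
  refine ⟨(768 * j + 150) / 8, fun t ht => ?_⟩
  have h := LAT.HA_ball j ht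
  rw [LAT.ball_integral hj, sub_zero, abs_mul] at h
  rw [abs_of_pos (by norm_num : (0 : ℝ) < 8)] at h
  linarith

theorem HA0_le : ∃ C : ℝ, ∀ t : ℝ, 1 ≤ t → |HA 0 t - Real.pi / 8 * t| ≤ C * Real.sqrt t := by
  refine ⟨150 / 8, fun t ht => ?_⟩
  have h := LAT.HA_ball 0 ht
  rw [LAT.ball_integral_zero (Real.sqrt_nonneg t), Real.sq_sqrt (by linarith)] at h
  have h1 : 8 * HA 0 t - Real.pi * t = 8 * (HA 0 t - Real.pi / 8 * t) := by ring
  rw [h1, abs_mul, abs_of_pos (by norm_num : (0 : ℝ) < 8)] at h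
  simp only [Nat.cast_zero, mul_zero, zero_add] at h
  linarith

end Pool.Agent.CZ.Inp
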