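import Mathlib
import Pool.Agent.CZ.InpDefs
import Pool.Agent.CZ.InpLAT
import Pool.Agent.CZ.InpARI

/-!
Continuation of `L_j`, `L_0`, `L(χ₋₄, ·)` by Abel summation.
-/

set_option autoImplicit false

open Complex Finset MeasureTheory Asymptotics Filter

namespace Pool.Agent.CZ.Inp

/-! ### A general lemma -/

theorem cont_int {A : ℝ → ℂ} {C θ : ℝ} (hm : Measurable A)
    (hA : ∀ t : ℝ, 1 < t → ‖A t‖ ≤ C * t ^ θ) {s : ℂ} (hs : θ < s.re) :
    IntegrableOn (fun t : ℝ => A t * (t : ℂ) ^ (-(s + 1))) (Set.Ioi 1) ∧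
    ‖∫ t in Set.Ioi (1 : ℝ), A t * (t : ℂ) ^ (-(s + 1))‖ ≤ C / (s.re - θ) := by
  have h1 : IntegrableOn (fun t : ℝ => C * t ^ (θ - s.re - 1)) (Set.Ioi 1) :=
    (integrableOn_Ioi_rpow_of_lt (by linarith) zero_lt_one).const_mul C
  have h2 : ∀ t ∈ Set.Ioi (1 : ℝ), ‖A t * (t : ℂ) ^ (-(s + 1))‖ ≤ C * t ^ (θ - s.re - 1) := by
    intro t ht
    have ht0 : (0 : ℝ) < t := zero_lt_one.trans ht
    rw [norm_mul, norm_cpow_eq_rpow_re_of_pos ht0]
    have h3 : (-(s + 1)).re = -s.re - 1 := by simp; ring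
    rw [h3]
    calc ‖A t‖ * t ^ (-s.re - 1) ≤ C * t ^ θ * t ^ (-s.re - 1) :=
          mul_le_mul_of_nonneg_right (hA t ht) (Real.rpow_nonneg ht0.le _)
      _ = C * t ^ (θ - s.re - 1) := by
          rw [mul_assoc, ← Real.rpow_add ht0]
          congr 2
          ring
  have hmeas : AEStronglyMeasurable (fun t : ℝ => A t * (t : ℂ) ^ (-(s + 1)))
      (volume.restrict (Set.Ioi 1)) := by
    refine (hm.mul ?_).aestronglyMeasurable
    exact measurable_ofReal.pow_const _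
  have hint : IntegrableOn (fun t : ℝ => A t * (t : ℂ) ^ (-(s + 1))) (Set.Ioi 1) :=
    Integrable.mono' h1 hmeas ((ae_restrict_iff' measurableSet_Ioi).2 (Eventually.of_forall h2))
  refine ⟨hint, ?_⟩
  calc ‖∫ t in Set.Ioi (1 : ℝ), A t * (t : ℂ) ^ (-(s + 1))‖
      ≤ ∫ t in Set.Ioi (1 : ℝ), C * t ^ (θ - s.re - 1) :=
        norm_integral_le_of_norm_le h1
          ((ae_restrict_iff' measurableSet_Ioi).2 (Eventually.of_forall h2))
    _ = C / (s.re - θ) := by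
        rw [integral_const_mul, integral_Ioi_rpow_of_lt (by linarith) zero_lt_one, Real.one_rpow]
        have h5 : θ - s.re - 1 + 1 = -(s.re - θ) := by ring
        rw [h5, neg_div_neg_eq, mul_one_div]

theorem cont_diff {A : ℝ → ℂ} {C θ : ℝ} (hm : Measurable A)
    (hA : ∀ t : ℝ, 1 < t → ‖A t‖ ≤ C * t ^ θ) {s : ℂ} (hs : θ < s.re) :
    DifferentiableAt ℂ (fun s : ℂ => ∫ t in Set.Ioi (1 : ℝ), A t * (t : ℂ) ^ (-(s + 1))) s := by
  set f : ℝ → ℂ := (Set.Ioi (1 : ℝ)).indicator A with hf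
  have hfm : Measurable f := hm.indicator measurableSet_Ioi
  have key : ∀ w : ℂ, (∫ t in Set.Ioi (1 : ℝ), A t * (t : ℂ) ^ (-(w + 1))) = mellin f (-w) := by
    intro w
    have h1 : Set.Ioi (1 : ℝ) ⊆ Set.Ioi 0 := Set.Ioi_subset_Ioi zero_le_one
    rw [mellin, ← integral_indicator measurableSet_Ioi, ← integral_indicator measurableSet_Ioi]
    congr 1
    funext t
    by_cases ht : (1 : ℝ) < t
    · rw [Set.indicator_of_mem (show t ∈ Set.Ioi (1 : ℝ) from ht),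
        Set.indicator_of_mem (h1 ht), hf, Set.indicator_of_mem (show t ∈ Set.Ioi (1 : ℝ) from ht),
        smul_eq_mul, mul_comm]
      congr 2
      ring
    · rw [Set.indicator_of_notMem (show t ∉ Set.Ioi (1 : ℝ) from ht)]
      by_cases ht0 : (0 : ℝ) < t
      · rw [Set.indicator_of_mem (show t ∈ Set.Ioi (0 : ℝ) from ht0), hf,
          Set.indicator_of_notMem (show t ∉ Set.Ioi (1 : ℝ) from ht), smul_zero]
      · rw [Set.indicator_of_notMem (show t ∉ Set.Ioi (0 : ℝ) from ht0)]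
  have hloc : LocallyIntegrableOn f (Set.Ioi 0) := by
    have hc : LocallyIntegrable (fun t : ℝ => |C| * (max t 1) ^ |θ|) volume := by
      refine Continuous.locallyIntegrable ?_
      refine continuous_const.mul ?_
      exact (continuous_id.max continuous_const).rpow_const
        (fun t => Or.inr (abs_nonneg θ))
    refine (hc.mono hfm.aestronglyMeasurable (Eventually.of_forall fun t => ?_)).locallyIntegrableOn _
    rw [Real.norm_of_nonneg (by positivity)]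
    by_cases ht : (1 : ℝ) < t
    · rw [hf, Set.indicator_of_mem (show t ∈ Set.Ioi (1 : ℝ) from ht), max_eq_left ht.le]
      refine (hA t ht).trans ?_
      have h2 : t ^ θ ≤ t ^ |θ| := Real.rpow_le_rpow_of_exponent_le ht.le (le_abs_self θ)
      have h3 : (0 : ℝ) ≤ t ^ θ := Real.rpow_nonneg (zero_le_one.trans ht.le) _
      calc C * t ^ θ ≤ |C| * t ^ θ := mul_le_mul_of_nonneg_right (le_abs_self C) h3
        _ ≤ |C| * t ^ |θ| := mul_le_mul_of_nonneg_left h2 (abs_nonneg C)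
    · rw [hf, Set.indicator_of_notMem (show t ∉ Set.Ioi (1 : ℝ) from ht), norm_zero]
      positivity
  have htop : f =O[atTop] (fun t : ℝ => t ^ (-(-θ))) := by
    refine IsBigO.of_bound |C| ?_
    filter_upwards [eventually_gt_atTop (1 : ℝ)] with t ht
    rw [hf, Set.indicator_of_mem (show t ∈ Set.Ioi (1 : ℝ) from ht), neg_neg]
    rw [Real.norm_of_nonneg (Real.rpow_nonneg (zero_le_one.trans ht.le) _)]
    exact (hA t ht).trans (mul_le_mul_of_nonneg_right (le_abs_self C)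
      (Real.rpow_nonneg (zero_le_one.trans ht.le) _))
  have hbot : f =O[nhdsWithin 0 (Set.Ioi 0)] (fun t : ℝ => t ^ (-(-s.re - 1))) := by
    refine IsBigO.of_bound 0 ?_
    have : Set.Iio (1 : ℝ) ∈ nhdsWithin (0 : ℝ) (Set.Ioi 0) :=
      mem_nhdsWithin_of_mem_nhds (Iio_mem_nhds zero_lt_one)
    filter_upwards [this] with t ht
    have ht1 : t < 1 := ht
    rw [hf, Set.indicator_of_notMem (show t ∉ Set.Ioi (1 : ℝ) from not_lt.2 ht1.le)]
    simp
  have hmel : DifferentiableAt ℂ (mellin f) (-s) :=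
    mellin_differentiableAt_of_isBigO_rpow hloc htop (by simpa using hs) hbot (by simp)
  have h6 : (fun s : ℂ => ∫ t in Set.Ioi (1 : ℝ), A t * (t : ℂ) ^ (-(s + 1)))
      = fun s => mellin f (-s) := funext key
  rw [h6]
  exact DifferentiableAt.comp (g := mellin f) (f := fun w : ℂ => -w) s hmel
    differentiableAt_id.neg

/-! ### The summatory functions -/

theorem cont_meas (a : ℕ → ℝ) : Measurable (fun t : ℝ => ∑ n ∈ Icc 1 ⌊t⌋₊, a n) :=
  (measurable_from_nat (f := fun N : ℕ => ∑ n ∈ Icc 1 N, a n)).comp Nat.measurable_floor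

theorem HA_meas (j : ℕ) : Measurable (HA j) := cont_meas (hr j)

theorem XA_meas : Measurable XA := cont_meas x4

theorem HA_le' {j : ℕ} (hj : 1 ≤ j) : ∃ C : ℝ, 0 ≤ C ∧ ∀ t : ℝ, 1 < t →
    ‖((HA j t : ℝ) : ℂ)‖ ≤ C * t ^ (1 / 2 : ℝ) := by
  obtain ⟨C, hC⟩ := HA_le hj
  refine ⟨max C 0, le_max_right _ _, fun t ht => ?_⟩
  rw [norm_real, Real.norm_eq_abs, ← Real.sqrt_eq_rpow]
  exact (hC t ht.le).trans (mul_le_mul_of_nonneg_right (le_max_left _ _) (Real.sqrt_nonneg _))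

theorem HA0_le' : ∃ C : ℝ, 0 ≤ C ∧ ∀ t : ℝ, 1 < t →
    ‖((HA 0 t - Real.pi / 8 * t : ℝ) : ℂ)‖ ≤ C * t ^ (1 / 2 : ℝ) := by
  obtain ⟨C, hC⟩ := HA0_le
  refine ⟨max C 0, le_max_right _ _, fun t ht => ?_⟩
  rw [norm_real, Real.norm_eq_abs, ← Real.sqrt_eq_rpow]
  exact (hC t ht.le).trans (mul_le_mul_of_nonneg_right (le_max_left _ _) (Real.sqrt_nonneg _))

theorem HA0_bigO : (fun n : ℕ => ∑ k ∈ Icc 1 n, hr 0 k) =O[atTop] fun n : ℕ => (n : ℝ) ^ (1 : ℝ) := by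
  obtain ⟨C, hC0, hC⟩ := HA0_le'
  refine IsBigO.of_bound (C + Real.pi / 8) ?_
  filter_upwards [eventually_gt_atTop 1] with n hn
  have hn1 : (1 : ℝ) < n := by exact_mod_cast hn
  have h1 := hC n hn1
  rw [norm_real, Real.norm_eq_abs] at h1
  have h2 : HA 0 n = ∑ k ∈ Icc 1 n, hr 0 k := by rw [HA, Nat.floor_natCast]
  rw [h2] at h1
  have h3 : (n : ℝ) ^ (1 / 2 : ℝ) ≤ (n : ℝ) ^ (1 : ℝ) :=
    Real.rpow_le_rpow_of_exponent_le hn1.le (by norm_num)
  rw [Real.rpow_one] at h3 ⊢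
  have hn0 : (0 : ℝ) ≤ n := by positivity
  rw [Real.norm_of_nonneg hn0, Real.norm_eq_abs]
  have h4 := abs_sub_abs_le_abs_sub (∑ k ∈ Icc 1 n, hr 0 k) (Real.pi / 8 * n)
  have h5 : |Real.pi / 8 * (n : ℝ)| = Real.pi / 8 * n := abs_of_nonneg (by positivity)
  have h6 : C * (n : ℝ) ^ (1 / 2 : ℝ) ≤ C * n := mul_le_mul_of_nonneg_left h3 hC0
  nlinarith

theorem summable_hr (j : ℕ) {s : ℂ} (hs : 1 < s.re) : LSeriesSummable (fun n => (hr j n : ℂ)) s := by
  refine LSeriesSummable_of_sum_norm_bigO (r := 1) ?_ zero_le_one hs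
  refine IsBigO.trans ?_ HA0_bigO
  refine IsBigO.of_bound 1 (Eventually.of_forall fun n => ?_)
  rw [one_mul, Real.norm_of_nonneg (Finset.sum_nonneg fun _ _ => norm_nonneg _)]
  refine (Finset.sum_le_sum fun k _ => ?_).trans (Real.le_norm_self _)
  rw [norm_real, Real.norm_eq_abs]
  exact abs_hr_le_hr j k

theorem HL_diff {j : ℕ} (hj : 1 ≤ j) : DifferentiableOn ℂ (HL j) {s : ℂ | 1 / 2 < s.re} := by
  obtain ⟨C, _, hC⟩ := HA_le' hj
  intro s hs
  refine DifferentiableAt.differentiableWithinAt ?_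
  exact differentiableAt_id.mul
    (cont_diff (measurable_ofReal.comp (HA_meas j)) hC hs)

theorem HL_eq {j : ℕ} (hj : 1 ≤ j) {s : ℂ} (hs : 1 < s.re) :
    HL j s = LSeries (fun n => (hr j n : ℂ)) s := by
  obtain ⟨C, hC0, hC⟩ := HA_le' hj
  rw [LSeries_eq_mul_integral (fun n => (hr j n : ℂ)) (r := 1 / 2) (by norm_num)
    (by linarith) (summable_hr j hs)]
  · rw [HL]
    congr 1
    refine setIntegral_congr_fun measurableSet_Ioi fun t _ => ?_
    simp only [HA, ofReal_sum]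
  · refine IsBigO.of_bound C ?_
    filter_upwards [eventually_gt_atTop 1] with n hn
    have h1 := hC n (by exact_mod_cast hn)
    have h2 : ((HA j n : ℝ) : ℂ) = ∑ k ∈ Icc 1 n, (hr j k : ℂ) := by
      rw [HA, Nat.floor_natCast, ofReal_sum]
    rw [h2] at h1
    rwa [Real.norm_of_nonneg (by positivity)]

theorem HL_le {j : ℕ} (hj : 1 ≤ j) : ∃ C : ℝ, ∀ s : ℂ, 1 / 2 < s.re →
    ‖HL j s‖ ≤ C * ‖s‖ / (s.re - 1 / 2) := by
  obtain ⟨C, _, hC⟩ := HA_le' hj
  refine ⟨C, fun s hs => ?_⟩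
  have h1 := (cont_int (measurable_ofReal.comp (HA_meas j)) hC hs).2
  rw [HL, norm_mul]
  calc ‖s‖ * ‖∫ t in Set.Ioi (1 : ℝ), (HA j t : ℂ) * (t : ℂ) ^ (-(s + 1))‖
      ≤ ‖s‖ * (C / (s.re - 1 / 2)) := mul_le_mul_of_nonneg_left h1 (norm_nonneg s)
    _ = C * ‖s‖ / (s.re - 1 / 2) := by ring

theorem H0_diff : DifferentiableOn ℂ H0 {s : ℂ | 1 / 2 < s.re} := by
  obtain ⟨C, _, hC⟩ := HA0_le'
  intro s hs
  refine DifferentiableAt.differentiableWithinAt ?_
  have hm : Measurable (fun t : ℝ => ((HA 0 t - Real.pi / 8 * t : ℝ) : ℂ)) :=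
    measurable_ofReal.comp ((HA_meas 0).sub (measurable_id.const_mul _))
  exact (differentiableAt_id.const_mul _).add
    ((differentiableAt_id.mul (differentiableAt_id.sub_const 1)).mul (cont_diff hm hC hs))

theorem H0_eq {s : ℂ} (hs : 1 < s.re) :
    H0 s = (s - 1) * LSeries (fun n => (hr 0 n : ℂ)) s := by
  obtain ⟨C, hC0, hC⟩ := HA0_le'
  have hs0 : (0 : ℝ) < s.re := by linarith
  have hs1 : s - 1 ≠ 0 := by
    intro h
    have := congrArg Complex.re h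
    simp at this
    linarith
  have hm : Measurable (fun t : ℝ => ((HA 0 t - Real.pi / 8 * t : ℝ) : ℂ)) :=
    measurable_ofReal.comp ((HA_meas 0).sub (measurable_id.const_mul _))
  have hi1 := (cont_int hm hC (show (1 / 2 : ℝ) < s.re by linarith)).1
  have hcp : ∀ t ∈ Set.Ioi (1 : ℝ), ((Real.pi / 8 * t : ℝ) : ℂ) * (t : ℂ) ^ (-(s + 1))
      = (Real.pi / 8 : ℂ) * (t : ℂ) ^ (-s) := by
    intro t ht
    have ht0 : (t : ℂ) ≠ 0 := by exact_mod_cast (zero_lt_one.trans ht).ne'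
    have h1 : (-(s + 1) : ℂ) = -s - 1 := by ring
    rw [h1, cpow_sub _ _ ht0, cpow_one]
    push_cast
    field_simp
  have hre : (-s).re < -1 := by simpa using hs
  have hi2 : IntegrableOn (fun t : ℝ => ((Real.pi / 8 * t : ℝ) : ℂ) * (t : ℂ) ^ (-(s + 1)))
      (Set.Ioi 1) := by
    refine IntegrableOn.congr_fun ?_ (fun t ht => (hcp t ht).symm) measurableSet_Ioi
    exact (integrableOn_Ioi_cpow_of_lt hre zero_lt_one).const_mul _
  have hsplit : (∫ t in Set.Ioi (1 : ℝ), (HA 0 t : ℂ) * (t : ℂ) ^ (-(s + 1)))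
      = (∫ t in Set.Ioi (1 : ℝ), ((HA 0 t - Real.pi / 8 * t : ℝ) : ℂ) * (t : ℂ) ^ (-(s + 1)))
        + Real.pi / 8 / (s - 1) := by
    have h1 : (∫ t in Set.Ioi (1 : ℝ), (HA 0 t : ℂ) * (t : ℂ) ^ (-(s + 1)))
        = ∫ t in Set.Ioi (1 : ℝ), (((HA 0 t - Real.pi / 8 * t : ℝ) : ℂ) * (t : ℂ) ^ (-(s + 1))
          + ((Real.pi / 8 * t : ℝ) : ℂ) * (t : ℂ) ^ (-(s + 1))) := by
      refine setIntegral_congr_fun measurableSet_Ioi fun t _ => ?_
      rw [← add_mul, ← ofReal_add, sub_add_cancel]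
    rw [h1, integral_add hi1 hi2]
    congr 1
    rw [setIntegral_congr_fun measurableSet_Ioi hcp, integral_const_mul,
      integral_Ioi_cpow_of_lt hre zero_lt_one, ofReal_one, one_cpow]
    have h2 : (-s + 1 : ℂ) = -(s - 1) := by ring
    rw [h2, neg_div_neg_eq]
    ring
  rw [LSeries_eq_mul_integral (fun n => (hr 0 n : ℂ)) (r := 1) zero_le_one hs (summable_hr 0 hs)]
  · have h3 : (∫ t in Set.Ioi (1 : ℝ), (∑ k ∈ Icc 1 ⌊t⌋₊, (hr 0 k : ℂ)) * (t : ℂ) ^ (-(s + 1)))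
        = ∫ t in Set.Ioi (1 : ℝ), (HA 0 t : ℂ) * (t : ℂ) ^ (-(s + 1)) := by
      refine setIntegral_congr_fun measurableSet_Ioi fun t _ => ?_
      simp only [HA, ofReal_sum]
    rw [h3, hsplit, H0]
    generalize (∫ t in Set.Ioi (1 : ℝ),
      ((HA 0 t - Real.pi / 8 * t : ℝ) : ℂ) * (t : ℂ) ^ (-(s + 1))) = J
    field_simp
    ring
  · have h4 := HA0_bigO
    refine IsBigO.trans (IsBigO.of_bound 1 (Eventually.of_forall fun n => ?_)) h4
    rw [one_mul, ← ofReal_sum, norm_real]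

theorem H0_le : ∃ C : ℝ, ∀ s : ℂ, 1 / 2 < s.re →
    ‖H0 s‖ ≤ C * (1 + ‖s‖) ^ 2 / (s.re - 1 / 2) + C * ‖s‖ := by
  obtain ⟨C, hC0, hC⟩ := HA0_le'
  refine ⟨max C 1, fun s hs => ?_⟩
  have hm : Measurable (fun t : ℝ => ((HA 0 t - Real.pi / 8 * t : ℝ) : ℂ)) :=
    measurable_ofReal.comp ((HA_meas 0).sub (measurable_id.const_mul _))
  have h1 := (cont_int hm hC hs).2
  have hd : 0 < s.re - 1 / 2 := by linarith
  rw [H0]
  have hpi : ‖(Real.pi / 8 * s : ℂ)‖ ≤ max C 1 * ‖s‖ := by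
    rw [norm_mul]
    refine mul_le_mul_of_nonneg_right ?_ (norm_nonneg s)
    refine le_trans ?_ (le_max_right _ _)
    have : (Real.pi / 8 : ℂ) = ((Real.pi / 8 : ℝ) : ℂ) := by push_cast; ring
    rw [this, norm_real, Real.norm_of_nonneg (by positivity)]
    have := Real.pi_lt_four
    linarith
  have hss : ‖s * (s - 1)‖ ≤ (1 + ‖s‖) ^ 2 := by
    rw [norm_mul]
    have h2 : ‖s - 1‖ ≤ ‖s‖ + 1 := by
      have := norm_sub_le s 1
      simpa using this
    nlinarith [norm_nonneg s, norm_nonneg (s - 1)]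
  have h3 : ‖s * (s - 1) * ∫ t in Set.Ioi (1 : ℝ),
      ((HA 0 t - Real.pi / 8 * t : ℝ) : ℂ) * (t : ℂ) ^ (-(s + 1))‖
      ≤ max C 1 * (1 + ‖s‖) ^ 2 / (s.re - 1 / 2) := by
    rw [norm_mul]
    calc ‖s * (s - 1)‖ * ‖∫ t in Set.Ioi (1 : ℝ),
          ((HA 0 t - Real.pi / 8 * t : ℝ) : ℂ) * (t : ℂ) ^ (-(s + 1))‖
        ≤ (1 + ‖s‖) ^ 2 * (C / (s.re - 1 / 2)) :=
          mul_le_mul hss h1 (norm_nonneg _) (by positivity)
      _ ≤ (1 + ‖s‖) ^ 2 * (max C 1 / (s.re - 1 / 2)) := by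
          refine mul_le_mul_of_nonneg_left ?_ (by positivity)
          exact div_le_div_of_nonneg_right (le_max_left _ _) hd.le
      _ = _ := by ring
  calc _ ≤ _ + _ := norm_add_le _ _
    _ ≤ max C 1 * ‖s‖ + max C 1 * (1 + ‖s‖) ^ 2 / (s.re - 1 / 2) := add_le_add hpi h3
    _ = _ := by ring

theorem H0_one : H0 1 = Real.pi / 8 := by
  simp [H0]

theorem abs_x4_le (n : ℕ) : |x4 n| ≤ 1 := by
  rw [x4, ZMod.χ₄_nat_eq_if_mod_four]
  split_ifs <;> simp

theorem summable_x4 {s : ℂ} (hs : 1 < s.re) : LSeriesSummable (fun n => (x4 n : ℂ)) s := by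
  refine LSeriesSummable_of_bounded_of_one_lt_re (m := 1) (fun n _ => ?_) hs
  rw [norm_real, Real.norm_eq_abs]
  exact abs_x4_le n

theorem XA_nat (N : ℕ) : ∑ n ∈ Icc 1 N, x4 n = if N % 4 = 1 ∨ N % 4 = 2 then 1 else 0 := by
  induction N with
  | zero => simp
  | succ N ih =>
    rw [Finset.sum_Icc_succ_top (by omega), ih, x4, ZMod.χ₄_nat_eq_if_mod_four]
    have h4 : N % 4 = 0 ∨ N % 4 = 1 ∨ N % 4 = 2 ∨ N % 4 = 3 := by omega
    rcases h4 with h | h | h | h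
    · have h1 : (N + 1) % 4 = 1 := by omega
      have h2 : (N + 1) % 2 = 1 := by omega
      simp [h, h1, h2]
    · have h1 : (N + 1) % 4 = 2 := by omega
      have h2 : (N + 1) % 2 = 0 := by omega
      simp [h, h1, h2]
    · have h1 : (N + 1) % 4 = 3 := by omega
      have h2 : (N + 1) % 2 = 1 := by omega
      simp [h, h1, h2]
    · have h1 : (N + 1) % 4 = 0 := by omega
      have h2 : (N + 1) % 2 = 0 := by omega
      simp [h, h1, h2]

theorem norm_XA_le (t : ℝ) : ‖((XA t : ℝ) : ℂ)‖ ≤ 1 := by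
  rw [norm_real, XA, XA_nat]
  split_ifs <;> simp

theorem XA_le' (t : ℝ) (_ : 1 < t) : ‖((XA t : ℝ) : ℂ)‖ ≤ 1 * t ^ (0 : ℝ) := by
  rw [Real.rpow_zero, mul_one]
  exact norm_XA_le t

theorem LX_diff : DifferentiableOn ℂ LX {s : ℂ | 0 < s.re} := by
  intro s hs
  refine DifferentiableAt.differentiableWithinAt ?_
  exact differentiableAt_id.mul
    (cont_diff (measurable_ofReal.comp XA_meas) XA_le' hs)

theorem LX_eq {s : ℂ} (hs : 1 < s.re) : LX s = LSeries (fun n => (x4 n : ℂ)) s := by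
  rw [LSeries_eq_mul_integral (fun n => (x4 n : ℂ)) (r := 0) le_rfl
    (by linarith) (summable_x4 hs)]
  · rw [LX]
    congr 1
    refine setIntegral_congr_fun measurableSet_Ioi fun t _ => ?_
    simp only [XA, ofReal_sum]
  · refine IsBigO.of_bound 1 (Eventually.of_forall fun n => ?_)
    have h1 := norm_XA_le n
    rw [XA, Nat.floor_natCast, ofReal_sum] at h1
    rw [Real.rpow_zero]
    simpa using h1

theorem LX_le {s : ℂ} (hs : 0 < s.re) : ‖LX s‖ ≤ ‖s‖ / s.re := by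
  have h1 := (cont_int (measurable_ofReal.comp XA_meas) XA_le' hs).2
  rw [LX, norm_mul]
  calc ‖s‖ * ‖∫ t in Set.Ioi (1 : ℝ), (XA t : ℂ) * (t : ℂ) ^ (-(s + 1))‖
      ≤ ‖s‖ * (1 / (s.re - 0)) := mul_le_mul_of_nonneg_left h1 (norm_nonneg s)
    _ = ‖s‖ / s.re := by rw [sub_zero, mul_one_div]

end Pool.Agent.CZ.Inp
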