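import Mathlib
import Pool.Agent.CZ.InpDefs
import Pool.Agent.CZ.InpARI

/-!
Critical zeros for the twists `E_d : y² = x³ - d² x` (MP_553913_nt), analytic inputs:
logarithms of the Euler products, the 3-4-1 inequality.
-/

set_option autoImplicit false

open Complex Finset

namespace Pool.Agent.CZ.Inp

open Pool.Agent.H5 (c bd P)

namespace Eul

/-- `f` has an Euler product of degree two with parameters `a p`, `b p` -/
structure Sat (f : ℕ → ℂ) (a b : Nat.Primes → ℂ) : Prop where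
  one : f 1 = 1
  mul : ∀ {m n : ℕ}, m.Coprime n → f (m * n) = f m * f n
  ha : ∀ p, ‖a p‖ ≤ 1
  hb : ∀ p, ‖b p‖ ≤ 1
  prime : ∀ p : Nat.Primes, f p = a p + b p
  step : ∀ (p : Nat.Primes) (k : ℕ),
    f ((p : ℕ) ^ (k + 2)) = (a p + b p) * f ((p : ℕ) ^ (k + 1)) - a p * b p * f ((p : ℕ) ^ k)

theorem norm_cpow_neg (p : Nat.Primes) (s : ℂ) : ‖((p : ℕ) : ℂ) ^ (-s)‖ = ((p : ℕ) : ℝ) ^ (-s.re) := by
  have h := Complex.norm_natCast_cpow_of_pos p.2.pos (-s)
  rw [h, neg_re]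

theorem norm_x_lt {s : ℂ} (hs : 1 < s.re) (p : Nat.Primes) : ‖((p : ℕ) : ℂ) ^ (-s)‖ < 1 / 2 := by
  rw [norm_cpow_neg]
  have h2 : (2 : ℝ) ≤ ((p : ℕ) : ℝ) := by exact_mod_cast p.2.two_le
  have h3 : ((p : ℕ) : ℝ) ^ (-s.re) < ((p : ℕ) : ℝ) ^ (-1 : ℝ) :=
    Real.rpow_lt_rpow_of_exponent_lt (by linarith) (by linarith)
  have h4 : ((p : ℕ) : ℝ) ^ (-1 : ℝ) ≤ 1 / 2 := by
    rw [Real.rpow_neg_one, one_div]
    exact inv_anti₀ (by norm_num) h2
  linarith

theorem norm_x_sq_le {s : ℂ} (hs : 1 < s.re) (p : Nat.Primes) :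
    ‖((p : ℕ) : ℂ) ^ (-s)‖ ^ 2 ≤ 1 / ((p : ℕ) : ℝ) ^ 2 := by
  rw [norm_cpow_neg]
  have h2 : (1 : ℝ) ≤ ((p : ℕ) : ℝ) := by exact_mod_cast p.2.one_le
  have h3 : ((p : ℕ) : ℝ) ^ (-s.re) ≤ ((p : ℕ) : ℝ) ^ (-1 : ℝ) :=
    Real.rpow_le_rpow_of_exponent_le h2 (by linarith)
  have h4 : 0 ≤ ((p : ℕ) : ℝ) ^ (-s.re) := by positivity
  calc (((p : ℕ) : ℝ) ^ (-s.re)) ^ 2 ≤ (((p : ℕ) : ℝ) ^ (-1 : ℝ)) ^ 2 := by gcongr
    _ = 1 / ((p : ℕ) : ℝ) ^ 2 := by rw [Real.rpow_neg_one, inv_pow, one_div]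

theorem summable_sq : Summable fun p : Nat.Primes => 1 / ((p : ℕ) : ℝ) ^ 2 :=
  (Real.summable_one_div_nat_pow.2 (by norm_num : 1 < 2)).comp_injective Nat.Primes.coe_nat_injective

/-- first order approximation of the logarithm -/
theorem log_bound {w : ℂ} (hw : ‖w‖ ≤ 1 / 2) : ‖-Complex.log (1 - w) - w‖ ≤ ‖w‖ ^ 2 := by
  have h1 : ‖-w‖ < 1 := by rw [norm_neg]; linarith
  have h2 := Complex.norm_log_one_add_sub_self_le h1
  rw [norm_neg] at h2
  have h3 : -Complex.log (1 - w) - w = -(Complex.log (1 + -w) - -w) := by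
    rw [← sub_eq_add_neg]; ring
  rw [h3, norm_neg]
  refine h2.trans ?_
  have h4 : (1 - ‖w‖)⁻¹ ≤ 2 := by
    rw [inv_le_comm₀ (by linarith) (by norm_num)]
    linarith
  have h5 : 0 ≤ ‖w‖ ^ 2 := by positivity
  nlinarith

section general

variable {f : ℕ → ℂ} {a b : Nat.Primes → ℂ}

/-- `p^{-s}` -/
noncomputable abbrev xp (s : ℂ) (p : Nat.Primes) : ℂ := ((p : ℕ) : ℂ) ^ (-s)

theorem norm_ax_le (h : ∀ p, ‖a p‖ ≤ 1) (s : ℂ) (p : Nat.Primes) :
    ‖a p * xp s p‖ ≤ ‖xp s p‖ := by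
  rw [norm_mul]
  exact mul_le_of_le_one_left (norm_nonneg _) (h p)

theorem norm_ax_lt (h : ∀ p, ‖a p‖ ≤ 1) {s : ℂ} (hs : 1 < s.re) (p : Nat.Primes) :
    ‖a p * xp s p‖ < 1 / 2 := (norm_ax_le h s p).trans_lt (norm_x_lt hs p)

theorem one_sub_ne (h : ∀ p, ‖a p‖ ≤ 1) {s : ℂ} (hs : 1 < s.re) (p : Nat.Primes) :
    1 - a p * xp s p ≠ 0 := by
  intro h0
  have h1 := norm_ax_lt h hs p
  rw [← sub_eq_zero.1 h0, norm_one] at h1
  norm_num at h1

theorem term_mul (H : Sat f a b) (s : ℂ) {m n : ℕ} (hmn : m.Coprime n) :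
    LSeries.term f s (m * n) = LSeries.term f s m * LSeries.term f s n := by
  rcases eq_or_ne m 0 with rfl | hm
  · simp
  rcases eq_or_ne n 0 with rfl | hn
  · simp
  rw [LSeries.term_of_ne_zero (mul_ne_zero hm hn), LSeries.term_of_ne_zero hm,
    LSeries.term_of_ne_zero hn, H.mul hmn, Nat.cast_mul, natCast_mul_natCast_cpow]
  field_simp

theorem term_pow (f : ℕ → ℂ) (s : ℂ) (p : Nat.Primes) (k : ℕ) :
    LSeries.term f s ((p : ℕ) ^ k) = f ((p : ℕ) ^ k) * xp s p ^ k := by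
  rw [LSeries.term_of_ne_zero (pow_ne_zero _ p.2.ne_zero), div_eq_mul_inv]
  congr 1
  rw [← Complex.cpow_neg, Nat.cast_pow, ← Complex.cpow_nat_mul, ← Complex.natCast_cpow_natCast_mul]

theorem local_factor (H : Sat f a b) {s : ℂ} (hsum : LSeriesSummable f s)
    (p : Nat.Primes) :
    (∑' k : ℕ, LSeries.term f s ((p : ℕ) ^ k)) * ((1 - a p * xp s p) * (1 - b p * xp s p)) = 1 := by
  have h1 : Summable fun k : ℕ => LSeries.term f s ((p : ℕ) ^ k) :=
    hsum.comp_injective (Nat.pow_right_injective p.2.two_le)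
  have h2 := h1.hasSum
  set S := ∑' k : ℕ, LSeries.term f s ((p : ℕ) ^ k) with hS
  set x := xp s p with hx
  have e0 : LSeries.term f s ((p : ℕ) ^ 0) = 1 := by
    rw [term_pow]; simp [H.one]
  have e1 : LSeries.term f s ((p : ℕ) ^ 1) = (a p + b p) * x := by
    rw [term_pow, pow_one, pow_one, H.prime]
  have h3 : HasSum (fun k : ℕ => LSeries.term f s ((p : ℕ) ^ (k + 1))) (S - 1) := by
    have := (hasSum_nat_add_iff' (f := fun k : ℕ => LSeries.term f s ((p : ℕ) ^ k)) 1).2 h2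
    rw [Finset.sum_range_one, e0] at this
    exact this
  have h4 : HasSum (fun k : ℕ => LSeries.term f s ((p : ℕ) ^ (k + 2))) (S - (1 + (a p + b p) * x)) := by
    have := (hasSum_nat_add_iff' (f := fun k : ℕ => LSeries.term f s ((p : ℕ) ^ k)) 2).2 h2
    rw [Finset.sum_range_succ, Finset.sum_range_one, e0, e1] at this
    exact this
  have h5 : HasSum (fun k : ℕ => LSeries.term f s ((p : ℕ) ^ (k + 2)))
      ((a p + b p) * x * (S - 1) - a p * b p * x ^ 2 * S) := by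
    have h6 := (h3.mul_left ((a p + b p) * x)).sub (h2.mul_left (a p * b p * x ^ 2))
    have h7 : (fun k : ℕ => LSeries.term f s ((p : ℕ) ^ (k + 2))) = fun k : ℕ =>
        (a p + b p) * x * LSeries.term f s ((p : ℕ) ^ (k + 1))
          - a p * b p * x ^ 2 * LSeries.term f s ((p : ℕ) ^ k) := by
      funext k
      rw [term_pow, term_pow, term_pow, H.step]
      ring
    rw [h7]
    exact h6
  have h6 := h4.unique h5
  linear_combination h6

/-- the summand of the logarithm -/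
noncomputable def lg (a : Nat.Primes → ℂ) (s : ℂ) (p : Nat.Primes) : ℂ :=
  -Complex.log (1 - a p * xp s p)

theorem lg_bound (h : ∀ p, ‖a p‖ ≤ 1) {s : ℂ} (hs : 1 < s.re) (p : Nat.Primes) :
    ‖lg a s p - a p * xp s p‖ ≤ 1 / ((p : ℕ) : ℝ) ^ 2 := by
  refine (log_bound (norm_ax_lt h hs p).le).trans ?_
  refine le_trans ?_ (norm_x_sq_le hs p)
  have := norm_ax_le h s p
  gcongr

theorem summable_ax (h : ∀ p, ‖a p‖ ≤ 1) {s : ℂ} (hs : 1 < s.re) :
    Summable fun p => a p * xp s p := by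
  have h1 : Summable fun p : Nat.Primes => ((p : ℕ) : ℝ) ^ (-s.re) :=
    Nat.Primes.summable_rpow.2 (by linarith)
  refine Summable.of_norm_bounded h1 fun p => ?_
  rw [← norm_cpow_neg]
  exact norm_ax_le h s p

theorem summable_err (h : ∀ p, ‖a p‖ ≤ 1) {s : ℂ} (hs : 1 < s.re) :
    Summable fun p => lg a s p - a p * xp s p :=
  Summable.of_norm_bounded summable_sq fun p => lg_bound h hs p

theorem summable_lg (h : ∀ p, ‖a p‖ ≤ 1) {s : ℂ} (hs : 1 < s.re) :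
    Summable fun p => lg a s p := by
  have := (summable_err h hs).add (summable_ax h hs)
  simpa using this

theorem exp_lg (h : ∀ p, ‖a p‖ ≤ 1) {s : ℂ} (hs : 1 < s.re) (p : Nat.Primes) :
    Complex.exp (lg a s p) = (1 - a p * xp s p)⁻¹ := by
  rw [lg, Complex.exp_neg, Complex.exp_log (one_sub_ne h hs p)]

theorem hasProd (H : Sat f a b) {s : ℂ} (hsum : LSeriesSummable f s) :
    HasProd (fun p : Nat.Primes => ((1 - a p * xp s p) * (1 - b p * xp s p))⁻¹) (LSeries f s) := by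
  have h1 := EulerProduct.eulerProduct_hasProd (f := LSeries.term f s) (by
    rw [LSeries.term_of_ne_zero one_ne_zero, H.one]; simp) (fun hmn => term_mul H s hmn)
    hsum.norm (LSeries.term_zero f s)
  have h2 : (fun p : Nat.Primes => ∑' e : ℕ, LSeries.term f s ((p : ℕ) ^ e))
      = fun p : Nat.Primes => ((1 - a p * xp s p) * (1 - b p * xp s p))⁻¹ := by
    funext p
    exact eq_inv_of_mul_eq_one_left (local_factor H hsum p)
  rw [h2] at h1
  exact h1

theorem eq_exp (H : Sat f a b) {s : ℂ} (hs : 1 < s.re) (hsum : LSeriesSummable f s) :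
    LSeries f s = Complex.exp (∑' p : Nat.Primes, (lg a s p + lg b s p)) := by
  have h1 := hasProd H hsum
  have h2 := (((summable_lg H.ha hs).add (summable_lg H.hb hs)).hasSum).cexp
  have h3 : (Complex.exp ∘ fun p : Nat.Primes => lg a s p + lg b s p)
      = fun p : Nat.Primes => ((1 - a p * xp s p) * (1 - b p * xp s p))⁻¹ := by
    funext p
    rw [Function.comp_apply, Complex.exp_add, exp_lg H.ha hs, exp_lg H.hb hs, mul_inv]
  rw [h3] at h2
  exact h1.unique h2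

theorem main (H : Sat f a b) (hsum : ∀ s : ℂ, 1 < s.re → LSeriesSummable f s) :
    ∃ C : ℝ, ∀ s : ℂ, 1 < s.re → ∃ E : ℂ, ‖E‖ ≤ C ∧ LSeries f s =
      Complex.exp ((∑' p : Nat.Primes, f p * (p : ℂ) ^ (-s)) + E) := by
  refine ⟨2 * ∑' p : Nat.Primes, 1 / ((p : ℕ) : ℝ) ^ 2, fun s hs => ?_⟩
  refine ⟨∑' p : Nat.Primes, ((lg a s p - a p * xp s p) + (lg b s p - b p * xp s p)), ?_, ?_⟩
  · refine tsum_of_norm_bounded (summable_sq.hasSum.mul_left 2) fun p => ?_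
    refine (norm_add_le _ _).trans ?_
    have h1 := lg_bound H.ha hs p
    have h2 := lg_bound H.hb hs p
    linarith
  · rw [eq_exp H hs (hsum s hs)]
    congr 1
    have h1 : Summable fun p : Nat.Primes => f p * ((p : ℕ) : ℂ) ^ (-s) := by
      have := (summable_ax H.ha hs).add (summable_ax H.hb hs)
      convert this using 1
      funext p
      rw [H.prime]
      ring
    rw [← h1.tsum_add ((summable_err H.ha hs).add (summable_err H.hb hs))]
    congr 1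
    funext p
    rw [H.prime]
    ring

/-! the error term as an analytic function on `3 / 4 < Re s` -/

theorem norm_x_lt' {s : ℂ} (hs : 3 / 4 < s.re) (p : Nat.Primes) : ‖xp s p‖ ≤ 3 / 5 := by
  rw [xp, norm_cpow_neg]
  have h2 : (2 : ℝ) ≤ ((p : ℕ) : ℝ) := by exact_mod_cast p.2.two_le
  have h3 : ((p : ℕ) : ℝ) ^ (-s.re) ≤ ((p : ℕ) : ℝ) ^ (-(3 / 4) : ℝ) :=
    Real.rpow_le_rpow_of_exponent_le (by linarith) (by linarith)
  have h4 : ((p : ℕ) : ℝ) ^ (-(3 / 4) : ℝ) ≤ (2 : ℝ) ^ (-(3 / 4) : ℝ) :=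
    Real.rpow_le_rpow_of_nonpos (by norm_num) h2 (by norm_num)
  have h5 : (2 : ℝ) ^ (-(3 / 4) : ℝ) ≤ 3 / 5 := by
    have h6 : ((2 : ℝ) ^ (-(3 / 4) : ℝ)) ^ 4 = 1 / 8 := by
      rw [← Real.rpow_natCast, ← Real.rpow_mul (by norm_num)]
      norm_num
    by_contra h7
    push Not at h7
    have h8 : (3 / 5 : ℝ) ^ 4 < ((2 : ℝ) ^ (-(3 / 4) : ℝ)) ^ 4 :=
      pow_lt_pow_left₀ h7 (by norm_num) (by norm_num)
    rw [h6] at h8
    norm_num at h8
  linarith

theorem norm_x_sq_le' {s : ℂ} (hs : 3 / 4 < s.re) (p : Nat.Primes) :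
    ‖xp s p‖ ^ 2 ≤ ((p : ℕ) : ℝ) ^ (-(3 / 2) : ℝ) := by
  rw [xp, norm_cpow_neg]
  have h2 : (1 : ℝ) ≤ ((p : ℕ) : ℝ) := by exact_mod_cast p.2.one_le
  have h3 : ((p : ℕ) : ℝ) ^ (-s.re) ≤ ((p : ℕ) : ℝ) ^ (-(3 / 4) : ℝ) :=
    Real.rpow_le_rpow_of_exponent_le h2 (by linarith)
  have h4 : 0 ≤ ((p : ℕ) : ℝ) ^ (-s.re) := by positivity
  calc (((p : ℕ) : ℝ) ^ (-s.re)) ^ 2 ≤ (((p : ℕ) : ℝ) ^ (-(3 / 4) : ℝ)) ^ 2 := by gcongr
    _ = ((p : ℕ) : ℝ) ^ (-(3 / 2) : ℝ) := by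
      rw [← Real.rpow_natCast, ← Real.rpow_mul (by positivity)]
      norm_num

theorem log_bound' {w : ℂ} (hw : ‖w‖ ≤ 3 / 5) : ‖-Complex.log (1 - w) - w‖ ≤ 2 * ‖w‖ ^ 2 := by
  have h1 : ‖-w‖ < 1 := by rw [norm_neg]; linarith
  have h2 := Complex.norm_log_one_add_sub_self_le h1
  rw [norm_neg] at h2
  have h3 : -Complex.log (1 - w) - w = -(Complex.log (1 + -w) - -w) := by
    rw [← sub_eq_add_neg]; ring
  rw [h3, norm_neg]
  refine h2.trans ?_
  have h4 : (1 - ‖w‖)⁻¹ ≤ 5 / 2 := by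
    rw [inv_le_comm₀ (by linarith) (by norm_num)]
    linarith
  have h5 : 0 ≤ ‖w‖ ^ 2 := by positivity
  nlinarith

theorem lg_bound' (h : ∀ p, ‖a p‖ ≤ 1) {s : ℂ} (hs : 3 / 4 < s.re) (p : Nat.Primes) :
    ‖lg a s p - a p * xp s p‖ ≤ 2 * ((p : ℕ) : ℝ) ^ (-(3 / 2) : ℝ) := by
  have h0 := norm_ax_le h s p
  refine (log_bound' (h0.trans (norm_x_lt' hs p))).trans ?_
  have h1 := norm_x_sq_le' hs p
  have h2 : ‖a p * xp s p‖ ^ 2 ≤ ‖xp s p‖ ^ 2 := by gcongr
  linarith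

theorem summable_32 : Summable fun p : Nat.Primes => ((p : ℕ) : ℝ) ^ (-(3 / 2) : ℝ) :=
  Nat.Primes.summable_rpow.2 (by norm_num)

theorem differentiableOn_err (h : ∀ p, ‖a p‖ ≤ 1) (p : Nat.Primes) :
    DifferentiableOn ℂ (fun s => lg a s p - a p * xp s p) {s : ℂ | 3 / 4 < s.re} := by
  intro s hs
  have hs' : 3 / 4 < s.re := hs
  have hp : ((p : ℕ) : ℂ) ≠ 0 := by exact_mod_cast p.2.ne_zero
  have h1 : DifferentiableAt ℂ (fun s : ℂ => ((p : ℕ) : ℂ) ^ (-s)) s :=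
    (differentiableAt_id.neg).const_cpow (Or.inl hp)
  have h2 : DifferentiableAt ℂ (fun s => a p * xp s p) s := h1.const_mul _
  have h3 : 1 - a p * xp s p ∈ slitPlane := by
    have := Complex.mem_slitPlane_of_norm_lt_one (z := -(a p * xp s p)) (by
      rw [norm_neg]
      exact ((norm_ax_le h s p).trans (norm_x_lt' hs' p)).trans_lt (by norm_num))
    rwa [← sub_eq_add_neg] at this
  have h4 : DifferentiableAt ℂ (fun s => lg a s p) s :=
    ((h2.const_sub 1).clog h3).neg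
  exact (h4.sub h2).differentiableWithinAt

theorem main_an (H : Sat f a b) (hsum : ∀ s : ℂ, 1 < s.re → LSeriesSummable f s) :
    ∃ C : ℝ, ∃ E : ℂ → ℂ, DifferentiableOn ℂ E {s : ℂ | 3 / 4 < s.re} ∧
      (∀ s : ℂ, 3 / 4 < s.re → ‖E s‖ ≤ C) ∧ ∀ s : ℂ, 1 < s.re → LSeries f s =
      Complex.exp ((∑' p : Nat.Primes, f p * (p : ℂ) ^ (-s)) + E s) := by
  have hb : ∀ s : ℂ, 3 / 4 < s.re → ∀ p : Nat.Primes,
      ‖(lg a s p - a p * xp s p) + (lg b s p - b p * xp s p)‖ ≤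
        4 * ((p : ℕ) : ℝ) ^ (-(3 / 2) : ℝ) := fun s hs p => by
    refine (norm_add_le _ _).trans ?_
    have h1 := lg_bound' H.ha hs p
    have h2 := lg_bound' H.hb hs p
    linarith
  refine ⟨4 * ∑' p : Nat.Primes, ((p : ℕ) : ℝ) ^ (-(3 / 2) : ℝ),
    fun s => ∑' p : Nat.Primes, ((lg a s p - a p * xp s p) + (lg b s p - b p * xp s p)),
    ?_, fun s hs => ?_, fun s hs => ?_⟩
  · exact differentiableOn_tsum_of_summable_norm (summable_32.mul_left 4)
      (fun p => (differentiableOn_err H.ha p).add (differentiableOn_err H.hb p))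
      (isOpen_lt continuous_const Complex.continuous_re) fun p s hs => hb s hs p
  · exact tsum_of_norm_bounded (summable_32.hasSum.mul_left 4) fun p => hb s hs p
  · rw [eq_exp H hs (hsum s hs)]
    congr 1
    have h1 : Summable fun p : Nat.Primes => f p * ((p : ℕ) : ℂ) ^ (-s) := by
      have := (summable_ax H.ha hs).add (summable_ax H.hb hs)
      convert this using 1
      funext p
      rw [H.prime]
      ring
    rw [← h1.tsum_add ((summable_err H.ha hs).add (summable_err H.hb hs))]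
    congr 1
    funext p
    rw [H.prime]
    ring

end general

/-! ### The three Euler products -/

/-- the angle at the split primes -/
noncomputable def th (p : Nat.Primes) : ℝ :=
  if h : (p : ℕ) % 4 = 1 then (hr_split p.2 h).choose else 0

theorem th_spec (p : Nat.Primes) (h : (p : ℕ) % 4 = 1) (j : ℕ) :
    hr j p = 2 * Real.cos (2 * j * th p) ∧
      ∀ k : ℕ, hr j ((p : ℕ) ^ (k + 2)) = hr j p * hr j ((p : ℕ) ^ (k + 1)) - hr j ((p : ℕ) ^ k) := by
  have h1 := (hr_split p.2 h).choose_spec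
  rw [th, dif_pos h]
  exact h1.2 j

/-- first parameter of `hr j` -/
noncomputable def ap (j : ℕ) (p : Nat.Primes) : ℂ :=
  if (p : ℕ) % 4 = 1 then Complex.exp ((2 * j * th p : ℝ) * I)
  else if (p : ℕ) % 4 = 3 then 1 else 0

/-- second parameter of `hr j` -/
noncomputable def bp (j : ℕ) (p : Nat.Primes) : ℂ :=
  if (p : ℕ) % 4 = 1 then Complex.exp ((-(2 * j * th p) : ℝ) * I)
  else if (p : ℕ) % 4 = 3 then -1 else 0

theorem prime_cases (p : Nat.Primes) : (p : ℕ) = 2 ∨ (p : ℕ) % 4 = 1 ∨ (p : ℕ) % 4 = 3 := by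
  rcases p.2.eq_two_or_odd with h | h
  · exact Or.inl h
  · omega

theorem sat_hr (j : ℕ) : Sat (fun n => (hr j n : ℂ)) (ap j) (bp j) where
  one := by rw [hr_one]; simp
  mul hmn := by rw [hr_mul j hmn]; push_cast; rfl
  ha p := by
    unfold ap
    split_ifs
    · rw [Complex.norm_exp_ofReal_mul_I]
    · simp
    · simp
  hb p := by
    unfold bp
    split_ifs
    · rw [Complex.norm_exp_ofReal_mul_I]
    · simp
    · simp
  prime p := by
    rcases prime_cases p with h | h | h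
    · have h2 := hr_two_pow j 1 le_rfl
      rw [pow_one] at h2
      simp [ap, bp, h, h2]
    · have h1 := (th_spec p h j).1
      rw [ap, bp, if_pos h, if_pos h, h1]
      push_cast
      rw [Complex.two_cos, neg_mul]
    · have h2 := (hr_inert j p.2 h 0).1
      simp [ap, bp, h, h2]
  step p k := by
    rcases prime_cases p with h | h | h
    · have h2 := hr_two_pow j (k + 2) (by omega)
      simp [ap, bp, h, h2]
    · obtain ⟨h1, h2⟩ := th_spec p h j
      have h3 : Complex.exp ((2 * j * th p : ℝ) * I) * Complex.exp ((-(2 * j * th p) : ℝ) * I) = 1 := by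
        rw [← Complex.exp_add]
        convert Complex.exp_zero using 2
        push_cast
        ring
      have h4 : Complex.exp ((2 * j * th p : ℝ) * I) + Complex.exp ((-(2 * j * th p) : ℝ) * I)
          = (hr j p : ℂ) := by
        rw [h1]
        push_cast
        rw [Complex.two_cos, neg_mul]
      rw [ap, bp, if_pos h, if_pos h, h3, h4, h2 k]
      push_cast
      ring
    · have h2 := (hr_inert j p.2 h k).2
      simp [ap, bp, h, h2]

theorem summable_hr' (j : ℕ) {s : ℂ} (hs : 1 < s.re) :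
    LSeriesSummable (fun n => (hr j n : ℂ)) s := by
  have h1 : LSeriesSummable (fun n => ((ArithmeticFunction.zeta : ArithmeticFunction ℂ) n)) s := by
    have := ArithmeticFunction.LSeriesSummable_zeta_iff.2 hs
    simpa using this
  have h2 := ArithmeticFunction.LSeriesSummable_mul h1 h1
  refine Summable.of_norm_bounded h2.norm fun n => ?_
  refine LSeries.norm_term_le s ?_
  have h3 : (((ArithmeticFunction.zeta : ArithmeticFunction ℂ) * ArithmeticFunction.zeta) n)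
      = (n.divisors.card : ℂ) := by
    rw [ArithmeticFunction.coe_mul_zeta_apply]
    rw [Finset.card_eq_sum_ones, Nat.cast_sum]
    refine Finset.sum_congr rfl fun d hd => ?_
    have hd0 : d ≠ 0 := (Nat.pos_of_mem_divisors hd).ne'
    simp [ArithmeticFunction.natCoe_apply, ArithmeticFunction.zeta_apply, hd0]
  rw [h3, Complex.norm_natCast, Complex.norm_real, Real.norm_eq_abs]
  exact hr_le_card j n

theorem x4_mul (m n : ℕ) : x4 (m * n) = x4 m * x4 n := by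
  unfold x4
  rw [Nat.cast_mul, map_mul]
  push_cast
  rfl

theorem x4_one : x4 1 = 1 := by
  unfold x4
  simp

theorem abs_x4_le (n : ℕ) : |x4 n| ≤ 1 := by
  unfold x4
  rcases ZMod.isQuadratic_χ₄ (n : ZMod 4) with h | h | h <;> rw [h] <;> norm_num

theorem sat_x4 : Sat (fun n => (x4 n : ℂ)) (fun p => (x4 p : ℂ)) (fun _ => 0) where
  one := by rw [x4_one]; simp
  mul _ := by rw [x4_mul]; push_cast; rfl
  ha p := by
    rw [Complex.norm_real]
    exact abs_x4_le p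
  hb p := by simp
  prime p := by simp
  step p k := by
    rw [pow_succ, x4_mul]
    push_cast
    ring

theorem summable_x4' {s : ℂ} (hs : 1 < s.re) : LSeriesSummable (fun n => (x4 n : ℂ)) s :=
  LSeriesSummable_of_bounded_of_one_lt_re (m := 1) (fun n _ => by
    rw [Complex.norm_real]
    exact abs_x4_le n) hs

theorem sat_one : Sat (1 : ℕ → ℂ) (fun _ => 1) (fun _ => 0) where
  one := rfl
  mul _ := by simp
  ha p := by simp
  hb p := by simp
  prime p := by simp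
  step p k := by simp

/-! ### 3-4-1 -/

theorem key {a : ℝ} (ha₀ : 0 ≤ a) (ha₁ : a < 1) {z : ℂ} (hz : ‖z‖ = 1) :
    0 ≤ 3 * (-Complex.log (1 - a)).re + 4 * (-Complex.log (1 - a * z)).re
      + (-Complex.log (1 - a * z ^ 2)).re := by
  have hac₀ : ‖(a : ℂ)‖ < 1 := by
    simp only [Complex.norm_of_nonneg ha₀, ha₁]
  have hac₁ : ‖a * z‖ < 1 := by rwa [norm_mul, hz, mul_one]
  have hac₂ : ‖a * z ^ 2‖ < 1 := by rwa [norm_mul, norm_pow, hz, one_pow, mul_one]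
  rw [← ((hasSum_re <| hasSum_taylorSeries_neg_log hac₀).mul_left 3).add
    ((hasSum_re <| hasSum_taylorSeries_neg_log hac₁).mul_left 4) |>.add
    (hasSum_re <| hasSum_taylorSeries_neg_log hac₂) |>.tsum_eq]
  refine tsum_nonneg fun n ↦ ?_
  simp only [← ofReal_pow, div_natCast_re, ofReal_re, mul_pow, mul_re, ofReal_im, zero_mul,
    sub_zero]
  rcases n.eq_zero_or_pos with rfl | hn
  · simp
  · simp only [← mul_div_assoc, ← add_div]
    refine div_nonneg ?_ n.cast_nonneg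
    rw [← pow_mul, pow_mul', sq, mul_re, ← sq, ← sq, ← sq_norm_sub_sq_re, norm_pow, hz]
    have h1 : 0 ≤ 2 * a ^ n * ((z ^ n).re + 1) ^ 2 := by positivity
    refine h1.trans (le_of_eq ?_)
    ring

theorem one_sub_ne' {w : ℂ} (hw : ‖w‖ < 1) : 1 - w ≠ 0 := by
  intro h
  rw [← sub_eq_zero.1 h, norm_one] at hw
  exact lt_irrefl _ hw

theorem norm_inv_eq {w : ℂ} (hw : ‖w‖ < 1) : ‖(1 - w)⁻¹‖ = Real.exp (-Complex.log (1 - w)).re := by
  rw [← Complex.norm_exp, Complex.exp_neg, Complex.exp_log (one_sub_ne' hw)]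

theorem key' {a : ℝ} (ha₀ : 0 ≤ a) (ha₁ : a < 1) {z : ℂ} (hz : ‖z‖ = 1) :
    1 ≤ ‖(1 - (a : ℂ))⁻¹‖ ^ 3 * ‖(1 - a * z)⁻¹‖ ^ 4 * ‖(1 - a * z ^ 2)⁻¹‖ := by
  have hac₀ : ‖(a : ℂ)‖ < 1 := by
    simp only [Complex.norm_of_nonneg ha₀, ha₁]
  have hac₁ : ‖a * z‖ < 1 := by rwa [norm_mul, hz, mul_one]
  have hac₂ : ‖a * z ^ 2‖ < 1 := by rwa [norm_mul, norm_pow, hz, one_pow, mul_one]
  rw [norm_inv_eq hac₀, norm_inv_eq hac₁, norm_inv_eq hac₂, ← Real.exp_nat_mul,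
    ← Real.exp_nat_mul, ← Real.exp_add, ← Real.exp_add]
  rw [Real.one_le_exp_iff]
  have := key ha₀ ha₁ hz
  push_cast
  linarith

theorem local_ineq (j : ℕ) {σ : ℝ} (hσ : 1 < σ) (t : ℝ) (p : Nat.Primes) :
    1 ≤ ‖((1 - ap 0 p * xp σ p) * (1 - bp 0 p * xp σ p))⁻¹‖ ^ 3
      * ‖((1 - ap j p * xp (σ + t * I) p) * (1 - bp j p * xp (σ + t * I) p))⁻¹‖ ^ 4
      * ‖((1 - ap (2 * j) p * xp (σ + 2 * t * I) p)
          * (1 - bp (2 * j) p * xp (σ + 2 * t * I) p))⁻¹‖ := by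
  have hp0 : ((p : ℕ) : ℂ) ≠ 0 := by exact_mod_cast p.2.ne_zero
  set y : ℂ := ((p : ℕ) : ℂ) ^ (-(t * I)) with hy
  set r : ℝ := ((p : ℕ) : ℝ) ^ (-σ) with hr'
  have hy1 : ‖y‖ = 1 := by
    rw [hy, Complex.norm_natCast_cpow_of_pos p.2.pos]
    simp
  have hx0 : xp (σ : ℂ) p = r := by
    rw [xp, hr', Complex.ofReal_cpow (by positivity)]
    push_cast
    rfl
  have hx1 : xp (σ + t * I) p = r * y := by
    rw [← hx0, xp, xp, hy, neg_add, Complex.cpow_add _ _ hp0]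
  have hx2 : xp (σ + 2 * t * I) p = r * y ^ 2 := by
    have h2 : y ^ 2 = ((p : ℕ) : ℂ) ^ (-(2 * t * I)) := by
      rw [hy, ← Complex.cpow_nat_mul]
      congr 1
      push_cast
      ring
    rw [← hx0, h2, xp, xp, neg_add, Complex.cpow_add _ _ hp0]
  have hr0 : 0 ≤ r := by positivity
  have hr1 : r < 1 := by
    rw [hr']
    exact Real.rpow_lt_one_of_one_lt_of_neg (by exact_mod_cast p.2.one_lt) (by linarith)
  rw [hx0, hx1, hx2]
  rcases prime_cases p with h | h | h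
  · have h1 : (p : ℕ) % 4 = 2 := by rw [h]
    simp [ap, bp, h1]
  · have h1 : (2 * (0 : ℕ) * th p : ℝ) = 0 := by simp
    simp only [ap, bp, if_pos h]
    set u : ℂ := Complex.exp ((2 * j * th p : ℝ) * I) with hu
    set u' : ℂ := Complex.exp ((-(2 * j * th p) : ℝ) * I) with hu'
    have hu1 : ‖u‖ = 1 := Complex.norm_exp_ofReal_mul_I _
    have hu1' : ‖u'‖ = 1 := Complex.norm_exp_ofReal_mul_I _
    have e0 : Complex.exp ((2 * (0 : ℕ) * th p : ℝ) * I) = 1 := by simp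
    have e0' : Complex.exp ((-(2 * (0 : ℕ) * th p) : ℝ) * I) = 1 := by simp
    have e2 : Complex.exp ((2 * (2 * j : ℕ) * th p : ℝ) * I) = u ^ 2 := by
      rw [hu, ← Complex.exp_nat_mul]
      congr 1
      push_cast
      ring
    have e2' : Complex.exp ((-(2 * (2 * j : ℕ) * th p) : ℝ) * I) = u' ^ 2 := by
      rw [hu', ← Complex.exp_nat_mul]
      congr 1
      push_cast
      ring
    rw [e0, e0', e2, e2', one_mul]
    have k1 := key' hr0 hr1 (z := u * y) (by rw [norm_mul, hu1, hy1, one_mul])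
    have k2 := key' hr0 hr1 (z := u' * y) (by rw [norm_mul, hu1', hy1, one_mul])
    have k3 := one_le_mul_of_one_le_of_one_le k1 k2
    refine k3.trans (le_of_eq ?_)
    have a1 : u * (r * y) = r * (u * y) := by ring
    have a2 : u' * (r * y) = r * (u' * y) := by ring
    have a3 : u ^ 2 * (r * y ^ 2) = r * (u * y) ^ 2 := by ring
    have a4 : u' ^ 2 * (r * y ^ 2) = r * (u' * y) ^ 2 := by ring
    rw [a1, a2, a3, a4]
    simp only [norm_mul, norm_inv, mul_inv]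
    ring
  · have h1 : ¬ (p : ℕ) % 4 = 1 := by omega
    simp only [ap, bp, if_neg h1, if_pos h]
    have k1 := key' (a := r ^ 2) (by positivity) (by nlinarith) (z := y ^ 2)
      (by rw [norm_pow, hy1, one_pow])
    refine k1.trans (le_of_eq ?_)
    push_cast
    have a1 : (1 - 1 * (r : ℂ)) * (1 - -1 * r) = 1 - r ^ 2 := by ring
    have a2 : (1 - 1 * ((r : ℂ) * y)) * (1 - -1 * (r * y)) = 1 - r ^ 2 * y ^ 2 := by ring
    have a3 : (1 - 1 * ((r : ℂ) * y ^ 2)) * (1 - -1 * (r * y ^ 2)) = 1 - r ^ 2 * (y ^ 2) ^ 2 := by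
      ring
    rw [a1, a2, a3]

end Eul

open Eul

theorem log_hr (j : ℕ) : ∃ C : ℝ, ∃ E : ℂ → ℂ, DifferentiableOn ℂ E {s : ℂ | 3 / 4 < s.re} ∧
    (∀ s : ℂ, 3 / 4 < s.re → ‖E s‖ ≤ C) ∧ ∀ s : ℂ, 1 < s.re →
      LSeries (fun n => (hr j n : ℂ)) s =
        Complex.exp ((∑' p : Nat.Primes, (hr j p : ℂ) * (p : ℂ) ^ (-s)) + E s) :=
  main_an (sat_hr j) fun _ hs => summable_hr' j hs

theorem log_x4 : ∃ C : ℝ, ∃ E : ℂ → ℂ, DifferentiableOn ℂ E {s : ℂ | 3 / 4 < s.re} ∧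
    (∀ s : ℂ, 3 / 4 < s.re → ‖E s‖ ≤ C) ∧ ∀ s : ℂ, 1 < s.re →
      LSeries (fun n => (x4 n : ℂ)) s =
        Complex.exp ((∑' p : Nat.Primes, (x4 p : ℂ) * (p : ℂ) ^ (-s)) + E s) :=
  main_an sat_x4 fun _ hs => summable_x4' hs

theorem log_zeta : ∃ C : ℝ, ∃ E : ℂ → ℂ, DifferentiableOn ℂ E {s : ℂ | 3 / 4 < s.re} ∧
    (∀ s : ℂ, 3 / 4 < s.re → ‖E s‖ ≤ C) ∧ ∀ s : ℂ, 1 < s.re →
      riemannZeta s = Complex.exp ((∑' p : Nat.Primes, (p : ℂ) ^ (-s)) + E s) := by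
  obtain ⟨C, E, h1, h2, hC⟩ := main_an sat_one fun s hs =>
    LSeriesSummable_of_bounded_of_one_lt_re (m := 1) (by simp) hs
  refine ⟨C, E, h1, h2, fun s hs => ?_⟩
  rw [← LSeries_one_eq_riemannZeta hs, hC s hs]
  simp

theorem three_four_one (j : ℕ) {σ : ℝ} (hσ : 1 < σ) (t : ℝ) :
    1 ≤ ‖LSeries (fun n => (hr 0 n : ℂ)) σ‖ ^ 3 * ‖LSeries (fun n => (hr j n : ℂ)) (σ + t * I)‖ ^ 4 *
      ‖LSeries (fun n => (hr (2 * j) n : ℂ)) (σ + 2 * t * I)‖ := by
  have hs0 : 1 < ((σ : ℂ)).re := by simpa using hσ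
  have hs1 : 1 < ((σ : ℂ) + t * I).re := by simpa using hσ
  have hs2 : 1 < ((σ : ℂ) + 2 * t * I).re := by simpa using hσ
  have h0 := (hasProd (sat_hr 0) (summable_hr' 0 hs0)).norm
  have h1 := (hasProd (sat_hr j) (summable_hr' j hs1)).norm
  have h2 := (hasProd (sat_hr (2 * j)) (summable_hr' (2 * j) hs2)).norm
  have h3 := ((h0.pow 3).mul (h1.pow 4)).mul h2
  refine ge_of_tendsto' h3 fun S => ?_
  calc (1 : ℝ) = ∏ _p ∈ S, (1 : ℝ) := by simp
    _ ≤ _ := Finset.prod_le_prod (fun _ _ => zero_le_one) fun p _ => local_ineq j hσ t p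

end Pool.Agent.CZ.Inp
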