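import Mathlib
import Pool.Agent.CZ.InpDefs
import Pool.Agent.CZ.InpARI

/-!
# Dirichlet series identities for `hr`, `lam`, `x4` in `Re s > 1`
-/

set_option autoImplicit false

open Complex Finset MeasureTheory

namespace Pool.Agent.CZ.Inp

open Pool.Agent.H5 (c bd P)

namespace IDN

/-! ### Arithmetic functions -/

/-- indicator of the odd numbers -/
noncomputable def fO : ArithmeticFunction ℂ := ⟨fun n => if Odd n then 1 else 0, by simp⟩

/-- `x4` -/
noncomputable def fX : ArithmeticFunction ℂ := ⟨fun n => (x4 n : ℂ), by simp [x4]⟩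

/-- `hr j` -/
noncomputable def fH (j : ℕ) : ArithmeticFunction ℂ :=
  ⟨fun n => (hr j n : ℂ), by rw [hr_zero_right]; simp⟩

/-- `lam (n^2)` -/
noncomputable def fA : ArithmeticFunction ℂ :=
  ⟨fun n => ((lam (n ^ 2) : ℝ) : ℂ), by simp [lam_zero]⟩

/-- `lam n ^ 2` -/
noncomputable def fR : ArithmeticFunction ℂ :=
  ⟨fun n => ((lam n ^ 2 : ℝ) : ℂ), by simp [lam_zero]⟩

open Classical in
/-- indicator of the odd squares -/
noncomputable def fQ : ArithmeticFunction ℂ :=
  ⟨fun n => if IsSquare n ∧ Odd n then 1 else 0, by simp⟩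

open Classical in
/-- `x4` restricted to the squarefree numbers -/
noncomputable def fG : ArithmeticFunction ℂ :=
  ⟨fun n => if Squarefree n then (x4 n : ℂ) else 0, by simp⟩

theorem fO_apply (n : ℕ) : fO n = if Odd n then 1 else 0 := rfl
theorem fX_apply (n : ℕ) : fX n = (x4 n : ℂ) := rfl
theorem fH_apply (j n : ℕ) : fH j n = (hr j n : ℂ) := rfl
theorem fA_apply (n : ℕ) : fA n = ((lam (n ^ 2) : ℝ) : ℂ) := rfl
theorem fR_apply (n : ℕ) : fR n = ((lam n ^ 2 : ℝ) : ℂ) := rfl

open Classical in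
theorem fQ_apply (n : ℕ) : fQ n = if IsSquare n ∧ Odd n then 1 else 0 := rfl

open Classical in
theorem fG_apply (n : ℕ) : fG n = if Squarefree n then (x4 n : ℂ) else 0 := rfl

theorem x4_one : x4 1 = 1 := by simp [x4]

theorem x4_mul (m n : ℕ) : x4 (m * n) = x4 m * x4 n := by
  rw [x4, x4, x4, Nat.cast_mul, map_mul, Int.cast_mul]

theorem x4_pow (n k : ℕ) : x4 (n ^ k) = x4 n ^ k := by
  rw [x4, x4, Nat.cast_pow, map_pow, Int.cast_pow]

theorem x4_split {p : ℕ} (h1 : p % 4 = 1) : x4 p = 1 := by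
  rw [x4, ZMod.χ₄_nat_one_mod_four h1]
  norm_num

theorem x4_inert {p : ℕ} (h3 : p % 4 = 3) : x4 p = -1 := by
  rw [x4, ZMod.χ₄_nat_three_mod_four h3]
  norm_num

theorem x4_two : x4 2 = 0 := by
  rw [x4, show ZMod.χ₄ ((2 : ℕ) : ZMod 4) = 0 by decide]
  norm_num

theorem abs_x4_le (n : ℕ) : |x4 n| ≤ 1 := by
  rw [x4, ZMod.χ₄_nat_eq_if_mod_four]
  split_ifs <;> norm_num

theorem isMult_of {F : ArithmeticFunction ℂ} (h1 : F 1 = 1)
    (h2 : ∀ m n : ℕ, m.Coprime n → F (m * n) = F m * F n) : F.IsMultiplicative :=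
  ⟨h1, fun {m n} h => h2 m n h⟩

theorem mult_O : fO.IsMultiplicative := by
  refine isMult_of (by rw [fO_apply]; simp) fun m n _ => ?_
  rw [fO_apply, fO_apply, fO_apply]
  by_cases hm : Odd m <;> by_cases hn : Odd n <;> simp [Nat.odd_mul, hm, hn]

theorem mult_X : fX.IsMultiplicative := by
  refine isMult_of (by rw [fX_apply, x4_one]; simp) fun m n _ => ?_
  rw [fX_apply, fX_apply, fX_apply, x4_mul]
  push_cast
  rfl

theorem mult_H (j : ℕ) : (fH j).IsMultiplicative := by
  refine isMult_of (by rw [fH_apply, hr_one]; simp) fun m n h => ?_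
  rw [fH_apply, fH_apply, fH_apply, hr_mul j h]
  push_cast
  rfl

theorem mult_A : fA.IsMultiplicative := by
  refine isMult_of (by rw [fA_apply, one_pow, lam_one]; simp) fun m n h => ?_
  rw [fA_apply, fA_apply, fA_apply, mul_pow, lam_mul (h.pow 2 2)]
  push_cast
  rfl

theorem mult_R : fR.IsMultiplicative := by
  refine isMult_of (by rw [fR_apply, lam_one]; simp) fun m n h => ?_
  rw [fR_apply, fR_apply, fR_apply, lam_mul h]
  push_cast
  ring

theorem isSquare_mul_iff {m n : ℕ} (h : m.Coprime n) :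
    IsSquare (m * n) ↔ IsSquare m ∧ IsSquare n := by
  constructor
  · rintro ⟨a, ha⟩
    have hu : IsUnit (gcd m n) := by
      rw [Nat.isUnit_iff]
      exact h
    have hu' : IsUnit (gcd n m) := by
      rw [Nat.isUnit_iff]
      exact h.symm
    obtain ⟨d, hd⟩ := exists_eq_pow_of_mul_eq_pow hu (show m * n = a ^ 2 by rw [ha, sq])
    obtain ⟨e, he⟩ := exists_eq_pow_of_mul_eq_pow hu' (show n * m = a ^ 2 by
      rw [mul_comm, ha, sq])
    exact ⟨⟨d, by rw [hd, sq]⟩, ⟨e, by rw [he, sq]⟩⟩
  · rintro ⟨⟨a, rfl⟩, ⟨b, rfl⟩⟩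
    exact ⟨a * b, by ring⟩

theorem mult_Q : fQ.IsMultiplicative := by
  classical
  refine isMult_of (by rw [fQ_apply]; simp) fun m n h => ?_
  rw [fQ_apply, fQ_apply, fQ_apply]
  by_cases hm : Odd m <;> by_cases hn : Odd n <;> by_cases hm' : IsSquare m <;>
    by_cases hn' : IsSquare n <;> simp [Nat.odd_mul, isSquare_mul_iff h, hm, hn, hm', hn']

theorem mult_G : fG.IsMultiplicative := by
  classical
  refine isMult_of (by rw [fG_apply, x4_one]; simp) fun m n h => ?_
  rw [fG_apply, fG_apply, fG_apply, x4_mul]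
  by_cases hm : Squarefree m <;> by_cases hn : Squarefree n <;>
    simp [Nat.squarefree_mul h, hm, hn]

/-! ### Convolution on prime powers -/

theorem mul_prime_pow (F G : ArithmeticFunction ℂ) {p : ℕ} (hp : p.Prime) (k : ℕ) :
    (F * G) (p ^ k) = ∑ i ∈ range (k + 1), F (p ^ i) * G (p ^ (k - i)) := by
  rw [ArithmeticFunction.mul_apply, Nat.sum_divisorsAntidiagonal (fun a b => F a * G b),
    Nat.sum_divisors_prime_pow hp]
  refine Finset.sum_congr rfl fun i hi => ?_
  rw [Finset.mem_range] at hi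
  rw [Nat.pow_div (by omega) hp.pos]

theorem mul_fO_prime_pow (F : ArithmeticFunction ℂ) {p : ℕ} (hp : p.Prime) (h2 : p ≠ 2) (k : ℕ) :
    (F * fO) (p ^ k) = ∑ i ∈ range (k + 1), F (p ^ i) := by
  rw [mul_prime_pow F fO hp]
  refine Finset.sum_congr rfl fun i _ => ?_
  have : Odd (p ^ (k - i)) := (hp.odd_of_ne_two h2).pow
  rw [fO_apply, if_pos this, mul_one]

theorem fO_two_pow {k : ℕ} (hk : k ≠ 0) : fO (2 ^ k) = 0 := by
  rw [fO_apply, if_neg]
  rw [Nat.not_odd_iff_even]
  exact (Nat.even_pow.2 ⟨even_two, hk⟩)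

theorem fX_two_pow {k : ℕ} (hk : k ≠ 0) : fX (2 ^ k) = 0 := by
  rw [fX_apply, x4_pow, x4_two, zero_pow hk]
  simp

/-- If `G` vanishes on the positive powers of `p` then convolution with `G` does nothing. -/
theorem mul_trivial (F G : ArithmeticFunction ℂ) {p : ℕ} (hp : p.Prime) (hG1 : G 1 = 1)
    (hG : ∀ k : ℕ, k ≠ 0 → G (p ^ k) = 0) (k : ℕ) : (F * G) (p ^ k) = F (p ^ k) := by
  rw [mul_prime_pow F G hp, Finset.sum_range_succ, Nat.sub_self, pow_zero, hG1, mul_one,
    Finset.sum_eq_zero, zero_add]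
  intro i hi
  rw [Finset.mem_range] at hi
  rw [hG (k - i) (by omega), mul_zero]

/-- Convolution with a function supported on exponents `0` and `1`. -/
theorem mul_linear (F G : ArithmeticFunction ℂ) {p : ℕ} (hp : p.Prime) (hG1 : G 1 = 1)
    (hG : ∀ k : ℕ, 2 ≤ k → G (p ^ k) = 0) (k : ℕ) :
    (F * G) (p ^ (k + 1)) = F (p ^ (k + 1)) + F (p ^ k) * G p := by
  rw [mul_prime_pow F G hp, Finset.sum_range_succ, Finset.sum_range_succ, Nat.sub_self, pow_zero,
    hG1, mul_one, show k + 1 - k = 1 by omega, pow_one, Finset.sum_eq_zero, zero_add, add_comm]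
  intro i hi
  rw [Finset.mem_range] at hi
  rw [hG (k + 1 - i) (by omega), mul_zero]

theorem fG_prime {p : ℕ} (hp : p.Prime) : fG p = (x4 p : ℂ) := by
  classical
  rw [fG_apply, if_pos hp.squarefree]

theorem fG_pow {p : ℕ} (hp : p.Prime) (k : ℕ) (hk : 2 ≤ k) : fG (p ^ k) = 0 := by
  classical
  rw [fG_apply, if_neg]
  intro h
  have h1 : p * p ∣ p ^ k := by
    rw [← sq]
    exact pow_dvd_pow p hk
  exact hp.one_lt.ne' (Nat.isUnit_iff.1 (h p h1))

theorem fQ_two_pow {k : ℕ} (hk : k ≠ 0) : fQ (2 ^ k) = 0 := by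
  classical
  rw [fQ_apply, if_neg]
  rintro ⟨_, h⟩
  exact (Nat.not_even_iff_odd.2 h) (Nat.even_pow.2 ⟨even_two, hk⟩)

theorem isSquare_prime_pow {p : ℕ} (hp : p.Prime) (k : ℕ) : IsSquare (p ^ k) ↔ Even k := by
  constructor
  · rintro ⟨a, ha⟩
    have := Fact.mk hp
    have ha0 : a ≠ 0 := by
      rintro rfl
      rw [mul_zero] at ha
      exact (pow_ne_zero k hp.ne_zero) ha
    have h1 := congrArg (padicValNat p) ha
    rw [padicValNat.prime_pow, padicValNat.mul ha0 ha0] at h1
    exact ⟨_, h1⟩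
  · rintro ⟨j, rfl⟩
    exact ⟨p ^ j, by rw [pow_add]⟩

theorem fQ_prime_pow {p : ℕ} (hp : p.Prime) (h2 : p ≠ 2) (k : ℕ) :
    fQ (p ^ k) = if Even k then 1 else 0 := by
  classical
  have : Odd (p ^ k) := (hp.odd_of_ne_two h2).pow
  rw [fQ_apply]
  simp only [isSquare_prime_pow hp, this, and_true]

theorem mod_four {p : ℕ} (hp : p.Prime) (h2 : p ≠ 2) : p % 4 = 1 ∨ p % 4 = 3 := by
  have h := hp.eq_two_or_odd
  omega

/-! ### The identities -/

/-- `hr 0 = (odd) * x4` -/
theorem H0_eq_mul : fH 0 = fX * fO := by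
  rw [ArithmeticFunction.IsMultiplicative.eq_iff_eq_on_prime_powers _ (mult_H 0) _
    (mult_X.mul mult_O)]
  intro p k hp
  by_cases h2 : p = 2
  · subst h2
    rw [mul_trivial fX fO hp mult_O.1 (fun k hk => fO_two_pow hk)]
    rcases Nat.eq_zero_or_pos k with h | h
    · rw [h, pow_zero, (mult_H 0).1, mult_X.1]
    · rw [fX_two_pow (by omega), fH_apply, hr_two_pow 0 k h]
      simp
  · rw [mul_fO_prime_pow fX hp h2]
    rcases mod_four hp h2 with h | h
    · obtain ⟨θ, -, h3⟩ := hr_split hp h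
      obtain ⟨h4, h5⟩ := h3 0
      have h6 : hr 0 p = 2 := by rw [h4]; simp
      have key : ∀ k : ℕ, hr 0 (p ^ k) = k + 1 ∧ hr 0 (p ^ (k + 1)) = k + 2 := by
        intro k
        induction k with
        | zero =>
          rw [pow_zero, hr_one, zero_add, pow_one, h6]
          norm_num
        | succ k ih =>
          refine ⟨?_, ?_⟩
          · rw [ih.2]; push_cast; ring
          · rw [h5 k, h6, ih.1, ih.2]; push_cast; ring
      have h7 : ∀ i ∈ range (k + 1), fX (p ^ i) = 1 := by
        intro i _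
        rw [fX_apply, x4_pow, x4_split h, one_pow]
        simp
      rw [Finset.sum_congr rfl h7, Finset.sum_const, Finset.card_range, fH_apply, (key k).1]
      push_cast
      simp
    · have h7 : ∀ i ∈ range (k + 1), fX (p ^ i) = (-1) ^ i := by
        intro i _
        rw [fX_apply, x4_pow, x4_inert h]
        push_cast
        rfl
      rw [Finset.sum_congr rfl h7]
      have key : ∀ k : ℕ, (hr 0 (p ^ k) : ℂ) = ∑ i ∈ range (k + 1), (-1 : ℂ) ^ i ∧
          (hr 0 (p ^ (k + 1)) : ℂ) = ∑ i ∈ range (k + 2), (-1 : ℂ) ^ i := by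
        intro k
        induction k with
        | zero =>
          rw [pow_zero, hr_one, zero_add, pow_one, (hr_inert 0 hp h 0).1]
          simp [Finset.sum_range_succ]
        | succ k ih =>
          refine ⟨ih.2, ?_⟩
          rw [(hr_inert 0 hp h k).2, ih.1, Finset.sum_range_succ _ (k + 2),
            Finset.sum_range_succ _ (k + 1)]
          ring
      rw [fH_apply, (key k).1]

/-- `lam (n^2) = hr 1 * (x4 squarefree)` -/
theorem A_eq_mul : fA = fH 1 * fG := by
  rw [ArithmeticFunction.IsMultiplicative.eq_iff_eq_on_prime_powers _ mult_A _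
    ((mult_H 1).mul mult_G)]
  intro p k hp
  rcases Nat.eq_zero_or_pos k with h0 | h0
  · rw [h0, pow_zero, mult_A.1, ((mult_H 1).mul mult_G).1]
  obtain ⟨m, rfl⟩ : ∃ m, k = m + 1 := ⟨k - 1, by omega⟩
  rw [mul_linear _ _ hp mult_G.1 (fG_pow hp), fG_prime hp, fA_apply, fH_apply, fH_apply]
  have key : lam ((p ^ (m + 1)) ^ 2) = hr 1 (p ^ (m + 1)) + hr 1 (p ^ m) * x4 p := by
    rw [← pow_mul, mul_comm (m + 1) 2]
    by_cases h2 : p = 2
    · subst h2
      rw [lam_two_pow _ (by omega), hr_two_pow 1 _ (by omega), x4_two]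
      ring
    · have hl := lam_prime_pow hp h2
      -- the recursion for the even exponents
      have hl2 : ∀ k : ℕ, lam (p ^ (k + 4)) = (lam p ^ 2 - 2) * lam (p ^ (k + 2)) - lam (p ^ k) := by
        intro k
        have e1 := hl (k + 2)
        have e2 := hl (k + 1)
        have e3 := hl k
        rw [show k + 2 + 2 = k + 4 by ring, show k + 2 + 1 = k + 3 by ring] at e1
        rw [show k + 1 + 2 = k + 3 by ring, show k + 1 + 1 = k + 2 by ring] at e2
        rw [e1, e2]
        linear_combination e3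
      have hl0 : lam (p ^ 2) = lam p ^ 2 - 1 := by
        have e := hl 0
        rw [zero_add, zero_add, pow_one, pow_zero, lam_one] at e
        rw [e]; ring
      have hsq := lam_sq hp h2
      rcases mod_four hp h2 with h | h
      · obtain ⟨θ, -, h3⟩ := hr_split hp h
        obtain ⟨-, h5⟩ := h3 1
        rw [x4_split h] at hsq ⊢
        have hp1 : hr 1 p = lam p ^ 2 - 2 := by linarith
        have ind : ∀ k : ℕ, lam (p ^ (2 * (k + 1))) = hr 1 (p ^ (k + 1)) + hr 1 (p ^ k) ∧
            lam (p ^ (2 * (k + 2))) = hr 1 (p ^ (k + 2)) + hr 1 (p ^ (k + 1)) := by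
          intro k
          induction k with
          | zero =>
            have e := hl2 0
            rw [zero_add, zero_add, pow_zero, lam_one, hl0] at e
            refine ⟨?_, ?_⟩
            · rw [zero_add, mul_one, hl0, pow_one, pow_zero, hr_one, hp1]; ring
            · rw [zero_add, show 2 * 2 = 4 by norm_num, e, h5 0, zero_add, pow_one, pow_zero,
                hr_one, hp1]
              ring
          | succ k ih =>
            refine ⟨ih.2, ?_⟩
            have e := hl2 (2 * (k + 1))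
            rw [show 2 * (k + 1) + 4 = 2 * (k + 1 + 2) by ring,
              show 2 * (k + 1) + 2 = 2 * (k + 2) by ring, ih.1, ih.2] at e
            have e1 := h5 (k + 1)
            have e2 := h5 k
            rw [show k + 1 + 1 = k + 2 by ring] at e1
            rw [e, show k + 1 + 1 = k + 2 by ring, e1, hp1]
            rw [hp1] at e2
            linear_combination (-1 : ℝ) * e2
        rw [mul_one]
        exact (ind m).1
      · rw [x4_inert h] at hsq ⊢
        have hp1 := (hr_inert 1 hp h 0).1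
        have h5 := fun k => (hr_inert 1 hp h k).2
        have hlp := lam_inert hp h
        have ind : ∀ k : ℕ, lam (p ^ (2 * (k + 1))) = hr 1 (p ^ (k + 1)) - hr 1 (p ^ k) ∧
            lam (p ^ (2 * (k + 2))) = hr 1 (p ^ (k + 2)) - hr 1 (p ^ (k + 1)) := by
          intro k
          induction k with
          | zero =>
            have e := hl2 0
            rw [zero_add, zero_add, pow_zero, lam_one, hl0, hlp] at e
            refine ⟨?_, ?_⟩
            · rw [zero_add, mul_one, hl0, pow_one, pow_zero, hr_one, hp1, hlp]; ring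
            · rw [zero_add, show 2 * 2 = 4 by norm_num, e, h5 0, zero_add, pow_one, pow_zero,
                hr_one, hp1]
              ring
          | succ k ih =>
            refine ⟨ih.2, ?_⟩
            have e := hl2 (2 * (k + 1))
            rw [show 2 * (k + 1) + 4 = 2 * (k + 1 + 2) by ring,
              show 2 * (k + 1) + 2 = 2 * (k + 2) by ring, ih.1, ih.2, hlp] at e
            rw [e, h5 (k + 1), show k + 1 + 1 = k + 2 by ring, h5 k]
            ring
        rw [(ind m).1]
        ring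
  rw [key]
  push_cast
  rfl

/-- `lam n ^ 2 = (lam (n^2)) * (odd)` -/
theorem R_eq_mul : fR = fA * fO := by
  rw [ArithmeticFunction.IsMultiplicative.eq_iff_eq_on_prime_powers _ mult_R _
    (mult_A.mul mult_O)]
  intro p k hp
  by_cases h2 : p = 2
  · subst h2
    rw [mul_trivial fA fO hp mult_O.1 (fun k hk => fO_two_pow hk)]
    rcases Nat.eq_zero_or_pos k with h | h
    · rw [h, pow_zero, mult_R.1, mult_A.1]
    · rw [fR_apply, fA_apply, ← pow_mul, lam_two_pow k h, lam_two_pow (k * 2) (by omega)]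
      simp
  · rw [mul_fO_prime_pow fA hp h2]
    have hl := lam_prime_pow hp h2
    -- `lam (p^(k+1))^2 - lam (p^k)^2 = lam (p^(2k+2))` and the mixed identity
    have key2 : ∀ k : ℕ, lam (p ^ (2 * k + 2)) = lam (p ^ (k + 1)) ^ 2 - lam (p ^ k) ^ 2 ∧
        lam (p ^ (2 * k + 3)) = lam (p ^ (k + 1)) * (lam (p ^ (k + 2)) - lam (p ^ k)) := by
      intro k
      induction k with
      | zero =>
        have e0 := hl 0
        have e1 := hl 1
        rw [zero_add, zero_add, pow_one, pow_zero, lam_one] at e0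
        rw [show 1 + 2 = 3 by norm_num, show 1 + 1 = 2 by norm_num, pow_one] at e1
        refine ⟨?_, ?_⟩
        · rw [mul_zero, zero_add, zero_add, pow_one, pow_zero, lam_one, e0]; ring
        · rw [mul_zero, zero_add, zero_add, zero_add, pow_one, pow_zero, lam_one, e1]; ring
      | succ k ih =>
        have e0 := hl (2 * k + 2)
        have e1 := hl (2 * k + 3)
        have f0 := hl k
        have f1 := hl (k + 1)
        rw [show 2 * k + 2 + 2 = 2 * (k + 1) + 2 by ring, show 2 * k + 2 + 1 = 2 * k + 3 by ring,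
          ih.1, ih.2] at e0
        rw [show 2 * k + 3 + 2 = 2 * (k + 1) + 3 by ring,
          show 2 * k + 3 + 1 = 2 * (k + 1) + 2 by ring, ih.2] at e1
        rw [show k + 1 + 2 = k + 3 by ring, show k + 1 + 1 = k + 2 by ring] at f1
        have g0 : lam (p ^ (2 * (k + 1) + 2)) = lam (p ^ (k + 2)) ^ 2 - lam (p ^ (k + 1)) ^ 2 := by
          rw [e0]
          linear_combination (lam (p ^ k) - lam (p ^ (k + 2))) * f0
        refine ⟨by rw [show k + 1 + 1 = k + 2 by ring]; exact g0, ?_⟩
        rw [show k + 1 + 1 = k + 2 by ring, show k + 1 + 2 = k + 3 by ring, e1, g0, f1]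
        linear_combination lam (p ^ (k + 1)) * f0
    have hsum : ∀ k : ℕ, ∑ i ∈ range (k + 1), lam ((p ^ i) ^ 2) = lam (p ^ k) ^ 2 := by
      intro k
      induction k with
      | zero => simp [lam_one]
      | succ k ih =>
        rw [Finset.sum_range_succ, ih, ← pow_mul, show (k + 1) * 2 = 2 * k + 2 by ring,
          (key2 k).1]
        ring
    rw [fR_apply, ← hsum k]
    push_cast
    rfl

/-- `x4 = (x4 squarefree) * (odd squares)` -/
theorem X_eq_mul : fX = fG * fQ := by
  rw [ArithmeticFunction.IsMultiplicative.eq_iff_eq_on_prime_powers _ mult_X _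
    (mult_G.mul mult_Q), mul_comm fG fQ]
  intro p k hp
  rcases Nat.eq_zero_or_pos k with h0 | h0
  · rw [h0, pow_zero, mult_X.1, (mult_Q.mul mult_G).1]
  obtain ⟨m, rfl⟩ : ∃ m, k = m + 1 := ⟨k - 1, by omega⟩
  rw [mul_linear _ _ hp mult_G.1 (fG_pow hp), fG_prime hp]
  by_cases h2 : p = 2
  · subst h2
    rw [fX_two_pow (by omega), fQ_two_pow (by omega), x4_two]
    simp
  · rw [fQ_prime_pow hp h2, fQ_prime_pow hp h2, fX_apply, x4_pow]
    have hsq : x4 p ^ 2 = 1 := by
      rcases mod_four hp h2 with h | h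
      · rw [x4_split h]; norm_num
      · rw [x4_inert h]; norm_num
    rcases Nat.even_or_odd m with h | h
    · have h1 : ¬ Even (m + 1) := by rw [Nat.not_even_iff_odd]; exact h.add_one
      rw [if_neg h1, if_pos h]
      obtain ⟨j, rfl⟩ := h
      rw [pow_succ, ← two_mul, pow_mul, hsq, one_pow]
      push_cast
      ring
    · have h1 : Even (m + 1) := h.add_one
      have h3 : ¬ Even m := by rw [Nat.not_even_iff_odd]; exact h
      rw [if_pos h1, if_neg h3]
      obtain ⟨j, hj⟩ := h1
      rw [hj, ← two_mul, pow_mul, hsq, one_pow]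
      push_cast
      ring

/-! ### L-series -/

theorem summable_X {s : ℂ} (hs : 1 < s.re) : LSeriesSummable (fun n => fX n) s := by
  refine LSeriesSummable_of_bounded_of_one_lt_re (m := 1) (fun n _ => ?_) hs
  rw [fX_apply, Complex.norm_real, Real.norm_eq_abs]
  exact abs_x4_le n

theorem summable_G {s : ℂ} (hs : 1 < s.re) : LSeriesSummable (fun n => fG n) s := by
  classical
  refine LSeriesSummable_of_bounded_of_one_lt_re (m := 1) (fun n _ => ?_) hs
  rw [fG_apply]
  split_ifs
  · rw [Complex.norm_real, Real.norm_eq_abs]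
    exact abs_x4_le n
  · rw [norm_zero]; norm_num

theorem summable_O {s : ℂ} (hs : 1 < s.re) : LSeriesSummable (fun n => fO n) s := by
  refine LSeriesSummable_of_bounded_of_one_lt_re (m := 1) (fun n _ => ?_) hs
  rw [fO_apply]
  split_ifs <;> simp

theorem summable_H0 {s : ℂ} (hs : 1 < s.re) : LSeriesSummable (fun n => fH 0 n) s := by
  rw [H0_eq_mul]
  exact ArithmeticFunction.LSeriesSummable_mul (summable_X hs) (summable_O hs)

theorem summable_H (j : ℕ) {s : ℂ} (hs : 1 < s.re) : LSeriesSummable (fun n => fH j n) s := by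
  have h := summable_H0 hs
  refine Summable.of_norm_bounded h.norm fun n => ?_
  refine LSeries.norm_term_le s ?_
  rw [fH_apply, fH_apply, Complex.norm_real, Complex.norm_real, Real.norm_eq_abs,
    Real.norm_eq_abs, abs_of_nonneg (hr_nonneg n)]
  exact abs_hr_le_hr j n

theorem LSeries_O {s : ℂ} (hs : 1 < s.re) : LSeries (fun n => fO n) s = z2 s := by
  have hs1 : s ≠ 1 := by
    rintro rfl
    simp at hs
  have h1 := DirichletCharacter.LFunctionTrivChar_eq_mul_riemannZeta (N := 2) hs1
  rw [DirichletCharacter.LFunctionTrivChar,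
    DirichletCharacter.LFunction_eq_LSeries _ hs] at h1
  have h2 : (fun n : ℕ => ((1 : DirichletCharacter ℂ 2) (n : ZMod 2))) = fun n => fO n := by
    funext n
    rw [fO_apply]
    split_ifs with h
    · rw [MulChar.one_apply]
      exact (ZMod.isUnit_iff_coprime n 2).2 (Nat.coprime_two_right.2 h)
    · rw [MulChar.map_nonunit]
      rw [ZMod.isUnit_iff_coprime, Nat.coprime_two_right]
      exact h
  rw [h2] at h1
  rw [h1, z2, Nat.Prime.primeFactors Nat.prime_two]
  simp

theorem LSeries_Q {s : ℂ} (hs : 1 < s.re) :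
    LSeriesHasSum (fun n => fQ n) s (z2 (2 * s)) := by
  classical
  have hs2 : 1 < (2 * s).re := by
    rw [Complex.mul_re]
    simp
    linarith
  have h1 : LSeriesHasSum (fun n => fO n) (2 * s) (z2 (2 * s)) := by
    rw [← LSeries_O hs2]
    exact (summable_O hs2).LSeriesHasSum
  have hinj : Function.Injective (fun m : ℕ => m ^ 2) := fun a b h =>
    Nat.pow_left_injective two_ne_zero h
  have h2 : (LSeries.term (fun n => fQ n) s) ∘ (fun m : ℕ => m ^ 2) =
      LSeries.term (fun n => fO n) (2 * s) := by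
    funext m
    rw [Function.comp_apply]
    rcases Nat.eq_zero_or_pos m with h | h
    · rw [h, zero_pow two_ne_zero, LSeries.term_zero, LSeries.term_zero]
    · rw [LSeries.term_of_ne_zero (pow_pos h 2).ne', LSeries.term_of_ne_zero h.ne', fQ_apply,
        fO_apply]
      have h3 : (IsSquare (m ^ 2) ∧ Odd (m ^ 2)) ↔ Odd m :=
        ⟨fun h4 => (Nat.odd_pow_iff two_ne_zero).1 h4.2,
          fun h4 => ⟨⟨m, sq m⟩, (Nat.odd_pow_iff two_ne_zero).2 h4⟩⟩
      rw [if_congr h3 rfl rfl]
      congr 1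
      rw [Nat.cast_pow, two_mul, Complex.cpow_add _ _ (by exact_mod_cast h.ne'),
        ← Complex.natCast_mul_natCast_cpow, ← sq]
  have h3 := (hinj.hasSum_iff (f := LSeries.term (fun n => fQ n) s) (a := z2 (2 * s)) ?_).1
    (by rw [h2]; exact h1)
  · exact h3
  · intro n hn
    rcases Nat.eq_zero_or_pos n with h | h
    · rw [h, LSeries.term_zero]
    · rw [LSeries.term_of_ne_zero h.ne', fQ_apply, if_neg, zero_div]
      rintro ⟨⟨a, ha⟩, _⟩
      exact hn ⟨a, by rw [ha]; exact sq a⟩

end IDN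

open IDN

/-- `L_0 = ζ^(2) L(χ₋₄)` -/
theorem fact0 {s : ℂ} (hs : 1 < s.re) :
    LSeries (fun n => (hr 0 n : ℂ)) s = z2 s * LSeries (fun n => (x4 n : ℂ)) s := by
  have h := ArithmeticFunction.LSeries_mul' (summable_X hs) (summable_O hs)
  rw [← H0_eq_mul, LSeries_O hs, mul_comm] at h
  exact h

theorem A2_id {w : ℂ} (hw : 1 < w.re) : LSeriesSummable (fun n => ((lam (n ^ 2) : ℝ) : ℂ)) w ∧
    LSeries (fun n => ((lam (n ^ 2) : ℝ) : ℂ)) w * z2 (2 * w) =
      LSeries (fun n => (x4 n : ℂ)) w * LSeries (fun n => (hr 1 n : ℂ)) w := by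
  have h1 : LSeriesSummable (fun n => fA n) w := by
    rw [A_eq_mul]
    exact ArithmeticFunction.LSeriesSummable_mul (summable_H 1 hw) (summable_G hw)
  refine ⟨h1, ?_⟩
  have h2 := ArithmeticFunction.LSeries_mul' (summable_H 1 hw) (summable_G hw)
  rw [← A_eq_mul] at h2
  have h3 := ArithmeticFunction.LSeries_mul' (summable_G hw) (LSeries_Q hw).LSeriesSummable
  rw [← X_eq_mul, (LSeries_Q hw).LSeries_eq] at h3
  change LSeries (fun n => fA n) w * z2 (2 * w) = LSeries (fun n => fX n) w *
    LSeries (fun n => fH 1 n) w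
  rw [h2, h3]
  ring

theorem R1_id {w : ℂ} (hw : 1 < w.re) : LSeriesSummable (fun n => ((lam n ^ 2 : ℝ) : ℂ)) w ∧
    LSeries (fun n => ((lam n ^ 2 : ℝ) : ℂ)) w * z2 (2 * w) =
      LSeries (fun n => (hr 0 n : ℂ)) w * LSeries (fun n => (hr 1 n : ℂ)) w := by
  obtain ⟨h1, h2⟩ := A2_id hw
  have h3 : LSeriesSummable (fun n => fR n) w := by
    rw [R_eq_mul]
    exact ArithmeticFunction.LSeriesSummable_mul h1 (summable_O hw)
  refine ⟨h3, ?_⟩
  have h4 := ArithmeticFunction.LSeries_mul' (f := fA) h1 (summable_O hw)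
  rw [← R_eq_mul, LSeries_O hw] at h4
  change LSeries (fun n => fR n) w * z2 (2 * w) = _
  rw [h4, fact0 hw]
  change LSeries (fun n => ((lam (n ^ 2) : ℝ) : ℂ)) w * z2 w * z2 (2 * w) = _
  linear_combination z2 w * h2

end Pool.Agent.CZ.Inp
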