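import Mathlib
import Pool.Agent.CZ.InpDefs
import Pool.Agent.H26.ZetaGrowth

/-!
Critical zeros (MP_553913_nt), analytic inputs, module ZET: bounds for the zeta function.
-/

set_option autoImplicit false

open Complex Finset MeasureTheory

namespace Pool.Agent.CZ.Inp

open Pool.Agent.H5 (c bd P)

/-- `(s-1) ζ(s)`, upper bound -/
theorem zeta_le : ∃ C : ℝ, ∀ s : ℂ, 3 / 5 ≤ s.re → s.re ≤ 8 →
    ‖(s - 1) * riemannZeta s‖ ≤ C * (1 + |s.im|) ^ 2 := by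
  refine ⟨140, fun s h0 h8 => ?_⟩
  rcases eq_or_ne s 1 with h1 | h1
  · subst h1
    simp
  have hs : 0 < s.re := by linarith
  have h := Pool.Agent.H26.norm_riemannZeta_le hs h1
  have hn1 : 0 < ‖s - 1‖ := norm_pos_iff.2 (sub_ne_zero.2 h1)
  have ht : 0 ≤ |s.im| := abs_nonneg _
  have hsn : ‖s‖ ≤ 8 * (1 + |s.im|) := by
    refine (Complex.norm_le_abs_re_add_abs_im s).trans ?_
    rw [abs_of_pos hs]
    linarith
  have hsn1 : ‖s - 1‖ ≤ 8 * (1 + |s.im|) := by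
    refine (Complex.norm_le_abs_re_add_abs_im (s - 1)).trans ?_
    have e1 : (s - 1).re = s.re - 1 := by simp
    have e2 : (s - 1).im = s.im := by simp
    rw [e1, e2]
    have : |s.re - 1| ≤ 7 := by
      rw [abs_le]
      constructor <;> linarith
    linarith
  have hdiv : ‖s‖ / s.re ≤ 14 * (1 + |s.im|) := by
    rw [div_le_iff₀ hs]
    nlinarith [norm_nonneg s]
  rw [norm_mul]
  calc ‖s - 1‖ * ‖riemannZeta s‖ ≤ ‖s - 1‖ * (‖s - 1‖⁻¹ + 1 + ‖s‖ / s.re) := by gcongr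
    _ = 1 + ‖s - 1‖ * (1 + ‖s‖ / s.re) := by
        field_simp
        ring
    _ ≤ 1 + 8 * (1 + |s.im|) * (1 + 14 * (1 + |s.im|)) := by
        gcongr
    _ ≤ 140 * (1 + |s.im|) ^ 2 := by nlinarith

/-- the sum `∑ n^{-3/2}` -/
private lemma summable_three_half : Summable fun n : ℕ => (n : ℝ) ^ (-(3 / 2) : ℝ) :=
  Real.summable_nat_rpow.2 (by norm_num)

private lemma norm_LSeries_le_three_half {f : ℕ → ℂ} (hf : ∀ n, ‖f n‖ ≤ 1) {s : ℂ}
    (hs : 3 / 2 ≤ s.re) : ‖LSeries f s‖ ≤ ∑' n : ℕ, (n : ℝ) ^ (-(3 / 2) : ℝ) := by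
  unfold LSeries
  refine tsum_of_norm_bounded summable_three_half.hasSum fun n => ?_
  rcases Nat.eq_zero_or_pos n with h0 | h0
  · subst h0
    rw [LSeries.term_zero, norm_zero]
    positivity
  · rw [LSeries.term_of_ne_zero h0.ne', norm_div, Complex.norm_natCast_cpow_of_pos h0,
      div_eq_mul_inv, ← Real.rpow_neg (Nat.cast_nonneg n)]
    have h1n : (1 : ℝ) ≤ n := by exact_mod_cast h0
    have h3 : (n : ℝ) ^ (-s.re) ≤ (n : ℝ) ^ (-(3 / 2) : ℝ) :=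
      Real.rpow_le_rpow_of_exponent_le h1n (by linarith)
    calc ‖f n‖ * (n : ℝ) ^ (-s.re) ≤ 1 * (n : ℝ) ^ (-(3 / 2) : ℝ) := by
          gcongr
          exact hf n
      _ = _ := one_mul _

private lemma norm_two_cpow_le {s : ℂ} (hs : 3 / 2 ≤ s.re) : ‖(2 : ℂ) ^ (-s)‖ ≤ 1 / 2 := by
  have h : ‖(2 : ℂ) ^ (-s)‖ = (2 : ℝ) ^ (-s.re) := by
    have := Complex.norm_cpow_eq_rpow_re_of_pos (show (0 : ℝ) < 2 by norm_num) (-s)
    simpa using this
  rw [h]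
  calc (2 : ℝ) ^ (-s.re) ≤ (2 : ℝ) ^ (-1 : ℝ) :=
        Real.rpow_le_rpow_of_exponent_le (by norm_num) (by linarith)
    _ = 1 / 2 := by
        rw [Real.rpow_neg_one]
        norm_num

theorem z2_ge : ∃ κ : ℝ, 0 < κ ∧ ∀ s : ℂ, 3 / 2 ≤ s.re → κ ≤ ‖z2 s‖ := by
  set Z : ℝ := ∑' n : ℕ, (n : ℝ) ^ (-(3 / 2) : ℝ) with hZ
  have hZ0 : 0 ≤ Z := tsum_nonneg fun n => by positivity
  refine ⟨1 / 2 * (Z + 1)⁻¹, by positivity, fun s hs => ?_⟩
  have h1 : (1 : ℝ) < s.re := by linarith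
  have h := ArithmeticFunction.LSeries_zeta_mul_Lseries_moebius h1
  rw [ArithmeticFunction.LSeries_zeta_eq_riemannZeta h1] at h
  have hmu : ‖LSeries (fun n => ((ArithmeticFunction.moebius n : ℤ) : ℂ)) s‖ ≤ Z := by
    refine norm_LSeries_le_three_half (fun n => ?_) hs
    rw [Complex.norm_intCast]
    have := ArithmeticFunction.abs_moebius_le_one (n := n)
    exact_mod_cast this
  have h2 := congrArg norm h
  rw [norm_mul, norm_one] at h2
  have h3 : (Z + 1)⁻¹ ≤ ‖riemannZeta s‖ := by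
    rw [inv_le_iff_one_le_mul₀ (by positivity)]
    calc (1 : ℝ) = ‖riemannZeta s‖ *
          ‖LSeries (fun n => ((ArithmeticFunction.moebius n : ℤ) : ℂ)) s‖ := h2.symm
      _ ≤ ‖riemannZeta s‖ * (Z + 1) := by
          gcongr
          linarith
  have h4 : 1 / 2 ≤ ‖1 - (2 : ℂ) ^ (-s)‖ := by
    have h5 := norm_sub_norm_le (1 : ℂ) ((2 : ℂ) ^ (-s))
    have h6 := norm_two_cpow_le hs
    rw [norm_one] at h5
    linarith
  unfold z2
  rw [norm_mul]
  gcongr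

theorem z2_le : ∃ C : ℝ, ∀ s : ℂ, 3 / 2 ≤ s.re → ‖z2 s‖ ≤ C := by
  set Z : ℝ := ∑' n : ℕ, (n : ℝ) ^ (-(3 / 2) : ℝ) with hZ
  have hZ0 : 0 ≤ Z := tsum_nonneg fun n => by positivity
  refine ⟨2 * Z, fun s hs => ?_⟩
  have h1 : (1 : ℝ) < s.re := by linarith
  have h3 : ‖riemannZeta s‖ ≤ Z := by
    rw [← LSeries_one_eq_riemannZeta h1]
    exact norm_LSeries_le_three_half (fun n => by simp) hs
  have h4 : ‖1 - (2 : ℂ) ^ (-s)‖ ≤ 2 := by
    have h5 := norm_sub_le (1 : ℂ) ((2 : ℂ) ^ (-s))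
    have h6 := norm_two_cpow_le hs
    rw [norm_one] at h5
    linarith
  unfold z2
  rw [norm_mul]
  gcongr

theorem z2_diff : DifferentiableOn ℂ z2 {s : ℂ | 1 < s.re} := by
  intro s hs
  have hs1 : s ≠ 1 := by
    rintro rfl
    simp at hs
  have h1 : DifferentiableAt ℂ (fun s : ℂ => (2 : ℂ) ^ (-s)) s := by
    refine DifferentiableAt.const_cpow differentiableAt_id.neg (Or.inl (by norm_num))
  exact (((differentiableAt_const (1 : ℂ)).sub h1).mul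
    (differentiableAt_riemannZeta hs1)).differentiableWithinAt

end Pool.Agent.CZ.Inp
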