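import Mathlib
import Pool.Agent.CZ.InpDefs
import Pool.Agent.CZ.InpCONT
import Pool.Agent.CZ.InpZET
import Pool.Agent.CZ.InpIDN
import Pool.Agent.CZ.InpEUL

set_option autoImplicit false

open Complex Finset MeasureTheory

/-! Lower bounds on `1 ≤ Re s ≤ 4`. -/

namespace Pool.Agent.CZ.Inp


theorem deriv_le {F : ℂ → ℂ} (hF : DifferentiableOn ℂ F {s : ℂ | 1 / 2 < s.re}) {B : ℝ} {a : ℕ}
    (hB0 : 0 ≤ B)
    (hB : ∀ s : ℂ, 3 / 4 ≤ s.re → s.re ≤ 5 → ‖F s‖ ≤ B * (1 + |s.im|) ^ a) {s : ℂ}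
    (h1 : 1 ≤ s.re) (h4 : s.re ≤ 4) : ‖deriv F s‖ ≤ 4 * B * 2 ^ a * (1 + |s.im|) ^ a := by
  have hd : DiffContOnCl ℂ F (Metric.ball s (1 / 4)) := by
    apply DifferentiableOn.diffContOnCl
    apply hF.mono
    intro z hz
    have hz' := Metric.closure_ball_subset_closedBall hz
    rw [Metric.mem_closedBall, dist_eq_norm] at hz'
    have h2 := (abs_re_le_norm (z - s)).trans hz'
    rw [sub_re, abs_le] at h2
    show 1 / 2 < z.re
    linarith [h2.1]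
  have h := Complex.norm_deriv_le_of_forall_mem_sphere_norm_le (c := s) (R := 1 / 4)
    (C := B * 2 ^ a * (1 + |s.im|) ^ a) (by norm_num) hd (by
      intro z hz
      rw [mem_sphere_iff_norm] at hz
      have h2 := (abs_re_le_norm (z - s)).trans hz.le
      have h3 := (abs_im_le_norm (z - s)).trans hz.le
      rw [sub_re, abs_le] at h2
      rw [sub_im] at h3
      refine (hB z (by linarith [h2.1]) (by linarith [h2.2])).trans ?_
      rw [mul_assoc]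
      apply mul_le_mul_of_nonneg_left _ hB0
      rw [← mul_pow]
      apply pow_le_pow_left₀ (by positivity)
      have h5 : |z.im| ≤ |s.im| + |z.im - s.im| := by
        have := abs_add_le s.im (z.im - s.im)
        simpa using this
      have := abs_nonneg s.im
      linarith)
  refine h.trans (le_of_eq ?_)
  ring

theorem lower_of_deriv {F : ℂ → ℂ} (hF : DifferentiableOn ℂ F {s : ℂ | 1 / 2 < s.re}) {B : ℝ}
    {a : ℕ} (hB0 : 0 < B)
    (hB : ∀ s : ℂ, 3 / 4 ≤ s.re → s.re ≤ 5 → ‖F s‖ ≤ B * (1 + |s.im|) ^ a) {k b : ℝ}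
    (hk : 0 < k) (hb : 0 ≤ b) (hlow : ∀ s : ℂ, 1 < s.re → s.re ≤ 4 →
      k * (s.re - 1) ^ (3 / 4 : ℝ) * (1 + |s.im|) ^ (-b) ≤ ‖F s‖) :
    ∃ κ A : ℝ, 0 < κ ∧ 0 ≤ A ∧ ∀ s : ℂ, 1 ≤ s.re → s.re ≤ 4 →
      κ * (1 + |s.im|) ^ (-A) ≤ ‖F s‖ := by
  set B' : ℝ := 4 * B * 2 ^ a with hB'
  have hB'0 : 0 < B' := by positivity
  set δ₀ : ℝ := min 1 ((k / (2 * B')) ^ (4 : ℝ)) with hδ₀
  have hδ₀0 : 0 < δ₀ := lt_min one_pos (by positivity)
  refine ⟨k / 2 * δ₀ ^ (3 / 4 : ℝ), 3 * (a + b) + b, by positivity, by positivity, ?_⟩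
  intro s h1 h4
  set T : ℝ := 1 + |s.im| with hT
  have hT1 : 1 ≤ T := by have := abs_nonneg s.im; linarith
  have hT0 : 0 < T := by linarith
  set δ : ℝ := δ₀ * T ^ (-(4 * (a + b)) : ℝ) with hδ
  have hδ0 : 0 < δ := by positivity
  have hTpow : T ^ (-(4 * (a + b)) : ℝ) ≤ 1 :=
    Real.rpow_le_one_of_one_le_of_nonpos hT1 (by
      have : (0 : ℝ) ≤ a := Nat.cast_nonneg a
      linarith [mul_nonneg (by norm_num : (0:ℝ) ≤ 4) (add_nonneg this hb)])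
  have hδ1 : δ ≤ 1 := by
    calc δ ≤ 1 * 1 := mul_le_mul (min_le_left _ _) hTpow (by positivity) (by norm_num)
      _ = 1 := one_mul 1
  have hδ34 : δ ^ (3 / 4 : ℝ) = δ₀ ^ (3 / 4 : ℝ) * T ^ (-(3 * (a + b)) : ℝ) := by
    rw [hδ, Real.mul_rpow hδ₀0.le (by positivity), ← Real.rpow_mul hT0.le]
    congr 2
    ring
  have hδ14 : δ ^ (1 / 4 : ℝ) ≤ k / (2 * B') * T ^ (-(a + b) : ℝ) := by
    rw [hδ, Real.mul_rpow hδ₀0.le (by positivity), ← Real.rpow_mul hT0.le]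
    have e1 : (-(4 * ((a : ℝ) + b))) * (1 / 4) = -(a + b) := by ring
    rw [e1]
    apply mul_le_mul_of_nonneg_right _ (by positivity)
    calc δ₀ ^ (1 / 4 : ℝ) ≤ ((k / (2 * B')) ^ (4 : ℝ)) ^ (1 / 4 : ℝ) :=
          Real.rpow_le_rpow hδ₀0.le (min_le_right _ _) (by norm_num)
      _ = k / (2 * B') := by
          rw [← Real.rpow_mul (by positivity)]
          norm_num
  have hmain : k / 2 * δ₀ ^ (3 / 4 : ℝ) * T ^ (-(3 * (a + b) + b) : ℝ) =
      k / 2 * δ ^ (3 / 4 : ℝ) * T ^ (-b) := by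
    rw [hδ34]
    have e1 : (-(3 * ((a : ℝ) + b) + b)) = -(3 * (a + b)) + -b := by ring
    rw [e1, Real.rpow_add hT0]
    ring
  rw [hmain]
  by_cases hs : 1 + δ ≤ s.re
  · refine le_trans ?_ (hlow s (by linarith) h4)
    apply mul_le_mul_of_nonneg_right _ (by positivity)
    have h5 : δ ^ (3 / 4 : ℝ) ≤ (s.re - 1) ^ (3 / 4 : ℝ) :=
      Real.rpow_le_rpow hδ0.le (by linarith) (by norm_num)
    calc k / 2 * δ ^ (3 / 4 : ℝ) ≤ k * δ ^ (3 / 4 : ℝ) :=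
          mul_le_mul_of_nonneg_right (by linarith) (by positivity)
      _ ≤ k * (s.re - 1) ^ (3 / 4 : ℝ) := mul_le_mul_of_nonneg_left h5 hk.le
  · push Not at hs
    set s₁ : ℂ := ⟨1 + δ, s.im⟩ with hs₁
    have h5 : k * δ ^ (3 / 4 : ℝ) * T ^ (-b) ≤ ‖F s₁‖ := by
      have := hlow s₁ (by show 1 < 1 + δ; linarith) (by show 1 + δ ≤ 4; linarith)
      have e1 : s₁.re - 1 = δ := by show 1 + δ - 1 = δ; ring
      have e2 : s₁.im = s.im := rfl
      rw [e1, e2] at this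
      exact this
    have hseg : ∀ z ∈ segment ℝ s s₁, 1 ≤ z.re ∧ z.re ≤ 4 ∧ z.im = s.im := by
      rintro z ⟨x, y, hx, hy, hxy, rfl⟩
      have e1 : (x • s + y • s₁).re = x * s.re + y * (1 + δ) := by simp [hs₁]
      have e2 : (x • s + y • s₁).im = x * s.im + y * s.im := by simp [hs₁]
      refine ⟨?_, ?_, ?_⟩
      · rw [e1]
        nlinarith
      · rw [e1]
        nlinarith
      · rw [e2, ← add_mul, hxy, one_mul]
    have h6 : ‖F s₁ - F s‖ ≤ B' * T ^ a * ‖s₁ - s‖ := by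
      apply Convex.norm_image_sub_le_of_norm_deriv_le (s := segment ℝ s s₁)
      · intro z hz
        obtain ⟨h7, _, _⟩ := hseg z hz
        apply hF.differentiableAt
        apply IsOpen.mem_nhds
        · exact isOpen_lt continuous_const Complex.continuous_re
        · show 1 / 2 < z.re
          linarith
      · intro z hz
        obtain ⟨h7, h8, h9⟩ := hseg z hz
        have := deriv_le hF hB0.le hB h7 h8
        rw [h9] at this
        exact this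
      · exact convex_segment _ _
      · exact left_mem_segment _ _ _
      · exact right_mem_segment _ _ _
    have h7 : ‖s₁ - s‖ ≤ δ := by
      have e1 : s₁ - s = ((1 + δ - s.re : ℝ) : ℂ) := by
        apply Complex.ext <;> simp [hs₁]
      rw [e1, Complex.norm_real, Real.norm_eq_abs, abs_of_nonneg (by linarith)]
      linarith
    have h8 : ‖F s₁‖ - ‖F s‖ ≤ B' * T ^ a * δ :=
      (norm_sub_norm_le _ _).trans (h6.trans (mul_le_mul_of_nonneg_left h7 (by positivity)))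
    have h9 : B' * T ^ a * δ ≤ k / 2 * δ ^ (3 / 4 : ℝ) * T ^ (-b) := by
      have e1 : δ = δ ^ (3 / 4 : ℝ) * δ ^ (1 / 4 : ℝ) := by
        rw [← Real.rpow_add hδ0]
        norm_num
      calc B' * T ^ a * δ = B' * T ^ a * δ ^ (3 / 4 : ℝ) * δ ^ (1 / 4 : ℝ) := by
            conv_lhs => rw [e1]
            ring
        _ ≤ B' * T ^ a * δ ^ (3 / 4 : ℝ) * (k / (2 * B') * T ^ (-(a + b) : ℝ)) :=
            mul_le_mul_of_nonneg_left hδ14 (by positivity)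
        _ = k / 2 * δ ^ (3 / 4 : ℝ) * T ^ (-b) := by
            have e2 : T ^ (-(a + b) : ℝ) = (T ^ a)⁻¹ * T ^ (-b) := by
              have e3 : (-((a : ℝ) + b)) = -(a : ℝ) + -b := by ring
              rw [e3, Real.rpow_add hT0, Real.rpow_neg hT0.le, Real.rpow_natCast]
            rw [e2]
            field_simp
    have h10 : k * δ ^ (3 / 4 : ℝ) * T ^ (-b) =
        k / 2 * δ ^ (3 / 4 : ℝ) * T ^ (-b) + k / 2 * δ ^ (3 / 4 : ℝ) * T ^ (-b) := by ring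
    linarith

theorem norm_le_re_im {s : ℂ} {c : ℝ} (h0 : 0 ≤ s.re) (hc : 1 ≤ c) (h : s.re ≤ c) :
    ‖s‖ ≤ c * (1 + |s.im|) := by
  have h1 := Complex.norm_le_abs_re_add_abs_im s
  rw [abs_of_nonneg h0] at h1
  have h2 := abs_nonneg s.im
  nlinarith

theorem norm_L0_real : ∃ C : ℝ, 0 < C ∧ ∀ σ : ℝ, 1 < σ → σ ≤ 4 →
    ‖LSeries (fun n => (hr 0 n : ℂ)) σ‖ ≤ C / (σ - 1) := by
  obtain ⟨C, hC⟩ := H0_le
  refine ⟨54 * |C| + 1, by positivity, fun σ h1 h4 => ?_⟩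
  have hσ : (0 : ℝ) < σ - 1 := by linarith
  have h2 := H0_eq (s := (σ : ℂ)) (by simpa using h1)
  have h3 := hC (σ : ℂ) (by show 1 / 2 < (σ : ℂ).re; rw [ofReal_re]; linarith)
  have h5 : ‖(σ : ℂ)‖ = σ := by rw [Complex.norm_real, Real.norm_eq_abs, abs_of_pos (by linarith)]
  rw [h5, ofReal_re] at h3
  rw [h2, norm_mul] at h3
  have h6 : ‖(σ : ℂ) - 1‖ = σ - 1 := by
    rw [← ofReal_one, ← ofReal_sub, Complex.norm_real, Real.norm_eq_abs, abs_of_pos hσ]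
  rw [h6] at h3
  rw [le_div_iff₀ hσ, mul_comm]
  refine h3.trans ?_
  have h7 : C * (1 + σ) ^ 2 / (σ - 1 / 2) ≤ 50 * |C| := by
    rw [div_le_iff₀ (by linarith)]
    have h8 : (1 + σ) ^ 2 ≤ 25 := by nlinarith
    have h9 : C * (1 + σ) ^ 2 ≤ |C| * 25 :=
      mul_le_mul (le_abs_self C) h8 (by positivity) (abs_nonneg C)
    have h10 : (0 : ℝ) ≤ |C| := abs_nonneg C
    nlinarith
  have h8 : C * σ ≤ 4 * |C| := by
    have h9 : C * σ ≤ |C| * σ := mul_le_mul_of_nonneg_right (le_abs_self C) (by linarith)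
    have h10 : (0 : ℝ) ≤ |C| := abs_nonneg C
    nlinarith
  linarith

theorem fourth_root {x y k T b : ℝ} (hx : 0 ≤ x) (hy : 0 < y) (hk : 0 < k) (hT : 0 < T)
    (h : k * y ^ 3 * T ^ (-(4 * b)) ≤ x ^ 4) :
    k ^ (1 / 4 : ℝ) * y ^ (3 / 4 : ℝ) * T ^ (-b) ≤ x := by
  have h1 : (k ^ (1 / 4 : ℝ) * y ^ (3 / 4 : ℝ) * T ^ (-b)) ^ 4 ≤ x ^ 4 := by
    refine le_trans (le_of_eq ?_) h
    rw [mul_pow, mul_pow, ← Real.rpow_natCast (k ^ (1 / 4 : ℝ)), ← Real.rpow_mul hk.le,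
      ← Real.rpow_natCast (y ^ (3 / 4 : ℝ)), ← Real.rpow_mul hy.le,
      ← Real.rpow_natCast (T ^ (-b)), ← Real.rpow_mul hT.le]
    have e1 : (1 / 4 : ℝ) * ((4 : ℕ) : ℝ) = 1 := by norm_num
    have e2 : (3 / 4 : ℝ) * ((4 : ℕ) : ℝ) = ((3 : ℕ) : ℝ) := by norm_num
    have e3 : -b * ((4 : ℕ) : ℝ) = -(4 * b) := by push_cast; ring
    rw [e1, e2, e3, Real.rpow_one, Real.rpow_natCast]
  exact le_of_pow_le_pow_left₀ (by norm_num) hx h1

theorem HL1_ge : ∃ κ A : ℝ, 0 < κ ∧ 0 ≤ A ∧ ∀ s : ℂ, 1 ≤ s.re → s.re ≤ 4 →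
    κ * (1 + |s.im|) ^ (-A) ≤ ‖HL 1 s‖ := by
  obtain ⟨C₁, hC₁⟩ := HL_le (j := 1) le_rfl
  obtain ⟨C₂, hC₂⟩ := HL_le (j := 2) (by norm_num)
  obtain ⟨C₃, hC₃0, hC₃⟩ := norm_L0_real
  have hB : ∀ s : ℂ, 3 / 4 ≤ s.re → s.re ≤ 5 → ‖HL 1 s‖ ≤ (20 * |C₁| + 1) * (1 + |s.im|) ^ 1 := by
    intro s h1 h2
    refine (hC₁ s (by linarith)).trans ?_
    rw [pow_one, div_le_iff₀ (by linarith)]
    have h3 := norm_le_re_im (s := s) (c := 5) (by linarith) (by norm_num) h2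
    have h4 : C₁ * ‖s‖ ≤ |C₁| * (5 * (1 + |s.im|)) :=
      mul_le_mul (le_abs_self _) h3 (norm_nonneg _) (abs_nonneg _)
    have h5 := abs_nonneg C₁
    have h6 := abs_nonneg s.im
    have h7 : 0 ≤ |C₁| * (1 + |s.im|) := by positivity
    nlinarith
  set C₄ : ℝ := 16 * |C₂| + 1 with hC₄
  have hC₄0 : 0 < C₄ := by positivity
  apply lower_of_deriv (HL_diff le_rfl) (by positivity) hB
    (k := (1 / (C₃ ^ 3 * C₄)) ^ (1 / 4 : ℝ)) (b := 1 / 4) (by positivity) (by norm_num)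
  intro s h1 h4
  have hT0 : 0 < 1 + |s.im| := by positivity
  have hσ : 0 < s.re - 1 := by linarith
  apply fourth_root (norm_nonneg _) hσ (by positivity) hT0
  have h341 := three_four_one 1 (σ := s.re) h1 s.im
  have e1 : (s.re : ℂ) + s.im * I = s := re_add_im s
  rw [e1] at h341
  rw [← HL_eq le_rfl h1] at h341
  have h2re : 1 < ((s.re : ℂ) + 2 * s.im * I).re := by
    simpa using h1
  rw [← HL_eq (j := 2 * 1) (by norm_num) h2re] at h341
  have h5 : ‖HL (2 * 1) ((s.re : ℂ) + 2 * s.im * I)‖ ≤ C₄ * (1 + |s.im|) := by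
    refine (hC₂ _ (by linarith)).trans ?_
    have e2 : ((s.re : ℂ) + 2 * s.im * I).re = s.re := by simp
    have e3 : ((s.re : ℂ) + 2 * s.im * I).im = 2 * s.im := by simp
    rw [e2, div_le_iff₀ (by linarith)]
    have h6 := norm_le_re_im (s := (s.re : ℂ) + 2 * s.im * I) (c := 4) (by rw [e2]; linarith)
      (by norm_num) (by rw [e2]; exact h4)
    rw [e3, abs_mul, abs_two] at h6
    have h7 : C₂ * ‖(s.re : ℂ) + 2 * s.im * I‖ ≤ |C₂| * (4 * (1 + 2 * |s.im|)) :=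
      mul_le_mul (le_abs_self _) h6 (norm_nonneg _) (abs_nonneg _)
    have h8 := abs_nonneg C₂
    have h9 := abs_nonneg s.im
    have h10 : 0 ≤ |C₂| * |s.im| := by positivity
    have h11 : |C₂| * (4 * (1 + 2 * |s.im|)) ≤ C₄ * (1 + |s.im|) * (1 / 2) := by
      rw [hC₄]
      nlinarith
    have h12 : C₄ * (1 + |s.im|) * (1 / 2) ≤ C₄ * (1 + |s.im|) * (s.re - 1 / 2) :=
      mul_le_mul_of_nonneg_left (by linarith) (by positivity)
    linarith
  have h6 : 1 ≤ (C₃ / (s.re - 1)) ^ 3 * ‖HL 1 s‖ ^ 4 * (C₄ * (1 + |s.im|)) := by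
    refine h341.trans ?_
    apply mul_le_mul _ h5 (norm_nonneg _) (by positivity)
    apply mul_le_mul_of_nonneg_right _ (by positivity)
    exact pow_le_pow_left₀ (norm_nonneg _) (hC₃ _ h1 h4) 3
  have e4 : (1 + |s.im|) ^ (-(4 * (1 / 4)) : ℝ) = (1 + |s.im|)⁻¹ := by
    rw [show (-(4 * (1 / 4)) : ℝ) = -1 by norm_num, Real.rpow_neg_one]
  rw [e4]
  have h7 : (C₃ / (s.re - 1)) ^ 3 * ‖HL 1 s‖ ^ 4 * (C₄ * (1 + |s.im|)) =
      ‖HL 1 s‖ ^ 4 / (1 / (C₃ ^ 3 * C₄) * (s.re - 1) ^ 3 * (1 + |s.im|)⁻¹) := by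
    field_simp
  rw [h7, one_le_div (by positivity)] at h6
  exact h6

theorem H0_ge : ∃ κ A : ℝ, 0 < κ ∧ 0 ≤ A ∧ ∀ s : ℂ, 1 ≤ s.re → s.re ≤ 4 →
    κ * (1 + |s.im|) ^ (-A) ≤ ‖H0 s‖ := by
  obtain ⟨C₁, hC₁⟩ := H0_le
  obtain ⟨C₃, hC₃0, hC₃⟩ := norm_L0_real
  have hB : ∀ s : ℂ, 3 / 4 ≤ s.re → s.re ≤ 5 → ‖H0 s‖ ≤ (149 * |C₁| + 1) * (1 + |s.im|) ^ 2 := by
    intro s h1 h2
    refine (hC₁ s (by linarith)).trans ?_
    have h3 := norm_le_re_im (s := s) (c := 5) (by linarith) (by norm_num) h2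
    have h5 := abs_nonneg C₁
    have h6 := abs_nonneg s.im
    set T := 1 + |s.im| with hT
    have hT1 : 1 ≤ T := by linarith
    have h7 : (1 + ‖s‖) ^ 2 ≤ 36 * T ^ 2 := by
      have : 1 + ‖s‖ ≤ 6 * T := by linarith
      calc (1 + ‖s‖) ^ 2 ≤ (6 * T) ^ 2 := pow_le_pow_left₀ (by positivity) this 2
        _ = 36 * T ^ 2 := by ring
    have h8 : C₁ * (1 + ‖s‖) ^ 2 / (s.re - 1 / 2) ≤ 144 * |C₁| * T ^ 2 := by
      rw [div_le_iff₀ (by linarith)]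
      have h9 : C₁ * (1 + ‖s‖) ^ 2 ≤ |C₁| * (36 * T ^ 2) :=
        mul_le_mul (le_abs_self _) h7 (by positivity) h5
      have h10 : 144 * |C₁| * T ^ 2 * (1 / 4) ≤ 144 * |C₁| * T ^ 2 * (s.re - 1 / 2) :=
        mul_le_mul_of_nonneg_left (by linarith) (by positivity)
      linarith
    have h9 : C₁ * ‖s‖ ≤ 5 * |C₁| * T ^ 2 := by
      have h10 : C₁ * ‖s‖ ≤ |C₁| * (5 * T) := mul_le_mul (le_abs_self _) h3 (norm_nonneg _) h5
      have h11 : T ≤ T ^ 2 := by nlinarith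
      have h12 : |C₁| * (5 * T) ≤ |C₁| * (5 * T ^ 2) := mul_le_mul_of_nonneg_left (by linarith) h5
      linarith
    have h10 : 0 ≤ T ^ 2 := by positivity
    nlinarith
  set C₅ : ℝ := 4 * (149 * |C₁| + 1) with hC₅
  have hC₅0 : 0 < C₅ := by positivity
  -- near `1`
  obtain ⟨r, hr0, hrr⟩ : ∃ r > 0, ∀ s : ℂ, ‖s - 1‖ < r → Real.pi / 16 ≤ ‖H0 s‖ := by
    have hcont : ContinuousAt H0 1 := by
      apply (H0_diff.differentiableAt _).continuousAt
      apply IsOpen.mem_nhds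
      · exact isOpen_lt continuous_const Complex.continuous_re
      · show 1 / 2 < (1 : ℂ).re
        rw [one_re]
        norm_num
    rw [Metric.continuousAt_iff] at hcont
    obtain ⟨r, hr0, hrr⟩ := hcont (Real.pi / 16) (by positivity)
    refine ⟨r, hr0, fun s hs => ?_⟩
    have h1 := hrr (x := s) (by rw [dist_eq_norm]; exact hs)
    rw [dist_eq_norm, H0_one] at h1
    have h2 : ‖(Real.pi / 8 : ℂ)‖ = Real.pi / 8 := by
      rw [show (Real.pi / 8 : ℂ) = ((Real.pi / 8 : ℝ) : ℂ) by push_cast; rfl, Complex.norm_real,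
        Real.norm_eq_abs, abs_of_pos (by positivity)]
    have h3 := norm_sub_norm_le (Real.pi / 8 : ℂ) (H0 s)
    rw [norm_sub_rev] at h3
    rw [h2] at h3
    linarith
  set k₁ : ℝ := (r ^ 5 / (C₃ ^ 3 * C₅)) ^ (1 / 4 : ℝ) with hk₁
  have hk₁0 : 0 < k₁ := by positivity
  apply lower_of_deriv H0_diff (by positivity) hB
    (k := min k₁ (Real.pi / 48)) (b := 1 / 2) (lt_min hk₁0 (by positivity)) (by norm_num)
  intro s h1 h4
  have hT0 : 0 < 1 + |s.im| := by positivity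
  have hT1 : 1 ≤ 1 + |s.im| := by have := abs_nonneg s.im; linarith
  have hσ : 0 < s.re - 1 := by linarith
  by_cases hs : ‖s - 1‖ < r
  · refine le_trans ?_ (hrr s hs)
    have h5 : (s.re - 1) ^ (3 / 4 : ℝ) ≤ 3 := by
      calc (s.re - 1) ^ (3 / 4 : ℝ) ≤ (3 : ℝ) ^ (3 / 4 : ℝ) :=
            Real.rpow_le_rpow hσ.le (by linarith) (by norm_num)
        _ ≤ (3 : ℝ) ^ (1 : ℝ) := Real.rpow_le_rpow_of_exponent_le (by norm_num) (by norm_num)
        _ = 3 := Real.rpow_one 3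
    have h6 : (1 + |s.im|) ^ (-(1 / 2) : ℝ) ≤ 1 :=
      Real.rpow_le_one_of_one_le_of_nonpos hT1 (by norm_num)
    have h7 : min k₁ (Real.pi / 48) * (s.re - 1) ^ (3 / 4 : ℝ) ≤ Real.pi / 48 * 3 :=
      mul_le_mul (min_le_right _ _) h5 (by positivity) (by positivity)
    calc min k₁ (Real.pi / 48) * (s.re - 1) ^ (3 / 4 : ℝ) * (1 + |s.im|) ^ (-(1 / 2) : ℝ)
        ≤ Real.pi / 48 * 3 * 1 := mul_le_mul h7 h6 (by positivity) (by positivity)
      _ = Real.pi / 16 := by ring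
  · push Not at hs
    have hs0 : 0 < ‖s - 1‖ := lt_of_lt_of_le hr0 hs
    have h5 : k₁ * (s.re - 1) ^ (3 / 4 : ℝ) * (1 + |s.im|) ^ (-(1 / 2) : ℝ) ≤ ‖H0 s‖ := by
      apply fourth_root (norm_nonneg _) hσ (by positivity) hT0
      have h341 := three_four_one 0 (σ := s.re) h1 s.im
      have e1 : (s.re : ℂ) + s.im * I = s := re_add_im s
      rw [e1, mul_zero] at h341
      set s' : ℂ := (s.re : ℂ) + 2 * s.im * I with hs'
      have e2 : s'.re = s.re := by simp [hs']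
      have e3 : s'.im = 2 * s.im := by simp [hs']
      have h2re : 1 < s'.re := by rw [e2]; exact h1
      have h6 := H0_eq h1
      have h7 := H0_eq h2re
      have hs'1 : ‖s - 1‖ ≤ ‖s' - 1‖ := by
        have h8 : ‖s - 1‖ ^ 2 ≤ ‖s' - 1‖ ^ 2 := by
          rw [← Complex.normSq_eq_norm_sq, ← Complex.normSq_eq_norm_sq, Complex.normSq_apply,
            Complex.normSq_apply]
          simp only [sub_re, sub_im, one_re, one_im, e2, e3]
          nlinarith [sq_nonneg s.im]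
        exact le_of_pow_le_pow_left₀ (by norm_num) (norm_nonneg _) h8
      have h8 : ‖LSeries (fun n => (hr 0 n : ℂ)) s'‖ ≤ C₅ * (1 + |s.im|) ^ 2 / ‖s - 1‖ := by
        rw [le_div_iff₀ hs0]
        calc ‖LSeries (fun n => (hr 0 n : ℂ)) s'‖ * ‖s - 1‖
            ≤ ‖LSeries (fun n => (hr 0 n : ℂ)) s'‖ * ‖s' - 1‖ :=
              mul_le_mul_of_nonneg_left hs'1 (norm_nonneg _)
          _ = ‖H0 s'‖ := by rw [h7, norm_mul, mul_comm]
          _ ≤ (149 * |C₁| + 1) * (1 + |s'.im|) ^ 2 := hB s' (by linarith) (by rw [e2]; linarith)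
          _ ≤ (149 * |C₁| + 1) * (4 * (1 + |s.im|) ^ 2) := by
              apply mul_le_mul_of_nonneg_left _ (by positivity)
              rw [e3, abs_mul, abs_two]
              have := abs_nonneg s.im
              nlinarith
          _ = C₅ * (1 + |s.im|) ^ 2 := by rw [hC₅]; ring
      have h9 : 1 ≤ (C₃ / (s.re - 1)) ^ 3 * ‖LSeries (fun n => (hr 0 n : ℂ)) s‖ ^ 4 *
          (C₅ * (1 + |s.im|) ^ 2 / ‖s - 1‖) := by
        refine h341.trans ?_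
        apply mul_le_mul _ h8 (norm_nonneg _) (by positivity)
        apply mul_le_mul_of_nonneg_right _ (by positivity)
        exact pow_le_pow_left₀ (norm_nonneg _) (hC₃ _ h1 h4) 3
      have e4 : (1 + |s.im|) ^ (-(4 * (1 / 2)) : ℝ) = ((1 + |s.im|) ^ 2)⁻¹ := by
        rw [show (-(4 * (1 / 2)) : ℝ) = -((2 : ℕ) : ℝ) by norm_num, Real.rpow_neg hT0.le,
          Real.rpow_natCast]
      rw [e4, h6, norm_mul, mul_pow]
      have h10 : r ^ 5 / (C₃ ^ 3 * C₅) * (s.re - 1) ^ 3 * ((1 + |s.im|) ^ 2)⁻¹ ≤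
          ‖s - 1‖ ^ 5 / (C₃ ^ 3 * C₅) * (s.re - 1) ^ 3 * ((1 + |s.im|) ^ 2)⁻¹ := by
        apply mul_le_mul_of_nonneg_right _ (by positivity)
        apply mul_le_mul_of_nonneg_right _ (by positivity)
        apply div_le_div_of_nonneg_right _ (by positivity)
        exact pow_le_pow_left₀ hr0.le hs 5
      refine h10.trans ?_
      have h11 : ‖s - 1‖ ^ 5 / (C₃ ^ 3 * C₅) * (s.re - 1) ^ 3 * ((1 + |s.im|) ^ 2)⁻¹ * 1 ≤
          ‖s - 1‖ ^ 5 / (C₃ ^ 3 * C₅) * (s.re - 1) ^ 3 * ((1 + |s.im|) ^ 2)⁻¹ *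
          ((C₃ / (s.re - 1)) ^ 3 * ‖LSeries (fun n => (hr 0 n : ℂ)) s‖ ^ 4 *
          (C₅ * (1 + |s.im|) ^ 2 / ‖s - 1‖)) := mul_le_mul_of_nonneg_left h9 (by positivity)
      rw [mul_one] at h11
      refine h11.trans (le_of_eq ?_)
      field_simp
    refine le_trans ?_ h5
    apply mul_le_mul_of_nonneg_right _ (by positivity)
    exact mul_le_mul_of_nonneg_right (min_le_left _ _) (by positivity)

/-- extension of a lower bound to the line `Re s = 1` -/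
theorem ext_bdry {G : ℂ → ℂ} {g : ℝ → ℝ} (h : ∀ s : ℂ, 1 < s.re → s.re ≤ 4 → g s.im ≤ ‖G s‖)
    {s : ℂ} (h1 : 1 ≤ s.re) (h4 : s.re ≤ 4) (hG : s.re = 1 → ContinuousAt G s) :
    g s.im ≤ ‖G s‖ := by
  rcases h1.lt_or_eq with h1 | h1
  · exact h s h1 h4
  · have hG' := hG h1.symm
    have ht : Filter.Tendsto (fun ε : ℝ => ‖G (s + ε)‖) (nhdsWithin 0 (Set.Ioi 0))
        (nhds ‖G s‖) := by
      have h2 : Filter.Tendsto (fun ε : ℝ => s + (ε : ℂ)) (nhdsWithin 0 (Set.Ioi 0)) (nhds s) := by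
        have h3 : Continuous (fun ε : ℝ => s + (ε : ℂ)) := by fun_prop
        have h4 := (h3.tendsto 0).mono_left (nhdsWithin_le_nhds (s := Set.Ioi (0 : ℝ)))
        simpa using h4
      exact (hG'.tendsto.comp h2).norm
    apply ge_of_tendsto ht
    have h5 : Set.Ioo (0 : ℝ) 1 ∈ nhdsWithin (0 : ℝ) (Set.Ioi 0) := Ioo_mem_nhdsGT one_pos
    filter_upwards [h5] with ε hε
    have h6 := h (s + ε) (by rw [add_re, ofReal_re]; linarith [hε.1])
      (by rw [add_re, ofReal_re]; linarith [hε.2])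
    rw [add_im, ofReal_im, add_zero] at h6
    exact h6

theorem norm_two_le {s : ℂ} (h : 0 ≤ s.re) : ‖1 - (2 : ℂ) ^ (-s)‖ ≤ 2 := by
  have h1 : ‖(2 : ℂ) ^ (-s)‖ ≤ 1 := by
    have h2 : ‖((2 : ℝ) : ℂ) ^ (-s)‖ = (2 : ℝ) ^ (-s).re :=
      Complex.norm_cpow_eq_rpow_re_of_pos (by norm_num) _
    rw [show (2 : ℂ) = ((2 : ℝ) : ℂ) by norm_num, h2, neg_re]
    exact Real.rpow_le_one_of_one_le_of_nonpos (by norm_num) (by linarith)
  calc ‖1 - (2 : ℂ) ^ (-s)‖ ≤ ‖(1 : ℂ)‖ + ‖(2 : ℂ) ^ (-s)‖ := norm_sub_le _ _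
    _ ≤ 1 + 1 := by
        rw [norm_one]
        linarith
    _ = 2 := by norm_num

theorem H0_fact {s : ℂ} (hs : 1 < s.re) :
    ‖H0 s‖ = ‖1 - (2 : ℂ) ^ (-s)‖ * ‖(s - 1) * riemannZeta s‖ * ‖LX s‖ := by
  rw [H0_eq hs, fact0 hs, ← LX_eq hs, z2, ← norm_mul, ← norm_mul]
  congr 1
  ring

theorem LX_ge : ∃ κ A : ℝ, 0 < κ ∧ 0 ≤ A ∧ ∀ s : ℂ, 1 ≤ s.re → s.re ≤ 4 →
    κ * (1 + |s.im|) ^ (-A) ≤ ‖LX s‖ := by
  obtain ⟨κ, A, hκ, hA, h⟩ := H0_ge
  obtain ⟨C, hC⟩ := zeta_le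
  refine ⟨κ / (2 * (|C| + 1)), A + 2, by positivity, by positivity, fun s h1 h4 => ?_⟩
  apply ext_bdry (G := LX) (g := fun t => κ / (2 * (|C| + 1)) * (1 + |t|) ^ (-(A + 2))) _ h1 h4
  · intro _
    apply (LX_diff.differentiableAt _).continuousAt
    apply IsOpen.mem_nhds
    · exact isOpen_lt continuous_const Complex.continuous_re
    · show 0 < s.re
      linarith
  · intro s h1 h4
    have h2 := h s h1.le h4
    rw [H0_fact h1] at h2
    have h3 := hC s (by linarith) (by linarith)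
    have hT0 : 0 < 1 + |s.im| := by positivity
    have h5 : ‖1 - (2 : ℂ) ^ (-s)‖ * ‖(s - 1) * riemannZeta s‖ ≤
        2 * ((|C| + 1) * (1 + |s.im|) ^ 2) := by
      apply mul_le_mul (norm_two_le (by linarith)) _ (norm_nonneg _) (by norm_num)
      refine h3.trans (mul_le_mul_of_nonneg_right ?_ (by positivity))
      linarith [le_abs_self C]
    have h6 := mul_le_mul_of_nonneg_right h5 (norm_nonneg (LX s))
    have h7 := h2.trans h6
    show κ / (2 * (|C| + 1)) * (1 + |s.im|) ^ (-(A + 2)) ≤ ‖LX s‖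
    have e1 : (1 + |s.im|) ^ (-(A + 2)) = (1 + |s.im|) ^ (-A) * ((1 + |s.im|) ^ 2)⁻¹ := by
      rw [show -(A + 2) = -A + -((2 : ℕ) : ℝ) by push_cast; ring, Real.rpow_add hT0,
        Real.rpow_neg hT0.le ((2 : ℕ) : ℝ), Real.rpow_natCast]
    rw [e1]
    have e2 : κ / (2 * (|C| + 1)) * ((1 + |s.im|) ^ (-A) * ((1 + |s.im|) ^ 2)⁻¹) =
        κ * (1 + |s.im|) ^ (-A) / (2 * ((|C| + 1) * (1 + |s.im|) ^ 2)) := by
      field_simp
    rw [e2, div_le_iff₀ (by positivity)]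
    linarith

theorem zeta_ge : ∃ κ A : ℝ, 0 < κ ∧ 0 ≤ A ∧ ∀ s : ℂ, 1 ≤ s.re → s.re ≤ 4 → s ≠ 1 →
    κ * (1 + |s.im|) ^ (-A) ≤ ‖(s - 1) * riemannZeta s‖ := by
  obtain ⟨κ, A, hκ, hA, h⟩ := H0_ge
  refine ⟨κ / 2, A + 1, by positivity, by positivity, fun s h1 h4 hs1 => ?_⟩
  apply ext_bdry (G := fun s => (s - 1) * riemannZeta s)
    (g := fun t => κ / 2 * (1 + |t|) ^ (-(A + 1))) _ h1 h4
  · intro _
    apply ContinuousAt.mul (by fun_prop)
    exact (differentiableAt_riemannZeta hs1).continuousAt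
  · intro s h1 h4
    have h2 := h s h1.le h4
    rw [H0_fact h1] at h2
    have hT0 : 0 < 1 + |s.im| := by positivity
    have h3 : ‖LX s‖ ≤ 1 + |s.im| := by
      refine (LX_le (by linarith)).trans ?_
      rw [div_le_iff₀ (by linarith)]
      have h5 := Complex.norm_le_abs_re_add_abs_im s
      rw [abs_of_nonneg (by linarith : 0 ≤ s.re)] at h5
      have h6 := abs_nonneg s.im
      nlinarith
    have h5 : ‖1 - (2 : ℂ) ^ (-s)‖ * ‖(s - 1) * riemannZeta s‖ * ‖LX s‖ ≤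
        2 * ‖(s - 1) * riemannZeta s‖ * (1 + |s.im|) := by
      apply mul_le_mul _ h3 (norm_nonneg _) (by positivity)
      exact mul_le_mul_of_nonneg_right (norm_two_le (by linarith)) (norm_nonneg _)
    have h7 := h2.trans h5
    show κ / 2 * (1 + |s.im|) ^ (-(A + 1)) ≤ ‖(s - 1) * riemannZeta s‖
    have e1 : (1 + |s.im|) ^ (-(A + 1)) = (1 + |s.im|) ^ (-A) * (1 + |s.im|)⁻¹ := by
      rw [show -(A + 1) = -A + -1 by ring, Real.rpow_add hT0, Real.rpow_neg_one]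
    rw [e1]
    have e2 : κ / 2 * ((1 + |s.im|) ^ (-A) * (1 + |s.im|)⁻¹) =
        κ * (1 + |s.im|) ^ (-A) / (2 * (1 + |s.im|)) := by
      field_simp
    rw [e2, div_le_iff₀ (by positivity)]
    linarith

end Pool.Agent.CZ.Inp
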