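import Mathlib
import Pool.Agent.CZ.InpDefs
import Pool.Agent.CZ.InpARI
import Pool.Agent.CZ.InpCHB
import Pool.Agent.CZ.InpCONT
import Pool.Agent.CZ.InpZET
import Pool.Agent.CZ.InpIDN
import Pool.Agent.CZ.InpEUL
import Pool.Agent.CZ.InpLOW

set_option autoImplicit false

open Complex Finset MeasureTheory

/-! Sharp prime sums. -/

namespace Pool.Agent.CZ.Inp


/-- the complete prime sum -/
noncomputable def SP (f : ℕ → ℝ) (s : ℂ) : ℂ := ∑' p : Nat.Primes, (f p : ℂ) * (p : ℂ) ^ (-s)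

theorem norm_term {f : ℕ → ℝ} (hf : ∀ p : ℕ, p.Prime → |f p| ≤ 2) (s : ℂ) (p : Nat.Primes) :
    ‖(f p : ℂ) * (p : ℂ) ^ (-s)‖ ≤ 2 * ((p : ℕ) : ℝ) ^ (-s.re) := by
  rw [norm_mul, Complex.norm_real, Real.norm_eq_abs,
    Complex.norm_natCast_cpow_of_pos p.2.pos, neg_re]
  exact mul_le_mul_of_nonneg_right (hf p p.2) (by positivity)

theorem summable_rpow {x : ℝ} (hx : 1 < x) :
    Summable fun p : Nat.Primes => ((p : ℕ) : ℝ) ^ (-x) :=
  Nat.Primes.summable_rpow.2 (by linarith)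

theorem summable_SP {f : ℕ → ℝ} (hf : ∀ p : ℕ, p.Prime → |f p| ≤ 2) {s : ℂ} (hs : 1 < s.re) :
    Summable fun p : Nat.Primes => (f p : ℂ) * (p : ℂ) ^ (-s) :=
  Summable.of_norm_bounded ((summable_rpow hs).mul_left 2) (norm_term hf s)

theorem continuousAt_SP {f : ℕ → ℝ} (hf : ∀ p : ℕ, p.Prime → |f p| ≤ 2) {s : ℂ}
    (hs : 1 < s.re) : ContinuousAt (SP f) s := by
  have hopen : IsOpen {z : ℂ | (1 + s.re) / 2 < z.re} :=
    isOpen_lt continuous_const Complex.continuous_re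
  have hcont : ContinuousOn (SP f) {z : ℂ | (1 + s.re) / 2 < z.re} := by
    apply continuousOn_tsum (u := fun p : Nat.Primes => 2 * ((p : ℕ) : ℝ) ^ (-((1 + s.re) / 2)))
    · intro p
      apply Continuous.continuousOn
      have hp : ((p : ℕ) : ℂ) ≠ 0 := by exact_mod_cast p.2.ne_zero
      exact continuous_const.mul (Continuous.const_cpow continuous_neg (Or.inl hp))
    · exact (summable_rpow (by linarith)).mul_left 2
    · intro p z hz
      refine (norm_term hf z p).trans ?_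
      apply mul_le_mul_of_nonneg_left _ (by norm_num)
      apply Real.rpow_le_rpow_of_exponent_le
      · exact_mod_cast p.2.one_lt.le
      · have : (1 + s.re) / 2 < z.re := hz
        linarith
  exact hcont.continuousAt (hopen.mem_nhds (by show (1 + s.re) / 2 < s.re; linarith))

theorem norm_SP_le {f : ℕ → ℝ} (hf : ∀ p : ℕ, p.Prime → |f p| ≤ 2) {s : ℂ} (hs : 4 ≤ s.re) :
    ‖SP f s‖ ≤ 2 * ∑' p : Nat.Primes, ((p : ℕ) : ℝ) ^ (-4 : ℝ) := by
  rw [← tsum_mul_left]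
  have h1 : ‖SP f s‖ ≤ ∑' p : Nat.Primes, ‖(f p : ℂ) * (p : ℂ) ^ (-s)‖ := by
    apply norm_tsum_le_tsum_norm
    exact Summable.of_nonneg_of_le (fun _ => norm_nonneg _) (norm_term hf s)
      ((summable_rpow (by linarith)).mul_left 2)
  refine h1.trans ?_
  apply Summable.tsum_le_tsum
  · intro p
    refine (norm_term hf s p).trans ?_
    apply mul_le_mul_of_nonneg_left _ (by norm_num)
    apply Real.rpow_le_rpow_of_exponent_le
    · exact_mod_cast p.2.one_lt.le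
    · linarith
  · exact Summable.of_nonneg_of_le (fun _ => norm_nonneg _) (norm_term hf s)
      ((summable_rpow (by linarith)).mul_left 2)
  · exact (summable_rpow (by norm_num)).mul_left 2

/-- a prime sum up to `y` as a sum over `Nat.Primes` -/
theorem sum_primes_le (g : ℕ → ℂ) (y : ℝ) (hy : 0 ≤ y) :
    ∑' p : Nat.Primes, (if ((p : ℕ) : ℝ) ≤ y then g p else 0) =
      ∑ p ∈ (Icc 1 ⌊y⌋₊).filter Nat.Prime, g p := by
  classical
  have h1 : ∑' p : Nat.Primes, (if ((p : ℕ) : ℝ) ≤ y then g p else 0) =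
      ∑' n : ℕ, Set.indicator {p : ℕ | p.Prime} (fun n => if (n : ℝ) ≤ y then g n else 0) n :=
    tsum_subtype {p : ℕ | p.Prime} (fun n => if (n : ℝ) ≤ y then g n else 0)
  rw [h1, tsum_eq_sum (s := (Icc 1 ⌊y⌋₊).filter Nat.Prime)]
  · refine Finset.sum_congr rfl fun n hn => ?_
    rw [mem_filter, mem_Icc] at hn
    rw [Set.indicator_of_mem (show n ∈ {p : ℕ | p.Prime} from hn.2), if_pos]
    exact (Nat.le_floor_iff hy).1 hn.1.2
  · intro n hn
    rw [mem_filter, mem_Icc] at hn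
    by_cases hp : n.Prime
    · rw [Set.indicator_of_mem (show n ∈ {p : ℕ | p.Prime} from hp), if_neg]
      intro h
      exact hn ⟨⟨hp.one_lt.le, (Nat.le_floor_iff hy).2 h⟩, hp⟩
    · rw [Set.indicator_of_notMem (show n ∉ {p : ℕ | p.Prime} from hp)]

theorem log_ge {y : ℝ} (hy : 2 ≤ y) : 1 / 2 < Real.log y := by
  have h1 : Real.log 2 ≤ Real.log y := Real.log_le_log (by norm_num) hy
  have := Real.log_two_gt_d9
  linarith

/-- truncation -/
theorem trunc : ∃ C : ℝ, 0 ≤ C ∧ ∀ f : ℕ → ℝ, (∀ p : ℕ, p.Prime → |f p| ≤ 2) →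
    ∀ y v : ℝ, 2 ≤ y → ‖ps f y v - SP f (⟨1 + 1 / Real.log y, v⟩ : ℂ)‖ ≤ C := by
  obtain ⟨C₁, hC₁⟩ := chb_log
  obtain ⟨C₂, hC₂⟩ := chb_tail
  refine ⟨2 * (1 + 2 * |C₁|) + 2 * |C₂|, by positivity, fun f hf y v hy => ?_⟩
  have hlog := log_ge hy
  have hlog0 : 0 < Real.log y := by linarith
  set δ : ℝ := 1 / Real.log y with hδ
  have hδ0 : 0 < δ := by positivity
  have hδ2 : δ ≤ 2 := by
    rw [hδ, div_le_iff₀ hlog0]
    linarith
  have hδlog : δ * Real.log y = 1 := by rw [hδ]; field_simp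
  set s : ℂ := ⟨1 + δ, v⟩ with hs
  have hs1 : 1 < s.re := by show 1 < 1 + δ; linarith
  have hsum := summable_SP hf hs1
  -- splitting
  have hsplit : SP f s = ∑ p ∈ (Icc 1 ⌊y⌋₊).filter Nat.Prime, (f p : ℂ) * (p : ℂ) ^ (-s) +
      ∑' p : Nat.Primes, (if y < ((p : ℕ) : ℝ) then (f p : ℂ) * (p : ℂ) ^ (-s) else 0) := by
    rw [← sum_primes_le (fun p => (f p : ℂ) * (p : ℂ) ^ (-s)) y (by linarith), SP,
      ← Summable.tsum_add]
    · congr 1
      ext p
      by_cases h : ((p : ℕ) : ℝ) ≤ y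
      · rw [if_pos h, if_neg (not_lt.2 h), add_zero]
      · rw [if_neg h, if_pos (not_le.1 h), zero_add]
    · apply Summable.of_norm_bounded hsum.norm
      intro p
      split_ifs
      · exact le_rfl
      · rw [norm_zero]; exact norm_nonneg _
    · apply Summable.of_norm_bounded hsum.norm
      intro p
      split_ifs
      · exact le_rfl
      · rw [norm_zero]; exact norm_nonneg _
  rw [hsplit, ps, ← sub_sub, ← Finset.sum_sub_distrib]
  refine (norm_sub_le _ _).trans (add_le_add ?_ ?_)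
  · -- small primes
    have h1 : ∀ p ∈ (Icc 1 ⌊y⌋₊).filter Nat.Prime,
        ‖(f p : ℂ) * (p : ℂ) ^ (-(1 + v * I)) - (f p : ℂ) * (p : ℂ) ^ (-s)‖ ≤
          2 * δ * (Real.log p / p) := by
      intro p hp
      rw [mem_filter] at hp
      have hp0 : 0 < p := hp.2.pos
      have hp0' : (p : ℂ) ≠ 0 := by exact_mod_cast hp0.ne'
      have hpr : (0 : ℝ) < p := by exact_mod_cast hp0
      have e1 : (p : ℂ) ^ (-s) = (p : ℂ) ^ (-(1 + v * I)) * ((p : ℝ) ^ (-δ) : ℝ) := by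
        rw [Complex.ofReal_cpow hpr.le, ofReal_natCast, ← Complex.cpow_add _ _ hp0']
        congr 1
        apply Complex.ext <;> simp [hs]
        ring
      have e2 : (f p : ℂ) * (p : ℂ) ^ (-(1 + v * I)) - (f p : ℂ) * (p : ℂ) ^ (-s) =
          (f p : ℂ) * (p : ℂ) ^ (-(1 + v * I)) * ((1 - (p : ℝ) ^ (-δ) : ℝ) : ℂ) := by
        rw [e1]
        push_cast
        ring
      have e3 : (-(1 + (v : ℂ) * I)).re = -1 := by simp
      rw [e2, norm_mul, norm_mul, Complex.norm_real, Complex.norm_real,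
        Complex.norm_natCast_cpow_of_pos hp0, e3, Real.rpow_neg_one]
      have hpd : (p : ℝ) ^ (-δ) = Real.exp (-(δ * Real.log p)) := by
        rw [Real.rpow_def_of_pos hpr]
        congr 1
        ring
      have hlogp : 0 ≤ Real.log p := Real.log_nonneg (by exact_mod_cast hp0)
      have h2 : |1 - (p : ℝ) ^ (-δ)| ≤ δ * Real.log p := by
        have h3 := Real.add_one_le_exp (-(δ * Real.log p))
        have h4 : (p : ℝ) ^ (-δ) ≤ 1 :=
          Real.rpow_le_one_of_one_le_of_nonpos (by exact_mod_cast hp0) (by linarith)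
        rw [hpd] at h4 ⊢
        rw [abs_of_nonneg (by linarith)]
        linarith
      have h5 := hf p hp.2
      rw [Real.norm_eq_abs, Real.norm_eq_abs]
      calc |f p| * (p : ℝ)⁻¹ * |1 - (p : ℝ) ^ (-δ)| ≤ 2 * (p : ℝ)⁻¹ * (δ * Real.log p) := by
            gcongr
        _ = 2 * δ * (Real.log p / p) := by
            rw [div_eq_mul_inv]
            ring
    refine (norm_sum_le _ _).trans ((Finset.sum_le_sum h1).trans ?_)
    rw [← Finset.mul_sum]
    have h2 := hC₁ y (by linarith)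
    calc 2 * δ * ∑ p ∈ (Icc 1 ⌊y⌋₊).filter Nat.Prime, Real.log p / p
        ≤ 2 * δ * (Real.log y + C₁) := mul_le_mul_of_nonneg_left h2 (by positivity)
      _ = 2 * (1 + δ * C₁) := by rw [mul_assoc, mul_add, hδlog]
      _ ≤ 2 * (1 + 2 * |C₁|) := by
          have h3 : δ * C₁ ≤ 2 * |C₁| :=
            (mul_le_mul_of_nonneg_left (le_abs_self C₁) hδ0.le).trans
              (mul_le_mul_of_nonneg_right hδ2 (abs_nonneg C₁))
          linarith
  · -- large primes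
    obtain ⟨h1, h2⟩ := hC₂ y δ hy hδ0 hδ2
    have h3 : ∀ p : Nat.Primes, ‖(if y < ((p : ℕ) : ℝ) then (f p : ℂ) * (p : ℂ) ^ (-s) else 0)‖ ≤
        2 * (if y < ((p : ℕ) : ℝ) then ((p : ℕ) : ℝ) ^ (-(1 + δ)) else 0) := by
      intro p
      split_ifs
      · exact norm_term hf s p
      · simp
    have h4 : Summable fun p : Nat.Primes =>
        ‖(if y < ((p : ℕ) : ℝ) then (f p : ℂ) * (p : ℂ) ^ (-s) else 0)‖ :=
      Summable.of_nonneg_of_le (fun _ => norm_nonneg _) h3 (h1.mul_left 2)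
    refine (norm_tsum_le_tsum_norm h4).trans ((h4.tsum_le_tsum h3 (h1.mul_left 2)).trans ?_)
    rw [tsum_mul_left]
    apply mul_le_mul_of_nonneg_left _ (by norm_num)
    refine h2.trans ?_
    rw [hδlog, div_one]
    have h5 : y ^ (-δ) ≤ 1 := Real.rpow_le_one_of_one_le_of_nonpos (by linarith) (by linarith)
    have h6 : 0 ≤ y ^ (-δ) := by positivity
    calc C₂ * y ^ (-δ) ≤ |C₂| * y ^ (-δ) := mul_le_mul_of_nonneg_right (le_abs_self _) h6
      _ ≤ |C₂| * 1 := mul_le_mul_of_nonneg_left h5 (abs_nonneg _)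
      _ = |C₂| := mul_one _

/-! ### real parts -/

theorem re_of_exp {z L : ℂ} {C : ℝ} {E : ℂ} (hE : ‖E‖ ≤ C) (h : L = Complex.exp (z + E)) :
    |z.re - Real.log ‖L‖| ≤ C := by
  rw [h, Complex.norm_exp, Real.log_exp, add_re]
  have h1 := (Complex.abs_re_le_norm E).trans hE
  have h2 : z.re - (z.re + E.re) = -E.re := by ring
  rw [h2, abs_neg]
  exact h1

theorem abs_log_le {x κ A B T : ℝ} {a : ℕ} (hκ : 0 < κ) (hA : 0 ≤ A) (hB : 0 < B) (hT : 1 ≤ T)
    (h1 : κ * T ^ (-A) ≤ x) (h2 : x ≤ B * T ^ a) :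
    |Real.log x| ≤ (|Real.log κ| + |Real.log B| + A + a) * (1 + Real.log T) := by
  have hT0 : 0 < T := by linarith
  have hlT : 0 ≤ Real.log T := Real.log_nonneg hT
  have hx : 0 < x := lt_of_lt_of_le (by positivity) h1
  have h3 : Real.log κ + -A * Real.log T ≤ Real.log x := by
    rw [← Real.log_rpow hT0, ← Real.log_mul hκ.ne' (by positivity)]
    exact Real.log_le_log (by positivity) h1
  have h4 : Real.log x ≤ Real.log B + a * Real.log T := by
    rw [← Real.log_pow, ← Real.log_mul hB.ne' (by positivity)]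
    exact Real.log_le_log hx h2
  have h5 := neg_abs_le (Real.log κ)
  have h6 := le_abs_self (Real.log B)
  have h7 := abs_nonneg (Real.log κ)
  have h8 := abs_nonneg (Real.log B)
  have h9 : (0 : ℝ) ≤ a := Nat.cast_nonneg a
  have h10 : 0 ≤ |Real.log κ| * Real.log T := by positivity
  have h11 : 0 ≤ |Real.log B| * Real.log T := by positivity
  have h12 : 0 ≤ A * Real.log T := by positivity
  have h13 : 0 ≤ (a : ℝ) * Real.log T := by positivity
  rw [abs_le]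
  constructor <;> nlinarith

theorem sigma_mem {y : ℝ} (hy : 2 ≤ y) : 1 < 1 + 1 / Real.log y ∧ 1 + 1 / Real.log y ≤ 4 := by
  have h := log_ge hy
  have h0 : 0 < Real.log y := by linarith
  constructor
  · have : 0 < 1 / Real.log y := by positivity
    linarith
  · have : 1 / Real.log y ≤ 2 := by
      rw [div_le_iff₀ h0]
      linarith
    linarith

theorem log_conv {f : ℕ → ℝ} {L : ℂ → ℂ}
    (h : ∃ C : ℝ, ∃ E : ℂ → ℂ, DifferentiableOn ℂ E {s : ℂ | 3 / 4 < s.re} ∧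
      (∀ s : ℂ, 3 / 4 < s.re → ‖E s‖ ≤ C) ∧ ∀ s : ℂ, 1 < s.re →
        L s = Complex.exp (SP f s + E s)) :
    ∃ (C : ℝ) (E : ℂ → ℂ), ContinuousOn E {s : ℂ | 1 < s.re} ∧
      ∀ s : ℂ, 1 < s.re → s.re ≤ 4 → ‖E s‖ ≤ C ∧ L s = Complex.exp (SP f s + E s) := by
  obtain ⟨C, E, hEd, hEC, h⟩ := h
  refine ⟨C, E, hEd.continuousOn.mono fun s hs => ?_, fun s h1 _ => ⟨hEC s (by linarith), h s h1⟩⟩
  have : 1 < s.re := hs
  show 3 / 4 < s.re
  linarith

theorem SP_one (s : ℂ) : SP (fun _ => 1) s = ∑' p : Nat.Primes, (p : ℂ) ^ (-s) := by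
  unfold SP
  simp

theorem log_x4' : ∃ (C : ℝ) (E : ℂ → ℂ), ContinuousOn E {s : ℂ | 1 < s.re} ∧
    ∀ s : ℂ, 1 < s.re → s.re ≤ 4 → ‖E s‖ ≤ C ∧ LX s = Complex.exp (SP x4 s + E s) := by
  apply log_conv
  obtain ⟨C, E, hEd, hEC, h⟩ := log_x4
  exact ⟨C, E, hEd, hEC, fun s h1 => by rw [LX_eq h1, h s h1]; rfl⟩

theorem log_hr1' : ∃ (C : ℝ) (E : ℂ → ℂ), ContinuousOn E {s : ℂ | 1 < s.re} ∧
    ∀ s : ℂ, 1 < s.re → s.re ≤ 4 → ‖E s‖ ≤ C ∧ HL 1 s = Complex.exp (SP (hr 1) s + E s) := by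
  apply log_conv
  obtain ⟨C, E, hEd, hEC, h⟩ := log_hr 1
  exact ⟨C, E, hEd, hEC, fun s h1 => by rw [HL_eq le_rfl h1, h s h1]; rfl⟩

theorem log_zeta' : ∃ (C : ℝ) (E : ℂ → ℂ), ContinuousOn E {s : ℂ | 1 < s.re} ∧
    ∀ s : ℂ, 1 < s.re → s.re ≤ 4 → ‖E s‖ ≤ C ∧
      riemannZeta s = Complex.exp (SP (fun _ => 1) s + E s) := by
  apply log_conv
  obtain ⟨C, E, hEd, hEC, h⟩ := log_zeta
  exact ⟨C, E, hEd, hEC, fun s h1 => by rw [SP_one]; exact h s h1⟩

/-- generic real part bound -/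
theorem re_bound {f : ℕ → ℝ} (hf : ∀ p : ℕ, p.Prime → |f p| ≤ 2) {L : ℂ → ℂ}
    (hlog : ∃ (C : ℝ) (E : ℂ → ℂ), ContinuousOn E {s : ℂ | 1 < s.re} ∧
      ∀ s : ℂ, 1 < s.re → s.re ≤ 4 → ‖E s‖ ≤ C ∧ L s = Complex.exp (SP f s + E s))
    (hlow : ∃ κ A : ℝ, 0 < κ ∧ 0 ≤ A ∧ ∀ s : ℂ, 1 < s.re → s.re ≤ 4 →
      κ * (1 + |s.im|) ^ (-A) ≤ ‖L s‖)
    (hup : ∃ (B : ℝ) (a : ℕ), 0 < B ∧ ∀ s : ℂ, 1 < s.re → s.re ≤ 4 →
      ‖L s‖ ≤ B * (1 + |s.im|) ^ a) :
    ∃ C : ℝ, ∀ y v : ℝ, 2 ≤ y → |(ps f y v).re| ≤ C * (1 + Real.log (1 + |v|)) := by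
  obtain ⟨C₁, hC₁0, hC₁⟩ := trunc
  obtain ⟨C₂, E, _, hC₂⟩ := hlog
  obtain ⟨κ, A, hκ, hA, hlow⟩ := hlow
  obtain ⟨B, a, hB, hup⟩ := hup
  refine ⟨C₁ + |C₂| + (|Real.log κ| + |Real.log B| + A + a), fun y v hy => ?_⟩
  obtain ⟨h1, h4⟩ := sigma_mem hy
  set s : ℂ := ⟨1 + 1 / Real.log y, v⟩ with hs
  obtain ⟨hE, hL⟩ := hC₂ s h1 h4
  have h5 := (Complex.abs_re_le_norm _).trans (hC₁ f hf y v hy)
  rw [sub_re] at h5
  have h6 := re_of_exp hE hL
  have hT : 1 ≤ 1 + |v| := by have := abs_nonneg v; linarith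
  have h7 := abs_log_le hκ hA hB hT (hlow s h1 h4) (hup s h1 h4)
  have hlT : 0 ≤ Real.log (1 + |v|) := Real.log_nonneg hT
  have h8 : |(ps f y v).re| ≤ |(ps f y v).re - (SP f s).re| + |(SP f s).re - Real.log ‖L s‖| +
      |Real.log ‖L s‖| := by
    have e1 : (ps f y v).re = ((ps f y v).re - (SP f s).re) + ((SP f s).re - Real.log ‖L s‖) +
      Real.log ‖L s‖ := by ring
    conv_lhs => rw [e1]
    exact (abs_add_le _ _).trans (add_le_add_left (abs_add_le _ _) _)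
  have h9 := le_abs_self C₂
  have h10 : 0 ≤ (C₁ + |C₂|) * Real.log (1 + |v|) := by positivity
  nlinarith

theorem abs_x4_le_two (p : ℕ) : |x4 p| ≤ 2 := by
  unfold x4
  have h : ∀ z : ZMod 4, |((ZMod.χ₄ z : ℤ) : ℝ)| ≤ 2 := by
    intro z
    have h1 : ∀ z : ZMod 4, |(ZMod.χ₄ z : ℤ)| ≤ 2 := by decide
    exact_mod_cast h1 z
  exact h _

theorem abs_hr1_le (p : ℕ) (hp : p.Prime) : |hr 1 p| ≤ 2 := by
  refine (hr_le_card 1 p).trans ?_
  rw [hp.divisors, Finset.card_pair hp.one_lt.ne]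
  norm_num

theorem ps_x4 : ∃ C : ℝ, ∀ y v : ℝ, 2 ≤ y → |(ps x4 y v).re| ≤ C * (1 + Real.log (1 + |v|)) := by
  apply re_bound (fun p _ => abs_x4_le_two p) (L := LX) log_x4'
  · obtain ⟨κ, A, hκ, hA, h⟩ := LX_ge
    exact ⟨κ, A, hκ, hA, fun s h1 h4 => h s h1.le h4⟩
  · refine ⟨1, 1, one_pos, fun s h1 h4 => ?_⟩
    rw [one_mul, pow_one]
    refine (LX_le (by linarith)).trans ?_
    rw [div_le_iff₀ (by linarith)]
    have h5 := Complex.norm_le_abs_re_add_abs_im s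
    rw [abs_of_nonneg (by linarith : 0 ≤ s.re)] at h5
    have h6 := abs_nonneg s.im
    nlinarith

theorem HL1_up : ∃ (B : ℝ) (a : ℕ), 0 < B ∧ ∀ s : ℂ, 3 / 4 ≤ s.re → s.re ≤ 5 →
    ‖HL 1 s‖ ≤ B * (1 + |s.im|) ^ a := by
  obtain ⟨C₁, hC₁⟩ := HL_le (j := 1) le_rfl
  refine ⟨20 * |C₁| + 1, 1, by positivity, ?_⟩
  intro s h1 h2
  refine (hC₁ s (by linarith)).trans ?_
  rw [pow_one, div_le_iff₀ (by linarith)]
  have h3 := norm_le_re_im (s := s) (c := 5) (by linarith) (by norm_num) h2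
  have h4 : C₁ * ‖s‖ ≤ |C₁| * (5 * (1 + |s.im|)) :=
    mul_le_mul (le_abs_self _) h3 (norm_nonneg _) (abs_nonneg _)
  have h5 := abs_nonneg C₁
  have h6 := abs_nonneg s.im
  have h7 : 0 ≤ |C₁| * (1 + |s.im|) := by positivity
  nlinarith

theorem ps_hr1 : ∃ C : ℝ, ∀ y v : ℝ, 2 ≤ y → |(ps (hr 1) y v).re| ≤ C * (1 + Real.log (1 + |v|)) := by
  apply re_bound (fun p hp => abs_hr1_le p hp) (L := HL 1) log_hr1'
  · obtain ⟨κ, A, hκ, hA, h⟩ := HL1_ge
    exact ⟨κ, A, hκ, hA, fun s h1 h4 => h s h1.le h4⟩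
  · obtain ⟨B, a, hB, h⟩ := HL1_up
    exact ⟨B, a, hB, fun s h1 h4 => h s (by linarith) (by linarith)⟩

theorem ps_one : ∃ C : ℝ, ∀ y v : ℝ, 2 ≤ y →
    |(ps (fun _ => 1) y v).re + Real.log (1 / Real.log y + min 1 |v|)| ≤
      C * (1 + Real.log (1 + |v|)) := by
  obtain ⟨C₁, hC₁0, hC₁⟩ := trunc
  obtain ⟨C₂, E, _, hC₂⟩ := log_zeta'
  obtain ⟨κ, A, hκ, hA, hlow⟩ := zeta_ge
  obtain ⟨B, hup⟩ := zeta_le
  refine ⟨C₁ + |C₂| + (|Real.log κ| + |Real.log (|B| + 1)| + A + (2 : ℕ)) + 1, fun y v hy => ?_⟩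
  obtain ⟨h1, h4⟩ := sigma_mem hy
  have hlog0 : 0 < Real.log y := by linarith [log_ge hy]
  have hδ0 : 0 < 1 / Real.log y := by positivity
  set s : ℂ := ⟨1 + 1 / Real.log y, v⟩ with hs
  obtain ⟨hE, hL⟩ := hC₂ s h1 h4
  have h5 := (Complex.abs_re_le_norm _).trans (hC₁ (fun _ => 1) (fun _ _ => by norm_num) y v hy)
  rw [sub_re] at h5
  have h6 := re_of_exp hE hL
  have hv := abs_nonneg v
  have hT : 1 ≤ 1 + |v| := by linarith
  have hs1 : s ≠ 1 := by
    intro h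
    have h1' : (1 : ℝ) < s.re := h1
    rw [h, one_re] at h1'
    exact lt_irrefl _ h1'
  have hs1' : 0 < ‖s - 1‖ := norm_pos_iff.2 (sub_ne_zero.2 hs1)
  have hup' : ‖(s - 1) * riemannZeta s‖ ≤ (|B| + 1) * (1 + |s.im|) ^ 2 := by
    refine (hup s (by linarith) (by linarith)).trans ?_
    exact mul_le_mul_of_nonneg_right (by linarith [le_abs_self B]) (by positivity)
  have h7 := abs_log_le hκ hA (by positivity) hT (hlow s h1.le h4 hs1) hup'
  have hζ : riemannZeta s ≠ 0 := by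
    rw [hL]
    exact Complex.exp_ne_zero _
  have h8 : Real.log ‖(s - 1) * riemannZeta s‖ = Real.log ‖s - 1‖ + Real.log ‖riemannZeta s‖ := by
    rw [norm_mul, Real.log_mul hs1'.ne' (norm_ne_zero_iff.2 hζ)]
  have hlT : 0 ≤ Real.log (1 + |v|) := Real.log_nonneg hT
  -- comparison of the two logarithms
  set m : ℝ := 1 / Real.log y + min 1 |v| with hm
  have hmin0 : 0 ≤ min 1 |v| := le_min zero_le_one hv
  have hm0 : 0 < m := by positivity
  have hre : (s - 1).re = 1 / Real.log y := by simp [hs]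
  have him : (s - 1).im = v := by simp [hs]
  have hN1 : m / 2 ≤ ‖s - 1‖ := by
    have h9 := Complex.abs_re_le_norm (s - 1)
    have h10 := Complex.abs_im_le_norm (s - 1)
    rw [hre, abs_of_pos hδ0] at h9
    rw [him] at h10
    have h11 : min 1 |v| ≤ |v| := min_le_right _ _
    rw [hm]
    linarith
  have hN2 : ‖s - 1‖ ≤ m * (1 + |v|) := by
    have h9 := Complex.norm_le_abs_re_add_abs_im (s - 1)
    rw [hre, him, abs_of_pos hδ0] at h9
    refine h9.trans ?_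
    rw [hm]
    rcases le_total |v| 1 with h10 | h10
    · rw [min_eq_right h10]
      nlinarith
    · rw [min_eq_left h10]
      nlinarith
  have h9 : |Real.log m - Real.log ‖s - 1‖| ≤ 1 * (1 + Real.log (1 + |v|)) := by
    have h10 : Real.log (m / 2) ≤ Real.log ‖s - 1‖ := Real.log_le_log (by positivity) hN1
    have h11 : Real.log ‖s - 1‖ ≤ Real.log (m * (1 + |v|)) := Real.log_le_log hs1' hN2
    rw [Real.log_div hm0.ne' (by norm_num)] at h10
    rw [Real.log_mul hm0.ne' (by positivity)] at h11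
    have h12 : Real.log 2 ≤ 1 := by
      have := Real.log_two_lt_d9
      linarith
    rw [one_mul, abs_le]
    constructor <;> linarith
  have h10 : |(ps (fun _ => 1) y v).re + Real.log m| ≤
      |(ps (fun _ => 1) y v).re - (SP (fun _ => 1) s).re| +
        |(SP (fun _ => 1) s).re - Real.log ‖riemannZeta s‖| +
        |Real.log ‖(s - 1) * riemannZeta s‖| + |Real.log m - Real.log ‖s - 1‖| := by
    have e1 : (ps (fun _ => 1) y v).re + Real.log m =
      ((ps (fun _ => 1) y v).re - (SP (fun _ => 1) s).re) +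
        ((SP (fun _ => 1) s).re - Real.log ‖riemannZeta s‖) +
        Real.log ‖(s - 1) * riemannZeta s‖ + (Real.log m - Real.log ‖s - 1‖) := by
      rw [h8]
      ring
    rw [e1]
    refine (abs_add_le _ _).trans (add_le_add_left ((abs_add_le _ _).trans
      (add_le_add_left (abs_add_le _ _) _)) _)
  have h11 := le_abs_self C₂
  have h12 : 0 ≤ (C₁ + |C₂|) * Real.log (1 + |v|) := by positivity
  nlinarith

/-! ### compact ranges of `v` -/

theorem path_bound {F u : ℂ → ℂ} {t M m : ℝ} (hM : 0 ≤ M) (hm : 0 < m)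
    (hu : ∀ s : ℂ, 1 < s.re → s.re ≤ 4 → Complex.exp (u s) = F s)
    (hcont : ∀ s : ℂ, 1 < s.re → ContinuousAt u s)
    (hF : ∀ s : ℂ, 1 < s.re → DifferentiableAt ℂ F s)
    (hder : ∀ s : ℂ, 1 < s.re → s.re ≤ 4 → s.im = t → ‖deriv F s‖ ≤ M)
    (hlow : ∀ s : ℂ, 1 < s.re → s.re ≤ 4 → s.im = t → m ≤ ‖F s‖) {σ : ℝ} (h1 : 1 < σ)
    (h4 : σ ≤ 4) : ‖u (σ + t * I) - u (4 + t * I)‖ ≤ 3 * M / m := by
  set w : ℝ → ℂ := fun x => u (x + t * I) with hw
  set G : ℝ → ℂ := fun x => F (x + t * I) with hG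
  have hre : ∀ x : ℝ, ((x : ℂ) + t * I).re = x := fun x => by simp
  have him : ∀ x : ℝ, ((x : ℂ) + t * I).im = t := fun x => by simp
  have hGd : ∀ x ∈ Set.Icc σ 4, HasDerivAt G (deriv F (x + t * I)) x := by
    intro x hx
    have h5 : HasDerivAt F (deriv F (x + t * I)) (x + t * I) :=
      (hF _ (by rw [hre]; linarith [hx.1])).hasDerivAt
    have h6 : HasDerivAt (fun z : ℂ => F (z + t * I)) (deriv F (x + t * I)) (x : ℂ) :=
      h5.comp_add_const (x : ℂ) (t * I)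
    exact h6.comp_ofReal
  have hwexp : ∀ x ∈ Set.Icc σ 4, Complex.exp (w x) = G x := fun x hx =>
    hu _ (by rw [hre]; linarith [hx.1]) (by rw [hre]; exact hx.2)
  have hwd : ∀ x ∈ Set.Icc σ 4,
      HasDerivWithinAt w (deriv F (x + t * I) / G x) (Set.Icc σ 4) x := by
    intro x hx
    have hGx : G x ≠ 0 := by
      rw [← hwexp x hx]
      exact Complex.exp_ne_zero _
    have h5 : HasDerivWithinAt (fun y => G y / G x) (deriv F (x + t * I) / G x)
        (Set.Icc σ 4) x := (hGd x hx).hasDerivWithinAt.div_const _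
    have h6 : G x / G x ∈ Complex.slitPlane := by
      rw [div_self hGx]
      exact Complex.one_mem_slitPlane
    have h7 := (h5.clog_real h6).const_add (w x)
    rw [div_self hGx, div_one] at h7
    apply h7.congr_of_eventuallyEq
    · have hwc : ContinuousAt w x := by
        have h8 : ContinuousAt (fun x : ℝ => ((x : ℂ) + t * I)) x := by fun_prop
        exact ContinuousAt.comp (f := fun x : ℝ => ((x : ℂ) + t * I)) (g := u)
          (hcont _ (by rw [hre]; linarith [hx.1])) h8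
      have h9 : ∀ᶠ y in nhds x, ‖w y - w x‖ < Real.pi := by
        have := Metric.continuousAt_iff.1 hwc Real.pi Real.pi_pos
        obtain ⟨δ, hδ, h⟩ := this
        filter_upwards [Metric.ball_mem_nhds x hδ] with y hy
        rw [← dist_eq_norm]
        exact h hy
      filter_upwards [nhdsWithin_le_nhds h9, self_mem_nhdsWithin] with y hy hy2
      have h10 := (Complex.abs_im_le_norm (w y - w x)).trans_lt hy
      rw [abs_lt] at h10
      have h11 : G y / G x = Complex.exp (w y - w x) := by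
        rw [Complex.exp_sub, hwexp y hy2, hwexp x hx]
      rw [h11, Complex.log_exp h10.1 h10.2.le]
      ring
    · rw [div_self hGx, Complex.log_one, add_zero]
  have h12 := Convex.norm_image_sub_le_of_norm_hasDerivWithin_le (f := w) (s := Set.Icc σ 4)
    (C := M / m) (x := 4) (y := σ) hwd (by
      intro x hx
      rw [norm_div]
      apply div_le_div₀ hM _ hm _
      · exact hder _ (by rw [hre]; linarith [hx.1]) (by rw [hre]; exact hx.2) (him x)
      · exact hlow _ (by rw [hre]; linarith [hx.1]) (by rw [hre]; exact hx.2) (him x))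
    (convex_Icc _ _) (Set.right_mem_Icc.2 h4) (Set.left_mem_Icc.2 h4)
  have h13 : ‖σ - 4‖ ≤ 3 := by
    rw [Real.norm_eq_abs, abs_le]
    constructor <;> linarith
  have h14 : ‖w σ - w 4‖ ≤ M / m * 3 :=
    h12.trans (mul_le_mul_of_nonneg_left h13 (by positivity))
  have e1 : w 4 = u (4 + t * I) := by rw [hw]; norm_num
  rw [e1] at h14
  refine h14.trans (le_of_eq (by ring))

/-- generic bound on compact ranges -/
theorem cpt_bound {f : ℕ → ℝ} (hf : ∀ p : ℕ, p.Prime → |f p| ≤ 2) {L F : ℂ → ℂ}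
    (hFd : DifferentiableOn ℂ F {s : ℂ | 1 / 2 < s.re})
    {g : ℂ → ℂ} (hg : ∀ s : ℂ, 1 < s.re → ContinuousAt g s)
    (hlog : ∃ (C : ℝ) (E : ℂ → ℂ), ContinuousOn E {s : ℂ | 1 < s.re} ∧
      ∀ s : ℂ, 1 < s.re → s.re ≤ 4 → ‖E s‖ ≤ C ∧ L s = Complex.exp (SP f s + E s))
    (hFL : ∀ s : ℂ, 1 < s.re → s.re ≤ 4 → F s = Complex.exp (g s) * L s)
    (hlow : ∃ κ A : ℝ, 0 < κ ∧ 0 ≤ A ∧ ∀ s : ℂ, 1 < s.re → s.re ≤ 4 →
      κ * (1 + |s.im|) ^ (-A) ≤ ‖F s‖)
    (hup : ∃ (B : ℝ) (a : ℕ), 0 < B ∧ ∀ s : ℂ, 3 / 4 ≤ s.re → s.re ≤ 5 →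
      ‖F s‖ ≤ B * (1 + |s.im|) ^ a) (V : ℝ) :
    ∃ C : ℝ, ∀ s : ℂ, 1 < s.re → s.re ≤ 4 → |s.im| ≤ V →
      ‖SP f s + g s - g (4 + s.im * I)‖ ≤ C := by
  obtain ⟨C₂, E, hEc, hE⟩ := hlog
  obtain ⟨κ, A, hκ, hA, hlow⟩ := hlow
  obtain ⟨B, a, hB, hup⟩ := hup
  set S4 : ℝ := 2 * ∑' p : Nat.Primes, ((p : ℕ) : ℝ) ^ (-4 : ℝ) with hS4
  set M : ℝ := 4 * B * 2 ^ a * (1 + |V|) ^ a with hM
  set m : ℝ := κ * (1 + |V|) ^ (-A) with hm
  have hM0 : 0 ≤ M := by positivity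
  have hm0 : 0 < m := by positivity
  refine ⟨3 * M / m + S4 + 2 * C₂, fun s h1 h4 hV => ?_⟩
  have hV' : |s.im| ≤ |V| := hV.trans (le_abs_self V)
  have hopen : IsOpen {s : ℂ | 1 < s.re} := isOpen_lt continuous_const Complex.continuous_re
  have hpb := path_bound (F := F) (u := fun s => SP f s + E s + g s) (t := s.im) hM0 hm0
    (by
      intro z hz1 hz4
      rw [Complex.exp_add, ← (hE z hz1 hz4).2, hFL z hz1 hz4, mul_comm])
    (by
      intro z hz
      exact ((continuousAt_SP hf hz).add (hEc.continuousAt (hopen.mem_nhds hz))).add (hg z hz))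
    (by
      intro z hz
      apply hFd.differentiableAt
      apply IsOpen.mem_nhds
      · exact isOpen_lt continuous_const Complex.continuous_re
      · show 1 / 2 < z.re
        linarith)
    (by
      intro z hz1 hz4 hz
      refine (deriv_le hFd hB.le hup hz1.le hz4).trans ?_
      rw [hM, hz]
      apply mul_le_mul_of_nonneg_left _ (by positivity)
      exact pow_le_pow_left₀ (by positivity) (by linarith) a)
    (by
      intro z hz1 hz4 hz
      refine le_trans ?_ (hlow z hz1 hz4)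
      rw [hm, hz]
      apply mul_le_mul_of_nonneg_left _ hκ.le
      exact Real.rpow_le_rpow_of_nonpos (by positivity) (by linarith) (by linarith)) h1 h4
  have e1 : (s.re : ℂ) + s.im * I = s := re_add_im s
  rw [e1] at hpb
  set s₄ : ℂ := 4 + s.im * I with hs₄
  have hs4re : s₄.re = 4 := by simp [hs₄]
  have h5 := norm_SP_le hf (s := s₄) (by rw [hs4re])
  have h6 := (hE s h1 h4).1
  have h7 := (hE s₄ (by rw [hs4re]; norm_num) (by rw [hs4re])).1
  have h8 : SP f s + g s - g s₄ = ((SP f s + E s + g s) - (SP f s₄ + E s₄ + g s₄)) + SP f s₄ +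
      E s₄ - E s := by ring
  rw [h8]
  have h9 := norm_sub_le (((SP f s + E s + g s) - (SP f s₄ + E s₄ + g s₄)) + SP f s₄ + E s₄) (E s)
  have h10 := norm_add_le (((SP f s + E s + g s) - (SP f s₄ + E s₄ + g s₄)) + SP f s₄) (E s₄)
  have h11 := norm_add_le ((SP f s + E s + g s) - (SP f s₄ + E s₄ + g s₄)) (SP f s₄)
  linarith

theorem ps_cpt_of {f : ℕ → ℝ} (hf : ∀ p : ℕ, p.Prime → |f p| ≤ 2) {L : ℂ → ℂ}
    (hFd : DifferentiableOn ℂ L {s : ℂ | 1 / 2 < s.re})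
    (hlog : ∃ (C : ℝ) (E : ℂ → ℂ), ContinuousOn E {s : ℂ | 1 < s.re} ∧
      ∀ s : ℂ, 1 < s.re → s.re ≤ 4 → ‖E s‖ ≤ C ∧ L s = Complex.exp (SP f s + E s))
    (hlow : ∃ κ A : ℝ, 0 < κ ∧ 0 ≤ A ∧ ∀ s : ℂ, 1 < s.re → s.re ≤ 4 →
      κ * (1 + |s.im|) ^ (-A) ≤ ‖L s‖)
    (hup : ∃ (B : ℝ) (a : ℕ), 0 < B ∧ ∀ s : ℂ, 3 / 4 ≤ s.re → s.re ≤ 5 →
      ‖L s‖ ≤ B * (1 + |s.im|) ^ a) (V : ℝ) :
    ∃ C : ℝ, ∀ y v : ℝ, 2 ≤ y → |v| ≤ V → ‖ps f y v‖ ≤ C := by
  obtain ⟨C₁, _, hC₁⟩ := trunc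
  obtain ⟨C, hC⟩ := cpt_bound hf hFd (g := fun _ => 0) (fun _ _ => continuousAt_const) hlog
    (fun s _ _ => by simp) hlow hup V
  refine ⟨C₁ + C, fun y v hy hv => ?_⟩
  obtain ⟨h1, h4⟩ := sigma_mem hy
  have h5 := hC (⟨1 + 1 / Real.log y, v⟩ : ℂ) h1 h4 hv
  simp only [add_zero, sub_zero] at h5
  have h6 := hC₁ f hf y v hy
  have h7 := norm_add_le (ps f y v - SP f (⟨1 + 1 / Real.log y, v⟩ : ℂ))
    (SP f (⟨1 + 1 / Real.log y, v⟩ : ℂ))
  rw [sub_add_cancel] at h7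
  linarith

theorem ps_x4_cpt (V : ℝ) : ∃ C : ℝ, ∀ y v : ℝ, 2 ≤ y → |v| ≤ V → ‖ps x4 y v‖ ≤ C := by
  apply ps_cpt_of (fun p _ => abs_x4_le_two p) (L := LX)
  · exact LX_diff.mono fun s hs => by
      have : 1 / 2 < s.re := hs
      show 0 < s.re
      linarith
  · exact log_x4'
  · obtain ⟨κ, A, hκ, hA, h⟩ := LX_ge
    exact ⟨κ, A, hκ, hA, fun s h1 h4 => h s h1.le h4⟩
  · refine ⟨8, 1, by norm_num, fun s h1 h4 => ?_⟩
    rw [pow_one]
    refine (LX_le (by linarith)).trans ?_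
    rw [div_le_iff₀ (by linarith)]
    have h5 := norm_le_re_im (s := s) (c := 5) (by linarith) (by norm_num) h4
    have h6 := abs_nonneg s.im
    nlinarith

theorem ps_hr1_cpt (V : ℝ) : ∃ C : ℝ, ∀ y v : ℝ, 2 ≤ y → |v| ≤ V → ‖ps (hr 1) y v‖ ≤ C := by
  apply ps_cpt_of (fun p hp => abs_hr1_le p hp) (L := HL 1) (HL_diff le_rfl)
  · exact log_hr1'
  · obtain ⟨κ, A, hκ, hA, h⟩ := HL1_ge
    exact ⟨κ, A, hκ, hA, fun s h1 h4 => h s h1.le h4⟩
  · exact HL1_up

/-- `(s - 1) ζ(s)`, with the correct value at `1` -/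
noncomputable def Z1 : ℂ → ℂ := Function.update (fun s => (s - 1) * riemannZeta s) 1 1

theorem Z1_diff : Differentiable ℂ Z1 := by
  have h := DirichletCharacter.differentiable_LFunctionTrivChar₁ 1
  have e : DirichletCharacter.LFunctionTrivChar₁ 1 = Z1 := by
    unfold DirichletCharacter.LFunctionTrivChar₁ Z1
    simp [DirichletCharacter.LFunctionTrivChar]
  rwa [e] at h

theorem Z1_of_ne {s : ℂ} (hs : s ≠ 1) : Z1 s = (s - 1) * riemannZeta s :=
  Function.update_of_ne hs _ _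

theorem ps_one_im_cpt (V : ℝ) : ∃ C : ℝ, ∀ y v : ℝ, 2 ≤ y → |v| ≤ V →
    |(ps (fun _ => 1) y v).im| ≤ C := by
  have hne : ∀ s : ℂ, 1 < s.re → s ≠ 1 := by
    rintro s h rfl
    rw [one_re] at h
    exact lt_irrefl _ h
  obtain ⟨C₁, _, hC₁⟩ := trunc
  obtain ⟨κ, A, hκ, hA, hlow⟩ := zeta_ge
  obtain ⟨B, hup⟩ := zeta_le
  obtain ⟨C, hC⟩ := cpt_bound (f := fun _ => 1) (fun _ _ => by norm_num) (L := riemannZeta)
    (F := Z1) Z1_diff.differentiableOn (g := fun s => Complex.log (s - 1)) (by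
      intro s hs
      apply ContinuousAt.clog (by fun_prop)
      left
      rw [sub_re, one_re]
      linarith)
    log_zeta' (by
      intro s h1 _
      rw [Z1_of_ne (hne s h1), Complex.exp_log (sub_ne_zero.2 (hne s h1))])
    ⟨κ, A, hκ, hA, fun s h1 h4 => by
      rw [Z1_of_ne (hne s h1)]
      exact hlow s h1.le h4 (hne s h1)⟩
    ⟨|B| + 1, 2, by positivity, fun s h1 h4 => by
      by_cases hs : s = 1
      · subst hs
        rw [Z1, Function.update_self, norm_one, one_im, abs_zero]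
        have := abs_nonneg B
        norm_num
      · rw [Z1_of_ne hs]
        refine (hup s (by linarith) (by linarith)).trans ?_
        exact mul_le_mul_of_nonneg_right (by linarith [le_abs_self B]) (by positivity)⟩ V
  refine ⟨C₁ + C + 2 * Real.pi, fun y v hy hv => ?_⟩
  obtain ⟨h1, h4⟩ := sigma_mem hy
  set s : ℂ := ⟨1 + 1 / Real.log y, v⟩ with hs
  have h5 := (Complex.abs_im_le_norm _).trans (hC s h1 h4 hv)
  have h6 := (Complex.abs_im_le_norm _).trans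
    (hC₁ (fun _ => 1) (fun _ _ => by norm_num) y v hy)
  rw [sub_im] at h6
  rw [sub_im, add_im] at h5
  have h7 : |(Complex.log (s - 1)).im| ≤ Real.pi := by
    rw [Complex.log_im]
    exact Complex.abs_arg_le_pi _
  have h8 : |(Complex.log (4 + s.im * I - 1)).im| ≤ Real.pi := by
    rw [Complex.log_im]
    exact Complex.abs_arg_le_pi _
  have h9 : (ps (fun _ => 1) y v).im = ((ps (fun _ => 1) y v).im - (SP (fun _ => 1) s).im) +
      ((SP (fun _ => 1) s).im + (Complex.log (s - 1)).im - (Complex.log (4 + s.im * I - 1)).im) -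
      (Complex.log (s - 1)).im + (Complex.log (4 + s.im * I - 1)).im := by ring
  rw [h9]
  rw [abs_le] at h5 h6 h7 h8 ⊢
  constructor <;> linarith [h5.1, h5.2, h6.1, h6.2, h7.1, h7.2, h8.1, h8.2]

end Pool.Agent.CZ.Inp
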