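import Mathlib
import Pool.Agent.CZ.Defs
import Pool.Agent.CZ.InpARI
import Pool.Agent.CZ.InpCHB
import Pool.Agent.CZ.InpPRS

/-!
# Critical zeros (MP_553913_nt): prime sums near `Re s = 1` (PS1, PS2, PS3, Mertens)
-/

set_option autoImplicit false

open Complex Finset MeasureTheory

namespace Pool.Agent.CZ

open Pool.Agent.H5 (c bd)
open Pool.Agent.CZ.Inp

private lemma ps_one_nat (f : ℕ → ℝ) (t : ℝ) : ps f ((1 : ℕ) : ℝ) t = 0 := by
  unfold ps
  apply Finset.sum_eq_zero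
  intro p hp
  rw [Finset.mem_filter, Finset.mem_Icc, Nat.floor_natCast] at hp
  have := hp.2.two_le
  omega

private lemma primesIoc_sum (f : ℕ → ℝ) {y P : ℕ} (hy : 1 ≤ y) (hyP : y ≤ P) (t : ℝ) :
    ∑ p ∈ primesIoc y P, (f p : ℂ) * npow p t =
      ps f P t - ps f y t - (if y < 2 ∧ 2 ≤ P then (f 2 : ℂ) * npow 2 t else 0) := by
  have h1 : ∀ N : ℕ, ps f N t = ∑ p ∈ (Icc 1 N).filter Nat.Prime, (f p : ℂ) * npow p t := by
    intro N
    unfold ps npow
    rw [Nat.floor_natCast]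
  have h2 : (Icc 1 P).filter Nat.Prime =
      (Icc 1 y).filter Nat.Prime ∪ (Ioc y P).filter Nat.Prime := by
    ext p
    simp only [Finset.mem_filter, Finset.mem_union, Finset.mem_Icc, Finset.mem_Ioc]
    constructor
    · rintro ⟨⟨h3, h4⟩, h5⟩
      by_cases h6 : p ≤ y
      · exact Or.inl ⟨⟨h3, h6⟩, h5⟩
      · exact Or.inr ⟨⟨by omega, h4⟩, h5⟩
    · rintro (⟨⟨h3, h4⟩, h5⟩ | ⟨⟨h3, h4⟩, h5⟩)
      · exact ⟨⟨h3, by omega⟩, h5⟩
      · exact ⟨⟨by omega, h4⟩, h5⟩
  have h3 : Disjoint ((Icc 1 y).filter Nat.Prime) ((Ioc y P).filter Nat.Prime) := by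
    rw [Finset.disjoint_left]
    intro p hp hp'
    rw [Finset.mem_filter, Finset.mem_Icc] at hp
    rw [Finset.mem_filter, Finset.mem_Ioc] at hp'
    omega
  have h4 : ∑ p ∈ (Ioc y P).filter Nat.Prime, (f p : ℂ) * npow p t =
      ∑ p ∈ primesIoc y P, (f p : ℂ) * npow p t +
        (if y < 2 ∧ 2 ≤ P then (f 2 : ℂ) * npow 2 t else 0) := by
    have h5 : primesIoc y P = ((Ioc y P).filter Nat.Prime).filter (fun p => p ≠ 2) := by
      unfold primesIoc
      rw [Finset.filter_filter]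
    have h6 := Finset.sum_filter_add_sum_filter_not ((Ioc y P).filter Nat.Prime)
      (fun p => p ≠ 2) (fun p => (f p : ℂ) * npow p t)
    rw [h5, ← h6]
    congr 1
    by_cases h7 : y < 2 ∧ 2 ≤ P
    · rw [if_pos h7]
      have : ((Ioc y P).filter Nat.Prime).filter (fun p => ¬ p ≠ 2) = {2} := by
        ext p
        simp only [Finset.mem_filter, Finset.mem_Ioc, Finset.mem_singleton, not_not]
        constructor
        · rintro ⟨_, h⟩; exact h
        · rintro rfl; exact ⟨⟨h7, Nat.prime_two⟩, rfl⟩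
      rw [this, Finset.sum_singleton]
    · rw [if_neg h7]
      apply Finset.sum_eq_zero
      intro p hp
      simp only [Finset.mem_filter, Finset.mem_Ioc, not_not] at hp
      exact absurd ⟨by omega, by omega⟩ h7
  rw [h1, h1, h2, Finset.sum_union h3, h4]
  ring

private lemma npow_re {p : ℕ} (hp : 0 < p) (t : ℝ) :
    (npow p t).re = Real.cos (t * Real.log p) / p := by
  have hp' : (0 : ℝ) < p := by exact_mod_cast hp
  unfold npow
  rw [Complex.cpow_def_of_ne_zero (by exact_mod_cast hp.ne')]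
  have h1 : Complex.log (p : ℂ) = ((Real.log p : ℝ) : ℂ) := by
    rw [Complex.natCast_log]
  rw [h1]
  have h2 : ((Real.log p : ℝ) : ℂ) * -(1 + (t : ℂ) * I) =
      ((-Real.log p : ℝ) : ℂ) + ((-(t * Real.log p) : ℝ) : ℂ) * I := by
    push_cast; ring
  rw [h2, Complex.exp_add, ← Complex.ofReal_exp, Complex.re_ofReal_mul, Complex.exp_ofReal_mul_I_re,
    Real.cos_neg, Real.exp_neg, Real.exp_log hp']
  field_simp

private lemma norm_npow_le {p : ℕ} (hp : 0 < p) (t : ℝ) : ‖npow p t‖ ≤ 1 := by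
  have hp' : (1 : ℝ) ≤ p := by exact_mod_cast hp
  unfold npow
  rw [Complex.norm_natCast_cpow_of_pos hp]
  have h1 : (-(1 + (t : ℂ) * I)).re = -1 := by simp
  rw [h1, Real.rpow_neg_one]
  exact inv_le_one_of_one_le₀ hp'

private lemma log_one_le {x : ℝ} : 0 ≤ 1 + Real.log (1 + |x|) := by
  have := Real.log_nonneg (show (1 : ℝ) ≤ 1 + |x| by linarith [abs_nonneg x])
  linarith

private lemma log12 (x : ℝ) : 1 + Real.log (1 + |x|) ≤ 1 + Real.log (2 + |x|) := by
  have := Real.log_le_log (show (0 : ℝ) < 1 + |x| by linarith [abs_nonneg x])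
    (show 1 + |x| ≤ 2 + |x| by linarith)
  linarith

private lemma one_le_L (x : ℝ) : 1 ≤ 1 + Real.log (2 + |x|) := by
  have := Real.log_nonneg (show (1 : ℝ) ≤ 2 + |x| by linarith [abs_nonneg x])
  linarith

/-- bounded case: passage from `ps` to `primesIoc` for real parts -/
private lemma re_bound (f : ℕ → ℝ) (hf2 : |f 2| ≤ 1)
    (h : ∃ C : ℝ, ∀ y v : ℝ, 2 ≤ y → |(ps f y v).re| ≤ C * (1 + Real.log (1 + |v|))) :
    ∃ C : ℝ, ∀ (y P : ℕ) (t : ℝ), 1 ≤ y → y ≤ P →
      |(∑ p ∈ primesIoc y P, (f p : ℂ) * npow p t).re| ≤ C * (1 + Real.log (2 + |t|)) := by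
  obtain ⟨C, hC⟩ := h
  have hC0 : 0 ≤ C := by
    have := hC 2 0 le_rfl
    simp only [abs_zero, add_zero, Real.log_one, mul_one] at this
    exact le_trans (abs_nonneg _) this
  refine ⟨2 * C + 1, fun y P t hy hyP => ?_⟩
  have hb : ∀ N : ℕ, 1 ≤ N → |(ps f N t).re| ≤ C * (1 + Real.log (2 + |t|)) := by
    intro N hN
    rcases Nat.lt_or_ge N 2 with h2 | h2
    · have : N = 1 := by omega
      rw [this, ps_one_nat]
      simp only [Complex.zero_re, abs_zero]
      exact mul_nonneg hC0 (le_trans zero_le_one (one_le_L t))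
    · exact (hC N t (by exact_mod_cast h2)).trans (mul_le_mul_of_nonneg_left (log12 t) hC0)
  rw [primesIoc_sum f hy hyP t, Complex.sub_re, Complex.sub_re]
  have h3 : |(if y < 2 ∧ 2 ≤ P then (f 2 : ℂ) * npow 2 t else 0).re| ≤ 1 := by
    split_ifs with h4
    · refine (Complex.abs_re_le_norm _).trans ?_
      rw [norm_mul, Complex.norm_real, Real.norm_eq_abs]
      exact mul_le_one₀ hf2 (norm_nonneg _) (norm_npow_le (by norm_num) t)
    · simp
  have h5 := hb P (by omega)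
  have h6 := hb y hy
  have h7 := one_le_L t
  calc |(ps f P t).re - (ps f y t).re - (if y < 2 ∧ 2 ≤ P then (f 2 : ℂ) * npow 2 t else 0).re|
      ≤ |(ps f P t).re| + |(ps f y t).re| +
        |(if y < 2 ∧ 2 ≤ P then (f 2 : ℂ) * npow 2 t else 0).re| := by
        refine (abs_sub _ _).trans ?_
        gcongr
        exact abs_sub _ _
    _ ≤ C * (1 + Real.log (2 + |t|)) + C * (1 + Real.log (2 + |t|)) + 1 := by
        gcongr
    _ ≤ (2 * C + 1) * (1 + Real.log (2 + |t|)) := by linarith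

private lemma x4_two : x4 2 = 0 := by
  unfold x4
  have : (ZMod.χ₄ ((2 : ℕ) : ZMod 4) : ℤ) = 0 := by decide
  rw [this]; simp

private lemma hr_two (j : ℕ) : hr j 2 = 0 := by
  have := hr_two_pow j 1 le_rfl
  simpa using this

private lemma mem_primesIoc {y P p : ℕ} (hp : p ∈ primesIoc y P) :
    y < p ∧ p ≤ P ∧ p.Prime ∧ p ≠ 2 := by
  unfold primesIoc at hp
  rw [Finset.mem_filter, Finset.mem_Ioc] at hp
  exact ⟨hp.1.1, hp.1.2, hp.2.1, hp.2.2⟩

private lemma lam2_eq {p : ℕ} (hp : p.Prime) (h2 : p ≠ 2) : lam2 p = 1 + x4 p + hr 1 p := by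
  rw [← lam_sq hp h2]
  unfold lam2 lam
  rw [div_pow, Real.sq_sqrt (Nat.cast_nonneg p)]

private lemma re_sum (f : ℕ → ℝ) (y P : ℕ) (t : ℝ) :
    (∑ p ∈ primesIoc y P, (f p : ℂ) * npow p t).re =
      ∑ p ∈ primesIoc y P, f p * Real.cos (t * Real.log p) / p := by
  rw [Complex.re_sum]
  refine Finset.sum_congr rfl fun p hp => ?_
  have h := (mem_primesIoc hp).2.2.1
  rw [Complex.re_ofReal_mul, npow_re h.pos, mul_div_assoc]

theorem PS1 : ∃ C : ℝ, ∀ (y P : ℕ) (t : ℝ), 1 ≤ y → y ≤ P →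
    |∑ p ∈ primesIoc y P, (lam2 p - 1) * Real.cos (t * Real.log p) / p| ≤
      C * (1 + Real.log (2 + |t|)) := by
  obtain ⟨C₁, h₁⟩ := re_bound x4 (by rw [x4_two]; simp) ps_x4
  obtain ⟨C₂, h₂⟩ := re_bound (hr 1) (by rw [hr_two]; simp) ps_hr1
  refine ⟨C₁ + C₂, fun y P t hy hyP => ?_⟩
  have h3 : ∑ p ∈ primesIoc y P, (lam2 p - 1) * Real.cos (t * Real.log p) / p =
      (∑ p ∈ primesIoc y P, (x4 p : ℂ) * npow p t).re +
        (∑ p ∈ primesIoc y P, (hr 1 p : ℂ) * npow p t).re := by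
    rw [re_sum, re_sum, ← Finset.sum_add_distrib]
    refine Finset.sum_congr rfl fun p hp => ?_
    obtain ⟨_, _, h4, h5⟩ := mem_primesIoc hp
    rw [lam2_eq h4 h5]; ring
  rw [h3]
  calc _ ≤ _ := abs_add_le _ _
    _ ≤ _ := add_le_add (h₁ y P t hy hyP) (h₂ y P t hy hyP)
    _ = _ := by ring

/-- the elementary comparison of the two main terms -/
private lemma phi_cmp {L t : ℝ} (hL : Real.log 2 ≤ L) :
    |Real.log ((1 + L) / (1 + |t| * L)) + Real.log (1 / L + min 1 |t|)| ≤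
      2 * (1 + Real.log (2 + |t|)) := by
  have hl2 : 0.6931471803 < Real.log 2 := Real.log_two_gt_d9
  have hL0 : 0 < L := by linarith
  have ht := abs_nonneg t
  have hm0 : 0 ≤ min 1 |t| := le_min zero_le_one ht
  have h1 : 0 < 1 + |t| * L := by positivity
  have h2 : 0 < 1 / L + min 1 |t| := by positivity
  rw [← Real.log_mul (by positivity) h2.ne']
  have h3 : (1 + L) / (1 + |t| * L) * (1 / L + min 1 |t|) =
      ((1 + L) / L) * ((1 + min 1 |t| * L) / (1 + |t| * L)) := by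
    field_simp
  have h4 : 1 ≤ (1 + L) / L := by rw [le_div_iff₀ hL0]; linarith
  have h5 : (1 + L) / L ≤ 5 / 2 := by rw [div_le_iff₀ hL0]; linarith
  have h6 : (1 + min 1 |t| * L) / (1 + |t| * L) ≤ 1 := by
    rw [div_le_one h1]
    have := mul_le_mul_of_nonneg_right (min_le_right 1 |t|) hL0.le
    linarith
  have h7 : 1 / (2 + |t|) ≤ (1 + min 1 |t| * L) / (1 + |t| * L) := by
    rw [div_le_div_iff₀ (by positivity) h1]
    rcases le_total |t| 1 with h | h
    · rw [min_eq_right h]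
      nlinarith [mul_nonneg ht hL0.le]
    · rw [min_eq_left h]
      nlinarith [mul_nonneg ht hL0.le]
  rw [h3]
  have h8 : 1 / (2 + |t|) ≤ ((1 + L) / L) * ((1 + min 1 |t| * L) / (1 + |t| * L)) := by
    calc 1 / (2 + |t|) ≤ (1 + min 1 |t| * L) / (1 + |t| * L) := h7
      _ = 1 * ((1 + min 1 |t| * L) / (1 + |t| * L)) := (one_mul _).symm
      _ ≤ _ := by gcongr
  have h9 : ((1 + L) / L) * ((1 + min 1 |t| * L) / (1 + |t| * L)) ≤ 5 / 2 := by
    calc ((1 + L) / L) * ((1 + min 1 |t| * L) / (1 + |t| * L)) ≤ 5 / 2 * 1 :=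
          mul_le_mul h5 h6 (le_trans (by positivity) h7) (by norm_num)
      _ = 5 / 2 := by norm_num
  have h10 : 0 < 1 / (2 + |t|) := by positivity
  rw [abs_le]
  constructor
  · have := Real.log_le_log h10 h8
    rw [one_div, Real.log_inv] at this
    have h11 := one_le_L t
    linarith
  · have := Real.log_le_log (lt_of_lt_of_le h10 h8) h9
    have h12 : Real.log (5 / 2) ≤ 2 := by
      have := Real.log_le_sub_one_of_pos (show (0 : ℝ) < 5 / 2 by norm_num)
      linarith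
    have h11 := one_le_L t
    linarith

private lemma one_bound : ∃ C : ℝ, ∀ (y P : ℕ) (t : ℝ), 1 ≤ y → y ≤ P →
    |∑ p ∈ primesIoc y P, Real.cos (t * Real.log p) / p - Real.log (rho y P t)| ≤
      C * (1 + Real.log (2 + |t|)) := by
  obtain ⟨C, hC⟩ := ps_one
  have hC0 : 0 ≤ C := by
    have := hC 2 0 le_rfl
    simp only [abs_zero, add_zero, Real.log_one, mul_one] at this
    exact le_trans (abs_nonneg _) this
  refine ⟨2 * (C + 2) + 1, fun y P t hy hyP => ?_⟩
  have hb : ∀ N : ℕ, 1 ≤ N → |(ps (fun _ => 1) N t).re -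
      Real.log ((1 + Real.log N) / (1 + |t| * Real.log N))| ≤ (C + 2) * (1 + Real.log (2 + |t|)) := by
    intro N hN
    have hL := one_le_L t
    rcases Nat.lt_or_ge N 2 with h2 | h2
    · have : N = 1 := by omega
      rw [this, ps_one_nat]
      simp only [Nat.cast_one, Real.log_one, mul_zero, add_zero, div_one, Complex.zero_re, sub_zero,
        abs_zero]
      positivity
    · have h3 := hC N t (by exact_mod_cast h2)
      have h4 : Real.log 2 ≤ Real.log N := Real.log_le_log (by norm_num) (by exact_mod_cast h2)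
      have h5 := phi_cmp (t := t) h4
      have h6 := log12 t
      have h7 : (ps (fun _ => 1) N t).re - Real.log ((1 + Real.log N) / (1 + |t| * Real.log N)) =
          ((ps (fun _ => 1) N t).re + Real.log (1 / Real.log N + min 1 |t|)) -
          (Real.log ((1 + Real.log N) / (1 + |t| * Real.log N)) +
            Real.log (1 / Real.log N + min 1 |t|)) := by ring
      rw [h7]
      calc _ ≤ _ := abs_sub _ _
        _ ≤ C * (1 + Real.log (1 + |t|)) + 2 * (1 + Real.log (2 + |t|)) := add_le_add h3 h5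
        _ ≤ C * (1 + Real.log (2 + |t|)) + 2 * (1 + Real.log (2 + |t|)) := by gcongr
        _ = _ := by ring
  have h1 : ∑ p ∈ primesIoc y P, Real.cos (t * Real.log p) / p =
      (∑ p ∈ primesIoc y P, (((fun _ => 1) p : ℝ) : ℂ) * npow p t).re := by
    rw [re_sum]; simp
  rw [h1, primesIoc_sum _ hy hyP t, Complex.sub_re, Complex.sub_re]
  have h3 : |(if y < 2 ∧ 2 ≤ P then (((fun _ => 1 : ℕ → ℝ) 2 : ℝ) : ℂ) * npow 2 t else 0).re| ≤ 1 := by
    split_ifs with h4
    · refine (Complex.abs_re_le_norm _).trans ?_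
      rw [norm_mul, Complex.norm_real, Real.norm_eq_abs]
      simp only [abs_one, one_mul]
      exact norm_npow_le (by norm_num) t
    · simp
  have hy1 : (1 : ℝ) ≤ y := by exact_mod_cast hy
  have hP1 : (1 : ℝ) ≤ P := by exact_mod_cast (by omega : 1 ≤ P)
  have hly := Real.log_nonneg hy1
  have hlP := Real.log_nonneg hP1
  have ht := abs_nonneg t
  have h4 : Real.log (rho y P t) = Real.log ((1 + Real.log P) / (1 + |t| * Real.log P)) -
      Real.log ((1 + Real.log y) / (1 + |t| * Real.log y)) := by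
    rw [← Real.log_div (by positivity) (by positivity)]
    congr 1
    unfold rho
    field_simp
  have h5 := hb P (by omega)
  have h6 := hb y hy
  have h7 := one_le_L t
  set a := (ps (fun _ => 1) P t).re
  set b := (ps (fun _ => 1) y t).re
  set e := (if y < 2 ∧ 2 ≤ P then (((fun _ => 1 : ℕ → ℝ) 2 : ℝ) : ℂ) * npow 2 t else 0).re
  rw [h4]
  have h8 : a - b - e - (Real.log ((1 + Real.log P) / (1 + |t| * Real.log P)) -
      Real.log ((1 + Real.log y) / (1 + |t| * Real.log y))) =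
      (a - Real.log ((1 + Real.log P) / (1 + |t| * Real.log P))) -
      (b - Real.log ((1 + Real.log y) / (1 + |t| * Real.log y))) - e := by ring
  rw [h8]
  calc _ ≤ |(a - Real.log ((1 + Real.log P) / (1 + |t| * Real.log P))) -
      (b - Real.log ((1 + Real.log y) / (1 + |t| * Real.log y)))| + |e| := abs_sub _ _
    _ ≤ |a - Real.log ((1 + Real.log P) / (1 + |t| * Real.log P))| +
      |b - Real.log ((1 + Real.log y) / (1 + |t| * Real.log y))| + |e| := by
        gcongr; exact abs_sub _ _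
    _ ≤ (C + 2) * (1 + Real.log (2 + |t|)) + (C + 2) * (1 + Real.log (2 + |t|)) + 1 := by gcongr
    _ ≤ _ := by linarith

theorem PS2 : ∃ C : ℝ, ∀ (y P : ℕ) (t : ℝ), 1 ≤ y → y ≤ P →
    |∑ p ∈ primesIoc y P, lam2 p * Real.cos (t * Real.log p) / p - Real.log (rho y P t)| ≤
      C * (1 + Real.log (2 + |t|)) := by
  obtain ⟨C₁, h₁⟩ := one_bound
  obtain ⟨C₂, h₂⟩ := PS1
  refine ⟨C₁ + C₂, fun y P t hy hyP => ?_⟩
  have h3 : ∑ p ∈ primesIoc y P, lam2 p * Real.cos (t * Real.log p) / p - Real.log (rho y P t) =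
      (∑ p ∈ primesIoc y P, Real.cos (t * Real.log p) / p - Real.log (rho y P t)) +
        ∑ p ∈ primesIoc y P, (lam2 p - 1) * Real.cos (t * Real.log p) / p := by
    rw [sub_add_eq_add_sub, ← Finset.sum_add_distrib]
    congr 1
    refine Finset.sum_congr rfl fun p _ => ?_
    ring
  rw [h3]
  calc _ ≤ _ := abs_add_le _ _
    _ ≤ _ := add_le_add (h₁ y P t hy hyP) (h₂ y P t hy hyP)
    _ = _ := by ring

theorem sum_inv_prime_le : ∃ C : ℝ, ∀ y P : ℕ, 1 ≤ y → y ≤ P →
    ∑ p ∈ primesIoc y P, (1 : ℝ) / p ≤ Real.log (rho y P 0) + C := by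
  obtain ⟨C₁, h₁⟩ := one_bound
  refine ⟨C₁ * (1 + Real.log (2 + |0|)), fun y P hy hyP => ?_⟩
  have h := (abs_le.1 (h₁ y P 0 hy hyP)).2
  simp only [zero_mul, Real.cos_zero] at h
  linarith

theorem sum_log_div_le' : ∃ C : ℝ, ∀ y : ℕ, 1 ≤ y →
    ∑ p ∈ primesIoc 0 y, Real.log p / p ≤ Real.log y + C := by
  obtain ⟨C, hC⟩ := chb_log
  refine ⟨C, fun y hy => le_trans ?_ (hC y (by exact_mod_cast hy))⟩
  rw [Nat.floor_natCast]
  refine Finset.sum_le_sum_of_subset_of_nonneg ?_ ?_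
  · intro p hp
    obtain ⟨h1, h2, h3, _⟩ := mem_primesIoc hp
    rw [Finset.mem_filter, Finset.mem_Icc]
    exact ⟨⟨h1, h2⟩, h3⟩
  · intro p hp _
    rw [Finset.mem_filter, Finset.mem_Icc] at hp
    have : (1 : ℝ) ≤ p := by exact_mod_cast hp.1.1
    exact div_nonneg (Real.log_nonneg this) (by linarith)

private lemma norm_bound_cpt (f : ℕ → ℝ) (hf2 : |f 2| ≤ 1) {T₁ T₂ : ℝ}
    (h : ∃ C : ℝ, ∀ y v : ℝ, 2 ≤ y → T₁ ≤ v → v ≤ T₂ → ‖ps f y v‖ ≤ C) :
    ∃ C : ℝ, ∀ (y P : ℕ) (t : ℝ), 1 ≤ y → y ≤ P → T₁ ≤ t → t ≤ T₂ →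
      ‖∑ p ∈ primesIoc y P, (f p : ℂ) * npow p t‖ ≤ C := by
  obtain ⟨C, hC⟩ := h
  refine ⟨2 * |C| + 1, fun y P t hy hyP h1 h2 => ?_⟩
  have hb : ∀ N : ℕ, 1 ≤ N → ‖ps f N t‖ ≤ |C| := by
    intro N hN
    rcases Nat.lt_or_ge N 2 with h2' | h2'
    · have : N = 1 := by omega
      rw [this, ps_one_nat]; simp
    · exact (hC N t (by exact_mod_cast h2') h1 h2).trans (le_abs_self C)
  rw [primesIoc_sum f hy hyP t]
  have h3 : ‖(if y < 2 ∧ 2 ≤ P then (f 2 : ℂ) * npow 2 t else 0)‖ ≤ 1 := by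
    split_ifs with h4
    · rw [norm_mul, Complex.norm_real, Real.norm_eq_abs]
      exact mul_le_one₀ hf2 (norm_nonneg _) (norm_npow_le (by norm_num) t)
    · simp
  calc _ ≤ ‖ps f P t - ps f y t‖ + ‖(if y < 2 ∧ 2 ≤ P then (f 2 : ℂ) * npow 2 t else 0)‖ :=
        norm_sub_le _ _
    _ ≤ ‖ps f P t‖ + ‖ps f y t‖ + ‖(if y < 2 ∧ 2 ≤ P then (f 2 : ℂ) * npow 2 t else 0)‖ := by
        gcongr; exact norm_sub_le _ _
    _ ≤ |C| + |C| + 1 := by
        have := hb P (by omega)
        have := hb y hy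
        gcongr
    _ = _ := by ring

theorem PS3 (T₁ T₂ : ℝ) (hT : 0 < T₁) : ∃ C : ℝ, ∀ (y P : ℕ) (t : ℝ), 1 ≤ y → y ≤ P →
    T₁ ≤ t → t ≤ T₂ → ‖∑ p ∈ primesIoc y P, npow p t‖ ≤ C ∧
      ‖∑ p ∈ primesIoc y P, ((lam2 p : ℝ) : ℂ) * npow p t‖ ≤ C := by
  obtain ⟨C₁, h₁⟩ := norm_bound_cpt x4 (by rw [x4_two]; simp) (T₁ := T₁) (T₂ := T₂) (by
    obtain ⟨C, hC⟩ := ps_x4_cpt T₂
    exact ⟨C, fun y v hy h1 h2 => hC y v hy (by rw [abs_of_nonneg (by linarith)]; exact h2)⟩)
  obtain ⟨C₂, h₂⟩ := norm_bound_cpt (hr 1) (by rw [hr_two]; simp) (T₁ := T₁) (T₂ := T₂) (by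
    obtain ⟨C, hC⟩ := ps_hr1_cpt T₂
    exact ⟨C, fun y v hy h1 h2 => hC y v hy (by rw [abs_of_nonneg (by linarith)]; exact h2)⟩)
  obtain ⟨C₃, h₃⟩ := norm_bound_cpt (fun _ => 1) (by simp) (T₁ := T₁) (T₂ := T₂) (by
    obtain ⟨C, hC⟩ := ps_one_im_cpt T₂
    obtain ⟨C', hC'⟩ := ps_one
    have hC0 : 0 ≤ C' := by
      have := hC' 2 0 le_rfl
      simp only [abs_zero, add_zero, Real.log_one, mul_one] at this
      exact le_trans (abs_nonneg _) this
    refine ⟨C' * (1 + Real.log (1 + T₂)) + (|Real.log (min 1 T₁)| + 2) + C,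
      fun y v hy h1 h2 => ?_⟩
    have hv : |v| = v := abs_of_nonneg (by linarith)
    have e1 := hC y v hy (by rw [hv]; exact h2)
    have e2 := hC' y v hy
    rw [hv] at e2
    have hl2 : 0.6931471803 < Real.log 2 := Real.log_two_gt_d9
    have hly : Real.log 2 ≤ Real.log y := Real.log_le_log (by norm_num) hy
    have hinv : 1 / Real.log y ≤ 2 := by
      rw [div_le_iff₀ (by linarith)]; linarith
    have hinv0 : 0 < 1 / Real.log y := by
      apply div_pos one_pos; linarith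
    have e3 : |Real.log (1 / Real.log y + min 1 v)| ≤ |Real.log (min 1 T₁)| + 2 := by
      have hmin : min 1 T₁ ≤ min 1 v := min_le_min le_rfl h1
      have hpos : 0 < min 1 T₁ := lt_min one_pos hT
      have hlow : min 1 T₁ ≤ 1 / Real.log y + min 1 v := by linarith
      have hup : 1 / Real.log y + min 1 v ≤ 3 := by
        have := min_le_left 1 v; linarith
      rw [abs_le]
      constructor
      · have := Real.log_le_log hpos hlow
        have := neg_abs_le (Real.log (min 1 T₁))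
        linarith
      · have h5 := Real.log_le_log (lt_of_lt_of_le hpos hlow) hup
        have h6 : Real.log 3 ≤ 2 := by
          have := Real.log_le_sub_one_of_pos (show (0 : ℝ) < 3 by norm_num)
          linarith
        have := abs_nonneg (Real.log (min 1 T₁))
        linarith
    have e4 : C' * (1 + Real.log (1 + v)) ≤ C' * (1 + Real.log (1 + T₂)) := by
      gcongr
      · linarith
    have e5 : |(ps (fun _ => 1) y v).re| ≤ C' * (1 + Real.log (1 + T₂)) +
        (|Real.log (min 1 T₁)| + 2) := by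
      have : (ps (fun _ => 1) y v).re = ((ps (fun _ => 1) y v).re +
          Real.log (1 / Real.log y + min 1 v)) - Real.log (1 / Real.log y + min 1 v) := by ring
      rw [this]
      calc _ ≤ _ := abs_sub _ _
        _ ≤ _ := add_le_add (e2.trans e4) e3
    calc ‖ps (fun _ => 1) y v‖ ≤ |(ps (fun _ => 1) y v).re| + |(ps (fun _ => 1) y v).im| :=
          Complex.norm_le_abs_re_add_abs_im _
      _ ≤ _ := add_le_add e5 e1)
  refine ⟨|C₃| + |C₁| + |C₂|, fun y P t hy hyP h1 h2 => ?_⟩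
  have a1 := (h₁ y P t hy hyP h1 h2).trans (le_abs_self _)
  have a2 := (h₂ y P t hy hyP h1 h2).trans (le_abs_self _)
  have a3 := (h₃ y P t hy hyP h1 h2).trans (le_abs_self _)
  have e : ∑ p ∈ primesIoc y P, (((fun _ => 1 : ℕ → ℝ) p : ℝ) : ℂ) * npow p t =
      ∑ p ∈ primesIoc y P, npow p t := by
    refine Finset.sum_congr rfl fun p _ => ?_
    simp
  rw [e] at a3
  constructor
  · have := abs_nonneg C₁
    have := abs_nonneg C₂
    linarith
  · have e2 : ∑ p ∈ primesIoc y P, ((lam2 p : ℝ) : ℂ) * npow p t =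
        ∑ p ∈ primesIoc y P, npow p t + ∑ p ∈ primesIoc y P, (x4 p : ℂ) * npow p t +
          ∑ p ∈ primesIoc y P, (hr 1 p : ℂ) * npow p t := by
      rw [← Finset.sum_add_distrib, ← Finset.sum_add_distrib]
      refine Finset.sum_congr rfl fun p hp => ?_
      obtain ⟨_, _, h4, h5⟩ := mem_primesIoc hp
      rw [lam2_eq h4 h5]
      push_cast; ring
    rw [e2]
    calc _ ≤ _ := norm_add₃_le
      _ ≤ _ := by linarith

end Pool.Agent.CZ
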