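import Mathlib
import Pool.Agent.CZ.Defs
import Pool.Agent.CZ.PS
import Pool.Agent.ZD.E1

/-!
# Critical zeros (MP_553913_nt): elementary prime sums
-/

set_option autoImplicit false

open Complex Finset MeasureTheory

namespace Pool.Agent.CZ

open Pool.Agent.H5 (c bd)

theorem SUMS_mem {a b p : ℕ} (h : p ∈ primesIoc a b) : a < p ∧ p ≤ b ∧ p.Prime ∧ p ≠ 2 ∧ 3 ≤ p := by
  unfold primesIoc at h
  rw [Finset.mem_filter, Finset.mem_Ioc] at h
  obtain ⟨⟨h1, h2⟩, h3, h4⟩ := h
  have h5 := h3.two_le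
  exact ⟨h1, h2, h3, h4, by omega⟩

theorem abs_c_prime {p : ℕ} (hp : p.Prime) : |(c p : ℝ)| ≤ 2 * Real.sqrt p := by
  have h := Pool.Agent.ZD.abs_c_le' p
  rw [hp.divisors, Finset.card_pair hp.one_lt.ne] at h
  exact_mod_cast h

theorem lam2_le {p : ℕ} (hp : p.Prime) : 0 ≤ lam2 p ∧ lam2 p ≤ 4 := by
  unfold lam2
  have hp0 : (0 : ℝ) < p := by exact_mod_cast hp.pos
  refine ⟨by positivity, ?_⟩
  rw [div_le_iff₀ hp0, ← sq_abs]
  calc |(c p : ℝ)| ^ 2 ≤ (2 * Real.sqrt p) ^ 2 :=
        pow_le_pow_left₀ (abs_nonneg _) (abs_c_prime hp) 2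
    _ = 4 * p := by rw [mul_pow, Real.sq_sqrt hp0.le]; norm_num

theorem npow_norm {n : ℕ} (hn : 0 < n) (t : ℝ) : ‖npow n t‖ = 1 / n := by
  unfold npow
  rw [Complex.norm_natCast_cpow_of_pos hn]
  have : (-(1 + (t : ℂ) * I)).re = -1 := by simp
  rw [this, Real.rpow_neg_one, one_div]

/-- lower bound of a quadratic factor -/
theorem SUMS_quad_ge {l : ℝ} (hl : |l| ≤ 2) (w : ℂ) (hw : ‖w‖ ≤ 1) :
    (1 - ‖w‖) ^ 2 ≤ ‖1 - l * w + w ^ 2‖ := by
  set s : ℝ := Real.sqrt (1 - l ^ 2 / 4) with hs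
  have h0 : 0 ≤ 1 - l ^ 2 / 4 := by
    have : l ^ 2 ≤ 4 := by
      rw [← sq_abs]
      nlinarith [abs_nonneg l]
    linarith
  have hss : s ^ 2 = 1 - l ^ 2 / 4 := Real.sq_sqrt h0
  set α : ℂ := (l / 2 : ℝ) + (s : ℝ) * I with hα
  set β : ℂ := (l / 2 : ℝ) - (s : ℝ) * I with hβ
  have hsc : ((s : ℝ) : ℂ) ^ 2 = 1 - (l : ℂ) ^ 2 / 4 := by
    rw [← Complex.ofReal_pow, hss]; push_cast; ring
  have h1 : 1 - l * w + w ^ 2 = (1 - α * w) * (1 - β * w) := by
    have e : (1 - α * w) * (1 - β * w) = 1 - (α + β) * w + (α * β) * w ^ 2 := by ring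
    have e1 : α + β = l := by rw [hα, hβ]; push_cast; ring
    have e2 : α * β = 1 := by
      rw [hα, hβ]
      have : ((l / 2 : ℝ) + (s : ℝ) * I : ℂ) * ((l / 2 : ℝ) - (s : ℝ) * I) =
        ((l / 2 : ℝ) : ℂ) ^ 2 - ((s : ℝ) : ℂ) ^ 2 * I ^ 2 := by ring
      rw [this, I_sq, hsc]
      push_cast
      ring
    rw [e, e1, e2, one_mul]
  have hna : ‖α‖ = 1 := by
    rw [hα, Complex.norm_add_mul_I, Real.sqrt_eq_one, hss]
    ring
  have hnb : ‖β‖ = 1 := by
    have : β = (l / 2 : ℝ) + ((-s : ℝ)) * I := by rw [hβ]; push_cast; ring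
    rw [this, Complex.norm_add_mul_I, Real.sqrt_eq_one, neg_sq, hss]
    ring
  have h2 : ∀ γ : ℂ, ‖γ‖ = 1 → 1 - ‖w‖ ≤ ‖1 - γ * w‖ := by
    intro γ hγ
    have := norm_sub_norm_le (1 : ℂ) (γ * w)
    rw [norm_one, norm_mul, hγ, one_mul] at this
    exact this
  rw [h1, norm_mul, sq]
  have h3 := h2 α hna
  have h4 := h2 β hnb
  have h5 : 0 ≤ 1 - ‖w‖ := by linarith
  gcongr

/-- the factor `ellInv` in the variable `w = p^{-1/2-it}` -/
theorem SUMS_ellInv {p : ℕ} (hp : p.Prime) (D : ℤ) (t : ℝ) :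
    ∃ w : ℂ, w = (Real.sqrt p : ℝ) * npow p t ∧ ‖w‖ = 1 / Real.sqrt p ∧
      ellInv D p t = 1 - ((jacobiSym D p : ℤ) : ℂ) * ((c p / Real.sqrt p : ℝ) : ℂ) * w +
        ((jacobiSym D p : ℤ) : ℂ) ^ 2 * w ^ 2 := by
  have hp0 : (0 : ℝ) < p := by exact_mod_cast hp.pos
  have hs : 0 < Real.sqrt p := Real.sqrt_pos.2 hp0
  have hss : Real.sqrt p * Real.sqrt p = p := Real.mul_self_sqrt hp0.le
  refine ⟨_, rfl, ?_, ?_⟩
  · rw [norm_mul, Complex.norm_real, Real.norm_of_nonneg hs.le, npow_norm hp.pos]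
    rw [mul_one_div, div_eq_div_iff hp0.ne' hs.ne', hss, one_mul]
  · unfold ellInv bd
    have e1 : ((Real.sqrt p : ℝ) : ℂ) ^ 2 = (p : ℂ) := by
      rw [sq, ← Complex.ofReal_mul, hss]; push_cast; rfl
    have e2 : ((c p / Real.sqrt p : ℝ) : ℂ) * ((Real.sqrt p : ℝ) : ℂ) = ((c p : ℤ) : ℂ) := by
      rw [← Complex.ofReal_mul, div_mul_cancel₀ _ hs.ne']
      push_cast
      rfl
    rw [mul_pow, e1]
    push_cast at e2 ⊢
    linear_combination (((jacobiSym D p : ℤ) : ℂ) * npow p t) * e2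

theorem SUMS_sym_cases {p : ℕ} (D : ℤ) : jacobiSym D p = 0 ∨ jacobiSym D p = 1 ∨
    jacobiSym D p = -1 := jacobiSym.trichotomy D p

theorem ellInv_norm_ge {D : ℤ} {p : ℕ} (hp : p.Prime) (h2 : p ≠ 2) (t : ℝ) :
    (1 - 1 / Real.sqrt p) ^ 2 ≤ ‖ellInv D p t‖ := by
  have hp0 : (0 : ℝ) < p := by exact_mod_cast hp.pos
  have hs : 0 < Real.sqrt p := Real.sqrt_pos.2 hp0
  have hs1 : 1 ≤ Real.sqrt p := by
    rw [Real.one_le_sqrt]; exact_mod_cast hp.one_lt.le
  obtain ⟨w, -, hw, he⟩ := SUMS_ellInv hp D t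
  have hw1 : ‖w‖ ≤ 1 := by rw [hw, div_le_one hs]; exact hs1
  have hl : |(c p / Real.sqrt p : ℝ)| ≤ 2 := by
    rw [abs_div, abs_of_pos hs, div_le_iff₀ hs]
    exact abs_c_prime hp
  rw [he, ← hw]
  rcases SUMS_sym_cases (p := p) D with h | h | h <;> rw [h]
  · have : (1 - ‖w‖) ^ 2 ≤ 1 := by
      have := norm_nonneg w
      nlinarith
    simpa using this
  · have := SUMS_quad_ge hl w hw1
    simpa using this
  · have := SUMS_quad_ge hl (-w) (by rwa [norm_neg])
    rw [norm_neg] at this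
    refine this.trans (le_of_eq ?_)
    congr 1
    push_cast
    ring

theorem sum_log_div_le : ∃ C : ℝ, ∀ y : ℕ, 1 ≤ y →
    ∑ p ∈ primesIoc 0 y, Real.log p / p ≤ Real.log y + C := sum_log_div_le'

theorem SUMS_empty {y : ℕ} (hy : y < 3) : primesIoc 0 y = ∅ := by
  rw [Finset.eq_empty_iff_forall_notMem]
  intro p hp
  obtain ⟨_, h2, _, _, h5⟩ := SUMS_mem hp
  omega

theorem SUMS_split {a b d : ℕ} (h1 : a ≤ b) (h2 : b ≤ d) (f : ℕ → ℝ) :
    ∑ p ∈ primesIoc a d, f p = ∑ p ∈ primesIoc a b, f p + ∑ p ∈ primesIoc b d, f p := by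
  have e : primesIoc a d = primesIoc a b ∪ primesIoc b d := by
    unfold primesIoc
    rw [← Finset.filter_union, Finset.Ioc_union_Ioc_eq_Ioc h1 h2]
  rw [e, Finset.sum_union]
  rw [Finset.disjoint_left]
  intro p hp hp'
  have := (SUMS_mem hp).2.1
  have := (SUMS_mem hp').1
  omega

theorem SUMS_log3 : (1 : ℝ) ≤ Real.log 3 := by
  rw [Real.le_log_iff_exp_le (by norm_num)]
  have := Real.exp_one_lt_d9
  linarith

theorem SUMS_logp {p : ℕ} (hp : 3 ≤ p) : (1 : ℝ) ≤ Real.log p := by
  refine SUMS_log3.trans (Real.log_le_log (by norm_num) ?_)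
  exact_mod_cast hp

theorem sum_min_le : ∃ C : ℝ, ∀ (y : ℕ) (v : ℝ), 1 ≤ y →
    ∑ p ∈ primesIoc 0 y, min 1 (|v| * Real.log p) / p ≤ Real.log (1 + |v| * Real.log y) + C ∧
    ∑ p ∈ primesIoc 0 y, min 1 (|v| * Real.log p) / p ≤ C * |v| * Real.log y := by
  obtain ⟨C₁, h₁⟩ := sum_log_div_le
  obtain ⟨C₂, h₂⟩ := sum_inv_prime_le
  refine ⟨2 + |C₁| + |C₂|, fun y v hy => ?_⟩
  set V : ℝ := |v| with hV
  have hV0 : 0 ≤ V := abs_nonneg v
  have hyR : (1 : ℝ) ≤ y := by exact_mod_cast hy
  have hly : 0 ≤ Real.log y := Real.log_nonneg hyR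
  have hC1 := le_abs_self C₁
  have hC2 := le_abs_self C₂
  have hC1' := abs_nonneg C₁
  have hC2' := abs_nonneg C₂
  -- the bound by `V log p / p`
  have hb1 : ∀ x : ℕ, 1 ≤ x → ∑ p ∈ primesIoc 0 x, min 1 (V * Real.log p) / p ≤
      V * (Real.log x + |C₁|) := by
    intro x hx
    calc ∑ p ∈ primesIoc 0 x, min 1 (V * Real.log p) / p
        ≤ ∑ p ∈ primesIoc 0 x, V * (Real.log p / p) := by
          refine Finset.sum_le_sum fun p hp => ?_
          rw [← mul_div_assoc]
          gcongr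
          exact min_le_right _ _
      _ = V * ∑ p ∈ primesIoc 0 x, Real.log p / p := by rw [Finset.mul_sum]
      _ ≤ V * (Real.log x + |C₁|) := by
          gcongr
          exact (h₁ x hx).trans (by linarith)
  -- the bound by `1 / p`
  have hb2 : ∀ x : ℕ, ∑ p ∈ primesIoc x y, min 1 (V * Real.log p) / p ≤
      ∑ p ∈ primesIoc x y, (1 : ℝ) / p := by
    intro x
    refine Finset.sum_le_sum fun p hp => ?_
    gcongr
    exact min_le_left _ _
  constructor
  · rcases lt_or_ge 1 V with h1 | h1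
    · have e : primesIoc 0 y = primesIoc 1 y := by
        ext p
        constructor
        · intro hp
          obtain ⟨_, h4, h5, h6, h7⟩ := SUMS_mem hp
          unfold primesIoc
          rw [Finset.mem_filter, Finset.mem_Ioc]
          exact ⟨⟨by omega, h4⟩, h5, h6⟩
        · intro hp
          obtain ⟨_, h4, h5, h6, h7⟩ := SUMS_mem hp
          unfold primesIoc
          rw [Finset.mem_filter, Finset.mem_Ioc]
          exact ⟨⟨by omega, h4⟩, h5, h6⟩
      have h3 := (hb2 1).trans (h₂ 1 y le_rfl hy)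
      have h4 : rho 1 y 0 ≤ 1 + V * Real.log y := by
        unfold rho
        simp only [abs_zero, zero_mul, add_zero, mul_one, Nat.cast_one, Real.log_one, div_one]
        nlinarith
      have h5 : 0 < rho 1 y 0 := by
        unfold rho
        simp only [abs_zero, zero_mul, add_zero, mul_one, Nat.cast_one, Real.log_one, div_one]
        linarith
      have h6 := Real.log_le_log h5 h4
      rw [e]
      linarith
    · rcases eq_or_lt_of_le hV0 with h0 | h0
      · rw [← h0]
        simp only [zero_mul, add_zero, Real.log_one, zero_add]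
        have : ∑ p ∈ primesIoc 0 y, min (1 : ℝ) 0 / p = 0 := by
          simp
        rw [this]
        linarith
      · set x : ℕ := ⌊Real.exp (1 / V)⌋₊ with hx
        have hE : (2 : ℝ) ≤ Real.exp (1 / V) := by
          have h3 : (1 : ℝ) ≤ 1 / V := by rw [le_div_iff₀ h0]; linarith
          have := Real.add_one_le_exp (1 / V)
          linarith
        have hx2 : 2 ≤ x := Nat.le_floor (by exact_mod_cast hE)
        have hxE : (x : ℝ) ≤ Real.exp (1 / V) := Nat.floor_le (Real.exp_pos _).le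
        have hxE2 : Real.exp (1 / V) / 2 ≤ x := by
          have := Nat.lt_floor_add_one (Real.exp (1 / V))
          have h3 : (2 : ℝ) ≤ x := by exact_mod_cast hx2
          rw [← hx] at this
          linarith
        have hx0 : (0 : ℝ) < x := by
          have : (2 : ℝ) ≤ x := by exact_mod_cast hx2
          linarith
        have hlx : Real.log x ≤ 1 / V := by
          rw [Real.log_le_iff_le_exp hx0]; exact hxE
        have hlx2 : 1 / V - Real.log 2 ≤ Real.log x := by
          rw [← Real.log_exp (1 / V), ← Real.log_div (Real.exp_pos _).ne' (by norm_num)]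
          exact Real.log_le_log (by positivity) hxE2
        have hlog2 : Real.log 2 ≤ 1 := by
          have := Real.log_two_lt_d9
          linarith
        have hVC : V * |C₁| ≤ |C₁| := by nlinarith
        rcases le_total y x with h3 | h3
        · have h4 := hb1 y hy
          have h5 : Real.log y ≤ 1 / V :=
            (Real.log_le_log (by linarith) (by exact_mod_cast h3)).trans hlx
          have h6 : V * Real.log y ≤ 1 := by
            calc V * Real.log y ≤ V * (1 / V) := by gcongr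
              _ = 1 := by field_simp
          have h7 : 0 ≤ Real.log (1 + V * Real.log y) := Real.log_nonneg (by nlinarith)
          rw [mul_add] at h4
          linarith
        · rw [SUMS_split (Nat.zero_le x) h3]
          have h4 := hb1 x (by omega)
          have h6 : V * Real.log x ≤ 1 := by
            calc V * Real.log x ≤ V * (1 / V) := by gcongr
              _ = 1 := by field_simp
          rw [mul_add] at h4
          have h7 := (hb2 x).trans (h₂ x y (by omega) h3)
          have h8 : 1 / V ≤ 1 + Real.log x := by linarith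
          have h9 : rho x y 0 ≤ 1 + V * Real.log y := by
            unfold rho
            simp only [abs_zero, zero_mul, add_zero, mul_one, one_mul]
            rw [div_le_iff₀ (by linarith [div_pos one_pos h0])]
            have h10 : 1 ≤ V * (1 + Real.log x) := by
              calc (1 : ℝ) = V * (1 / V) := by field_simp
                _ ≤ V * (1 + Real.log x) := by gcongr
            have h11 : 1 ≤ 1 + Real.log x := by
              have := div_pos one_pos h0
              have h12 : (1 : ℝ) ≤ 1 / V := by rw [le_div_iff₀ h0]; linarith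
              linarith
            nlinarith
          have h5 : 0 < rho x y 0 := by
            unfold rho
            simp only [abs_zero, zero_mul, add_zero, mul_one, one_mul]
            have : 0 < 1 + Real.log x := by linarith [div_pos one_pos h0]
            positivity
          have h13 := Real.log_le_log h5 h9
          linarith
  · rcases Nat.lt_or_ge y 3 with h3 | h3
    · rw [SUMS_empty h3]
      simp only [Finset.sum_empty]
      positivity
    · have h4 := hb1 y hy
      have h5 := SUMS_logp h3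
      have h6 : |C₁| ≤ |C₁| * Real.log y := by nlinarith
      refine h4.trans ?_
      have h7 : V * (Real.log y + |C₁|) ≤ V * (Real.log y + |C₁| * Real.log y) := by gcongr
      refine h7.trans ?_
      have h8 : 0 ≤ V * Real.log y := by positivity
      nlinarith

theorem sum_inv_sq_le {z P : ℕ} (hz : 1 ≤ z) :
    ∑ p ∈ primesIoc z P, (1 : ℝ) / (p : ℝ) ^ 2 ≤ 1 / z := by
  have hz0 : (0 : ℝ) < z := by exact_mod_cast hz
  rcases le_total P z with h | h
  · have : primesIoc z P = ∅ := by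
      rw [Finset.eq_empty_iff_forall_notMem]
      intro p hp
      have h1 := SUMS_mem hp
      omega
    rw [this]
    simp
  · calc ∑ p ∈ primesIoc z P, (1 : ℝ) / (p : ℝ) ^ 2
        ≤ ∑ p ∈ Ioc z P, (1 : ℝ) / (p : ℝ) ^ 2 := by
          refine Finset.sum_le_sum_of_subset_of_nonneg (Finset.filter_subset _ _) fun p _ _ => ?_
          positivity
      _ ≤ 1 / z - 1 / P := by
          induction P, h using Nat.le_induction with
          | base => simp
          | succ n hn ih =>
            rw [Finset.sum_Ioc_succ_top (by omega)]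
            have hn0 : (0 : ℝ) < n := by
              have : 0 < n := by omega
              exact_mod_cast this
            have h1 : (1 : ℝ) / ((n + 1 : ℕ) : ℝ) ^ 2 ≤ 1 / n - 1 / ((n + 1 : ℕ) : ℝ) := by
              push_cast
              rw [div_sub_div _ _ hn0.ne' (by positivity), div_le_div_iff₀ (by positivity) (by positivity)]
              nlinarith
            linarith
      _ ≤ 1 / z := by
          have : (0 : ℝ) ≤ 1 / P := by positivity
          linarith

theorem SUMS_card_le {D : ℤ} (hD : D ≠ 0) {X : ℝ} (hX : 3 ≤ X) (hDX : |(D : ℝ)| ≤ X ^ 2)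
    (s : Finset ℕ) (hs : ∀ p ∈ s, p.Prime ∧ 3 ≤ p ∧ (p : ℤ) ∣ D) :
    (s.card : ℝ) ≤ 2 * Real.log X := by
  have h1 : s ⊆ D.natAbs.primeFactors := by
    intro p hp
    obtain ⟨h2, _, h3⟩ := hs p hp
    rw [Nat.mem_primeFactors]
    exact ⟨h2, Int.natCast_dvd.1 h3, Int.natAbs_ne_zero.2 hD⟩
  have h2 : ∏ p ∈ s, p ∣ D.natAbs :=
    (Finset.prod_dvd_prod_of_subset _ _ _ h1).trans (Nat.prod_primeFactors_dvd _)
  have h3 : ∏ p ∈ s, p ≤ D.natAbs := Nat.le_of_dvd (Int.natAbs_pos.2 hD) h2
  have h4 : (∏ p ∈ s, (p : ℝ)) ≤ X ^ 2 := by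
    have : ((∏ p ∈ s, p : ℕ) : ℝ) ≤ (D.natAbs : ℝ) := by exact_mod_cast h3
    rw [Nat.cast_natAbs, Int.cast_abs] at this
    push_cast at this
    exact this.trans hDX
  have h5 : Real.exp s.card ≤ ∏ p ∈ s, (p : ℝ) := by
    rw [← mul_one (s.card : ℝ), ← nsmul_eq_mul, ← Finset.sum_const, Real.exp_sum]
    refine Finset.prod_le_prod (fun _ _ => (Real.exp_pos _).le) fun p hp => ?_
    have h6 : (3 : ℝ) ≤ p := by exact_mod_cast (hs p hp).2.1
    have := Real.exp_one_lt_d9
    linarith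
  have h6 := Real.log_le_log (Real.exp_pos _) (h5.trans h4)
  rw [Real.log_exp, Real.log_pow] at h6
  exact_mod_cast h6

/-- primes dividing `D` are harmless -/
theorem sum_dvd_le : ∃ C : ℝ, ∀ (X : ℝ) (D : ℤ) (y : ℕ), 3 ≤ X → D ≠ 0 → |(D : ℝ)| ≤ X ^ 2 →
    ∑ p ∈ (primesIoc z0 y).filter (fun p : ℕ => (p : ℤ) ∣ D), (1 : ℝ) / p ≤
      Real.log (Real.log (Real.log X + 3)) + C := by
  obtain ⟨C₂, h₂⟩ := sum_inv_prime_le
  refine ⟨Real.log 2 + C₂ + 2, fun X D y hX hD hDX => ?_⟩
  set N : ℕ := ⌊Real.log X⌋₊ with hN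
  have hlX : 1 ≤ Real.log X := SUMS_log3.trans (Real.log_le_log (by norm_num) hX)
  have hN1 : 1 ≤ N := Nat.le_floor (by exact_mod_cast hlX)
  have hNle : (N : ℝ) ≤ Real.log X := Nat.floor_le (by linarith)
  have hlt : ∀ p : ℕ, N < p → Real.log X < p := fun p hp => (Nat.floor_lt (by linarith)).1 hp
  set A := (primesIoc z0 y).filter (fun p : ℕ => (p : ℤ) ∣ D) with hA
  have h1 : ∑ p ∈ A.filter (fun p => p ≤ N), (1 : ℝ) / p ≤ ∑ p ∈ primesIoc 1 N, (1 : ℝ) / p := by
    refine Finset.sum_le_sum_of_subset_of_nonneg ?_ fun p _ _ => by positivity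
    intro p hp
    rw [Finset.mem_filter, hA, Finset.mem_filter] at hp
    obtain ⟨h3, h4, h5, h6, h7⟩ := SUMS_mem hp.1.1
    unfold primesIoc
    rw [Finset.mem_filter, Finset.mem_Ioc]
    exact ⟨⟨by omega, hp.2⟩, h5, h6⟩
  have h2 : ∑ p ∈ A.filter (fun p => ¬ p ≤ N), (1 : ℝ) / p ≤ 2 := by
    have h3 : ∀ p ∈ A.filter (fun p => ¬ p ≤ N), (1 : ℝ) / p ≤ 1 / Real.log X := by
      intro p hp
      rw [Finset.mem_filter] at hp
      have := hlt p (by omega)
      exact one_div_le_one_div_of_le (by linarith) this.le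
    have h4 := Finset.sum_le_card_nsmul _ _ _ h3
    have h5 := SUMS_card_le hD hX hDX (A.filter (fun p => ¬ p ≤ N)) (by
      intro p hp
      rw [Finset.mem_filter, hA, Finset.mem_filter] at hp
      obtain ⟨_, _, h5, _, h7⟩ := SUMS_mem hp.1.1
      exact ⟨h5, h7, hp.1.2⟩)
    rw [nsmul_eq_mul] at h4
    refine h4.trans ?_
    rw [mul_one_div, div_le_iff₀ (by linarith)]
    exact h5
  rw [← Finset.sum_filter_add_sum_filter_not A (fun p => p ≤ N)]
  have h3 := h1.trans (h₂ 1 N le_rfl hN1)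
  have h4 : rho 1 N 0 ≤ 2 * Real.log (Real.log X + 3) := by
    unfold rho
    simp only [abs_zero, zero_mul, add_zero, mul_one, Nat.cast_one, Real.log_one, div_one]
    have h5 : Real.log N ≤ Real.log (Real.log X + 3) :=
      Real.log_le_log (by exact_mod_cast hN1) (by linarith)
    have h6 : 1 ≤ Real.log (Real.log X + 3) :=
      SUMS_log3.trans (Real.log_le_log (by norm_num) (by linarith))
    linarith
  have h5 : 0 < rho 1 N 0 := by
    unfold rho
    simp only [abs_zero, zero_mul, add_zero, mul_one, Nat.cast_one, Real.log_one, div_one]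
    have : 0 ≤ Real.log N := Real.log_nonneg (by exact_mod_cast hN1)
    linarith
  have h6 := Real.log_le_log h5 h4
  have h7 : 0 < Real.log (Real.log X + 3) := by
    have := SUMS_log3.trans (Real.log_le_log (by norm_num) (by linarith : (3 : ℝ) ≤ Real.log X + 3))
    linarith
  rw [Real.log_mul (by norm_num) h7.ne'] at h6
  linarith

end Pool.Agent.CZ
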