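import Mathlib
import Pool.Agent.CZ.Defs
import Pool.Agent.CZ.SUMS
import Pool.Agent.CZ.RM

/-!
# Critical zeros (MP_553913_nt): expansion of Euler factors in the symbol, up to third order
(common tools of the modules KER, DLO)
-/

set_option autoImplicit false

open Complex Finset MeasureTheory

namespace Pool.Agent.CZ.LocJet

open Pool.Agent.H5 (c bd)

/-- third order expansion of `F(±1)` in the symbol; only the coefficients of order one and two are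
recorded -/
def Jet (r K A : ℝ) (a₁ a₂ : ℂ) (F : ℤ → ℂ) : Prop :=
  ∃ a₃ : ℂ, ‖a₁‖ ≤ K * r ∧ ‖a₂‖ ≤ K ^ 2 * r ^ 2 ∧ ‖a₃‖ ≤ K ^ 3 * r ^ 3 ∧
    ‖F 1 - (1 + a₁ + a₂ + a₃)‖ ≤ A * r ^ 4 ∧ ‖F (-1) - (1 - a₁ + a₂ - a₃)‖ ≤ A * r ^ 4

theorem Jet.mono {r K A A' : ℝ} {a₁ a₂ : ℂ} {F : ℤ → ℂ} (h : Jet r K A a₁ a₂ F) (hA : A ≤ A') :
    Jet r K A' a₁ a₂ F := by
  obtain ⟨a₃, h1, h2, h3, h4, h5⟩ := h
  have hr : 0 ≤ r ^ 4 := by positivity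
  exact ⟨a₃, h1, h2, h3, h4.trans (mul_le_mul_of_nonneg_right hA hr),
    h5.trans (mul_le_mul_of_nonneg_right hA hr)⟩

theorem Jet.congr {r K A : ℝ} {a₁ a₂ b₁ b₂ : ℂ} {F G : ℤ → ℂ} (h : Jet r K A a₁ a₂ F) (h1 : a₁ = b₁)
    (h2 : a₂ = b₂) (h3 : F 1 = G 1) (h4 : F (-1) = G (-1)) : Jet r K A b₁ b₂ G := by
  subst h1 h2
  unfold Jet at h ⊢
  rwa [h3, h4] at h

theorem mul_aux {r K A : ℝ} (hr : 0 ≤ r) (hK : 0 ≤ K) (hA : 0 ≤ A) {a₁ a₂ a₃ b₁ b₂ b₃ F G : ℂ}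
    (ha1 : ‖a₁‖ ≤ K * r) (ha2 : ‖a₂‖ ≤ K ^ 2 * r ^ 2) (ha3 : ‖a₃‖ ≤ K ^ 3 * r ^ 3)
    (hb1 : ‖b₁‖ ≤ K * r) (hb2 : ‖b₂‖ ≤ K ^ 2 * r ^ 2) (hb3 : ‖b₃‖ ≤ K ^ 3 * r ^ 3)
    (hF : ‖F - (1 + a₁ + a₂ + a₃)‖ ≤ A * r ^ 4) (hG : ‖G - (1 + b₁ + b₂ + b₃)‖ ≤ A * r ^ 4) :
    ‖F * G - (1 + (a₁ + b₁) + (a₂ + b₂ + a₁ * b₁) + (a₃ + b₃ + a₁ * b₂ + a₂ * b₁))‖ ≤
      (3 * K ^ 4 + 2 * K ^ 5 * r + K ^ 6 * r ^ 2 +
        2 * A * (1 + K * r + K ^ 2 * r ^ 2 + K ^ 3 * r ^ 3) + A ^ 2 * r ^ 4) * r ^ 4 := by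
  set U := F - (1 + a₁ + a₂ + a₃) with hU
  set W := G - (1 + b₁ + b₂ + b₃) with hW
  have e : F * G - (1 + (a₁ + b₁) + (a₂ + b₂ + a₁ * b₁) + (a₃ + b₃ + a₁ * b₂ + a₂ * b₁)) =
      (a₁ * b₃ + a₂ * b₂ + a₃ * b₁) + (a₂ * b₃ + a₃ * b₂) + a₃ * b₃ +
        ((1 + a₁ + a₂ + a₃) * W + U * (1 + b₁ + b₂ + b₃)) + U * W := by
    rw [hU, hW]; ring
  have p1 : ‖1 + a₁ + a₂ + a₃‖ ≤ 1 + K * r + K ^ 2 * r ^ 2 + K ^ 3 * r ^ 3 := by
    calc ‖1 + a₁ + a₂ + a₃‖ ≤ ‖(1 : ℂ)‖ + ‖a₁‖ + ‖a₂‖ + ‖a₃‖ := norm_add₄_le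
      _ ≤ _ := by rw [norm_one]; gcongr
  have p2 : ‖1 + b₁ + b₂ + b₃‖ ≤ 1 + K * r + K ^ 2 * r ^ 2 + K ^ 3 * r ^ 3 := by
    calc ‖1 + b₁ + b₂ + b₃‖ ≤ ‖(1 : ℂ)‖ + ‖b₁‖ + ‖b₂‖ + ‖b₃‖ := norm_add₄_le
      _ ≤ _ := by rw [norm_one]; gcongr
  have q1 : ‖a₁ * b₃ + a₂ * b₂ + a₃ * b₁‖ ≤ K * r * (K ^ 3 * r ^ 3) +
      K ^ 2 * r ^ 2 * (K ^ 2 * r ^ 2) + K ^ 3 * r ^ 3 * (K * r) := by
    refine norm_add₃_le.trans ?_
    simp only [norm_mul]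
    gcongr
  have q2 : ‖a₂ * b₃ + a₃ * b₂‖ ≤ K ^ 2 * r ^ 2 * (K ^ 3 * r ^ 3) +
      K ^ 3 * r ^ 3 * (K ^ 2 * r ^ 2) := by
    refine (norm_add_le _ _).trans ?_
    simp only [norm_mul]
    gcongr
  have q3 : ‖a₃ * b₃‖ ≤ K ^ 3 * r ^ 3 * (K ^ 3 * r ^ 3) := by
    rw [norm_mul]; gcongr
  have q4 : ‖(1 + a₁ + a₂ + a₃) * W + U * (1 + b₁ + b₂ + b₃)‖ ≤
      (1 + K * r + K ^ 2 * r ^ 2 + K ^ 3 * r ^ 3) * (A * r ^ 4) +
        (A * r ^ 4) * (1 + K * r + K ^ 2 * r ^ 2 + K ^ 3 * r ^ 3) := by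
    refine (norm_add_le _ _).trans ?_
    rw [norm_mul, norm_mul]
    gcongr
  have q5 : ‖U * W‖ ≤ (A * r ^ 4) * (A * r ^ 4) := by
    rw [norm_mul]; gcongr
  rw [e]
  refine (norm_add_le _ _).trans ?_
  refine (add_le_add (norm_add₄_le.trans (add_le_add (add_le_add (add_le_add q1 q2) q3) q4))
    q5).trans (le_of_eq ?_)
  ring

theorem Jet.mul {r K A : ℝ} (hr : 0 ≤ r) (hK : 0 ≤ K) (hA : 0 ≤ A) {a₁ a₂ b₁ b₂ : ℂ}
    {F G : ℤ → ℂ} (hF : Jet r K A a₁ a₂ F) (hG : Jet r K A b₁ b₂ G) :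
    Jet r (2 * K) (3 * K ^ 4 + 2 * K ^ 5 * r + K ^ 6 * r ^ 2 +
        2 * A * (1 + K * r + K ^ 2 * r ^ 2 + K ^ 3 * r ^ 3) + A ^ 2 * r ^ 4)
      (a₁ + b₁) (a₂ + b₂ + a₁ * b₁) (fun χ => F χ * G χ) := by
  obtain ⟨a₃, ha1, ha2, ha3, ha4, ha5⟩ := hF
  obtain ⟨b₃, hb1, hb2, hb3, hb4, hb5⟩ := hG
  refine ⟨a₃ + b₃ + a₁ * b₂ + a₂ * b₁, ?_, ?_, ?_, ?_, ?_⟩
  · refine (norm_add_le _ _).trans ?_
    linarith
  · refine norm_add₃_le.trans ?_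
    rw [norm_mul]
    have h1 : ‖a₁‖ * ‖b₁‖ ≤ (K * r) * (K * r) := by gcongr
    have h2 : 0 ≤ K ^ 2 * r ^ 2 := by positivity
    nlinarith
  · refine norm_add₄_le.trans ?_
    rw [norm_mul, norm_mul]
    have h1 : ‖a₁‖ * ‖b₂‖ ≤ (K * r) * (K ^ 2 * r ^ 2) := by gcongr
    have h3 : ‖a₂‖ * ‖b₁‖ ≤ (K ^ 2 * r ^ 2) * (K * r) := by gcongr
    have h2 : 0 ≤ K ^ 3 * r ^ 3 := by positivity
    nlinarith
  · exact mul_aux hr hK hA ha1 ha2 ha3 hb1 hb2 hb3 ha4 hb4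
  · have h := mul_aux (a₁ := -a₁) (a₂ := a₂) (a₃ := -a₃) (b₁ := -b₁) (b₂ := b₂) (b₃ := -b₃)
      (F := F (-1)) (G := G (-1)) hr hK hA (by rwa [norm_neg]) ha2 (by rwa [norm_neg])
      (by rwa [norm_neg]) hb2 (by rwa [norm_neg])
      (by rw [show (1 : ℂ) + -a₁ + a₂ + -a₃ = 1 - a₁ + a₂ - a₃ by ring]; exact ha5)
      (by rw [show (1 : ℂ) + -b₁ + b₂ + -b₃ = 1 - b₁ + b₂ - b₃ by ring]; exact hb5)
    refine le_trans (le_of_eq ?_) h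
    congr 1
    ring

theorem Jet.conj {r K A : ℝ} {a₁ a₂ : ℂ} {F : ℤ → ℂ} (hF : Jet r K A a₁ a₂ F) :
    Jet r K A ((starRingEnd ℂ) a₁) ((starRingEnd ℂ) a₂) (fun χ => (starRingEnd ℂ) (F χ)) := by
  obtain ⟨a₃, h1, h2, h3, h4, h5⟩ := hF
  refine ⟨(starRingEnd ℂ) a₃, ?_, ?_, ?_, ?_, ?_⟩
  · rwa [RCLike.norm_conj]
  · rwa [RCLike.norm_conj]
  · rwa [RCLike.norm_conj]
  · rw [← RCLike.norm_conj] at h4
    simpa [map_sub, map_add] using h4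
  · rw [← RCLike.norm_conj] at h5
    simpa [map_sub, map_add] using h5

/-- expansion of the inverse of a quadratic factor -/
theorem inv_aux {l r : ℝ} (hl : |l| ≤ 2) (hr : r ≤ 0.578) {w : ℂ} (hw : ‖w‖ = r) :
    ‖(1 - l * w + w ^ 2)⁻¹ - (1 + l * w + (l ^ 2 - 1) * w ^ 2 + (l ^ 3 - 2 * l) * w ^ 3)‖ ≤
      45 * r ^ 4 := by
  have hr0 : 0 ≤ r := by rw [← hw]; exact norm_nonneg _
  have h1 := SUMS_quad_ge hl w (by rw [hw]; linarith)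
  rw [hw] at h1
  have h2 : 0.178 ≤ ‖1 - l * w + w ^ 2‖ := by
    refine le_trans ?_ h1
    nlinarith
  have h3 : (1 : ℂ) - l * w + w ^ 2 ≠ 0 := by
    intro h
    rw [h, norm_zero] at h2
    norm_num at h2
  have e : (1 - l * w + w ^ 2)⁻¹ - (1 + l * w + (l ^ 2 - 1) * w ^ 2 + (l ^ 3 - 2 * l) * w ^ 3) =
      (((l : ℂ) ^ 4 - 3 * l ^ 2 + 1) * w ^ 4 - (l ^ 3 - 2 * l) * w ^ 5) / (1 - l * w + w ^ 2) := by
    field_simp
    ring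
  have hl2 : l ^ 2 ≤ 4 := by
    rw [← sq_abs]
    nlinarith [abs_nonneg l]
  have h4 : ‖((l : ℂ) ^ 4 - 3 * l ^ 2 + 1)‖ ≤ 5 := by
    have : ((l : ℂ) ^ 4 - 3 * l ^ 2 + 1) = ((l ^ 4 - 3 * l ^ 2 + 1 : ℝ) : ℂ) := by push_cast; rfl
    rw [this, Complex.norm_real, Real.norm_eq_abs, abs_le]
    constructor <;> nlinarith [sq_nonneg (l ^ 2), sq_nonneg l]
  have h5 : ‖((l : ℂ) ^ 3 - 2 * l)‖ ≤ 4 := by
    have : ((l : ℂ) ^ 3 - 2 * l) = ((l ^ 3 - 2 * l : ℝ) : ℂ) := by push_cast; rfl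
    have h6 : |l ^ 3 - 2 * l| = |l| * |l ^ 2 - 2| := by rw [← abs_mul]; congr 1; ring
    have h7 : |l ^ 2 - 2| ≤ 2 := by
      rw [abs_le]
      constructor <;> nlinarith [sq_nonneg l]
    rw [this, Complex.norm_real, Real.norm_eq_abs, h6]
    nlinarith [abs_nonneg l, abs_nonneg (l ^ 2 - 2)]
  rw [e, norm_div, div_le_iff₀ (by linarith)]
  calc ‖((l : ℂ) ^ 4 - 3 * l ^ 2 + 1) * w ^ 4 - (l ^ 3 - 2 * l) * w ^ 5‖
      ≤ ‖((l : ℂ) ^ 4 - 3 * l ^ 2 + 1)‖ * r ^ 4 + ‖((l : ℂ) ^ 3 - 2 * l)‖ * r ^ 5 := by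
        refine (norm_sub_le _ _).trans ?_
        rw [norm_mul, norm_mul, norm_pow, norm_pow, hw]
    _ ≤ 5 * r ^ 4 + 4 * r ^ 5 := by gcongr
    _ ≤ 8 * r ^ 4 := by
        have : r ^ 5 = r ^ 4 * r := by ring
        have h8 : 0 ≤ r ^ 4 := by positivity
        nlinarith
    _ ≤ 45 * r ^ 4 * ‖1 - l * w + w ^ 2‖ := by
        have h8 : 0 ≤ r ^ 4 := by positivity
        nlinarith

theorem jet_ell {l r : ℝ} (hl : |l| ≤ 2) (hr : r ≤ 0.578) {w : ℂ} (hw : ‖w‖ = r) :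
    Jet r 2 45 (l * w) ((l ^ 2 - 1) * w ^ 2)
      (fun χ : ℤ => (1 - (χ : ℂ) * l * w + (χ : ℂ) ^ 2 * w ^ 2)⁻¹) := by
  have hr0 : 0 ≤ r := by rw [← hw]; exact norm_nonneg _
  have hl2 : l ^ 2 ≤ 4 := by
    rw [← sq_abs]
    nlinarith [abs_nonneg l]
  refine ⟨(l ^ 3 - 2 * l) * w ^ 3, ?_, ?_, ?_, ?_, ?_⟩
  · rw [norm_mul, hw, Complex.norm_real, Real.norm_eq_abs]
    gcongr
  · rw [norm_mul, norm_pow, hw]
    have : ((l : ℂ) ^ 2 - 1) = ((l ^ 2 - 1 : ℝ) : ℂ) := by push_cast; rfl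
    rw [this, Complex.norm_real, Real.norm_eq_abs]
    gcongr
    rw [abs_le]
    constructor <;> nlinarith [sq_nonneg l]
  · rw [norm_mul, norm_pow, hw]
    have : ((l : ℂ) ^ 3 - 2 * l) = ((l ^ 3 - 2 * l : ℝ) : ℂ) := by push_cast; rfl
    have h6 : |l ^ 3 - 2 * l| = |l| * |l ^ 2 - 2| := by rw [← abs_mul]; congr 1; ring
    have h7 : |l ^ 2 - 2| ≤ 2 := by
      rw [abs_le]
      constructor <;> nlinarith [sq_nonneg l]
    rw [this, Complex.norm_real, Real.norm_eq_abs, h6]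
    gcongr
    nlinarith [abs_nonneg l, abs_nonneg (l ^ 2 - 2)]
  · have h := inv_aux hl hr hw
    simpa using h
  · have h := inv_aux hl hr (w := -w) (by rwa [norm_neg])
    refine le_trans (le_of_eq ?_) h
    congr 1
    push_cast
    congr 1
    · congr 1
      ring
    · ring

theorem jet_exp {r : ℝ} {s : ℂ} (hs : ‖s‖ ≤ 2 * r) (hr : 2 * r ≤ 1) :
    Jet r 2 45 s (s ^ 2 / 2) (fun χ : ℤ => exp ((χ : ℂ) * s)) := by
  have hr0 : 0 ≤ r := by linarith [norm_nonneg s]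
  have hb : ∀ x : ℂ, ‖x‖ ≤ 2 * r → ‖exp x - (1 + x + x ^ 2 / 2 + x ^ 3 / 6)‖ ≤ 45 * r ^ 4 := by
    intro x hx
    have h := Complex.exp_bound (x := x) (hx.trans hr) (n := 4) (by norm_num)
    have e : ∑ m ∈ range 4, x ^ m / (m.factorial : ℂ) = 1 + x + x ^ 2 / 2 + x ^ 3 / 6 := by
      simp [Finset.sum_range_succ, Nat.factorial]
    rw [e] at h
    refine h.trans ?_
    have h1 : ‖x‖ ^ 4 ≤ (2 * r) ^ 4 := by gcongr
    norm_num [Nat.factorial]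
    nlinarith [pow_nonneg (norm_nonneg x) 4]
  have hs2 : ‖s‖ ^ 2 ≤ (2 * r) ^ 2 := by gcongr
  have hs3 : ‖s‖ ^ 3 ≤ (2 * r) ^ 3 := by gcongr
  refine ⟨s ^ 3 / 6, hs, ?_, ?_, ?_, ?_⟩
  · rw [norm_div, norm_pow]
    norm_num
    nlinarith [sq_nonneg ‖s‖]
  · rw [norm_div, norm_pow]
    norm_num
    nlinarith [pow_nonneg (norm_nonneg s) 3]
  · have := hb s hs
    simpa using this
  · have := hb (-s) (by rwa [norm_neg])
    refine le_trans (le_of_eq ?_) this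
    congr 1
    push_cast
    ring_nf

/-- the local average of a function with a third order expansion -/
theorem Jet.avg {r K A : ℝ} {a₁ a₂ : ℂ} {F : ℤ → ℂ} (hF : Jet r K A a₁ a₂ F) (hF0 : F 0 = 1)
    {p : ℕ} (hp : 1 ≤ p) (hr : r = 1 / Real.sqrt p) :
    ‖F 0 / p + (1 - 1 / p) * (F 1 + F (-1)) / 2 - (1 + a₂)‖ ≤ (2 * A + K ^ 2) / (p : ℝ) ^ 2 := by
  obtain ⟨a₃, h1, h2, h3, h4, h5⟩ := hF
  have hp0 : (0 : ℝ) < p := by exact_mod_cast hp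
  have hp1 : (1 : ℝ) ≤ p := by exact_mod_cast hp
  have hr2 : r ^ 2 = 1 / p := by rw [hr, div_pow, Real.sq_sqrt hp0.le, one_pow]
  have hr4 : r ^ 4 = 1 / (p : ℝ) ^ 2 := by
    rw [show r ^ 4 = (r ^ 2) ^ 2 by ring, hr2]; field_simp
  set U := F 1 - (1 + a₁ + a₂ + a₃) with hU
  set W := F (-1) - (1 - a₁ + a₂ - a₃) with hW
  have e : F 0 / p + (1 - 1 / p) * (F 1 + F (-1)) / 2 - (1 + a₂) =
      (1 - 1 / p) * ((U + W) / 2) - a₂ / p := by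
    rw [hU, hW, hF0]; ring
  have hA : 0 ≤ A * r ^ 4 := (norm_nonneg _).trans h4
  have hn : ‖((1 : ℂ) - 1 / p)‖ ≤ 1 := by
    have : ((1 : ℂ) - 1 / p) = ((1 - 1 / p : ℝ) : ℂ) := by push_cast; rfl
    rw [this, Complex.norm_real, Real.norm_eq_abs, abs_le]
    have h6 : (1 : ℝ) / p ≤ 1 := by rw [div_le_one hp0]; exact hp1
    have h7 : (0 : ℝ) < 1 / p := by positivity
    constructor <;> linarith
  have h8 : ‖(U + W) / 2‖ ≤ A * r ^ 4 := by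
    rw [norm_div, Complex.norm_ofNat, div_le_iff₀ (by norm_num)]
    exact (norm_add_le _ _).trans (by linarith)
  rw [e]
  calc ‖(1 - 1 / (p : ℂ)) * ((U + W) / 2) - a₂ / p‖
      ≤ ‖((1 : ℂ) - 1 / p)‖ * ‖(U + W) / 2‖ + ‖a₂‖ / p := by
        refine (norm_sub_le _ _).trans ?_
        rw [norm_mul, norm_div a₂ (p : ℂ), Complex.norm_natCast]
    _ ≤ 1 * (A * r ^ 4) + K ^ 2 * r ^ 2 / p := by gcongr
    _ ≤ (2 * A + K ^ 2) / (p : ℝ) ^ 2 := by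
        rw [hr2, hr4] at *
        have h9 : K ^ 2 * (1 / (p : ℝ)) / p = K ^ 2 * (1 / (p : ℝ) ^ 2) := by field_simp
        rw [h9, add_div, one_mul]
        have h10 : (2 * A) / (p : ℝ) ^ 2 = 2 * (A * (1 / (p : ℝ) ^ 2)) := by ring
        have h11 : K ^ 2 / (p : ℝ) ^ 2 = K ^ 2 * (1 / (p : ℝ) ^ 2) := by ring
        rw [h10, h11]
        linarith

/-! ### Euler factors -/

/-- normalised coefficient `c(p)/√p` -/
noncomputable def la (p : ℕ) : ℝ := c p / Real.sqrt p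

/-- `p^{-1/2-it}` -/
noncomputable def ww (p : ℕ) (t : ℝ) : ℂ := (Real.sqrt p : ℝ) * npow p t

theorem la_abs {p : ℕ} (hp : p.Prime) : |la p| ≤ 2 := by
  have hs : 0 < Real.sqrt p := Real.sqrt_pos.2 (by exact_mod_cast hp.pos)
  unfold la
  rw [abs_div, abs_of_pos hs, div_le_iff₀ hs]
  exact abs_c_prime hp

theorem la_sq (p : ℕ) : la p ^ 2 = lam2 p := by
  unfold la lam2
  rw [div_pow, Real.sq_sqrt (Nat.cast_nonneg p)]

theorem npow_eq {p : ℕ} (hp : 0 < p) (t : ℝ) : npow p t =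
    ((Real.cos (t * Real.log p) / p : ℝ) : ℂ) - ((Real.sin (t * Real.log p) / p : ℝ) : ℂ) * I := by
  have hp0 : (p : ℂ) ≠ 0 := by exact_mod_cast hp.ne'
  have hpR : (0 : ℝ) < p := by exact_mod_cast hp
  unfold npow
  rw [Complex.cpow_def_of_ne_zero hp0, ← Complex.natCast_log,
    show ((Real.log p : ℝ) : ℂ) * (-(1 + (t : ℂ) * I)) =
      ((-Real.log p : ℝ) : ℂ) + ((-(t * Real.log p) : ℝ) : ℂ) * I by push_cast; ring,
    Complex.exp_add, Complex.exp_mul_I, ← Complex.ofReal_exp, ← Complex.ofReal_cos,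
    ← Complex.ofReal_sin, Real.cos_neg, Real.sin_neg, Real.exp_neg, Real.exp_log hpR]
  push_cast
  field_simp
  ring

theorem sqrt_facts {p : ℕ} (hp : 0 < p) : 0 < Real.sqrt p ∧ Real.sqrt p * Real.sqrt p = p := by
  have hpR : (0 : ℝ) < p := by exact_mod_cast hp
  exact ⟨Real.sqrt_pos.2 hpR, Real.mul_self_sqrt hpR.le⟩

theorem ww_eq {p : ℕ} (hp : 0 < p) (t : ℝ) : ww p t =
    ((Real.cos (t * Real.log p) / Real.sqrt p : ℝ) : ℂ) -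
      ((Real.sin (t * Real.log p) / Real.sqrt p : ℝ) : ℂ) * I := by
  obtain ⟨h1, h2⟩ := sqrt_facts hp
  have h3 : ((Real.sqrt p : ℝ) : ℂ) ≠ 0 := by exact_mod_cast h1.ne'
  have h4 : ((p : ℝ) : ℂ) = ((Real.sqrt p : ℝ) : ℂ) * ((Real.sqrt p : ℝ) : ℂ) := by
    rw [← Complex.ofReal_mul, h2]
  unfold ww
  rw [npow_eq hp]
  push_cast at h4 ⊢
  rw [h4]
  field_simp

theorem ww_norm {p : ℕ} (hp : 0 < p) (t : ℝ) : ‖ww p t‖ = 1 / Real.sqrt p := by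
  obtain ⟨h1, h2⟩ := sqrt_facts hp
  have hpR : (0 : ℝ) < p := by exact_mod_cast hp
  unfold ww
  rw [norm_mul, Complex.norm_real, Real.norm_of_nonneg h1.le, npow_norm hp]
  rw [mul_one_div, div_eq_div_iff hpR.ne' h1.ne', h2, one_mul]

theorem ww_mul {p : ℕ} (hp : 0 < p) (t t' : ℝ) : ww p t * ww p t' = npow p (t + t') := by
  obtain ⟨h1, h2⟩ := sqrt_facts hp
  have h3 : ((Real.sqrt p : ℝ) : ℂ) ≠ 0 := by exact_mod_cast h1.ne'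
  have h4 : ((p : ℝ) : ℂ) = ((Real.sqrt p : ℝ) : ℂ) * ((Real.sqrt p : ℝ) : ℂ) := by
    rw [← Complex.ofReal_mul, h2]
  rw [ww_eq hp, ww_eq hp, npow_eq hp, add_mul, Real.cos_add, Real.sin_add]
  push_cast at h4 ⊢
  rw [h4]
  field_simp
  ring_nf
  rw [I_sq]
  ring

theorem ww_sq {p : ℕ} (hp : 0 < p) (t : ℝ) : ww p t ^ 2 = npow p (2 * t) := by
  rw [sq, ww_mul hp, two_mul]

theorem ww_conj {p : ℕ} (hp : 0 < p) (t : ℝ) : (starRingEnd ℂ) (ww p t) = ww p (-t) := by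
  rw [ww_eq hp, ww_eq hp, neg_mul, Real.cos_neg, Real.sin_neg]
  rw [map_sub, map_mul, Complex.conj_ofReal, Complex.conj_ofReal, Complex.conj_I]
  push_cast
  ring

theorem npow_conj {p : ℕ} (hp : 0 < p) (t : ℝ) : (starRingEnd ℂ) (npow p t) = npow p (-t) := by
  rw [npow_eq hp, npow_eq hp, neg_mul, Real.cos_neg, Real.sin_neg]
  rw [map_sub, map_mul, Complex.conj_ofReal, Complex.conj_ofReal, Complex.conj_I]
  push_cast
  ring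

theorem bd_npow {p : ℕ} (hp : 0 < p) (D : ℤ) (t : ℝ) :
    (bd D p : ℂ) * npow p t = ((jacobiSym D p : ℤ) : ℂ) * ((la p : ℝ) : ℂ) * ww p t := by
  obtain ⟨h1, h2⟩ := sqrt_facts hp
  have h3 : ((Real.sqrt p : ℝ) : ℂ) ≠ 0 := by exact_mod_cast h1.ne'
  unfold bd la ww
  push_cast
  field_simp

theorem ellInv_eq {p : ℕ} (hp : 0 < p) (D : ℤ) (t : ℝ) : ellInv D p t =
    1 - ((jacobiSym D p : ℤ) : ℂ) * ((la p : ℝ) : ℂ) * ww p t +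
      ((jacobiSym D p : ℤ) : ℂ) ^ 2 * ww p t ^ 2 := by
  obtain ⟨h1, h2⟩ := sqrt_facts hp
  have h4 : ((Real.sqrt p : ℝ) : ℂ) ^ 2 = (p : ℂ) := by
    rw [sq, ← Complex.ofReal_mul, h2]; push_cast; rfl
  unfold ellInv
  rw [bd_npow hp]
  congr 1
  unfold ww
  rw [mul_pow, h4]
  ring

/-- an Euler factor as a function of the symbol -/
noncomputable def ef (p : ℕ) (t : ℝ) (χ : ℤ) : ℂ :=
  (1 - (χ : ℂ) * ((la p : ℝ) : ℂ) * ww p t + (χ : ℂ) ^ 2 * ww p t ^ 2)⁻¹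

theorem ef_zero (p : ℕ) (t : ℝ) : ef p t 0 = 1 := by
  unfold ef
  simp

theorem ef_eq {p : ℕ} (hp : 0 < p) (D : ℤ) (t : ℝ) : (ellInv D p t)⁻¹ = ef p t (jacobiSym D p) := by
  unfold ef
  rw [ellInv_eq hp]

theorem LP_eq (a b : ℕ) (D : ℤ) (t : ℝ) :
    LP a b D t = ∏ p ∈ primesIoc a b, ef p t (jacobiSym D p) := by
  unfold LP
  exact Finset.prod_congr rfl fun p hp => ef_eq (SUMS_mem hp).2.2.1.pos D t

theorem jet_ef {p : ℕ} (hp : p.Prime) (h3 : 3 ≤ p) (t : ℝ) :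
    Jet (1 / Real.sqrt p) 2 45 (((la p : ℝ) : ℂ) * ww p t)
      ((((la p : ℝ) : ℂ) ^ 2 - 1) * ww p t ^ 2) (ef p t) := by
  obtain ⟨h1, h2⟩ := sqrt_facts hp.pos
  have h4 : (1 : ℝ) / Real.sqrt p ≤ 0.578 := by
    rw [div_le_iff₀ h1]
    have h5 : (3 : ℝ) ≤ p := by exact_mod_cast h3
    have h6 : (1 / 0.578 : ℝ) ≤ Real.sqrt p := by
      apply Real.le_sqrt_of_sq_le
      norm_num
      linarith
    have h7 : (0.578 : ℝ) * (1 / 0.578) = 1 := by norm_num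
    nlinarith
  exact jet_ell (la_abs hp) h4 (ww_norm hp.pos t)

/-- the average of a product over primes -/
theorem RA_prod {a b P : ℕ} (hbP : b ≤ P) (f : ℕ → ℤ → ℂ) :
    RA P (fun D => ∏ p ∈ primesIoc a b, f p (jacobiSym D p)) =
      ∏ p ∈ primesIoc a b, (f p 0 / p + (1 - 1 / p) * (f p 1 + f p (-1)) / 2) := by
  rw [RA_prodIoc hbP (fun p D => f p (jacobiSym D p))]
  · refine Finset.prod_congr rfl fun p hp => ?_
    obtain ⟨_, _, h1, h2, _⟩ := SUMS_mem hp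
    exact loc_avg h1 h2 (f p)
  · intro p _ D
    have : jacobiSym (D + p) p = jacobiSym D p := by
      apply jacobiSym.mod_left'
      exact Int.add_emod_right D p
    simp only [this]

/-- a product of factors close to `1`, over large primes -/
theorem prod_exp {z P : ℕ} (hz : z0 ≤ z) (E m : ℕ → ℂ)
    (h1 : ∀ p ∈ primesIoc z P, ‖m p‖ ≤ 64 / p)
    (h2 : ∀ p ∈ primesIoc z P, ‖E p - (1 + m p)‖ ≤ 3000 / (p : ℝ) ^ 2) :
    ∃ Er : ℂ, ‖Er‖ ≤ 7225 / z ∧ ∏ p ∈ primesIoc z P, E p =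
      exp ((∑ p ∈ primesIoc z P, m p) + Er) := by
  have hz1 : 1 ≤ z := le_trans (by unfold z0; norm_num) hz
  have key : ∀ p ∈ primesIoc z P, E p ≠ 0 ∧ ‖log (E p) - m p‖ ≤ 7225 / (p : ℝ) ^ 2 := by
    intro p hp
    have hp0 : (10000 : ℝ) ≤ p := by
      have := (SUMS_mem hp).1
      have h3 : 10000 ≤ p := by unfold z0 at hz; omega
      exact_mod_cast h3
    have hppos : (0 : ℝ) < p := by linarith
    have h3 := h1 p hp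
    have h4 := h2 p hp
    have h5 : (3000 : ℝ) / (p : ℝ) ^ 2 ≤ 1 / p := by
      rw [div_le_div_iff₀ (by positivity) hppos]
      nlinarith
    have h6 : ‖E p - 1‖ ≤ 65 / p := by
      have e : E p - 1 = (E p - (1 + m p)) + m p := by ring
      rw [e]
      refine (norm_add_le _ _).trans ?_
      have : (65 : ℝ) / p = 1 / p + 64 / p := by ring
      linarith
    have h7 : (65 : ℝ) / p ≤ 1 / 2 := by
      rw [div_le_div_iff₀ hppos (by norm_num)]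
      linarith
    have h8 : ‖E p - 1‖ < 1 := by linarith
    have h9 := Complex.norm_log_one_add_sub_self_le h8
    rw [show 1 + (E p - 1) = E p by ring] at h9
    have h10 : (1 - ‖E p - 1‖)⁻¹ ≤ 2 := by
      rw [inv_le_comm₀ (by linarith) (by norm_num)]
      linarith
    have h11 : ‖log (E p) - (E p - 1)‖ ≤ (65 / p) ^ 2 := by
      refine h9.trans ?_
      have h12 : ‖E p - 1‖ ^ 2 ≤ (65 / p) ^ 2 := by gcongr
      have h13 : 0 ≤ ‖E p - 1‖ ^ 2 := by positivity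
      nlinarith
    refine ⟨?_, ?_⟩
    · intro h
      rw [h, zero_sub, norm_neg, norm_one] at h8
      exact lt_irrefl _ h8
    · have e : log (E p) - m p = (log (E p) - (E p - 1)) + (E p - (1 + m p)) := by ring
      rw [e]
      refine (norm_add_le _ _).trans ((add_le_add h11 h4).trans (le_of_eq ?_))
      field_simp
      ring
  refine ⟨∑ p ∈ primesIoc z P, (log (E p) - m p), ?_, ?_⟩
  · refine (norm_sum_le _ _).trans ((Finset.sum_le_sum fun p hp => (key p hp).2).trans ?_)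
    have h3 := sum_inv_sq_le (P := P) hz1
    have h4 : ∑ p ∈ primesIoc z P, (7225 : ℝ) / (p : ℝ) ^ 2 =
        7225 * ∑ p ∈ primesIoc z P, (1 : ℝ) / (p : ℝ) ^ 2 := by
      rw [Finset.mul_sum]
      exact Finset.sum_congr rfl fun p _ => by ring
    rw [h4]
    calc _ ≤ 7225 * (1 / (z : ℝ)) := by gcongr
      _ = _ := by ring
  · rw [← Finset.sum_add_distrib, Complex.exp_sum]
    refine Finset.prod_congr rfl fun p hp => ?_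
    rw [add_sub_cancel, Complex.exp_log (key p hp).1]

end Pool.Agent.CZ.LocJet
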