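import Mathlib
import Pool.Agent.CZ.Defs
import Pool.Agent.CZ.LocJet

/-!
# Critical zeros (MP_553913_nt), module KER: large primes
-/

set_option autoImplicit false

open Complex Finset MeasureTheory

namespace Pool.Agent.CZ

open Pool.Agent.H5 (c bd)
open Pool.Agent.CZ.LocJet

namespace KERm

theorem norm_le_exp (z : ℂ) : ‖1 + z‖ ≤ Real.exp (z.re + ‖z‖ ^ 2 / 2) := by
  have h1 : ‖1 + z‖ ^ 2 = 1 + (2 * z.re + ‖z‖ ^ 2) := by
    rw [← Complex.normSq_eq_norm_sq, ← Complex.normSq_eq_norm_sq, Complex.normSq_apply,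
      Complex.normSq_apply]
    simp
    ring
  have h2 : ‖1 + z‖ ^ 2 ≤ Real.exp (z.re + ‖z‖ ^ 2 / 2) ^ 2 := by
    rw [h1, ← Real.exp_nat_mul]
    have := Real.add_one_le_exp (2 * z.re + ‖z‖ ^ 2)
    refine le_trans (by linarith) (this.trans (le_of_eq ?_))
    congr 1
    push_cast
    ring
  exact (sq_le_sq₀ (norm_nonneg _) (Real.exp_pos _).le).1 h2

theorem rho_pos {y P : ℕ} (hy : 1 ≤ y) (hP : y ≤ P) (t : ℝ) : 0 < rho y P t := by
  have h1 : 0 ≤ Real.log y := Real.log_nonneg (by exact_mod_cast hy)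
  have h2 : 0 ≤ Real.log P := Real.log_nonneg (by exact_mod_cast hy.trans hP)
  have h3 := abs_nonneg t
  unfold rho
  positivity

theorem const_le {r : ℝ} (h0 : 0 ≤ r) (h1 : r ≤ 1) :
    3 * (2 : ℝ) ^ 4 + 2 * 2 ^ 5 * r + 2 ^ 6 * r ^ 2 +
        2 * 45 * (1 + 2 * r + 2 ^ 2 * r ^ 2 + 2 ^ 3 * r ^ 3) + 45 ^ 2 * r ^ 4 ≤ 3600 := by
  have h2 : r ^ 2 ≤ 1 := pow_le_one₀ h0 h1
  have h3 : r ^ 3 ≤ 1 := pow_le_one₀ h0 h1
  have h4 : r ^ 4 ≤ 1 := pow_le_one₀ h0 h1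
  norm_num
  linarith

/-- the second coefficient of `ell_p(τ) conj(ell_p(τ'))` -/
noncomputable def co (p : ℕ) (τ τ' : ℝ) : ℂ :=
  (((la p : ℝ) : ℂ) ^ 2 - 1) * ww p τ ^ 2 +
      (starRingEnd ℂ) ((((la p : ℝ) : ℂ) ^ 2 - 1) * ww p τ' ^ 2) +
      ((la p : ℝ) : ℂ) * ww p τ * (starRingEnd ℂ) (((la p : ℝ) : ℂ) * ww p τ')

theorem npow_re {p : ℕ} (hp : 0 < p) (t : ℝ) : (npow p t).re = Real.cos (t * Real.log p) / p := by
  rw [npow_eq hp, Complex.sub_re, Complex.ofReal_re, Complex.re_ofReal_mul, Complex.I_re]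
  ring

theorem co_re {p : ℕ} (hp : 0 < p) (τ τ' : ℝ) : (co p τ τ').re =
    (lam2 p - 1) * Real.cos (2 * τ * Real.log p) / p +
      (lam2 p - 1) * Real.cos (2 * τ' * Real.log p) / p +
      lam2 p * Real.cos ((τ - τ') * Real.log p) / p := by
  have e : co p τ τ' = ((lam2 p - 1 : ℝ) : ℂ) * npow p (2 * τ) +
      ((lam2 p - 1 : ℝ) : ℂ) * npow p (-(2 * τ')) + ((lam2 p : ℝ) : ℂ) * npow p (τ - τ') := by
    unfold co
    rw [ww_sq hp, ww_sq hp, ← la_sq]
    simp only [map_mul, map_sub, map_pow, Complex.conj_ofReal, map_one]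
    rw [npow_conj hp, ww_conj hp]
    have e1 : npow p (τ - τ') = ww p τ * ww p (-τ') := by
      rw [ww_mul hp, sub_eq_add_neg]
    rw [e1]
    push_cast
    ring
  rw [e, Complex.add_re, Complex.add_re, Complex.re_ofReal_mul, Complex.re_ofReal_mul,
    Complex.re_ofReal_mul, npow_re hp, npow_re hp, npow_re hp, neg_mul, Real.cos_neg]
  ring

theorem jet_co {p : ℕ} (hp : p.Prime) (h3 : 3 ≤ p) (τ τ' : ℝ) :
    ∃ a₁ : ℂ, Jet (1 / Real.sqrt p) (2 * 2) 3600 a₁ (co p τ τ')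
      (fun χ => ef p τ χ * (starRingEnd ℂ) (ef p τ' χ)) := by
  obtain ⟨h1, h2⟩ := sqrt_facts hp.pos
  have h4 : (0 : ℝ) ≤ 1 / Real.sqrt p := by positivity
  have h5 : (1 : ℝ) / Real.sqrt p ≤ 1 := by
    rw [div_le_one h1, Real.one_le_sqrt]
    exact_mod_cast hp.one_lt.le
  exact ⟨_, ((jet_ef hp h3 τ).mul h4 (by norm_num) (by norm_num) (jet_ef hp h3 τ').conj).mono
    (const_le h4 h5)⟩

/-- the bound of one local factor -/
theorem fac_le {p : ℕ} (hp : p.Prime) (h3 : 3 ≤ p) (τ τ' : ℝ) :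
    ‖ef p τ 0 * (starRingEnd ℂ) (ef p τ' 0) / p + (1 - 1 / p) *
      (ef p τ 1 * (starRingEnd ℂ) (ef p τ' 1) + ef p τ (-1) * (starRingEnd ℂ) (ef p τ' (-1))) / 2‖ ≤
      Real.exp ((co p τ τ').re + 4000000 / (p : ℝ) ^ 2) := by
  obtain ⟨a₁, hj⟩ := jet_co hp h3 τ τ'
  have h := hj.avg (by rw [ef_zero, ef_zero]; simp) hp.one_lt.le rfl
  obtain ⟨a₃, _, h4, _⟩ := hj
  have hp0 : (0 : ℝ) < p := by exact_mod_cast hp.pos
  have hp3 : (3 : ℝ) ≤ p := by exact_mod_cast h3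
  rw [div_pow, Real.sq_sqrt hp0.le] at h4
  set E : ℂ := ef p τ 0 * (starRingEnd ℂ) (ef p τ' 0) / p + (1 - 1 / p) *
      (ef p τ 1 * (starRingEnd ℂ) (ef p τ' 1) + ef p τ (-1) * (starRingEnd ℂ) (ef p τ' (-1))) / 2
    with hE
  have h5 : ‖E - (1 + co p τ τ')‖ ≤ 7216 / (p : ℝ) ^ 2 := by
    refine h.trans (le_of_eq ?_)
    norm_num
  have h6 : ‖co p τ τ'‖ ≤ 16 / p := by
    refine h4.trans (le_of_eq ?_)
    ring
  have h7 : E = 1 + (E - 1) := by ring
  have h8 : (E - 1).re ≤ (co p τ τ').re + 7216 / (p : ℝ) ^ 2 := by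
    have e : E - 1 = co p τ τ' + (E - (1 + co p τ τ')) := by ring
    rw [e, Complex.add_re]
    have := (Complex.re_le_norm (E - (1 + co p τ τ'))).trans h5
    linarith
  have h9 : ‖E - 1‖ ≤ 2500 / p := by
    have e : E - 1 = co p τ τ' + (E - (1 + co p τ τ')) := by ring
    rw [e]
    refine (norm_add_le _ _).trans ((add_le_add h6 h5).trans ?_)
    have h10 : (7216 : ℝ) / (p : ℝ) ^ 2 ≤ 2406 / p := by
      rw [div_le_div_iff₀ (by positivity) hp0]
      nlinarith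
    have h11 : (2500 : ℝ) / p = 16 / p + 2484 / p := by ring
    have h12 : (2406 : ℝ) / p ≤ 2484 / p := by gcongr; norm_num
    linarith
  have h10 : ‖E - 1‖ ^ 2 / 2 ≤ 3125000 / (p : ℝ) ^ 2 := by
    have : ‖E - 1‖ ^ 2 ≤ (2500 / p) ^ 2 := by gcongr
    refine (div_le_div_of_nonneg_right this (by norm_num)).trans (le_of_eq ?_)
    field_simp
    norm_num
  rw [h7]
  refine (norm_le_exp _).trans (Real.exp_le_exp.2 ?_)
  have h11 : (4000000 : ℝ) / (p : ℝ) ^ 2 = 7216 / (p : ℝ) ^ 2 + 3125000 / (p : ℝ) ^ 2 +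
      867784 / (p : ℝ) ^ 2 := by ring
  have h12 : (0 : ℝ) ≤ 867784 / (p : ℝ) ^ 2 := by positivity
  linarith

end KERm

open KERm

theorem KER : ∃ C : ℝ, ∀ (y P : ℕ) (τ τ' : ℝ), 1 ≤ y → y ≤ P →
    ‖RA P (fun D => LP y P D τ * (starRingEnd ℂ) (LP y P D τ'))‖ ≤
      C * (2 + |τ| + |τ'|) ^ C * rho y P (τ - τ') := by
  obtain ⟨C₁, h₁⟩ := PS1
  obtain ⟨C₂, h₂⟩ := PS2
  set A : ℝ := 8 * |C₁| + 3 * |C₂| with hA
  set B : ℝ := 4000000 with hB
  refine ⟨A + Real.exp B, fun y P τ τ' hy hP => ?_⟩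
  have hA0 : 0 ≤ A := by positivity
  set T : ℝ := 2 + |τ| + |τ'| with hT
  have hτ := abs_nonneg τ
  have hτ' := abs_nonneg τ'
  have hT2 : 2 ≤ T := by rw [hT]; linarith
  have hlT : 1 ≤ 2 * Real.log T := by
    have h3 : Real.log 2 ≤ Real.log T := Real.log_le_log (by norm_num) hT2
    have := Real.log_two_gt_d9
    linarith
  have hρ := rho_pos hy hP (τ - τ')
  -- the expectation as a product
  have h3 : RA P (fun D => LP y P D τ * (starRingEnd ℂ) (LP y P D τ')) =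
      ∏ p ∈ primesIoc y P, (ef p τ 0 * (starRingEnd ℂ) (ef p τ' 0) / p + (1 - 1 / p) *
      (ef p τ 1 * (starRingEnd ℂ) (ef p τ' 1) +
        ef p τ (-1) * (starRingEnd ℂ) (ef p τ' (-1))) / 2) := by
    rw [← RA_prod (le_refl P) (fun p χ => ef p τ χ * (starRingEnd ℂ) (ef p τ' χ))]
    congr 1
    funext D
    rw [LP_eq, LP_eq, map_prod, ← Finset.prod_mul_distrib]
  rw [h3, norm_prod]
  have h4 : ∏ p ∈ primesIoc y P, ‖ef p τ 0 * (starRingEnd ℂ) (ef p τ' 0) / p + (1 - 1 / p) *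
      (ef p τ 1 * (starRingEnd ℂ) (ef p τ' 1) +
        ef p τ (-1) * (starRingEnd ℂ) (ef p τ' (-1))) / 2‖ ≤
      ∏ p ∈ primesIoc y P, Real.exp ((co p τ τ').re + 4000000 / (p : ℝ) ^ 2) := by
    refine Finset.prod_le_prod (fun _ _ => norm_nonneg _) fun p hp => ?_
    obtain ⟨_, _, h5, _, h6⟩ := SUMS_mem hp
    exact fac_le h5 h6 τ τ'
  refine h4.trans ?_
  rw [← Real.exp_sum, Finset.sum_add_distrib]
  have h5 : ∑ p ∈ primesIoc y P, (4000000 : ℝ) / (p : ℝ) ^ 2 ≤ B := by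
    have h6 := sum_inv_sq_le (P := P) hy
    have h7 : ∑ p ∈ primesIoc y P, (4000000 : ℝ) / (p : ℝ) ^ 2 =
        4000000 * ∑ p ∈ primesIoc y P, (1 : ℝ) / (p : ℝ) ^ 2 := by
      rw [Finset.mul_sum]
      exact Finset.sum_congr rfl fun p _ => by ring
    have h8 : (1 : ℝ) / y ≤ 1 := by
      have : (1 : ℝ) ≤ y := by exact_mod_cast hy
      rw [div_le_one (by linarith)]
      exact this
    rw [h7, hB]
    linarith
  have h6 : ∑ p ∈ primesIoc y P, (co p τ τ').re =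
      ∑ p ∈ primesIoc y P, (lam2 p - 1) * Real.cos (2 * τ * Real.log p) / p +
      ∑ p ∈ primesIoc y P, (lam2 p - 1) * Real.cos (2 * τ' * Real.log p) / p +
      ∑ p ∈ primesIoc y P, lam2 p * Real.cos ((τ - τ') * Real.log p) / p := by
    rw [← Finset.sum_add_distrib, ← Finset.sum_add_distrib]
    exact Finset.sum_congr rfl fun p hp => co_re (SUMS_mem hp).2.2.1.pos τ τ'
  have h7 := (abs_le.1 (h₁ y P (2 * τ) hy hP)).2
  have h8 := (abs_le.1 (h₁ y P (2 * τ') hy hP)).2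
  have h9 := (abs_le.1 (h₂ y P (τ - τ') hy hP)).2
  have hlog1 : ∀ u : ℝ, 2 + |u| ≤ 2 * T → C₁ * (1 + Real.log (2 + |u|)) ≤ 4 * |C₁| * Real.log T := by
    intro u hu
    have hu0 := abs_nonneg u
    have g1 : Real.log (2 + |u|) ≤ 2 * Real.log T := by
      have g2 : Real.log (2 + |u|) ≤ Real.log (T * T) :=
        Real.log_le_log (by linarith) (by nlinarith)
      rw [Real.log_mul (by linarith) (by linarith)] at g2
      linarith
    have g3 : 0 ≤ Real.log (2 + |u|) := Real.log_nonneg (by linarith)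
    calc C₁ * (1 + Real.log (2 + |u|)) ≤ |C₁| * (1 + Real.log (2 + |u|)) := by
          gcongr
          exact le_abs_self _
      _ ≤ |C₁| * (4 * Real.log T) := by gcongr; linarith
      _ = _ := by ring
  have h10 := hlog1 (2 * τ) (by
    rw [abs_mul, abs_two, hT]; linarith)
  have h11 := hlog1 (2 * τ') (by
    rw [abs_mul, abs_two, hT]; linarith)
  have h12 : C₂ * (1 + Real.log (2 + |τ - τ'|)) ≤ 3 * |C₂| * Real.log T := by
    have hu0 := abs_nonneg (τ - τ')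
    have g0 : |τ - τ'| ≤ |τ| + |τ'| := abs_sub τ τ'
    have g1 : Real.log (2 + |τ - τ'|) ≤ Real.log T :=
      Real.log_le_log (by linarith) (by rw [hT]; linarith)
    have g3 : 0 ≤ Real.log (2 + |τ - τ'|) := Real.log_nonneg (by linarith)
    calc C₂ * (1 + Real.log (2 + |τ - τ'|)) ≤ |C₂| * (1 + Real.log (2 + |τ - τ'|)) := by
          gcongr
          exact le_abs_self _
      _ ≤ |C₂| * (3 * Real.log T) := by gcongr; linarith
      _ = _ := by ring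
  have h13 : ∑ p ∈ primesIoc y P, (co p τ τ').re + ∑ p ∈ primesIoc y P, (4000000 : ℝ) / (p : ℝ) ^ 2 ≤
      Real.log (rho y P (τ - τ')) + A * Real.log T + B := by
    rw [h6, hA]
    linarith
  refine (Real.exp_le_exp.2 h13).trans ?_
  rw [Real.exp_add, Real.exp_add, Real.exp_log hρ]
  have h14 : Real.exp (A * Real.log T) = T ^ A := by
    rw [Real.rpow_def_of_pos (by linarith), mul_comm]
  rw [h14]
  have hE : 0 < Real.exp B := Real.exp_pos B
  have h15 : T ^ A ≤ T ^ (A + Real.exp B) :=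
    Real.rpow_le_rpow_of_exponent_le (by linarith) (by linarith)
  have h16 : 0 ≤ T ^ A := Real.rpow_nonneg (by linarith) _
  have h17 : 0 ≤ T ^ (A + Real.exp B) := Real.rpow_nonneg (by linarith) _
  calc rho y P (τ - τ') * T ^ A * Real.exp B = Real.exp B * T ^ A * rho y P (τ - τ') := by ring
    _ ≤ (A + Real.exp B) * T ^ (A + Real.exp B) * rho y P (τ - τ') := by
        refine mul_le_mul_of_nonneg_right ?_ hρ.le
        refine mul_le_mul (by linarith) h15 h16 (by linarith)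

end Pool.Agent.CZ
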