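import Mathlib
import Pool.Agent.CZ.Defs
import Pool.Agent.ZD.T
import Pool.Agent.ZD.E1
import Pool.Agent.H5.EulerFrozen

/-!
# Critical zeros (MP_553913_nt): Mellin representation of the windows in the random model
-/

set_option autoImplicit false

open Complex Finset MeasureTheory

namespace Pool.Agent.CZ

open Pool.Agent.H5 (c bd)
open Pool.Agent.ZD (S)

/-! ### Size of the coefficients -/

theorem MEL_card_divisors (n : ℕ) : n.divisors.card ≤ 2 * n.sqrt := by
  have hsub : n.divisors ⊆ (Icc 1 n.sqrt) ∪ (Icc 1 n.sqrt).image (fun d => n / d) := by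
    intro d hd
    rw [Nat.mem_divisors] at hd
    obtain ⟨hd1, hn⟩ := hd
    have hd0 : 0 < d := Nat.pos_of_dvd_of_pos hd1 (Nat.pos_of_ne_zero hn)
    rw [Finset.mem_union, Finset.mem_Icc, Finset.mem_image]
    by_cases h : d ≤ n.sqrt
    · exact Or.inl ⟨hd0, h⟩
    · right
      refine ⟨n / d, ?_, ?_⟩
      · rw [Finset.mem_Icc]
        constructor
        · exact Nat.div_pos (Nat.le_of_dvd (Nat.pos_of_ne_zero hn) hd1) hd0
        · by_contra h2
          push Not at h h2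
          have h3 : (n.sqrt + 1) * (n.sqrt + 1) ≤ d * (n / d) := Nat.mul_le_mul h h2
          rw [Nat.mul_div_cancel' hd1] at h3
          have h4 := Nat.lt_succ_sqrt n
          simp only [Nat.succ_eq_add_one] at h4
          omega
      · exact Nat.div_div_self hd1 hn
  calc n.divisors.card ≤ _ := Finset.card_le_card hsub
    _ ≤ (Icc 1 n.sqrt).card + ((Icc 1 n.sqrt).image (fun d => n / d)).card := Finset.card_union_le _ _
    _ ≤ (Icc 1 n.sqrt).card + (Icc 1 n.sqrt).card := Nat.add_le_add_left Finset.card_image_le _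
    _ = 2 * n.sqrt := by rw [Nat.card_Icc]; omega

theorem MEL_abs_c (n : ℕ) : |(c n : ℝ)| ≤ 2 * n := by
  have h1 := Pool.Agent.ZD.abs_c_le' n
  have h2 : (n.divisors.card : ℝ) ≤ 2 * Real.sqrt n := by
    have h3 : (n.divisors.card : ℝ) ≤ 2 * (n.sqrt : ℝ) := by exact_mod_cast MEL_card_divisors n
    have h4 : (n.sqrt : ℝ) ≤ Real.sqrt n := Real.nat_sqrt_le_real_sqrt
    linarith
  calc |(c n : ℝ)| ≤ n.divisors.card * Real.sqrt n := h1
    _ ≤ (2 * Real.sqrt n) * Real.sqrt n := by gcongr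
    _ = 2 * n := by rw [mul_assoc, Real.mul_self_sqrt (Nat.cast_nonneg n)]

theorem MEL_npow_norm {n : ℕ} (hn : 0 < n) (t : ℝ) : ‖npow n t‖ = 1 / n := by
  unfold npow
  rw [Complex.norm_natCast_cpow_of_pos hn]
  have : (-(1 + (t : ℂ) * I)).re = -1 := by simp
  rw [this, Real.rpow_neg_one, one_div]

theorem MEL_npow_mul (m n : ℕ) (t : ℝ) : npow (m * n) t = npow m t * npow n t := by
  unfold npow
  rw [Nat.cast_mul, Complex.natCast_mul_natCast_cpow]

theorem MEL_npow_one (t : ℝ) : npow 1 t = 1 := by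
  unfold npow
  simp

theorem MEL_npow_pow (p e : ℕ) (t : ℝ) : npow (p ^ e) t = (npow p t) ^ e := by
  unfold npow
  exact Pool.Agent.H5.cpow_aux p e _

/-- the summand of the Dirichlet series -/
noncomputable def MEL_f (D : ℤ) (t : ℝ) (n : ℕ) : ℂ := (bd D n : ℂ) * npow n t

theorem MEL_f_norm_le (D : ℤ) (t : ℝ) (n : ℕ) : ‖MEL_f D t n‖ ≤ |(c n : ℝ)| / n := by
  unfold MEL_f
  rcases Nat.eq_zero_or_pos n with rfl | hn
  · rw [Pool.Agent.H5.bd_zero]; simp
  · rw [norm_mul, MEL_npow_norm hn, Complex.norm_intCast, mul_one_div]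
    exact div_le_div_of_nonneg_right (Pool.Agent.H5.abs_bd_le D n) (Nat.cast_nonneg n)

theorem MEL_local_summable (D : ℤ) (t : ℝ) {p : ℕ} (hp : p.Prime) :
    Summable (fun e : ℕ => ‖MEL_f D t (p ^ e)‖) := by
  have hr : ‖((Real.sqrt p)⁻¹ : ℝ)‖ < 1 := by
    have h1 : (1 : ℝ) < Real.sqrt p := by
      rw [Real.lt_sqrt (by norm_num)]
      have : (1 : ℝ) < p := by exact_mod_cast hp.one_lt
      linarith
    rw [Real.norm_of_nonneg (by positivity)]
    exact inv_lt_one_of_one_lt₀ h1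
  have hs1 : Summable (fun e : ℕ => ((e : ℝ) ^ 1 * ((Real.sqrt p)⁻¹) ^ e)) :=
    summable_pow_mul_geometric_of_norm_lt_one 1 hr
  have hs0 : Summable (fun e : ℕ => ((Real.sqrt p)⁻¹) ^ e) :=
    summable_geometric_of_norm_lt_one hr
  refine Summable.of_nonneg_of_le (fun _ => norm_nonneg _) (fun e => ?_) (hs1.add hs0)
  have hp0 : (0 : ℝ) < p := by exact_mod_cast hp.pos
  have hsq : 0 < Real.sqrt p := Real.sqrt_pos.2 hp0
  have h1 := MEL_f_norm_le D t (p ^ e)
  have h2 := Pool.Agent.ZD.abs_c_le' (p ^ e)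
  have hcard : ((p ^ e).divisors.card : ℝ) = e + 1 := by
    rw [Nat.divisors_prime_pow hp, Finset.card_map, Finset.card_range]
    push_cast; ring
  have hsqrt : Real.sqrt ((p ^ e : ℕ) : ℝ) = Real.sqrt p ^ e := by
    rw [Nat.cast_pow, Real.sqrt_eq_iff_mul_self_eq (by positivity) (by positivity), ← mul_pow,
      Real.mul_self_sqrt (Nat.cast_nonneg p)]
  rw [hcard, hsqrt] at h2
  calc ‖MEL_f D t (p ^ e)‖ ≤ |(c (p ^ e) : ℝ)| / ((p ^ e : ℕ) : ℝ) := h1
    _ ≤ ((e + 1) * Real.sqrt p ^ e) / ((p ^ e : ℕ) : ℝ) := by gcongr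
    _ = ((e + 1) * Real.sqrt p ^ e) / (Real.sqrt p ^ e * Real.sqrt p ^ e) := by
        rw [← mul_pow, Real.mul_self_sqrt hp0.le, Nat.cast_pow]
    _ = (e : ℝ) ^ 1 * ((Real.sqrt p)⁻¹) ^ e + ((Real.sqrt p)⁻¹) ^ e := by
        rw [inv_pow]
        field_simp

theorem MEL_local_sum (D : ℤ) (t : ℝ) {p : ℕ} (hp : p.Prime) (h2 : p ≠ 2) :
    ∑' e : ℕ, MEL_f D t (p ^ e) = (ellInv D p t)⁻¹ := by
  have hf : Fact p.Prime := ⟨hp⟩
  by_cases hpd : (p : ℤ) ∣ D
  · have h1 := Pool.Agent.H5.factor_bad D p (Or.inr hpd) (1 + (t : ℂ) * I)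
    have hj : jacobiSym D p = 0 := by
      rw [← jacobiSym.legendreSym.to_jacobiSym, legendreSym.eq_zero_iff]
      exact (ZMod.intCast_zmod_eq_zero_iff_dvd D p).2 hpd
    have h3 : ellInv D p t = 1 := by
      unfold ellInv
      have : bd D p = 0 := by unfold bd; rw [hj, zero_mul]
      rw [this, hj]; simp
    rw [h3, inv_one, ← h1]
    rfl
  · obtain ⟨h1, hrec⟩ := Pool.Agent.H5.bd_prime D p h2 hpd
    have hj := Pool.Agent.H5.jacobiSym_sq_one hpd
    have hx : ∀ e : ℕ, MEL_f D t (p ^ e) = (bd D (p ^ e) : ℂ) * (npow p t) ^ e := by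
      intro e; unfold MEL_f; rw [MEL_npow_pow]
    have hsum : Summable (fun e : ℕ => (bd D (p ^ e) : ℂ) * (npow p t) ^ e) :=
      ((MEL_local_summable D t hp).of_norm).congr (fun e => hx e)
    rw [tsum_congr hx]
    have h := Pool.Agent.H5.local_factor (a := (bd D p : ℂ)) (q := (p : ℂ)) (x := npow p t)
      (t := fun e => (bd D (p ^ e) : ℂ)) (by simp [Pool.Agent.H5.bd_one]) (by simp)
      (fun e => by
        have := hrec e
        rw [← h1] at this
        rw [this]; push_cast; ring) hsum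
    rw [h]
    unfold ellInv
    have hj' : ((jacobiSym D p : ℤ) : ℂ) ^ 2 = 1 := by exact_mod_cast hj
    rw [hj', one_mul]

theorem MEL_f_mul (D : ℤ) (t : ℝ) {m n : ℕ} (h : m.Coprime n) :
    MEL_f D t (m * n) = MEL_f D t m * MEL_f D t n := by
  unfold MEL_f
  rw [Pool.Agent.H5.bd_mul D h, MEL_npow_mul]
  push_cast; ring

theorem MEL_f_one (D : ℤ) (t : ℝ) : MEL_f D t 1 = 1 := by
  unfold MEL_f
  rw [Pool.Agent.H5.bd_one, MEL_npow_one]; simp

/-- `P`-smooth numbers -/
def MEL_A (P : ℕ) : Set ℕ := Nat.factoredNumbers (Ioc 0 P)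

theorem MEL_mem_of_le {P n : ℕ} (h0 : n ≠ 0) (h : n ≤ P) : n ∈ MEL_A P := by
  unfold MEL_A
  rw [Nat.mem_factoredNumbers']
  intro p hp hd
  rw [Finset.mem_Ioc]
  exact ⟨hp.pos, (Nat.le_of_dvd (Nat.pos_of_ne_zero h0) hd).trans h⟩

theorem MEL_euler (P : ℕ) (D : ℤ) (t : ℝ) :
    Summable (fun m : MEL_A P => ‖MEL_f D t m‖) ∧
      HasSum (fun m : MEL_A P => MEL_f D t m) (LP 0 P D t) := by
  have h := EulerProduct.summable_and_hasSum_factoredNumbers_prod_filter_prime_tsum
    (f := MEL_f D t) (MEL_f_one D t) (fun {m n} h => MEL_f_mul D t h)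
    (fun {p} hp => MEL_local_summable D t hp) (Ioc 0 P)
  refine ⟨h.1, ?_⟩
  have h2 := h.2
  have he : (∏ p ∈ Ioc 0 P with p.Prime, ∑' n : ℕ, MEL_f D t (p ^ n)) = LP 0 P D t := by
    unfold LP
    have h3 : ∏ p ∈ primesIoc 0 P, (ellInv D p t)⁻¹ =
        ∏ p ∈ primesIoc 0 P, ∑' n : ℕ, MEL_f D t (p ^ n) := by
      apply Finset.prod_congr rfl
      intro p hp
      unfold primesIoc at hp
      rw [Finset.mem_filter] at hp
      exact (MEL_local_sum D t hp.2.1 hp.2.2).symm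
    rw [h3]
    symm
    apply Finset.prod_subset
    · intro p hp
      unfold primesIoc at hp
      rw [Finset.mem_filter] at hp ⊢
      exact ⟨hp.1, hp.2.1⟩
    · intro p hp hp'
      rw [Finset.mem_filter] at hp
      have h2 : p = 2 := by
        by_contra h3
        apply hp'
        unfold primesIoc
        rw [Finset.mem_filter]
        exact ⟨hp.1, hp.2, h3⟩
      have hf : Fact p.Prime := ⟨hp.2⟩
      exact Pool.Agent.H5.factor_bad D p (Or.inl h2) (1 + (t : ℂ) * I)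
  rw [he] at h2
  exact h2

/-- majorant of the smooth sums -/
theorem MEL_majorant (P : ℕ) :
    Summable ((MEL_A P).indicator (fun n : ℕ => |(c n : ℝ)| / n)) := by
  have h := (MEL_euler P 1 0).1
  rw [← summable_subtype_iff_indicator]
  refine h.congr (fun m => ?_)
  simp only [Function.comp]
  have hm : 0 < (m : ℕ) := Nat.pos_of_ne_zero (Nat.ne_zero_of_mem_factoredNumbers m.2)
  unfold MEL_f
  rw [norm_mul, MEL_npow_norm hm, Complex.norm_intCast, Pool.Agent.ZD.E1.bd_one_left, mul_one_div]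

theorem MEL_LP_eq (P : ℕ) (D : ℤ) (t : ℝ) :
    HasSum ((MEL_A P).indicator (MEL_f D t)) (LP 0 P D t) :=
  (hasSum_subtype_iff_indicator).1 (MEL_euler P D t).2

theorem LP_bounded (P : ℕ) : ∃ B : ℝ, ∀ (D : ℤ) (t : ℝ), ‖LP 0 P D t‖ ≤ B := by
  refine ⟨∑' n, (MEL_A P).indicator (fun n : ℕ => |(c n : ℝ)| / n) n, fun D t => ?_⟩
  rw [← (MEL_LP_eq P D t).tsum_eq]
  refine tsum_of_norm_bounded (MEL_majorant P).hasSum (fun n => ?_)
  rw [norm_indicator_eq_indicator_norm]
  exact Set.indicator_le_indicator (MEL_f_norm_le D t n)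

/-! ### Mellin representation of the theta series -/

/-- the kernel `Γ(1+iτ) w^{-(1+iτ)}` -/
noncomputable def MEL_G (r τ : ℝ) : ℂ :=
  Complex.Gamma (1 + τ * I) * ((2 * Real.pi * r : ℝ) : ℂ) ^ (-(1 + (τ : ℂ) * I))

theorem MEL_G_integrable {r : ℝ} (hr : 0 < r) : Integrable (MEL_G r) := by
  have hw : 0 < (((2 * Real.pi * r : ℝ) : ℂ)).re := by
    rw [Complex.ofReal_re]; have := Real.pi_pos; positivity
  have h := Pool.Agent.ZD.line_integrable (σ := 1) one_pos hw
  refine h.congr (Filter.Eventually.of_forall fun v => ?_)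
  unfold MEL_G
  simp only [Complex.ofReal_one]
  ring

theorem MEL_G_int {r : ℝ} (hr : 0 < r) {n : ℕ} (hn : 0 < n) :
    ∫ τ : ℝ, npow n τ * MEL_G r τ = 2 * Real.pi * Complex.exp (-(2 * Real.pi * n * r)) := by
  have hpi := Real.pi_pos
  have hn' : (0 : ℝ) < n := by exact_mod_cast hn
  have hw : 0 < (((2 * Real.pi * n * r : ℝ) : ℂ)).re := by
    rw [Complex.ofReal_re]; positivity
  have h := Pool.Agent.ZD.gamma_inversion (σ := 1) one_pos hw
  have e : (fun τ : ℝ => npow n τ * MEL_G r τ) = fun v : ℝ =>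
      ((2 * Real.pi * n * r : ℝ) : ℂ) ^ (-(((1 : ℝ) : ℂ) + v * I)) * Complex.Gamma (((1 : ℝ) : ℂ) + v * I) := by
    funext v
    unfold MEL_G npow
    simp only [Complex.ofReal_one]
    have e1 : ((2 * Real.pi * n * r : ℝ) : ℂ) = ((n : ℝ) : ℂ) * ((2 * Real.pi * r : ℝ) : ℂ) := by
      push_cast; ring
    rw [e1, Complex.mul_cpow_ofReal_nonneg hn'.le (by positivity)]
    push_cast
    ring
  rw [e, h]
  push_cast
  ring_nf

theorem MEL_main_aux {r : ℝ} (hr : 0 < r) (n : ℕ) (D : ℤ) (P : ℕ) :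
    (MEL_A P).indicator (fun n : ℕ => (bd D n : ℂ) * exp (-(2 * Real.pi * n * r))) n =
      ((1 / (2 * Real.pi) : ℝ) : ℂ) * ∫ τ : ℝ, (MEL_A P).indicator (MEL_f D τ) n * MEL_G r τ := by
  have hpi := Real.pi_pos
  by_cases hn : n ∈ MEL_A P
  · have hn0 : 0 < n := Nat.pos_of_ne_zero (Nat.ne_zero_of_mem_factoredNumbers hn)
    simp only [Set.indicator_of_mem hn]
    have e2 : (fun τ : ℝ => MEL_f D τ n * MEL_G r τ) = fun τ => (bd D n : ℂ) * (npow n τ * MEL_G r τ) := by
      funext τ; unfold MEL_f; ring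
    rw [e2, integral_const_mul, MEL_G_int hr hn0]
    have hpi' : (Real.pi : ℂ) ≠ 0 := by exact_mod_cast hpi.ne'
    push_cast
    field_simp
  · simp only [Set.indicator_of_notMem hn]
    simp

theorem MEL_main {P : ℕ} {D : ℤ} {r : ℝ} (hr : 0 < r) :
    HasSum ((MEL_A P).indicator (fun n : ℕ => (bd D n : ℂ) * exp (-(2 * Real.pi * n * r))))
      ((1 / (2 * Real.pi) : ℝ) * ∫ τ : ℝ, MEL_G r τ * LP 0 P D τ) := by
  have hpi := Real.pi_pos
  set F : ℕ → ℝ → ℂ := fun n τ => (MEL_A P).indicator (MEL_f D τ) n * MEL_G r τ with hF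
  have hG := MEL_G_integrable hr
  have hnorm : ∀ n τ, ‖F n τ‖ ≤ (MEL_A P).indicator (fun n : ℕ => |(c n : ℝ)| / n) n * ‖MEL_G r τ‖ := by
    intro n τ
    simp only [hF]
    rw [norm_mul]
    refine mul_le_mul_of_nonneg_right ?_ (norm_nonneg _)
    rw [norm_indicator_eq_indicator_norm]
    exact Set.indicator_le_indicator (MEL_f_norm_le D τ n)
  have hcont : ∀ n, Continuous (fun τ : ℝ => (MEL_A P).indicator (MEL_f D τ) n) := by
    intro n
    by_cases hn : n ∈ MEL_A P
    · simp only [Set.indicator_of_mem hn]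
      unfold MEL_f npow
      have hn0 : (n : ℂ) ≠ 0 := by
        exact_mod_cast Nat.ne_zero_of_mem_factoredNumbers hn
      apply Continuous.mul continuous_const
      apply Continuous.const_cpow (by fun_prop)
      exact Or.inl hn0
    · simp only [Set.indicator_of_notMem hn]
      exact continuous_const
  have hint : ∀ n, Integrable (F n) := by
    intro n
    refine Integrable.mono' (hG.norm.const_mul
      ((MEL_A P).indicator (fun n : ℕ => |(c n : ℝ)| / n) n)) ?_ (Filter.Eventually.of_forall (hnorm n))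
    exact (hcont n).aestronglyMeasurable.mul hG.aestronglyMeasurable
  have hsum : Summable (fun n => ∫ τ, ‖F n τ‖) := by
    refine Summable.of_nonneg_of_le (fun n => integral_nonneg fun _ => norm_nonneg _) (fun n => ?_)
      ((MEL_majorant P).mul_right (∫ τ, ‖MEL_G r τ‖))
    rw [← integral_const_mul]
    exact integral_mono (hint n).norm (hG.norm.const_mul _) (hnorm n)
  have h := hasSum_integral_of_summable_integral_norm hint hsum
  have e1 : (fun τ : ℝ => ∑' n, F n τ) = fun τ => MEL_G r τ * LP 0 P D τ := by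
    funext τ
    simp only [hF]
    rw [tsum_mul_right, (MEL_LP_eq P D τ).tsum_eq, mul_comm]
  rw [e1] at h
  have h2 := h.mul_left (((1 / (2 * Real.pi) : ℝ)) : ℂ)
  have e3 : (MEL_A P).indicator (fun n : ℕ => (bd D n : ℂ) * exp (-(2 * Real.pi * n * r))) =
      fun i => ((1 / (2 * Real.pi) : ℝ) : ℂ) * ∫ a : ℝ, F i a := by
    funext n
    simp only [hF]
    exact MEL_main_aux hr n D P
  rw [e3]
  exact h2

theorem MEL_decay_summable {a : ℝ} (ha : 0 < a) :
    Summable (fun n : ℕ => (n : ℝ) * Real.exp (-(a * n))) := by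
  have hr : ‖Real.exp (-a)‖ < 1 := by
    rw [Real.norm_of_nonneg (Real.exp_pos _).le, Real.exp_lt_one_iff]; linarith
  have h := summable_pow_mul_geometric_of_norm_lt_one 1 hr
  refine h.congr (fun n => ?_)
  rw [pow_one, ← Real.exp_nat_mul]
  congr 2
  ring

theorem MEL_S_summable (D : ℤ) {r : ℝ} (hr : 0 < r) :
    Summable (fun n : ℕ => ‖(bd D n : ℂ) * exp (-(2 * Real.pi * n * r))‖) := by
  have hpi := Real.pi_pos
  refine Summable.of_nonneg_of_le (fun _ => norm_nonneg _) (fun n => ?_)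
    ((MEL_decay_summable (a := 2 * Real.pi * r) (by positivity)).mul_left 2)
  rw [norm_mul, Complex.norm_intCast, Complex.norm_exp]
  have e : (-(2 * (Real.pi : ℂ) * n * r)).re = -(2 * Real.pi * r * n) := by
    have : (-(2 * (Real.pi : ℂ) * n * r)) = ((-(2 * Real.pi * r * n) : ℝ) : ℂ) := by push_cast; ring
    rw [this, Complex.ofReal_re]
  rw [e]
  have h1 : |(bd D n : ℝ)| ≤ 2 * n := (Pool.Agent.H5.abs_bd_le D n).trans (MEL_abs_c n)
  calc |(bd D n : ℝ)| * Real.exp (-(2 * Real.pi * r * n)) ≤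
      (2 * n) * Real.exp (-(2 * Real.pi * r * n)) := by gcongr
    _ = _ := by ring

theorem theta_mellin {P : ℕ} {D : ℤ} {r : ℝ} (hr : 0 < r) :
    ‖S D r - (1 / (2 * Real.pi) : ℝ) * ∫ τ : ℝ, Complex.Gamma (1 + τ * I) *
        ((2 * Real.pi * r : ℝ) : ℂ) ^ (-(1 + (τ : ℂ) * I)) * LP 0 P D τ‖ ≤
      10 * ∑' n : ℕ, if P < n then (n : ℝ) * Real.exp (-(2 * Real.pi * n * r)) else 0 := by
  have hpi := Real.pi_pos
  have h1 := MEL_main (P := P) (D := D) hr
  have h2 : HasSum (fun n : ℕ => (bd D n : ℂ) * exp (-(2 * Real.pi * n * r))) (S D r) :=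
    (MEL_S_summable D hr).of_norm.hasSum
  have h3 := h2.sub h1
  have h4 : Summable (fun n : ℕ => if P < n then (n : ℝ) * Real.exp (-(2 * Real.pi * n * r)) else 0) := by
    refine Summable.of_nonneg_of_le (fun n => ?_) (fun n => ?_)
      (MEL_decay_summable (a := 2 * Real.pi * r) (by positivity))
    · split_ifs <;> positivity
    · have e : -(2 * Real.pi * n * r) = -(2 * Real.pi * r * n) := by ring
      split_ifs
      · rw [e]
      · positivity
  have h5 := h4.mul_left 10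
  have h6 : ‖S D r - (1 / (2 * Real.pi) : ℝ) * ∫ τ : ℝ, MEL_G r τ * LP 0 P D τ‖ ≤
      ∑' n : ℕ, 10 * (if P < n then (n : ℝ) * Real.exp (-(2 * Real.pi * n * r)) else 0) := by
    rw [← h3.tsum_eq]
    refine tsum_of_norm_bounded h5.hasSum (fun n => ?_)
    by_cases hn : n ∈ MEL_A P
    · rw [Set.indicator_of_mem hn, sub_self, norm_zero]
      split_ifs <;> positivity
    · rw [Set.indicator_of_notMem hn, sub_zero]
      rcases Nat.eq_zero_or_pos n with h0 | h0
      · rw [h0, Pool.Agent.H5.bd_zero]; simp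
      · have hP : P < n := by
          by_contra h
          exact hn (MEL_mem_of_le h0.ne' (by omega))
        rw [if_pos hP, norm_mul, Complex.norm_intCast, Complex.norm_exp]
        have e : (-(2 * (Real.pi : ℂ) * n * r)).re = -(2 * Real.pi * n * r) := by
          have : (-(2 * (Real.pi : ℂ) * n * r)) = ((-(2 * Real.pi * n * r) : ℝ) : ℂ) := by push_cast; ring
          rw [this, Complex.ofReal_re]
        rw [e]
        have h1 : |(bd D n : ℝ)| ≤ 2 * n := (Pool.Agent.H5.abs_bd_le D n).trans (MEL_abs_c n)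
        have h7 : (0 : ℝ) ≤ n := Nat.cast_nonneg n
        calc |(bd D n : ℝ)| * Real.exp (-(2 * Real.pi * n * r)) ≤
            (10 * n) * Real.exp (-(2 * Real.pi * n * r)) := by gcongr; linarith
          _ = _ := by ring
  rw [tsum_mul_left] at h6
  exact h6

/-! ### Windows -/

theorem MEL_tail {X : ℝ} (hX : 3 ≤ X) {P : ℕ} (hP : X ^ 3 ≤ P) {r : ℝ} (hr : 1 / (20 * X) ≤ r) :
    ∑' n : ℕ, (if P < n then (n : ℝ) * Real.exp (-(2 * Real.pi * n * r)) else 0) ≤
      400 * X ^ 2 * Real.exp (-(X ^ 2 / 7)) := by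
  have hpi := Real.pi_pos
  have hpi3 := Real.pi_gt_three
  have hX0 : 0 < X := by linarith
  set a : ℝ := Real.pi / (40 * X) with ha
  have ha0 : 0 < a := by positivity
  have hr' : 4 * a ≤ 2 * Real.pi * r := by
    calc 4 * a = 2 * Real.pi * (1 / (20 * X)) := by rw [ha]; field_simp; ring
      _ ≤ _ := by gcongr
  have hg : HasSum (fun n : ℕ => Real.exp (-a) ^ n) (1 - Real.exp (-a))⁻¹ :=
    hasSum_geometric_of_lt_one (Real.exp_pos _).le (by rw [Real.exp_lt_one_iff]; linarith)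
  have hg2 := hg.mul_left ((1 / a) * Real.exp (-(X ^ 2 / 7)))
  have hbd : ∀ n : ℕ, (if P < n then (n : ℝ) * Real.exp (-(2 * Real.pi * n * r)) else 0) ≤
      (1 / a) * Real.exp (-(X ^ 2 / 7)) * Real.exp (-a) ^ n := by
    intro n
    split_ifs with h
    · have hn : (X ^ 3 : ℝ) ≤ n := hP.trans (by exact_mod_cast h.le)
      have hn0 : (0 : ℝ) ≤ n := Nat.cast_nonneg n
      have h1 : (n : ℝ) * Real.exp (-(a * n)) ≤ 1 / a := by
        rw [le_div_iff₀ ha0]
        have h2 : a * n + 1 ≤ Real.exp (a * n) := Real.add_one_le_exp _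
        rw [Real.exp_neg]
        have h3 := Real.exp_pos (a * n)
        rw [mul_assoc, mul_comm, mul_assoc, inv_mul_le_iff₀ h3]
        linarith
      have h2 : Real.exp (-(2 * Real.pi * n * r)) ≤
          Real.exp (-(a * n)) * Real.exp (-(X ^ 2 / 7)) * Real.exp (-(a * n)) := by
        rw [← Real.exp_add, ← Real.exp_add]
        apply Real.exp_le_exp.2
        have h3 : 4 * a * n ≤ 2 * Real.pi * r * n := by gcongr
        have h4 : X ^ 2 / 7 ≤ 2 * a * n := by
          calc X ^ 2 / 7 ≤ 2 * a * X ^ 3 := by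
                rw [ha]
                have : 2 * (Real.pi / (40 * X)) * X ^ 3 = Real.pi / 20 * X ^ 2 := by
                  field_simp; ring
                rw [this]
                nlinarith [sq_nonneg X]
            _ ≤ _ := by gcongr
        linarith
      have h5 : Real.exp (-a) ^ n = Real.exp (-(a * n)) := by
        rw [← Real.exp_nat_mul]; congr 1; ring
      rw [h5]
      calc (n : ℝ) * Real.exp (-(2 * Real.pi * n * r)) ≤
          n * (Real.exp (-(a * n)) * Real.exp (-(X ^ 2 / 7)) * Real.exp (-(a * n))) := by gcongr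
        _ = (n * Real.exp (-(a * n))) * (Real.exp (-(X ^ 2 / 7)) * Real.exp (-(a * n))) := by ring
        _ ≤ (1 / a) * (Real.exp (-(X ^ 2 / 7)) * Real.exp (-(a * n))) := by gcongr
        _ = _ := by ring
    · positivity
  have hs : Summable (fun n : ℕ => if P < n then (n : ℝ) * Real.exp (-(2 * Real.pi * n * r)) else 0) := by
    refine Summable.of_nonneg_of_le (fun n => ?_) hbd hg2.summable
    split_ifs <;> positivity
  have h6 := hasSum_le hbd hs.hasSum hg2
  refine h6.trans ?_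
  have h7 : (1 - Real.exp (-a))⁻¹ ≤ 1 + 1 / a := by
    have h8 : a + 1 ≤ Real.exp a := Real.add_one_le_exp _
    have h9 : Real.exp (-a) ≤ 1 / (1 + a) := by
      rw [Real.exp_neg, ← one_div]
      exact one_div_le_one_div_of_le (by positivity) (by linarith)
    have h10 : a / (1 + a) ≤ 1 - Real.exp (-a) := by
      have : a / (1 + a) = 1 - 1 / (1 + a) := by field_simp; ring
      rw [this]; linarith
    calc (1 - Real.exp (-a))⁻¹ ≤ (a / (1 + a))⁻¹ := by
          apply inv_anti₀ (by positivity) h10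
      _ = 1 + 1 / a := by field_simp; ring
  have h8 : 1 / a ≤ 14 * X := by
    rw [ha]
    rw [one_div_div, div_le_iff₀ hpi]
    nlinarith
  have hE := Real.exp_pos (-(X ^ 2 / 7))
  have h9 : (1 - Real.exp (-a))⁻¹ ≤ 1 + 14 * X := h7.trans (by linarith)
  have h10 : (14 * X) * (1 + 14 * X) ≤ 400 * X ^ 2 := by nlinarith
  have h11 : 0 ≤ (1 - Real.exp (-a))⁻¹ :=
    inv_nonneg.2 (sub_nonneg.2 (Real.exp_le_one_iff.2 (by linarith)))
  calc (1 / a) * Real.exp (-(X ^ 2 / 7)) * (1 - Real.exp (-a))⁻¹ ≤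
      (14 * X) * Real.exp (-(X ^ 2 / 7)) * (1 + 14 * X) := by gcongr
    _ = (14 * X * (1 + 14 * X)) * Real.exp (-(X ^ 2 / 7)) := by ring
    _ ≤ _ := mul_le_mul_of_nonneg_right h10 hE.le

/-- the kernel of the window representation -/
noncomputable def MEL_K (P : ℕ) (D : ℤ) (M τ : ℝ) : ℂ :=
  Complex.Gamma (1 + τ * I) * (2 * Real.pi : ℂ) ^ (-(1 + (τ : ℂ) * I)) * (M : ℂ) ^ ((τ : ℂ) * I) *
    LP 0 P D τ

theorem MEL_LP_measurable (P : ℕ) (D : ℤ) : Measurable (fun t : ℝ => LP 0 P D t) := by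
  unfold LP
  apply Finset.measurable_prod
  intro p hp
  apply Measurable.inv
  apply Continuous.measurable
  have hp0 : (p : ℂ) ≠ 0 := by
    unfold primesIoc at hp
    rw [Finset.mem_filter] at hp
    exact_mod_cast hp.2.1.ne_zero
  have hc : Continuous (fun t : ℝ => npow p t) := by
    unfold npow
    apply Continuous.const_cpow (by fun_prop)
    exact Or.inl hp0
  unfold ellInv
  fun_prop

theorem MEL_K_integrable (P : ℕ) (D : ℤ) {M : ℝ} (hM : 0 < M) : Integrable (MEL_K P D M) := by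
  have hpi := Real.pi_pos
  obtain ⟨B, hB⟩ := LP_bounded P
  have h1 := MEL_G_integrable (r := 1 / M) (by positivity)
  have h2 : Integrable (fun τ => (LP 0 P D τ * ((1 / M : ℝ) : ℂ)) * MEL_G (1 / M) τ) := by
    apply h1.bdd_mul (c := B * ‖((1 / M : ℝ) : ℂ)‖)
    · exact ((MEL_LP_measurable P D).mul_const _).aestronglyMeasurable
    · filter_upwards with τ
      rw [norm_mul]
      exact mul_le_mul_of_nonneg_right (hB D τ) (norm_nonneg _)
  refine h2.congr (Filter.Eventually.of_forall fun τ => ?_)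
  simp only [MEL_K, MEL_G]
  have e1 : ((2 * Real.pi * (1 / M) : ℝ) : ℂ) = ((2 * Real.pi : ℝ) : ℂ) * ((1 / M : ℝ) : ℂ) := by
    push_cast; ring
  have hM' : (M : ℂ) ≠ 0 := by exact_mod_cast hM.ne'
  have e2 : ((1 / M : ℝ) : ℂ) ^ (-(1 + (τ : ℂ) * I)) = M * (M : ℂ) ^ ((τ : ℂ) * I) := by
    have h0 : ((1 / M : ℝ) : ℂ) = (M : ℂ)⁻¹ := by push_cast; rw [one_div]
    have harg : (M : ℂ).arg ≠ Real.pi := by
      rw [Complex.arg_ofReal_of_nonneg hM.le]; exact hpi.ne
    rw [h0, Complex.inv_cpow _ _ harg, ← Complex.cpow_neg, neg_neg, Complex.cpow_add _ _ hM',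
      Complex.cpow_one]
  rw [e1, Complex.mul_cpow_ofReal_nonneg (by positivity) (by positivity), e2]
  push_cast
  field_simp

/-- the main term at one point of the window -/
theorem MEL_point {P : ℕ} {D : ℤ} {M : ℝ} (hM : 0 < M) (x : ℝ) :
    ((Real.exp x / M : ℝ) : ℂ) * (((1 / (2 * Real.pi) : ℝ) : ℂ) *
      ∫ τ : ℝ, MEL_G (Real.exp x / M) τ * LP 0 P D τ) =
    ((1 / (2 * Real.pi) : ℝ) : ℂ) * ∫ τ : ℝ, MEL_K P D M τ * exp (-(I * τ * x)) := by
  have hpi := Real.pi_pos
  rw [mul_left_comm, ← integral_const_mul]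
  congr 2
  funext τ
  unfold MEL_K MEL_G
  have hx := Real.exp_pos x
  have e1 : ((2 * Real.pi * (Real.exp x / M) : ℝ) : ℂ) =
      ((2 * Real.pi : ℝ) : ℂ) * ((Real.exp x / M : ℝ) : ℂ) := by
    push_cast; ring
  have hM' : (M : ℂ) ≠ 0 := by exact_mod_cast hM.ne'
  have hr0 : ((Real.exp x / M : ℝ) : ℂ) ≠ 0 := by
    exact_mod_cast (div_pos hx hM).ne'
  have e2 : ((Real.exp x / M : ℝ) : ℂ) * ((Real.exp x / M : ℝ) : ℂ) ^ (-(1 + (τ : ℂ) * I)) =
      (M : ℂ) ^ ((τ : ℂ) * I) * exp (-(I * τ * x)) := by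
    have h3 : ((Real.exp x / M : ℝ) : ℂ) ^ (-(1 + (τ : ℂ) * I)) =
        exp ((x - Real.log M : ℝ) * (-(1 + (τ : ℂ) * I))) := by
      rw [Complex.cpow_def_of_ne_zero hr0, ← Complex.ofReal_log (div_pos hx hM).le,
        Real.log_div hx.ne' hM.ne', Real.log_exp]
    have h4 : ((Real.exp x / M : ℝ) : ℂ) = exp ((x - Real.log M : ℝ) : ℂ) := by
      rw [← Complex.ofReal_exp, Real.exp_sub, Real.exp_log hM]
    have h5 : (M : ℂ) ^ ((τ : ℂ) * I) = exp ((Real.log M : ℝ) * ((τ : ℂ) * I)) := by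
      rw [Complex.cpow_def_of_ne_zero hM', Complex.ofReal_log hM.le]
    rw [h3, h4, h5, ← Complex.exp_add, ← Complex.exp_add]
    congr 1
    push_cast
    ring
  rw [e1, Complex.mul_cpow_ofReal_nonneg (by positivity) (div_pos hx hM).le]
  have e3 : ((2 * Real.pi : ℝ) : ℂ) = 2 * (Real.pi : ℂ) := by push_cast; ring
  rw [e3]
  linear_combination (Complex.Gamma (1 + τ * I) * (2 * (Real.pi : ℂ)) ^ (-(1 + (τ : ℂ) * I)) *
    LP 0 P D τ) * e2

theorem MEL_sB_cont {D : ℤ} {M : ℝ} (hM : 0 < M) : ContinuousOn (fun x => sB D M x) (Set.Ici 0) := by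
  have hpi := Real.pi_pos
  unfold sB
  apply ContinuousOn.mul
  · apply Continuous.continuousOn
    fun_prop
  · unfold Pool.Agent.ZD.S
    refine continuousOn_tsum (u := fun n : ℕ => 2 * ((n : ℝ) * Real.exp (-(2 * Real.pi * (1 / M) * n)))) ?_ ?_ ?_
    · intro n
      apply Continuous.continuousOn
      fun_prop
    · exact (MEL_decay_summable (a := 2 * Real.pi * (1 / M)) (by positivity)).mul_left 2
    · intro n x hx
      rw [Set.mem_Ici] at hx
      rw [norm_mul, Complex.norm_intCast, Complex.norm_exp]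
      have e : (-(2 * (Real.pi : ℂ) * n * ((Real.exp x / M : ℝ) : ℂ))).re =
          -(2 * Real.pi * (Real.exp x / M) * n) := by
        have : (-(2 * (Real.pi : ℂ) * n * ((Real.exp x / M : ℝ) : ℂ))) =
            ((-(2 * Real.pi * (Real.exp x / M) * n) : ℝ) : ℂ) := by push_cast; ring
        rw [this, Complex.ofReal_re]
      rw [e]
      have h1 : |(bd D n : ℝ)| ≤ 2 * n := (Pool.Agent.H5.abs_bd_le D n).trans (MEL_abs_c n)
      have h2 : 1 ≤ Real.exp x := Real.one_le_exp hx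
      calc |(bd D n : ℝ)| * Real.exp (-(2 * Real.pi * (Real.exp x / M) * n)) ≤
          (2 * n) * Real.exp (-(2 * Real.pi * (1 / M) * n)) := by gcongr
        _ = _ := by ring

theorem MEL_num {X : ℝ} (hX : 3 ≤ X) :
    X ^ 4 * Real.exp (-(X ^ 2 / 7)) ≤ Real.exp 50 * Real.exp (-X) := by
  have h1 : X ^ 4 ≤ Real.exp (4 * X) := by
    have h2 : X ≤ Real.exp X := by linarith [Real.add_one_le_exp X]
    calc X ^ 4 ≤ (Real.exp X) ^ 4 := by gcongr
      _ = Real.exp (4 * X) := by rw [← Real.exp_nat_mul]; norm_num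
  calc X ^ 4 * Real.exp (-(X ^ 2 / 7)) ≤ Real.exp (4 * X) * Real.exp (-(X ^ 2 / 7)) := by gcongr
    _ = Real.exp (4 * X + -(X ^ 2 / 7)) := by rw [← Real.exp_add]
    _ ≤ Real.exp (50 + -X) := by
        apply Real.exp_le_exp.2
        nlinarith [sq_nonneg (X - 35 / 2)]
    _ = _ := by rw [Real.exp_add]

theorem FF_mellin : ∃ C : ℝ, ∀ (P : ℕ) (D : ℤ) (X M F : ℝ) (Ψ : ℝ → ℂ), 3 ≤ X → X ≤ M → M ≤ 20 * X →
    X ^ 3 ≤ P → Continuous Ψ → (∀ x, ‖Ψ x‖ ≤ F) → (∀ x, (x ≤ 0 ∨ 2 * Real.log X ≤ x) → Ψ x = 0) →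
    Integrable (fun τ : ℝ => ∫ x, Ψ x * exp (-(I * τ * x))) →
    ‖FF D M Ψ - (1 / (2 * Real.pi) : ℝ) * ∫ τ : ℝ, Complex.Gamma (1 + τ * I) *
        (2 * Real.pi : ℂ) ^ (-(1 + (τ : ℂ) * I)) * (M : ℂ) ^ ((τ : ℂ) * I) * LP 0 P D τ *
        (∫ x, Ψ x * exp (-(I * τ * x)))‖ ≤ C * F * Real.exp (-X) := by
  refine ⟨8000 * Real.exp 50, ?_⟩
  intro P D X M F Ψ hX hM1 hM2 hP hΨ hF hΨ0 _
  have hpi := Real.pi_pos
  have hX0 : 0 < X := by linarith
  have hM : 0 < M := by linarith
  have hlog : 0 ≤ Real.log X := Real.log_nonneg (by linarith)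
  have hlogX : Real.log X ≤ X := (Real.log_le_sub_one_of_pos hX0).trans (by linarith)
  have hF0 : 0 ≤ F := (norm_nonneg _).trans (hF 0)
  set L : ℝ := 2 * Real.log X with hL
  have hL0 : 0 ≤ L := by positivity
  -- support
  have hsupp : ∀ (g : ℝ → ℂ) (x : ℝ), x ∉ Set.Icc 0 L → g x * Ψ x = 0 := by
    intro g x hx
    rw [Set.mem_Icc, not_and_or, not_le, not_le] at hx
    rw [hΨ0 x (hx.imp (fun h => h.le) (fun h => h.le)), mul_zero]
  have hΨc : HasCompactSupport Ψ := by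
    refine HasCompactSupport.intro (isCompact_Icc (a := (0 : ℝ)) (b := L)) (fun x hx => ?_)
    have := hsupp (fun _ => 1) x hx
    simpa using this
  have hΨi : Integrable Ψ := hΨ.integrable_of_hasCompactSupport hΨc
  -- Fubini
  have hK := MEL_K_integrable P D hM
  have hprod : Integrable (fun z : ℝ × ℝ => (MEL_K P D M z.1 * exp (-(I * z.1 * z.2))) * Ψ z.2)
      (volume.prod volume) := by
    have h1 := hK.mul_prod hΨi
    refine (h1.norm).mono' ?_ (Filter.Eventually.of_forall fun z => ?_)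
    · have h2 : AEStronglyMeasurable (fun z : ℝ × ℝ => exp (-(I * z.1 * z.2))) (volume.prod volume) := by
        apply Continuous.aestronglyMeasurable
        fun_prop
      refine (h1.aestronglyMeasurable.mul h2).congr (Filter.Eventually.of_forall fun z => ?_)
      simp only [Pi.mul_apply]
      ring
    · rw [norm_mul, norm_mul, norm_mul]
      have : ‖exp (-(I * (z.1 : ℂ) * z.2))‖ = 1 := by
        rw [Complex.norm_exp]
        have : (-(I * (z.1 : ℂ) * z.2)).re = 0 := by simp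
        rw [this, Real.exp_zero]
      rw [this, mul_one]
  have hswap := integral_integral_swap (f := fun τ x : ℝ => (MEL_K P D M τ * exp (-(I * τ * x))) * Ψ x)
    hprod
  have hfib : Integrable (fun x : ℝ => ∫ τ : ℝ, (MEL_K P D M τ * exp (-(I * τ * x))) * Ψ x) :=
    hprod.integral_prod_right
  -- the main term
  set Mn : ℝ → ℂ := fun x => ((1 / (2 * Real.pi) : ℝ) : ℂ) * ∫ τ : ℝ, MEL_K P D M τ * exp (-(I * τ * x))
    with hMn
  have hMnΨ : ∀ x, Mn x * Ψ x = ((1 / (2 * Real.pi) : ℝ) : ℂ) *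
      ∫ τ : ℝ, (MEL_K P D M τ * exp (-(I * τ * x))) * Ψ x := by
    intro x
    simp only [hMn]
    rw [integral_mul_const]
    ring
  have hMni : Integrable (fun x => Mn x * Ψ x) := by
    refine (hfib.const_mul (((1 / (2 * Real.pi) : ℝ)) : ℂ)).congr
      (Filter.Eventually.of_forall fun x => ?_)
    exact (hMnΨ x).symm
  have hmain : ∫ x, Mn x * Ψ x = ((1 / (2 * Real.pi) : ℝ) : ℂ) * ∫ τ : ℝ, Complex.Gamma (1 + τ * I) *
        (2 * Real.pi : ℂ) ^ (-(1 + (τ : ℂ) * I)) * (M : ℂ) ^ ((τ : ℂ) * I) * LP 0 P D τ *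
        (∫ x, Ψ x * exp (-(I * τ * x))) := by
    simp_rw [hMnΨ]
    rw [integral_const_mul, ← hswap]
    congr 2
    funext τ
    rw [← integral_const_mul]
    congr 1
    funext x
    unfold MEL_K
    ring
  -- the theta side
  have hsBi : Integrable (fun x => sB D M x * Ψ x) := by
    have h1 : IntegrableOn (fun x => sB D M x * Ψ x) (Set.Icc 0 L) := by
      apply ContinuousOn.integrableOn_Icc
      exact ((MEL_sB_cont hM).mono Set.Icc_subset_Ici_self).mul hΨ.continuousOn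
    rw [← integrableOn_univ]
    refine h1.of_forall_sdiff_eq_zero MeasurableSet.univ (fun x hx => ?_)
    exact hsupp _ x hx.2
  have hdiff : FF D M Ψ - ∫ x, Mn x * Ψ x = ∫ x, (sB D M x - Mn x) * Ψ x := by
    unfold FF
    rw [← integral_sub hsBi hMni]
    congr 1
    funext x
    ring
  rw [← hmain, hdiff]
  have hset : ∫ x, (sB D M x - Mn x) * Ψ x = ∫ x in Set.Icc 0 L, (sB D M x - Mn x) * Ψ x := by
    rw [setIntegral_eq_integral_of_forall_compl_eq_zero]
    intro x hx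
    exact hsupp (fun x => sB D M x - Mn x) x hx
  rw [hset]
  -- pointwise error
  have hpt : ∀ x ∈ Set.Icc 0 L, ‖(sB D M x - Mn x) * Ψ x‖ ≤
      (X * (10 * (400 * X ^ 2 * Real.exp (-(X ^ 2 / 7))))) * F := by
    intro x hx
    rw [Set.mem_Icc] at hx
    have hx1 : 1 ≤ Real.exp x := Real.one_le_exp hx.1
    have hx2 : Real.exp x ≤ X ^ 2 := by
      calc Real.exp x ≤ Real.exp L := Real.exp_le_exp.2 hx.2
        _ = X ^ 2 := by
          rw [hL, ← Real.log_rpow hX0, Real.exp_log (by positivity)]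
          norm_num
    have hr : 0 < Real.exp x / M := div_pos (Real.exp_pos x) hM
    have hr1 : 1 / (20 * X) ≤ Real.exp x / M := by
      rw [div_le_div_iff₀ (by positivity) hM]
      nlinarith
    have hr2 : Real.exp x / M ≤ X := by
      rw [div_le_iff₀ hM]
      nlinarith
    have h1 := theta_mellin (P := P) (D := D) hr
    have h2 := MEL_tail hX hP hr1
    rw [norm_mul]
    refine mul_le_mul ?_ (hF x) (norm_nonneg _) (by positivity)
    have h3 : sB D M x - Mn x = ((Real.exp x / M : ℝ) : ℂ) * (S D ((Real.exp x / M : ℝ) : ℂ) -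
        (1 / (2 * Real.pi) : ℝ) * ∫ τ : ℝ, Complex.Gamma (1 + τ * I) *
        ((2 * Real.pi * (Real.exp x / M) : ℝ) : ℂ) ^ (-(1 + (τ : ℂ) * I)) * LP 0 P D τ) := by
      simp only [hMn]
      rw [← MEL_point hM x, mul_sub]
      rfl
    rw [h3, norm_mul, Complex.norm_real, Real.norm_of_nonneg hr.le]
    refine mul_le_mul hr2 (h1.trans ?_) (norm_nonneg _) hX0.le
    exact mul_le_mul_of_nonneg_left h2 (by norm_num)
  have hvol : (volume : Measure ℝ) (Set.Icc 0 L) < ⊤ := by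
    rw [Real.volume_Icc]; exact ENNReal.ofReal_lt_top
  have h4 := norm_setIntegral_le_of_norm_le_const hvol hpt
  refine h4.trans ?_
  have h5 : (volume : Measure ℝ).real (Set.Icc 0 L) = L := by
    rw [Measure.real, Real.volume_Icc, sub_zero, ENNReal.toReal_ofReal hL0]
  rw [h5]
  have h6 := MEL_num hX
  have hE := Real.exp_pos (-(X ^ 2 / 7))
  have hLX : L ≤ 2 * X := by rw [hL]; linarith
  calc X * (10 * (400 * X ^ 2 * Real.exp (-(X ^ 2 / 7)))) * F * L ≤
      X * (10 * (400 * X ^ 2 * Real.exp (-(X ^ 2 / 7)))) * F * (2 * X) := by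
        gcongr
    _ = 8000 * F * (X ^ 4 * Real.exp (-(X ^ 2 / 7))) := by ring
    _ ≤ 8000 * F * (Real.exp 50 * Real.exp (-X)) := by gcongr
    _ = _ := by ring

end Pool.Agent.CZ
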