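import Mathlib
import Pool.Agent.CZ.Defs
import Pool.Agent.ZD.T

/-! The weight `wK` and its Fourier transform (MP_553913_nt). -/

set_option autoImplicit false

open Complex Finset MeasureTheory Filter Topology

namespace Pool.Agent.CZ

theorem wK_nonneg (K : ℕ) (t : ℝ) : 0 ≤ wK K t := by
  unfold wK; rw [pow_mul]; positivity

theorem wK_le_one (K : ℕ) (t : ℝ) : wK K t ≤ 1 := by
  unfold wK; rw [pow_mul]
  apply pow_le_one₀ (by positivity)
  rw [sq_le_one_iff_abs_le_one]
  exact Real.abs_sinc_le_one _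

theorem wK_continuous (K : ℕ) : Continuous (wK K) := by
  unfold wK
  have := Real.continuous_sinc
  fun_prop

/-- the entire function `sin z / z` -/
private noncomputable def cs : ℂ → ℂ := dslope Complex.sin 0

private lemma cs_of_ne {z : ℂ} (hz : z ≠ 0) : cs z = Complex.sin z / z := by
  unfold cs
  rw [dslope_of_ne _ hz, slope_def_field]
  simp

private lemma cs_zero : cs 0 = 1 := by
  unfold cs
  rw [dslope_same, Complex.deriv_sin, Complex.cos_zero]

private lemma cs_real (x : ℝ) : cs x = Real.sinc x := by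
  by_cases h : x = 0
  · subst h; simp [cs_zero]
  · rw [cs_of_ne (by exact_mod_cast h), Real.sinc_of_ne_zero h]
    push_cast; rfl

private lemma cs_diff : Differentiable ℂ cs := by
  have := (Complex.differentiableOn_dslope (f := Complex.sin) (c := 0) (s := Set.univ)
    univ_mem).2 Complex.differentiable_sin.differentiableOn
  exact fun z => (this z (Set.mem_univ z)).differentiableAt univ_mem

private lemma norm_sin_le (z : ℂ) : ‖Complex.sin z‖ ≤ Real.exp |z.im| := by
  rw [Complex.sin]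
  have h1 : ‖cexp (-z * I)‖ = Real.exp z.im := by
    rw [Complex.norm_exp]; simp
  have h2 : ‖cexp (z * I)‖ = Real.exp (-z.im) := by
    rw [Complex.norm_exp]; simp
  rw [norm_div, norm_mul, Complex.norm_I, mul_one, Complex.norm_ofNat]
  rw [div_le_iff₀ (by norm_num)]
  calc ‖cexp (-z * I) - cexp (z * I)‖ ≤ ‖cexp (-z * I)‖ + ‖cexp (z * I)‖ := norm_sub_le _ _
    _ = Real.exp z.im + Real.exp (-z.im) := by rw [h1, h2]
    _ ≤ Real.exp |z.im| + Real.exp |z.im| := by
        gcongr
        · exact le_abs_self _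
        · exact neg_le_abs _
    _ = Real.exp |z.im| * 2 := by ring

private lemma norm_cos_le (z : ℂ) : ‖Complex.cos z‖ ≤ Real.exp |z.im| := by
  rw [Complex.cos]
  have h1 : ‖cexp (-z * I)‖ = Real.exp z.im := by
    rw [Complex.norm_exp]; simp
  have h2 : ‖cexp (z * I)‖ = Real.exp (-z.im) := by
    rw [Complex.norm_exp]; simp
  rw [norm_div, Complex.norm_ofNat]
  rw [div_le_iff₀ (by norm_num)]
  calc ‖cexp (z * I) + cexp (-z * I)‖ ≤ ‖cexp (z * I)‖ + ‖cexp (-z * I)‖ := norm_add_le _ _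
    _ = Real.exp (-z.im) + Real.exp z.im := by rw [h1, h2]
    _ ≤ Real.exp |z.im| + Real.exp |z.im| := by
        gcongr
        · exact neg_le_abs _
        · exact le_abs_self _
    _ = Real.exp |z.im| * 2 := by ring

private lemma norm_cs_le_one (z : ℂ) : ‖cs z‖ ≤ Real.exp |z.im| := by
  by_cases hz : z = 0
  · rw [hz, cs_zero]; simp
  rw [cs_of_ne hz, norm_div, div_le_iff₀ (norm_pos_iff.2 hz)]
  -- sin z = ∫_0^1 z cos (u z) du; use the mean value inequality on [0,1]
  have h1 : ∀ u ∈ Set.Icc (0 : ℝ) 1, HasDerivWithinAt (fun u : ℝ => Complex.sin (u * z))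
      (Complex.cos (u * z) * z) (Set.Icc 0 1) u := by
    intro u _
    have h2 : HasDerivAt (fun u : ℝ => ((u : ℂ) * z)) z u := by
      simpa using (Complex.ofRealCLM.hasDerivAt (x := u)).mul_const z
    exact ((Complex.hasDerivAt_sin _).comp u h2).hasDerivWithinAt
  have h3 : ∀ u ∈ Set.Ico (0 : ℝ) 1, ‖Complex.cos (u * z) * z‖ ≤ Real.exp |z.im| * ‖z‖ := by
    intro u hu
    rw [norm_mul]
    gcongr
    refine (norm_cos_le _).trans (Real.exp_le_exp.2 ?_)
    have : ((u : ℂ) * z).im = u * z.im := by simp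
    rw [this, abs_mul, abs_of_nonneg hu.1]
    exact mul_le_of_le_one_left (abs_nonneg _) hu.2.le
  have h4 := norm_image_sub_le_of_norm_deriv_le_segment_01' h1 h3
  simpa using h4

private lemma norm_cs_le_div {z : ℂ} (hz : z ≠ 0) : ‖cs z‖ ≤ Real.exp |z.im| / ‖z‖ := by
  rw [cs_of_ne hz, norm_div]
  gcongr
  exact norm_sin_le z

/-- entire extension of `wK` -/
private noncomputable def Wc (K : ℕ) (z : ℂ) : ℂ := (cs (z / (2 * K))) ^ (2 * K)

private lemma Wc_real (K : ℕ) (t : ℝ) : Wc K t = wK K t := by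
  unfold Wc wK
  have : (t : ℂ) / (2 * K) = ((t / (2 * K) : ℝ) : ℂ) := by push_cast; ring
  rw [this, cs_real]; push_cast; ring

private lemma Wc_diff (K : ℕ) : Differentiable ℂ (Wc K) := by
  unfold Wc
  have := cs_diff
  have h2 : Differentiable ℂ (fun z : ℂ => z / (2 * (K : ℂ))) := by fun_prop
  exact (this.comp h2).pow _

private lemma norm_Wc_le {K : ℕ} (hK : 1 ≤ K) (z : ℂ) :
    ‖Wc K z‖ ≤ Real.exp |z.im| * ((1 + 4 * K ^ 2 : ℝ) / (1 + ‖z‖ ^ 2)) ^ K := by
  have hK0 : (0 : ℝ) < 2 * K := by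
    have : (0 : ℝ) < K := by exact_mod_cast hK
    linarith
  have hKc : (2 * (K : ℂ)) ≠ 0 := by
    have : (K : ℂ) ≠ 0 := by exact_mod_cast (by omega : K ≠ 0)
    simp [this]
  have him : (z / (2 * (K : ℂ))).im = z.im / (2 * K) := by
    have : z / (2 * (K : ℂ)) = z / (((2 * K : ℝ)) : ℂ) := by push_cast; rfl
    rw [this, Complex.div_ofReal_im]
  have hnz : ‖z / (2 * (K : ℂ))‖ = ‖z‖ / (2 * K) := by
    have : z / (2 * (K : ℂ)) = z / (((2 * K : ℝ)) : ℂ) := by push_cast; rfl
    rw [this, norm_div, Complex.norm_real, Real.norm_eq_abs, abs_of_pos hK0]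
  have h1 : ‖cs (z / (2 * K))‖ ^ 2 ≤ (Real.exp |z.im / (2 * K)|) ^ 2 *
      ((1 + 4 * K ^ 2 : ℝ) / (1 + ‖z‖ ^ 2)) := by
    by_cases h : ‖z‖ ≤ 2 * K
    · have h2 := norm_cs_le_one (z / (2 * K))
      rw [him] at h2
      have h3 : ‖cs (z / (2 * K))‖ ^ 2 ≤ (Real.exp |z.im / (2 * K)|) ^ 2 := by gcongr
      have h4 : (1 : ℝ) ≤ (1 + 4 * K ^ 2 : ℝ) / (1 + ‖z‖ ^ 2) := by
        rw [le_div_iff₀ (by positivity)]
        nlinarith [norm_nonneg z]
      calc _ ≤ (Real.exp |z.im / (2 * K)|) ^ 2 * 1 := by rw [mul_one]; exact h3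
        _ ≤ _ := by gcongr
    · rw [not_le] at h
      have hz : z ≠ 0 := by
        rintro rfl; simp at h; linarith
      have h2 := norm_cs_le_div (z := z / (2 * K)) (div_ne_zero hz hKc)
      rw [him, hnz] at h2
      have h3 : ‖cs (z / (2 * K))‖ ^ 2 ≤ (Real.exp |z.im / (2 * K)| / (‖z‖ / (2 * K))) ^ 2 := by
        gcongr
      refine h3.trans ?_
      rw [div_pow, div_eq_mul_inv]
      gcongr
      rw [div_pow, inv_div, div_le_div_iff₀ (by positivity) (by positivity)]
      nlinarith [norm_nonneg z]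
  unfold Wc
  rw [norm_pow, pow_mul]
  calc (‖cs (z / (2 * K))‖ ^ 2) ^ K ≤ ((Real.exp |z.im / (2 * K)|) ^ 2 *
      ((1 + 4 * K ^ 2 : ℝ) / (1 + ‖z‖ ^ 2))) ^ K := by gcongr
    _ = Real.exp |z.im| * ((1 + 4 * K ^ 2 : ℝ) / (1 + ‖z‖ ^ 2)) ^ K := by
        rw [mul_pow, ← pow_mul, ← Real.exp_nat_mul]
        congr 2
        rw [abs_div, abs_of_pos hK0]
        push_cast
        field_simp

theorem wK_le (K : ℕ) : ∃ C : ℝ, 0 < C ∧ ∀ t : ℝ, wK K t ≤ C / (1 + t ^ 2) ^ K := by
  rcases Nat.eq_zero_or_pos K with rfl | hK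
  · exact ⟨1, one_pos, fun t => by simpa using wK_le_one 0 t⟩
  · refine ⟨(1 + 4 * (K : ℝ) ^ 2) ^ K, by positivity, fun t => ?_⟩
    have := norm_Wc_le hK (t : ℂ)
    rw [Wc_real, Complex.norm_real, Real.norm_eq_abs, abs_of_nonneg (wK_nonneg K t)] at this
    simpa [div_pow] using this

theorem wK_ge (K : ℕ) : ∃ δ : ℝ, 0 < δ ∧ ∀ t : ℝ, |t| ≤ 1 → δ ≤ wK K t := by
  have hpos : ∀ t : ℝ, |t| ≤ 1 → 0 < wK K t := by
    intro t ht
    unfold wK
    apply pow_pos
    rcases Nat.eq_zero_or_pos K with rfl | hK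
    · simp
    by_cases h0 : t / (2 * K) = 0
    · rw [h0]; simp
    have hK1 : (1 : ℝ) ≤ K := by exact_mod_cast hK
    have h1 : |t / (2 * K)| ≤ 1 := by
      rw [abs_div, abs_of_pos (by linarith : (0 : ℝ) < 2 * K), div_le_one (by linarith)]
      linarith
    rw [Real.sinc_of_ne_zero h0]
    rcases lt_or_gt_of_ne h0 with h | h
    · have h2 : -Real.pi < t / (2 * K) := by
        have := Real.pi_gt_three
        have := (abs_le.1 h1).1
        linarith
      exact div_pos_of_neg_of_neg (Real.sin_neg_of_neg_of_neg_pi_lt h h2) h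
    · have h2 : t / (2 * K) < Real.pi := by
        have := Real.pi_gt_three
        have := (abs_le.1 h1).2
        linarith
      exact div_pos (Real.sin_pos_of_pos_of_lt_pi h h2) h
  obtain ⟨t₀, ht₀, hmin⟩ := isCompact_Icc.exists_isMinOn (α := ℝ) (s := Set.Icc (-1 : ℝ) 1)
    ⟨0, by simp⟩ (wK_continuous K).continuousOn
  refine ⟨wK K t₀, hpos t₀ (abs_le.2 ht₀), fun t ht => hmin (abs_le.1 ht)⟩

private lemma integrable_wK {K n : ℕ} (h : n + 2 ≤ 2 * K) :
    Integrable (fun t : ℝ => |t| ^ n * wK K t) := by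
  obtain ⟨C, hC, hle⟩ := wK_le K
  have hK : 1 ≤ K := by omega
  refine Integrable.mono' (g := fun t : ℝ => C * (1 + t ^ 2)⁻¹)
    (integrable_inv_one_add_sq.const_mul C) ?_ ?_
  · exact ((continuous_abs.pow n).mul (wK_continuous K)).aestronglyMeasurable
  · filter_upwards with t
    rw [Real.norm_eq_abs, abs_of_nonneg (mul_nonneg (by positivity) (wK_nonneg K t))]
    have h1 : |t| ^ n ≤ (1 + t ^ 2) ^ (K - 1) := by
      have h2 : |t| ^ n ≤ (1 + |t|) ^ (0 : ℕ) * (max 1 |t|) ^ n := by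
        simp only [pow_zero, one_mul]
        gcongr
        exact le_max_right _ _
      have h3 : (max 1 |t|) ^ n ≤ (max 1 |t|) ^ (2 * (K - 1)) :=
        pow_le_pow_right₀ (le_max_left _ _) (by omega)
      have h4 : (max 1 |t|) ^ 2 ≤ 1 + t ^ 2 := by
        rcases le_total 1 |t| with h | h
        · rw [max_eq_right h, sq_abs]; linarith
        · rw [max_eq_left h]; nlinarith [sq_nonneg t]
      calc |t| ^ n ≤ (max 1 |t|) ^ n := by simpa using h2
        _ ≤ (max 1 |t|) ^ (2 * (K - 1)) := h3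
        _ = ((max 1 |t|) ^ 2) ^ (K - 1) := by rw [pow_mul]
        _ ≤ _ := by gcongr
    calc |t| ^ n * wK K t ≤ (1 + t ^ 2) ^ (K - 1) * (C / (1 + t ^ 2) ^ K) :=
          mul_le_mul h1 (hle t) (wK_nonneg K t) (by positivity)
      _ = C * (1 + t ^ 2)⁻¹ := by
          obtain ⟨k, rfl⟩ : ∃ k, K = k + 1 := ⟨K - 1, by omega⟩
          simp only [Nat.add_sub_cancel]
          have : (1 + t ^ 2) ≠ 0 := by positivity
          field_simp
          ring

theorem what_neg (K : ℕ) (x : ℝ) : what K (-x) = what K x := by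
  unfold what
  rw [← integral_neg_eq_self]
  refine integral_congr_ae (Filter.Eventually.of_forall fun t => ?_)
  have h1 : wK K (-t) = wK K t := by
    unfold wK
    rw [neg_div, Real.sinc_neg]
  simp only [h1]
  congr 2
  push_cast; ring

private lemma what_pos_zero {K : ℕ} (hK : 1 ≤ K) {x : ℝ} (hx : 1 ≤ x) : what K x = 0 := by
  -- shift the contour
  set F : ℂ → ℂ := fun s => Wc K (-I * s) * cexp (s * x) with hF
  have hK1 : (1 : ℝ) ≤ K := by exact_mod_cast hK
  have hmod : ∀ S v : ℝ, ‖F (((-S : ℝ) : ℂ) + v * I)‖ ≤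
      Real.exp (|S| - S * x) * ((1 + 4 * K ^ 2 : ℝ) / (1 + (v ^ 2 + S ^ 2))) ^ K := by
    intro S v
    have h1 : -I * (((-S : ℝ) : ℂ) + v * I) = (v : ℂ) + S * I := by
      push_cast
      have := Complex.I_sq
      linear_combination -(v : ℂ) * this
    simp only [hF]
    rw [norm_mul, h1]
    have h2 := norm_Wc_le hK ((v : ℂ) + S * I)
    have h3 : ((v : ℂ) + S * I).im = S := by simp
    have h4 : ‖(v : ℂ) + S * I‖ ^ 2 = v ^ 2 + S ^ 2 := by
      rw [← Complex.normSq_eq_norm_sq, Complex.normSq_add_mul_I]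
    rw [h3, h4] at h2
    have h5 : ‖cexp ((((-S : ℝ) : ℂ) + v * I) * x)‖ = Real.exp (-(S * x)) := by
      rw [Complex.norm_exp]
      congr 1
      simp
    rw [h5]
    calc _ ≤ Real.exp |S| * ((1 + 4 * K ^ 2 : ℝ) / (1 + (v ^ 2 + S ^ 2))) ^ K *
        Real.exp (-(S * x)) := by gcongr
      _ = _ := by
        rw [mul_right_comm, ← Real.exp_add]
        congr 2
  have hFd : Differentiable ℂ F := by
    have h1 : Differentiable ℂ (fun s : ℂ => -I * s) := by fun_prop
    have h2 := (Wc_diff K).comp h1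
    have h3 : Differentiable ℂ (fun s : ℂ => cexp (s * x)) := by fun_prop
    exact h2.mul h3
  -- majorant
  set C₀ : ℝ := (1 + 4 * (K : ℝ) ^ 2) ^ K with hC₀
  have hmaj : ∀ S v : ℝ, ((1 + 4 * K ^ 2 : ℝ) / (1 + (v ^ 2 + S ^ 2))) ^ K ≤
      C₀ / (1 + (v ^ 2 + S ^ 2)) := by
    intro S v
    rw [div_pow]
    apply div_le_div_of_nonneg_left (by positivity) (by positivity)
    calc 1 + (v ^ 2 + S ^ 2) = (1 + (v ^ 2 + S ^ 2)) ^ 1 := (pow_one _).symm
      _ ≤ _ := pow_le_pow_right₀ (by nlinarith [sq_nonneg v, sq_nonneg S]) hK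
  have hmaj' : ∀ S v : ℝ, ((1 + 4 * K ^ 2 : ℝ) / (1 + (v ^ 2 + S ^ 2))) ^ K ≤ C₀ * (1 + v ^ 2)⁻¹ := by
    intro S v
    refine (hmaj S v).trans ?_
    rw [div_eq_mul_inv]
    gcongr
    nlinarith [sq_nonneg S]
  have hshift : ∀ S : ℝ, 0 ≤ S → what K x = ∫ v : ℝ, F (((-S : ℝ) : ℂ) + v * I) := by
    intro S hS
    have h1 : what K x = ∫ v : ℝ, F (((0 : ℝ) : ℂ) + v * I) := by
      unfold what
      refine integral_congr_ae (Filter.Eventually.of_forall fun v => ?_)
      simp only [hF]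
      have h2 : -I * (((0 : ℝ) : ℂ) + v * I) = (v : ℂ) := by
        push_cast
        have := Complex.I_sq
        linear_combination -(v : ℂ) * this
      rw [h2, Wc_real]
      congr 2
      push_cast; ring
    rw [h1]
    refine Pool.Agent.ZD.vert_shift (g := fun v => Real.exp S * (C₀ * (1 + v ^ 2)⁻¹))
      (fun s _ => hFd s) ((integrable_inv_one_add_sq.const_mul C₀).const_mul _) ?_ ?_ ?_
    · have : Tendsto (fun v : ℝ => (1 + v ^ 2)⁻¹) atTop (𝓝 0) :=
        (tendsto_atTop_add_const_left _ 1 (tendsto_pow_atTop two_ne_zero)).inv_tendsto_atTop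
      simpa using (this.const_mul C₀).const_mul (Real.exp S)
    · have h3 : Tendsto (fun v : ℝ => v ^ 2) atBot atTop := by
        have := (tendsto_pow_atTop (α := ℝ) two_ne_zero).comp tendsto_neg_atBot_atTop
        refine this.congr fun v => ?_
        simp
      have : Tendsto (fun v : ℝ => (1 + v ^ 2)⁻¹) atBot (𝓝 0) :=
        (tendsto_atTop_add_const_left _ 1 h3).inv_tendsto_atTop
      simpa using (this.const_mul C₀).const_mul (Real.exp S)
    · intro y hy v
      rw [Set.uIcc_of_ge (by linarith)] at hy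
      have h4 := hmod (-y) v
      rw [neg_neg] at h4
      refine h4.trans ?_
      have h5 := hmaj' (-y) v
      have h6 : |(-y)| - -y * x ≤ S := by
        rw [abs_neg, abs_of_nonpos hy.2]
        nlinarith [hy.1, hy.2]
      calc _ ≤ Real.exp S * ((1 + 4 * K ^ 2 : ℝ) / (1 + (v ^ 2 + (-y) ^ 2))) ^ K := by gcongr
        _ ≤ _ := by gcongr
  -- limit
  have hlim : Tendsto (fun n : ℕ => ∫ v : ℝ, F (((-(n : ℝ) : ℝ) : ℂ) + v * I)) atTop
      (𝓝 (∫ _v : ℝ, (0 : ℂ))) := by
    refine tendsto_integral_of_dominated_convergence (fun v => C₀ * (1 + v ^ 2)⁻¹) ?_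
      (integrable_inv_one_add_sq.const_mul C₀) ?_ ?_
    · intro n
      apply Continuous.aestronglyMeasurable
      exact hFd.continuous.comp (by fun_prop)
    · intro n
      filter_upwards with v
      refine (hmod n v).trans ?_
      have h6 : |(n : ℝ)| - n * x ≤ 0 := by
        rw [abs_of_nonneg (Nat.cast_nonneg n)]
        have : (0 : ℝ) ≤ n := Nat.cast_nonneg n
        nlinarith
      calc _ ≤ 1 * ((1 + 4 * K ^ 2 : ℝ) / (1 + (v ^ 2 + (n : ℝ) ^ 2))) ^ K := by
            gcongr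
            exact Real.exp_le_one_iff.2 h6
        _ ≤ _ := by rw [one_mul]; exact hmaj' n v
    · filter_upwards with v
      rw [tendsto_zero_iff_norm_tendsto_zero]
      have h7 : Tendsto (fun n : ℕ => C₀ / (1 + (v ^ 2 + (n : ℝ) ^ 2))) atTop (𝓝 0) := by
        apply Tendsto.const_div_atTop
        apply tendsto_atTop_add_const_left
        apply tendsto_atTop_add_const_left
        exact (tendsto_pow_atTop two_ne_zero).comp tendsto_natCast_atTop_atTop
      refine squeeze_zero (fun _ => norm_nonneg _) (fun n => ?_) h7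
      refine (hmod n v).trans ?_
      have h6 : |(n : ℝ)| - n * x ≤ 0 := by
        rw [abs_of_nonneg (Nat.cast_nonneg n)]
        have : (0 : ℝ) ≤ n := Nat.cast_nonneg n
        nlinarith
      calc _ ≤ 1 * ((1 + 4 * K ^ 2 : ℝ) / (1 + (v ^ 2 + (n : ℝ) ^ 2))) ^ K := by
            gcongr
            exact Real.exp_le_one_iff.2 h6
        _ ≤ _ := by rw [one_mul]; exact hmaj n v
  have hconst : ∀ n : ℕ, ∫ v : ℝ, F (((-(n : ℝ) : ℝ) : ℂ) + v * I) = what K x :=
    fun n => (hshift n (Nat.cast_nonneg n)).symm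
  have := tendsto_nhds_unique (tendsto_const_nhds.congr (fun n => (hconst n).symm)) hlim
  simpa using this

theorem what_eq_zero {K : ℕ} (hK : 1 ≤ K) {x : ℝ} (hx : 1 ≤ |x|) : what K x = 0 := by
  rcases le_total 0 x with h | h
  · exact what_pos_zero hK (by rwa [abs_of_nonneg h] at hx)
  · rw [← what_neg]
    exact what_pos_zero hK (by rwa [abs_of_nonpos h] at hx)

private lemma what_eq_fourier (K : ℕ) (x : ℝ) :
    what K x = FourierTransform.fourier (fun t : ℝ => (wK K t : ℂ)) ((-(1 / (2 * Real.pi))) * x) := by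
  rw [Real.fourier_real_eq_integral_exp_smul]
  unfold what
  refine integral_congr_ae (Filter.Eventually.of_forall fun t => ?_)
  simp only [smul_eq_mul]
  rw [mul_comm]
  congr 2
  push_cast
  have : (Real.pi : ℂ) ≠ 0 := by exact_mod_cast Real.pi_ne_zero
  field_simp

private lemma fourier_int {K N : ℕ} (h : N + 2 ≤ 2 * K) (n : ℕ) (hn : n ≤ N) :
    Integrable (fun x : ℝ => x ^ n • ((wK K x : ℝ) : ℂ)) := by
  refine (integrable_wK (n := n) (K := K) (by omega)).mono' ?_ ?_
  · apply Continuous.aestronglyMeasurable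
    have := wK_continuous K
    fun_prop
  · filter_upwards with t
    rw [norm_smul, Complex.norm_real, norm_pow, Real.norm_eq_abs, Real.norm_eq_abs,
      abs_of_nonneg (wK_nonneg K t)]

theorem what_contDiff {K n : ℕ} (h : n + 2 ≤ 2 * K) : ContDiff ℝ n (what K) := by
  have h1 : ContDiff ℝ (n : ℕ∞) (FourierTransform.fourier (fun t : ℝ => (wK K t : ℂ))) := by
    apply Real.contDiff_fourier
    intro m hm
    have := (fourier_int h m (by exact_mod_cast hm)).norm
    refine this.congr (Filter.Eventually.of_forall fun t => ?_)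
    simp
  have h2 : what K = fun x => FourierTransform.fourier (fun t : ℝ => (wK K t : ℂ))
      ((-(1 / (2 * Real.pi))) * x) := funext fun x => what_eq_fourier K x
  rw [h2]
  exact h1.comp (contDiff_const.mul contDiff_id)

theorem what_deriv_le {K n : ℕ} (h : n + 2 ≤ 2 * K) :
    ∃ C : ℝ, ∀ x, ‖iteratedDeriv n (what K) x‖ ≤ C := by
  have h1 : ContDiff ℝ (n : ℕ∞) (FourierTransform.fourier (fun t : ℝ => (wK K t : ℂ))) := by
    apply Real.contDiff_fourier
    intro m hm
    have := (fourier_int h m (by exact_mod_cast hm)).norm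
    refine this.congr (Filter.Eventually.of_forall fun t => ?_)
    simp
  have h2 : what K = fun x => FourierTransform.fourier (fun t : ℝ => (wK K t : ℂ))
      ((-(1 / (2 * Real.pi))) * x) := funext fun x => what_eq_fourier K x
  have h1' : ContDiff ℝ n (FourierTransform.fourier (fun t : ℝ => (wK K t : ℂ))) := by
    exact_mod_cast h1
  have h3 := iteratedDeriv_comp_const_smul (n := n) (f := FourierTransform.fourier
    (fun t : ℝ => (wK K t : ℂ))) h1' (-(1 / (2 * Real.pi)))
  have h4 := Real.iteratedDeriv_fourier (f := fun t : ℝ => (wK K t : ℂ)) (N := (n : ℕ∞)) (n := n)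
    (fun m hm => fourier_int h m (by exact_mod_cast hm)) le_rfl
  refine ⟨|(-(1 / (2 * Real.pi)))| ^ n * ∫ t : ℝ, ‖(-2 * Real.pi * I * t) ^ n • ((wK K t : ℝ) : ℂ)‖,
    fun x => ?_⟩
  rw [h2, h3]
  simp only [norm_smul, norm_pow, Real.norm_eq_abs]
  gcongr
  rw [h4, Real.fourier_real_eq_integral_exp_smul]
  refine (norm_integral_le_integral_norm _).trans (le_of_eq ?_)
  refine integral_congr_ae (Filter.Eventually.of_forall fun t => ?_)
  simp only [norm_smul, norm_pow]
  have : ‖cexp (((-2 * Real.pi * t * (-(1 / (2 * Real.pi)) * x) : ℝ) : ℂ) * I)‖ = 1 :=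
    Complex.norm_exp_ofReal_mul_I _
  rw [this, one_mul]

theorem what_norm_le (K : ℕ) : ∃ C : ℝ, ∀ x, ‖what K x‖ ≤ C := by
  rcases Nat.eq_zero_or_pos K with rfl | hK
  · refine ⟨0, fun x => ?_⟩
    have h1 : ¬ Integrable (fun t : ℝ => ((wK 0 t : ℝ) : ℂ) * cexp (I * t * x)) := by
      intro h
      have h2 := h.norm
      have h3 : (fun t : ℝ => ‖((wK 0 t : ℝ) : ℂ) * cexp (I * t * x)‖) = fun _ => 1 := by
        funext t
        have h4 : I * t * x = ((t * x : ℝ) : ℂ) * I := by push_cast; ring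
        rw [norm_mul, h4, Complex.norm_exp_ofReal_mul_I]
        simp [wK]
      rw [h3] at h2
      rw [integrable_const_iff] at h2
      rcases h2 with h2 | h2
      · norm_num at h2
      · have := h2.measure_univ_lt_top
        simp at this
    unfold what
    rw [integral_undef h1]; simp
  · obtain ⟨C, hC⟩ := what_deriv_le (K := K) (n := 0) (by omega)
    exact ⟨C, fun x => by simpa using hC x⟩

theorem wK_even (K : ℕ) (t : ℝ) : wK K (-t) = wK K t := by
  unfold wK
  rw [neg_div, Real.sinc_neg]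

theorem wK_integrable {K : ℕ} (hK : 1 ≤ K) : Integrable (wK K) := by
  simpa using integrable_wK (n := 0) (K := K) (by omega)

/-- entire extension of the weight and its size -/
theorem wK_entire {K : ℕ} (hK : 1 ≤ K) : ∃ W : ℂ → ℂ, Differentiable ℂ W ∧ (∀ t : ℝ, W t = wK K t) ∧
    ∃ C : ℝ, ∀ z : ℂ, ‖W z‖ ≤ C * Real.exp |z.im| / (1 + z.re ^ 2) ^ K := by
  refine ⟨Wc K, Wc_diff K, Wc_real K, (1 + 4 * (K : ℝ) ^ 2) ^ K, fun z => ?_⟩
  refine (norm_Wc_le hK z).trans ?_
  rw [div_pow]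
  have h1 : (1 + z.re ^ 2) ^ K ≤ (1 + ‖z‖ ^ 2) ^ K := by
    have h2 : z.re ^ 2 ≤ ‖z‖ ^ 2 := by
      rw [← sq_abs z.re]
      exact pow_le_pow_left₀ (abs_nonneg _) (Complex.abs_re_le_norm z) 2
    gcongr
  calc Real.exp |z.im| * ((1 + 4 * (K : ℝ) ^ 2) ^ K / (1 + ‖z‖ ^ 2) ^ K)
      ≤ Real.exp |z.im| * ((1 + 4 * (K : ℝ) ^ 2) ^ K / (1 + z.re ^ 2) ^ K) := by
        gcongr
    _ = _ := by ring

theorem what_conj (K : ℕ) (x : ℝ) : (starRingEnd ℂ) (what K x) = what K x := by
  refine Eq.trans ?_ (what_neg K x)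
  unfold what
  rw [← integral_conj]
  refine integral_congr_ae (Filter.Eventually.of_forall fun t => ?_)
  simp only [map_mul, Complex.conj_ofReal, ← Complex.exp_conj, Complex.conj_I]
  congr 2
  push_cast; ring

theorem what_zero {K : ℕ} (hK : 1 ≤ K) : ∃ a : ℝ, 0 < a ∧ what K 0 = a ∧ a = ∫ t, wK K t := by
  refine ⟨∫ t, wK K t, ?_, ?_, rfl⟩
  · obtain ⟨δ, hδ, hw⟩ := wK_ge K
    have h1 : ∫ t in Set.Icc (-1 : ℝ) 1, wK K t ≤ ∫ t, wK K t :=
      setIntegral_le_integral (wK_integrable hK)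
        (Filter.Eventually.of_forall fun t => wK_nonneg K t)
    have h2 : ∫ _t in Set.Icc (-1 : ℝ) 1, δ ≤ ∫ t in Set.Icc (-1 : ℝ) 1, wK K t := by
      refine setIntegral_mono_on (by simp) (wK_integrable hK).integrableOn measurableSet_Icc
        (fun t ht => hw t (abs_le.2 ht))
    have h3 : ∫ _t in Set.Icc (-1 : ℝ) 1, δ = 2 * δ := by
      rw [setIntegral_const]
      simp [Measure.real, Real.volume_Icc]
      left; norm_num
    rw [h3] at h2
    linarith
  · unfold what
    rw [← integral_complex_ofReal]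
    refine integral_congr_ae (Filter.Eventually.of_forall fun t => ?_)
    simp

theorem what_scale {K : ℕ} (hK : 1 ≤ K) {h : ℝ} (hh : 0 < h) (t₀ u : ℝ) :
    Integrable (fun t : ℝ => exp (I * u * t) * (wK K ((t - t₀) / h) : ℂ)) ∧
    ∫ t : ℝ, exp (I * u * t) * (wK K ((t - t₀) / h) : ℂ) = h * exp (I * u * t₀) * what K (h * u) := by
  set g : ℝ → ℂ := fun s => exp (I * u * (h * s + t₀)) * (wK K s : ℂ) with hg
  have hgi : Integrable g := by
    have h1 : Integrable (fun s : ℝ => ((wK K s : ℝ) : ℂ)) := (wK_integrable hK).ofReal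
    refine h1.bdd_mul (c := 1) ?_ (Filter.Eventually.of_forall fun s => ?_)
    · apply Continuous.aestronglyMeasurable
      fun_prop
    · have e1 : I * u * (h * s + t₀) = ((u * (h * s + t₀) : ℝ) : ℂ) * I := by push_cast; ring
      rw [e1, Complex.norm_exp_ofReal_mul_I]
  have hfg : (fun t : ℝ => exp (I * u * t) * (wK K ((t - t₀) / h) : ℂ)) =
      fun t => (fun r => g (r / h)) (t - t₀) := by
    funext t
    simp only [hg]
    congr 3
    have : (h : ℂ) ≠ 0 := by exact_mod_cast hh.ne'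
    push_cast
    field_simp
    ring
  rw [hfg]
  constructor
  · exact (hgi.comp_div hh.ne').comp_sub_right t₀
  · rw [integral_sub_right_eq_self (fun r => g (r / h)) t₀, Measure.integral_comp_div, abs_of_pos hh]
    have e2 : ∫ s, g s = exp (I * u * t₀) * what K (h * u) := by
      unfold what
      rw [← integral_const_mul]
      refine integral_congr_ae (Filter.Eventually.of_forall fun s => ?_)
      simp only [hg]
      have e3 : exp (I * u * (h * s + t₀)) = exp (I * u * t₀) * exp (I * s * ((h * u : ℝ) : ℂ)) := by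
        rw [← Complex.exp_add]
        congr 1
        push_cast; ring
      rw [e3]; ring
    rw [e2, Complex.real_smul]
    ring

end Pool.Agent.CZ
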