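import Mathlib
import Pool.Agent.CZ.Defs
import Pool.Agent.CZ.W
import Pool.Agent.CZ.IBAS
import Pool.Agent.ZD.R1

/-! Critical zeros for `E_d` (MP_553913_nt): the windows, their Fourier transforms, change of `M`. -/

set_option autoImplicit false

open Complex Finset MeasureTheory

namespace Pool.Agent.CZ

open Pool.Agent.H5 (c bd)
open Pool.Agent.ZD (S Lf nu tau)

namespace PSI

/-! ### the smooth step -/

theorem eta_contDiff (n : ℕ∞) : ContDiff ℝ n eta :=
  Real.smoothTransition.contDiff.comp (contDiff_const.sub contDiff_id)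

theorem eta_one {x : ℝ} (hx : x ≤ 1) : eta x = 1 :=
  Real.smoothTransition.one_of_one_le (by linarith)

theorem eta_zero {x : ℝ} (hx : 2 ≤ x) : eta x = 0 :=
  Real.smoothTransition.zero_of_nonpos (by linarith)

theorem eta_nonneg (x : ℝ) : 0 ≤ eta x := Real.smoothTransition.nonneg _

theorem eta_le_one (x : ℝ) : eta x ≤ 1 := Real.smoothTransition.le_one _

theorem eta_iter_zero {j : ℕ} (hj : j ≠ 0) {x : ℝ} (hx : x < 1 ∨ 2 < x) :
    iteratedDeriv j eta x = 0 := by
  rcases hx with hx | hx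
  · have h : eta =ᶠ[nhds x] fun _ => 1 := by
      filter_upwards [Iio_mem_nhds hx] with y hy
      exact eta_one (le_of_lt hy)
    rw [h.iteratedDeriv_eq, iteratedDeriv_const, if_neg hj]
  · have h : eta =ᶠ[nhds x] fun _ => 0 := by
      filter_upwards [Ioi_mem_nhds hx] with y hy
      exact eta_zero (le_of_lt hy)
    rw [h.iteratedDeriv_eq, iteratedDeriv_const, if_neg hj]

theorem eta_iter_bound (j : ℕ) : ∃ E : ℝ, 0 ≤ E ∧ ∀ x, |iteratedDeriv j eta x| ≤ E := by
  rcases eq_or_ne j 0 with rfl | hj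
  · refine ⟨1, zero_le_one, fun x => ?_⟩
    rw [iteratedDeriv_zero, abs_of_nonneg (eta_nonneg x)]
    exact eta_le_one x
  · have hcont : Continuous (iteratedDeriv j eta) :=
      (eta_contDiff j).continuous_iteratedDeriv j le_rfl
    obtain ⟨E, hE⟩ := (isCompact_Icc (a := (1 : ℝ)) (b := 2)).exists_bound_of_continuousOn
      hcont.continuousOn
    refine ⟨max E 0, le_max_right _ _, fun x => ?_⟩
    by_cases hx : x ∈ Set.Icc (1 : ℝ) 2
    · exact (hE x hx).trans (le_max_left _ _)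
    · rw [eta_iter_zero hj, abs_zero]
      · exact le_max_right _ _
      · by_contra h
        push Not at h
        exact hx ⟨h.1, h.2⟩

theorem eta_scale {B : ℝ} (j : ℕ) (x : ℝ) :
    iteratedDeriv j (fun x => eta (x / B)) x = (B⁻¹) ^ j * iteratedDeriv j eta (x / B) := by
  have h1 : (fun x => eta (x / B)) = fun x => eta (B⁻¹ * x) := by
    funext y; rw [div_eq_inv_mul]
  rw [h1, iteratedDeriv_comp_const_mul (eta_contDiff j) B⁻¹, div_eq_inv_mul]

/-- the pointwise majorant -/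
noncomputable def maj (h A B x : ℝ) : ℝ :=
  (Set.Icc (-(1 / h)) (1 / h)).indicator (fun _ => h) x +
    (Set.Icc B (2 * B)).indicator (fun _ => B⁻¹) x + (Set.Icc A (2 * A)).indicator (fun _ => A⁻¹) x

theorem eta_scale_bound {B : ℝ} (hB : 0 < B) {j : ℕ} (hj : j ≠ 0) {E : ℝ}
    (hE : ∀ x, |iteratedDeriv j eta x| ≤ E) (x : ℝ) :
    |iteratedDeriv j (fun x => eta (x / B)) x| ≤
      E * (B⁻¹) ^ (j - 1) * (Set.Icc B (2 * B)).indicator (fun _ => B⁻¹) x := by
  rw [eta_scale, abs_mul, abs_of_nonneg (by positivity)]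
  by_cases hx : x ∈ Set.Icc B (2 * B)
  · rw [Set.indicator_of_mem hx]
    have h1 : (B⁻¹) ^ j = (B⁻¹) ^ (j - 1) * B⁻¹ := by
      rw [← pow_succ]; congr 1; omega
    rw [h1]
    have h2 := hE (x / B)
    have h3 : 0 ≤ (B⁻¹) ^ (j - 1) * B⁻¹ := by positivity
    calc (B⁻¹) ^ (j - 1) * B⁻¹ * |iteratedDeriv j eta (x / B)| ≤ (B⁻¹) ^ (j - 1) * B⁻¹ * E :=
        mul_le_mul_of_nonneg_left h2 h3
      _ = _ := by ring
  · rw [Set.indicator_of_notMem hx, mul_zero, eta_iter_zero hj, abs_zero, mul_zero]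
    by_contra h
    push Not at h
    apply hx
    rw [le_div_iff₀ hB, div_le_iff₀ hB] at h
    exact ⟨by linarith [h.1], h.2⟩

/-! ### the bump -/

/-- difference of two steps -/
noncomputable def bb (A B x : ℝ) : ℝ := eta (x / B) - eta (x / A)

theorem scale_contDiff (B : ℝ) (n : ℕ∞) : ContDiff ℝ n (fun x => eta (x / B)) :=
  (eta_contDiff n).comp (contDiff_id.div_const B)

theorem bb_contDiff (A B : ℝ) (n : ℕ∞) : ContDiff ℝ n (bb A B) :=
  (scale_contDiff B n).sub (scale_contDiff A n)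

theorem bb_zero {A B x : ℝ} (hA : 0 < A) (hAB : A ≤ B) (hx : x ≤ A ∨ 2 * B ≤ x) : bb A B x = 0 := by
  have hB : 0 < B := hA.trans_le hAB
  unfold bb
  rcases hx with hx | hx
  · rw [eta_one ((div_le_one hB).2 (hx.trans hAB)), eta_one ((div_le_one hA).2 hx), sub_self]
  · rw [eta_zero ((le_div_iff₀ hB).2 hx), eta_zero ((le_div_iff₀ hA).2 (by linarith)), sub_self]

theorem abs_bb_le (A B x : ℝ) : |bb A B x| ≤ 1 := by
  unfold bb
  rw [abs_le]
  constructor <;> linarith [eta_nonneg (x / B), eta_nonneg (x / A), eta_le_one (x / B),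
    eta_le_one (x / A)]

/-- the bump times the Fourier transform of the weight -/
noncomputable def gg (K : ℕ) (h A B x : ℝ) : ℂ := bb A B x • what K (h * x)

theorem Psi_eq (K : ℕ) (h t₀ A B x : ℝ) : Psi K h t₀ A B x = exp (I * t₀ * x) * gg K h A B x := by
  unfold Psi gg bb
  rw [Complex.real_smul]
  ring

theorem gg_contDiff {K N : ℕ} (hK : N + 2 ≤ 2 * K) (h A B : ℝ) : ContDiff ℝ N (gg K h A B) :=
  (bb_contDiff A B N).smul ((what_contDiff hK).comp (contDiff_const.mul contDiff_id))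

theorem gg_zero {K : ℕ} {h A B x : ℝ} (hA : 0 < A) (hAB : A ≤ B) (hx : x ≤ A ∨ 2 * B ≤ x) :
    gg K h A B x = 0 := by
  rw [gg, bb_zero hA hAB hx, zero_smul]

theorem gg_compact {K : ℕ} {h A B : ℝ} (hA : 0 < A) (hAB : A ≤ B) :
    HasCompactSupport (gg K h A B) := by
  refine HasCompactSupport.intro (isCompact_Icc (a := A) (b := 2 * B)) fun x hx => ?_
  apply gg_zero hA hAB
  by_contra h
  push Not at h
  exact hx ⟨h.1.le, h.2.le⟩

theorem what_iter_zero {K j : ℕ} (hK : 1 ≤ K) {x : ℝ} (hx : 1 < |x|) :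
    iteratedDeriv j (what K) x = 0 := by
  have h : what K =ᶠ[nhds x] fun _ => 0 := by
    have : {y : ℝ | 1 < |y|} ∈ nhds x := (isOpen_lt continuous_const continuous_abs).mem_nhds hx
    filter_upwards [this] with y hy
    exact what_eq_zero hK (le_of_lt hy)
  rw [h.iteratedDeriv_eq, iteratedDeriv_const]
  split_ifs <;> rfl

theorem what_scale_bound {K j : ℕ} (hK : j + 2 ≤ 2 * K) : ∃ E : ℝ, 0 ≤ E ∧ ∀ (h x : ℝ), 0 < h →
    ‖iteratedDeriv j (fun x => what K (h * x)) x‖ ≤ E * h ^ j ∧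
    (1 < h * |x| → iteratedDeriv j (fun x => what K (h * x)) x = 0) := by
  obtain ⟨E, hE⟩ := what_deriv_le hK
  refine ⟨max E 0, le_max_right _ _, fun h x hh => ?_⟩
  have h1 : iteratedDeriv j (fun x => what K (h * x)) x = h ^ j • iteratedDeriv j (what K) (h * x) := by
    have := congrFun (iteratedDeriv_comp_const_smul (what_contDiff hK) h) x
    simpa only [smul_eq_mul] using this
  rw [h1]
  constructor
  · rw [norm_smul, Real.norm_eq_abs, abs_of_nonneg (by positivity), mul_comm]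
    exact mul_le_mul_of_nonneg_right ((hE _).trans (le_max_left _ _)) (by positivity)
  · intro hx
    rw [what_iter_zero (by omega), smul_zero]
    rwa [abs_mul, abs_of_pos hh]

theorem gg_iter_bound {K N : ℕ} (hN : 1 ≤ N) (hK : N + 2 ≤ 2 * K) : ∃ C : ℝ, 0 ≤ C ∧
    ∀ (h A B x : ℝ), 0 < h → 1 ≤ A → A ≤ B → h * A ≤ 1 →
    ‖iteratedDeriv N (gg K h A B) x‖ ≤ C * (A⁻¹) ^ (N - 1) * maj h A B x := by
  have hE : ∀ j : ℕ, ∃ E : ℝ, 0 ≤ E ∧ ∀ x, |iteratedDeriv j eta x| ≤ E := eta_iter_bound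
  choose E hE0 hE using hE
  have hW : ∀ j : ℕ, ∃ W : ℝ, 0 ≤ W ∧ (j ≤ N → ∀ (h x : ℝ), 0 < h →
      ‖iteratedDeriv j (fun x => what K (h * x)) x‖ ≤ W * h ^ j ∧
      (1 < h * |x| → iteratedDeriv j (fun x => what K (h * x)) x = 0)) := by
    intro j
    by_cases hj : j ≤ N
    · obtain ⟨W, hW0, hW⟩ := what_scale_bound (K := K) (j := j) (by omega)
      exact ⟨W, hW0, fun _ => hW⟩
    · exact ⟨0, le_rfl, fun h => absurd h hj⟩
  choose W hW0 hW using hW
  refine ⟨∑ i ∈ range (N + 1), (N.choose i : ℝ) * ((1 + E i) * W (N - i)),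
    Finset.sum_nonneg fun i _ => mul_nonneg (Nat.cast_nonneg _)
      (mul_nonneg (by linarith [hE0 i]) (hW0 _)), fun h A B x hh hA hAB hhA => ?_⟩
  have hA0 : 0 < A := by linarith
  have hB0 : 0 < B := by linarith
  have hhA' : h ≤ A⁻¹ := by rw [le_inv_comm₀ hh hA0, ← one_div, le_div_iff₀ hh]; linarith
  have hBA : B⁻¹ ≤ A⁻¹ := inv_anti₀ hA0 hAB
  have hAi : 0 < A⁻¹ := inv_pos.2 hA0
  have hBi : 0 < B⁻¹ := inv_pos.2 hB0
  rw [← norm_iteratedFDeriv_eq_norm_iteratedDeriv]
  have h1 := norm_iteratedFDeriv_smul_le (bb_contDiff A B N)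
    ((what_contDiff hK).comp (contDiff_const.mul contDiff_id) :
      ContDiff ℝ N (fun x => what K (h * x))) x (n := N) le_rfl
  refine h1.trans ?_
  rw [Finset.sum_mul, Finset.sum_mul]
  apply Finset.sum_le_sum
  intro i hi
  have hiN : i ≤ N := by have := Finset.mem_range.1 hi; omega
  rw [norm_iteratedFDeriv_eq_norm_iteratedDeriv, norm_iteratedFDeriv_eq_norm_iteratedDeriv]
  obtain ⟨hw1, hw2⟩ := hW (N - i) (by omega) h x hh
  have hmaj1 : 0 ≤ (Set.Icc (-(1 / h)) (1 / h)).indicator (fun _ => h) x :=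
    Set.indicator_nonneg (fun _ _ => hh.le) x
  have hmaj2 : 0 ≤ (Set.Icc B (2 * B)).indicator (fun _ => B⁻¹) x :=
    Set.indicator_nonneg (fun _ _ => hBi.le) x
  have hmaj3 : 0 ≤ (Set.Icc A (2 * A)).indicator (fun _ => A⁻¹) x :=
    Set.indicator_nonneg (fun _ _ => hAi.le) x
  have key : ‖iteratedDeriv i (bb A B) x‖ * ‖iteratedDeriv (N - i) (fun x => what K (h * x)) x‖ ≤
      (1 + E i) * W (N - i) * (A⁻¹) ^ (N - 1) * maj h A B x := by
    rcases eq_or_ne i 0 with rfl | hi0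
    · rw [iteratedDeriv_zero, Real.norm_eq_abs, Nat.sub_zero]
      rw [Nat.sub_zero] at hw1 hw2
      by_cases hx : 1 < h * |x|
      · rw [hw2 hx, norm_zero, mul_zero]
        have : 0 ≤ maj h A B x := by unfold maj; positivity
        have h3 := hE0 0
        have h4 := hW0 N
        positivity
      · push Not at hx
        have hx' : x ∈ Set.Icc (-(1 / h)) (1 / h) := by
          rw [Set.mem_Icc, ← abs_le, le_div_iff₀ hh]
          linarith
        have h3 : h ^ N ≤ (A⁻¹) ^ (N - 1) * h := by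
          have : h ^ N = h ^ (N - 1) * h := by rw [← pow_succ]; congr 1; omega
          rw [this]
          apply mul_le_mul_of_nonneg_right _ hh.le
          exact pow_le_pow_left₀ hh.le hhA' _
        have h4 : h ≤ maj h A B x := by
          unfold maj
          rw [Set.indicator_of_mem hx']
          linarith
        calc |bb A B x| * ‖iteratedDeriv N (fun x => what K (h * x)) x‖ ≤ 1 * (W N * h ^ N) :=
              mul_le_mul (abs_bb_le A B x) hw1 (norm_nonneg _) zero_le_one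
          _ = 1 * W N * h ^ N := by ring
          _ ≤ (1 + E 0) * W N * ((A⁻¹) ^ (N - 1) * h) := by
              apply mul_le_mul _ h3 (by positivity) _
              · exact mul_le_mul_of_nonneg_right (by linarith [hE0 0]) (hW0 _)
              · exact mul_nonneg (by linarith [hE0 0]) (hW0 _)
          _ ≤ (1 + E 0) * W N * ((A⁻¹) ^ (N - 1) * maj h A B x) := by
              apply mul_le_mul_of_nonneg_left _ (mul_nonneg (by linarith [hE0 0]) (hW0 _))
              exact mul_le_mul_of_nonneg_left h4 (by positivity)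
          _ = _ := by ring
    · have h2 : iteratedDeriv i (bb A B) x =
          iteratedDeriv i (fun x => eta (x / B)) x - iteratedDeriv i (fun x => eta (x / A)) x :=
        iteratedDeriv_sub (scale_contDiff B i).contDiffAt (scale_contDiff A i).contDiffAt
      have h3 : ‖iteratedDeriv i (bb A B) x‖ ≤ E i * (A⁻¹) ^ (i - 1) *
          ((Set.Icc B (2 * B)).indicator (fun _ => B⁻¹) x +
            (Set.Icc A (2 * A)).indicator (fun _ => A⁻¹) x) := by
        rw [h2, Real.norm_eq_abs]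
        refine (abs_sub _ _).trans ?_
        have h4 := eta_scale_bound hB0 hi0 (hE i) x
        have h5 := eta_scale_bound hA0 hi0 (hE i) x
        have h6 : (B⁻¹) ^ (i - 1) ≤ (A⁻¹) ^ (i - 1) := pow_le_pow_left₀ hBi.le hBA _
        have h7 : E i * (B⁻¹) ^ (i - 1) * (Set.Icc B (2 * B)).indicator (fun _ => B⁻¹) x ≤
            E i * (A⁻¹) ^ (i - 1) * (Set.Icc B (2 * B)).indicator (fun _ => B⁻¹) x :=
          mul_le_mul_of_nonneg_right (mul_le_mul_of_nonneg_left h6 (hE0 i)) hmaj2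
        rw [mul_add]
        linarith
      have h8 : (A⁻¹) ^ (i - 1) * h ^ (N - i) ≤ (A⁻¹) ^ (N - 1) := by
        have : (A⁻¹) ^ (N - 1) = (A⁻¹) ^ (i - 1) * (A⁻¹) ^ (N - i) := by
          rw [← pow_add]; congr 1; omega
        rw [this]
        exact mul_le_mul_of_nonneg_left (pow_le_pow_left₀ hh.le hhA' _) (by positivity)
      have h9 : (Set.Icc B (2 * B)).indicator (fun _ => B⁻¹) x +
            (Set.Icc A (2 * A)).indicator (fun _ => A⁻¹) x ≤ maj h A B x := by
        unfold maj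
        linarith
      have h10 : 0 ≤ (Set.Icc B (2 * B)).indicator (fun _ => B⁻¹) x +
            (Set.Icc A (2 * A)).indicator (fun _ => A⁻¹) x := by positivity
      calc ‖iteratedDeriv i (bb A B) x‖ * ‖iteratedDeriv (N - i) (fun x => what K (h * x)) x‖
          ≤ (E i * (A⁻¹) ^ (i - 1) * ((Set.Icc B (2 * B)).indicator (fun _ => B⁻¹) x +
            (Set.Icc A (2 * A)).indicator (fun _ => A⁻¹) x)) * (W (N - i) * h ^ (N - i)) :=
            mul_le_mul h3 hw1 (norm_nonneg _) (mul_nonneg (mul_nonneg (hE0 i) (by positivity)) h10)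
        _ = (E i * W (N - i)) * (((A⁻¹) ^ (i - 1) * h ^ (N - i)) *
            ((Set.Icc B (2 * B)).indicator (fun _ => B⁻¹) x +
            (Set.Icc A (2 * A)).indicator (fun _ => A⁻¹) x)) := by ring
        _ ≤ ((1 + E i) * W (N - i)) * ((A⁻¹) ^ (N - 1) * maj h A B x) := by
            apply mul_le_mul
            · exact mul_le_mul_of_nonneg_right (by linarith) (hW0 _)
            · exact mul_le_mul h8 h9 h10 (by positivity)
            · positivity
            · exact mul_nonneg (by linarith [hE0 i]) (hW0 _)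
        _ = _ := by ring
  calc (N.choose i : ℝ) * ‖iteratedDeriv i (bb A B) x‖ *
        ‖iteratedDeriv (N - i) (fun x => what K (h * x)) x‖
      = (N.choose i : ℝ) * (‖iteratedDeriv i (bb A B) x‖ *
        ‖iteratedDeriv (N - i) (fun x => what K (h * x)) x‖) := by ring
    _ ≤ (N.choose i : ℝ) * ((1 + E i) * W (N - i) * (A⁻¹) ^ (N - 1) * maj h A B x) :=
        mul_le_mul_of_nonneg_left key (Nat.cast_nonneg _)
    _ = _ := by ring

/-! ### integrals -/

theorem integrable_ind {a b : ℝ} (r : ℝ) : Integrable ((Set.Icc a b).indicator (fun _ => r)) := by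
  rw [integrable_indicator_iff measurableSet_Icc]
  exact integrableOn_const (by simp)

theorem integral_ind {a b r : ℝ} (hab : a ≤ b) :
    ∫ x, (Set.Icc a b).indicator (fun _ => r) x = (b - a) * r := by
  rw [integral_indicator measurableSet_Icc, setIntegral_const, smul_eq_mul, Measure.real,
    Real.volume_Icc, ENNReal.toReal_ofReal (by linarith)]

theorem integrable_maj (h A B : ℝ) : Integrable (maj h A B) :=
  ((integrable_ind h).add (integrable_ind B⁻¹)).add (integrable_ind A⁻¹)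

theorem integral_maj {h A B : ℝ} (hh : 0 < h) (hA : 0 < A) (hB : 0 < B) :
    ∫ x, maj h A B x = 4 := by
  have hh1 : 0 < 1 / h := by positivity
  have e1 : ∫ x, ((Set.Icc (-(1 / h)) (1 / h)).indicator (fun _ => h) x +
      (Set.Icc B (2 * B)).indicator (fun _ => B⁻¹) x) = 3 := by
    rw [integral_add (integrable_ind h) (integrable_ind B⁻¹), integral_ind (by linarith),
      integral_ind (by linarith)]
    field_simp
    ring
  have e2 := integral_add (μ := volume)
    (f := fun x => (Set.Icc (-(1 / h)) (1 / h)).indicator (fun _ => h) x +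
      (Set.Icc B (2 * B)).indicator (fun _ => B⁻¹) x)
    (g := (Set.Icc A (2 * A)).indicator (fun _ => A⁻¹))
    ((integrable_ind h).add (integrable_ind B⁻¹)) (integrable_ind A⁻¹)
  unfold maj
  rw [e2, e1, integral_ind (by linarith)]
  field_simp
  ring

theorem ft_deriv {f : ℝ → ℂ} (hf : ContDiff ℝ 1 f) (hc : HasCompactSupport f) (v : ℝ) :
    ∫ x : ℝ, deriv f x * exp (-(I * v * x)) = (I * v) * ∫ x : ℝ, f x * exp (-(I * v * x)) := by
  have hfd : Differentiable ℝ f := hf.differentiable one_ne_zero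
  have he : ∀ x : ℝ, HasDerivAt (fun x : ℝ => exp (-(I * v * x))) (-(I * v) * exp (-(I * v * x))) x := by
    intro x
    have h1 : HasDerivAt (fun x : ℝ => -(I * v * (x : ℂ))) (-(I * v)) x := by
      have h2 := (Complex.ofRealCLM.hasDerivAt (x := x)).const_mul (-(I * v))
      simp only [Complex.ofRealCLM_apply] at h2
      have h3 : (fun x : ℝ => -(I * v * (x : ℂ))) = fun x : ℝ => -(I * v) * (x : ℂ) := by
        funext y; ring
      rw [h3]
      simpa using h2
    have h4 := h1.cexp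
    have h5 : exp (-(I * v * (x : ℂ))) * -(I * v) = -(I * v) * exp (-(I * v * (x : ℂ))) :=
      mul_comm _ _
    rw [← h5]
    exact h4
  have hfc : Continuous f := hf.continuous
  have hf'c : Continuous (deriv f) := hf.continuous_deriv le_rfl
  have hec : Continuous fun x : ℝ => exp (-(I * v * x)) := by fun_prop
  have i1 : Integrable (fun x : ℝ => deriv f x * exp (-(I * v * x))) :=
    (hf'c.mul hec).integrable_of_hasCompactSupport hc.deriv.mul_right
  have i2 : Integrable (fun x : ℝ => f x * exp (-(I * v * x))) :=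
    (hfc.mul hec).integrable_of_hasCompactSupport hc.mul_right
  have i3 : Integrable (fun x : ℝ => f x * (-(I * v) * exp (-(I * v * x)))) := by
    have := i2.const_mul (-(I * v))
    refine this.congr (Filter.Eventually.of_forall fun x => ?_)
    simp only
    ring
  have h1 := integral_mul_deriv_eq_deriv_mul_of_integrable (u := f) (u' := deriv f)
    (v := fun x : ℝ => exp (-(I * v * x))) (v' := fun x : ℝ => -(I * v) * exp (-(I * v * x)))
    (fun x _ => (hfd x).hasDerivAt) (fun x _ => he x) i3 i1 i2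
  have h2 : ∫ x : ℝ, f x * (-(I * v) * exp (-(I * v * x))) =
      -(I * v) * ∫ x : ℝ, f x * exp (-(I * v * x)) := by
    rw [← integral_const_mul]
    refine integral_congr_ae (Filter.Eventually.of_forall fun x => ?_)
    simp only
    ring
  rw [h2] at h1
  linear_combination h1

theorem ft_bound : ∀ (N : ℕ) {f : ℝ → ℂ}, ContDiff ℝ N f → HasCompactSupport f → ∀ v : ℝ,
    |v| ^ N * ‖∫ x : ℝ, f x * exp (-(I * v * x))‖ ≤ ∫ x : ℝ, ‖iteratedDeriv N f x‖ := by
  intro N
  induction N with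
  | zero =>
    intro f _ _ v
    rw [pow_zero, one_mul]
    refine (norm_integral_le_integral_norm _).trans (le_of_eq ?_)
    refine integral_congr_ae (Filter.Eventually.of_forall fun x => ?_)
    simp only [iteratedDeriv_zero]
    rw [norm_mul, Complex.norm_exp]
    simp
  | succ N ih =>
    intro f hf hc v
    have h1 : ContDiff ℝ N (deriv f) := by
      have : ContDiff ℝ ((N : WithTop ℕ∞) + 1) f := by exact_mod_cast hf
      exact (contDiff_succ_iff_deriv.1 this).2.2
    have h2 := ih h1 hc.deriv v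
    rw [ft_deriv (hf.of_le (by exact_mod_cast Nat.le_add_left 1 N)) hc v, norm_mul, norm_mul,
      Complex.norm_I, one_mul, Complex.norm_real, Real.norm_eq_abs] at h2
    rw [iteratedDeriv_succ', pow_succ, mul_assoc]
    exact h2

theorem gg_ft {K N : ℕ} (hN : 1 ≤ N) (hK : N + 2 ≤ 2 * K) : ∃ C : ℝ, 0 ≤ C ∧
    ∀ (h A B v : ℝ), 0 < h → 1 ≤ A → A ≤ B → h * A ≤ 1 →
    |v| ^ N * A ^ (N - 1) * ‖∫ x : ℝ, gg K h A B x * exp (-(I * v * x))‖ ≤ C := by
  obtain ⟨C, hC0, hC⟩ := gg_iter_bound hN hK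
  refine ⟨4 * C, by linarith, fun h A B v hh hA hAB hhA => ?_⟩
  have hA0 : 0 < A := by linarith
  have hB0 : 0 < B := by linarith
  have h1 := ft_bound N (gg_contDiff hK h A B) (gg_compact hA0 hAB) v
  have h2 : ∫ x : ℝ, ‖iteratedDeriv N (gg K h A B) x‖ ≤ C * (A⁻¹) ^ (N - 1) * 4 := by
    rw [← integral_maj hh hA0 hB0, ← integral_const_mul]
    apply integral_mono_of_nonneg (Filter.Eventually.of_forall fun x => norm_nonneg _)
      ((integrable_maj h A B).const_mul _)
    exact Filter.Eventually.of_forall fun x => hC h A B x hh hA hAB hhA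
  have h3 : A ^ (N - 1) * (A⁻¹) ^ (N - 1) = 1 := by
    rw [← mul_pow, mul_inv_cancel₀ hA0.ne', one_pow]
  calc |v| ^ N * A ^ (N - 1) * ‖∫ x : ℝ, gg K h A B x * exp (-(I * v * x))‖
      = A ^ (N - 1) * (|v| ^ N * ‖∫ x : ℝ, gg K h A B x * exp (-(I * v * x))‖) := by ring
    _ ≤ A ^ (N - 1) * (C * (A⁻¹) ^ (N - 1) * 4) :=
        mul_le_mul_of_nonneg_left (h1.trans h2) (by positivity)
    _ = (A ^ (N - 1) * (A⁻¹) ^ (N - 1)) * (4 * C) := by ring
    _ = 4 * C := by rw [h3, one_mul]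

theorem gg_norm_le (K : ℕ) : ∃ C : ℝ, 0 ≤ C ∧ ∀ (h A B x : ℝ), ‖gg K h A B x‖ ≤ C := by
  obtain ⟨C, hC⟩ := what_norm_le K
  refine ⟨max C 0, le_max_right _ _, fun h A B x => ?_⟩
  rw [gg, norm_smul, Real.norm_eq_abs]
  calc |bb A B x| * ‖what K (h * x)‖ ≤ 1 * max C 0 :=
      mul_le_mul (abs_bb_le A B x) ((hC _).trans (le_max_left _ _)) (norm_nonneg _) zero_le_one
    _ = max C 0 := one_mul _

theorem gg_ft0 (K : ℕ) : ∃ C : ℝ, 0 ≤ C ∧ ∀ (h A B v : ℝ), 1 ≤ A → A ≤ B →
    ‖∫ x : ℝ, gg K h A B x * exp (-(I * v * x))‖ ≤ C * B := by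
  obtain ⟨C, hC0, hC⟩ := gg_norm_le K
  refine ⟨2 * C, by linarith, fun h A B v hA hAB => ?_⟩
  have hA0 : 0 < A := by linarith
  have hB0 : 0 < B := by linarith
  have h1 : ∀ x, ‖gg K h A B x * exp (-(I * v * x))‖ ≤
      (Set.Icc 0 (2 * B)).indicator (fun _ => C) x := by
    intro x
    rw [norm_mul, Complex.norm_exp]
    have : (-(I * v * (x : ℂ))).re = 0 := by simp
    rw [this, Real.exp_zero, mul_one]
    by_cases hx : x ∈ Set.Icc 0 (2 * B)
    · rw [Set.indicator_of_mem hx]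
      exact hC _ _ _ _
    · rw [Set.indicator_of_notMem hx, gg_zero hA0 hAB, norm_zero]
      by_contra h2
      push Not at h2
      exact hx ⟨by linarith [h2.1], h2.2.le⟩
  refine (norm_integral_le_integral_norm _).trans ?_
  refine (integral_mono_of_nonneg (Filter.Eventually.of_forall fun x => norm_nonneg _)
    (integrable_ind C) (Filter.Eventually.of_forall h1)).trans (le_of_eq ?_)
  rw [integral_ind (by linarith)]
  ring

end PSI

open PSI

theorem Psi_contDiff {K : ℕ} (hK : 3 ≤ K) {h t₀ A B : ℝ} : ContDiff ℝ 2 (Psi K h t₀ A B) := by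
  have h1 : Psi K h t₀ A B = fun x : ℝ => exp (I * t₀ * x) * gg K h A B x :=
    funext (Psi_eq K h t₀ A B)
  rw [h1]
  have h2 : ContDiff ℝ 2 (gg K h A B) := by
    have := gg_contDiff (K := K) (N := 2) (by omega) h A B
    exact_mod_cast this
  apply ContDiff.mul _ h2
  apply ContDiff.cexp
  exact contDiff_const.mul Complex.ofRealCLM.contDiff

theorem PSI.Psi_contDiff_one {K : ℕ} (hK : 2 ≤ K) {h t₀ A B : ℝ} :
    ContDiff ℝ 1 (Psi K h t₀ A B) := by
  have h1 : Psi K h t₀ A B = fun x : ℝ => exp (I * t₀ * x) * gg K h A B x :=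
    funext (Psi_eq K h t₀ A B)
  rw [h1]
  have h2 : ContDiff ℝ 1 (gg K h A B) := by
    have := gg_contDiff (K := K) (N := 1) (by omega) h A B
    exact_mod_cast this
  apply ContDiff.mul _ h2
  apply ContDiff.cexp
  exact contDiff_const.mul Complex.ofRealCLM.contDiff

theorem Psi_support {K : ℕ} {h t₀ A B x : ℝ} (hA : 0 < A) (hAB : A ≤ B)
    (hx : x ≤ A ∨ 2 * B ≤ x) : Psi K h t₀ A B x = 0 ∧ deriv (Psi K h t₀ A B) x = 0 := by
  have h0 : Psi K h t₀ A B x = 0 := by rw [Psi_eq, gg_zero hA hAB hx, mul_zero]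
  refine ⟨h0, ?_⟩
  obtain ⟨C, hC⟩ := what_norm_le K
  -- the bump has derivative zero at `x`
  have hbd : HasDerivAt (bb A B) 0 x := by
    have h1 : Differentiable ℝ (bb A B) := (bb_contDiff A B 1).differentiable one_ne_zero
    have h2 : Continuous (deriv (bb A B)) := (bb_contDiff A B 1).continuous_deriv le_rfl
    have h3 : deriv (bb A B) x = 0 := by
      rcases hx with hx | hx
      · have h4 : Set.EqOn (deriv (bb A B)) (fun _ => 0) (Set.Iio A) := by
          intro y hy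
          have h5 : bb A B =ᶠ[nhds y] fun _ => 0 := by
            filter_upwards [Iio_mem_nhds hy] with z hz
            exact bb_zero hA hAB (Or.inl (le_of_lt hz))
          rw [h5.deriv_eq, deriv_const]
        have h6 := h4.closure h2 continuous_const
        exact h6 (by rw [closure_Iio]; exact hx)
      · have h4 : Set.EqOn (deriv (bb A B)) (fun _ => 0) (Set.Ioi (2 * B)) := by
          intro y hy
          have h5 : bb A B =ᶠ[nhds y] fun _ => 0 := by
            filter_upwards [Ioi_mem_nhds hy] with z hz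
            exact bb_zero hA hAB (Or.inr (le_of_lt hz))
          rw [h5.deriv_eq, deriv_const]
        have h6 := h4.closure h2 continuous_const
        exact h6 (by rw [closure_Ioi]; exact hx)
    rw [← h3]
    exact (h1 x).hasDerivAt
  have hb0 : bb A B x = 0 := bb_zero hA hAB hx
  have hd : HasDerivAt (Psi K h t₀ A B) 0 x := by
    rw [hasDerivAt_iff_isLittleO]
    rw [hasDerivAt_iff_isLittleO] at hbd
    simp only [hb0, sub_zero, smul_zero, h0] at hbd ⊢
    refine Asymptotics.IsBigO.trans_isLittleO ?_ hbd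
    refine Asymptotics.IsBigO.of_bound C (Filter.Eventually.of_forall fun y => ?_)
    rw [Psi_eq, gg, norm_mul, norm_smul, Complex.norm_exp]
    have : (I * t₀ * (y : ℂ)).re = 0 := by simp
    rw [this, Real.exp_zero, one_mul, mul_comm]
    exact mul_le_mul_of_nonneg_right (hC _) (norm_nonneg _)
  exact hd.deriv

theorem Psi_compact {K : ℕ} {h t₀ A B : ℝ} (hA : 0 < A) (hAB : A ≤ B) :
    HasCompactSupport (Psi K h t₀ A B) := by
  refine HasCompactSupport.intro (isCompact_Icc (a := A) (b := 2 * B)) fun x hx => ?_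
  refine (Psi_support hA hAB ?_).1
  by_contra h
  push Not at h
  exact hx ⟨h.1.le, h.2.le⟩

theorem PSI.Psi_hasDerivAt {K : ℕ} (hK : 3 ≤ K) (h t₀ A B x : ℝ) : HasDerivAt (Psi K h t₀ A B)
    (exp (I * t₀ * x) * (I * t₀ * gg K h A B x + deriv (gg K h A B) x)) x := by
  have h1 : Psi K h t₀ A B = fun x : ℝ => exp (I * t₀ * x) * gg K h A B x :=
    funext (Psi_eq K h t₀ A B)
  rw [h1]
  have h2 : Differentiable ℝ (gg K h A B) := by
    have := gg_contDiff (K := K) (N := 1) (by omega) h A B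
    exact ContDiff.differentiable (n := 1) (by exact_mod_cast this) one_ne_zero
  have h3 : HasDerivAt (fun x : ℝ => exp (I * t₀ * x)) (exp (I * t₀ * x) * (I * t₀)) x := by
    have h4 : HasDerivAt (fun x : ℝ => I * t₀ * (x : ℂ)) (I * t₀) x := by
      have h5 := (Complex.ofRealCLM.hasDerivAt (x := x)).const_mul (I * (t₀ : ℂ))
      simpa using h5
    exact h4.cexp
  have h6 := h3.mul (h2 x).hasDerivAt
  have h7 : exp (I * t₀ * x) * (I * t₀) * gg K h A B x + exp (I * t₀ * x) * deriv (gg K h A B) x =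
      exp (I * t₀ * x) * (I * t₀ * gg K h A B x + deriv (gg K h A B) x) := by ring
  rw [h7] at h6
  exact h6

theorem PSI.maj_le {h A B : ℝ} (hh : 0 < h) (hA : 1 ≤ A) (hAB : A ≤ B) (hhA : h * A ≤ 1) (x : ℝ) :
    maj h A B x ≤ 3 := by
  have hA0 : 0 < A := by linarith
  have hB0 : 0 < B := by linarith
  have h1 : h ≤ 1 := by nlinarith
  have h2 : A⁻¹ ≤ 1 := inv_le_one_of_one_le₀ hA
  have h3 : B⁻¹ ≤ 1 := inv_le_one_of_one_le₀ (hA.trans hAB)
  have e : ∀ (s : Set ℝ) (r : ℝ), r ≤ 1 → s.indicator (fun _ => r) x ≤ 1 := by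
    intro s r hr
    by_cases hx : x ∈ s
    · rw [Set.indicator_of_mem hx]; exact hr
    · rw [Set.indicator_of_notMem hx]; exact zero_le_one
  unfold maj
  linarith [e (Set.Icc (-(1 / h)) (1 / h)) h h1, e (Set.Icc B (2 * B)) _ h3,
    e (Set.Icc A (2 * A)) _ h2]

theorem Psi_bound {K : ℕ} (hK : 3 ≤ K) (T₀ : ℝ) : ∃ C : ℝ, ∀ (h t₀ A B x : ℝ), 0 < h → |t₀| ≤ T₀ →
    1 ≤ A → A ≤ B → h * A ≤ 1 → ‖Psi K h t₀ A B x‖ ≤ C ∧ ‖deriv (Psi K h t₀ A B) x‖ ≤ C := by
  obtain ⟨C₀, hC₀, h0⟩ := gg_norm_le K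
  obtain ⟨C₁, hC₁, h1⟩ := gg_iter_bound (K := K) (N := 1) le_rfl (by omega)
  refine ⟨(1 + |T₀|) * C₀ + 3 * C₁, fun h t₀ A B x hh ht hA hAB hhA => ?_⟩
  have hn : ‖exp (I * t₀ * x)‖ = 1 := by
    rw [Complex.norm_exp]
    have : (I * t₀ * (x : ℂ)).re = 0 := by simp
    rw [this, Real.exp_zero]
  have hT : 0 ≤ |T₀| := abs_nonneg _
  constructor
  · rw [Psi_eq, norm_mul, hn, one_mul]
    refine (h0 h A B x).trans ?_
    nlinarith
  · rw [(Psi_hasDerivAt hK h t₀ A B x).deriv, norm_mul, hn, one_mul]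
    refine (norm_add_le _ _).trans ?_
    have h2 : ‖deriv (gg K h A B) x‖ ≤ C₁ * 3 := by
      have := h1 h A B x hh hA hAB hhA
      rw [iteratedDeriv_one, Nat.sub_self, pow_zero, mul_one] at this
      exact this.trans (mul_le_mul_of_nonneg_left (maj_le hh hA hAB hhA x) hC₁)
    have h3 : ‖I * t₀ * gg K h A B x‖ ≤ |T₀| * C₀ := by
      rw [norm_mul, norm_mul, Complex.norm_I, one_mul, Complex.norm_real, Real.norm_eq_abs]
      exact mul_le_mul (ht.trans (le_abs_self _)) (h0 h A B x) (norm_nonneg _) hT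
    linarith

theorem PSI.combine {n : ℕ} {A B w X c₀ c₁ : ℝ} (hA : 1 ≤ A) (hAB : A ≤ B) (hw : 0 ≤ w) (hX : 0 ≤ X)
    (hc₀ : 0 ≤ c₀) (h0 : X ≤ c₀ * B) (h1 : w * X ≤ c₁) (h2 : w ^ (n + 1) * A ^ n * X ≤ c₁) :
    X ≤ 2 ^ n * (2 * c₀ + 3 * c₁) * B / ((1 + B * w) * (1 + A * w) ^ n) := by
  have hA0 : 0 < A := by linarith
  have hB0 : 0 < B := by linarith
  have hc₁ : 0 ≤ c₁ := (by positivity : 0 ≤ w * X).trans h1
  rw [le_div_iff₀ (by positivity)]
  have h3 : (1 + A * w) ^ n ≤ 2 ^ n * (1 + (A * w) ^ n) := by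
    have hAw : 0 ≤ A * w := by positivity
    rcases le_total (A * w) 1 with h | h
    · calc (1 + A * w) ^ n ≤ 2 ^ n := pow_le_pow_left₀ (by positivity) (by linarith) n
        _ ≤ 2 ^ n * (1 + (A * w) ^ n) := by
          have : 0 ≤ (A * w) ^ n := by positivity
          nlinarith [pow_pos (two_pos : (0 : ℝ) < 2) n]
    · calc (1 + A * w) ^ n ≤ (2 * (A * w)) ^ n := pow_le_pow_left₀ (by positivity) (by linarith) n
        _ = 2 ^ n * (A * w) ^ n := by rw [mul_pow]
        _ ≤ 2 ^ n * (1 + (A * w) ^ n) := by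
          apply mul_le_mul_of_nonneg_left (by linarith) (by positivity)
  have h4 : (A * w) ^ n * X ≤ c₀ * B + c₁ * B := by
    rcases le_total (A * w) 1 with h | h
    · have : (A * w) ^ n ≤ 1 := pow_le_one₀ (by positivity) h
      nlinarith [mul_nonneg hc₁ hB0.le]
    · have h5 : (A * w) ^ n * X ≤ (A * w) ^ (n + 1) * X :=
        mul_le_mul_of_nonneg_right (pow_le_pow_right₀ h (Nat.le_succ n)) hX
      have h6 : (A * w) ^ (n + 1) * X = A * (w ^ (n + 1) * A ^ n * X) := by
        rw [mul_pow, pow_succ A]; ring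
      have h7 : A * (w ^ (n + 1) * A ^ n * X) ≤ B * c₁ := mul_le_mul hAB h2 (by positivity) hB0.le
      nlinarith [mul_nonneg hc₀ hB0.le]
  have h8 : B * w * X ≤ B * c₁ := by
    have := mul_le_mul_of_nonneg_left h1 hB0.le
    linarith
  have h9 : B * w * ((A * w) ^ n * X) ≤ B * c₁ := by
    have h10 : B * w * ((A * w) ^ n * X) = B * (w ^ (n + 1) * A ^ n * X) := by
      rw [mul_pow]; ring
    rw [h10]
    exact mul_le_mul_of_nonneg_left h2 hB0.le
  calc X * ((1 + B * w) * (1 + A * w) ^ n) = (1 + B * w) * X * (1 + A * w) ^ n := by ring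
    _ ≤ (1 + B * w) * X * (2 ^ n * (1 + (A * w) ^ n)) :=
        mul_le_mul_of_nonneg_left h3 (by positivity)
    _ = 2 ^ n * (X + (A * w) ^ n * X + B * w * X + B * w * ((A * w) ^ n * X)) := by ring
    _ ≤ 2 ^ n * (c₀ * B + (c₀ * B + c₁ * B) + B * c₁ + B * c₁) := by
        apply mul_le_mul_of_nonneg_left _ (by positivity)
        linarith
    _ = 2 ^ n * (2 * c₀ + 3 * c₁) * B := by ring

/-- Fourier transforms of a window and of its derivative -/
theorem Psi_hat (K n : ℕ) (hK : n + 4 ≤ 2 * K) (T₀ : ℝ) : ∃ C : ℝ, ∀ (h t₀ A B τ : ℝ), 0 < h →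
    |t₀| ≤ T₀ → 1 ≤ A → A ≤ B → h * A ≤ 1 → ∀ Ψ : ℝ → ℂ,
    (Ψ = Psi K h t₀ A B ∨ Ψ = deriv (Psi K h t₀ A B)) →
    ‖∫ x, Ψ x * exp (-(I * τ * x))‖ ≤ C * B / ((1 + B * |τ - t₀|) * (1 + A * |τ - t₀|) ^ n) := by
  obtain ⟨a₀, ha₀, h0⟩ := gg_ft0 K
  obtain ⟨a₁, ha₁, h1⟩ := gg_ft (K := K) (N := 1) le_rfl (by omega)
  obtain ⟨a₂, ha₂, h2⟩ := gg_ft (K := K) (N := 2) (by omega) (by omega)
  obtain ⟨a₃, ha₃, h3⟩ := gg_ft (K := K) (N := n + 1) (by omega) (by omega)
  obtain ⟨a₄, ha₄, h4⟩ := gg_ft (K := K) (N := n + 2) (by omega) (by omega)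
  set c₁ : ℝ := a₁ + a₂ + a₃ + a₄ with hc₁
  set E : ℝ := 2 ^ n * (2 * (a₀ + a₁) + 3 * c₁) with hE
  have hE0 : 0 ≤ E := by positivity
  refine ⟨(1 + (|T₀| + 1)) * E, fun h t₀ A B τ hh ht hA hAB hhA Ψ hΨ => ?_⟩
  have hA0 : 0 < A := by linarith
  have hB0 : 0 < B := by linarith
  set w := |τ - t₀| with hw
  have hw0 : 0 ≤ w := abs_nonneg _
  set X := ‖∫ x : ℝ, gg K h A B x * exp (-(I * (τ - t₀ : ℝ) * x))‖ with hX
  have hX0 : 0 ≤ X := norm_nonneg _
  have e0 : X ≤ a₀ * B := h0 h A B (τ - t₀) hA hAB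
  have e1 : w * X ≤ a₁ := by
    have := h1 h A B (τ - t₀) hh hA hAB hhA
    rwa [pow_one, Nat.sub_self, pow_zero, mul_one] at this
  have e2 : w * (w * X) ≤ a₂ := by
    have h5 := h2 h A B (τ - t₀) hh hA hAB hhA
    have h6 : w ^ 2 * X ≤ |τ - t₀| ^ 2 * A ^ (2 - 1) * X := by
      have : w ^ 2 * X * 1 ≤ w ^ 2 * X * A := mul_le_mul_of_nonneg_left hA (by positivity)
      calc w ^ 2 * X = w ^ 2 * X * 1 := by ring
        _ ≤ w ^ 2 * X * A := this
        _ = |τ - t₀| ^ 2 * A ^ (2 - 1) * X := by rw [hw]; norm_num; ring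
    calc w * (w * X) = w ^ 2 * X := by ring
      _ ≤ _ := h6
      _ ≤ a₂ := h5
  have e3 : w ^ (n + 1) * A ^ n * X ≤ a₃ := by
    have := h3 h A B (τ - t₀) hh hA hAB hhA
    rwa [Nat.add_sub_cancel] at this
  have e4 : w ^ (n + 1) * A ^ n * (w * X) ≤ a₄ := by
    have h5 := h4 h A B (τ - t₀) hh hA hAB hhA
    have h6 : w ^ (n + 1) * A ^ n * (w * X) ≤ |τ - t₀| ^ (n + 2) * A ^ (n + 2 - 1) * X := by
      have h7 : n + 2 - 1 = n + 1 := by omega
      rw [h7, ← hw]
      have : w ^ (n + 2) * A ^ n * X * 1 ≤ w ^ (n + 2) * A ^ n * X * A :=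
        mul_le_mul_of_nonneg_left hA (by positivity)
      calc w ^ (n + 1) * A ^ n * (w * X) = w ^ (n + 2) * A ^ n * X * 1 := by ring
        _ ≤ w ^ (n + 2) * A ^ n * X * A := this
        _ = w ^ (n + 2) * A ^ (n + 1) * X := by ring
    exact h6.trans h5
  set den := (1 + B * w) * (1 + A * w) ^ n with hden
  have hden0 : 0 < den := by positivity
  -- both bounds
  have f0 : X ≤ E * B / den := by
    have := combine (n := n) (c₀ := a₀ + a₁) (c₁ := c₁) hA hAB hw0 hX0 (by positivity)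
      (e0.trans (by nlinarith)) (e1.trans (by linarith)) (e3.trans (by linarith))
    rw [hE]
    exact this
  have f1 : w * X ≤ E * B / den := by
    have := combine (n := n) (c₀ := a₀ + a₁) (c₁ := c₁) hA hAB hw0 (mul_nonneg hw0 hX0)
      (by positivity) (e1.trans (by nlinarith)) (e2.trans (by linarith)) (e4.trans (by linarith))
    rw [hE]
    exact this
  have hP : ∀ x : ℝ, Psi K h t₀ A B x * exp (-(I * τ * x)) =
      gg K h A B x * exp (-(I * (τ - t₀ : ℝ) * x)) := by
    intro x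
    rw [Psi_eq, mul_comm (exp _) (gg K h A B x), mul_assoc, ← Complex.exp_add]
    congr 2
    push_cast
    ring
  have hPX : ‖∫ x : ℝ, Psi K h t₀ A B x * exp (-(I * τ * x))‖ = X := by
    rw [hX]
    congr 1
    exact integral_congr_ae (Filter.Eventually.of_forall hP)
  have hT : 0 ≤ |T₀| := abs_nonneg _
  have hq0 : 0 ≤ E * B / den := by positivity
  have hgoal : (1 + (|T₀| + 1)) * E * B / den = (1 + (|T₀| + 1)) * (E * B / den) := by ring
  rw [hgoal]
  rcases hΨ with rfl | rfl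
  · rw [hPX]
    nlinarith
  · rw [ft_deriv (Psi_contDiff_one (by omega)) (Psi_compact hA0 hAB) τ, norm_mul,
      norm_mul, Complex.norm_I, one_mul, Complex.norm_real, Real.norm_eq_abs, hPX]
    have h5 : |τ| ≤ |T₀| + w := by
      have h6 : |τ| ≤ |t₀| + w := by
        rw [hw]
        have := abs_add_le t₀ (τ - t₀)
        rwa [add_sub_cancel] at this
      linarith [ht.trans (le_abs_self T₀)]
    calc |τ| * X ≤ (|T₀| + w) * X := mul_le_mul_of_nonneg_right h5 hX0
      _ = |T₀| * X + w * X := by ring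
      _ ≤ |T₀| * (E * B / den) + E * B / den :=
          add_le_add (mul_le_mul_of_nonneg_left f0 hT) f1
      _ ≤ (1 + (|T₀| + 1)) * (E * B / den) := by nlinarith

/-! ### change of `M` -/

/-- the theta block on the multiplicative line -/
noncomputable def PSI.Fy (D : ℤ) (y : ℝ) : ℂ := ((Real.exp y : ℝ) : ℂ) * S D ((Real.exp y : ℝ) : ℂ)

theorem PSI.Fy_cont (D : ℤ) : Continuous (Fy D) := by
  unfold Fy
  have h1 : Continuous fun y : ℝ => ((Real.exp y : ℝ) : ℂ) :=
    Complex.continuous_ofReal.comp Real.continuous_exp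
  apply h1.mul
  have h2 := Pool.Agent.ZD.R.S_continuousOn D
  rw [← continuousOn_univ]
  apply h2.comp h1.continuousOn
  intro y _
  simp only [Set.mem_ofPred_eq, Complex.ofReal_re]
  exact Real.exp_pos y

theorem PSI.sB_eq (D : ℤ) {M : ℝ} (hM : 0 < M) (x : ℝ) : sB D M x = Fy D (x - Real.log M) := by
  unfold sB Fy
  rw [Real.exp_sub, Real.exp_log hM]

theorem sB_continuous {D : ℤ} {M : ℝ} (hM : 0 < M) : Continuous (sB D M) := by
  have h1 : sB D M = fun x => Fy D (x - Real.log M) := funext (sB_eq D hM)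
  rw [h1]
  exact (Fy_cont D).comp (continuous_id.sub continuous_const)

theorem sB_bound {D : ℤ} {M x : ℝ} (hM : 0 < M) (hx : 0 ≤ x) : ‖sB D M x‖ ≤ 10 * (1 + M) := by
  set r : ℝ := Real.exp x / M with hr
  have hr0 : 0 < r := by positivity
  have hrM : 1 ≤ r * M := by
    rw [hr, div_mul_cancel₀ _ hM.ne']
    exact Real.one_le_exp hx
  set q : ℝ := Real.exp (-(2 * Real.pi * r)) with hq
  have hpi : 0 < Real.pi := Real.pi_pos
  have hq0 : 0 < q := Real.exp_pos _
  have hq1 : q < 1 := by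
    rw [hq, Real.exp_lt_one_iff]
    have : 0 < 2 * Real.pi * r := by positivity
    linarith
  have hqn : ‖q‖ < 1 := by rwa [Real.norm_eq_abs, abs_of_pos hq0]
  have hsum : HasSum (fun n : ℕ => (n : ℝ) * q ^ n) (q / (1 - q) ^ 2) := by
    have := hasSum_coe_mul_geometric_of_norm_lt_one (𝕜 := ℝ) hqn
    exact this
  have hterm : ∀ n : ℕ, ‖(bd D n : ℂ) * exp (-(2 * Real.pi * n * (r : ℂ)))‖ ≤ 2 * ((n : ℝ) * q ^ n) := by
    intro n
    rw [norm_mul, Complex.norm_exp]
    have h1 : (-(2 * (Real.pi : ℂ) * n * (r : ℂ))).re = n * (-(2 * Real.pi * r)) := by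
      have : (-(2 * (Real.pi : ℂ) * n * (r : ℂ))) = ((n * (-(2 * Real.pi * r)) : ℝ) : ℂ) := by
        push_cast; ring
      rw [this, Complex.ofReal_re]
    rw [h1, Real.exp_nat_mul, ← hq]
    have h2 : ‖(bd D n : ℂ)‖ ≤ 2 * n := by
      have := bas_abs_bd_le' D n
      rw [Complex.norm_intCast]
      exact this
    calc ‖(bd D n : ℂ)‖ * q ^ n ≤ 2 * n * q ^ n := mul_le_mul_of_nonneg_right h2 (by positivity)
      _ = _ := by ring
  have hS : ‖S D (r : ℂ)‖ ≤ 2 * (q / (1 - q) ^ 2) := by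
    unfold S
    exact tsum_of_norm_bounded (hsum.mul_left 2) hterm
  have hs : q / (1 - q) ^ 2 ≤ 1 / (4 * Real.pi ^ 2 * r ^ 2) := by
    have h1 : Real.pi * r ≤ Real.sinh (Real.pi * r) := Real.self_le_sinh_iff.2 (by positivity)
    rw [Real.sinh_eq] at h1
    set a := Real.exp (Real.pi * r) with ha
    have ha0 : 0 < a := Real.exp_pos _
    have h2 : Real.exp (-(Real.pi * r)) = a⁻¹ := Real.exp_neg _
    have h3 : q = a⁻¹ ^ 2 := by
      rw [hq, ← h2, ← Real.exp_nat_mul]
      congr 1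
      push_cast
      ring
    rw [h2] at h1
    have h4 : 0 < Real.pi * r := by positivity
    have h5 : 1 - q = a⁻¹ * (a - a⁻¹) := by
      rw [h3]
      field_simp
    have h6 : 0 < a - a⁻¹ := by linarith
    have h7 : q / (1 - q) ^ 2 = 1 / (a - a⁻¹) ^ 2 := by
      rw [h5, h3]
      have : a⁻¹ ≠ 0 := (inv_pos.2 ha0).ne'
      rw [mul_pow, div_mul_eq_div_div, div_self (pow_ne_zero 2 this)]
    rw [h7]
    apply one_div_le_one_div_of_le (by positivity)
    have h8 : 2 * (Real.pi * r) ≤ a - a⁻¹ := by linarith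
    calc 4 * Real.pi ^ 2 * r ^ 2 = (2 * (Real.pi * r)) ^ 2 := by ring
      _ ≤ (a - a⁻¹) ^ 2 := pow_le_pow_left₀ (by positivity) h8 2
  have hfin : r * (2 * (1 / (4 * Real.pi ^ 2 * r ^ 2))) ≤ M := by
    have h1 : r * (2 * (1 / (4 * Real.pi ^ 2 * r ^ 2))) = 1 / (2 * Real.pi ^ 2 * r) := by
      field_simp
      ring
    rw [h1, div_le_iff₀ (by positivity)]
    have h2 : (1 : ℝ) ≤ 2 * Real.pi ^ 2 := by
      have := Real.pi_gt_three
      nlinarith
    have h3 : 0 < r * M := by positivity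
    nlinarith
  unfold sB
  rw [norm_mul, ← hr, Complex.norm_real, Real.norm_eq_abs, abs_of_pos hr0]
  calc r * ‖S D (r : ℂ)‖ ≤ r * (2 * (1 / (4 * Real.pi ^ 2 * r ^ 2))) := by
        apply mul_le_mul_of_nonneg_left _ hr0.le
        exact hS.trans (mul_le_mul_of_nonneg_left hs zero_le_two)
    _ ≤ M := hfin
    _ ≤ 10 * (1 + M) := by linarith

theorem PSI.FF_eq (D : ℤ) {M : ℝ} (hM : 0 < M) (Ψ : ℝ → ℂ) :
    FF D M Ψ = (MeasureTheory.convolution (fun t => Fy D (-t)) Ψ (ContinuousLinearMap.mul ℝ ℂ) volume)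
      (Real.log M) := by
  unfold FF MeasureTheory.convolution
  rw [← integral_sub_left_eq_self (fun x => sB D M x * Ψ x) volume (Real.log M)]
  refine integral_congr_ae (Filter.Eventually.of_forall fun t => ?_)
  simp only [ContinuousLinearMap.mul_apply']
  rw [sB_eq D hM]
  congr 2
  ring

/-- change of `M` -/
theorem FF_change {D : ℤ} {M₀ M : ℝ} (h0 : 0 < M₀) (hM : M₀ ≤ M) {Ψ : ℝ → ℂ} (hΨ : ContDiff ℝ 1 Ψ)
    (hc : HasCompactSupport Ψ) :
    ‖FF D M Ψ‖ ≤ ‖FF D M₀ Ψ‖ + ∫ u in M₀..M, ‖FF D u (deriv Ψ)‖ / u := by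
  have hM0 : 0 < M := h0.trans_le hM
  set L := ContinuousLinearMap.mul ℝ ℂ with hL
  set f : ℝ → ℂ := fun t => Fy D (-t) with hf
  have hfc : Continuous f := (Fy_cont D).comp continuous_neg
  have hfl : LocallyIntegrable f volume := hfc.locallyIntegrable
  have hd : ∀ s : ℝ, HasDerivAt (MeasureTheory.convolution f Ψ L volume) ((MeasureTheory.convolution f (deriv Ψ) L volume) s) s :=
    fun s => hc.hasDerivAt_convolution_right L hfl hΨ s
  have hcont : Continuous (MeasureTheory.convolution f (deriv Ψ) L volume) :=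
    hc.deriv.continuous_convolution_right L hfl (hΨ.continuous_deriv le_rfl)
  have hpos : ∀ u ∈ Set.uIcc M₀ M, 0 < u := by
    intro u hu
    rw [Set.uIcc_of_le hM] at hu
    exact h0.trans_le hu.1
  have hd2 : ∀ u ∈ Set.uIcc M₀ M, HasDerivAt (fun u => (MeasureTheory.convolution f Ψ L volume) (Real.log u))
      (u⁻¹ • (MeasureTheory.convolution f (deriv Ψ) L volume) (Real.log u)) u := by
    intro u hu
    exact (hd (Real.log u)).scomp u (Real.hasDerivAt_log (hpos u hu).ne')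
  have hcl : ContinuousOn (fun u => (MeasureTheory.convolution f (deriv Ψ) L volume) (Real.log u))
      (Set.uIcc M₀ M) := by
    apply hcont.comp_continuousOn
    exact Real.continuousOn_log.mono fun u hu => (hpos u hu).ne'
  have hci : ContinuousOn (fun u : ℝ => u⁻¹) (Set.uIcc M₀ M) :=
    continuousOn_inv₀.mono fun u hu => (hpos u hu).ne'
  have hint : IntervalIntegrable (fun u => u⁻¹ • (MeasureTheory.convolution f (deriv Ψ) L volume) (Real.log u))
      volume M₀ M := (hci.smul hcl).intervalIntegrable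
  have hftc := intervalIntegral.integral_eq_sub_of_hasDerivAt hd2 hint
  have e1 := FF_eq D hM0 Ψ
  have e0 := FF_eq D h0 Ψ
  rw [← hf, ← hL] at e1 e0
  rw [← e1, ← e0] at hftc
  have h2 : FF D M Ψ = FF D M₀ Ψ +
      ∫ u in M₀..M, u⁻¹ • (MeasureTheory.convolution f (deriv Ψ) L volume) (Real.log u) := by
    rw [hftc]; ring
  rw [h2]
  refine (norm_add_le _ _).trans ?_
  gcongr
  refine (intervalIntegral.norm_integral_le_integral_norm hM).trans (le_of_eq ?_)
  apply intervalIntegral.integral_congr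
  intro u hu
  have hu0 := hpos u hu
  simp only
  rw [norm_smul, Real.norm_eq_abs, abs_of_pos (inv_pos.2 hu0), FF_eq D hu0 (deriv Ψ), ← hf, ← hL,
    div_eq_inv_mul]

end Pool.Agent.CZ
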