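import Mathlib
import Pool.Agent.CZ.Defs
import Pool.Agent.CZ.RM
import Pool.Agent.CZ.SUMS
import Pool.Agent.CZ.PS
import Pool.Agent.ZD.E1

/-!
# Critical zeros (MP_553913_nt): moments in the random model
-/

set_option autoImplicit false

open Complex Finset MeasureTheory

namespace Pool.Agent.CZ

open Pool.Agent.H5 (c bd)
open Pool.Agent.ZD (nu nuF)

/-! ### real averages -/

theorem mom_MP_pos (P : ℕ) : (0 : ℝ) < MP P := by exact_mod_cast rm_MP_pos P

theorem mom_RR_cast (P : ℕ) (f : ℤ → ℝ) : ((RR P f : ℝ) : ℂ) = RA P (fun D => ((f D : ℝ) : ℂ)) := by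
  unfold RR RA
  push_cast
  rfl

theorem mom_RR_mono {P : ℕ} {f g : ℤ → ℝ} (h : ∀ D, f D ≤ g D) : RR P f ≤ RR P g := by
  unfold RR
  exact div_le_div_of_nonneg_right (Finset.sum_le_sum fun D _ => h D) (mom_MP_pos P).le

theorem mom_RR_nonneg {P : ℕ} {f : ℤ → ℝ} (h : ∀ D, 0 ≤ f D) : 0 ≤ RR P f := by
  unfold RR
  exact div_nonneg (Finset.sum_nonneg fun D _ => h D) (mom_MP_pos P).le

theorem mom_RR_add (P : ℕ) (f g : ℤ → ℝ) : RR P (fun D => f D + g D) = RR P f + RR P g := by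
  unfold RR
  rw [Finset.sum_add_distrib, add_div]

theorem mom_RR_smul (P : ℕ) (w : ℝ) (f : ℤ → ℝ) : RR P (fun D => w * f D) = w * RR P f := by
  unfold RR
  rw [← Finset.mul_sum, mul_div_assoc]

theorem mom_RR_const (P : ℕ) (w : ℝ) : RR P (fun _ => w) = w := by
  unfold RR
  rw [Finset.sum_const, card_range, nsmul_eq_mul, mul_comm, mul_div_assoc,
    div_self (mom_MP_pos P).ne', mul_one]

theorem mom_RR_sum {ι : Type*} (s : Finset ι) (P : ℕ) (f : ι → ℤ → ℝ) :
    RR P (fun D => ∑ i ∈ s, f i D) = ∑ i ∈ s, RR P (f i) := by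
  unfold RR
  rw [Finset.sum_comm, Finset.sum_div]

theorem mom_loc {p : ℕ} (hp : p.Prime) (h2 : p ≠ 2) (f : ℤ → ℝ) :
    (∑ x ∈ range p, f (jacobiSym x p)) / p = f 0 / p + (1 - 1 / p) * (f 1 + f (-1)) / 2 := by
  have h := loc_avg hp h2 (fun v => ((f v : ℝ) : ℂ))
  apply Complex.ofReal_injective
  push_cast
  exact h

theorem mom_jac {p : ℕ} (hp : p.Prime) {M : ℕ} (h : p ∣ M) (D : ℤ) :
    jacobiSym (D + M) p = jacobiSym D p := by
  apply rm_jacobi_congr _ hp.ne_zero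
  intro q hq hqp
  rw [(Nat.prime_dvd_prime_iff_eq hq hp).1 hqp]
  exact rm_cast h D

theorem mom_prod {a b P : ℕ} (hbP : b ≤ P) (φ : ℕ → ℤ → ℝ) :
    RR P (fun D => ∏ p ∈ primesIoc a b, φ p (jacobiSym D p)) =
      ∏ p ∈ primesIoc a b, (φ p 0 / p + (1 - 1 / p) * (φ p 1 + φ p (-1)) / 2) := by
  have h := RA_prodIoc hbP (fun p D => ((φ p (jacobiSym D p) : ℝ) : ℂ)) (a := a) (by
    intro p hp D
    have hp1 := (rm_mem.1 hp).2.1
    rw [mom_jac hp1 (dvd_refl p)])
  have h1 : RA P (fun D => ∏ p ∈ primesIoc a b, ((φ p (jacobiSym D p) : ℝ) : ℂ)) =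
      ((RR P (fun D => ∏ p ∈ primesIoc a b, φ p (jacobiSym D p)) : ℝ) : ℂ) := by
    rw [mom_RR_cast]
    congr 1
    funext D
    push_cast
    rfl
  rw [h1] at h
  have h3 : ∏ p ∈ primesIoc a b, ((∑ x ∈ range p, ((φ p (jacobiSym x p) : ℝ) : ℂ)) / p) =
      ((∏ p ∈ primesIoc a b, (φ p 0 / p + (1 - 1 / p) * (φ p 1 + φ p (-1)) / 2) : ℝ) : ℂ) := by
    rw [Complex.ofReal_prod]
    refine Finset.prod_congr rfl fun p hp => ?_
    obtain ⟨-, hp1, hp2⟩ := rm_mem.1 hp
    rw [← mom_loc hp1 hp2]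
    push_cast
    rfl
  rw [h3] at h
  exact_mod_cast h

theorem mom_indep {y P : ℕ} (hyP : y ≤ P) (f g : ℤ → ℝ) (hf : ∀ D : ℤ, f (D + MP y) = f D)
    (hg : ∀ D : ℤ, g (D + (∏ p ∈ primesIoc y P, p : ℕ)) = g D) :
    RR P (fun D => f D * g D) = RR P f * RR P g := by
  have h := RA_indep hyP (fun D => ((f D : ℝ) : ℂ)) (fun D => ((g D : ℝ) : ℂ))
    (fun D => by rw [hf]) (fun D => by rw [hg])
  rw [← mom_RR_cast, ← mom_RR_cast] at h
  have h1 : RA P (fun D => ((f D : ℝ) : ℂ) * ((g D : ℝ) : ℂ)) = ((RR P (fun D => f D * g D) : ℝ) : ℂ) := by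
    rw [mom_RR_cast]
    congr 1
    funext D
    push_cast
    rfl
  rw [h1] at h
  exact_mod_cast h

theorem mom_single {p P : ℕ} (hp : p.Prime) (h2 : p ≠ 2) (hpP : p ≤ P) (g : ℤ → ℝ) :
    RR P (fun D => g (jacobiSym D p)) = g 0 / p + (1 - 1 / p) * (g 1 + g (-1)) / 2 := by
  have hs : primesIoc (p - 1) p = {p} := by
    ext q
    rw [rm_mem, Finset.mem_singleton]
    constructor
    · rintro ⟨⟨h1, h3⟩, -⟩
      omega
    · rintro rfl
      have := hp.pos
      exact ⟨⟨by omega, le_rfl⟩, hp, h2⟩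
  have h := mom_prod (a := p - 1) (b := p) hpP (fun _ v => g v)
  rw [hs] at h
  simpa using h

/-- one more prime -/
theorem mom_step {p P : ℕ} (hp : p.Prime) (h2 : p ≠ 2) (hpP : p ≤ P) (f : ℤ → ℤ → ℝ)
    (hf : ∀ v D, f v (D + MP (p - 1)) = f v D) :
    RR P (fun D => f (jacobiSym D p) D) =
      RR P (f 0) / p + (1 - 1 / p) * (RR P (f 1) + RR P (f (-1))) / 2 := by
  have hdec : ∀ D : ℤ, f (jacobiSym D p) D =
      (f 0 D * (if jacobiSym D p = 0 then 1 else 0) + f 1 D * (if jacobiSym D p = 1 then 1 else 0)) +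
        f (-1) D * (if jacobiSym D p = -1 then 1 else 0) := by
    intro D
    rcases SUMS_sym_cases (p := p) D with h | h | h <;> rw [h] <;> simp
  have hg : ∀ v : ℤ, ∀ D : ℤ,
      (fun D : ℤ => if jacobiSym D p = v then (1 : ℝ) else 0) (D + (∏ q ∈ primesIoc (p - 1) P, q : ℕ)) =
        (fun D : ℤ => if jacobiSym D p = v then (1 : ℝ) else 0) D := by
    intro v D
    have hmem : p ∈ primesIoc (p - 1) P := by
      rw [rm_mem]
      have := hp.pos
      exact ⟨⟨by omega, hpP⟩, hp, h2⟩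
    simp only
    rw [mom_jac hp (Finset.dvd_prod_of_mem _ hmem)]
  have hI : ∀ v : ℤ, RR P (fun D => f v D * (if jacobiSym D p = v then (1 : ℝ) else 0)) =
      RR P (f v) * RR P (fun D : ℤ => if jacobiSym D p = v then (1 : ℝ) else 0) := fun v =>
    mom_indep (by have := hp.pos; omega) _ _ (hf v) (hg v)
  have e : (fun D : ℤ => f (jacobiSym D p) D) = fun D =>
      (f 0 D * (if jacobiSym D p = 0 then (1 : ℝ) else 0) +
        f 1 D * (if jacobiSym D p = 1 then (1 : ℝ) else 0)) +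
        f (-1) D * (if jacobiSym D p = -1 then (1 : ℝ) else 0) := by
    funext D; exact hdec D
  rw [e, mom_RR_add, mom_RR_add, hI, hI, hI,
    mom_single hp h2 hpP (fun v => if v = 0 then (1 : ℝ) else 0),
    mom_single hp h2 hpP (fun v => if v = 1 then (1 : ℝ) else 0),
    mom_single hp h2 hpP (fun v => if v = -1 then (1 : ℝ) else 0)]
  norm_num
  ring

/-! ### prime sums and products -/

theorem mom_inv_sum : ∃ C : ℝ, 0 ≤ C ∧ ∀ a b : ℕ,
    ∑ p ∈ primesIoc a b, (1 : ℝ) / p ≤ Real.log (1 + Real.log b) + C := by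
  obtain ⟨C, hC⟩ := sum_inv_prime_le
  refine ⟨|C|, abs_nonneg _, fun a b => ?_⟩
  rcases Nat.eq_zero_or_pos b with rfl | hb
  · have : primesIoc a 0 = ∅ := by
      apply Finset.eq_empty_of_forall_notMem
      intro p hp
      have h := rm_mem.1 hp
      have := h.2.1.pos
      omega
    rw [this]
    simp
  have h1 : ∑ p ∈ primesIoc a b, (1 : ℝ) / p ≤ ∑ p ∈ primesIoc 1 b, (1 : ℝ) / p := by
    apply Finset.sum_le_sum_of_subset_of_nonneg
    · intro p hp
      rw [rm_mem] at hp ⊢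
      exact ⟨⟨hp.2.1.one_lt, hp.1.2⟩, hp.2⟩
    · intro p _ _
      positivity
  refine h1.trans ((hC 1 b le_rfl hb).trans ?_)
  have h2 : rho 1 b 0 = 1 + Real.log b := by
    unfold rho
    simp
  rw [h2]
  linarith [le_abs_self C]

theorem mom_log_nonneg (b : ℕ) : 0 ≤ Real.log b := Real.log_natCast_nonneg b

/-- a product of local averages `≤ 1 + K / p` -/
theorem mom_prod_le {K : ℝ} (hK : 0 ≤ K) : ∃ C : ℝ, 0 ≤ C ∧ ∀ (a b : ℕ) (F : ℕ → ℝ),
    (∀ p ∈ primesIoc a b, 0 ≤ F p ∧ F p ≤ 1 + K / p) →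
    ∏ p ∈ primesIoc a b, F p ≤ C * (1 + Real.log b) ^ K := by
  obtain ⟨C0, hC0, h0⟩ := mom_inv_sum
  refine ⟨Real.exp (K * C0), (Real.exp_pos _).le, fun a b F hF => ?_⟩
  have h1 : ∏ p ∈ primesIoc a b, F p ≤ ∏ p ∈ primesIoc a b, Real.exp (K * (1 / p)) := by
    apply Finset.prod_le_prod (fun p hp => (hF p hp).1)
    intro p hp
    refine (hF p hp).2.trans ?_
    have := Real.add_one_le_exp (K * (1 / (p : ℝ)))
    have e : K * (1 / (p : ℝ)) = K / p := by ring
    rw [e] at this ⊢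
    linarith
  refine h1.trans ?_
  rw [← Real.exp_sum, ← Finset.mul_sum]
  have hpos : 0 < 1 + Real.log b := by linarith [mom_log_nonneg b]
  calc Real.exp (K * ∑ p ∈ primesIoc a b, (1 : ℝ) / p)
      ≤ Real.exp (K * (Real.log (1 + Real.log b) + C0)) :=
        Real.exp_le_exp.2 (mul_le_mul_of_nonneg_left (h0 a b) hK)
    _ = Real.exp (K * C0) * (1 + Real.log b) ^ K := by
        rw [Real.rpow_def_of_pos hpos, ← Real.exp_add]
        congr 1; ring

/-! ### Khintchine -/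

/-- `(2k-1)!!` -/
noncomputable def momdf (k : ℕ) : ℝ := ((2 * k).factorial : ℝ) / (2 ^ k * (k.factorial : ℝ))

theorem momdf_pos (k : ℕ) : 0 < momdf k := by
  unfold momdf
  positivity

theorem momdf_le (k : ℕ) : momdf k ≤ (k : ℝ) ^ k := by
  unfold momdf
  rw [div_le_iff₀ (by positivity)]
  have h := Nat.factorial_two_mul_le k
  have h' : ((2 * k).factorial : ℝ) ≤ (2 * (k : ℝ)) ^ k * k.factorial := by exact_mod_cast h
  calc ((2 * k).factorial : ℝ) ≤ (2 * (k : ℝ)) ^ k * k.factorial := h'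
    _ = (k : ℝ) ^ k * (2 ^ k * k.factorial) := by rw [mul_pow]; ring

theorem momdf_choose {k j : ℕ} (hj : j ≤ k) :
    ((2 * k).choose (2 * j) : ℝ) * momdf (k - j) ≤ momdf k * (k.choose j : ℝ) := by
  have h1 : ((2 * k).choose (2 * j) : ℝ) * (((2 * j).factorial : ℝ) * ((2 * (k - j)).factorial : ℝ)) =
      ((2 * k).factorial : ℝ) := by
    have h := Nat.choose_mul_factorial_mul_factorial (show 2 * j ≤ 2 * k by omega)
    rw [show 2 * k - 2 * j = 2 * (k - j) by omega] at h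
    rw [← mul_assoc]
    exact_mod_cast h
  have h2 : (k.choose j : ℝ) * ((j.factorial : ℝ) * ((k - j).factorial : ℝ)) = (k.factorial : ℝ) := by
    have h := Nat.choose_mul_factorial_mul_factorial hj
    rw [← mul_assoc]
    exact_mod_cast h
  have h3 : (2 : ℝ) ^ j * (j.factorial : ℝ) ≤ ((2 * j).factorial : ℝ) := by
    exact_mod_cast Nat.two_pow_mul_factorial_le_factorial_two_mul j
  have hA : (0 : ℝ) < (2 * j).factorial := by positivity
  have hB : (0 : ℝ) < (2 * (k - j)).factorial := by positivity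
  have hj' : (0 : ℝ) < j.factorial := by positivity
  have hkj : (0 : ℝ) < (k - j).factorial := by positivity
  have hkk : (0 : ℝ) < k.factorial := by positivity
  have e1 : ((2 * k).choose (2 * j) : ℝ) =
      ((2 * k).factorial : ℝ) / (((2 * j).factorial : ℝ) * ((2 * (k - j)).factorial : ℝ)) := by
    rw [eq_div_iff (by positivity)]; exact h1
  have e2 : (k.choose j : ℝ) = (k.factorial : ℝ) / ((j.factorial : ℝ) * ((k - j).factorial : ℝ)) := by
    rw [eq_div_iff (by positivity)]; exact h2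
  have hp2 : (2 : ℝ) ^ k = 2 ^ (k - j) * 2 ^ j := by rw [← pow_add]; congr 1; omega
  unfold momdf
  rw [e1, e2, hp2]
  have l : ((2 * k).factorial : ℝ) / (((2 * j).factorial : ℝ) * ((2 * (k - j)).factorial : ℝ)) *
      (((2 * (k - j)).factorial : ℝ) / (2 ^ (k - j) * ((k - j).factorial : ℝ))) =
      ((2 * k).factorial : ℝ) / (2 ^ (k - j) * ((k - j).factorial : ℝ)) *
        (1 / ((2 * j).factorial : ℝ)) := by
    field_simp
  have r : ((2 * k).factorial : ℝ) / (2 ^ (k - j) * 2 ^ j * (k.factorial : ℝ)) *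
      ((k.factorial : ℝ) / ((j.factorial : ℝ) * ((k - j).factorial : ℝ))) =
      ((2 * k).factorial : ℝ) / (2 ^ (k - j) * ((k - j).factorial : ℝ)) *
        (1 / (2 ^ j * (j.factorial : ℝ))) := by
    field_simp
  rw [l, r]
  apply mul_le_mul_of_nonneg_left _ (by positivity)
  exact one_div_le_one_div_of_le (by positivity) h3

theorem mom_even_sum (g : ℕ → ℝ) (k : ℕ) :
    ∑ i ∈ range (2 * k + 1), (1 + (-1) ^ i) * g i = 2 * ∑ j ∈ range (k + 1), g (2 * j) := by
  induction k with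
  | zero =>
    have e : (1 + (-1 : ℝ) ^ 0) * g 0 = 2 * g (2 * 0) := by norm_num
    simpa using e
  | succ n ih =>
    rw [show 2 * (n + 1) + 1 = 2 * n + 1 + 1 + 1 by ring, sum_range_succ, sum_range_succ, ih,
      sum_range_succ (fun j => g (2 * j)) (n + 1)]
    have h1 : ((-1 : ℝ)) ^ (2 * n + 1) = -1 := by
      rw [pow_succ, pow_mul]; norm_num
    have h2 : ((-1 : ℝ)) ^ (2 * n + 1 + 1) = 1 := by
      rw [show 2 * n + 1 + 1 = 2 * (n + 1) by ring, pow_mul]; norm_num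
    rw [h1, h2, show 2 * n + 1 + 1 = 2 * (n + 1) by ring]
    ring

theorem mom_pm (x r : ℝ) (k : ℕ) :
    (x + r) ^ (2 * k) + (x + -r) ^ (2 * k) =
      2 * ∑ j ∈ range (k + 1), ((2 * k).choose (2 * j) : ℝ) * r ^ (2 * j) * x ^ (2 * (k - j)) := by
  have h1 : (x + r) ^ (2 * k) + (x + -r) ^ (2 * k) =
      ∑ i ∈ range (2 * k + 1), (1 + (-1) ^ i) * (r ^ i * x ^ (2 * k - i) * ((2 * k).choose i : ℝ)) := by
    rw [add_comm x r, add_comm x (-r), add_pow, add_pow, ← Finset.sum_add_distrib]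
    refine Finset.sum_congr rfl fun i _ => ?_
    rw [neg_pow]
    ring
  rw [h1, mom_even_sum (fun i => r ^ i * x ^ (2 * k - i) * ((2 * k).choose i : ℝ))]
  congr 1
  refine Finset.sum_congr rfl fun j hj => ?_
  rw [show 2 * k - 2 * j = 2 * (k - j) by omega]
  ring

theorem mom_Ioc_succ {a b : ℕ} (hab : a ≤ b) (hp : (b + 1).Prime) (h2 : b + 1 ≠ 2) :
    primesIoc a (b + 1) = insert (b + 1) (primesIoc a b) := by
  ext q
  rw [Finset.mem_insert, rm_mem, rm_mem]
  constructor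
  · rintro ⟨⟨h1, h3⟩, h4⟩
    rcases Nat.lt_or_ge b q with h | h
    · left; omega
    · right; exact ⟨⟨h1, h⟩, h4⟩
  · rintro (rfl | ⟨⟨h1, h3⟩, h4⟩)
    · exact ⟨⟨by omega, le_rfl⟩, hp, h2⟩
    · exact ⟨⟨h1, by omega⟩, h4⟩

theorem mom_Ioc_succ' {a b : ℕ} (h : ¬ (a ≤ b ∧ (b + 1).Prime ∧ b + 1 ≠ 2)) :
    primesIoc a (b + 1) = primesIoc a b := by
  ext q
  rw [rm_mem, rm_mem]
  constructor
  · rintro ⟨⟨h1, h3⟩, h4⟩
    rcases Nat.lt_or_ge b q with h' | h'
    · exfalso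
      apply h
      have : q = b + 1 := by omega
      subst this
      exact ⟨by omega, h4⟩
    · exact ⟨⟨h1, h'⟩, h4⟩
  · rintro ⟨⟨h1, h3⟩, h4⟩
    exact ⟨⟨h1, by omega⟩, h4⟩

theorem mom_Ioc_zero (a : ℕ) : primesIoc a 0 = ∅ := by
  apply Finset.eq_empty_of_forall_notMem
  intro p hp
  have h := rm_mem.1 hp
  have := h.2.1.pos
  omega

theorem mom_khin (r : ℕ → ℝ) (a P : ℕ) : ∀ b : ℕ, b ≤ P → ∀ k : ℕ,
    RR P (fun D => (∑ p ∈ primesIoc a b, ((jacobiSym D p : ℤ) : ℝ) * r p) ^ (2 * k)) ≤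
      momdf k * (∑ p ∈ primesIoc a b, r p ^ 2) ^ k := by
  intro b
  induction b with
  | zero =>
    intro _ k
    rw [mom_Ioc_zero]
    simp only [Finset.sum_empty]
    rw [mom_RR_const]
    rcases Nat.eq_zero_or_pos k with rfl | hk
    · unfold momdf; simp
    · rw [zero_pow (by omega), zero_pow hk.ne', mul_zero]
  | succ b ih =>
    intro hb k
    by_cases hcase : a ≤ b ∧ (b + 1).Prime ∧ b + 1 ≠ 2
    swap
    · rw [mom_Ioc_succ' hcase]
      exact ih (by omega) k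
    obtain ⟨hab, hp, h2⟩ := hcase
    rw [mom_Ioc_succ hab hp h2]
    have hnot : b + 1 ∉ primesIoc a b := by
      intro h
      have := (rm_mem.1 h).1.2
      omega
    simp only [Finset.sum_insert hnot]
    set S : ℤ → ℝ := fun D => ∑ p ∈ primesIoc a b, ((jacobiSym D p : ℤ) : ℝ) * r p with hS
    set V : ℝ := ∑ p ∈ primesIoc a b, r p ^ 2 with hV
    have hV0 : 0 ≤ V := Finset.sum_nonneg fun p _ => sq_nonneg _
    have hSper : ∀ D : ℤ, S (D + MP b) = S D := by
      intro D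
      rw [hS]
      refine Finset.sum_congr rfl fun p hp' => ?_
      obtain ⟨h3, h4, h5⟩ := rm_mem.1 hp'
      rw [mom_jac h4 (rm_dvd_MP h4 h5 h3.2)]
    have hstep := mom_step hp h2 hb (fun v D => (S D + (v : ℝ) * r (b + 1)) ^ (2 * k)) (by
      intro v D
      rw [show b + 1 - 1 = b by omega, hSper])
    have e0 : (fun D : ℤ => (((jacobiSym D (b + 1) : ℤ) : ℝ) * r (b + 1) +
        ∑ p ∈ primesIoc a b, ((jacobiSym D p : ℤ) : ℝ) * r p) ^ (2 * k)) =
        fun D : ℤ => (S D + ((jacobiSym D (b + 1) : ℤ) : ℝ) * r (b + 1)) ^ (2 * k) := by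
      funext D
      rw [add_comm]
    rw [e0, hstep]
    set q := r (b + 1) with hq
    have hp0 : (0 : ℝ) < ((b + 1 : ℕ) : ℝ) := by positivity
    have hsum : RR P (fun D => (S D + ((1 : ℤ) : ℝ) * q) ^ (2 * k)) +
        RR P (fun D => (S D + ((-1 : ℤ) : ℝ) * q) ^ (2 * k)) ≤
        2 * (momdf k * (q ^ 2 + V) ^ k) := by
      rw [← mom_RR_add]
      have e1 : (fun D : ℤ => (S D + ((1 : ℤ) : ℝ) * q) ^ (2 * k) +
          (S D + ((-1 : ℤ) : ℝ) * q) ^ (2 * k)) = fun D : ℤ =>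
          2 * ∑ j ∈ range (k + 1), ((2 * k).choose (2 * j) : ℝ) * q ^ (2 * j) * S D ^ (2 * (k - j)) := by
        funext D
        rw [← mom_pm]
        push_cast
        ring
      rw [e1, mom_RR_smul, mom_RR_sum]
      apply mul_le_mul_of_nonneg_left _ (by norm_num)
      rw [add_pow, Finset.mul_sum]
      apply Finset.sum_le_sum
      intro j hj
      have hjk : j ≤ k := by have := mem_range.1 hj; omega
      rw [mom_RR_smul]
      calc ((2 * k).choose (2 * j) : ℝ) * q ^ (2 * j) * RR P (fun D => S D ^ (2 * (k - j)))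
          ≤ ((2 * k).choose (2 * j) : ℝ) * q ^ (2 * j) * (momdf (k - j) * V ^ (k - j)) := by
            apply mul_le_mul_of_nonneg_left (ih (by omega) (k - j))
            rw [pow_mul]; positivity
        _ = (((2 * k).choose (2 * j) : ℝ) * momdf (k - j)) * ((q ^ 2) ^ j * V ^ (k - j)) := by
            rw [pow_mul]; ring
        _ ≤ (momdf k * (k.choose j : ℝ)) * ((q ^ 2) ^ j * V ^ (k - j)) := by
            apply mul_le_mul_of_nonneg_right (momdf_choose hjk) (by positivity)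
        _ = momdf k * ((q ^ 2) ^ j * V ^ (k - j) * (k.choose j : ℝ)) := by ring
    have h0 : RR P (fun D => (S D + ((0 : ℤ) : ℝ) * q) ^ (2 * k)) ≤ momdf k * (q ^ 2 + V) ^ k := by
      have e1 : (fun D : ℤ => (S D + ((0 : ℤ) : ℝ) * q) ^ (2 * k)) = fun D => S D ^ (2 * k) := by
        funext D; simp
      rw [e1]
      refine (ih (by omega) k).trans ?_
      apply mul_le_mul_of_nonneg_left _ (momdf_pos k).le
      exact pow_le_pow_left₀ hV0 (by nlinarith [sq_nonneg q]) k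
    set M := momdf k * (q ^ 2 + V) ^ k with hM
    have hpp : (1 : ℝ) / ((b + 1 : ℕ) : ℝ) ≤ 1 := by
      rw [div_le_one hp0]; push_cast; linarith [Nat.cast_nonneg (α := ℝ) b]
    calc _ ≤ M / ((b + 1 : ℕ) : ℝ) + (1 - 1 / ((b + 1 : ℕ) : ℝ)) * (2 * M) / 2 := by
          apply add_le_add
          · exact div_le_div_of_nonneg_right h0 hp0.le
          · apply div_le_div_of_nonneg_right _ (by norm_num)
            exact mul_le_mul_of_nonneg_left hsum (by linarith)
      _ = M := by ring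

/-- Khintchine: even moments of the prime sums in the random model -/
theorem PSum_RR {a b P k : ℕ} (hb : b ≤ P) (hk : 1 ≤ k) (t : ℝ) :
    RR P (fun D => ‖PSum a b D t‖ ^ (2 * k)) ≤ (2 * k * ∑ p ∈ primesIoc a b, lam2 p / p) ^ k := by
  set x : ℕ → ℝ := fun p => (c p : ℝ) * (npow p t).re with hx
  set y : ℕ → ℝ := fun p => (c p : ℝ) * (npow p t).im with hy
  have hre : ∀ D : ℤ, (PSum a b D t).re = ∑ p ∈ primesIoc a b, ((jacobiSym D p : ℤ) : ℝ) * x p := by
    intro D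
    unfold PSum Pool.Agent.H5.bd
    rw [Complex.re_sum]
    refine Finset.sum_congr rfl fun p _ => ?_
    rw [hx]
    push_cast
    rw [← Complex.ofReal_intCast, ← Complex.ofReal_intCast, ← Complex.ofReal_mul, Complex.re_ofReal_mul]
    ring
  have him : ∀ D : ℤ, (PSum a b D t).im = ∑ p ∈ primesIoc a b, ((jacobiSym D p : ℤ) : ℝ) * y p := by
    intro D
    unfold PSum Pool.Agent.H5.bd
    rw [Complex.im_sum]
    refine Finset.sum_congr rfl fun p _ => ?_
    rw [hy]
    push_cast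
    rw [← Complex.ofReal_intCast, ← Complex.ofReal_intCast, ← Complex.ofReal_mul, Complex.im_ofReal_mul]
    ring
  have hpt : ∀ D : ℤ, ‖PSum a b D t‖ ^ (2 * k) ≤
      2 ^ (k - 1) * (PSum a b D t).re ^ (2 * k) + 2 ^ (k - 1) * (PSum a b D t).im ^ (2 * k) := by
    intro D
    rw [pow_mul, pow_mul, pow_mul, Complex.sq_norm, Complex.normSq_apply, ← mul_add]
    have := add_pow_le (mul_self_nonneg (PSum a b D t).re) (mul_self_nonneg (PSum a b D t).im) k
    rw [sq, sq]
    exact this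
  refine (mom_RR_mono hpt).trans ?_
  rw [mom_RR_add, mom_RR_smul, mom_RR_smul]
  have h1 := mom_khin x a P b hb k
  have h2 := mom_khin y a P b hb k
  have e1 : (fun D : ℤ => (PSum a b D t).re ^ (2 * k)) =
      fun D => (∑ p ∈ primesIoc a b, ((jacobiSym D p : ℤ) : ℝ) * x p) ^ (2 * k) := by
    funext D; rw [hre]
  have e2 : (fun D : ℤ => (PSum a b D t).im ^ (2 * k)) =
      fun D => (∑ p ∈ primesIoc a b, ((jacobiSym D p : ℤ) : ℝ) * y p) ^ (2 * k) := by
    funext D; rw [him]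
  rw [e1, e2]
  set Vx := ∑ p ∈ primesIoc a b, x p ^ 2 with hVx
  set Vy := ∑ p ∈ primesIoc a b, y p ^ 2 with hVy
  have hVx0 : 0 ≤ Vx := Finset.sum_nonneg fun p _ => sq_nonneg _
  have hVy0 : 0 ≤ Vy := Finset.sum_nonneg fun p _ => sq_nonneg _
  have hV : ∑ p ∈ primesIoc a b, lam2 p / p = Vx + Vy := by
    rw [hVx, hVy, ← Finset.sum_add_distrib]
    refine Finset.sum_congr rfl fun p hp => ?_
    have hp0 : 0 < p := (rm_mem.1 hp).2.1.pos
    have hn := npow_norm hp0 t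
    have hn2 : (npow p t).re ^ 2 + (npow p t).im ^ 2 = (1 / (p : ℝ)) ^ 2 := by
      rw [← hn, Complex.sq_norm, Complex.normSq_apply]; ring
    rw [hx, hy]
    simp only
    rw [mul_pow, mul_pow, ← mul_add, hn2]
    unfold lam2
    have : (0 : ℝ) < p := by exact_mod_cast hp0
    field_simp
  have hsum : Vx ^ k + Vy ^ k ≤ (Vx + Vy) ^ k := by
    obtain ⟨j, rfl⟩ : ∃ j, k = j + 1 := ⟨k - 1, by omega⟩
    rw [pow_succ, pow_succ, pow_succ (Vx + Vy), mul_add]
    apply add_le_add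
    · exact mul_le_mul_of_nonneg_right (pow_le_pow_left₀ hVx0 (by linarith) j) hVx0
    · exact mul_le_mul_of_nonneg_right (pow_le_pow_left₀ hVy0 (by linarith) j) hVy0
  rw [hV]
  calc 2 ^ (k - 1) * RR P (fun D => (∑ p ∈ primesIoc a b, ((jacobiSym D p : ℤ) : ℝ) * x p) ^ (2 * k)) +
        2 ^ (k - 1) * RR P (fun D => (∑ p ∈ primesIoc a b, ((jacobiSym D p : ℤ) : ℝ) * y p) ^ (2 * k))
      ≤ 2 ^ (k - 1) * (momdf k * Vx ^ k) + 2 ^ (k - 1) * (momdf k * Vy ^ k) := by
        gcongr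
    _ = 2 ^ (k - 1) * momdf k * (Vx ^ k + Vy ^ k) := by ring
    _ ≤ 2 ^ k * (k : ℝ) ^ k * (Vx + Vy) ^ k := by
        apply mul_le_mul _ hsum (by positivity) (by positivity)
        apply mul_le_mul _ (momdf_le k) (momdf_pos k).le (by positivity)
        exact pow_le_pow_right₀ (by norm_num) (by omega)
    _ = (2 * k * (Vx + Vy)) ^ k := by rw [mul_pow, mul_pow]

/-! ### exponential moments -/

theorem mom_exp_tail {u l : ℝ} (hu : 0 ≤ u) (hl : 1 ≤ l) (n : ℕ) :
    ∑' j : ℕ, u ^ (j + n) / ((j + n).factorial : ℝ) ≤ (l ^ n)⁻¹ * Real.exp (l * u) := by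
  have hs : Summable fun j : ℕ => (l * u) ^ j / (j.factorial : ℝ) := Real.summable_pow_div_factorial _
  have hs' : Summable fun j : ℕ => u ^ j / (j.factorial : ℝ) := Real.summable_pow_div_factorial _
  have hlp : 0 < l := by linarith
  have h1 : ∀ j : ℕ, u ^ (j + n) / ((j + n).factorial : ℝ) ≤
      (l ^ n)⁻¹ * ((l * u) ^ (j + n) / ((j + n).factorial : ℝ)) := by
    intro j
    rw [← mul_div_assoc]
    apply div_le_div_of_nonneg_right _ (by positivity)
    rw [mul_pow, ← mul_assoc]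
    have h2 : 1 ≤ (l ^ n)⁻¹ * l ^ (j + n) := by
      rw [pow_add, mul_comm (l ^ j), ← mul_assoc, inv_mul_cancel₀ (by positivity), one_mul]
      exact one_le_pow₀ hl
    have h3 : 0 ≤ u ^ (j + n) := by positivity
    nlinarith
  calc ∑' j : ℕ, u ^ (j + n) / ((j + n).factorial : ℝ)
      ≤ ∑' j : ℕ, (l ^ n)⁻¹ * ((l * u) ^ (j + n) / ((j + n).factorial : ℝ)) :=
        Summable.tsum_le_tsum h1 ((summable_nat_add_iff n).2 hs')
          (((summable_nat_add_iff n).2 hs).mul_left _)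
    _ = (l ^ n)⁻¹ * ∑' j : ℕ, ((l * u) ^ (j + n) / ((j + n).factorial : ℝ)) := tsum_mul_left
    _ ≤ (l ^ n)⁻¹ * Real.exp (l * u) := by
        apply mul_le_mul_of_nonneg_left _ (by positivity)
        have hexp : Real.exp (l * u) = ∑' j : ℕ, (l * u) ^ j / (j.factorial : ℝ) := by
          rw [Real.exp_eq_exp_ℝ, NormedSpace.exp_eq_tsum_div]
        rw [hexp, ← hs.sum_add_tsum_nat_add n]
        have : 0 ≤ ∑ i ∈ range n, (l * u) ^ i / (i.factorial : ℝ) :=
          Finset.sum_nonneg fun i _ => by positivity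
        linarith

theorem mom_taylor (z : ℂ) {l : ℝ} (hl : 1 ≤ l) (n : ℕ) :
    ‖exp z - ∑ j ∈ range n, z ^ j / (j.factorial : ℂ)‖ ≤ (l ^ n)⁻¹ * Real.exp (l * ‖z‖) := by
  have hs : Summable fun j : ℕ => z ^ j / (j.factorial : ℂ) := NormedSpace.expSeries_div_summable z
  have e : exp z - ∑ j ∈ range n, z ^ j / (j.factorial : ℂ) =
      ∑' j : ℕ, z ^ (j + n) / ((j + n).factorial : ℂ) := by
    have h1 : exp z = ∑' j : ℕ, z ^ j / (j.factorial : ℂ) := by
      rw [Complex.exp_eq_exp_ℂ, NormedSpace.exp_eq_tsum_div]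
    rw [h1, ← hs.sum_add_tsum_nat_add n]
    ring
  rw [e]
  have hsn : Summable fun j : ℕ => ‖z‖ ^ (j + n) / ((j + n).factorial : ℝ) :=
    (summable_nat_add_iff n).2 (Real.summable_pow_div_factorial ‖z‖)
  have hn : ∀ j : ℕ, ‖z ^ (j + n) / ((j + n).factorial : ℂ)‖ = ‖z‖ ^ (j + n) / ((j + n).factorial : ℝ) := by
    intro j
    rw [norm_div, norm_pow, Complex.norm_natCast]
  refine (norm_tsum_le_tsum_norm ?_).trans ?_
  · exact hsn.congr fun j => (hn j).symm
  · rw [tsum_congr hn]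
    exact mom_exp_tail (norm_nonneg _) hl n

theorem mom_theta (a b : ℕ) (D : ℤ) (t : ℝ) : theta a b D t =
    ∑ p ∈ primesIoc a b, ((jacobiSym D p : ℤ) : ℝ) * ((c p : ℝ) * (npow p t).im) := by
  unfold theta PSum Pool.Agent.H5.bd
  rw [Complex.im_sum]
  refine Finset.sum_congr rfl fun p _ => ?_
  push_cast
  rw [← Complex.ofReal_intCast, ← Complex.ofReal_intCast, ← Complex.ofReal_mul, Complex.im_ofReal_mul]
  ring

theorem mom_r_sq {p : ℕ} (hp : p.Prime) (t : ℝ) : ((c p : ℝ) * (npow p t).im) ^ 2 ≤ 4 / p := by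
  have hp0 : (0 : ℝ) < p := by exact_mod_cast hp.pos
  have h1 : (npow p t).im ^ 2 ≤ (1 / (p : ℝ)) ^ 2 := by
    rw [← npow_norm hp.pos t, ← sq_abs]
    exact pow_le_pow_left₀ (abs_nonneg _) (Complex.abs_im_le_norm _) 2
  have h2 : (c p : ℝ) ^ 2 ≤ 4 * p := by
    have := (lam2_le hp).2
    unfold lam2 at this
    rwa [div_le_iff₀ hp0] at this
  rw [mul_pow]
  calc (c p : ℝ) ^ 2 * (npow p t).im ^ 2 ≤ (4 * (p : ℝ)) * (1 / (p : ℝ)) ^ 2 := by gcongr
    _ = 4 / (p : ℝ) := by field_simp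

theorem mom_exp_theta : ∃ C : ℝ, 0 ≤ C ∧ ∀ (l : ℝ) (a b P : ℕ) (t : ℝ), b ≤ P →
    RR P (fun D => Real.exp (l * |theta a b D t|)) ≤
      2 * Real.exp (2 * l ^ 2 * (Real.log (1 + Real.log b) + C)) := by
  obtain ⟨C, hC0, hC⟩ := mom_inv_sum
  refine ⟨C, hC0, fun l a b P t hbP => ?_⟩
  have key : ∀ l : ℝ, RR P (fun D => Real.exp (l * theta a b D t)) ≤
      Real.exp (2 * l ^ 2 * (Real.log (1 + Real.log b) + C)) := by
    intro l
    set r : ℕ → ℝ := fun p => (c p : ℝ) * (npow p t).im with hr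
    have e : (fun D : ℤ => Real.exp (l * theta a b D t)) = fun D =>
        ∏ p ∈ primesIoc a b, (fun p (v : ℤ) => Real.exp (l * (v * r p))) p (jacobiSym D p) := by
      funext D
      simp only
      rw [← Real.exp_sum, ← Finset.mul_sum, mom_theta]
    rw [e, mom_prod hbP (fun p (v : ℤ) => Real.exp (l * (v * r p)))]
    calc ∏ p ∈ primesIoc a b, (Real.exp (l * (((0 : ℤ) : ℝ) * r p)) / p +
          (1 - 1 / p) * (Real.exp (l * (((1 : ℤ) : ℝ) * r p)) +
            Real.exp (l * (((-1 : ℤ) : ℝ) * r p))) / 2)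
        ≤ ∏ p ∈ primesIoc a b, Real.exp (2 * l ^ 2 * (1 / p)) := by
          apply Finset.prod_le_prod
          · intro p hp
            have hp1 := (rm_mem.1 hp).2.1
            have hp0 : (0 : ℝ) < p := by exact_mod_cast hp1.pos
            have : (1 : ℝ) / p ≤ 1 := by
              rw [div_le_one hp0]; exact_mod_cast hp1.one_lt.le
            have h3 : 0 ≤ 1 - 1 / (p : ℝ) := by linarith
            positivity
          · intro p hp
            have hp1 := (rm_mem.1 hp).2.1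
            have hp0 : (0 : ℝ) < p := by exact_mod_cast hp1.pos
            have hple : (1 : ℝ) / p ≤ 1 := by
              rw [div_le_one hp0]; exact_mod_cast hp1.one_lt.le
            have hcosh : Real.exp (l * (((1 : ℤ) : ℝ) * r p)) + Real.exp (l * (((-1 : ℤ) : ℝ) * r p)) =
                2 * Real.cosh (l * r p) := by
              rw [Real.cosh_eq]
              push_cast
              rw [show l * (1 * r p) = l * r p by ring, show l * (-1 * r p) = -(l * r p) by ring]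
              ring
            rw [hcosh]
            have hle : Real.cosh (l * r p) ≤ Real.exp (2 * l ^ 2 * (1 / p)) := by
              refine (Real.cosh_le_exp_half_sq _).trans (Real.exp_le_exp.2 ?_)
              have h4 := mom_r_sq hp1 t
              have h5 : (l * r p) ^ 2 ≤ l ^ 2 * (4 / p) := by
                rw [mul_pow]
                exact mul_le_mul_of_nonneg_left h4 (sq_nonneg l)
              calc (l * r p) ^ 2 / 2 ≤ l ^ 2 * (4 / p) / 2 := by linarith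
                _ = 2 * l ^ 2 * (1 / p) := by ring
            have h1e : (1 : ℝ) ≤ Real.exp (2 * l ^ 2 * (1 / p)) := Real.one_le_exp (by positivity)
            have h0 : Real.exp (l * (((0 : ℤ) : ℝ) * r p)) = 1 := by simp
            rw [h0]
            set E := Real.exp (2 * l ^ 2 * (1 / (p : ℝ)))
            have : (1 - 1 / (p : ℝ)) * (2 * Real.cosh (l * r p)) / 2 ≤ (1 - 1 / (p : ℝ)) * E := by
              have : (1 - 1 / (p : ℝ)) * (2 * Real.cosh (l * r p)) / 2 =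
                (1 - 1 / (p : ℝ)) * Real.cosh (l * r p) := by ring
              rw [this]
              exact mul_le_mul_of_nonneg_left hle (by linarith)
            calc 1 / (p : ℝ) + (1 - 1 / (p : ℝ)) * (2 * Real.cosh (l * r p)) / 2
                ≤ 1 / (p : ℝ) * E + (1 - 1 / (p : ℝ)) * E := by
                  have : 1 / (p : ℝ) * 1 ≤ 1 / (p : ℝ) * E :=
                    mul_le_mul_of_nonneg_left h1e (by positivity)
                  linarith
              _ = E := by ring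
      _ = Real.exp (2 * l ^ 2 * ∑ p ∈ primesIoc a b, (1 : ℝ) / p) := by
          rw [← Real.exp_sum, ← Finset.mul_sum]
      _ ≤ _ := Real.exp_le_exp.2 (mul_le_mul_of_nonneg_left (hC a b) (by positivity))
  have hpt : ∀ D : ℤ, Real.exp (l * |theta a b D t|) ≤
      Real.exp (l * theta a b D t) + Real.exp (-l * theta a b D t) := by
    intro D
    rcases abs_cases (theta a b D t) with ⟨h, _⟩ | ⟨h, _⟩ <;> rw [h]
    · linarith [Real.exp_pos (-l * theta a b D t)]
    · rw [show l * -theta a b D t = -l * theta a b D t by ring]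
      linarith [Real.exp_pos (l * theta a b D t)]
  refine (mom_RR_mono hpt).trans ?_
  rw [mom_RR_add]
  have h1 := key l
  have h2 := key (-l)
  rw [neg_sq] at h2
  linarith

/-! ### logarithmic bookkeeping -/

theorem mom_LL {X : ℝ} (hX : 3 ≤ X) : 1 ≤ Real.log X ∧ 1 ≤ Real.log (Real.log X + 3) ∧
    Real.exp (Real.log (Real.log X + 3)) = Real.log X + 3 := by
  have h1 : 1 ≤ Real.log X := by
    rw [Real.le_log_iff_exp_le (by linarith)]
    linarith [Real.exp_one_lt_d9]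
  refine ⟨h1, ?_, Real.exp_log (by linarith)⟩
  rw [Real.le_log_iff_exp_le (by linarith)]
  linarith [Real.exp_one_lt_d9]

theorem mom_pow_le_exp {X : ℝ} (hX : 3 ≤ X) (A : ℕ) :
    (Real.log X) ^ A ≤ Real.exp (A * Real.log (Real.log X + 3)) := by
  obtain ⟨h1, h2, h3⟩ := mom_LL hX
  rw [mul_comm, Real.exp_mul, h3, Real.rpow_natCast]
  exact pow_le_pow_left₀ (by linarith) (by linarith) A

theorem mom_log_b {X : ℝ} (hX : 3 ≤ X) {b : ℕ} (hb : (b : ℝ) ≤ X) :
    Real.log (1 + Real.log b) ≤ Real.log (Real.log X + 3) ∧ 1 + Real.log b ≤ 2 * Real.log X := by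
  obtain ⟨h1, h2, h3⟩ := mom_LL hX
  have h4 : Real.log b ≤ Real.log X := by
    rcases Nat.eq_zero_or_pos b with rfl | hb0
    · simp; linarith
    · exact Real.log_le_log (by exact_mod_cast hb0) hb
  have h5 := mom_log_nonneg b
  refine ⟨Real.log_le_log (by linarith) (by linarith), by linarith⟩

theorem mom_norm_pow_add (k : ℕ) (x y : ℂ) : ‖x‖ ^ k ≤ 2 ^ k * (‖x - y‖ ^ k + ‖y‖ ^ k) := by
  have h1 : ‖x‖ ≤ ‖x - y‖ + ‖y‖ := by
    have := norm_add_le (x - y) y
    simpa using this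
  calc ‖x‖ ^ k ≤ (‖x - y‖ + ‖y‖) ^ k := pow_le_pow_left₀ (norm_nonneg _) h1 k
    _ ≤ 2 ^ (k - 1) * (‖x - y‖ ^ k + ‖y‖ ^ k) := add_pow_le (norm_nonneg _) (norm_nonneg _) k
    _ ≤ 2 ^ k * (‖x - y‖ ^ k + ‖y‖ ^ k) := by
        apply mul_le_mul_of_nonneg_right _ (by positivity)
        exact pow_le_pow_right₀ (by norm_num) (by omega)

theorem gT_trunc (k A : ℕ) (hk : 1 ≤ k) : ∃ C : ℝ, ∀ (X : ℝ) (z y m P : ℕ) (t : ℝ), 3 ≤ X → y ≤ P →
    (y : ℝ) ≤ X → C * Real.log (Real.log X + 3) ≤ m →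
    RR P (fun D => ‖gT z y m D t - exp (-(I * theta z y D t))‖ ^ k) ≤ C / (Real.log X) ^ A ∧
    RR P (fun D => ‖gT z y m D t‖ ^ k) ≤ C * (Real.log X) ^ C := by
  obtain ⟨C0, hC0, hC⟩ := mom_exp_theta
  set E : ℝ := Real.exp 1 with hE
  have hE1 : 1 ≤ E := by rw [hE]; linarith [Real.add_one_le_exp (1 : ℝ)]
  set B : ℝ := 2 * (k * E) ^ 2 with hB
  have hB0 : 0 ≤ B := by positivity
  set C1 : ℝ := 2 * Real.exp (B * C0) with hC1
  have hC10 : 0 ≤ C1 := by positivity
  set C : ℝ := B + A + C1 + 2 ^ k * (C1 + 1) + 1 with hCdef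
  have hCA : B + A ≤ C := by
    have : (0 : ℝ) ≤ 2 ^ k * (C1 + 1) := by positivity
    linarith
  have hCC1 : C1 ≤ C := by
    have : (0 : ℝ) ≤ 2 ^ k * (C1 + 1) := by positivity
    have : (0 : ℝ) ≤ A := Nat.cast_nonneg A
    linarith
  have hC2 : 2 ^ k * (C1 + 1) ≤ C := by
    have : (0 : ℝ) ≤ A := Nat.cast_nonneg A
    linarith
  have hC0' : 0 ≤ C := hC10.trans hCC1
  refine ⟨C, fun X z y m P t hX hyP hyX hm => ?_⟩
  obtain ⟨hl1, hl2, hl3⟩ := mom_LL hX
  obtain ⟨hb1, hb2⟩ := mom_log_b hX hyX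
  set LL := Real.log (Real.log X + 3) with hLL
  have hpt : ∀ D : ℤ, ‖gT z y m D t - exp (-(I * theta z y D t))‖ ^ k ≤
      Real.exp (-(m : ℝ)) * Real.exp (k * E * |theta z y D t|) := by
    intro D
    have h1 := mom_taylor (-(I * theta z y D t)) hE1 (m + 1)
    have h2 : ‖-(I * (theta z y D t : ℂ))‖ = |theta z y D t| := by
      rw [norm_neg, norm_mul, Complex.norm_I, one_mul, Complex.norm_real, Real.norm_eq_abs]
    rw [h2, norm_sub_rev] at h1
    have h3 : ‖gT z y m D t - exp (-(I * theta z y D t))‖ ≤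
        (E ^ (m + 1))⁻¹ * Real.exp (E * |theta z y D t|) := h1
    calc _ ≤ ((E ^ (m + 1))⁻¹ * Real.exp (E * |theta z y D t|)) ^ k :=
          pow_le_pow_left₀ (norm_nonneg _) h3 k
      _ = ((E ^ (m + 1))⁻¹) ^ k * Real.exp (k * E * |theta z y D t|) := by
          have e5 : Real.exp (E * |theta z y D t|) ^ k = Real.exp (k * E * |theta z y D t|) := by
            rw [← Real.exp_nat_mul]
            congr 1
            ring
          rw [mul_pow, e5]
      _ ≤ _ := by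
          apply mul_le_mul_of_nonneg_right _ (Real.exp_pos _).le
          have h4 : (E ^ (m + 1))⁻¹ ≤ Real.exp (-(m : ℝ)) := by
            rw [Real.exp_neg]
            apply inv_anti₀ (Real.exp_pos _)
            have : Real.exp (m : ℝ) = E ^ m := by rw [hE, ← Real.exp_nat_mul, mul_one]
            rw [this]
            exact pow_le_pow_right₀ hE1 (by omega)
          have h5 : (E ^ (m + 1))⁻¹ ≤ 1 := by
            apply inv_le_one_of_one_le₀
            exact one_le_pow₀ hE1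
          have h6 : 0 ≤ (E ^ (m + 1))⁻¹ := by positivity
          calc ((E ^ (m + 1))⁻¹) ^ k ≤ ((E ^ (m + 1))⁻¹) ^ 1 := pow_le_pow_of_le_one h6 h5 hk
            _ ≤ _ := by rw [pow_one]; exact h4
  have hmain : RR P (fun D => ‖gT z y m D t - exp (-(I * theta z y D t))‖ ^ k) ≤
      C1 * Real.exp (B * LL - m) := by
    refine (mom_RR_mono hpt).trans ?_
    rw [mom_RR_smul]
    have h1 := hC (k * E) z y P t hyP
    calc Real.exp (-(m : ℝ)) * RR P (fun D => Real.exp (k * E * |theta z y D t|))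
        ≤ Real.exp (-(m : ℝ)) * (2 * Real.exp (2 * (k * E) ^ 2 * (Real.log (1 + Real.log y) + C0))) :=
          mul_le_mul_of_nonneg_left h1 (Real.exp_pos _).le
      _ ≤ Real.exp (-(m : ℝ)) * (2 * Real.exp (B * (LL + C0))) := by
          apply mul_le_mul_of_nonneg_left _ (Real.exp_pos _).le
          apply mul_le_mul_of_nonneg_left _ (by norm_num)
          apply Real.exp_le_exp.2
          rw [← hB]
          apply mul_le_mul_of_nonneg_left _ hB0
          linarith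
      _ = C1 * Real.exp (B * LL - m) := by
          rw [hC1, mul_add, Real.exp_add, sub_eq_add_neg, Real.exp_add]
          ring
  have hfirst : RR P (fun D => ‖gT z y m D t - exp (-(I * theta z y D t))‖ ^ k) ≤
      C1 / (Real.log X) ^ A := by
    refine hmain.trans ?_
    rw [div_eq_mul_inv]
    apply mul_le_mul_of_nonneg_left _ hC10
    have h1 : B * LL - m ≤ -(A * LL) := by nlinarith
    calc Real.exp (B * LL - m) ≤ Real.exp (-(A * LL)) := Real.exp_le_exp.2 h1
      _ = (Real.exp (A * LL))⁻¹ := Real.exp_neg _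
      _ ≤ ((Real.log X) ^ A)⁻¹ := inv_anti₀ (by positivity) (mom_pow_le_exp hX A)
  constructor
  · refine hfirst.trans ?_
    apply div_le_div_of_nonneg_right hCC1 (by positivity)
  · have hpt2 : ∀ D : ℤ, ‖gT z y m D t‖ ^ k ≤
        2 ^ k * (‖gT z y m D t - exp (-(I * theta z y D t))‖ ^ k + 1) := by
      intro D
      have h1 := mom_norm_pow_add k (gT z y m D t) (exp (-(I * theta z y D t)))
      have h2 : ‖exp (-(I * (theta z y D t : ℂ)))‖ = 1 := by
        rw [show -(I * (theta z y D t : ℂ)) = ((-theta z y D t : ℝ) : ℂ) * I by push_cast; ring]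
        exact Complex.norm_exp_ofReal_mul_I _
      rw [h2, one_pow] at h1
      exact h1
    refine (mom_RR_mono hpt2).trans ?_
    rw [mom_RR_smul, mom_RR_add, mom_RR_const]
    have h3 : C1 / (Real.log X) ^ A ≤ C1 := by
      apply div_le_self hC10
      exact one_le_pow₀ hl1
    calc 2 ^ k * (RR P (fun D => ‖gT z y m D t - exp (-(I * theta z y D t))‖ ^ k) + 1)
        ≤ 2 ^ k * (C1 + 1) := by
          apply mul_le_mul_of_nonneg_left _ (by positivity)
          linarith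
      _ ≤ C * 1 := by rw [mul_one]; exact hC2
      _ ≤ C * (Real.log X) ^ C := by
          apply mul_le_mul_of_nonneg_left _ hC0'
          exact Real.one_le_rpow hl1 hC0'

/-! ### local factors -/

theorem mom_exp_quad (r : ℝ) : Real.exp r ≤ 1 + r + r ^ 2 * Real.exp |r| := by
  have h := Complex.norm_exp_sub_sum_le_norm_mul_exp (r : ℂ) 2
  have e : exp (r : ℂ) - ∑ m ∈ range 2, (r : ℂ) ^ m / (m.factorial : ℂ) =
      ((Real.exp r - (1 + r) : ℝ) : ℂ) := by
    rw [sum_range_succ, sum_range_one]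
    push_cast
    simp
  rw [e, Complex.norm_real, Complex.norm_real, Real.norm_eq_abs, Real.norm_eq_abs, sq_abs] at h
  have := le_abs_self (Real.exp r - (1 + r))
  linarith

theorem mom_pow_bound (s : ℝ) : ∃ C : ℝ, 0 ≤ C ∧ ∀ w : ℂ, ‖w‖ ≤ 1 / 2 →
    ‖1 + w‖ ^ s ≤ 1 + s * w.re + C * ‖w‖ ^ 2 := by
  refine ⟨|s| + 4 * s ^ 2 * Real.exp |s|, by positivity, fun w hw => ?_⟩
  have h1 : ‖Complex.log (1 + w) - w‖ ≤ ‖w‖ ^ 2 := by
    have h := Complex.norm_log_one_add_sub_self_le (z := w) (by linarith)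
    have h2 : (1 - ‖w‖)⁻¹ ≤ 2 := by
      rw [inv_le_comm₀ (by linarith) (by norm_num)]
      linarith
    calc _ ≤ ‖w‖ ^ 2 * (1 - ‖w‖)⁻¹ / 2 := h
      _ ≤ ‖w‖ ^ 2 * 2 / 2 := by gcongr
      _ = ‖w‖ ^ 2 := by ring
  have hne : 1 + w ≠ 0 := by
    intro h
    have : w = -1 := by linear_combination h
    rw [this] at hw
    norm_num at hw
  have hpos : 0 < ‖1 + w‖ := norm_pos_iff.2 hne
  set q : ℝ := (Complex.log (1 + w)).re with hq
  have hq1 : q = Real.log ‖1 + w‖ := by rw [hq, Complex.log_re]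
  have hq2 : |q - w.re| ≤ ‖w‖ ^ 2 := by
    have := Complex.abs_re_le_norm (Complex.log (1 + w) - w)
    rw [Complex.sub_re] at this
    exact this.trans h1
  have hwre : |w.re| ≤ ‖w‖ := Complex.abs_re_le_norm w
  have hn0 : 0 ≤ ‖w‖ := norm_nonneg w
  have hq3 : |q| ≤ 2 * ‖w‖ := by
    have : |q| ≤ |q - w.re| + |w.re| := by
      have := abs_add_le (q - w.re) w.re
      simpa using this
    nlinarith
  rw [Real.rpow_def_of_pos hpos, ← hq1, mul_comm]
  refine (mom_exp_quad (s * q)).trans ?_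
  have hsq : |s * q| ≤ |s| := by
    rw [abs_mul]
    have : |q| ≤ 1 := by linarith
    nlinarith [abs_nonneg s]
  have h3 : (s * q) ^ 2 ≤ 4 * s ^ 2 * ‖w‖ ^ 2 := by
    have : q ^ 2 ≤ (2 * ‖w‖) ^ 2 := by
      rw [← sq_abs q]
      exact pow_le_pow_left₀ (abs_nonneg _) hq3 2
    nlinarith [sq_nonneg s]
  have h4 : (s * q) ^ 2 * Real.exp |s * q| ≤ 4 * s ^ 2 * ‖w‖ ^ 2 * Real.exp |s| := by
    apply mul_le_mul h3 (Real.exp_le_exp.2 hsq) (Real.exp_pos _).le (by positivity)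
  have h5 : s * q ≤ s * w.re + |s| * ‖w‖ ^ 2 := by
    have : s * (q - w.re) ≤ |s| * ‖w‖ ^ 2 := by
      calc s * (q - w.re) ≤ |s * (q - w.re)| := le_abs_self _
        _ = |s| * |q - w.re| := abs_mul _ _
        _ ≤ |s| * ‖w‖ ^ 2 := mul_le_mul_of_nonneg_left hq2 (abs_nonneg _)
    linarith
  nlinarith

/-- local factor with a parameter -/
noncomputable def momF (p : ℕ) (t : ℝ) (ζ : ℂ) (v : ℤ) : ℂ :=
  1 - ζ * ((v : ℂ) * (c p : ℂ) * npow p t) + ζ ^ 2 * ((v : ℂ) ^ 2 * p * (npow p t) ^ 2)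

theorem mom_ellInv (D : ℤ) (p : ℕ) (t : ℝ) : ellInv D p t = momF p t 1 (jacobiSym D p) := by
  unfold ellInv momF Pool.Agent.H5.bd
  push_cast
  ring

theorem momF_zero (p : ℕ) (t : ℝ) (ζ : ℂ) : momF p t ζ 0 = 1 := by
  unfold momF
  simp

theorem mom_cn {p : ℕ} (hp : p.Prime) (t : ℝ) : ‖(c p : ℂ) * npow p t‖ ≤ 2 / Real.sqrt p := by
  have hp0 : (0 : ℝ) < p := by exact_mod_cast hp.pos
  rw [norm_mul, npow_norm hp.pos, Complex.norm_intCast]
  have h := abs_c_prime hp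
  have hs : 0 < Real.sqrt p := Real.sqrt_pos.2 hp0
  have hss : Real.sqrt p * Real.sqrt p = p := Real.mul_self_sqrt hp0.le
  rw [mul_one_div, div_le_div_iff₀ hp0 hs]
  calc |(c p : ℝ)| * Real.sqrt p ≤ (2 * Real.sqrt p) * Real.sqrt p := by gcongr
    _ = 2 * p := by rw [mul_assoc, hss]

theorem mom_pn {p : ℕ} (hp : p.Prime) (t : ℝ) : ‖(p : ℂ) * (npow p t) ^ 2‖ = 1 / p := by
  have hp0 : (0 : ℝ) < p := by exact_mod_cast hp.pos
  rw [norm_mul, norm_pow, npow_norm hp.pos, Complex.norm_natCast]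
  field_simp

/-- local averages are `1 + O(1/p)` -/
theorem mom_local (s : ℝ) : ∃ K : ℝ, 0 ≤ K ∧ ∀ (p : ℕ) (t : ℝ) (ζ : ℂ), p.Prime → 100 < p → ‖ζ‖ ≤ 2 →
    0 ≤ ‖momF p t ζ 0‖ ^ s / p + (1 - 1 / p) * (‖momF p t ζ 1‖ ^ s + ‖momF p t ζ (-1)‖ ^ s) / 2 ∧
    ‖momF p t ζ 0‖ ^ s / p + (1 - 1 / p) * (‖momF p t ζ 1‖ ^ s + ‖momF p t ζ (-1)‖ ^ s) / 2 ≤
      1 + K / p := by
  obtain ⟨C, hC0, hC⟩ := mom_pow_bound s
  refine ⟨4 * |s| + 25 * C, by positivity, fun p t ζ hp hp100 hζ => ?_⟩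
  have hp0 : (0 : ℝ) < p := by exact_mod_cast hp.pos
  have hp100' : (100 : ℝ) < p := by exact_mod_cast hp100
  have hsq : 0 < Real.sqrt p := Real.sqrt_pos.2 hp0
  have hss : Real.sqrt p * Real.sqrt p = p := Real.mul_self_sqrt hp0.le
  have hs10 : 10 < Real.sqrt p := by
    rw [show (10 : ℝ) = Real.sqrt 100 by rw [show (100 : ℝ) = 10 ^ 2 by norm_num]; rw [Real.sqrt_sq (by norm_num)]]
    exact Real.sqrt_lt_sqrt (by norm_num) hp100'
  have hple : (1 : ℝ) / p ≤ 1 := by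
    rw [div_le_one hp0]; linarith
  set x : ℂ := ζ * ((c p : ℂ) * npow p t) with hx
  set y : ℂ := ζ ^ 2 * ((p : ℂ) * (npow p t) ^ 2) with hy
  have hxn : ‖x‖ ≤ 4 / Real.sqrt p := by
    rw [hx, norm_mul]
    calc ‖ζ‖ * ‖(c p : ℂ) * npow p t‖ ≤ 2 * (2 / Real.sqrt p) :=
          mul_le_mul hζ (mom_cn hp t) (norm_nonneg _) (by norm_num)
      _ = 4 / Real.sqrt p := by ring
  have hyn : ‖y‖ ≤ 4 / p := by
    rw [hy, norm_mul, norm_pow, mom_pn hp t]
    calc ‖ζ‖ ^ 2 * (1 / (p : ℝ)) ≤ 2 ^ 2 * (1 / (p : ℝ)) := by gcongr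
      _ = 4 / (p : ℝ) := by ring
  have hyn' : ‖y‖ ≤ 1 / Real.sqrt p := by
    refine hyn.trans ?_
    rw [div_le_div_iff₀ hp0 hsq]
    nlinarith
  have e1 : momF p t ζ 1 = 1 + (-x + y) := by
    unfold momF; rw [hx, hy]; push_cast; ring
  have e2 : momF p t ζ (-1) = 1 + (x + y) := by
    unfold momF; rw [hx, hy]; push_cast; ring
  have hw1 : ‖-x + y‖ ≤ 5 / Real.sqrt p := by
    refine (norm_add_le _ _).trans ?_
    rw [norm_neg]
    calc ‖x‖ + ‖y‖ ≤ 4 / Real.sqrt p + 1 / Real.sqrt p := add_le_add hxn hyn'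
      _ = 5 / Real.sqrt p := by ring
  have hw2 : ‖x + y‖ ≤ 5 / Real.sqrt p := by
    refine (norm_add_le _ _).trans ?_
    calc ‖x‖ + ‖y‖ ≤ 4 / Real.sqrt p + 1 / Real.sqrt p := add_le_add hxn hyn'
      _ = 5 / Real.sqrt p := by ring
  have h5 : 5 / Real.sqrt p ≤ 1 / 2 := by
    rw [div_le_div_iff₀ hsq (by norm_num)]
    linarith
  have h25 : (5 / Real.sqrt p) ^ 2 = 25 / p := by
    rw [div_pow, sq (Real.sqrt p), hss]; norm_num
  have hb1 : ‖momF p t ζ 1‖ ^ s ≤ 1 + s * (-x + y).re + C * (25 / p) := by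
    rw [e1]
    refine (hC _ (hw1.trans h5)).trans ?_
    have : ‖-x + y‖ ^ 2 ≤ 25 / p := by
      rw [← h25]; exact pow_le_pow_left₀ (norm_nonneg _) hw1 2
    have := mul_le_mul_of_nonneg_left this hC0
    linarith
  have hb2 : ‖momF p t ζ (-1)‖ ^ s ≤ 1 + s * (x + y).re + C * (25 / p) := by
    rw [e2]
    refine (hC _ (hw2.trans h5)).trans ?_
    have : ‖x + y‖ ^ 2 ≤ 25 / p := by
      rw [← h25]; exact pow_le_pow_left₀ (norm_nonneg _) hw2 2
    have := mul_le_mul_of_nonneg_left this hC0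
    linarith
  have hsum : ‖momF p t ζ 1‖ ^ s + ‖momF p t ζ (-1)‖ ^ s ≤ 2 * (1 + (4 * |s| + 25 * C) / p) := by
    have hre : s * (-x + y).re + s * (x + y).re = 2 * (s * y.re) := by
      rw [Complex.add_re, Complex.add_re, Complex.neg_re]; ring
    have h6 : s * y.re ≤ |s| * (4 / p) := by
      calc s * y.re ≤ |s * y.re| := le_abs_self _
        _ = |s| * |y.re| := abs_mul _ _
        _ ≤ |s| * (4 / p) :=
          mul_le_mul_of_nonneg_left ((Complex.abs_re_le_norm y).trans hyn) (abs_nonneg _)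
    have e : 2 * (1 + (4 * |s| + 25 * C) / (p : ℝ)) = 2 + 2 * (|s| * (4 / p)) + 2 * (C * (25 / p)) := by
      ring
    rw [e]
    linarith
  have h0 : ‖momF p t ζ 0‖ ^ s = 1 := by rw [momF_zero, norm_one, Real.one_rpow]
  rw [h0]
  have h10 : 0 ≤ ‖momF p t ζ 1‖ ^ s := Real.rpow_nonneg (norm_nonneg _) _
  have h20 : 0 ≤ ‖momF p t ζ (-1)‖ ^ s := Real.rpow_nonneg (norm_nonneg _) _
  have h1p : 0 ≤ 1 - 1 / (p : ℝ) := by linarith
  constructor
  · positivity
  · set Q := (4 * |s| + 25 * C) / (p : ℝ) with hQ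
    have hQ0 : 0 ≤ Q := by positivity
    have h7 : (1 - 1 / (p : ℝ)) * (‖momF p t ζ 1‖ ^ s + ‖momF p t ζ (-1)‖ ^ s) / 2 ≤
        (1 - 1 / (p : ℝ)) * (2 * (1 + Q)) / 2 := by
      apply div_le_div_of_nonneg_right _ (by norm_num)
      exact mul_le_mul_of_nonneg_left hsum h1p
    have h8 : 0 ≤ 1 / (p : ℝ) * Q := by positivity
    nlinarith

/-- crude local bound, all odd primes -/
theorem mom_crude {p : ℕ} (hp : p.Prime) (h2 : p ≠ 2) (t : ℝ) (D : ℤ) :
    1 / 6 ≤ ‖ellInv D p t‖ ∧ ‖ellInv D p t‖ ≤ 6 := by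
  have hp3 : 3 ≤ p := by have := hp.two_le; omega
  have hp3' : (3 : ℝ) ≤ p := by exact_mod_cast hp3
  have hp0 : (0 : ℝ) < p := by linarith
  have hs : 1.7 ≤ Real.sqrt p := by
    apply Real.le_sqrt_of_sq_le
    norm_num
    linarith
  have hs0 : 0 < Real.sqrt p := by linarith
  constructor
  · refine le_trans ?_ (ellInv_norm_ge hp h2 t)
    have h1 : 1 / Real.sqrt p ≤ 1 / 1.7 := one_div_le_one_div_of_le (by norm_num) hs
    have h3 : 0 ≤ 1 / Real.sqrt p := by positivity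
    have h4 : (7 : ℝ) / 17 ≤ 1 - 1 / Real.sqrt p := by
      have : (1 : ℝ) / 1.7 = 10 / 17 := by norm_num
      linarith
    nlinarith
  · rw [mom_ellInv]
    unfold momF
    have hv : ‖((jacobiSym D p : ℤ) : ℂ)‖ ≤ 1 := by
      rcases SUMS_sym_cases (p := p) D with h | h | h <;> rw [h] <;> simp
    have h1 := mom_cn hp t
    have h3 := mom_pn hp t
    have h4 : 2 / Real.sqrt p ≤ 2 := by
      rw [div_le_iff₀ hs0]; nlinarith
    have h5 : 1 / (p : ℝ) ≤ 1 := by
      rw [div_le_one hp0]; linarith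
    have e1 : ‖(1 : ℂ) * (((jacobiSym D p : ℤ) : ℂ) * (c p : ℂ) * npow p t)‖ ≤ 2 := by
      rw [one_mul, mul_assoc, norm_mul]
      calc ‖((jacobiSym D p : ℤ) : ℂ)‖ * ‖(c p : ℂ) * npow p t‖ ≤ 1 * 2 :=
            mul_le_mul hv (h1.trans h4) (norm_nonneg _) (by norm_num)
        _ = 2 := by norm_num
    have e2 : ‖(1 : ℂ) ^ 2 * (((jacobiSym D p : ℤ) : ℂ) ^ 2 * p * (npow p t) ^ 2)‖ ≤ 1 := by
      rw [one_pow, one_mul, mul_assoc, norm_mul, norm_pow, h3]
      calc ‖((jacobiSym D p : ℤ) : ℂ)‖ ^ 2 * (1 / (p : ℝ)) ≤ 1 ^ 2 * 1 := by gcongr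
        _ = 1 := by norm_num
    calc _ ≤ ‖(1 : ℂ) - 1 * (((jacobiSym D p : ℤ) : ℂ) * (c p : ℂ) * npow p t)‖ +
          ‖(1 : ℂ) ^ 2 * (((jacobiSym D p : ℤ) : ℂ) ^ 2 * p * (npow p t) ^ 2)‖ := norm_add_le _ _
      _ ≤ (‖(1 : ℂ)‖ + ‖(1 : ℂ) * (((jacobiSym D p : ℤ) : ℂ) * (c p : ℂ) * npow p t)‖) + 1 :=
          add_le_add (norm_sub_le _ _) e2
      _ ≤ 6 := by rw [norm_one]; linarith

theorem mom_range (v : ℤ) (hv : v = 0 ∨ v = 1 ∨ v = -1) {p : ℕ} (hp : p.Prime) (h2 : p ≠ 2) :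
    ∃ D : ℤ, jacobiSym D p = v := by
  have : Fact p.Prime := ⟨hp⟩
  rcases hv with rfl | rfl | rfl
  · refine ⟨0, ?_⟩
    rw [jacobiSym.zero_left hp.one_lt]
  · exact ⟨1, jacobiSym.one_left p⟩
  · have hchar : ringChar (ZMod p) ≠ 2 := by rwa [ZMod.ringChar_zmod_n]
    obtain ⟨a, ha⟩ := quadraticChar_exists_neg_one hchar
    refine ⟨(a.val : ℤ), ?_⟩
    rw [← jacobiSym.legendreSym.to_jacobiSym]
    unfold legendreSym
    simp [ha]

theorem mom_local_all (s : ℝ) : ∃ K : ℝ, 0 ≤ K ∧ ∀ (p : ℕ) (t : ℝ), p.Prime → p ≠ 2 →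
    0 ≤ ‖momF p t 1 0‖ ^ s / p + (1 - 1 / p) * (‖momF p t 1 1‖ ^ s + ‖momF p t 1 (-1)‖ ^ s) / 2 ∧
    ‖momF p t 1 0‖ ^ s / p + (1 - 1 / p) * (‖momF p t 1 1‖ ^ s + ‖momF p t 1 (-1)‖ ^ s) / 2 ≤
      1 + K / p := by
  obtain ⟨K, hK0, hK⟩ := mom_local s
  refine ⟨K + 100 * 6 ^ |s|, by positivity, fun p t hp h2 => ?_⟩
  have hp0 : (0 : ℝ) < p := by exact_mod_cast hp.pos
  rcases le_or_gt p 100 with h | h
  · have hb : ∀ v : ℤ, (v = 0 ∨ v = 1 ∨ v = -1) → ‖momF p t 1 v‖ ^ s ≤ 6 ^ |s| := by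
      intro v hv
      obtain ⟨D, hD⟩ := mom_range v hv hp h2
      rw [← hD, ← mom_ellInv]
      obtain ⟨h3, h4⟩ := mom_crude hp h2 t D
      have hpos : 0 < ‖ellInv D p t‖ := by linarith
      rcases le_or_gt 0 s with hs | hs
      · rw [abs_of_nonneg hs]
        exact Real.rpow_le_rpow hpos.le h4 hs
      · rw [abs_of_neg hs]
        have e : ‖ellInv D p t‖ ^ s = (‖ellInv D p t‖⁻¹) ^ (-s) := by
          rw [Real.inv_rpow hpos.le, Real.rpow_neg hpos.le, inv_inv]
        rw [e]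
        apply Real.rpow_le_rpow (by positivity) _ (by linarith)
        rw [inv_le_comm₀ hpos (by norm_num)]
        linarith
    have h0 := hb 0 (by simp)
    have h1 := hb 1 (by simp)
    have h3 := hb (-1) (by simp)
    have hple : (1 : ℝ) / p ≤ 1 := by
      rw [div_le_one hp0]; exact_mod_cast hp.one_lt.le
    have h1p : 0 ≤ 1 - 1 / (p : ℝ) := by linarith
    constructor
    · positivity
    · set G : ℝ := 6 ^ |s| with hG
      have hG0 : 0 ≤ G := by positivity
      have h4 : ‖momF p t 1 0‖ ^ s / p ≤ G / p := div_le_div_of_nonneg_right h0 hp0.le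
      have h5 : (1 - 1 / (p : ℝ)) * (‖momF p t 1 1‖ ^ s + ‖momF p t 1 (-1)‖ ^ s) / 2 ≤
          (1 - 1 / (p : ℝ)) * (G + G) / 2 := by
        apply div_le_div_of_nonneg_right _ (by norm_num)
        exact mul_le_mul_of_nonneg_left (add_le_add h1 h3) h1p
      have h6 : G / (p : ℝ) + (1 - 1 / (p : ℝ)) * (G + G) / 2 = G := by field_simp; ring
      have h7 : G ≤ 100 * G / p := by
        rw [le_div_iff₀ hp0]
        have : (p : ℝ) ≤ 100 := by exact_mod_cast h
        nlinarith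
      have h8 : 0 ≤ K / p := by positivity
      have e : (K + 100 * G) / (p : ℝ) = K / p + 100 * G / p := by ring
      rw [e]
      linarith
  · obtain ⟨h3, h4⟩ := hK p t 1 hp h (by norm_num)
    refine ⟨h3, h4.trans ?_⟩
    have : K / (p : ℝ) ≤ (K + 100 * 6 ^ |s|) / p := by
      apply div_le_div_of_nonneg_right _ hp0.le
      have : (0 : ℝ) ≤ 100 * 6 ^ |s| := by positivity
      linarith
    linarith

theorem mom_ell_s (s : ℝ) : ∃ C K : ℝ, 0 ≤ C ∧ 0 ≤ K ∧ ∀ (a b P : ℕ) (t : ℝ), b ≤ P →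
    RR P (fun D => ∏ p ∈ primesIoc a b, ‖ellInv D p t‖ ^ s) ≤ C * (1 + Real.log b) ^ K := by
  obtain ⟨K, hK0, hK⟩ := mom_local_all s
  obtain ⟨C, hC0, hC⟩ := mom_prod_le hK0
  refine ⟨C, K, hC0, hK0, fun a b P t hbP => ?_⟩
  have e : (fun D : ℤ => ∏ p ∈ primesIoc a b, ‖ellInv D p t‖ ^ s) = fun D =>
      ∏ p ∈ primesIoc a b, (fun p (v : ℤ) => ‖momF p t 1 v‖ ^ s) p (jacobiSym D p) := by
    funext D
    refine Finset.prod_congr rfl fun p _ => ?_
    rw [mom_ellInv]
  rw [e, mom_prod hbP (fun p (v : ℤ) => ‖momF p t 1 v‖ ^ s)]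
  apply hC
  intro p hp
  obtain ⟨-, hp1, hp2⟩ := rm_mem.1 hp
  exact hK p t hp1 hp2

theorem mom_mono_C {b : ℕ} {C K M : ℝ} (hC : 0 ≤ C) (hCM : C ≤ M) (hKM : K ≤ M) :
    C * (1 + Real.log b) ^ K ≤ M * (1 + Real.log b) ^ M := by
  have h1 : 1 ≤ 1 + Real.log b := by linarith [mom_log_nonneg b]
  apply mul_le_mul hCM (Real.rpow_le_rpow_of_exponent_le h1 hKM) (by positivity) (by linarith)

theorem LP_moment (k : ℕ) : ∃ C : ℝ, ∀ (a b P : ℕ) (t : ℝ), b ≤ P →
    RR P (fun D => ‖LP a b D t‖ ^ k) ≤ C * (1 + Real.log b) ^ C ∧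
    RR P (fun D => ‖(LP a b D t)⁻¹‖ ^ k) ≤ C * (1 + Real.log b) ^ C := by
  obtain ⟨C1, K1, hC1, hK1, h1⟩ := mom_ell_s (-(k : ℝ))
  obtain ⟨C2, K2, hC2, hK2, h2⟩ := mom_ell_s (k : ℝ)
  refine ⟨C1 + K1 + C2 + K2, fun a b P t hbP => ⟨?_, ?_⟩⟩
  · have e : (fun D : ℤ => ‖LP a b D t‖ ^ k) = fun D =>
        ∏ p ∈ primesIoc a b, ‖ellInv D p t‖ ^ (-(k : ℝ)) := by
      funext D
      unfold LP
      rw [norm_prod, ← Finset.prod_pow]
      refine Finset.prod_congr rfl fun p _ => ?_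
      rw [norm_inv, Real.rpow_neg (norm_nonneg _), Real.rpow_natCast, inv_pow]
    rw [e]
    exact (h1 a b P t hbP).trans (mom_mono_C hC1 (by linarith) (by linarith))
  · have e : (fun D : ℤ => ‖(LP a b D t)⁻¹‖ ^ k) = fun D =>
        ∏ p ∈ primesIoc a b, ‖ellInv D p t‖ ^ (k : ℝ) := by
      funext D
      unfold LP
      rw [norm_inv, norm_prod, ← Finset.prod_inv_distrib, ← Finset.prod_pow]
      refine Finset.prod_congr rfl fun p _ => ?_
      rw [norm_inv, inv_inv, Real.rpow_natCast]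
    rw [e]
    exact (h2 a b P t hbP).trans (mom_mono_C hC2 (by linarith) (by linarith))

/-! ### truncation of the mollifier -/

theorem mom_nu_pow {p : ℕ} (hp : p.Prime) (e : ℕ) : nu (p ^ e) = nuF p e := by
  unfold nu
  rw [hp.factorization_pow, Finsupp.prod_single_index]
  simp [nuF]

theorem mom_nu_one : nu 1 = 1 := by
  unfold nu
  simp

/-- summand of the mollifier -/
noncomputable def momf (D : ℤ) (t : ℝ) (h : ℕ) : ℂ := ((nu h * jacobiSym D h : ℤ) : ℂ) * npow h t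

theorem momf_zero (D : ℤ) (t : ℝ) : momf D t 0 = 0 := by
  unfold momf npow
  rw [Nat.cast_zero, Complex.zero_cpow, mul_zero]
  intro h
  have := congrArg Complex.re h
  simp at this

theorem momf_one (D : ℤ) (t : ℝ) : momf D t 1 = 1 := by
  unfold momf npow
  rw [mom_nu_one]
  simp

theorem mom_npow_mul (m n : ℕ) (t : ℝ) : npow (m * n) t = npow m t * npow n t := by
  unfold npow
  rw [Nat.cast_mul, Complex.natCast_mul_natCast_cpow]

theorem momf_mul (D : ℤ) (t : ℝ) {m n : ℕ} (h : m.Coprime n) :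
    momf D t (m * n) = momf D t m * momf D t n := by
  rcases Nat.eq_zero_or_pos m with rfl | hm
  · rw [zero_mul, momf_zero, zero_mul]
  rcases Nat.eq_zero_or_pos n with rfl | hn
  · rw [mul_zero, momf_zero, mul_zero]
  have : NeZero m := ⟨hm.ne'⟩
  have : NeZero n := ⟨hn.ne'⟩
  unfold momf
  rw [Pool.Agent.ZD.nu_mul h hm hn, jacobiSym.mul_right, mom_npow_mul]
  push_cast
  ring

open Polynomial in
/-- the generating polynomial by the number of prime factors -/
noncomputable def momG (D : ℤ) (t : ℝ) : ArithmeticFunction ℂ[X] :=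
  ⟨fun h => Polynomial.C (momf D t h) * Polynomial.X ^ (ArithmeticFunction.cardFactors h), by
    rw [momf_zero]; simp⟩

theorem momG_mult (D : ℤ) (t : ℝ) : (momG D t).IsMultiplicative := by
  constructor
  · show Polynomial.C (momf D t 1) * Polynomial.X ^ (ArithmeticFunction.cardFactors 1) = 1
    rw [momf_one]; simp
  · intro m n h
    show Polynomial.C (momf D t (m * n)) * Polynomial.X ^ (ArithmeticFunction.cardFactors (m * n)) =
      Polynomial.C (momf D t m) * Polynomial.X ^ (ArithmeticFunction.cardFactors m) *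
        (Polynomial.C (momf D t n) * Polynomial.X ^ (ArithmeticFunction.cardFactors n))
    rcases Nat.eq_zero_or_pos m with rfl | hm
    · rw [zero_mul, momf_zero]; simp
    rcases Nat.eq_zero_or_pos n with rfl | hn
    · rw [mul_zero, momf_zero]; simp
    rw [momf_mul D t h, ArithmeticFunction.cardFactors_mul hm.ne' hn.ne', Polynomial.C_mul, pow_add]
    ring

/-- the polynomial `∏ (1 - X ...)` -/
noncomputable def momQ (s : Finset ℕ) (D : ℤ) (t : ℝ) : Polynomial ℂ :=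
  ∏ p ∈ s, (1 + Polynomial.C (momf D t p) * Polynomial.X + Polynomial.C (momf D t (p ^ 2)) * Polynomial.X ^ 2)

theorem momQ_eq (s : Finset ℕ) (hs : ∀ p ∈ s, p.Prime) (D : ℤ) (t : ℝ) :
    momQ s D t = ∑ h ∈ (∏ p ∈ s, p ^ 2).divisors,
      Polynomial.C (momf D t h) * Polynomial.X ^ (ArithmeticFunction.cardFactors h) := by
  have hmult : (momG D t * (ArithmeticFunction.zeta : ArithmeticFunction (Polynomial ℂ))).IsMultiplicative :=
    (momG_mult D t).mul ArithmeticFunction.isMultiplicative_zeta.natCast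
  have h1 : ∀ n : ℕ, (momG D t * (ArithmeticFunction.zeta : ArithmeticFunction (Polynomial ℂ))) n =
      ∑ h ∈ n.divisors, Polynomial.C (momf D t h) * Polynomial.X ^ (ArithmeticFunction.cardFactors h) := by
    intro n
    rw [ArithmeticFunction.coe_mul_zeta_apply]
    rfl
  rw [← h1, hmult.map_prod (fun p => p ^ 2) s]
  · unfold momQ
    refine Finset.prod_congr rfl fun p hp => ?_
    have hpp := hs p hp
    rw [h1, Nat.sum_divisors_prime_pow hpp]
    rw [sum_range_succ, sum_range_succ, sum_range_one]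
    rw [ArithmeticFunction.cardFactors_apply_prime_pow hpp, ArithmeticFunction.cardFactors_apply_prime_pow hpp,
      ArithmeticFunction.cardFactors_apply_prime_pow hpp, pow_zero, pow_one, momf_one]
    simp
  · intro p hp q hq hpq
    exact Nat.Coprime.pow 2 2 ((Nat.coprime_primes (hs p hp) (hs q hq)).2 hpq)

theorem momQ_eval {s : Finset ℕ} (hs : ∀ p ∈ s, p.Prime ∧ p ≠ 2) (D : ℤ) (t : ℝ) (ζ : ℂ) :
    (momQ s D t).eval ζ = ∏ p ∈ s, momF p t ζ (jacobiSym D p) := by
  unfold momQ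
  rw [Polynomial.eval_prod]
  refine Finset.prod_congr rfl fun p hp => ?_
  obtain ⟨hp1, hp2⟩ := hs p hp
  have e1 : momf D t p = -(((jacobiSym D p : ℤ) : ℂ) * (c p : ℂ) * npow p t) := by
    unfold momf
    have : nu p = -c p := by
      have := mom_nu_pow hp1 1
      rw [pow_one] at this
      rw [this]
      simp [nuF]
    rw [this]
    push_cast
    ring
  have e2 : momf D t (p ^ 2) = ((jacobiSym D p : ℤ) : ℂ) ^ 2 * p * (npow p t) ^ 2 := by
    unfold momf
    have : nu (p ^ 2) = p := by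
      rw [mom_nu_pow hp1 2]
      simp [nuF, hp2]
    rw [this, jacobiSym.pow_right, sq p, mom_npow_mul]
    push_cast
    ring
  rw [e1, e2]
  simp only [Polynomial.eval_add, Polynomial.eval_mul, Polynomial.eval_C, Polynomial.eval_X,
    Polynomial.eval_pow, Polynomial.eval_one]
  unfold momF
  ring

theorem momQ_degree (s : Finset ℕ) (D : ℤ) (t : ℝ) : (momQ s D t).natDegree ≤ 2 * s.card := by
  unfold momQ
  refine (Polynomial.natDegree_prod_le _ _).trans ?_
  rw [mul_comm, ← smul_eq_mul]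
  apply Finset.sum_le_card_nsmul
  intro p _
  compute_degree

theorem mom_coeff_sum (s : Finset ℕ) (hs : ∀ p ∈ s, p.Prime) (D : ℤ) (t : ℝ) (m : ℕ) :
    ∑ j ∈ range (m + 1), (momQ s D t).coeff j =
      ∑ h ∈ (∏ p ∈ s, p ^ 2).divisors.filter (fun h => ArithmeticFunction.cardFactors h ≤ m), momf D t h := by
  rw [momQ_eq s hs]
  simp only [Polynomial.finsetSum_coeff, Polynomial.coeff_C_mul, Polynomial.coeff_X_pow]
  rw [Finset.sum_comm, Finset.sum_filter]
  refine Finset.sum_congr rfl fun h _ => ?_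
  rw [← Finset.mul_sum]
  simp only [Finset.sum_ite_eq', mem_range]
  by_cases hle : ArithmeticFunction.cardFactors h ≤ m
  · rw [if_pos (by omega), if_pos hle, mul_one]
  · rw [if_neg (by omega), if_neg hle, mul_zero]

theorem mom_Mo' {a b m : ℕ} (ha : 2 ≤ a) (hab : a ≤ b) (D : ℤ) (t : ℝ) :
    Mo' a b m D t = ∑ j ∈ range (m + 1), (momQ (primesIoc a b) D t).coeff j := by
  classical
  have hs : ∀ p ∈ primesIoc a b, p.Prime := fun p hp => (rm_mem.1 hp).2.1
  rw [mom_coeff_sum _ hs]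
  unfold Mo'
  have hN0 : (∏ p ∈ primesIoc a b, p ^ 2) ≠ 0 :=
    Finset.prod_ne_zero_iff.2 fun p hp => pow_ne_zero 2 (hs p hp).ne_zero
  have hfac : ∀ q : ℕ, q.Prime → (∏ p ∈ primesIoc a b, p ^ 2).factorization q =
      if q ∈ primesIoc a b then 2 else 0 := by
    intro q hq
    rw [Nat.factorization_prod (fun p hp => pow_ne_zero 2 (hs p hp).ne_zero), Finsupp.finsetSum_apply]
    have : ∀ p ∈ primesIoc a b, (p ^ 2).factorization q = if q = p then 2 else 0 := by
      intro p hp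
      rw [(hs p hp).factorization_pow, Finsupp.single_apply]
      by_cases h : p = q
      · rw [if_pos h, if_pos h.symm]
      · rw [if_neg h, if_neg (Ne.symm h)]
    rw [Finset.sum_congr rfl this, Finset.sum_ite_eq]
  symm
  apply Finset.sum_subset_zero_on_sdiff
  · intro h hh
    rw [Finset.mem_filter, Nat.mem_divisors] at hh
    obtain ⟨⟨hd, -⟩, hm⟩ := hh
    have hh0 : h ≠ 0 := ne_zero_of_dvd_ne_zero hN0 hd
    have hpr : ∀ p, p.Prime → p ∣ h → p ∈ primesIoc a b := by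
      intro p hp hph
      obtain ⟨q, hq, hpq⟩ := (Prime.dvd_finsetProd_iff hp.prime _).1 (hph.trans hd)
      have h2 := (Nat.prime_dvd_prime_iff_eq hp (hs q hq)).1 (hp.dvd_of_dvd_pow hpq)
      rw [h2]; exact hq
    unfold smoothSet
    rw [Finset.mem_filter, Finset.mem_Icc]
    refine ⟨⟨Nat.pos_of_ne_zero hh0, ?_⟩, ?_, hm⟩
    · have h3 : h = h.primeFactorsList.prod := (Nat.prod_primeFactorsList hh0).symm
      have h4 : h.primeFactorsList.prod ≤ b ^ h.primeFactorsList.length := by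
        apply List.prod_le_pow_card
        intro p hp
        have h5 := Nat.prime_of_mem_primeFactorsList hp
        have h6 := Nat.dvd_of_mem_primeFactorsList hp
        exact (rm_mem.1 (hpr p h5 h6)).1.2
      rw [h3]
      refine h4.trans (Nat.pow_le_pow_right (by omega) hm)
    · intro p hp hph
      exact (rm_mem.1 (hpr p hp hph)).1
  · intro h hh
    rw [Finset.mem_sdiff] at hh
    obtain ⟨h1, h2⟩ := hh
    unfold smoothSet at h1
    rw [Finset.mem_filter, Finset.mem_Icc] at h1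
    obtain ⟨⟨hpos1, -⟩, hpr, hm⟩ := h1
    have hpos : 0 < h := hpos1
    have hpr' : ∀ p, p.Prime → p ∣ h → p ∈ primesIoc a b := by
      intro p hp hph
      have := hpr p hp hph
      exact rm_mem.2 ⟨this, hp, by omega⟩
    -- h has a cube
    have hcube : ∃ p, p.Prime ∧ 3 ≤ h.factorization p := by
      by_contra hcon
      push Not at hcon
      apply h2
      rw [Finset.mem_filter, Nat.mem_divisors]
      refine ⟨⟨?_, hN0⟩, hm⟩
      rw [← Nat.factorization_le_iff_dvd hpos.ne' hN0]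
      intro q
      by_cases hq : q.Prime
      · rw [hfac q hq]
        by_cases hqh : q ∣ h
        · rw [if_pos (hpr' q hq hqh)]
          have := hcon q hq
          omega
        · rw [Nat.factorization_eq_zero_of_not_dvd hqh]
          exact Nat.zero_le _
      · rw [Nat.factorization_eq_zero_of_not_prime _ hq]
        exact Nat.zero_le _
    obtain ⟨p, hp, h3⟩ := hcube
    have hnu : nu h = 0 := by
      unfold nu Finsupp.prod
      apply Finset.prod_eq_zero (i := p)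
      · rw [Nat.support_factorization, Nat.mem_primeFactors]
        refine ⟨hp, ?_, hpos.ne'⟩
        by_contra hnd
        rw [Nat.factorization_eq_zero_of_not_dvd hnd] at h3
        omega
      · unfold nuF
        rw [if_neg (by omega), if_neg (by omega), if_neg (by omega)]
    rw [hnu]
    simp
  · intro h _
    rfl

/-! ### coefficients of a polynomial by roots of unity -/

theorem mom_root_sum {N : ℕ} (hN : 0 < N) (r : ℕ) :
    ∑ i ∈ range N, exp (2 * Real.pi * I / N) ^ (i * r) = if N ∣ r then (N : ℂ) else 0 := by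
  have hprim := Complex.isPrimitiveRoot_exp N hN.ne'
  set ω := exp (2 * Real.pi * I / N) with hω
  have e : ∀ i ∈ range N, ω ^ (i * r) = (ω ^ r) ^ i := by
    intro i _
    rw [← pow_mul, mul_comm]
  rw [Finset.sum_congr rfl e]
  by_cases h : N ∣ r
  · rw [if_pos h, (hprim.pow_eq_one_iff_dvd r).2 h]
    simp
  · rw [if_neg h]
    have h1 : ω ^ r ≠ 1 := fun h' => h ((hprim.pow_eq_one_iff_dvd r).1 h')
    rw [geom_sum_eq h1, ← pow_mul, mul_comm, pow_mul, hprim.pow_eq_one, one_pow, sub_self, zero_div]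

theorem mom_coeff_le (q : Polynomial ℂ) {N : ℕ} (hN : q.natDegree < N) {j : ℕ} (hj : j < N) :
    ‖q.coeff j‖ ≤ (2 ^ j)⁻¹ * ∑ i ∈ range N, (1 / (N : ℝ)) * ‖q.eval (2 * exp (2 * Real.pi * I / N) ^ i)‖ := by
  have hN0 : 0 < N := by omega
  have hNc : (N : ℂ) ≠ 0 := by exact_mod_cast hN0.ne'
  set ω := exp (2 * Real.pi * I / N) with hω
  have hωn : ‖ω‖ = 1 := by
    have hprim := Complex.isPrimitiveRoot_exp N hN0.ne'
    exact hprim.norm'_eq_one hN0.ne'
  have key : ∑ i ∈ range N, q.eval (2 * ω ^ i) * ω ^ (i * (N - j)) = N * (2 ^ j * q.coeff j) := by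
    have h1 : ∀ i ∈ range N, q.eval (2 * ω ^ i) * ω ^ (i * (N - j)) =
        ∑ l ∈ range N, q.coeff l * 2 ^ l * ω ^ (i * (l + (N - j))) := by
      intro i _
      rw [Polynomial.eval_eq_sum_range' hN, Finset.sum_mul]
      refine Finset.sum_congr rfl fun l _ => ?_
      rw [mul_pow, mul_add, pow_add, ← pow_mul]
      ring
    rw [Finset.sum_congr rfl h1, Finset.sum_comm]
    simp only [← Finset.mul_sum]
    have h2 : ∀ l ∈ range N, q.coeff l * 2 ^ l * ∑ i ∈ range N, ω ^ (i * (l + (N - j))) =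
        if l = j then N * (2 ^ j * q.coeff j) else 0 := by
      intro l hl
      have hl' := mem_range.1 hl
      rw [mom_root_sum hN0]
      by_cases h : l = j
      · subst h
        rw [if_pos rfl, if_pos (by rw [show l + (N - l) = N by omega])]
        ring
      · rw [if_neg h, if_neg, mul_zero]
        rintro ⟨k, hk⟩
        have hk0 : 0 < k := by
          rcases Nat.eq_zero_or_pos k with rfl | h'
          · omega
          · exact h'
        have hk2 : k < 2 := by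
          by_contra hcon
          have : N * 2 ≤ N * k := Nat.mul_le_mul_left N (by omega)
          omega
        have : k = 1 := by omega
        subst this
        omega
    rw [Finset.sum_congr rfl h2, Finset.sum_ite_eq', if_pos (mem_range.2 hj)]
  have h3 : q.coeff j = (2 ^ j)⁻¹ * ((N : ℂ)⁻¹ * ∑ i ∈ range N, q.eval (2 * ω ^ i) * ω ^ (i * (N - j))) := by
    rw [key]
    field_simp
  rw [h3, norm_mul, norm_inv, norm_pow, Complex.norm_ofNat, norm_mul, norm_inv, Complex.norm_natCast]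
  apply mul_le_mul_of_nonneg_left _ (by positivity)
  rw [← Finset.mul_sum, one_div]
  apply mul_le_mul_of_nonneg_left _ (by positivity)
  refine (norm_sum_le _ _).trans ?_
  apply Finset.sum_le_sum
  intro i _
  rw [norm_mul, norm_pow, hωn, one_pow, mul_one]

theorem mom_tail (q : Polynomial ℂ) {N : ℕ} (hN : q.natDegree < N) (m : ℕ) :
    ‖q.eval 1 - ∑ j ∈ range (m + 1), q.coeff j‖ ≤
      (2 ^ m)⁻¹ * ∑ i ∈ range N, (1 / (N : ℝ)) * ‖q.eval (2 * exp (2 * Real.pi * I / N) ^ i)‖ := by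
  set S := ∑ i ∈ range N, (1 / (N : ℝ)) * ‖q.eval (2 * exp (2 * Real.pi * I / N) ^ i)‖ with hS
  have hS0 : 0 ≤ S := Finset.sum_nonneg fun i _ => by positivity
  have h1 : q.eval 1 = ∑ j ∈ range (max N (m + 1)), q.coeff j := by
    rw [Polynomial.eval_eq_sum_range' (lt_of_lt_of_le hN (le_max_left N (m + 1)))]
    simp
  have h2 : ∑ j ∈ range (max N (m + 1)), q.coeff j =
      ∑ j ∈ range (m + 1), q.coeff j + ∑ j ∈ Ico (m + 1) (max N (m + 1)), q.coeff j := by
    rw [Finset.sum_range_add_sum_Ico _ (le_max_right _ _)]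
  rw [h1, h2, add_sub_cancel_left]
  refine (norm_sum_le _ _).trans ?_
  have h3 : ∀ j ∈ Ico (m + 1) (max N (m + 1)), ‖q.coeff j‖ ≤ (2 ^ j)⁻¹ * S := by
    intro j hj
    by_cases hjN : j < N
    · exact mom_coeff_le q hN hjN
    · rw [Polynomial.coeff_eq_zero_of_natDegree_lt (by omega), norm_zero]
      positivity
  refine (Finset.sum_le_sum h3).trans ?_
  rw [← Finset.sum_mul]
  apply mul_le_mul_of_nonneg_right _ hS0
  have h4 : ∀ M : ℕ, ∑ j ∈ Ico (m + 1) (m + 1 + M), ((2 : ℝ) ^ j)⁻¹ ≤ (2 ^ m)⁻¹ * (1 - (2 ^ M)⁻¹) := by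
    intro M
    induction M with
    | zero => simp
    | succ M ih =>
      rw [show m + 1 + (M + 1) = (m + 1 + M) + 1 by ring, Finset.sum_Ico_succ_top (by omega)]
      have e1 : ((2 : ℝ) ^ (m + 1 + M))⁻¹ = (2 ^ m)⁻¹ * (2 ^ (M + 1))⁻¹ := by
        rw [← mul_inv, ← pow_add]; congr 2; ring
      have e2 : ((2 : ℝ) ^ M)⁻¹ = 2 * (2 ^ (M + 1))⁻¹ := by
        rw [pow_succ]; field_simp
      rw [e1]
      rw [e2] at ih
      nlinarith
  obtain ⟨M, hM⟩ : ∃ M, max N (m + 1) = m + 1 + M := ⟨max N (m + 1) - (m + 1), by omega⟩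
  rw [hM]
  refine (h4 M).trans ?_
  have : (0 : ℝ) ≤ (2 ^ m)⁻¹ := by positivity
  have : (0 : ℝ) ≤ (2 ^ M)⁻¹ := by positivity
  nlinarith

theorem momQ_one {a b : ℕ} (D : ℤ) (t : ℝ) :
    (momQ (primesIoc a b) D t).eval 1 = (LP a b D t)⁻¹ := by
  rw [momQ_eval (fun p hp => (rm_mem.1 hp).2)]
  unfold LP
  rw [← Finset.prod_inv_distrib]
  refine Finset.prod_congr rfl fun p _ => ?_
  rw [inv_inv, mom_ellInv]

/-- truncation of the mollifier -/
theorem Mo'_trunc (k A : ℕ) (hk : 1 ≤ k) : ∃ C : ℝ, ∀ (X : ℝ) (a b m P : ℕ) (t : ℝ), 3 ≤ X →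
    z0 ≤ a → a ≤ b → b ≤ P → (b : ℝ) ≤ X → C * Real.log (Real.log X + 3) ≤ m →
    RR P (fun D => ‖Mo' a b m D t - (LP a b D t)⁻¹‖ ^ k) ≤ C / (Real.log X) ^ A ∧
    RR P (fun D => ‖Mo' a b m D t‖ ^ k) ≤ C * (Real.log X) ^ C := by
  obtain ⟨K, hK0, hK⟩ := mom_local (k : ℝ)
  obtain ⟨C1, hC10, hC1⟩ := mom_prod_le hK0
  obtain ⟨C2, hC2⟩ := LP_moment k
  -- constants
  set C2' : ℝ := |C2| * 2 ^ |C2| with hC2'
  have hC2'0 : 0 ≤ C2' := by positivity
  set C : ℝ := 2 * (K + A) + C1 + 2 ^ k * (C1 + C2') + |C2| + 1 with hC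
  have hA0 : (0 : ℝ) ≤ A := Nat.cast_nonneg A
  have hCa : 2 * (K + A) ≤ C := by
    have : (0 : ℝ) ≤ 2 ^ k * (C1 + C2') := by positivity
    have := abs_nonneg C2
    linarith
  have hCb : C1 ≤ C := by
    have : (0 : ℝ) ≤ 2 ^ k * (C1 + C2') := by positivity
    have := abs_nonneg C2
    linarith
  have hCc : 2 ^ k * (C1 + C2') ≤ C := by
    have := abs_nonneg C2
    linarith
  have hCd : |C2| ≤ C := by
    have : (0 : ℝ) ≤ 2 ^ k * (C1 + C2') := by positivity
    linarith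
  have hC0 : 0 ≤ C := hC10.trans hCb
  refine ⟨C, fun X a b m P t hX ha hab hbP hbX hm => ?_⟩
  obtain ⟨hl1, hl2, hl3⟩ := mom_LL hX
  obtain ⟨hb1, hb2⟩ := mom_log_b hX hbX
  set LL := Real.log (Real.log X + 3) with hLL
  have ha2 : 2 ≤ a := by unfold z0 at ha; omega
  have hs : ∀ p ∈ primesIoc a b, p.Prime ∧ p ≠ 2 := fun p hp => (rm_mem.1 hp).2
  set N := 2 * (primesIoc a b).card + 1 with hN
  have hN0 : 0 < N := by omega
  have hNr : (0 : ℝ) < N := by exact_mod_cast hN0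
  set ω := exp (2 * Real.pi * I / N) with hω
  have hωn : ‖ω‖ = 1 := by
    have hprim := Complex.isPrimitiveRoot_exp N hN0.ne'
    exact hprim.norm'_eq_one hN0.ne'
  -- pointwise
  have hpt : ∀ D : ℤ, ‖Mo' a b m D t - (LP a b D t)⁻¹‖ ^ k ≤
      (2 ^ m)⁻¹ * ∑ i ∈ range N, (1 / (N : ℝ)) *
        ‖∏ p ∈ primesIoc a b, momF p t (2 * ω ^ i) (jacobiSym D p)‖ ^ k := by
    intro D
    have hdeg : (momQ (primesIoc a b) D t).natDegree < N := by
      have := momQ_degree (primesIoc a b) D t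
      omega
    have h1 := mom_tail _ hdeg m
    rw [momQ_one, ← mom_Mo' ha2 hab, norm_sub_rev] at h1
    simp only [momQ_eval hs] at h1
    set S := ∑ i ∈ range N, (1 / (N : ℝ)) *
        ‖∏ p ∈ primesIoc a b, momF p t (2 * ω ^ i) (jacobiSym D p)‖ with hS
    have hS0 : 0 ≤ S := Finset.sum_nonneg fun i _ => by positivity
    calc ‖Mo' a b m D t - (LP a b D t)⁻¹‖ ^ k ≤ ((2 ^ m)⁻¹ * S) ^ k :=
          pow_le_pow_left₀ (norm_nonneg _) h1 k
      _ = ((2 ^ m)⁻¹) ^ k * S ^ k := mul_pow _ _ _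
      _ ≤ (2 ^ m)⁻¹ * S ^ k := by
          apply mul_le_mul_of_nonneg_right _ (by positivity)
          have h2 : ((2 : ℝ) ^ m)⁻¹ ≤ 1 := inv_le_one_of_one_le₀ (one_le_pow₀ (by norm_num))
          calc (((2 : ℝ) ^ m)⁻¹) ^ k ≤ (((2 : ℝ) ^ m)⁻¹) ^ 1 :=
                pow_le_pow_of_le_one (by positivity) h2 hk
            _ = _ := pow_one _
      _ ≤ _ := by
          apply mul_le_mul_of_nonneg_left _ (by positivity)
          apply Real.pow_arith_mean_le_arith_mean_pow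
          · intro i _; positivity
          · rw [Finset.sum_const, card_range, nsmul_eq_mul]
            field_simp
          · intro i _; exact norm_nonneg _
  have hloc : ∀ i ∈ range N,
      RR P (fun D => ‖∏ p ∈ primesIoc a b, momF p t (2 * ω ^ i) (jacobiSym D p)‖ ^ k) ≤
        C1 * (1 + Real.log b) ^ K := by
    intro i _
    have e : (fun D : ℤ => ‖∏ p ∈ primesIoc a b, momF p t (2 * ω ^ i) (jacobiSym D p)‖ ^ k) = fun D =>
        ∏ p ∈ primesIoc a b, (fun p (v : ℤ) => ‖momF p t (2 * ω ^ i) v‖ ^ (k : ℝ)) p (jacobiSym D p) := by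
      funext D
      rw [norm_prod, ← Finset.prod_pow]
      refine Finset.prod_congr rfl fun p _ => ?_
      simp only
      rw [Real.rpow_natCast]
    rw [e, mom_prod hbP (fun p (v : ℤ) => ‖momF p t (2 * ω ^ i) v‖ ^ (k : ℝ))]
    apply hC1
    intro p hp
    obtain ⟨h1, hp1, hp2⟩ := rm_mem.1 hp
    apply hK p t (2 * ω ^ i) hp1
    · unfold z0 at ha; omega
    · rw [norm_mul, norm_pow, hωn, one_pow, Complex.norm_ofNat, mul_one]
  have hmain : RR P (fun D => ‖Mo' a b m D t - (LP a b D t)⁻¹‖ ^ k) ≤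
      (2 ^ m)⁻¹ * (C1 * (1 + Real.log b) ^ K) := by
    refine (mom_RR_mono hpt).trans ?_
    rw [mom_RR_smul, mom_RR_sum]
    apply mul_le_mul_of_nonneg_left _ (by positivity)
    calc ∑ i ∈ range N, RR P (fun D => (1 / (N : ℝ)) *
          ‖∏ p ∈ primesIoc a b, momF p t (2 * ω ^ i) (jacobiSym D p)‖ ^ k)
        ≤ ∑ i ∈ range N, (1 / (N : ℝ)) * (C1 * (1 + Real.log b) ^ K) := by
          apply Finset.sum_le_sum
          intro i hi
          rw [mom_RR_smul]
          exact mul_le_mul_of_nonneg_left (hloc i hi) (by positivity)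
      _ = C1 * (1 + Real.log b) ^ K := by
          rw [Finset.sum_const, card_range, nsmul_eq_mul]
          field_simp
  have hbnn := mom_log_nonneg b
  have h1b : 0 < 1 + Real.log b := by linarith
  have hK1 : (1 + Real.log b) ^ K ≤ Real.exp (K * LL) := by
    rw [Real.rpow_def_of_pos h1b]
    apply Real.exp_le_exp.2
    rw [mul_comm]
    exact mul_le_mul_of_nonneg_left hb1 hK0
  have h2m : ((2 : ℝ) ^ m)⁻¹ ≤ Real.exp (-(m / 2)) := by
    rw [Real.exp_neg]
    apply inv_anti₀ (Real.exp_pos _)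
    have h3 : Real.exp ((m : ℝ) / 2) = (Real.exp (1 / 2)) ^ m := by
      rw [← Real.exp_nat_mul]; congr 1; ring
    rw [h3]
    apply pow_le_pow_left₀ (Real.exp_pos _).le
    have h4 : Real.exp (1 / 2) ^ 2 ≤ 2 ^ 2 := by
      rw [← Real.exp_nat_mul]
      norm_num
      linarith [Real.exp_one_lt_d9]
    exact abs_le_of_sq_le_sq' h4 (by norm_num) |>.2
  have hfirst : RR P (fun D => ‖Mo' a b m D t - (LP a b D t)⁻¹‖ ^ k) ≤ C1 / (Real.log X) ^ A := by
    refine hmain.trans ?_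
    calc (2 ^ m)⁻¹ * (C1 * (1 + Real.log b) ^ K) ≤ Real.exp (-(m / 2)) * (C1 * Real.exp (K * LL)) := by
          gcongr
      _ = C1 * Real.exp (K * LL - m / 2) := by
          rw [sub_eq_add_neg, Real.exp_add]; ring
      _ ≤ C1 * Real.exp (-(A * LL)) := by
          apply mul_le_mul_of_nonneg_left _ hC10
          apply Real.exp_le_exp.2
          nlinarith
      _ = C1 * (Real.exp (A * LL))⁻¹ := by rw [Real.exp_neg]
      _ ≤ C1 * ((Real.log X) ^ A)⁻¹ := by
          apply mul_le_mul_of_nonneg_left _ hC10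
          exact inv_anti₀ (by positivity) (mom_pow_le_exp hX A)
      _ = _ := by rw [div_eq_mul_inv]
  constructor
  · exact hfirst.trans (div_le_div_of_nonneg_right hCb (by positivity))
  · have hpt2 : ∀ D : ℤ, ‖Mo' a b m D t‖ ^ k ≤
        2 ^ k * (‖Mo' a b m D t - (LP a b D t)⁻¹‖ ^ k + ‖(LP a b D t)⁻¹‖ ^ k) := fun D =>
      mom_norm_pow_add k _ _
    refine (mom_RR_mono hpt2).trans ?_
    rw [mom_RR_smul, mom_RR_add]
    have h3 : C1 / (Real.log X) ^ A ≤ C1 := div_le_self hC10 (one_le_pow₀ hl1)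
    have h4 := (hC2 a b P t hbP).2
    have h5 : C2 * (1 + Real.log b) ^ C2 ≤ C2' * (Real.log X) ^ |C2| := by
      have h6 : (1 + Real.log b) ^ C2 ≤ (2 * Real.log X) ^ |C2| := by
        calc (1 + Real.log b) ^ C2 ≤ (1 + Real.log b) ^ |C2| :=
              Real.rpow_le_rpow_of_exponent_le (by linarith) (le_abs_self _)
          _ ≤ (2 * Real.log X) ^ |C2| := Real.rpow_le_rpow h1b.le hb2 (abs_nonneg _)
      calc C2 * (1 + Real.log b) ^ C2 ≤ |C2| * (1 + Real.log b) ^ C2 :=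
            mul_le_mul_of_nonneg_right (le_abs_self _) (by positivity)
        _ ≤ |C2| * (2 * Real.log X) ^ |C2| := mul_le_mul_of_nonneg_left h6 (abs_nonneg _)
        _ = C2' * (Real.log X) ^ |C2| := by
            rw [Real.mul_rpow (by norm_num) (by linarith), hC2']; ring
    have h7 : (1 : ℝ) ≤ (Real.log X) ^ |C2| := Real.one_le_rpow hl1 (abs_nonneg _)
    calc 2 ^ k * (RR P (fun D => ‖Mo' a b m D t - (LP a b D t)⁻¹‖ ^ k) +
          RR P (fun D => ‖(LP a b D t)⁻¹‖ ^ k))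
        ≤ 2 ^ k * (C1 + C2' * (Real.log X) ^ |C2|) := by
          apply mul_le_mul_of_nonneg_left _ (by positivity)
          linarith
      _ ≤ 2 ^ k * ((C1 + C2') * (Real.log X) ^ |C2|) := by
          apply mul_le_mul_of_nonneg_left _ (by positivity)
          nlinarith
      _ = (2 ^ k * (C1 + C2')) * (Real.log X) ^ |C2| := by ring
      _ ≤ C * (Real.log X) ^ C := by
          apply mul_le_mul hCc (Real.rpow_le_rpow_of_exponent_le hl1 hCd) (by positivity) hC0

end Pool.Agent.CZ
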