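import Mathlib
import Pool.Agent.CZ.Defs
import Pool.Agent.CZ.LocJet

/-!
# Critical zeros (MP_553913_nt), module RAT: ratio of Euler products at two heights
-/

set_option autoImplicit false

open Complex Finset MeasureTheory

namespace Pool.Agent.CZ

open Pool.Agent.H5 (c bd)
open Pool.Agent.CZ.LocJet

namespace RATm

/-- `min(1, |v| log p)` -/
noncomputable def mu (p : ℕ) (v : ℝ) : ℝ := min 1 (|v| * Real.log p)

theorem mu_nonneg (p : ℕ) (v : ℝ) : 0 ≤ mu p v :=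
  le_min zero_le_one (mul_nonneg (abs_nonneg _) (Real.log_natCast_nonneg p))

theorem mu_le_one (p : ℕ) (v : ℝ) : mu p v ≤ 1 := min_le_left _ _

theorem ww_sub {p : ℕ} (hp : 0 < p) (τ t : ℝ) :
    ‖ww p τ - ww p t‖ ≤ 2 * (1 / Real.sqrt p) * mu p (τ - t) := by
  obtain ⟨h1, h2⟩ := sqrt_facts hp
  set r : ℝ := 1 / Real.sqrt p with hr
  have hr0 : 0 ≤ r := by positivity
  rcases le_total 1 (|τ - t| * Real.log p) with h | h
  · have e : mu p (τ - t) = 1 := min_eq_left h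
    rw [e, mul_one]
    refine (norm_sub_le _ _).trans ?_
    rw [ww_norm hp, ww_norm hp]
    linarith
  · have e : mu p (τ - t) = |τ - t| * Real.log p := min_eq_right h
    rw [e]
    have h3 : ‖ww p τ - ww p t‖ ≤ r * (|τ - t| * Real.log p) := by
      have hl : 0 ≤ Real.log p := Real.log_natCast_nonneg p
      rw [← sq_le_sq₀ (norm_nonneg _) (by positivity), ← Complex.normSq_eq_norm_sq,
        Complex.normSq_apply, ww_eq hp, ww_eq hp]
      simp only [Complex.sub_re, Complex.sub_im, Complex.ofReal_re, Complex.ofReal_im,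
        Complex.re_ofReal_mul, Complex.im_ofReal_mul, Complex.I_re, Complex.I_im]
      set a := τ * Real.log p with ha
      set b := t * Real.log p with hb
      have h4 : (r * (|τ - t| * Real.log p)) ^ 2 = r ^ 2 * (a - b) ^ 2 := by
        rw [ha, hb, mul_pow, mul_pow, sq_abs]
        ring
      rw [h4]
      have h5 := Real.one_sub_sq_div_two_le_cos (x := a - b)
      rw [Real.cos_sub] at h5
      have h6 := Real.sin_sq_add_cos_sq a
      have h7 := Real.sin_sq_add_cos_sq b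
      have h8 : (Real.cos a - Real.cos b) ^ 2 + (Real.sin a - Real.sin b) ^ 2 ≤ (a - b) ^ 2 := by
        nlinarith
      have h9 : (Real.cos a / Real.sqrt p - Real.sin a / Real.sqrt p * 0 -
          (Real.cos b / Real.sqrt p - Real.sin b / Real.sqrt p * 0)) *
          (Real.cos a / Real.sqrt p - Real.sin a / Real.sqrt p * 0 -
          (Real.cos b / Real.sqrt p - Real.sin b / Real.sqrt p * 0)) +
          (0 - Real.sin a / Real.sqrt p * 1 - (0 - Real.sin b / Real.sqrt p * 1)) *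
          (0 - Real.sin a / Real.sqrt p * 1 - (0 - Real.sin b / Real.sqrt p * 1)) =
          r ^ 2 * ((Real.cos a - Real.cos b) ^ 2 + (Real.sin a - Real.sin b) ^ 2) := by
        rw [hr]
        ring
      rw [h9]
      gcongr
    refine h3.trans ?_
    have : 0 ≤ r * (|τ - t| * Real.log p) :=
      mul_nonneg hr0 (mul_nonneg (abs_nonneg _) (Real.log_natCast_nonneg p))
    nlinarith

/-- the ratio as a function of the symbol -/
noncomputable def rf (p : ℕ) (τ t : ℝ) (χ : ℤ) : ℂ := ef p τ χ * (ef p t χ)⁻¹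

theorem rf_zero (p : ℕ) (τ t : ℝ) : rf p τ t 0 = 1 := by
  unfold rf
  rw [ef_zero, ef_zero]
  simp

/-- algebra and size of the two values of the ratio -/
theorem rf_bound {l r m : ℝ} (hl : |l| ≤ 2) (hr0 : 0 ≤ r) (hr : r ≤ 0.578) {w v : ℂ} (hw : ‖w‖ = r)
    (hv : ‖v‖ = r) (hm : ‖w - v‖ ≤ 2 * r * m) (hm0 : 0 ≤ m) :
    ‖(1 - (l : ℂ) * w + w ^ 2)⁻¹ * (1 - l * v + v ^ 2) - 1‖ ≤ 36 * (r * m) ∧
    ‖(1 + (l : ℂ) * w + w ^ 2)⁻¹ * (1 + l * v + v ^ 2) - 1‖ ≤ 36 * (r * m) ∧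
    ‖((1 - (l : ℂ) * w + w ^ 2)⁻¹ * (1 - l * v + v ^ 2) - 1) +
      ((1 + (l : ℂ) * w + w ^ 2)⁻¹ * (1 + l * v + v ^ 2) - 1)‖ ≤ 900 * (r ^ 2 * m) := by
  have h1 := SUMS_quad_ge hl w (by rw [hw]; linarith)
  have h2 := SUMS_quad_ge hl (-w) (by rw [norm_neg, hw]; linarith)
  rw [norm_neg, hw] at h2
  rw [hw] at h1
  rw [show (1 : ℂ) - l * -w + (-w) ^ 2 = 1 + l * w + w ^ 2 by ring] at h2
  have h3 : (0.178 : ℝ) ≤ (1 - r) ^ 2 := by nlinarith
  have h4 := h3.trans h1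
  have h5 := h3.trans h2
  have h6 : (1 : ℂ) - l * w + w ^ 2 ≠ 0 := by
    intro h
    rw [h, norm_zero] at h4
    norm_num at h4
  have h7 : (1 : ℂ) + l * w + w ^ 2 ≠ 0 := by
    intro h
    rw [h, norm_zero] at h5
    norm_num at h5
  have hrm : 0 ≤ r * m := by positivity
  have hl' : ‖(l : ℂ)‖ ≤ 2 := by rw [Complex.norm_real]; exact hl
  have hs : ∀ s : ℂ, ‖s‖ ≤ 2 → ‖s + v + w‖ ≤ 3.2 := by
    intro s hs
    refine norm_add₃_le.trans ?_
    rw [hw, hv]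
    linarith
  have e1 : (1 - (l : ℂ) * w + w ^ 2)⁻¹ * (1 - l * v + v ^ 2) - 1 =
      (w - v) * (l - v - w) / (1 - l * w + w ^ 2) := by
    field_simp
    ring
  have e2 : (1 + (l : ℂ) * w + w ^ 2)⁻¹ * (1 + l * v + v ^ 2) - 1 =
      (w - v) * (-l - v - w) / (1 + l * w + w ^ 2) := by
    field_simp
    ring
  refine ⟨?_, ?_, ?_⟩
  · rw [e1, norm_div, norm_mul, div_le_iff₀ (by linarith)]
    have h8 : ‖(l : ℂ) - v - w‖ ≤ 3.2 := by
      have := hs (-(l : ℂ)) (by rwa [norm_neg])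
      rw [← norm_neg] at this
      rwa [show -(-(l : ℂ) + v + w) = l - v - w by ring] at this
    have h9 : ‖w - v‖ * ‖(l : ℂ) - v - w‖ ≤ (2 * r * m) * 3.2 := by gcongr
    nlinarith
  · rw [e2, norm_div, norm_mul, div_le_iff₀ (by linarith)]
    have h8 : ‖-(l : ℂ) - v - w‖ ≤ 3.2 := by
      have := hs (l : ℂ) hl'
      rw [← norm_neg] at this
      rwa [show -((l : ℂ) + v + w) = -l - v - w by ring] at this
    have h9 : ‖w - v‖ * ‖-(l : ℂ) - v - w‖ ≤ (2 * r * m) * 3.2 := by gcongr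
    nlinarith
  · have e3 : ((1 - (l : ℂ) * w + w ^ 2)⁻¹ * (1 - l * v + v ^ 2) - 1) +
      ((1 + (l : ℂ) * w + w ^ 2)⁻¹ * (1 + l * v + v ^ 2) - 1) =
      (w - v) * (2 * ((l : ℂ) ^ 2 * w - (v + w) * (1 + w ^ 2))) /
        ((1 - l * w + w ^ 2) * (1 + l * w + w ^ 2)) := by
      rw [e1, e2, div_add_div _ _ h6 h7]
      congr 1
      ring
    rw [e3, norm_div, norm_mul, norm_mul ((1 : ℂ) - l * w + w ^ 2), div_le_iff₀ (by positivity)]
    have h8 : ‖2 * ((l : ℂ) ^ 2 * w - (v + w) * (1 + w ^ 2))‖ ≤ 14 * r := by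
      rw [norm_mul, Complex.norm_ofNat]
      have h9 : ‖(l : ℂ) ^ 2 * w - (v + w) * (1 + w ^ 2)‖ ≤ 4 * r + (2 * r) * 1.34 := by
        refine (norm_sub_le _ _).trans ?_
        rw [norm_mul, norm_mul, norm_pow]
        have h10 : ‖(l : ℂ)‖ ^ 2 ≤ 4 := by nlinarith [norm_nonneg (l : ℂ)]
        have h11 : ‖v + w‖ ≤ 2 * r := by
          refine (norm_add_le _ _).trans ?_
          rw [hw, hv]; linarith
        have h12 : ‖(1 : ℂ) + w ^ 2‖ ≤ 1.34 := by
          refine (norm_add_le _ _).trans ?_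
          rw [norm_one, norm_pow, hw]
          nlinarith
        rw [hw]
        gcongr
      nlinarith
    have h9 : ‖w - v‖ * ‖2 * ((l : ℂ) ^ 2 * w - (v + w) * (1 + w ^ 2))‖ ≤
        (2 * r * m) * (14 * r) := by gcongr
    have h10 : (0.0316 : ℝ) ≤ ‖(1 : ℂ) - l * w + w ^ 2‖ * ‖(1 : ℂ) + l * w + w ^ 2‖ := by
      calc (0.0316 : ℝ) ≤ 0.178 * 0.178 := by norm_num
        _ ≤ _ := by gcongr
    have h11 : 0 ≤ r ^ 2 * m := by positivity
    refine h9.trans ?_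
    nlinarith

theorem small' {p : ℕ} (h3 : 3 ≤ p) : 0 ≤ 1 / Real.sqrt p ∧ 1 / Real.sqrt p ≤ 0.578 ∧
    (1 / Real.sqrt p) ^ 2 = 1 / p := by
  have h5 : (3 : ℝ) ≤ p := by exact_mod_cast h3
  have h1 : 0 < Real.sqrt p := Real.sqrt_pos.2 (by linarith)
  refine ⟨by positivity, ?_, ?_⟩
  · rw [div_le_iff₀ h1]
    have h6 : (1 / 0.578 : ℝ) ≤ Real.sqrt p := by
      apply Real.le_sqrt_of_sq_le
      norm_num
      linarith
    have h7 : (0.578 : ℝ) * (1 / 0.578) = 1 := by norm_num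
    nlinarith
  · rw [div_pow, Real.sq_sqrt (by linarith), one_pow]

/-- sizes for the ratio at a prime -/
theorem rf_facts {p : ℕ} (hp : p.Prime) (h3 : 3 ≤ p) (τ t : ℝ) :
    ‖rf p τ t 1 - 1‖ ≤ 36 * (1 / Real.sqrt p * mu p (τ - t)) ∧
    ‖rf p τ t (-1) - 1‖ ≤ 36 * (1 / Real.sqrt p * mu p (τ - t)) ∧
    ‖(rf p τ t 1 - 1) + (rf p τ t (-1) - 1)‖ ≤ 900 * (mu p (τ - t) / p) := by
  obtain ⟨h1, h2, h4⟩ := small' h3
  have h := rf_bound (la_abs hp) h1 h2 (ww_norm hp.pos τ) (ww_norm hp.pos t) (ww_sub hp.pos τ t)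
    (mu_nonneg p (τ - t))
  have e1 : rf p τ t 1 = (1 - ((la p : ℝ) : ℂ) * ww p τ + ww p τ ^ 2)⁻¹ *
      (1 - (la p : ℝ) * ww p t + ww p t ^ 2) := by
    unfold rf ef
    rw [inv_inv]
    simp
  have e2 : rf p τ t (-1) = (1 + ((la p : ℝ) : ℂ) * ww p τ + ww p τ ^ 2)⁻¹ *
      (1 + (la p : ℝ) * ww p t + ww p t ^ 2) := by
    unfold rf ef
    rw [inv_inv]
    push_cast
    congr 1
    · congr 1
      ring
    · ring
  rw [e1, e2]
  refine ⟨h.1, h.2.1, h.2.2.trans (le_of_eq ?_)⟩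
  rw [h4]
  ring

theorem one_sub_inv_norm {p : ℕ} (hp : 1 ≤ p) : ‖(1 : ℂ) - 1 / p‖ ≤ 1 := by
  have hp0 : (0 : ℝ) < p := by exact_mod_cast hp
  have hp1 : (1 : ℝ) ≤ p := by exact_mod_cast hp
  have : ((1 : ℂ) - 1 / p) = ((1 - 1 / p : ℝ) : ℂ) := by push_cast; rfl
  rw [this, Complex.norm_real, Real.norm_eq_abs, abs_le]
  have h6 : (1 : ℝ) / p ≤ 1 := by rw [div_le_one hp0]; exact hp1
  have h7 : (0 : ℝ) < 1 / p := by positivity
  constructor <;> linarith

/-- local mean close to one -/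
theorem loc_le {p : ℕ} (hp : 1 ≤ p) {f : ℤ → ℂ} (h0 : f 0 = 1) {B : ℝ}
    (h : ‖(f 1 - 1) + (f (-1) - 1)‖ ≤ B) :
    ‖f 0 / p + (1 - 1 / p) * (f 1 + f (-1)) / 2 - 1‖ ≤ B := by
  have e : f 0 / p + (1 - 1 / p) * (f 1 + f (-1)) / 2 - 1 =
      (1 - 1 / p) * (((f 1 - 1) + (f (-1) - 1)) / 2) := by
    rw [h0]
    have hp0 : (p : ℂ) ≠ 0 := by
      have : p ≠ 0 := by omega
      exact_mod_cast this
    field_simp
    ring
  rw [e, norm_mul, norm_div, Complex.norm_ofNat]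
  have hB : 0 ≤ B := (norm_nonneg _).trans h
  have h1 := one_sub_inv_norm hp
  calc ‖(1 : ℂ) - 1 / p‖ * (‖(f 1 - 1) + (f (-1) - 1)‖ / 2) ≤ 1 * (B / 2) := by gcongr
    _ ≤ B := by linarith

/-- a product of local means close to one -/
theorem global : ∃ C : ℝ, 0 ≤ C ∧ ∀ (K : ℝ) (a y : ℕ) (v : ℝ) (E : ℕ → ℂ), 1 ≤ y → 0 ≤ K →
    (∀ p ∈ primesIoc a y, ‖E p - 1‖ ≤ K * (mu p v / p)) →
    ‖∏ p ∈ primesIoc a y, E p - 1‖ ≤
      (K * C * Real.exp (K * C)) * (|v| * Real.log y) * (1 + |v| * Real.log y) ^ K := by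
  obtain ⟨C₀, hC₀⟩ := sum_min_le
  refine ⟨|C₀|, abs_nonneg _, fun K a y v E hy hK h => ?_⟩
  have hly : 0 ≤ Real.log y := Real.log_nonneg (by exact_mod_cast hy)
  set M : ℝ := |v| * Real.log y with hM
  have hM0 : 0 ≤ M := by positivity
  obtain ⟨h1, h2⟩ := hC₀ y v hy
  set S : ℝ := ∑ p ∈ primesIoc a y, ‖E p - 1‖ with hS
  have hS0 : 0 ≤ S := Finset.sum_nonneg fun _ _ => norm_nonneg _
  have h3 : S ≤ K * ∑ p ∈ primesIoc 0 y, min 1 (|v| * Real.log p) / p := by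
    rw [Finset.mul_sum]
    calc S ≤ ∑ p ∈ primesIoc a y, K * (mu p v / p) := Finset.sum_le_sum h
      _ ≤ ∑ p ∈ primesIoc 0 y, K * (mu p v / p) := by
          refine Finset.sum_le_sum_of_subset_of_nonneg ?_ fun p _ _ => ?_
          · intro p hp
            obtain ⟨h4, h5, h6, h7, h8⟩ := SUMS_mem hp
            unfold primesIoc
            rw [Finset.mem_filter, Finset.mem_Ioc]
            exact ⟨⟨by omega, h5⟩, h6, h7⟩
          · have := mu_nonneg p v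
            positivity
      _ = _ := rfl
  have h4 : S ≤ K * (Real.log (1 + M) + |C₀|) := by
    refine h3.trans ?_
    gcongr
    exact h1.trans (by linarith [le_abs_self C₀])
  have h5 : S ≤ K * (|C₀| * M) := by
    refine h3.trans ?_
    gcongr
    refine h2.trans ?_
    rw [mul_assoc]
    gcongr
    exact le_abs_self _
  have h6 : ‖∏ p ∈ primesIoc a y, E p - 1‖ ≤ Real.exp S - 1 := by
    have := Finset.norm_prod_one_add_sub_one_le (primesIoc a y) (fun p => E p - 1)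
    simpa using this
  have h7 : Real.exp S - 1 ≤ S * Real.exp S := by
    have := Real.add_one_le_exp (-S)
    have h8 : Real.exp S * Real.exp (-S) = 1 := by rw [← Real.exp_add]; simp
    have h9 := Real.exp_pos S
    nlinarith
  refine h6.trans (h7.trans ?_)
  have h8 : Real.exp S ≤ (1 + M) ^ K * Real.exp (K * |C₀|) := by
    calc Real.exp S ≤ Real.exp (K * (Real.log (1 + M) + |C₀|)) := Real.exp_le_exp.2 h4
      _ = (1 + M) ^ K * Real.exp (K * |C₀|) := by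
        rw [mul_add, Real.exp_add, Real.rpow_def_of_pos (by linarith), mul_comm K (Real.log _)]
  calc S * Real.exp S ≤ (K * (|C₀| * M)) * ((1 + M) ^ K * Real.exp (K * |C₀|)) := by
        gcongr
    _ = _ := by ring

theorem final_form {K C M : ℝ} (hK : 0 ≤ K) (hC : 0 ≤ C) (hM : 0 ≤ M) :
    (K * C * Real.exp (K * C)) * M * (1 + M) ^ K ≤
      (K * C * Real.exp (K * C) + K) * M * (1 + M) ^ (K * C * Real.exp (K * C) + K) := by
  have h1 : 0 ≤ K * C * Real.exp (K * C) := by positivity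
  have h2 : (1 + M) ^ K ≤ (1 + M) ^ (K * C * Real.exp (K * C) + K) :=
    Real.rpow_le_rpow_of_exponent_le (by linarith) (by linarith)
  have h3 : 0 ≤ (1 + M) ^ K := Real.rpow_nonneg (by linarith) _
  gcongr
  linarith

theorem LP_ratio (a y : ℕ) (D : ℤ) (τ t : ℝ) : LP a y D τ * (LP a y D t)⁻¹ =
    ∏ p ∈ primesIoc a y, rf p τ t (jacobiSym D p) := by
  rw [LP_eq, LP_eq, ← Finset.prod_inv_distrib, ← Finset.prod_mul_distrib]
  rfl

end RATm

open RATm

theorem RAT1 : ∃ C : ℝ, ∀ (a y : ℕ) (τ t : ℝ), 1 ≤ y →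
    ‖RA y (fun D => LP a y D τ * (LP a y D t)⁻¹) - 1‖ ≤
      C * (|τ - t| * Real.log y) * (1 + |τ - t| * Real.log y) ^ C := by
  obtain ⟨C, hC, h⟩ := global
  refine ⟨900 * C * Real.exp (900 * C) + 900, fun a y τ t hy => ?_⟩
  have hly : 0 ≤ Real.log y := Real.log_nonneg (by exact_mod_cast hy)
  refine le_trans ?_ (final_form (K := 900) (by norm_num) hC (by positivity))
  have e : RA y (fun D => LP a y D τ * (LP a y D t)⁻¹) = ∏ p ∈ primesIoc a y,
      (rf p τ t 0 / p + (1 - 1 / p) * (rf p τ t 1 + rf p τ t (-1)) / 2) := by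
    rw [← RA_prod (le_refl y) (fun p => rf p τ t)]
    congr 1
    funext D
    exact LP_ratio a y D τ t
  rw [e]
  refine h 900 a y (τ - t) _ hy (by norm_num) fun p hp => ?_
  obtain ⟨_, _, h4, _, h5⟩ := SUMS_mem hp
  exact loc_le h4.one_lt.le (rf_zero p τ t) (rf_facts h4 h5 τ t).2.2

theorem RAT2 : ∃ C : ℝ, ∀ (a y : ℕ) (τ t : ℝ), 1 ≤ y →
    |RR y (fun D => ‖LP a y D τ * (LP a y D t)⁻¹‖ ^ 2) - 1| ≤
      C * (|τ - t| * Real.log y) * (1 + |τ - t| * Real.log y) ^ C := by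
  obtain ⟨C, hC, h⟩ := global
  refine ⟨5000 * C * Real.exp (5000 * C) + 5000, fun a y τ t hy => ?_⟩
  have hly : 0 ≤ Real.log y := Real.log_nonneg (by exact_mod_cast hy)
  refine le_trans ?_ (final_form (K := 5000) (by norm_num) hC (by positivity))
  have e : ((RR y (fun D => ‖LP a y D τ * (LP a y D t)⁻¹‖ ^ 2) : ℝ) : ℂ) =
      ∏ p ∈ primesIoc a y,
      (rf p τ t 0 * (starRingEnd ℂ) (rf p τ t 0) / p + (1 - 1 / p) *
        (rf p τ t 1 * (starRingEnd ℂ) (rf p τ t 1) +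
          rf p τ t (-1) * (starRingEnd ℂ) (rf p τ t (-1))) / 2) := by
    rw [← RA_prod (le_refl y) (fun p χ => rf p τ t χ * (starRingEnd ℂ) (rf p τ t χ))]
    unfold RR RA
    push_cast
    congr 1
    refine Finset.sum_congr rfl fun D _ => ?_
    rw [LP_ratio, Finset.prod_mul_distrib, ← map_prod, Complex.mul_conj, Complex.normSq_eq_norm_sq]
    push_cast
    rfl
  rw [← Real.norm_eq_abs, ← Complex.norm_real, Complex.ofReal_sub, e, Complex.ofReal_one]
  refine h 5000 a y (τ - t) _ hy (by norm_num) fun p hp => ?_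
  obtain ⟨_, _, h4, _, h5⟩ := SUMS_mem hp
  refine loc_le (f := fun χ => rf p τ t χ * (starRingEnd ℂ) (rf p τ t χ)) h4.one_lt.le
    (by rw [rf_zero]; simp) ?_
  obtain ⟨g1, g2, g3⟩ := rf_facts h4 h5 τ t
  obtain ⟨s1, s2, s3⟩ := small' h5
  set m := mu p (τ - t) with hm
  have hm0 : 0 ≤ m := mu_nonneg _ _
  have hm1 : m ≤ 1 := mu_le_one _ _
  set u := rf p τ t 1 - 1 with hu
  set w := rf p τ t (-1) - 1 with hw
  have e1 : rf p τ t 1 = 1 + u := by rw [hu]; ring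
  have e2 : rf p τ t (-1) = 1 + w := by rw [hw]; ring
  have e3 : ((rf p τ t 1 * (starRingEnd ℂ) (rf p τ t 1) - 1) +
      (rf p τ t (-1) * (starRingEnd ℂ) (rf p τ t (-1)) - 1)) =
      (u + w) + (starRingEnd ℂ) (u + w) + u * (starRingEnd ℂ) u + w * (starRingEnd ℂ) w := by
    rw [e1, e2]
    simp only [map_add, map_one]
    ring
  rw [e3]
  have hp0 : (0 : ℝ) < p := by exact_mod_cast h4.pos
  have hsq : ∀ x : ℂ, ‖x‖ ≤ 36 * (1 / Real.sqrt p * m) → ‖x * (starRingEnd ℂ) x‖ ≤ 1296 * (m / p) := by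
    intro x hx
    rw [norm_mul, RCLike.norm_conj]
    calc ‖x‖ * ‖x‖ ≤ (36 * (1 / Real.sqrt p * m)) * (36 * (1 / Real.sqrt p * m)) := by gcongr
      _ = 1296 * ((1 / Real.sqrt p) ^ 2 * (m * m)) := by ring
      _ ≤ 1296 * ((1 / Real.sqrt p) ^ 2 * m) := by
          gcongr
          nlinarith
      _ = _ := by rw [s3]; ring
  have q1 := hsq u g1
  have q2 := hsq w g2
  refine norm_add₄_le.trans ?_
  rw [RCLike.norm_conj]
  have h6 : 0 ≤ m / p := by positivity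
  linarith

end Pool.Agent.CZ
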