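import Mathlib
import Pool.Agent.CZ.Defs
import Pool.Agent.CZ.SUMS
import Pool.Agent.CZ.RM
import Pool.Agent.CZ.RAT
import Pool.Agent.CZ.MOM

/-!
# Critical zeros: ratio of Euler products with the truncated mollifier
-/

set_option autoImplicit false

open Complex Finset MeasureTheory

namespace Pool.Agent.CZ

open Pool.Agent.H5 (c bd)
open Pool.Agent.ZD (S T Lf nu tau gk eps MM)

/-! ### averages -/

theorem ratt_pos (P : ℕ) : (0 : ℝ) < MP P := by exact_mod_cast rm_MP_pos P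

theorem ratt_mono (P : ℕ) {f g : ℤ → ℝ} (h : ∀ D, f D ≤ g D) : RR P f ≤ RR P g := by
  unfold RR
  exact div_le_div_of_nonneg_right (Finset.sum_le_sum fun D _ => h D) (ratt_pos P).le

theorem ratt_nonneg (P : ℕ) {f : ℤ → ℝ} (h : ∀ D, 0 ≤ f D) : 0 ≤ RR P f := by
  unfold RR
  exact div_nonneg (Finset.sum_nonneg fun D _ => h D) (ratt_pos P).le

theorem ratt_add (P : ℕ) (f g : ℤ → ℝ) : RR P (fun D => f D + g D) = RR P f + RR P g := by
  unfold RR
  rw [Finset.sum_add_distrib, add_div]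

theorem ratt_smul (P : ℕ) (k : ℝ) (f : ℤ → ℝ) : RR P (fun D => k * f D) = k * RR P f := by
  unfold RR
  rw [← Finset.mul_sum, mul_div_assoc]

theorem ratt_cs (P : ℕ) (f g : ℤ → ℝ) :
    RR P (fun D => f D * g D) ^ 2 ≤ RR P (fun D => f D ^ 2) * RR P (fun D => g D ^ 2) := by
  unfold RR
  rw [div_pow, div_mul_div_comm, ← sq]
  exact div_le_div_of_nonneg_right (Finset.sum_mul_sq_le_sq_mul_sq _ _ _) (by positivity)

theorem ratt_restrict {y P : ℕ} (hyP : y ≤ P) (f : ℤ → ℝ) (hf : ∀ D : ℤ, f (D + MP y) = f D) :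
    RR P f = RR y f := by
  have h := RA_restrict hyP (fun D => ((f D : ℝ) : ℂ)) (fun D => by simp only [hf D])
  have e : ∀ Q : ℕ, RA Q (fun D => ((f D : ℝ) : ℂ)) = ((RR Q f : ℝ) : ℂ) := by
    intro Q
    unfold RA RR
    push_cast
    rfl
  rw [e, e] at h
  exact_mod_cast h

/-! ### the small primes -/

theorem ratt_prod {y : ℕ} (hy : z0 ≤ y) (f : ℕ → ℂ) :
    ∏ p ∈ primesIoc 0 y, f p = (∏ p ∈ primesIoc 0 z0, f p) * ∏ p ∈ primesIoc z0 y, f p := by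
  have h : primesIoc 0 y = primesIoc 0 z0 ∪ primesIoc z0 y := by
    unfold primesIoc
    rw [← Finset.filter_union, Finset.Ioc_union_Ioc_eq_Ioc (Nat.zero_le _) hy]
  rw [h, Finset.prod_union]
  rw [Finset.disjoint_left]
  intro p hp hp'
  rw [rm_mem] at hp hp'
  omega

theorem ratt_ellInv {D : ℤ} {p : ℕ} (hp : p.Prime) (t : ℝ) : ‖ellInv D p t‖ ≤ 4 := by
  have hp0 : (0 : ℝ) < p := by exact_mod_cast hp.pos
  have hp1 : (1 : ℝ) ≤ p := by exact_mod_cast hp.one_le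
  have hj : |((jacobiSym D p : ℤ) : ℝ)| ≤ 1 := by
    have := jacobiSym.trichotomy D p
    rcases this with h | h | h <;> rw [h] <;> norm_num
  have hn := npow_norm hp.pos t
  have hs : Real.sqrt p ≤ p := by
    rw [Real.sqrt_le_left hp0.le]
    nlinarith
  have h1 : ‖(bd D p : ℂ) * npow p t‖ ≤ 2 := by
    rw [norm_mul, hn]
    have hb : ‖(bd D p : ℂ)‖ ≤ 2 * Real.sqrt p := by
      unfold bd
      rw [Int.cast_mul, norm_mul, Complex.norm_intCast, Complex.norm_intCast]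
      calc |((jacobiSym D p : ℤ) : ℝ)| * |((c p : ℤ) : ℝ)| ≤ 1 * |((c p : ℤ) : ℝ)| :=
            mul_le_mul_of_nonneg_right hj (abs_nonneg _)
        _ ≤ _ := by rw [one_mul]; exact abs_c_prime hp
    calc ‖(bd D p : ℂ)‖ * (1 / p) ≤ (2 * p) * (1 / p) := by
          apply mul_le_mul_of_nonneg_right _ (by positivity)
          linarith
      _ = 2 := by field_simp
  have h2 : ‖((jacobiSym D p : ℤ) : ℂ) ^ 2 * p * (npow p t) ^ 2‖ ≤ 1 := by
    rw [norm_mul, norm_mul, norm_pow, norm_pow, hn, Complex.norm_intCast, Complex.norm_natCast]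
    have h3 : |((jacobiSym D p : ℤ) : ℝ)| ^ 2 ≤ 1 := pow_le_one₀ (abs_nonneg _) hj
    have h4 : (p : ℝ) * (1 / p) ^ 2 ≤ 1 := by
      have : (p : ℝ) * (1 / p) ^ 2 = 1 / p := by field_simp
      rw [this, div_le_one hp0]
      exact hp1
    calc |((jacobiSym D p : ℤ) : ℝ)| ^ 2 * p * (1 / p) ^ 2 =
          |((jacobiSym D p : ℤ) : ℝ)| ^ 2 * (p * (1 / p) ^ 2) := by ring
      _ ≤ 1 * 1 := mul_le_mul h3 h4 (by positivity) zero_le_one
      _ = 1 := one_mul 1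
  unfold ellInv
  calc ‖1 - (bd D p : ℂ) * npow p t + ((jacobiSym D p : ℤ) : ℂ) ^ 2 * p * (npow p t) ^ 2‖ ≤
        ‖(1 : ℂ)‖ + ‖(bd D p : ℂ) * npow p t‖ +
          ‖((jacobiSym D p : ℤ) : ℂ) ^ 2 * p * (npow p t) ^ 2‖ :=
        (norm_add_le _ _).trans (add_le_add_left (norm_sub_le _ _) _)
    _ ≤ 1 + 2 + 1 := by rw [norm_one]; linarith
    _ = 4 := by norm_num

theorem ratt_small (D : ℤ) (t : ℝ) :
    ‖∏ p ∈ primesIoc 0 z0, ellInv D p t‖ ≤ ∏ _p ∈ primesIoc 0 z0, (4 : ℝ) := by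
  rw [norm_prod]
  exact Finset.prod_le_prod (fun p _ => norm_nonneg _)
    (fun p hp => ratt_ellInv (rm_mem.1 hp).2.1 t)

theorem ratt_split {y : ℕ} (hy : z0 ≤ y) (m : ℕ) (D : ℤ) (τ t : ℝ) :
    LP 0 y D τ * Mo y m D t = LP 0 y D τ * (LP 0 y D t)⁻¹ +
      (∏ p ∈ primesIoc 0 z0, ellInv D p t) * (LP 0 y D τ * (Mo' z0 y m D t - (LP z0 y D t)⁻¹)) := by
  have h1 : (LP 0 y D t)⁻¹ = (∏ p ∈ primesIoc 0 z0, ellInv D p t) * (LP z0 y D t)⁻¹ := by
    unfold LP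
    rw [← Finset.prod_inv_distrib, ← Finset.prod_inv_distrib]
    simp only [inv_inv]
    exact ratt_prod hy _
  rw [h1]
  unfold Mo
  ring

/-! ### elementary inequalities -/

theorem ratt_main_bound {C x : ℝ} (hx : 0 ≤ x) :
    1 + C * x * (1 + x) ^ C ≤ (1 + max C 0) * (1 + x) ^ (max C 0 + 1) := by
  have hb : 1 ≤ 1 + x := by linarith
  have h0 : 0 ≤ max C 0 := le_max_right _ _
  have h1 : (1 + x) ^ C ≤ (1 + x) ^ (max C 0) :=
    Real.rpow_le_rpow_of_exponent_le hb (le_max_left _ _)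
  have h2 : 0 ≤ (1 + x) ^ C := Real.rpow_nonneg (by linarith) _
  have h3 : 1 ≤ (1 + x) ^ (max C 0) := Real.one_le_rpow hb h0
  have h4 : (1 + x) ^ (max C 0 + 1) = (1 + x) ^ (max C 0) * (1 + x) := by
    rw [Real.rpow_add_one (by linarith)]
  have h5 : C * x * (1 + x) ^ C ≤ max C 0 * x * (1 + x) ^ (max C 0) := by
    calc C * x * (1 + x) ^ C ≤ max C 0 * x * (1 + x) ^ C := by
          apply mul_le_mul_of_nonneg_right _ h2
          exact mul_le_mul_of_nonneg_right (le_max_left _ _) hx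
      _ ≤ _ := mul_le_mul_of_nonneg_left h1 (mul_nonneg h0 hx)
  rw [h4]
  set E := (1 + x) ^ (max C 0)
  have : 0 ≤ max C 0 * E := mul_nonneg h0 (by linarith)
  have h6 : 0 ≤ x * E := mul_nonneg hx (by linarith)
  nlinarith

/-- the error term -/
theorem ratt_err_bound {C₂ C₃ : ℝ} {A : ℕ} (hA : max C₂ 0 ≤ A) {X : ℝ} {y : ℕ} (hX : 3 ≤ X)
    (hy1 : 1 ≤ y) (hy : (y : ℝ) ≤ X) {u v : ℝ} (hv0 : 0 ≤ v)
    (hu : u ≤ C₂ * (1 + Real.log y) ^ C₂) (hv : v ≤ C₃ / (Real.log X) ^ A) :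
    u * v ≤ max C₂ 0 * 2 ^ (max C₂ 0) * max C₃ 0 := by
  have hy0 : (1 : ℝ) ≤ y := by exact_mod_cast hy1
  have hlX : 1 ≤ Real.log X := by
    rw [Real.le_log_iff_exp_le (by linarith)]
    linarith [Real.exp_one_lt_d9]
  have hly : 0 ≤ Real.log y := Real.log_nonneg hy0
  have hly2 : Real.log y ≤ Real.log X := Real.log_le_log (by linarith) hy
  have h0 : 0 ≤ max C₂ 0 := le_max_right _ _
  have h1 : (1 + Real.log y) ^ C₂ ≤ (1 + Real.log y) ^ (max C₂ 0) :=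
    Real.rpow_le_rpow_of_exponent_le (by linarith) (le_max_left _ _)
  have h2 : (1 + Real.log y) ^ (max C₂ 0) ≤ (2 * Real.log X) ^ (max C₂ 0) :=
    Real.rpow_le_rpow (by linarith) (by linarith) h0
  have h3 : (2 * Real.log X) ^ (max C₂ 0) = 2 ^ (max C₂ 0) * (Real.log X) ^ (max C₂ 0) :=
    Real.mul_rpow (by norm_num) (by linarith)
  have h4 : (Real.log X) ^ (max C₂ 0) ≤ (Real.log X) ^ A := by
    rw [← Real.rpow_natCast]
    exact Real.rpow_le_rpow_of_exponent_le hlX hA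
  have hLA : 0 < (Real.log X) ^ A := by positivity
  have h2p : 0 ≤ (2 : ℝ) ^ (max C₂ 0) := by positivity
  have hu' : u ≤ max C₂ 0 * (2 ^ (max C₂ 0) * (Real.log X) ^ A) := by
    calc u ≤ C₂ * (1 + Real.log y) ^ C₂ := hu
      _ ≤ max C₂ 0 * (1 + Real.log y) ^ C₂ :=
          mul_le_mul_of_nonneg_right (le_max_left _ _) (Real.rpow_nonneg (by linarith) _)
      _ ≤ max C₂ 0 * (2 ^ (max C₂ 0) * (Real.log X) ^ A) := by
          apply mul_le_mul_of_nonneg_left _ h0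
          calc (1 + Real.log y) ^ C₂ ≤ 2 ^ (max C₂ 0) * (Real.log X) ^ (max C₂ 0) := by
                rw [← h3]; exact h1.trans h2
            _ ≤ _ := mul_le_mul_of_nonneg_left h4 h2p
  have hv' : v ≤ max C₃ 0 / (Real.log X) ^ A :=
    hv.trans (div_le_div_of_nonneg_right (le_max_left _ _) hLA.le)
  calc u * v ≤ (max C₂ 0 * (2 ^ (max C₂ 0) * (Real.log X) ^ A)) * v :=
        mul_le_mul_of_nonneg_right hu' hv0
    _ ≤ (max C₂ 0 * (2 ^ (max C₂ 0) * (Real.log X) ^ A)) * (max C₃ 0 / (Real.log X) ^ A) :=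
        mul_le_mul_of_nonneg_left hv' (by positivity)
    _ = _ := by field_simp

theorem ratt_sq (a b : ℂ) : ‖a + b‖ ^ 2 ≤ 2 * ‖a‖ ^ 2 + 2 * ‖b‖ ^ 2 := by
  have h := norm_add_le a b
  have h0 := norm_nonneg (a + b)
  have h1 := sq_nonneg (‖a‖ - ‖b‖)
  nlinarith [norm_nonneg a, norm_nonneg b]

theorem RAT_trunc : ∃ C : ℝ, ∀ (P y m : ℕ) (τ t X : ℝ), 3 ≤ X → z0 ≤ y → y ≤ P → (y : ℝ) ≤ X →
    C * Real.log (Real.log X + 3) ≤ m →
    RR P (fun D => ‖LP 0 y D τ * Mo y m D t‖ ^ 2) ≤ C * (1 + |τ - t| * Real.log y) ^ C := by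
  obtain ⟨C₁, h₁⟩ := RAT2
  obtain ⟨C₂, h₂⟩ := LP_moment 4
  obtain ⟨A, hA⟩ : ∃ A : ℕ, max C₂ 0 ≤ A := exists_nat_ge _
  obtain ⟨C₃, h₃⟩ := Mo'_trunc 4 A (by norm_num)
  set K : ℝ := ∏ _p ∈ primesIoc 0 z0, (4 : ℝ) with hK
  have hK0 : 0 ≤ K := Finset.prod_nonneg fun _ _ => by norm_num
  set F : ℝ := max C₂ 0 * 2 ^ (max C₂ 0) * max C₃ 0 with hF
  have hF0 : 0 ≤ F := by positivity
  set G : ℝ := 2 * (1 + max C₁ 0) + 2 * (K ^ 2 * Real.sqrt F) with hG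
  have hG0 : 0 ≤ G := by positivity
  refine ⟨G + (max C₁ 0 + 1) + max C₃ 0, ?_⟩
  intro P y m τ t X hX hz hyP hyX hm
  have hy1 : 1 ≤ y := le_trans (by unfold z0; norm_num) hz
  have hlX : 1 ≤ Real.log X := by
    rw [Real.le_log_iff_exp_le (by linarith)]
    linarith [Real.exp_one_lt_d9]
  have hll : 0 ≤ Real.log (Real.log X + 3) := Real.log_nonneg (by linarith)
  have hly : 0 ≤ Real.log y := Real.log_nonneg (by exact_mod_cast hy1)
  set x : ℝ := |τ - t| * Real.log y with hx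
  have hx0 : 0 ≤ x := mul_nonneg (abs_nonneg _) hly
  have hmC : C₃ * Real.log (Real.log X + 3) ≤ m := by
    refine le_trans ?_ hm
    apply mul_le_mul_of_nonneg_right _ hll
    have := le_max_left C₃ 0
    have := le_max_right C₁ 0
    linarith
  set Δ : ℤ → ℂ := fun D => Mo' z0 y m D t - (LP z0 y D t)⁻¹ with hΔ
  -- exact part
  have e1 : RR P (fun D => ‖LP 0 y D τ * (LP 0 y D t)⁻¹‖ ^ 2) ≤
      (1 + max C₁ 0) * (1 + x) ^ (max C₁ 0 + 1) := by
    rw [ratt_restrict hyP _ (fun D => by rw [LP_period le_rfl, LP_period le_rfl])]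
    have := (abs_le.1 (h₁ 0 y τ t hy1)).2
    have h5 := ratt_main_bound (C := C₁) hx0
    have h6 : C₁ * (|τ - t| * Real.log y) * (1 + |τ - t| * Real.log y) ^ C₁ =
      C₁ * x * (1 + x) ^ C₁ := rfl
    linarith
  -- error part
  have e2 : RR P (fun D => ‖LP 0 y D τ * Δ D‖ ^ 2) ≤ Real.sqrt F := by
    apply Real.le_sqrt_of_sq_le
    have h5 : RR P (fun D => ‖LP 0 y D τ * Δ D‖ ^ 2) =
        RR P (fun D => ‖LP 0 y D τ‖ ^ 2 * ‖Δ D‖ ^ 2) := by
      congr 1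
      funext D
      rw [norm_mul, mul_pow]
    rw [h5]
    refine (ratt_cs P _ _).trans ?_
    have h6 : RR P (fun D => (‖LP 0 y D τ‖ ^ 2) ^ 2) ≤ C₂ * (1 + Real.log y) ^ C₂ := by
      have := (h₂ 0 y P τ hyP).1
      simpa only [← pow_mul] using this
    have h7 : RR P (fun D => (‖Δ D‖ ^ 2) ^ 2) ≤ C₃ / (Real.log X) ^ A := by
      have := (h₃ X z0 y m P t hX le_rfl hz hyP hyX hmC).1
      simpa only [← pow_mul] using this
    exact ratt_err_bound hA hX hy1 hyX (ratt_nonneg P fun D => by positivity) h6 h7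
  have e3 : RR P (fun D => ‖LP 0 y D τ * Mo y m D t‖ ^ 2) ≤
      RR P (fun D => 2 * ‖LP 0 y D τ * (LP 0 y D t)⁻¹‖ ^ 2 +
        2 * K ^ 2 * ‖LP 0 y D τ * Δ D‖ ^ 2) := by
    apply ratt_mono
    intro D
    rw [ratt_split hz]
    refine (ratt_sq _ _).trans ?_
    have h5 : ‖(∏ p ∈ primesIoc 0 z0, ellInv D p t) *
        (LP 0 y D τ * (Mo' z0 y m D t - (LP z0 y D t)⁻¹))‖ ^ 2 ≤
        K ^ 2 * ‖LP 0 y D τ * Δ D‖ ^ 2 := by
      rw [norm_mul, mul_pow]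
      apply mul_le_mul_of_nonneg_right _ (by positivity)
      exact pow_le_pow_left₀ (norm_nonneg _) (ratt_small D t) 2
    linarith
  rw [ratt_add, ratt_smul, ratt_smul] at e3
  have hbx : 1 ≤ 1 + x := by linarith
  set E : ℝ := (1 + x) ^ (max C₁ 0 + 1) with hE
  have hmc : 0 ≤ max C₁ 0 := le_max_right _ _
  have hE1 : 1 ≤ E := Real.one_le_rpow hbx (by linarith)
  have e4 : RR P (fun D => ‖LP 0 y D τ * Mo y m D t‖ ^ 2) ≤ G * E := by
    have h5 : 2 * K ^ 2 * RR P (fun D => ‖LP 0 y D τ * Δ D‖ ^ 2) ≤ 2 * (K ^ 2 * Real.sqrt F) := by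
      have := mul_le_mul_of_nonneg_left e2 (by positivity : 0 ≤ 2 * K ^ 2)
      linarith
    have h6 : 2 * (K ^ 2 * Real.sqrt F) ≤ 2 * (K ^ 2 * Real.sqrt F) * E :=
      le_mul_of_one_le_right (by positivity) hE1
    calc _ ≤ 2 * ((1 + max C₁ 0) * E) + 2 * (K ^ 2 * Real.sqrt F) * E := by linarith
      _ = G * E := by rw [hG]; ring
  refine e4.trans ?_
  have hC3 : 0 ≤ max C₃ 0 := le_max_right _ _
  have e5 : E ≤ (1 + x) ^ (G + (max C₁ 0 + 1) + max C₃ 0) :=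
    Real.rpow_le_rpow_of_exponent_le hbx (by linarith)
  calc G * E ≤ (G + (max C₁ 0 + 1) + max C₃ 0) * E := by
        apply mul_le_mul_of_nonneg_right _ (by linarith)
        linarith
    _ ≤ _ := mul_le_mul_of_nonneg_left e5 (by linarith)

end Pool.Agent.CZ
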