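import Mathlib
import Pool.Agent.CZ.Defs
import Pool.Agent.CZ.RM
import Pool.Agent.CZ.SUMS
import Pool.Agent.CZ.RATT
import Pool.Agent.CZ.KER
import Pool.Agent.CZ.PSI
import Pool.Agent.CZ.MEL
import Pool.Agent.ZD.E1
import Pool.Agent.ZD.K1

/-!
# Critical zeros (MP_553913_nt), module DIAG: diagonal of the window moment
-/

set_option autoImplicit false

open Complex Finset MeasureTheory

namespace Pool.Agent.CZ

open Pool.Agent.H5 (c bd)
open Pool.Agent.ZD (S T Lf nu tau gk eps MM)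

namespace DIAG

/-! ### the function `rho` -/

lemma log_ge {y : ℕ} (hy : 3 ≤ y) : 1 ≤ Real.log y := by
  have h3 : Real.exp 1 ≤ y := by
    have := Real.exp_one_lt_d9
    have h : (3 : ℝ) ≤ y := by exact_mod_cast hy
    linarith
  have := Real.log_le_log (Real.exp_pos 1) h3
  rwa [Real.log_exp] at this

lemma log_mono {y P : ℕ} (hy : 3 ≤ y) (hP : y ≤ P) : Real.log y ≤ Real.log P :=
  Real.log_le_log (by have : 0 < y := by omega
                      exact_mod_cast this) (by exact_mod_cast hP)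

lemma rho_nonneg {y P : ℕ} (t : ℝ) : 0 ≤ rho y P t := by
  unfold rho
  have h1 := Real.log_natCast_nonneg y
  have h2 := Real.log_natCast_nonneg P
  positivity

lemma rho_even {y P : ℕ} (t : ℝ) : rho y P (-t) = rho y P t := by
  unfold rho
  rw [abs_neg]

lemma rho_cont (y P : ℕ) : Continuous (rho y P) := by
  unfold rho
  have h1 := Real.log_natCast_nonneg y
  have h2 := Real.log_natCast_nonneg P
  refine Continuous.div (by fun_prop) (by fun_prop) (fun t => ?_)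
  positivity

lemma rho_le {y P : ℕ} (hy : 3 ≤ y) (hP : y ≤ P) (v : ℝ) :
    rho y P v ≤ 2 + (2 * Real.log P / Real.log y) * (1 + Real.log P * |v|)⁻¹ := by
  have ha := log_ge hy
  have hab := log_mono hy hP
  unfold rho
  set a := Real.log y
  set b := Real.log P
  have hw := abs_nonneg v
  set w := |v|
  have hb : 1 ≤ b := ha.trans hab
  have e : 2 + (2 * b / a) * (1 + b * w)⁻¹ = (2 * (a * (1 + b * w)) + 2 * b) / (a * (1 + b * w)) := by
    field_simp
  rw [e, div_le_div_iff₀ (by positivity) (by positivity)]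
  have h1 : (1 + b) * (1 + w * a) ≤ 2 * ((1 + b * w) * (1 + a)) + 2 * b := by
    nlinarith [mul_nonneg hw (sub_nonneg.2 hab), mul_nonneg (mul_nonneg hw (by linarith : 0 ≤ a)) (by linarith : (0:ℝ) ≤ b), mul_nonneg hw (by linarith : (0:ℝ) ≤ b)]
  have h2 : (2 * (a * (1 + b * w)) + 2 * b) * ((1 + w * b) * (1 + a)) =
      (2 * ((1 + b * w) * (1 + a)) + 2 * b) * (a * (1 + b * w)) + 2 * b * (1 + b * w) := by ring
  rw [h2]
  have h3 : (1 + b) * (1 + w * a) * (a * (1 + b * w)) ≤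
      (2 * ((1 + b * w) * (1 + a)) + 2 * b) * (a * (1 + b * w)) :=
    mul_le_mul_of_nonneg_right h1 (by positivity)
  have h4 : 0 ≤ 2 * b * (1 + b * w) := by positivity
  linarith

lemma rho_far {y P : ℕ} (hy : 3 ≤ y) (hP : y ≤ P) {v : ℝ} (hv : 1 ≤ |v| * Real.log y) :
    rho y P v ≤ 4 := by
  have ha := log_ge hy
  have hab := log_mono hy hP
  refine (rho_le hy hP v).trans ?_
  set a := Real.log y
  set b := Real.log P
  have hw := abs_nonneg v
  set w := |v|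
  have hb : 1 ≤ b := ha.trans hab
  have e : (2 * b / a) * (1 + b * w)⁻¹ = 2 * b / (a * (1 + b * w)) := by
    field_simp
  rw [e]
  have : 2 * b / (a * (1 + b * w)) ≤ 2 := by
    rw [div_le_iff₀ (by positivity)]
    nlinarith
  linarith

lemma int_inv {b u : ℝ} (hb : 0 < b) (hu : 0 ≤ u) :
    ∫ v in (-u)..u, (1 + b * |v|)⁻¹ = 2 * (Real.log (1 + b * u) / b) := by
  have hc : Continuous (fun v : ℝ => (1 + b * |v|)⁻¹) := by
    refine Continuous.inv₀ (by fun_prop) (fun v => ?_)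
    positivity
  have h1 : ∫ v in (0 : ℝ)..u, (1 + b * |v|)⁻¹ = Real.log (1 + b * u) / b := by
    have := intervalIntegral.integral_eq_sub_of_hasDerivAt (a := 0) (b := u)
      (f := fun v => Real.log (1 + b * v) / b) (f' := fun v => (1 + b * |v|)⁻¹) (fun v hv => ?_)
      (hc.intervalIntegrable _ _)
    · rw [this]; simp
    · rw [Set.uIcc_of_le hu] at hv
      have hv0 : 0 ≤ v := hv.1
      rw [abs_of_nonneg hv0]
      have h0 : (1 + b * v) ≠ 0 := by positivity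
      have hd : HasDerivAt (fun v : ℝ => 1 + b * v) b v := by
        simpa using ((hasDerivAt_id v).const_mul b).const_add 1
      have := (hd.log h0).div_const b
      have h' : b / (1 + b * v) / b = (1 + b * v)⁻¹ := by field_simp
      rw [h'] at this
      exact this
  have h2 : ∫ v in (-u)..0, (1 + b * |v|)⁻¹ = Real.log (1 + b * u) / b := by
    have := intervalIntegral.integral_comp_neg (a := 0) (b := u) (fun v : ℝ => (1 + b * |v|)⁻¹)
    simp only [abs_neg, neg_zero] at this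
    rw [← this, h1]
  rw [← intervalIntegral.integral_add_adjacent_intervals (hc.intervalIntegrable (-u) 0)
    (hc.intervalIntegrable 0 u), h1, h2]
  ring

end DIAG

open DIAG in
theorem rho_int : ∃ C : ℝ, ∀ (y P : ℕ) (u : ℝ), 3 ≤ y → y ≤ P → 0 ≤ u →
    ∫ v in (-u)..u, rho y P v ≤ C * (u + Real.log (Real.log P + 3) / Real.log y) := by
  refine ⟨8, fun y P u hy hP hu => ?_⟩
  have ha := log_ge hy
  have hab := log_mono hy hP
  have hc : Continuous (fun v : ℝ => (1 + Real.log P * |v|)⁻¹) := by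
    refine Continuous.inv₀ (by fun_prop) (fun v => ?_)
    have : 0 ≤ Real.log P := by linarith
    positivity
  have h1 : ∫ v in (-u)..u, rho y P v ≤
      ∫ v in (-u)..u, (2 + (2 * Real.log P / Real.log y) * (1 + Real.log P * |v|)⁻¹) := by
    refine intervalIntegral.integral_mono_on (by linarith) ((rho_cont y P).intervalIntegrable _ _)
      ((continuous_const.add (continuous_const.mul hc)).intervalIntegrable _ _)
      (fun v _ => rho_le hy hP v)
  refine h1.trans ?_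
  have ii : IntervalIntegrable (fun v : ℝ => 2 * Real.log P / Real.log y *
      (1 + Real.log P * |v|)⁻¹) volume (-u) u := (continuous_const.mul hc).intervalIntegrable _ _
  rw [intervalIntegral.integral_add (by simp) ii,
    intervalIntegral.integral_const_mul, int_inv (by linarith) hu, intervalIntegral.integral_const]
  set a := Real.log y
  set b := Real.log P
  have hb : 1 ≤ b := ha.trans hab
  have e : 2 * b / a * (2 * (Real.log (1 + b * u) / b)) = 4 * Real.log (1 + b * u) / a := by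
    field_simp
    ring
  rw [e]
  have h2 : Real.log (1 + b * u) ≤ Real.log (b + 3) + u := by
    have h3 : Real.log (1 + b * u) ≤ Real.log ((b + 3) * Real.exp u) := by
      refine Real.log_le_log (by positivity) ?_
      have := Real.add_one_le_exp u
      nlinarith [Real.exp_pos u]
    rwa [Real.log_mul (by positivity) (Real.exp_pos u).ne', Real.log_exp] at h3
  have h4 : 4 * Real.log (1 + b * u) / a ≤ 4 * (Real.log (b + 3) / a) + 4 * u := by
    rw [div_le_iff₀ (by linarith)]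
    have : (4 * (Real.log (b + 3) / a) + 4 * u) * a = 4 * Real.log (b + 3) + 4 * u * a := by
      field_simp
    rw [this]
    nlinarith
  have h5 : 0 ≤ Real.log (b + 3) / a := div_nonneg (Real.log_nonneg (by linarith)) (by linarith)
  simp only [smul_eq_mul]
  nlinarith

namespace DIAG

/-! ### the integral inequality -/

lemma conv_int {f s : ℝ → ℝ} (hf : Integrable f) (hs : Integrable s) :
    Integrable (fun p : ℝ × ℝ => f p.2 * s (p.1 - p.2)) ∧
    ∫ p : ℝ × ℝ, f p.2 * s (p.1 - p.2) = (∫ v, f v) * ∫ v, s v := by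
  have h := hf.convolution_integrand (ContinuousLinearMap.mul ℝ ℝ) hs (μ := volume) (ν := volume)
  simp only [ContinuousLinearMap.mul_apply'] at h
  rw [← Measure.volume_eq_prod] at h
  refine ⟨h, ?_⟩
  rw [Measure.volume_eq_prod] at h ⊢
  rw [integral_prod_symm _ h]
  simp only
  have : ∀ y : ℝ, ∫ x : ℝ, f y * s (x - y) = f y * ∫ v, s v := by
    intro y
    rw [integral_const_mul, integral_sub_right_eq_self (fun x => s x) y]
  simp only [this]
  rw [integral_mul_const]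

lemma schur {g : ℝ → ℝ} (hg0 : ∀ v, 0 ≤ g v) (hg : Integrable g)
    (hg2 : Integrable (fun v => g v ^ 2)) {s : ℝ → ℝ} (hs0 : ∀ v, 0 ≤ s v) (hs : Integrable s)
    (heven : ∀ v, s (-v) = s v) {r : ℝ → ℝ} (hr : ∀ v, r v ≤ 4 + s v) {F : ℝ × ℝ → ℂ} {C : ℝ}
    (hC : 0 ≤ C) (hF : ∀ p, ‖F p‖ ≤ C * (g p.1 * g p.2 * r (p.1 - p.2))) :
    ‖∫ p, F p‖ ≤ C * (4 * (∫ v, g v) ^ 2 + (∫ v, g v ^ 2) * ∫ v, s v) := by
  obtain ⟨c1, c2⟩ := conv_int hg2 hs
  have i1 : Integrable (fun p : ℝ × ℝ => g p.1 * g p.2) := hg.mul_prod hg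
  have v1 : ∫ p : ℝ × ℝ, g p.1 * g p.2 = (∫ v, g v) ^ 2 := by
    rw [Measure.volume_eq_prod, integral_prod_mul]
    ring
  have esw : (fun p : ℝ × ℝ => g p.1 ^ 2 * s (p.1 - p.2)) =
      (fun p : ℝ × ℝ => g p.2 ^ 2 * s (p.1 - p.2)) ∘ Prod.swap := by
    funext p
    simp only [Function.comp, Prod.fst_swap, Prod.snd_swap]
    rw [← heven (p.1 - p.2), neg_sub]
  have i2 : Integrable (fun p : ℝ × ℝ => g p.1 ^ 2 * s (p.1 - p.2)) := by
    rw [esw, Measure.volume_eq_prod]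
    rw [Measure.volume_eq_prod] at c1
    exact c1.swap
  have v2 : ∫ p : ℝ × ℝ, g p.1 ^ 2 * s (p.1 - p.2) = (∫ v, g v ^ 2) * ∫ v, s v := by
    rw [← c2, esw, Measure.volume_eq_prod]
    exact integral_prod_swap (fun p : ℝ × ℝ => g p.2 ^ 2 * s (p.1 - p.2))
  set V : ℝ × ℝ → ℝ := fun p => C * (4 * (g p.1 * g p.2) + (1 / 2) * (g p.1 ^ 2 * s (p.1 - p.2) +
    g p.2 ^ 2 * s (p.1 - p.2))) with hV
  have iV : Integrable V := ((i1.const_mul 4).add ((i2.add c1).const_mul (1 / 2))).const_mul C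
  have hFV : ∀ p, ‖F p‖ ≤ V p := by
    intro p
    refine (hF p).trans ?_
    simp only [hV]
    refine mul_le_mul_of_nonneg_left ?_ hC
    have h1 : g p.1 * g p.2 * r (p.1 - p.2) ≤ g p.1 * g p.2 * (4 + s (p.1 - p.2)) :=
      mul_le_mul_of_nonneg_left (hr _) (mul_nonneg (hg0 _) (hg0 _))
    have h2 : g p.1 * g p.2 ≤ (1 / 2) * (g p.1 ^ 2 + g p.2 ^ 2) := by
      nlinarith [sq_nonneg (g p.1 - g p.2)]
    have h3 := mul_le_mul_of_nonneg_right h2 (hs0 (p.1 - p.2))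
    nlinarith
  refine (norm_integral_le_of_norm_le iV (Filter.Eventually.of_forall hFV)).trans (le_of_eq ?_)
  simp only [hV]
  have i3 : Integrable (fun p : ℝ × ℝ => (1 / 2) * (g p.1 ^ 2 * s (p.1 - p.2) +
    g p.2 ^ 2 * s (p.1 - p.2))) := (i2.add c1).const_mul (1 / 2)
  rw [integral_const_mul, integral_add (i1.const_mul 4) i3,
    integral_const_mul, integral_const_mul, integral_add i2 c1, v1, v2, c2]
  ring

/-! ### Euler factors -/

lemma ellInv_norm_le {D : ℤ} {p : ℕ} (hp : p.Prime) (t : ℝ) :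
    ‖ellInv D p t‖ ≤ (1 + 1 / Real.sqrt p) ^ 2 := by
  unfold ellInv
  have hp0 : (0 : ℝ) < p := by exact_mod_cast hp.pos
  have hs : 0 < Real.sqrt p := Real.sqrt_pos.2 hp0
  have hss : Real.sqrt p * Real.sqrt p = p := Real.mul_self_sqrt hp0.le
  have hj : ‖((jacobiSym D p : ℤ) : ℂ)‖ ≤ 1 := Pool.Agent.ZD.E1.norm_jac D p
  have hb : ‖((bd D p : ℤ) : ℂ)‖ ≤ 2 * Real.sqrt p := by
    have : ((bd D p : ℤ) : ℂ) = ((jacobiSym D p : ℤ) : ℂ) * ((c p : ℤ) : ℂ) := by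
      simp [bd]
    rw [this, norm_mul]
    have h2 : ‖((c p : ℤ) : ℂ)‖ = |(c p : ℝ)| := by
      rw [← Complex.ofReal_intCast, Complex.norm_real, Real.norm_eq_abs]
    rw [h2]
    calc _ ≤ 1 * |(c p : ℝ)| := mul_le_mul_of_nonneg_right hj (abs_nonneg _)
      _ ≤ _ := by rw [one_mul]; exact abs_c_prime hp
  have hn := npow_norm hp.pos t
  calc _ ≤ ‖1 - (bd D p : ℂ) * npow p t‖ + ‖((jacobiSym D p : ℤ) : ℂ) ^ 2 * p * (npow p t) ^ 2‖ :=
        norm_add_le _ _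
    _ ≤ (‖(1 : ℂ)‖ + ‖(bd D p : ℂ) * npow p t‖) +
        ‖((jacobiSym D p : ℤ) : ℂ) ^ 2 * p * (npow p t) ^ 2‖ := by gcongr; exact norm_sub_le _ _
    _ = (1 + ‖((bd D p : ℤ) : ℂ)‖ * (1 / p)) + ‖((jacobiSym D p : ℤ) : ℂ)‖ ^ 2 * p * (1 / p) ^ 2 := by
        rw [norm_one, norm_mul, norm_mul, norm_mul, norm_pow, norm_pow, hn, Complex.norm_natCast]
    _ ≤ (1 + (2 * Real.sqrt p) * (1 / p)) + 1 ^ 2 * p * (1 / p) ^ 2 := by gcongr
    _ = (1 + 1 / Real.sqrt p) ^ 2 := by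
        have h1 : (2 * Real.sqrt p) * (1 / (p : ℝ)) = 2 * (1 / Real.sqrt p) := by
          rw [mul_one_div, mul_one_div, div_eq_div_iff hp0.ne' hs.ne', mul_assoc, hss]
        have h2 : (1 : ℝ) ^ 2 * p * (1 / p) ^ 2 = (1 / Real.sqrt p) ^ 2 := by
          rw [div_pow 1 (Real.sqrt p), Real.sq_sqrt hp0.le]; field_simp
        rw [h1, h2]
        ring

lemma ellInv_ne {D : ℤ} {p : ℕ} (hp : p.Prime) (h2 : p ≠ 2) (t : ℝ) : ellInv D p t ≠ 0 := by
  have h := ellInv_norm_ge (D := D) hp h2 t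
  intro h0
  rw [h0, norm_zero] at h
  have hp2 : 2 < p := lt_of_le_of_ne hp.two_le (Ne.symm h2)
  have h3 : 1 < Real.sqrt p := by
    rw [Real.lt_sqrt (by norm_num)]
    have : (2 : ℝ) < p := by exact_mod_cast hp2
    linarith
  have h4 : 0 < 1 - 1 / Real.sqrt p := by
    rw [sub_pos, div_lt_one (by linarith)]
    exact h3
  have := pow_pos h4 2
  linarith

lemma npow_cont {p : ℕ} (hp : 0 < p) : Continuous (fun t : ℝ => npow p t) := by
  unfold npow
  refine Continuous.const_cpow (by fun_prop) (Or.inl ?_)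
  exact_mod_cast hp.ne'

lemma mem_primes {a b p : ℕ} (h : p ∈ primesIoc a b) : p.Prime ∧ p ≠ 2 := by
  unfold primesIoc at h
  exact (Finset.mem_filter.1 h).2

lemma LP_cont (a b : ℕ) (D : ℤ) : Continuous (fun t : ℝ => LP a b D t) := by
  unfold LP
  refine continuous_finsetProd _ (fun p hp => ?_)
  obtain ⟨h1, h2⟩ := mem_primes hp
  refine Continuous.inv₀ ?_ (fun t => ellInv_ne h1 h2 t)
  unfold ellInv
  have := npow_cont h1.pos
  fun_prop

lemma LP_ne (a b : ℕ) (D : ℤ) (t : ℝ) : LP a b D t ≠ 0 := by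
  unfold LP
  refine Finset.prod_ne_zero_iff.2 (fun p hp => ?_)
  obtain ⟨h1, h2⟩ := mem_primes hp
  exact inv_ne_zero (ellInv_ne h1 h2 t)

lemma LP_split {y P : ℕ} (hyP : y ≤ P) (D : ℤ) (t : ℝ) : LP 0 P D t = LP 0 y D t * LP y P D t := by
  unfold LP
  have : primesIoc 0 P = primesIoc 0 y ∪ primesIoc y P := by
    unfold primesIoc
    rw [← Finset.filter_union, Finset.Ioc_union_Ioc_eq_Ioc (Nat.zero_le _) hyP]
  rw [this, Finset.prod_union]
  unfold primesIoc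
  rw [Finset.disjoint_left]
  intro p h1 h2
  simp only [Finset.mem_filter, Finset.mem_Ioc] at h1 h2
  omega

lemma sum_inv_sqrt_le (y : ℕ) : ∑ p ∈ Ioc 0 y, 1 / Real.sqrt p ≤ 2 * Real.sqrt y := by
  induction y with
  | zero => simp
  | succ n ih =>
    rw [← Finset.insert_Ioc_right_eq_Ioc_add_one (Nat.zero_le _), Finset.sum_insert (by simp)]
    refine (add_le_add_right ih _).trans ?_
    have hn : (0 : ℝ) < ((n + 1 : ℕ) : ℝ) := by positivity
    have h1 : 0 < Real.sqrt ((n + 1 : ℕ) : ℝ) := Real.sqrt_pos.2 hn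
    have h2 : Real.sqrt ((n + 1 : ℕ) : ℝ) ^ 2 = n + 1 := by rw [Real.sq_sqrt hn.le]; push_cast; ring
    have h3 : Real.sqrt (n : ℝ) ^ 2 = n := Real.sq_sqrt (Nat.cast_nonneg _)
    have h4 : 1 / Real.sqrt ((n + 1 : ℕ) : ℝ) + 2 * Real.sqrt n ≤ 2 * Real.sqrt ((n + 1 : ℕ) : ℝ) := by
      rw [← sub_nonneg]
      have : 2 * Real.sqrt ((n + 1 : ℕ) : ℝ) - (1 / Real.sqrt ((n + 1 : ℕ) : ℝ) + 2 * Real.sqrt n) =
          (Real.sqrt ((n + 1 : ℕ) : ℝ) - Real.sqrt n) ^ 2 / Real.sqrt ((n + 1 : ℕ) : ℝ) := by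
        field_simp
        nlinarith
      rw [this]
      positivity
    exact h4

lemma LP_inv_le (y : ℕ) (D : ℤ) (t : ℝ) : ‖(LP 0 y D t)⁻¹‖ ≤ Real.exp (4 * Real.sqrt y) := by
  unfold LP
  rw [Finset.prod_inv_distrib, inv_inv, norm_prod]
  have h1 : ∏ p ∈ primesIoc 0 y, ‖ellInv D p t‖ ≤
      ∏ p ∈ primesIoc 0 y, Real.exp (2 * (1 / Real.sqrt p)) := by
    refine Finset.prod_le_prod (fun p _ => norm_nonneg _) (fun p hp => ?_)
    obtain ⟨h1, h2⟩ := mem_primes hp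
    refine (ellInv_norm_le h1 t).trans ?_
    have := Real.add_one_le_exp (1 / Real.sqrt p)
    have h3 : (1 + 1 / Real.sqrt p) ^ 2 ≤ (Real.exp (1 / Real.sqrt p)) ^ 2 :=
      pow_le_pow_left₀ (by positivity) (by linarith) 2
    rwa [← Real.exp_nat_mul] at h3
  refine h1.trans ?_
  rw [← Real.exp_sum, ← Finset.mul_sum]
  refine Real.exp_le_exp.2 ?_
  have h2 : ∑ p ∈ primesIoc 0 y, 1 / Real.sqrt p ≤ ∑ p ∈ Ioc 0 y, 1 / Real.sqrt p := by
    unfold primesIoc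
    exact Finset.sum_le_sum_of_subset_of_nonneg (Finset.filter_subset _ _)
      (fun _ _ _ => by positivity)
  have := sum_inv_sqrt_le y
  linarith

/-! ### averages -/

lemma MP_pos (P : ℕ) : 0 < MP P := by
  unfold MP
  exact Finset.prod_pos (fun p hp => (mem_primes hp).1.pos)

lemma RR_mono {P : ℕ} {f g : ℤ → ℝ} (h : ∀ D, f D ≤ g D) : RR P f ≤ RR P g := by
  unfold RR
  refine div_le_div_of_nonneg_right (Finset.sum_le_sum (fun D _ => h D)) (Nat.cast_nonneg _)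

lemma RR_add {P : ℕ} {f g : ℤ → ℝ} : RR P (fun D => f D + g D) = RR P f + RR P g := by
  unfold RR
  rw [Finset.sum_add_distrib, add_div]

lemma RR_mul {P : ℕ} {f : ℤ → ℝ} (r : ℝ) : RR P (fun D => r * f D) = r * RR P f := by
  unfold RR
  rw [← Finset.mul_sum, mul_div_assoc]

lemma RR_nonneg {P : ℕ} {f : ℤ → ℝ} (h : ∀ D, 0 ≤ f D) : 0 ≤ RR P f := by
  unfold RR
  exact div_nonneg (Finset.sum_nonneg (fun D _ => h D)) (Nat.cast_nonneg _)

lemma RA_norm_le {P : ℕ} {f : ℤ → ℂ} : ‖RA P f‖ ≤ RR P (fun D => ‖f D‖) := by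
  unfold RA RR
  rw [norm_div, Complex.norm_natCast]
  exact div_le_div_of_nonneg_right (norm_sum_le _ _) (Nat.cast_nonneg _)

lemma RR_cs {P : ℕ} {f g : ℤ → ℝ} {U V : ℝ} (hU : 0 ≤ U) (hV : 0 ≤ V)
    (hf : RR P (fun D => f D ^ 2) ≤ U ^ 2) (hg : RR P (fun D => g D ^ 2) ≤ V ^ 2) :
    RR P (fun D => f D * g D) ≤ U * V := by
  have hM : (0 : ℝ) < MP P := by exact_mod_cast MP_pos P
  refine (le_abs_self _).trans (abs_le_of_sq_le_sq ?_ (mul_nonneg hU hV))
  have h1 := Finset.sum_mul_sq_le_sq_mul_sq (range (MP P)) (fun D : ℕ => f D) (fun D : ℕ => g D)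
  have h2 : (RR P (fun D => f D * g D)) ^ 2 ≤ RR P (fun D => f D ^ 2) * RR P (fun D => g D ^ 2) := by
    unfold RR
    rw [div_pow, div_mul_div_comm, ← pow_two]
    exact div_le_div_of_nonneg_right h1 (by positivity)
  refine h2.trans ?_
  rw [mul_pow]
  exact mul_le_mul hf hg (RR_nonneg (fun D => sq_nonneg _)) (sq_nonneg _)

/-! ### expanding the square -/

lemma gamma_cont : Continuous (fun v : ℝ => Complex.Gamma (1 + v * I)) := by
  refine continuous_iff_continuousAt.2 (fun v => ?_)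
  have h1 : ContinuousAt Complex.Gamma (1 + v * I) := by
    refine (Complex.differentiableAt_Gamma _ (fun m h => ?_)).continuousAt
    have := congrArg Complex.re h
    simp at this
    have hm : (0 : ℝ) ≤ m := Nat.cast_nonneg m
    linarith
  exact ContinuousAt.comp (f := fun v : ℝ => (1 + v * I : ℂ)) h1 (by fun_prop)

lemma FT_cont {Ψ : ℝ → ℂ} (hΨ : Continuous Ψ) (hc : HasCompactSupport Ψ) :
    Continuous (fun τ : ℝ => ∫ x, Ψ x * exp (-(I * τ * x))) := by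
  refine continuous_of_dominated (bound := fun x => ‖Ψ x‖) (fun τ => ?_) (fun τ => ?_) ?_ ?_
  · exact (hΨ.mul (by fun_prop)).aestronglyMeasurable
  · refine Filter.Eventually.of_forall (fun x => ?_)
    rw [norm_mul, Complex.norm_exp]
    have : (-(I * (τ : ℂ) * x)).re = 0 := by simp
    rw [this, Real.exp_zero, mul_one]
  · exact (hΨ.integrable_of_hasCompactSupport hc).norm
  · exact Filter.Eventually.of_forall (fun x => by fun_prop)

lemma square_out {P y m : ℕ} {t₀ : ℝ} {a : ℝ → ℂ} (hi : Integrable a) :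
    ((RR P (fun D => ‖(∫ τ : ℝ, a τ * LP 0 P D τ) * Mo y m D t₀‖ ^ 2) : ℝ) : ℂ) =
      ∫ p : ℝ × ℝ, (a p.1 * (starRingEnd ℂ) (a p.2)) *
        RA P (fun D => (LP 0 P D p.1 * (starRingEnd ℂ) (LP 0 P D p.2)) *
          ((‖Mo y m D t₀‖ ^ 2 : ℝ) : ℂ)) := by
  obtain ⟨B, hB⟩ := LP_bounded P
  have hI : ∀ D : ℤ, Integrable (fun τ : ℝ => a τ * LP 0 P D τ) := fun D =>
    hi.mul_bdd (c := B) (LP_cont 0 P D).aestronglyMeasurable (Filter.Eventually.of_forall (hB D))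
  have hI' : ∀ D : ℤ, Integrable (fun τ : ℝ => (starRingEnd ℂ) (a τ * LP 0 P D τ)) := by
    intro D
    have := (hI D).norm
    refine Integrable.mono' this ?_ (Filter.Eventually.of_forall (fun τ => by simp))
    exact Complex.continuous_conj.comp_aestronglyMeasurable (hI D).aestronglyMeasurable
  have hF : ∀ D : ℤ, (fun p : ℝ × ℝ => (a p.1 * (starRingEnd ℂ) (a p.2)) *
      ((LP 0 P D p.1 * (starRingEnd ℂ) (LP 0 P D p.2)) * ((‖Mo y m D t₀‖ ^ 2 : ℝ) : ℂ))) =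
      fun p : ℝ × ℝ => ((a p.1 * LP 0 P D p.1) * (starRingEnd ℂ) (a p.2 * LP 0 P D p.2)) *
        ((‖Mo y m D t₀‖ ^ 2 : ℝ) : ℂ) := by
    intro D
    funext p
    rw [map_mul]
    ring
  have hFi : ∀ D : ℤ, Integrable (fun p : ℝ × ℝ => (a p.1 * (starRingEnd ℂ) (a p.2)) *
      ((LP 0 P D p.1 * (starRingEnd ℂ) (LP 0 P D p.2)) * ((‖Mo y m D t₀‖ ^ 2 : ℝ) : ℂ))) := by
    intro D
    rw [hF D]
    exact ((hI D).mul_prod (hI' D)).mul_const _
  have hFv : ∀ D : ℤ, ∫ p : ℝ × ℝ, (a p.1 * (starRingEnd ℂ) (a p.2)) *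
      ((LP 0 P D p.1 * (starRingEnd ℂ) (LP 0 P D p.2)) * ((‖Mo y m D t₀‖ ^ 2 : ℝ) : ℂ)) =
      ((‖(∫ τ : ℝ, a τ * LP 0 P D τ) * Mo y m D t₀‖ ^ 2 : ℝ) : ℂ) := by
    intro D
    rw [hF D, integral_mul_const, Measure.volume_eq_prod,
      integral_prod_mul (fun τ : ℝ => a τ * LP 0 P D τ)
        (fun τ : ℝ => (starRingEnd ℂ) (a τ * LP 0 P D τ)), integral_conj, Complex.mul_conj', norm_mul,
      mul_pow]
    push_cast
    ring
  unfold RR RA
  push_cast
  have e1 : ∀ p : ℝ × ℝ, (a p.1 * (starRingEnd ℂ) (a p.2)) *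
      ((∑ D ∈ range (MP P), (LP 0 P (D : ℤ) p.1 * (starRingEnd ℂ) (LP 0 P (D : ℤ) p.2)) *
          ((‖Mo y m (D : ℤ) t₀‖ : ℂ) ^ 2)) / (MP P : ℂ)) =
      (∑ D ∈ range (MP P), (a p.1 * (starRingEnd ℂ) (a p.2)) *
        ((LP 0 P (D : ℤ) p.1 * (starRingEnd ℂ) (LP 0 P (D : ℤ) p.2)) *
          ((‖Mo y m (D : ℤ) t₀‖ ^ 2 : ℝ) : ℂ))) / (MP P : ℂ) := by
    intro p
    rw [← Finset.mul_sum, mul_div_assoc]
    push_cast
    rfl
  simp only [e1]
  rw [integral_div, integral_finsetSum (range (MP P)) (fun (D : ℕ) _ => hFi (D : ℤ))]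
  congr 1
  refine Finset.sum_congr rfl (fun D _ => ?_)
  rw [hFv]
  push_cast
  rfl

/-- the average of the product of Euler products -/
lemma RA_le : ∃ (C : ℝ) (N₁ N₂ : ℕ), 0 < C ∧ ∀ (P y m : ℕ) (τ τ' t₀ X : ℝ), 3 ≤ X → z0 ≤ y → y ≤ P →
    (y : ℝ) ≤ X → C * Real.log (Real.log X + 3) ≤ m →
    ‖RA P (fun D => (LP 0 P D τ * (starRingEnd ℂ) (LP 0 P D τ')) * ((‖Mo y m D t₀‖ ^ 2 : ℝ) : ℂ))‖ ≤
      C * (((1 + |τ - t₀| * Real.log y) ^ N₁ * (2 + |τ|) ^ N₂) *
        ((1 + |τ' - t₀| * Real.log y) ^ N₁ * (2 + |τ'|) ^ N₂) * rho y P (τ - τ')) := by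
  obtain ⟨C₁, h1⟩ := RAT_trunc
  obtain ⟨C₂, h2⟩ := KER
  set R : ℝ := max 1 |C₁| with hR
  have hR1 : 1 ≤ R := le_max_left _ _
  have hR2 : |C₁| ≤ R := le_max_right _ _
  refine ⟨R ^ 2 * (1 + |C₂|), ⌈|C₁|⌉₊, ⌈|C₂|⌉₊, by positivity,
    fun P y m τ τ' t₀ X hX hz hyP hyX hm => ?_⟩
  have hy3 : 3 ≤ y := le_trans (by norm_num [z0]) hz
  have hly := log_ge hy3
  have hm' : C₁ * Real.log (Real.log X + 3) ≤ m := by
    refine le_trans ?_ hm
    refine mul_le_mul_of_nonneg_right ?_ (Real.log_nonneg ?_)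
    · refine (le_abs_self C₁).trans (hR2.trans ?_)
      nlinarith [abs_nonneg C₂, mul_nonneg (sq_nonneg R) (abs_nonneg C₂)]
    · have : 0 ≤ Real.log X := Real.log_nonneg (by linarith)
      linarith
  -- small primes
  have hs : ∀ τ : ℝ, RR P (fun D => ‖LP 0 y D τ * Mo y m D t₀‖ ^ 2) ≤
      (R * (1 + |τ - t₀| * Real.log y) ^ ⌈|C₁|⌉₊) ^ 2 := by
    intro τ
    refine (h1 P y m τ t₀ X hX hz hyP hyX hm').trans ?_
    have hb : 1 ≤ 1 + |τ - t₀| * Real.log y := by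
      have : 0 ≤ |τ - t₀| * Real.log y := by positivity
      linarith
    rw [mul_pow, ← pow_mul]
    have e1 : (1 + |τ - t₀| * Real.log y) ^ C₁ ≤ (1 + |τ - t₀| * Real.log y) ^ (⌈|C₁|⌉₊ * 2) := by
      rw [← Real.rpow_natCast]
      refine Real.rpow_le_rpow_of_exponent_le hb ?_
      push_cast
      have := Nat.le_ceil |C₁|
      have := le_abs_self C₁
      have := abs_nonneg C₁
      linarith
    have e2 : C₁ ≤ R ^ 2 := by
      have := le_abs_self C₁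
      nlinarith
    calc C₁ * (1 + |τ - t₀| * Real.log y) ^ C₁ ≤ R ^ 2 * (1 + |τ - t₀| * Real.log y) ^ C₁ :=
          mul_le_mul_of_nonneg_right e2 (by positivity)
      _ ≤ _ := mul_le_mul_of_nonneg_left e1 (by positivity)
  -- split
  have hsplit : (fun D : ℤ => (LP 0 P D τ * (starRingEnd ℂ) (LP 0 P D τ')) *
      ((‖Mo y m D t₀‖ ^ 2 : ℝ) : ℂ)) =
      fun D : ℤ => ((LP 0 y D τ * (starRingEnd ℂ) (LP 0 y D τ')) * ((‖Mo y m D t₀‖ ^ 2 : ℝ) : ℂ)) *
        (LP y P D τ * (starRingEnd ℂ) (LP y P D τ')) := by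
    funext D
    rw [LP_split hyP, LP_split hyP, map_mul]
    ring
  rw [hsplit, RA_indep hyP
    (fun D => ((LP 0 y D τ * (starRingEnd ℂ) (LP 0 y D τ')) * ((‖Mo y m D t₀‖ ^ 2 : ℝ) : ℂ)))
    (fun D => (LP y P D τ * (starRingEnd ℂ) (LP y P D τ')))
    (fun D => by simp only [LP_period le_rfl, Mo_period le_rfl hz])
    (fun D => by simp only [LP_period']), norm_mul]
  have h3 : ‖RA P (fun D => ((LP 0 y D τ * (starRingEnd ℂ) (LP 0 y D τ')) *
      ((‖Mo y m D t₀‖ ^ 2 : ℝ) : ℂ)))‖ ≤ (R * (1 + |τ - t₀| * Real.log y) ^ ⌈|C₁|⌉₊) *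
        (R * (1 + |τ' - t₀| * Real.log y) ^ ⌈|C₁|⌉₊) := by
    refine RA_norm_le.trans ?_
    have e : (fun D : ℤ => ‖(LP 0 y D τ * (starRingEnd ℂ) (LP 0 y D τ')) *
        ((‖Mo y m D t₀‖ ^ 2 : ℝ) : ℂ)‖) =
        fun D : ℤ => ‖LP 0 y D τ * Mo y m D t₀‖ * ‖LP 0 y D τ' * Mo y m D t₀‖ := by
      funext D
      rw [norm_mul, norm_mul, norm_mul, norm_mul, RCLike.norm_conj, Complex.norm_real,
        Real.norm_of_nonneg (sq_nonneg _)]
      ring
    rw [e]
    exact RR_cs (by positivity) (by positivity) (hs τ) (hs τ')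
  have h4 : ‖RA P (fun D => (LP y P D τ * (starRingEnd ℂ) (LP y P D τ')))‖ ≤
      (1 + |C₂|) * ((2 + |τ|) ^ ⌈|C₂|⌉₊ * (2 + |τ'|) ^ ⌈|C₂|⌉₊) * rho y P (τ - τ') := by
    refine (h2 y P τ τ' (by omega) hyP).trans ?_
    refine mul_le_mul_of_nonneg_right ?_ (rho_nonneg _)
    have hb : 1 ≤ 2 + |τ| + |τ'| := by
      have := abs_nonneg τ
      have := abs_nonneg τ'
      linarith
    have e1 : (2 + |τ| + |τ'|) ^ C₂ ≤ (2 + |τ| + |τ'|) ^ ⌈|C₂|⌉₊ := by
      rw [← Real.rpow_natCast]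
      refine Real.rpow_le_rpow_of_exponent_le hb ?_
      exact (le_abs_self _).trans (Nat.le_ceil _)
    have e2 : (2 + |τ| + |τ'|) ^ ⌈|C₂|⌉₊ ≤ (2 + |τ|) ^ ⌈|C₂|⌉₊ * (2 + |τ'|) ^ ⌈|C₂|⌉₊ := by
      rw [← mul_pow]
      refine pow_le_pow_left₀ (by positivity) ?_ _
      nlinarith [abs_nonneg τ, abs_nonneg τ', mul_nonneg (abs_nonneg τ) (abs_nonneg τ')]
    have e3 : C₂ ≤ 1 + |C₂| := by linarith [le_abs_self C₂]
    calc C₂ * (2 + |τ| + |τ'|) ^ C₂ ≤ (1 + |C₂|) * (2 + |τ| + |τ'|) ^ C₂ :=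
          mul_le_mul_of_nonneg_right e3 (by positivity)
      _ ≤ _ := mul_le_mul_of_nonneg_left (e1.trans e2) (by positivity)
  have hrho := rho_nonneg (y := y) (P := P) (τ - τ')
  calc _ ≤ ((R * (1 + |τ - t₀| * Real.log y) ^ ⌈|C₁|⌉₊) *
        (R * (1 + |τ' - t₀| * Real.log y) ^ ⌈|C₁|⌉₊)) *
        ((1 + |C₂|) * ((2 + |τ|) ^ ⌈|C₂|⌉₊ * (2 + |τ'|) ^ ⌈|C₂|⌉₊) * rho y P (τ - τ')) := by
        refine mul_le_mul h3 h4 (norm_nonneg _) (by positivity)
    _ = _ := by ring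

lemma LL_ge {y P : ℕ} (hy : 3 ≤ y) (hP : y ≤ P) : 1 ≤ Real.log (Real.log P + 3) := by
  have h1 := log_ge hy
  have h2 := log_mono hy hP
  have h3 : Real.exp 1 ≤ Real.log P + 3 := by
    have := Real.exp_one_lt_d9
    linarith
  have := Real.log_le_log (Real.exp_pos 1) h3
  rwa [Real.log_exp] at this

lemma core2 : ∃ (C : ℝ) (N₁ N₂ : ℕ), 0 < C ∧ ∀ (P y m : ℕ) (t₀ X : ℝ), 3 ≤ X → z0 ≤ y → y ≤ P →
    (y : ℝ) ≤ X → C * Real.log (Real.log X + 3) ≤ m → ∀ (a : ℝ → ℂ) (g : ℝ → ℝ),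
    Integrable a → (∀ v, 0 ≤ g v) → Integrable g → Integrable (fun v => g v ^ 2) →
    (∀ τ, ‖a τ‖ * ((1 + |τ - t₀| * Real.log y) ^ N₁ * (2 + |τ|) ^ N₂) ≤ g τ) →
    RR P (fun D => ‖(∫ τ : ℝ, a τ * LP 0 P D τ) * Mo y m D t₀‖ ^ 2) ≤
      C * ((∫ v, g v) ^ 2 + (∫ v, g v ^ 2) * (Real.log (Real.log P + 3) / Real.log y)) := by
  obtain ⟨C, N₁, N₂, hC, h⟩ := RA_le
  obtain ⟨C₃, h3⟩ := rho_int
  refine ⟨C * (4 + 2 * |C₃|), N₁, N₂, by positivity,
    fun P y m t₀ X hX hz hyP hyX hm a g ha hg0 hg hg2 hag => ?_⟩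
  have hy3 : 3 ≤ y := le_trans (by norm_num [z0]) hz
  have hly := log_ge hy3
  have hLL := LL_ge hy3 hyP
  have hX0 : 0 ≤ Real.log (Real.log X + 3) := by
    have : 0 ≤ Real.log X := Real.log_nonneg (by linarith)
    exact Real.log_nonneg (by linarith)
  have hm' : C * Real.log (Real.log X + 3) ≤ m := by
    refine le_trans (mul_le_mul_of_nonneg_right ?_ hX0) hm
    nlinarith [abs_nonneg C₃]
  set s : ℝ → ℝ := Set.indicator (Set.Icc (-(1 / Real.log y)) (1 / Real.log y)) (rho y P) with hs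
  have hs0 : ∀ v, 0 ≤ s v := fun v => Set.indicator_nonneg (fun _ _ => rho_nonneg _) v
  have hsi : Integrable s := by
    rw [hs, integrable_indicator_iff measurableSet_Icc]
    exact (rho_cont y P).continuousOn.integrableOn_Icc
  have hse : ∀ v, s (-v) = s v := by
    intro v
    simp only [hs, Set.indicator, Set.mem_Icc, rho_even]
    congr 1
    apply propext
    constructor
    · rintro ⟨h1, h2⟩; exact ⟨by linarith, by linarith⟩
    · rintro ⟨h1, h2⟩; exact ⟨by linarith, by linarith⟩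
  have hr : ∀ v, rho y P v ≤ 4 + s v := by
    intro v
    by_cases hv : v ∈ Set.Icc (-(1 / Real.log y)) (1 / Real.log y)
    · simp only [hs, Set.indicator_of_mem hv]
      linarith
    · simp only [hs, Set.indicator_of_notMem hv, add_zero]
      refine rho_far hy3 hyP ?_
      by_contra hcon
      push Not at hcon
      apply hv
      have : |v| ≤ 1 / Real.log y := by
        rw [le_div_iff₀ (by linarith)]
        exact hcon.le
      exact abs_le.1 this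
  have hsv : ∫ v, s v ≤ 2 * |C₃| * (Real.log (Real.log P + 3) / Real.log y) := by
    rw [hs, integral_indicator measurableSet_Icc, integral_Icc_eq_integral_Ioc,
      ← intervalIntegral.integral_of_le (by
        have : 0 < 1 / Real.log y := by positivity
        linarith)]
    refine (h3 y P (1 / Real.log y) hy3 hyP (by positivity)).trans ?_
    have e1 : 1 / Real.log y + Real.log (Real.log P + 3) / Real.log y ≤
        2 * (Real.log (Real.log P + 3) / Real.log y) := by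
      rw [← add_div, mul_div_assoc']
      exact div_le_div_of_nonneg_right (by linarith) (by linarith)
    calc C₃ * (1 / Real.log y + Real.log (Real.log P + 3) / Real.log y) ≤
        |C₃| * (1 / Real.log y + Real.log (Real.log P + 3) / Real.log y) :=
          mul_le_mul_of_nonneg_right (le_abs_self _) (by positivity)
      _ ≤ |C₃| * (2 * (Real.log (Real.log P + 3) / Real.log y)) :=
          mul_le_mul_of_nonneg_left e1 (abs_nonneg _)
      _ = _ := by ring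
  have hF : ∀ p : ℝ × ℝ, ‖(a p.1 * (starRingEnd ℂ) (a p.2)) *
        RA P (fun D => (LP 0 P D p.1 * (starRingEnd ℂ) (LP 0 P D p.2)) *
          ((‖Mo y m D t₀‖ ^ 2 : ℝ) : ℂ))‖ ≤ C * (g p.1 * g p.2 * rho y P (p.1 - p.2)) := by
    intro p
    rw [norm_mul, norm_mul, RCLike.norm_conj]
    have h1 := h P y m p.1 p.2 t₀ X hX hz hyP hyX hm'
    calc _ ≤ ‖a p.1‖ * ‖a p.2‖ * (C * (((1 + |p.1 - t₀| * Real.log y) ^ N₁ * (2 + |p.1|) ^ N₂) *
        ((1 + |p.2 - t₀| * Real.log y) ^ N₁ * (2 + |p.2|) ^ N₂) * rho y P (p.1 - p.2))) :=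
          mul_le_mul_of_nonneg_left h1 (by positivity)
      _ = C * (((‖a p.1‖ * ((1 + |p.1 - t₀| * Real.log y) ^ N₁ * (2 + |p.1|) ^ N₂)) *
          (‖a p.2‖ * ((1 + |p.2 - t₀| * Real.log y) ^ N₁ * (2 + |p.2|) ^ N₂))) *
            rho y P (p.1 - p.2)) := by ring
      _ ≤ C * (g p.1 * g p.2 * rho y P (p.1 - p.2)) := by
          refine mul_le_mul_of_nonneg_left (mul_le_mul_of_nonneg_right ?_ (rho_nonneg _)) hC.le
          exact mul_le_mul (hag _) (hag _) (by positivity) (hg0 _)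
  have hmain := schur hg0 hg hg2 hs0 hsi hse hr hC.le hF
  rw [← square_out ha, Complex.norm_real, Real.norm_of_nonneg (RR_nonneg (fun D => sq_nonneg _))] at hmain
  refine hmain.trans ?_
  have hgg : 0 ≤ ∫ v, g v ^ 2 := integral_nonneg (fun v => sq_nonneg _)
  have h5 := mul_le_mul_of_nonneg_left hsv hgg
  have h6 : 0 ≤ (∫ v, g v) ^ 2 := sq_nonneg _
  have h7 : 0 ≤ (∫ v, g v ^ 2) * (Real.log (Real.log P + 3) / Real.log y) := by positivity
  rw [mul_assoc]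
  refine mul_le_mul_of_nonneg_left ?_ hC.le
  nlinarith [mul_nonneg (abs_nonneg C₃) h6]

lemma gint {A B : ℝ} (hA : 0 < A) (hAB : A ≤ B) (t₀ : ℝ) :
    Integrable (fun τ : ℝ => B / ((1 + B * |τ - t₀|) * (1 + A * |τ - t₀|) ^ 2)) ∧
    Integrable (fun τ : ℝ => (B / ((1 + B * |τ - t₀|) * (1 + A * |τ - t₀|) ^ 2)) ^ 2) ∧
    ∫ τ : ℝ, B / ((1 + B * |τ - t₀|) * (1 + A * |τ - t₀|) ^ 2) ≤ Real.pi * (B / A) ∧
    ∫ τ : ℝ, (B / ((1 + B * |τ - t₀|) * (1 + A * |τ - t₀|) ^ 2)) ^ 2 ≤ Real.pi * B := by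
  have hB : 0 < B := by linarith
  have hi : ∀ r : ℝ, 0 < r → Integrable (fun τ : ℝ => (1 + (r * (τ - t₀)) ^ 2)⁻¹) := fun r hr =>
    (integrable_inv_one_add_sq.comp_mul_left' hr.ne').comp_sub_right t₀
  have hv : ∀ r : ℝ, 0 < r → ∫ τ : ℝ, (1 + (r * (τ - t₀)) ^ 2)⁻¹ = Real.pi / r := by
    intro r hr
    rw [integral_sub_right_eq_self (fun τ : ℝ => (1 + (r * τ) ^ 2)⁻¹) t₀,
      Measure.integral_comp_mul_left (fun τ : ℝ => (1 + τ ^ 2)⁻¹) r, integral_univ_inv_one_add_sq,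
      abs_of_pos (inv_pos.2 hr), smul_eq_mul]
    field_simp
  have hc : Continuous (fun τ : ℝ => B / ((1 + B * |τ - t₀|) * (1 + A * |τ - t₀|) ^ 2)) := by
    refine Continuous.div (by fun_prop) (by fun_prop) (fun t => ?_)
    positivity
  have hle : ∀ (r w : ℝ), 0 < r → (1 + (r * w) ^ 2) ≤ (1 + r * |w|) ^ 2 := by
    intro r w hr
    have h1 : (1 + r * |w|) ^ 2 = 1 + (r * w) ^ 2 + 2 * (r * |w|) := by
      rw [mul_pow, ← sq_abs w]; ring
    rw [h1]
    have := mul_nonneg hr.le (abs_nonneg w)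
    linarith
  have h1 : ∀ τ : ℝ, B / ((1 + B * |τ - t₀|) * (1 + A * |τ - t₀|) ^ 2) ≤
      B * (1 + (A * (τ - t₀)) ^ 2)⁻¹ := by
    intro τ
    rw [← div_eq_mul_inv]
    refine div_le_div_of_nonneg_left hB.le (by positivity) ?_
    have h2 := hle A (τ - t₀) hA
    have h3 : 1 ≤ 1 + B * |τ - t₀| := by
      have : 0 ≤ B * |τ - t₀| := by positivity
      linarith
    calc _ ≤ 1 * (1 + A * |τ - t₀|) ^ 2 := by rw [one_mul]; exact h2
      _ ≤ _ := mul_le_mul_of_nonneg_right h3 (by positivity)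
  have h2 : ∀ τ : ℝ, (B / ((1 + B * |τ - t₀|) * (1 + A * |τ - t₀|) ^ 2)) ^ 2 ≤
      B ^ 2 * (1 + (B * (τ - t₀)) ^ 2)⁻¹ := by
    intro τ
    rw [← div_eq_mul_inv, div_pow]
    refine div_le_div_of_nonneg_left (by positivity) (by positivity) ?_
    have h2 := hle B (τ - t₀) hB
    have h3 : 1 ≤ ((1 + A * |τ - t₀|) ^ 2) ^ 2 := by
      have : 1 ≤ 1 + A * |τ - t₀| := by
        have : 0 ≤ A * |τ - t₀| := by positivity
        linarith
      exact one_le_pow₀ (one_le_pow₀ this)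
    calc _ ≤ (1 + B * |τ - t₀|) ^ 2 * 1 := by rw [mul_one]; exact h2
      _ ≤ (1 + B * |τ - t₀|) ^ 2 * ((1 + A * |τ - t₀|) ^ 2) ^ 2 :=
          mul_le_mul_of_nonneg_left h3 (by positivity)
      _ = _ := by ring
  have i1 : Integrable (fun τ : ℝ => B / ((1 + B * |τ - t₀|) * (1 + A * |τ - t₀|) ^ 2)) :=
    Integrable.mono' ((hi A hA).const_mul B) hc.aestronglyMeasurable
      (Filter.Eventually.of_forall (fun τ => by
        rw [Real.norm_of_nonneg (by positivity)]; exact h1 τ))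
  have i2 : Integrable (fun τ : ℝ => (B / ((1 + B * |τ - t₀|) * (1 + A * |τ - t₀|) ^ 2)) ^ 2) :=
    Integrable.mono' ((hi B hB).const_mul (B ^ 2)) (hc.pow 2).aestronglyMeasurable
      (Filter.Eventually.of_forall (fun τ => by
        rw [Real.norm_of_nonneg (by positivity)]; exact h2 τ))
  refine ⟨i1, i2, ?_, ?_⟩
  · refine (integral_mono i1 ((hi A hA).const_mul B) h1).trans (le_of_eq ?_)
    rw [integral_const_mul, hv A hA]
    ring
  · refine (integral_mono i2 ((hi B hB).const_mul (B ^ 2)) h2).trans (le_of_eq ?_)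
    rw [integral_const_mul, hv B hB]
    field_simp

lemma gamma_le : ∃ C : ℝ, 0 < C ∧ ∀ τ : ℝ, ‖Complex.Gamma (1 + τ * I)‖ ≤ C * Real.exp (-|τ|) := by
  refine ⟨Real.Gamma 1 * (1 / Real.cos 1) ^ (1 : ℝ), ?_, fun τ => ?_⟩
  · have : 0 < Real.cos 1 := Real.cos_one_pos
    rw [Real.Gamma_one]
    positivity
  · have := Pool.Agent.ZD.K1_norm_Gamma' (σ := 1) one_pos τ
    simpa using this

lemma pow_exp_le (N : ℕ) (τ : ℝ) : (2 + |τ|) ^ N * Real.exp (-|τ|) ≤ N.factorial * Real.exp 2 := by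
  have h1 : (2 + |τ|) ^ N ≤ N.factorial * Real.exp (2 + |τ|) := by
    have := Real.pow_div_factorial_le_exp (2 + |τ|) (by positivity) N
    rw [div_le_iff₀ (by positivity)] at this
    linarith
  calc _ ≤ (N.factorial * Real.exp (2 + |τ|)) * Real.exp (-|τ|) :=
        mul_le_mul_of_nonneg_right h1 (Real.exp_pos _).le
    _ = _ := by rw [mul_assoc, ← Real.exp_add]; congr 2; ring

lemma norm_two {y m : ℕ} {D : ℤ} {M t₀ r : ℝ} {Ψ : ℝ → ℂ} {Φ : ℂ} (hr : ‖FF D M Ψ - Φ‖ ≤ r) :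
    ‖FF D M Ψ * Mo y m D t₀‖ ^ 2 ≤ 2 * ‖Φ * Mo y m D t₀‖ ^ 2 +
      2 * r ^ 2 * (Real.exp (8 * Real.sqrt y) * ‖LP 0 y D t₀ * Mo y m D t₀‖ ^ 2) := by
  have hr0 : 0 ≤ r := (norm_nonneg _).trans hr
  have h1 : ‖FF D M Ψ * Mo y m D t₀‖ ≤ ‖Φ * Mo y m D t₀‖ + r * ‖Mo y m D t₀‖ := by
    have : FF D M Ψ * Mo y m D t₀ = Φ * Mo y m D t₀ + (FF D M Ψ - Φ) * Mo y m D t₀ := by ring
    rw [this]
    refine (norm_add_le _ _).trans ?_
    rw [norm_mul (FF D M Ψ - Φ)]
    exact add_le_add_right (mul_le_mul_of_nonneg_right hr (norm_nonneg _)) _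
  have h2 : ‖Mo y m D t₀‖ ≤ Real.exp (4 * Real.sqrt y) * ‖LP 0 y D t₀ * Mo y m D t₀‖ := by
    have e : Mo y m D t₀ = (LP 0 y D t₀)⁻¹ * (LP 0 y D t₀ * Mo y m D t₀) := by
      rw [← mul_assoc, inv_mul_cancel₀ (LP_ne 0 y D t₀), one_mul]
    calc ‖Mo y m D t₀‖ = ‖(LP 0 y D t₀)⁻¹‖ * ‖LP 0 y D t₀ * Mo y m D t₀‖ := by
          rw [← norm_mul, ← e]
      _ ≤ _ := mul_le_mul_of_nonneg_right (LP_inv_le y D t₀) (norm_nonneg _)
  have h3 : ‖Mo y m D t₀‖ ^ 2 ≤ Real.exp (8 * Real.sqrt y) * ‖LP 0 y D t₀ * Mo y m D t₀‖ ^ 2 := by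
    have := pow_le_pow_left₀ (norm_nonneg _) h2 2
    rw [mul_pow, ← Real.exp_nat_mul] at this
    have e : ((2 : ℕ) : ℝ) * (4 * Real.sqrt y) = 8 * Real.sqrt y := by push_cast; ring
    rwa [e] at this
  have h4 : ‖FF D M Ψ * Mo y m D t₀‖ ^ 2 ≤ 2 * ‖Φ * Mo y m D t₀‖ ^ 2 + 2 * (r * ‖Mo y m D t₀‖) ^ 2 := by
    have := pow_le_pow_left₀ (norm_nonneg _) h1 2
    nlinarith [sq_nonneg (‖Φ * Mo y m D t₀‖ - r * ‖Mo y m D t₀‖)]
  refine h4.trans ?_
  rw [mul_pow]
  have := mul_le_mul_of_nonneg_left h3 (by positivity : 0 ≤ 2 * r ^ 2)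
  linarith

end DIAG

open DIAG in
theorem DIAG : ∃ K₀ : ℕ, ∀ (K : ℕ) (T₀ : ℝ), K₀ ≤ K → ∃ C : ℝ,
    ∀ (X h t₀ M A B : ℝ) (P y m : ℕ), 3 ≤ X → 0 < h → |t₀| ≤ T₀ → X ≤ M → M ≤ 20 * X →
    1 ≤ A → A ≤ B → B ≤ Real.log X → h * A ≤ 1 → X ^ 3 ≤ P → (P : ℝ) ≤ X ^ 4 → z0 ≤ y →
    Real.log y ≤ A → C * Real.log (Real.log X + 3) ≤ m → ∀ Ψ : ℝ → ℂ,
    (Ψ = Psi K h t₀ A B ∨ Ψ = deriv (Psi K h t₀ A B)) →
    RR P (fun D => ‖FF D M Ψ * Mo y m D t₀‖ ^ 2) ≤
      C * (Real.log (Real.log X + 3)) ^ C * (B / A) ^ C * (1 + B / Real.log y) := by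
  obtain ⟨C₁, N₁, N₂, hC₁, hcore⟩ := core2
  obtain ⟨CG, hCG, hGam⟩ := gamma_le
  obtain ⟨C₄, hmel⟩ := FF_mellin
  obtain ⟨C₅, hrat⟩ := RAT_trunc
  refine ⟨N₁ + 6, fun K T₀ hK => ?_⟩
  obtain ⟨C₂, hhat⟩ := Psi_hat K (N₁ + 2) (by omega) T₀
  obtain ⟨C₃, hbd⟩ := Psi_bound (K := K) (by omega) T₀
  set G : ℝ := CG * |C₂| * (N₂.factorial * Real.exp 2) with hG
  have hG0 : 0 ≤ G := by positivity
  set E : ℝ := 2 * (C₄ * |C₃|) ^ 2 * (|C₅| * Real.exp 8) with hE
  have hE0 : 0 ≤ E := by positivity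
  have hpi := Real.pi_pos
  set Cs : ℝ := 2 + C₁ + |C₅| + 2 * C₁ * (G ^ 2 * Real.pi ^ 2 + 2 * (G ^ 2 * Real.pi)) + E with hCs
  have hmain0 : 0 ≤ 2 * C₁ * (G ^ 2 * Real.pi ^ 2 + 2 * (G ^ 2 * Real.pi)) := by positivity
  have hCs2 : 2 ≤ Cs := by rw [hCs]; linarith [abs_nonneg C₅]
  refine ⟨Cs, fun X h t₀ M A B P y m hX hh ht hM1 hM2 hA hAB hB hhA hP1 hP2 hz hly hm Ψ hΨ => ?_⟩
  have hy3 : 3 ≤ y := le_trans (by norm_num [z0]) hz
  have hly1 := log_ge hy3
  have hX0 : 0 < X := by linarith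
  have hX1 : 1 ≤ Real.log X := by linarith
  have hB0 : 0 < B := by linarith
  have hyX : (y : ℝ) ≤ X := by
    have hy0 : (0 : ℝ) < y := by
      have : 0 < y := by omega
      exact_mod_cast this
    exact (Real.log_le_log_iff hy0 hX0).1 (by linarith)
  have hyP : y ≤ P := by
    have : (y : ℝ) ≤ P := by
      refine hyX.trans (le_trans ?_ hP1)
      nlinarith [sq_nonneg X, pow_pos hX0 2]
    exact_mod_cast this
  set LL : ℝ := Real.log (Real.log X + 3) with hLL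
  have hLL1 : 1 ≤ LL := by
    have h3 : Real.exp 1 ≤ Real.log X + 3 := by
      have := Real.exp_one_lt_d9
      linarith
    have := Real.log_le_log (Real.exp_pos 1) h3
    rwa [Real.log_exp] at this
  have hm1 : C₁ * LL ≤ m := by
    refine le_trans (mul_le_mul_of_nonneg_right ?_ (by linarith)) hm
    rw [hCs]; linarith [abs_nonneg C₅]
  have hm5 : C₅ * LL ≤ m := by
    refine le_trans (mul_le_mul_of_nonneg_right ?_ (by linarith)) hm
    rw [hCs]; linarith [le_abs_self C₅]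
  -- the window
  have hK3 : 3 ≤ K := by omega
  have hcd := Psi_contDiff hK3 (h := h) (t₀ := t₀) (A := A) (B := B)
  have hΨc : Continuous Ψ := by
    rcases hΨ with rfl | rfl
    · exact hcd.continuous
    · exact hcd.continuous_deriv (by norm_num)
  have hΨs : HasCompactSupport Ψ := by
    have h1 := Psi_compact (K := K) (h := h) (t₀ := t₀) (A := A) (B := B) (by linarith) hAB
    rcases hΨ with rfl | rfl
    · exact h1
    · exact h1.deriv
  have hΨb : ∀ x, ‖Ψ x‖ ≤ |C₃| := by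
    intro x
    have h1 := hbd h t₀ A B x hh ht hA hAB hhA
    rcases hΨ with rfl | rfl
    · exact h1.1.trans (le_abs_self _)
    · exact h1.2.trans (le_abs_self _)
  have hΨz : ∀ x, (x ≤ 0 ∨ 2 * Real.log X ≤ x) → Ψ x = 0 := by
    intro x hx
    have h1 := Psi_support (K := K) (h := h) (t₀ := t₀) (A := A) (B := B) (x := x) (by linarith) hAB
      (by
        rcases hx with hx | hx
        · left; linarith
        · right; linarith)
    rcases hΨ with rfl | rfl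
    · exact h1.1
    · exact h1.2
  have hFT : ∀ τ : ℝ, ‖∫ x, Ψ x * exp (-(I * τ * x))‖ ≤
      |C₂| * (B / ((1 + B * |τ - t₀|) * (1 + A * |τ - t₀|) ^ (N₁ + 2))) := by
    intro τ
    have hw : 0 ≤ |τ - t₀| := abs_nonneg _
    refine (hhat h t₀ A B τ hh ht hA hAB hhA Ψ hΨ).trans ?_
    rw [mul_div_assoc]
    exact mul_le_mul_of_nonneg_right (le_abs_self _) (by positivity)
  have hpw : ∀ τ : ℝ, B / ((1 + B * |τ - t₀|) * (1 + A * |τ - t₀|) ^ (N₁ + 2)) ≤
      B / ((1 + B * |τ - t₀|) * (1 + A * |τ - t₀|) ^ 2) := by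
    intro τ
    have hw : 0 ≤ |τ - t₀| := abs_nonneg _
    refine div_le_div_of_nonneg_left (by linarith) (by positivity) ?_
    refine mul_le_mul_of_nonneg_left ?_ (by positivity)
    refine pow_le_pow_right₀ ?_ (by omega)
    have : 0 ≤ A * |τ - t₀| := by positivity
    linarith
  obtain ⟨i1, i2, v1, v2⟩ := gint (A := A) (B := B) (by linarith) hAB t₀
  have hFTc := FT_cont hΨc hΨs
  have hFTi : Integrable (fun τ : ℝ => ∫ x, Ψ x * exp (-(I * τ * x))) := by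
    refine Integrable.mono' (i1.const_mul |C₂|) hFTc.aestronglyMeasurable
      (Filter.Eventually.of_forall (fun τ => (hFT τ).trans ?_))
    exact mul_le_mul_of_nonneg_left (hpw τ) (abs_nonneg _)
  -- the coefficient function
  set a : ℝ → ℂ := fun τ => ((1 / (2 * Real.pi) : ℝ) : ℂ) * (Complex.Gamma (1 + τ * I) *
        (2 * Real.pi : ℂ) ^ (-(1 + (τ : ℂ) * I)) * (M : ℂ) ^ ((τ : ℂ) * I) *
        (∫ x, Ψ x * exp (-(I * τ * x)))) with ha
  have hM0 : 0 < M := by linarith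
  have hac : Continuous a := by
    rw [ha]
    refine continuous_const.mul (((gamma_cont.mul ?_).mul ?_).mul hFTc)
    · refine Continuous.const_cpow (by fun_prop) (Or.inl ?_)
      have : (2 * Real.pi : ℂ) = ((2 * Real.pi : ℝ) : ℂ) := by push_cast; ring
      rw [this]
      exact_mod_cast (by positivity : (2 * Real.pi : ℝ) ≠ 0)
    · exact Continuous.const_cpow (by fun_prop) (Or.inl (by exact_mod_cast hM0.ne'))
  have hanorm : ∀ τ : ℝ, ‖a τ‖ ≤ (CG * Real.exp (-|τ|)) *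
      (|C₂| * (B / ((1 + B * |τ - t₀|) * (1 + A * |τ - t₀|) ^ (N₁ + 2)))) := by
    intro τ
    rw [ha]
    simp only
    rw [norm_mul, norm_mul, norm_mul, norm_mul, Complex.norm_real]
    have e1 : ‖(2 * Real.pi : ℂ) ^ (-(1 + (τ : ℂ) * I))‖ ≤ 1 := by
      have : (2 * Real.pi : ℂ) = ((2 * Real.pi : ℝ) : ℂ) := by push_cast; ring
      rw [this, Complex.norm_cpow_eq_rpow_re_of_pos (by positivity)]
      simp only [Complex.neg_re, Complex.add_re, Complex.one_re, Complex.mul_re, Complex.ofReal_re,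
        Complex.I_re, mul_zero, Complex.ofReal_im, Complex.I_im, mul_one, sub_self, add_zero]
      rw [Real.rpow_neg_one]
      refine inv_le_one_of_one_le₀ ?_
      linarith [Real.pi_gt_three]
    have e2 : ‖(M : ℂ) ^ ((τ : ℂ) * I)‖ = 1 := by
      rw [Complex.norm_cpow_eq_rpow_re_of_pos hM0]
      simp
    have e3 : ‖(1 / (2 * Real.pi) : ℝ)‖ ≤ 1 := by
      rw [Real.norm_of_nonneg (by positivity), div_le_one (by positivity)]
      linarith [Real.pi_gt_three]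
    rw [e2, mul_one]
    calc ‖(1 / (2 * Real.pi) : ℝ)‖ * (‖Complex.Gamma (1 + τ * I)‖ *
          ‖(2 * Real.pi : ℂ) ^ (-(1 + (τ : ℂ) * I))‖ * ‖∫ x, Ψ x * exp (-(I * τ * x))‖)
        ≤ 1 * ((CG * Real.exp (-|τ|)) * 1 *
          (|C₂| * (B / ((1 + B * |τ - t₀|) * (1 + A * |τ - t₀|) ^ (N₁ + 2))))) := by
          refine mul_le_mul e3 ?_ (by positivity) zero_le_one
          refine mul_le_mul ?_ (hFT τ) (norm_nonneg _) (by positivity)
          exact mul_le_mul (hGam τ) e1 (norm_nonneg _) (by positivity)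
      _ = _ := by ring
  set g : ℝ → ℝ := fun τ => G * (B / ((1 + B * |τ - t₀|) * (1 + A * |τ - t₀|) ^ 2)) with hg
  have hag : ∀ τ, ‖a τ‖ * ((1 + |τ - t₀| * Real.log y) ^ N₁ * (2 + |τ|) ^ N₂) ≤ g τ := by
    intro τ
    have hw : 0 ≤ |τ - t₀| := abs_nonneg _
    have h1 : (1 + |τ - t₀| * Real.log y) ^ N₁ ≤ (1 + A * |τ - t₀|) ^ N₁ := by
      refine pow_le_pow_left₀ (by positivity) ?_ _
      nlinarith
    calc ‖a τ‖ * ((1 + |τ - t₀| * Real.log y) ^ N₁ * (2 + |τ|) ^ N₂) ≤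
        ((CG * Real.exp (-|τ|)) *
      (|C₂| * (B / ((1 + B * |τ - t₀|) * (1 + A * |τ - t₀|) ^ (N₁ + 2))))) *
          ((1 + A * |τ - t₀|) ^ N₁ * (2 + |τ|) ^ N₂) := by
          refine mul_le_mul (hanorm τ) ?_ (by positivity) (by positivity)
          exact mul_le_mul_of_nonneg_right h1 (by positivity)
      _ = (CG * |C₂| * ((2 + |τ|) ^ N₂ * Real.exp (-|τ|))) *
          (B / ((1 + B * |τ - t₀|) * (1 + A * |τ - t₀|) ^ 2)) := by
          rw [pow_add]
          field_simp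
      _ ≤ (CG * |C₂| * (N₂.factorial * Real.exp 2)) *
          (B / ((1 + B * |τ - t₀|) * (1 + A * |τ - t₀|) ^ 2)) := by
          refine mul_le_mul_of_nonneg_right ?_ (by positivity)
          exact mul_le_mul_of_nonneg_left (pow_exp_le N₂ τ) (by positivity)
      _ = g τ := by rw [hg, hG]
  have hg0 : ∀ v, 0 ≤ g v := fun v => by
    have hw : 0 ≤ |v - t₀| := abs_nonneg _
    rw [hg]; simp only; positivity
  have hgi : Integrable g := i1.const_mul G
  have hg2e : (fun v => g v ^ 2) = fun v => G ^ 2 * (B / ((1 + B * |v - t₀|) *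
      (1 + A * |v - t₀|) ^ 2)) ^ 2 := by
    funext v
    rw [hg]
    simp only
    rw [mul_pow]
  have hg2i : Integrable (fun v => g v ^ 2) := by
    rw [hg2e]
    exact i2.const_mul _
  have hai : Integrable a := by
    refine Integrable.mono' hgi hac.aestronglyMeasurable (Filter.Eventually.of_forall (fun τ => ?_))
    refine le_trans ?_ (hag τ)
    refine le_mul_of_one_le_right (norm_nonneg _) ?_
    have hw : 0 ≤ |τ - t₀| * Real.log y := by positivity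
    have h1 : 1 ≤ (1 + |τ - t₀| * Real.log y) ^ N₁ := one_le_pow₀ (by linarith)
    have h2 : 1 ≤ (2 + |τ|) ^ N₂ := one_le_pow₀ (by linarith [abs_nonneg τ])
    nlinarith
  have hmainb := hcore P y m t₀ X hX hz hyP hyX hm1 a g hai hg0 hgi hg2i hag
  -- comparison
  have hΦ : ∀ D : ℤ, ‖FF D M Ψ - ∫ τ : ℝ, a τ * LP 0 P D τ‖ ≤ |C₄| * |C₃| * Real.exp (-X) := by
    intro D
    have h1 := hmel P D X M |C₃| Ψ hX hM1 hM2 hP1 hΨc hΨb hΨz hFTi
    have e : ∫ τ : ℝ, a τ * LP 0 P D τ = ((1 / (2 * Real.pi) : ℝ) : ℂ) * ∫ τ : ℝ,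
        Complex.Gamma (1 + τ * I) *
        (2 * Real.pi : ℂ) ^ (-(1 + (τ : ℂ) * I)) * (M : ℂ) ^ ((τ : ℂ) * I) * LP 0 P D τ *
        (∫ x, Ψ x * exp (-(I * τ * x))) := by
      rw [← integral_const_mul]
      congr 1
      funext τ
      rw [ha]
      simp only
      ring
    rw [e]
    refine h1.trans ?_
    exact mul_le_mul_of_nonneg_right (mul_le_mul_of_nonneg_right (le_abs_self _) (abs_nonneg _))
      (Real.exp_pos _).le
  have hR : RR P (fun D => ‖FF D M Ψ * Mo y m D t₀‖ ^ 2) ≤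
      2 * RR P (fun D => ‖(∫ τ : ℝ, a τ * LP 0 P D τ) * Mo y m D t₀‖ ^ 2) +
      (2 * (|C₄| * |C₃| * Real.exp (-X)) ^ 2 * Real.exp (8 * Real.sqrt y)) *
        RR P (fun D => ‖LP 0 y D t₀ * Mo y m D t₀‖ ^ 2) := by
    rw [← RR_mul, ← RR_mul, ← RR_add]
    refine RR_mono (fun D => ?_)
    refine (norm_two (hΦ D)).trans (le_of_eq ?_)
    ring
  have hratb : RR P (fun D => ‖LP 0 y D t₀ * Mo y m D t₀‖ ^ 2) ≤ |C₅| := by
    refine (hrat P y m t₀ t₀ X hX hz hyP hyX hm5).trans ?_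
    simp [le_abs_self]
  have hexp : Real.exp (-X) ^ 2 * Real.exp (8 * Real.sqrt y) ≤ Real.exp 8 := by
    rw [← Real.exp_nat_mul, ← Real.exp_add]
    refine Real.exp_le_exp.2 ?_
    have h1 : Real.sqrt y ≤ Real.sqrt X := Real.sqrt_le_sqrt hyX
    have h2 : Real.sqrt X ^ 2 = X := Real.sq_sqrt hX0.le
    push_cast
    nlinarith [sq_nonneg (Real.sqrt X - 2)]
  have herr : (2 * (|C₄| * |C₃| * Real.exp (-X)) ^ 2 * Real.exp (8 * Real.sqrt y)) *
        RR P (fun D => ‖LP 0 y D t₀ * Mo y m D t₀‖ ^ 2) ≤ E := by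
    calc _ ≤ (2 * (|C₄| * |C₃| * Real.exp (-X)) ^ 2 * Real.exp (8 * Real.sqrt y)) * |C₅| :=
          mul_le_mul_of_nonneg_left hratb (by positivity)
      _ = 2 * (|C₄| * |C₃|) ^ 2 * |C₅| * (Real.exp (-X) ^ 2 * Real.exp (8 * Real.sqrt y)) := by ring
      _ ≤ 2 * (|C₄| * |C₃|) ^ 2 * |C₅| * Real.exp 8 := mul_le_mul_of_nonneg_left hexp (by positivity)
      _ = E := by
          rw [hE, mul_pow, mul_pow, sq_abs C₄]
          ring
  -- integrals of g
  have hBA : 1 ≤ B / A := by rw [le_div_iff₀ (by linarith)]; linarith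
  have hgI : ∫ v, g v ≤ G * (Real.pi * (B / A)) := by
    rw [hg, integral_const_mul]
    exact mul_le_mul_of_nonneg_left v1 hG0
  have hgI0 : 0 ≤ ∫ v, g v := integral_nonneg hg0
  have hgI2 : (∫ v, g v) ^ 2 ≤ G ^ 2 * Real.pi ^ 2 * (B / A) ^ 2 := by
    refine (pow_le_pow_left₀ hgI0 hgI 2).trans (le_of_eq ?_)
    ring
  have hgJ : ∫ v, g v ^ 2 ≤ G ^ 2 * (Real.pi * B) := by
    rw [hg2e, integral_const_mul]
    exact mul_le_mul_of_nonneg_left v2 (by positivity)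
  have hLLP : Real.log (Real.log P + 3) ≤ 2 * LL := by
    have hP0 : (0 : ℝ) < P := lt_of_lt_of_le (by positivity) hP1
    have h1 : Real.log P ≤ 4 * Real.log X := by
      have := Real.log_le_log hP0 hP2
      rwa [Real.log_pow] at this
    have hP3 : 0 ≤ Real.log P := Real.log_natCast_nonneg P
    have h2 : Real.log (Real.log P + 3) ≤ Real.log ((Real.log X + 3) * (Real.log X + 3)) := by
      refine Real.log_le_log (by linarith) ?_
      nlinarith
    rw [Real.log_mul (by linarith) (by linarith)] at h2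
    linarith
  set Q : ℝ := LL * (B / A) ^ 2 * (1 + B / Real.log y) with hQ
  have hBy : 0 ≤ B / Real.log y := by positivity
  have hBA2 : 1 ≤ (B / A) ^ 2 := one_le_pow₀ hBA
  have hq1 : (B / A) ^ 2 ≤ Q := by
    have h1 : 1 * (B / A) ^ 2 * 1 ≤ LL * (B / A) ^ 2 * (1 + B / Real.log y) := by
      refine mul_le_mul (mul_le_mul_of_nonneg_right hLL1 (by positivity)) (by linarith) zero_le_one
        (by positivity)
    linarith
  have hq2 : B * (LL / Real.log y) ≤ Q := by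
    have h1 : LL * 1 * (B / Real.log y) ≤ LL * (B / A) ^ 2 * (1 + B / Real.log y) := by
      refine mul_le_mul (mul_le_mul_of_nonneg_left hBA2 (by linarith)) (by linarith) hBy
        (by positivity)
    have e : B * (LL / Real.log y) = LL * 1 * (B / Real.log y) := by ring
    rw [e]
    exact h1
  have hq3 : 1 ≤ Q := hBA2.trans hq1
  have hmain2 : (∫ v, g v) ^ 2 + (∫ v, g v ^ 2) * (Real.log (Real.log P + 3) / Real.log y) ≤
      (G ^ 2 * Real.pi ^ 2 + 2 * (G ^ 2 * Real.pi)) * Q := by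
    have h1 : (∫ v, g v ^ 2) * (Real.log (Real.log P + 3) / Real.log y) ≤
        (G ^ 2 * (Real.pi * B)) * ((2 * LL) / Real.log y) := by
      refine mul_le_mul hgJ (div_le_div_of_nonneg_right hLLP (by linarith)) ?_ (by positivity)
      exact div_nonneg (by linarith [LL_ge hy3 hyP]) (by linarith)
    have e : (G ^ 2 * (Real.pi * B)) * ((2 * LL) / Real.log y) =
        2 * (G ^ 2 * Real.pi) * (B * (LL / Real.log y)) := by ring
    rw [e] at h1
    have h2 := mul_le_mul_of_nonneg_left hq2 (by positivity : 0 ≤ 2 * (G ^ 2 * Real.pi))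
    have h3 := mul_le_mul_of_nonneg_left hq1 (by positivity : 0 ≤ G ^ 2 * Real.pi ^ 2)
    linarith
  have htot : RR P (fun D => ‖FF D M Ψ * Mo y m D t₀‖ ^ 2) ≤ Cs * Q := by
    have h1 := mul_le_mul_of_nonneg_left hmain2 hC₁.le
    have h2 : E ≤ E * Q := le_mul_of_one_le_right hE0 hq3
    have h3 : 0 ≤ (2 + C₁ + |C₅|) * Q := by positivity
    have e : Cs * Q = (2 + C₁ + |C₅|) * Q +
        2 * (C₁ * ((G ^ 2 * Real.pi ^ 2 + 2 * (G ^ 2 * Real.pi)) * Q)) + E * Q := by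
      rw [hCs]; ring
    rw [e]
    linarith
  refine htot.trans ?_
  rw [hQ]
  have p1 : LL ≤ LL ^ Cs := by
    calc LL = LL ^ (1 : ℝ) := (Real.rpow_one _).symm
      _ ≤ LL ^ Cs := Real.rpow_le_rpow_of_exponent_le hLL1 (by linarith)
  have p2 : (B / A) ^ 2 ≤ (B / A) ^ Cs := by
    calc (B / A) ^ 2 = (B / A) ^ ((2 : ℕ) : ℝ) := (Real.rpow_natCast _ _).symm
      _ ≤ (B / A) ^ Cs := Real.rpow_le_rpow_of_exponent_le hBA (by push_cast; linarith)
  calc Cs * (LL * (B / A) ^ 2 * (1 + B / Real.log y)) ≤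
      Cs * (LL ^ Cs * (B / A) ^ Cs * (1 + B / Real.log y)) := by
        refine mul_le_mul_of_nonneg_left ?_ (by linarith)
        refine mul_le_mul_of_nonneg_right ?_ (by positivity)
        exact mul_le_mul p1 p2 (by positivity) (by positivity)
    _ = _ := by ring

end Pool.Agent.CZ
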