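import Mathlib
import Pool.Agent.CZ.Defs
import Pool.Agent.CZ.LocJet

/-!
# Critical zeros (MP_553913_nt), module DLO: local expectations of `ell_p e^{-i θ_p}`
-/

set_option autoImplicit false

open Complex Finset MeasureTheory

namespace Pool.Agent.CZ

open Pool.Agent.H5 (c bd)
open Pool.Agent.CZ.LocJet

namespace DLO

theorem small {p z : ℕ} (hz : z0 ≤ z) (hp : z < p) : (0 : ℝ) < 1 / Real.sqrt p ∧
    1 / Real.sqrt p ≤ 1 / 100 ∧ (1 / Real.sqrt p) ^ 2 = 1 / p := by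
  have h1 : (10000 : ℝ) ≤ p := by
    have h3 : 10000 ≤ p := by unfold z0 at hz; omega
    exact_mod_cast h3
  have h2 : (100 : ℝ) ≤ Real.sqrt p := by
    apply Real.le_sqrt_of_sq_le
    rw [show (100 : ℝ) ^ 2 = 10000 by norm_num]
    exact h1
  refine ⟨by positivity, one_div_le_one_div_of_le (by norm_num) h2, ?_⟩
  rw [div_pow, Real.sq_sqrt (by linarith), one_pow]

theorem const1 {r : ℝ} (h0 : 0 ≤ r) (h1 : r ≤ 1 / 100) :
    3 * (2 : ℝ) ^ 4 + 2 * 2 ^ 5 * r + 2 ^ 6 * r ^ 2 +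
        2 * 45 * (1 + 2 * r + 2 ^ 2 * r ^ 2 + 2 ^ 3 * r ^ 3) + 45 ^ 2 * r ^ 4 ≤ 150 := by
  have h2 : r ^ 2 ≤ (1 / 100) ^ 2 := by gcongr
  have h3 : r ^ 3 ≤ (1 / 100) ^ 3 := by gcongr
  have h4 : r ^ 4 ≤ (1 / 100) ^ 4 := by gcongr
  norm_num at h2 h3 h4 ⊢
  linarith

theorem const2 {r : ℝ} (h0 : 0 ≤ r) (h1 : r ≤ 1 / 100) :
    3 * (2 * 2 : ℝ) ^ 4 + 2 * (2 * 2) ^ 5 * r + (2 * 2) ^ 6 * r ^ 2 +
        2 * 150 * (1 + (2 * 2) * r + (2 * 2) ^ 2 * r ^ 2 + (2 * 2) ^ 3 * r ^ 3) +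
        150 ^ 2 * r ^ 4 ≤ 1200 := by
  have h2 : r ^ 2 ≤ (1 / 100) ^ 2 := by gcongr
  have h3 : r ^ 3 ≤ (1 / 100) ^ 3 := by gcongr
  have h4 : r ^ 4 ≤ (1 / 100) ^ 4 := by gcongr
  norm_num at h2 h3 h4 ⊢
  linarith

/-- the exponent of one factor of `e^{-iθ}` -/
noncomputable def se (p : ℕ) (t : ℝ) : ℂ := -(I * ((la p * (ww p t).im : ℝ) : ℂ))

theorem se_norm {p : ℕ} (hp : p.Prime) (t : ℝ) : ‖se p t‖ ≤ 2 * (1 / Real.sqrt p) := by
  unfold se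
  rw [norm_neg, norm_mul, Complex.norm_I, one_mul, Complex.norm_real, norm_mul,
    Real.norm_eq_abs, Real.norm_eq_abs]
  refine mul_le_mul (la_abs hp) ?_ (abs_nonneg _) (by norm_num)
  rw [← ww_norm hp.pos t]
  exact Complex.abs_im_le_norm _

theorem exp_theta (a b : ℕ) (D : ℤ) (t : ℝ) : exp (-(I * theta a b D t)) =
    ∏ p ∈ primesIoc a b, exp (((jacobiSym D p : ℤ) : ℂ) * se p t) := by
  rw [← Complex.exp_sum]
  congr 1
  unfold theta PSum se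
  rw [Complex.im_sum, Complex.ofReal_sum, Finset.mul_sum, ← Finset.sum_neg_distrib]
  refine Finset.sum_congr rfl fun p hp => ?_
  rw [bd_npow (SUMS_mem hp).2.2.1.pos]
  have : (((jacobiSym D p : ℤ) : ℂ) * ((la p : ℝ) : ℂ) * ww p t).im =
      (jacobiSym D p : ℝ) * (la p * (ww p t).im) := by
    rw [show ((jacobiSym D p : ℤ) : ℂ) * ((la p : ℝ) : ℂ) =
      (((jacobiSym D p : ℝ) * la p : ℝ) : ℂ) by push_cast; rfl, Complex.im_ofReal_mul]
    ring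
  rw [this]
  push_cast
  ring

/-- one factor `ell_p e^{-iθ_p}` as a function of the symbol -/
noncomputable def bf (p : ℕ) (t : ℝ) (χ : ℤ) : ℂ := ef p t χ * exp ((χ : ℂ) * se p t)

theorem bf_zero (p : ℕ) (t : ℝ) : bf p t 0 = 1 := by
  unfold bf
  rw [ef_zero]
  simp

theorem LP_theta (a b : ℕ) (D : ℤ) (t : ℝ) : LP a b D t * exp (-(I * theta a b D t)) =
    ∏ p ∈ primesIoc a b, bf p t (jacobiSym D p) := by
  rw [LP_eq, exp_theta, ← Finset.prod_mul_distrib]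
  rfl

theorem ww_im {p : ℕ} (hp : 0 < p) (t : ℝ) :
    (ww p t).im = -(Real.sin (t * Real.log p) / Real.sqrt p) := by
  rw [ww_eq hp, Complex.sub_im, Complex.ofReal_im, Complex.im_ofReal_mul, Complex.I_im]
  ring

/-- first coefficient: `λ cos u / √p` -/
theorem coef_one {p : ℕ} (hp : 0 < p) (t : ℝ) : ((la p : ℝ) : ℂ) * ww p t + se p t =
    ((la p * (Real.cos (t * Real.log p) / Real.sqrt p) : ℝ) : ℂ) := by
  unfold se
  rw [ww_im hp, ww_eq hp]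
  generalize Real.sin (t * Real.log p) / Real.sqrt p = S
  generalize Real.cos (t * Real.log p) / Real.sqrt p = C
  push_cast
  ring

theorem coef_alg (l S C q : ℝ) (hq : q ≠ 0) :
    (-(I * ((l * -(S / q) : ℝ) : ℂ))) ^ 2 / 2 +
      (l : ℂ) * (((C / q : ℝ) : ℂ) - ((S / q : ℝ) : ℂ) * I) * (-(I * ((l * -(S / q) : ℝ) : ℂ))) =
      ((l ^ 2 * S ^ 2 / (2 * q ^ 2) : ℝ) : ℂ) + I * ((l ^ 2 * S * C / q ^ 2 : ℝ) : ℂ) := by
  have hq' : (q : ℂ) ≠ 0 := by exact_mod_cast hq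
  push_cast
  field_simp
  ring_nf
  rw [I_sq]
  ring

/-- second coefficient -/
theorem coef_two {p : ℕ} (hp : 0 < p) (t : ℝ) :
    (((la p : ℝ) : ℂ) ^ 2 - 1) * ww p t ^ 2 + se p t ^ 2 / 2 + ((la p : ℝ) : ℂ) * ww p t * se p t =
      sloc p t := by
  obtain ⟨h1, h2⟩ := sqrt_facts hp
  have hcs := Real.sin_sq_add_cos_sq (t * Real.log p)
  have e3 : ((lam2 p - 1 : ℝ) : ℂ) = ((la p : ℝ) : ℂ) ^ 2 - 1 := by
    rw [← la_sq]; push_cast; rfl
  have e1 : lam2 p / 4 * (1 - (2 * Real.cos (t * Real.log p) ^ 2 - 1)) / p =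
      la p ^ 2 * Real.sin (t * Real.log p) ^ 2 / (2 * Real.sqrt p ^ 2) := by
    rw [← la_sq, Real.sq_sqrt (Nat.cast_nonneg p),
      show Real.sin (t * Real.log p) ^ 2 = 1 - Real.cos (t * Real.log p) ^ 2 by linarith]
    have : (p : ℝ) ≠ 0 := by exact_mod_cast hp.ne'
    field_simp
    ring
  have e2 : lam2 p * (2 * Real.sin (t * Real.log p) * Real.cos (t * Real.log p)) / 2 / p =
      la p ^ 2 * Real.sin (t * Real.log p) * Real.cos (t * Real.log p) / Real.sqrt p ^ 2 := by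
    rw [← la_sq, Real.sq_sqrt (Nat.cast_nonneg p)]
    ring
  have e4 := coef_alg (la p) (Real.sin (t * Real.log p)) (Real.cos (t * Real.log p)) (Real.sqrt p) h1.ne'
  have e5 : se p t ^ 2 / 2 + ((la p : ℝ) : ℂ) * ww p t * se p t =
      ((la p ^ 2 * Real.sin (t * Real.log p) ^ 2 / (2 * Real.sqrt p ^ 2) : ℝ) : ℂ) +
        I * ((la p ^ 2 * Real.sin (t * Real.log p) * Real.cos (t * Real.log p) /
          Real.sqrt p ^ 2 : ℝ) : ℂ) := by
    rw [← e4]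
    unfold se
    rw [ww_im hp, ww_eq hp]
  unfold sloc
  rw [ww_sq hp]
  rw [show (2 * t * Real.log p) = 2 * (t * Real.log p) by ring, Real.cos_two_mul, Real.sin_two_mul,
    e1, e2, e3]
  linear_combination e5

theorem jet_bf {p z : ℕ} (hz : z0 ≤ z) (hzp : z < p) (hp : p.Prime) (t : ℝ) :
    Jet (1 / Real.sqrt p) (2 * 2) 150 ((la p * (Real.cos (t * Real.log p) / Real.sqrt p) : ℝ) : ℂ)
      (sloc p t) (bf p t) := by
  obtain ⟨h0, h1, _⟩ := small hz hzp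
  have h3 : 3 ≤ p := by unfold z0 at hz; omega
  have hA := jet_ef hp h3 t
  have hB := jet_exp (r := 1 / Real.sqrt p) (se_norm hp t) (by linarith)
  have h := (hA.mul h0.le (by norm_num) (by norm_num) hB).mono (const1 h0.le h1)
  exact h.congr (coef_one hp.pos t) (coef_two hp.pos t) rfl rfl

/-- the mean of a product over large primes -/
theorem mean {z y P : ℕ} (hz : z0 ≤ z) (hyP : y ≤ P) (f : ℕ → ℤ → ℂ) (a₁ a₂ : ℕ → ℂ)
    (h0 : ∀ p, f p 0 = 1) (hf : ∀ p ∈ primesIoc z y,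
      Jet (1 / Real.sqrt p) 8 1200 (a₁ p) (a₂ p) (f p)) :
    ∃ Er : ℂ, ‖Er‖ ≤ 7225 / z ∧ RA P (fun D => ∏ p ∈ primesIoc z y, f p (jacobiSym D p)) =
      exp ((∑ p ∈ primesIoc z y, a₂ p) + Er) := by
  rw [RA_prod hyP]
  refine prod_exp hz _ _ ?_ ?_
  · intro p hp
    obtain ⟨h1, _, h3, _, _⟩ := SUMS_mem hp
    obtain ⟨a₃, _, h4, _⟩ := hf p hp
    rw [(small hz h1).2.2] at h4
    refine h4.trans (le_of_eq ?_)
    ring
  · intro p hp
    obtain ⟨h1, _, h3, _, _⟩ := SUMS_mem hp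
    refine ((hf p hp).avg (h0 p) h3.one_lt.le rfl).trans ?_
    gcongr
    norm_num

theorem weaken {r K A K' A' : ℝ} (h0 : 0 ≤ r) (hK : 0 ≤ K) (hKK : K ≤ K') (hA : A ≤ A') {a₁ a₂ : ℂ}
    {F : ℤ → ℂ} (h : Jet r K A a₁ a₂ F) : Jet r K' A' a₁ a₂ F := by
  obtain ⟨a₃, h1, h2, h3, h4, h5⟩ := h
  refine ⟨a₃, h1.trans (by gcongr), h2.trans (by gcongr), h3.trans (by gcongr),
    h4.trans (by gcongr), h5.trans (by gcongr)⟩

theorem jet_pair {p z : ℕ} (hz : z0 ≤ z) (hzp : z < p) {a₁ a₂ b₁ b₂ : ℂ} {F G : ℤ → ℂ}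
    (hF : Jet (1 / Real.sqrt p) (2 * 2) 150 a₁ a₂ F) (hG : Jet (1 / Real.sqrt p) (2 * 2) 150 b₁ b₂ G) :
    Jet (1 / Real.sqrt p) 8 1200 (a₁ + (starRingEnd ℂ) b₁)
      (a₂ + (starRingEnd ℂ) b₂ + a₁ * (starRingEnd ℂ) b₁)
      (fun χ => F χ * (starRingEnd ℂ) (G χ)) := by
  obtain ⟨h0, h1, _⟩ := small hz hzp
  have h := (hF.mul h0.le (by norm_num) (by norm_num) hG.conj).mono (const2 h0.le h1)
  exact weaken h0.le (by norm_num) (by norm_num) le_rfl h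

end DLO

open DLO

theorem e_B : ∃ C : ℝ, ∀ (z y P : ℕ) (t : ℝ), z0 ≤ z → z ≤ y → y ≤ P → ∃ E : ℂ, ‖E‖ ≤ C / z ∧
    RA P (fun D => LP z y D t * exp (-(I * theta z y D t))) =
      exp ((∑ p ∈ primesIoc z y, sloc p t) + E) := by
  refine ⟨7225, fun z y P t hz _ hyP => ?_⟩
  obtain ⟨Er, h1, h2⟩ := mean hz hyP (fun p => bf p t)
    (fun p => ((la p * (Real.cos (t * Real.log p) / Real.sqrt p) : ℝ) : ℂ)) (fun p => sloc p t)
    (fun p => bf_zero p t) (fun p hp => by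
      obtain ⟨h3, _, h4, _⟩ := SUMS_mem hp
      exact weaken (small hz h3).1.le (by norm_num) (by norm_num) (by norm_num) (jet_bf hz h3 h4 t))
  refine ⟨Er, h1, ?_⟩
  rw [← h2]
  congr 1
  funext D
  exact LP_theta z y D t

theorem K_B : ∃ C : ℝ, ∀ (z y P : ℕ) (t t' : ℝ), z0 ≤ z → z ≤ y → y ≤ P → ∃ E : ℂ, ‖E‖ ≤ C / z ∧
    RA P (fun D => LP z y D t * exp (-(I * theta z y D t)) *
      (starRingEnd ℂ) (LP z y D t' * exp (-(I * theta z y D t')))) =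
      exp ((∑ p ∈ primesIoc z y, (sloc p t + (starRingEnd ℂ) (sloc p t') +
        ((lam2 p / 2 * (Real.cos ((t - t') * Real.log p) + Real.cos ((t + t') * Real.log p)) / p : ℝ)
          : ℂ))) + E) := by
  refine ⟨7225, fun z y P t t' hz _ hyP => ?_⟩
  obtain ⟨Er, h1, h2⟩ := mean hz hyP (fun p χ => bf p t χ * (starRingEnd ℂ) (bf p t' χ))
    (fun p => ((la p * (Real.cos (t * Real.log p) / Real.sqrt p) : ℝ) : ℂ) +
      (starRingEnd ℂ) ((la p * (Real.cos (t' * Real.log p) / Real.sqrt p) : ℝ) : ℂ))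
    (fun p => sloc p t + (starRingEnd ℂ) (sloc p t') +
      ((la p * (Real.cos (t * Real.log p) / Real.sqrt p) : ℝ) : ℂ) *
      (starRingEnd ℂ) ((la p * (Real.cos (t' * Real.log p) / Real.sqrt p) : ℝ) : ℂ))
    (fun p => by rw [bf_zero, bf_zero]; simp) (fun p hp => by
      obtain ⟨h3, _, h4, _⟩ := SUMS_mem hp
      exact jet_pair hz h3 (jet_bf hz h3 h4 t) (jet_bf hz h3 h4 t'))
  refine ⟨Er, h1, ?_⟩
  have e : ∑ p ∈ primesIoc z y, (sloc p t + (starRingEnd ℂ) (sloc p t') +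
        ((lam2 p / 2 * (Real.cos ((t - t') * Real.log p) + Real.cos ((t + t') * Real.log p)) / p : ℝ)
          : ℂ)) = ∑ p ∈ primesIoc z y, (sloc p t + (starRingEnd ℂ) (sloc p t') +
      ((la p * (Real.cos (t * Real.log p) / Real.sqrt p) : ℝ) : ℂ) *
      (starRingEnd ℂ) ((la p * (Real.cos (t' * Real.log p) / Real.sqrt p) : ℝ) : ℂ)) := by
    refine Finset.sum_congr rfl fun p hp => ?_
    congr 1
    obtain ⟨_, _, h4, _⟩ := SUMS_mem hp
    obtain ⟨h5, h6⟩ := sqrt_facts h4.pos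
    rw [Complex.conj_ofReal, ← Complex.ofReal_mul]
    congr 1
    rw [← la_sq, sub_mul, add_mul, Real.cos_sub, Real.cos_add]
    have h7 : (p : ℝ) = Real.sqrt p * Real.sqrt p := h6.symm
    have h8 : ∀ a b : ℝ, a / p = b / (Real.sqrt p * Real.sqrt p) ↔ a / (p : ℝ) = b / p := by
      intro a b
      rw [h6]
    have h9 : la p * (Real.cos (t * Real.log p) / Real.sqrt p) *
        (la p * (Real.cos (t' * Real.log p) / Real.sqrt p)) =
        (la p ^ 2 * Real.cos (t * Real.log p) * Real.cos (t' * Real.log p)) /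
          (Real.sqrt p * Real.sqrt p) := by
      field_simp
    rw [h9, h8]
    ring
  rw [e, ← h2]
  congr 1
  funext D
  rw [LP_theta, LP_theta, map_prod, ← Finset.prod_mul_distrib]

theorem e_G : ∃ C : ℝ, ∀ (y P : ℕ) (t : ℝ), z0 ≤ y → y ≤ P → ∃ E : ℂ, ‖E‖ ≤ C / y ∧
    RA P (fun D => LP y P D t) =
      exp ((∑ p ∈ primesIoc y P, ((lam2 p - 1 : ℝ) : ℂ) * npow p (2 * t)) + E) := by
  refine ⟨7225, fun y P t hy _ => ?_⟩
  obtain ⟨Er, h1, h2⟩ := mean hy (le_refl P) (fun p => ef p t)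
    (fun p => ((la p : ℝ) : ℂ) * ww p t) (fun p => (((la p : ℝ) : ℂ) ^ 2 - 1) * ww p t ^ 2)
    (fun p => ef_zero p t) (fun p hp => by
      obtain ⟨h3, _, h4, _, h5⟩ := SUMS_mem hp
      exact weaken (small hy h3).1.le (by norm_num) (by norm_num) (by norm_num) (jet_ef h4 h5 t))
  refine ⟨Er, h1, ?_⟩
  have e : ∑ p ∈ primesIoc y P, ((lam2 p - 1 : ℝ) : ℂ) * npow p (2 * t) =
      ∑ p ∈ primesIoc y P, (((la p : ℝ) : ℂ) ^ 2 - 1) * ww p t ^ 2 := by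
    refine Finset.sum_congr rfl fun p hp => ?_
    rw [ww_sq (SUMS_mem hp).2.2.1.pos, ← la_sq]
    push_cast
    rfl
  rw [e, ← h2]
  congr 1
  funext D
  exact LP_eq y P D t

theorem K_G : ∃ C : ℝ, ∀ (y P : ℕ) (t t' : ℝ), z0 ≤ y → y ≤ P → ∃ E : ℂ, ‖E‖ ≤ C / y ∧
    RA P (fun D => LP y P D t * (starRingEnd ℂ) (LP y P D t')) =
      exp ((∑ p ∈ primesIoc y P, (((lam2 p - 1 : ℝ) : ℂ) * (npow p (2 * t) +
        (starRingEnd ℂ) (npow p (2 * t'))) + ((lam2 p : ℝ) : ℂ) * npow p (t - t'))) + E) := by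
  refine ⟨7225, fun y P t t' hy _ => ?_⟩
  obtain ⟨Er, h1, h2⟩ := mean hy (le_refl P) (fun p χ => ef p t χ * (starRingEnd ℂ) (ef p t' χ))
    (fun p => ((la p : ℝ) : ℂ) * ww p t + (starRingEnd ℂ) (((la p : ℝ) : ℂ) * ww p t'))
    (fun p => (((la p : ℝ) : ℂ) ^ 2 - 1) * ww p t ^ 2 +
      (starRingEnd ℂ) ((((la p : ℝ) : ℂ) ^ 2 - 1) * ww p t' ^ 2) +
      ((la p : ℝ) : ℂ) * ww p t * (starRingEnd ℂ) (((la p : ℝ) : ℂ) * ww p t'))
    (fun p => by rw [ef_zero, ef_zero]; simp) (fun p hp => by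
      obtain ⟨h3, _, h4, _, h5⟩ := SUMS_mem hp
      have hs := (small hy h3).1.le
      exact jet_pair hy h3 (weaken hs (by norm_num) (by norm_num) (by norm_num) (jet_ef h4 h5 t))
        (weaken hs (by norm_num) (by norm_num) (by norm_num) (jet_ef h4 h5 t')))
  refine ⟨Er, h1, ?_⟩
  have e : ∑ p ∈ primesIoc y P, (((lam2 p - 1 : ℝ) : ℂ) * (npow p (2 * t) +
        (starRingEnd ℂ) (npow p (2 * t'))) + ((lam2 p : ℝ) : ℂ) * npow p (t - t')) =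
      ∑ p ∈ primesIoc y P, ((((la p : ℝ) : ℂ) ^ 2 - 1) * ww p t ^ 2 +
      (starRingEnd ℂ) ((((la p : ℝ) : ℂ) ^ 2 - 1) * ww p t' ^ 2) +
      ((la p : ℝ) : ℂ) * ww p t * (starRingEnd ℂ) (((la p : ℝ) : ℂ) * ww p t')) := by
    refine Finset.sum_congr rfl fun p hp => ?_
    have hp0 := (SUMS_mem hp).2.2.1.pos
    have e1 : npow p (t - t') = ww p t * (starRingEnd ℂ) (ww p t') := by
      rw [ww_conj hp0, ww_mul hp0, sub_eq_add_neg]
    rw [e1, ← ww_sq hp0 t, ← ww_sq hp0 t', ← la_sq]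
    simp only [map_mul, map_sub, map_pow, Complex.conj_ofReal, map_one]
    push_cast
    ring
  rw [e, ← h2]
  congr 1
  funext D
  rw [LP_eq, LP_eq, map_prod, ← Finset.prod_mul_distrib]

end Pool.Agent.CZ
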