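import Mathlib
import Pool.Agent.CZ.Defs
import Pool.Agent.CZ.PS
import Pool.Agent.CZ.SUMS
import Pool.Agent.CZ.RM
import Pool.Agent.CZ.DLO

/-! Module DME: the mean of the exact integrand. -/

set_option autoImplicit false

open Complex Finset MeasureTheory

namespace Pool.Agent.CZ

open Pool.Agent.H5 (c bd)
open Pool.Agent.ZD (S Lf nu tau)

theorem DME_mem {a b p : ℕ} (h : p ∈ primesIoc a b) : p.Prime ∧ p ≠ 2 ∧ 3 ≤ p := by
  obtain ⟨_, _, h1, h2, h3⟩ := SUMS_mem h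
  exact ⟨h1, h2, h3⟩

theorem DME_LP_ne_zero (a b : ℕ) (D : ℤ) (t : ℝ) : LP a b D t ≠ 0 := by
  unfold LP
  rw [Finset.prod_ne_zero_iff]
  intro p hp
  obtain ⟨h1, h2, h3⟩ := DME_mem hp
  apply inv_ne_zero
  intro h0
  have h4 := ellInv_norm_ge (D := D) h1 h2 t
  rw [h0, norm_zero] at h4
  have h5 : (1 : ℝ) < Real.sqrt p := by
    rw [Real.lt_sqrt (by norm_num)]
    have : (3 : ℝ) ≤ p := by exact_mod_cast h3
    linarith
  have h6 : 1 / Real.sqrt p < 1 := by
    rw [div_lt_one (by linarith)]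
    exact h5
  have h7 : 0 < (1 - 1 / Real.sqrt p) ^ 2 := by
    have : 0 < 1 - 1 / Real.sqrt p := by linarith
    positivity
  linarith

theorem DME_npow_re {p : ℕ} (hp : 0 < p) (t : ℝ) :
    (npow p t).re = Real.cos (t * Real.log p) / p := by
  unfold npow
  have hp0 : (p : ℂ) ≠ 0 := by exact_mod_cast hp.ne'
  rw [Complex.cpow_def_of_ne_zero hp0]
  have h1 : Complex.log (p : ℂ) = ((Real.log p : ℝ) : ℂ) := by
    rw [Complex.natCast_log]
  rw [h1]
  have h2 : ((Real.log p : ℝ) : ℂ) * (-(1 + (t : ℂ) * I)) =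
      ((-Real.log p : ℝ) : ℂ) + ((-(t * Real.log p) : ℝ) : ℂ) * I := by
    push_cast
    ring
  rw [h2, Complex.exp_add, Complex.exp_mul_I, ← Complex.ofReal_exp, ← Complex.ofReal_cos,
    ← Complex.ofReal_sin]
  rw [Real.cos_neg, Real.exp_neg, Real.exp_log (by exact_mod_cast hp), Complex.re_ofReal_mul,
    Complex.add_re, Complex.ofReal_re, Complex.re_ofReal_mul, I_re, mul_zero, add_zero]
  ring

theorem DME_sloc_re {p : ℕ} (hp : 0 < p) (t : ℝ) :
    (sloc p t).re = lam2 p / p / 4 - (((lam2 p : ℝ) : ℂ) * npow p (2 * t)).re / 4 +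
      (((lam2 p : ℝ) : ℂ) * npow p (2 * t)).re - (npow p (2 * t)).re := by
  unfold sloc
  rw [Complex.add_re, Complex.add_re, Complex.ofReal_re, Complex.re_ofReal_mul,
    Complex.re_ofReal_mul, DME_npow_re hp]
  have h1 : (I * ((lam2 p * Real.sin (2 * t * Real.log p) / 2 / p : ℝ) : ℂ)).re = 0 := by
    rw [mul_comm, Complex.re_ofReal_mul, I_re, mul_zero]
  rw [h1]
  ring

/-- `EX` on the diagonal -/
theorem DME_EX (z₁ z y P : ℕ) (D : ℤ) (t : ℝ) :
    EX z₁ z y P D t t = (LP z y D t * exp (-(I * theta z y D t))) * LP y P D t := by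
  unfold EX
  rw [mul_inv_cancel₀ (DME_LP_ne_zero 0 z₁ D t)]
  ring

theorem DME_RA (z₁ : ℕ) {z y P : ℕ} (hyP : y ≤ P) (t : ℝ) :
    RA P (fun D => EX z₁ z y P D t t) =
      RA P (fun D => LP z y D t * exp (-(I * theta z y D t))) * RA P (fun D => LP y P D t) := by
  have h1 : (fun D : ℤ => EX z₁ z y P D t t) =
      fun D => (LP z y D t * exp (-(I * theta z y D t))) * LP y P D t := by
    funext D
    exact DME_EX z₁ z y P D t
  rw [h1]
  apply RA_indep hyP
  · intro D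
    rw [LP_period le_rfl]
    unfold theta
    rw [PSum_period le_rfl]
  · intro D
    exact LP_period' y P D t

theorem DME_rho0 {z y : ℕ} (hz : 3 ≤ z) (hzy : z ≤ y) :
    Real.log (Real.log y / Real.log z) - Real.log 2 ≤ Real.log (rho z y 0) ∧
      Real.log (rho z y 0) ≤ Real.log (Real.log y / Real.log z) + Real.log 2 := by
  have hlz : 1 ≤ Real.log z := SUMS_logp hz
  have hly : Real.log z ≤ Real.log y := by
    apply Real.log_le_log
    · exact_mod_cast (by omega : 0 < z)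
    · exact_mod_cast hzy
  have hly1 : 1 ≤ Real.log y := hlz.trans hly
  have hr : rho z y 0 = (1 + Real.log y) / (1 + Real.log z) := by
    unfold rho
    simp
  have hq : 0 < Real.log y / Real.log z := by positivity
  rw [hr, ← Real.log_div hq.ne' (by norm_num), ← Real.log_mul hq.ne' (by norm_num)]
  constructor
  · apply Real.log_le_log (by positivity)
    rw [div_div, div_le_div_iff₀ (by positivity) (by positivity)]
    nlinarith
  · apply Real.log_le_log (by positivity)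
    rw [div_mul_eq_mul_div, div_le_div_iff₀ (by positivity) (by positivity)]
    nlinarith

theorem D_mean (T₁ T₂ : ℝ) (hT : 0 < T₁) : ∃ c₀ C : ℝ, 0 < c₀ ∧ ∀ (t₀ : ℝ) (z₁ z y P : ℕ),
    T₁ ≤ t₀ → t₀ ≤ T₂ → z0 ≤ z₁ → z₁ ≤ z → z ≤ y → y ≤ P →
    c₀ * (Real.log y / Real.log z) ^ (1 / 4 : ℝ) ≤ ‖RA P (fun D => EX z₁ z y P D t₀ t₀)‖ ∧
    ‖RA P (fun D => EX z₁ z y P D t₀ t₀)‖ ≤ C * (Real.log y / Real.log z) ^ (1 / 4 : ℝ) := by
  obtain ⟨C₁, h₁⟩ := e_B
  obtain ⟨C₂, h₂⟩ := e_G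
  obtain ⟨C₃, h₃⟩ := PS2
  obtain ⟨C₄, h₄⟩ := PS3 (2 * T₁) (2 * T₂) (by positivity)
  set K : ℝ := |C₁| + |C₂| + |C₃| * (1 + Real.log 2) + 5 * |C₄| + Real.log 2 with hK
  refine ⟨Real.exp (-K), Real.exp K, Real.exp_pos _, ?_⟩
  intro t z₁ z y P ht1 ht2 hz1 hz hzy hyP
  have hz0 : z0 ≤ z := hz1.trans hz
  have hy0 : z0 ≤ y := hz0.trans hzy
  have hz3 : 3 ≤ z := by unfold z0 at hz0; omega
  have hy3 : 3 ≤ y := hz3.trans hzy
  obtain ⟨E₁, hE₁, e₁⟩ := h₁ z y P t hz0 hzy hyP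
  obtain ⟨E₂, hE₂, e₂⟩ := h₂ y P t hy0 hyP
  rw [DME_RA z₁ hyP t, e₁, e₂, ← Complex.exp_add, Complex.norm_exp]
  have hE₁' : |E₁.re| ≤ |C₁| := by
    refine (Complex.abs_re_le_norm E₁).trans (hE₁.trans ?_)
    have h5 : (1 : ℝ) ≤ z := by exact_mod_cast (by omega : 1 ≤ z)
    rw [div_le_iff₀ (by linarith)]
    have h6 : C₁ ≤ |C₁| := le_abs_self _
    have h7 : 0 ≤ |C₁| := abs_nonneg _
    nlinarith
  have hE₂' : |E₂.re| ≤ |C₂| := by
    refine (Complex.abs_re_le_norm E₂).trans (hE₂.trans ?_)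
    have h5 : (1 : ℝ) ≤ y := by exact_mod_cast (by omega : 1 ≤ y)
    rw [div_le_iff₀ (by linarith)]
    have h6 : C₂ ≤ |C₂| := le_abs_self _
    have h7 : 0 ≤ |C₂| := abs_nonneg _
    nlinarith
  set A : ℝ := ∑ p ∈ primesIoc z y, lam2 p / p with hA
  set B : ℂ := ∑ p ∈ primesIoc z y, ((lam2 p : ℝ) : ℂ) * npow p (2 * t) with hB
  set N : ℂ := ∑ p ∈ primesIoc z y, npow p (2 * t) with hN
  set B' : ℂ := ∑ p ∈ primesIoc y P, ((lam2 p : ℝ) : ℂ) * npow p (2 * t) with hB'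
  set N' : ℂ := ∑ p ∈ primesIoc y P, npow p (2 * t) with hN'
  have hs1 : (∑ p ∈ primesIoc z y, sloc p t).re = A / 4 - B.re / 4 + B.re - N.re := by
    rw [Complex.re_sum, hA, hB, hN, Complex.re_sum, Complex.re_sum, Finset.sum_div, Finset.sum_div,
      ← Finset.sum_sub_distrib, ← Finset.sum_add_distrib, ← Finset.sum_sub_distrib]
    apply Finset.sum_congr rfl
    intro p hp
    exact DME_sloc_re (DME_mem hp).1.pos t
  have hs2 : (∑ p ∈ primesIoc y P, ((lam2 p - 1 : ℝ) : ℂ) * npow p (2 * t)) = B' - N' := by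
    rw [hB', hN', ← Finset.sum_sub_distrib]
    apply Finset.sum_congr rfl
    intro p _
    push_cast
    ring
  obtain ⟨hN1, hB1⟩ := h₄ z y (2 * t) (by omega) hzy (by linarith) (by linarith)
  obtain ⟨hN2, hB2⟩ := h₄ y P (2 * t) (by omega) hyP (by linarith) (by linarith)
  have hC4 : C₄ ≤ |C₄| := le_abs_self _
  have hBr : |B.re| ≤ |C₄| := (Complex.abs_re_le_norm B).trans (hB1.trans hC4)
  have hNr : |N.re| ≤ |C₄| := (Complex.abs_re_le_norm N).trans (hN1.trans hC4)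
  have hBr' : |B'.re| ≤ |C₄| := (Complex.abs_re_le_norm B').trans (hB2.trans hC4)
  have hNr' : |N'.re| ≤ |C₄| := (Complex.abs_re_le_norm N').trans (hN2.trans hC4)
  have hA1 : |A - Real.log (rho z y 0)| ≤ |C₃| * (1 + Real.log 2) := by
    have h5 := h₃ z y 0 (by omega) hzy
    simp only [zero_mul, Real.cos_zero, mul_one, abs_zero, add_zero] at h5
    refine h5.trans ?_
    have h6 : 0 ≤ 1 + Real.log 2 := by
      have := Real.log_nonneg (x := 2) (by norm_num)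
      linarith
    exact mul_le_mul_of_nonneg_right (le_abs_self _) h6
  obtain ⟨hr1, hr2⟩ := DME_rho0 hz3 hzy
  have hq : 0 < Real.log y / Real.log z := by
    have h5 : 1 ≤ Real.log z := SUMS_logp hz3
    have h6 : 1 ≤ Real.log y := SUMS_logp hy3
    positivity
  have hpow : (Real.log y / Real.log z) ^ (1 / 4 : ℝ) =
      Real.exp (Real.log (Real.log y / Real.log z) / 4) := by
    rw [Real.rpow_def_of_pos hq]
    congr 1
    ring
  rw [hpow, ← Real.exp_add, ← Real.exp_add, Complex.add_re, Complex.add_re, Complex.add_re, hs1,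
    hs2, Complex.sub_re]
  rw [abs_le] at hE₁' hE₂' hBr hNr hBr' hNr' hA1
  have hlog2 : 0 ≤ Real.log 2 := Real.log_nonneg (by norm_num)
  have hC30 : 0 ≤ |C₃| * (1 + Real.log 2) := by positivity
  have hC40 : 0 ≤ |C₄| := abs_nonneg _
  constructor
  · apply Real.exp_le_exp.2
    rw [hK]
    linarith
  · apply Real.exp_le_exp.2
    rw [hK]
    linarith

end Pool.Agent.CZ
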