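import Mathlib
import Pool.Agent.CZ.Defs
import Pool.Agent.CZ.InpCHB
import Pool.Agent.CZ.PS

/-!
# Critical zeros (MP_553913_nt): mean square of prime sums
-/

set_option autoImplicit false

open Complex Finset MeasureTheory

namespace Pool.Agent.CZ

open Pool.Agent.CZ.Inp (chb_block)

theorem DMS_split {a b : ℂ} (ha : a.re < 0) (hb : 0 < b.re) (f : ℝ → ℂ)
    (h1 : ∀ x ∈ Set.Ioi (0 : ℝ), f x = exp (a * x)) (h2 : ∀ x ∈ Set.Iic (0 : ℝ), f x = exp (b * x)) :
    Integrable f ∧ ∫ x, f x = -1 / a + 1 / b := by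
  have i1 : IntegrableOn f (Set.Ioi 0) :=
    (integrableOn_exp_mul_complex_Ioi ha 0).congr_fun (fun x hx => (h1 x hx).symm)
      measurableSet_Ioi
  have i2 : IntegrableOn f (Set.Iic 0) :=
    (integrableOn_exp_mul_complex_Iic hb 0).congr_fun (fun x hx => (h2 x hx).symm)
      measurableSet_Iic
  have i3 : Integrable f := by
    have := i2.union i1
    rwa [Set.Iic_union_Ioi, integrableOn_univ] at this
  refine ⟨i3, ?_⟩
  rw [← intervalIntegral.integral_Iic_add_Ioi i2 i1, setIntegral_congr_fun measurableSet_Iic h2,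
    setIntegral_congr_fun measurableSet_Ioi h1, integral_exp_mul_complex_Ioi ha,
    integral_exp_mul_complex_Iic hb]
  simp only [ofReal_zero, mul_zero, exp_zero]
  ring

open scoped FourierTransform in
theorem DMS_fourier_exp (v : ℝ) :
    𝓕 (fun x : ℝ => ((Real.exp (-|x|) : ℝ) : ℂ)) v =
      2 * (((1 + (2 * Real.pi * v) ^ 2)⁻¹ : ℝ) : ℂ) := by
  rw [Real.fourier_real_eq_integral_exp_smul]
  have ha : (-1 - 2 * Real.pi * v * I : ℂ).re < 0 := by simp
  have hb : 0 < (1 - 2 * Real.pi * v * I : ℂ).re := by simp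
  have h := (DMS_split ha hb
    (fun x : ℝ => exp (((-2 * Real.pi * x * v : ℝ) : ℂ) * I) • ((Real.exp (-|x|) : ℝ) : ℂ)) ?_ ?_).2
  · rw [h]
    have hw : (1 + (2 * Real.pi * v) ^ 2 : ℝ) ≠ 0 := by positivity
    have hwc : (1 + (2 * (Real.pi : ℂ) * v) ^ 2 : ℂ) ≠ 0 := by exact_mod_cast hw
    have hne1 : (-1 - 2 * Real.pi * v * I : ℂ) ≠ 0 := fun h0 => by rw [h0] at ha; simp at ha
    have hne2 : (1 - 2 * Real.pi * v * I : ℂ) ≠ 0 := fun h0 => by rw [h0] at hb; simp at hb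
    have hprod : (-1 - 2 * Real.pi * v * I : ℂ) * (1 - 2 * Real.pi * v * I) =
        -(1 + (2 * (Real.pi : ℂ) * v) ^ 2) := by
      ring_nf
      rw [I_sq]
      ring
    rw [div_add_div _ _ hne1 hne2, hprod, div_eq_iff (neg_ne_zero.2 hwc)]
    push_cast
    have h2 : (1 + (2 * (Real.pi : ℂ) * v) ^ 2)⁻¹ * (1 + (2 * (Real.pi : ℂ) * v) ^ 2) = 1 :=
      inv_mul_cancel₀ hwc
    linear_combination 2 * h2
  · intro x hx
    have hx0 : 0 < x := hx
    simp only [smul_eq_mul]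
    rw [abs_of_pos hx0, ofReal_exp, ← exp_add]
    congr 1
    push_cast
    ring
  · intro x hx
    have hx0 : x ≤ 0 := hx
    simp only [smul_eq_mul]
    rw [abs_of_nonpos hx0, ofReal_exp, ← exp_add]
    congr 1
    push_cast
    ring

theorem DMS_int_w : Integrable (fun v : ℝ => (1 + v ^ 2)⁻¹) := integrable_inv_one_add_sq

open scoped FourierTransform in
theorem DMS_kernel (y : ℝ) :
    ∫ v : ℝ, exp (I * v * y) * (((1 + v ^ 2)⁻¹ : ℝ) : ℂ) = Real.pi * Real.exp (-|y|) := by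
  set f : ℝ → ℂ := fun x : ℝ => ((Real.exp (-|x|) : ℝ) : ℂ) with hf
  have hcont : Continuous f := by
    simp only [hf]
    fun_prop
  have hint : Integrable f := by
    refine (DMS_split (a := -1) (b := 1) (by simp) (by simp) f ?_ ?_).1
    · intro x hx
      have hx0 : 0 < x := hx
      simp only [hf]
      rw [abs_of_pos hx0, ofReal_exp]
      congr 1
      push_cast
      ring
    · intro x hx
      have hx0 : x ≤ 0 := hx
      simp only [hf]
      rw [abs_of_nonpos hx0, ofReal_exp]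
      congr 1
      push_cast
      ring
  have hF : 𝓕 f = fun v : ℝ => 2 * (((1 + (2 * Real.pi * v) ^ 2)⁻¹ : ℝ) : ℂ) :=
    funext DMS_fourier_exp
  have h2pi : (2 * Real.pi : ℝ) ≠ 0 := by positivity
  have hint' : Integrable (𝓕 f) := by
    rw [hF]
    have h1 := (DMS_int_w.comp_mul_left' h2pi).ofReal (𝕜 := ℂ)
    exact h1.const_mul 2
  have hinv := congrFun (hcont.fourierInv_fourier_eq hint hint') y
  rw [Real.fourierInv_eq_fourier_neg, Real.fourier_real_eq_integral_exp_smul, hF] at hinv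
  have hcv := Measure.integral_comp_mul_left
    (fun u : ℝ => exp (I * u * y) * (2 * (((1 + u ^ 2)⁻¹ : ℝ) : ℂ))) (2 * Real.pi)
  have h3 : ∫ v : ℝ, exp (((-2 * Real.pi * v * -y : ℝ) : ℂ) * I) •
      (2 * (((1 + (2 * Real.pi * v) ^ 2)⁻¹ : ℝ) : ℂ)) =
      ∫ v : ℝ, (fun u : ℝ => exp (I * u * y) * (2 * (((1 + u ^ 2)⁻¹ : ℝ) : ℂ)))
        (2 * Real.pi * v) := by
    refine integral_congr_ae (Filter.Eventually.of_forall fun v => ?_)
    simp only [smul_eq_mul]
    congr 2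
    push_cast
    ring
  rw [h3, hcv] at hinv
  have h4 : ∫ u : ℝ, exp (I * u * y) * (2 * (((1 + u ^ 2)⁻¹ : ℝ) : ℂ)) =
      2 * ∫ u : ℝ, exp (I * u * y) * (((1 + u ^ 2)⁻¹ : ℝ) : ℂ) := by
    rw [← integral_const_mul]
    refine integral_congr_ae (Filter.Eventually.of_forall fun v => ?_)
    simp only
    ring
  rw [h4] at hinv
  have h5 : |(2 * Real.pi)⁻¹| = (2 * Real.pi)⁻¹ := abs_of_pos (by positivity)
  rw [h5, real_smul] at hinv
  have hpi : (Real.pi : ℂ) ≠ 0 := by exact_mod_cast Real.pi_ne_zero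
  simp only [hf] at hinv
  rw [← hinv]
  generalize (∫ u : ℝ, exp (I * u * y) * (((1 + u ^ 2)⁻¹ : ℝ) : ℂ)) = z
  push_cast
  field_simp

theorem DMS_w_int {H : ℝ} (hH : 0 < H) (v₀ : ℝ) :
    Integrable (fun v : ℝ => (1 + ((v - v₀) / H) ^ 2)⁻¹) := by
  have h1 := (DMS_int_w.comp_div hH.ne').comp_sub_right v₀
  exact h1

theorem DMS_kernel_norm {H : ℝ} (hH : 0 < H) (v₀ y : ℝ) :
    ‖∫ v : ℝ, exp (I * v * y) * (((1 + ((v - v₀) / H) ^ 2)⁻¹ : ℝ) : ℂ)‖ =
      Real.pi * H * Real.exp (-(H * |y|)) := by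
  set G : ℝ → ℂ := fun u => exp (I * v₀ * y) *
    (exp (I * u * (H * y : ℝ)) * (((1 + u ^ 2)⁻¹ : ℝ) : ℂ)) with hG
  have h1 : ∫ v : ℝ, exp (I * v * y) * (((1 + ((v - v₀) / H) ^ 2)⁻¹ : ℝ) : ℂ) =
      ∫ v : ℝ, (fun v => G (v / H)) (v - v₀) := by
    refine integral_congr_ae (Filter.Eventually.of_forall fun v => ?_)
    simp only [hG]
    rw [← mul_assoc, ← exp_add]
    congr 2
    have hHc : (H : ℂ) ≠ 0 := by exact_mod_cast hH.ne'
    push_cast
    field_simp
    ring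
  rw [h1, integral_sub_right_eq_self (fun v => G (v / H)) v₀, Measure.integral_comp_div, hG,
    integral_const_mul, DMS_kernel, norm_smul, norm_mul, norm_mul]
  have h2 : ‖exp (I * v₀ * y)‖ = 1 := by
    rw [show (I * v₀ * y : ℂ) = ((v₀ * y : ℝ) : ℂ) * I by push_cast; ring, norm_exp_ofReal_mul_I]
  rw [h2, one_mul, norm_real, norm_real, Real.norm_eq_abs, Real.norm_eq_abs, Real.norm_eq_abs,
    abs_abs, abs_of_pos hH, abs_of_pos Real.pi_pos, abs_of_pos (Real.exp_pos _), abs_mul,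
    abs_of_pos hH]
  ring

theorem DMS_npow {n : ℕ} (hn : 0 < n) (t : ℝ) :
    npow n t = ((1 / n : ℝ) : ℂ) * exp (-(I * t * Real.log n)) := by
  have hn0 : (n : ℂ) ≠ 0 := by exact_mod_cast hn.ne'
  unfold npow
  rw [cpow_def_of_ne_zero hn0, ← natCast_log]
  rw [show (Real.log n : ℂ) * -(1 + (t : ℂ) * I) = -(Real.log n : ℂ) + -(I * t * Real.log n) by ring,
    exp_add]
  congr 1
  rw [← ofReal_neg, ← ofReal_exp, Real.exp_neg, Real.exp_log (by exact_mod_cast hn)]
  simp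

theorem DMS_npow_mul {m n : ℕ} (hm : 0 < m) (hn : 0 < n) (t : ℝ) :
    npow m t * (starRingEnd ℂ) (npow n t) =
      ((1 / (m * n) : ℝ) : ℂ) * exp (I * t * ((Real.log n - Real.log m : ℝ) : ℂ)) := by
  rw [DMS_npow hm, DMS_npow hn, map_mul, conj_ofReal, ← exp_conj]
  have h1 : (starRingEnd ℂ) (-(I * t * Real.log n)) = I * t * Real.log n := by
    simp only [map_neg, map_mul, conj_I, conj_ofReal]
    ring
  rw [h1, mul_mul_mul_comm, ← exp_add]
  congr 1
  · push_cast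
    field_simp
  · congr 1
    push_cast
    ring

theorem DMS_core (P : Finset ℕ) (hP : ∀ p ∈ P, 0 < p) (f : ℕ → ℂ) {F : ℝ} (hF : ∀ p ∈ P, ‖f p‖ ≤ F)
    {H : ℝ} (hH : 0 < H) (v₀ : ℝ) :
    Integrable (fun v : ℝ => ‖∑ p ∈ P, f p * npow p v‖ ^ 2 * (1 + ((v - v₀) / H) ^ 2)⁻¹) ∧
    ∫ v : ℝ, ‖∑ p ∈ P, f p * npow p v‖ ^ 2 * (1 + ((v - v₀) / H) ^ 2)⁻¹ ≤
      ∑ p ∈ P, ∑ q ∈ P, F ^ 2 * (1 / (p * q) : ℝ) *
        (Real.pi * H * Real.exp (-(H * |Real.log q - Real.log p|))) := by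
  have hterm : ∀ v : ℝ,
      ((‖∑ p ∈ P, f p * npow p v‖ ^ 2 * (1 + ((v - v₀) / H) ^ 2)⁻¹ : ℝ) : ℂ) =
      ∑ p ∈ P, ∑ q ∈ P, f p * (starRingEnd ℂ) (f q) * ((1 / (p * q) : ℝ) : ℂ) *
        (exp (I * v * ((Real.log q - Real.log p : ℝ) : ℂ)) *
          (((1 + ((v - v₀) / H) ^ 2)⁻¹ : ℝ) : ℂ)) := by
    intro v
    rw [ofReal_mul, ofReal_pow, ← mul_conj', map_sum, Finset.sum_mul_sum, Finset.sum_mul]
    refine Finset.sum_congr rfl fun p hp => ?_
    rw [Finset.sum_mul]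
    refine Finset.sum_congr rfl fun q hq => ?_
    rw [map_mul, mul_mul_mul_comm, DMS_npow_mul (hP p hp) (hP q hq)]
    ring
  have hint : ∀ y : ℝ, Integrable (fun v : ℝ => exp (I * v * y) *
      (((1 + ((v - v₀) / H) ^ 2)⁻¹ : ℝ) : ℂ)) := by
    intro y
    refine (DMS_w_int hH v₀).ofReal.bdd_mul (c := 1) ?_ ?_
    · exact (by fun_prop : Continuous fun v : ℝ => exp (I * v * y)).aestronglyMeasurable
    · refine Filter.Eventually.of_forall fun v => ?_
      rw [show (I * v * y : ℂ) = ((v * y : ℝ) : ℂ) * I by push_cast; ring, norm_exp_ofReal_mul_I]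
  have hintC : Integrable (fun v : ℝ =>
      ((‖∑ p ∈ P, f p * npow p v‖ ^ 2 * (1 + ((v - v₀) / H) ^ 2)⁻¹ : ℝ) : ℂ)) := by
    simp_rw [hterm]
    refine integrable_finsetSum _ fun p _ => integrable_finsetSum _ fun q _ => ?_
    exact (hint _).const_mul _
  have hintR := hintC.re
  simp only [ofReal_re, RCLike.re_to_complex] at hintR
  refine ⟨hintR, ?_⟩
  have heq : ((∫ v : ℝ, ‖∑ p ∈ P, f p * npow p v‖ ^ 2 * (1 + ((v - v₀) / H) ^ 2)⁻¹ : ℝ) : ℂ) =
      ∑ p ∈ P, ∑ q ∈ P, f p * (starRingEnd ℂ) (f q) * ((1 / (p * q) : ℝ) : ℂ) *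
        ∫ v : ℝ, (exp (I * v * ((Real.log q - Real.log p : ℝ) : ℂ)) *
          (((1 + ((v - v₀) / H) ^ 2)⁻¹ : ℝ) : ℂ)) := by
    rw [← integral_complex_ofReal]
    simp_rw [hterm]
    rw [integral_finsetSum _ fun p _ => integrable_finsetSum _ fun q _ => (hint _).const_mul _]
    refine Finset.sum_congr rfl fun p _ => ?_
    rw [integral_finsetSum _ fun q _ => (hint _).const_mul _]
    refine Finset.sum_congr rfl fun q _ => ?_
    rw [integral_const_mul]
  calc _ ≤ |∫ v : ℝ, ‖∑ p ∈ P, f p * npow p v‖ ^ 2 * (1 + ((v - v₀) / H) ^ 2)⁻¹| := le_abs_self _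
    _ = ‖((∫ v : ℝ, ‖∑ p ∈ P, f p * npow p v‖ ^ 2 * (1 + ((v - v₀) / H) ^ 2)⁻¹ : ℝ) : ℂ)‖ := by
      rw [norm_real, Real.norm_eq_abs]
    _ ≤ ∑ p ∈ P, ∑ q ∈ P, ‖f p * (starRingEnd ℂ) (f q) * ((1 / (p * q) : ℝ) : ℂ) *
        ∫ v : ℝ, (exp (I * v * ((Real.log q - Real.log p : ℝ) : ℂ)) *
          (((1 + ((v - v₀) / H) ^ 2)⁻¹ : ℝ) : ℂ))‖ := by
      rw [heq]
      exact (norm_sum_le _ _).trans (Finset.sum_le_sum fun p _ => norm_sum_le _ _)
    _ ≤ _ := by
      refine Finset.sum_le_sum fun p hp => Finset.sum_le_sum fun q hq => ?_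
      rw [norm_mul, DMS_kernel_norm hH, norm_mul, norm_mul, RCLike.norm_conj, norm_real,
        Real.norm_eq_abs, abs_of_nonneg (by positivity : (0 : ℝ) ≤ 1 / (p * q))]
      refine mul_le_mul_of_nonneg_right ?_ (by positivity)
      refine mul_le_mul_of_nonneg_right ?_ (by positivity)
      rw [sq]
      exact mul_le_mul (hF p hp) (hF q hq) (norm_nonneg _) ((norm_nonneg _).trans (hF p hp))

theorem DMS_mem {a b p : ℕ} (h : p ∈ primesIoc a b) : a < p ∧ p ≤ b ∧ p.Prime := by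
  unfold primesIoc at h
  rw [Finset.mem_filter, Finset.mem_Ioc] at h
  exact ⟨h.1.1, h.1.2, h.2.1⟩

theorem DMS_block : ∃ C : ℝ, 0 ≤ C ∧ ∀ (a b p k : ℕ), 3 ≤ a → a < p →
    ∑ q ∈ (primesIoc a b).filter (fun q : ℕ => ⌊|Real.log q - Real.log p|⌋₊ = k), (1 : ℝ) / q ≤
      C / Real.log a := by
  classical
  obtain ⟨C₀, hC₀⟩ := chb_block
  set C : ℝ := |C₀| with hC
  have hC0 : 0 ≤ C := abs_nonneg _
  have hblk : ∀ x : ℝ, 2 ≤ x →
      ∑ p ∈ (Icc 1 ⌊Real.exp 1 * x⌋₊).filter (fun p => Nat.Prime p ∧ x < p), (1 : ℝ) / p ≤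
        C / Real.log x := by
    intro x hx
    refine (hC₀ x hx).trans ?_
    exact div_le_div_of_nonneg_right (le_abs_self _) (Real.log_nonneg (by linarith))
  refine ⟨5 * C, by positivity, fun a b p k ha hp => ?_⟩
  have haR : (3 : ℝ) ≤ a := by exact_mod_cast ha
  have hpR : (a : ℝ) + 1 ≤ p := by exact_mod_cast hp
  have hla : 0 < Real.log a := Real.log_pos (by linarith)
  have hp0 : (0 : ℝ) < p := by linarith
  set x₁ : ℝ := p * Real.exp k / 2 with hx₁
  set x₂ : ℝ := max (p * Real.exp (-(k : ℝ) - 1)) a with hx₂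
  have hek : 1 ≤ Real.exp k := Real.one_le_exp (Nat.cast_nonneg k)
  have he1 : 2 ≤ Real.exp 1 := by
    have := Real.add_one_le_exp (1 : ℝ)
    linarith
  have hx1p : (p : ℝ) / 2 ≤ x₁ := by
    rw [hx₁]
    have : (p : ℝ) * 1 ≤ p * Real.exp k := mul_le_mul_of_nonneg_left hek hp0.le
    linarith
  have hx1 : 2 ≤ x₁ := by linarith
  have hx1' : 2 ≤ Real.exp 1 * x₁ := by nlinarith
  have hx2 : 2 ≤ x₂ := by
    have := le_max_right ((p : ℝ) * Real.exp (-(k : ℝ) - 1)) a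
    rw [← hx₂] at this
    linarith
  have hl1 : Real.log a / 2 ≤ Real.log x₁ := by
    have hs : Real.sqrt a ≤ x₁ := by
      refine le_trans ?_ hx1p
      rw [Real.sqrt_le_left (by linarith)]
      nlinarith [sq_nonneg ((a : ℝ) - 1)]
    rw [← Real.log_sqrt (by linarith)]
    exact Real.log_le_log (Real.sqrt_pos.2 (by linarith)) hs
  have hl1' : Real.log a / 2 ≤ Real.log (Real.exp 1 * x₁) := by
    refine hl1.trans (Real.log_le_log (by linarith) ?_)
    nlinarith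
  have hl2 : Real.log a ≤ Real.log x₂ :=
    Real.log_le_log (by linarith) (le_max_right _ _)
  have key : ∀ (x L : ℝ), 2 ≤ x → 0 < L → L ≤ Real.log x →
      ∑ p ∈ (Icc 1 ⌊Real.exp 1 * x⌋₊).filter (fun p => Nat.Prime p ∧ x < p), (1 : ℝ) / p ≤
        C / L := by
    intro x L hx hL hLx
    exact (hblk x hx).trans (div_le_div_of_nonneg_left hC0 hL hLx)
  have hsub : (primesIoc a b).filter (fun q : ℕ => ⌊|Real.log q - Real.log p|⌋₊ = k) ⊆
      ((Icc 1 ⌊Real.exp 1 * x₁⌋₊).filter (fun p => Nat.Prime p ∧ x₁ < p) ∪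
      (Icc 1 ⌊Real.exp 1 * (Real.exp 1 * x₁)⌋₊).filter
        (fun p => Nat.Prime p ∧ Real.exp 1 * x₁ < p)) ∪
      (Icc 1 ⌊Real.exp 1 * x₂⌋₊).filter (fun p => Nat.Prime p ∧ x₂ < p) := by
    intro q hq
    rw [Finset.mem_filter] at hq
    obtain ⟨hq1, hq2⟩ := hq
    obtain ⟨hqa, -, hqp⟩ := DMS_mem hq1
    have hq0 : (0 : ℝ) < q := by exact_mod_cast hqp.pos
    have hqa' : (a : ℝ) < q := by exact_mod_cast hqa
    have hk := (Nat.floor_eq_iff (abs_nonneg _)).1 hq2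
    obtain ⟨hk1, hk2⟩ := hk
    rcases le_total (Real.log p) (Real.log q) with hle | hle
    · rw [abs_of_nonneg (by linarith)] at hk1 hk2
      have h1 : (p : ℝ) * Real.exp k ≤ q := by
        rw [← Real.exp_log hp0, ← Real.exp_add, ← Real.exp_log hq0]
        apply Real.exp_le_exp.2
        linarith
      have h2 : (q : ℝ) < p * Real.exp k * Real.exp 1 := by
        rw [mul_assoc, ← Real.exp_add]
        have h3 : (q : ℝ) = Real.exp (Real.log q) := (Real.exp_log hq0).symm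
        have h4 : (p : ℝ) = Real.exp (Real.log p) := (Real.exp_log hp0).symm
        rw [h3, h4, ← Real.exp_add]
        apply Real.exp_lt_exp.2
        linarith
      have h5 : x₁ < q := by
        rw [hx₁]
        have : 0 < (p : ℝ) * Real.exp k := by positivity
        linarith
      have h6 : (q : ℝ) ≤ Real.exp 1 * (Real.exp 1 * x₁) := by
        rw [hx₁]
        have : 0 < (p : ℝ) * Real.exp k := by positivity
        nlinarith [mul_pos this (Real.exp_pos 1)]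
      rw [Finset.mem_union, Finset.mem_union]
      left
      by_cases h7 : (q : ℝ) ≤ Real.exp 1 * x₁
      · left
        rw [Finset.mem_filter, Finset.mem_Icc]
        exact ⟨⟨hqp.one_le, Nat.le_floor h7⟩, hqp, h5⟩
      · right
        rw [Finset.mem_filter, Finset.mem_Icc]
        exact ⟨⟨hqp.one_le, Nat.le_floor h6⟩, hqp, not_le.1 h7⟩
    · rw [abs_of_nonpos (by linarith)] at hk1 hk2
      rw [Finset.mem_union]
      right
      have h1 : (p : ℝ) * Real.exp (-(k : ℝ) - 1) < q := by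
        have h3 : (q : ℝ) = Real.exp (Real.log q) := (Real.exp_log hq0).symm
        have h4 : (p : ℝ) = Real.exp (Real.log p) := (Real.exp_log hp0).symm
        rw [h3, h4, ← Real.exp_add]
        apply Real.exp_lt_exp.2
        linarith
      have h2 : (q : ℝ) ≤ Real.exp 1 * (p * Real.exp (-(k : ℝ) - 1)) := by
        have h3 : (q : ℝ) = Real.exp (Real.log q) := (Real.exp_log hq0).symm
        have h4 : (p : ℝ) = Real.exp (Real.log p) := (Real.exp_log hp0).symm
        rw [h3, h4, ← Real.exp_add, ← Real.exp_add]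
        apply Real.exp_le_exp.2
        linarith
      rw [Finset.mem_filter, Finset.mem_Icc]
      refine ⟨⟨hqp.one_le, Nat.le_floor ?_⟩, hqp, max_lt h1 hqa'⟩
      exact h2.trans (mul_le_mul_of_nonneg_left (le_max_left _ _) (Real.exp_pos 1).le)
  have hnn : ∀ s : Finset ℕ, 0 ≤ ∑ q ∈ s, (1 : ℝ) / q := fun s =>
    Finset.sum_nonneg fun q _ => by positivity
  have hun : ∀ s t : Finset ℕ, ∑ q ∈ s ∪ t, (1 : ℝ) / q ≤ ∑ q ∈ s, (1 : ℝ) / q +
      ∑ q ∈ t, (1 : ℝ) / q := by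
    intro s t
    rw [← Finset.sum_union_inter]
    have := hnn (s ∩ t)
    linarith
  have hb1 := key x₁ (Real.log a / 2) hx1 (by linarith) hl1
  have hb2 := key (Real.exp 1 * x₁) (Real.log a / 2) hx1' (by linarith) hl1'
  have hb3 := key x₂ (Real.log a) hx2 hla hl2
  calc _ ≤ _ := Finset.sum_le_sum_of_subset_of_nonneg hsub (fun q _ _ => by positivity)
    _ ≤ C / (Real.log a / 2) + C / (Real.log a / 2) + C / Real.log a := by
      refine (hun _ _).trans (add_le_add ((hun _ _).trans (add_le_add hb1 hb2)) hb3)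
    _ = 5 * C / Real.log a := by
      field_simp
      ring

theorem DMS_geom {H : ℝ} (hH : 0 < H) (t : Finset ℕ) :
    ∑ k ∈ t, Real.exp (-(H * k)) ≤ (1 + H) / H := by
  have h1 : Real.exp (-H) < 1 := by
    rw [Real.exp_lt_one_iff]
    linarith
  have h2 : ∀ k : ℕ, Real.exp (-(H * k)) = Real.exp (-H) ^ k := by
    intro k
    rw [← Real.exp_nat_mul]
    congr 1
    ring
  simp_rw [h2]
  have hs := summable_geometric_of_lt_one (Real.exp_nonneg (-H)) h1
  calc ∑ k ∈ t, Real.exp (-H) ^ k ≤ ∑' k : ℕ, Real.exp (-H) ^ k :=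
        hs.sum_le_tsum _ (fun k _ => by positivity)
    _ = (1 - Real.exp (-H))⁻¹ := tsum_geometric_of_lt_one (Real.exp_nonneg (-H)) h1
    _ ≤ (1 + H) / H := by
      have h3 : Real.exp (-H) ≤ (1 + H)⁻¹ := by
        rw [Real.exp_neg]
        exact inv_anti₀ (by linarith) (by linarith [Real.add_one_le_exp H])
      have h4 : H / (1 + H) ≤ 1 - Real.exp (-H) := by
        have h5 : H / (1 + H) = 1 - (1 + H)⁻¹ := by
          field_simp
          ring
        rw [h5]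
        linarith
      rw [← inv_div]
      exact inv_anti₀ (by positivity) h4

theorem DMS_inner : ∃ C : ℝ, 0 ≤ C ∧ ∀ (a b p : ℕ) (H : ℝ), 3 ≤ a → a < p → 0 < H →
    ∑ q ∈ primesIoc a b, (1 : ℝ) / q * Real.exp (-(H * |Real.log q - Real.log p|)) ≤
      C / Real.log a * ((1 + H) / H) := by
  classical
  obtain ⟨C, hC, hb⟩ := DMS_block
  refine ⟨C, hC, fun a b p H ha hp hH => ?_⟩
  have haR : (3 : ℝ) ≤ a := by exact_mod_cast ha
  have hla : 0 < Real.log a := Real.log_pos (by linarith)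
  set g : ℕ → ℕ := fun q => ⌊|Real.log q - Real.log p|⌋₊ with hg
  rw [← Finset.sum_fiberwise_of_maps_to (g := g) (t := (primesIoc a b).image g)
    (fun q hq => Finset.mem_image_of_mem g hq)]
  calc _ ≤ ∑ k ∈ (primesIoc a b).image g, C / Real.log a * Real.exp (-(H * k)) := by
        refine Finset.sum_le_sum fun k _ => ?_
        calc _ ≤ ∑ q ∈ (primesIoc a b).filter (fun q => g q = k), (1 : ℝ) / q *
              Real.exp (-(H * k)) := by
              refine Finset.sum_le_sum fun q hq => ?_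
              rw [Finset.mem_filter] at hq
              refine mul_le_mul_of_nonneg_left ?_ (by positivity)
              apply Real.exp_le_exp.2
              have h1 : (k : ℝ) ≤ |Real.log q - Real.log p| := by
                rw [← hq.2]
                exact Nat.floor_le (abs_nonneg _)
              have := mul_le_mul_of_nonneg_left h1 hH.le
              linarith
          _ = (∑ q ∈ (primesIoc a b).filter (fun q => g q = k), (1 : ℝ) / q) *
              Real.exp (-(H * k)) := by rw [Finset.sum_mul]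
          _ ≤ _ := mul_le_mul_of_nonneg_right (hb a b p k ha hp) (Real.exp_pos _).le
    _ = C / Real.log a * ∑ k ∈ (primesIoc a b).image g, Real.exp (-(H * k)) := by
      rw [Finset.mul_sum]
    _ ≤ _ := mul_le_mul_of_nonneg_left (DMS_geom hH _) (by positivity)

theorem DMS_total : ∃ C : ℝ, 0 ≤ C ∧ ∀ (a b : ℕ) (f : ℕ → ℂ) (F v₀ H : ℝ), 3 ≤ a → a ≤ b → 0 < H →
    (∀ p ∈ primesIoc a b, ‖f p‖ ≤ F) →
    ∫ v : ℝ, ‖∑ p ∈ primesIoc a b, f p * npow p v‖ ^ 2 * (1 + ((v - v₀) / H) ^ 2)⁻¹ ≤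
      C * F ^ 2 * (1 + H) * Real.log (Real.log b + 3) / Real.log a := by
  obtain ⟨C₁, hC₁, h₁⟩ := DMS_inner
  obtain ⟨C₂, h₂⟩ := sum_inv_prime_le
  refine ⟨Real.pi * C₁ * (1 + |C₂|), by positivity, fun a b f F v₀ H ha hab hH hF => ?_⟩
  have haR : (3 : ℝ) ≤ a := by exact_mod_cast ha
  have hbR : (a : ℝ) ≤ b := by exact_mod_cast hab
  have hla : 0 < Real.log a := Real.log_pos (by linarith)
  have hlb : 0 < Real.log b := Real.log_pos (by linarith)
  have hL : 1 ≤ Real.log (Real.log b + 3) := by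
    rw [Real.le_log_iff_exp_le (by linarith)]
    have := Real.exp_one_lt_d9
    linarith
  have hmer : ∑ p ∈ primesIoc a b, (1 : ℝ) / p ≤ (1 + |C₂|) * Real.log (Real.log b + 3) := by
    refine (h₂ a b (by omega) hab).trans ?_
    have h3 : Real.log (rho a b 0) ≤ Real.log (Real.log b + 3) := by
      unfold rho
      simp only [abs_zero, zero_mul, add_zero, mul_one, one_mul]
      apply Real.log_le_log (by positivity)
      rw [div_le_iff₀ (by linarith)]
      nlinarith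
    have h4 : C₂ ≤ |C₂| * Real.log (Real.log b + 3) :=
      (le_abs_self _).trans (le_mul_of_one_le_right (abs_nonneg _) hL)
    linarith
  refine (DMS_core (primesIoc a b) (fun p hp => (DMS_mem hp).2.2.pos) f hF hH v₀).2.trans ?_
  calc _ ≤ ∑ p ∈ primesIoc a b, (F ^ 2 * Real.pi * H * (1 / p)) *
        (C₁ / Real.log a * ((1 + H) / H)) := by
        refine Finset.sum_le_sum fun p hp => ?_
        calc _ = (F ^ 2 * Real.pi * H * (1 / p)) * ∑ q ∈ primesIoc a b, (1 : ℝ) / q *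
              Real.exp (-(H * |Real.log q - Real.log p|)) := by
              rw [Finset.mul_sum]
              refine Finset.sum_congr rfl fun q hq => ?_
              have hp0 : (p : ℝ) ≠ 0 := by
                exact_mod_cast (DMS_mem hp).2.2.pos.ne'
              have hq0 : (q : ℝ) ≠ 0 := by
                exact_mod_cast (DMS_mem hq).2.2.pos.ne'
              field_simp
          _ ≤ _ := mul_le_mul_of_nonneg_left (h₁ a b p H ha (DMS_mem hp).1 hH) (by positivity)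
    _ = F ^ 2 * Real.pi * (C₁ / Real.log a * (1 + H)) * ∑ p ∈ primesIoc a b, (1 : ℝ) / p := by
      rw [Finset.mul_sum]
      refine Finset.sum_congr rfl fun p _ => ?_
      field_simp
    _ ≤ F ^ 2 * Real.pi * (C₁ / Real.log a * (1 + H)) *
        ((1 + |C₂|) * Real.log (Real.log b + 3)) :=
      mul_le_mul_of_nonneg_left hmer (by positivity)
    _ = _ := by
      field_simp

theorem prime_mean_square : ∃ C : ℝ, ∀ (a b : ℕ) (f : ℕ → ℂ) (F v₀ H : ℝ), 3 ≤ a → a ≤ b → 0 < H →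
    (∀ p ∈ primesIoc a b, ‖f p‖ ≤ F) →
    ∫ v in (v₀ - H)..(v₀ + H), ‖∑ p ∈ primesIoc a b, f p * npow p v‖ ^ 2 ≤
      C * F ^ 2 * (1 + H) * Real.log (Real.log b + 3) / Real.log a := by
  obtain ⟨C, hC, h⟩ := DMS_total
  refine ⟨2 * C, fun a b f F v₀ H ha hab hH hF => ?_⟩
  have h1 := h a b f F v₀ H ha hab hH hF
  have hint := (DMS_core (primesIoc a b) (fun p hp => (DMS_mem hp).2.2.pos) f hF hH v₀).1
  rw [intervalIntegral.integral_of_le (by linarith)]
  have h2 : ∫ v in Set.Ioc (v₀ - H) (v₀ + H), ‖∑ p ∈ primesIoc a b, f p * npow p v‖ ^ 2 ≤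
      ∫ v in Set.Ioc (v₀ - H) (v₀ + H),
        2 * (‖∑ p ∈ primesIoc a b, f p * npow p v‖ ^ 2 * (1 + ((v - v₀) / H) ^ 2)⁻¹) := by
    refine integral_mono_of_nonneg (Filter.Eventually.of_forall fun v => by positivity)
      (hint.const_mul 2).integrableOn ?_
    refine (ae_restrict_iff' measurableSet_Ioc).2 (Filter.Eventually.of_forall fun v hv => ?_)
    have h3 : ((v - v₀) / H) ^ 2 ≤ 1 := by
      rw [sq_le_one_iff_abs_le_one, abs_div, abs_of_pos hH, div_le_one hH, abs_le]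
      constructor <;> linarith [hv.1, hv.2]
    have h4 : (1 : ℝ) ≤ 2 * (1 + ((v - v₀) / H) ^ 2)⁻¹ := by
      rw [← div_eq_mul_inv, le_div_iff₀ (by positivity)]
      linarith
    have h5 : 0 ≤ ‖∑ p ∈ primesIoc a b, f p * npow p v‖ ^ 2 := by positivity
    simp only
    nlinarith [mul_le_mul_of_nonneg_left h4 h5]
  have h6 : ∫ v in Set.Ioc (v₀ - H) (v₀ + H),
      2 * (‖∑ p ∈ primesIoc a b, f p * npow p v‖ ^ 2 * (1 + ((v - v₀) / H) ^ 2)⁻¹) ≤
      ∫ v : ℝ, 2 * (‖∑ p ∈ primesIoc a b, f p * npow p v‖ ^ 2 * (1 + ((v - v₀) / H) ^ 2)⁻¹) :=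
    setIntegral_le_integral (hint.const_mul 2)
      (Filter.Eventually.of_forall fun v => by positivity)
  have h7 : ∫ v : ℝ, 2 * (‖∑ p ∈ primesIoc a b, f p * npow p v‖ ^ 2 *
      (1 + ((v - v₀) / H) ^ 2)⁻¹) = 2 * ∫ v : ℝ, (‖∑ p ∈ primesIoc a b, f p * npow p v‖ ^ 2 *
      (1 + ((v - v₀) / H) ^ 2)⁻¹) := integral_const_mul _ _
  rw [h7] at h6
  refine (h2.trans h6).trans ?_
  calc _ ≤ 2 * (C * F ^ 2 * (1 + H) * Real.log (Real.log b + 3) / Real.log a) :=
        mul_le_mul_of_nonneg_left h1 (by norm_num)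
    _ = _ := by ring

/-- weighted form, window of size `h` -/
theorem prime_mean_square_w : ∃ C : ℝ, ∀ (a b : ℕ) (f : ℕ → ℂ) (F v₀ h : ℝ), 3 ≤ a → a ≤ b → 0 < h →
    h ≤ 1 → (∀ p ∈ primesIoc a b, ‖f p‖ ≤ F) →
    (∫ v : ℝ, ‖∑ p ∈ primesIoc a b, f p * npow p v‖ ^ 2 / (1 + ((v - v₀) / h) ^ 2)) / h ≤
      C * F ^ 2 * Real.log (Real.log b + 3) / (h * Real.log a) := by
  obtain ⟨C, hC, hm⟩ := DMS_total
  refine ⟨2 * C, fun a b f F v₀ h ha hab hh hh1 hF => ?_⟩
  have h1 := hm a b f F v₀ h ha hab hh hF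
  have haR : (3 : ℝ) ≤ a := by exact_mod_cast ha
  have hbR : (a : ℝ) ≤ b := by exact_mod_cast hab
  have hla : 0 < Real.log a := Real.log_pos (by linarith)
  have hlb : 0 < Real.log b := Real.log_pos (by linarith)
  have hL : 0 ≤ Real.log (Real.log b + 3) := Real.log_nonneg (by linarith)
  simp_rw [div_eq_mul_inv (‖∑ p ∈ primesIoc a b, f p * npow p _‖ ^ 2)]
  rw [div_le_iff₀ hh]
  refine h1.trans ?_
  have h2 : C * F ^ 2 * (1 + h) * Real.log (Real.log b + 3) / Real.log a ≤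
      C * F ^ 2 * 2 * Real.log (Real.log b + 3) / Real.log a := by
    refine div_le_div_of_nonneg_right ?_ hla.le
    refine mul_le_mul_of_nonneg_right ?_ hL
    exact mul_le_mul_of_nonneg_left (by linarith) (by positivity)
  refine h2.trans (le_of_eq ?_)
  field_simp

end Pool.Agent.CZ
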