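import Mathlib
import Pool.Agent.CZ.Defs
import Pool.Agent.ZD.F

/-! Polynomial growth of `L(s, E_d)` in the strip `1 ≤ Re s ≤ 3`. -/

set_option autoImplicit false

open Complex Finset MeasureTheory

namespace Pool.Agent.CZ

open Pool.Agent.H5 (c bd)
open Pool.Agent.ZD (S T Lf nu tau gk eps MM)

theorem poly_right : ∃ C : ℝ, 0 ≤ C ∧ ∀ (d : ℕ) (s : ℂ), Squarefree d → 2 ≤ s.re → ‖Lf d s‖ ≤ C := by
  refine ⟨∑' n : ℕ, |(c n : ℝ)| * (n : ℝ) ^ (-(2 : ℝ)),
    tsum_nonneg fun n => by positivity, fun d s hd hs => ?_⟩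
  have hsum : Summable (fun n : ℕ => |(c n : ℝ)| * (n : ℝ) ^ (-(2 : ℝ))) := by
    have h := Pool.Agent.H5.summable_lattice (σ := 2) (by norm_num)
    simpa using h
  have h32 : 3 / 2 < s.re := by linarith
  rw [(Pool.Agent.ZD.Lf_spec hd).2 s h32]
  unfold Pool.Agent.H5.Lser
  refine tsum_of_norm_bounded hsum.hasSum fun n => ?_
  rw [norm_mul]
  rcases Nat.eq_zero_or_pos n with rfl | hn
  · rw [Pool.Agent.H5.bd_zero]; simp
  · have h1 : ‖((n : ℕ) : ℂ) ^ (-s)‖ = (n : ℝ) ^ (-s.re) := by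
      rw [Complex.norm_natCast_cpow_of_pos hn]; simp
    have h2 : ‖((bd d n : ℤ) : ℂ)‖ = |(bd d n : ℝ)| := by
      rw [Complex.norm_intCast]
    rw [h1, h2]
    have h3 : (n : ℝ) ^ (-s.re) ≤ (n : ℝ) ^ (-(2 : ℝ)) :=
      Real.rpow_le_rpow_of_exponent_le (by exact_mod_cast hn) (by linarith)
    exact mul_le_mul (Pool.Agent.H5.abs_bd_le d n) h3 (by positivity) (by positivity)

theorem poly_mid : ∃ C : ℝ, 0 ≤ C ∧ ∀ (d : ℕ) (s : ℂ), Squarefree d → 1 < s.re → s.re ≤ 3 / 2 →
    ‖Lf d s‖ ≤ C * d * (1 + |s.im|) ^ 2 := by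
  obtain ⟨C, hC⟩ := Pool.Agent.ZD.MM_trivial
  refine ⟨128 * max C 0, by positivity, fun d s hd h1 h2 => ?_⟩
  set t := s.im with ht
  set η := s.re - 1 with hη
  set a : ℝ := 1 / (8 * (1 + |t|)) with ha
  have ha0 : 0 < a := by positivity
  have ha8 : a ≤ 1 / 8 := by
    rw [ha]
    apply one_div_le_one_div_of_le (by norm_num)
    have := abs_nonneg t
    linarith
  have hη0 : 0 < η := by rw [hη]; linarith
  have hη1 : η ≤ 1 / 2 := by rw [hη]; linarith
  have hMM := hC d a η hd ha0 ha8 hη0 hη1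
  have hle := le_ciSup (Pool.Agent.ZD.MM_bdd hd ha0 hη0) t
  have hs : (1 + (η : ℂ) + t * I) = s := by
    apply Complex.ext <;> simp [hη, ht]
  simp only [hs] at hle
  have h3 : ‖Lf d s‖ * Real.exp (-(a * |t|)) ≤ MM a η d := hle
  have h4 : a * |t| ≤ 1 / 8 := by
    rw [ha, div_mul_eq_mul_div, div_le_div_iff₀ (by positivity) (by norm_num)]
    have := abs_nonneg t
    linarith
  have h5 : Real.exp (a * |t|) ≤ 2 := by
    calc Real.exp (a * |t|) ≤ Real.exp (1 / 8) := Real.exp_le_exp.mpr h4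
      _ ≤ 2 := by
        have := Real.exp_bound_div_one_sub_of_interval (x := 1 / 8) (by norm_num) (by norm_num)
        norm_num at this ⊢
        linarith
  have h6 : ‖Lf d s‖ = ‖Lf d s‖ * Real.exp (-(a * |t|)) * Real.exp (a * |t|) := by
    rw [mul_assoc, ← Real.exp_add]; simp
  rw [h6]
  calc ‖Lf d s‖ * Real.exp (-(a * |t|)) * Real.exp (a * |t|)
      ≤ (C * d / a ^ 2) * 2 := by
        apply mul_le_mul (h3.trans hMM) h5 (by positivity)
        exact (by positivity : (0:ℝ) ≤ ‖Lf d s‖ * Real.exp (-(a * |t|))).trans (h3.trans hMM)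
    _ = 128 * C * d * (1 + |t|) ^ 2 := by
        rw [ha]; field_simp; ring
    _ ≤ 128 * max C 0 * d * (1 + |t|) ^ 2 := by
        gcongr
        exact le_max_left _ _

theorem poly_left : ∃ C : ℝ, 0 ≤ C ∧ ∀ (d : ℕ) (s : ℂ), Squarefree d → 1 ≤ s.re → s.re ≤ 3 / 2 →
    ‖Lf d s‖ ≤ C * d * (1 + |s.im|) ^ 2 := by
  obtain ⟨C, hC0, hC⟩ := poly_mid
  refine ⟨C, hC0, fun d s hd h1 h2 => ?_⟩
  rcases h1.lt_or_eq with h | h
  · exact hC d s hd h h2
  · have hcont : Continuous (Lf d) := (Pool.Agent.ZD.Lf_spec hd).1.continuous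
    have ht : Filter.Tendsto (fun η : ℝ => ‖Lf d (s + η)‖) (nhdsWithin 0 (Set.Ioi 0))
        (nhds ‖Lf d s‖) := by
      have h3 : Continuous (fun η : ℝ => ‖Lf d (s + η)‖) := by fun_prop
      have h4 := (h3.tendsto 0).mono_left (nhdsWithin_le_nhds (s := Set.Ioi (0:ℝ)))
      simpa using h4
    refine le_of_tendsto ht ?_
    have hev : ∀ᶠ η : ℝ in nhdsWithin 0 (Set.Ioi 0), η < 1 / 2 :=
      (eventually_lt_nhds (by norm_num : (0:ℝ) < 1 / 2)).filter_mono nhdsWithin_le_nhds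
    filter_upwards [self_mem_nhdsWithin, hev] with η hη hη2
    have hη' : 0 < η := hη
    have h5 := hC d (s + η) hd (by simp; linarith) (by simp; linarith)
    simpa using h5

theorem Lf_poly : ∃ C : ℝ, ∀ (d : ℕ) (s : ℂ), Squarefree d → 1 ≤ s.re → s.re ≤ 3 →
    ‖Lf d s‖ ≤ C * d * (1 + |s.im|) ^ 2 := by
  obtain ⟨C₁, hC₁0, hC₁⟩ := poly_left
  obtain ⟨C₂, hC₂0, hC₂⟩ := poly_right
  refine ⟨50 * (C₁ + C₂), fun d s hd h1 h3 => ?_⟩
  have hd0 : 0 < d := Nat.pos_of_ne_zero hd.ne_zero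
  have hd1 : (1 : ℝ) ≤ d := by exact_mod_cast hd0
  rcases le_or_gt s.re (3 / 2) with h | h
  · calc ‖Lf d s‖ ≤ C₁ * d * (1 + |s.im|) ^ 2 := hC₁ d s hd h1 h
      _ ≤ _ := by
        gcongr
        nlinarith
  · have hne : ∀ z : ℂ, 3 / 2 ≤ z.re → (z + 2) ≠ 0 := by
      intro z hz h0
      have := congrArg Complex.re h0
      simp at this
      linarith
    have hlow : ∀ z : ℂ, 3 / 2 ≤ z.re → (1 + |z.im|) ^ 2 ≤ 2 * ‖z + 2‖ ^ 2 := by
      intro z hz
      rw [← Complex.normSq_eq_norm_sq, Complex.normSq_apply]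
      simp only [add_re, re_ofNat, add_im, im_ofNat, add_zero]
      have : z.im * z.im = |z.im| * |z.im| := (abs_mul_abs_self _).symm
      rw [this]
      nlinarith [abs_nonneg z.im, sq_nonneg (|z.im| - 1), sq_nonneg (|z.im|)]
    have hone : ∀ z : ℂ, 3 / 2 ≤ z.re → (1:ℝ) ≤ ‖z + 2‖ ^ 2 := by
      intro z hz
      rw [← Complex.normSq_eq_norm_sq, Complex.normSq_apply]
      simp only [add_re, re_ofNat, add_im, im_ofNat, add_zero]
      nlinarith [mul_self_nonneg z.im]
    have key : ‖Lf d s / (s + 2) ^ 2‖ ≤ 2 * (C₁ + C₂) * d := by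
      refine PhragmenLindelof.vertical_strip (f := fun z => Lf d z / (z + 2) ^ 2) (a := 3 / 2) (b := 3)
        ?_ ?_ ?_ ?_ h.le h3
      · apply DifferentiableOn.diffContOnCl
        intro z hz
        have hz' : z ∈ Complex.re ⁻¹' Set.Icc (3 / 2 : ℝ) 3 :=
          closure_minimal (Set.preimage_mono Set.Ioo_subset_Icc_self)
            (isClosed_Icc.preimage Complex.continuous_re) hz
        have hz1 : 3 / 2 ≤ z.re := hz'.1
        apply DifferentiableAt.differentiableWithinAt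
        have h4 : DifferentiableAt ℂ (Lf d) z := (Pool.Agent.ZD.Lf_spec hd).1 z
        apply h4.div (by fun_prop)
        exact pow_ne_zero 2 (hne z hz1)
      · obtain ⟨K, hK⟩ := Pool.Agent.ZD.growth hd (a := 1) one_pos (σ₁ := 3 / 2) (by norm_num) 3
        refine ⟨1, ?_, |K| + 1, ?_⟩
        · have := Real.pi_gt_three
          rw [lt_div_iff₀ (by norm_num)]
          linarith
        · apply Asymptotics.IsBigO.of_bound 1
          refine Filter.eventually_inf_principal.mpr (Filter.Eventually.of_forall fun z hz => ?_)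
          have hz1 : 3 / 2 < z.re := hz.1
          have hz2 : z.re < 3 := hz.2
          have h5 := hK z hz1.le hz2.le
          have h6 : (1:ℝ) ≤ ‖z + 2‖ ^ 2 := hone z hz1.le
          rw [norm_div, norm_pow, one_mul, Real.norm_eq_abs, Real.abs_exp]
          have hx0 : 0 < Real.exp (1 * |z.im|) := Real.exp_pos _
          calc ‖Lf d z‖ / ‖z + 2‖ ^ 2 ≤ ‖Lf d z‖ := div_le_self (norm_nonneg _) h6
            _ ≤ K * Real.exp (1 * |z.im|) := h5
            _ ≤ (|K| + 1) * Real.exp (1 * |z.im|) := by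
                gcongr
                linarith [le_abs_self K]
            _ ≤ Real.exp ((|K| + 1) * Real.exp (1 * |z.im|)) := by
                have := Real.add_one_le_exp ((|K| + 1) * Real.exp (1 * |z.im|))
                linarith
      · intro z hz
        rw [norm_div, norm_pow]
        have h5 := hC₁ d z hd (by linarith) (by linarith)
        have h6 := hlow z (by linarith)
        have h7 : 0 < ‖z + 2‖ ^ 2 := lt_of_lt_of_le one_pos (hone z (by linarith))
        rw [div_le_iff₀ h7]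
        calc ‖Lf d z‖ ≤ C₁ * d * (1 + |z.im|) ^ 2 := h5
          _ ≤ (C₁ + C₂) * d * (2 * ‖z + 2‖ ^ 2) := by
            gcongr
            linarith
          _ = _ := by ring
      · intro z hz
        rw [norm_div, norm_pow]
        have h5 := hC₂ d z hd (by linarith)
        have h7 : (1:ℝ) ≤ ‖z + 2‖ ^ 2 := hone z (by linarith)
        rw [div_le_iff₀ (by linarith)]
        calc ‖Lf d z‖ ≤ C₂ * 1 * 1 := by linarith
          _ ≤ (2 * (C₁ + C₂)) * d * ‖z + 2‖ ^ 2 := by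
            gcongr
            linarith
    rw [norm_div, norm_pow, div_le_iff₀ (by
      have := norm_pos_iff.mpr (hne s h.le)
      positivity)] at key
    have hup : ‖s + 2‖ ≤ 5 * (1 + |s.im|) := by
      calc ‖s + 2‖ ≤ |(s + 2).re| + |(s + 2).im| := Complex.norm_le_abs_re_add_abs_im _
        _ ≤ 5 * (1 + |s.im|) := by
          simp only [add_re, re_ofNat, add_im, im_ofNat, add_zero]
          rw [abs_of_nonneg (by linarith)]
          have := abs_nonneg s.im
          linarith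
    calc ‖Lf d s‖ ≤ 2 * (C₁ + C₂) * d * ‖s + 2‖ ^ 2 := key
      _ ≤ 2 * (C₁ + C₂) * d * (5 * (1 + |s.im|)) ^ 2 := by gcongr
      _ = _ := by ring

end Pool.Agent.CZ
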