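import Mathlib
import Pool.Agent.CZ.Defs
import Pool.Agent.CZ.W
import Pool.Agent.CZ.POLY
import Pool.Agent.ZD.T

/-! Fourier support: against a band limited weight only short Dirichlet polynomials matter. -/

set_option autoImplicit false

open Complex Finset MeasureTheory Filter Topology

namespace Pool.Agent.CZ

open Pool.Agent.H5 (c bd)
open Pool.Agent.ZD (S T Lf nu tau gk eps MM)

/-- the weighted function on vertical lines -/
noncomputable def fouH (W A : ℂ → ℂ) (h t₀ u : ℝ) (s : ℂ) : ℂ :=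
  A s * exp (u * (s - 1)) * W ((-(I * (s - 1)) - t₀) / h)

theorem fou_tendsto : Tendsto (fun x : ℝ => (1 + x ^ 2)⁻¹) (cocompact ℝ) (𝓝 0) := by
  refine tendsto_inv_atTop_zero.comp ?_
  refine tendsto_atTop_add_const_left _ 1 ?_
  have h := (tendsto_pow_atTop (α := ℝ) two_ne_zero).comp (tendsto_norm_cocompact_atTop (E := ℝ))
  refine h.congr fun x => ?_
  simp

theorem fou_g (h t₀ : ℝ) (hh : 0 < h) :
    Integrable (fun v : ℝ => (1 + ((v - t₀) / h) ^ 2)⁻¹) ∧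
    Tendsto (fun v : ℝ => (1 + ((v - t₀) / h) ^ 2)⁻¹) atTop (𝓝 0) ∧
    Tendsto (fun v : ℝ => (1 + ((v - t₀) / h) ^ 2)⁻¹) atBot (𝓝 0) := by
  refine ⟨?_, ?_, ?_⟩
  · exact (integrable_inv_one_add_sq.comp_div hh.ne').comp_sub_right t₀
  · have h1 : Tendsto (fun v : ℝ => (v - t₀) / h) atTop atTop :=
      (tendsto_atTop_add_const_right _ (-t₀) tendsto_id).atTop_div_const hh
    have h2 : Tendsto (fun x : ℝ => (1 + x ^ 2)⁻¹) atTop (𝓝 0) :=
      fou_tendsto.mono_left (by rw [cocompact_eq_atBot_atTop]; exact le_sup_right)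
    exact h2.comp h1
  · have h1 : Tendsto (fun v : ℝ => (v - t₀) / h) atBot atBot :=
      (tendsto_atBot_add_const_right _ (-t₀) tendsto_id).atBot_div_const hh
    have h2 : Tendsto (fun x : ℝ => (1 + x ^ 2)⁻¹) atBot (𝓝 0) :=
      fou_tendsto.mono_left (by rw [cocompact_eq_atBot_atTop]; exact le_sup_left)
    exact h2.comp h1

theorem fou_bound {K : ℕ} (hK : 3 ≤ K) {W : ℂ → ℂ} {Cw : ℝ} (hCw : 0 ≤ Cw)
    (hWb : ∀ z : ℂ, ‖W z‖ ≤ Cw * Real.exp |z.im| / (1 + z.re ^ 2) ^ K)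
    {A : ℂ → ℂ} {Ca : ℝ} (hCa : 0 ≤ Ca)
    (hAb : ∀ s : ℂ, 1 ≤ s.re → s.re ≤ 2 → ‖A s‖ ≤ Ca * (1 + |s.im|) ^ 2)
    {h : ℝ} (hh : 0 < h) (t₀ u x v : ℝ) (hx1 : 1 ≤ x) (hx2 : x ≤ 2) :
    ‖fouH W A h t₀ u (x + v * I)‖ ≤
      (Ca * (2 * (1 + |t₀|) ^ 2 + 2 * h ^ 2) * Real.exp |u| * (Cw * Real.exp (1 / h))) *
        (1 + ((v - t₀) / h) ^ 2)⁻¹ := by
  unfold fouH
  set w : ℝ := (v - t₀) / h with hw
  have hv : v = t₀ + h * w := by rw [hw]; field_simp; ring
  have harg : ((-(I * ((x : ℂ) + v * I - 1)) - t₀) / h) = (w : ℂ) + ((-(x - 1) / h : ℝ) : ℂ) * I := by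
    rw [hw]
    push_cast
    have hhc : (h : ℂ) ≠ 0 := by exact_mod_cast hh.ne'
    field_simp
    ring_nf
    rw [I_sq]
    ring
  rw [norm_mul, norm_mul, harg]
  have h1 := hAb (x + v * I) (by simpa using hx1) (by simpa using hx2)
  have him : ((x : ℂ) + v * I).im = v := by simp
  rw [him] at h1
  have h2 : ‖exp (u * ((x : ℂ) + v * I - 1))‖ ≤ Real.exp |u| := by
    rw [Complex.norm_exp]
    apply Real.exp_le_exp.mpr
    have : ((u : ℂ) * ((x : ℂ) + v * I - 1)).re = u * (x - 1) := by simp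
    rw [this]
    calc u * (x - 1) ≤ |u * (x - 1)| := le_abs_self _
      _ = |u| * |x - 1| := abs_mul _ _
      _ ≤ |u| * 1 := by
        gcongr
        rw [abs_le]; constructor <;> linarith
      _ = |u| := mul_one _
  have h3 : ‖W ((w : ℂ) + ((-(x - 1) / h : ℝ) : ℂ) * I)‖ ≤
      Cw * Real.exp (1 / h) / (1 + w ^ 2) ^ 3 := by
    refine (hWb _).trans ?_
    have e1 : ((w : ℂ) + ((-(x - 1) / h : ℝ) : ℂ) * I).im = -(x - 1) / h := by simp
    have e2 : ((w : ℂ) + ((-(x - 1) / h : ℝ) : ℂ) * I).re = w := by simp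
    rw [e1, e2]
    have h4 : |-(x - 1) / h| ≤ 1 / h := by
      rw [abs_div, abs_of_pos hh]
      gcongr
      rw [abs_le]; constructor <;> linarith
    have h5 : (1:ℝ) ≤ 1 + w ^ 2 := by nlinarith [sq_nonneg w]
    gcongr
  have h6 : (1 + |v|) ^ 2 ≤ (2 * (1 + |t₀|) ^ 2 + 2 * h ^ 2) * (1 + w ^ 2) := by
    have h7 : |v| ≤ |t₀| + h * |w| := by
      rw [hv]
      refine (abs_add_le _ _).trans ?_
      rw [abs_mul, abs_of_pos hh]
    have h8 : (1 + |v|) ^ 2 ≤ (1 + |t₀| + h * |w|) ^ 2 :=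
      pow_le_pow_left₀ (by positivity) (by linarith) 2
    have h9 : |w| ^ 2 = w ^ 2 := sq_abs w
    have h10 : (1 + |t₀| + h * |w|) ^ 2 ≤ 2 * (1 + |t₀|) ^ 2 + 2 * (h * |w|) ^ 2 := by
      nlinarith [sq_nonneg ((1 + |t₀|) - h * |w|)]
    calc (1 + |v|) ^ 2 ≤ 2 * (1 + |t₀|) ^ 2 + 2 * (h * |w|) ^ 2 := h8.trans h10
      _ = 2 * (1 + |t₀|) ^ 2 + 2 * h ^ 2 * w ^ 2 := by rw [mul_pow, h9]; ring
      _ ≤ _ := by
        have : 0 ≤ 2 * (1 + |t₀|) ^ 2 * w ^ 2 := by positivity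
        have : 0 ≤ 2 * h ^ 2 := by positivity
        nlinarith
  have hw1 : (1:ℝ) ≤ 1 + w ^ 2 := by nlinarith [sq_nonneg w]
  calc ‖A (x + v * I)‖ * ‖exp (u * ((x : ℂ) + v * I - 1))‖ *
        ‖W ((w : ℂ) + ((-(x - 1) / h : ℝ) : ℂ) * I)‖
      ≤ (Ca * ((2 * (1 + |t₀|) ^ 2 + 2 * h ^ 2) * (1 + w ^ 2))) * Real.exp |u| *
        (Cw * Real.exp (1 / h) / (1 + w ^ 2) ^ 3) := by
        gcongr
        exact h1.trans (by gcongr)
    _ = (Ca * (2 * (1 + |t₀|) ^ 2 + 2 * h ^ 2) * Real.exp |u| * (Cw * Real.exp (1 / h))) *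
        (1 / (1 + w ^ 2) ^ 2) := by
        field_simp
    _ ≤ _ := by
        gcongr
        rw [one_div]
        apply inv_anti₀ (by positivity)
        nlinarith

theorem fou_shift {K : ℕ} (hK : 3 ≤ K) {W : ℂ → ℂ} (hW : Differentiable ℂ W) {Cw : ℝ} (hCw : 0 ≤ Cw)
    (hWb : ∀ z : ℂ, ‖W z‖ ≤ Cw * Real.exp |z.im| / (1 + z.re ^ 2) ^ K)
    {A : ℂ → ℂ} (hA : Differentiable ℂ A) {Ca : ℝ} (hCa : 0 ≤ Ca)
    (hAb : ∀ s : ℂ, 1 ≤ s.re → s.re ≤ 2 → ‖A s‖ ≤ Ca * (1 + |s.im|) ^ 2)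
    {h : ℝ} (hh : 0 < h) (t₀ u : ℝ) :
    (∀ x : ℝ, 1 ≤ x → x ≤ 2 → Integrable (fun v : ℝ => fouH W A h t₀ u (x + v * I))) ∧
    ∫ v : ℝ, fouH W A h t₀ u ((1 : ℝ) + v * I) = ∫ v : ℝ, fouH W A h t₀ u ((2 : ℝ) + v * I) := by
  obtain ⟨g1, g2, g3⟩ := fou_g h t₀ hh
  have hd : Differentiable ℂ (fouH W A h t₀ u) := by
    unfold fouH
    fun_prop
  set M : ℝ := (Ca * (2 * (1 + |t₀|) ^ 2 + 2 * h ^ 2) * Real.exp |u| * (Cw * Real.exp (1 / h))) with hM
  have hb := fun x v hx1 hx2 => fou_bound hK hCw hWb hCa hAb hh t₀ u x v hx1 hx2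
  refine ⟨fun x hx1 hx2 => ?_, ?_⟩
  · refine Integrable.mono' (g1.const_mul M) ?_ (Eventually.of_forall fun v => hb x v hx1 hx2)
    have : Continuous (fun v : ℝ => fouH W A h t₀ u (x + v * I)) := by
      have := hd.continuous
      fun_prop
    exact this.aestronglyMeasurable
  · refine Pool.Agent.ZD.vert_shift (g := fun v => M * (1 + ((v - t₀) / h) ^ 2)⁻¹)
      (fun s _ => hd s) (g1.const_mul M) ?_ ?_ ?_
    · simpa using g2.const_mul M
    · simpa using g3.const_mul M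
    · intro x hx v
      rw [Set.uIcc_of_le (by norm_num)] at hx
      exact hb x v hx.1 hx.2

theorem Fourier_support {K : ℕ} (hK : 3 ≤ K) {d : ℕ} (hd : Squarefree d) {h t₀ u U : ℝ} (hh : 0 < h)
    (hu : |u| ≤ U) {N : ℕ} (hN : Real.exp (U + 1 / h) ≤ N) :
    Integrable (fun t : ℝ => Lf d (1 + t * I) * exp (I * u * t) * (wK K ((t - t₀) / h) : ℂ)) ∧
    ∫ t : ℝ, Lf d (1 + t * I) * exp (I * u * t) * (wK K ((t - t₀) / h) : ℂ) =
      ∫ t : ℝ, (∑ n ∈ Icc 1 N, (bd d n : ℂ) * npow n t) * exp (I * u * t) *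
        (wK K ((t - t₀) / h) : ℂ) := by
  obtain ⟨W, hW, hWr, Cw', hWb'⟩ := wK_entire (K := K) (by omega)
  set Cw : ℝ := max Cw' 0 with hCwdef
  have hCw : 0 ≤ Cw := le_max_right _ _
  have hWb : ∀ z : ℂ, ‖W z‖ ≤ Cw * Real.exp |z.im| / (1 + z.re ^ 2) ^ K := fun z =>
    (hWb' z).trans (by gcongr; exact le_max_left _ _)
  have hline : ∀ (A : ℂ → ℂ) (t : ℝ), fouH W A h t₀ u ((1 : ℝ) + t * I) =
      A (1 + t * I) * exp (I * u * t) * (wK K ((t - t₀) / h) : ℂ) := by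
    intro A t
    unfold fouH
    have e1 : ((-(I * (((1 : ℝ) : ℂ) + t * I - 1)) - t₀) / h : ℂ) = (((t - t₀) / h : ℝ) : ℂ) := by
      push_cast
      congr 1
      ring_nf
      rw [I_sq]
      ring
    have e2 : (u : ℂ) * (((1 : ℝ) : ℂ) + t * I - 1) = I * u * t := by push_cast; ring
    rw [e1, hWr, e2]
    simp
  -- the L-function
  obtain ⟨CL, hCL⟩ := Lf_poly
  have hLd : Differentiable ℂ (Lf d) := (Pool.Agent.ZD.Lf_spec hd).1
  obtain ⟨hLi, hLs⟩ := fou_shift hK hW hCw hWb hLd (Ca := max (CL * d) 0) (le_max_right _ _)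
    (fun s h1 h2 => (hCL d s hd h1 (by linarith)).trans
      (by gcongr; exact le_max_left _ _)) hh t₀ u
  have hLi1 := hLi 1 le_rfl (by norm_num)
  refine ⟨hLi1.congr (Eventually.of_forall fun t => hline _ t), ?_⟩
  have hL1 : ∫ t : ℝ, Lf d (1 + t * I) * exp (I * u * t) * (wK K ((t - t₀) / h) : ℂ) =
      ∫ v : ℝ, fouH W (Lf d) h t₀ u ((2 : ℝ) + v * I) := by
    rw [← hLs]
    exact integral_congr_ae (Eventually.of_forall fun t => (hline _ t).symm)
  -- the terms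
  set B : ℕ → ℂ → ℂ := fun n s => (bd d n : ℂ) * (n : ℂ) ^ (-s) with hB
  have hBn : ∀ n : ℕ, 0 < n → Differentiable ℂ (B n) := by
    intro n hn
    have hn' : (n : ℂ) ≠ 0 := by exact_mod_cast hn.ne'
    intro s
    apply DifferentiableAt.const_mul
    exact (differentiableAt_id.neg).const_cpow (Or.inl hn')
  have hBb : ∀ n : ℕ, 0 < n → ∀ s : ℂ, 1 ≤ s.re → s.re ≤ 2 →
      ‖B n s‖ ≤ ‖(bd d n : ℂ)‖ * (1 + |s.im|) ^ 2 := by
    intro n hn s h1 _
    simp only [hB]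
    rw [norm_mul, Complex.norm_natCast_cpow_of_pos hn]
    have h3 : (n : ℝ) ^ (-s).re ≤ 1 := by
      rw [neg_re]
      exact Real.rpow_le_one_of_one_le_of_nonpos (by exact_mod_cast hn) (by linarith)
    have h4 : (1:ℝ) ≤ (1 + |s.im|) ^ 2 := by nlinarith [abs_nonneg s.im]
    gcongr
    linarith
  have hsh : ∀ n : ℕ, 0 < n → (∀ x : ℝ, 1 ≤ x → x ≤ 2 →
      Integrable (fun v : ℝ => fouH W (B n) h t₀ u (x + v * I))) ∧
      ∫ v : ℝ, fouH W (B n) h t₀ u ((1 : ℝ) + v * I) =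
        ∫ v : ℝ, fouH W (B n) h t₀ u ((2 : ℝ) + v * I) := fun n hn =>
    fou_shift hK hW hCw hWb (hBn n hn) (norm_nonneg _) (hBb n hn) hh t₀ u
  -- value of the terms
  have hval : ∀ n : ℕ, N < n → ∫ v : ℝ, fouH W (B n) h t₀ u ((1 : ℝ) + v * I) = 0 := by
    intro n hn
    have hn0 : 0 < n := by omega
    have hnR : (0 : ℝ) < n := by exact_mod_cast hn0
    have hnc : (n : ℂ) ≠ 0 := by exact_mod_cast hn0.ne'
    have h1 : ∀ t : ℝ, fouH W (B n) h t₀ u ((1 : ℝ) + t * I) =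
        ((bd d n : ℂ) * (n : ℂ)⁻¹) * (exp (I * ((u - Real.log n : ℝ) : ℂ) * t) *
          (wK K ((t - t₀) / h) : ℂ)) := by
      intro t
      rw [hline]
      simp only [hB]
      have h2 : (n : ℂ) ^ (-(1 + (t : ℂ) * I)) = (n : ℂ)⁻¹ * exp (-(I * Real.log n * t)) := by
        rw [neg_add, Complex.cpow_add _ _ hnc, Complex.cpow_neg_one]
        congr 1
        rw [Complex.cpow_def_of_ne_zero hnc]
        congr 1
        rw [← Complex.natCast_log]
        ring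
      rw [h2]
      have h3 : exp (I * ((u - Real.log n : ℝ) : ℂ) * t) =
          exp (-(I * Real.log n * t)) * exp (I * u * t) := by
        rw [← Complex.exp_add]
        congr 1
        push_cast
        ring
      rw [h3]
      ring
    rw [integral_congr_ae (Eventually.of_forall h1), integral_const_mul,
      (what_scale (K := K) (by omega) hh t₀ (u - Real.log n)).2,
      what_eq_zero (by omega), mul_zero, mul_zero]
    have h4 : U + 1 / h ≤ Real.log n := by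
      rw [Real.le_log_iff_exp_le hnR]
      refine hN.trans ?_
      exact_mod_cast hn.le
    have h5 : 1 / h ≤ Real.log n - u := by
      have := le_abs_self u
      linarith
    rw [abs_mul, abs_of_pos hh, abs_sub_comm, abs_of_nonneg (by
      have : 0 < 1 / h := by positivity
      linarith)]
    calc (1:ℝ) = h * (1 / h) := by field_simp
      _ ≤ _ := by gcongr
  -- the sum on the line Re s = 2
  set Φ : ℝ → ℂ := fun v => exp (u * (((2 : ℝ) : ℂ) + v * I - 1)) *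
    W ((-(I * (((2 : ℝ) : ℂ) + v * I - 1)) - t₀) / h) with hΦ
  have hΦi : Integrable Φ := by
    have h1 := (fou_shift hK hW hCw hWb (A := fun _ => 1) (differentiable_const _) (Ca := 1)
      zero_le_one (fun s _ _ => by
        have := abs_nonneg s.im
        rw [norm_one]; nlinarith) hh t₀ u).1 2 (by norm_num) le_rfl
    refine h1.congr (Eventually.of_forall fun v => ?_)
    simp only [fouH, hΦ, one_mul]
  have hnorm : ∀ (n : ℕ) (v : ℝ), ‖fouH W (B n) h t₀ u ((2 : ℝ) + v * I)‖ =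
      ‖(bd d n : ℂ) * (n : ℂ) ^ (-(2 : ℂ))‖ * ‖Φ v‖ := by
    intro n v
    rcases Nat.eq_zero_or_pos n with rfl | hn
    · simp [fouH, hB, Pool.Agent.H5.bd_zero]
    · simp only [fouH, hB, hΦ]
      rw [mul_assoc, norm_mul, norm_mul ((bd d n : ℂ)), norm_mul ((bd d n : ℂ)),
        Complex.norm_natCast_cpow_of_pos hn, Complex.norm_natCast_cpow_of_pos hn]
      simp
  have hsum : ∀ v : ℝ, fouH W (Lf d) h t₀ u ((2 : ℝ) + v * I) =
      ∑' n : ℕ, fouH W (B n) h t₀ u ((2 : ℝ) + v * I) := by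
    intro v
    have h32 : 3 / 2 < (((2 : ℝ) : ℂ) + v * I).re := by simp; norm_num
    unfold fouH
    rw [(Pool.Agent.ZD.Lf_spec hd).2 _ h32, Pool.Agent.H5.Lser, tsum_mul_right, tsum_mul_right]
  have hbd2 : Summable (fun n : ℕ => ‖(bd d n : ℂ) * (n : ℂ) ^ (-(2 : ℂ))‖) := by
    have := Pool.Agent.H5.summable_bd (d : ℤ) (s := (2 : ℂ)) (by norm_num)
    simpa using this
  have hint : ∀ n : ℕ, Integrable (fun v : ℝ => fouH W (B n) h t₀ u ((2 : ℝ) + v * I)) := by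
    intro n
    rcases Nat.eq_zero_or_pos n with rfl | hn
    · have : (fun v : ℝ => fouH W (B 0) h t₀ u ((2 : ℝ) + v * I)) = fun _ => 0 := by
        funext v
        simp [fouH, hB, Pool.Agent.H5.bd_zero]
      rw [this]
      exact integrable_zero _ _ _
    · exact (hsh n hn).1 2 (by norm_num) le_rfl
  have hswap : ∫ v : ℝ, fouH W (Lf d) h t₀ u ((2 : ℝ) + v * I) =
      ∑' n : ℕ, ∫ v : ℝ, fouH W (B n) h t₀ u ((2 : ℝ) + v * I) := by
    rw [integral_congr_ae (Eventually.of_forall hsum)]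
    refine (integral_tsum_of_summable_integral_norm hint ?_).symm
    simp_rw [hnorm, integral_const_mul]
    exact hbd2.mul_right _
  rw [hL1, hswap, tsum_eq_sum (s := Icc 1 N)]
  · have h1 : ∀ t : ℝ, (∑ n ∈ Icc 1 N, (bd d n : ℂ) * npow n t) * exp (I * u * t) *
        (wK K ((t - t₀) / h) : ℂ) = ∑ n ∈ Icc 1 N, fouH W (B n) h t₀ u ((1 : ℝ) + t * I) := by
      intro t
      rw [Finset.sum_mul, Finset.sum_mul]
      refine Finset.sum_congr rfl fun n _ => ?_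
      rw [hline]
      rfl
    rw [integral_congr_ae (Eventually.of_forall h1), integral_finsetSum]
    · refine Finset.sum_congr rfl fun n hn => ?_
      exact ((hsh n (Finset.mem_Icc.mp hn).1).2).symm
    · intro n hn
      exact (hsh n (Finset.mem_Icc.mp hn).1).1 1 le_rfl (by norm_num)
  · intro n hn
    rcases Nat.eq_zero_or_pos n with rfl | hn0
    · have : (fun v : ℝ => fouH W (B 0) h t₀ u ((2 : ℝ) + v * I)) = fun _ => 0 := by
        funext v
        simp [fouH, hB, Pool.Agent.H5.bd_zero]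
      rw [this]
      simp
    · have hNn : N < n := by
        by_contra hcon
        exact hn (Finset.mem_Icc.mpr ⟨hn0, by omega⟩)
      rw [← (hsh n hn0).2]
      exact hval n hNn

end Pool.Agent.CZ
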