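import Mathlib
import Pool.Agent.CZ.Defs
import Pool.Agent.CZ.W
import Pool.Agent.CZ.IBAS
import Pool.Agent.CZ.SUMS
import Pool.Agent.CZ.CPL

/-! Module GGP: `GG` is a short polynomial in the characters `(D/n)` (MP_553913_nt). -/

set_option autoImplicit false

open Complex Finset MeasureTheory

namespace Pool.Agent.CZ

open Pool.Agent.H5 (c bd)
open Pool.Agent.ZD (S Lf nu tau)

/-- trigonometric polynomials in `t` of frequency at most `F` with coefficients that are short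
character polynomials in `D` -/
def GGPTrig (F : ℝ) (N : ℕ) (B : ℝ) (f : ℤ → ℝ → ℂ) : Prop :=
  ∃ (ι : Type) (_ : Fintype ι) (A : ι → ℤ → ℂ) (u : ι → ℝ) (b : ι → ℝ),
    (∀ k, |u k| ≤ F) ∧ (∀ k, CP N (b k) (A k)) ∧ (∑ k, b k ≤ B) ∧
      ∀ D t, f D t = ∑ k, A k D * exp (I * u k * t)

theorem GGP_CP_nonneg {N : ℕ} {B : ℝ} {f : ℤ → ℂ} (h : CP N B f) : 0 ≤ B := by
  obtain ⟨a, -, h1, -⟩ := h
  exact (Finset.sum_nonneg fun n _ => norm_nonneg _).trans h1

theorem GGPTrig.of_exp {F : ℝ} {N : ℕ} {B : ℝ} {f : ℤ → ℂ} (h : CP N B f) {u : ℝ} (hu : |u| ≤ F) :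
    GGPTrig F N B (fun D t => f D * exp (I * u * t)) :=
  ⟨Unit, inferInstance, fun _ => f, fun _ => u, fun _ => B, fun _ => hu, fun _ => h, by simp,
    fun D t => by simp⟩

theorem GGPTrig.const {F : ℝ} (hF : 0 ≤ F) {N : ℕ} {B : ℝ} {f : ℤ → ℂ} (h : CP N B f) :
    GGPTrig F N B (fun D _ => f D) :=
  ⟨Unit, inferInstance, fun _ => f, fun _ => 0, fun _ => B, fun _ => by simpa using hF, fun _ => h,
    by simp, fun D t => by simp⟩

theorem GGPTrig.congr {F : ℝ} {N : ℕ} {B : ℝ} {f g : ℤ → ℝ → ℂ} (h : GGPTrig F N B f)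
    (hfg : ∀ D t, g D t = f D t) : GGPTrig F N B g := by
  obtain ⟨ι, i1, A, u, b, h1, h2, h3, h4⟩ := h
  exact ⟨ι, i1, A, u, b, h1, h2, h3, fun D t => (hfg D t).trans (h4 D t)⟩

theorem GGPTrig.mono {F F' : ℝ} {N N' : ℕ} {B B' : ℝ} {f : ℤ → ℝ → ℂ} (h : GGPTrig F N B f)
    (hF : F ≤ F') (hN : N ≤ N') (hB : B ≤ B') : GGPTrig F' N' B' f := by
  obtain ⟨ι, i1, A, u, b, h1, h2, h3, h4⟩ := h
  exact ⟨ι, i1, A, u, b, fun k => (h1 k).trans hF, fun k => CP_mono (h2 k) hN le_rfl,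
    h3.trans hB, h4⟩

theorem GGPTrig.zero {F : ℝ} {N : ℕ} : GGPTrig F N 0 (fun _ _ => 0) :=
  ⟨Empty, inferInstance, fun k => k.elim, fun k => k.elim, fun k => k.elim, fun k => k.elim,
    fun k => k.elim, by simp, fun D t => by simp⟩

theorem GGPTrig.add {F : ℝ} {N : ℕ} {B B' : ℝ} {f g : ℤ → ℝ → ℂ} (hf : GGPTrig F N B f)
    (hg : GGPTrig F N B' g) : GGPTrig F N (B + B') (fun D t => f D t + g D t) := by
  obtain ⟨ι, i1, A, u, b, h1, h2, h3, h4⟩ := hf
  obtain ⟨κ, i2, A', u', b', k1, k2, k3, k4⟩ := hg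
  refine ⟨ι ⊕ κ, inferInstance, Sum.elim A A', Sum.elim u u', Sum.elim b b', ?_, ?_, ?_, ?_⟩
  · rintro (k | k)
    · exact h1 k
    · exact k1 k
  · rintro (k | k)
    · exact h2 k
    · exact k2 k
  · simp only [Fintype.sum_sum_type, Sum.elim_inl, Sum.elim_inr]
    exact add_le_add h3 k3
  · intro D t
    simp only [Fintype.sum_sum_type, Sum.elim_inl, Sum.elim_inr]
    rw [h4, k4]

theorem GGPTrig.sum {κ : Type*} (s : Finset κ) {F : ℝ} {N : ℕ} {B : κ → ℝ} {f : κ → ℤ → ℝ → ℂ}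
    (hf : ∀ i ∈ s, GGPTrig F N (B i) (f i)) :
    GGPTrig F N (∑ i ∈ s, B i) (fun D t => ∑ i ∈ s, f i D t) := by
  classical
  induction s using Finset.induction_on with
  | empty => simpa using GGPTrig.zero
  | insert i s hi ih =>
    have h1 := (hf i (mem_insert_self i s)).add (ih fun j hj => hf j (mem_insert_of_mem hj))
    rw [Finset.sum_insert hi]
    exact h1.congr fun D t => by rw [Finset.sum_insert hi]

theorem GGPTrig.mul {F F' : ℝ} {N N' : ℕ} {B B' : ℝ} {f g : ℤ → ℝ → ℂ} (hf : GGPTrig F N B f)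
    (hg : GGPTrig F' N' B' g) :
    GGPTrig (F + F') (N * N') (B * B') (fun D t => f D t * g D t) := by
  obtain ⟨ι, i1, A, u, b, h1, h2, h3, h4⟩ := hf
  obtain ⟨κ, i2, A', u', b', k1, k2, k3, k4⟩ := hg
  refine ⟨ι × κ, inferInstance, fun p D => A p.1 D * A' p.2 D, fun p => u p.1 + u' p.2,
    fun p => b p.1 * b' p.2, ?_, ?_, ?_, ?_⟩
  · intro p
    exact (abs_add_le _ _).trans (add_le_add (h1 _) (k1 _))
  · intro p
    exact CP_mul (h2 _) (k2 _)
  · rw [Fintype.sum_prod_type]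
    simp only [← Finset.mul_sum, ← Finset.sum_mul]
    have hb : 0 ≤ ∑ k, b k := Finset.sum_nonneg fun k _ => GGP_CP_nonneg (h2 k)
    have hb' : 0 ≤ ∑ k, b' k := Finset.sum_nonneg fun k _ => GGP_CP_nonneg (k2 k)
    exact mul_le_mul h3 k3 hb' (hb.trans h3)
  · intro D t
    show f D t * g D t = _
    rw [h4, k4, Fintype.sum_prod_type, Finset.sum_mul]
    refine Finset.sum_congr rfl fun i _ => ?_
    rw [Finset.mul_sum]
    refine Finset.sum_congr rfl fun j _ => ?_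
    have : exp (I * ((u i + u' j : ℝ) : ℂ) * t) = exp (I * u i * t) * exp (I * u' j * t) := by
      rw [← Complex.exp_add]
      congr 1
      push_cast
      ring
    rw [this]
    ring

theorem GGPTrig.smul {F : ℝ} {N : ℕ} {B : ℝ} {f : ℤ → ℝ → ℂ} (w : ℂ) (hf : GGPTrig F N B f) :
    GGPTrig F N (‖w‖ * B) (fun D t => w * f D t) := by
  obtain ⟨ι, i1, A, u, b, h1, h2, h3, h4⟩ := hf
  refine ⟨ι, i1, fun k D => w * A k D, u, fun k => ‖w‖ * b k, h1, fun k => CP_smul w (h2 k), ?_, ?_⟩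
  · rw [← Finset.mul_sum]
    exact mul_le_mul_of_nonneg_left h3 (norm_nonneg _)
  · intro D t
    show w * f D t = _
    rw [h4, Finset.mul_sum]
    refine Finset.sum_congr rfl fun k _ => ?_
    ring

theorem GGPTrig.conj {F : ℝ} {N : ℕ} {B : ℝ} {f : ℤ → ℝ → ℂ} (hf : GGPTrig F N B f) :
    GGPTrig F N B (fun D t => (starRingEnd ℂ) (f D t)) := by
  obtain ⟨ι, i1, A, u, b, h1, h2, h3, h4⟩ := hf
  refine ⟨ι, i1, fun k D => (starRingEnd ℂ) (A k D), fun k => -u k, b, fun k => ?_,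
    fun k => CP_conj (h2 k), h3, ?_⟩
  · rw [abs_neg]; exact h1 k
  · intro D t
    show (starRingEnd ℂ) (f D t) = _
    rw [h4, map_sum]
    refine Finset.sum_congr rfl fun k _ => ?_
    rw [map_mul, ← Complex.exp_conj]
    congr 2
    simp only [map_mul, Complex.conj_I, Complex.conj_ofReal, Complex.ofReal_neg]
    ring

theorem GGPTrig.pow {F : ℝ} {N : ℕ} {B : ℝ} {f : ℤ → ℝ → ℂ} (hf : GGPTrig F N B f) (k : ℕ) :
    GGPTrig (k * F) (N ^ k) (B ^ k) (fun D t => f D t ^ k) := by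
  induction k with
  | zero =>
    have h1 : CP 1 1 (fun _ => (1 : ℂ)) := CP_const le_rfl (by simp)
    have h2 := GGPTrig.const (F := 0) le_rfl h1
    simpa using h2
  | succ k ih =>
    have h1 := ih.mul hf
    rw [pow_succ, pow_succ]
    refine (h1.congr fun D t => by rw [pow_succ]).mono (le_of_eq ?_) le_rfl le_rfl
    push_cast
    ring

/-- `n^{-1-it}` as an exponential -/
theorem GGP_npow {n : ℕ} (hn : 0 < n) (t : ℝ) :
    npow n t = ((n : ℝ)⁻¹ : ℝ) * exp (I * ((-Real.log n : ℝ) : ℂ) * t) := by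
  unfold npow
  have hn0 : (n : ℂ) ≠ 0 := by exact_mod_cast hn.ne'
  rw [Complex.cpow_def_of_ne_zero hn0, ← Complex.ofReal_natCast, ← Complex.ofReal_log (Nat.cast_nonneg n)]
  have h1 : (((n : ℝ)⁻¹ : ℝ) : ℂ) = exp ((-Real.log n : ℝ) : ℂ) := by
    rw [← Complex.ofReal_exp, Real.exp_neg, Real.exp_log (by exact_mod_cast hn)]
  rw [h1, ← Complex.exp_add]
  congr 1
  push_cast
  ring

theorem GGP_char_term {n N : ℕ} (hn : Odd n) (hN : n ≤ N) (w : ℤ) {B : ℝ}
    (hw : |(w : ℝ)| ≤ B * n) {F : ℝ} (hF : Real.log n ≤ F) :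
    GGPTrig F N B (fun D t => ((w * jacobiSym D n : ℤ) : ℂ) * npow n t) := by
  have hn0 : 0 < n := hn.pos
  have hn1 : (0 : ℝ) < n := by exact_mod_cast hn0
  have h1 : CP N (‖((w : ℂ) * ((n : ℝ)⁻¹ : ℝ))‖ * 1)
      (fun D => ((w : ℂ) * ((n : ℝ)⁻¹ : ℝ)) * ((jacobiSym D n : ℤ) : ℂ)) :=
    CP_smul _ (CP_char hn hN)
  have h2 : ‖((w : ℂ) * ((n : ℝ)⁻¹ : ℝ))‖ * 1 ≤ B := by
    rw [mul_one, norm_mul, Complex.norm_real, Complex.norm_intCast, Real.norm_eq_abs,
      abs_of_pos (inv_pos.2 hn1), ← div_eq_mul_inv, div_le_iff₀ hn1]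
    exact hw
  have h3 : |(-Real.log n)| ≤ F := by
    rw [abs_neg, abs_of_nonneg (Real.log_natCast_nonneg n)]
    exact hF
  refine (GGPTrig.of_exp (CP_mono h1 le_rfl h2) h3).congr fun D t => ?_
  rw [GGP_npow hn0]
  push_cast
  ring

theorem GGP_abs_c_le (n : ℕ) : |(c n : ℝ)| ≤ 2 * n := by
  calc |(c n : ℝ)| ≤ n.divisors.card * Real.sqrt n := Pool.Agent.ZD.abs_c_le' n
    _ ≤ (2 * Real.sqrt n) * Real.sqrt n := by
        gcongr
        exact bas_divisors_le n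
    _ = 2 * n := by rw [mul_assoc, Real.mul_self_sqrt (Nat.cast_nonneg n)]

theorem GGP_dir (N : ℕ) :
    GGPTrig (Real.log N) N (2 * N) (fun D t => ∑ n ∈ Icc 1 N, (bd D n : ℂ) * npow n t) := by
  have h1 : GGPTrig (Real.log N) N (∑ n ∈ Icc 1 N, (2 : ℝ))
      (fun D t => ∑ n ∈ Icc 1 N, (bd D n : ℂ) * npow n t) := by
    refine GGPTrig.sum _ fun n hn => ?_
    obtain ⟨hn1, hn2⟩ := Finset.mem_Icc.1 hn
    rcases Nat.even_or_odd n with he | ho
    · have hc : c n = 0 := by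
        unfold Pool.Agent.H5.c
        rw [Pool.Agent.H5.C_of_even (Nat.even_iff.1 he)]
        rfl
      refine (GGPTrig.zero.mono le_rfl le_rfl (by norm_num : (0 : ℝ) ≤ 2)).congr fun D t => ?_
      simp [bd, hc]
    · have h2 := GGP_char_term ho hn2 (c n) (B := 2) (GGP_abs_c_le n)
        (F := Real.log N) (Real.log_le_log (by exact_mod_cast hn1) (by exact_mod_cast hn2))
      refine h2.congr fun D t => ?_
      unfold bd
      rw [mul_comm (jacobiSym D n)]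
  refine h1.mono le_rfl le_rfl (le_of_eq ?_)
  simp [Finset.sum_const, Nat.card_Icc]
  ring

theorem GGP_odd_prime {p a b : ℕ} (hp : p ∈ primesIoc a b) : Odd p ∧ p ≤ b ∧ a < p ∧ p.Prime := by
  unfold primesIoc at hp
  obtain ⟨h1, h2, h3⟩ := Finset.mem_filter.1 hp
  obtain ⟨h4, h5⟩ := Finset.mem_Ioc.1 h1
  exact ⟨h2.odd_of_ne_two h3, h5, h4, h2⟩

theorem GGP_abs_c_prime {p : ℕ} (hp : p.Prime) (h4 : 4 ≤ p) : |(c p : ℝ)| ≤ p := by
  have h1 := abs_c_prime hp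
  have h2 : (2 : ℝ) ≤ Real.sqrt p := by
    rw [show (2 : ℝ) = Real.sqrt 4 by
      rw [show (4 : ℝ) = 2 ^ 2 by norm_num]; exact (Real.sqrt_sq (by norm_num)).symm]
    exact Real.sqrt_le_sqrt (by exact_mod_cast h4)
  calc |(c p : ℝ)| ≤ 2 * Real.sqrt p := h1
    _ ≤ Real.sqrt p * Real.sqrt p := by gcongr
    _ = p := Real.mul_self_sqrt (Nat.cast_nonneg p)

theorem GGP_PSum {a b : ℕ} (ha : z0 ≤ a) :
    GGPTrig (Real.log b) b b (fun D t => PSum a b D t) := by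
  have h1 : GGPTrig (Real.log b) b (∑ p ∈ primesIoc a b, (1 : ℝ)) (fun D t => PSum a b D t) := by
    unfold PSum
    refine GGPTrig.sum _ fun p hp => ?_
    obtain ⟨ho, hb, hap, hpp⟩ := GGP_odd_prime hp
    have hz : 10000 ≤ a := ha
    have h2 := GGP_char_term ho hb (c p) (B := 1)
      (by rw [one_mul]; exact GGP_abs_c_prime hpp (by omega))
      (F := Real.log b) (Real.log_le_log (by exact_mod_cast hpp.pos) (by exact_mod_cast hb))
    refine h2.congr fun D t => ?_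
    unfold bd
    rw [mul_comm (jacobiSym D p)]
  refine h1.mono le_rfl le_rfl ?_
  rw [Finset.sum_const, nsmul_eq_mul, mul_one]
  have h3 : (primesIoc a b).card ≤ b := by
    unfold primesIoc
    refine (Finset.card_filter_le _ _).trans ?_
    rw [Nat.card_Ioc]
    omega
  exact_mod_cast h3

theorem GGP_nuF {p e : ℕ} (hp : p.Prime) (h4 : 4 ≤ p) : |(Pool.Agent.ZD.nuF p e : ℝ)| ≤ (p : ℝ) ^ e := by
  unfold Pool.Agent.ZD.nuF
  have hp1 : (1 : ℝ) ≤ p := by exact_mod_cast hp.one_lt.le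
  split_ifs with h0 h1 h2 h3
  · subst h0; simp
  · subst h1
    push_cast
    rw [abs_neg, pow_one]
    exact GGP_abs_c_prime hp h4
  · simp
  · subst h2
    push_cast
    rw [abs_of_nonneg (Nat.cast_nonneg p)]
    nlinarith
  · simp

theorem GGP_nu {h : ℕ} (h0 : h ≠ 0) (hh : ∀ p, p.Prime → p ∣ h → 4 ≤ p) :
    |(nu h : ℝ)| ≤ h := by
  have h1 : (nu h : ℝ) = ∏ p ∈ h.factorization.support,
      ((Pool.Agent.ZD.nuF p (h.factorization p) : ℤ) : ℝ) := by
    unfold Pool.Agent.ZD.nu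
    rw [Finsupp.prod]
    push_cast
    rfl
  have h2 : (h : ℝ) = ∏ p ∈ h.factorization.support, (p : ℝ) ^ (h.factorization p) := by
    conv_lhs => rw [← Nat.prod_factorization_pow_eq_self h0]
    rw [Finsupp.prod]
    push_cast
    rfl
  rw [h1, h2, Finset.abs_prod]
  refine Finset.prod_le_prod (fun p _ => abs_nonneg _) fun p hp => ?_
  have hp' : p ∈ h.primeFactors := by
    rw [← Nat.support_factorization]; exact hp
  exact GGP_nuF (Nat.prime_of_mem_primeFactors hp')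
    (hh p (Nat.prime_of_mem_primeFactors hp') (Nat.dvd_of_mem_primeFactors hp'))

theorem GGP_mem_smooth {a b m h : ℕ} (hh : h ∈ smoothSet a b m) :
    1 ≤ h ∧ h ≤ b ^ m ∧ ∀ p, p.Prime → p ∣ h → a < p ∧ p ≤ b := by
  classical
  unfold smoothSet at hh
  obtain ⟨h2, h3, -⟩ := Finset.mem_filter.1 hh
  obtain ⟨h4, h5⟩ := Finset.mem_Icc.1 h2
  exact ⟨h4, h5, h3⟩

theorem GGP_card_smooth (a b m : ℕ) : (smoothSet a b m).card ≤ b ^ m := by
  have h1 : smoothSet a b m ⊆ Icc 1 (b ^ m) := fun h hh => by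
    obtain ⟨h2, h3, -⟩ := GGP_mem_smooth hh
    exact Finset.mem_Icc.2 ⟨h2, h3⟩
  have h2 := Finset.card_le_card h1
  rw [Nat.card_Icc] at h2
  omega

theorem GGP_Mo' {a b m : ℕ} (ha : z0 ≤ a) (hab : a ≤ b) :
    GGPTrig (m * Real.log b) (b ^ m) ((b : ℝ) ^ m) (fun D t => Mo' a b m D t) := by
  have hz : 10000 ≤ a := ha
  have hb0 : 0 < b := by omega
  have h1 : GGPTrig (m * Real.log b) (b ^ m) (∑ h ∈ smoothSet a b m, (1 : ℝ))
      (fun D t => Mo' a b m D t) := by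
    unfold Mo'
    refine GGPTrig.sum _ fun h hh => ?_
    obtain ⟨h4, h5, h3⟩ := GGP_mem_smooth hh
    have ho : Odd h := by
      rw [Nat.odd_iff]
      by_contra hcon
      have h6 : 2 ∣ h := by omega
      have := (h3 2 Nat.prime_two h6).1
      omega
    have h7 : |(nu h : ℝ)| ≤ 1 * h := by
      rw [one_mul]
      refine GGP_nu (by omega) fun p hp hpd => ?_
      have := (h3 p hp hpd).1
      omega
    refine GGP_char_term ho h5 (nu h) h7 ?_
    calc Real.log h ≤ Real.log ((b ^ m : ℕ) : ℝ) :=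
          Real.log_le_log (by exact_mod_cast h4) (by exact_mod_cast h5)
      _ = m * Real.log b := by push_cast; rw [Real.log_pow]
  refine h1.mono le_rfl le_rfl ?_
  rw [Finset.sum_const, nsmul_eq_mul, mul_one]
  exact_mod_cast GGP_card_smooth a b m

theorem GGP_theta {a b : ℕ} (ha : z0 ≤ a) :
    GGPTrig (Real.log b) b b (fun D t => -(I * theta a b D t)) := by
  have h1 := GGP_PSum (b := b) ha
  have h2 := (h1.smul (-1 / 2)).add (h1.conj.smul (1 / 2))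
  refine (h2.congr fun D t => ?_).mono le_rfl le_rfl (le_of_eq ?_)
  · unfold theta
    have h3 := Complex.sub_conj (PSum a b D t)
    have h4 : I * (((PSum a b D t).im : ℝ) : ℂ) = (PSum a b D t - (starRingEnd ℂ) (PSum a b D t)) / 2 := by
      rw [h3]; push_cast; ring
    rw [h4]
    ring
  · norm_num
    ring

theorem GGP_gT {z y m : ℕ} (hz : z0 ≤ z) (hy : z ≤ y) :
    GGPTrig (m * Real.log y) (y ^ m) (3 * (y : ℝ) ^ m) (fun D t => gT z y m D t) := by
  have hz' : 10000 ≤ z := hz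
  have hy1 : (1 : ℝ) ≤ y := by exact_mod_cast (by omega : 1 ≤ y)
  have hlog : 0 ≤ Real.log y := Real.log_natCast_nonneg y
  have h1 : GGPTrig (m * Real.log y) (y ^ m) (∑ j ∈ range (m + 1), (y : ℝ) ^ m * (1 / (j.factorial : ℝ)))
      (fun D t => gT z y m D t) := by
    unfold gT
    refine GGPTrig.sum _ fun j hj => ?_
    have hjm : j ≤ m := by have := Finset.mem_range.1 hj; omega
    have h2 := ((GGP_theta (b := y) hz).pow j).smul (1 / (j.factorial : ℂ))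
    refine (h2.congr fun D t => by ring).mono ?_ ?_ ?_
    · exact mul_le_mul_of_nonneg_right (by exact_mod_cast hjm) hlog
    · exact Nat.pow_le_pow_right (by omega) hjm
    · rw [mul_comm]
      have h3 : ‖(1 / (j.factorial : ℂ))‖ = 1 / (j.factorial : ℝ) := by
        rw [norm_div, norm_one, Complex.norm_natCast]
      rw [h3]
      exact mul_le_mul_of_nonneg_right (pow_le_pow_right₀ hy1 hjm) (by positivity)
  refine h1.mono le_rfl le_rfl ?_
  rw [← Finset.mul_sum, mul_comm]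
  refine mul_le_mul_of_nonneg_right ?_ (by positivity)
  have h4 := Real.sum_le_exp_of_nonneg (x := 1) zero_le_one (m + 1)
  have h5 : ∑ j ∈ range (m + 1), (1 : ℝ) ^ j / (j.factorial : ℝ) =
      ∑ j ∈ range (m + 1), 1 / (j.factorial : ℝ) := by simp
  rw [h5] at h4
  exact h4.trans (by have := Real.exp_one_lt_d9; linarith)

theorem GGP_TT : ∃ C : ℕ, 1 ≤ C ∧ ∀ (z₁ z y m : ℕ) (t₀ : ℝ), z0 ≤ z₁ → z₁ ≤ z → z ≤ y →
    GGPTrig (4 * m * Real.log y) (C * y ^ (4 * m)) (C * (y : ℝ) ^ (4 * m))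
      (fun D t => TT z₁ z y m D t t₀) := by
  obtain ⟨C, hC⟩ := CP_Mo
  refine ⟨3 * C + 1, by omega, fun z₁ z y m t₀ h1 h2 h3 => ?_⟩
  have hz' : 10000 ≤ z₁ := h1
  have hy1 : (1 : ℝ) ≤ y := by exact_mod_cast (by omega : 1 ≤ y)
  have hz1 : (1 : ℝ) ≤ z := by exact_mod_cast (by omega : 1 ≤ z)
  have hlog : 0 ≤ Real.log y := Real.log_natCast_nonneg y
  have hlz : Real.log z ≤ Real.log y :=
    Real.log_le_log (by linarith) (by exact_mod_cast h3)
  have e1 := GGPTrig.const (F := 0) le_rfl (hC z₁ m t₀ h1)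
  have e2 := GGP_Mo' (m := m) (h1.trans h2 |>.trans le_rfl |> fun h => (show z0 ≤ z₁ from h1)) h2
  have e3 := GGP_gT (m := m) (h1.trans h2) h3
  have e4 := (e1.mul e2).mul e3
  unfold TT
  have hm : (0 : ℝ) ≤ m := Nat.cast_nonneg m
  refine e4.mono ?_ ?_ ?_
  · have : (m : ℝ) * Real.log z ≤ m * Real.log y := mul_le_mul_of_nonneg_left hlz hm
    have h5 : 0 ≤ (m : ℝ) * Real.log y := mul_nonneg hm hlog
    nlinarith
  · have a1 : z₁ ^ m ≤ y ^ m := Nat.pow_le_pow_left (h2.trans h3) m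
    have a2 : z ^ m ≤ y ^ m := Nat.pow_le_pow_left h3 m
    have a3 : 1 ≤ y ^ m := Nat.one_le_pow _ _ (by omega)
    calc C * z₁ ^ m * z ^ m * y ^ m ≤ C * y ^ m * y ^ m * y ^ m := by gcongr
      _ ≤ C * y ^ m * y ^ m * y ^ m * y ^ m := Nat.le_mul_of_pos_right _ a3
      _ = C * y ^ (4 * m) := by ring
      _ ≤ (3 * C + 1) * y ^ (4 * m) := Nat.mul_le_mul_right _ (by omega)
  · have a1 : (z₁ : ℝ) ^ m ≤ (y : ℝ) ^ m := pow_le_pow_left₀ (by positivity)
      (by exact_mod_cast h2.trans h3) m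
    have a2 : (z : ℝ) ^ m ≤ (y : ℝ) ^ m := pow_le_pow_left₀ (by positivity) (by exact_mod_cast h3) m
    have a3 : (1 : ℝ) ≤ (y : ℝ) ^ m := one_le_pow₀ hy1
    have hC0 : (0 : ℝ) ≤ C := Nat.cast_nonneg C
    calc (C : ℝ) * (z₁ : ℝ) ^ m * (z : ℝ) ^ m * (3 * (y : ℝ) ^ m)
        ≤ C * (y : ℝ) ^ m * (y : ℝ) ^ m * (3 * (y : ℝ) ^ m) := by gcongr
      _ ≤ C * (y : ℝ) ^ m * (y : ℝ) ^ m * (3 * (y : ℝ) ^ m) * (y : ℝ) ^ m :=
          le_mul_of_one_le_right (by positivity) a3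
      _ = (3 * C) * (y : ℝ) ^ (4 * m) := by ring
      _ ≤ ((3 * C + 1 : ℕ) : ℝ) * (y : ℝ) ^ (4 * m) := by
          push_cast
          have : (0 : ℝ) ≤ (y : ℝ) ^ (4 * m) := by positivity
          nlinarith

/-- GGP: `GG` is a short polynomial in the characters `(D/n)` -/
theorem GG_poly {K : ℕ} (hK : 3 ≤ K) : ∃ C : ℕ,
    ∀ (h t₀ : ℝ) (N z₁ z y m : ℕ), 0 < h → h ≤ 1 → z0 ≤ z₁ → z₁ ≤ z → z ≤ y →
    1 ≤ m → 1 ≤ N → ∃ N' : ℕ, N ≤ N' ∧ y ≤ N' ∧ N' ≤ C * N * y ^ (4 * m) ∧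
      CP N' (C * (N : ℝ) ^ 2 * (y : ℝ) ^ (8 * m)) (fun D => GG K N z₁ z y m h D t₀) := by
  obtain ⟨C, hC1, hC⟩ := GGP_TT
  obtain ⟨W, hW⟩ := what_norm_le K
  obtain ⟨W', hW'⟩ := exists_nat_ge W
  refine ⟨2 * C * (W' + 1), fun h t₀ N z₁ z y m hh hh1 h1 h2 h3 hm hN => ?_⟩
  have hz' : 10000 ≤ z₁ := h1
  have hy0 : 1 ≤ y := by omega
  have hy1 : (1 : ℝ) ≤ y := by exact_mod_cast hy0
  have hN1 : (1 : ℝ) ≤ N := by exact_mod_cast hN
  have a3 : 1 ≤ y ^ (4 * m) := Nat.one_le_pow _ _ (by omega)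
  have e1 := (GGP_dir N).mul (hC z₁ z y m t₀ h1 h2 h3)
  obtain ⟨ι, i1, A, u, b, k1, k2, k3, k4⟩ := e1
  refine ⟨N * (C * y ^ (4 * m)), ?_, ?_, ?_, ?_⟩
  · exact Nat.le_mul_of_pos_right _ (by positivity)
  · calc y = y ^ 1 := (pow_one y).symm
      _ ≤ y ^ (4 * m) := Nat.pow_le_pow_right (by omega) (by omega)
      _ ≤ C * y ^ (4 * m) := Nat.le_mul_of_pos_left _ (by omega)
      _ ≤ N * (C * y ^ (4 * m)) := Nat.le_mul_of_pos_left _ (by omega)
  · calc N * (C * y ^ (4 * m)) = C * 1 * N * y ^ (4 * m) := by ring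
      _ ≤ 2 * C * (W' + 1) * N * y ^ (4 * m) := by
          gcongr
          · omega
          · omega
  · have key : ∀ D : ℤ, GG K N z₁ z y m h D t₀ =
        ∑ k, (exp (I * u k * t₀) * what K (h * u k)) * A k D := by
      intro D
      unfold GG
      have h5 : ∀ t : ℝ, (∑ n ∈ Icc 1 N, (bd D n : ℂ) * npow n t) * TT z₁ z y m D t t₀ *
          (wK K ((t - t₀) / h) : ℂ) =
          ∑ k, A k D * (exp (I * u k * t) * (wK K ((t - t₀) / h) : ℂ)) := by
        intro t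
        have h6 : (∑ n ∈ Icc 1 N, (bd D n : ℂ) * npow n t) * TT z₁ z y m D t t₀ =
            ∑ k, A k D * exp (I * u k * t) := k4 D t
        rw [h6, Finset.sum_mul]
        refine Finset.sum_congr rfl fun k _ => ?_
        ring
      simp_rw [h5]
      rw [integral_finsetSum _ fun k _ => ((what_scale (by omega) hh t₀ (u k)).1.const_mul _)]
      rw [Finset.sum_div]
      refine Finset.sum_congr rfl fun k _ => ?_
      rw [integral_const_mul, (what_scale (by omega) hh t₀ (u k)).2]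
      have hh0 : (h : ℂ) ≠ 0 := by exact_mod_cast hh.ne'
      field_simp
    have h6 : CP (N * (C * y ^ (4 * m))) (∑ k, ‖(exp (I * u k * t₀) * what K (h * u k))‖ * b k)
        (fun D => GG K N z₁ z y m h D t₀) := by
      refine CP_congr (CP_sum Finset.univ fun k _ => CP_smul _ (k2 k)) key
    refine CP_mono h6 le_rfl ?_
    have h7 : ∀ k, ‖(exp (I * u k * t₀) * what K (h * u k))‖ ≤ (W' : ℝ) := by
      intro k
      rw [norm_mul]
      have h8 : ‖exp (I * u k * t₀)‖ = 1 := by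
        rw [show I * (u k : ℂ) * t₀ = ((u k * t₀ : ℝ) : ℂ) * I by push_cast; ring]
        exact Complex.norm_exp_ofReal_mul_I _
      rw [h8, one_mul]
      exact (hW _).trans hW'
    calc ∑ k, ‖(exp (I * u k * t₀) * what K (h * u k))‖ * b k ≤ ∑ k, (W' : ℝ) * b k :=
          Finset.sum_le_sum fun k _ => mul_le_mul_of_nonneg_right (h7 k) (GGP_CP_nonneg (k2 k))
      _ = W' * ∑ k, b k := by rw [Finset.mul_sum]
      _ ≤ W' * (2 * N * (C * (y : ℝ) ^ (4 * m))) := by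
          refine mul_le_mul_of_nonneg_left ?_ (Nat.cast_nonneg _)
          exact k3
      _ = (2 * C * W') * N * (y : ℝ) ^ (4 * m) := by ring
      _ ≤ (2 * C * (W' + 1)) * (N : ℝ) ^ 2 * (y : ℝ) ^ (8 * m) := by
          have b1 : (N : ℝ) ≤ (N : ℝ) ^ 2 := by nlinarith
          have b2 : (y : ℝ) ^ (4 * m) ≤ (y : ℝ) ^ (8 * m) := pow_le_pow_right₀ hy1 (by omega)
          have hC0 : (0 : ℝ) ≤ C := Nat.cast_nonneg C
          have hW0 : (0 : ℝ) ≤ W' := Nat.cast_nonneg W'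
          gcongr
          linarith
      _ = ((2 * C * (W' + 1) : ℕ) : ℝ) * (N : ℝ) ^ 2 * (y : ℝ) ^ (8 * m) := by push_cast; ring

end Pool.Agent.CZ
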