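import Mathlib
import Pool.Agent.CZ.GGP
import Pool.Agent.CZ.FOU

/-! Module GGL: the tested integral as an integral of `L(E_d, 1 + it)` (MP_553913_nt). -/

set_option autoImplicit false

open Complex Finset MeasureTheory

namespace Pool.Agent.CZ

open Pool.Agent.H5 (c bd)
open Pool.Agent.ZD (S Lf nu tau)

/-- `TT` is a trigonometric polynomial in `t` with frequencies `≤ 4 m log y` -/
theorem TT_trig (z₁ z y m : ℕ) (D : ℤ) (t₀ : ℝ) (h1 : z0 ≤ z₁) (h2 : z₁ ≤ z) (h3 : z ≤ y) :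
    ∃ (J : ℕ) (a : ℕ → ℂ) (u : ℕ → ℝ), (∀ j, |u j| ≤ 4 * m * Real.log y) ∧
      ∀ t : ℝ, TT z₁ z y m D t t₀ = ∑ j ∈ range J, a j * exp (I * u j * t) := by
  classical
  obtain ⟨C, -, hC⟩ := GGP_TT
  obtain ⟨ι, i1, A, u, b, k1, -, -, k4⟩ := hC z₁ z y m t₀ h1 h2 h3
  have hF : (0 : ℝ) ≤ 4 * m * Real.log y :=
    mul_nonneg (by positivity) (Real.log_natCast_nonneg y)
  set e := Fintype.equivFin ι
  refine ⟨Fintype.card ι, fun j => if h : j < Fintype.card ι then A (e.symm ⟨j, h⟩) D else 0,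
    fun j => if h : j < Fintype.card ι then u (e.symm ⟨j, h⟩) else 0, fun j => ?_, fun t => ?_⟩
  · show |(if h : j < Fintype.card ι then u (e.symm ⟨j, h⟩) else 0)| ≤ _
    split_ifs with h
    · exact k1 _
    · simpa using hF
  · have h5 : TT z₁ z y m D t t₀ = ∑ k, A k D * exp (I * u k * t) := k4 D t
    rw [h5, Finset.sum_range]
    rw [← Equiv.sum_comp e.symm]
    refine Finset.sum_congr rfl fun j _ => ?_
    simp

theorem GGL_int_dir {K : ℕ} (hK : 1 ≤ K) {h t₀ : ℝ} (hh : 0 < h) (d : ℤ) (N : ℕ) (u : ℝ) :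
    Integrable (fun t : ℝ => (∑ n ∈ Icc 1 N, (bd d n : ℂ) * npow n t) * exp (I * u * t) *
        (wK K ((t - t₀) / h) : ℂ)) := by
  have h1 : ∀ t : ℝ, (∑ n ∈ Icc 1 N, (bd d n : ℂ) * npow n t) * exp (I * u * t) *
        (wK K ((t - t₀) / h) : ℂ) = ∑ n ∈ Icc 1 N, ((bd d n : ℂ) * ((n : ℝ)⁻¹ : ℝ)) *
          (exp (I * ((u - Real.log n : ℝ) : ℂ) * t) * (wK K ((t - t₀) / h) : ℂ)) := by
    intro t
    rw [Finset.sum_mul, Finset.sum_mul]
    refine Finset.sum_congr rfl fun n hn => ?_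
    rw [GGP_npow (Finset.mem_Icc.1 hn).1]
    have h2 : exp (I * ((u - Real.log n : ℝ) : ℂ) * t) =
        exp (I * ((-Real.log n : ℝ) : ℂ) * t) * exp (I * u * t) := by
      rw [← Complex.exp_add]
      congr 1
      push_cast
      ring
    rw [h2]
    ring
  simp_rw [h1]
  exact integrable_finsetSum _ fun n _ => (what_scale hK hh t₀ (u - Real.log n)).1.const_mul _

theorem GG_eq {K : ℕ} (hK : 3 ≤ K) {d : ℕ} (hd : Squarefree d) {h t₀ : ℝ} (hh : 0 < h)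
    {N z₁ z y m : ℕ} (h1 : z0 ≤ z₁) (h2 : z₁ ≤ z) (h3 : z ≤ y)
    (hN : Real.exp (1 / h) * (y : ℝ) ^ (4 * m) ≤ N) :
    Integrable (fun t : ℝ => Lf d (1 + t * I) * TT z₁ z y m d t t₀ * (wK K ((t - t₀) / h) : ℂ)) ∧
    GG K N z₁ z y m h d t₀ = (∫ t : ℝ, Lf d (1 + t * I) * TT z₁ z y m d t t₀ *
      (wK K ((t - t₀) / h) : ℂ)) / h := by
  obtain ⟨J, a, u, hu, hT⟩ := TT_trig z₁ z y m d t₀ h1 h2 h3
  have hz : 10000 ≤ z₁ := h1
  have hy0 : (0 : ℝ) < y := by exact_mod_cast (by omega : 0 < y)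
  have hN' : Real.exp (4 * m * Real.log y + 1 / h) ≤ N := by
    refine le_trans (le_of_eq ?_) hN
    rw [Real.exp_add, mul_comm]
    congr 1
    rw [show (4 * m * Real.log y : ℝ) = ((4 * m : ℕ) : ℝ) * Real.log y by push_cast; ring,
      Real.exp_nat_mul, Real.exp_log hy0]
  have hF := fun j => Fourier_support hK hd (t₀ := t₀) hh (hu j) hN'
  have e1 : ∀ t : ℝ, Lf d (1 + t * I) * TT z₁ z y m d t t₀ * (wK K ((t - t₀) / h) : ℂ) =
      ∑ j ∈ range J, a j * (Lf d (1 + t * I) * exp (I * u j * t) * (wK K ((t - t₀) / h) : ℂ)) := by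
    intro t
    rw [hT, Finset.mul_sum, Finset.sum_mul]
    refine Finset.sum_congr rfl fun j _ => ?_
    ring
  have e2 : ∀ t : ℝ, (∑ n ∈ Icc 1 N, (bd (d : ℤ) n : ℂ) * npow n t) * TT z₁ z y m d t t₀ *
      (wK K ((t - t₀) / h) : ℂ) =
      ∑ j ∈ range J, a j * ((∑ n ∈ Icc 1 N, (bd (d : ℤ) n : ℂ) * npow n t) * exp (I * u j * t) *
        (wK K ((t - t₀) / h) : ℂ)) := by
    intro t
    rw [hT, Finset.mul_sum, Finset.sum_mul]
    refine Finset.sum_congr rfl fun j _ => ?_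
    ring
  constructor
  · simp_rw [e1]
    exact integrable_finsetSum _ fun j _ => ((hF j).1.const_mul _)
  · unfold GG
    congr 1
    simp_rw [e1, e2]
    rw [integral_finsetSum _ fun j _ => ((hF j).1.const_mul _),
      integral_finsetSum _ fun j _ => ((GGL_int_dir (by omega) hh (d : ℤ) N (u j)).const_mul _)]
    refine Finset.sum_congr rfl fun j _ => ?_
    rw [integral_const_mul, integral_const_mul, (hF j).2]

end Pool.Agent.CZ
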