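import Mathlib
import Pool.Agent.CZ.Defs
import Pool.Agent.CZ.W
import Pool.Agent.CZ.SUMS
import Pool.Agent.CZ.RM
import Pool.Agent.ZD.E1
import Pool.Agent.ZD.R1
import Pool.Agent.CZ.GGL
import Pool.Agent.CZ.MOM

/-!
Module DTR of project CZ (MP_553913_nt): complete sum in the random model, truncation errors.
-/

set_option autoImplicit false

open Complex Finset MeasureTheory

namespace Pool.Agent.CZ

open Pool.Agent.H5 (c bd)
open Pool.Agent.ZD (S Lf nu tau)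

/-! ### the Euler product as a sum over smooth numbers -/

theorem DTR_npow_mul (m n : ℕ) (t : ℝ) : npow (m * n) t = npow m t * npow n t := by
  unfold npow
  push_cast
  rw [Complex.natCast_mul_natCast_cpow]

theorem DTR_npow_pow (p e : ℕ) (t : ℝ) : npow (p ^ e) t = (npow p t) ^ e := by
  induction e with
  | zero => simp [npow]
  | succ k ih => rw [pow_succ, DTR_npow_mul, ih, pow_succ]

theorem DTR_npow_eq {n : ℕ} (hn : 0 < n) (t : ℝ) :
    npow n t = ((1 / n : ℝ) : ℂ) * exp (I * ((-Real.log n : ℝ) : ℂ) * t) := by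
  have h0 : (n : ℂ) ≠ 0 := by exact_mod_cast hn.ne'
  unfold npow
  rw [Complex.cpow_def_of_ne_zero h0]
  have e1 : Complex.log (n : ℂ) * (-(1 + (t : ℂ) * I)) =
      -Complex.log (n : ℂ) + I * ((-Real.log n : ℝ) : ℂ) * t := by
    have : Complex.log (n : ℂ) = ((Real.log n : ℝ) : ℂ) := by
      rw [Complex.natCast_log]
    rw [this]; push_cast; ring
  rw [e1, Complex.exp_add, Complex.exp_neg, Complex.exp_log h0]
  congr 1
  push_cast; ring

theorem DTR_norm_term (D : ℤ) (n : ℕ) (t : ℝ) :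
    ‖(bd D n : ℂ) * npow n t‖ = ‖(bd D n : ℂ) * npow n 0‖ := by
  rcases Nat.eq_zero_or_pos n with rfl | hn
  · simp [Pool.Agent.H5.bd_zero]
  · rw [norm_mul, norm_mul, npow_norm hn, npow_norm hn]

theorem DTR_summable_pow (D : ℤ) {p : ℕ} (hp : p.Prime) (t : ℝ) :
    Summable (fun e : ℕ => ‖(bd D (p ^ e) : ℂ) * npow (p ^ e) t‖) := by
  have hp0 : (0 : ℝ) < p := by exact_mod_cast hp.pos
  have hr : ‖(1 / Real.sqrt p : ℝ)‖ < 1 := by
    rw [Real.norm_of_nonneg (by positivity), div_lt_one (by positivity)]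
    exact Real.lt_sqrt_of_sq_lt (by simpa using (by exact_mod_cast hp.one_lt : (1 : ℝ) < p))
  have h1 := (summable_pow_mul_geometric_of_norm_lt_one 1 hr).add
    (summable_geometric_of_norm_lt_one hr)
  refine Summable.of_nonneg_of_le (fun e => norm_nonneg _) (fun e => ?_) h1
  have hpe : 0 < p ^ e := pow_pos hp.pos e
  rw [norm_mul, npow_norm hpe, Complex.norm_intCast]
  have h2 : |(bd D (p ^ e) : ℝ)| ≤ (e + 1) * Real.sqrt ((p ^ e : ℕ) : ℝ) := by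
    refine (Pool.Agent.H5.abs_bd_le D _).trans ((Pool.Agent.ZD.abs_c_le' _).trans (le_of_eq ?_))
    rw [Nat.divisors_prime_pow hp]
    simp
  have h3 : Real.sqrt ((p ^ e : ℕ) : ℝ) * (1 / ((p ^ e : ℕ) : ℝ)) = (1 / Real.sqrt p) ^ e := by
    have h4 : Real.sqrt ((p ^ e : ℕ) : ℝ) = (Real.sqrt p) ^ e := by
      push_cast
      rw [Real.sqrt_eq_rpow, Real.sqrt_eq_rpow, ← Real.rpow_natCast, ← Real.rpow_natCast,
        ← Real.rpow_mul hp0.le, ← Real.rpow_mul hp0.le, mul_comm]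
    have h5 : ((p ^ e : ℕ) : ℝ) = (Real.sqrt p) ^ e * (Real.sqrt p) ^ e := by
      rw [← mul_pow, Real.mul_self_sqrt hp0.le]; push_cast; ring
    rw [h4, h5, one_div_pow]
    have : 0 < (Real.sqrt p) ^ e := by positivity
    field_simp
  calc |(bd D (p ^ e) : ℝ)| * (1 / ((p ^ e : ℕ) : ℝ))
      ≤ ((e + 1) * Real.sqrt ((p ^ e : ℕ) : ℝ)) * (1 / ((p ^ e : ℕ) : ℝ)) := by gcongr
    _ = (e + 1) * (1 / Real.sqrt p) ^ e := by rw [mul_assoc, h3]
    _ = (e : ℝ) ^ 1 * (1 / Real.sqrt p) ^ e + (1 / Real.sqrt p) ^ e := by ring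

theorem DTR_local (D : ℤ) {p : ℕ} (hp : p.Prime) (h2 : p ≠ 2) (t : ℝ) :
    ∑' e : ℕ, (bd D (p ^ e) : ℂ) * npow (p ^ e) t = (ellInv D p t)⁻¹ := by
  have hs := (DTR_summable_pow D hp t).of_norm
  simp_rw [DTR_npow_pow] at hs ⊢
  rw [Pool.Agent.H5.local_factor (t := fun e => (bd D (p ^ e) : ℂ)) (a := (bd D p : ℂ))
    (q := (Pool.Agent.ZD.R.sqf D p : ℂ)) (x := npow p t)]
  · unfold ellInv
    have : (Pool.Agent.ZD.R.sqf D p : ℂ) = ((jacobiSym D p : ℤ) : ℂ) ^ 2 * p := by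
      unfold Pool.Agent.ZD.R.sqf
      have hf := Fact.mk hp
      by_cases hd : (p : ℤ) ∣ D
      · rw [if_pos hd]
        have : jacobiSym D p = 0 := by
          have : NeZero p := ⟨hp.ne_zero⟩
          rw [jacobiSym.eq_zero_iff_not_coprime]
          intro h
          have h3 := Int.dvd_coe_gcd hd (dvd_refl (p : ℤ))
          rw [h] at h3
          have h4 : (p : ℤ) ≤ 1 := Int.le_of_dvd one_pos (by exact_mod_cast h3)
          have := hp.two_le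
          omega
        rw [this]; simp
      · rw [if_neg hd]
        have h5 := Pool.Agent.H5.jacobiSym_sq_one hd
        have : ((jacobiSym D p : ℤ) : ℂ) ^ 2 = 1 := by exact_mod_cast h5
        rw [this]; push_cast; ring
    rw [this]
  · simp [Pool.Agent.H5.bd_one]
  · simp
  · intro e
    rw [Pool.Agent.ZD.R.bd_rec2 D hp h2 e]; push_cast; ring
  · exact hs

theorem DTR_local2 (D : ℤ) (t : ℝ) :
    ∑' e : ℕ, (bd D (2 ^ e) : ℂ) * npow (2 ^ e) t = 1 := by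
  rw [tsum_eq_single 0]
  · simp [Pool.Agent.H5.bd_one, npow]
  · intro e he
    have h1 : c (2 ^ e) = 0 := rm_c_even (by
      obtain ⟨k, rfl⟩ := Nat.exists_eq_succ_of_ne_zero he
      rw [Nat.succ_eq_add_one, pow_succ]; omega)
    unfold bd
    rw [h1]; simp

/-- the Euler product over `p ≤ P` as a sum over `P`-smooth integers -/
theorem DTR_hasSum (P : ℕ) (D : ℤ) (t : ℝ) :
    (Summable fun n : Nat.smoothNumbers (P + 1) => ‖(bd D n : ℂ) * npow n t‖) ∧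
    HasSum (fun n : Nat.smoothNumbers (P + 1) => (bd D n : ℂ) * npow n t) (LP 0 P D t) := by
  have h := EulerProduct.summable_and_hasSum_smoothNumbers_prod_primesBelow_tsum
    (f := fun n : ℕ => (bd D n : ℂ) * npow n t) (by simp [Pool.Agent.H5.bd_one, npow])
    (by
      intro m n hmn
      show (bd D (m * n) : ℂ) * npow (m * n) t = _
      rw [Pool.Agent.H5.bd_mul D hmn, DTR_npow_mul]; push_cast; ring)
    (fun {p} hp => DTR_summable_pow D hp t) (P + 1)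
  refine ⟨h.1, ?_⟩
  have e : LP 0 P D t = ∏ p ∈ (P + 1).primesBelow, ∑' e : ℕ,
      (bd D (p ^ e) : ℂ) * npow (p ^ e) t := ?_
  · rw [e]; exact h.2
  unfold LP
  refine Finset.prod_subset_one_on_sdiff ?_ ?_ ?_
  · intro p hp
    obtain ⟨⟨h1, h2⟩, h3, h4⟩ := rm_mem.1 hp
    exact Nat.mem_primesBelow.2 ⟨by omega, h3⟩
  · intro p hp
    rw [Finset.mem_sdiff] at hp
    obtain ⟨h1, h2⟩ := Nat.mem_primesBelow.1 hp.1
    have h3 : p = 2 := by
      by_contra h4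
      exact hp.2 (rm_mem.2 ⟨⟨h2.pos, by omega⟩, h2, h4⟩)
    subst h3
    exact DTR_local2 D t
  · intro p hp
    obtain ⟨⟨h1, h2⟩, h3, h4⟩ := rm_mem.1 hp
    exact (DTR_local D h3 h4 t).symm

/-- trigonometric polynomials times the weight -/
theorem DTR_trig_int {K : ℕ} (hK : 1 ≤ K) {h : ℝ} (hh : 0 < h) (t₀ : ℝ) (J : ℕ) (a : ℕ → ℂ)
    (u : ℕ → ℝ) :
    Integrable (fun t : ℝ => (∑ j ∈ range J, a j * exp (I * u j * t)) *
      (wK K ((t - t₀) / h) : ℂ)) ∧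
    ((∀ j, 1 ≤ |h * u j|) → ∫ t : ℝ, (∑ j ∈ range J, a j * exp (I * u j * t)) *
      (wK K ((t - t₀) / h) : ℂ) = 0) := by
  have e1 : (fun t : ℝ => (∑ j ∈ range J, a j * exp (I * u j * t)) *
      (wK K ((t - t₀) / h) : ℂ)) = fun t : ℝ => ∑ j ∈ range J, a j * (exp (I * u j * t) *
      (wK K ((t - t₀) / h) : ℂ)) := by
    funext t
    rw [Finset.sum_mul]
    exact Finset.sum_congr rfl (fun j _ => by ring)
  rw [e1]
  refine ⟨integrable_finsetSum _ (fun j _ => ((what_scale hK hh t₀ (u j)).1).const_mul _), ?_⟩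
  intro hu
  rw [integral_finsetSum _ (fun j _ => ((what_scale hK hh t₀ (u j)).1).const_mul _)]
  refine Finset.sum_eq_zero (fun j _ => ?_)
  rw [integral_const_mul, (what_scale hK hh t₀ (u j)).2, what_eq_zero hK (hu j)]
  ring

theorem GG_complete {K : ℕ} (hK : 3 ≤ K) {h t₀ : ℝ} (hh : 0 < h) {N P z₁ z y m : ℕ}
    (h1 : z0 ≤ z₁) (h2 : z₁ ≤ z) (h3 : z ≤ y) (hNP : N ≤ P)
    (hN : Real.exp (1 / h) * (y : ℝ) ^ (4 * m) ≤ N) (D : ℤ) :
    GG K N z₁ z y m h D t₀ = (∫ t : ℝ, LP 0 P D t * TT z₁ z y m D t t₀ *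
      (wK K ((t - t₀) / h) : ℂ)) / h := by
  have hK1 : 1 ≤ K := by omega
  obtain ⟨J, a, u, hu, hTT⟩ := TT_trig z₁ z y m D t₀ h1 h2 h3
  have hy : (0 : ℝ) < y := by
    have : 0 < y := lt_of_lt_of_le (by unfold z0; norm_num) (h1.trans (h2.trans h3))
    exact_mod_cast this
  have hN0 : (0 : ℝ) < N := lt_of_lt_of_le (by positivity) hN
  have hlogN : 1 / h + 4 * m * Real.log y ≤ Real.log N := by
    have := Real.log_le_log (by positivity) hN
    rw [Real.log_mul (by positivity) (by positivity), Real.log_exp, Real.log_pow] at this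
    push_cast at this
    linarith
  -- one term
  have hterm : ∀ n : ℕ, 0 < n → (fun t : ℝ => (bd D n : ℂ) * npow n t *
      (TT z₁ z y m D t t₀ * (wK K ((t - t₀) / h) : ℂ))) = fun t : ℝ =>
      (∑ j ∈ range J, ((bd D n : ℂ) * ((1 / n : ℝ) : ℂ) * a j) *
        exp (I * ((u j - Real.log n : ℝ) : ℂ) * t)) * (wK K ((t - t₀) / h) : ℂ) := by
    intro n hn
    funext t
    rw [← mul_assoc, hTT t, DTR_npow_eq hn, Finset.mul_sum]
    congr 1
    refine Finset.sum_congr rfl (fun j _ => ?_)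
    have : exp (I * ((u j - Real.log n : ℝ) : ℂ) * t) =
        exp (I * ((-Real.log n : ℝ) : ℂ) * t) * exp (I * u j * t) := by
      rw [← Complex.exp_add]; congr 1; push_cast; ring
    rw [this]; ring
  have hint : ∀ n : ℕ, Integrable (fun t : ℝ => (bd D n : ℂ) * npow n t *
      (TT z₁ z y m D t t₀ * (wK K ((t - t₀) / h) : ℂ))) := by
    intro n
    rcases Nat.eq_zero_or_pos n with rfl | hn
    · simp [Pool.Agent.H5.bd_zero]
    · rw [hterm n hn]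
      exact (DTR_trig_int hK1 hh t₀ J _ _).1
  have hzero : ∀ n : ℕ, N < n → ∫ t : ℝ, (bd D n : ℂ) * npow n t *
      (TT z₁ z y m D t t₀ * (wK K ((t - t₀) / h) : ℂ)) = 0 := by
    intro n hn
    have hn0 : 0 < n := by omega
    rw [hterm n hn0]
    refine (DTR_trig_int hK1 hh t₀ J _ _).2 (fun j => ?_)
    have h4 : Real.log N ≤ Real.log n := Real.log_le_log hN0 (by exact_mod_cast hn.le)
    have h5 := (abs_le.1 (hu j)).2
    have h6 : u j - Real.log n ≤ -(1 / h) := by linarith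
    rw [abs_mul, abs_of_pos hh]
    have h7 : 1 / h ≤ |u j - Real.log n| := by
      rw [abs_of_nonpos (by have : 0 < 1 / h := by positivity
                            linarith)]
      linarith
    calc (1 : ℝ) = h * (1 / h) := by field_simp
      _ ≤ h * |u j - Real.log n| := by gcongr
  have hTTw : Integrable (fun t : ℝ => TT z₁ z y m D t t₀ * (wK K ((t - t₀) / h) : ℂ)) := by
    have := (DTR_trig_int hK1 hh t₀ J a u).1
    refine this.congr (Filter.Eventually.of_forall (fun t => ?_))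
    simp only [hTT t]
  have hsumm : Summable (fun n : Nat.smoothNumbers (P + 1) => ∫ t : ℝ, ‖(bd D n : ℂ) * npow n t *
      (TT z₁ z y m D t t₀ * (wK K ((t - t₀) / h) : ℂ))‖) := by
    have := (DTR_hasSum P D 0).1.mul_right (∫ t : ℝ, ‖TT z₁ z y m D t t₀ *
      (wK K ((t - t₀) / h) : ℂ)‖)
    refine this.congr (fun n => ?_)
    rw [← integral_const_mul]
    refine integral_congr_ae (Filter.Eventually.of_forall (fun t => ?_))
    simp only
    rw [← DTR_norm_term D n t, ← norm_mul]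
  have hHS := hasSum_integral_of_summable_integral_norm
    (F := fun (n : Nat.smoothNumbers (P + 1)) (t : ℝ) => (bd D n : ℂ) * npow n t *
      (TT z₁ z y m D t t₀ * (wK K ((t - t₀) / h) : ℂ))) (fun n => hint n) hsumm
  have eR : (∫ t : ℝ, ∑' n : Nat.smoothNumbers (P + 1), (bd D n : ℂ) * npow n t *
      (TT z₁ z y m D t t₀ * (wK K ((t - t₀) / h) : ℂ))) = ∫ t : ℝ, LP 0 P D t *
      TT z₁ z y m D t t₀ * (wK K ((t - t₀) / h) : ℂ) := by
    refine integral_congr_ae (Filter.Eventually.of_forall (fun t => ?_))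
    simp only
    rw [tsum_mul_right, (DTR_hasSum P D t).2.tsum_eq, mul_assoc]
  rw [eR] at hHS
  have eL : (∫ t : ℝ, (∑ n ∈ Icc 1 N, (bd D n : ℂ) * npow n t) * TT z₁ z y m D t t₀ *
      (wK K ((t - t₀) / h) : ℂ)) = ∑ n ∈ Icc 1 N, ∫ t : ℝ, (bd D n : ℂ) * npow n t *
      (TT z₁ z y m D t t₀ * (wK K ((t - t₀) / h) : ℂ)) := by
    rw [← integral_finsetSum _ (fun n _ => hint n)]
    refine integral_congr_ae (Filter.Eventually.of_forall (fun t => ?_))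
    simp only
    rw [mul_assoc, Finset.sum_mul]
  have h8 := (hasSum_subtype_iff_indicator
    (f := fun n : ℕ => ∫ t : ℝ, (bd D n : ℂ) * npow n t *
      (TT z₁ z y m D t t₀ * (wK K ((t - t₀) / h) : ℂ))) (s := Nat.smoothNumbers (P + 1))).1 hHS
  have h9 : HasSum ((Nat.smoothNumbers (P + 1)).indicator
      (fun n : ℕ => ∫ t : ℝ, (bd D n : ℂ) * npow n t *
      (TT z₁ z y m D t t₀ * (wK K ((t - t₀) / h) : ℂ))))
      (∑ n ∈ Icc 1 N, ∫ t : ℝ, (bd D n : ℂ) * npow n t *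
      (TT z₁ z y m D t t₀ * (wK K ((t - t₀) / h) : ℂ))) := by
    have h10 : ∑ n ∈ Icc 1 N, (∫ t : ℝ, (bd D n : ℂ) * npow n t *
        (TT z₁ z y m D t t₀ * (wK K ((t - t₀) / h) : ℂ))) =
        ∑ n ∈ Icc 1 N, (Nat.smoothNumbers (P + 1)).indicator
        (fun n : ℕ => ∫ t : ℝ, (bd D n : ℂ) * npow n t *
        (TT z₁ z y m D t t₀ * (wK K ((t - t₀) / h) : ℂ))) n := by
      refine Finset.sum_congr rfl (fun n hn => ?_)
      rw [Finset.mem_Icc] at hn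
      rw [Set.indicator_of_mem]
      exact Nat.mem_smoothNumbers_of_lt (by omega) (by omega)
    rw [h10]
    refine hasSum_sum_of_ne_finset_zero (fun n hn => ?_)
    rw [Finset.mem_Icc] at hn
    by_cases hs : n ∈ Nat.smoothNumbers (P + 1)
    · rw [Set.indicator_of_mem hs]
      have : n ≠ 0 := Nat.ne_zero_of_mem_smoothNumbers hs
      exact hzero n (by omega)
    · rw [Set.indicator_of_notMem hs]
  unfold GG
  rw [eL, h9.unique h8]

/-! ### bounded continuous functions of `t` -/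

/-- bounded continuous functions -/
def DTR_BC (f : ℝ → ℂ) : Prop := Continuous f ∧ ∃ B : ℝ, ∀ t, ‖f t‖ ≤ B

theorem DTR_BC_const (a : ℂ) : DTR_BC (fun _ => a) := ⟨continuous_const, ‖a‖, fun _ => le_rfl⟩

theorem DTR_BC_mul {f g : ℝ → ℂ} (hf : DTR_BC f) (hg : DTR_BC g) : DTR_BC (fun t => f t * g t) := by
  obtain ⟨hf1, A, hA⟩ := hf
  obtain ⟨hg1, B, hB⟩ := hg
  refine ⟨hf1.mul hg1, A * B, fun t => ?_⟩
  rw [norm_mul]
  exact mul_le_mul (hA t) (hB t) (norm_nonneg _) ((norm_nonneg _).trans (hA t))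

theorem DTR_BC_add {f g : ℝ → ℂ} (hf : DTR_BC f) (hg : DTR_BC g) : DTR_BC (fun t => f t + g t) := by
  obtain ⟨hf1, A, hA⟩ := hf
  obtain ⟨hg1, B, hB⟩ := hg
  exact ⟨hf1.add hg1, A + B, fun t => (norm_add_le _ _).trans (add_le_add (hA t) (hB t))⟩

theorem DTR_BC_sub {f g : ℝ → ℂ} (hf : DTR_BC f) (hg : DTR_BC g) : DTR_BC (fun t => f t - g t) := by
  obtain ⟨hf1, A, hA⟩ := hf
  obtain ⟨hg1, B, hB⟩ := hg
  exact ⟨hf1.sub hg1, A + B, fun t => (norm_sub_le _ _).trans (add_le_add (hA t) (hB t))⟩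

theorem DTR_BC_pow {f : ℝ → ℂ} (hf : DTR_BC f) (n : ℕ) : DTR_BC (fun t => f t ^ n) := by
  induction n with
  | zero => simpa using DTR_BC_const 1
  | succ k ih =>
    have := DTR_BC_mul ih hf
    refine ⟨?_, ?_⟩
    · exact hf.1.pow _
    · obtain ⟨B, hB⟩ := this.2
      exact ⟨B, fun t => by show ‖f t ^ (k + 1)‖ ≤ B; rw [pow_succ]; exact hB t⟩

theorem DTR_BC_sum {ι : Type*} (s : Finset ι) {f : ι → ℝ → ℂ} (h : ∀ i ∈ s, DTR_BC (f i)) :
    DTR_BC (fun t => ∑ i ∈ s, f i t) := by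
  classical
  induction s using Finset.induction_on with
  | empty => simpa using DTR_BC_const 0
  | insert i s hi ih =>
    simp_rw [Finset.sum_insert hi]
    exact DTR_BC_add (h i (Finset.mem_insert_self _ _))
      (ih (fun j hj => h j (Finset.mem_insert_of_mem hj)))

theorem DTR_BC_prod {ι : Type*} (s : Finset ι) {f : ι → ℝ → ℂ} (h : ∀ i ∈ s, DTR_BC (f i)) :
    DTR_BC (fun t => ∏ i ∈ s, f i t) := by
  classical
  induction s using Finset.induction_on with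
  | empty => simpa using DTR_BC_const 1
  | insert i s hi ih =>
    simp_rw [Finset.prod_insert hi]
    exact DTR_BC_mul (h i (Finset.mem_insert_self _ _))
      (ih (fun j hj => h j (Finset.mem_insert_of_mem hj)))

theorem DTR_BC_npow {n : ℕ} (hn : 0 < n) : DTR_BC (npow n) := by
  refine ⟨?_, 1 / n, fun t => (npow_norm hn t).le⟩
  have : npow n = fun t : ℝ => ((1 / n : ℝ) : ℂ) * exp (I * ((-Real.log n : ℝ) : ℂ) * t) := by
    funext t; exact DTR_npow_eq hn t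
  rw [this]
  fun_prop

theorem DTR_BC_ellInv (D : ℤ) {p : ℕ} (hp : p.Prime) : DTR_BC (ellInv D p) := by
  have h := DTR_BC_npow hp.pos
  exact DTR_BC_add (DTR_BC_sub (DTR_BC_const 1) (DTR_BC_mul (DTR_BC_const _) h))
    (DTR_BC_mul (DTR_BC_const _) (DTR_BC_pow h 2))

theorem DTR_ellInv_pos {p : ℕ} (hp : p.Prime) : 0 < (1 - 1 / Real.sqrt p) ^ 2 := by
  have hp1 : (1 : ℝ) < p := by exact_mod_cast hp.one_lt
  have : 1 < Real.sqrt p := Real.lt_sqrt_of_sq_lt (by simpa using hp1)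
  have h1 : 1 / Real.sqrt p < 1 := by rw [div_lt_one (by positivity)]; exact this
  have : 0 < 1 - 1 / Real.sqrt p := by linarith
  positivity

theorem DTR_ellInv_ne {D : ℤ} {p : ℕ} (hp : p.Prime) (h2 : p ≠ 2) (t : ℝ) : ellInv D p t ≠ 0 := by
  have := (DTR_ellInv_pos hp).trans_le (ellInv_norm_ge (D := D) hp h2 t)
  exact norm_pos_iff.1 this

theorem DTR_BC_ellInv_inv (D : ℤ) {p : ℕ} (hp : p.Prime) (h2 : p ≠ 2) :
    DTR_BC (fun t => (ellInv D p t)⁻¹) := by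
  refine ⟨(DTR_BC_ellInv D hp).1.inv₀ (DTR_ellInv_ne hp h2), ((1 - 1 / Real.sqrt p) ^ 2)⁻¹,
    fun t => ?_⟩
  rw [norm_inv]
  exact inv_anti₀ (DTR_ellInv_pos hp) (ellInv_norm_ge hp h2 t)

theorem DTR_BC_LP (a b : ℕ) (D : ℤ) : DTR_BC (LP a b D) :=
  DTR_BC_prod _ (fun _ hp => DTR_BC_ellInv_inv D (rm_mem.1 hp).2.1 (rm_mem.1 hp).2.2)

theorem DTR_LP_inv (a b : ℕ) (D : ℤ) (t : ℝ) :
    (LP a b D t)⁻¹ = ∏ p ∈ primesIoc a b, ellInv D p t := by
  unfold LP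
  rw [← Finset.prod_inv_distrib]
  exact Finset.prod_congr rfl (fun p _ => inv_inv _)

theorem DTR_BC_LPinv (a b : ℕ) (D : ℤ) : DTR_BC (fun t => (LP a b D t)⁻¹) := by
  simp_rw [DTR_LP_inv]
  exact DTR_BC_prod _ (fun _ hp => DTR_BC_ellInv D (rm_mem.1 hp).2.1)

theorem DTR_LP_ne (a b : ℕ) (D : ℤ) (t : ℝ) : LP a b D t ≠ 0 :=
  Finset.prod_ne_zero_iff.2 (fun _ hp => inv_ne_zero
    (DTR_ellInv_ne (rm_mem.1 hp).2.1 (rm_mem.1 hp).2.2 t))

theorem DTR_smooth_pos {a b m n : ℕ} (h : n ∈ smoothSet a b m) : 0 < n := by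
  classical
  unfold smoothSet at h
  rw [Finset.mem_filter, Finset.mem_Icc] at h
  omega

theorem DTR_BC_Mo' (a b m : ℕ) (D : ℤ) : DTR_BC (Mo' a b m D) :=
  DTR_BC_sum _ (fun _ hn => DTR_BC_mul (DTR_BC_const _) (DTR_BC_npow (DTR_smooth_pos hn)))

theorem DTR_BC_PSum (a b : ℕ) (D : ℤ) : DTR_BC (PSum a b D) :=
  DTR_BC_sum _ (fun _ hp => DTR_BC_mul (DTR_BC_const _) (DTR_BC_npow (rm_mem.1 hp).2.1.pos))

theorem DTR_theta_cont (a b : ℕ) (D : ℤ) : Continuous (theta a b D) :=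
  Complex.continuous_im.comp (DTR_BC_PSum a b D).1

theorem DTR_BC_theta (a b : ℕ) (D : ℤ) : DTR_BC (fun t => (theta a b D t : ℂ)) := by
  refine ⟨Complex.continuous_ofReal.comp (DTR_theta_cont a b D), ?_⟩
  obtain ⟨B, hB⟩ := (DTR_BC_PSum a b D).2
  refine ⟨B, fun t => ?_⟩
  rw [Complex.norm_real]
  exact (Complex.abs_im_le_norm _).trans (hB t)

theorem DTR_BC_gT (a b m : ℕ) (D : ℤ) : DTR_BC (gT a b m D) := by
  refine DTR_BC_sum _ (fun j _ => ?_)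
  have h1 : DTR_BC (fun t => (-1) * (I * (theta a b D t : ℂ))) :=
    DTR_BC_mul (DTR_BC_const (-1)) (DTR_BC_mul (DTR_BC_const I) (DTR_BC_theta a b D))
  have h2 := DTR_BC_mul (DTR_BC_pow h1 j) (DTR_BC_const ((j.factorial : ℂ)⁻¹))
  have e : (fun t => (-(I * (theta a b D t : ℂ))) ^ j / (j.factorial : ℂ)) =
      fun t => ((-1) * (I * (theta a b D t : ℂ))) ^ j * ((j.factorial : ℂ)⁻¹) := by
    funext t; rw [neg_one_mul]; rfl
  rw [e]; exact h2

theorem DTR_norm_exp (x : ℝ) : ‖exp (-(I * (x : ℂ)))‖ = 1 := by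
  rw [Complex.norm_exp]; simp

theorem DTR_BC_exp (a b : ℕ) (D : ℤ) : DTR_BC (fun t => exp (-(I * (theta a b D t : ℂ)))) := by
  refine ⟨?_, 1, fun t => (DTR_norm_exp _).le⟩
  exact Complex.continuous_exp.comp (continuous_const.mul (DTR_BC_theta a b D).1).neg

/-! ### integrals against the weight -/

theorem DTR_w_int {K : ℕ} (hK : 1 ≤ K) {h : ℝ} (hh : 0 < h) (t₀ : ℝ) :
    Integrable (fun t : ℝ => wK K ((t - t₀) / h)) ∧
    ∫ t : ℝ, wK K ((t - t₀) / h) = h * ∫ t : ℝ, wK K t := by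
  constructor
  · have h1 : Integrable (fun t : ℝ => wK K (t / h)) := (wK_integrable hK).comp_div hh.ne'
    exact h1.comp_sub_right t₀
  · rw [integral_sub_right_eq_self (fun t : ℝ => wK K (t / h)) t₀,
      Measure.integral_comp_div (wK K) h, abs_of_pos hh, smul_eq_mul]

theorem DTR_int {K : ℕ} (hK : 1 ≤ K) {h : ℝ} (hh : 0 < h) (t₀ : ℝ) {f : ℝ → ℂ} (hf : DTR_BC f) :
    Integrable (fun t : ℝ => f t * (wK K ((t - t₀) / h) : ℂ)) ∧
    Integrable (fun t : ℝ => ‖f t‖ * wK K ((t - t₀) / h)) ∧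
    Integrable (fun t : ℝ => ‖f t‖ ^ 2 * wK K ((t - t₀) / h)) := by
  obtain ⟨hc, B, hB⟩ := hf
  have hw := (DTR_w_int hK hh t₀).1
  refine ⟨?_, ?_, ?_⟩
  · exact hw.ofReal.bdd_mul hc.aestronglyMeasurable (Filter.Eventually.of_forall hB)
  · exact hw.bdd_mul (c := B) hc.norm.aestronglyMeasurable
      (Filter.Eventually.of_forall (fun t => by rw [norm_norm]; exact hB t))
  · exact hw.bdd_mul (c := B ^ 2) (hc.norm.pow 2).aestronglyMeasurable
      (Filter.Eventually.of_forall (fun t => by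
        rw [Real.norm_of_nonneg (by positivity)]
        exact pow_le_pow_left₀ (norm_nonneg _) (hB t) 2))

/-- Cauchy-Schwarz against the weight -/
theorem DTR_CS {K : ℕ} (hK : 1 ≤ K) {h : ℝ} (hh : 0 < h) (t₀ : ℝ) {f : ℝ → ℂ} (hf : DTR_BC f) :
    ‖∫ t : ℝ, f t * (wK K ((t - t₀) / h) : ℂ)‖ ^ 2 ≤
      (h * ∫ t : ℝ, wK K t) * ∫ t : ℝ, ‖f t‖ ^ 2 * wK K ((t - t₀) / h) := by
  obtain ⟨h1, h2, h3⟩ := DTR_int hK hh t₀ hf
  obtain ⟨hw1, hw2⟩ := DTR_w_int hK hh t₀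
  have hW : 0 < ∫ t : ℝ, wK K t := by
    obtain ⟨a, ha, _, ha2⟩ := what_zero hK
    rw [← ha2]; exact ha
  set W := h * ∫ t : ℝ, wK K t with hWdef
  have hW' : 0 < W := by positivity
  set A := ∫ t : ℝ, ‖f t‖ * wK K ((t - t₀) / h) with hA
  set Q := ∫ t : ℝ, ‖f t‖ ^ 2 * wK K ((t - t₀) / h) with hQ
  have h4 : ‖∫ t : ℝ, f t * (wK K ((t - t₀) / h) : ℂ)‖ ≤ A := by
    refine (norm_integral_le_integral_norm _).trans (le_of_eq ?_)
    refine integral_congr_ae (Filter.Eventually.of_forall (fun t => ?_))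
    simp only
    rw [norm_mul, Complex.norm_real, Real.norm_of_nonneg (wK_nonneg K _)]
  have h5 : 0 ≤ ∫ t : ℝ, (‖f t‖ - A / W) ^ 2 * wK K ((t - t₀) / h) :=
    integral_nonneg (fun t => mul_nonneg (sq_nonneg _) (wK_nonneg K _))
  have h6 : ∫ t : ℝ, (‖f t‖ - A / W) ^ 2 * wK K ((t - t₀) / h) = Q - A ^ 2 / W := by
    have e1 : (fun t : ℝ => (‖f t‖ - A / W) ^ 2 * wK K ((t - t₀) / h)) = fun t : ℝ =>
        (‖f t‖ ^ 2 * wK K ((t - t₀) / h) - 2 * (A / W) * (‖f t‖ * wK K ((t - t₀) / h))) +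
          (A / W) ^ 2 * wK K ((t - t₀) / h) := by
      funext t; ring
    have i1 : Integrable (fun t : ℝ => 2 * (A / W) * (‖f t‖ * wK K ((t - t₀) / h))) :=
      h2.const_mul _
    have i2 : Integrable (fun t : ℝ => ‖f t‖ ^ 2 * wK K ((t - t₀) / h) -
        2 * (A / W) * (‖f t‖ * wK K ((t - t₀) / h))) := h3.sub i1
    have i3 : Integrable (fun t : ℝ => (A / W) ^ 2 * wK K ((t - t₀) / h)) := hw1.const_mul _
    rw [e1, integral_add i2 i3, integral_sub h3 i1, integral_const_mul, integral_const_mul, hw2]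
    rw [← hA, ← hQ]
    field_simp
    ring
  rw [h6] at h5
  have h7 : A ^ 2 ≤ W * Q := by
    have : A ^ 2 / W ≤ Q := by linarith
    rw [div_le_iff₀ hW'] at this
    linarith
  exact (pow_le_pow_left₀ (norm_nonneg _) h4 2).trans h7

/-! ### averages -/

theorem DTR_MP_pos (P : ℕ) : (0 : ℝ) < MP P := by exact_mod_cast rm_MP_pos P

theorem DTR_RR_mono {P : ℕ} {f g : ℤ → ℝ} (h : ∀ D, f D ≤ g D) : RR P f ≤ RR P g := by
  unfold RR
  exact div_le_div_of_nonneg_right (Finset.sum_le_sum (fun D _ => h D)) (DTR_MP_pos P).le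

theorem DTR_RR_add {P : ℕ} (f g : ℤ → ℝ) : RR P (fun D => f D + g D) = RR P f + RR P g := by
  unfold RR
  rw [Finset.sum_add_distrib, add_div]

theorem DTR_RR_mul {P : ℕ} (a : ℝ) (f : ℤ → ℝ) : RR P (fun D => a * f D) = a * RR P f := by
  unfold RR
  rw [← Finset.mul_sum, mul_div_assoc]

theorem DTR_RR_const (P : ℕ) (a : ℝ) : RR P (fun _ => a) = a := by
  unfold RR
  have := DTR_MP_pos P
  simp
  field_simp

theorem DTR_RR_int {P : ℕ} {F : ℤ → ℝ → ℝ} (h : ∀ D, Integrable (F D)) :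
    RR P (fun D => ∫ t, F D t) = ∫ t, RR P (fun D => F D t) := by
  unfold RR
  rw [integral_div]
  congr 1
  exact (integral_finsetSum _ (fun D _ => h _)).symm

theorem DTR_amgm {x y z : ℝ} (hx : 0 ≤ x) (hy : 0 ≤ y) (hz : 0 ≤ z) :
    x * y * z ≤ x ^ 3 + y ^ 3 + z ^ 3 := by
  have h1 : 0 ≤ (x + y + z) * ((x - y) ^ 2 + (y - z) ^ 2 + (z - x) ^ 2) := by positivity
  have h2 : 0 ≤ x * y * z := by positivity
  nlinarith

/-- Young's inequality for averages -/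
theorem DTR_young {P : ℕ} {L δ v w : ℤ → ℂ} {lam M Δ : ℝ} (hlam : 0 < lam)
    (hL : RR P (fun D => ‖L D‖ ^ 12) ≤ M) (hv : RR P (fun D => ‖v D‖ ^ 12) ≤ M)
    (hw : RR P (fun D => ‖w D‖ ^ 12) ≤ M) (hδ : RR P (fun D => ‖δ D‖ ^ 4) ≤ Δ) :
    RR P (fun D => ‖L D * (δ D * v D * w D)‖ ^ 2) ≤ lam * (3 * M) + lam⁻¹ * Δ := by
  have h1 : RR P (fun D => ‖L D * (δ D * v D * w D)‖ ^ 2) ≤
      RR P (fun D => lam * (‖L D‖ ^ 12 + (‖v D‖ ^ 12 + ‖w D‖ ^ 12)) + lam⁻¹ * ‖δ D‖ ^ 4) := by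
    refine DTR_RR_mono (fun D => ?_)
    rw [norm_mul, norm_mul, norm_mul]
    set l := ‖L D‖
    set d := ‖δ D‖
    set a := ‖v D‖
    set b := ‖w D‖
    have hl : 0 ≤ l := norm_nonneg _
    have hd : 0 ≤ d := norm_nonneg _
    have ha : 0 ≤ a := norm_nonneg _
    have hb : 0 ≤ b := norm_nonneg _
    have e1 : (l * (d * a * b)) ^ 2 = (l ^ 2 * a ^ 2 * b ^ 2) * d ^ 2 := by ring
    have e2 : (l ^ 2 * a ^ 2 * b ^ 2) ^ 2 ≤ l ^ 12 + (a ^ 12 + b ^ 12) := by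
      have := DTR_amgm (x := l ^ 4) (y := a ^ 4) (z := b ^ 4) (by positivity) (by positivity)
        (by positivity)
      calc (l ^ 2 * a ^ 2 * b ^ 2) ^ 2 = l ^ 4 * a ^ 4 * b ^ 4 := by ring
        _ ≤ _ := this
        _ = _ := by ring
    set X := l ^ 2 * a ^ 2 * b ^ 2
    have hX : 0 ≤ X := by positivity
    have e3 : X * d ^ 2 ≤ lam * X ^ 2 + lam⁻¹ * d ^ 4 := by
      have h5 : 0 ≤ lam * (X - lam⁻¹ * d ^ 2) ^ 2 := by positivity
      have h6 : lam * (X - lam⁻¹ * d ^ 2) ^ 2 = lam * X ^ 2 - 2 * (X * d ^ 2) + lam⁻¹ * d ^ 4 := by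
        field_simp
        ring
      have h7 : 0 ≤ X * d ^ 2 := by positivity
      linarith
    rw [e1]
    have e4 : lam * X ^ 2 ≤ lam * (l ^ 12 + (a ^ 12 + b ^ 12)) :=
      mul_le_mul_of_nonneg_left e2 hlam.le
    linarith
  refine h1.trans ?_
  rw [DTR_RR_add, DTR_RR_mul, DTR_RR_mul, DTR_RR_add, DTR_RR_add]
  have h2 : 0 < lam⁻¹ := inv_pos.2 hlam
  have h3 : lam * (RR P (fun D => ‖L D‖ ^ 12) + (RR P (fun D => ‖v D‖ ^ 12) +
      RR P (fun D => ‖w D‖ ^ 12))) ≤ lam * (3 * M) := by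
    refine mul_le_mul_of_nonneg_left ?_ hlam.le
    linarith
  have h4 := mul_le_mul_of_nonneg_left hδ h2.le
  linarith

/-! ### truncation -/

theorem DTR_split {a b d : ℕ} (h1 : a ≤ b) (h2 : b ≤ d) (D : ℤ) (t : ℝ) :
    LP a d D t = LP a b D t * LP b d D t := by
  unfold LP
  rw [← Finset.prod_union]
  · refine Finset.prod_congr ?_ (fun _ _ => rfl)
    ext p
    rw [Finset.mem_union, rm_mem, rm_mem, rm_mem]
    constructor
    · rintro ⟨⟨h3, h4⟩, h5⟩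
      rcases le_or_gt p b with h6 | h6
      · left; exact ⟨⟨h3, h6⟩, h5⟩
      · right; exact ⟨⟨h6, h4⟩, h5⟩
    · rintro (⟨⟨h3, h4⟩, h5⟩ | ⟨⟨h3, h4⟩, h5⟩)
      · exact ⟨⟨h3, by omega⟩, h5⟩
      · exact ⟨⟨by omega, h4⟩, h5⟩
  · rw [Finset.disjoint_left]
    intro p hp hq
    have h3 := (rm_mem.1 hp).1
    have h4 := (rm_mem.1 hq).1
    omega

/-- exact test function -/
noncomputable def DTR_TTex (z₁ z y : ℕ) (D : ℤ) (t₀ t : ℝ) : ℂ :=
  (LP 0 z₁ D t₀)⁻¹ * (LP z₁ z D t)⁻¹ * exp (-(I * theta z y D t))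

theorem DTR_EX {z₁ z y P : ℕ} (h2 : z₁ ≤ z) (h3 : z ≤ y) (h4 : y ≤ P) (D : ℤ) (t t₀ : ℝ) :
    EX z₁ z y P D t t₀ = LP 0 P D t * DTR_TTex z₁ z y D t₀ t := by
  unfold EX DTR_TTex
  rw [DTR_split (Nat.zero_le z₁) (h2.trans (h3.trans h4)), DTR_split h2 (h3.trans h4),
    DTR_split h3 h4]
  have := DTR_LP_ne z₁ z D t
  field_simp

theorem DTR_ellInv_le (D : ℤ) {p : ℕ} (hp : p.Prime) (t : ℝ) : ‖ellInv D p t‖ ≤ 4 := by
  have hp1 : (1 : ℝ) ≤ p := by exact_mod_cast hp.one_lt.le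
  have hp0 : (0 : ℝ) < p := by linarith
  have hs : 1 ≤ Real.sqrt p := by rw [Real.one_le_sqrt]; exact hp1
  have h1 : ‖(bd D p : ℂ) * npow p t‖ ≤ 2 := by
    rw [norm_mul, npow_norm hp.pos, Complex.norm_intCast]
    have h2 := (Pool.Agent.H5.abs_bd_le D p).trans (abs_c_prime hp)
    calc |(bd D p : ℝ)| * (1 / p) ≤ (2 * Real.sqrt p) * (1 / p) := by gcongr
      _ = 2 * (Real.sqrt p / p) := by ring
      _ ≤ 2 * 1 := by
          refine mul_le_mul_of_nonneg_left ?_ (by norm_num)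
          rw [div_le_one hp0]
          nlinarith [Real.mul_self_sqrt hp0.le]
      _ = 2 := by norm_num
  have h3 : ‖((jacobiSym D p : ℤ) : ℂ) ^ 2 * p * (npow p t) ^ 2‖ ≤ 1 := by
    rw [norm_mul, norm_mul, norm_pow, norm_pow, npow_norm hp.pos, Complex.norm_intCast,
      Complex.norm_natCast]
    have h4 : |((jacobiSym D p : ℤ) : ℝ)| ^ 2 ≤ 1 := by
      rcases jacobiSym.trichotomy D p with h | h | h <;> rw [h] <;> norm_num
    calc |((jacobiSym D p : ℤ) : ℝ)| ^ 2 * (p : ℝ) * (1 / (p : ℝ)) ^ 2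
        ≤ 1 * (p : ℝ) * (1 / (p : ℝ)) ^ 2 := by gcongr
      _ = 1 / (p : ℝ) := by field_simp
      _ ≤ 1 := by rw [div_le_one hp0]; exact hp1
  unfold ellInv
  calc ‖1 - (bd D p : ℂ) * npow p t + ((jacobiSym D p : ℤ) : ℂ) ^ 2 * p * (npow p t) ^ 2‖
      ≤ ‖1 - (bd D p : ℂ) * npow p t‖ + ‖((jacobiSym D p : ℤ) : ℂ) ^ 2 * p * (npow p t) ^ 2‖ :=
        norm_add_le _ _
    _ ≤ (‖(1 : ℂ)‖ + ‖(bd D p : ℂ) * npow p t‖) +
        ‖((jacobiSym D p : ℤ) : ℂ) ^ 2 * p * (npow p t) ^ 2‖ := by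
        gcongr; exact norm_sub_le _ _
    _ ≤ (1 + 2) + 1 := by
        rw [norm_one]; gcongr
    _ = 4 := by norm_num

theorem DTR_Mo_diff : ∃ E0 : ℝ, 0 < E0 ∧ ∀ (z₁ m : ℕ) (D : ℤ) (t : ℝ), z0 ≤ z₁ →
    ‖Mo z₁ m D t - (LP 0 z₁ D t)⁻¹‖ ≤ E0 * ‖Mo' z0 z₁ m D t - (LP z0 z₁ D t)⁻¹‖ := by
  refine ⟨4 ^ (primesIoc 0 z0).card, pow_pos (by norm_num) _, ?_⟩
  intro z₁ m D t h1
  have e : Mo z₁ m D t - (LP 0 z₁ D t)⁻¹ =
      (∏ p ∈ primesIoc 0 z0, ellInv D p t) * (Mo' z0 z₁ m D t - (LP z0 z₁ D t)⁻¹) := by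
    unfold Mo
    rw [DTR_split (Nat.zero_le z0) h1, mul_inv, DTR_LP_inv 0 z0]
    ring
  rw [e, norm_mul]
  refine mul_le_mul_of_nonneg_right ?_ (norm_nonneg _)
  rw [norm_prod]
  refine (Finset.prod_le_prod (fun p _ => norm_nonneg _)
    (fun p hp => DTR_ellInv_le D (rm_mem.1 hp).2.1 t)).trans (le_of_eq ?_)
  rw [Finset.prod_const]

theorem DTR_three (x y z : ℂ) : ‖x + y + z‖ ^ 2 ≤ 3 * (‖x‖ ^ 2 + (‖y‖ ^ 2 + ‖z‖ ^ 2)) := by
  have h := norm_add₃_le (a := x) (b := y) (c := z)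
  have h1 : ‖x + y + z‖ ^ 2 ≤ (‖x‖ + ‖y‖ + ‖z‖) ^ 2 := pow_le_pow_left₀ (norm_nonneg _) h 2
  nlinarith [sq_nonneg (‖x‖ - ‖y‖), sq_nonneg (‖y‖ - ‖z‖), sq_nonneg (‖x‖ - ‖z‖)]

theorem DTR_bound {E : ℝ} {C' x base : ℝ} (hE : 1 ≤ E) (hC : C' ≤ E) (hb : 1 ≤ base) (hbx : base ≤ x) :
    C' * base ^ C' ≤ E * x ^ E := by
  have h1 : base ^ C' ≤ base ^ E := Real.rpow_le_rpow_of_exponent_le hb hC
  have h2 : base ^ E ≤ x ^ E := Real.rpow_le_rpow (by linarith) hbx (by linarith)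
  exact mul_le_mul hC (h1.trans h2) (by positivity) (by linarith)

theorem D_trunc (K A : ℕ) (hK : 3 ≤ K) : ∃ C : ℝ, ∀ (X h t₀ : ℝ) (N P z₁ z y m : ℕ), 3 ≤ X →
    0 < h → h ≤ 1 → z0 ≤ z₁ → z₁ ≤ z → z ≤ y → y ≤ P → N ≤ P → (P : ℝ) ≤ X →
    C * Real.log (Real.log X + 3) ≤ m → Real.exp (1 / h) * (y : ℝ) ^ (4 * m) ≤ N →
    RR P (fun D => ‖GG K N z₁ z y m h D t₀ - GGex K z₁ z y P h D t₀‖ ^ 2) ≤
      C / (Real.log X) ^ A := by
  have hK1 : 1 ≤ K := by omega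
  obtain ⟨C1, hC1⟩ := LP_moment 12
  obtain ⟨C2, hC2⟩ := Mo'_trunc 12 0 (by norm_num)
  obtain ⟨C3, hC3⟩ := gT_trunc 12 0 (by norm_num)
  set E : ℝ := max 1 (max C1 (max C2 C3)) with hE
  have hE1 : 1 ≤ E := le_max_left _ _
  have hEC1 : C1 ≤ E := (le_max_left _ _).trans (le_max_right _ _)
  have hEC2 : C2 ≤ E := (le_max_left _ _).trans ((le_max_right _ _).trans (le_max_right _ _))
  have hEC3 : C3 ≤ E := (le_max_right _ _).trans ((le_max_right _ _).trans (le_max_right _ _))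
  set A' : ℕ := 2 * A + ⌈E⌉₊ with hA'
  obtain ⟨C4, hC4⟩ := Mo'_trunc 4 A' (by norm_num)
  obtain ⟨C5, hC5⟩ := gT_trunc 4 A' (by norm_num)
  set F : ℝ := max 1 (max C4 C5) with hF
  have hF1 : 1 ≤ F := le_max_left _ _
  have hFC4 : C4 ≤ F := (le_max_left _ _).trans (le_max_right _ _)
  have hFC5 : C5 ≤ F := (le_max_right _ _).trans (le_max_right _ _)
  set W := ∫ t : ℝ, wK K t with hW
  have hW0 : 0 < W := by
    obtain ⟨a, ha, _, ha2⟩ := what_zero hK1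
    rw [hW, ← ha2]; exact ha
  obtain ⟨E0, hE0, hMd⟩ := DTR_Mo_diff
  set G : ℝ := (E0 ^ 4 + 2) * F with hG
  set B0 : ℝ := 3 * (3 * (3 * (E * 2 ^ E) + G)) with hB0
  have hG0 : 0 < G := by positivity
  refine ⟨max (max E F) (W ^ 2 * B0), ?_⟩
  intro X h t₀ N P z₁ z y m hX hh hh1 h1 h2 h3 h4 hNP hPX hm hN
  have hlog1 : 1 ≤ Real.log X := SUMS_log3.trans (Real.log_le_log (by norm_num) hX)
  set L := Real.log X with hL
  have hL0 : 0 < L := by linarith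
  have hll : 0 ≤ Real.log (L + 3) := Real.log_nonneg (by linarith)
  have hmE : E * Real.log (L + 3) ≤ m :=
    (mul_le_mul_of_nonneg_right ((le_max_left _ _).trans (le_max_left _ _)) hll).trans hm
  have hmF : F * Real.log (L + 3) ≤ m :=
    (mul_le_mul_of_nonneg_right ((le_max_right _ _).trans (le_max_left _ _)) hll).trans hm
  have hm2 : C2 * Real.log (L + 3) ≤ m := (mul_le_mul_of_nonneg_right hEC2 hll).trans hmE
  have hm3 : C3 * Real.log (L + 3) ≤ m := (mul_le_mul_of_nonneg_right hEC3 hll).trans hmE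
  have hm4 : C4 * Real.log (L + 3) ≤ m := (mul_le_mul_of_nonneg_right hFC4 hll).trans hmF
  have hm5 : C5 * Real.log (L + 3) ≤ m := (mul_le_mul_of_nonneg_right hFC5 hll).trans hmF
  have hyX : (y : ℝ) ≤ X := (by exact_mod_cast h4 : (y : ℝ) ≤ P).trans hPX
  have hzX : (z : ℝ) ≤ X := (by exact_mod_cast h3 : (z : ℝ) ≤ y).trans hyX
  have hz1X : (z₁ : ℝ) ≤ X := (by exact_mod_cast h2 : (z₁ : ℝ) ≤ z).trans hzX
  have hlogn : ∀ b : ℕ, (b : ℝ) ≤ X → 1 ≤ 1 + Real.log b ∧ 1 + Real.log b ≤ 2 * L := by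
    intro b hb
    constructor
    · have : 0 ≤ Real.log b := Real.log_natCast_nonneg b
      linarith
    · rcases Nat.eq_zero_or_pos b with rfl | hb0
      · simp; linarith
      · have : Real.log b ≤ L := Real.log_le_log (by exact_mod_cast hb0) hb
        linarith
  set M : ℝ := E * (2 * L) ^ E with hM
  -- moments
  have mL : ∀ t, RR P (fun D => ‖LP 0 P D t‖ ^ 12) ≤ M := by
    intro t
    have h5 := hlogn P hPX
    exact (hC1 0 P P t le_rfl).1.trans (DTR_bound hE1 hEC1 h5.1 h5.2)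
  have mL1 : ∀ t, RR P (fun D => ‖(LP 0 z₁ D t)⁻¹‖ ^ 12) ≤ M := by
    intro t
    have h5 := hlogn z₁ hz1X
    exact (hC1 0 z₁ P t (h2.trans (h3.trans h4))).2.trans (DTR_bound hE1 hEC1 h5.1 h5.2)
  have mL2 : ∀ t, RR P (fun D => ‖(LP z₁ z D t)⁻¹‖ ^ 12) ≤ M := by
    intro t
    have h5 := hlogn z hzX
    exact (hC1 z₁ z P t (h3.trans h4)).2.trans (DTR_bound hE1 hEC1 h5.1 h5.2)
  have mM : ∀ t, RR P (fun D => ‖Mo' z₁ z m D t‖ ^ 12) ≤ M := by
    intro t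
    exact (hC2 X z₁ z m P t hX h1 h2 (h3.trans h4) hzX hm2).2.trans
      (DTR_bound hE1 hEC2 hlog1 (by linarith))
  have mg : ∀ t, RR P (fun D => ‖gT z y m D t‖ ^ 12) ≤ M := by
    intro t
    exact (hC3 X z y m P t hX h4 hyX hm3).2.trans (DTR_bound hE1 hEC3 hlog1 (by linarith))
  -- differences
  have dA : RR P (fun D => ‖Mo z₁ m D t₀ - (LP 0 z₁ D t₀)⁻¹‖ ^ 4) ≤ E0 ^ 4 * (F / L ^ A') := by
    have h5 : RR P (fun D => ‖Mo z₁ m D t₀ - (LP 0 z₁ D t₀)⁻¹‖ ^ 4) ≤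
        RR P (fun D => E0 ^ 4 * ‖Mo' z0 z₁ m D t₀ - (LP z0 z₁ D t₀)⁻¹‖ ^ 4) := by
      refine DTR_RR_mono (fun D => ?_)
      rw [← mul_pow]
      exact pow_le_pow_left₀ (norm_nonneg _) (hMd z₁ m D t₀ h1) 4
    refine h5.trans ?_
    rw [DTR_RR_mul]
    refine mul_le_mul_of_nonneg_left ?_ (by positivity)
    refine (hC4 X z0 z₁ m P t₀ hX le_rfl h1 (h2.trans (h3.trans h4)) hz1X hm4).1.trans ?_
    gcongr
  have dM : ∀ t, RR P (fun D => ‖Mo' z₁ z m D t - (LP z₁ z D t)⁻¹‖ ^ 4) ≤ F / L ^ A' := by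
    intro t
    refine (hC4 X z₁ z m P t hX h1 h2 (h3.trans h4) hzX hm4).1.trans ?_
    gcongr
  have dg : ∀ t, RR P (fun D => ‖gT z y m D t - exp (-(I * theta z y D t))‖ ^ 4) ≤ F / L ^ A' := by
    intro t
    refine (hC5 X z y m P t hX h4 hyX hm5).1.trans ?_
    gcongr
  have me : ∀ t, RR P (fun D => ‖exp (-(I * theta z y D t))‖ ^ 12) ≤ M := by
    intro t
    simp_rw [DTR_norm_exp, one_pow]
    rw [DTR_RR_const, hM]
    have h5 : (1 : ℝ) ≤ (2 * L) ^ E := Real.one_le_rpow (by linarith) (by linarith)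
    nlinarith
  -- the main bound at one height
  set lam : ℝ := L ^ (-((A : ℝ) + E)) with hlam
  have hlam0 : 0 < lam := Real.rpow_pos_of_pos hL0 _
  have hLA : L ^ A = L ^ (A : ℝ) := (Real.rpow_natCast L A).symm
  have b1 : lam * (3 * M) ≤ 3 * (E * 2 ^ E) / L ^ A := by
    have e1 : (2 * L) ^ E = 2 ^ E * L ^ E := Real.mul_rpow (by norm_num) hL0.le
    have e2 : lam * L ^ E = (L ^ A)⁻¹ := by
      rw [hlam, hLA, ← Real.rpow_add hL0, ← Real.rpow_neg hL0.le]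
      congr 1; ring
    have e3 : lam * (3 * M) = 3 * (E * 2 ^ E) * (lam * L ^ E) := by
      rw [hM, e1]; ring
    rw [e3, e2]; exact le_of_eq (by rw [div_eq_mul_inv])
  have b2 : lam⁻¹ * (1 / L ^ A') ≤ 1 / L ^ A := by
    have e2 : lam⁻¹ = L ^ ((A : ℝ) + E) := by
      rw [hlam, Real.rpow_neg hL0.le, inv_inv]
    have e3 : L ^ A' = L ^ (A' : ℝ) := (Real.rpow_natCast L A').symm
    rw [e2, e3, hLA, one_div, one_div, ← Real.rpow_neg hL0.le, ← Real.rpow_neg hL0.le,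
      ← Real.rpow_add hL0]
    refine Real.rpow_le_rpow_of_exponent_le hlog1 ?_
    have : E ≤ ⌈E⌉₊ := Nat.le_ceil E
    rw [hA']; push_cast; linarith
  have b3 : ∀ g : ℝ, 0 ≤ g → lam⁻¹ * (g * (F / L ^ A')) ≤ (g * F) / L ^ A := by
    intro g hg
    have e4 : lam⁻¹ * (g * (F / L ^ A')) = (g * F) * (lam⁻¹ * (1 / L ^ A')) := by ring
    rw [e4]
    calc (g * F) * (lam⁻¹ * (1 / L ^ A')) ≤ (g * F) * (1 / L ^ A) :=
          mul_le_mul_of_nonneg_left b2 (by positivity)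
      _ = (g * F) / L ^ A := by ring
  set Dl : ℤ → ℝ → ℂ := fun D t => LP 0 P D t * (TT z₁ z y m D t t₀ - DTR_TTex z₁ z y D t₀ t)
    with hDl
  have main : ∀ t, RR P (fun D => ‖Dl D t‖ ^ 2) ≤ B0 / L ^ A := by
    intro t
    have h5 : RR P (fun D => ‖Dl D t‖ ^ 2) ≤ RR P (fun D =>
        3 * (‖LP 0 P D t * ((Mo z₁ m D t₀ - (LP 0 z₁ D t₀)⁻¹) * Mo' z₁ z m D t *
            gT z y m D t)‖ ^ 2 +
          (‖LP 0 P D t * ((Mo' z₁ z m D t - (LP z₁ z D t)⁻¹) * (LP 0 z₁ D t₀)⁻¹ *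
            gT z y m D t)‖ ^ 2 +
          ‖LP 0 P D t * ((gT z y m D t - exp (-(I * theta z y D t))) * (LP 0 z₁ D t₀)⁻¹ *
            (LP z₁ z D t)⁻¹)‖ ^ 2))) := by
      refine DTR_RR_mono (fun D => ?_)
      refine le_trans (le_of_eq ?_) (DTR_three _ _ _)
      congr 2
      simp only [hDl]
      unfold TT DTR_TTex
      ring
    refine h5.trans ?_
    rw [DTR_RR_mul, DTR_RR_add, DTR_RR_add]
    have y1 := DTR_young (P := P) hlam0 (mL t) (mM t) (mg t) dA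
    have y2 := DTR_young (P := P) hlam0 (mL t) (mL1 t₀) (mg t) (dM t)
    have y3 := DTR_young (P := P) hlam0 (mL t) (mL1 t₀) (mL2 t) (dg t)
    have z1 := b3 (E0 ^ 4) (by positivity)
    have z2 := b3 1 (by norm_num)
    rw [one_mul, one_mul] at z2
    have e5 : B0 / L ^ A = 3 * (3 * (3 * (E * 2 ^ E) / L ^ A) + 3 * (G / L ^ A)) := by
      rw [hB0]; ring
    have e6 : G / L ^ A = (E0 ^ 4 * F) / L ^ A + (F / L ^ A + F / L ^ A) := by
      rw [hG]; ring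
    have hG' : 0 ≤ G / L ^ A := by positivity
    rw [e5]
    linarith
  -- integration
  have hBC : ∀ D, DTR_BC (Dl D) := by
    intro D
    refine DTR_BC_mul (DTR_BC_LP 0 P D) (DTR_BC_sub ?_ ?_)
    · exact DTR_BC_mul (DTR_BC_mul (DTR_BC_const _) (DTR_BC_Mo' z₁ z m D)) (DTR_BC_gT z y m D)
    · exact DTR_BC_mul (DTR_BC_mul (DTR_BC_const _) (DTR_BC_LPinv z₁ z D)) (DTR_BC_exp z y D)
  have hBT : ∀ D, DTR_BC (fun t => LP 0 P D t * TT z₁ z y m D t t₀) := by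
    intro D
    exact DTR_BC_mul (DTR_BC_LP 0 P D)
      (DTR_BC_mul (DTR_BC_mul (DTR_BC_const _) (DTR_BC_Mo' z₁ z m D)) (DTR_BC_gT z y m D))
  have hBE : ∀ D, DTR_BC (fun t => LP 0 P D t * DTR_TTex z₁ z y D t₀ t) := by
    intro D
    exact DTR_BC_mul (DTR_BC_LP 0 P D)
      (DTR_BC_mul (DTR_BC_mul (DTR_BC_const _) (DTR_BC_LPinv z₁ z D)) (DTR_BC_exp z y D))
  have hdiff : ∀ D : ℤ, GG K N z₁ z y m h D t₀ - GGex K z₁ z y P h D t₀ =
      (∫ t : ℝ, Dl D t * (wK K ((t - t₀) / h) : ℂ)) / h := by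
    intro D
    rw [GG_complete hK hh h1 h2 h3 hNP hN D]
    unfold GGex
    rw [← sub_div]
    congr 1
    have e7 : (∫ t : ℝ, EX z₁ z y P D t t₀ * (wK K ((t - t₀) / h) : ℂ)) =
        ∫ t : ℝ, (LP 0 P D t * DTR_TTex z₁ z y D t₀ t) * (wK K ((t - t₀) / h) : ℂ) := by
      refine integral_congr_ae (Filter.Eventually.of_forall (fun t => ?_))
      simp only
      rw [DTR_EX h2 h3 h4]
    rw [e7, ← integral_sub (DTR_int hK1 hh t₀ (hBT D)).1 (DTR_int hK1 hh t₀ (hBE D)).1]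
    refine integral_congr_ae (Filter.Eventually.of_forall (fun t => ?_))
    simp only [hDl]
    ring
  have step1 : RR P (fun D => ‖GG K N z₁ z y m h D t₀ - GGex K z₁ z y P h D t₀‖ ^ 2) ≤
      RR P (fun D => (W / h) * ∫ t : ℝ, ‖Dl D t‖ ^ 2 * wK K ((t - t₀) / h)) := by
    refine DTR_RR_mono (fun D => ?_)
    rw [hdiff D, norm_div, div_pow, Complex.norm_real, Real.norm_of_nonneg hh.le]
    have h6 := DTR_CS hK1 hh t₀ (hBC D)
    rw [div_le_iff₀ (by positivity)]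
    refine h6.trans (le_of_eq ?_)
    rw [← hW]
    field_simp
  refine step1.trans ?_
  rw [DTR_RR_mul, DTR_RR_int (fun D => (DTR_int hK1 hh t₀ (hBC D)).2.2)]
  have hw := DTR_w_int hK1 hh t₀
  have e8 : (∫ t : ℝ, RR P (fun D => ‖Dl D t‖ ^ 2 * wK K ((t - t₀) / h))) ≤
      ∫ t : ℝ, (B0 / L ^ A) * wK K ((t - t₀) / h) := by
    refine integral_mono ?_ (hw.1.const_mul _) (fun t => ?_)
    · unfold RR
      exact (integrable_finsetSum _ (fun D _ => (DTR_int hK1 hh t₀ (hBC _)).2.2)).div_const _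
    · simp only
      have e9 : RR P (fun D => ‖Dl D t‖ ^ 2 * wK K ((t - t₀) / h)) =
          wK K ((t - t₀) / h) * RR P (fun D => ‖Dl D t‖ ^ 2) := by
        rw [← DTR_RR_mul]
        congr 1
        funext D; ring
      rw [e9, mul_comm (B0 / L ^ A)]
      exact mul_le_mul_of_nonneg_left (main t) (wK_nonneg K _)
  rw [integral_const_mul, hw.2] at e8
  calc (W / h) * ∫ t : ℝ, RR P (fun D => ‖Dl D t‖ ^ 2 * wK K ((t - t₀) / h))
      ≤ (W / h) * ((B0 / L ^ A) * (h * ∫ t : ℝ, wK K t)) :=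
        mul_le_mul_of_nonneg_left e8 (by positivity)
    _ = (W ^ 2 * B0) / L ^ A := by
        rw [← hW]; field_simp
    _ ≤ max (max E F) (W ^ 2 * B0) / L ^ A := by
        gcongr
        exact le_max_right _ _

end Pool.Agent.CZ
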