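import Mathlib
import Pool.Agent.CZ.Defs

/-! Module DVR: integral of the singular factor. -/

set_option autoImplicit false

open Complex Finset MeasureTheory

namespace Pool.Agent.CZ

/-- general bound of one factor -/
theorem DVR_rho_le {a b v : ℝ} (ha : 1 ≤ a) (hb : a ≤ b) :
    ((1 + b) * (1 + |v| * a)) / ((1 + |v| * b) * (1 + a)) ≤ 4 * (b / a) / (1 + |v| * b) ∨ 1 < |v| * a := by
  by_cases h : 1 < |v| * a
  · exact Or.inr h
  · left
    push Not at h
    have hv := abs_nonneg v
    have hb0 : 0 < 1 + |v| * b := by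
      have : 0 ≤ |v| * b := mul_nonneg hv (by linarith)
      linarith
    rw [div_le_div_iff₀ (by positivity) hb0]
    have e1 : 4 * (b / a) * ((1 + |v| * b) * (1 + a)) = (4 * b * ((1 + a) / a)) * (1 + |v| * b) := by
      field_simp
    rw [e1]
    refine mul_le_mul_of_nonneg_right ?_ hb0.le
    have e2 : 1 ≤ (1 + a) / a := by
      rw [le_div_iff₀ (by linarith)]; linarith
    have e3 : (1 + b) * (1 + |v| * a) ≤ (2 * b) * 2 := by
      refine mul_le_mul (by linarith) (by linarith) (by positivity) (by linarith)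
    have : 4 * b * 1 ≤ 4 * b * ((1 + a) / a) := mul_le_mul_of_nonneg_left e2 (by linarith)
    linarith

theorem DVR_rho_le' {a b v : ℝ} (ha : 1 ≤ a) (hb : a ≤ b) (h : 1 ≤ |v| * a) :
    ((1 + b) * (1 + |v| * a)) / ((1 + |v| * b) * (1 + a)) ≤ 4 := by
  have hv := abs_nonneg v
  have ha0 : 0 < a := by linarith
  have hvb : |v| * a ≤ |v| * b := mul_le_mul_of_nonneg_left hb hv
  have hb0 : 0 < b := by linarith
  rw [div_le_iff₀ (by positivity)]
  have e1 : (1 + b) * (1 + |v| * a) ≤ (2 * b) * (2 * (|v| * a)) := by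
    refine mul_le_mul (by linarith) (by linarith) (by positivity) (by linarith)
  have e2 : (|v| * b) * a ≤ (1 + |v| * b) * (1 + a) :=
    mul_le_mul (by linarith) (by linarith) (by linarith) (by positivity)
  nlinarith

theorem DVR_log_ge {z : ℕ} (hz : 3 ≤ z) : 1 ≤ Real.log z := by
  rw [Real.le_log_iff_exp_le (by positivity)]
  have h1 : Real.exp 1 ≤ 3 := by linarith [Real.exp_one_lt_d9]
  have h2 : (3 : ℝ) ≤ z := by exact_mod_cast hz
  linarith

theorem DVR_rho_nonneg (y P : ℕ) (v : ℝ) : 0 ≤ rho y P v := by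
  unfold rho
  have h1 : 0 ≤ Real.log y := Real.log_natCast_nonneg y
  have h2 : 0 ≤ Real.log P := Real.log_natCast_nonneg P
  positivity

theorem DVR_rho_cont (y P : ℕ) : Continuous (rho y P) := by
  unfold rho
  have h1 : 0 ≤ Real.log y := Real.log_natCast_nonneg y
  have h2 : 0 ≤ Real.log P := Real.log_natCast_nonneg P
  refine Continuous.div (by fun_prop) (by fun_prop) fun v => ?_
  positivity

theorem DVR_alg {sa sb sw c D b W : ℝ} (h1 : 0 < sa) (h2 : 0 < sb) (h3 : 0 < sw) (h4 : 0 < D)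
    (hb : b = sb * sb) (hW : W = sw * sw) :
    (2 * (sb / sa) / sw) * (2 * (c / b) * W / D) = 4 * (c / (sa * sb)) * (sw / D) := by
  subst hb hW
  field_simp
  ring

/-- pointwise bound near zero -/
theorem DVR_near {z y P : ℕ} (hz : 3 ≤ z) (hy : z ≤ y) (hP : y ≤ P) {v : ℝ} (hv0 : v ≠ 0)
    (hv : |v| * Real.log z ≤ 1) :
    (rho z y v) ^ (1 / 2 : ℝ) * rho y P v ≤
      8 * ((1 / Real.log z) * (Real.log P / (1 + |v| * Real.log P)) +
        (1 / Real.sqrt (Real.log z)) * (1 / Real.sqrt |v|)) := by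
  have ha := DVR_log_ge hz
  have hab : Real.log z ≤ Real.log y := Real.log_le_log (by positivity) (by exact_mod_cast hy)
  have hy0 : 0 < y := by omega
  have hbc : Real.log y ≤ Real.log P := Real.log_le_log (by exact_mod_cast hy0) (by exact_mod_cast hP)
  set a := Real.log z
  set b := Real.log y
  set c := Real.log P
  have hv' := abs_pos.mpr hv0
  have hb0 : 0 < b := by linarith
  have hc0 : 0 < c := by linarith
  have ha0 : 0 < a := by linarith
  have h1 : rho z y v ≤ 4 * (b / a) / (1 + |v| * b) := by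
    rcases DVR_rho_le (v := v) ha hab with h | h
    · exact h
    · linarith
  have h2 : rho y P v ≤ 2 * (c / b) * (1 + |v| * b) / (1 + |v| * c) := by
    unfold rho
    rw [div_le_div_iff₀ (by positivity) (by positivity)]
    have e1 : (1 + c) ≤ 2 * c := by linarith
    have e2 : 2 * (c / b) * (1 + |v| * b) * ((1 + |v| * c) * (1 + b)) =
        (2 * c * ((1 + b) / b)) * ((1 + |v| * b) * (1 + |v| * c)) := by
      field_simp
    rw [e2, mul_assoc]
    refine mul_le_mul_of_nonneg_right ?_ (by positivity)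
    have e3 : 1 ≤ (1 + b) / b := by
      rw [le_div_iff₀ hb0]; linarith
    have : 2 * c * 1 ≤ 2 * c * ((1 + b) / b) := mul_le_mul_of_nonneg_left e3 (by linarith)
    linarith
  have h3 : (rho z y v) ^ (1 / 2 : ℝ) ≤ 2 * (Real.sqrt b / Real.sqrt a) / Real.sqrt (1 + |v| * b) := by
    rw [← Real.sqrt_eq_rpow]
    refine (Real.sqrt_le_sqrt h1).trans (le_of_eq ?_)
    rw [Real.sqrt_div (by positivity), Real.sqrt_mul (by norm_num), Real.sqrt_div hb0.le]
    have : Real.sqrt 4 = 2 := by
      rw [show (4 : ℝ) = 2 ^ 2 by norm_num]; exact Real.sqrt_sq (by norm_num)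
    rw [this]
  have h4 : (rho z y v) ^ (1 / 2 : ℝ) * rho y P v ≤
      (2 * (Real.sqrt b / Real.sqrt a) / Real.sqrt (1 + |v| * b)) *
        (2 * (c / b) * (1 + |v| * b) / (1 + |v| * c)) :=
    mul_le_mul h3 h2 (DVR_rho_nonneg _ _ _) (by positivity)
  refine h4.trans ?_
  have hs : Real.sqrt (1 + |v| * b) ≤ 1 + Real.sqrt (|v| * b) := by
    rw [Real.sqrt_le_left (by positivity)]
    have := Real.sq_sqrt (show 0 ≤ |v| * b by positivity)
    nlinarith [Real.sqrt_nonneg (|v| * b)]
  have hsb : Real.sqrt b * Real.sqrt b = b := Real.mul_self_sqrt hb0.le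
  have hsa : Real.sqrt a * Real.sqrt a = a := Real.mul_self_sqrt ha0.le
  have hsv : Real.sqrt |v| * Real.sqrt |v| = |v| := Real.mul_self_sqrt hv'.le
  have hsw : Real.sqrt (1 + |v| * b) * Real.sqrt (1 + |v| * b) = 1 + |v| * b := Real.mul_self_sqrt (by positivity)
  have pa : 0 < Real.sqrt a := Real.sqrt_pos.mpr ha0
  have pb : 0 < Real.sqrt b := Real.sqrt_pos.mpr hb0
  have pv : 0 < Real.sqrt |v| := Real.sqrt_pos.mpr hv'
  have pw : 0 < Real.sqrt (1 + |v| * b) := Real.sqrt_pos.mpr (by positivity)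
  have hpab : Real.sqrt a ≤ Real.sqrt b := Real.sqrt_le_sqrt hab
  have e5 : (2 * (Real.sqrt b / Real.sqrt a) / Real.sqrt (1 + |v| * b)) *
        (2 * (c / b) * (1 + |v| * b) / (1 + |v| * c)) =
      4 * (c / (Real.sqrt a * Real.sqrt b)) * (Real.sqrt (1 + |v| * b) / (1 + |v| * c)) := by
    exact DVR_alg pa pb pw (by positivity) hsb.symm hsw.symm
  rw [e5]
  have e6 : 4 * (c / (Real.sqrt a * Real.sqrt b)) * (Real.sqrt (1 + |v| * b) / (1 + |v| * c)) ≤
      4 * (c / (Real.sqrt a * Real.sqrt b)) * ((1 + Real.sqrt (|v| * b)) / (1 + |v| * c)) := by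
    gcongr
  refine e6.trans ?_
  have e7 : 4 * (c / (Real.sqrt a * Real.sqrt b)) * ((1 + Real.sqrt (|v| * b)) / (1 + |v| * c)) =
      4 * ((1 / (Real.sqrt a * Real.sqrt b)) * (c / (1 + |v| * c)) +
        (1 / Real.sqrt a) * ((c * Real.sqrt |v|) / (1 + |v| * c))) := by
    rw [Real.sqrt_mul hv'.le]
    field_simp
  rw [e7]
  have e8 : 1 / (Real.sqrt a * Real.sqrt b) ≤ 1 / a := by
    refine one_div_le_one_div_of_le ha0 ?_
    calc a = Real.sqrt a * Real.sqrt a := hsa.symm
      _ ≤ Real.sqrt a * Real.sqrt b := mul_le_mul_of_nonneg_left hpab pa.le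
  have e9 : (c * Real.sqrt |v|) / (1 + |v| * c) ≤ 1 / Real.sqrt |v| := by
    rw [div_le_div_iff₀ (by positivity) pv]
    nlinarith
  have e10 : (1 / (Real.sqrt a * Real.sqrt b)) * (c / (1 + |v| * c)) ≤ (1 / a) * (c / (1 + |v| * c)) :=
    mul_le_mul_of_nonneg_right e8 (by positivity)
  have e11 : (1 / Real.sqrt a) * ((c * Real.sqrt |v|) / (1 + |v| * c)) ≤ (1 / Real.sqrt a) * (1 / Real.sqrt |v|) :=
    mul_le_mul_of_nonneg_left e9 (by positivity)
  have e12 : 0 ≤ (1 / a) * (c / (1 + |v| * c)) + (1 / Real.sqrt a) * (1 / Real.sqrt |v|) := by positivity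
  linarith

theorem DVR_int1 {u c : ℝ} (hu : 0 ≤ u) (hc : 0 < c) :
    IntervalIntegrable (fun v : ℝ => c / (1 + v * c)) volume 0 u ∧
    ∫ v in (0 : ℝ)..u, c / (1 + v * c) = Real.log (1 + u * c) := by
  have hpos : ∀ v ∈ Set.uIcc 0 u, 0 < 1 + v * c := by
    intro v hv
    rw [Set.uIcc_of_le hu] at hv
    have := mul_nonneg hv.1 hc.le
    linarith
  have hcont : ContinuousOn (fun v : ℝ => c / (1 + v * c)) (Set.uIcc 0 u) :=
    ContinuousOn.div (by fun_prop) (by fun_prop) fun v hv => (hpos v hv).ne'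
  have hI : IntervalIntegrable (fun v : ℝ => c / (1 + v * c)) volume 0 u := hcont.intervalIntegrable
  refine ⟨hI, ?_⟩
  have h := intervalIntegral.integral_eq_sub_of_hasDerivAt
    (f := fun v : ℝ => Real.log (1 + v * c)) (f' := fun v : ℝ => c / (1 + v * c)) (a := 0) (b := u) ?_ hI
  · rw [h]; simp
  · intro v hv
    have h1 : HasDerivAt (fun v : ℝ => 1 + v * c) c v := by
      simpa using ((hasDerivAt_id v).mul_const c).const_add 1
    exact h1.log (hpos v hv).ne'

theorem DVR_int2 (u : ℝ) :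
    IntervalIntegrable (fun v : ℝ => v ^ (-(1 / 2) : ℝ)) volume 0 u ∧
    ∫ v in (0 : ℝ)..u, v ^ (-(1 / 2) : ℝ) = 2 * Real.sqrt u := by
  refine ⟨intervalIntegral.intervalIntegrable_rpow' (by norm_num), ?_⟩
  rw [integral_rpow (Or.inl (by norm_num)), Real.sqrt_eq_rpow]
  have : (-(1 / 2) + 1 : ℝ) = 1 / 2 := by norm_num
  rw [this, Real.zero_rpow (by norm_num)]
  ring

/-- DVR: integral of the singular factor -/
theorem rho_rho_int : ∃ C : ℝ, ∀ (z y P : ℕ), 3 ≤ z → z ≤ y → y ≤ P →
    (∫ v in (-(1 / Real.log z))..(1 / Real.log z), (rho z y v) ^ (1 / 2 : ℝ) * rho y P v) ≤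
      C * Real.log (Real.log P + 3) / Real.log z ∧
    ∀ v : ℝ, 1 ≤ |v| * Real.log z → (rho z y v) ^ (1 / 2 : ℝ) * rho y P v ≤ C * (1 + |v|) := by
  refine ⟨48, fun z y P hz hy hP => ⟨?_, ?_⟩⟩
  · have ha := DVR_log_ge hz
    have hab : Real.log z ≤ Real.log y := Real.log_le_log (by positivity) (by exact_mod_cast hy)
    have hy0 : 0 < y := by omega
    have hbc : Real.log y ≤ Real.log P := Real.log_le_log (by exact_mod_cast hy0) (by exact_mod_cast hP)
    have hnear := fun v => DVR_near (v := v) hz hy hP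
    set a := Real.log z with ha_def
    set c := Real.log P with hc_def
    have ha0 : 0 < a := by linarith
    have hc0 : 0 < c := by linarith
    set f : ℝ → ℝ := fun v => (rho z y v) ^ (1 / 2 : ℝ) * rho y P v with hf
    have hfc : Continuous f :=
      ((DVR_rho_cont z y).rpow_const fun _ => Or.inr (by norm_num)).mul (DVR_rho_cont y P)
    have hfe : ∀ v, f (-v) = f v := by
      intro v; simp only [hf, rho, abs_neg]
    have h1 : (∫ v in (-(1 / a))..(1 / a), f v) = 2 * ∫ v in (0 : ℝ)..(1 / a), f v := by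
      rw [← intervalIntegral.integral_add_adjacent_intervals (hfc.intervalIntegrable (-(1 / a)) 0)
        (hfc.intervalIntegrable 0 (1 / a))]
      have : (∫ v in (-(1 / a))..0, f v) = ∫ v in (0 : ℝ)..(1 / a), f v := by
        have := intervalIntegral.integral_comp_neg (a := 0) (b := 1 / a) f
        rw [neg_zero] at this
        rw [← this]
        exact intervalIntegral.integral_congr fun v _ => hfe v
      rw [this]; ring
    rw [h1]
    have hu : 0 ≤ 1 / a := by positivity
    obtain ⟨i1, i2⟩ := DVR_int1 hu hc0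
    obtain ⟨j1, j2⟩ := DVR_int2 (1 / a)
    have hgI : IntervalIntegrable (fun v : ℝ => 8 * ((1 / a) * (c / (1 + v * c)) +
        (1 / Real.sqrt a) * v ^ (-(1 / 2) : ℝ))) volume 0 (1 / a) :=
      ((i1.const_mul _).add (j1.const_mul _)).const_mul _
    have h2 : (∫ v in (0 : ℝ)..(1 / a), f v) ≤ ∫ v in (0 : ℝ)..(1 / a), 8 * ((1 / a) * (c / (1 + v * c)) +
        (1 / Real.sqrt a) * v ^ (-(1 / 2) : ℝ)) := by
      refine intervalIntegral.integral_mono_on_of_le_Ioo hu (hfc.intervalIntegrable _ _) hgI ?_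
      intro v hv
      have h3 := hnear v hv.1.ne' (by
        rw [abs_of_pos hv.1]
        have := hv.2.le
        rwa [le_div_iff₀ ha0] at this)
      rw [abs_of_pos hv.1] at h3
      refine h3.trans (le_of_eq ?_)
      rw [Real.rpow_neg hv.1.le, ← Real.sqrt_eq_rpow, one_div (Real.sqrt v)]
    have h3 : ∫ v in (0 : ℝ)..(1 / a), 8 * ((1 / a) * (c / (1 + v * c)) +
        (1 / Real.sqrt a) * v ^ (-(1 / 2) : ℝ)) =
        8 * ((1 / a) * Real.log (1 + 1 / a * c) + (1 / Real.sqrt a) * (2 * Real.sqrt (1 / a))) := by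
      rw [intervalIntegral.integral_const_mul, intervalIntegral.integral_add (i1.const_mul _) (j1.const_mul _),
        intervalIntegral.integral_const_mul, intervalIntegral.integral_const_mul, i2, j2]
    have h4 : (1 / Real.sqrt a) * (2 * Real.sqrt (1 / a)) = 2 / a := by
      rw [Real.sqrt_div zero_le_one, Real.sqrt_one]
      have : Real.sqrt a * Real.sqrt a = a := Real.mul_self_sqrt ha0.le
      have hp : 0 < Real.sqrt a := Real.sqrt_pos.mpr ha0
      calc (1 / Real.sqrt a) * (2 * (1 / Real.sqrt a)) = 2 / (Real.sqrt a * Real.sqrt a) := by field_simp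
        _ = 2 / a := by rw [this]
    have h5 : Real.log (1 + 1 / a * c) ≤ Real.log (c + 3) := by
      refine Real.log_le_log (by positivity) ?_
      have : 1 / a * c ≤ 1 * c := by
        refine mul_le_mul_of_nonneg_right ?_ hc0.le
        rw [div_le_iff₀ ha0]; linarith
      linarith
    have h6 : 1 ≤ Real.log (c + 3) := by
      rw [Real.le_log_iff_exp_le (by positivity)]
      linarith [Real.exp_one_lt_d9]
    have h7 : 2 * (8 * ((1 / a) * Real.log (1 + 1 / a * c) + 2 / a)) ≤ 48 * Real.log (c + 3) / a := by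
      rw [le_div_iff₀ ha0]
      have : 2 * (8 * ((1 / a) * Real.log (1 + 1 / a * c) + 2 / a)) * a = 16 * Real.log (1 + 1 / a * c) + 32 := by
        field_simp
        ring
      rw [this]
      linarith
    rw [h3, h4] at h2
    linarith
  · intro v hv
    have ha := DVR_log_ge hz
    have hab : Real.log z ≤ Real.log y := Real.log_le_log (by positivity) (by exact_mod_cast hy)
    have hy0 : 0 < y := by omega
    have hbc : Real.log y ≤ Real.log P := Real.log_le_log (by exact_mod_cast hy0) (by exact_mod_cast hP)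
    have h1 : rho z y v ≤ 4 := DVR_rho_le' ha hab hv
    have h2 : rho y P v ≤ 4 := DVR_rho_le' (ha.trans hab) hbc
      (hv.trans (mul_le_mul_of_nonneg_left hab (abs_nonneg v)))
    have h3 : (rho z y v) ^ (1 / 2 : ℝ) ≤ 2 := by
      rw [← Real.sqrt_eq_rpow, Real.sqrt_le_left (by norm_num)]
      linarith
    have h4 : (rho z y v) ^ (1 / 2 : ℝ) * rho y P v ≤ 2 * 4 :=
      mul_le_mul h3 h2 (DVR_rho_nonneg _ _ _) (by norm_num)
    have := abs_nonneg v
    linarith

end Pool.Agent.CZ
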