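import Mathlib
import Pool.Agent.CZ.Defs
import Pool.Agent.CZ.SUMS
import Pool.Agent.CZ.W
import Pool.Agent.CZ.DMS
import Pool.Agent.CZ.DVR

/-! Module DVI: the covariance kernel integrated over the windows. -/

set_option autoImplicit false

open Complex Finset MeasureTheory

namespace Pool.Agent.CZ

namespace DVI

/-- the basic weight -/
noncomputable def g (u : ℝ) : ℝ := (1 + u ^ 2)⁻¹

theorem g_pos (u : ℝ) : 0 < g u := by unfold g; positivity

theorem g_le_one (u : ℝ) : g u ≤ 1 := by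
  unfold g
  exact inv_le_one_of_one_le₀ (by nlinarith [sq_nonneg u])

theorem g_cont : Continuous g := by
  unfold g
  exact Continuous.inv₀ (by fun_prop) fun u => by positivity

theorem g_mul_sub (u v : ℝ) : g u * g v ≤ 2 * g (u - v) := by
  unfold g
  rw [← mul_inv, ← div_eq_mul_inv, inv_eq_one_div, div_le_div_iff₀ (by positivity) (by positivity)]
  nlinarith [sq_nonneg (u + v), sq_nonneg (u * v), sq_nonneg u, sq_nonneg v]

theorem g_mul_add (u v : ℝ) : g u * g v ≤ 2 * g (u + v) := by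
  unfold g
  rw [← mul_inv, ← div_eq_mul_inv, inv_eq_one_div, div_le_div_iff₀ (by positivity) (by positivity)]
  nlinarith [sq_nonneg (u - v), sq_nonneg (u * v), sq_nonneg u, sq_nonneg v]

theorem g_neg (u : ℝ) : g (-u) = g u := by unfold g; rw [neg_sq]

theorem weight {K n j : ℕ} (hK : n + 2 ≤ K) (hj : j ≤ n) {A u : ℝ} (hA : 0 ≤ A)
    (hw : wK K u ≤ A / (1 + u ^ 2) ^ K) : (1 + |u|) ^ j * wK K u ≤ A * 2 ^ n * g u ^ 2 := by
  have h1 : (1 : ℝ) ≤ 1 + |u| := by linarith [abs_nonneg u]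
  have h2 : (1 + |u|) ^ j ≤ (2 * (1 + u ^ 2)) ^ n := by
    refine (pow_le_pow_right₀ h1 hj).trans ?_
    refine pow_le_pow_left₀ (by positivity) ?_ n
    have := sq_abs u
    nlinarith [sq_nonneg (|u| - 1), abs_nonneg u]
  have h3 : (1 + |u|) ^ j * wK K u ≤ (2 * (1 + u ^ 2)) ^ n * (A / (1 + u ^ 2) ^ K) :=
    mul_le_mul h2 hw (wK_nonneg K u) (by positivity)
  refine h3.trans ?_
  obtain ⟨i, rfl⟩ := Nat.exists_eq_add_of_le hK
  have h4 : (2 * (1 + u ^ 2)) ^ n * (A / (1 + u ^ 2) ^ (n + 2 + i)) = A * 2 ^ n * g u ^ 2 * g u ^ i := by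
    unfold g
    rw [mul_pow, pow_add, pow_add, inv_pow, inv_pow]
    field_simp
  rw [h4]
  have h5 : g u ^ i ≤ 1 := pow_le_one₀ (g_pos u).le (g_le_one u)
  have h6 : 0 ≤ A * 2 ^ n * g u ^ 2 := by positivity
  nlinarith

theorem mm_nonneg (z : ℕ) (C u : ℝ) : 0 ≤ mm z C u := by
  unfold mm
  have h2 : 0 ≤ Real.log z := Real.log_natCast_nonneg z
  positivity

theorem mm_le {z n : ℕ} {C ζ h t : ℝ} (hC : 0 ≤ C) (hn : C ≤ n) (hh : 0 < h) (hζ : ζ ≤ 1)
    (hz : h * Real.log z ≤ ζ) : mm z C t ≤ ζ * (1 + |t / h|) ^ (n + 1) := by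
  have h2 : 0 ≤ Real.log z := Real.log_natCast_nonneg z
  have hζ0 : 0 ≤ ζ := (mul_nonneg hh.le h2).trans hz
  have h3 : |t| * Real.log z = |t / h| * (h * Real.log z) := by
    rw [abs_div, abs_of_pos hh]
    field_simp
  have hu := abs_nonneg (t / h)
  have h4 : |t| * Real.log z ≤ |t / h| * ζ := by
    rw [h3]; exact mul_le_mul_of_nonneg_left hz hu
  have h5 : |t / h| * ζ ≤ |t / h| := by nlinarith
  have h6 : (1 + |t| * Real.log z) ^ C ≤ (1 + |t / h|) ^ n := by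
    have e1 : (1 + |t| * Real.log z) ^ C ≤ (1 + |t / h|) ^ C :=
      Real.rpow_le_rpow (by positivity) (by linarith) hC
    refine e1.trans ?_
    rw [← Real.rpow_natCast]
    exact Real.rpow_le_rpow_of_exponent_le (by linarith) hn
  unfold mm
  calc |t| * Real.log z * (1 + |t| * Real.log z) ^ C ≤ (|t / h| * ζ) * (1 + |t / h|) ^ n :=
        mul_le_mul h4 h6 (by positivity) (by positivity)
    _ ≤ ζ * (1 + |t / h|) ^ (n + 1) := by
        rw [pow_succ]
        have : 0 ≤ ζ * (1 + |t / h|) ^ n := by positivity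
        nlinarith

/-! ### integrals -/

theorem lint_g {h : ℝ} (hh : 0 < h) (t₀ : ℝ) :
    ∫⁻ t : ℝ, ENNReal.ofReal (g ((t - t₀) / h)) = ENNReal.ofReal (Real.pi * h) := by
  have h1 : Integrable (fun t : ℝ => g ((t - t₀) / h)) := DMS_w_int hh t₀
  rw [← ofReal_integral_eq_lintegral_ofReal h1 (Filter.Eventually.of_forall fun t => (g_pos _).le)]
  congr 1
  rw [integral_sub_right_eq_self (fun v => g (v / h)) t₀, Measure.integral_comp_div, abs_of_pos hh, smul_eq_mul]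
  unfold g
  rw [integral_univ_inv_one_add_sq]
  ring

theorem lint_g' {h : ℝ} (hh : 0 < h) (t₀ : ℝ) :
    ∫⁻ t : ℝ, ENNReal.ofReal (g ((t₀ - t) / h)) = ENNReal.ofReal (Real.pi * h) := by
  rw [← lint_g hh t₀]
  refine lintegral_congr fun t => ?_
  rw [← g_neg]; congr 2; ring

theorem ofReal_int_le {f : ℝ → ℝ} {a b : ℝ} (hab : a ≤ b) {G : ℝ → ENNReal}
    (h0 : ∀ t ∈ Set.Ioc a b, 0 ≤ f t) (h : ∀ t ∈ Set.Ioc a b, ENNReal.ofReal (f t) ≤ G t) :
    ENNReal.ofReal (∫ t in a..b, f t) ≤ ∫⁻ t in Set.Ioc a b, G t := by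
  rw [intervalIntegral.integral_of_le hab]
  have h1 : ENNReal.ofReal (∫ t in Set.Ioc a b, f t) ≤ ‖∫ t in Set.Ioc a b, f t‖ₑ := by
    rw [← ofReal_norm]
    exact ENNReal.ofReal_le_ofReal (Real.le_norm_self _)
  refine h1.trans ((enorm_integral_le_lintegral_enorm _).trans ?_)
  refine setLIntegral_mono' measurableSet_Ioc fun t ht => ?_
  rw [Real.enorm_eq_ofReal (h0 t ht)]
  exact h t ht

/-- squared norm of a prime sum -/
noncomputable def N (a b : ℕ) (f : ℕ → ℝ) (v : ℝ) : ℝ := ‖∑ p ∈ primesIoc a b, (f p : ℂ) * npow p v‖ ^ 2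

theorem npow_cont {p : ℕ} (hp : 0 < p) : Continuous (npow p) := by
  have h : npow p = fun t : ℝ => ((1 / p : ℝ) : ℂ) * exp (-(I * t * Real.log p)) := by
    funext t; exact DMS_npow hp t
  rw [h]
  fun_prop

theorem N_cont (a b : ℕ) (f : ℕ → ℝ) : Continuous (N a b f) := by
  unfold N
  refine (Continuous.norm ?_).pow 2
  refine continuous_finsetSum _ fun p hp => ?_
  exact continuous_const.mul (npow_cont (DMS_mem hp).2.2.pos)

theorem N_nonneg (a b : ℕ) (f : ℕ → ℝ) (v : ℝ) : 0 ≤ N a b f v := by unfold N; positivity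

theorem log_le_log {a b : ℕ} (ha : 0 < a) (hab : a ≤ b) : Real.log a ≤ Real.log b :=
  Real.log_le_log (by exact_mod_cast ha) (by exact_mod_cast hab)

theorem MS : ∃ C : ℝ, 0 ≤ C ∧ ∀ (z a b P : ℕ) (f : ℕ → ℝ) (v₀ H : ℝ), 3 ≤ z → z ≤ a → a ≤ b → b ≤ P →
    0 < H → (∀ p ∈ primesIoc a b, |f p| ≤ 4) →
    ∫⁻ v : ℝ, ENNReal.ofReal (N a b f v * g ((v - v₀) / H)) ≤
      ENNReal.ofReal (C * (1 + H) * Real.log (Real.log P + 3) / Real.log z) := by
  obtain ⟨C, hC, h⟩ := DMS_total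
  refine ⟨C * 4 ^ 2, by positivity, fun z a b P f v₀ H hz hza hab hbP hH hf => ?_⟩
  have hf' : ∀ p ∈ primesIoc a b, ‖((f p : ℝ) : ℂ)‖ ≤ 4 := fun p hp => by
    rw [norm_real]; exact hf p hp
  have h1 := (DMS_core (primesIoc a b) (fun p hp => (DMS_mem hp).2.2.pos) (fun p => ((f p : ℝ) : ℂ)) hf' hH v₀).1
  have h2 := h a b (fun p => ((f p : ℝ) : ℂ)) 4 v₀ H (hz.trans hza) hab hH hf'
  have h1' : Integrable (fun v : ℝ => N a b f v * g ((v - v₀) / H)) := h1
  rw [← ofReal_integral_eq_lintegral_ofReal h1' (Filter.Eventually.of_forall fun t =>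
    mul_nonneg (N_nonneg _ _ _ _) (g_pos _).le)]
  refine ENNReal.ofReal_le_ofReal (h2.trans ?_)
  have hlz : 0 < Real.log z := lt_of_lt_of_le one_pos (DVR_log_ge hz)
  have hza' : Real.log z ≤ Real.log a := log_le_log (by omega) hza
  have hbP' : Real.log b ≤ Real.log P := log_le_log (by omega) hbP
  have hlb : 0 ≤ Real.log b := Real.log_natCast_nonneg b
  have hL : Real.log (Real.log b + 3) ≤ Real.log (Real.log P + 3) := Real.log_le_log (by linarith) (by linarith)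
  have hL0 : 0 ≤ Real.log (Real.log b + 3) := Real.log_nonneg (by linarith)
  have hL1 : 0 ≤ Real.log (Real.log P + 3) := hL0.trans hL
  have hC0 : 0 ≤ C * 4 ^ 2 * (1 + H) * Real.log (Real.log P + 3) := by positivity
  gcongr

/-! ### the two quadratic functions -/

/-- for the kernel terms -/
noncomputable def U (z y P : ℕ) (v : ℝ) : ℝ := N z y lam2 v + N y P lam2 v

/-- for the mean term -/
noncomputable def q (z y P : ℕ) (t : ℝ) : ℝ :=
  3 * (N z y lam2 (2 * t) + N z y (fun p => lam2 p - 1) (2 * t) + N y P (fun p => lam2 p - 1) (2 * t))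

theorem U_cont (z y P : ℕ) : Continuous (U z y P) := (N_cont _ _ _).add (N_cont _ _ _)

theorem U_nonneg (z y P : ℕ) (v : ℝ) : 0 ≤ U z y P v := add_nonneg (N_nonneg _ _ _ _) (N_nonneg _ _ _ _)

theorem q_cont (z y P : ℕ) : Continuous (q z y P) := by
  unfold q
  have h2 : Continuous fun t : ℝ => 2 * t := by fun_prop
  exact continuous_const.mul ((((N_cont _ _ _).comp h2).add ((N_cont _ _ _).comp h2)).add
    ((N_cont _ _ _).comp h2))

theorem q_nonneg (z y P : ℕ) (t : ℝ) : 0 ≤ q z y P t := by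
  unfold q
  have h1 := N_nonneg z y lam2 (2 * t)
  have h2 := N_nonneg z y (fun p => lam2 p - 1) (2 * t)
  have h3 := N_nonneg y P (fun p => lam2 p - 1) (2 * t)
  positivity

theorem lam_bd {a b : ℕ} : ∀ p ∈ primesIoc a b, |lam2 p| ≤ 4 := fun p hp => by
  have := lam2_le (SUMS_mem hp).2.2.1
  rw [abs_le]; constructor <;> linarith

theorem lam_bd' {a b : ℕ} : ∀ p ∈ primesIoc a b, |lam2 p - 1| ≤ 4 := fun p hp => by
  have := lam2_le (SUMS_mem hp).2.2.1
  rw [abs_le]; constructor <;> linarith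

theorem U_int : ∃ C : ℝ, 0 ≤ C ∧ ∀ (z y P : ℕ) (v₀ H : ℝ), 3 ≤ z → z ≤ y → y ≤ P →
    0 < H → ∫⁻ v : ℝ, ENNReal.ofReal (U z y P v * g ((v - v₀) / H)) ≤
      ENNReal.ofReal (C * (1 + H) * Real.log (Real.log P + 3) / Real.log z) := by
  obtain ⟨C, hC, h⟩ := MS
  refine ⟨2 * C, by positivity, fun z y P v₀ H hz hzy hyP hH => ?_⟩
  have h1 := h z z y P lam2 v₀ H hz le_rfl hzy hyP hH lam_bd
  have h2 := h z y P P lam2 v₀ H hz hzy hyP le_rfl hH lam_bd
  have hlz : 0 < Real.log z := lt_of_lt_of_le one_pos (DVR_log_ge hz)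
  have hlP : 0 ≤ Real.log P := Real.log_natCast_nonneg P
  have hL0 : 0 ≤ Real.log (Real.log P + 3) := Real.log_nonneg (by linarith)
  have h0 : 0 ≤ C * (1 + H) * Real.log (Real.log P + 3) / Real.log z := by positivity
  have e1 : ∀ v, ENNReal.ofReal (U z y P v * g ((v - v₀) / H)) =
      ENNReal.ofReal (N z y lam2 v * g ((v - v₀) / H)) + ENNReal.ofReal (N y P lam2 v * g ((v - v₀) / H)) := by
    intro v
    rw [← ENNReal.ofReal_add (mul_nonneg (N_nonneg _ _ _ _) (g_pos _).le)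
      (mul_nonneg (N_nonneg _ _ _ _) (g_pos _).le)]
    congr 1
    unfold U; ring
  simp_rw [e1]
  rw [lintegral_add_left]
  · refine (add_le_add h1 h2).trans ?_
    rw [← ENNReal.ofReal_add h0 h0]
    refine ENNReal.ofReal_le_ofReal (le_of_eq ?_)
    ring
  · refine Measurable.ennreal_ofReal (Continuous.measurable ?_)
    exact (N_cont _ _ _).mul (g_cont.comp (by fun_prop))

theorem N_int2 : ∃ C : ℝ, 0 ≤ C ∧ ∀ (z a b P : ℕ) (f : ℕ → ℝ) (T : ℝ), 3 ≤ z → z ≤ a → a ≤ b → b ≤ P →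
    0 < T → (∀ p ∈ primesIoc a b, |f p| ≤ 4) →
    ∫⁻ t in Set.Ioc 0 T, ENNReal.ofReal (N a b f (2 * t)) ≤
      ENNReal.ofReal (C * (1 + T) * Real.log (Real.log P + 3) / Real.log z) := by
  obtain ⟨C, hC, h⟩ := MS
  refine ⟨2 * C, by positivity, fun z a b P f T hz hza hab hbP hT hf => ?_⟩
  have h1 := h z a b P f 0 (2 * T) hz hza hab hbP (by positivity) hf
  have hlz : 0 < Real.log z := lt_of_lt_of_le one_pos (DVR_log_ge hz)
  have hlP : 0 ≤ Real.log P := Real.log_natCast_nonneg P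
  have hL0 : 0 ≤ Real.log (Real.log P + 3) := Real.log_nonneg (by linarith)
  have e1 : ∫⁻ t in Set.Ioc 0 T, ENNReal.ofReal (N a b f (2 * t)) ≤
      ∫⁻ t : ℝ, ENNReal.ofReal (2 * (N a b f (2 * t) * g ((2 * t - 0) / (2 * T)))) := by
    refine (setLIntegral_mono' measurableSet_Ioc fun t ht => ?_).trans (setLIntegral_le_lintegral _ _)
    refine ENNReal.ofReal_le_ofReal ?_
    have h2 : 1 ≤ 2 * g ((2 * t - 0) / (2 * T)) := by
      unfold g
      rw [← div_eq_mul_inv, le_div_iff₀ (by positivity)]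
      have h3 : (2 * t - 0) / (2 * T) = t / T := by
        rw [sub_zero]; field_simp
      rw [h3]
      have h4 : t / T ≤ 1 := (div_le_one hT).mpr ht.2
      have h5 : 0 ≤ t / T := div_nonneg ht.1.le hT.le
      nlinarith
    have h3 := N_nonneg a b f (2 * t)
    nlinarith
  refine e1.trans ?_
  have hm : Continuous fun v : ℝ => N a b f v * g ((v - 0) / (2 * T)) :=
    (N_cont _ _ _).mul (g_cont.comp (by fun_prop))
  have e2 : ∫⁻ t : ℝ, ENNReal.ofReal (2 * (N a b f (2 * t) * g ((2 * t - 0) / (2 * T)))) =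
      ∫⁻ v : ℝ, ENNReal.ofReal (N a b f v * g ((v - 0) / (2 * T))) := by
    have e3 : ∀ t : ℝ, ENNReal.ofReal (2 * (N a b f (2 * t) * g ((2 * t - 0) / (2 * T)))) =
        ENNReal.ofReal 2 * (fun v => ENNReal.ofReal (N a b f v * g ((v - 0) / (2 * T)))) (2 * t) := by
      intro t
      rw [ENNReal.ofReal_mul (by norm_num)]
    simp_rw [e3]
    rw [lintegral_const_mul]
    · have e4 : (volume : Measure ℝ) = ENNReal.ofReal |(2 : ℝ)| • Measure.map (2 * ·) volume :=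
        (Real.smul_map_volume_mul_left (by norm_num)).symm
      conv_rhs => rw [e4]
      rw [lintegral_smul_measure, lintegral_map hm.measurable.ennreal_ofReal (by fun_prop), abs_of_pos (by norm_num)]
      rfl
    · exact (hm.measurable.ennreal_ofReal).comp (by fun_prop)
  rw [e2]
  refine h1.trans (ENNReal.ofReal_le_ofReal ?_)
  refine div_le_div_of_nonneg_right ?_ hlz.le
  refine mul_le_mul_of_nonneg_right ?_ hL0
  nlinarith

theorem q_int : ∃ C : ℝ, 0 ≤ C ∧ ∀ (z y P : ℕ) (T : ℝ), 3 ≤ z → z ≤ y → y ≤ P → 0 < T →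
    ∫⁻ t in Set.Ioc 0 T, ENNReal.ofReal (q z y P t) ≤
      ENNReal.ofReal (C * (1 + T) * Real.log (Real.log P + 3) / Real.log z) := by
  obtain ⟨C, hC, h⟩ := N_int2
  refine ⟨9 * C, by positivity, fun z y P T hz hzy hyP hT => ?_⟩
  have h1 := h z z y P lam2 T hz le_rfl hzy hyP hT lam_bd
  have h2 := h z z y P (fun p => lam2 p - 1) T hz le_rfl hzy hyP hT lam_bd'
  have h3 := h z y P P (fun p => lam2 p - 1) T hz hzy hyP le_rfl hT lam_bd'
  have hlz : 0 < Real.log z := lt_of_lt_of_le one_pos (DVR_log_ge hz)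
  have hlP : 0 ≤ Real.log P := Real.log_natCast_nonneg P
  have hL0 : 0 ≤ Real.log (Real.log P + 3) := Real.log_nonneg (by linarith)
  have h0 : 0 ≤ C * (1 + T) * Real.log (Real.log P + 3) / Real.log z := by positivity
  have hm : ∀ a b f, Measurable fun t : ℝ => ENNReal.ofReal (N a b f (2 * t)) := fun a b f =>
    ((N_cont a b f).comp (by fun_prop)).measurable.ennreal_ofReal
  have e1 : ∀ t, ENNReal.ofReal (q z y P t) = ENNReal.ofReal 3 * (ENNReal.ofReal (N z y lam2 (2 * t)) +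
      ENNReal.ofReal (N z y (fun p => lam2 p - 1) (2 * t)) +
      ENNReal.ofReal (N y P (fun p => lam2 p - 1) (2 * t))) := by
    intro t
    rw [← ENNReal.ofReal_add (N_nonneg _ _ _ _) (N_nonneg _ _ _ _),
      ← ENNReal.ofReal_add (add_nonneg (N_nonneg _ _ _ _) (N_nonneg _ _ _ _)) (N_nonneg _ _ _ _),
      ← ENNReal.ofReal_mul (by norm_num)]
    rfl
  simp_rw [e1]
  rw [lintegral_const_mul' _ _ ENNReal.ofReal_ne_top, lintegral_add_left, lintegral_add_left (hm _ _ _)]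
  · have h4 := add_le_add (add_le_add h1 h2) h3
    refine (mul_le_mul_right h4 _).trans ?_
    rw [← ENNReal.ofReal_add h0 h0, ← ENNReal.ofReal_add (add_nonneg h0 h0) h0, ← ENNReal.ofReal_mul (by norm_num)]
    refine ENNReal.ofReal_le_ofReal (le_of_eq ?_)
    ring
  · exact (hm _ _ _).add (hm _ _ _)

/-! ### pointwise bounds -/

theorem npow_eq {p : ℕ} (hp : 0 < p) (t : ℝ) : npow p t =
    ((Real.cos (t * Real.log p) / p : ℝ) : ℂ) - I * ((Real.sin (t * Real.log p) / p : ℝ) : ℂ) := by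
  rw [DMS_npow hp]
  have h1 : exp (-(I * t * Real.log p)) = (Real.cos (t * Real.log p) : ℂ) - I * (Real.sin (t * Real.log p) : ℂ) := by
    have : -(I * t * Real.log p) = ((-(t * Real.log p) : ℝ) : ℂ) * I := by push_cast; ring
    rw [this, exp_mul_I, ← ofReal_cos, ← ofReal_sin, Real.cos_neg, Real.sin_neg]
    push_cast
    ring
  rw [h1]
  push_cast
  ring

theorem npow_re {p : ℕ} (hp : 0 < p) (t : ℝ) : (npow p t).re = Real.cos (t * Real.log p) / p := by
  rw [npow_eq hp]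
  simp only [sub_re, mul_re, I_re, I_im, ofReal_re, ofReal_im]
  ring

theorem npow_im {p : ℕ} (hp : 0 < p) (t : ℝ) : (npow p t).im = -(Real.sin (t * Real.log p) / p) := by
  rw [npow_eq hp]
  simp only [sub_im, mul_im, I_re, I_im, ofReal_re, ofReal_im]
  ring

theorem SBr_sq_le (z y : ℕ) (v : ℝ) : SBr z y v ^ 2 ≤ N z y lam2 v := by
  have h : SBr z y v = (∑ p ∈ primesIoc z y, (lam2 p : ℂ) * npow p v).re := by
    unfold SBr
    rw [re_sum]
    refine Finset.sum_congr rfl fun p hp => ?_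
    rw [re_ofReal_mul, npow_re (DMS_mem hp).2.2.pos]
    ring
  rw [h]
  unfold N
  rw [← sq_abs]
  exact pow_le_pow_left₀ (abs_nonneg _) (abs_re_le_norm _) 2

theorem SG_sq (y P : ℕ) (v : ℝ) : ‖SG y P v‖ ^ 2 = N y P lam2 v := rfl

/-- the constant part of the exponent -/
noncomputable def c0 (z y : ℕ) : ℂ := ∑ p ∈ primesIoc z y, ((lam2 p / 4 / p : ℝ) : ℂ)

theorem sig_eq (z y P : ℕ) (t : ℝ) : sig z y P t - c0 z y =
    -((((∑ p ∈ primesIoc z y, (lam2 p : ℂ) * npow p (2 * t)).re / 4 : ℝ) : ℂ)) -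
      I * (((∑ p ∈ primesIoc z y, (lam2 p : ℂ) * npow p (2 * t)).im / 2 : ℝ) : ℂ) +
      (∑ p ∈ primesIoc z y, ((lam2 p - 1 : ℝ) : ℂ) * npow p (2 * t)) +
      ∑ p ∈ primesIoc y P, ((lam2 p - 1 : ℝ) : ℂ) * npow p (2 * t) := by
  unfold sig c0
  have h1 : ∑ p ∈ primesIoc z y, sloc p t - ∑ p ∈ primesIoc z y, ((lam2 p / 4 / p : ℝ) : ℂ) =
      -((((∑ p ∈ primesIoc z y, (lam2 p : ℂ) * npow p (2 * t)).re / 4 : ℝ) : ℂ)) -
      I * (((∑ p ∈ primesIoc z y, (lam2 p : ℂ) * npow p (2 * t)).im / 2 : ℝ) : ℂ) +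
      (∑ p ∈ primesIoc z y, ((lam2 p - 1 : ℝ) : ℂ) * npow p (2 * t)) := by
    rw [re_sum, im_sum, Finset.sum_div, Finset.sum_div, ofReal_sum, ofReal_sum, Finset.mul_sum,
      ← Finset.sum_sub_distrib, ← Finset.sum_neg_distrib, ← Finset.sum_sub_distrib, ← Finset.sum_add_distrib]
    refine Finset.sum_congr rfl fun p hp => ?_
    have hp0 := (DMS_mem hp).2.2.pos
    rw [re_ofReal_mul, im_ofReal_mul, npow_re hp0, npow_im hp0]
    unfold sloc
    push_cast
    ring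
  rw [← h1]
  ring

theorem sig_sq_le (z y P : ℕ) (t : ℝ) : ‖sig z y P t - c0 z y‖ ^ 2 ≤ q z y P t := by
  rw [sig_eq]
  unfold q N
  set A := ∑ p ∈ primesIoc z y, (lam2 p : ℂ) * npow p (2 * t)
  set B := ∑ p ∈ primesIoc z y, ((lam2 p - 1 : ℝ) : ℂ) * npow p (2 * t)
  set E := ∑ p ∈ primesIoc y P, ((lam2 p - 1 : ℝ) : ℂ) * npow p (2 * t)
  have h1 : ‖-(((A.re / 4 : ℝ) : ℂ)) - I * ((A.im / 2 : ℝ) : ℂ) + B + E‖ ≤ ‖A‖ + ‖B‖ + ‖E‖ := by
    refine (norm_add_le _ _).trans (add_le_add ((norm_add_le _ _).trans (add_le_add ?_ le_rfl)) le_rfl)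
    refine (norm_sub_le _ _).trans ?_
    rw [norm_neg, norm_mul, norm_I, one_mul, norm_real, norm_real, Real.norm_eq_abs, Real.norm_eq_abs, abs_div,
      abs_div, abs_of_pos (show (0 : ℝ) < 4 by norm_num), abs_of_pos (show (0 : ℝ) < 2 by norm_num)]
    have e1 := abs_re_le_norm A
    have e2 := abs_im_le_norm A
    linarith [norm_nonneg A]
  have h2 := pow_le_pow_left₀ (norm_nonneg _) h1 2
  refine h2.trans ?_
  nlinarith [sq_nonneg (‖A‖ - ‖B‖), sq_nonneg (‖A‖ - ‖E‖), sq_nonneg (‖B‖ - ‖E‖)]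

theorem sig_diff (z y P : ℕ) (t t₀ : ℝ) : ‖sig z y P t - sig z y P t₀‖ ^ 2 ≤ 2 * q z y P t + 2 * q z y P t₀ := by
  have h1 := sig_sq_le z y P t
  have h2 := sig_sq_le z y P t₀
  have h3 : ‖sig z y P t - sig z y P t₀‖ ≤ ‖sig z y P t - c0 z y‖ + ‖sig z y P t₀ - c0 z y‖ := by
    have : sig z y P t - sig z y P t₀ = (sig z y P t - c0 z y) - (sig z y P t₀ - c0 z y) := by ring
    rw [this]; exact norm_sub_le _ _
  have h4 := pow_le_pow_left₀ (norm_nonneg _) h3 2
  nlinarith [sq_nonneg (‖sig z y P t - c0 z y‖ - ‖sig z y P t₀ - c0 z y‖)]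

theorem amgm {x l : ℝ} (hl : 0 < l) : |x| ≤ x ^ 2 / (2 * l) + l / 2 := by
  have h : x ^ 2 / (2 * l) + l / 2 = (x ^ 2 + l ^ 2) / (2 * l) := by
    field_simp
  rw [h, le_div_iff₀ (by positivity), ← sq_abs x]
  nlinarith [sq_nonneg (|x| - l)]

/-- the singular factor -/
noncomputable def R (z y P : ℕ) (v : ℝ) : ℝ := (rho z y v) ^ (1 / 2 : ℝ) * rho y P v

theorem R_nonneg (z y P : ℕ) (v : ℝ) : 0 ≤ R z y P v :=
  mul_nonneg (Real.rpow_nonneg (DVR_rho_nonneg _ _ _) _) (DVR_rho_nonneg _ _ _)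

theorem R_cont (z y P : ℕ) : Continuous (R z y P) :=
  ((DVR_rho_cont z y).rpow_const fun _ => Or.inr (by norm_num)).mul (DVR_rho_cont y P)

/-- truncated singular factor -/
noncomputable def Ri (z y P : ℕ) (v : ℝ) : ℝ := if |v| * Real.log z < 1 then R z y P v else 0

theorem Ri_nonneg (z y P : ℕ) (v : ℝ) : 0 ≤ Ri z y P v := by
  unfold Ri; split_ifs
  · exact R_nonneg _ _ _ _
  · exact le_rfl

theorem prod_le (a b x : ℝ) : (a + x) * (b + x) ≤ a ^ 2 + b ^ 2 + 2 * x ^ 2 := by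
  nlinarith [sq_nonneg (a - b), sq_nonneg (a - x), sq_nonneg (b - x)]

theorem point {K n z₁ z y P : ℕ} {C A CR T₁ l h ζ t₀ t t' : ℝ} (hK : n + 3 ≤ K) (hC : 0 ≤ C) (hn : C ≤ n)
    (hA : 0 ≤ A) (hw : ∀ u, wK K u ≤ A / (1 + u ^ 2) ^ K) (hh : 0 < h) (hh1 : h ≤ 1) (hζ : 0 < ζ) (hζ1 : ζ ≤ 1)
    (hl : 0 < l) (hz₁ : h * Real.log z₁ ≤ ζ) (hz : 1 ≤ ζ * (h * Real.log z)) (hz0 : 3 ≤ z) (hT : |t - t'| ≤ T₁)
    (hCR : 0 ≤ CR) (hR : ∀ v : ℝ, 1 ≤ |v| * Real.log z → R z y P v ≤ CR * (1 + |v|)) :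
    Qk C z₁ z y P t₀ t t' * (wK K ((t - t₀) / h) * wK K ((t' - t₀) / h)) ≤
      (A * 2 ^ (n + 1)) ^ 2 * (g ((t - t₀) / h) * (3 * Ri z y P (t - t') +
        (2 * ζ * CR * (1 + T₁) + 3 / 2 * l + 5 * ζ) * g ((t' - t₀) / h) +
        U z y P (t - t') * g ((t - t') / h) / l + U z y P (t + t') * g ((t + t' - 2 * t₀) / h) / l +
        (2 * q z y P t + 2 * q z y P t' + 4 * q z y P t₀) * g ((t' - t₀) / h))) := by
  set D := A * 2 ^ (n + 1) with hD
  have hD0 : 0 ≤ D := by positivity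
  set G := g ((t - t₀) / h) with hG
  set G' := g ((t' - t₀) / h) with hG'
  have G0 : 0 < G := g_pos _
  have G0' : 0 < G' := g_pos _
  have G1 : G ≤ 1 := g_le_one _
  have G1' : G' ≤ 1 := g_le_one _
  set w := wK K ((t - t₀) / h) with hw1
  set w' := wK K ((t' - t₀) / h) with hw1'
  have w0 : 0 ≤ w := wK_nonneg _ _
  have w0' : 0 ≤ w' := wK_nonneg _ _
  have a1 : w ≤ D * G ^ 2 := by
    have := weight (K := K) (n := n + 1) (j := 0) (by omega) (Nat.zero_le _) hA (hw ((t - t₀) / h))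
    simpa using this
  have a1' : w' ≤ D * G' ^ 2 := by
    have := weight (K := K) (n := n + 1) (j := 0) (by omega) (Nat.zero_le _) hA (hw ((t' - t₀) / h))
    simpa using this
  have a2 : mm z₁ C (t - t₀) * w ≤ ζ * (D * G ^ 2) := by
    have e1 := mm_le (t := t - t₀) hC hn hh hζ1 hz₁
    have e2 := weight (K := K) (n := n + 1) (j := n + 1) (by omega) le_rfl hA (hw ((t - t₀) / h))
    calc mm z₁ C (t - t₀) * w ≤ (ζ * (1 + |(t - t₀) / h|) ^ (n + 1)) * w := mul_le_mul_of_nonneg_right e1 w0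
      _ = ζ * ((1 + |(t - t₀) / h|) ^ (n + 1) * w) := by ring
      _ ≤ _ := mul_le_mul_of_nonneg_left e2 hζ.le
  have a2' : mm z₁ C (t' - t₀) * w' ≤ ζ * (D * G' ^ 2) := by
    have e1 := mm_le (t := t' - t₀) hC hn hh hζ1 hz₁
    have e2 := weight (K := K) (n := n + 1) (j := n + 1) (by omega) le_rfl hA (hw ((t' - t₀) / h))
    calc mm z₁ C (t' - t₀) * w' ≤ (ζ * (1 + |(t' - t₀) / h|) ^ (n + 1)) * w' := mul_le_mul_of_nonneg_right e1 w0'
      _ = ζ * ((1 + |(t' - t₀) / h|) ^ (n + 1) * w') := by ring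
      _ ≤ _ := mul_le_mul_of_nonneg_left e2 hζ.le
  have m0 := mm_nonneg z₁ C (t - t₀)
  have m0' := mm_nonneg z₁ C (t' - t₀)
  set μ := mm z₁ C (t - t₀) with hμ
  set μ' := mm z₁ C (t' - t₀) with hμ'
  set W := w * w' with hW
  set V := (D * G ^ 2) * (D * G' ^ 2) with hV
  have W0 : 0 ≤ W := mul_nonneg w0 w0'
  have V0 : 0 ≤ V := by positivity
  have b1 : W ≤ V := mul_le_mul a1 a1' w0' (by positivity)
  have b2 : μ * W ≤ ζ * V := by
    calc μ * W = (μ * w) * w' := by rw [hW]; ring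
      _ ≤ (ζ * (D * G ^ 2)) * (D * G' ^ 2) := mul_le_mul a2 a1' w0' (by positivity)
      _ = ζ * V := by rw [hV]; ring
  have b3 : μ' * W ≤ ζ * V := by
    calc μ' * W = w * (μ' * w') := by rw [hW]; ring
      _ ≤ (D * G ^ 2) * (ζ * (D * G' ^ 2)) := mul_le_mul a1 a2' (by positivity) (by positivity)
      _ = ζ * V := by rw [hV]; ring
  have hζV : ζ * V ≤ V := mul_le_of_le_one_left V0 hζ1
  have c1 : ((μ + μ') + (if |t - t'| * Real.log z < 1 then 1 else 0)) *
      ((rho z y (t - t')) ^ (1 / 2 : ℝ) * rho y P (t - t')) * W ≤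
      (3 * Ri z y P (t - t') + 2 * ζ * CR * (1 + T₁)) * V := by
    change ((μ + μ') + (if |t - t'| * Real.log z < 1 then 1 else 0)) * R z y P (t - t') * W ≤ _
    have r0 := R_nonneg z y P (t - t')
    have T0 : 0 ≤ T₁ := (abs_nonneg _).trans hT
    unfold Ri
    split_ifs with hc
    · have e1 : (μ + μ' + 1) * W ≤ 3 * V := by
        have : (μ + μ' + 1) * W = μ * W + μ' * W + W := by ring
        rw [this]; linarith only [b1, b2, b3, hζV]
      have e2 : (μ + μ' + 1) * R z y P (t - t') * W ≤ 3 * R z y P (t - t') * V := by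
        calc (μ + μ' + 1) * R z y P (t - t') * W = R z y P (t - t') * ((μ + μ' + 1) * W) := by ring
          _ ≤ R z y P (t - t') * (3 * V) := mul_le_mul_of_nonneg_left e1 r0
          _ = _ := by ring
      have e3 : 0 ≤ 2 * ζ * CR * (1 + T₁) * V := by positivity
      linarith
    · push Not at hc
      have e1 : (μ + μ' + 0) * W ≤ 2 * ζ * V := by
        have : (μ + μ' + 0) * W = μ * W + μ' * W := by ring
        rw [this]; linarith only [b2, b3]
      have e2 : R z y P (t - t') ≤ CR * (1 + T₁) := (hR _ hc).trans (by gcongr)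
      calc (μ + μ' + 0) * R z y P (t - t') * W = R z y P (t - t') * ((μ + μ' + 0) * W) := by ring
          _ ≤ (CR * (1 + T₁)) * (2 * ζ * V) := mul_le_mul e2 e1 (by positivity) (by positivity)
          _ = _ := by ring
  have U0 := U_nonneg z y P (t - t')
  have U0' := U_nonneg z y P (t + t')
  have c2 : (if |t - t'| * Real.log z < 1 then 0 else |SBr z y (t - t')| + ‖SG y P (t - t')‖) ≤
      U z y P (t - t') / (2 * l) + l := by
    have e1 := amgm (x := SBr z y (t - t')) hl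
    have e2 := amgm (x := ‖SG y P (t - t')‖) hl
    rw [abs_norm, SG_sq] at e2
    have e3 : SBr z y (t - t') ^ 2 / (2 * l) ≤ N z y lam2 (t - t') / (2 * l) :=
      div_le_div_of_nonneg_right (SBr_sq_le _ _ _) (by positivity)
    have e4 : U z y P (t - t') / (2 * l) = N z y lam2 (t - t') / (2 * l) + N y P lam2 (t - t') / (2 * l) := by
      unfold U; ring
    split_ifs
    · positivity
    · rw [e4]; linarith
  have c3 : |SBr z y (t + t')| ≤ U z y P (t + t') / (2 * l) + l / 2 := by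
    have e1 := amgm (x := SBr z y (t + t')) hl
    have e3 : SBr z y (t + t') ^ 2 / (2 * l) ≤ U z y P (t + t') / (2 * l) := by
      refine div_le_div_of_nonneg_right ((SBr_sq_le _ _ _).trans ?_) (by positivity)
      unfold U
      linarith [N_nonneg y P lam2 (t + t')]
    linarith
  have hzR : (3 : ℝ) ≤ z := by exact_mod_cast hz0
  have c4 : (1 : ℝ) / z ≤ ζ := by
    rw [div_le_iff₀ (by positivity)]
    have e1 : Real.log z ≤ z := (Real.log_le_sub_one_of_pos (by positivity)).trans (by linarith)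
    have e2 : 0 ≤ Real.log z := Real.log_natCast_nonneg z
    have e3 : h * Real.log z ≤ 1 * Real.log z := mul_le_mul_of_nonneg_right hh1 e2
    have e4 : ζ * (h * Real.log z) ≤ ζ * z := mul_le_mul_of_nonneg_left (by linarith only [e1, e3]) hζ.le
    linarith only [e4, hz]
  have z0' : (0 : ℝ) ≤ 1 / z := by positivity
  have c5 : (‖sig z y P t - sig z y P t₀‖ + 1 / z) * (‖sig z y P t' - sig z y P t₀‖ + 1 / z) ≤
      2 * q z y P t + 2 * q z y P t' + 4 * q z y P t₀ + 2 * ζ := by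
    have e1 := sig_diff z y P t t₀
    have e2 := sig_diff z y P t' t₀
    have e3 : (1 / (z : ℝ)) ^ 2 ≤ ζ := by
      have e4 : (1 / (z : ℝ)) ^ 2 ≤ 1 / (z : ℝ) := pow_le_of_le_one z0' (c4.trans hζ1) two_ne_zero
      exact e4.trans c4
    have e5 := prod_le ‖sig z y P t - sig z y P t₀‖ ‖sig z y P t' - sig z y P t₀‖ (1 / (z : ℝ))
    linarith only [e1, e2, e3, e5]
  have q0 := q_nonneg z y P t
  have q0' := q_nonneg z y P t'
  have q00 := q_nonneg z y P t₀
  have hsum : Qk C z₁ z y P t₀ t t' * W ≤ (3 * Ri z y P (t - t') +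
      (2 * ζ * CR * (1 + T₁) + 3 / 2 * l + 5 * ζ) + U z y P (t - t') / (2 * l) + U z y P (t + t') / (2 * l) +
      (2 * q z y P t + 2 * q z y P t' + 4 * q z y P t₀)) * V := by
    have d2 := mul_le_mul c2 b1 W0 (by positivity)
    have d3 := mul_le_mul c3 b1 W0 (by positivity)
    have d4 := mul_le_mul c4 b1 W0 hζ.le
    have d5 := mul_le_mul c5 b1 W0 (by positivity)
    have hQ : Qk C z₁ z y P t₀ t t' * W =
        ((μ + μ') + (if |t - t'| * Real.log z < 1 then 1 else 0)) *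
          ((rho z y (t - t')) ^ (1 / 2 : ℝ) * rho y P (t - t')) * W +
        (if |t - t'| * Real.log z < 1 then 0 else |SBr z y (t - t')| + ‖SG y P (t - t')‖) * W +
        |SBr z y (t + t')| * W + 1 / z * W +
        (‖sig z y P t - sig z y P t₀‖ + 1 / z) * (‖sig z y P t' - sig z y P t₀‖ + 1 / z) * W +
        (μ * W + μ' * W) := by
      unfold Qk; ring
    rw [hQ]
    refine (add_le_add (add_le_add (add_le_add (add_le_add (add_le_add c1 d2) d3) d4) d5)
      (add_le_add b2 b3)).trans (le_of_eq ?_)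
    ring
  refine hsum.trans ?_
  have hsub : (t - t') / h = (t - t₀) / h - (t' - t₀) / h := by rw [← sub_div]; congr 1; ring
  have hadd : (t + t' - 2 * t₀) / h = (t - t₀) / h + (t' - t₀) / h := by rw [← add_div]; congr 1; ring
  have g1 : G * G' ^ 2 ≤ 2 * g ((t - t') / h) := by
    rw [hsub]
    refine le_trans ?_ (g_mul_sub _ _)
    have : G' ^ 2 ≤ G' := pow_le_of_le_one G0'.le G1' two_ne_zero
    exact mul_le_mul_of_nonneg_left this G0.le
  have g2 : G * G' ^ 2 ≤ 2 * g ((t + t' - 2 * t₀) / h) := by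
    rw [hadd]
    refine le_trans ?_ (g_mul_add _ _)
    have : G' ^ 2 ≤ G' := pow_le_of_le_one G0'.le G1' two_ne_zero
    exact mul_le_mul_of_nonneg_left this G0.le
  have g3 : G * G' ^ 2 ≤ G' :=
    (mul_le_of_le_one_left (by positivity) G1).trans (pow_le_of_le_one G0'.le G1' two_ne_zero)
  have g4 : G * G' ^ 2 ≤ 1 := g3.trans G1'
  have Ri0 := Ri_nonneg z y P (t - t')
  have T0 : 0 ≤ T₁ := (abs_nonneg _).trans hT
  have B0 : 0 ≤ 2 * ζ * CR * (1 + T₁) + 3 / 2 * l + 5 * ζ := by positivity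
  have e1 : 3 * Ri z y P (t - t') * (G * G' ^ 2) ≤ 3 * Ri z y P (t - t') := by
    exact mul_le_of_le_one_right (by positivity) g4
  have e2 : (2 * ζ * CR * (1 + T₁) + 3 / 2 * l + 5 * ζ) * (G * G' ^ 2) ≤
      (2 * ζ * CR * (1 + T₁) + 3 / 2 * l + 5 * ζ) * G' := mul_le_mul_of_nonneg_left g3 B0
  have e3 : U z y P (t - t') / (2 * l) * (G * G' ^ 2) ≤ U z y P (t - t') * g ((t - t') / h) / l := by
    calc U z y P (t - t') / (2 * l) * (G * G' ^ 2) ≤ U z y P (t - t') / (2 * l) * (2 * g ((t - t') / h)) :=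
          mul_le_mul_of_nonneg_left g1 (by positivity)
      _ = _ := by field_simp
  have e4 : U z y P (t + t') / (2 * l) * (G * G' ^ 2) ≤ U z y P (t + t') * g ((t + t' - 2 * t₀) / h) / l := by
    calc U z y P (t + t') / (2 * l) * (G * G' ^ 2) ≤
        U z y P (t + t') / (2 * l) * (2 * g ((t + t' - 2 * t₀) / h)) :=
          mul_le_mul_of_nonneg_left g2 (by positivity)
      _ = _ := by field_simp
  have e5 : (2 * q z y P t + 2 * q z y P t' + 4 * q z y P t₀) * (G * G' ^ 2) ≤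
      (2 * q z y P t + 2 * q z y P t' + 4 * q z y P t₀) * G' := mul_le_mul_of_nonneg_left g3 (by positivity)
  have hVV : ∀ X, X * V = D ^ 2 * (G * (X * (G * G' ^ 2))) := by intro X; rw [hV]; ring
  rw [hVV]
  refine mul_le_mul_of_nonneg_left (mul_le_mul_of_nonneg_left ?_ G0.le) (by positivity)
  linarith only [e1, e2, e3, e4, e5]

/-! ### the iterated integral -/

theorem Ri_meas (z y P : ℕ) : Measurable (Ri z y P) := by
  unfold Ri
  refine Measurable.ite ?_ (R_cont z y P).measurable measurable_const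
  exact measurableSet_lt (by fun_prop) measurable_const

theorem Ri_int : ∃ C : ℝ, 0 ≤ C ∧ (∀ (z y P : ℕ), 3 ≤ z → z ≤ y → y ≤ P →
    ∫⁻ v : ℝ, ENNReal.ofReal (Ri z y P v) ≤
      ENNReal.ofReal (C * Real.log (Real.log P + 3) / Real.log z) ∧
    ∀ v : ℝ, 1 ≤ |v| * Real.log z → R z y P v ≤ C * (1 + |v|)) := by
  obtain ⟨C₀, hC⟩ := rho_rho_int
  refine ⟨|C₀|, abs_nonneg _, fun z y P hz hzy hyP => ⟨?_, fun v hv => ?_⟩⟩
  · have h1 := (hC z y P hz hzy hyP).1
    have hlz : 0 < Real.log z := lt_of_lt_of_le one_pos (DVR_log_ge hz)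
    have hlP : 0 ≤ Real.log P := Real.log_natCast_nonneg P
    have hL0 : 0 ≤ Real.log (Real.log P + 3) := Real.log_nonneg (by linarith)
    have hI : IntegrableOn (R z y P) (Set.Ioc (-(1 / Real.log z)) (1 / Real.log z)) :=
      (R_cont z y P).integrableOn_Ioc
    have e1 : ∫⁻ v : ℝ, ENNReal.ofReal (Ri z y P v) ≤
        ∫⁻ v in Set.Ioc (-(1 / Real.log z)) (1 / Real.log z), ENNReal.ofReal (R z y P v) := by
      rw [← lintegral_indicator measurableSet_Ioc]
      refine lintegral_mono fun v => ?_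
      unfold Ri
      split_ifs with hc
      · rw [← lt_div_iff₀ hlz, abs_lt] at hc
        rw [Set.indicator_of_mem (show v ∈ Set.Ioc (-(1 / Real.log z)) (1 / Real.log z) from ⟨hc.1, hc.2.le⟩)]
      · simp
    refine e1.trans ?_
    rw [← ofReal_integral_eq_lintegral_ofReal hI (Filter.Eventually.of_forall fun v => R_nonneg _ _ _ _)]
    refine ENNReal.ofReal_le_ofReal ?_
    rw [← intervalIntegral.integral_of_le (by
      have : 0 < 1 / Real.log z := by positivity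
      linarith)]
    refine h1.trans (div_le_div_of_nonneg_right (mul_le_mul_of_nonneg_right (le_abs_self _) hL0) hlz.le)
  · exact ((hC z y P hz hzy hyP).2 v hv).trans
      (mul_le_mul_of_nonneg_right (le_abs_self _) (by linarith [abs_nonneg v]))

theorem lint5 {μ : Measure ℝ} {f₁ f₂ f₃ f₄ f₅ : ℝ → ENNReal} (m1 : Measurable f₁) (m2 : Measurable f₂)
    (m3 : Measurable f₃) (m4 : Measurable f₄) {c₁ c₂ c₃ c₄ c₅ : ENNReal} (h1 : c₁ ≠ ⊤) (h2 : c₂ ≠ ⊤)
    (h3 : c₃ ≠ ⊤) (h4 : c₄ ≠ ⊤) (h5 : c₅ ≠ ⊤) :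
    ∫⁻ x, (c₁ * f₁ x + c₂ * f₂ x + c₃ * f₃ x + c₄ * f₄ x + c₅ * f₅ x) ∂μ =
      c₁ * ∫⁻ x, f₁ x ∂μ + c₂ * ∫⁻ x, f₂ x ∂μ + c₃ * ∫⁻ x, f₃ x ∂μ + c₄ * ∫⁻ x, f₄ x ∂μ +
        c₅ * ∫⁻ x, f₅ x ∂μ := by
  have n1 : Measurable fun x => c₁ * f₁ x := m1.const_mul _
  have n2 : Measurable fun x => c₁ * f₁ x + c₂ * f₂ x := n1.add (m2.const_mul _)
  have n3 : Measurable fun x => c₁ * f₁ x + c₂ * f₂ x + c₃ * f₃ x := n2.add (m3.const_mul _)
  have n4 : Measurable fun x => c₁ * f₁ x + c₂ * f₂ x + c₃ * f₃ x + c₄ * f₄ x := n3.add (m4.const_mul _)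
  rw [lintegral_add_left n4, lintegral_add_left n3, lintegral_add_left n2, lintegral_add_left n1,
    lintegral_const_mul' _ _ h1, lintegral_const_mul' _ _ h2, lintegral_const_mul' _ _ h3,
    lintegral_const_mul' _ _ h4, lintegral_const_mul' _ _ h5]

theorem inner {z y P : ℕ} {h l B X₁ X₂ t₀ t a b : ℝ} {D : ℝ} (hh : 0 < h) (hl : 0 < l) (hB : 0 ≤ B)
    (hX₁ : 0 ≤ X₁) (hX₂ : 0 ≤ X₂)
    (hR : ∫⁻ v : ℝ, ENNReal.ofReal (Ri z y P v) ≤ ENNReal.ofReal X₁)
    (hU : ∀ v₀ : ℝ, ∫⁻ v : ℝ, ENNReal.ofReal (U z y P v * g ((v - v₀) / h)) ≤ ENNReal.ofReal X₂) :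
    ∫⁻ t' in Set.Ioc a b, ENNReal.ofReal (D ^ 2 * (g ((t - t₀) / h) * (3 * Ri z y P (t - t') +
        B * g ((t' - t₀) / h) +
        U z y P (t - t') * g ((t - t') / h) / l + U z y P (t + t') * g ((t + t' - 2 * t₀) / h) / l +
        (2 * q z y P t + 2 * q z y P t' + 4 * q z y P t₀) * g ((t' - t₀) / h)))) ≤
      ENNReal.ofReal (D ^ 2 * g ((t - t₀) / h)) *
        (ENNReal.ofReal (3 * X₁ + B * (Real.pi * h) + 2 * X₂ / l) +
          ENNReal.ofReal (Real.pi * h * (2 * q z y P t + 4 * q z y P t₀)) +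
          2 * ∫⁻ t' in Set.Ioc a b, ENNReal.ofReal (q z y P t' * g ((t' - t₀) / h))) := by
  have q0 := q_nonneg z y P t
  have q00 := q_nonneg z y P t₀
  have e1 : ∀ t' : ℝ, ENNReal.ofReal (D ^ 2 * (g ((t - t₀) / h) * (3 * Ri z y P (t - t') +
        B * g ((t' - t₀) / h) +
        U z y P (t - t') * g ((t - t') / h) / l + U z y P (t + t') * g ((t + t' - 2 * t₀) / h) / l +
        (2 * q z y P t + 2 * q z y P t' + 4 * q z y P t₀) * g ((t' - t₀) / h)))) =
      ENNReal.ofReal (D ^ 2 * g ((t - t₀) / h)) *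
        (ENNReal.ofReal 3 * ENNReal.ofReal (Ri z y P (t - t')) +
        ENNReal.ofReal (B + (2 * q z y P t + 4 * q z y P t₀)) * ENNReal.ofReal (g ((t' - t₀) / h)) +
        ENNReal.ofReal (1 / l) * ENNReal.ofReal (U z y P (t - t') * g ((t - t') / h)) +
        ENNReal.ofReal (1 / l) * ENNReal.ofReal (U z y P (t + t') * g ((t + t' - 2 * t₀) / h)) +
        ENNReal.ofReal 2 * ENNReal.ofReal (q z y P t' * g ((t' - t₀) / h))) := by
    intro t'
    have f1 := Ri_nonneg z y P (t - t')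
    have f2 := U_nonneg z y P (t - t')
    have f3 := U_nonneg z y P (t + t')
    have f4 := q_nonneg z y P t'
    have g1 := g_pos ((t - t₀) / h)
    have g2 := g_pos ((t' - t₀) / h)
    have g3 := g_pos ((t - t') / h)
    have g4 := g_pos ((t + t' - 2 * t₀) / h)
    rw [← ENNReal.ofReal_mul (by positivity), ← ENNReal.ofReal_mul (by positivity),
      ← ENNReal.ofReal_mul (by positivity), ← ENNReal.ofReal_mul (by positivity),
      ← ENNReal.ofReal_mul (by positivity), ← ENNReal.ofReal_add (by positivity) (by positivity),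
      ← ENNReal.ofReal_add (by positivity) (by positivity), ← ENNReal.ofReal_add (by positivity) (by positivity),
      ← ENNReal.ofReal_add (by positivity) (by positivity), ← ENNReal.ofReal_mul (by positivity)]
    congr 1
    ring
  simp_rw [e1]
  have m1 : Measurable fun t' : ℝ => ENNReal.ofReal (Ri z y P (t - t')) :=
    ((Ri_meas z y P).comp (by fun_prop)).ennreal_ofReal
  have m2 : Measurable fun t' : ℝ => ENNReal.ofReal (g ((t' - t₀) / h)) :=
    (g_cont.comp (by fun_prop)).measurable.ennreal_ofReal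
  have m3 : Measurable fun t' : ℝ => ENNReal.ofReal (U z y P (t - t') * g ((t - t') / h)) :=
    (((U_cont z y P).comp (by fun_prop)).mul (g_cont.comp (by fun_prop))).measurable.ennreal_ofReal
  have m4 : Measurable fun t' : ℝ => ENNReal.ofReal (U z y P (t + t') * g ((t + t' - 2 * t₀) / h)) :=
    (((U_cont z y P).comp (by fun_prop)).mul (g_cont.comp (by fun_prop))).measurable.ennreal_ofReal
  rw [lintegral_const_mul' _ _ ENNReal.ofReal_ne_top]
  refine mul_le_mul_right ?_ _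
  rw [lint5 m1 m2 m3 m4 ENNReal.ofReal_ne_top ENNReal.ofReal_ne_top ENNReal.ofReal_ne_top ENNReal.ofReal_ne_top
    ENNReal.ofReal_ne_top]
  have k1 : ∫⁻ t' in Set.Ioc a b, ENNReal.ofReal (Ri z y P (t - t')) ≤ ENNReal.ofReal X₁ := by
    refine (setLIntegral_le_lintegral _ _).trans (le_of_eq_of_le ?_ hR)
    exact lintegral_sub_left_eq_self (fun v => ENNReal.ofReal (Ri z y P v)) t
  have k2 : ∫⁻ t' in Set.Ioc a b, ENNReal.ofReal (g ((t' - t₀) / h)) ≤ ENNReal.ofReal (Real.pi * h) :=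
    (setLIntegral_le_lintegral _ _).trans (lint_g hh t₀).le
  have k3 : ∫⁻ t' in Set.Ioc a b, ENNReal.ofReal (U z y P (t - t') * g ((t - t') / h)) ≤ ENNReal.ofReal X₂ := by
    refine (setLIntegral_le_lintegral _ _).trans (le_of_eq_of_le ?_ (hU 0))
    simp_rw [sub_zero]
    exact lintegral_sub_left_eq_self (fun v => ENNReal.ofReal (U z y P v * g (v / h))) t
  have k4 : ∫⁻ t' in Set.Ioc a b, ENNReal.ofReal (U z y P (t + t') * g ((t + t' - 2 * t₀) / h)) ≤
      ENNReal.ofReal X₂ := by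
    refine (setLIntegral_le_lintegral _ _).trans (le_of_eq_of_le ?_ (hU (2 * t₀)))
    exact lintegral_add_left_eq_self (fun v => ENNReal.ofReal (U z y P v * g ((v - 2 * t₀) / h))) t
  have k5 := add_le_add (add_le_add (add_le_add (add_le_add (mul_le_mul_right k1 (ENNReal.ofReal 3))
    (mul_le_mul_right k2 (ENNReal.ofReal (B + (2 * q z y P t + 4 * q z y P t₀)))))
    (mul_le_mul_right k3 (ENNReal.ofReal (1 / l)))) (mul_le_mul_right k4 (ENNReal.ofReal (1 / l))))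
    (le_refl (ENNReal.ofReal 2 * ∫⁻ t' in Set.Ioc a b, ENNReal.ofReal (q z y P t' * g ((t' - t₀) / h))))
  refine k5.trans ?_
  have hpi := Real.pi_pos
  refine add_le_add (le_of_eq ?_) (le_of_eq (by norm_num))
  rw [← ENNReal.ofReal_mul (by positivity), ← ENNReal.ofReal_mul (by positivity),
    ← ENNReal.ofReal_mul (by positivity), ← ENNReal.ofReal_add (by positivity) (by positivity),
    ← ENNReal.ofReal_add (by positivity) (by positivity), ← ENNReal.ofReal_add (by positivity) (by positivity),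
    ← ENNReal.ofReal_add (by positivity) (by positivity)]
  congr 1
  ring

theorem middle {z y P : ℕ} {h X t₀ a b : ℝ} {D : ℝ} (hh : 0 < h) :
    ∫⁻ t in Set.Ioc a b, ENNReal.ofReal (D ^ 2 * g ((t - t₀) / h)) *
        (ENNReal.ofReal X + ENNReal.ofReal (Real.pi * h * (2 * q z y P t + 4 * q z y P t₀)) +
          2 * ∫⁻ t' in Set.Ioc a b, ENNReal.ofReal (q z y P t' * g ((t' - t₀) / h))) ≤
      ENNReal.ofReal (D ^ 2 * (Real.pi * h)) * (ENNReal.ofReal X +
        ENNReal.ofReal (4 * (Real.pi * h) * q z y P t₀) +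
        4 * ∫⁻ t' in Set.Ioc a b, ENNReal.ofReal (q z y P t' * g ((t' - t₀) / h))) := by
  have hpi := Real.pi_pos
  have q00 := q_nonneg z y P t₀
  set N₀ := ∫⁻ t' in Set.Ioc a b, ENNReal.ofReal (q z y P t' * g ((t' - t₀) / h)) with hN
  have e1 : ∀ t : ℝ, ENNReal.ofReal (D ^ 2 * g ((t - t₀) / h)) *
        (ENNReal.ofReal X + ENNReal.ofReal (Real.pi * h * (2 * q z y P t + 4 * q z y P t₀)) + 2 * N₀) =
      ENNReal.ofReal (g ((t - t₀) / h)) * (ENNReal.ofReal (D ^ 2) * (ENNReal.ofReal X +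
        ENNReal.ofReal (4 * (Real.pi * h) * q z y P t₀) + 2 * N₀)) +
      ENNReal.ofReal (D ^ 2 * (2 * (Real.pi * h))) * ENNReal.ofReal (q z y P t * g ((t - t₀) / h)) := by
    intro t
    have q0 := q_nonneg z y P t
    have g1 := g_pos ((t - t₀) / h)
    have f1 : ENNReal.ofReal (Real.pi * h * (2 * q z y P t + 4 * q z y P t₀)) =
        ENNReal.ofReal (4 * (Real.pi * h) * q z y P t₀) + ENNReal.ofReal (2 * (Real.pi * h)) *
          ENNReal.ofReal (q z y P t) := by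
      rw [← ENNReal.ofReal_mul (by positivity), ← ENNReal.ofReal_add (by positivity) (by positivity)]
      congr 1; ring
    rw [f1, ENNReal.ofReal_mul (by positivity), ENNReal.ofReal_mul q0,
      ENNReal.ofReal_mul (p := D ^ 2) (by positivity)]
    ring
  simp_rw [e1]
  have m2 : Measurable fun t : ℝ => ENNReal.ofReal (g ((t - t₀) / h)) :=
    (g_cont.comp (by fun_prop)).measurable.ennreal_ofReal
  rw [lintegral_add_left (m2.mul_const _), lintegral_mul_const _ m2,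
    lintegral_const_mul' _ _ ENNReal.ofReal_ne_top, ← hN]
  have k2 : ∫⁻ t' in Set.Ioc a b, ENNReal.ofReal (g ((t' - t₀) / h)) ≤ ENNReal.ofReal (Real.pi * h) :=
    (setLIntegral_le_lintegral _ _).trans (lint_g hh t₀).le
  refine (add_le_add (mul_le_mul_left k2 _) le_rfl).trans (le_of_eq ?_)
  rw [ENNReal.ofReal_mul (p := D ^ 2) (by positivity), ENNReal.ofReal_mul (p := D ^ 2) (by positivity),
    ENNReal.ofReal_mul (p := 2) (by positivity)]
  have : ENNReal.ofReal 2 = 2 := by norm_num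
  rw [this]
  ring

theorem N_swap {z y P : ℕ} {h T₁ T₂ X : ℝ} (hh : 0 < h) (hT : 0 < T₁) (hT' : T₁ < T₂)
    (hq : ∫⁻ t in Set.Ioc 0 (2 * T₂), ENNReal.ofReal (q z y P t) ≤ ENNReal.ofReal X) :
    ∫⁻ t₀ in Set.Ioc T₁ T₂, ∫⁻ t in Set.Ioc (t₀ - T₁ / 2) (t₀ + T₁ / 2),
      ENNReal.ofReal (q z y P t * g ((t - t₀) / h)) ≤ ENNReal.ofReal (Real.pi * h) * ENNReal.ofReal X := by
  have e1 : ∫⁻ t₀ in Set.Ioc T₁ T₂, ∫⁻ t in Set.Ioc (t₀ - T₁ / 2) (t₀ + T₁ / 2),
      ENNReal.ofReal (q z y P t * g ((t - t₀) / h)) ≤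
      ∫⁻ t₀ : ℝ, ∫⁻ t in Set.Ioc 0 (2 * T₂), ENNReal.ofReal (q z y P t * g ((t - t₀) / h)) := by
    refine (setLIntegral_mono' measurableSet_Ioc fun t₀ ht => ?_).trans (setLIntegral_le_lintegral _ _)
    refine lintegral_mono_set ?_
    refine Set.Ioc_subset_Ioc ?_ ?_
    · linarith [ht.1]
    · linarith [ht.2]
  refine e1.trans ?_
  have hm : Measurable (Function.uncurry fun (t₀ t : ℝ) => ENNReal.ofReal (q z y P t * g ((t - t₀) / h))) := by
    refine Measurable.ennreal_ofReal (Continuous.measurable ?_)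
    exact ((q_cont z y P).comp continuous_snd).mul (g_cont.comp (by fun_prop))
  rw [lintegral_lintegral_swap hm.aemeasurable]
  have e2 : ∀ t : ℝ, ∫⁻ t₀ : ℝ, ENNReal.ofReal (q z y P t * g ((t - t₀) / h)) =
      ENNReal.ofReal (q z y P t) * ENNReal.ofReal (Real.pi * h) := by
    intro t
    rw [← lint_g' hh t, ← lintegral_const_mul' _ _ ENNReal.ofReal_ne_top]
    refine lintegral_congr fun t₀ => ?_
    rw [← ENNReal.ofReal_mul (q_nonneg _ _ _ _)]
  simp_rw [e2]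
  rw [lintegral_mul_const' _ _ ENNReal.ofReal_ne_top, mul_comm]
  exact mul_le_mul_right hq _

theorem Qk_nonneg (C : ℝ) (z₁ z y P : ℕ) (t₀ t t' : ℝ) : 0 ≤ Qk C z₁ z y P t₀ t t' := by
  unfold Qk
  have h1 := mm_nonneg z₁ C (t - t₀)
  have h2 := mm_nonneg z₁ C (t' - t₀)
  have h3 := R_nonneg z y P (t - t')
  unfold R at h3
  have h4 : (0 : ℝ) ≤ if |t - t'| * Real.log z < 1 then 1 else 0 := by split_ifs <;> norm_num
  have h5 : (0 : ℝ) ≤ if |t - t'| * Real.log z < 1 then 0 else |SBr z y (t - t')| + ‖SG y P (t - t')‖ := by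
    split_ifs
    · exact le_rfl
    · positivity
  have h6 := abs_nonneg (SBr z y (t + t'))
  have h7 : (0 : ℝ) ≤ 1 / z := by positivity
  have h8 : 0 ≤ (‖sig z y P t - sig z y P t₀‖ + 1 / z) * (‖sig z y P t' - sig z y P t₀‖ + 1 / z) := by
    positivity
  have h9 : 0 ≤ ((mm z₁ C (t - t₀) + mm z₁ C (t' - t₀)) + (if |t - t'| * Real.log z < 1 then 1 else 0)) *
      ((rho z y (t - t')) ^ (1 / 2 : ℝ) * rho y P (t - t')) := mul_nonneg (by linarith) h3
  linarith

theorem outer {z y P : ℕ} {h X Y T₁ T₂ : ℝ} {D : ℝ} (hh : 0 < h) (hT : 0 < T₁) (hT' : T₁ < T₂) (hX : 0 ≤ X)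
    (hY : 0 ≤ Y)
    (hq : ∫⁻ t in Set.Ioc 0 (2 * T₂), ENNReal.ofReal (q z y P t) ≤ ENNReal.ofReal Y) :
    ∫⁻ t₀ in Set.Ioc T₁ T₂, ENNReal.ofReal (1 / h ^ 2) * (ENNReal.ofReal (D ^ 2 * (Real.pi * h)) *
      (ENNReal.ofReal X + ENNReal.ofReal (4 * (Real.pi * h) * q z y P t₀) +
        4 * ∫⁻ t' in Set.Ioc (t₀ - T₁ / 2) (t₀ + T₁ / 2), ENNReal.ofReal (q z y P t' * g ((t' - t₀) / h)))) ≤
      ENNReal.ofReal (1 / h ^ 2 * (D ^ 2 * (Real.pi * h) * (X * (T₂ - T₁) + 8 * (Real.pi * h) * Y))) := by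
  have hpi := Real.pi_pos
  have hTT : 0 ≤ T₂ - T₁ := by linarith
  rw [lintegral_const_mul' _ _ ENNReal.ofReal_ne_top, lintegral_const_mul' _ _ ENNReal.ofReal_ne_top,
    ENNReal.ofReal_mul (p := 1 / h ^ 2) (by positivity),
    ENNReal.ofReal_mul (p := D ^ 2 * (Real.pi * h)) (q := X * (T₂ - T₁) + 8 * (Real.pi * h) * Y) (by positivity)]
  refine mul_le_mul_right (mul_le_mul_right ?_ _) _
  have m1 : Measurable fun t₀ : ℝ => ENNReal.ofReal (4 * (Real.pi * h) * q z y P t₀) :=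
    (continuous_const.mul (q_cont z y P)).measurable.ennreal_ofReal
  have m2 : Measurable fun t₀ : ℝ => ENNReal.ofReal X + ENNReal.ofReal (4 * (Real.pi * h) * q z y P t₀) :=
    measurable_const.add m1
  rw [lintegral_add_left m2, lintegral_add_left measurable_const, lintegral_const, Measure.restrict_apply_univ,
    Real.volume_Ioc, lintegral_const_mul' _ _ (by norm_num)]
  have e1 : ∀ t₀ : ℝ, ENNReal.ofReal (4 * (Real.pi * h) * q z y P t₀) =
      ENNReal.ofReal (4 * (Real.pi * h)) * ENNReal.ofReal (q z y P t₀) := fun t₀ =>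
    ENNReal.ofReal_mul (by positivity)
  simp_rw [e1]
  rw [lintegral_const_mul' _ _ ENNReal.ofReal_ne_top]
  have k1 : ∫⁻ t in Set.Ioc T₁ T₂, ENNReal.ofReal (q z y P t) ≤ ENNReal.ofReal Y := by
    refine (lintegral_mono_set ?_).trans hq
    exact Set.Ioc_subset_Ioc hT.le (by linarith)
  have k2 := N_swap (z := z) (y := y) (P := P) hh hT hT' hq
  refine (add_le_add (add_le_add le_rfl (mul_le_mul_right k1 _)) (mul_le_mul_right k2 _)).trans (le_of_eq ?_)
  have f4 : (4 : ENNReal) = ENNReal.ofReal 4 := by norm_num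
  rw [f4, ← ENNReal.ofReal_mul hX, ← ENNReal.ofReal_mul (by positivity), ← ENNReal.ofReal_mul (by positivity),
    ← ENNReal.ofReal_mul (by norm_num), ← ENNReal.ofReal_add (by positivity) (by positivity),
    ← ENNReal.ofReal_add (by positivity) (by positivity)]
  congr 1
  ring

end DVI

open DVI in
/-- DVI: the kernel integrated over the windows -/
theorem D_int (C : ℝ) (hC : 0 < C) : ∃ K₀ : ℕ, ∀ (K : ℕ) (T₁ T₂ : ℝ), K₀ ≤ K → 0 < T₁ → T₁ < T₂ →
    ∃ C' : ℝ, ∀ (h ζ : ℝ) (z₁ z y P : ℕ), 0 < h → h ≤ 1 → 0 < ζ → ζ ≤ 1 → z0 ≤ z₁ → z₁ ≤ z → z ≤ y →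
    y ≤ P → h * Real.log z₁ ≤ ζ → 1 ≤ ζ * (h * Real.log z) →
    ∫ t₀ in T₁..T₂, (∫ t in (t₀ - T₁ / 2)..(t₀ + T₁ / 2), ∫ t' in (t₀ - T₁ / 2)..(t₀ + T₁ / 2),
      Qk C z₁ z y P t₀ t t' * (wK K ((t - t₀) / h) * wK K ((t' - t₀) / h))) / h ^ 2 ≤
      C' * ζ ^ (1 / 2 : ℝ) * (Real.log (Real.log P + 3)) ^ C' := by
  obtain ⟨n, hn⟩ := exists_nat_ge C
  refine ⟨n + 3, fun K T₁ T₂ hK hT₁ hT₁₂ => ?_⟩
  obtain ⟨A, hA, hw⟩ := wK_le K
  obtain ⟨CR, hCR, hRi⟩ := Ri_int
  obtain ⟨CU, hCU, hU⟩ := U_int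
  obtain ⟨Cq, hCq, hq⟩ := q_int
  have hpi := Real.pi_pos
  set D := A * 2 ^ (n + 1) with hD
  set C1 := 3 * CR + Real.pi * (2 * CR * (1 + T₁) + 13 / 2) + 4 * CU with hC1
  set C2 := Cq * (1 + 2 * T₂) with hC2
  set C3 := D ^ 2 * Real.pi * (C1 * (T₂ - T₁) + 8 * Real.pi * C2) with hC3
  have hT₂ : 0 < T₂ := by linarith
  have hTT : 0 < T₂ - T₁ := by linarith
  have hC1' : 0 ≤ C1 := by positivity
  have hC2' : 0 ≤ C2 := by positivity
  have hC3' : 0 ≤ C3 := by positivity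
  refine ⟨max C3 1, fun h ζ z₁ z y P hh hh1 hζ hζ1 hz0 hz₁z hzy hyP hz₁ hz => ?_⟩
  have hz3 : 3 ≤ z := by unfold z0 at hz0; omega
  have hP3 : 3 ≤ P := by omega
  obtain ⟨hR1, hR2⟩ := hRi z y P hz3 hzy hyP
  have hs0 : 0 < ζ ^ (1 / 2 : ℝ) := Real.rpow_pos_of_pos hζ _
  have hss : ζ ^ (1 / 2 : ℝ) * ζ ^ (1 / 2 : ℝ) = ζ := by
    rw [← Real.rpow_add hζ]; norm_num
  set s := ζ ^ (1 / 2 : ℝ) with hs
  have hs1 : s ≤ 1 := Real.rpow_le_one hζ.le hζ1 (by norm_num)
  have hζs : ζ ≤ s := by rw [← hss]; exact mul_le_of_le_one_left hs0.le hs1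
  have hlP : 1 ≤ Real.log P := DVR_log_ge hP3
  have hL1 : 1 ≤ Real.log (Real.log P + 3) := by
    rw [Real.le_log_iff_exp_le (by positivity)]
    linarith [Real.exp_one_lt_d9]
  set L := Real.log (Real.log P + 3) with hL
  have ha : 0 < Real.log z := lt_of_lt_of_le one_pos (DVR_log_ge hz3)
  have hLa : L / Real.log z ≤ ζ * h * L := by
    rw [div_le_iff₀ ha]
    have : L * 1 ≤ L * (ζ * (h * Real.log z)) := mul_le_mul_of_nonneg_left hz (by linarith)
    nlinarith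
  have hLs : L / Real.log z ≤ h * s * L := by
    refine hLa.trans ?_
    have : ζ * h * L = h * ζ * L := by ring
    rw [this]
    gcongr
  set l := s * L with hl
  have hl0 : 0 < l := by positivity
  set B := 2 * ζ * CR * (1 + T₁) + 3 / 2 * l + 5 * ζ with hB
  have hB0 : 0 ≤ B := by positivity
  set X₁ := CR * L / Real.log z with hX₁
  set X₂ := CU * (1 + h) * L / Real.log z with hX₂
  have hX₁0 : 0 ≤ X₁ := by positivity
  have hX₂0 : 0 ≤ X₂ := by positivity
  set X := 3 * X₁ + B * (Real.pi * h) + 2 * X₂ / l with hX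
  have hX0 : 0 ≤ X := by positivity
  set Y := Cq * (1 + 2 * T₂) * L / Real.log z with hY
  have hY0 : 0 ≤ Y := by positivity
  have hYq : ∫⁻ t in Set.Ioc 0 (2 * T₂), ENNReal.ofReal (q z y P t) ≤ ENNReal.ofReal Y :=
    hq z y P (2 * T₂) hz3 hzy hyP (by positivity)
  have hUU : ∀ v₀ : ℝ, ∫⁻ v : ℝ, ENNReal.ofReal (U z y P v * g ((v - v₀) / h)) ≤ ENNReal.ofReal X₂ :=
    fun v₀ => hU z y P v₀ h hz3 hzy hyP hh
  -- the integral in terms of lower integrals
  have key : ENNReal.ofReal (∫ t₀ in T₁..T₂, (∫ t in (t₀ - T₁ / 2)..(t₀ + T₁ / 2),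
      ∫ t' in (t₀ - T₁ / 2)..(t₀ + T₁ / 2),
      Qk C z₁ z y P t₀ t t' * (wK K ((t - t₀) / h) * wK K ((t' - t₀) / h))) / h ^ 2) ≤
      ENNReal.ofReal (1 / h ^ 2 * (D ^ 2 * (Real.pi * h) * (X * (T₂ - T₁) + 8 * (Real.pi * h) * Y))) := by
    refine le_trans ?_ (outer hh hT₁ hT₁₂ hX0 hY0 hYq)
    have hF0 : ∀ t₀ t t', 0 ≤ Qk C z₁ z y P t₀ t t' * (wK K ((t - t₀) / h) * wK K ((t' - t₀) / h)) :=
      fun t₀ t t' => mul_nonneg (Qk_nonneg _ _ _ _ _ _ _ _) (mul_nonneg (wK_nonneg _ _) (wK_nonneg _ _))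
    refine ofReal_int_le hT₁₂.le (fun t₀ _ => ?_) (fun t₀ _ => ?_)
    · refine div_nonneg (intervalIntegral.integral_nonneg (by linarith) fun t _ =>
        intervalIntegral.integral_nonneg (by linarith) fun t' _ => hF0 t₀ t t') (by positivity)
    · rw [div_eq_mul_inv, mul_comm, ENNReal.ofReal_mul (by positivity), ← one_div]
      refine mul_le_mul_right ?_ _
      refine le_trans ?_ (middle hh)
      refine ofReal_int_le (by linarith) (fun t _ =>
        intervalIntegral.integral_nonneg (by linarith) fun t' _ => hF0 t₀ t t') (fun t ht => ?_)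
      refine le_trans ?_ (inner hh hl0 hB0 hX₁0 hX₂0 hR1 hUU)
      refine ofReal_int_le (by linarith) (fun t' _ => hF0 t₀ t t') (fun t' ht' => ?_)
      refine ENNReal.ofReal_le_ofReal (point hK hC.le hn hA.le hw hh hh1 hζ hζ1 hl0 hz₁ hz hz3 ?_ hCR hR2)
      rw [abs_le]
      constructor
      · linarith [ht.1, ht.2, ht'.1, ht'.2]
      · linarith [ht.1, ht.2, ht'.1, ht'.2]
  have key2 := (ENNReal.ofReal_le_ofReal_iff (by positivity)).mp key
  refine key2.trans ?_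
  -- numerical bounds
  have b1 : X₁ ≤ CR * (h * s * L) := by
    rw [hX₁, mul_div_assoc]; exact mul_le_mul_of_nonneg_left hLs hCR
  have hsL : s ≤ s * L := le_mul_of_one_le_right hs0.le hL1
  have b2 : B ≤ (2 * CR * (1 + T₁) + 13 / 2) * (s * L) := by
    have e1 : ζ ≤ s * L := hζs.trans hsL
    have e2 : 2 * ζ * CR * (1 + T₁) ≤ 2 * CR * (1 + T₁) * (s * L) := by
      have : 2 * ζ * CR * (1 + T₁) = 2 * CR * (1 + T₁) * ζ := by ring
      rw [this]
      exact mul_le_mul_of_nonneg_left e1 (by positivity)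
    rw [hB, hl]
    linarith only [e1, e2]
  have b3 : 2 * X₂ / l ≤ 4 * CU * (h * s * L) := by
    rw [div_le_iff₀ hl0, hX₂, mul_div_assoc]
    have e1 : CU * (1 + h) * (L / Real.log z) ≤ CU * 2 * (ζ * h * L) := by
      gcongr
      linarith
    have e2 : 2 * (CU * 2 * (ζ * h * L)) ≤ 4 * CU * (h * s * L) * l := by
      have : 4 * CU * (h * s * L) * l = 4 * CU * h * L * (s * s) * L := by rw [hl]; ring
      rw [this, hss]
      have e3 : 0 ≤ 4 * CU * h * L * ζ := by positivity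
      nlinarith only [e3, hL1]
    linarith only [e1, e2]
  have b4 : X ≤ C1 * (h * (s * L)) := by
    have e1 : B * (Real.pi * h) ≤ ((2 * CR * (1 + T₁) + 13 / 2) * (s * L)) * (Real.pi * h) :=
      mul_le_mul_of_nonneg_right b2 (by positivity)
    rw [hX, hC1]
    nlinarith only [b1, b3, e1]
  have b5 : Y ≤ C2 * (h * (s * L)) := by
    rw [hY, mul_div_assoc, hC2]
    have : h * s * L = h * (s * L) := by ring
    rw [← this]
    exact mul_le_mul_of_nonneg_left hLs (by positivity)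
  have b6 : 1 / h ^ 2 * (D ^ 2 * (Real.pi * h) * (X * (T₂ - T₁) + 8 * (Real.pi * h) * Y)) ≤ C3 * (s * L) := by
    have e1 : X * (T₂ - T₁) + 8 * (Real.pi * h) * Y ≤
        (C1 * (h * (s * L))) * (T₂ - T₁) + 8 * (Real.pi * 1) * (C2 * (h * (s * L))) := by
      gcongr
    calc 1 / h ^ 2 * (D ^ 2 * (Real.pi * h) * (X * (T₂ - T₁) + 8 * (Real.pi * h) * Y))
        ≤ 1 / h ^ 2 * (D ^ 2 * (Real.pi * h) * ((C1 * (h * (s * L))) * (T₂ - T₁) +
          8 * (Real.pi * 1) * (C2 * (h * (s * L))))) := by gcongr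
      _ = C3 * (s * L) := by
          rw [hC3]
          field_simp
  refine b6.trans ?_
  have b7 : L ≤ L ^ (max C3 1) := by
    calc L = L ^ (1 : ℝ) := (Real.rpow_one L).symm
      _ ≤ L ^ (max C3 1) := Real.rpow_le_rpow_of_exponent_le hL1 (le_max_right _ _)
  calc C3 * (s * L) ≤ max C3 1 * (s * L ^ (max C3 1)) := by
        gcongr
        exact le_max_left _ _
    _ = max C3 1 * s * L ^ (max C3 1) := by ring

end Pool.Agent.CZ
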