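import Mathlib
import Pool.Agent.CZ.Defs
import Pool.Agent.CZ.PS
import Pool.Agent.CZ.RM
import Pool.Agent.CZ.RAT
import Pool.Agent.CZ.DLO

/-!
# The covariance kernel of the exact test function in the random model
-/

set_option autoImplicit false

open Complex Finset MeasureTheory

namespace Pool.Agent.CZ

open Pool.Agent.H5 (c bd)

/-! ### linearity of the averages -/

theorem DVK_MP_ne (P : ℕ) : ((MP P : ℕ) : ℂ) ≠ 0 := by
  have h : MP P ≠ 0 := by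
    unfold MP
    rw [Finset.prod_ne_zero_iff]
    intro p hp
    exact (mem_filter.1 hp).2.1.ne_zero
  exact_mod_cast h

theorem DVK_MP_pos (P : ℕ) : (0 : ℝ) < (MP P : ℕ) := by
  have h : MP P ≠ 0 := by exact_mod_cast DVK_MP_ne P
  exact_mod_cast Nat.pos_of_ne_zero h

theorem DVK_RA_add (P : ℕ) (f g : ℤ → ℂ) :
    RA P (fun D => f D + g D) = RA P f + RA P g := by
  simp only [RA, sum_add_distrib, add_div]

theorem DVK_RA_sub (P : ℕ) (f g : ℤ → ℂ) :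
    RA P (fun D => f D - g D) = RA P f - RA P g := by
  simp only [RA, sum_sub_distrib, sub_div]

theorem DVK_RA_mul (P : ℕ) (w : ℂ) (f : ℤ → ℂ) : RA P (fun D => w * f D) = w * RA P f := by
  simp only [RA, ← mul_sum, mul_div_assoc]

theorem DVK_RA_const (P : ℕ) (w : ℂ) : RA P (fun _ => w) = w := by
  simp only [RA, sum_const, card_range, nsmul_eq_mul]
  field_simp [DVK_MP_ne P]

theorem DVK_RA_conj (P : ℕ) (f : ℤ → ℂ) :
    RA P (fun D => (starRingEnd ℂ) (f D)) = (starRingEnd ℂ) (RA P f) := by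
  simp only [RA, map_div₀, map_sum, map_natCast]

theorem DVK_RR_add (P : ℕ) (f g : ℤ → ℝ) :
    RR P (fun D => f D + g D) = RR P f + RR P g := by
  simp only [RR, sum_add_distrib, add_div]

theorem DVK_RR_mul (P : ℕ) (w : ℝ) (f : ℤ → ℝ) : RR P (fun D => w * f D) = w * RR P f := by
  simp only [RR, ← mul_sum, mul_div_assoc]

theorem DVK_RR_const (P : ℕ) (w : ℝ) : RR P (fun _ => w) = w := by
  simp only [RR, sum_const, card_range, nsmul_eq_mul]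
  field_simp [(DVK_MP_pos P).ne']

theorem DVK_RR_re (P : ℕ) (f : ℤ → ℂ) : RR P (fun D => (f D).re) = (RA P f).re := by
  simp only [RR, RA]
  rw [← re_sum, ← Complex.ofReal_natCast (MP P), Complex.div_ofReal_re]

theorem DVK_RR_mono (P : ℕ) {f g : ℤ → ℝ} (h : ∀ D, f D ≤ g D) : RR P f ≤ RR P g := by
  unfold RR
  exact div_le_div_of_nonneg_right (sum_le_sum fun D _ => h D) (DVK_MP_pos P).le

theorem DVK_RA_norm_le (P : ℕ) (f : ℤ → ℂ) : ‖RA P f‖ ≤ RR P (fun D => ‖f D‖) := by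
  unfold RA RR
  rw [norm_div, Complex.norm_natCast]
  exact div_le_div_of_nonneg_right (norm_sum_le _ _) (DVK_MP_pos P).le

/-! ### independence of three blocks -/

theorem DVK_three {z y P : ℕ} (hzy : z ≤ y) (hyP : y ≤ P) (f g k : ℤ → ℂ)
    (hf : ∀ D : ℤ, f (D + MP z) = f D) (hf' : ∀ D : ℤ, f (D + MP y) = f D)
    (hg : ∀ D : ℤ, g (D + (∏ p ∈ primesIoc z y, p : ℕ)) = g D)
    (hg' : ∀ D : ℤ, g (D + MP y) = g D)
    (hk : ∀ D : ℤ, k (D + (∏ p ∈ primesIoc y P, p : ℕ)) = k D) :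
    RA P (fun D => f D * g D * k D) = RA P f * RA P g * RA P k := by
  rw [RA_indep hyP (fun D => f D * g D) k (fun D => by rw [hf', hg']) hk,
    RA_restrict hyP (fun D => f D * g D) (fun D => by rw [hf', hg']),
    RA_indep hzy f g hf hg, RA_restrict hyP f hf', RA_restrict hyP g hg']

theorem DVK_PSum_period (z y : ℕ) (D : ℤ) (t : ℝ) :
    PSum z y (D + (∏ p ∈ primesIoc z y, p : ℕ)) t = PSum z y D t := by
  unfold PSum
  refine sum_congr rfl fun p hp => ?_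
  have h1 : (p : ℤ) ∣ ((∏ p ∈ primesIoc z y, p : ℕ) : ℤ) := by
    exact_mod_cast Finset.dvd_prod_of_mem (fun p => p) hp
  have h2 : jacobiSym (D + (∏ p ∈ primesIoc z y, p : ℕ)) p = jacobiSym D p := by
    rw [jacobiSym.mod_left, jacobiSym.mod_left D]
    congr 1
    obtain ⟨q, hq⟩ := h1
    rw [hq, Int.add_mul_emod_self_left]
  unfold Pool.Agent.H5.bd
  rw [h2]

/-! ### the small primes -/

/-- the small block -/
noncomputable def DVK_A (z₁ : ℕ) (t t₀ : ℝ) (D : ℤ) : ℂ := LP 0 z₁ D t * (LP 0 z₁ D t₀)⁻¹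

/-- the middle block -/
noncomputable def DVK_B (z y : ℕ) (t : ℝ) (D : ℤ) : ℂ := LP z y D t * exp (-(I * theta z y D t))

theorem DVK_EX (z₁ z y P : ℕ) (D : ℤ) (t t₀ : ℝ) :
    EX z₁ z y P D t t₀ = DVK_A z₁ t t₀ D * DVK_B z y t D * LP y P D t := by
  unfold EX DVK_A DVK_B
  ring

theorem DVK_A_period {z₁ P : ℕ} (h : z₁ ≤ P) (t t₀ : ℝ) (D : ℤ) :
    DVK_A z₁ t t₀ (D + MP P) = DVK_A z₁ t t₀ D := by
  unfold DVK_A
  rw [LP_period h, LP_period h]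

theorem DVK_B_period {z y P : ℕ} (h : y ≤ P) (t : ℝ) (D : ℤ) :
    DVK_B z y t (D + MP P) = DVK_B z y t D := by
  unfold DVK_B theta
  rw [LP_period h, PSum_period h]

theorem DVK_B_period' (z y : ℕ) (t : ℝ) (D : ℤ) :
    DVK_B z y t (D + (∏ p ∈ primesIoc z y, p : ℕ)) = DVK_B z y t D := by
  unfold DVK_B theta
  rw [LP_period', DVK_PSum_period]

/-- moments of the small block -/
theorem DVK_A_moments : ∃ C : ℝ, 0 ≤ C ∧ ∀ (z₁ P : ℕ) (t t₀ : ℝ), 1 ≤ z₁ → z₁ ≤ P →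
    ‖RA P (DVK_A z₁ t t₀) - 1‖ ≤ C * mm z₁ C (t - t₀) ∧
    |RR P (fun D => ‖DVK_A z₁ t t₀ D‖ ^ 2) - 1| ≤ C * mm z₁ C (t - t₀) := by
  obtain ⟨C₁, h₁⟩ := RAT1
  obtain ⟨C₂, h₂⟩ := RAT2
  refine ⟨max (max C₁ C₂) 0, le_max_right _ _, fun z₁ P t t₀ h1 hP => ?_⟩
  set C := max (max C₁ C₂) 0 with hC
  have hC1 : C₁ ≤ C := (le_max_left _ _).trans (le_max_left _ _)
  have hC2 : C₂ ≤ C := (le_max_right _ _).trans (le_max_left _ _)
  have hC0 : 0 ≤ C := le_max_right _ _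
  have hx : 0 ≤ |t - t₀| * Real.log z₁ :=
    mul_nonneg (abs_nonneg _) (Real.log_nonneg (by exact_mod_cast h1))
  have key : ∀ c : ℝ, c ≤ C → c * (|t - t₀| * Real.log z₁) * (1 + |t - t₀| * Real.log z₁) ^ c ≤
      C * mm z₁ C (t - t₀) := by
    intro c hc
    unfold mm
    have h2 : (1 + |t - t₀| * Real.log z₁) ^ c ≤ (1 + |t - t₀| * Real.log z₁) ^ C :=
      Real.rpow_le_rpow_of_exponent_le (by linarith) hc
    have h3 : 0 ≤ (1 + |t - t₀| * Real.log z₁) ^ c := Real.rpow_nonneg (by linarith) _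
    calc c * (|t - t₀| * Real.log z₁) * (1 + |t - t₀| * Real.log z₁) ^ c
        ≤ C * (|t - t₀| * Real.log z₁) * (1 + |t - t₀| * Real.log z₁) ^ c := by
          exact mul_le_mul_of_nonneg_right (mul_le_mul_of_nonneg_right hc hx) h3
      _ ≤ C * (|t - t₀| * Real.log z₁) * (1 + |t - t₀| * Real.log z₁) ^ C :=
          mul_le_mul_of_nonneg_left h2 (mul_nonneg hC0 hx)
      _ = _ := by ring
  constructor
  · rw [RA_restrict hP (DVK_A z₁ t t₀) (DVK_A_period le_rfl t t₀)]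
    exact (h₁ 0 z₁ t t₀ h1).trans (key _ hC1)
  · have h4 : RR P (fun D => ‖DVK_A z₁ t t₀ D‖ ^ 2) = RR z₁ (fun D => ‖DVK_A z₁ t t₀ D‖ ^ 2) := by
      have h5 := RA_restrict hP (fun D => ((‖DVK_A z₁ t t₀ D‖ ^ 2 : ℝ) : ℂ)) (fun D => by
        simp only [DVK_A_period (le_refl z₁)])
      have h6 := congrArg Complex.re h5
      rw [← DVK_RR_re, ← DVK_RR_re] at h6
      simpa only [Complex.ofReal_re] using h6
    rw [h4]
    exact (h₂ 0 z₁ t t₀ h1).trans (key _ hC2)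

theorem DVK_mm_nonneg {z : ℕ} (hz : 1 ≤ z) (C u : ℝ) : 0 ≤ mm z C u := by
  unfold mm
  have hx : 0 ≤ |u| * Real.log z :=
    mul_nonneg (abs_nonneg _) (Real.log_nonneg (by exact_mod_cast hz))
  exact mul_nonneg hx (Real.rpow_nonneg (by linarith) _)

theorem DVK_mm_mono {z : ℕ} (hz : 1 ≤ z) {C C' : ℝ} (h : C ≤ C') (u : ℝ) :
    mm z C u ≤ mm z C' u := by
  unfold mm
  have hx : 0 ≤ |u| * Real.log z :=
    mul_nonneg (abs_nonneg _) (Real.log_nonneg (by exact_mod_cast hz))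
  exact mul_le_mul_of_nonneg_left (Real.rpow_le_rpow_of_exponent_le (by linarith) h) hx

/-- covariance of the small block -/
theorem DVK_A_cov : ∃ C : ℝ, 0 ≤ C ∧ ∀ (z₁ P : ℕ) (t t' t₀ : ℝ), 1 ≤ z₁ → z₁ ≤ P →
    ‖RA P (DVK_A z₁ t t₀) - 1‖ ≤ C * mm z₁ C (t - t₀) ∧
    ‖RA P (fun D => DVK_A z₁ t t₀ D * (starRingEnd ℂ) (DVK_A z₁ t' t₀ D)) - 1‖ ≤
      C * (mm z₁ C (t - t₀) + mm z₁ C (t' - t₀)) := by
  obtain ⟨C, hC0, hC⟩ := DVK_A_moments
  refine ⟨3 * C, by linarith, fun z₁ P t t' t₀ h1 hP => ?_⟩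
  have hm : ∀ u, mm z₁ C u ≤ mm z₁ (3 * C) u := fun u => DVK_mm_mono h1 (by linarith) u
  have hm0 : ∀ u, 0 ≤ mm z₁ C u := fun u => DVK_mm_nonneg h1 C u
  have hsq : ∀ s : ℝ, RR P (fun D => ‖DVK_A z₁ s t₀ D - 1‖ ^ 2) ≤ 3 * C * mm z₁ C (s - t₀) := by
    intro s
    obtain ⟨h2, h3⟩ := hC z₁ P s t₀ h1 hP
    have h4 : RR P (fun D => ‖DVK_A z₁ s t₀ D - 1‖ ^ 2) =
        (RR P (fun D => ‖DVK_A z₁ s t₀ D‖ ^ 2) - 1) - 2 * (RA P (DVK_A z₁ s t₀) - 1).re := by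
      have h5 : (fun D => ‖DVK_A z₁ s t₀ D - 1‖ ^ 2) =
          fun D => (‖DVK_A z₁ s t₀ D‖ ^ 2 + (-2) * (DVK_A z₁ s t₀ D).re) + 1 := by
        funext D
        rw [← Complex.normSq_eq_norm_sq, ← Complex.normSq_eq_norm_sq, Complex.normSq_sub]
        simp
        ring
      rw [h5, DVK_RR_add, DVK_RR_add, DVK_RR_mul, DVK_RR_const, DVK_RR_re, Complex.sub_re,
        Complex.one_re]
      ring
    rw [h4]
    have h6 := (abs_le.1 h3).2
    have h7 := (abs_le.1 ((Complex.abs_re_le_norm _).trans h2)).1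
    nlinarith [hm0 (s - t₀)]
  constructor
  · refine (hC z₁ P t t₀ h1 hP).1.trans ?_
    have := mul_le_mul_of_nonneg_left (hm (t - t₀)) hC0
    nlinarith [DVK_mm_nonneg h1 (3 * C) (t - t₀)]
  · have h8 : RA P (fun D => DVK_A z₁ t t₀ D * (starRingEnd ℂ) (DVK_A z₁ t' t₀ D)) - 1 =
        RA P (fun D => (DVK_A z₁ t t₀ D - 1) * (starRingEnd ℂ) (DVK_A z₁ t' t₀ D - 1)) +
          ((RA P (DVK_A z₁ t t₀) - 1) + (starRingEnd ℂ) (RA P (DVK_A z₁ t' t₀) - 1)) := by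
      have h9 : (fun D => (DVK_A z₁ t t₀ D - 1) * (starRingEnd ℂ) (DVK_A z₁ t' t₀ D - 1)) =
          fun D => ((DVK_A z₁ t t₀ D * (starRingEnd ℂ) (DVK_A z₁ t' t₀ D) - DVK_A z₁ t t₀ D) -
            (starRingEnd ℂ) (DVK_A z₁ t' t₀ D)) + 1 := by
        funext D
        rw [map_sub, map_one]
        ring
      rw [h9, DVK_RA_add, DVK_RA_sub, DVK_RA_sub, DVK_RA_const, DVK_RA_conj, map_sub, map_one]
      ring
    rw [h8]
    have h10 : ‖RA P (fun D => (DVK_A z₁ t t₀ D - 1) * (starRingEnd ℂ) (DVK_A z₁ t' t₀ D - 1))‖ ≤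
        (RR P (fun D => ‖DVK_A z₁ t t₀ D - 1‖ ^ 2) +
          RR P (fun D => ‖DVK_A z₁ t' t₀ D - 1‖ ^ 2)) / 2 := by
      refine (DVK_RA_norm_le P _).trans ?_
      have h11 : (RR P (fun D => ‖DVK_A z₁ t t₀ D - 1‖ ^ 2) +
          RR P (fun D => ‖DVK_A z₁ t' t₀ D - 1‖ ^ 2)) / 2 =
          RR P (fun D => (1 / 2) * (‖DVK_A z₁ t t₀ D - 1‖ ^ 2 + ‖DVK_A z₁ t' t₀ D - 1‖ ^ 2)) := by
        rw [DVK_RR_mul, DVK_RR_add]
        ring
      rw [h11]
      refine DVK_RR_mono P fun D => ?_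
      rw [norm_mul, RCLike.norm_conj]
      nlinarith [sq_nonneg (‖DVK_A z₁ t t₀ D - 1‖ - ‖DVK_A z₁ t' t₀ D - 1‖)]
    have h12 := hsq t
    have h13 := hsq t'
    have h14 := (hC z₁ P t t₀ h1 hP).1
    have h15 := (hC z₁ P t' t₀ h1 hP).1
    have h16 : ‖(starRingEnd ℂ) (RA P (DVK_A z₁ t' t₀) - 1)‖ ≤ C * mm z₁ C (t' - t₀) := by
      rw [RCLike.norm_conj]
      exact h15
    refine (norm_add_le _ _).trans ((add_le_add h10 (norm_add_le _ _)).trans ?_)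
    have h17 := mul_le_mul_of_nonneg_left (hm (t - t₀)) hC0
    have h18 := mul_le_mul_of_nonneg_left (hm (t' - t₀)) hC0
    nlinarith [DVK_mm_nonneg h1 (3 * C) (t - t₀), DVK_mm_nonneg h1 (3 * C) (t' - t₀)]

/-! ### prime sums -/

theorem DVK_npow_re {p : ℕ} (hp : 0 < p) (v : ℝ) :
    (npow p v).re = Real.cos (v * Real.log p) / p := by
  have hp0 : (p : ℂ) ≠ 0 := by exact_mod_cast hp.ne'
  have hpr : (0 : ℝ) < p := by exact_mod_cast hp
  have h1 : npow p v = ((1 / p : ℝ) : ℂ) * exp (((-(v * Real.log p) : ℝ) : ℂ) * I) := by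
    unfold npow
    rw [Complex.cpow_def_of_ne_zero hp0, ← Complex.natCast_log]
    rw [show (Real.log p : ℂ) * -(1 + (v : ℂ) * I) =
      ((-Real.log p : ℝ) : ℂ) + ((-(v * Real.log p) : ℝ) : ℂ) * I by push_cast; ring]
    rw [Complex.exp_add, ← Complex.ofReal_exp, Real.exp_neg, Real.exp_log hpr, one_div]
  rw [h1, Complex.re_ofReal_mul, Complex.exp_ofReal_mul_I_re, Real.cos_neg]
  ring

theorem DVK_npow_im {p : ℕ} (hp : 0 < p) (v : ℝ) :
    (npow p v).im = -(Real.sin (v * Real.log p) / p) := by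
  have hp0 : (p : ℂ) ≠ 0 := by exact_mod_cast hp.ne'
  have hpr : (0 : ℝ) < p := by exact_mod_cast hp
  have h1 : npow p v = ((1 / p : ℝ) : ℂ) * exp (((-(v * Real.log p) : ℝ) : ℂ) * I) := by
    unfold npow
    rw [Complex.cpow_def_of_ne_zero hp0, ← Complex.natCast_log]
    rw [show (Real.log p : ℂ) * -(1 + (v : ℂ) * I) =
      ((-Real.log p : ℝ) : ℂ) + ((-(v * Real.log p) : ℝ) : ℂ) * I by push_cast; ring]
    rw [Complex.exp_add, ← Complex.ofReal_exp, Real.exp_neg, Real.exp_log hpr, one_div]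
  rw [h1, Complex.im_ofReal_mul, Complex.exp_ofReal_mul_I_im, Real.sin_neg]
  ring

theorem DVK_pos {a b p : ℕ} (hp : p ∈ primesIoc a b) : 0 < p :=
  (mem_filter.1 hp).2.1.pos

/-- `SBr` and `SG` are the same prime sum -/
theorem DVK_SG_re (z y : ℕ) (v : ℝ) : (SG z y v).re = SBr z y v := by
  unfold SG SBr
  rw [Complex.re_sum]
  refine sum_congr rfl fun p hp => ?_
  rw [Complex.re_ofReal_mul, DVK_npow_re (DVK_pos hp)]
  ring

theorem DVK_SG_im (z y : ℕ) (v : ℝ) :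
    (SG z y v).im = -∑ p ∈ primesIoc z y, lam2 p * Real.sin (v * Real.log p) / p := by
  unfold SG
  rw [Complex.im_sum, ← Finset.sum_neg_distrib]
  refine sum_congr rfl fun p hp => ?_
  rw [Complex.im_ofReal_mul, DVK_npow_im (DVK_pos hp)]
  ring

theorem DVK_sum_sloc (z y : ℕ) (t : ℝ) :
    ∑ p ∈ primesIoc z y, sloc p t = (((∑ p ∈ primesIoc z y, lam2 p / p) / 4 : ℝ) : ℂ) -
      (((SG z y (2 * t)).re / 4 : ℝ) : ℂ) - I * (((SG z y (2 * t)).im / 2 : ℝ) : ℂ) +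
      SG z y (2 * t) - ∑ p ∈ primesIoc z y, npow p (2 * t) := by
  rw [DVK_SG_re, DVK_SG_im]
  unfold SG SBr
  push_cast
  rw [Finset.sum_div, Finset.sum_div, ← Finset.sum_neg_distrib, Finset.sum_div, Finset.mul_sum,
    ← Finset.sum_sub_distrib, ← Finset.sum_sub_distrib, ← Finset.sum_add_distrib,
    ← Finset.sum_sub_distrib]
  refine sum_congr rfl fun p _ => ?_
  unfold sloc
  push_cast
  ring

/-- the exponent of the mean is constant up to a bounded error on compact sets -/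
theorem DVK_sig_bounded (T₁ T₂ : ℝ) (hT : 0 < T₁) : ∃ C : ℝ, 0 ≤ C ∧ ∀ (z y P : ℕ) (t t' : ℝ),
    1 ≤ z → z ≤ y → y ≤ P → T₁ ≤ t → t ≤ T₂ → T₁ ≤ t' → t' ≤ T₂ →
    ‖sig z y P t - sig z y P t'‖ ≤ C := by
  obtain ⟨C, hC⟩ := PS3 (2 * T₁) (2 * T₂) (by linarith)
  have hC0 : 0 ≤ max C 0 := le_max_right _ _
  have hCC : C ≤ max C 0 := le_max_left _ _
  set C' := max C 0 with hC'
  refine ⟨20 * C', by linarith, fun z y P t t' hz hzy hyP h1 h2 h3 h4 => ?_⟩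
  have key : ∀ s : ℝ, T₁ ≤ s → s ≤ T₂ →
      ‖(-(((SG z y (2 * s)).re / 4 : ℝ) : ℂ) - I * (((SG z y (2 * s)).im / 2 : ℝ) : ℂ) +
        SG z y (2 * s) - ∑ p ∈ primesIoc z y, npow p (2 * s)) +
        (SG y P (2 * s) - ∑ p ∈ primesIoc y P, npow p (2 * s))‖ ≤ 6 * C' := by
    intro s hs1 hs2
    obtain ⟨h5, h6⟩ := hC z y (2 * s) hz hzy (by linarith) (by linarith)
    obtain ⟨h7, h8⟩ := hC y P (2 * s) (hz.trans hzy) hyP (by linarith) (by linarith)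
    have h9 : ‖SG z y (2 * s)‖ ≤ C' := h6.trans hCC
    have h10 : ‖SG y P (2 * s)‖ ≤ C' := h8.trans hCC
    have h11 : ‖-(((SG z y (2 * s)).re / 4 : ℝ) : ℂ)‖ ≤ C' / 4 := by
      rw [norm_neg, Complex.norm_real, Real.norm_eq_abs, abs_div, abs_of_pos (by norm_num : (0:ℝ) < 4)]
      have := (Complex.abs_re_le_norm (SG z y (2 * s))).trans h9
      linarith
    have h12 : ‖I * (((SG z y (2 * s)).im / 2 : ℝ) : ℂ)‖ ≤ C' / 2 := by
      rw [norm_mul, Complex.norm_I, one_mul, Complex.norm_real, Real.norm_eq_abs, abs_div,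
        abs_of_pos (by norm_num : (0:ℝ) < 2)]
      have := (Complex.abs_im_le_norm (SG z y (2 * s))).trans h9
      linarith
    refine (norm_add_le _ _).trans ?_
    have h13 := norm_sub_le (SG y P (2 * s)) (∑ p ∈ primesIoc y P, npow p (2 * s))
    have h14 := norm_sub_le (-(((SG z y (2 * s)).re / 4 : ℝ) : ℂ) -
      I * (((SG z y (2 * s)).im / 2 : ℝ) : ℂ) + SG z y (2 * s))
      (∑ p ∈ primesIoc z y, npow p (2 * s))
    have h15 := norm_add_le (-(((SG z y (2 * s)).re / 4 : ℝ) : ℂ) -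
      I * (((SG z y (2 * s)).im / 2 : ℝ) : ℂ)) (SG z y (2 * s))
    have h16 := norm_sub_le (-(((SG z y (2 * s)).re / 4 : ℝ) : ℂ))
      (I * (((SG z y (2 * s)).im / 2 : ℝ) : ℂ))
    linarith
  have hsig : ∀ s : ℝ, sig z y P s = (((∑ p ∈ primesIoc z y, lam2 p / p) / 4 : ℝ) : ℂ) +
      ((-(((SG z y (2 * s)).re / 4 : ℝ) : ℂ) - I * (((SG z y (2 * s)).im / 2 : ℝ) : ℂ) +
        SG z y (2 * s) - ∑ p ∈ primesIoc z y, npow p (2 * s)) +
        (SG y P (2 * s) - ∑ p ∈ primesIoc y P, npow p (2 * s))) := by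
    intro s
    unfold sig
    rw [DVK_sum_sloc]
    have h5 : ∑ p ∈ primesIoc y P, ((lam2 p - 1 : ℝ) : ℂ) * npow p (2 * s) =
        SG y P (2 * s) - ∑ p ∈ primesIoc y P, npow p (2 * s) := by
      unfold SG
      rw [← Finset.sum_sub_distrib]
      refine sum_congr rfl fun p _ => ?_
      push_cast
      ring
    rw [h5]
    ring
  rw [hsig t, hsig t', add_sub_add_left_eq_sub]
  refine (norm_sub_le _ _).trans ?_
  have h5 := key t h1 h2
  have h6 := key t' h3 h4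
  linarith

theorem DVK_exp_sub_one (w : ℂ) {M : ℝ} (hM : 0 ≤ M) (h : w.re ≤ M) :
    ‖exp w - 1‖ ≤ ‖w‖ * Real.exp M := by
  have h1 : ‖exp w - 1‖ ≤ ‖w‖ * Real.exp (max w.re 0) := by
    have h2 : ∀ x ∈ Set.Ico (0 : ℝ) 1, ‖deriv (fun s : ℝ => exp (s * w)) x‖ ≤
        ‖w‖ * Real.exp (max w.re 0) := by
      intro x hx
      have h3 : HasDerivAt (fun s : ℝ => exp (s * w)) (exp (x * w) * w) x := by
        have h4 : HasDerivAt (fun s : ℝ => (s : ℂ) * w) w x := by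
          simpa using (Complex.ofRealCLM.hasDerivAt (x := x)).mul_const w
        exact h4.cexp
      rw [h3.deriv, norm_mul, Complex.norm_exp, mul_comm]
      refine mul_le_mul_of_nonneg_left (Real.exp_le_exp.2 ?_) (norm_nonneg _)
      rw [Complex.re_ofReal_mul]
      rcases le_total 0 w.re with h5 | h5
      · rw [max_eq_left h5]
        nlinarith [hx.1, hx.2]
      · rw [max_eq_right h5]
        exact mul_nonpos_of_nonneg_of_nonpos hx.1 h5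
    have h6 := norm_image_sub_le_of_norm_deriv_le_segment_01' (f := fun s : ℝ => exp (s * w))
      (f' := fun s : ℝ => exp (s * w) * w) (C := ‖w‖ * Real.exp (max w.re 0)) ?_ ?_
    · simpa using h6
    · intro x hx
      have h4 : HasDerivAt (fun s : ℝ => (s : ℂ) * w) w x := by
        simpa using (Complex.ofRealCLM.hasDerivAt (x := x)).mul_const w
      exact (h4.cexp).hasDerivWithinAt
    · intro x hx
      have := h2 x hx
      have h3 : HasDerivAt (fun s : ℝ => exp (s * w)) (exp (x * w) * w) x := by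
        have h4 : HasDerivAt (fun s : ℝ => (s : ℂ) * w) w x := by
          simpa using (Complex.ofRealCLM.hasDerivAt (x := x)).mul_const w
        exact h4.cexp
      rwa [h3.deriv] at this
  refine h1.trans (mul_le_mul_of_nonneg_left (Real.exp_le_exp.2 ?_) (norm_nonneg _))
  exact max_le h hM

/-! ### the factor `rho` -/

theorem DVK_rho_pos {y P : ℕ} (hy : 1 ≤ y) (hP : 1 ≤ P) (v : ℝ) : 0 < rho y P v := by
  have h1 : 0 ≤ Real.log y := Real.log_nonneg (by exact_mod_cast hy)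
  have h2 : 0 ≤ Real.log P := Real.log_nonneg (by exact_mod_cast hP)
  unfold rho
  positivity

theorem DVK_rho_ge_one {y P : ℕ} (hy : 1 ≤ y) (hP : y ≤ P) {v : ℝ} (hv : |v| ≤ 1) :
    1 ≤ rho y P v := by
  have h1 : 0 ≤ Real.log y := Real.log_nonneg (by exact_mod_cast hy)
  have h2 : Real.log y ≤ Real.log P := Real.log_le_log (by exact_mod_cast hy) (by exact_mod_cast hP)
  have h3 : 0 ≤ |v| := abs_nonneg v
  unfold rho
  rw [one_le_div (by nlinarith [mul_nonneg h3 (h1.trans h2)])]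
  nlinarith [mul_nonneg (sub_nonneg.2 h2) (sub_nonneg.2 hv)]

theorem DVK_rho_le {y P : ℕ} (hP : y ≤ P) {v : ℝ} (hy : 1 ≤ Real.log y)
    (hv : 1 ≤ |v| * Real.log y) (h0 : 0 < y) : rho y P v ≤ 4 := by
  have h2 : Real.log y ≤ Real.log P := Real.log_le_log (by exact_mod_cast h0) (by exact_mod_cast hP)
  have h3 : 0 ≤ |v| := abs_nonneg v
  unfold rho
  have hP1 : 1 ≤ Real.log P := hy.trans h2
  rw [div_le_iff₀ (by nlinarith [mul_nonneg h3 (zero_le_one.trans hP1)])]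
  have h4 : 1 + |v| * Real.log y ≤ 2 * (|v| * Real.log y) := by linarith
  have h5 : 1 + Real.log P ≤ 2 * Real.log P := by linarith
  calc (1 + Real.log P) * (1 + |v| * Real.log y)
      ≤ (2 * Real.log P) * (2 * (|v| * Real.log y)) :=
        mul_le_mul h5 h4 (by linarith) (by linarith)
    _ = 4 * ((|v| * Real.log P) * Real.log y) := by ring
    _ ≤ 4 * ((1 + |v| * Real.log P) * (1 + Real.log y)) := by
        have h6 : 0 ≤ |v| * Real.log P := mul_nonneg h3 (by linarith)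
        nlinarith

/-! ### algebra of the kernel -/

theorem DVK_core {a a' E kA eA eA' : ℂ} {M m m₁ m₂ s s' R q : ℝ} (hM : 1 ≤ M) (hm : 0 ≤ m)
    (hm₁ : 0 ≤ m₁) (hm₂ : 0 ≤ m₂) (hs : 0 ≤ s) (hs' : 0 ≤ s') (hq : 0 ≤ q)
    (ha : ‖a‖ ≤ M) (ha' : ‖a'‖ ≤ M) (h1 : ‖a - 1‖ ≤ M * s) (h1' : ‖a' - 1‖ ≤ M * s')
    (hk : ‖kA - 1‖ ≤ M * m) (he : ‖eA - 1‖ ≤ M * m₁) (he' : ‖eA' - 1‖ ≤ M * m₂)
    (hE : ‖E‖ ≤ M * R) (hE1 : ‖E - 1‖ ≤ M * q) :
    ‖kA * a * (starRingEnd ℂ) a' * E - eA * a - (starRingEnd ℂ) (eA' * a') + 1‖ ≤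
      M ^ 4 * (m * R + q + s * s' + m₁ + m₂) := by
  have hM0 : 0 ≤ M := zero_le_one.trans hM
  have hM2 : M ^ 2 ≤ M ^ 4 := pow_le_pow_right₀ hM (by norm_num)
  have hM3 : M ^ 3 ≤ M ^ 4 := pow_le_pow_right₀ hM (by norm_num)
  have hca : ‖(starRingEnd ℂ) a'‖ ≤ M := by rw [RCLike.norm_conj]; exact ha'
  have hca1 : ‖(starRingEnd ℂ) a' - 1‖ ≤ M * s' := by
    rw [show (starRingEnd ℂ) a' - 1 = (starRingEnd ℂ) (a' - 1) by rw [map_sub, map_one],
      RCLike.norm_conj]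
    exact h1'
  have hdec : kA * a * (starRingEnd ℂ) a' * E - eA * a - (starRingEnd ℂ) (eA' * a') + 1 =
      (kA - 1) * a * (starRingEnd ℂ) a' * E + a * (starRingEnd ℂ) a' * (E - 1) +
        (a - 1) * ((starRingEnd ℂ) a' - 1) - (eA - 1) * a -
        (starRingEnd ℂ) ((eA' - 1) * a') := by
    simp only [map_mul, map_sub, map_one]
    ring
  rw [hdec]
  have b1 : ‖(kA - 1) * a * (starRingEnd ℂ) a' * E‖ ≤ M ^ 4 * (m * R) := by
    rw [norm_mul, norm_mul, norm_mul]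
    calc ‖kA - 1‖ * ‖a‖ * ‖(starRingEnd ℂ) a'‖ * ‖E‖ ≤ (M * m) * M * M * (M * R) := by
          gcongr
      _ = _ := by ring
  have b2 : ‖a * (starRingEnd ℂ) a' * (E - 1)‖ ≤ M ^ 4 * q := by
    rw [norm_mul, norm_mul]
    calc ‖a‖ * ‖(starRingEnd ℂ) a'‖ * ‖E - 1‖ ≤ M * M * (M * q) := by gcongr
      _ = M ^ 3 * q := by ring
      _ ≤ _ := mul_le_mul_of_nonneg_right hM3 hq
  have b3 : ‖(a - 1) * ((starRingEnd ℂ) a' - 1)‖ ≤ M ^ 4 * (s * s') := by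
    rw [norm_mul]
    calc ‖a - 1‖ * ‖(starRingEnd ℂ) a' - 1‖ ≤ (M * s) * (M * s') := by gcongr
      _ = M ^ 2 * (s * s') := by ring
      _ ≤ _ := mul_le_mul_of_nonneg_right hM2 (mul_nonneg hs hs')
  have b4 : ‖(eA - 1) * a‖ ≤ M ^ 4 * m₁ := by
    rw [norm_mul]
    calc ‖eA - 1‖ * ‖a‖ ≤ (M * m₁) * M := by gcongr
      _ = M ^ 2 * m₁ := by ring
      _ ≤ _ := mul_le_mul_of_nonneg_right hM2 hm₁
  have b5 : ‖(starRingEnd ℂ) ((eA' - 1) * a')‖ ≤ M ^ 4 * m₂ := by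
    rw [RCLike.norm_conj, norm_mul]
    calc ‖eA' - 1‖ * ‖a'‖ ≤ (M * m₂) * M := by gcongr
      _ = M ^ 2 * m₂ := by ring
      _ ≤ _ := mul_le_mul_of_nonneg_right hM2 hm₂
  have c1 := norm_sub_le ((kA - 1) * a * (starRingEnd ℂ) a' * E +
    a * (starRingEnd ℂ) a' * (E - 1) + (a - 1) * ((starRingEnd ℂ) a' - 1) - (eA - 1) * a)
    ((starRingEnd ℂ) ((eA' - 1) * a'))
  have c2 := norm_sub_le ((kA - 1) * a * (starRingEnd ℂ) a' * E +
    a * (starRingEnd ℂ) a' * (E - 1) + (a - 1) * ((starRingEnd ℂ) a' - 1)) ((eA - 1) * a)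
  have c3 := norm_add_le ((kA - 1) * a * (starRingEnd ℂ) a' * E +
    a * (starRingEnd ℂ) a' * (E - 1)) ((a - 1) * ((starRingEnd ℂ) a' - 1))
  have c4 := norm_add_le ((kA - 1) * a * (starRingEnd ℂ) a' * E)
    (a * (starRingEnd ℂ) a' * (E - 1))
  linarith

theorem DVK_algebra (kA eA eA' σ σ' σ₀ ε ε' ε₀ κ w : ℂ) :
    kA * exp (σ + (starRingEnd ℂ) σ' + w + κ) -
      (starRingEnd ℂ) (exp (σ₀ + ε₀)) * (eA * exp (σ + ε)) -
      exp (σ₀ + ε₀) * (starRingEnd ℂ) (eA' * exp (σ' + ε')) +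
      exp (σ₀ + ε₀) * (starRingEnd ℂ) (exp (σ₀ + ε₀)) =
    exp (σ₀ + ε₀) * (starRingEnd ℂ) (exp (σ₀ + ε₀)) *
      (kA * exp (σ - σ₀ + (ε - ε₀)) * (starRingEnd ℂ) (exp (σ' - σ₀ + (ε' - ε₀))) *
        exp (w + κ - ε - (starRingEnd ℂ) ε') - eA * exp (σ - σ₀ + (ε - ε₀)) -
        (starRingEnd ℂ) (eA' * exp (σ' - σ₀ + (ε' - ε₀))) + 1) := by
  have h1 : exp (σ + ε) = exp (σ₀ + ε₀) * exp (σ - σ₀ + (ε - ε₀)) := by
    rw [← Complex.exp_add]
    congr 1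
    ring
  have h2 : exp (σ' + ε') = exp (σ₀ + ε₀) * exp (σ' - σ₀ + (ε' - ε₀)) := by
    rw [← Complex.exp_add]
    congr 1
    ring
  have h3 : exp (σ + (starRingEnd ℂ) σ' + w + κ) =
      exp (σ₀ + ε₀) * (starRingEnd ℂ) (exp (σ₀ + ε₀)) * exp (σ - σ₀ + (ε - ε₀)) *
        (starRingEnd ℂ) (exp (σ' - σ₀ + (ε' - ε₀))) *
        exp (w + κ - ε - (starRingEnd ℂ) ε') := by
    rw [← Complex.exp_conj, ← Complex.exp_conj, ← Complex.exp_add, ← Complex.exp_add,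
      ← Complex.exp_add, ← Complex.exp_add]
    congr 1
    simp only [map_add, map_sub]
    ring
  rw [h1, h2, h3]
  simp only [map_mul]
  ring

/-- factorisation of the covariance -/
theorem DVK_factor {z₁ z y P : ℕ} (h1 : z₁ ≤ z) (hzy : z ≤ y) (hyP : y ≤ P) (t t' t₀ : ℝ)
    (C₀ : ℂ) :
    RA P (fun D => (EX z₁ z y P D t t₀ - C₀) * (starRingEnd ℂ) (EX z₁ z y P D t' t₀ - C₀)) =
      RA P (fun D => DVK_A z₁ t t₀ D * (starRingEnd ℂ) (DVK_A z₁ t' t₀ D)) *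
        RA P (fun D => DVK_B z y t D * (starRingEnd ℂ) (DVK_B z y t' D)) *
        RA P (fun D => LP y P D t * (starRingEnd ℂ) (LP y P D t')) -
      (starRingEnd ℂ) C₀ * (RA P (DVK_A z₁ t t₀) * RA P (DVK_B z y t) *
        RA P (fun D => LP y P D t)) -
      C₀ * (starRingEnd ℂ) (RA P (DVK_A z₁ t' t₀) * RA P (DVK_B z y t') *
        RA P (fun D => LP y P D t')) + C₀ * (starRingEnd ℂ) C₀ := by
  have hEX : ∀ s : ℝ, RA P (fun D => EX z₁ z y P D s t₀) =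
      RA P (DVK_A z₁ s t₀) * RA P (DVK_B z y s) * RA P (fun D => LP y P D s) := by
    intro s
    simp only [DVK_EX]
    exact DVK_three hzy hyP (DVK_A z₁ s t₀) (DVK_B z y s) (fun D => LP y P D s)
      (DVK_A_period h1 s t₀) (DVK_A_period (h1.trans hzy) s t₀) (DVK_B_period' z y s)
      (DVK_B_period le_rfl s) (fun D => LP_period' y P D s)
  have hEE : RA P (fun D => EX z₁ z y P D t t₀ * (starRingEnd ℂ) (EX z₁ z y P D t' t₀)) =
      RA P (fun D => DVK_A z₁ t t₀ D * (starRingEnd ℂ) (DVK_A z₁ t' t₀ D)) *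
        RA P (fun D => DVK_B z y t D * (starRingEnd ℂ) (DVK_B z y t' D)) *
        RA P (fun D => LP y P D t * (starRingEnd ℂ) (LP y P D t')) := by
    rw [← DVK_three hzy hyP (fun D => DVK_A z₁ t t₀ D * (starRingEnd ℂ) (DVK_A z₁ t' t₀ D))
      (fun D => DVK_B z y t D * (starRingEnd ℂ) (DVK_B z y t' D))
      (fun D => LP y P D t * (starRingEnd ℂ) (LP y P D t'))]
    · congr 1
      funext D
      rw [DVK_EX, DVK_EX, map_mul, map_mul]
      ring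
    · intro D
      simp only [DVK_A_period h1]
    · intro D
      simp only [DVK_A_period (h1.trans hzy)]
    · intro D
      simp only [DVK_B_period']
    · intro D
      simp only [DVK_B_period (le_refl y)]
    · intro D
      simp only [LP_period']
  have h2 : (fun D => (EX z₁ z y P D t t₀ - C₀) *
      (starRingEnd ℂ) (EX z₁ z y P D t' t₀ - C₀)) =
      fun D => (((EX z₁ z y P D t t₀ * (starRingEnd ℂ) (EX z₁ z y P D t' t₀)) -
        (starRingEnd ℂ) C₀ * EX z₁ z y P D t t₀) -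
        C₀ * (starRingEnd ℂ) (EX z₁ z y P D t' t₀)) + C₀ * (starRingEnd ℂ) C₀ := by
    funext D
    rw [map_sub]
    ring
  rw [h2, DVK_RA_add, DVK_RA_sub, DVK_RA_sub, DVK_RA_const, DVK_RA_mul, DVK_RA_mul, DVK_RA_conj,
    hEE, hEX, hEX]

theorem DVK_KB_exponent (z y : ℕ) (t t' : ℝ) :
    ∑ p ∈ primesIoc z y, (sloc p t + (starRingEnd ℂ) (sloc p t') +
        ((lam2 p / 2 * (Real.cos ((t - t') * Real.log p) + Real.cos ((t + t') * Real.log p)) / p : ℝ)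
          : ℂ)) =
      ∑ p ∈ primesIoc z y, sloc p t + (starRingEnd ℂ) (∑ p ∈ primesIoc z y, sloc p t') +
        ((SBr z y (t - t') / 2 + SBr z y (t + t') / 2 : ℝ) : ℂ) := by
  rw [Finset.sum_add_distrib, Finset.sum_add_distrib, map_sum]
  congr 1
  unfold SBr
  rw [← add_div, ← Finset.sum_add_distrib, Finset.sum_div, Complex.ofReal_sum]
  refine sum_congr rfl fun p _ => ?_
  congr 1
  ring

theorem DVK_KG_exponent (y P : ℕ) (t t' : ℝ) :
    ∑ p ∈ primesIoc y P, (((lam2 p - 1 : ℝ) : ℂ) * (npow p (2 * t) +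
        (starRingEnd ℂ) (npow p (2 * t'))) + ((lam2 p : ℝ) : ℂ) * npow p (t - t')) =
      ∑ p ∈ primesIoc y P, ((lam2 p - 1 : ℝ) : ℂ) * npow p (2 * t) +
        (starRingEnd ℂ) (∑ p ∈ primesIoc y P, ((lam2 p - 1 : ℝ) : ℂ) * npow p (2 * t')) +
        SG y P (t - t') := by
  unfold SG
  rw [map_sum, ← Finset.sum_add_distrib, ← Finset.sum_add_distrib]
  refine sum_congr rfl fun p _ => ?_
  rw [map_mul, Complex.conj_ofReal]
  ring

theorem DVK_num1 {x i CE CA : ℝ} (hx : 0 ≤ x) (hi : 0 ≤ i) (hCE : 0 ≤ CE) (hCA : 0 ≤ CA) :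
    x + 4 * CE * i ≤ (3 + CA + 6 * CE) * (x + i) := by
  nlinarith [mul_nonneg hCE hx, mul_nonneg hCE hi, mul_nonneg hCA hx, mul_nonneg hCA hi]

theorem DVK_num2 {x i CE CA q : ℝ} (hi : 0 ≤ i) (hCE : 0 ≤ CE) (hCA : 0 ≤ CA) (hq : i ≤ q)
    (hx : x ≤ q + 6 * CE * i) : x ≤ (3 + CA + 6 * CE) * q := by
  nlinarith [mul_nonneg hCE (sub_nonneg.2 hq), mul_nonneg hCA (hi.trans hq)]

theorem DVK_num3 {G R : ℝ} (hG : 1 ≤ G) (hR : 1 ≤ R) : G * R + 1 ≤ 2 * G * R := by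
  nlinarith

theorem DVK_num4 {v l : ℝ} (hv : 0 ≤ v) (hl : 1 ≤ l) (h : v * l < 1) : v ≤ 1 := by
  nlinarith

/-- the covariance kernel; the exponent `C₀` does not depend on `T₁`, `T₂` -/
theorem D_kernel_unif : ∃ C₀ : ℝ, 0 < C₀ ∧ ∀ (T₁ T₂ : ℝ), 0 < T₁ → ∃ C : ℝ, 0 < C ∧
    ∀ (t₀ t t' : ℝ) (z₁ z y P : ℕ),
    T₁ ≤ t₀ → t₀ ≤ T₂ → |t - t₀| ≤ T₁ / 2 → |t' - t₀| ≤ T₁ / 2 → z0 ≤ z₁ → z₁ ≤ z → z ≤ y → y ≤ P →
    ‖RA P (fun D => (EX z₁ z y P D t t₀ - RA P (fun D' => EX z₁ z y P D' t₀ t₀)) *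
      (starRingEnd ℂ) (EX z₁ z y P D t' t₀ - RA P (fun D' => EX z₁ z y P D' t₀ t₀)))‖ ≤
      C * ‖RA P (fun D' => EX z₁ z y P D' t₀ t₀)‖ ^ 2 * Qk C₀ z₁ z y P t₀ t t' := by
  obtain ⟨CA, hCA0, hCA⟩ := DVK_A_cov
  refine ⟨CA + 1, by linarith, fun T₁ T₂ hT => ?_⟩
  obtain ⟨CB, hB⟩ := e_B
  obtain ⟨CKB, hKB⟩ := K_B
  obtain ⟨CG, hG⟩ := e_G
  obtain ⟨CKG, hKG⟩ := K_G
  obtain ⟨C3, h3⟩ := PS3 T₁ (2 * T₂ + T₁) hT
  obtain ⟨C2, h2⟩ := PS2
  obtain ⟨Cs, hCs0, hCs⟩ := DVK_sig_bounded (T₁ / 2) (T₂ + T₁ / 2) (by linarith)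
  obtain ⟨CE, hCE⟩ : ∃ CE : ℝ, CE = |CB| + |CKB| + |CG| + |CKG| := ⟨_, rfl⟩
  have hCE0 : 0 ≤ CE := by rw [hCE]; positivity
  obtain ⟨F3, hF3⟩ : ∃ F3 : ℝ, F3 = |C3| := ⟨_, rfl⟩
  have hF30 : 0 ≤ F3 := by rw [hF3]; positivity
  obtain ⟨F2, hF2⟩ : ∃ F2 : ℝ, F2 = |C2| * (1 + Real.log (2 + T₁)) := ⟨_, rfl⟩
  have hlogT : 0 ≤ Real.log (2 + T₁) := Real.log_nonneg (by linarith)
  have hF20 : 0 ≤ F2 := by rw [hF2]; positivity
  obtain ⟨G, hGdef⟩ : ∃ G : ℝ, G = Cs + 2 * F2 + F3 + 6 * CE + 2 * Real.log 4 + 1 := ⟨_, rfl⟩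
  have hlog4 : 0 ≤ Real.log 4 := Real.log_nonneg (by norm_num)
  have hG1 : 1 ≤ G := by rw [hGdef]; linarith
  obtain ⟨M, hMdef⟩ : ∃ M : ℝ, M = (3 + CA + 6 * CE) * Real.exp G := ⟨_, rfl⟩
  have hexpG : 1 ≤ Real.exp G := Real.one_le_exp (by linarith)
  have hM3 : 3 + CA + 6 * CE ≤ M := by
    rw [hMdef]
    exact le_mul_of_one_le_right (by linarith) hexpG
  have hM1 : 1 ≤ M := by linarith
  have hexpM : Real.exp G ≤ M := by
    rw [hMdef]
    exact le_mul_of_one_le_left (Real.exp_pos G).le (by linarith)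
  refine ⟨M ^ 4, by positivity, fun t₀ t t' z₁ z y P ht₀ ht₀' ht ht' hz₁ hz hzy hyP => ?_⟩
  -- sizes
  have hz0 : z0 ≤ z := hz₁.trans hz
  have hz0' : (10000 : ℕ) ≤ z := hz0
  have hz1 : 1 ≤ z := by omega
  have hz11 : 1 ≤ z₁ := by have : (10000 : ℕ) ≤ z₁ := hz₁; omega
  have hy1 : 1 ≤ y := hz1.trans hzy
  have hzP : z ≤ P := hzy.trans hyP
  have hzr : (1 : ℝ) ≤ z := by exact_mod_cast hz1
  have hzpos : (0 : ℝ) < z := by linarith
  have hzyr : (z : ℝ) ≤ y := by exact_mod_cast hzy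
  have hlogz : 1 ≤ Real.log z := by
    rw [Real.le_log_iff_exp_le hzpos]
    have h5 : (10000 : ℝ) ≤ z := by exact_mod_cast hz0'
    have := Real.exp_one_lt_d9
    linarith
  have hlogy : 1 ≤ Real.log y := hlogz.trans (Real.log_le_log hzpos hzyr)
  have hizle : (1 : ℝ) / z ≤ 1 := by rw [div_le_one hzpos]; exact hzr
  have hiz0 : (0 : ℝ) ≤ 1 / z := by positivity
  have hEz : ∀ {c x : ℝ}, c ≤ CE → x ≤ c / z → x ≤ CE * (1 / z) := by
    intro c x hc hx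
    refine hx.trans ?_
    rw [mul_one_div]
    exact div_le_div_of_nonneg_right hc hzpos.le
  have hEy : ∀ {c x : ℝ}, c ≤ CE → x ≤ c / y → x ≤ CE * (1 / z) := by
    intro c x hc hx
    refine hx.trans ?_
    rw [mul_one_div]
    calc c / y ≤ CE / y := div_le_div_of_nonneg_right hc (by positivity)
      _ ≤ CE / z := div_le_div_of_nonneg_left hCE0 hzpos hzyr
  have hcB : CB ≤ CE := by
    rw [hCE]
    linarith [le_abs_self CB, abs_nonneg CKB, abs_nonneg CG, abs_nonneg CKG]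
  have hcKB : CKB ≤ CE := by
    rw [hCE]
    linarith [le_abs_self CKB, abs_nonneg CB, abs_nonneg CG, abs_nonneg CKG]
  have hcG : CG ≤ CE := by
    rw [hCE]
    linarith [le_abs_self CG, abs_nonneg CKB, abs_nonneg CB, abs_nonneg CKG]
  have hcKG : CKG ≤ CE := by
    rw [hCE]
    linarith [le_abs_self CKG, abs_nonneg CKB, abs_nonneg CG, abs_nonneg CB]
  -- means of the blocks
  have hmean : ∀ s : ℝ, ∃ ε : ℂ, ‖ε‖ ≤ 2 * CE * (1 / z) ∧
      RA P (DVK_B z y s) * RA P (fun D => LP y P D s) = exp (sig z y P s + ε) := by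
    intro s
    obtain ⟨E₁, hE₁, hE₁'⟩ := hB z y P s hz0 hzy hyP
    obtain ⟨E₂, hE₂, hE₂'⟩ := hG y P s (hz0.trans hzy) hyP
    refine ⟨E₁ + E₂, ?_, ?_⟩
    · have h5 := hEz hcB hE₁
      have h6 := hEy hcG hE₂
      have h7 := norm_add_le E₁ E₂
      linarith
    · have h5 : RA P (DVK_B z y s) = exp ((∑ p ∈ primesIoc z y, sloc p s) + E₁) := hE₁'
      rw [h5, hE₂', ← Complex.exp_add]
      congr 1
      unfold sig
      ring
  obtain ⟨ε, hε, hmt⟩ := hmean t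
  obtain ⟨ε', hε', hmt'⟩ := hmean t'
  obtain ⟨ε₀, hε₀, hmt₀⟩ := hmean t₀
  obtain ⟨κ₁, hκ₁, hkB⟩ := hKB z y P t t' hz0 hzy hyP
  obtain ⟨κ₂, hκ₂, hkG⟩ := hKG y P t t' (hz0.trans hzy) hyP
  rw [DVK_KB_exponent] at hkB
  rw [DVK_KG_exponent] at hkG
  obtain ⟨σ, hσ⟩ : ∃ σ : ℂ, σ = sig z y P t := ⟨_, rfl⟩
  obtain ⟨σ', hσ'⟩ : ∃ σ' : ℂ, σ' = sig z y P t' := ⟨_, rfl⟩
  obtain ⟨σ₀, hσ₀⟩ : ∃ σ₀ : ℂ, σ₀ = sig z y P t₀ := ⟨_, rfl⟩
  obtain ⟨w, hw⟩ : ∃ w : ℂ, w = ((SBr z y (t - t') / 2 + SBr z y (t + t') / 2 : ℝ) : ℂ) +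
    SG y P (t - t') := ⟨_, rfl⟩
  have hkk : RA P (fun D => DVK_B z y t D * (starRingEnd ℂ) (DVK_B z y t' D)) *
      RA P (fun D => LP y P D t * (starRingEnd ℂ) (LP y P D t')) =
      exp (σ + (starRingEnd ℂ) σ' + w + (κ₁ + κ₂)) := by
    have h5 : RA P (fun D => DVK_B z y t D * (starRingEnd ℂ) (DVK_B z y t' D)) = _ := hkB
    rw [h5, hkG, ← Complex.exp_add, hσ, hσ', hw]
    congr 1
    unfold sig
    simp only [map_add]
    ring
  -- the mean at the centre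
  have hA0 : RA P (DVK_A z₁ t₀ t₀) = 1 := by
    have h5 := (hCA z₁ P t₀ t₀ t₀ hz11 (hz.trans hzP)).1
    have h6 : mm z₁ CA (t₀ - t₀) = 0 := by unfold mm; simp
    rw [h6, mul_zero] at h5
    exact sub_eq_zero.1 (norm_le_zero_iff.1 h5)
  have hC₀ : RA P (fun D' => EX z₁ z y P D' t₀ t₀) = exp (σ₀ + ε₀) := by
    have h5 : (fun D' => EX z₁ z y P D' t₀ t₀) =
        fun D' => DVK_A z₁ t₀ t₀ D' * DVK_B z y t₀ D' * LP y P D' t₀ := by
      funext D'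
      exact DVK_EX z₁ z y P D' t₀ t₀
    rw [h5, DVK_three hzy hyP (DVK_A z₁ t₀ t₀) (DVK_B z y t₀) (fun D => LP y P D t₀)
      (DVK_A_period hz t₀ t₀) (DVK_A_period (hz.trans hzy) t₀ t₀) (DVK_B_period' z y t₀)
      (DVK_B_period le_rfl t₀) (fun D => LP_period' y P D t₀), hA0, one_mul, hmt₀, hσ₀]
  rw [hC₀, DVK_factor hz hzy hyP, mul_assoc (RA P (fun D => DVK_A z₁ t t₀ D * _)),
    mul_assoc (RA P (DVK_A z₁ t t₀)), mul_assoc (RA P (DVK_A z₁ t' t₀)), hkk, hmt, hmt', ← hσ,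
    ← hσ', DVK_algebra, norm_mul, norm_mul, RCLike.norm_conj, ← sq]
  -- bounds
  obtain ⟨a, ha⟩ : ∃ a : ℂ, a = exp (σ - σ₀ + (ε - ε₀)) := ⟨_, rfl⟩
  obtain ⟨a', ha'⟩ : ∃ a' : ℂ, a' = exp (σ' - σ₀ + (ε' - ε₀)) := ⟨_, rfl⟩
  obtain ⟨E, hE⟩ : ∃ E : ℂ, E = exp (w + (κ₁ + κ₂) - ε - (starRingEnd ℂ) ε') := ⟨_, rfl⟩
  rw [← ha, ← ha', ← hE]
  have ht1 := abs_le.1 ht
  have ht1' := abs_le.1 ht'
  have hσσ : ‖σ - σ₀‖ ≤ Cs := by
    rw [hσ, hσ₀]
    exact hCs z y P t t₀ hz1 hzy hyP (by linarith) (by linarith) (by linarith) (by linarith)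
  have hσσ' : ‖σ' - σ₀‖ ≤ Cs := by
    rw [hσ', hσ₀]
    exact hCs z y P t' t₀ hz1 hzy hyP (by linarith) (by linarith) (by linarith) (by linarith)
  have hwa : ∀ (x e : ℂ), ‖x‖ ≤ Cs → ‖e‖ ≤ 2 * CE * (1 / z) →
      ‖exp (x + (e - ε₀))‖ ≤ M ∧ ‖exp (x + (e - ε₀)) - 1‖ ≤ M * (‖x‖ + 1 / z) := by
    intro x e hx he
    have h5 : ‖x + (e - ε₀)‖ ≤ ‖x‖ + 4 * CE * (1 / z) := by
      have h6 := norm_add_le x (e - ε₀)
      have h7 := norm_sub_le e ε₀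
      linarith
    have h8 : ‖x + (e - ε₀)‖ ≤ G := by
      have h9 : 4 * CE * (1 / z) ≤ 4 * CE * 1 := mul_le_mul_of_nonneg_left hizle (by linarith)
      rw [hGdef]
      linarith
    have h10 : (x + (e - ε₀)).re ≤ G := (Complex.re_le_norm _).trans h8
    constructor
    · rw [Complex.norm_exp]
      exact (Real.exp_le_exp.2 h10).trans hexpM
    · refine (DVK_exp_sub_one _ (by linarith) h10).trans ?_
      have h11 : ‖x‖ + 4 * CE * (1 / z) ≤ (3 + CA + 6 * CE) * (‖x‖ + 1 / z) :=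
        DVK_num1 (norm_nonneg x) hiz0 hCE0 hCA0
      calc ‖x + (e - ε₀)‖ * Real.exp G ≤ ((3 + CA + 6 * CE) * (‖x‖ + 1 / z)) * Real.exp G :=
            mul_le_mul_of_nonneg_right (h5.trans h11) (Real.exp_pos G).le
        _ = M * (‖x‖ + 1 / z) := by rw [hMdef]; ring
  obtain ⟨ha1, ha2⟩ := hwa (σ - σ₀) ε hσσ hε
  obtain ⟨ha1', ha2'⟩ := hwa (σ' - σ₀) ε' hσσ' hε'
  rw [← ha] at ha1 ha2
  rw [← ha'] at ha1' ha2'
  -- the mixed factor
  have hv : |t - t'| ≤ T₁ := by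
    rw [abs_le]
    constructor <;> linarith
  have hSs : |SBr z y (t + t')| ≤ F3 := by
    rw [← DVK_SG_re]
    refine (Complex.abs_re_le_norm _).trans (((h3 z y (t + t') hz1 hzy (by linarith)
      (by linarith)).2).trans ?_)
    rw [hF3]
    exact le_abs_self C3
  have hSv : ∀ (u V : ℕ), 1 ≤ u → u ≤ V → SBr u V (t - t') ≤ Real.log (rho u V (t - t')) + F2 := by
    intro u V hu huV
    have h5 := (abs_le.1 (h2 u V (t - t') hu huV)).2
    have h6 : C2 * (1 + Real.log (2 + |t - t'|)) ≤ F2 := by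
      rw [hF2]
      have h7 : Real.log (2 + |t - t'|) ≤ Real.log (2 + T₁) :=
        Real.log_le_log (by positivity) (by linarith)
      have h8 : 0 ≤ Real.log (2 + |t - t'|) :=
        Real.log_nonneg (by linarith [abs_nonneg (t - t')])
      calc C2 * (1 + Real.log (2 + |t - t'|)) ≤ |C2| * (1 + Real.log (2 + |t - t'|)) :=
            mul_le_mul_of_nonneg_right (le_abs_self C2) (by linarith)
        _ ≤ _ := mul_le_mul_of_nonneg_left (by linarith) (abs_nonneg C2)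
    have h9 : SBr u V (t - t') = ∑ p ∈ primesIoc u V, lam2 p * Real.cos ((t - t') * Real.log p) / p :=
      rfl
    rw [h9]
    linarith
  obtain ⟨e, he⟩ : ∃ e : ℂ, e = (κ₁ + κ₂) - ε - (starRingEnd ℂ) ε' := ⟨_, rfl⟩
  have hen : ‖e‖ ≤ 6 * CE * (1 / z) := by
    have h5 := hEz hcKB hκ₁
    have h6 := hEy hcKG hκ₂
    have h7 := norm_add_le κ₁ κ₂
    have h8 := norm_sub_le (κ₁ + κ₂) ε
    have h9 := norm_sub_le (κ₁ + κ₂ - ε) ((starRingEnd ℂ) ε')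
    rw [RCLike.norm_conj] at h9
    rw [he]
    linarith
  have hen1 : ‖e‖ ≤ 6 * CE := by
    refine hen.trans ?_
    calc 6 * CE * (1 / z) ≤ 6 * CE * 1 := mul_le_mul_of_nonneg_left hizle (by linarith)
      _ = 6 * CE := mul_one _
  have hWe : w + (κ₁ + κ₂) - ε - (starRingEnd ℂ) ε' = w + e := by rw [he]; ring
  have hWre : (w + e).re = SBr z y (t - t') / 2 + SBr z y (t + t') / 2 + SBr y P (t - t') + e.re := by
    rw [hw, Complex.add_re, Complex.add_re, Complex.ofReal_re, DVK_SG_re]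
  obtain ⟨R, hR⟩ : ∃ R : ℝ, R = (rho z y (t - t')) ^ (1 / 2 : ℝ) * rho y P (t - t') := ⟨_, rfl⟩
  have hr1 := DVK_rho_pos hz1 hy1 (t - t')
  have hr2 := DVK_rho_pos hy1 (hy1.trans hyP) (t - t')
  have hR0 : 0 < R := by rw [hR]; positivity
  have hER : ‖E‖ ≤ Real.exp G * R := by
    rw [hE, hWe, Complex.norm_exp, hR, Real.rpow_def_of_pos hr1]
    have h5 : rho y P (t - t') = Real.exp (Real.log (rho y P (t - t'))) :=
      (Real.exp_log hr2).symm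
    rw [h5, ← Real.exp_add, ← Real.exp_add]
    apply Real.exp_le_exp.2
    rw [hWre]
    have h6 := hSv z y hz1 hzy
    have h7 := hSv y P hy1 hyP
    have h8 := (abs_le.1 hSs).2
    have h9 := (Complex.re_le_norm e).trans hen1
    rw [hGdef]
    linarith
  obtain ⟨q, hq⟩ : ∃ q : ℝ, q = (if |t - t'| * Real.log z < 1 then R else
    |SBr z y (t - t')| + ‖SG y P (t - t')‖) + |SBr z y (t + t')| + 1 / z := ⟨_, rfl⟩
  have hq0 : 0 ≤ q := by
    rw [hq]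
    have h5 : 0 ≤ (if |t - t'| * Real.log z < 1 then R else
      |SBr z y (t - t')| + ‖SG y P (t - t')‖) := by
      split_ifs
      · exact hR0.le
      · positivity
    positivity
  have hE1 : ‖E - 1‖ ≤ M * q := by
    by_cases hcase : |t - t'| * Real.log z < 1
    · have h5 : |t - t'| ≤ 1 := DVK_num4 (abs_nonneg _) hlogz hcase
      have h6 : 1 ≤ R := by
        rw [hR]
        have h7 := DVK_rho_ge_one hz1 hzy h5
        have h8 := DVK_rho_ge_one hy1 hyP h5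
        exact one_le_mul_of_one_le_of_one_le (Real.one_le_rpow h7 (by norm_num)) h8
      have h9 : R ≤ q := by
        rw [hq, if_pos hcase]
        linarith [abs_nonneg (SBr z y (t + t'))]
      calc ‖E - 1‖ ≤ ‖E‖ + ‖(1 : ℂ)‖ := norm_sub_le _ _
        _ ≤ Real.exp G * R + 1 := by rw [norm_one]; linarith
        _ ≤ 2 * Real.exp G * R := DVK_num3 hexpG h6
        _ ≤ M * R := by
            refine mul_le_mul_of_nonneg_right ?_ hR0.le
            rw [hMdef]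
            exact mul_le_mul_of_nonneg_right (by linarith) (Real.exp_pos G).le
        _ ≤ M * q := mul_le_mul_of_nonneg_left h9 (by linarith)
    · have hc1 : 1 ≤ |t - t'| * Real.log z := not_lt.1 hcase
      have hc2 : 1 ≤ |t - t'| * Real.log y := by
        refine hc1.trans (mul_le_mul_of_nonneg_left (Real.log_le_log hzpos hzyr) (abs_nonneg _))
      have h5 := DVK_rho_le hzy hlogz hc1 hz1
      have h6 := DVK_rho_le hyP hlogy hc2 hy1
      have h7 := Real.log_le_log hr1 h5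
      have h8 := Real.log_le_log hr2 h6
      have h9 : (w + e).re ≤ G := by
        rw [hWre]
        have h10 := hSv z y hz1 hzy
        have h11 := hSv y P hy1 hyP
        have h12 := (abs_le.1 hSs).2
        have h13 := (Complex.re_le_norm e).trans hen1
        rw [hGdef]
        linarith
      rw [hE, hWe]
      refine (DVK_exp_sub_one _ (by linarith) h9).trans ?_
      have h14 : ‖w + e‖ ≤ (3 + CA + 6 * CE) * q := by
        have h15 := norm_add_le w e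
        have h16 : ‖w‖ ≤ |SBr z y (t - t')| / 2 + |SBr z y (t + t')| / 2 +
            ‖SG y P (t - t')‖ := by
          rw [hw]
          refine (norm_add_le _ _).trans ?_
          rw [Complex.norm_real, Real.norm_eq_abs]
          have h17 := abs_add_le (SBr z y (t - t') / 2) (SBr z y (t + t') / 2)
          rw [abs_div, abs_div, abs_of_pos (by norm_num : (0:ℝ) < 2)] at h17
          linarith
        have h18 : q = |SBr z y (t - t')| + ‖SG y P (t - t')‖ + |SBr z y (t + t')| + 1 / z := by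
          rw [hq, if_neg hcase]
        have h19 : ‖w + e‖ ≤ q + 6 * CE * (1 / z) := by
          rw [h18]
          have := abs_nonneg (SBr z y (t - t'))
          have := abs_nonneg (SBr z y (t + t'))
          linarith
        have h20 : 1 / (z : ℝ) ≤ q := by
          rw [h18]
          have := abs_nonneg (SBr z y (t - t'))
          have := abs_nonneg (SBr z y (t + t'))
          have := norm_nonneg (SG y P (t - t'))
          linarith
        exact DVK_num2 hiz0 hCE0 hCA0 h20 h19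
      calc ‖w + e‖ * Real.exp G ≤ ((3 + CA + 6 * CE) * q) * Real.exp G :=
            mul_le_mul_of_nonneg_right h14 (Real.exp_pos G).le
        _ = M * q := by rw [hMdef]; ring
  -- the small block
  obtain ⟨hk1, hk2⟩ := hCA z₁ P t t' t₀ hz11 (hz.trans hzP)
  have hk3 := (hCA z₁ P t' t' t₀ hz11 (hz.trans hzP)).1
  have hm1 := DVK_mm_nonneg hz11 CA (t - t₀)
  have hm2 := DVK_mm_nonneg hz11 CA (t' - t₀)
  have hCAM : CA ≤ M := by linarith
  have hcore := DVK_core hM1 (add_nonneg hm1 hm2) hm1 hm2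
    (add_nonneg (norm_nonneg (σ - σ₀)) hiz0) (add_nonneg (norm_nonneg (σ' - σ₀)) hiz0)
    hq0 ha1 ha1' ha2 ha2'
    (hk2.trans (mul_le_mul_of_nonneg_right hCAM (add_nonneg hm1 hm2)))
    (hk1.trans (mul_le_mul_of_nonneg_right hCAM hm1))
    (hk3.trans (mul_le_mul_of_nonneg_right hCAM hm2))
    (hER.trans (mul_le_mul_of_nonneg_right hexpM hR0.le)) hE1
  have hCAM4 : CA ≤ CA + 1 := by linarith
  have hmm1 := DVK_mm_mono hz11 hCAM4 (t - t₀)
  have hmm2 := DVK_mm_mono hz11 hCAM4 (t' - t₀)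
  have hQ : (mm z₁ CA (t - t₀) + mm z₁ CA (t' - t₀)) * R + q +
      (‖σ - σ₀‖ + 1 / z) * (‖σ' - σ₀‖ + 1 / z) + mm z₁ CA (t - t₀) + mm z₁ CA (t' - t₀) ≤
      Qk (CA + 1) z₁ z y P t₀ t t' := by
    unfold Qk
    rw [← hσ, ← hσ', ← hσ₀, ← hR, hq]
    have h5 : (mm z₁ CA (t - t₀) + mm z₁ CA (t' - t₀)) * R ≤
        (mm z₁ (CA + 1) (t - t₀) + mm z₁ (CA + 1) (t' - t₀)) * R :=
      mul_le_mul_of_nonneg_right (add_le_add hmm1 hmm2) hR0.le
    by_cases hcase : |t - t'| * Real.log z < 1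
    · simp only [if_pos hcase]
      linarith
    · simp only [if_neg hcase]
      linarith
  calc ‖exp (σ₀ + ε₀)‖ ^ 2 * _ ≤ ‖exp (σ₀ + ε₀)‖ ^ 2 * (M ^ 4 * Qk (CA + 1) z₁ z y P t₀ t t') := by
        refine mul_le_mul_of_nonneg_left (hcore.trans ?_) (by positivity)
        exact mul_le_mul_of_nonneg_left hQ (by positivity)
    _ = _ := by ring

theorem DVK_Qk_mono {C C' : ℝ} (h : C ≤ C') {z₁ z y P : ℕ} (hz₁ : 1 ≤ z₁) (hz : 1 ≤ z)
    (hzy : z ≤ y) (hyP : y ≤ P) (t₀ t t' : ℝ) :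
    Qk C z₁ z y P t₀ t t' ≤ Qk C' z₁ z y P t₀ t t' := by
  have hy : 1 ≤ y := hz.trans hzy
  have h1 := DVK_mm_mono hz₁ h (t - t₀)
  have h2 := DVK_mm_mono hz₁ h (t' - t₀)
  have h3 : 0 ≤ (rho z y (t - t')) ^ (1 / 2 : ℝ) * rho y P (t - t') :=
    mul_nonneg (Real.rpow_nonneg (DVK_rho_pos hz hy _).le _) (DVK_rho_pos hy (hy.trans hyP) _).le
  have h4 := mul_le_mul_of_nonneg_right (add_le_add_left (add_le_add h1 h2)
    (if |t - t'| * Real.log z < 1 then (1 : ℝ) else 0)) h3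
  unfold Qk
  linarith

/-- the covariance kernel -/
theorem D_kernel (T₁ T₂ : ℝ) (hT : 0 < T₁) : ∃ C : ℝ, 0 < C ∧ ∀ (t₀ t t' : ℝ) (z₁ z y P : ℕ),
    T₁ ≤ t₀ → t₀ ≤ T₂ → |t - t₀| ≤ T₁ / 2 → |t' - t₀| ≤ T₁ / 2 → z0 ≤ z₁ → z₁ ≤ z → z ≤ y → y ≤ P →
    ‖RA P (fun D => (EX z₁ z y P D t t₀ - RA P (fun D' => EX z₁ z y P D' t₀ t₀)) *
      (starRingEnd ℂ) (EX z₁ z y P D t' t₀ - RA P (fun D' => EX z₁ z y P D' t₀ t₀)))‖ ≤
      C * ‖RA P (fun D' => EX z₁ z y P D' t₀ t₀)‖ ^ 2 * Qk C z₁ z y P t₀ t t' := by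
  obtain ⟨C₀, hC₀, hunif⟩ := D_kernel_unif
  obtain ⟨C, hC0, hC⟩ := hunif T₁ T₂ hT
  refine ⟨C + C₀, by linarith, fun t₀ t t' z₁ z y P h1 h2 h3 h4 hz₁ hz hzy hyP => ?_⟩
  have hz₁' : 1 ≤ z₁ := by have : (10000 : ℕ) ≤ z₁ := hz₁; omega
  have hz' : 1 ≤ z := hz₁'.trans hz
  have hy' : 1 ≤ y := hz'.trans hzy
  refine (hC t₀ t t' z₁ z y P h1 h2 h3 h4 hz₁ hz hzy hyP).trans ?_
  have h5 := DVK_Qk_mono (show C₀ ≤ C + C₀ by linarith) hz₁' hz' hzy hyP t₀ t t'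
  have h6 : 0 ≤ Qk (C + C₀) z₁ z y P t₀ t t' := by
    have h3' : 0 ≤ (rho z y (t - t')) ^ (1 / 2 : ℝ) * rho y P (t - t') :=
      mul_nonneg (Real.rpow_nonneg (DVK_rho_pos hz' hy' _).le _)
        (DVK_rho_pos hy' (hy'.trans hyP) _).le
    have h7 := DVK_mm_nonneg hz₁' (C + C₀) (t - t₀)
    have h8 := DVK_mm_nonneg hz₁' (C + C₀) (t' - t₀)
    have h9 : (0 : ℝ) ≤ if |t - t'| * Real.log z < 1 then (1 : ℝ) else 0 := by split_ifs <;> norm_num
    have h10 : (0 : ℝ) ≤ if |t - t'| * Real.log z < 1 then (0 : ℝ) else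
        |SBr z y (t - t')| + ‖SG y P (t - t')‖ := by
      split_ifs
      · exact le_rfl
      · positivity
    unfold Qk
    positivity
  calc C * ‖RA P (fun D' => EX z₁ z y P D' t₀ t₀)‖ ^ 2 * Qk C₀ z₁ z y P t₀ t t'
      ≤ C * ‖RA P (fun D' => EX z₁ z y P D' t₀ t₀)‖ ^ 2 * Qk (C + C₀) z₁ z y P t₀ t t' :=
        mul_le_mul_of_nonneg_left h5 (by positivity)
    _ ≤ (C + C₀) * ‖RA P (fun D' => EX z₁ z y P D' t₀ t₀)‖ ^ 2 * Qk (C + C₀) z₁ z y P t₀ t t' := by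
        refine mul_le_mul_of_nonneg_right ?_ h6
        exact mul_le_mul_of_nonneg_right (by linarith) (by positivity)

end Pool.Agent.CZ
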