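import Mathlib
import Pool.Agent.CZ.Defs
import Pool.Agent.CZ.W
import Pool.Agent.CZ.SUMS
import Pool.Agent.CZ.MOM

/-!
# Module DVT: the far part of the window (`D_tail`)
-/

set_option autoImplicit false

open Complex Finset MeasureTheory

namespace Pool.Agent.CZ

namespace DVT

theorem MP_pos (P : ℕ) : 0 < MP P := by
  unfold MP
  apply Finset.prod_pos
  intro p hp
  simp only [primesIoc, Finset.mem_filter, Finset.mem_Ioc] at hp
  omega

theorem RR_mono {P : ℕ} {f g : ℤ → ℝ} (h : ∀ D, f D ≤ g D) : RR P f ≤ RR P g := by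
  unfold RR
  have hP : (0 : ℝ) < MP P := by exact_mod_cast MP_pos P
  gcongr
  exact h _

theorem RR_add (P : ℕ) (f g : ℤ → ℝ) : RR P (fun D => f D + g D) = RR P f + RR P g := by
  unfold RR
  rw [Finset.sum_add_distrib, add_div]

theorem RR_mul (P : ℕ) (a : ℝ) (f : ℤ → ℝ) : RR P (fun D => a * f D) = a * RR P f := by
  unfold RR
  rw [← Finset.mul_sum, mul_div_assoc]

theorem RR_const (P : ℕ) (a : ℝ) : RR P (fun _ => a) = a := by
  unfold RR
  have hP : (MP P : ℝ) ≠ 0 := by exact_mod_cast (MP_pos P).ne'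
  simp [hP]

theorem RR_nonneg {P : ℕ} {f : ℤ → ℝ} (h : ∀ D, 0 ≤ f D) : 0 ≤ RR P f := by
  unfold RR
  apply div_nonneg (Finset.sum_nonneg fun D _ => h _) (Nat.cast_nonneg _)

/-- Cauchy–Schwarz for the random model -/
theorem RA_sq_le (P : ℕ) (f : ℤ → ℂ) : ‖RA P f‖ ^ 2 ≤ RR P (fun D => ‖f D‖ ^ 2) := by
  unfold RA RR
  have hP : (0 : ℝ) < MP P := by exact_mod_cast MP_pos P
  rw [norm_div, Complex.norm_natCast, div_pow]
  have h1 : ‖∑ D ∈ range (MP P), f D‖ ^ 2 ≤ (∑ D ∈ range (MP P), ‖f D‖) ^ 2 :=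
    pow_le_pow_left₀ (norm_nonneg _) (norm_sum_le _ _) 2
  have h2 : (∑ D ∈ range (MP P), ‖f D‖) ^ 2 ≤
      ((range (MP P)).card : ℝ) * ∑ D ∈ range (MP P), ‖f D‖ ^ 2 :=
    sq_sum_le_card_mul_sum_sq
  rw [Finset.card_range] at h2
  rw [div_le_div_iff₀ (by positivity) hP]
  nlinarith [h1.trans h2]

theorem mem_primes {a b p : ℕ} (hp : p ∈ primesIoc a b) : p.Prime ∧ p ≠ 2 ∧ a < p ∧ p ≤ b := by
  simp only [primesIoc, Finset.mem_filter, Finset.mem_Ioc] at hp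
  exact ⟨hp.2.1, hp.2.2, hp.1.1, hp.1.2⟩

theorem loc_pos {p : ℕ} (hp : p.Prime) : 0 < (1 - 1 / Real.sqrt p) ^ 2 := by
  have h2 : (2 : ℝ) ≤ p := by exact_mod_cast hp.two_le
  have h1 : 1 < Real.sqrt p := by
    rw [show (1 : ℝ) = Real.sqrt 1 by simp]
    exact Real.sqrt_lt_sqrt (by norm_num) (by linarith)
  have h3 : 1 / Real.sqrt p < 1 := by
    rw [div_lt_one (by linarith)]
    exact h1
  have : 0 < 1 - 1 / Real.sqrt p := by linarith
  positivity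

theorem ellInv_ne {D : ℤ} {p : ℕ} (hp : p.Prime) (h2 : p ≠ 2) (t : ℝ) : ellInv D p t ≠ 0 := by
  have h := ellInv_norm_ge (D := D) hp h2 t
  have h0 := loc_pos hp
  intro h'
  rw [h', norm_zero] at h
  linarith

theorem npow_cont {n : ℕ} (hn : n ≠ 0) : Continuous (npow n) := by
  unfold npow
  have hn' : (n : ℂ) ≠ 0 := by exact_mod_cast hn
  refine Continuous.const_cpow (by fun_prop) (Or.inl hn')

theorem ellInv_cont (D : ℤ) {p : ℕ} (hp : p ≠ 0) : Continuous (ellInv D p) := by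
  have := npow_cont hp
  unfold ellInv
  fun_prop

theorem LP_cont (a b : ℕ) (D : ℤ) : Continuous (LP a b D) := by
  unfold LP
  refine continuous_finsetProd _ fun p hp => ?_
  obtain ⟨h1, h2, -, -⟩ := mem_primes hp
  exact (ellInv_cont D h1.ne_zero).inv₀ fun t => ellInv_ne h1 h2 t

theorem LP_bdd (a b : ℕ) (D : ℤ) (t : ℝ) :
    ‖LP a b D t‖ ≤ ∏ p ∈ primesIoc a b, ((1 - 1 / Real.sqrt p) ^ 2)⁻¹ := by
  unfold LP
  rw [norm_prod]
  refine Finset.prod_le_prod (fun _ _ => norm_nonneg _) fun p hp => ?_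
  obtain ⟨h1, h2, -, -⟩ := mem_primes hp
  rw [norm_inv]
  exact inv_anti₀ (loc_pos h1) (ellInv_norm_ge h1 h2 t)

theorem PSum_cont (a b : ℕ) (D : ℤ) : Continuous (PSum a b D) := by
  unfold PSum
  refine continuous_finsetSum _ fun p hp => ?_
  obtain ⟨h1, -, -, -⟩ := mem_primes hp
  exact continuous_const.mul (npow_cont h1.ne_zero)

theorem theta_cont (a b : ℕ) (D : ℤ) : Continuous (theta a b D) := by
  unfold theta
  exact Complex.continuous_im.comp (PSum_cont a b D)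

theorem exp_theta_norm (x : ℝ) : ‖exp (-(I * (x : ℂ)))‖ = 1 := by
  rw [show -(I * (x : ℂ)) = ((-x : ℝ) : ℂ) * I by push_cast; ring]
  exact Complex.norm_exp_ofReal_mul_I _

theorem EX_cont (z₁ z y P : ℕ) (D : ℤ) (t₀ : ℝ) : Continuous (fun t => EX z₁ z y P D t t₀) := by
  unfold EX
  have h1 := LP_cont 0 z₁ D
  have h2 := LP_cont z y D
  have h3 := LP_cont y P D
  have h4 := theta_cont z y D
  have h5 : Continuous (fun t : ℝ => exp (-(I * (theta z y D t : ℂ)))) := by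
    have : Continuous (fun t : ℝ => (theta z y D t : ℂ)) := Complex.continuous_ofReal.comp h4
    fun_prop
  exact (((h1.mul continuous_const).mul h2).mul h5).mul h3

theorem EX_norm (z₁ z y P : ℕ) (D : ℤ) (t t₀ : ℝ) : ‖EX z₁ z y P D t t₀‖ =
    ‖LP 0 z₁ D t‖ * ‖(LP 0 z₁ D t₀)⁻¹‖ * ‖LP z y D t‖ * ‖LP y P D t‖ := by
  unfold EX
  rw [norm_mul, norm_mul, norm_mul, norm_mul, exp_theta_norm, mul_one]

theorem EX_bdd (z₁ z y P : ℕ) (D : ℤ) (t₀ : ℝ) : ∃ B : ℝ, ∀ t, ‖EX z₁ z y P D t t₀‖ ≤ B := by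
  refine ⟨(∏ p ∈ primesIoc 0 z₁, ((1 - 1 / Real.sqrt p) ^ 2)⁻¹) * ‖(LP 0 z₁ D t₀)⁻¹‖ *
    (∏ p ∈ primesIoc z y, ((1 - 1 / Real.sqrt p) ^ 2)⁻¹) *
    (∏ p ∈ primesIoc y P, ((1 - 1 / Real.sqrt p) ^ 2)⁻¹), fun t => ?_⟩
  rw [EX_norm]
  have h (a b : ℕ) : 0 ≤ ∏ p ∈ primesIoc a b, ((1 - 1 / Real.sqrt p) ^ 2)⁻¹ :=
    Finset.prod_nonneg fun p _ => by positivity
  gcongr
  · exact LP_bdd _ _ _ _
  · exact LP_bdd _ _ _ _
  · exact LP_bdd _ _ _ _

theorem amgm4 {a b c d : ℝ} : (a * b * c * d) ^ 2 ≤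
    (a ^ 8 + b ^ 8 + c ^ 8 + d ^ 8) / 4 := by
  have h1 : (a ^ 2 * b ^ 2) ^ 2 ≤ (a ^ 8 + b ^ 8) / 2 := by nlinarith [sq_nonneg (a ^ 4 - b ^ 4)]
  have h2 : (c ^ 2 * d ^ 2) ^ 2 ≤ (c ^ 8 + d ^ 8) / 2 := by nlinarith [sq_nonneg (c ^ 4 - d ^ 4)]
  have h3 : (a ^ 2 * b ^ 2) * (c ^ 2 * d ^ 2) ≤
      ((a ^ 2 * b ^ 2) ^ 2 + (c ^ 2 * d ^ 2) ^ 2) / 2 := by
    nlinarith [sq_nonneg (a ^ 2 * b ^ 2 - c ^ 2 * d ^ 2)]
  calc (a * b * c * d) ^ 2 = (a ^ 2 * b ^ 2) * (c ^ 2 * d ^ 2) := by ring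
    _ ≤ _ := h3
    _ ≤ _ := by linarith

/-- second moment of `EX`, uniform in `t` and `t₀` -/
theorem EX_moment {C : ℝ} (hC : 0 ≤ C)
    (hLP : ∀ (a b P : ℕ) (t : ℝ), b ≤ P →
      RR P (fun D => ‖LP a b D t‖ ^ 8) ≤ C * (1 + Real.log b) ^ C ∧
      RR P (fun D => ‖(LP a b D t)⁻¹‖ ^ 8) ≤ C * (1 + Real.log b) ^ C)
    {z₁ z y P : ℕ} (h0 : 1 ≤ z₁) (h1 : z₁ ≤ z) (h2 : z ≤ y) (h3 : y ≤ P) (t t₀ : ℝ) :
    RR P (fun D => ‖EX z₁ z y P D t t₀‖ ^ 2) ≤ C * (1 + Real.log P) ^ C := by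
  have hb : ∀ b : ℕ, 1 ≤ b → b ≤ P → C * (1 + Real.log b) ^ C ≤ C * (1 + Real.log P) ^ C := by
    intro b hb hbP
    have hb' : (1 : ℝ) ≤ b := by exact_mod_cast hb
    have hbP' : (b : ℝ) ≤ P := by exact_mod_cast hbP
    have := Real.log_nonneg hb'
    gcongr
  have hz1P : z₁ ≤ P := by omega
  have e1 := ((hLP 0 z₁ P t hz1P).1).trans (hb z₁ h0 hz1P)
  have e2 := ((hLP 0 z₁ P t₀ hz1P).2).trans (hb z₁ h0 hz1P)
  have e3 := ((hLP z y P t h3).1).trans (hb y (by omega) h3)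
  have e4 := ((hLP y P P t le_rfl).1).trans (hb P (by omega) le_rfl)
  have key : RR P (fun D => ‖EX z₁ z y P D t t₀‖ ^ 2) ≤
      RR P (fun D => (1 / 4 : ℝ) * (‖LP 0 z₁ D t‖ ^ 8 + ‖(LP 0 z₁ D t₀)⁻¹‖ ^ 8 +
        ‖LP z y D t‖ ^ 8 + ‖LP y P D t‖ ^ 8)) := by
    refine RR_mono fun D => ?_
    rw [EX_norm]
    refine amgm4.trans (le_of_eq ?_)
    ring
  rw [RR_mul, RR_add, RR_add, RR_add] at key
  linarith

/-- the far mass of the window -/
theorem far_mass {K : ℕ} {Ck T₁ h t₀ : ℝ} (hK : 1 ≤ K) (hT : 0 < T₁) (hh : 0 < h)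
    (hCk : 0 < Ck) (hw : ∀ t : ℝ, wK K t ≤ Ck / (1 + t ^ 2) ^ K) :
    ∫ t in {t : ℝ | T₁ / 2 < |t - t₀|}, wK K ((t - t₀) / h) ≤
      Ck * (2 * h / T₁) ^ (2 * (K - 1)) * (h * Real.pi) := by
  have hint : Integrable (fun t : ℝ => (1 + ((t - t₀) / h) ^ 2)⁻¹) := by
    have h1 : Integrable (fun t : ℝ => (1 + (t / h) ^ 2)⁻¹) :=
      (integrable_inv_one_add_sq).comp_div hh.ne'
    exact h1.comp_sub_right t₀
  have hval : ∫ t : ℝ, (1 + ((t - t₀) / h) ^ 2)⁻¹ = h * Real.pi := by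
    have h1 := integral_sub_right_eq_self (μ := volume) (fun t : ℝ => (1 + (t / h) ^ 2)⁻¹) t₀
    rw [h1]
    have h2 := Measure.integral_comp_div (fun t : ℝ => (1 + t ^ 2)⁻¹) h
    rw [h2, integral_univ_inv_one_add_sq, abs_of_pos hh, smul_eq_mul]
  set A : ℝ := Ck * (2 * h / T₁) ^ (2 * (K - 1)) with hA
  have hA0 : 0 ≤ A := by positivity
  have hmeas : MeasurableSet {t : ℝ | T₁ / 2 < |t - t₀|} := by
    apply measurableSet_lt measurable_const
    fun_prop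
  calc ∫ t in {t : ℝ | T₁ / 2 < |t - t₀|}, wK K ((t - t₀) / h)
      ≤ ∫ t in {t : ℝ | T₁ / 2 < |t - t₀|}, A * (1 + ((t - t₀) / h) ^ 2)⁻¹ := by
        refine setIntegral_mono_on ?_ (hint.const_mul A).integrableOn hmeas ?_
        · have h1 : Integrable (fun t : ℝ => wK K (t / h)) := (wK_integrable hK).comp_div hh.ne'
          exact (h1.comp_sub_right t₀).integrableOn
        · intro t ht
          simp only [Set.mem_ofPred_eq] at ht
          refine (hw _).trans ?_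
          set u : ℝ := (t - t₀) / h with hu
          have hu2 : (T₁ / (2 * h)) ^ 2 ≤ u ^ 2 := by
            rw [← sq_abs u, hu, abs_div, abs_of_pos hh]
            have : T₁ / (2 * h) ≤ |t - t₀| / h := by
              rw [div_le_div_iff₀ (by positivity) hh]
              nlinarith
            gcongr
          have h3 : (T₁ / (2 * h)) ^ (2 * (K - 1)) * (1 + u ^ 2) ≤ (1 + u ^ 2) ^ K := by
            obtain ⟨k, rfl⟩ : ∃ k, K = k + 1 := ⟨K - 1, by omega⟩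
            simp only [Nat.add_sub_cancel]
            rw [pow_mul, pow_succ (1 + u ^ 2) k]
            have : ((T₁ / (2 * h)) ^ 2) ^ k ≤ (1 + u ^ 2) ^ k := by
              gcongr
              linarith
            gcongr
          have h4 : (2 * h / T₁) ^ (2 * (K - 1)) * (T₁ / (2 * h)) ^ (2 * (K - 1)) = 1 := by
            rw [← mul_pow]
            have : 2 * h / T₁ * (T₁ / (2 * h)) = 1 := by field_simp
            rw [this, one_pow]
          rw [hA, div_le_iff₀ (by positivity), mul_assoc, mul_assoc]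
          have h5 : 1 ≤ (2 * h / T₁) ^ (2 * (K - 1)) * ((1 + u ^ 2)⁻¹ * (1 + u ^ 2) ^ K) := by
            calc (1 : ℝ) = (2 * h / T₁) ^ (2 * (K - 1)) *
                  ((1 + u ^ 2)⁻¹ * ((T₁ / (2 * h)) ^ (2 * (K - 1)) * (1 + u ^ 2))) := by
                  rw [show (2 * h / T₁) ^ (2 * (K - 1)) *
                    ((1 + u ^ 2)⁻¹ * ((T₁ / (2 * h)) ^ (2 * (K - 1)) * (1 + u ^ 2))) =
                    ((2 * h / T₁) ^ (2 * (K - 1)) * (T₁ / (2 * h)) ^ (2 * (K - 1))) *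
                    ((1 + u ^ 2)⁻¹ * (1 + u ^ 2)) by ring, h4, inv_mul_cancel₀ (by positivity)]
                  norm_num
              _ ≤ _ := by gcongr
          nlinarith
    _ ≤ ∫ t : ℝ, A * (1 + ((t - t₀) / h) ^ 2)⁻¹ := by
        refine setIntegral_le_integral (hint.const_mul A) ?_
        exact Filter.Eventually.of_forall fun t => by
          simp only [Pi.zero_apply]
          positivity
    _ = A * (h * Real.pi) := by
        rw [integral_const_mul, hval]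

/-- Cauchy–Schwarz with a weight -/
theorem cs_weight {S : Set ℝ} {F : ℝ → ℂ} {g : ℝ → ℝ} (hF : Continuous F)
    {B : ℝ} (hB : ∀ t, ‖F t‖ ≤ B) (hg : Continuous g) (hg0 : ∀ t, 0 ≤ g t) (hgi : Integrable g) :
    ‖∫ t in S, F t * (g t : ℂ)‖ ^ 2 ≤
      (∫ t in S, g t) * ∫ t in S, ‖F t‖ ^ 2 * g t := by
  have hB0 : 0 ≤ B := (norm_nonneg _).trans (hB 0)
  have i1 : IntegrableOn (fun t => ‖F t‖ * g t) S := by
    refine (Integrable.mono' (hgi.const_mul B) (hF.norm.mul hg).aestronglyMeasurable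
      (Filter.Eventually.of_forall fun t => ?_)).integrableOn
    simp only [Pi.mul_apply]
    rw [Real.norm_of_nonneg (mul_nonneg (norm_nonneg _) (hg0 t))]
    exact mul_le_mul_of_nonneg_right (hB t) (hg0 t)
  have i2 : IntegrableOn (fun t => ‖F t‖ ^ 2 * g t) S := by
    refine (Integrable.mono' (hgi.const_mul (B ^ 2)) ((hF.norm.pow 2).mul hg).aestronglyMeasurable
      (Filter.Eventually.of_forall fun t => ?_)).integrableOn
    simp only [Pi.mul_apply, Pi.pow_apply]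
    rw [Real.norm_of_nonneg (mul_nonneg (by positivity) (hg0 t))]
    exact mul_le_mul_of_nonneg_right (pow_le_pow_left₀ (norm_nonneg _) (hB t) 2) (hg0 t)
  have i0 : IntegrableOn g S := hgi.integrableOn
  have h1 : ‖∫ t in S, F t * (g t : ℂ)‖ ≤ ∫ t in S, ‖F t‖ * g t := by
    refine (norm_integral_le_integral_norm _).trans (le_of_eq ?_)
    refine integral_congr_ae (Filter.Eventually.of_forall fun t => ?_)
    simp only [norm_mul, Complex.norm_real, Real.norm_of_nonneg (hg0 t)]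
  set G := ∫ t in S, g t
  set A := ∫ t in S, ‖F t‖ * g t
  set Q := ∫ t in S, ‖F t‖ ^ 2 * g t
  have h2 : ∀ x : ℝ, 0 ≤ G * (x * x) + (-2 * A) * x + Q := by
    intro x
    have h3 : G * (x * x) + (-2 * A) * x + Q = ∫ t in S, (‖F t‖ - x) ^ 2 * g t := by
      have : ∫ t in S, (‖F t‖ - x) ^ 2 * g t =
          ∫ t in S, ((x * x) * g t + (-2 * x) * (‖F t‖ * g t) + ‖F t‖ ^ 2 * g t) := by
        refine integral_congr_ae (Filter.Eventually.of_forall fun t => ?_)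
        simp only
        ring
      have j1 : IntegrableOn (fun t => (x * x) * g t) S := i0.const_mul _
      have j2 : IntegrableOn (fun t => (-2 * x) * (‖F t‖ * g t)) S := i1.const_mul _
      have j3 : IntegrableOn (fun t => (x * x) * g t + (-2 * x) * (‖F t‖ * g t)) S := j1.add j2
      rw [this, integral_add j3 i2, integral_add j1 j2, integral_const_mul, integral_const_mul]
      ring
    rw [h3]
    exact integral_nonneg fun t => mul_nonneg (sq_nonneg _) (hg0 t)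
  have h4 := discrim_le_zero h2
  rw [discrim] at h4
  have hA0 : 0 ≤ A := integral_nonneg fun t => mul_nonneg (norm_nonneg _) (hg0 t)
  nlinarith [norm_nonneg (∫ t in S, F t * (g t : ℂ))]

/-- `D_tail` from the eighth moments of the Euler products -/
theorem D_tail_of
    (hLP : ∃ C : ℝ, ∀ (a b P : ℕ) (t : ℝ), b ≤ P →
      RR P (fun D => ‖LP a b D t‖ ^ 8) ≤ C * (1 + Real.log b) ^ C ∧
      RR P (fun D => ‖(LP a b D t)⁻¹‖ ^ 8) ≤ C * (1 + Real.log b) ^ C) :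
    ∃ K₀ : ℕ, ∀ (K : ℕ) (T₁ T₂ : ℝ), K₀ ≤ K → 0 < T₁ → ∃ C : ℝ,
    ∀ (h t₀ : ℝ) (z₁ z y P : ℕ), 0 < h → h ≤ 1 → T₁ ≤ t₀ → t₀ ≤ T₂ → z0 ≤ z₁ → z₁ ≤ z → z ≤ y → y ≤ P →
    Real.log P ≤ 1 / h ^ 2 →
    RR P (fun D => ‖(∫ t in {t : ℝ | T₁ / 2 < |t - t₀|},
      (EX z₁ z y P D t t₀ - RA P (fun D' => EX z₁ z y P D' t₀ t₀)) *
        (wK K ((t - t₀) / h) : ℂ)) / h‖ ^ 2) ≤ C * h := by
  obtain ⟨C₀, hC₀⟩ := hLP
  set C : ℝ := |C₀| with hCdef
  have hC0 : 0 ≤ C := abs_nonneg _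
  have hCC : C₀ ≤ C := le_abs_self _
  have hx : ∀ b : ℕ, (1 : ℝ) ≤ 1 + Real.log b := by
    intro b
    have := Real.log_natCast_nonneg b
    linarith
  have hC1 : ∀ b : ℕ, C₀ * (1 + Real.log b) ^ C₀ ≤ C * (1 + Real.log b) ^ C := by
    intro b
    have h1 : (1 + Real.log b) ^ C₀ ≤ (1 + Real.log b) ^ C :=
      Real.rpow_le_rpow_of_exponent_le (hx b) hCC
    have h2 : 0 ≤ (1 + Real.log b) ^ C₀ := Real.rpow_nonneg (by linarith [hx b]) _
    nlinarith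
  have hLP' : ∀ (a b P : ℕ) (t : ℝ), b ≤ P →
      RR P (fun D => ‖LP a b D t‖ ^ 8) ≤ C * (1 + Real.log b) ^ C ∧
      RR P (fun D => ‖(LP a b D t)⁻¹‖ ^ 8) ≤ C * (1 + Real.log b) ^ C := fun a b P t hb =>
    ⟨((hC₀ a b P t hb).1).trans (hC1 b), ((hC₀ a b P t hb).2).trans (hC1 b)⟩
  set N : ℕ := ⌈C⌉₊ with hN
  have hCN : C ≤ N := Nat.le_ceil _
  refine ⟨N + 2, fun K T₁ T₂ hK hT => ?_⟩
  obtain ⟨Ck, hCk0, hCk⟩ := wK_le K
  set L : ℝ := Ck * (2 / T₁) ^ (2 * (K - 1)) * Real.pi with hL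
  refine ⟨4 * C * 2 ^ N * L ^ 2, ?_⟩
  intro h t₀ z₁ z y P hh hh1 ht0 ht0' h0 h1 h2 h3 hP
  have hz1 : 1 ≤ z₁ := by
    have : 1 ≤ z0 := by unfold z0; norm_num
    omega
  set e : ℂ := RA P (fun D' => EX z₁ z y P D' t₀ t₀) with he
  set M : ℝ := C * (1 + Real.log P) ^ C with hM
  have hM0 : 0 ≤ M := mul_nonneg hC0 (Real.rpow_nonneg (by linarith [hx P]) _)
  have hEX : ∀ t, RR P (fun D => ‖EX z₁ z y P D t t₀‖ ^ 2) ≤ M := fun t =>
    EX_moment hC0 hLP' hz1 h1 h2 h3 t t₀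
  have he2 : ‖e‖ ^ 2 ≤ M := (RA_sq_le P _).trans (hEX t₀)
  set g : ℝ → ℝ := fun t => wK K ((t - t₀) / h) with hg
  have hK1 : 1 ≤ K := by omega
  have hgc : Continuous g := (wK_continuous K).comp (by fun_prop)
  have hg0 : ∀ t, 0 ≤ g t := fun t => wK_nonneg K _
  have hgi : Integrable g := by
    have h1 : Integrable (fun t : ℝ => wK K (t / h)) := (wK_integrable hK1).comp_div hh.ne'
    exact h1.comp_sub_right t₀
  set S : Set ℝ := {t : ℝ | T₁ / 2 < |t - t₀|} with hS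
  have hSm : MeasurableSet S := by
    apply measurableSet_lt measurable_const
    fun_prop
  set G : ℝ := ∫ t in S, g t with hG
  have hG0 : 0 ≤ G := integral_nonneg fun t => hg0 t
  have hGle : G ≤ Ck * (2 * h / T₁) ^ (2 * (K - 1)) * (h * Real.pi) :=
    far_mass hK1 hT hh hCk0 hCk
  set F : ℤ → ℝ → ℂ := fun D t => EX z₁ z y P D t t₀ - e with hF
  have hFc : ∀ D, Continuous (F D) := fun D => (EX_cont z₁ z y P D t₀).sub continuous_const
  have hFb : ∀ D, ∃ B : ℝ, ∀ t, ‖F D t‖ ≤ B := by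
    intro D
    obtain ⟨B, hB⟩ := EX_bdd z₁ z y P D t₀
    exact ⟨B + ‖e‖, fun t => (norm_sub_le _ _).trans (by linarith [hB t])⟩
  have hFi : ∀ D, IntegrableOn (fun t => ‖F D t‖ ^ 2 * g t) S := by
    intro D
    obtain ⟨B, hB⟩ := hFb D
    refine (Integrable.mono' (hgi.const_mul (B ^ 2))
      (((hFc D).norm.pow 2).mul hgc).aestronglyMeasurable
      (Filter.Eventually.of_forall fun t => ?_)).integrableOn
    simp only [Pi.mul_apply, Pi.pow_apply]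
    rw [Real.norm_of_nonneg (mul_nonneg (by positivity) (hg0 t))]
    exact mul_le_mul_of_nonneg_right (pow_le_pow_left₀ (norm_nonneg _) (hB t) 2) (hg0 t)
  have hRF : ∀ t, RR P (fun D => ‖F D t‖ ^ 2) ≤ 4 * M := by
    intro t
    have h5 : RR P (fun D => ‖F D t‖ ^ 2) ≤
        RR P (fun D => 2 * ‖EX z₁ z y P D t t₀‖ ^ 2 + 2 * ‖e‖ ^ 2) := by
      refine RR_mono fun D => ?_
      have h6 : ‖F D t‖ ≤ ‖EX z₁ z y P D t t₀‖ + ‖e‖ := norm_sub_le _ _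
      have h7 : ‖F D t‖ ^ 2 ≤ (‖EX z₁ z y P D t t₀‖ + ‖e‖) ^ 2 :=
        pow_le_pow_left₀ (norm_nonneg _) h6 2
      nlinarith [sq_nonneg (‖EX z₁ z y P D t t₀‖ - ‖e‖)]
    rw [RR_add P (fun D => 2 * ‖EX z₁ z y P D t t₀‖ ^ 2) (fun _ => 2 * ‖e‖ ^ 2), RR_mul,
      RR_const] at h5
    linarith [hEX t]
  have hMP : (0 : ℝ) < MP P := by exact_mod_cast MP_pos P
  have hQ : RR P (fun D => ∫ t in S, ‖F D t‖ ^ 2 * g t) ≤ 4 * M * G := by
    unfold RR
    rw [div_le_iff₀ hMP]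
    simp only
    rw [← integral_finsetSum (range (MP P)) (f := fun (D : ℕ) t => ‖F (D : ℤ) t‖ ^ 2 * g t)
      (fun D _ => hFi D)]
    have h8 : (4 * M * G) * MP P = ∫ t in S, (4 * M * MP P) * g t := by
      rw [integral_const_mul]
      ring
    rw [h8]
    refine setIntegral_mono_on (integrable_finsetSum _ fun D _ => hFi D)
      ((hgi.const_mul _).integrableOn) hSm fun t _ => ?_
    rw [← Finset.sum_mul]
    refine mul_le_mul_of_nonneg_right ?_ (hg0 t)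
    have := hRF t
    unfold RR at this
    rwa [div_le_iff₀ hMP] at this
  have hmain : RR P (fun D => ‖(∫ t in S, F D t * (g t : ℂ)) / h‖ ^ 2) ≤
      4 * M * G ^ 2 / h ^ 2 := by
    have h9 : RR P (fun D => ‖(∫ t in S, F D t * (g t : ℂ)) / h‖ ^ 2) ≤
        RR P (fun D => (G / h ^ 2) * ∫ t in S, ‖F D t‖ ^ 2 * g t) := by
      refine RR_mono fun D => ?_
      obtain ⟨B, hB⟩ := hFb D
      have := cs_weight (S := S) (hFc D) hB hgc hg0 hgi
      rw [norm_div, Complex.norm_real, Real.norm_of_nonneg hh.le, div_pow, div_mul_eq_mul_div]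
      gcongr
    rw [RR_mul] at h9
    refine h9.trans ?_
    have : (G / h ^ 2) * RR P (fun D => ∫ t in S, ‖F D t‖ ^ 2 * g t) ≤
        (G / h ^ 2) * (4 * M * G) := mul_le_mul_of_nonneg_left hQ (by positivity)
    refine this.trans (le_of_eq ?_)
    ring
  refine hmain.trans ?_
  have hh2 : 1 ≤ 1 / h ^ 2 := by
    rw [le_div_iff₀ (by positivity), one_mul]
    exact pow_le_one₀ hh.le hh1
  have hM2 : M ≤ C * (2 / h ^ 2) ^ N := by
    rw [hM]
    refine mul_le_mul_of_nonneg_left ?_ hC0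
    have h10 : 1 + Real.log P ≤ 2 / h ^ 2 := by
      have : 2 / h ^ 2 = 1 / h ^ 2 + 1 / h ^ 2 := by ring
      linarith
    calc (1 + Real.log P) ^ C ≤ (2 / h ^ 2) ^ C :=
          Real.rpow_le_rpow (by linarith [hx P]) h10 hC0
      _ ≤ (2 / h ^ 2) ^ (N : ℝ) :=
          Real.rpow_le_rpow_of_exponent_le (by linarith [hx P]) hCN
      _ = _ := Real.rpow_natCast _ _
  obtain ⟨j, hj⟩ : ∃ j, K - 1 = N + 1 + j := ⟨K - 1 - (N + 1), by omega⟩
  have hG2 : G ≤ L * (h ^ (2 * (K - 1)) * h) := by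
    refine hGle.trans (le_of_eq ?_)
    rw [hL, show 2 * h / T₁ = (2 / T₁) * h by ring, mul_pow]
    ring
  have hL0 : 0 ≤ L := by
    rw [hL]
    have := Real.pi_pos
    positivity
  calc 4 * M * G ^ 2 / h ^ 2 ≤
      4 * (C * (2 / h ^ 2) ^ N) * (L * (h ^ (2 * (K - 1)) * h)) ^ 2 / h ^ 2 := by gcongr
    _ = (4 * C * 2 ^ N * L ^ 2) * (h ^ (2 * (K - 1))) ^ 2 / h ^ (2 * N) := by
        rw [div_pow, ← pow_mul, pow_mul h 2 N]
        field_simp
    _ = (4 * C * 2 ^ N * L ^ 2) * h ^ (2 * N + 4 + 4 * j) := by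
        rw [hj, ← pow_mul, mul_div_assoc, div_eq_mul_inv (h ^ _), ← pow_sub₀ _ hh.ne' (by omega)]
        congr 2
        omega
    _ ≤ (4 * C * 2 ^ N * L ^ 2) * h := by
        refine mul_le_mul_of_nonneg_left ?_ (by positivity)
        exact pow_le_of_le_one hh.le hh1 (by omega)

end DVT

/-- DVT: the far part of the window -/
theorem D_tail : ∃ K₀ : ℕ, ∀ (K : ℕ) (T₁ T₂ : ℝ), K₀ ≤ K → 0 < T₁ → ∃ C : ℝ,
    ∀ (h t₀ : ℝ) (z₁ z y P : ℕ), 0 < h → h ≤ 1 → T₁ ≤ t₀ → t₀ ≤ T₂ → z0 ≤ z₁ → z₁ ≤ z → z ≤ y → y ≤ P →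
    Real.log P ≤ 1 / h ^ 2 →
    RR P (fun D => ‖(∫ t in {t : ℝ | T₁ / 2 < |t - t₀|},
      (EX z₁ z y P D t t₀ - RA P (fun D' => EX z₁ z y P D' t₀ t₀)) *
        (wK K ((t - t₀) / h) : ℂ)) / h‖ ^ 2) ≤ C * h :=
  DVT.D_tail_of (LP_moment 8)

end Pool.Agent.CZ
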