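import Mathlib
import Pool.Agent.CZ.Defs
import Pool.Agent.CZ.SUMS
import Pool.Agent.CZ.RM
import Pool.Agent.CZ.W
import Pool.Agent.CZ.DME
import Pool.Agent.CZ.DVI
import Pool.Agent.CZ.DVT
import Pool.Agent.CZ.DVK

/-!
# Critical zeros: variance of the tested integral, on average over the centre
-/

set_option autoImplicit false

open Complex Finset MeasureTheory

namespace Pool.Agent.CZ

open Pool.Agent.H5 (c bd)
open Pool.Agent.ZD (S T Lf nu tau gk eps MM)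

/-! ### continuity and boundedness of the integrand -/

theorem dva_npow {p : ℕ} (hp : 0 < p) : Continuous (npow p) := by
  unfold npow
  apply Continuous.const_cpow
  · fun_prop
  · left
    exact_mod_cast hp.ne'

theorem dva_ellInv_cont (D : ℤ) {p : ℕ} (hp : 0 < p) : Continuous (ellInv D p) := by
  have := dva_npow hp
  unfold ellInv
  fun_prop

theorem dva_ell_pos {D : ℤ} {p : ℕ} (hp : p.Prime) (h2 : p ≠ 2) (t : ℝ) :
    0 < (1 - 1 / Real.sqrt p) ^ 2 ∧ (1 - 1 / Real.sqrt p) ^ 2 ≤ ‖ellInv D p t‖ := by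
  refine ⟨?_, ellInv_norm_ge hp h2 t⟩
  have h1 : (1 : ℝ) < Real.sqrt p := by
    rw [Real.lt_sqrt (by norm_num)]
    have := hp.one_lt
    norm_num
    exact_mod_cast this
  have h3 : 1 / Real.sqrt p < 1 := by
    rw [div_lt_one (by linarith)]
    exact h1
  have : 0 < 1 - 1 / Real.sqrt p := by linarith
  positivity

theorem dva_LP_cont (a b : ℕ) (D : ℤ) : Continuous (LP a b D) := by
  unfold LP
  apply continuous_finsetProd
  intro p hp
  have hp' := rm_mem.1 hp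
  apply (dva_ellInv_cont D hp'.2.1.pos).inv₀
  intro t h0
  have := dva_ell_pos (D := D) hp'.2.1 hp'.2.2 t
  rw [h0, norm_zero] at this
  linarith [this.1, this.2]

theorem dva_LP_bdd (a b : ℕ) (D : ℤ) : ∃ B : ℝ, 0 ≤ B ∧ ∀ t, ‖LP a b D t‖ ≤ B := by
  refine ⟨∏ p ∈ primesIoc a b, ((1 - 1 / Real.sqrt p) ^ 2)⁻¹,
    Finset.prod_nonneg fun p _ => by positivity, fun t => ?_⟩
  unfold LP
  rw [norm_prod]
  refine Finset.prod_le_prod (fun p _ => norm_nonneg _) (fun p hp => ?_)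
  have hp' := rm_mem.1 hp
  have := dva_ell_pos (D := D) hp'.2.1 hp'.2.2 t
  rw [norm_inv]
  exact inv_anti₀ this.1 this.2

theorem dva_theta_cont (a b : ℕ) (D : ℤ) : Continuous (theta a b D) := by
  unfold theta PSum
  apply Complex.continuous_im.comp
  apply continuous_finsetSum
  intro p hp
  have hp' := rm_mem.1 hp
  have := dva_npow hp'.2.1.pos
  fun_prop

theorem dva_EX_cont (z₁ z y P : ℕ) (D : ℤ) (t₀ : ℝ) : Continuous (fun t => EX z₁ z y P D t t₀) := by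
  have h1 := dva_LP_cont 0 z₁ D
  have h2 := dva_LP_cont z y D
  have h3 := dva_LP_cont y P D
  have h4 := dva_theta_cont z y D
  unfold EX
  fun_prop

theorem dva_EX_bdd (z₁ z y P : ℕ) (D : ℤ) (t₀ : ℝ) :
    ∃ B : ℝ, ∀ t, ‖EX z₁ z y P D t t₀‖ ≤ B := by
  obtain ⟨B1, h1, h1'⟩ := dva_LP_bdd 0 z₁ D
  obtain ⟨B2, h2, h2'⟩ := dva_LP_bdd z y D
  obtain ⟨B3, h3, h3'⟩ := dva_LP_bdd y P D
  refine ⟨B1 * ‖(LP 0 z₁ D t₀)⁻¹‖ * B2 * 1 * B3, fun t => ?_⟩
  unfold EX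
  rw [norm_mul, norm_mul, norm_mul, norm_mul]
  have he : ‖exp (-(I * theta z y D t))‖ = 1 := by
    rw [Complex.norm_exp]
    simp
  rw [he]
  gcongr
  · exact h1' t
  · exact h2' t
  · exact h3' t

/-! ### the majorant of the kernel -/

theorem dva_logn (z : ℕ) : 0 ≤ Real.log z := Real.log_natCast_nonneg z

theorem dva_mm_cont (z : ℕ) (C : ℝ) : Continuous (mm z C) := by
  unfold mm
  have hz := dva_logn z
  apply Continuous.mul
  · fun_prop
  · apply Continuous.rpow_const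
    · fun_prop
    · intro u
      left
      have : 0 ≤ |u| * Real.log z := mul_nonneg (abs_nonneg _) hz
      linarith

theorem dva_rho_nonneg (y P : ℕ) (t : ℝ) : 0 ≤ rho y P t := by
  unfold rho
  have h1 := dva_logn y
  have h2 := dva_logn P
  positivity

theorem dva_rho_cont (y P : ℕ) : Continuous (rho y P) := by
  unfold rho
  have h1 := dva_logn y
  have h2 := dva_logn P
  apply Continuous.div
  · fun_prop
  · fun_prop
  · intro t
    have h3 : 0 ≤ |t| * Real.log P := mul_nonneg (abs_nonneg _) h2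
    positivity

theorem dva_SBr_cont (z y : ℕ) : Continuous (SBr z y) := by
  unfold SBr
  apply continuous_finsetSum
  intro p _
  fun_prop

theorem dva_SG_cont (y P : ℕ) : Continuous (SG y P) := by
  unfold SG
  apply continuous_finsetSum
  intro p hp
  have := dva_npow (rm_mem.1 hp).2.1.pos
  fun_prop

theorem dva_sloc_cont {p : ℕ} (hp : 0 < p) : Continuous (sloc p) := by
  have := dva_npow hp
  unfold sloc
  fun_prop

theorem dva_sig_cont (z y P : ℕ) : Continuous (sig z y P) := by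
  unfold sig
  apply Continuous.add
  · apply continuous_finsetSum
    intro p hp
    exact dva_sloc_cont (rm_mem.1 hp).2.1.pos
  · apply continuous_finsetSum
    intro p hp
    have := dva_npow (rm_mem.1 hp).2.1.pos
    fun_prop

/-- continuous majorant of `Qk` -/
noncomputable def dvaG (C : ℝ) (z₁ z y P : ℕ) (t₀ t t' : ℝ) : ℝ :=
  (|mm z₁ C (t - t₀) + mm z₁ C (t' - t₀)| + 1) *
      |(rho z y (t - t')) ^ (1 / 2 : ℝ) * rho y P (t - t')| +
    (|SBr z y (t - t')| + ‖SG y P (t - t')‖) +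
    |SBr z y (t + t')| + 1 / z +
    |(‖sig z y P t - sig z y P t₀‖ + 1 / z) * (‖sig z y P t' - sig z y P t₀‖ + 1 / z)| +
    |mm z₁ C (t - t₀) + mm z₁ C (t' - t₀)|

theorem dva_Qk_le (C : ℝ) (z₁ z y P : ℕ) (t₀ t t' : ℝ) :
    |Qk C z₁ z y P t₀ t t'| ≤ dvaG C z₁ z y P t₀ t t' := by
  unfold Qk dvaG
  set m1 := mm z₁ C (t - t₀) + mm z₁ C (t' - t₀)
  set r := (rho z y (t - t')) ^ (1 / 2 : ℝ) * rho y P (t - t')
  set a := |SBr z y (t - t')| + ‖SG y P (t - t')‖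
  have ha : 0 ≤ a := by positivity
  have hz : (0 : ℝ) ≤ 1 / z := by positivity
  have h1 : |(m1 + (if |t - t'| * Real.log z < 1 then 1 else 0)) * r| ≤ (|m1| + 1) * |r| := by
    rw [abs_mul]
    apply mul_le_mul_of_nonneg_right _ (abs_nonneg _)
    refine (abs_add_le _ _).trans ?_
    have : |(if |t - t'| * Real.log z < 1 then (1 : ℝ) else 0)| ≤ 1 := by
      split_ifs <;> simp
    linarith
  have h2 : |(if |t - t'| * Real.log z < 1 then 0 else a)| ≤ a := by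
    split_ifs
    · simpa using ha
    · rw [abs_of_nonneg ha]
  set q := (‖sig z y P t - sig z y P t₀‖ + 1 / z) * (‖sig z y P t' - sig z y P t₀‖ + 1 / z)
  have h3 := abs_add_le ((m1 + (if |t - t'| * Real.log z < 1 then 1 else 0)) * r +
    (if |t - t'| * Real.log z < 1 then 0 else a) + |SBr z y (t + t')| + 1 / z + q) m1
  have h4 := abs_add_le ((m1 + (if |t - t'| * Real.log z < 1 then 1 else 0)) * r +
    (if |t - t'| * Real.log z < 1 then 0 else a) + |SBr z y (t + t')| + 1 / z) q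
  have h5 := abs_add_le ((m1 + (if |t - t'| * Real.log z < 1 then 1 else 0)) * r +
    (if |t - t'| * Real.log z < 1 then 0 else a) + |SBr z y (t + t')|) (1 / z)
  have h6 := abs_add_le ((m1 + (if |t - t'| * Real.log z < 1 then 1 else 0)) * r +
    (if |t - t'| * Real.log z < 1 then 0 else a)) |SBr z y (t + t')|
  have h7 := abs_add_le ((m1 + (if |t - t'| * Real.log z < 1 then 1 else 0)) * r)
    (if |t - t'| * Real.log z < 1 then 0 else a)
  rw [abs_abs] at h6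
  rw [abs_of_nonneg hz] at h5
  linarith

theorem dva_G_cont (C : ℝ) (z₁ z y P : ℕ) :
    Continuous (fun x : ℝ × ℝ × ℝ => dvaG C z₁ z y P x.1 x.2.1 x.2.2) := by
  have h1 := dva_mm_cont z₁ C
  have h2 := dva_rho_cont z y
  have h3 := dva_rho_cont y P
  have h4 := dva_SBr_cont z y
  have h5 := dva_SG_cont y P
  have h6 := dva_sig_cont z y P
  unfold dvaG
  fun_prop (disch := norm_num)

theorem dva_Qk_meas (C : ℝ) (z₁ z y P : ℕ) :
    Measurable (fun x : ℝ × ℝ × ℝ => Qk C z₁ z y P x.1 x.2.1 x.2.2) := by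
  have h1 := (dva_mm_cont z₁ C).measurable
  have h2 := (dva_rho_cont z y).measurable
  have h3 := (dva_rho_cont y P).measurable
  have h4 := (dva_SBr_cont z y).measurable
  have h5 := (dva_SG_cont y P).measurable
  have h6 := (dva_sig_cont z y P).measurable
  have hs : MeasurableSet {x : ℝ × ℝ × ℝ | |x.2.1 - x.2.2| * Real.log z < 1} := by
    apply measurableSet_lt
    · fun_prop
    · fun_prop
  have h7 : Measurable (fun x : ℝ × ℝ × ℝ =>
      (if |x.2.1 - x.2.2| * Real.log z < 1 then (1 : ℝ) else 0)) :=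
    Measurable.ite hs measurable_const measurable_const
  have h8 : Measurable (fun x : ℝ × ℝ × ℝ =>
      (if |x.2.1 - x.2.2| * Real.log z < 1 then (0 : ℝ)
        else |SBr z y (x.2.1 - x.2.2)| + ‖SG y P (x.2.1 - x.2.2)‖)) := by
    apply Measurable.ite hs measurable_const
    fun_prop
  unfold Qk
  fun_prop



/-! ### integrability of the kernel -/

/-- the weighted majorant kernel -/
noncomputable def dvaH (C : ℝ) (K : ℕ) (h : ℝ) (z₁ z y P : ℕ) (t₀ t t' : ℝ) : ℝ :=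
  Qk C z₁ z y P t₀ t t' * (wK K ((t - t₀) / h) * wK K ((t' - t₀) / h))

theorem dva_H_meas (C : ℝ) (K : ℕ) (h : ℝ) (z₁ z y P : ℕ) :
    Measurable (fun x : ℝ × ℝ × ℝ => dvaH C K h z₁ z y P x.1 x.2.1 x.2.2) := by
  have h1 := dva_Qk_meas C z₁ z y P
  have h2 := (wK_continuous K).measurable
  unfold dvaH
  fun_prop

theorem dva_H_le (C : ℝ) (K : ℕ) (h : ℝ) (z₁ z y P : ℕ) (t₀ t t' : ℝ) :
    ‖dvaH C K h z₁ z y P t₀ t t'‖ ≤ dvaG C z₁ z y P t₀ t t' := by
  unfold dvaH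
  rw [Real.norm_eq_abs, abs_mul]
  have h1 := dva_Qk_le C z₁ z y P t₀ t t'
  have h2 : |wK K ((t - t₀) / h) * wK K ((t' - t₀) / h)| ≤ 1 := by
    rw [abs_of_nonneg (mul_nonneg (wK_nonneg K _) (wK_nonneg K _))]
    exact mul_le_one₀ (wK_le_one K _) (wK_nonneg K _) (wK_le_one K _)
  calc _ ≤ |Qk C z₁ z y P t₀ t t'| * 1 := mul_le_mul_of_nonneg_left h2 (abs_nonneg _)
    _ ≤ _ := by rw [mul_one]; exact h1

theorem dva_H_int2 (C : ℝ) (K : ℕ) (h : ℝ) (z₁ z y P : ℕ) (t₀ a b : ℝ) :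
    Integrable (fun x : ℝ × ℝ => dvaH C K h z₁ z y P t₀ x.1 x.2)
      ((volume.restrict (Set.Ioc a b)).prod (volume.restrict (Set.Ioc a b))) := by
  rw [Measure.prod_restrict]
  have hc : IntegrableOn (fun x : ℝ × ℝ => dvaG C z₁ z y P t₀ x.1 x.2)
      (Set.Icc a b ×ˢ Set.Icc a b) (volume.prod volume) := by
    apply ContinuousOn.integrableOn_compact (isCompact_Icc.prod isCompact_Icc)
    exact ((dva_G_cont C z₁ z y P).comp
      (continuous_const.prodMk continuous_id : Continuous (fun x : ℝ × ℝ => (t₀, x)))).continuousOn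
  have hc2 := hc.mono_set (Set.prod_mono (Set.Ioc_subset_Icc_self (a := a) (b := b))
    (Set.Ioc_subset_Icc_self (a := a) (b := b)))
  refine Integrable.mono' hc2 ?_ (Filter.Eventually.of_forall fun x => dva_H_le C K h z₁ z y P _ _ _)
  exact ((dva_H_meas C K h z₁ z y P).comp
    (measurable_const.prodMk measurable_id : Measurable (fun x : ℝ × ℝ => (t₀, x)))).aestronglyMeasurable

theorem dva_H_iter (C : ℝ) (K : ℕ) (h : ℝ) (z₁ z y P : ℕ) (t₀ : ℝ) {a b : ℝ} (hab : a ≤ b) :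
    ∫ x : ℝ × ℝ, dvaH C K h z₁ z y P t₀ x.1 x.2
      ∂((volume.restrict (Set.Ioc a b)).prod (volume.restrict (Set.Ioc a b))) =
    ∫ t in a..b, ∫ t' in a..b, dvaH C K h z₁ z y P t₀ t t' := by
  rw [integral_prod _ (dva_H_int2 C K h z₁ z y P t₀ a b), intervalIntegral.integral_of_le hab]
  simp only [intervalIntegral.integral_of_le hab]

theorem dva_shift (f : ℝ → ℝ) (t₀ r : ℝ) :
    ∫ t in (t₀ - r)..(t₀ + r), f t = ∫ u in (-r)..r, f (t₀ + u) := by
  rw [intervalIntegral.integral_comp_add_left (fun u => f u) t₀, ← sub_eq_add_neg]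

theorem dva_I_int (C : ℝ) (K : ℕ) (h : ℝ) (z₁ z y P : ℕ) {r T₁ T₂ : ℝ} (hr : 0 ≤ r)
    (hT : T₁ ≤ T₂) :
    IntervalIntegrable (fun t₀ => ∫ t in (t₀ - r)..(t₀ + r), ∫ t' in (t₀ - r)..(t₀ + r),
      dvaH C K h z₁ z y P t₀ t t') volume T₁ T₂ := by
  rw [intervalIntegrable_iff_integrableOn_Ioc_of_le hT]
  have hrr : -r ≤ r := by linarith
  have e : (fun t₀ => ∫ t in (t₀ - r)..(t₀ + r), ∫ t' in (t₀ - r)..(t₀ + r),
      dvaH C K h z₁ z y P t₀ t t') = fun t₀ => ∫ x : ℝ × ℝ,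
        dvaH C K h z₁ z y P t₀ (t₀ + x.1) (t₀ + x.2)
        ∂((volume.restrict (Set.Ioc (-r) r)).prod (volume.restrict (Set.Ioc (-r) r))) := by
    funext t₀
    have hi : Integrable (fun x : ℝ × ℝ => dvaH C K h z₁ z y P t₀ (t₀ + x.1) (t₀ + x.2))
        ((volume.restrict (Set.Ioc (-r) r)).prod (volume.restrict (Set.Ioc (-r) r))) := by
      rw [Measure.prod_restrict]
      have hc : IntegrableOn (fun x : ℝ × ℝ => dvaG C z₁ z y P t₀ (t₀ + x.1) (t₀ + x.2))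
          (Set.Icc (-r) r ×ˢ Set.Icc (-r) r) (volume.prod volume) := by
        apply ContinuousOn.integrableOn_compact (isCompact_Icc.prod isCompact_Icc)
        exact ((dva_G_cont C z₁ z y P).comp (by fun_prop :
          Continuous (fun x : ℝ × ℝ => (t₀, t₀ + x.1, t₀ + x.2)))).continuousOn
      have hc2 := hc.mono_set (Set.prod_mono (Set.Ioc_subset_Icc_self (a := -r) (b := r))
        (Set.Ioc_subset_Icc_self (a := -r) (b := r)))
      refine Integrable.mono' hc2 ?_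
        (Filter.Eventually.of_forall fun x => dva_H_le C K h z₁ z y P _ _ _)
      exact ((dva_H_meas C K h z₁ z y P).comp (by fun_prop :
        Measurable (fun x : ℝ × ℝ => (t₀, t₀ + x.1, t₀ + x.2)))).aestronglyMeasurable
    rw [integral_prod _ hi, dva_shift]
    rw [intervalIntegral.integral_of_le hrr]
    refine integral_congr_ae (Filter.Eventually.of_forall fun u => ?_)
    simp only
    rw [dva_shift, intervalIntegral.integral_of_le hrr]
  rw [e]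
  have hF : Integrable (fun x : ℝ × ℝ × ℝ => dvaH C K h z₁ z y P x.1 (x.1 + x.2.1) (x.1 + x.2.2))
      ((volume.restrict (Set.Ioc T₁ T₂)).prod
        ((volume.restrict (Set.Ioc (-r) r)).prod (volume.restrict (Set.Ioc (-r) r)))) := by
    rw [Measure.prod_restrict, Measure.prod_restrict]
    have hc : IntegrableOn (fun x : ℝ × ℝ × ℝ => dvaG C z₁ z y P x.1 (x.1 + x.2.1) (x.1 + x.2.2))
        (Set.Icc T₁ T₂ ×ˢ (Set.Icc (-r) r ×ˢ Set.Icc (-r) r))
        (volume.prod (volume.prod volume)) := by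
      apply ContinuousOn.integrableOn_compact
        (isCompact_Icc.prod (isCompact_Icc.prod isCompact_Icc))
      exact ((dva_G_cont C z₁ z y P).comp (by fun_prop :
        Continuous (fun x : ℝ × ℝ × ℝ => (x.1, x.1 + x.2.1, x.1 + x.2.2)))).continuousOn
    have hc2 := hc.mono_set (Set.prod_mono (Set.Ioc_subset_Icc_self (a := T₁) (b := T₂))
      (Set.prod_mono (Set.Ioc_subset_Icc_self (a := -r) (b := r))
      (Set.Ioc_subset_Icc_self (a := -r) (b := r))))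
    refine Integrable.mono' hc2 ?_
      (Filter.Eventually.of_forall fun x => dva_H_le C K h z₁ z y P _ _ _)
    exact ((dva_H_meas C K h z₁ z y P).comp (by fun_prop :
      Measurable (fun x : ℝ × ℝ × ℝ => (x.1, x.1 + x.2.1, x.1 + x.2.2)))).aestronglyMeasurable
  exact hF.integral_prod_left

/-! ### averages -/

theorem dva_MP_pos (P : ℕ) : (0 : ℝ) < MP P := by exact_mod_cast rm_MP_pos P

theorem dva_RR_mono (P : ℕ) {f g : ℤ → ℝ} (h : ∀ D, f D ≤ g D) : RR P f ≤ RR P g := by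
  unfold RR
  exact div_le_div_of_nonneg_right (Finset.sum_le_sum fun D _ => h D) (dva_MP_pos P).le

theorem dva_RR_nonneg (P : ℕ) {f : ℤ → ℝ} (h : ∀ D, 0 ≤ f D) : 0 ≤ RR P f := by
  unfold RR
  exact div_nonneg (Finset.sum_nonneg fun D _ => h D) (dva_MP_pos P).le

theorem dva_RR_add (P : ℕ) (k : ℝ) (f g : ℤ → ℝ) :
    RR P (fun D => k * f D + k * g D) = k * RR P f + k * RR P g := by
  unfold RR
  rw [Finset.sum_add_distrib, add_div, ← Finset.mul_sum, ← Finset.mul_sum, mul_div_assoc,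
    mul_div_assoc]

theorem dva_RA_int {α : Type*} [MeasurableSpace α] (μ : Measure α) (P : ℕ) (F : ℤ → α → ℂ)
    (hF : ∀ D, Integrable (F D) μ) :
    RA P (fun D => ∫ x, F D x ∂μ) = ∫ x, RA P (fun D => F D x) ∂μ := by
  unfold RA
  rw [integral_div, integral_finsetSum]
  intro D _
  exact hF D

/-- second moment of an integral, through the covariance kernel -/
theorem dva_second {ν : Measure ℝ} [SFinite ν] (P : ℕ) (A : ℤ → ℝ → ℂ)
    (hA : ∀ D, Integrable (A D) ν) {H : ℝ × ℝ → ℝ} (hH : Integrable H (ν.prod ν))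
    (hle : ∀ᵐ x ∂(ν.prod ν), ‖RA P (fun D => A D x.1 * (starRingEnd ℂ) (A D x.2))‖ ≤ H x) :
    RR P (fun D => ‖∫ t, A D t ∂ν‖ ^ 2) ≤ ∫ x, H x ∂(ν.prod ν) := by
  have h1 : ((RR P (fun D => ‖∫ t, A D t ∂ν‖ ^ 2) : ℝ) : ℂ) =
      RA P (fun D => ∫ x : ℝ × ℝ, A D x.1 * (starRingEnd ℂ) (A D x.2) ∂(ν.prod ν)) := by
    unfold RR RA
    push_cast
    congr 1
    refine Finset.sum_congr rfl fun D _ => ?_
    have := integral_prod_mul (μ := ν) (ν := ν) (A D) (fun t => (starRingEnd ℂ) (A D t))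
    rw [this, integral_conj, Complex.mul_conj, Complex.normSq_eq_norm_sq]
    push_cast
    rfl
  have h2 := dva_RA_int (ν.prod ν) P (fun D x => A D x.1 * (starRingEnd ℂ) (A D x.2))
    (fun D => by
      have hc : Integrable (fun t => (starRingEnd ℂ) (A D t)) ν := by
        exact (Complex.conjCLE.toContinuousLinearMap.integrable_comp (hA D))
      exact (hA D).mul_prod hc)
  rw [h2] at h1
  have h3 : 0 ≤ RR P (fun D => ‖∫ t, A D t ∂ν‖ ^ 2) := dva_RR_nonneg P fun D => by positivity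
  calc RR P (fun D => ‖∫ t, A D t ∂ν‖ ^ 2) = ‖((RR P (fun D => ‖∫ t, A D t ∂ν‖ ^ 2) : ℝ) : ℂ)‖ := by
        rw [norm_real, Real.norm_of_nonneg h3]
    _ ≤ _ := by
        rw [h1]
        exact norm_integral_le_of_norm_le hH hle

/-! ### splitting of the window -/

theorem dva_wint {K : ℕ} (hK : 1 ≤ K) {h : ℝ} (hh : 0 < h) (t₀ : ℝ) :
    Integrable (fun t : ℝ => ((wK K ((t - t₀) / h) : ℝ) : ℂ)) ∧
    ∫ t : ℝ, ((wK K ((t - t₀) / h) : ℝ) : ℂ) = h * what K 0 := by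
  have h1 := what_scale hK hh t₀ 0
  simpa using h1

theorem dva_fint {K : ℕ} (hK : 1 ≤ K) {h : ℝ} (hh : 0 < h) (z₁ z y P : ℕ) (D : ℤ) (t₀ : ℝ) (e : ℂ) :
    Integrable (fun t : ℝ => (EX z₁ z y P D t t₀ - e) * ((wK K ((t - t₀) / h) : ℝ) : ℂ)) := by
  obtain ⟨B, hB⟩ := dva_EX_bdd z₁ z y P D t₀
  apply (dva_wint hK hh t₀).1.bdd_mul (c := B + ‖e‖)
  · exact ((dva_EX_cont z₁ z y P D t₀).sub continuous_const).aestronglyMeasurable
  · refine Filter.Eventually.of_forall fun t => ?_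
    exact (norm_sub_le _ _).trans (add_le_add_left (hB t) _)

theorem dva_split {K : ℕ} (hK : 1 ≤ K) {h : ℝ} (hh : 0 < h) (z₁ z y P : ℕ) (D : ℤ) (t₀ r : ℝ)
    (e : ℂ) :
    GGex K z₁ z y P h D t₀ - what K 0 * e =
      (∫ t in Set.Ioc (t₀ - r) (t₀ + r), (EX z₁ z y P D t t₀ - e) *
        ((wK K ((t - t₀) / h) : ℝ) : ℂ)) / h +
      (∫ t in {t : ℝ | r < |t - t₀|}, (EX z₁ z y P D t t₀ - e) *
        ((wK K ((t - t₀) / h) : ℝ) : ℂ)) / h := by
  have hf := dva_fint hK hh z₁ z y P D t₀ e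
  have hs : MeasurableSet {t : ℝ | r < |t - t₀|} := by
    apply measurableSet_lt <;> fun_prop
  have hc : {t : ℝ | r < |t - t₀|}ᶜ = Set.Icc (t₀ - r) (t₀ + r) := by
    ext t
    simp only [Set.mem_compl_iff, Set.mem_ofPred_eq, not_lt, Set.mem_Icc, abs_le]
    constructor
    · rintro ⟨h1, h2⟩
      constructor <;> linarith
    · rintro ⟨h1, h2⟩
      constructor <;> linarith
  have h1 := integral_add_compl hs hf
  rw [hc, integral_Icc_eq_integral_Ioc] at h1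
  have h2 : ∫ t : ℝ, (EX z₁ z y P D t t₀ - e) * ((wK K ((t - t₀) / h) : ℝ) : ℂ) =
      h * GGex K z₁ z y P h D t₀ - e * (h * what K 0) := by
    have h3 : Integrable (fun t : ℝ => EX z₁ z y P D t t₀ * ((wK K ((t - t₀) / h) : ℝ) : ℂ)) := by
      have := dva_fint hK hh z₁ z y P D t₀ 0
      simpa using this
    have h4 : Integrable (fun t : ℝ => e * ((wK K ((t - t₀) / h) : ℝ) : ℂ)) :=
      (dva_wint hK hh t₀).1.const_mul e
    have h5 : ∀ t : ℝ, (EX z₁ z y P D t t₀ - e) * ((wK K ((t - t₀) / h) : ℝ) : ℂ) =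
        EX z₁ z y P D t t₀ * ((wK K ((t - t₀) / h) : ℝ) : ℂ) -
          e * ((wK K ((t - t₀) / h) : ℝ) : ℂ) := fun t => by ring
    simp only [h5]
    rw [integral_sub h3 h4, integral_const_mul, (dva_wint hK hh t₀).2]
    unfold GGex
    have hh' : (h : ℂ) ≠ 0 := by exact_mod_cast hh.ne'
    rw [mul_div_cancel₀ _ hh']
  have hh' : (h : ℂ) ≠ 0 := by exact_mod_cast hh.ne'
  rw [← add_div, add_comm, h1, h2]
  field_simp

/-! ### the near part -/

theorem dva_near (K : ℕ) {h : ℝ} (hh : 0 < h) {z₁ z y P : ℕ} {t₀ r C C₀ : ℝ} {e : ℂ} (hr : 0 ≤ r)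
    (hk : ∀ t t' : ℝ, |t - t₀| ≤ r → |t' - t₀| ≤ r →
      ‖RA P (fun D => (EX z₁ z y P D t t₀ - e) * (starRingEnd ℂ) (EX z₁ z y P D t' t₀ - e))‖ ≤
        C * ‖e‖ ^ 2 * Qk C₀ z₁ z y P t₀ t t') :
    RR P (fun D => ‖(∫ t in Set.Ioc (t₀ - r) (t₀ + r), (EX z₁ z y P D t t₀ - e) *
        ((wK K ((t - t₀) / h) : ℝ) : ℂ)) / h‖ ^ 2) ≤
      C * ‖e‖ ^ 2 * ((∫ t in (t₀ - r)..(t₀ + r), ∫ t' in (t₀ - r)..(t₀ + r),
        dvaH C₀ K h z₁ z y P t₀ t t') / h ^ 2) := by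
  set ν : Measure ℝ := volume.restrict (Set.Ioc (t₀ - r) (t₀ + r)) with hν
  set A : ℤ → ℝ → ℂ := fun D t => (EX z₁ z y P D t t₀ - e) * ((wK K ((t - t₀) / h) : ℝ) : ℂ)
    with hA
  have hAc : ∀ D, Continuous (A D) := by
    intro D
    have h1 := dva_EX_cont z₁ z y P D t₀
    have h2 := wK_continuous K
    simp only [hA]
    fun_prop
  have hAi : ∀ D, Integrable (A D) ν := fun D =>
    ((hAc D).continuousOn.integrableOn_compact isCompact_Icc).mono_set Set.Ioc_subset_Icc_self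
  have hH := (dva_H_int2 C₀ K h z₁ z y P t₀ (t₀ - r) (t₀ + r)).const_mul (C * ‖e‖ ^ 2)
  have key := dva_second P A hAi hH (by
    rw [hν, Measure.prod_restrict]
    filter_upwards [ae_restrict_mem (measurableSet_Ioc.prod measurableSet_Ioc)] with x hx
    obtain ⟨hx1, hx2⟩ := hx
    have b1 : |x.1 - t₀| ≤ r := by
      rw [abs_le]
      constructor <;> linarith [hx1.1, hx1.2]
    have b2 : |x.2 - t₀| ≤ r := by
      rw [abs_le]
      constructor <;> linarith [hx2.1, hx2.2]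
    have e1 : RA P (fun D => A D x.1 * (starRingEnd ℂ) (A D x.2)) =
        RA P (fun D => (EX z₁ z y P D x.1 t₀ - e) *
          (starRingEnd ℂ) (EX z₁ z y P D x.2 t₀ - e)) *
        (((wK K ((x.1 - t₀) / h) * wK K ((x.2 - t₀) / h) : ℝ)) : ℂ) := by
      unfold RA
      rw [div_mul_eq_mul_div, Finset.sum_mul]
      congr 1
      refine Finset.sum_congr rfl fun D _ => ?_
      simp only [hA, map_mul, Complex.conj_ofReal]
      push_cast
      ring
    rw [e1, norm_mul, norm_real, Real.norm_of_nonneg (mul_nonneg (wK_nonneg K _) (wK_nonneg K _))]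
    unfold dvaH
    calc _ ≤ C * ‖e‖ ^ 2 * Qk C₀ z₁ z y P t₀ x.1 x.2 *
          (wK K ((x.1 - t₀) / h) * wK K ((x.2 - t₀) / h)) :=
          mul_le_mul_of_nonneg_right (hk _ _ b1 b2) (mul_nonneg (wK_nonneg K _) (wK_nonneg K _))
      _ = _ := by ring)
  rw [integral_const_mul, dva_H_iter C₀ K h z₁ z y P t₀ (by linarith)] at key
  have e2 : RR P (fun D => ‖(∫ t in Set.Ioc (t₀ - r) (t₀ + r), (EX z₁ z y P D t t₀ - e) *
        ((wK K ((t - t₀) / h) : ℝ) : ℂ)) / h‖ ^ 2) = RR P (fun D => ‖∫ t, A D t ∂ν‖ ^ 2) / h ^ 2 := by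
    have e3 : ∀ D : ℤ, ‖(∫ t in Set.Ioc (t₀ - r) (t₀ + r), (EX z₁ z y P D t t₀ - e) *
        ((wK K ((t - t₀) / h) : ℝ) : ℂ)) / h‖ ^ 2 = ‖∫ t, A D t ∂ν‖ ^ 2 / h ^ 2 := by
      intro D
      rw [norm_div, div_pow, norm_real, Real.norm_of_nonneg hh.le]
    simp only [e3]
    unfold RR
    rw [← Finset.sum_div, div_right_comm]
  rw [e2, ← mul_div_assoc]
  exact div_le_div_of_nonneg_right key (by positivity)

theorem dva_sq (a b : ℂ) : ‖a + b‖ ^ 2 ≤ 2 * ‖a‖ ^ 2 + 2 * ‖b‖ ^ 2 := by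
  have h := norm_add_le a b
  have h0 := norm_nonneg (a + b)
  have h1 := sq_nonneg (‖a‖ - ‖b‖)
  nlinarith [norm_nonneg a, norm_nonneg b]

/-! ### the theorem -/

theorem dva_Qk_nonneg (C : ℝ) (z₁ z y P : ℕ) (t₀ t t' : ℝ) : 0 ≤ Qk C z₁ z y P t₀ t t' := by
  have hm : ∀ u : ℝ, 0 ≤ mm z₁ C u := by
    intro u
    unfold mm
    have := dva_logn z₁
    positivity
  have h1 := hm (t - t₀)
  have h2 := hm (t' - t₀)
  have h3 := dva_rho_nonneg z y (t - t')
  have h4 := dva_rho_nonneg y P (t - t')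
  unfold Qk
  have h5 : (0 : ℝ) ≤ (if |t - t'| * Real.log z < 1 then 1 else 0) := by split_ifs <;> norm_num
  have h6 : (0 : ℝ) ≤ (if |t - t'| * Real.log z < 1 then 0
      else |SBr z y (t - t')| + ‖SG y P (t - t')‖) := by
    split_ifs
    · exact le_rfl
    · positivity
  positivity

theorem dva_I_nonneg (C : ℝ) (K : ℕ) (h : ℝ) (z₁ z y P : ℕ) (t₀ : ℝ) {r : ℝ} (hr : 0 ≤ r) :
    0 ≤ ∫ t in (t₀ - r)..(t₀ + r), ∫ t' in (t₀ - r)..(t₀ + r), dvaH C K h z₁ z y P t₀ t t' := by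
  apply intervalIntegral.integral_nonneg (by linarith)
  intro t _
  apply intervalIntegral.integral_nonneg (by linarith)
  intro t' _
  unfold dvaH
  exact mul_nonneg (dva_Qk_nonneg C z₁ z y P t₀ t t') (mul_nonneg (wK_nonneg K _) (wK_nonneg K _))

theorem dva_mono {f g : ℝ → ℝ} {a b : ℝ} (hab : a ≤ b) (hg : IntervalIntegrable g volume a b)
    (h0 : ∀ x ∈ Set.Icc a b, 0 ≤ f x) (hfg : ∀ x ∈ Set.Icc a b, f x ≤ g x) :
    ∫ x in a..b, f x ≤ ∫ x in a..b, g x := by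
  by_cases hf : IntervalIntegrable f volume a b
  · exact intervalIntegral.integral_mono_on hab hf hg hfg
  · rw [intervalIntegral.integral_undef hf]
    exact intervalIntegral.integral_nonneg hab (fun x hx => (h0 x hx).trans (hfg x hx))

theorem D_var : ∃ K₀ : ℕ, ∀ (K : ℕ) (T₁ T₂ : ℝ), K₀ ≤ K → 0 < T₁ → T₁ < T₂ → ∃ C κ : ℝ, 0 < κ ∧
    ∀ (h ζ : ℝ) (z₁ z y P : ℕ), 0 < h → h ≤ 1 → 0 < ζ → ζ ≤ 1 → z0 ≤ z₁ → z₁ ≤ z → z ≤ y → y ≤ P →
    Real.log P ≤ 1 / h ^ 2 → h * Real.log z₁ ≤ ζ → 1 ≤ ζ * (h * Real.log z) →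
    ∫ t₀ in T₁..T₂, RR P (fun D =>
      ‖GGex K z₁ z y P h D t₀ - what K 0 * RA P (fun D' => EX z₁ z y P D' t₀ t₀)‖ ^ 2) ≤
      C * ζ ^ κ * (Real.log (Real.log P + 3)) ^ C * (Real.log y / Real.log z) ^ (1 / 2 : ℝ) := by
  obtain ⟨C₀, hC₀, hker⟩ := D_kernel_unif
  obtain ⟨K₁, hint⟩ := D_int C₀ hC₀
  obtain ⟨K₂, htail⟩ := D_tail
  refine ⟨max (max K₁ K₂) 1, fun K T₁ T₂ hK hT hT' => ?_⟩
  have hKK₁ : K₁ ≤ K := (le_max_left _ _).trans ((le_max_left _ _).trans hK)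
  have hKK₂ : K₂ ≤ K := (le_max_right _ _).trans ((le_max_left _ _).trans hK)
  have hK1 : 1 ≤ K := (le_max_right _ _).trans hK
  obtain ⟨Ck, hCk, hk⟩ := hker T₁ T₂ hT
  obtain ⟨Ci, hi⟩ := hint K T₁ T₂ hKK₁ hT hT'
  obtain ⟨Ct, ht⟩ := htail K T₁ T₂ hKK₂ hT
  obtain ⟨c₀, Cm, hc₀, hmean⟩ := D_mean T₁ T₂ hT
  have hCi0 : 0 ≤ max Ci 0 := le_max_right _ _
  set M : ℝ := 2 * Ck * Cm ^ 2 * max Ci 0 + 2 * |Ct| * (T₂ - T₁) with hM
  have hTT : 0 < T₂ - T₁ := by linarith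
  have hM0 : 0 ≤ M := by positivity
  refine ⟨M + max Ci 0, 1 / 2, by norm_num, ?_⟩
  intro h ζ z₁ z y P hh hh1 hζ hζ1 hz0 hz1 hzy hyP hP hζ2 hζ3
  -- elementary facts
  have hz1' : (10000 : ℝ) ≤ z := by
    have : z0 ≤ z := hz0.trans hz1
    unfold z0 at this
    exact_mod_cast this
  have hlz : 0 < Real.log z := Real.log_pos (by linarith)
  have hlzy : Real.log z ≤ Real.log y :=
    Real.log_le_log (by linarith) (by exact_mod_cast hzy)
  have hlzP : Real.log z ≤ Real.log P :=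
    Real.log_le_log (by linarith) (by exact_mod_cast hzy.trans hyP)
  have hhζ : h ≤ ζ := by
    have h1 : ζ * (h * Real.log z) ≤ ζ * (h * (1 / h ^ 2)) := by
      apply mul_le_mul_of_nonneg_left _ hζ.le
      exact mul_le_mul_of_nonneg_left (hlzP.trans hP) hh.le
    have h2 : ζ * (h * (1 / h ^ 2)) = ζ / h := by field_simp
    rw [h2] at h1
    have h3 := hζ3.trans h1
    rw [le_div_iff₀ hh] at h3
    linarith
  have hζ' : ζ ≤ ζ ^ (1 / 2 : ℝ) := by
    have := Real.rpow_le_rpow_of_exponent_ge hζ hζ1 (by norm_num : (1 / 2 : ℝ) ≤ 1)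
    rwa [Real.rpow_one] at this
  set LL : ℝ := Real.log (Real.log P + 3) with hLL
  have hLL1 : 1 ≤ LL := by
    rw [hLL, Real.le_log_iff_exp_le (by linarith)]
    linarith [Real.exp_one_lt_d9]
  set R : ℝ := (Real.log y / Real.log z) ^ (1 / 2 : ℝ) with hR
  have hyz : 1 ≤ Real.log y / Real.log z := by rw [le_div_iff₀ hlz]; linarith
  have hR1 : 1 ≤ R := Real.one_le_rpow hyz (by norm_num)
  set e : ℝ → ℂ := fun t₀ => RA P (fun D' => EX z₁ z y P D' t₀ t₀) with he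
  set J : ℝ → ℝ := fun t₀ => ∫ t in (t₀ - T₁ / 2)..(t₀ + T₁ / 2),
    ∫ t' in (t₀ - T₁ / 2)..(t₀ + T₁ / 2), dvaH C₀ K h z₁ z y P t₀ t t' with hJ
  have hT2 : 0 ≤ T₁ / 2 := by linarith
  -- pointwise bound
  have hpt : ∀ t₀ ∈ Set.Icc T₁ T₂, RR P (fun D =>
      ‖GGex K z₁ z y P h D t₀ - what K 0 * e t₀‖ ^ 2) ≤
      2 * Ck * Cm ^ 2 * R * (J t₀ / h ^ 2) + 2 * |Ct| * h := by
    intro t₀ ht₀
    have hs1 : RR P (fun D => ‖GGex K z₁ z y P h D t₀ - what K 0 * e t₀‖ ^ 2) ≤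
        RR P (fun D => 2 * ‖(∫ t in Set.Ioc (t₀ - T₁ / 2) (t₀ + T₁ / 2),
          (EX z₁ z y P D t t₀ - e t₀) * ((wK K ((t - t₀) / h) : ℝ) : ℂ)) / h‖ ^ 2 +
          2 * ‖(∫ t in {t : ℝ | T₁ / 2 < |t - t₀|},
          (EX z₁ z y P D t t₀ - e t₀) * ((wK K ((t - t₀) / h) : ℝ) : ℂ)) / h‖ ^ 2) := by
      apply dva_RR_mono
      intro D
      rw [dva_split hK1 hh z₁ z y P D t₀ (T₁ / 2) (e t₀)]
      exact dva_sq _ _
    rw [dva_RR_add] at hs1
    have hs2 := dva_near K hh (z₁ := z₁) (z := z) (y := y) (P := P) (t₀ := t₀) (r := T₁ / 2)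
      (C := Ck) (e := e t₀) hT2
      (C₀ := C₀) (fun t t' h1 h2 => hk t₀ t t' z₁ z y P ht₀.1 ht₀.2 h1 h2 hz0 hz1 hzy hyP)
    have hs3 := ht h t₀ z₁ z y P hh hh1 ht₀.1 ht₀.2 hz0 hz1 hzy hyP hP
    have hs4 : ‖e t₀‖ ^ 2 ≤ Cm ^ 2 * R := by
      have h1 := (hmean t₀ z₁ z y P ht₀.1 ht₀.2 hz0 hz1 hzy hyP).2
      have h2 : ‖e t₀‖ ^ 2 ≤ (Cm * (Real.log y / Real.log z) ^ (1 / 4 : ℝ)) ^ 2 :=
        pow_le_pow_left₀ (norm_nonneg _) h1 2
      have h3 : ((Real.log y / Real.log z) ^ (1 / 4 : ℝ)) ^ 2 = R := by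
        rw [hR, ← Real.rpow_natCast, ← Real.rpow_mul (by linarith)]
        norm_num
      rwa [mul_pow, h3] at h2
    have hJ0 : 0 ≤ J t₀ / h ^ 2 :=
      div_nonneg (dva_I_nonneg C₀ K h z₁ z y P t₀ hT2) (by positivity)
    have hs5 : Ck * ‖e t₀‖ ^ 2 * (J t₀ / h ^ 2) ≤ Ck * (Cm ^ 2 * R) * (J t₀ / h ^ 2) := by
      apply mul_le_mul_of_nonneg_right _ hJ0
      exact mul_le_mul_of_nonneg_left hs4 hCk.le
    have hs6 : Ct * h ≤ |Ct| * h := mul_le_mul_of_nonneg_right (le_abs_self _) hh.le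
    refine hs1.trans ?_
    linarith [hs2.trans hs5, hs3.trans hs6]
  have hJi : IntervalIntegrable J volume T₁ T₂ := dva_I_int C₀ K h z₁ z y P hT2 hT'.le
  have hJi' : IntervalIntegrable (fun t₀ => 2 * Ck * Cm ^ 2 * R * (J t₀ / h ^ 2)) volume T₁ T₂ :=
    (hJi.div_const _).const_mul _
  have hgi : IntervalIntegrable (fun t₀ => 2 * Ck * Cm ^ 2 * R * (J t₀ / h ^ 2) + 2 * |Ct| * h)
      volume T₁ T₂ := hJi'.add intervalIntegrable_const
  have hm1 := dva_mono hT'.le hgi (fun t₀ _ => dva_RR_nonneg P fun D => by positivity) hpt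
  rw [intervalIntegral.integral_add hJi' intervalIntegrable_const,
    intervalIntegral.integral_const_mul, intervalIntegral.integral_const, smul_eq_mul] at hm1
  have hm2 : ∫ t₀ in T₁..T₂, J t₀ / h ^ 2 ≤ max Ci 0 * ζ ^ (1 / 2 : ℝ) * LL ^ (max Ci 0) := by
    have h1 := hi h ζ z₁ z y P hh hh1 hζ hζ1 hz0 hz1 hzy hyP hζ2 hζ3
    refine h1.trans ?_
    have h2 : LL ^ Ci ≤ LL ^ (max Ci 0) := Real.rpow_le_rpow_of_exponent_le hLL1 (le_max_left _ _)
    have h3 : 0 ≤ ζ ^ (1 / 2 : ℝ) := by positivity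
    calc Ci * ζ ^ (1 / 2 : ℝ) * LL ^ Ci ≤ max Ci 0 * ζ ^ (1 / 2 : ℝ) * LL ^ Ci := by
          gcongr
          exact le_max_left _ _
      _ ≤ _ := by gcongr
  refine hm1.trans ?_
  set Z : ℝ := ζ ^ (1 / 2 : ℝ) with hZ
  have hZ0 : 0 < Z := by positivity
  have hE1 : 1 ≤ LL ^ (max Ci 0) := Real.one_le_rpow hLL1 hCi0
  have hE2 : LL ^ (max Ci 0) ≤ LL ^ (M + max Ci 0) :=
    Real.rpow_le_rpow_of_exponent_le hLL1 (by linarith)
  have hb1 : 2 * Ck * Cm ^ 2 * R * ∫ t₀ in T₁..T₂, J t₀ / h ^ 2 ≤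
      2 * Ck * Cm ^ 2 * R * (max Ci 0 * Z * LL ^ (max Ci 0)) := by
    gcongr
  have hb2 : (T₂ - T₁) * (2 * |Ct| * h) ≤ 2 * |Ct| * (T₂ - T₁) * Z * LL ^ (max Ci 0) * R := by
    have h1 : h ≤ Z := hhζ.trans hζ'
    have h2 : 1 ≤ LL ^ (max Ci 0) * R := by nlinarith
    have h3 : 0 ≤ 2 * |Ct| * (T₂ - T₁) := by positivity
    calc (T₂ - T₁) * (2 * |Ct| * h) = 2 * |Ct| * (T₂ - T₁) * h := by ring
      _ ≤ 2 * |Ct| * (T₂ - T₁) * Z := mul_le_mul_of_nonneg_left h1 h3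
      _ = 2 * |Ct| * (T₂ - T₁) * Z * 1 := by ring
      _ ≤ 2 * |Ct| * (T₂ - T₁) * Z * (LL ^ (max Ci 0) * R) :=
          mul_le_mul_of_nonneg_left h2 (by positivity)
      _ = _ := by ring
  have hb3 : M * Z * LL ^ (max Ci 0) * R ≤ (M + max Ci 0) * Z * LL ^ (M + max Ci 0) * R := by
    gcongr
    linarith
  calc _ ≤ 2 * Ck * Cm ^ 2 * R * (max Ci 0 * Z * LL ^ (max Ci 0)) +
        2 * |Ct| * (T₂ - T₁) * Z * LL ^ (max Ci 0) * R := by linarith
    _ = M * Z * LL ^ (max Ci 0) * R := by rw [hM]; ring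
    _ ≤ _ := hb3

end Pool.Agent.CZ
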