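import Mathlib
import Pool.Agent.CZ.Defs
import Pool.Agent.CZ.W
import Pool.Agent.ZD.R1

/-!
# Critical zeros (MP_553913_nt): the central window
-/

set_option autoImplicit false

open Complex Finset MeasureTheory

namespace Pool.Agent.CZ

open Pool.Agent.ZD (S)

theorem ECE_sB_continuous {D : ℤ} {M : ℝ} (hM : 0 < M) : Continuous (sB D M) := by
  have h1 : Continuous (fun x : ℝ => ((Real.exp x / M : ℝ) : ℂ)) := by fun_prop
  have h2 : Continuous (fun x : ℝ => S D ((Real.exp x / M : ℝ) : ℂ)) := by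
    refine (Pool.Agent.ZD.R.S_continuousOn D).comp_continuous h1 fun x => ?_
    change 0 < ((Real.exp x / M : ℝ) : ℂ).re
    rw [ofReal_re]
    positivity
  exact h1.mul h2

theorem ECE_Md_pos {d : ℕ} (hd : 0 < d) : 0 < Md d := by
  unfold Md
  have : (0 : ℝ) < d := by exact_mod_cast hd
  split_ifs <;> positivity

theorem ECE_eta_nonneg (x : ℝ) : 0 ≤ eta x := Real.smoothTransition.nonneg _

theorem ECE_eta_le_one (x : ℝ) : eta x ≤ 1 := Real.smoothTransition.le_one _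

theorem ECE_eta_zero {x : ℝ} (hx : 2 ≤ x) : eta x = 0 :=
  Real.smoothTransition.zero_of_nonpos (by linarith)

theorem ECE_norm_le {K : ℕ} {Cw : ℝ} (hCw : ∀ x, ‖what K x‖ ≤ Cw) {d : ℕ} (hd : 0 < d)
    (t₀ h R : ℝ) (hR : 0 < R) :
    ‖∫ x in Set.Ioi (0 : ℝ), sB d (Md d) x * (exp (I * t₀ * x) *
        what K (h * x) * (eta (x / R) : ℂ))‖ ≤
      Cw * ∫ x in Set.Ioc (0 : ℝ) (2 * R), ‖sB d (Md d) x‖ := by
  have h0 : ∫ x in Set.Ioi (0 : ℝ), sB d (Md d) x * (exp (I * t₀ * x) *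
        what K (h * x) * (eta (x / R) : ℂ)) =
      ∫ x in Set.Ioc (0 : ℝ) (2 * R), sB d (Md d) x * (exp (I * t₀ * x) *
        what K (h * x) * (eta (x / R) : ℂ)) := by
    refine setIntegral_eq_of_subset_of_forall_sdiff_eq_zero measurableSet_Ioi
      Set.Ioc_subset_Ioi_self ?_
    intro x hx
    have h1 : 2 * R < x := by
      by_contra hcon
      exact hx.2 ⟨hx.1, not_lt.1 hcon⟩
    have h2 : 2 ≤ x / R := by
      rw [le_div_iff₀ hR]
      exact h1.le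
    rw [ECE_eta_zero h2]
    simp
  rw [h0, ← integral_const_mul]
  have hcont := (ECE_sB_continuous (D := d) (ECE_Md_pos hd)).norm
  refine norm_integral_le_of_norm_le ?_ (Filter.Eventually.of_forall fun x => ?_)
  · exact ((hcont.integrableOn_Icc).mono_set Set.Ioc_subset_Icc_self).const_mul Cw
  · rw [norm_mul, norm_mul, norm_mul]
    have h1 : ‖exp (I * t₀ * x)‖ = 1 := by
      rw [show (I * t₀ * x : ℂ) = ((t₀ * x : ℝ) : ℂ) * I by push_cast; ring,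
        norm_exp_ofReal_mul_I]
    have h2 : ‖(eta (x / R) : ℂ)‖ ≤ 1 := by
      rw [norm_real, Real.norm_eq_abs, abs_of_nonneg (ECE_eta_nonneg _)]
      exact ECE_eta_le_one _
    have hw : ‖what K (h * x)‖ ≤ Cw := by
      have := hCw (h * x)
      simpa using this
    rw [h1, one_mul]
    have h3 : ‖what K (h * x)‖ * ‖(eta (x / R) : ℂ)‖ ≤ Cw * 1 :=
      mul_le_mul hw h2 (norm_nonneg _) ((norm_nonneg _).trans hw)
    calc ‖sB d (Md d) x‖ * (‖what K (h * x)‖ * ‖(eta (x / R) : ℂ)‖)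
        ≤ ‖sB d (Md d) x‖ * (Cw * 1) := mul_le_mul_of_nonneg_left h3 (norm_nonneg _)
      _ = Cw * ‖sB d (Md d) x‖ := by ring

theorem ECE_markov {K : ℕ} {Cw : ℝ} (hCw0 : 0 < Cw) (hCw : ∀ x, ‖what K x‖ ≤ Cw) {d : ℕ} (hd : 0 < d)
    {T₁ T₂ h R V : ℝ} (hT : T₁ ≤ T₂) (hR : 0 < R) (hV : 0 < V) :
    (volume {t₀ : ℝ | t₀ ∈ Set.Icc T₁ T₂ ∧ V < ‖∫ x in Set.Ioi (0 : ℝ), sB d (Md d) x *
      (exp (I * t₀ * x) * what K (h * x) * (eta (x / R) : ℂ))‖}).toReal ≤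
    (T₂ - T₁) * (Cw ^ 2 * (2 * R) / V ^ 2 * ∫ x in Set.Ioc (0 : ℝ) (2 * R), ‖sB d (Md d) x‖ ^ 2) := by
  have hcont := (ECE_sB_continuous (D := d) (ECE_Md_pos hd)).norm
  have hi1 : IntegrableOn (fun x => ‖sB d (Md d) x‖) (Set.Ioc (0 : ℝ) (2 * R)) :=
    (hcont.integrableOn_Icc).mono_set Set.Ioc_subset_Icc_self
  have hi2 : IntegrableOn (fun x => ‖sB d (Md d) x‖ ^ 2) (Set.Ioc (0 : ℝ) (2 * R)) :=
    ((hcont.pow 2).integrableOn_Icc).mono_set Set.Ioc_subset_Icc_self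
  have hQ : 0 ≤ ∫ x in Set.Ioc (0 : ℝ) (2 * R), ‖sB d (Md d) x‖ ^ 2 :=
    integral_nonneg fun x => by positivity
  by_cases hc : V < Cw * ∫ x in Set.Ioc (0 : ℝ) (2 * R), ‖sB d (Md d) x‖
  · have h1 : (volume {t₀ : ℝ | t₀ ∈ Set.Icc T₁ T₂ ∧ V < ‖∫ x in Set.Ioi (0 : ℝ), sB d (Md d) x *
        (exp (I * t₀ * x) * what K (h * x) * (eta (x / R) : ℂ))‖}).toReal ≤ T₂ - T₁ := by
      calc _ ≤ (volume (Set.Icc T₁ T₂)).toReal :=
            ENNReal.toReal_mono (by rw [Real.volume_Icc]; exact ENNReal.ofReal_ne_top)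
              (measure_mono fun t ht => ht.1)
        _ = T₂ - T₁ := by
          rw [Real.volume_Icc, ENNReal.toReal_ofReal (by linarith)]
    refine h1.trans (le_mul_of_one_le_right (by linarith) ?_)
    set l : ℝ := V / (Cw * (2 * R)) with hl
    have hl0 : 0 < l := by positivity
    have h2 : ∫ x in Set.Ioc (0 : ℝ) (2 * R), ‖sB d (Md d) x‖ ≤
        ∫ x in Set.Ioc (0 : ℝ) (2 * R), (‖sB d (Md d) x‖ ^ 2 / (2 * l) + l / 2) := by
      refine integral_mono hi1 ((hi2.div_const _).add (integrableOn_const (by rw [Real.volume_Ioc]; exact ENNReal.ofReal_ne_top))) fun x => ?_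
      have h3 : ‖sB d (Md d) x‖ ^ 2 / (2 * l) + l / 2 - ‖sB d (Md d) x‖ =
          (‖sB d (Md d) x‖ - l) ^ 2 / (2 * l) := by
        field_simp
        ring
      have h4 : 0 ≤ (‖sB d (Md d) x‖ - l) ^ 2 / (2 * l) := by positivity
      simp only
      linarith
    have h5 : ∫ x in Set.Ioc (0 : ℝ) (2 * R), (‖sB d (Md d) x‖ ^ 2 / (2 * l) + l / 2) =
        (∫ x in Set.Ioc (0 : ℝ) (2 * R), ‖sB d (Md d) x‖ ^ 2) / (2 * l) + 2 * R * (l / 2) := by
      rw [integral_add (hi2.div_const _) (integrableOn_const (by rw [Real.volume_Ioc]; exact ENNReal.ofReal_ne_top)), integral_div,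
        setIntegral_const]
      simp [hR.le]
    rw [h5] at h2
    set Qd : ℝ := ∫ x in Set.Ioc (0 : ℝ) (2 * R), ‖sB d (Md d) x‖ ^ 2 with hQd
    have h6 : V < Cw * (Qd / (2 * l) + 2 * R * (l / 2)) :=
      hc.trans_le (mul_le_mul_of_nonneg_left h2 hCw0.le)
    have h7 : Cw * (Qd / (2 * l) + 2 * R * (l / 2)) =
        (Cw ^ 2 * (2 * R) / V ^ 2 * Qd) * V / 2 + V / 2 := by
      rw [hl]
      field_simp
    rw [h7] at h6
    by_contra hcon
    push Not at hcon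
    nlinarith
  · have h1 : {t₀ : ℝ | t₀ ∈ Set.Icc T₁ T₂ ∧ V < ‖∫ x in Set.Ioi (0 : ℝ), sB d (Md d) x *
        (exp (I * t₀ * x) * what K (h * x) * (eta (x / R) : ℂ))‖} = ∅ := by
      rw [Set.eq_empty_iff_forall_notMem]
      intro t ht
      exact hc (ht.2.trans_le (ECE_norm_le hCw hd t h R hR))
    rw [h1, measure_empty, ENNReal.toReal_zero]
    have : 0 ≤ T₂ - T₁ := by linarith
    positivity

theorem ECE_log {X : ℕ} (hX : 3 ≤ X) : 1 < Real.log X := by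
  have h3 : (3 : ℝ) ≤ X := by exact_mod_cast hX
  rw [Real.lt_log_iff_exp_lt (by linarith)]
  have := Real.exp_one_lt_d9
  linarith

/-- the central window, from the second moment of the blocks -/
theorem E_cen_of (hcm : ∀ ε : ℝ, 0 < ε → ∃ A : ℝ, ∀ X x : ℝ, 3 ≤ X → 0 ≤ x →
      ∑ d ∈ (Icc 1 ⌊X⌋₊).filter Squarefree, ‖sB d (Md d) x‖ ^ 2 ≤ A * X * (Real.log X) ^ ε)
    (K : ℕ) (_hK : 3 ≤ K) (T₁ T₂ b δ : ℝ) (_hT : 0 < T₁) (hT' : T₁ < T₂) (_hb : 0 < b)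
    (hδ : 0 < δ) : ∃ κ C : ℝ, 0 < κ ∧ ∀ (X : ℕ) (α : ℝ), 3 ≤ X → 0 ≤ α → α ≤ δ / 2 →
    ∑ d ∈ (Ioc X (2 * X)).filter Squarefree, (volume {t₀ : ℝ | t₀ ∈ Set.Icc T₁ T₂ ∧
      (Real.log X) ^ δ < ‖∫ x in Set.Ioi (0 : ℝ), sB d (Md d) x * (exp (I * t₀ * x) *
        what K ((Real.log X) ^ (-b) * x) * (eta (x / (Real.log X) ^ α) : ℂ))‖}).toReal ≤
      C * X / (Real.log X) ^ κ := by
  obtain ⟨C₀, hC₀⟩ := what_norm_le K
  set Cw : ℝ := |C₀| + 1 with hCwd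
  have hCw0 : 0 < Cw := by positivity
  have hCw : ∀ x, ‖what K x‖ ≤ Cw := fun x =>
    (hC₀ x).trans ((le_abs_self _).trans (by linarith))
  obtain ⟨A, hA⟩ := hcm (δ / 2) (by linarith)
  refine ⟨δ / 2, (T₂ - T₁) * (Cw ^ 2 * 4 * (|A| * 2) * 2 ^ (δ / 2)), by linarith,
    fun X α hX hα hα' => ?_⟩
  set L : ℝ := Real.log X with hL
  have hL1 : 1 < L := ECE_log hX
  have hL0 : 0 < L := by linarith
  have hX3 : (3 : ℝ) ≤ X := by exact_mod_cast hX
  set R : ℝ := L ^ α with hR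
  have hR0 : 0 < R := Real.rpow_pos_of_pos hL0 _
  have hV0 : 0 < L ^ δ := Real.rpow_pos_of_pos hL0 _
  have hpos : ∀ d ∈ (Ioc X (2 * X)).filter Squarefree, 0 < d := by
    intro d hd
    rw [Finset.mem_filter, Finset.mem_Ioc] at hd
    omega
  have hint : ∀ d ∈ (Ioc X (2 * X)).filter Squarefree,
      IntegrableOn (fun x => ‖sB d (Md d) x‖ ^ 2) (Set.Ioc (0 : ℝ) (2 * R)) := by
    intro d hd
    have hcont := (ECE_sB_continuous (D := d) (ECE_Md_pos (hpos d hd))).norm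
    exact ((hcont.pow 2).integrableOn_Icc).mono_set Set.Ioc_subset_Icc_self
  have hlog2 : Real.log ((2 * X : ℕ) : ℝ) ≤ 2 * L := by
    push_cast
    rw [Real.log_mul (by norm_num) (by positivity)]
    have : Real.log 2 ≤ 1 := by
      have := Real.log_two_lt_d9
      linarith
    linarith
  have hlog2' : 0 ≤ Real.log ((2 * X : ℕ) : ℝ) := Real.log_natCast_nonneg _
  have hsum : ∀ x : ℝ, 0 ≤ x → ∑ d ∈ (Ioc X (2 * X)).filter Squarefree, ‖sB d (Md d) x‖ ^ 2 ≤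
      |A| * 2 * X * (2 ^ (δ / 2) * L ^ (δ / 2)) := by
    intro x hx
    have h1 := hA ((2 * X : ℕ) : ℝ) x (by push_cast; linarith) hx
    rw [Nat.floor_natCast] at h1
    have h2 : ∑ d ∈ (Ioc X (2 * X)).filter Squarefree, ‖sB d (Md d) x‖ ^ 2 ≤
        ∑ d ∈ (Icc 1 (2 * X)).filter Squarefree, ‖sB d (Md d) x‖ ^ 2 := by
      refine Finset.sum_le_sum_of_subset_of_nonneg ?_ (fun d _ _ => by positivity)
      intro d hd
      rw [Finset.mem_filter, Finset.mem_Ioc] at hd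
      rw [Finset.mem_filter, Finset.mem_Icc]
      exact ⟨⟨by omega, hd.1.2⟩, hd.2⟩
    have h3 : (Real.log ((2 * X : ℕ) : ℝ)) ^ (δ / 2) ≤ 2 ^ (δ / 2) * L ^ (δ / 2) := by
      rw [← Real.mul_rpow (by norm_num) hL0.le]
      exact Real.rpow_le_rpow hlog2' hlog2 (by linarith)
    calc _ ≤ _ := h2.trans h1
      _ ≤ |A| * ((2 * X : ℕ) : ℝ) * (Real.log ((2 * X : ℕ) : ℝ)) ^ (δ / 2) := by
        refine mul_le_mul_of_nonneg_right ?_ (Real.rpow_nonneg hlog2' _)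
        exact mul_le_mul_of_nonneg_right (le_abs_self _) (Nat.cast_nonneg _)
      _ ≤ |A| * ((2 * X : ℕ) : ℝ) * (2 ^ (δ / 2) * L ^ (δ / 2)) :=
        mul_le_mul_of_nonneg_left h3 (by positivity)
      _ = _ := by
        push_cast
        ring
  have hQ : ∑ d ∈ (Ioc X (2 * X)).filter Squarefree,
      ∫ x in Set.Ioc (0 : ℝ) (2 * R), ‖sB d (Md d) x‖ ^ 2 ≤
      2 * R * (|A| * 2 * X * (2 ^ (δ / 2) * L ^ (δ / 2))) := by
    rw [← integral_finsetSum _ hint]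
    have h1 : ∫ x in Set.Ioc (0 : ℝ) (2 * R),
        ∑ d ∈ (Ioc X (2 * X)).filter Squarefree, ‖sB d (Md d) x‖ ^ 2 ≤
        ∫ _x in Set.Ioc (0 : ℝ) (2 * R), |A| * 2 * X * (2 ^ (δ / 2) * L ^ (δ / 2)) := by
      refine setIntegral_mono_on (integrable_finsetSum _ hint)
        (integrableOn_const (by rw [Real.volume_Ioc]; exact ENNReal.ofReal_ne_top))
        measurableSet_Ioc fun x hx => hsum x hx.1.le
    refine h1.trans (le_of_eq ?_)
    rw [setIntegral_const]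
    have h2 : (volume : Measure ℝ).real (Set.Ioc (0 : ℝ) (2 * R)) = 2 * R := by
      rw [Measure.real, Real.volume_Ioc, ENNReal.toReal_ofReal (by linarith)]
      ring
    rw [h2, smul_eq_mul]
  calc _ ≤ ∑ d ∈ (Ioc X (2 * X)).filter Squarefree,
        (T₂ - T₁) * (Cw ^ 2 * (2 * R) / (L ^ δ) ^ 2 *
          ∫ x in Set.Ioc (0 : ℝ) (2 * R), ‖sB d (Md d) x‖ ^ 2) := by
        refine Finset.sum_le_sum fun d hd => ?_
        exact ECE_markov hCw0 hCw (hpos d hd) hT'.le hR0 hV0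
    _ = (T₂ - T₁) * (Cw ^ 2 * (2 * R) / (L ^ δ) ^ 2) * ∑ d ∈ (Ioc X (2 * X)).filter Squarefree,
          ∫ x in Set.Ioc (0 : ℝ) (2 * R), ‖sB d (Md d) x‖ ^ 2 := by
        rw [Finset.mul_sum]
        exact Finset.sum_congr rfl fun d _ => by ring
    _ ≤ (T₂ - T₁) * (Cw ^ 2 * (2 * R) / (L ^ δ) ^ 2) *
          (2 * R * (|A| * 2 * X * (2 ^ (δ / 2) * L ^ (δ / 2)))) := by
        refine mul_le_mul_of_nonneg_left hQ ?_
        have : 0 ≤ T₂ - T₁ := by linarith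
        positivity
    _ = (T₂ - T₁) * (Cw ^ 2 * 4 * (|A| * 2) * 2 ^ (δ / 2)) * X *
          (R ^ 2 * L ^ (δ / 2) / (L ^ δ) ^ 2) := by
        ring
    _ ≤ (T₂ - T₁) * (Cw ^ 2 * 4 * (|A| * 2) * 2 ^ (δ / 2)) * X * (1 / L ^ (δ / 2)) := by
        refine mul_le_mul_of_nonneg_left ?_ ?_
        · have h1 : R ^ 2 ≤ L ^ δ := by
            rw [hR, ← Real.rpow_natCast, ← Real.rpow_mul hL0.le]
            apply Real.rpow_le_rpow_of_exponent_le hL1.le
            push_cast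
            linarith
          have h2 : L ^ (δ / 2) * L ^ (δ / 2) = L ^ δ := by
            rw [← Real.rpow_add hL0]
            congr 1
            ring
          have h3 : 0 < L ^ (δ / 2) := Real.rpow_pos_of_pos hL0 _
          rw [div_le_div_iff₀ (by positivity) h3, one_mul, mul_assoc, h2]
          calc R ^ 2 * L ^ δ ≤ L ^ δ * L ^ δ := mul_le_mul_of_nonneg_right h1 hV0.le
            _ = (L ^ δ) ^ 2 := (sq _).symm
        · have : 0 ≤ T₂ - T₁ := by linarith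
          positivity
    _ = _ := by ring

end Pool.Agent.CZ
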