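import Mathlib

/-!
# Critical zeros (MP_553913_nt), part E: counting
-/

set_option autoImplicit false

open Finset MeasureTheory

namespace Pool.Agent.CZ

/-- ECO: counting -/
theorem count_zeros {Z G : Set ℝ} {T₁ T₂ r : ℝ} (hT : T₁ < T₂) (hr : 0 < r) (hZ : (Z ∩ Set.Icc T₁ T₂).Finite)
    (h : ∀ t ∈ G, ∃ z ∈ Z, |z - t| ≤ r)
    (hG : (volume {t : ℝ | t ∈ Set.Icc T₁ T₂ ∧ t ∉ G}).toReal ≤ (T₂ - T₁) / 4) :
    (T₂ - T₁) / (16 * r) - 4 ≤ ((Z ∩ Set.Icc T₁ T₂).ncard : ℝ) := by
  classical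
  set E : Set ℝ := {t : ℝ | t ∈ Set.Icc T₁ T₂ ∧ t ∉ G} with hE
  have hEfin : volume E ≠ ⊤ := by
    refine (lt_of_le_of_lt (measure_mono (?_ : E ⊆ Set.Icc T₁ T₂)) ?_).ne
    · intro t ht; exact ht.1
    · rw [Real.volume_Icc]; exact ENNReal.ofReal_lt_top
  have hEle : volume E ≤ ENNReal.ofReal ((T₂ - T₁) / 4) := by
    rw [← ENNReal.ofReal_toReal hEfin]
    exact ENNReal.ofReal_le_ofReal hG
  set F : Finset ℝ := hZ.toFinset with hF
  have hcard : (Z ∩ Set.Icc T₁ T₂).ncard = F.card := by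
    rw [hF, Set.ncard_eq_toFinset_card _ hZ]
  have hcov : Set.Icc T₁ T₂ ⊆ E ∪ (Set.Icc T₁ (T₁ + r) ∪ (Set.Icc (T₂ - r) T₂ ∪
      ⋃ z ∈ F, Set.Icc (z - r) (z + r))) := by
    intro t ht
    by_cases h1 : t ∈ G
    · obtain ⟨z, hz, hzt⟩ := h t h1
      rw [abs_le] at hzt
      rw [Set.mem_Icc] at ht
      by_cases h2 : t ≤ T₁ + r
      · exact Or.inr (Or.inl ⟨ht.1, h2⟩)
      by_cases h3 : T₂ - r ≤ t
      · exact Or.inr (Or.inr (Or.inl ⟨h3, ht.2⟩))
      · rw [not_le] at h2 h3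
        refine Or.inr (Or.inr (Or.inr ?_))
        simp only [Set.mem_iUnion, exists_prop]
        refine ⟨z, ?_, ?_⟩
        · rw [hF, Set.Finite.mem_toFinset]
          exact ⟨hz, by linarith, by linarith⟩
        · exact ⟨by linarith, by linarith⟩
    · exact Or.inl ⟨ht, h1⟩
  have hvol : ENNReal.ofReal (T₂ - T₁) ≤
      ENNReal.ofReal ((T₂ - T₁) / 4 + (r + (r + F.card * (2 * r)))) := by
    calc ENNReal.ofReal (T₂ - T₁) = volume (Set.Icc T₁ T₂) := by rw [Real.volume_Icc]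
      _ ≤ volume (E ∪ (Set.Icc T₁ (T₁ + r) ∪ (Set.Icc (T₂ - r) T₂ ∪
          ⋃ z ∈ F, Set.Icc (z - r) (z + r)))) := measure_mono hcov
      _ ≤ volume E + (volume (Set.Icc T₁ (T₁ + r)) + (volume (Set.Icc (T₂ - r) T₂) +
          ∑ z ∈ F, volume (Set.Icc (z - r) (z + r)))) := by
          refine (measure_union_le _ _).trans (add_le_add le_rfl ?_)
          refine (measure_union_le _ _).trans (add_le_add le_rfl ?_)
          refine (measure_union_le _ _).trans (add_le_add le_rfl ?_)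
          exact measure_biUnion_finset_le _ _
      _ ≤ ENNReal.ofReal ((T₂ - T₁) / 4) + (ENNReal.ofReal r + (ENNReal.ofReal r +
          ENNReal.ofReal (F.card * (2 * r)))) := by
          refine add_le_add hEle (add_le_add ?_ (add_le_add ?_ ?_))
          · rw [Real.volume_Icc]; apply ENNReal.ofReal_le_ofReal; linarith
          · rw [Real.volume_Icc]; apply ENNReal.ofReal_le_ofReal; linarith
          · have : ∑ z ∈ F, volume (Set.Icc (z - r) (z + r)) = ∑ _z ∈ F, ENNReal.ofReal (2 * r) := by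
              refine Finset.sum_congr rfl (fun z _ => ?_)
              rw [Real.volume_Icc]
              congr 1; ring
            rw [this, Finset.sum_const, nsmul_eq_mul, ENNReal.ofReal_mul (Nat.cast_nonneg _),
              ENNReal.ofReal_natCast]
      _ = _ := by
          rw [ENNReal.ofReal_add (by linarith) (by positivity),
            ENNReal.ofReal_add hr.le (by positivity), ENNReal.ofReal_add hr.le (by positivity)]
  have h4 : T₂ - T₁ ≤ (T₂ - T₁) / 4 + (r + (r + F.card * (2 * r))) := by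
    rwa [ENNReal.ofReal_le_ofReal_iff] at hvol
    have : (0:ℝ) ≤ F.card * (2 * r) := by positivity
    linarith
  rw [hcard, sub_le_iff_le_add, div_le_iff₀ (by positivity)]
  have h5 : (0:ℝ) ≤ F.card * r := by positivity
  nlinarith

end Pool.Agent.CZ
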