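import Mathlib
import Pool.Agent.CZ.Defs

/-! Module EDL: the family average, Markov inequality. -/

set_option autoImplicit false

open Complex Finset MeasureTheory

namespace Pool.Agent.CZ

open Pool.Agent.H5 (c bd)
open Pool.Agent.ZD (S Lf nu tau)

/-- Gaussian weights are summable over the integers -/
theorem EDL_summable_sq {a : ℝ} (ha : 0 < a) :
    Summable (fun D : ℤ => Real.exp (-(Real.pi * a) * (D : ℝ) ^ 2)) := by
  have h := (hasSum_jacobiTheta₂_term 0 (τ := (a : ℂ) * I) (by simpa using ha)).summable.norm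
  refine h.congr fun D => ?_
  unfold jacobiTheta₂_term
  rw [Complex.norm_exp]
  congr 1
  have : (2 * (Real.pi : ℂ) * I * (D : ℂ) * 0 + (Real.pi : ℂ) * I * (D : ℂ) ^ 2 * ((a : ℂ) * I)) =
      ((-(Real.pi * a) * (D : ℝ) ^ 2 : ℝ) : ℂ) := by
    push_cast
    ring_nf
    rw [I_sq]
    ring
  rw [this, ofReal_re]

theorem EDL_summable {X : ℝ} (hX : 1 ≤ X) :
    Summable (fun D : ℤ => Real.exp (-(Real.pi * D ^ 2 / (2 * X) ^ 2))) := by
  have ha : 0 < 1 / (2 * X) ^ 2 := by positivity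
  refine (EDL_summable_sq ha).congr fun D => ?_
  congr 1
  ring

theorem ED_summable {X : ℝ} (hX : 1 ≤ X) {f : ℤ → ℝ} {B : ℝ} (hf : ∀ D, |f D| ≤ B) :
    Summable (fun D : ℤ => Real.exp (-(Real.pi * D ^ 2 / (2 * X) ^ 2)) * f D) := by
  refine Summable.of_norm_bounded ((EDL_summable hX).mul_right B) fun D => ?_
  rw [norm_mul, Real.norm_eq_abs, Real.norm_eq_abs, abs_of_pos (Real.exp_pos _)]
  exact mul_le_mul_of_nonneg_left (hf D) (Real.exp_pos _).le

theorem EDL_gauss_le {Z : ℝ} (hZ : 2 ≤ Z) (hs : Summable (fun n : ℤ => Real.exp (-(Real.pi * Z ^ 2) * (n : ℝ) ^ 2))) :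
    ∑' n : ℤ, Real.exp (-(Real.pi * Z ^ 2) * (n : ℝ) ^ 2) ≤ 2 := by
  have hev : Function.Even (fun n : ℤ => Real.exp (-(Real.pi * Z ^ 2) * (n : ℝ) ^ 2)) := by
    intro n
    simp
  rw [tsum_int_eq_zero_add_two_mul_tsum_pnat hev hs]
  have hr1 : Real.exp (-(Real.pi * Z ^ 2)) ≤ 1 / 3 := by
    have h1 : -(Real.pi * Z ^ 2) ≤ -2 := by nlinarith [Real.pi_gt_three]
    have h2 : Real.exp (-2) ≤ 1 / 3 := by
      have h3 : Real.exp (-2) = Real.exp (-1) * Real.exp (-1) := by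
        rw [← Real.exp_add]; norm_num
      have h4 := Real.exp_neg_one_lt_d9
      have h5 : 0 < Real.exp (-1) := Real.exp_pos _
      rw [h3]
      nlinarith
    exact (Real.exp_le_exp.2 h1).trans h2
  set r := Real.exp (-(Real.pi * Z ^ 2)) with hr
  have hr0 : 0 < r := Real.exp_pos _
  have hg : Summable (fun n : ℕ => r ^ (n + 1)) :=
    (summable_geometric_of_lt_one hr0.le (by linarith)).mul_left r |>.congr fun n => by ring
  have hs1 : Summable (fun n : ℕ+ => r ^ (n : ℕ)) := by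
    rw [← Equiv.pnatEquivNat.symm.summable_iff]
    refine hg.congr fun n => ?_
    simp
  have hle : ∀ n : ℕ+, Real.exp (-(Real.pi * Z ^ 2) * ((n : ℤ) : ℝ) ^ 2) ≤ r ^ (n : ℕ) := by
    intro n
    rw [hr, ← Real.exp_nat_mul]
    apply Real.exp_le_exp.2
    have h1 : (1 : ℝ) ≤ (n : ℕ) := by exact_mod_cast n.2
    have h2 : (((n : ℕ) : ℤ) : ℝ) = ((n : ℕ) : ℝ) := by simp
    have h3 : 0 < Real.pi * Z ^ 2 := by positivity
    have h4 : ((n : ℕ) : ℝ) ≤ ((n : ℕ) : ℝ) ^ 2 := by nlinarith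
    have h5 := mul_le_mul_of_nonneg_left h4 h3.le
    simp only [Int.cast_natCast]
    linarith
  have hs2 : Summable (fun n : ℕ+ => Real.exp (-(Real.pi * Z ^ 2) * ((n : ℤ) : ℝ) ^ 2)) :=
    Summable.of_nonneg_of_le (fun _ => (Real.exp_pos _).le) hle hs1
  have h6 : ∑' n : ℕ+, Real.exp (-(Real.pi * Z ^ 2) * ((n : ℤ) : ℝ) ^ 2) ≤ ∑' n : ℕ+, r ^ (n : ℕ) :=
    hs2.tsum_le_tsum hle hs1
  have h7 : ∑' n : ℕ+, r ^ (n : ℕ) = r / (1 - r) := by
    rw [tsum_pnat_eq_tsum_succ (f := fun n => r ^ n)]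
    have : ∑' n : ℕ, r ^ (n + 1) = r * ∑' n : ℕ, r ^ n := by
      rw [← tsum_mul_left]
      exact tsum_congr fun n => by ring
    rw [this, tsum_geometric_of_lt_one hr0.le (by linarith)]
    ring
  have h8 : r / (1 - r) ≤ 1 / 2 := by
    rw [div_le_iff₀ (by linarith)]
    linarith
  have h9 := h6.trans (h7.le.trans h8)
  have h10 : Real.exp (-(Real.pi * Z ^ 2) * ((0 : ℤ) : ℝ) ^ 2) = 1 := by simp
  rw [h10, two_nsmul]
  linarith

theorem ED_one {X : ℝ} (hX : 1 ≤ X) : ED X (fun _ => 1) ≤ 4 := by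
  have hX0 : 0 < X := by linarith
  unfold ED
  rw [div_le_iff₀ hX0]
  simp only [mul_one]
  have ha : 0 < 1 / (2 * X) ^ 2 := by positivity
  have h1 := Real.tsum_exp_neg_mul_int_sq ha
  have e1 : (fun D : ℤ => Real.exp (-(Real.pi * (D : ℝ) ^ 2 / (2 * X) ^ 2))) =
      fun n : ℤ => Real.exp (-Real.pi * (1 / (2 * X) ^ 2) * (n : ℝ) ^ 2) := by
    funext D
    congr 1
    ring
  have e2 : (fun n : ℤ => Real.exp (-Real.pi / (1 / (2 * X) ^ 2) * (n : ℝ) ^ 2)) =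
      fun n : ℤ => Real.exp (-(Real.pi * (2 * X) ^ 2) * (n : ℝ) ^ 2) := by
    funext D
    congr 1
    field_simp
  rw [e2] at h1
  rw [e1, h1]
  have h2 : (1 / (1 / (2 * X) ^ 2) ^ (1 / 2 : ℝ) : ℝ) = 2 * X := by
    rw [← Real.sqrt_eq_rpow, Real.sqrt_div zero_le_one, Real.sqrt_one, Real.sqrt_sq (by linarith),
      one_div_one_div]
  rw [h2]
  have h3 : ∑' n : ℤ, Real.exp (-(Real.pi * (2 * X) ^ 2) * (n : ℝ) ^ 2) ≤ 2 := by
    apply EDL_gauss_le (by linarith)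
    exact EDL_summable_sq (by positivity)
  nlinarith

theorem ED_family {X : ℕ} (hX : 1 ≤ X) {f : ℤ → ℝ} {B : ℝ} (h0 : ∀ D, 0 ≤ f D) (hf : ∀ D, f D ≤ B) :
    ∑ d ∈ (Ioc X (2 * X)).filter Squarefree, f d ≤ 30 * X * ED X f := by
  have hX1 : (1 : ℝ) ≤ X := by exact_mod_cast hX
  have hs := ED_summable hX1 (f := f) (B := B) (fun D => by rw [abs_of_nonneg (h0 D)]; exact hf D)
  have h1 : 30 * (X : ℝ) * ED X f =
      30 * ∑' D : ℤ, Real.exp (-(Real.pi * D ^ 2 / (2 * X) ^ 2)) * f D := by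
    unfold ED
    field_simp
  rw [h1]
  set s := (Ioc X (2 * X)).filter Squarefree with hsdef
  have h2 : ∑ D ∈ s.map ⟨fun n : ℕ => (n : ℤ), Nat.cast_injective⟩,
      Real.exp (-(Real.pi * D ^ 2 / (2 * X) ^ 2)) * f D ≤
      ∑' D : ℤ, Real.exp (-(Real.pi * D ^ 2 / (2 * X) ^ 2)) * f D :=
    hs.sum_le_tsum _ (fun D _ => mul_nonneg (Real.exp_pos _).le (h0 D))
  rw [Finset.sum_map] at h2
  have h3 : ∀ d ∈ s, f d ≤ 30 * (Real.exp (-(Real.pi * ((d : ℤ) : ℝ) ^ 2 / (2 * X) ^ 2)) * f d) := by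
    intro d hd
    have hd2 : (d : ℝ) ≤ 2 * X := by
      have := (Finset.mem_Ioc.1 (Finset.mem_filter.1 hd).1).2
      exact_mod_cast this
    have h4 : (1 : ℝ) / 30 ≤ Real.exp (-(Real.pi * ((d : ℤ) : ℝ) ^ 2 / (2 * X) ^ 2)) := by
      have h5 : Real.pi * ((d : ℤ) : ℝ) ^ 2 / (2 * X) ^ 2 ≤ 3.15 := by
        rw [div_le_iff₀ (by positivity)]
        have h6 : ((d : ℤ) : ℝ) ^ 2 ≤ (2 * X) ^ 2 := by
          simp only [Int.cast_natCast]
          have : (0 : ℝ) ≤ d := by positivity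
          nlinarith
        have h7 := Real.pi_lt_d2
        have h8 : (0 : ℝ) ≤ ((d : ℤ) : ℝ) ^ 2 := sq_nonneg _
        nlinarith [Real.pi_pos]
      have h9 : Real.exp (-3.15) ≤ Real.exp (-(Real.pi * ((d : ℤ) : ℝ) ^ 2 / (2 * X) ^ 2)) :=
        Real.exp_le_exp.2 (by linarith)
      refine le_trans ?_ h9
      rw [Real.exp_neg, one_div]
      apply inv_anti₀ (Real.exp_pos _)
      have h10 : Real.exp 3.15 = Real.exp 1 ^ 3 * Real.exp 0.15 := by
        rw [← Real.exp_nat_mul, ← Real.exp_add]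
        norm_num
      have h11 := Real.exp_one_lt_d9
      have h12 : Real.exp 0.15 ≤ 1.2 := by
        have := Real.exp_bound' (x := 0.15) (by norm_num) (by norm_num) (n := 2) (by norm_num)
        refine this.trans ?_
        simp [Finset.sum_range_succ]
        norm_num
      have h13 : Real.exp 1 ^ 3 ≤ 2.7182818286 ^ 3 :=
        pow_le_pow_left₀ (Real.exp_pos _).le h11.le 3
      rw [h10]
      calc Real.exp 1 ^ 3 * Real.exp 0.15 ≤ 2.7182818286 ^ 3 * 1.2 :=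
            mul_le_mul h13 h12 (Real.exp_pos _).le (by norm_num)
        _ ≤ 30 := by norm_num
    have := mul_le_mul_of_nonneg_right h4 (h0 d)
    linarith
  calc ∑ d ∈ s, f d ≤ ∑ d ∈ s, 30 * (Real.exp (-(Real.pi * ((d : ℤ) : ℝ) ^ 2 / (2 * X) ^ 2)) * f d) :=
        Finset.sum_le_sum h3
    _ = 30 * ∑ d ∈ s, (Real.exp (-(Real.pi * ((d : ℤ) : ℝ) ^ 2 / (2 * X) ^ 2)) * f d) := by
        rw [Finset.mul_sum]
    _ ≤ _ := by
        apply mul_le_mul_of_nonneg_left h2 (by norm_num)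

/-- Markov inequality on an interval -/
theorem markov {T₁ T₂ κ : ℝ} (hT : T₁ ≤ T₂) (hκ : 0 < κ) {f : ℝ → ℝ} (h0 : ∀ t, 0 ≤ f t)
    (hf : IntegrableOn f (Set.Icc T₁ T₂)) :
    (volume {t : ℝ | t ∈ Set.Icc T₁ T₂ ∧ κ < f t}).toReal ≤ (∫ t in T₁..T₂, f t) / κ := by
  rw [le_div_iff₀ hκ, intervalIntegral.integral_of_le hT, ← integral_Icc_eq_integral_Ioc]
  have h1 := mul_meas_ge_le_integral_of_nonneg (μ := volume.restrict (Set.Icc T₁ T₂))
    (Filter.Eventually.of_forall h0) hf κ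
  refine le_trans ?_ h1
  rw [mul_comm]
  apply mul_le_mul_of_nonneg_left _ hκ.le
  rw [measureReal_def, Measure.restrict_apply' measurableSet_Icc]
  apply ENNReal.toReal_mono
  · refine ne_top_of_le_ne_top ?_ (measure_mono Set.inter_subset_right)
    simp
  · apply measure_mono
    rintro t ⟨ht, hκt⟩
    exact ⟨hκt.le, ht⟩

end Pool.Agent.CZ
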