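import Mathlib
import Pool.Agent.CZ.Defs
import Pool.Agent.CZ.W
import Pool.Agent.CZ.CL2

/-!
# Critical zeros (MP_553913_nt), module EFA: the far part of the window
-/

set_option autoImplicit false

open Complex Finset MeasureTheory

namespace Pool.Agent.CZ

open Pool.Agent.H5 (c bd)
open Pool.Agent.ZD (S T Lf nu tau gk eps MM)

namespace EFA

lemma Lf_cont (d : ℕ) : Continuous (Lf d) := by
  unfold Lf
  split_ifs with h
  · exact h.choose_spec.1.continuous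
  · exact continuous_const

/-- Markov inequality with `ENNReal` majorants, summed over a finite family -/
lemma markov_sum {D : Finset ℕ} {T₁ T₂ : ℝ} (hT : T₁ ≤ T₂) {f : ℕ → ℝ → ℝ} {k : ℕ → ℝ → ℝ → ℝ}
    (hk : ∀ d, Continuous (fun p : ℝ × ℝ => k d p.1 p.2)) (hk0 : ∀ d t₀ t, 0 ≤ k d t₀ t)
    (hfk : ∀ d t₀, t₀ ∈ Set.Icc T₁ T₂ → ENNReal.ofReal (f d t₀) ≤ ∫⁻ t, ENNReal.ofReal (k d t₀ t))
    {C : ℝ} (hC : 0 ≤ C)
    (hs : ∀ t₀ t, t₀ ∈ Set.Icc T₁ T₂ → ∑ d ∈ D, k d t₀ t ≤ C * (1 + (t - t₀) ^ 2)⁻¹) :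
    ∑ d ∈ D, (volume {t₀ : ℝ | t₀ ∈ Set.Icc T₁ T₂ ∧ 1 < f d t₀}).toReal ≤
      C * Real.pi * (T₂ - T₁) := by
  have hkm : ∀ d, Measurable (fun p : ℝ × ℝ => ENNReal.ofReal (k d p.1 p.2)) := fun d =>
    (hk d).measurable.ennreal_ofReal
  have hΦm : ∀ d, Measurable (fun t₀ : ℝ => ∫⁻ t, ENNReal.ofReal (k d t₀ t)) := fun d =>
    (hkm d).lintegral_prod_right'
  have h1 : ∀ d, volume {t₀ : ℝ | t₀ ∈ Set.Icc T₁ T₂ ∧ 1 < f d t₀} ≤
      ∫⁻ t₀ in Set.Icc T₁ T₂, ∫⁻ t, ENNReal.ofReal (k d t₀ t) := by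
    intro d
    have e1 : {t₀ : ℝ | t₀ ∈ Set.Icc T₁ T₂ ∧ 1 < f d t₀} ⊆
        {t₀ : ℝ | 1 ≤ ∫⁻ t, ENNReal.ofReal (k d t₀ t)} ∩ Set.Icc T₁ T₂ := by
      rintro t₀ ⟨h1, h2⟩
      refine ⟨le_trans ?_ (hfk d t₀ h1), h1⟩
      rw [← ENNReal.ofReal_one]
      exact ENNReal.ofReal_le_ofReal h2.le
    calc volume {t₀ : ℝ | t₀ ∈ Set.Icc T₁ T₂ ∧ 1 < f d t₀} ≤
        volume ({t₀ : ℝ | 1 ≤ ∫⁻ t, ENNReal.ofReal (k d t₀ t)} ∩ Set.Icc T₁ T₂) := measure_mono e1
      _ = (volume.restrict (Set.Icc T₁ T₂)) {t₀ : ℝ | 1 ≤ ∫⁻ t, ENNReal.ofReal (k d t₀ t)} := by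
          rw [Measure.restrict_apply (measurableSet_le measurable_const (hΦm d))]
      _ = 1 * (volume.restrict (Set.Icc T₁ T₂)) {t₀ : ℝ | 1 ≤ ∫⁻ t, ENNReal.ofReal (k d t₀ t)} := by
          rw [one_mul]
      _ ≤ _ := mul_meas_ge_le_lintegral (hΦm d) 1
  have hint : Integrable (fun v : ℝ => C * (1 + v ^ 2)⁻¹) := integrable_inv_one_add_sq.const_mul C
  have h2 : ∑ d ∈ D, volume {t₀ : ℝ | t₀ ∈ Set.Icc T₁ T₂ ∧ 1 < f d t₀} ≤
      ENNReal.ofReal (C * Real.pi * (T₂ - T₁)) := by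
    calc ∑ d ∈ D, volume {t₀ : ℝ | t₀ ∈ Set.Icc T₁ T₂ ∧ 1 < f d t₀} ≤
        ∑ d ∈ D, ∫⁻ t₀ in Set.Icc T₁ T₂, ∫⁻ t, ENNReal.ofReal (k d t₀ t) :=
          Finset.sum_le_sum (fun d _ => h1 d)
      _ = ∫⁻ t₀ in Set.Icc T₁ T₂, ∫⁻ t, ∑ d ∈ D, ENNReal.ofReal (k d t₀ t) := by
          rw [← lintegral_finsetSum _ (fun d _ => hΦm d)]
          refine lintegral_congr (fun t₀ => ?_)
          have hm : ∀ d ∈ D, Measurable (fun t : ℝ => ENNReal.ofReal (k d t₀ t)) := fun d _ =>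
            (hkm d).comp measurable_prodMk_left
          rw [lintegral_finsetSum _ hm]
      _ ≤ ∫⁻ t₀ in Set.Icc T₁ T₂, ∫⁻ t, ENNReal.ofReal (C * (1 + (t - t₀) ^ 2)⁻¹) := by
          refine setLIntegral_mono' measurableSet_Icc (fun t₀ ht₀ => ?_)
          refine lintegral_mono (fun t => ?_)
          rw [← ENNReal.ofReal_sum_of_nonneg (fun d _ => hk0 d t₀ t)]
          exact ENNReal.ofReal_le_ofReal (hs t₀ t ht₀)
      _ = ∫⁻ t₀ in Set.Icc T₁ T₂, ENNReal.ofReal (C * Real.pi) := by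
          refine lintegral_congr (fun t₀ => ?_)
          rw [lintegral_sub_right_eq_self (fun v : ℝ => ENNReal.ofReal (C * (1 + v ^ 2)⁻¹)) t₀,
            ← ofReal_integral_eq_lintegral_ofReal hint
              (Filter.Eventually.of_forall (fun v => by positivity)), integral_const_mul,
            integral_univ_inv_one_add_sq]
      _ = ENNReal.ofReal (C * Real.pi * (T₂ - T₁)) := by
          rw [setLIntegral_const, Real.volume_Icc, ← ENNReal.ofReal_mul (by positivity)]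
  have hne : ∀ d ∈ D, volume {t₀ : ℝ | t₀ ∈ Set.Icc T₁ T₂ ∧ 1 < f d t₀} ≠ ⊤ := by
    intro d hd
    have := (Finset.single_le_sum (f := fun d => volume {t₀ : ℝ | t₀ ∈ Set.Icc T₁ T₂ ∧ 1 < f d t₀})
      (fun _ _ => bot_le) hd).trans h2
    exact ne_top_of_le_ne_top ENNReal.ofReal_ne_top this
  rw [← ENNReal.toReal_sum hne]
  refine ENNReal.toReal_le_of_le_ofReal ?_ h2
  have := Real.pi_pos
  exact mul_nonneg (by positivity) (by linarith)

end EFA

open EFA in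
/-- EFA: far part -/
theorem E_far (T₁ T₂ b δ : ℝ) (hT : 0 < T₁) (hT' : T₁ < T₂) (hb : 0 < b) (hb' : b < 1) (hδ : 0 < δ) :
    ∃ K₀ : ℕ, ∀ K : ℕ, K₀ ≤ K → ∃ κ C : ℝ, 0 < κ ∧ ∀ X : ℕ, 3 ≤ X →
    ∑ d ∈ (Ioc X (2 * X)).filter Squarefree, (volume {t₀ : ℝ | t₀ ∈ Set.Icc T₁ T₂ ∧
      1 < (Real.log X) ^ b * ∫ t in {t : ℝ | (Real.log X) ^ (δ - b) < |t - t₀|},
        ‖Lf d (1 + t * I)‖ * wK K ((t - t₀) / (Real.log X) ^ (-b))}).toReal ≤
      C * X / (Real.log X) ^ κ := by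
  obtain ⟨A, hA⟩ := crit_second_moment
  refine ⟨A + 1 + ⌈((A : ℝ) + 2) / (2 * δ)⌉₊, fun K hK => ?_⟩
  obtain ⟨CW, hCW, hW⟩ := wK_le K
  set C' : ℝ := CW * ((1 + 2 * A * 2 ^ A) * (1 + T₂) ^ A * 2 ^ A) with hC'
  have hT2 : 0 < T₂ := hT.trans hT'
  have hC'0 : 0 ≤ C' := by positivity
  refine ⟨1, C' * Real.pi * (T₂ - T₁), one_pos, fun X hX => ?_⟩
  have hX0 : (0 : ℝ) < X := by
    have : 0 < X := by omega
    exact_mod_cast this
  set L : ℝ := Real.log X with hL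
  have hL1 : 1 ≤ L := by
    have h3 : Real.exp 1 ≤ X := by
      have := Real.exp_one_lt_d9
      have h : (3 : ℝ) ≤ X := by exact_mod_cast hX
      linarith
    have := Real.log_le_log (Real.exp_pos 1) h3
    rwa [Real.log_exp] at this
  have hL0 : 0 < L := by linarith
  -- weight on the far part
  have hwt : ∀ t₀ t : ℝ, L ^ (δ - b) < |t - t₀| →
      L ^ b * wK K ((t - t₀) / L ^ (-b)) ≤ CW / L ^ (A + 1) * ((1 + (t - t₀) ^ 2) ^ (A + 1))⁻¹ := by
    intro t₀ t ht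
    have hu : (t - t₀) / L ^ (-b) = (t - t₀) * L ^ b := by
      rw [Real.rpow_neg hL0.le, div_inv_eq_mul]
    have hu2 : ((t - t₀) / L ^ (-b)) ^ 2 = (t - t₀) ^ 2 * (L ^ b) ^ 2 := by rw [hu, mul_pow]
    have hLb : 1 ≤ L ^ b := Real.one_le_rpow hL1 hb.le
    have hLb2 : 1 ≤ (L ^ b) ^ 2 := one_le_pow₀ hLb
    have g1 : 1 + (t - t₀) ^ 2 ≤ 1 + ((t - t₀) / L ^ (-b)) ^ 2 := by
      rw [hu2]; nlinarith [sq_nonneg (t - t₀)]
    have g2 : L ^ (2 * δ) ≤ 1 + ((t - t₀) / L ^ (-b)) ^ 2 := by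
      rw [hu2]
      have h1 : L ^ δ ≤ |t - t₀| * L ^ b := by
        have : L ^ δ = L ^ (δ - b) * L ^ b := by rw [← Real.rpow_add hL0]; ring_nf
        rw [this]
        exact mul_le_mul_of_nonneg_right ht.le (by positivity)
      have h2 := pow_le_pow_left₀ (by positivity) h1 2
      have h3 : (L ^ δ) ^ 2 = L ^ (2 * δ) := by
        rw [← Real.rpow_natCast, ← Real.rpow_mul hL0.le]; norm_num; ring_nf
      rw [h3, mul_pow, sq_abs] at h2
      linarith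
    have hKA : A + 1 ≤ K := by omega
    have g3 : L ^ (A + 2) * (1 + (t - t₀) ^ 2) ^ (A + 1) ≤ (1 + ((t - t₀) / L ^ (-b)) ^ 2) ^ K := by
      have e : (1 + ((t - t₀) / L ^ (-b)) ^ 2) ^ K = (1 + ((t - t₀) / L ^ (-b)) ^ 2) ^ (K - (A + 1)) *
          (1 + ((t - t₀) / L ^ (-b)) ^ 2) ^ (A + 1) := by rw [← pow_add]; congr 1; omega
      rw [e]
      refine mul_le_mul ?_ (pow_le_pow_left₀ (by positivity) g1 _) (by positivity) (by positivity)
      refine le_trans ?_ (pow_le_pow_left₀ (by positivity) g2 _)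
      rw [← Real.rpow_natCast, ← Real.rpow_natCast, ← Real.rpow_mul hL0.le]
      refine Real.rpow_le_rpow_of_exponent_le hL1 ?_
      have h1 : (⌈((A : ℝ) + 2) / (2 * δ)⌉₊ : ℝ) ≤ ((K - (A + 1) : ℕ) : ℝ) := by
        have : ⌈((A : ℝ) + 2) / (2 * δ)⌉₊ ≤ K - (A + 1) := by omega
        exact_mod_cast this
      have h2 := Nat.le_ceil (((A : ℝ) + 2) / (2 * δ))
      have h3 := h2.trans h1
      rw [div_le_iff₀ (by positivity)] at h3
      push_cast at h3 ⊢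
      linarith
    have g4 : L ^ b * wK K ((t - t₀) / L ^ (-b)) ≤ L * (CW / (L ^ (A + 2) *
        (1 + (t - t₀) ^ 2) ^ (A + 1))) := by
      have h1 : L ^ b ≤ L := by
        calc L ^ b ≤ L ^ (1 : ℝ) := Real.rpow_le_rpow_of_exponent_le hL1 hb'.le
          _ = L := Real.rpow_one _
      refine mul_le_mul h1 ((hW _).trans ?_) (wK_nonneg _ _) hL0.le
      exact div_le_div_of_nonneg_left hCW.le (by positivity) g3
    refine g4.trans (le_of_eq ?_)
    rw [pow_succ L (A + 1)]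
    field_simp
  have hsum := markov_sum (D := (Ioc X (2 * X)).filter Squarefree) (T₁ := T₁) (T₂ := T₂) hT'.le
    (f := fun d t₀ => L ^ b * ∫ t in {t : ℝ | L ^ (δ - b) < |t - t₀|},
        ‖Lf d (1 + t * I)‖ * wK K ((t - t₀) / L ^ (-b)))
    (k := fun d t₀ t => CW / L ^ (A + 1) * ((1 + (t - t₀) ^ 2) ^ (A + 1))⁻¹ * ‖Lf d (1 + t * I)‖)
    (fun d => by
      have h1 := Lf_cont d
      have h2 : Continuous (fun p : ℝ × ℝ => ((1 + (p.2 - p.1) ^ 2) ^ (A + 1))⁻¹) := by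
        refine Continuous.inv₀ (by fun_prop) (fun p => ?_)
        positivity
      exact (continuous_const.mul h2).mul (by fun_prop))
    (fun d t₀ t => by positivity)
    (fun d t₀ ht₀ => ?_) (C := C' * X / L) (by positivity) (fun t₀ t ht₀ => ?_)
  · refine hsum.trans (le_of_eq ?_)
    rw [Real.rpow_one]
    ring
  · -- the far integral
    have hms : MeasurableSet {t : ℝ | L ^ (δ - b) < |t - t₀|} :=
      measurableSet_lt measurable_const (by fun_prop)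
    have hcont : Continuous (fun t : ℝ => L ^ b * (‖Lf d (1 + t * I)‖ *
        wK K ((t - t₀) / L ^ (-b)))) := by
      have h1 := Lf_cont d
      have h2 := wK_continuous K
      exact continuous_const.mul ((by fun_prop : Continuous (fun t : ℝ => ‖Lf d (1 + t * I)‖)).mul
        (h2.comp (by fun_prop)))
    rw [← integral_const_mul, integral_eq_lintegral_of_nonneg_ae
      (Filter.Eventually.of_forall (fun t => mul_nonneg (by positivity)
        (mul_nonneg (norm_nonneg _) (wK_nonneg _ _)))) hcont.aestronglyMeasurable]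
    refine ENNReal.ofReal_toReal_le.trans ?_
    refine (setLIntegral_mono' hms (fun t ht => ENNReal.ofReal_le_ofReal ?_)).trans
      (setLIntegral_le_lintegral _ _)
    have h1 := hwt t₀ t ht
    calc L ^ b * (‖Lf d (1 + t * I)‖ * wK K ((t - t₀) / L ^ (-b))) =
        (L ^ b * wK K ((t - t₀) / L ^ (-b))) * ‖Lf d (1 + t * I)‖ := by ring
      _ ≤ _ := mul_le_mul_of_nonneg_right h1 (norm_nonneg _)
  · -- the sum over the family
    rw [← Finset.mul_sum]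
    have h1 : ∑ d ∈ (Ioc X (2 * X)).filter Squarefree, ‖Lf d (1 + t * I)‖ ≤
        ((1 + 2 * A * 2 ^ A) * (L ^ A * (1 + |t|) ^ A)) * X := by
      have h2 : ∑ d ∈ (Ioc X (2 * X)).filter Squarefree, ‖Lf d (1 + t * I)‖ ≤
          ∑ d ∈ (Ioc X (2 * X)).filter Squarefree, (1 + ‖Lf d (1 + t * I)‖ ^ 2) :=
        Finset.sum_le_sum (fun d _ => by nlinarith [sq_nonneg (‖Lf d (1 + t * I)‖ - 1), norm_nonneg (Lf d (1 + t * I))])
      refine h2.trans ?_
      rw [Finset.sum_add_distrib]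
      have h3 : ∑ d ∈ (Ioc X (2 * X)).filter Squarefree, (1 : ℝ) ≤ X := by
        rw [Finset.sum_const, nsmul_eq_mul, mul_one]
        have := Finset.card_filter_le (Ioc X (2 * X)) Squarefree
        rw [Nat.card_Ioc] at this
        have h4 : ((Ioc X (2 * X)).filter Squarefree).card ≤ X := by omega
        exact_mod_cast h4
      have h4 : ∑ d ∈ (Ioc X (2 * X)).filter Squarefree, ‖Lf d (1 + t * I)‖ ^ 2 ≤
          A * (Real.log ((2 * X : ℕ) : ℝ)) ^ A * (1 + |t|) ^ A * ((2 * X : ℕ) : ℝ) := by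
        refine le_trans (Finset.sum_le_sum_of_subset_of_nonneg ?_ (fun _ _ _ => sq_nonneg _))
          (hA (2 * X) t (by omega))
        intro d hd
        simp only [Finset.mem_filter, Finset.mem_Ioc, Finset.mem_Icc] at hd ⊢
        exact ⟨⟨by omega, hd.1.2⟩, hd.2⟩
      have h5 : Real.log ((2 * X : ℕ) : ℝ) ≤ 2 * L := by
        push_cast
        rw [Real.log_mul (by norm_num) hX0.ne']
        have : Real.log 2 ≤ L := Real.log_le_log (by norm_num) (by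
          have : (3 : ℝ) ≤ X := by exact_mod_cast hX
          linarith)
        linarith
      have h6 : 0 ≤ Real.log ((2 * X : ℕ) : ℝ) := Real.log_natCast_nonneg _
      have h7 : A * (Real.log ((2 * X : ℕ) : ℝ)) ^ A * (1 + |t|) ^ A * ((2 * X : ℕ) : ℝ) ≤
          A * (2 * L) ^ A * (1 + |t|) ^ A * (2 * X) := by
        push_cast
        push_cast at h5 h6
        gcongr
      have h8 : (1 : ℝ) ≤ L ^ A * (1 + |t|) ^ A := by
        have := one_le_pow₀ hL1 (n := A)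
        have := one_le_pow₀ (by linarith [abs_nonneg t] : 1 ≤ 1 + |t|) (n := A)
        nlinarith
      calc _ ≤ (X : ℝ) + A * (2 * L) ^ A * (1 + |t|) ^ A * (2 * X) :=
            add_le_add h3 (h4.trans h7)
        _ ≤ (L ^ A * (1 + |t|) ^ A) * X + A * (2 * L) ^ A * (1 + |t|) ^ A * (2 * X) := by
            have := mul_le_mul_of_nonneg_right h8 hX0.le
            linarith
        _ = _ := by rw [mul_pow]; ring
    have h9 : (1 + |t|) ^ A ≤ (1 + T₂) ^ A * 2 ^ A * (1 + (t - t₀) ^ 2) ^ A := by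
      rw [← mul_pow, ← mul_pow]
      refine pow_le_pow_left₀ (by positivity) ?_ _
      have ht0 : |t₀| ≤ T₂ := by
        rw [abs_of_pos (lt_of_lt_of_le hT ht₀.1)]
        exact ht₀.2
      have h10 : |t| ≤ |t₀| + |t - t₀| := by
        calc |t| = |t₀ + (t - t₀)| := by ring_nf
          _ ≤ _ := abs_add_le _ _
      have h11 : |t - t₀| ≤ 1 + (t - t₀) ^ 2 := by
        have : |t - t₀| ^ 2 = (t - t₀) ^ 2 := sq_abs _
        nlinarith [sq_nonneg (|t - t₀| - 1), abs_nonneg (t - t₀)]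
      have h12 : 0 ≤ (t - t₀) ^ 2 := sq_nonneg _
      have h13 : 0 ≤ |t₀| := abs_nonneg _
      nlinarith
    have h14 : CW / L ^ (A + 1) * ((1 + (t - t₀) ^ 2) ^ (A + 1))⁻¹ *
        (((1 + 2 * A * 2 ^ A) * (L ^ A * (1 + |t|) ^ A)) * X) ≤
        CW / L ^ (A + 1) * ((1 + (t - t₀) ^ 2) ^ (A + 1))⁻¹ *
        (((1 + 2 * A * 2 ^ A) * (L ^ A * ((1 + T₂) ^ A * 2 ^ A * (1 + (t - t₀) ^ 2) ^ A))) * X) := by
      gcongr
    refine (mul_le_mul_of_nonneg_left h1 (by positivity)).trans (h14.trans (le_of_eq ?_))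
    rw [hC', pow_succ L A, pow_succ (1 + (t - t₀) ^ 2) A]
    have h15 : (1 + (t - t₀) ^ 2) ≠ 0 := by positivity
    field_simp

end Pool.Agent.CZ
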