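import Mathlib

/-!
# Critical zeros (MP_553913_nt), part E: generic lemmas (no sign change, covering, Markov)
-/

set_option autoImplicit false

open Finset MeasureTheory

namespace Pool.Agent.CZ

/-- a continuous real function without zeros on `[t₀ - η, t₀ + η]`: its weighted `L¹` norm is
controlled by the weighted integral and the far part. -/
theorem no_zero_bound {R w : ℝ → ℝ} (hR : Continuous R) (hw : ∀ t, 0 ≤ w t)
    (hi : Integrable (fun t => R t * w t)) {t₀ η : ℝ} (hη : 0 < η)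
    (hz : ∀ t, |t - t₀| ≤ η → R t ≠ 0) :
    ∫ t, |R t| * w t ≤ |∫ t, R t * w t| + 2 * ∫ t in {t : ℝ | η < |t - t₀|}, |R t| * w t := by
  have habs : ∀ t, |R t * w t| = |R t| * w t := fun t => by rw [abs_mul, abs_of_nonneg (hw t)]
  have hi' : Integrable (fun t => |R t| * w t) := by
    refine hi.abs.congr (Filter.Eventually.of_forall fun t => ?_)
    exact habs t
  set J : Set ℝ := {t : ℝ | η < |t - t₀|} with hJ
  have hJm : MeasurableSet J := by
    apply measurableSet_lt measurable_const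
    fun_prop
  have hconn : IsPreconnected (Set.Icc (t₀ - η) (t₀ + η)) := isPreconnected_Icc
  have hmem : ∀ t, |t - t₀| ≤ η ↔ t ∈ Set.Icc (t₀ - η) (t₀ + η) := by
    intro t
    rw [abs_le, Set.mem_Icc]
    constructor
    · rintro ⟨h1, h2⟩; constructor <;> linarith
    · rintro ⟨h1, h2⟩; constructor <;> linarith
  -- constant sign on the interval
  have hsign : (∀ t ∈ Jᶜ, 0 ≤ R t) ∨ (∀ t ∈ Jᶜ, R t ≤ 0) := by
    have hc : ∀ t, t ∈ Jᶜ ↔ t ∈ Set.Icc (t₀ - η) (t₀ + η) := by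
      intro t
      rw [← hmem, hJ, Set.mem_compl_iff, Set.mem_setOf_eq, not_lt]
    by_contra hcon
    push_neg at hcon
    obtain ⟨⟨a, ha, ha'⟩, ⟨b, hb, hb'⟩⟩ := hcon
    have h0 : (0:ℝ) ∈ R '' (Set.Icc (t₀ - η) (t₀ + η)) :=
      hconn.intermediate_value ((hc a).1 ha) ((hc b).1 hb) hR.continuousOn ⟨ha'.le, hb'.le⟩
    obtain ⟨t, ht, ht0⟩ := h0
    exact hz t ((hmem t).2 ht) ht0
  have h1 : ∫ t, |R t| * w t = (∫ t in J, |R t| * w t) + ∫ t in Jᶜ, |R t| * w t :=
    (integral_add_compl hJm hi').symm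
  have h2 : ∫ t, R t * w t = (∫ t in J, R t * w t) + ∫ t in Jᶜ, R t * w t :=
    (integral_add_compl hJm hi).symm
  have h3 : ∫ t in Jᶜ, |R t| * w t = |∫ t in Jᶜ, R t * w t| := by
    rcases hsign with hs | hs
    · have e1 : ∫ t in Jᶜ, |R t| * w t = ∫ t in Jᶜ, R t * w t :=
        setIntegral_congr_fun hJm.compl (fun t ht => by simp only [abs_of_nonneg (hs t ht)])
      rw [e1, abs_of_nonneg]
      exact setIntegral_nonneg hJm.compl (fun t ht => mul_nonneg (hs t ht) (hw t))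
    · have e1 : ∫ t in Jᶜ, |R t| * w t = ∫ t in Jᶜ, -(R t * w t) :=
        setIntegral_congr_fun hJm.compl (fun t ht => by
          simp only [abs_of_nonpos (hs t ht)]; ring)
      rw [e1, integral_neg, abs_of_nonpos]
      exact setIntegral_nonpos hJm.compl (fun t ht =>
        mul_nonpos_of_nonpos_of_nonneg (hs t ht) (hw t))
  have h4 : |∫ t in J, R t * w t| ≤ ∫ t in J, |R t| * w t := by
    refine (abs_integral_le_integral_abs).trans (le_of_eq ?_)
    exact setIntegral_congr_fun hJm (fun t _ => habs t)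
  have h5 : |∫ t in Jᶜ, R t * w t| ≤ |∫ t, R t * w t| + |∫ t in J, R t * w t| := by
    have : ∫ t in Jᶜ, R t * w t = (∫ t, R t * w t) - ∫ t in J, R t * w t := by rw [h2]; ring
    rw [this]
    exact abs_sub _ _
  rw [h1, h3]
  linarith

/-- covering: a set of measure at least `μ` within distance `η` of `Z` forces many points of `Z` -/
theorem exists_many {Z S : Set ℝ} {η μ : ℝ} (hη : 0 < η) (hS : ENNReal.ofReal μ ≤ volume S)
    (h : ∀ t ∈ S, ∃ z ∈ Z, |t - z| ≤ η) :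
    ∃ F : Finset ℝ, (F : Set ℝ) ⊆ Z ∧ μ / (2 * η) ≤ F.card := by
  classical
  by_cases hZ : Z.Finite
  · refine ⟨hZ.toFinset, by simp, ?_⟩
    have h1 : S ⊆ ⋃ z ∈ hZ.toFinset, Set.Icc (z - η) (z + η) := by
      intro t ht
      obtain ⟨z, hz, hzt⟩ := h t ht
      rw [abs_le] at hzt
      simp only [Set.mem_iUnion, Set.Finite.mem_toFinset, exists_prop, Set.mem_Icc]
      exact ⟨z, hz, by linarith, by linarith⟩
    have h2 : volume S ≤ ENNReal.ofReal (hZ.toFinset.card * (2 * η)) := by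
      calc volume S ≤ volume (⋃ z ∈ hZ.toFinset, Set.Icc (z - η) (z + η)) := measure_mono h1
        _ ≤ ∑ z ∈ hZ.toFinset, volume (Set.Icc (z - η) (z + η)) := measure_biUnion_finset_le _ _
        _ = ∑ _z ∈ hZ.toFinset, ENNReal.ofReal (2 * η) := by
            refine Finset.sum_congr rfl (fun z _ => ?_)
            rw [Real.volume_Icc]
            congr 1; ring
        _ = ENNReal.ofReal (hZ.toFinset.card * (2 * η)) := by
            rw [Finset.sum_const, nsmul_eq_mul, ENNReal.ofReal_mul (Nat.cast_nonneg _),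
              ENNReal.ofReal_natCast]
    have h3 : ENNReal.ofReal μ ≤ ENNReal.ofReal (hZ.toFinset.card * (2 * η)) := hS.trans h2
    have h4 : μ ≤ hZ.toFinset.card * (2 * η) := by
      rwa [ENNReal.ofReal_le_ofReal_iff (by positivity)] at h3
    rw [div_le_iff₀ (by positivity)]
    exact h4
  · obtain ⟨n, hn⟩ := exists_nat_ge (μ / (2 * η))
    obtain ⟨F, hF, hc⟩ := Set.Infinite.exists_subset_card_eq hZ n
    exact ⟨F, hF, by rw [hc]; exact hn⟩

/-- Markov's inequality for a finite family of functions on an interval (outer measure) -/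
theorem markov_family {ι : Type*} (Q : Finset ι) (f : ι → ℝ → ℝ) {T₁ T₂ B lam : ℝ}
    (hl : 0 < lam) (h0 : ∀ i ∈ Q, ∀ t, 0 ≤ f i t)
    (hi : ∀ i ∈ Q, IntegrableOn (f i) (Set.Icc T₁ T₂))
    (hB : ∑ i ∈ Q, ∫ t in Set.Icc T₁ T₂, f i t ≤ B) :
    ∑ i ∈ Q, volume {t | t ∈ Set.Icc T₁ T₂ ∧ lam ≤ f i t} ≤ ENNReal.ofReal (B / lam) := by
  have h1 : ∀ i ∈ Q, volume {t | t ∈ Set.Icc T₁ T₂ ∧ lam ≤ f i t} ≤
      ENNReal.ofReal ((∫ t in Set.Icc T₁ T₂, f i t) / lam) := by
    intro i hiQ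
    have e1 : volume {t | t ∈ Set.Icc T₁ T₂ ∧ lam ≤ f i t} ≤
        (volume.restrict (Set.Icc T₁ T₂)) {t | lam ≤ f i t} := by
      have : {t | t ∈ Set.Icc T₁ T₂ ∧ lam ≤ f i t} = {t | lam ≤ f i t} ∩ Set.Icc T₁ T₂ := by
        ext t; simp [and_comm]
      rw [this, Measure.restrict_apply' measurableSet_Icc]
    have e2 := mul_meas_ge_le_integral_of_nonneg (μ := volume.restrict (Set.Icc T₁ T₂))
      (f := f i) (Filter.Eventually.of_forall (h0 i hiQ)) (hi i hiQ) lam
    have e3 : (volume.restrict (Set.Icc T₁ T₂)) {t | lam ≤ f i t} ≠ ⊤ := measure_ne_top _ _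
    refine e1.trans ?_
    rw [← ENNReal.ofReal_toReal e3]
    apply ENNReal.ofReal_le_ofReal
    rw [le_div_iff₀ hl, mul_comm]
    exact e2
  refine (Finset.sum_le_sum h1).trans ?_
  rw [← ENNReal.ofReal_sum_of_nonneg]
  · apply ENNReal.ofReal_le_ofReal
    rw [← Finset.sum_div]
    gcongr
  · intro i hiQ
    exact div_nonneg (setIntegral_nonneg measurableSet_Icc (fun t _ => h0 i hiQ t)) hl.le

/-- few indices have a large exceptional set -/
theorem few_bad {ι : Type*} [DecidableEq ι] (Q : Finset ι) (E : ι → Set ℝ) {B μ : ℝ} (hμ : 0 < μ)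
    (hB0 : 0 ≤ B)
    (hB : ∑ i ∈ Q, volume (E i) ≤ ENNReal.ofReal B) (Q' : Finset ι) (hQ : Q' ⊆ Q)
    (h : ∀ i ∈ Q', ENNReal.ofReal μ ≤ volume (E i)) : (Q'.card : ℝ) ≤ B / μ := by
  have h1 : ENNReal.ofReal (Q'.card * μ) ≤ ENNReal.ofReal B := by
    calc ENNReal.ofReal (Q'.card * μ) = ∑ _i ∈ Q', ENNReal.ofReal μ := by
          rw [Finset.sum_const, nsmul_eq_mul, ENNReal.ofReal_mul (Nat.cast_nonneg _),
            ENNReal.ofReal_natCast]
      _ ≤ ∑ i ∈ Q', volume (E i) := Finset.sum_le_sum h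
      _ ≤ ∑ i ∈ Q, volume (E i) := Finset.sum_le_sum_of_subset hQ
      _ ≤ _ := hB
  rw [ENNReal.ofReal_le_ofReal_iff hB0] at h1
  rw [le_div_iff₀ hμ]
  exact h1

end Pool.Agent.CZ
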