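import Mathlib
import Pool.Agent.CZ.Defs
import Pool.Agent.ZD.F1

/-!
# Critical zeros (MP_553913_nt), module ESI: sign changes and zeros of odd order
-/

set_option autoImplicit false

open Complex Finset MeasureTheory Filter Topology

namespace Pool.Agent.CZ

open Pool.Agent.ZD (Lf)

private lemma odd_aux {R : ℝ → ℝ} {s t : ℝ} (hst : s < t) (hR : ∀ x, AnalyticAt ℝ R x)
    (hs : R s < 0) (ht : 0 < R t) : ∃ x ∈ Set.Ioo s t, R x = 0 ∧ Odd (analyticOrderNatAt R x) := by
  have hcont : Continuous R := continuous_iff_continuousAt.2 fun x => (hR x).continuousAt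
  set S : Set ℝ := {u | u ∈ Set.Icc s t ∧ R u < 0} with hS
  have hsS : s ∈ S := ⟨⟨le_rfl, hst.le⟩, hs⟩
  have hbdd : BddAbove S := ⟨t, fun u hu => hu.1.2⟩
  set x : ℝ := sSup S with hx
  have hxcl : x ∈ closure S := csSup_mem_closure ⟨s, hsS⟩ hbdd
  have hsub : closure S ⊆ {u | R u ≤ 0} :=
    closure_minimal (fun u hu => hu.2.le) (isClosed_le hcont continuous_const)
  have hRx : R x ≤ 0 := hsub hxcl
  have hsx : s ≤ x := le_csSup hbdd hsS
  have hxt : x ≤ t := csSup_le ⟨s, hsS⟩ fun u hu => hu.1.2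
  have hxt' : x < t := by
    rcases hxt.lt_or_eq with h | h
    · exact h
    · rw [h] at hRx; linarith
  have hright : ∀ u, x < u → u ≤ t → 0 ≤ R u := by
    intro u h1 h2
    by_contra h
    push Not at h
    have : u ≤ x := le_csSup hbdd ⟨⟨by linarith, h2⟩, h⟩
    linarith
  have hRx0 : R x = 0 := by
    apply le_antisymm hRx
    by_contra h
    push Not at h
    have h1 : ∀ᶠ u in 𝓝 x, R u < 0 := hcont.continuousAt.eventually_lt continuousAt_const h
    have h2 : ∀ᶠ u in 𝓝[>] x, R u < 0 := h1.filter_mono nhdsWithin_le_nhds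
    have h3 : ∀ᶠ u in 𝓝[>] x, u ∈ Set.Ioc x t := Ioc_mem_nhdsGT hxt'
    obtain ⟨u, hu1, hu2⟩ := (h2.and h3).exists
    exact absurd (hright u hu2.1 hu2.2) (not_le.2 hu1)
  have hsx' : s < x := by
    rcases hsx.lt_or_eq with h | h
    · exact h
    · rw [← h] at hRx0; linarith
  refine ⟨x, ⟨hsx', hxt'⟩, hRx0, ?_⟩
  have hne : analyticOrderAt R x ≠ ⊤ := by
    apply AnalyticOnNhd.analyticOrderAt_ne_top_of_isPreconnected (U := Set.univ) (x := t)
      (fun z _ => hR z) isPreconnected_univ (Set.mem_univ _) (Set.mem_univ _)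
    rw [(hR t).analyticOrderAt_eq_zero.2 ht.ne']
    exact ENat.zero_ne_top
  obtain ⟨g, hg, hgx, hev⟩ := (hR x).analyticOrderAt_ne_top.1 hne
  by_contra hodd
  rw [Nat.not_odd_iff_even] at hodd
  rcases lt_or_gt_of_ne hgx with h | h
  · have h1 : ∀ᶠ u in 𝓝 x, g u < 0 := hg.continuousAt.eventually_lt continuousAt_const h
    have h2 : ∀ᶠ u in 𝓝[>] x, g u < 0 ∧ R u = (u - x) ^ analyticOrderNatAt R x • g u :=
      (h1.and hev).filter_mono nhdsWithin_le_nhds
    have h3 : ∀ᶠ u in 𝓝[>] x, u ∈ Set.Ioc x t := Ioc_mem_nhdsGT hxt'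
    obtain ⟨u, ⟨hu1, hu2⟩, hu3⟩ := (h2.and h3).exists
    have h4 := hright u hu3.1 hu3.2
    rw [hu2, smul_eq_mul] at h4
    have h5 : 0 < (u - x) ^ analyticOrderNatAt R x := pow_pos (by linarith [hu3.1]) _
    nlinarith
  · have h1 : ∀ᶠ u in 𝓝 x, 0 < g u := continuousAt_const.eventually_lt hg.continuousAt h
    have h2 := h1.and hev
    obtain ⟨u, hu1, hu2⟩ := (mem_closure_iff_frequently.1 hxcl).and_eventually h2 |>.exists
    have h4 : R u < 0 := hu1.2
    rw [hu2.2] at h4
    simp only [smul_eq_mul] at h4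
    have h5 : 0 ≤ (u - x) ^ analyticOrderNatAt R x := hodd.pow_nonneg _
    nlinarith [hu2.1]

/-- a sign change gives a zero of odd order -/
theorem odd_zero {R : ℝ → ℝ} {s t : ℝ} (hst : s < t) (hR : ∀ x, AnalyticAt ℝ R x)
    (hs : R s * R t < 0) : ∃ x ∈ Set.Ioo s t, R x = 0 ∧ Odd (analyticOrderNatAt R x) := by
  rcases mul_neg_iff.1 hs with ⟨h1, h2⟩ | ⟨h1, h2⟩
  · obtain ⟨x, hx, h3, h4⟩ := odd_aux (R := -R) hst (fun x => (hR x).neg)
      (by simpa using h1) (by simpa using h2)
    refine ⟨x, hx, by simpa using h3, ?_⟩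
    unfold analyticOrderNatAt at h4 ⊢
    rwa [analyticOrderAt_neg] at h4
  · exact odd_aux hst hR h1 h2

private lemma an_line (x : ℝ) {F : ℂ → ℂ} (hF : AnalyticAt ℂ F (1 + x * I)) :
    AnalyticAt ℝ (fun t : ℝ => F (1 + t * I)) x := by
  have h1 : AnalyticAt ℝ (fun t : ℝ => (1 + t * I : ℂ)) x := by
    have h2 : AnalyticAt ℝ (fun t : ℝ => (t : ℂ)) x := Complex.ofRealCLM.analyticAt x
    exact analyticAt_const.add (h2.mul analyticAt_const)
  exact AnalyticAt.comp (g := F) (f := fun t : ℝ => (1 + t * I : ℂ)) hF.restrictScalars h1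

/-- order of vanishing of `Lf d` on the line in terms of `R` -/
theorem order_transfer {d : ℕ} (hd : Squarefree d) {R : ℝ → ℝ} (hR : ∀ t, AnalyticAt ℝ R t) {u : ℂ}
    (hu : ‖u‖ = 1) (hRL : ∀ t : ℝ, (R t : ℂ) = u * ((Md d / (2 * Real.pi) : ℝ) : ℂ) ^ (1 + t * I : ℂ) *
      Complex.Gamma (1 + t * I) * Lf d (1 + t * I)) (x : ℝ) :
    analyticOrderNatAt (Lf d) (1 + x * I) = analyticOrderNatAt R x := by
  have hd0 : 0 < d := Nat.pos_of_ne_zero hd.ne_zero
  have hM : 0 < Md d := by
    unfold Md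
    have : (0:ℝ) < d := by exact_mod_cast hd0
    split_ifs <;> positivity
  have hLd : Differentiable ℂ (Lf d) := (ZD.Lf_spec hd).1
  have hLa : ∀ z, AnalyticAt ℂ (Lf d) z := fun z => hLd.analyticAt z
  have hu0 : u ≠ 0 := by rintro rfl; simp at hu
  have hMc : ((Md d / (2 * Real.pi) : ℝ) : ℂ) ≠ 0 := by
    have : (0:ℝ) < Md d / (2 * Real.pi) := by positivity
    exact_mod_cast this.ne'
  by_cases htop : analyticOrderAt (Lf d) (1 + x * I) = ⊤
  · have h0 : Lf d = 0 := (AnalyticOnNhd.analyticOrderAt_eq_top_iff_eq_zero _ hLa).1 htop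
    have hR0 : R = 0 := by
      funext t
      have := hRL t
      rw [h0] at this
      simpa using this
    have h1 : analyticOrderAt R x = ⊤ := (AnalyticOnNhd.analyticOrderAt_eq_top_iff_eq_zero _ hR).2 hR0
    unfold analyticOrderNatAt
    rw [htop, h1]
  · obtain ⟨g, hg, hgx, hev⟩ := (hLa _).analyticOrderAt_ne_top.1 htop
    set n := analyticOrderNatAt (Lf d) (1 + x * I) with hn
    -- the complex valued quotient
    set H : ℝ → ℂ := fun t => u * ((Md d / (2 * Real.pi) : ℝ) : ℂ) ^ (1 + t * I : ℂ) *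
      Complex.Gamma (1 + t * I) * (I ^ n * g (1 + t * I)) with hH
    have hGa : AnalyticAt ℂ Complex.Gamma (1 + x * I) := by
      have hop : IsOpen {z : ℂ | 0 < z.re} := isOpen_lt continuous_const Complex.continuous_re
      have hdo : DifferentiableOn ℂ Complex.Gamma {z : ℂ | 0 < z.re} := by
        intro z hz
        apply DifferentiableAt.differentiableWithinAt
        refine Complex.differentiableAt_Gamma _ (fun m h => ?_)
        have h1 := congrArg Complex.re h
        simp at h1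
        have h2 : (0:ℝ) ≤ m := m.cast_nonneg
        have h3 : 0 < z.re := hz
        linarith
      exact hdo.analyticAt (hop.mem_nhds (by simp))
    have hpow : AnalyticAt ℂ (fun z : ℂ => ((Md d / (2 * Real.pi) : ℝ) : ℂ) ^ z) (1 + x * I) := by
      apply Differentiable.analyticAt
      intro z
      exact (differentiableAt_id.const_cpow (Or.inl hMc))
    have hHa : AnalyticAt ℝ H x := by
      have h1 := an_line x hpow
      have h2 := an_line x hGa
      have h3 := an_line x hg
      exact (((analyticAt_const.mul h1).mul h2)).mul (analyticAt_const.mul h3)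
    have hHx : H x ≠ 0 := by
      simp only [hH]
      refine mul_ne_zero (mul_ne_zero (mul_ne_zero hu0 ?_) ?_) (mul_ne_zero (pow_ne_zero _ I_ne_zero) hgx)
      · rw [Complex.cpow_ne_zero_iff]; exact Or.inl hMc
      · apply Complex.Gamma_ne_zero_of_re_pos; simp
    have hev2 : ∀ᶠ t : ℝ in 𝓝 x, (R t : ℂ) = ((t - x : ℝ) : ℂ) ^ n * H t := by
      have hc : Tendsto (fun t : ℝ => (1 + t * I : ℂ)) (𝓝 x) (𝓝 (1 + x * I)) := by
        apply Continuous.tendsto
        fun_prop
      filter_upwards [hc.eventually hev] with t ht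
      rw [hRL t, ht, smul_eq_mul]
      have e : ((1 + t * I : ℂ) - (1 + x * I)) = ((t - x : ℝ) : ℂ) * I := by push_cast; ring
      rw [e, mul_pow]
      simp only [hH]
      ring
    -- `H` is real near `x`
    have him : (H x).im = 0 := by
      have h1 : ∀ᶠ t : ℝ in 𝓝[≠] x, (H t).im = 0 := by
        filter_upwards [hev2.filter_mono nhdsWithin_le_nhds, self_mem_nhdsWithin] with t ht htx
        have hne : (t - x) ≠ 0 := sub_ne_zero.2 htx
        have h2 := congrArg Complex.im ht
        rw [← Complex.ofReal_pow, Complex.im_ofReal_mul, Complex.ofReal_im] at h2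
        rcases mul_eq_zero.1 h2.symm with h3 | h3
        · exact absurd h3 (pow_ne_zero _ hne)
        · exact h3
      have h2 : Tendsto (fun t => (H t).im) (𝓝[≠] x) (𝓝 (H x).im) :=
        (Complex.continuous_im.continuousAt.comp hHa.continuousAt).mono_left nhdsWithin_le_nhds
      exact tendsto_nhds_unique_of_eventuallyEq h2 tendsto_const_nhds h1
    have hre : (H x).re ≠ 0 := by
      intro h
      exact hHx (Complex.ext h him)
    have hRe : ∀ᶠ t : ℝ in 𝓝 x, R t = (t - x) ^ n • (H t).re := by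
      filter_upwards [hev2] with t ht
      have h2 := congrArg Complex.re ht
      rw [← Complex.ofReal_pow, Complex.re_ofReal_mul, Complex.ofReal_re] at h2
      rw [h2, smul_eq_mul]
    have hHre : AnalyticAt ℝ (fun t => (H t).re) x :=
      (Complex.reCLM.analyticAt (H x)).comp hHa
    have horder : analyticOrderAt R x = n :=
      (hR x).analyticOrderAt_eq_natCast.2 ⟨fun t => (H t).re, hHre, hre, hRe⟩
    unfold analyticOrderNatAt
    rw [horder]
    rfl

end Pool.Agent.CZ
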