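import Mathlib
import Pool.Agent.CZ.Defs
import Pool.Agent.CZ.W
import Pool.Agent.CZ.ESI
import Pool.Agent.ZD.T

/-!
# Critical zeros (MP_553913_nt), module EZE, part 1: a zero in a window
-/

set_option autoImplicit false

open Complex Finset MeasureTheory Filter Topology

namespace Pool.Agent.CZ

open Pool.Agent.ZD (Lf)

/-- a continuous real function without sign change on `[t₀ - η, t₀ + η]`: its weighted `L¹` norm
is controlled by the weighted integral and the far part. -/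
theorem no_sign_bound {R w : ℝ → ℝ} (hw : ∀ t, 0 ≤ w t)
    (hi : Integrable (fun t => R t * w t)) {t₀ η : ℝ}
    (hz : ∀ s t, |s - t₀| ≤ η → |t - t₀| ≤ η → 0 ≤ R s * R t) :
    ∫ t, |R t| * w t ≤ |∫ t, R t * w t| + 2 * ∫ t in {t : ℝ | η < |t - t₀|}, |R t| * w t := by
  have habs : ∀ t, |R t * w t| = |R t| * w t := fun t => by rw [abs_mul, abs_of_nonneg (hw t)]
  have hi' : Integrable (fun t => |R t| * w t) := by
    refine hi.abs.congr (Filter.Eventually.of_forall fun t => ?_)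
    exact habs t
  set J : Set ℝ := {t : ℝ | η < |t - t₀|} with hJ
  have hJm : MeasurableSet J := by
    apply measurableSet_lt measurable_const
    fun_prop
  have hmem : ∀ t, t ∈ Jᶜ ↔ |t - t₀| ≤ η := by
    intro t
    rw [hJ, Set.mem_compl_iff, Set.mem_setOf_eq, not_lt]
  have hsign : (∀ t ∈ Jᶜ, 0 ≤ R t) ∨ (∀ t ∈ Jᶜ, R t ≤ 0) := by
    by_contra hcon
    push Not at hcon
    obtain ⟨⟨a, ha, ha'⟩, ⟨b, hb, hb'⟩⟩ := hcon
    have := hz a b ((hmem a).1 ha) ((hmem b).1 hb)
    nlinarith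
  have h1 : ∫ t, |R t| * w t = (∫ t in J, |R t| * w t) + ∫ t in Jᶜ, |R t| * w t :=
    (integral_add_compl hJm hi').symm
  have h2 : ∫ t, R t * w t = (∫ t in J, R t * w t) + ∫ t in Jᶜ, R t * w t :=
    (integral_add_compl hJm hi).symm
  have h3 : ∫ t in Jᶜ, |R t| * w t = |∫ t in Jᶜ, R t * w t| := by
    rcases hsign with hs | hs
    · have e1 : ∫ t in Jᶜ, |R t| * w t = ∫ t in Jᶜ, R t * w t :=
        setIntegral_congr_fun hJm.compl (fun t ht => by simp only [abs_of_nonneg (hs t ht)])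
      rw [e1, abs_of_nonneg]
      exact setIntegral_nonneg hJm.compl (fun t ht => mul_nonneg (hs t ht) (hw t))
    · have e1 : ∫ t in Jᶜ, |R t| * w t = ∫ t in Jᶜ, -(R t * w t) :=
        setIntegral_congr_fun hJm.compl (fun t ht => by
          simp only [abs_of_nonpos (hs t ht)]; ring)
      rw [e1, integral_neg, abs_of_nonpos]
      exact setIntegral_nonpos hJm.compl (fun t ht =>
        mul_nonpos_of_nonpos_of_nonneg (hs t ht) (hw t))
  have h4 : |∫ t in J, R t * w t| ≤ ∫ t in J, |R t| * w t := by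
    refine (abs_integral_le_integral_abs).trans (le_of_eq ?_)
    exact setIntegral_congr_fun hJm (fun t _ => habs t)
  have h5 : |∫ t in Jᶜ, R t * w t| ≤ |∫ t, R t * w t| + |∫ t in J, R t * w t| := by
    have : ∫ t in Jᶜ, R t * w t = (∫ t, R t * w t) - ∫ t in J, R t * w t := by rw [h2]; ring
    rw [this]
    exact abs_sub _ _
  rw [h1, h3]
  linarith

/-- `|Γ(1+it)| ≤ 1` -/
lemma norm_Gamma_one_le (t : ℝ) : ‖Complex.Gamma (1 + t * I)‖ ≤ 1 := by
  have h := ZD.norm_Gamma_le' (θ := 0) le_rfl (by positivity) (s := 1 + t * I) (by simp)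
  simpa using h

/-- a zero of odd order in a window -/
theorem window_zero (hFR : ∀ {d : ℕ}, Squarefree d → ∃ R : ℝ → ℝ,
    (∀ t, AnalyticAt ℝ R t) ∧
    (∃ u : ℂ, ‖u‖ = 1 ∧ ∀ t : ℝ, (R t : ℂ) = u * ((Md d / (2 * Real.pi) : ℝ) : ℂ) ^ (1 + t * I : ℂ) *
      Complex.Gamma (1 + t * I) * Lf d (1 + t * I)) ∧
    ∀ (K : ℕ) (h t₀ : ℝ), 2 ≤ K → 0 < h →
      Integrable (fun t => R t * wK K ((t - t₀) / h)) ∧
      IntegrableOn (fun x => sB d (Md d) x * (exp (I * t₀ * x) * what K (h * x))) (Set.Ioi 0) ∧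
      |∫ t, R t * wK K ((t - t₀) / h)| ≤ 2 * Md d * h *
        ‖∫ x in Set.Ioi (0 : ℝ), sB d (Md d) x * (exp (I * t₀ * x) * what K (h * x))‖)
    {d : ℕ} (hd : Squarefree d) {K : ℕ} (hK : 2 ≤ K) {h r t₀ T U V : ℝ} (hh : 0 < h)
    (hr1 : r ≤ 1) (ht : |t₀| ≤ T)
    (h1 : ‖∫ x in Set.Ioi (0 : ℝ), sB d (Md d) x * (exp (I * t₀ * x) * what K (h * x))‖ ≤ U)
    (h2 : V ≤ h⁻¹ * ∫ t : ℝ, ‖Lf d (1 + t * I)‖ * wK K ((t - t₀) / h))
    (h3 : h⁻¹ * (∫ t in {t : ℝ | r < |t - t₀|}, ‖Lf d (1 + t * I)‖ * wK K ((t - t₀) / h)) ≤ 1)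
    (hnum : 2 * U + 1 < Real.exp (-(Real.pi / 2 * (T + 1))) / (2 * Real.pi) * (V - 1)) :
    ∃ x : ℝ, |x - t₀| ≤ r ∧ Lf d (1 + x * I) = 0 ∧ Odd (analyticOrderNatAt (Lf d) (1 + x * I)) := by
  obtain ⟨R, hRa, ⟨u, hu, hRL⟩, hR⟩ := hFR hd
  obtain ⟨hi, _, hle⟩ := hR K h t₀ hK hh
  have hpi := Real.pi_pos
  have hd0 : 0 < d := Nat.pos_of_ne_zero hd.ne_zero
  have hM : 0 < Md d := by
    unfold Md
    have : (0:ℝ) < d := by exact_mod_cast hd0
    split_ifs <;> positivity
  set M := Md d with hMdef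
  set m : ℝ := M / (2 * Real.pi) with hm
  have hm0 : 0 < m := by positivity
  have hnorm : ∀ t : ℝ, |R t| = m * (‖Complex.Gamma (1 + t * I)‖ * ‖Lf d (1 + t * I)‖) := by
    intro t
    have e1 : |R t| = ‖(R t : ℂ)‖ := by rw [Complex.norm_real, Real.norm_eq_abs]
    rw [e1, hRL t, norm_mul, norm_mul, norm_mul, hu, Complex.norm_cpow_eq_rpow_re_of_pos hm0]
    have : (1 + t * I : ℂ).re = 1 := by simp
    rw [this, Real.rpow_one]
    ring
  set c0 : ℝ := Real.exp (-(Real.pi / 2 * (T + 1))) with hc0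
  have hc0pos : 0 < c0 := Real.exp_pos _
  have hU0 : 0 ≤ U := (norm_nonneg _).trans h1
  -- `‖L‖ w` is integrable
  set f : ℝ → ℝ := fun t => ‖Lf d (1 + t * I)‖ * wK K ((t - t₀) / h) with hf
  have hw0 : ∀ t, 0 ≤ wK K ((t - t₀) / h) := fun t => wK_nonneg _ _
  have hf0 : ∀ t, 0 ≤ f t := fun t => mul_nonneg (norm_nonneg _) (hw0 t)
  have hfi : Integrable f := by
    by_contra hni
    have : ∫ t : ℝ, ‖Lf d (1 + t * I)‖ * wK K ((t - t₀) / h) = 0 := integral_undef hni
    rw [this, mul_zero] at h2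
    have h4 : c0 / (2 * Real.pi) * (V - 1) ≤ 0 := by
      apply mul_nonpos_of_nonneg_of_nonpos (by positivity); linarith
    linarith
  by_contra hno
  push Not at hno
  -- no sign change
  have hsgn : ∀ s t, |s - t₀| ≤ r → |t - t₀| ≤ r → 0 ≤ R s * R t := by
    intro s t hs ht'
    by_contra hneg
    push Not at hneg
    have key : ∀ s t : ℝ, |s - t₀| ≤ r → |t - t₀| ≤ r → s < t → R s * R t < 0 → False := by
      intro s t hs ht' hst hneg
      obtain ⟨x, hx, hx0, hodd⟩ := odd_zero hst hRa hneg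
      have hxr : |x - t₀| ≤ r := by
        rw [abs_le] at hs ht' ⊢
        constructor <;> linarith [hx.1, hx.2, hs.1, hs.2, ht'.1, ht'.2]
      have hord := order_transfer hd hRa hu hRL x
      have hodd' : Odd (analyticOrderNatAt (Lf d) (1 + x * I)) := by rw [hord]; exact hodd
      refine hno x hxr ?_ hodd'
      apply apply_eq_zero_of_analyticOrderNatAt_ne_zero
      intro h0
      rw [h0] at hodd'
      exact absurd hodd' (by decide)
    rcases lt_trichotomy s t with h' | h' | h'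
    · exact key s t hs ht' h' hneg
    · subst h'; nlinarith [mul_self_nonneg (R s)]
    · exact key t s ht' hs h' (by linarith [mul_comm (R s) (R t)])
  have hmain := no_sign_bound hw0 hi hsgn
  set J : Set ℝ := {t : ℝ | r < |t - t₀|} with hJ
  have hJm : MeasurableSet J := by
    apply measurableSet_lt measurable_const
    fun_prop
  have hi' : Integrable (fun t => |R t| * wK K ((t - t₀) / h)) := by
    refine hi.abs.congr (Filter.Eventually.of_forall fun t => ?_)
    simp only [abs_mul, abs_of_nonneg (hw0 t)]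
  -- far part
  have hfar : ∫ t in J, |R t| * wK K ((t - t₀) / h) ≤ m * ∫ t in J, f t := by
    rw [← integral_const_mul]
    apply setIntegral_mono_on hi'.integrableOn (hfi.const_mul m).integrableOn hJm
    intro t _
    rw [hnorm t]
    simp only [hf]
    have h5 := norm_Gamma_one_le t
    calc m * (‖Complex.Gamma (1 + t * I)‖ * ‖Lf d (1 + t * I)‖) * wK K ((t - t₀) / h)
        ≤ m * (1 * ‖Lf d (1 + t * I)‖) * wK K ((t - t₀) / h) := by
          gcongr
          exact hw0 t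
      _ = _ := by ring
  -- near part
  have hnear : c0 * m * ∫ t in Jᶜ, f t ≤ ∫ t in Jᶜ, |R t| * wK K ((t - t₀) / h) := by
    rw [← integral_const_mul]
    apply setIntegral_mono_on (hfi.const_mul _).integrableOn hi'.integrableOn hJm.compl
    intro t ht'
    have htT : |t| ≤ T + 1 := by
      have h6 : |t - t₀| ≤ r := by
        rw [hJ, Set.mem_compl_iff, Set.mem_setOf_eq, not_lt] at ht'; exact ht'
      have h7 : |t| ≤ |t - t₀| + |t₀| := by
        have := abs_add_le (t - t₀) t₀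
        simpa using this
      linarith
    have h8 : c0 ≤ ‖Complex.Gamma (1 + t * I)‖ := by
      refine le_trans ?_ (ZD.norm_Gamma_one_ge t)
      apply Real.exp_le_exp.2
      have : Real.pi / 2 * |t| ≤ Real.pi / 2 * (T + 1) := by gcongr
      linarith
    rw [hnorm t]
    simp only [hf]
    calc c0 * m * (‖Lf d (1 + t * I)‖ * wK K ((t - t₀) / h))
        = m * (c0 * ‖Lf d (1 + t * I)‖) * wK K ((t - t₀) / h) := by ring
      _ ≤ m * (‖Complex.Gamma (1 + t * I)‖ * ‖Lf d (1 + t * I)‖) * wK K ((t - t₀) / h) := by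
          gcongr
          exact hw0 t
  have hsplit : ∫ t, f t = (∫ t in J, f t) + ∫ t in Jᶜ, f t := (integral_add_compl hJm hfi).symm
  have hsplitR : ∫ t, |R t| * wK K ((t - t₀) / h) = (∫ t in J, |R t| * wK K ((t - t₀) / h)) +
      ∫ t in Jᶜ, |R t| * wK K ((t - t₀) / h) := (integral_add_compl hJm hi').symm
  have hJR0 : 0 ≤ ∫ t in J, |R t| * wK K ((t - t₀) / h) :=
    setIntegral_nonneg hJm (fun t _ => mul_nonneg (abs_nonneg _) (hw0 t))
  have hfarL : ∫ t in J, f t ≤ h := by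
    have h9 := mul_le_mul_of_nonneg_left h3 hh.le
    rw [← mul_assoc, mul_inv_cancel₀ hh.ne', one_mul, mul_one] at h9
    exact h9
  have htot : h * V ≤ ∫ t, f t := by
    have h9 := mul_le_mul_of_nonneg_left h2 hh.le
    rw [← mul_assoc, mul_inv_cancel₀ hh.ne', one_mul] at h9
    exact h9
  have hup : |∫ t, R t * wK K ((t - t₀) / h)| ≤ 2 * M * h * U :=
    hle.trans (by gcongr)
  have h10 : c0 * m * (h * V - h) ≤ 2 * M * h * U + 2 * (m * h) := by
    calc c0 * m * (h * V - h) ≤ c0 * m * ∫ t in Jᶜ, f t := by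
          apply mul_le_mul_of_nonneg_left _ (by positivity)
          linarith
      _ ≤ ∫ t in Jᶜ, |R t| * wK K ((t - t₀) / h) := hnear
      _ ≤ ∫ t, |R t| * wK K ((t - t₀) / h) := by rw [hsplitR]; linarith
      _ ≤ |∫ t, R t * wK K ((t - t₀) / h)| + 2 * ∫ t in J, |R t| * wK K ((t - t₀) / h) := hmain
      _ ≤ 2 * M * h * U + 2 * (m * h) := by
          have : m * ∫ t in J, f t ≤ m * h := by gcongr
          linarith
  have hMm : M = m * (2 * Real.pi) := by rw [hm]; field_simp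
  rw [hMm] at h10
  have h11 : c0 * (V - 1) ≤ 2 * (2 * Real.pi) * U + 2 := by
    have h12 : (m * h) * (c0 * (V - 1)) ≤ (m * h) * (2 * (2 * Real.pi) * U + 2) := by
      calc (m * h) * (c0 * (V - 1)) = c0 * m * (h * V - h) := by ring
        _ ≤ _ := h10
        _ = _ := by ring
    exact le_of_mul_le_mul_left h12 (by positivity)
  have h13 : c0 / (2 * Real.pi) * (V - 1) ≤ 2 * U + 1 := by
    rw [div_mul_eq_mul_div, div_le_iff₀ (by positivity)]
    have := Real.pi_gt_three
    nlinarith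
  linarith

end Pool.Agent.CZ
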