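import Mathlib
import Pool.Agent.CZ.EZE1
import Pool.Agent.CZ.EGen

/-!
# Critical zeros (MP_553913_nt), module EZE, part 2: zeros in dyadic blocks
-/

set_option autoImplicit false

open Complex Finset MeasureTheory Filter Topology

namespace Pool.Agent.CZ

open Pool.Agent.ZD (Lf)

/-- the zeros of odd order in an interval -/
theorem zeros_finite {d : ℕ} (hd : Squarefree d) (T₁ T₂ : ℝ) :
    {t : ℝ | t ∈ Set.Icc T₁ T₂ ∧ Lf d (1 + t * I) = 0 ∧
      Odd (analyticOrderNatAt (Lf d) (1 + t * I))}.Finite := by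
  by_contra hinf
  set S : Set ℝ := {t : ℝ | t ∈ Set.Icc T₁ T₂ ∧ Lf d (1 + t * I) = 0 ∧
      Odd (analyticOrderNatAt (Lf d) (1 + t * I))} with hS
  have hinf' : S.Infinite := hinf
  have hLd : Differentiable ℂ (Lf d) := (ZD.Lf_spec hd).1
  have hLa : ∀ z, AnalyticAt ℂ (Lf d) z := fun z => hLd.analyticAt z
  have hg : ∀ x : ℝ, AnalyticAt ℝ (fun t : ℝ => Lf d (1 + t * I)) x := by
    intro x
    have h1 : AnalyticAt ℝ (fun t : ℝ => (1 + t * I : ℂ)) x := by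
      have h2 : AnalyticAt ℝ (fun t : ℝ => (t : ℂ)) x := Complex.ofRealCLM.analyticAt x
      exact analyticAt_const.add (h2.mul analyticAt_const)
    exact AnalyticAt.comp (g := Lf d) (f := fun t : ℝ => (1 + t * I : ℂ)) (hLa _).restrictScalars h1
  obtain ⟨x, _, hx⟩ := hinf'.exists_accPt_of_subset_isCompact isCompact_Icc (fun t ht => ht.1)
  have hfreq : ∃ᶠ t in 𝓝[≠] x, (fun t : ℝ => Lf d (1 + t * I)) t = 0 := by
    rw [accPt_iff_frequently_nhdsNE] at hx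
    exact hx.mono fun t ht => ht.2.1
  have hzero := AnalyticOnNhd.eqOn_zero_of_preconnected_of_frequently_eq_zero
    (f := fun t : ℝ => Lf d (1 + t * I)) (U := Set.univ) (fun t _ => hg t) isPreconnected_univ
    (Set.mem_univ x) hfreq
  obtain ⟨s, hs⟩ := hinf'.nonempty
  have hodd := hs.2.2
  rcases (hLa (1 + s * I)).eventually_eq_zero_or_eventually_ne_zero with h | h
  · have htop : analyticOrderAt (Lf d) (1 + s * I) = ⊤ := analyticOrderAt_eq_top.2 h
    unfold analyticOrderNatAt at hodd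
    rw [htop] at hodd
    exact absurd hodd (by decide)
  · have hc : Tendsto (fun t : ℝ => (1 + t * I : ℂ)) (𝓝[≠] s) (𝓝[≠] (1 + s * I)) := by
      apply tendsto_nhdsWithin_of_tendsto_nhds_of_eventually_within
      · apply Tendsto.mono_left _ nhdsWithin_le_nhds
        apply Continuous.tendsto
        fun_prop
      · filter_upwards [self_mem_nhdsWithin] with t ht heq
        apply ht
        have h2 := congrArg Complex.im heq
        simpa using h2
    obtain ⟨t, ht⟩ := (hc.eventually h).exists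
    exact ht (hzero (Set.mem_univ t))

/-- the count in one window configuration -/
theorem many_zeros {d : ℕ} (hd : Squarefree d) {T₁ T₂ r : ℝ} (hr : 0 < r)
    (hr2 : 8 * r ≤ T₂ - T₁) {A : Set ℝ} (hA : volume A ≤ ENNReal.ofReal ((T₂ - T₁) / 4))
    (h : ∀ t₀ ∈ Set.Icc T₁ T₂, t₀ ∉ A → ∃ x : ℝ, |x - t₀| ≤ r ∧ Lf d (1 + x * I) = 0 ∧
      Odd (analyticOrderNatAt (Lf d) (1 + x * I))) :
    (T₂ - T₁) / (4 * r) ≤ ({t : ℝ | t ∈ Set.Icc T₁ T₂ ∧ Lf d (1 + t * I) = 0 ∧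
      Odd (analyticOrderNatAt (Lf d) (1 + t * I))}.ncard : ℝ) := by
  set Z : Set ℝ := {t : ℝ | t ∈ Set.Icc T₁ T₂ ∧ Lf d (1 + t * I) = 0 ∧
      Odd (analyticOrderNatAt (Lf d) (1 + t * I))} with hZ
  set S : Set ℝ := {t | t ∈ Set.Icc (T₁ + r) (T₂ - r) ∧ t ∉ A} with hS
  have hsub : Set.Icc (T₁ + r) (T₂ - r) ⊆ S ∪ A := by
    intro t ht
    by_cases hA' : t ∈ A
    · exact Or.inr hA'
    · exact Or.inl ⟨ht, hA'⟩
  have hvol : ENNReal.ofReal ((T₂ - T₁) / 2) ≤ volume S := by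
    have h1 : ENNReal.ofReal (T₂ - r - (T₁ + r)) ≤ volume S + volume A := by
      rw [← Real.volume_Icc]
      exact (measure_mono hsub).trans (measure_union_le _ _)
    have h2 : ENNReal.ofReal ((T₂ - T₁) / 2) + ENNReal.ofReal ((T₂ - T₁) / 4) ≤
        volume S + ENNReal.ofReal ((T₂ - T₁) / 4) := by
      rw [← ENNReal.ofReal_add (by linarith) (by linarith)]
      calc ENNReal.ofReal ((T₂ - T₁) / 2 + (T₂ - T₁) / 4) ≤ ENNReal.ofReal (T₂ - r - (T₁ + r)) :=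
            ENNReal.ofReal_le_ofReal (by linarith)
        _ ≤ volume S + volume A := h1
        _ ≤ _ := by gcongr
    exact (ENNReal.add_le_add_iff_right ENNReal.ofReal_ne_top).1 h2
  obtain ⟨F, hF, hc⟩ := exists_many (Z := Z) (S := S) hr hvol (by
    intro t ht
    obtain ⟨x, hx, hx0, hodd⟩ := h t ⟨by linarith [ht.1.1], by linarith [ht.1.2]⟩ ht.2
    refine ⟨x, ⟨?_, hx0, hodd⟩, by rw [abs_sub_comm]; exact hx⟩
    rw [abs_le] at hx
    exact ⟨by linarith [ht.1.1, hx.1], by linarith [ht.1.2, hx.2]⟩)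
  have hcard : (F.card : ℝ) ≤ (Z.ncard : ℝ) := by
    have h1 := Set.ncard_le_ncard hF (zeros_finite hd T₁ T₂)
    rw [Set.ncard_coe_finset] at h1
    exact_mod_cast h1
  refine le_trans (le_of_eq ?_) (hc.trans hcard)
  field_simp
  ring

/-- number of zeros of odd order in an interval -/
noncomputable def NZ (d : ℕ) (T₁ T₂ : ℝ) : ℝ :=
  ({t : ℝ | t ∈ Set.Icc T₁ T₂ ∧ Lf d (1 + t * I) = 0 ∧
        Odd (analyticOrderNatAt (Lf d) (1 + t * I))}.ncard : ℝ)

/-- some subinterval of `[T₁, T₂]` of length at least `L^{-κ}` contains few zeros of odd order -/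
def Few (d : ℕ) (T₁ T₂ L κ ε : ℝ) : Prop :=
  ∃ a b : ℝ, T₁ ≤ a ∧ b ≤ T₂ ∧ L ^ (-κ) ≤ b - a ∧ NZ d a b < (b - a) * L ^ (1 - ε)

private lemma tendsto_logpow {a : ℝ} (ha : 0 < a) :
    Tendsto (fun X : ℕ => (Real.log X) ^ a) atTop atTop :=
  (tendsto_rpow_atTop ha).comp (Real.tendsto_log_atTop.comp tendsto_natCast_atTop_atTop)

/-- zeros in dyadic blocks, from the three measure bounds -/
theorem zeros_dyadic_of (hFR : ∀ {d : ℕ}, Squarefree d → ∃ R : ℝ → ℝ,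
    (∀ t, AnalyticAt ℝ R t) ∧
    (∃ u : ℂ, ‖u‖ = 1 ∧ ∀ t : ℝ, (R t : ℂ) = u * ((Md d / (2 * Real.pi) : ℝ) : ℂ) ^ (1 + t * I : ℂ) *
      Complex.Gamma (1 + t * I) * Lf d (1 + t * I)) ∧
    ∀ (K : ℕ) (h t₀ : ℝ), 2 ≤ K → 0 < h →
      Integrable (fun t => R t * wK K ((t - t₀) / h)) ∧
      IntegrableOn (fun x => sB d (Md d) x * (exp (I * t₀ * x) * what K (h * x))) (Set.Ioi 0) ∧
      |∫ t, R t * wK K ((t - t₀) / h)| ≤ 2 * Md d * h *
        ‖∫ x in Set.Ioi (0 : ℝ), sB d (Md d) x * (exp (I * t₀ * x) * what K (h * x))‖)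
    (hUP : ∃ K₀ : ℕ, ∀ (K : ℕ) (T₁ T₂ b δ : ℝ), K₀ ≤ K → 0 < T₁ → T₁ < T₂ → 0 < b → b < 1 →
      0 < δ → ∃ κ C : ℝ, 0 < κ ∧ ∀ X : ℕ, 3 ≤ X →
      ∑ d ∈ (Ioc X (2 * X)).filter Squarefree, (volume {t₀ : ℝ | t₀ ∈ Set.Icc T₁ T₂ ∧
        (Real.log X) ^ δ < ‖∫ x in Set.Ioi (0 : ℝ), sB d (Md d) x *
          (exp (I * t₀ * x) * what K ((Real.log X) ^ (-b) * x))‖}).toReal ≤
        C * X / (Real.log X) ^ κ)
    (hLOW : ∀ (T₁ T₂ b δ : ℝ), 0 < T₁ → T₁ < T₂ → 1 / 2 < b → b < 1 →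
      0 < δ → ∃ K₀ : ℕ, ∀ K : ℕ, K₀ ≤ K → ∃ κ C : ℝ, 0 < κ ∧ ∀ X : ℕ, 3 ≤ X →
      ∑ d ∈ (Ioc X (2 * X)).filter Squarefree, (volume {t₀ : ℝ | t₀ ∈ Set.Icc T₁ T₂ ∧
        (Real.log X) ^ b * ∫ t : ℝ, ‖Lf d (1 + t * I)‖ * wK K ((t - t₀) / (Real.log X) ^ (-b)) <
          (Real.log X) ^ ((1 - b) / 4 - δ)}).toReal ≤
        C * X / (Real.log X) ^ κ)
    (hFAR : ∀ (T₁ T₂ b δ : ℝ) (_ : 0 < T₁) (_ : T₁ < T₂) (_ : 0 < b) (_ : b < 1) (_ : 0 < δ),
      ∃ K₀ : ℕ, ∀ K : ℕ, K₀ ≤ K → ∃ κ C : ℝ, 0 < κ ∧ ∀ X : ℕ, 3 ≤ X →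
      ∑ d ∈ (Ioc X (2 * X)).filter Squarefree, (volume {t₀ : ℝ | t₀ ∈ Set.Icc T₁ T₂ ∧
        1 < (Real.log X) ^ b * ∫ t in {t : ℝ | (Real.log X) ^ (δ - b) < |t - t₀|},
          ‖Lf d (1 + t * I)‖ * wK K ((t - t₀) / (Real.log X) ^ (-b))}).toReal ≤
        C * X / (Real.log X) ^ κ)
    (ε T₁ T₂ : ℝ) (hε : 0 < ε) (hT : 0 < T₁) (hT' : T₁ < T₂) : ∃ κ C : ℝ, 0 < κ ∧
    ∀ X : ℕ, 3 ≤ X →
    ({d : ℕ | X < d ∧ d ≤ 2 * X ∧ Squarefree d ∧ Few d T₁ T₂ (Real.log X) κ ε}.ncard : ℝ) ≤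
      C * X / (Real.log X) ^ κ := by
  classical
  have hpi := Real.pi_pos
  set ε' : ℝ := min ε (1 / 2) with hε'
  have hε'0 : 0 < ε' := lt_min hε (by norm_num)
  have hε'1 : ε' ≤ 1 / 2 := min_le_right _ _
  have hε'2 : ε' ≤ ε := min_le_left _ _
  set b : ℝ := 1 - ε' / 2 with hb
  set δ : ℝ := ε' / 64 with hδ
  have hδ0 : 0 < δ := by positivity
  have hb1 : b < 1 := by rw [hb]; linarith
  have hb2 : 1 / 2 < b := by rw [hb]; linarith
  obtain ⟨K₁, hK₁⟩ := hUP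
  obtain ⟨K₂, hK₂⟩ := hLOW T₁ T₂ b δ hT hT' hb2 hb1 hδ0
  obtain ⟨K₃, hK₃⟩ := hFAR T₁ T₂ b δ hT hT' (by linarith) hb1 hδ0
  set K : ℕ := K₁ + K₂ + K₃ + 2 with hKdef
  obtain ⟨κ₁, C₁, hκ₁, h₁⟩ := hK₁ K T₁ T₂ b δ (by omega) hT hT' (by linarith) hb1 hδ0
  obtain ⟨κ₂, C₂, hκ₂, h₂⟩ := hK₂ K (by omega)
  obtain ⟨κ₃, C₃, hκ₃, h₃⟩ := hK₃ K (by omega)
  set κ' : ℝ := min (min κ₁ (1 / 4)) (min κ₂ κ₃) with hκ'
  have hκ'0 : 0 < κ' := lt_min (lt_min hκ₁ (by norm_num)) (lt_min hκ₂ hκ₃)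
  have hκ'4 : κ' ≤ 1 / 4 := (min_le_left _ _).trans (min_le_right _ _)
  set κ : ℝ := κ' / 2 with hκ
  have hκ0 : 0 < κ := by positivity
  set c0 : ℝ := Real.exp (-(Real.pi / 2 * (T₂ + 1))) / (2 * Real.pi) with hc0
  have hc0pos : 0 < c0 := by positivity
  -- large X
  have hlarge : ∀ᶠ X : ℕ in atTop, 3 ≤ X ∧
      2 * (Real.log X) ^ δ + 1 < c0 * ((Real.log X) ^ ((1 - b) / 4 - δ) - 1) ∧
      8 * (Real.log X) ^ (δ - b) ≤ (Real.log X) ^ (-κ) ∧
      (Real.log X) ^ (1 - ε) ≤ 1 / (4 * (Real.log X) ^ (δ - b)) := by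
    have e1 : (1 - b) / 4 - δ = δ + 6 * δ := by rw [hb, hδ]; ring
    have t1 := tendsto_logpow (a := 6 * δ) (by positivity)
    have t2 := tendsto_logpow (a := b - δ - κ) (by rw [hb, hδ]; linarith)
    have t3 := tendsto_logpow (a := b - δ - (1 - ε')) (by rw [hb, hδ]; linarith)
    filter_upwards [eventually_ge_atTop 3, t1.eventually_gt_atTop ((3 + c0) / c0),
      t2.eventually_ge_atTop 8, t3.eventually_ge_atTop 4]
      with X hX ht1 ht2 ht3
    have hX' : (3:ℝ) ≤ X := by exact_mod_cast hX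
    have hL : 1 ≤ Real.log X := by
      have h1 : Real.exp 1 ≤ X := (Real.exp_one_lt_d9.le.trans (by norm_num)).trans hX'
      have := Real.log_le_log (Real.exp_pos 1) h1
      rwa [Real.log_exp] at this
    have hL0 : 0 < Real.log X := by linarith
    have hdT : 0 < T₂ - T₁ := by linarith
    refine ⟨hX, ?_, ?_, ?_⟩
    · rw [e1, Real.rpow_add hL0]
      set y := (Real.log X) ^ δ with hy
      set w := (Real.log X) ^ (6 * δ) with hw
      have hy1 : 1 ≤ y := Real.one_le_rpow hL hδ0.le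
      have hw1 : 3 + c0 < c0 * w := by
        rw [div_lt_iff₀ hc0pos] at ht1
        linarith
      nlinarith
    · have e2 : (Real.log X) ^ (-κ) = (Real.log X) ^ (b - δ - κ) * (Real.log X) ^ (δ - b) := by
        rw [← Real.rpow_add hL0]; congr 1; ring
      rw [e2]
      have : 0 ≤ (Real.log X) ^ (δ - b) := Real.rpow_nonneg hL0.le _
      gcongr
    · have e2 : (Real.log X) ^ (δ - b) = ((Real.log X) ^ (b - δ))⁻¹ := by
        rw [← Real.rpow_neg hL0.le]; congr 1; ring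
      have e3 : (Real.log X) ^ (b - δ) = (Real.log X) ^ (b - δ - (1 - ε')) * (Real.log X) ^ (1 - ε') := by
        rw [← Real.rpow_add hL0]; congr 1; ring
      have e4 : (Real.log X) ^ (1 - ε) ≤ (Real.log X) ^ (1 - ε') :=
        Real.rpow_le_rpow_of_exponent_le hL (by linarith)
      have e5 : 1 / (4 * ((Real.log X) ^ (b - δ))⁻¹) = 1 / 4 * (Real.log X) ^ (b - δ) := by
        have : (Real.log X) ^ (b - δ) ≠ 0 := (Real.rpow_pos_of_pos hL0 _).ne'
        field_simp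
      rw [e2, e5, e3]
      have e6 : 1 ≤ 1 / 4 * (Real.log X) ^ (b - δ - (1 - ε')) := by linarith
      have e7 : 0 ≤ (Real.log X) ^ (1 - ε') := Real.rpow_nonneg hL0.le _
      calc (Real.log X) ^ (1 - ε) ≤ (Real.log X) ^ (1 - ε') := e4
        _ ≤ (1 / 4 * (Real.log X) ^ (b - δ - (1 - ε'))) * (Real.log X) ^ (1 - ε') :=
            le_mul_of_one_le_left e7 e6
        _ = _ := by ring
  obtain ⟨X₀, hX₀⟩ := eventually_atTop.1 hlarge
  set C : ℝ := 4 * (|C₁| + |C₂| + |C₃|) + (Real.log X₀) ^ κ with hC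
  refine ⟨κ, C, hκ0, ?_⟩
  intro X hX
  have hX' : (3:ℝ) ≤ X := by exact_mod_cast hX
  have hL : 1 ≤ Real.log X := by
    have h1 : Real.exp 1 ≤ X := (Real.exp_one_lt_d9.le.trans (by norm_num)).trans hX'
    have := Real.log_le_log (Real.exp_pos 1) h1
    rwa [Real.log_exp] at this
  have hL0 : 0 < Real.log X := by linarith
  have hdT : 0 < T₂ - T₁ := by linarith
  have hLκ : 0 < (Real.log X) ^ κ := Real.rpow_pos_of_pos hL0 _
  have hX₀0 : 0 ≤ (Real.log X₀) ^ κ := Real.rpow_nonneg (Real.log_natCast_nonneg _) _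
  set Bad : Finset ℕ := (Ioc X (2 * X)).filter (fun d => Squarefree d ∧
      Few d T₁ T₂ (Real.log X) κ ε) with hBad
  have hBadeq : {d : ℕ | X < d ∧ d ≤ 2 * X ∧ Squarefree d ∧ Few d T₁ T₂ (Real.log X) κ ε} =
      (Bad : Set ℕ) := by
    ext d
    simp only [hBad, Finset.coe_filter, Finset.mem_Ioc, Set.mem_ofPred_eq]
    tauto
  rw [hBadeq, Set.ncard_coe_finset]
  rcases lt_or_ge X X₀ with hlt | hge
  · -- small X
    have h1 : (Bad.card : ℝ) ≤ X := by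
      have : Bad.card ≤ X := by
        refine (Finset.card_filter_le _ _).trans ?_
        rw [Nat.card_Ioc]; omega
      exact_mod_cast this
    have h2 : (Real.log X) ^ κ ≤ (Real.log X₀) ^ κ := by
      apply Real.rpow_le_rpow hL0.le _ hκ0.le
      apply Real.log_le_log (by linarith)
      exact_mod_cast hlt.le
    rw [le_div_iff₀ hLκ]
    calc (Bad.card : ℝ) * (Real.log X) ^ κ ≤ X * (Real.log X₀) ^ κ := by gcongr
      _ = (Real.log X₀) ^ κ * X := by ring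
      _ ≤ C * X := by
          apply mul_le_mul_of_nonneg_right _ (by linarith)
          rw [hC]
          have : 0 ≤ 4 * (|C₁| + |C₂| + |C₃|) := by positivity
          linarith
  · obtain ⟨_, hnum, hr8, hcnt⟩ := hX₀ X hge
    set h : ℝ := (Real.log X) ^ (-b) with hh
    have hh0 : 0 < h := Real.rpow_pos_of_pos hL0 _
    have hhinv : h⁻¹ = (Real.log X) ^ b := by
      rw [hh, Real.rpow_neg hL0.le, inv_inv]
    set r : ℝ := (Real.log X) ^ (δ - b) with hr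
    have hr0 : 0 < r := Real.rpow_pos_of_pos hL0 _
    have hr1 : r ≤ 1 := Real.rpow_le_one_of_one_le_of_nonpos hL (by rw [hb, hδ]; linarith)
    set A1 : ℕ → Set ℝ := fun d => {t₀ : ℝ | t₀ ∈ Set.Icc T₁ T₂ ∧
        (Real.log X) ^ δ < ‖∫ x in Set.Ioi (0 : ℝ), sB d (Md d) x *
          (exp (I * t₀ * x) * what K ((Real.log X) ^ (-b) * x))‖} with hA1
    set A2 : ℕ → Set ℝ := fun d => {t₀ : ℝ | t₀ ∈ Set.Icc T₁ T₂ ∧
        (Real.log X) ^ b * ∫ t : ℝ, ‖Lf d (1 + t * I)‖ * wK K ((t - t₀) / (Real.log X) ^ (-b)) <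
          (Real.log X) ^ ((1 - b) / 4 - δ)} with hA2
    set A3 : ℕ → Set ℝ := fun d => {t₀ : ℝ | t₀ ∈ Set.Icc T₁ T₂ ∧
        1 < (Real.log X) ^ b * ∫ t in {t : ℝ | (Real.log X) ^ (δ - b) < |t - t₀|},
          ‖Lf d (1 + t * I)‖ * wK K ((t - t₀) / (Real.log X) ^ (-b))} with hA3
    have hfin : ∀ S : Set ℝ, S ⊆ Set.Icc T₁ T₂ → volume S ≠ ⊤ := by
      intro S hS
      exact ((measure_mono hS).trans_lt (by simp)).ne
    have hbad : ∀ d ∈ Bad, (Real.log X) ^ (-κ) / 4 ≤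
        (volume (A1 d)).toReal + (volume (A2 d)).toReal + (volume (A3 d)).toReal := by
      intro d hdB
      rw [hBad, Finset.mem_filter] at hdB
      obtain ⟨_, hsq, a', b', ha', hb', hab, hfew⟩ := hdB
      have hκL : 0 < (Real.log X) ^ (-κ) := Real.rpow_pos_of_pos hL0 _
      by_contra hcon
      push Not at hcon
      have hvol : volume (A1 d ∪ A2 d ∪ A3 d) ≤ ENNReal.ofReal ((b' - a') / 4) := by
        have n1 := hfin (A1 d) (fun t ht => ht.1)
        have n2 := hfin (A2 d) (fun t ht => ht.1)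
        have n3 := hfin (A3 d) (fun t ht => ht.1)
        calc volume (A1 d ∪ A2 d ∪ A3 d) ≤ volume (A1 d) + volume (A2 d) + volume (A3 d) :=
              (measure_union_le _ _).trans (by gcongr; exact measure_union_le _ _)
          _ = ENNReal.ofReal ((volume (A1 d)).toReal + (volume (A2 d)).toReal +
              (volume (A3 d)).toReal) := by
              rw [ENNReal.ofReal_add (by positivity) (by positivity),
                ENNReal.ofReal_add (by positivity) (by positivity), ENNReal.ofReal_toReal n1,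
                ENNReal.ofReal_toReal n2, ENNReal.ofReal_toReal n3]
          _ ≤ _ := ENNReal.ofReal_le_ofReal (hcon.le.trans (by linarith))
      have hmany := many_zeros (T₁ := a') (T₂ := b') hsq hr0 (hr8.trans hab) hvol (by
        intro t₀ ht₀' hnA
        have ht₀ : t₀ ∈ Set.Icc T₁ T₂ := ⟨ha'.trans ht₀'.1, ht₀'.2.trans hb'⟩
        simp only [Set.mem_union, not_or] at hnA
        obtain ⟨⟨n1, n2⟩, n3⟩ := hnA
        have g1 : ‖∫ x in Set.Ioi (0 : ℝ), sB d (Md d) x * (exp (I * t₀ * x) * what K (h * x))‖ ≤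
            (Real.log X) ^ δ := by
          by_contra h'
          push Not at h'
          exact n1 ⟨ht₀, h'⟩
        have g2 : (Real.log X) ^ ((1 - b) / 4 - δ) ≤
            h⁻¹ * ∫ t : ℝ, ‖Lf d (1 + t * I)‖ * wK K ((t - t₀) / h) := by
          by_contra h'
          push Not at h'
          rw [hhinv] at h'
          exact n2 ⟨ht₀, h'⟩
        have g3 : h⁻¹ * (∫ t in {t : ℝ | r < |t - t₀|}, ‖Lf d (1 + t * I)‖ * wK K ((t - t₀) / h)) ≤ 1 := by
          by_contra h'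
          push Not at h'
          rw [hhinv] at h'
          exact n3 ⟨ht₀, h'⟩
        have ht₀'' : |t₀| ≤ T₂ := by
          rw [abs_of_nonneg (by linarith [ht₀.1])]; exact ht₀.2
        exact window_zero hFR hsq (by omega) hh0 hr1 ht₀'' g1 g2 g3 hnum)
      have hba : 0 < b' - a' := hκL.trans_le hab
      have h5 : (b' - a') * (Real.log X) ^ (1 - ε) ≤ (b' - a') / (4 * r) := by
        calc (b' - a') * (Real.log X) ^ (1 - ε) ≤ (b' - a') * (1 / (4 * r)) := by gcongr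
          _ = _ := by ring
      have := hmany.trans_lt hfew
      linarith
    have hsum : ∀ (A : ℕ → Set ℝ) (c κ₀ : ℝ), κ' ≤ κ₀ →
        ∑ d ∈ (Ioc X (2 * X)).filter Squarefree, (volume (A d)).toReal ≤ c * X / (Real.log X) ^ κ₀ →
        ∑ d ∈ Bad, (volume (A d)).toReal ≤ |c| * X / (Real.log X) ^ κ' := by
      intro A c κ₀ hκ₀ hle
      have hsubB : Bad ⊆ (Ioc X (2 * X)).filter Squarefree := by
        intro d hd
        rw [hBad, Finset.mem_filter] at hd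
        rw [Finset.mem_filter]
        exact ⟨hd.1, hd.2.1⟩
      refine (Finset.sum_le_sum_of_subset_of_nonneg hsubB (fun _ _ _ => by positivity)).trans
        (hle.trans ?_)
      have h1 : (Real.log X) ^ κ' ≤ (Real.log X) ^ κ₀ := Real.rpow_le_rpow_of_exponent_le hL hκ₀
      calc c * X / (Real.log X) ^ κ₀ ≤ |c| * X / (Real.log X) ^ κ₀ := by
            gcongr; exact le_abs_self c
        _ ≤ _ := by gcongr
    have s1 := hsum A1 C₁ κ₁ ((min_le_left _ _).trans (min_le_left _ _)) (h₁ X hX)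
    have s2 := hsum A2 C₂ κ₂ ((min_le_right _ _).trans (min_le_left _ _)) (h₂ X hX)
    have s3 := hsum A3 C₃ κ₃ ((min_le_right _ _).trans (min_le_right _ _)) (h₃ X hX)
    have htot : (Bad.card : ℝ) * ((Real.log X) ^ (-κ) / 4) ≤
        (|C₁| + |C₂| + |C₃|) * X / (Real.log X) ^ κ' := by
      calc (Bad.card : ℝ) * ((Real.log X) ^ (-κ) / 4) = ∑ d ∈ Bad, (Real.log X) ^ (-κ) / 4 := by
            rw [Finset.sum_const, nsmul_eq_mul]
        _ ≤ ∑ d ∈ Bad, ((volume (A1 d)).toReal + (volume (A2 d)).toReal + (volume (A3 d)).toReal) :=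
            Finset.sum_le_sum hbad
        _ = _ := by rw [Finset.sum_add_distrib, Finset.sum_add_distrib]
        _ ≤ |C₁| * X / (Real.log X) ^ κ' + |C₂| * X / (Real.log X) ^ κ' +
            |C₃| * X / (Real.log X) ^ κ' := by gcongr
        _ = _ := by ring
    have e7 : (Real.log X) ^ κ' = (Real.log X) ^ κ * (Real.log X) ^ κ := by
      rw [← Real.rpow_add hL0]; congr 1; rw [hκ]; ring
    have e8 : (Real.log X) ^ (-κ) = ((Real.log X) ^ κ)⁻¹ := Real.rpow_neg hL0.le _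
    calc (Bad.card : ℝ) = 4 * (Real.log X) ^ κ * ((Bad.card : ℝ) * ((Real.log X) ^ (-κ) / 4)) := by
          rw [e8]; field_simp
      _ ≤ 4 * (Real.log X) ^ κ * ((|C₁| + |C₂| + |C₃|) * X / (Real.log X) ^ κ') := by gcongr
      _ = (4 * (|C₁| + |C₂| + |C₃|)) * X / (Real.log X) ^ κ := by
          rw [e7]; field_simp
      _ ≤ C * X / (Real.log X) ^ κ := by
          gcongr
          rw [hC]; linarith

end Pool.Agent.CZ
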