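import Mathlib
import Pool.Agent.CZ.EZE2
import Pool.Agent.ZD.Final

/-!
# Critical zeros (MP_553913_nt), module EFI: from dyadic blocks to all `d ≤ X`, arbitrary intervals
-/

set_option autoImplicit false

open Complex Finset MeasureTheory Filter Topology

namespace Pool.Agent.CZ

open Pool.Agent.ZD (Lf)
open Pool.Agent.H5 (bd Lser)

theorem Lf_conj {d : ℕ} (hd : Squarefree d) (z : ℂ) :
    Lf d ((starRingEnd ℂ) z) = (starRingEnd ℂ) (Lf d z) := by
  have hG : ZD.IsL d ((starRingEnd ℂ) ∘ Lf d ∘ (starRingEnd ℂ)) := by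
    refine ⟨fun z => ?_, fun s hs => ?_⟩
    · rw [differentiableAt_conj_conj_iff]
      exact (ZD.Lf_spec hd).1 _
    · simp only [Function.comp]
      rw [(ZD.Lf_spec hd).2 _ (by simpa using hs)]
      unfold Lser
      rw [Complex.conj_tsum]
      refine tsum_congr fun n => ?_
      rw [map_mul, map_intCast]
      congr 1
      rcases Nat.eq_zero_or_pos n with rfl | hn
      · have h1 : -(starRingEnd ℂ) s ≠ 0 := by
          intro h
          have := congrArg Complex.re h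
          simp at this
          linarith
        have h2 : -s ≠ 0 := by
          intro h
          have := congrArg Complex.re h
          simp at this
          linarith
        rw [Nat.cast_zero, Complex.zero_cpow h1, Complex.zero_cpow h2, map_zero]
      · have harg : ((n : ℕ) : ℂ).arg ≠ Real.pi := by
          rw [Complex.natCast_arg]; exact Real.pi_ne_zero.symm
        rw [← map_neg, Complex.cpow_conj _ _ harg, Complex.conj_natCast, Complex.conj_conj]
  have := ZD.isL_unique hG (ZD.Lf_spec hd)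
  have h2 := congrFun this ((starRingEnd ℂ) z)
  simp only [Function.comp, Complex.conj_conj] at h2
  exact h2.symm

theorem order_conj {d : ℕ} (hd : Squarefree d) (z₀ : ℂ) :
    analyticOrderNatAt (Lf d) ((starRingEnd ℂ) z₀) = analyticOrderNatAt (Lf d) z₀ := by
  have hLd : Differentiable ℂ (Lf d) := (ZD.Lf_spec hd).1
  have hLa : ∀ z, AnalyticAt ℂ (Lf d) z := fun z => hLd.analyticAt z
  by_cases htop : analyticOrderAt (Lf d) z₀ = ⊤
  · have h0 : Lf d = 0 := (AnalyticOnNhd.analyticOrderAt_eq_top_iff_eq_zero _ hLa).1 htop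
    have h1 : analyticOrderAt (Lf d) ((starRingEnd ℂ) z₀) = ⊤ :=
      (AnalyticOnNhd.analyticOrderAt_eq_top_iff_eq_zero _ hLa).2 h0
    unfold analyticOrderNatAt
    rw [htop, h1]
  · obtain ⟨g, hg, hgx, hev⟩ := (hLa _).analyticOrderAt_ne_top.1 htop
    have h1 : AnalyticAt ℂ ((starRingEnd ℂ) ∘ g ∘ (starRingEnd ℂ)) ((starRingEnd ℂ) z₀) := by
      rw [Complex.analyticAt_iff_eventually_differentiableAt] at hg ⊢
      have hc : Tendsto (starRingEnd ℂ) (𝓝 ((starRingEnd ℂ) z₀)) (𝓝 z₀) := by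
        have := (Complex.continuous_conj.tendsto ((starRingEnd ℂ) z₀))
        rwa [Complex.conj_conj] at this
      filter_upwards [hc.eventually hg] with w hw
      rw [differentiableAt_conj_conj_iff]
      exact hw
    have h2 : analyticOrderAt (Lf d) ((starRingEnd ℂ) z₀) = analyticOrderNatAt (Lf d) z₀ := by
      rw [(hLa _).analyticOrderAt_eq_natCast]
      refine ⟨(starRingEnd ℂ) ∘ g ∘ (starRingEnd ℂ), h1, ?_, ?_⟩
      · simp only [Function.comp, Complex.conj_conj]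
        intro h
        exact hgx ((map_eq_zero _).1 h)
      · have hc : Tendsto (starRingEnd ℂ) (𝓝 ((starRingEnd ℂ) z₀)) (𝓝 z₀) := by
          have := (Complex.continuous_conj.tendsto ((starRingEnd ℂ) z₀))
          rwa [Complex.conj_conj] at this
        filter_upwards [hc.eventually hev] with w hw
        have e1 := congrArg (starRingEnd ℂ) hw
        rw [← Lf_conj hd, Complex.conj_conj] at e1
        rw [e1]
        simp [smul_eq_mul]
    have h3 : analyticOrderNatAt (Lf d) ((starRingEnd ℂ) z₀) =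
        (analyticOrderAt (Lf d) ((starRingEnd ℂ) z₀)).toNat := rfl
    rw [h3, h2]
    rfl

theorem NZ_mono {d : ℕ} (hd : Squarefree d) {S₁ S₂ T₁ T₂ : ℝ} (h1 : T₁ ≤ S₁) (h2 : S₂ ≤ T₂) :
    NZ d S₁ S₂ ≤ NZ d T₁ T₂ := by
  unfold NZ
  have := Set.ncard_le_ncard (s := {t : ℝ | t ∈ Set.Icc S₁ S₂ ∧ Lf d (1 + t * I) = 0 ∧
        Odd (analyticOrderNatAt (Lf d) (1 + t * I))}) (t := {t : ℝ | t ∈ Set.Icc T₁ T₂ ∧
        Lf d (1 + t * I) = 0 ∧ Odd (analyticOrderNatAt (Lf d) (1 + t * I))})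
    (fun t ht => ⟨⟨h1.trans ht.1.1, ht.1.2.trans h2⟩, ht.2⟩) (zeros_finite hd T₁ T₂)
  exact_mod_cast this

theorem NZ_neg {d : ℕ} (hd : Squarefree d) (T₁ T₂ : ℝ) : NZ d (-T₂) (-T₁) = NZ d T₁ T₂ := by
  unfold NZ
  have key : ∀ t : ℝ, (1 + ((-t : ℝ) : ℂ) * I) = (starRingEnd ℂ) (1 + t * I) := by
    intro t; simp
  have e : {t : ℝ | t ∈ Set.Icc (-T₂) (-T₁) ∧ Lf d (1 + t * I) = 0 ∧
        Odd (analyticOrderNatAt (Lf d) (1 + t * I))} =
      (fun t : ℝ => -t) '' {t : ℝ | t ∈ Set.Icc T₁ T₂ ∧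
        Lf d (1 + t * I) = 0 ∧ Odd (analyticOrderNatAt (Lf d) (1 + t * I))} := by
    ext t
    simp only [Set.mem_ofPred_eq, Set.mem_image, Set.mem_Icc]
    constructor
    · rintro ⟨⟨h1, h2⟩, h3, h4⟩
      refine ⟨-t, ⟨⟨by linarith, by linarith⟩, ?_, ?_⟩, neg_neg t⟩
      · rw [key, Lf_conj hd, h3, map_zero]
      · rw [key, order_conj hd]; exact h4
    · rintro ⟨s, ⟨⟨h1, h2⟩, h3, h4⟩, rfl⟩
      refine ⟨⟨by linarith, by linarith⟩, ?_, ?_⟩
      · rw [key, Lf_conj hd, h3, map_zero]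
      · rw [key, order_conj hd]; exact h4
  rw [e, Set.ncard_image_of_injective _ neg_injective]

/-- a positive interval with fewer zeros -/
theorem exists_pos_interval (T₁ T₂ : ℝ) (hT : T₁ < T₂) : ∃ S₁ S₂ : ℝ, 0 < S₁ ∧ S₁ < S₂ ∧
    ∀ d : ℕ, Squarefree d → NZ d S₁ S₂ ≤ NZ d T₁ T₂ := by
  rcases lt_or_ge 0 T₂ with h | h
  · refine ⟨max T₁ (T₂ / 2), T₂, lt_max_of_lt_right (by linarith), max_lt hT (by linarith), ?_⟩
    intro d hd
    exact NZ_mono hd (le_max_left _ _) le_rfl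
  · refine ⟨(-T₁ - T₂) / 2, -T₁, by linarith, by linarith, ?_⟩
    intro d hd
    have h1 := NZ_neg hd T₁ T₂
    rw [← h1]
    exact NZ_mono hd (by linarith) le_rfl

/-- final form, from the dyadic form -/
theorem zeros_many2_of (hdy : ∀ (ε T₁ T₂ : ℝ), 0 < ε → 0 < T₁ → T₁ < T₂ → ∃ κ C : ℝ, 0 < κ ∧
    ∀ X : ℕ, 3 ≤ X →
    ({d : ℕ | X < d ∧ d ≤ 2 * X ∧ Squarefree d ∧ Few d T₁ T₂ (Real.log X) κ ε}.ncard : ℝ) ≤
      C * X / (Real.log X) ^ κ)
    (ε T₁ T₂ : ℝ) (hε : 0 < ε) (hT : 0 < T₁) (hT' : T₁ < T₂) : ∃ κ C : ℝ, 0 < κ ∧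
    ∀ X : ℕ, 3 ≤ X →
    ({d : ℕ | 1 ≤ d ∧ d ≤ X ∧ Squarefree d ∧ Few d T₁ T₂ (Real.log X) κ ε}.ncard : ℝ) ≤
      C * X / (Real.log X) ^ κ := by
  classical
  set ε' : ℝ := min ε 1 with hε'
  have hε'0 : 0 < ε' := lt_min hε one_pos
  have hε'1 : ε' ≤ 1 := min_le_right _ _
  have hε'2 : ε' ≤ ε := min_le_left _ _
  obtain ⟨κ₁, C₁, hκ₁, h1⟩ := hdy (ε' / 2) T₁ T₂ (by positivity) hT hT'
  set κ : ℝ := κ₁ / 2 with hκdef
  have hκ : 0 < κ := by positivity
  obtain ⟨B, hB⟩ := exists_nat_ge κ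
  obtain ⟨C₂, hC₂, h2⟩ := ZD.sqrt_le_div_log B
  have ht : ∀ a : ℝ, 0 < a → Tendsto (fun X : ℕ => (Real.log X) ^ a) atTop atTop := fun a ha =>
    (tendsto_rpow_atTop ha).comp (Real.tendsto_log_atTop.comp tendsto_natCast_atTop_atTop)
  obtain ⟨X₀, hX₀⟩ := eventually_atTop.1 (((ht (ε' / 2) (by positivity)).eventually_ge_atTop 4).and
    ((ht κ hκ).eventually_ge_atTop (4 ^ κ₁)))
  set X₁ : ℕ := max X₀ 17 with hX₁
  set C : ℝ := |C₁| * 2 * 4 ^ κ₁ + 2 * C₂ + (Real.log X₁) ^ κ with hC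
  have hX₁0 : 0 ≤ (Real.log X₁) ^ κ := Real.rpow_nonneg (Real.log_natCast_nonneg _) _
  have h40 : 0 ≤ |C₁| * 2 * (4:ℝ) ^ κ₁ := by positivity
  refine ⟨κ, C, hκ, ?_⟩
  intro X hX
  have hX' : (3:ℝ) ≤ X := by exact_mod_cast hX
  have hL : 1 ≤ Real.log X := by
    have h1 : Real.exp 1 ≤ X := (Real.exp_one_lt_d9.le.trans (by norm_num)).trans hX'
    have := Real.log_le_log (Real.exp_pos 1) h1
    rwa [Real.log_exp] at this
  have hL0 : 0 < Real.log X := by linarith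
  have hLκ : 0 < (Real.log X) ^ κ := Real.rpow_pos_of_pos hL0 _
  set Bad : Finset ℕ := (Icc 1 X).filter (fun d => Squarefree d ∧
      Few d T₁ T₂ (Real.log X) κ ε) with hBad
  have hBadeq : {d : ℕ | 1 ≤ d ∧ d ≤ X ∧ Squarefree d ∧ Few d T₁ T₂ (Real.log X) κ ε} =
      (Bad : Set ℕ) := by
    ext d
    simp only [hBad, Finset.coe_filter, Finset.mem_Icc, Set.mem_ofPred_eq]
    tauto
  rw [hBadeq, Set.ncard_coe_finset]
  rcases lt_or_ge X X₁ with hlt | hge
  · have h3 : (Bad.card : ℝ) ≤ X := by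
      have : Bad.card ≤ X := by
        refine (Finset.card_filter_le _ _).trans ?_
        simp
      exact_mod_cast this
    have h4 : (Real.log X) ^ κ ≤ (Real.log X₁) ^ κ := by
      apply Real.rpow_le_rpow hL0.le _ hκ.le
      apply Real.log_le_log (by linarith)
      exact_mod_cast hlt.le
    rw [le_div_iff₀ hLκ]
    calc (Bad.card : ℝ) * (Real.log X) ^ κ ≤ X * (Real.log X₁) ^ κ := by gcongr
      _ = (Real.log X₁) ^ κ * X := by ring
      _ ≤ C * X := by
          apply mul_le_mul_of_nonneg_right _ (by linarith)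
          rw [hC]
          linarith
  · have hX17 : 17 ≤ X := (le_max_right _ _).trans hge
    obtain ⟨hL4, hL5⟩ := hX₀ X ((le_max_left _ _).trans hge)
    set J : ℕ := Nat.log 2 (X - 1) with hJ
    have hJ1 : 2 ^ J ≤ X - 1 := Nat.pow_log_le_self 2 (by omega)
    have hJ2 : X - 1 < 2 ^ (J + 1) := Nat.lt_pow_succ_log_self (by norm_num) _
    have hJ4 : 4 ≤ J := by
      rw [hJ]
      apply Nat.le_log_of_pow_le (by norm_num)
      omega
    set i₀ : ℕ := (J + 1) / 2 with hi₀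
    have hi₀2 : 2 ≤ i₀ := by omega
    have hlogX : Real.log X ≤ (J + 1) * Real.log 2 := by
      have h3 : (X : ℝ) ≤ 2 ^ (J + 1) := by
        have : X ≤ 2 ^ (J + 1) := by omega
        exact_mod_cast this
      have h4 := Real.log_le_log (by linarith) h3
      rw [Real.log_pow] at h4
      push_cast at h4
      exact h4
    have hlog2 : 0 < Real.log 2 := Real.log_pos (by norm_num)
    have hlogi : ∀ i : ℕ, i₀ ≤ i → Real.log X / 4 ≤ Real.log ((2 ^ i : ℕ) : ℝ) := by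
      intro i hi
      push_cast
      rw [Real.log_pow]
      have h5 : ((J : ℝ) + 1) / 4 ≤ i := by
        have : J + 1 ≤ 4 * i := by omega
        have : ((J : ℝ) + 1) ≤ 4 * i := by exact_mod_cast this
        linarith
      calc Real.log X / 4 ≤ ((J + 1) * Real.log 2) / 4 := by gcongr
        _ = ((J : ℝ) + 1) / 4 * Real.log 2 := by ring
        _ ≤ i * Real.log 2 := by gcongr
    -- the covering
    have hcover : Bad ⊆ Icc 1 (2 ^ i₀) ∪ (Ico i₀ (J + 1)).biUnion (fun i =>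
        (Ioc (2 ^ i) (2 * 2 ^ i)).filter (fun d => Squarefree d ∧
          Few d T₁ T₂ (Real.log ((2 ^ i : ℕ) : ℝ)) κ₁ (ε' / 2))) := by
      intro d hd
      rw [hBad, Finset.mem_filter, Finset.mem_Icc] at hd
      obtain ⟨⟨hd1, hdX⟩, hsq, a, b, ha, hb, hab, hfew⟩ := hd
      rw [Finset.mem_union]
      rcases le_or_gt d (2 ^ i₀) with hdi | hdi
      · left; rw [Finset.mem_Icc]; exact ⟨hd1, hdi⟩
      · right
        set i : ℕ := Nat.log 2 (d - 1) with hi
        have h1 : 2 ^ i ≤ d - 1 := Nat.pow_log_le_self 2 (by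
          have : 0 < 2 ^ i₀ := by positivity
          omega)
        have h2 : d - 1 < 2 ^ (i + 1) := Nat.lt_pow_succ_log_self (by norm_num) _
        have h3 : i₀ ≤ i := by
          rw [hi]
          apply Nat.le_log_of_pow_le (by norm_num)
          omega
        have h4 : i < J + 1 := by
          rw [hi, hJ]
          exact Nat.lt_succ_of_le (Nat.log_mono_right (by omega))
        rw [Finset.mem_biUnion]
        refine ⟨i, Finset.mem_Ico.2 ⟨h3, h4⟩, ?_⟩
        rw [Finset.mem_filter, Finset.mem_Ioc]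
        refine ⟨⟨by
          have : 0 < 2 ^ i := by positivity
          omega, by
          rw [pow_succ] at h2
          omega⟩, hsq, a, b, ha, hb, ?_, ?_⟩
        · -- the length
          have h6 := hlogi i h3
          have h7 : 0 < Real.log X / 4 := by positivity
          have h8 : (Real.log ((2 ^ i : ℕ) : ℝ)) ^ (-κ₁) ≤ (Real.log X / 4) ^ (-κ₁) :=
            Real.rpow_le_rpow_of_nonpos h7 h6 (by linarith)
          have h9 : (Real.log X / 4) ^ (-κ₁) = 4 ^ κ₁ / ((Real.log X) ^ κ * (Real.log X) ^ κ) := by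
            rw [← Real.rpow_add hL0, Real.rpow_neg h7.le, Real.div_rpow hL0.le (by norm_num), inv_div,
              show κ + κ = κ₁ by rw [hκdef]; ring]
          refine le_trans ?_ hab
          refine h8.trans ?_
          rw [h9, Real.rpow_neg hL0.le, div_le_iff₀ (by positivity), ← mul_assoc,
            inv_mul_cancel₀ hLκ.ne', one_mul]
          exact hL5
        refine hfew.trans_le ?_
        have hba : 0 ≤ b - a := (Real.rpow_nonneg hL0.le _).trans hab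
        have h6 := hlogi i h3
        have h7 : (Real.log X) ^ (1 - ε) ≤ (Real.log X) ^ (1 - ε') :=
          Real.rpow_le_rpow_of_exponent_le hL (by linarith)
        have h8 : (Real.log X) ^ (1 - ε' / 2) = (Real.log X) ^ (1 - ε') * (Real.log X) ^ (ε' / 2) := by
          rw [← Real.rpow_add hL0]; congr 1; ring
        have h9 : (1:ℝ) / 4 ≤ (1 / 4) ^ (1 - ε' / 2) := by
          calc (1:ℝ) / 4 = (1 / 4) ^ (1:ℝ) := by rw [Real.rpow_one]
            _ ≤ (1 / 4) ^ (1 - ε' / 2) :=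
              Real.rpow_le_rpow_of_exponent_ge (by norm_num) (by norm_num) (by linarith)
        have h10 : 0 ≤ (Real.log X) ^ (1 - ε') := Real.rpow_nonneg hL0.le _
        apply mul_le_mul_of_nonneg_left _ hba
        calc (Real.log X) ^ (1 - ε) ≤ (Real.log X) ^ (1 - ε') := h7
          _ ≤ (1 / 4) * ((Real.log X) ^ (1 - ε') * (Real.log X) ^ (ε' / 2)) := by nlinarith
          _ = (1 / 4) * (Real.log X) ^ (1 - ε' / 2) := by rw [h8]
          _ ≤ (1 / 4) ^ (1 - ε' / 2) * (Real.log X) ^ (1 - ε' / 2) := by gcongr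
          _ = (1 / 4 * Real.log X) ^ (1 - ε' / 2) := by
              rw [Real.mul_rpow (by norm_num) hL0.le]
          _ ≤ (Real.log ((2 ^ i : ℕ) : ℝ)) ^ (1 - ε' / 2) := by
              apply Real.rpow_le_rpow (by positivity) (by linarith) (by linarith)
    have hcard := Finset.card_le_card hcover
    have hcard2 : (Bad.card : ℝ) ≤ 2 ^ i₀ + ∑ i ∈ Ico i₀ (J + 1),
        |C₁| * 2 ^ i / (Real.log X / 4) ^ κ₁ := by
      have h3 : (Bad.card : ℝ) ≤ ((Icc 1 (2 ^ i₀)).card : ℝ) + ∑ i ∈ Ico i₀ (J + 1),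
          (((Ioc (2 ^ i) (2 * 2 ^ i)).filter (fun d => Squarefree d ∧
          Few d T₁ T₂ (Real.log ((2 ^ i : ℕ) : ℝ)) κ₁ (ε' / 2))).card : ℝ) := by
        have := hcard.trans ((Finset.card_union_le _ _).trans (Nat.add_le_add_left Finset.card_biUnion_le _))
        exact_mod_cast this
      refine h3.trans ?_
      apply add_le_add
      · simp
      · apply Finset.sum_le_sum
        intro i hi
        rw [Finset.mem_Ico] at hi
        have hi3 : 3 ≤ 2 ^ i := by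
          calc 3 ≤ 2 ^ 2 := by norm_num
            _ ≤ 2 ^ i := Nat.pow_le_pow_right (by norm_num) (by omega)
        have hdyi := h1 (2 ^ i) hi3
        have heq : {d : ℕ | 2 ^ i < d ∧ d ≤ 2 * 2 ^ i ∧ Squarefree d ∧
            Few d T₁ T₂ (Real.log ((2 ^ i : ℕ) : ℝ)) κ₁ (ε' / 2)} =
            (((Ioc (2 ^ i) (2 * 2 ^ i)).filter (fun d => Squarefree d ∧
              Few d T₁ T₂ (Real.log ((2 ^ i : ℕ) : ℝ)) κ₁ (ε' / 2)) : Finset ℕ) : Set ℕ) := by
          ext d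
          simp only [Finset.coe_filter, Finset.mem_Ioc, Set.mem_ofPred_eq]
          tauto
        rw [heq, Set.ncard_coe_finset] at hdyi
        refine hdyi.trans ?_
        have h6 := hlogi i hi.1
        have h7 : 0 < Real.log X / 4 := by positivity
        calc C₁ * ((2 ^ i : ℕ) : ℝ) / (Real.log ((2 ^ i : ℕ) : ℝ)) ^ κ₁ ≤
            |C₁| * ((2 ^ i : ℕ) : ℝ) / (Real.log ((2 ^ i : ℕ) : ℝ)) ^ κ₁ := by
              gcongr; exact le_abs_self _
          _ ≤ |C₁| * ((2 ^ i : ℕ) : ℝ) / (Real.log X / 4) ^ κ₁ := by gcongr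
          _ = _ := by push_cast; rfl
    have hJX : (2:ℝ) ^ J ≤ X := by
      have : 2 ^ J ≤ X := by omega
      exact_mod_cast this
    have hgeo : ∑ i ∈ Ico i₀ (J + 1), (2:ℝ) ^ i ≤ 2 * X := by
      calc ∑ i ∈ Ico i₀ (J + 1), (2:ℝ) ^ i ≤ ∑ i ∈ range (J + 1), (2:ℝ) ^ i := by
            apply Finset.sum_le_sum_of_subset_of_nonneg
            · intro i hi
              rw [Finset.mem_Ico] at hi
              exact Finset.mem_range.2 hi.2
            · intro i _ _; positivity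
        _ = 2 ^ (J + 1) - 1 := by
            rw [geom_sum_eq (by norm_num)]; norm_num
        _ ≤ 2 * X := by rw [pow_succ]; linarith
    have hsum : ∑ i ∈ Ico i₀ (J + 1), |C₁| * 2 ^ i / (Real.log X / 4) ^ κ₁ ≤
        (|C₁| * 2 * 4 ^ κ₁) * X / (Real.log X) ^ κ := by
      have e1 : (Real.log X / 4) ^ κ₁ = (Real.log X) ^ κ₁ / 4 ^ κ₁ :=
        Real.div_rpow hL0.le (by norm_num) _
      have e2 : (Real.log X) ^ κ ≤ (Real.log X) ^ κ₁ :=
        Real.rpow_le_rpow_of_exponent_le hL (by rw [hκdef]; linarith)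
      calc ∑ i ∈ Ico i₀ (J + 1), |C₁| * 2 ^ i / (Real.log X / 4) ^ κ₁ =
          |C₁| * (∑ i ∈ Ico i₀ (J + 1), (2:ℝ) ^ i) / (Real.log X / 4) ^ κ₁ := by
            rw [Finset.mul_sum, Finset.sum_div]
        _ ≤ |C₁| * (2 * X) / (Real.log X / 4) ^ κ₁ := by gcongr
        _ = (|C₁| * 2 * 4 ^ κ₁) * X / (Real.log X) ^ κ₁ := by
            rw [e1]
            have : (4:ℝ) ^ κ₁ ≠ 0 := by positivity
            field_simp
        _ ≤ _ := by gcongr
    have hsmall : (2:ℝ) ^ i₀ ≤ 2 * C₂ * X / (Real.log X) ^ κ := by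
      have h3 : (2:ℝ) ^ i₀ ≤ 2 * Real.sqrt X := by
        have h4 : ((2:ℝ) ^ i₀) ^ 2 ≤ (2 * Real.sqrt X) ^ 2 := by
          rw [mul_pow, Real.sq_sqrt (by linarith), ← pow_mul]
          calc (2:ℝ) ^ (i₀ * 2) ≤ 2 ^ (J + 1) := pow_le_pow_right₀ (by norm_num) (by omega)
            _ = 2 * 2 ^ J := by rw [pow_succ]; ring
            _ ≤ 2 ^ 2 * X := by nlinarith
        exact (pow_le_pow_iff_left₀ (by positivity) (by positivity) two_ne_zero).1 h4
      have h4 := h2 X hX'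
      have h5 : (Real.log X) ^ κ ≤ (Real.log X) ^ B := by
        rw [← Real.rpow_natCast]
        exact Real.rpow_le_rpow_of_exponent_le hL hB
      calc (2:ℝ) ^ i₀ ≤ 2 * Real.sqrt X := h3
        _ ≤ 2 * (C₂ * (X / (Real.log X) ^ B)) := by gcongr
        _ ≤ 2 * (C₂ * (X / (Real.log X) ^ κ)) := by gcongr
        _ = _ := by ring
    calc (Bad.card : ℝ) ≤ 2 * C₂ * X / (Real.log X) ^ κ +
          (|C₁| * 2 * 4 ^ κ₁) * X / (Real.log X) ^ κ := hcard2.trans (add_le_add hsmall hsum)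
      _ = (|C₁| * 2 * 4 ^ κ₁ + 2 * C₂) * X / (Real.log X) ^ κ := by ring
      _ ≤ C * X / (Real.log X) ^ κ := by
          gcongr
          rw [hC]; linarith

/-- the count in a fixed interval -/
theorem zeros_many_of (hmany : ∀ (ε T₁ T₂ : ℝ), 0 < ε → 0 < T₁ → T₁ < T₂ → ∃ κ C : ℝ, 0 < κ ∧
    ∀ X : ℕ, 3 ≤ X →
    ({d : ℕ | 1 ≤ d ∧ d ≤ X ∧ Squarefree d ∧ Few d T₁ T₂ (Real.log X) κ ε}.ncard : ℝ) ≤
      C * X / (Real.log X) ^ κ)
    (ε T₁ T₂ : ℝ) (hε : 0 < ε) (hT' : T₁ < T₂) : ∃ κ C : ℝ, 0 < κ ∧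
    ∀ X : ℕ, 3 ≤ X →
    ({d : ℕ | 1 ≤ d ∧ d ≤ X ∧ Squarefree d ∧ NZ d T₁ T₂ < (Real.log X) ^ (1 - ε)}.ncard : ℝ) ≤
      C * X / (Real.log X) ^ κ := by
  obtain ⟨S₁, S₂, hS0, hS, hNZ⟩ := exists_pos_interval T₁ T₂ hT'
  obtain ⟨κ, C₁, hκ, h1⟩ := hmany (ε / 2) S₁ S₂ (by positivity) hS0 hS
  have hd : 0 < S₂ - S₁ := by linarith
  have ht : ∀ a : ℝ, 0 < a → Tendsto (fun X : ℕ => (Real.log X) ^ a) atTop atTop := fun a ha =>
    (tendsto_rpow_atTop ha).comp (Real.tendsto_log_atTop.comp tendsto_natCast_atTop_atTop)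
  obtain ⟨X₀, hX₀⟩ := eventually_atTop.1
    (((ht (ε / 2) (by positivity)).eventually_ge_atTop (1 / (S₂ - S₁))).and
    ((ht κ hκ).eventually_ge_atTop (1 / (S₂ - S₁))))
  refine ⟨κ, |C₁| + (Real.log X₀) ^ κ, hκ, ?_⟩
  intro X hX
  have hX' : (3:ℝ) ≤ X := by exact_mod_cast hX
  have hL : 1 ≤ Real.log X := by
    have h1 : Real.exp 1 ≤ X := (Real.exp_one_lt_d9.le.trans (by norm_num)).trans hX'
    have := Real.log_le_log (Real.exp_pos 1) h1
    rwa [Real.log_exp] at this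
  have hL0 : 0 < Real.log X := by linarith
  have hLκ : 0 < (Real.log X) ^ κ := Real.rpow_pos_of_pos hL0 _
  have hX₀0 : 0 ≤ (Real.log X₀) ^ κ := Real.rpow_nonneg (Real.log_natCast_nonneg _) _
  have hfin : ∀ p : ℕ → Prop, {d : ℕ | 1 ≤ d ∧ d ≤ X ∧ p d}.Finite := fun p =>
    (Set.finite_Icc 1 X).subset (fun d hd => ⟨hd.1, hd.2.1⟩)
  rcases lt_or_ge X X₀ with hlt | hge
  · have h3 : ({d : ℕ | 1 ≤ d ∧ d ≤ X ∧ Squarefree d ∧
        NZ d T₁ T₂ < (Real.log X) ^ (1 - ε)}.ncard : ℝ) ≤ X := by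
      have h4 : {d : ℕ | 1 ≤ d ∧ d ≤ X ∧ Squarefree d ∧
        NZ d T₁ T₂ < (Real.log X) ^ (1 - ε)}.ncard ≤ (Set.Icc 1 X).ncard :=
        Set.ncard_le_ncard (fun d hd => ⟨hd.1, hd.2.1⟩) (Set.finite_Icc 1 X)
      have h5 : (Set.Icc 1 X).ncard = X := by
        rw [← Finset.coe_Icc, Set.ncard_coe_finset]; simp
      rw [h5] at h4
      exact_mod_cast h4
    have h4 : (Real.log X) ^ κ ≤ (Real.log X₀) ^ κ := by
      apply Real.rpow_le_rpow hL0.le _ hκ.le
      apply Real.log_le_log (by linarith)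
      exact_mod_cast hlt.le
    rw [le_div_iff₀ hLκ]
    calc _ ≤ X * (Real.log X₀) ^ κ := by gcongr
      _ = (Real.log X₀) ^ κ * X := by ring
      _ ≤ _ := by
          apply mul_le_mul_of_nonneg_right _ (by linarith)
          have := abs_nonneg C₁
          linarith
  · obtain ⟨ha, hb⟩ := hX₀ X hge
    have hsub : {d : ℕ | 1 ≤ d ∧ d ≤ X ∧ Squarefree d ∧ NZ d T₁ T₂ < (Real.log X) ^ (1 - ε)} ⊆
        {d : ℕ | 1 ≤ d ∧ d ≤ X ∧ Squarefree d ∧ Few d S₁ S₂ (Real.log X) κ (ε / 2)} := by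
      rintro d ⟨h5, h6, hsq, hlt⟩
      refine ⟨h5, h6, hsq, S₁, S₂, le_rfl, le_rfl, ?_, ?_⟩
      · rw [Real.rpow_neg hL0.le]
        rw [inv_le_comm₀ hLκ hd]
        rw [one_div] at hb
        exact hb
      · refine ((hNZ d hsq).trans_lt hlt).trans_le ?_
        have e1 : (Real.log X) ^ (1 - ε / 2) = (Real.log X) ^ (1 - ε) * (Real.log X) ^ (ε / 2) := by
          rw [← Real.rpow_add hL0]; congr 1; ring
        have e2 : 1 ≤ (S₂ - S₁) * (Real.log X) ^ (ε / 2) := by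
          rw [div_le_iff₀ hd] at ha
          linarith
        have e3 : 0 ≤ (Real.log X) ^ (1 - ε) := Real.rpow_nonneg hL0.le _
        calc (Real.log X) ^ (1 - ε) ≤ ((S₂ - S₁) * (Real.log X) ^ (ε / 2)) * (Real.log X) ^ (1 - ε) :=
              le_mul_of_one_le_left e3 e2
          _ = _ := by rw [e1]; ring
    have h5 := Set.ncard_le_ncard hsub (hfin _)
    have h6 : (({d : ℕ | 1 ≤ d ∧ d ≤ X ∧ Squarefree d ∧
        NZ d T₁ T₂ < (Real.log X) ^ (1 - ε)}.ncard : ℕ) : ℝ) ≤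
        ({d : ℕ | 1 ≤ d ∧ d ≤ X ∧ Squarefree d ∧ Few d S₁ S₂ (Real.log X) κ (ε / 2)}.ncard : ℕ) := by
      exact_mod_cast h5
    refine h6.trans ((h1 X hX).trans ?_)
    gcongr
    have := le_abs_self C₁
    linarith

end Pool.Agent.CZ
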