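import Mathlib
import Pool.Agent.CZ.Defs
import Pool.Agent.CZ.W
import Pool.Agent.CZ.SUMS
import Pool.Agent.CZ.GGP
import Pool.Agent.CZ.CPL
import Pool.Agent.CZ.EDL
import Pool.Agent.CZ.DME
import Pool.Agent.CZ.DTR
import Pool.Agent.CZ.DVA

/-!
# Critical zeros (MP_553913_nt), part E: `GG` is large for almost all centres
-/

set_option autoImplicit false

open Complex Finset MeasureTheory

namespace Pool.Agent.CZ

open Pool.Agent.H5 (c bd)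
open Pool.Agent.ZD (S T Lf nu tau gk eps MM)

namespace ELG

/-! ### continuity in the centre -/

lemma npow_cont (n : ℕ) : Continuous (npow n) := by
  unfold npow
  have h1 : Continuous (fun t : ℝ => -(1 + (t : ℂ) * I)) := by fun_prop
  refine h1.const_cpow (Or.inr (fun t => ?_))
  intro h
  have := congrArg Complex.re h
  simp at this

lemma npow_le (n : ℕ) (t : ℝ) : ‖npow n t‖ ≤ 1 := by
  rcases Nat.eq_zero_or_pos n with rfl | hn
  · unfold npow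
    rw [Nat.cast_zero, Complex.zero_cpow]
    · simp
    · intro h
      have := congrArg Complex.re h
      simp at this
  · rw [npow_norm hn]
    have : (1:ℝ) ≤ n := by exact_mod_cast hn
    exact (div_le_one (by linarith)).2 this

/-- bounded continuous functions -/
def BC (F : ℝ → ℂ) : Prop := Continuous F ∧ ∃ B : ℝ, ∀ t, ‖F t‖ ≤ B

lemma BC.const (w : ℂ) : BC (fun _ => w) := ⟨continuous_const, ‖w‖, fun _ => le_rfl⟩

lemma BC.mul {F G : ℝ → ℂ} (hF : BC F) (hG : BC G) : BC (fun t => F t * G t) := by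
  obtain ⟨h1, B, h2⟩ := hF
  obtain ⟨h3, B', h4⟩ := hG
  refine ⟨h1.mul h3, B * B', fun t => ?_⟩
  rw [norm_mul]
  exact mul_le_mul (h2 t) (h4 t) (norm_nonneg _) ((norm_nonneg _).trans (h2 t))

lemma BC.sum {ι : Type*} (s : Finset ι) {F : ι → ℝ → ℂ} (h : ∀ i ∈ s, BC (F i)) :
    BC (fun t => ∑ i ∈ s, F i t) := by
  classical
  induction s using Finset.induction_on with
  | empty => exact ⟨by simpa using continuous_const, 0, fun t => by simp⟩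
  | insert a s ha ih =>
    obtain ⟨h1, B, h2⟩ := h a (Finset.mem_insert_self a s)
    obtain ⟨h3, B', h4⟩ := ih (fun i hi => h i (Finset.mem_insert_of_mem hi))
    refine ⟨?_, B + B', fun t => ?_⟩
    · simp only [Finset.sum_insert ha]
      exact h1.add h3
    · show ‖∑ i ∈ insert a s, F i t‖ ≤ B + B'
      rw [Finset.sum_insert ha]
      exact (norm_add_le _ _).trans (add_le_add (h2 t) (h4 t))

lemma BC.prod {ι : Type*} (s : Finset ι) {F : ι → ℝ → ℂ} (h : ∀ i ∈ s, BC (F i)) :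
    BC (fun t => ∏ i ∈ s, F i t) := by
  classical
  induction s using Finset.induction_on with
  | empty => exact ⟨by simpa using continuous_const, 1, fun t => by simp⟩
  | insert a s ha ih =>
    have h1 := h a (Finset.mem_insert_self a s)
    have h2 := ih (fun i hi => h i (Finset.mem_insert_of_mem hi))
    have h3 := h1.mul h2
    simpa only [Finset.prod_insert ha] using h3

lemma BC.pow {F : ℝ → ℂ} (hF : BC F) (n : ℕ) : BC (fun t => F t ^ n) := by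
  obtain ⟨h1, B, h2⟩ := hF
  refine ⟨h1.pow n, B ^ n, fun t => ?_⟩
  rw [norm_pow]
  exact pow_le_pow_left₀ (norm_nonneg _) (h2 t) n

lemma BC_npow (n : ℕ) : BC (npow n) := ⟨npow_cont n, 1, npow_le n⟩

lemma BC_ellInv (D : ℤ) (p : ℕ) : BC (ellInv D p) := by
  have h1 := BC_npow p
  refine ⟨?_, 1 + ‖(bd D p : ℂ)‖ * 1 + ‖(((jacobiSym D p : ℤ) : ℂ) ^ 2 * p)‖ * 1 ^ 2, fun t => ?_⟩
  · unfold ellInv
    have := npow_cont p
    fun_prop
  · unfold ellInv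
    refine (norm_add_le _ _).trans (add_le_add ((norm_sub_le _ _).trans (add_le_add (by simp) ?_)) ?_)
    · rw [norm_mul]
      exact mul_le_mul_of_nonneg_left (npow_le p t) (norm_nonneg _)
    · rw [norm_mul, norm_pow]
      exact mul_le_mul_of_nonneg_left (pow_le_pow_left₀ (norm_nonneg _) (npow_le p t) 2)
        (norm_nonneg _)

lemma ellInv_pos {D : ℤ} {p : ℕ} (hp : p.Prime) (h2 : p ≠ 2) (t : ℝ) :
    0 < (1 - 1 / Real.sqrt p) ^ 2 ∧ ellInv D p t ≠ 0 := by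
  have h3 : (3:ℝ) ≤ p := by
    have := hp.two_le
    exact_mod_cast (by omega : 3 ≤ p)
  have h4 : 1 < Real.sqrt p := by
    rw [Real.lt_sqrt (by norm_num)]
    linarith
  have h5 : 0 < 1 - 1 / Real.sqrt p := by
    have : 1 / Real.sqrt p < 1 := by
      rw [div_lt_one (by linarith)]; exact h4
    linarith
  have h6 : 0 < (1 - 1 / Real.sqrt p) ^ 2 := by positivity
  refine ⟨h6, fun h0 => ?_⟩
  have := ellInv_norm_ge (D := D) hp h2 t
  rw [h0, norm_zero] at this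
  linarith

lemma BC_LP (a b : ℕ) (D : ℤ) : BC (LP a b D) := by
  have h : BC (fun t => ∏ p ∈ primesIoc a b, (ellInv D p t)⁻¹) := by
    apply BC.prod
    intro p hp
    simp only [primesIoc, Finset.mem_filter] at hp
    obtain ⟨-, hp1, hp2⟩ := hp
    refine ⟨(BC_ellInv D p).1.inv₀ (fun t => (ellInv_pos hp1 hp2 t).2),
      ((1 - 1 / Real.sqrt p) ^ 2)⁻¹, fun t => ?_⟩
    rw [norm_inv]
    exact inv_anti₀ (ellInv_pos (D := D) hp1 hp2 t).1 (ellInv_norm_ge hp1 hp2 t)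
  exact h

lemma LP_ne (a b : ℕ) (D : ℤ) (t : ℝ) : LP a b D t ≠ 0 := by
  unfold LP
  rw [Finset.prod_ne_zero_iff]
  intro p hp
  simp only [primesIoc, Finset.mem_filter] at hp
  exact inv_ne_zero (ellInv_pos hp.2.1 hp.2.2 t).2

lemma theta_cont (a b : ℕ) (D : ℤ) : Continuous (theta a b D) := by
  unfold theta PSum
  refine Complex.continuous_im.comp (continuous_finsetSum _ (fun p _ => ?_))
  have := npow_cont p
  fun_prop

lemma BC_theta (a b : ℕ) (D : ℤ) : BC (fun t => (theta a b D t : ℂ)) := by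
  have h1 : BC (fun t => PSum a b D t) := by
    unfold PSum
    exact BC.sum _ (fun p _ => (BC.const _).mul (BC_npow p))
  obtain ⟨-, B, hB⟩ := h1
  refine ⟨continuous_ofReal.comp (theta_cont a b D), B, fun t => ?_⟩
  rw [Complex.norm_real]
  exact (Complex.abs_im_le_norm _).trans (hB t)

lemma BC_exp_theta (a b : ℕ) (D : ℤ) : BC (fun t => exp (-(I * theta a b D t))) := by
  refine ⟨?_, 1, fun t => ?_⟩
  · have := theta_cont a b D
    fun_prop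
  · rw [Complex.norm_exp]
    simp

lemma BC_Mo' (a b m : ℕ) (D : ℤ) : BC (fun t => Mo' a b m D t) := by
  unfold Mo'
  exact BC.sum _ (fun n _ => (BC.const _).mul (BC_npow n))

lemma BC_gT (a b m : ℕ) (D : ℤ) : BC (fun t => gT a b m D t) := by
  unfold gT
  refine BC.sum _ (fun j _ => ?_)
  have h1 := (((BC.const (-I)).mul (BC_theta a b D)).pow j).mul (BC.const ((j.factorial : ℂ))⁻¹)
  have h2 : (fun t => (-(I * theta a b D t)) ^ j / (j.factorial : ℂ)) =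
      fun t => (-I * (theta a b D t : ℂ)) ^ j * ((j.factorial : ℂ))⁻¹ := by
    funext t
    rw [neg_mul, div_eq_mul_inv]
  rw [h2]
  exact h1

lemma Mo_cont (y m : ℕ) (D : ℤ) : Continuous (fun t₀ => Mo y m D t₀) := by
  unfold Mo
  exact (continuous_finsetProd _ (fun p _ => (BC_ellInv D p).1)).mul (BC_Mo' z0 y m D).1

/-- smoothing of a bounded continuous function is continuous in the centre -/
lemma conv_cont {F : ℝ → ℂ} (hF : BC F) {K : ℕ} (hK : 1 ≤ K) {h : ℝ} (hh : 0 < h) :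
    Continuous (fun t₀ : ℝ => ∫ t : ℝ, F t * (wK K ((t - t₀) / h) : ℂ)) := by
  obtain ⟨h1, B, hB⟩ := hF
  have h2 : ∀ t₀ : ℝ, ∫ t : ℝ, F t * (wK K ((t - t₀) / h) : ℂ) =
      h * ∫ s : ℝ, F (h * s + t₀) * (wK K s : ℂ) := by
    intro t₀
    have e1 : (fun t : ℝ => F t * (wK K ((t - t₀) / h) : ℂ)) =
        fun t => (fun r => (fun s => F (h * s + t₀) * (wK K s : ℂ)) (r / h)) (t - t₀) := by
      funext t
      simp only
      congr 2
      field_simp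
      ring
    rw [e1, integral_sub_right_eq_self (fun r => (fun s => F (h * s + t₀) * (wK K s : ℂ)) (r / h)) t₀,
      Measure.integral_comp_div (fun s => F (h * s + t₀) * (wK K s : ℂ)) h, abs_of_pos hh,
      Complex.real_smul]
  simp only [h2]
  refine continuous_const.mul ?_
  refine continuous_of_dominated (bound := fun s => B * wK K s) (fun t₀ => ?_)
    (fun t₀ => Filter.Eventually.of_forall fun s => ?_) ((wK_integrable hK).const_mul B)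
    (Filter.Eventually.of_forall fun s => ?_)
  · apply Continuous.aestronglyMeasurable
    have h3 := wK_continuous K
    have h4 : Continuous (fun s : ℝ => F (h * s + t₀)) := h1.comp (by fun_prop)
    exact h4.mul (continuous_ofReal.comp h3)
  · rw [norm_mul, Complex.norm_real, Real.norm_eq_abs, abs_of_nonneg (wK_nonneg K s)]
    exact mul_le_mul_of_nonneg_right (hB _) (wK_nonneg K s)
  · have h4 : Continuous (fun t₀ : ℝ => F (h * s + t₀)) := h1.comp (by fun_prop)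
    exact h4.mul continuous_const

lemma GG_cont (K N z₁ z y m : ℕ) (hK : 1 ≤ K) {h : ℝ} (hh : 0 < h) (D : ℤ) :
    Continuous (fun t₀ => GG K N z₁ z y m h D t₀) := by
  have hF : BC (fun t => (∑ n ∈ Icc 1 N, (bd D n : ℂ) * npow n t) * (Mo' z₁ z m D t * gT z y m D t)) :=
    (BC.sum _ (fun n _ => (BC.const _).mul (BC_npow n))).mul ((BC_Mo' z₁ z m D).mul (BC_gT z y m D))
  have h1 := conv_cont hF hK hh
  have h2 : (fun t₀ => GG K N z₁ z y m h D t₀) = fun t₀ => Mo z₁ m D t₀ *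
      (∫ t : ℝ, ((∑ n ∈ Icc 1 N, (bd D n : ℂ) * npow n t) * (Mo' z₁ z m D t * gT z y m D t)) *
        (wK K ((t - t₀) / h) : ℂ)) / h := by
    funext t₀
    unfold GG
    rw [← integral_const_mul]
    congr 1
    refine integral_congr_ae (Filter.Eventually.of_forall fun t => ?_)
    simp only [TT]
    ring
  rw [h2]
  exact ((Mo_cont z₁ m D).mul h1).div_const _

lemma GGex_cont (K z₁ z y P : ℕ) (hK : 1 ≤ K) {h : ℝ} (hh : 0 < h) (D : ℤ) :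
    Continuous (fun t₀ => GGex K z₁ z y P h D t₀) := by
  have hF : BC (fun t => LP 0 z₁ D t * (LP z y D t * exp (-(I * theta z y D t)) * LP y P D t)) :=
    (BC_LP 0 z₁ D).mul (((BC_LP z y D).mul (BC_exp_theta z y D)).mul (BC_LP y P D))
  have h1 := conv_cont hF hK hh
  have h2 : (fun t₀ => GGex K z₁ z y P h D t₀) = fun t₀ => (LP 0 z₁ D t₀)⁻¹ *
      (∫ t : ℝ, (LP 0 z₁ D t * (LP z y D t * exp (-(I * theta z y D t)) * LP y P D t)) *
        (wK K ((t - t₀) / h) : ℂ)) / h := by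
    funext t₀
    unfold GGex
    rw [← integral_const_mul]
    congr 1
    refine integral_congr_ae (Filter.Eventually.of_forall fun t => ?_)
    simp only [EX]
    ring
  rw [h2]
  exact (((BC_LP 0 z₁ D).1.inv₀ (LP_ne 0 z₁ D)).mul h1).div_const _

lemma mean_cont (z₁ z y P : ℕ) :
    Continuous (fun t₀ => RA P (fun D' => EX z₁ z y P D' t₀ t₀)) := by
  unfold RA
  refine (continuous_finsetSum _ (fun D _ => ?_)).div_const _
  unfold EX
  exact ((((BC_LP 0 z₁ D).1.mul ((BC_LP 0 z₁ D).1.inv₀ (LP_ne 0 z₁ D))).mul (BC_LP z y D).1).mul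
    (BC_exp_theta z y D).1).mul (BC_LP y P D).1

/-! ### elementary estimates -/

lemma LL_le (k s : ℝ) (hs : 0 < s) : ∃ C : ℝ, 0 < C ∧ ∀ L : ℝ, 1 ≤ L →
    (Real.log (L + 3)) ^ k ≤ C * L ^ s := by
  set k' : ℝ := |k| + 1 with hk'
  have hk0 : 0 < k' := by positivity
  have hkk : k ≤ k' := (le_abs_self k).trans (by linarith)
  set e : ℝ := s / k' with he
  have he0 : 0 < e := by positivity
  refine ⟨(4 ^ e / e) ^ k', by positivity, fun L hL => ?_⟩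
  have hLL : 1 ≤ Real.log (L + 3) := by
    rw [Real.le_log_iff_exp_le (by linarith)]
    have := Real.exp_one_lt_d9
    linarith
  have h1 : Real.log (L + 3) ≤ 4 ^ e / e * L ^ e := by
    have h2 := Real.log_le_rpow_div (x := L + 3) (by linarith) he0
    have h3 : (L + 3) ^ e ≤ (4 * L) ^ e := Real.rpow_le_rpow (by linarith) (by linarith) he0.le
    rw [Real.mul_rpow (by norm_num) (by linarith)] at h3
    calc _ ≤ _ := h2
      _ ≤ 4 ^ e * L ^ e / e := by gcongr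
      _ = _ := by ring
  calc (Real.log (L + 3)) ^ k ≤ (Real.log (L + 3)) ^ k' := Real.rpow_le_rpow_of_exponent_le hLL hkk
    _ ≤ (4 ^ e / e * L ^ e) ^ k' := Real.rpow_le_rpow (by linarith) h1 hk0.le
    _ = (4 ^ e / e) ^ k' * L ^ s := by
        rw [Real.mul_rpow (by positivity) (by positivity), ← Real.rpow_mul (by linarith)]
        congr 2
        rw [he]; field_simp

/-- all the conditions on `L = log X` -/
lemma params {b δ : ℝ} (hb : 1 / 2 < b) (hb1 : b < 1) (hδ : 0 < δ) (h4 : 4 * δ < 1 - b)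
    (h2 : 2 * δ < b) (G V : ℝ) :
    ∃ L₀ : ℝ, 2 ≤ L₀ ∧ ∀ L : ℝ, L₀ ≤ L → Real.log z0 + 2 ≤ L ^ (b - 2 * δ) ∧
      L ^ (b + δ) + 1 ≤ L ^ (1 - δ) ∧ V + L ^ b + 8 * L ^ (1 - δ / 2) ≤ L / 4 ∧ G ≤ L ^ (δ / 2) ∧
      G ≤ L ∧ 2 ≤ L ^ (b + δ) := by
  have hev : ∀ᶠ L : ℝ in Filter.atTop, (Real.log z0 + 2 ≤ L ^ (b - 2 * δ)) ∧
      (2 ≤ L ^ (1 - b - 2 * δ)) ∧ (16 ≤ L ^ (1 - b)) ∧ (max G 128 ≤ L ^ (δ / 2)) ∧
      (max (max G 2) (16 * V) ≤ L) := by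
    refine (((tendsto_rpow_atTop (by linarith)).eventually_ge_atTop _).and
      (((tendsto_rpow_atTop (by linarith)).eventually_ge_atTop _).and
      (((tendsto_rpow_atTop (by linarith)).eventually_ge_atTop _).and
      (((tendsto_rpow_atTop (by linarith)).eventually_ge_atTop _).and
      (Filter.eventually_ge_atTop _)))))
  obtain ⟨L₁, hL₁⟩ := Filter.eventually_atTop.1 hev
  refine ⟨max 2 L₁, le_max_left _ _, fun L hL => ?_⟩
  have hL2 : 2 ≤ L := (le_max_left _ _).trans hL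
  have hL0 : 0 < L := by linarith
  have hL1 : 1 ≤ L := by linarith
  obtain ⟨e1, e2, e3, e4, e5⟩ := hL₁ L ((le_max_right _ _).trans hL)
  have hbd : (1:ℝ) ≤ L ^ (b + δ) := Real.one_le_rpow hL1 (by linarith)
  have hsq : 2 ≤ L ^ (b + δ) := by
    have h5 : (4:ℝ) ≤ L := by
      have h6 : (16:ℝ) ≤ L := by
        calc (16:ℝ) ≤ L ^ (1 - b) := e3
          _ ≤ L ^ (1:ℝ) := Real.rpow_le_rpow_of_exponent_le hL1 (by linarith)
          _ = L := Real.rpow_one L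
      linarith
    calc (2:ℝ) = (4:ℝ) ^ (1 / 2 : ℝ) := by
          rw [show (4:ℝ) = 2 ^ (2:ℝ) by norm_num, ← Real.rpow_mul (by norm_num)]; norm_num
      _ ≤ L ^ (1 / 2 : ℝ) := Real.rpow_le_rpow (by norm_num) h5 (by norm_num)
      _ ≤ _ := Real.rpow_le_rpow_of_exponent_le hL1 (by linarith)
  refine ⟨e1, ?_, ?_, (le_max_left _ _).trans e4, ((le_max_left _ _).trans (le_max_left _ _)).trans e5,
    hsq⟩
  · have : L ^ (1 - δ) = L ^ (1 - b - 2 * δ) * L ^ (b + δ) := by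
      rw [← Real.rpow_add hL0]; congr 1; ring
    rw [this]
    nlinarith
  · have f1 : L ^ b * 16 ≤ L := by
      calc L ^ b * 16 ≤ L ^ b * L ^ (1 - b) := by gcongr
        _ = L := by rw [← Real.rpow_add hL0]; simp
    have f2 : L ^ (1 - δ / 2) * 128 ≤ L := by
      calc L ^ (1 - δ / 2) * 128 ≤ L ^ (1 - δ / 2) * L ^ (δ / 2) := by
            have : (128:ℝ) ≤ L ^ (δ / 2) := (le_max_right _ _).trans e4
            gcongr
        _ = L := by rw [← Real.rpow_add hL0]; simp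
    have f3 : 16 * V ≤ L := (le_max_right _ _).trans e5
    linarith

lemma triv_meas {T₁ T₂ : ℝ} (hT : T₁ ≤ T₂) (p : ℝ → Prop) :
    (volume {t : ℝ | t ∈ Set.Icc T₁ T₂ ∧ p t}).toReal ≤ T₂ - T₁ := by
  have h1 : volume {t : ℝ | t ∈ Set.Icc T₁ T₂ ∧ p t} ≤ volume (Set.Icc T₁ T₂) :=
    measure_mono (fun t ht => ht.1)
  rw [Real.volume_Icc] at h1
  exact (ENNReal.toReal_mono ENNReal.ofReal_ne_top h1).trans
    (by rw [ENNReal.toReal_ofReal (by linarith)])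

lemma mono_meas {T₁ T₂ : ℝ} {p q : ℝ → Prop} (h : ∀ t ∈ Set.Icc T₁ T₂, p t → q t) :
    (volume {t : ℝ | t ∈ Set.Icc T₁ T₂ ∧ p t}).toReal ≤
      (volume {t : ℝ | t ∈ Set.Icc T₁ T₂ ∧ q t}).toReal := by
  refine ENNReal.toReal_mono ?_ (measure_mono (fun t ht => ⟨ht.1, h t ht.1 ht.2⟩))
  refine (lt_of_le_of_lt (measure_mono (?_ : _ ⊆ Set.Icc T₁ T₂)) ?_).ne
  · intro t ht; exact ht.1
  · rw [Real.volume_Icc]; exact ENNReal.ofReal_lt_top

lemma card_le (X : ℕ) : (((Ioc X (2 * X)).filter Squarefree).card : ℝ) ≤ X := by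
  have : ((Ioc X (2 * X)).filter Squarefree).card ≤ X := by
    refine (Finset.card_filter_le _ _).trans ?_
    rw [Nat.card_Ioc]; omega
  exact_mod_cast this

lemma RR_two {P : ℕ} {f g k : ℤ → ℝ} (h : ∀ D, f D ≤ 2 * g D + 2 * k D) :
    RR P f ≤ 2 * RR P g + 2 * RR P k := by
  unfold RR
  have h1 : ∑ D ∈ range (MP P), f D ≤ ∑ D ∈ range (MP P), (2 * g D + 2 * k D) :=
    Finset.sum_le_sum (fun D _ => h D)
  rw [Finset.sum_add_distrib, ← Finset.mul_sum, ← Finset.mul_sum] at h1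
  calc (∑ D ∈ range (MP P), f D) / (MP P : ℝ) ≤ (2 * ∑ D ∈ range (MP P), g D +
        2 * ∑ D ∈ range (MP P), k D) / (MP P : ℝ) := by gcongr
    _ = _ := by ring

lemma RR_cont {P : ℕ} {f : ℤ → ℝ → ℝ} (h : ∀ D, Continuous (f D)) :
    Continuous (fun t => RR P (fun D => f D t)) := by
  unfold RR
  have h1 : Continuous (fun t => ∑ D ∈ range (MP P), f (D : ℤ) t) :=
    continuous_finsetSum _ (fun (D : ℕ) _ => h (D : ℤ))
  exact h1.div_const _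

lemma sq_le {u v w : ℂ} : ‖u - w‖ ^ 2 ≤ 2 * ‖u - v‖ ^ 2 + 2 * ‖v - w‖ ^ 2 := by
  have h1 : ‖u - w‖ ≤ ‖u - v‖ + ‖v - w‖ := by
    calc ‖u - w‖ = ‖(u - v) + (v - w)‖ := by congr 1; ring
      _ ≤ _ := norm_add_le _ _
  calc ‖u - w‖ ^ 2 ≤ (‖u - v‖ + ‖v - w‖) ^ 2 := by gcongr
    _ ≤ _ := by nlinarith [sq_nonneg (‖u - v‖ - ‖v - w‖)]

lemma exp_small {X : ℝ} (hX : 1 ≤ X) : Real.exp (-X) * X ^ 2 ≤ 6 / X := by
  have h1 := Real.pow_div_factorial_le_exp X (by linarith) 3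
  norm_num at h1
  rw [Real.exp_neg, ← div_eq_inv_mul, div_le_div_iff₀ (Real.exp_pos _) (by linarith)]
  nlinarith

/-- sizes of the parameters -/
lemma sizes {b δ L : ℝ} {m z₁ z y N Cg : ℕ} (hb : 1 / 2 < b) (hδ : 0 < δ)
    (h4 : 4 * δ < 1 - b) (h2δ : 2 * δ < b) (hL2 : 2 ≤ L)
    (hm : (m : ℝ) ≤ L ^ (δ / 2))
    (hz₁ : z₁ = ⌊Real.exp (L ^ (b - 2 * δ))⌋₊) (hz : z = ⌈Real.exp (L ^ (b + δ))⌉₊)
    (hy : y = ⌊Real.exp (L ^ (1 - δ))⌋₊) (hN : N = ⌈Real.exp (L ^ b) * (y : ℝ) ^ (4 * m)⌉₊)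
    (p1 : Real.log z0 + 2 ≤ L ^ (b - 2 * δ)) (p2 : L ^ (b + δ) + 1 ≤ L ^ (1 - δ))
    (p3 : Real.log (2 * Cg + 1) + L ^ b + 8 * L ^ (1 - δ / 2) ≤ L / 4)
    (p6 : 2 ≤ L ^ (b + δ)) :
    z0 ≤ z₁ ∧ z₁ ≤ z ∧ z ≤ y ∧ Real.log z₁ ≤ L ^ (b - 2 * δ) ∧ L ^ (b + δ) ≤ Real.log z ∧
      Real.log z ≤ 2 * L ^ (b + δ) ∧ Real.log y ≤ L ^ (1 - δ) ∧ L ^ (1 - δ) / 2 ≤ Real.log y ∧
      1 ≤ N ∧ Real.exp (L ^ b) * (y : ℝ) ^ (4 * m) ≤ N ∧
      ((Cg * N * y ^ (4 * m) : ℕ) : ℝ) ≤ Real.exp (L / 4) := by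
  have hL0 : 0 < L := by linarith
  have hL1 : 1 ≤ L := by linarith
  have hz0 : (0:ℝ) < z0 := by norm_num [z0]
  have hz0' : 0 ≤ Real.log z0 := Real.log_nonneg (by norm_num [z0])
  have h1 : z0 ≤ z₁ := by
    rw [hz₁]
    apply Nat.le_floor
    rw [← Real.log_le_iff_le_exp hz0]
    linarith
  have hz₁0 : (0:ℝ) < z₁ := lt_of_lt_of_le hz0 (by exact_mod_cast h1)
  have hz₁e : (z₁ : ℝ) ≤ Real.exp (L ^ (b - 2 * δ)) := by
    rw [hz₁]; exact Nat.floor_le (by positivity)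
  have hze : Real.exp (L ^ (b + δ)) ≤ z := by rw [hz]; exact Nat.le_ceil _
  have hze2 : (z : ℝ) < Real.exp (L ^ (b + δ)) + 1 := by
    rw [hz]; exact Nat.ceil_lt_add_one (by positivity)
  have hz00 : (0:ℝ) < z := lt_of_lt_of_le (by positivity) hze
  have h2 : z₁ ≤ z := by
    have : (z₁ : ℝ) ≤ z := by
      refine hz₁e.trans (le_trans ?_ hze)
      exact Real.exp_le_exp.2 (Real.rpow_le_rpow_of_exponent_le hL1 (by linarith))
    exact_mod_cast this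
  have hE1 : 1 ≤ Real.exp (L ^ (b + δ)) := Real.one_le_exp (by positivity)
  have hE4 : Real.exp (L ^ (b + δ)) + 1 ≤ Real.exp (L ^ (1 - δ)) := by
    have e1 : Real.exp (L ^ (b + δ)) * Real.exp 1 ≤ Real.exp (L ^ (1 - δ)) := by
      rw [← Real.exp_add]; exact Real.exp_le_exp.2 p2
    have e2 := Real.exp_one_gt_d9
    nlinarith
  have h3 : z ≤ y := by
    rw [hy]
    apply Nat.le_floor
    linarith
  have hy0 : (0:ℝ) < y := lt_of_lt_of_le hz00 (by exact_mod_cast h3)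
  have hye : (y : ℝ) ≤ Real.exp (L ^ (1 - δ)) := by rw [hy]; exact Nat.floor_le (by positivity)
  have hye2 : Real.exp (L ^ (1 - δ)) / 2 ≤ y := by
    have := Nat.lt_floor_add_one (Real.exp (L ^ (1 - δ)))
    rw [← hy] at this
    linarith
  have hlogy : Real.log y ≤ L ^ (1 - δ) := by
    rw [Real.log_le_iff_le_exp hy0]; exact hye
  have hlogy2 : L ^ (1 - δ) / 2 ≤ Real.log y := by
    have e1 := Real.log_le_log (by positivity) hye2
    rw [Real.log_div (by positivity) (by norm_num), Real.log_exp] at e1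
    have := Real.log_two_lt_d9
    linarith
  have hlogz : Real.log z ≤ 2 * L ^ (b + δ) := by
    have e1 : Real.log z ≤ Real.log (Real.exp (L ^ (b + δ)) * 2) :=
      Real.log_le_log hz00 (by linarith)
    rw [Real.log_mul (by positivity) (by norm_num), Real.log_exp] at e1
    have := Real.log_two_lt_d9
    linarith
  have hy1 : (1:ℝ) ≤ y := by
    have : (1:ℝ) ≤ z0 := by norm_num [z0]
    have h5 : (z0 : ℝ) ≤ y := by exact_mod_cast (h1.trans (h2.trans h3))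
    linarith
  have hNle : Real.exp (L ^ b) * (y : ℝ) ^ (4 * m) ≤ N := by rw [hN]; exact Nat.le_ceil _
  have hpow1 : (1:ℝ) ≤ (y : ℝ) ^ (4 * m) := one_le_pow₀ hy1
  have hNle2 : (N : ℝ) ≤ 2 * Real.exp (L ^ b) * (y : ℝ) ^ (4 * m) := by
    have e1 := (Nat.ceil_lt_add_one (show 0 ≤ Real.exp (L ^ b) * (y : ℝ) ^ (4 * m) by positivity)).le
    rw [← hN] at e1
    have e2 : 1 ≤ Real.exp (L ^ b) := Real.one_le_exp (by positivity)
    have e3 : 1 ≤ Real.exp (L ^ b) * (y : ℝ) ^ (4 * m) := by nlinarith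
    linarith
  have hN1 : 1 ≤ N := by
    have : (0:ℝ) < N := lt_of_lt_of_le (by positivity) hNle
    exact_mod_cast this
  have hym : (y : ℝ) ^ (4 * m) ≤ Real.exp (4 * L ^ (1 - δ / 2)) := by
    rw [← Real.exp_log hy0, ← Real.exp_nat_mul]
    apply Real.exp_le_exp.2
    push_cast
    calc 4 * (m : ℝ) * Real.log y ≤ 4 * L ^ (δ / 2) * L ^ (1 - δ) := by
          have : 0 ≤ Real.log y := Real.log_nonneg hy1
          gcongr
      _ = 4 * L ^ (1 - δ / 2) := by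
          rw [mul_assoc, ← Real.rpow_add hL0]; congr 2; ring
  refine ⟨h1, h2, h3, ?_, ?_, hlogz, hlogy, hlogy2, hN1, hNle, ?_⟩
  · rw [Real.log_le_iff_le_exp hz₁0]; exact hz₁e
  · rw [Real.le_log_iff_exp_le hz00]; exact hze
  · push_cast
    have hCg : (Cg : ℝ) * 2 ≤ Real.exp (Real.log (2 * Cg + 1)) := by
      rw [Real.exp_log (by positivity)]; linarith
    calc (Cg : ℝ) * N * (y : ℝ) ^ (4 * m)
        ≤ Cg * (2 * Real.exp (L ^ b) * (y : ℝ) ^ (4 * m)) * (y : ℝ) ^ (4 * m) := by gcongr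
      _ = (Cg * 2) * Real.exp (L ^ b) * ((y : ℝ) ^ (4 * m) * (y : ℝ) ^ (4 * m)) := by ring
      _ ≤ Real.exp (Real.log (2 * Cg + 1)) * Real.exp (L ^ b) *
          (Real.exp (4 * L ^ (1 - δ / 2)) * Real.exp (4 * L ^ (1 - δ / 2))) := by gcongr
      _ = Real.exp (Real.log (2 * Cg + 1) + L ^ b + 8 * L ^ (1 - δ / 2)) := by
          rw [← Real.exp_add, ← Real.exp_add, ← Real.exp_add]; congr 1; ring
      _ ≤ _ := Real.exp_le_exp.2 p3

/-- the mean beats the target -/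
lemma mu_lower {b δ L ly lz μ₀ : ℝ} (hL1 : 1 ≤ L) (hz0 : 0 < lz) (hz : lz ≤ 2 * L ^ (b + δ))
    (hy : L ^ (1 - δ) / 2 ≤ ly) (hμ₀ : 0 < μ₀) (hμ : 2 / μ₀ ≤ L ^ (δ / 2)) :
    L ^ ((1 - b) / 4 - δ) ≤ μ₀ * (ly / lz) ^ (1 / 4 : ℝ) := by
  have hL0 : 0 < L := by linarith
  have hρL : L ^ (1 - b - 2 * δ) / 4 ≤ ly / lz := by
    rw [div_le_div_iff₀ (by norm_num) hz0]
    calc L ^ (1 - b - 2 * δ) * lz ≤ L ^ (1 - b - 2 * δ) * (2 * L ^ (b + δ)) := by gcongr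
      _ = 2 * L ^ (1 - δ) := by
          have e1 : L ^ (1 - δ) = L ^ (1 - b - 2 * δ) * L ^ (b + δ) := by
            rw [← Real.rpow_add hL0]; congr 1; ring
          rw [e1]; ring
      _ ≤ ly * 4 := by linarith
  have e1 : L ^ ((1 - b) / 4 - δ / 2) / 2 ≤ (ly / lz) ^ (1 / 4 : ℝ) := by
    have e2 : (L ^ (1 - b - 2 * δ) / 4) ^ (1 / 4 : ℝ) ≤ (ly / lz) ^ (1 / 4 : ℝ) :=
      Real.rpow_le_rpow (by positivity) hρL (by norm_num)
    rw [Real.div_rpow (by positivity) (by norm_num), ← Real.rpow_mul hL0.le] at e2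
    have e3 : (1 - b - 2 * δ) * (1 / 4) = (1 - b) / 4 - δ / 2 := by ring
    rw [e3] at e2
    have e4 : (4:ℝ) ^ (1 / 4 : ℝ) ≤ 2 := by
      calc (4:ℝ) ^ (1 / 4 : ℝ) ≤ (4:ℝ) ^ (1 / 2 : ℝ) :=
            Real.rpow_le_rpow_of_exponent_le (by norm_num) (by norm_num)
        _ = Real.sqrt 4 := (Real.sqrt_eq_rpow 4).symm
        _ = 2 := by
            rw [show (4:ℝ) = 2 ^ 2 by norm_num]
            exact Real.sqrt_sq (by norm_num)
    refine le_trans ?_ e2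
    gcongr
  have e6 : 1 ≤ μ₀ / 2 * L ^ (δ / 2) := by
    rw [div_le_iff₀ (by positivity)] at hμ
    linarith
  calc L ^ ((1 - b) / 4 - δ) = 1 * L ^ ((1 - b) / 4 - δ) := (one_mul _).symm
    _ ≤ μ₀ / 2 * L ^ (δ / 2) * L ^ ((1 - b) / 4 - δ) := by gcongr
    _ = μ₀ * (L ^ ((1 - b) / 4 - δ / 2) / 2) := by
        have : L ^ ((1 - b) / 4 - δ / 2) = L ^ (δ / 2) * L ^ ((1 - b) / 4 - δ) := by
          rw [← Real.rpow_add hL0]; congr 1; ring
        rw [this]; ring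
    _ ≤ _ := by gcongr

/-- the variance in terms of `L` -/
lemma var_final {δ L κv Cv c4 lP ρ V : ℝ} (hL1 : 1 ≤ L) (hlP0 : 0 ≤ lP) (hlP : lP ≤ L) (hρ : 0 ≤ ρ)
    (h4 : (Real.log (L + 3)) ^ |Cv| ≤ c4 * L ^ (δ * κv / 2))
    (hV : V ≤ Cv * (L ^ (-δ)) ^ κv * (Real.log (lP + 3)) ^ Cv * ρ ^ (1 / 2 : ℝ)) :
    V ≤ |Cv| * c4 * L ^ (-(δ * κv / 2)) * ρ ^ (1 / 2 : ℝ) := by
  have hL0 : 0 < L := by linarith
  refine hV.trans ?_
  have e7 : (L ^ (-δ)) ^ κv = L ^ (-(δ * κv)) := by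
    rw [← Real.rpow_mul hL0.le]; congr 1; ring
  have f1 : 1 ≤ Real.log (lP + 3) := by
    rw [Real.le_log_iff_exp_le (by linarith)]
    have := Real.exp_one_lt_d9
    linarith
  have e8 : (Real.log (lP + 3)) ^ Cv ≤ c4 * L ^ (δ * κv / 2) := by
    have f2 : Real.log (lP + 3) ≤ Real.log (L + 3) :=
      Real.log_le_log (by linarith) (by linarith)
    calc (Real.log (lP + 3)) ^ Cv ≤ (Real.log (lP + 3)) ^ |Cv| :=
          Real.rpow_le_rpow_of_exponent_le f1 (le_abs_self _)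
      _ ≤ (Real.log (L + 3)) ^ |Cv| := Real.rpow_le_rpow (by linarith) f2 (abs_nonneg _)
      _ ≤ _ := h4
  have e9 : (0:ℝ) ≤ (Real.log (lP + 3)) ^ Cv := by positivity
  rw [e7]
  calc Cv * L ^ (-(δ * κv)) * (Real.log (lP + 3)) ^ Cv * ρ ^ (1 / 2 : ℝ)
      ≤ |Cv| * L ^ (-(δ * κv)) * (c4 * L ^ (δ * κv / 2)) * ρ ^ (1 / 2 : ℝ) := by
        have := le_abs_self Cv
        gcongr
    _ = |Cv| * c4 * (L ^ (-(δ * κv)) * L ^ (δ * κv / 2)) * ρ ^ (1 / 2 : ℝ) := by ring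
    _ = _ := by
        rw [← Real.rpow_add hL0]; congr 3; ring

/-- final algebra -/
lemma final_alg {X L κ μ₀ ρ Tt E1 E2 S s : ℝ} (hX : 0 ≤ X) (hL1 : 1 ≤ L) (hκ : κ ≤ 1)
    (hμ₀ : 0 < μ₀) (hρ : 1 ≤ ρ) (hTt : 0 ≤ Tt) (hE1 : 0 ≤ E1) (hE2 : 0 ≤ E2) (hs : κ ≤ s)
    (hS : S ≤ 30 * X * (Tt * (E1 / L) + 4 * (E2 * L ^ (-s) * ρ ^ (1 / 2 : ℝ)))) :
    S / (μ₀ * ρ ^ (1 / 4 : ℝ)) ^ 2 ≤ 30 * (Tt * E1 + 4 * E2) / μ₀ ^ 2 * X / L ^ κ := by
  have hL0 : 0 < L := by linarith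
  have hρ0 : 0 < ρ := by linarith
  have hLκ : 0 < L ^ κ := by positivity
  have hμsq : (μ₀ * ρ ^ (1 / 4 : ℝ)) ^ 2 = μ₀ ^ 2 * ρ ^ (1 / 2 : ℝ) := by
    rw [mul_pow, ← Real.rpow_natCast (ρ ^ (1 / 4 : ℝ)), ← Real.rpow_mul hρ0.le]
    norm_num
  have hρh : 1 ≤ ρ ^ (1 / 2 : ℝ) := Real.one_le_rpow hρ (by norm_num)
  have hLinv : 1 / L ≤ 1 / L ^ κ := by
    apply one_div_le_one_div_of_le hLκ
    calc L ^ κ ≤ L ^ (1:ℝ) := Real.rpow_le_rpow_of_exponent_le hL1 hκ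
      _ = L := Real.rpow_one L
  have hLinv2 : L ^ (-s) ≤ 1 / L ^ κ := by
    rw [one_div, ← Real.rpow_neg hL0.le]
    exact Real.rpow_le_rpow_of_exponent_le hL1 (by linarith)
  rw [hμsq]
  calc S / (μ₀ ^ 2 * ρ ^ (1 / 2 : ℝ))
      ≤ (30 * X * (Tt * (E1 / L) + 4 * (E2 * L ^ (-s) * ρ ^ (1 / 2 : ℝ)))) /
        (μ₀ ^ 2 * ρ ^ (1 / 2 : ℝ)) := by
        apply div_le_div_of_nonneg_right hS (by positivity)
    _ ≤ (30 * X * (Tt * (E1 * (1 / L ^ κ)) * ρ ^ (1 / 2 : ℝ) +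
        4 * (E2 * (1 / L ^ κ) * ρ ^ (1 / 2 : ℝ)))) / (μ₀ ^ 2 * ρ ^ (1 / 2 : ℝ)) := by
        have e1 : Tt * (E1 / L) ≤ Tt * (E1 * (1 / L ^ κ)) * ρ ^ (1 / 2 : ℝ) := by
          have e2 : Tt * (E1 / L) ≤ Tt * (E1 * (1 / L ^ κ)) := by
            rw [div_eq_mul_one_div E1 L]
            gcongr
          have e3 : 0 ≤ Tt * (E1 * (1 / L ^ κ)) := by positivity
          nlinarith
        gcongr
    _ = _ := by
        have : ρ ^ (1 / 2 : ℝ) ≠ 0 := by positivity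
        field_simp

/-- the family at a fixed centre -/
lemma fixed {X : ℕ} {P : ℕ} {B E X₀ : ℝ} {g : ℤ → ℂ} {gex : ℤ → ℂ} {w : ℂ} (hX : 1 ≤ X)
    (hED : ∀ (X B : ℝ) (N P : ℕ) (f : ℤ → ℂ), X₀ ≤ X → (N : ℝ) ^ 4 ≤ X → N ≤ P →
      CP N B f → |ED X (fun D => ‖f D‖ ^ 2) - 2 * RR P (fun D => ‖f D‖ ^ 2)| ≤
        Real.exp (-X) * B ^ 2)
    (hX0 : X₀ ≤ X) (hP4 : (P : ℝ) ^ 4 ≤ X) (hCP : CP P (B * X) (fun D => g D - w))
    (htr : RR P (fun D => ‖g D - gex D‖ ^ 2) ≤ E) :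
    ∑ d ∈ (Ioc X (2 * X)).filter Squarefree, ‖g d - w‖ ^ 2 ≤
      30 * X * ((4 * E + 6 * B ^ 2 / X) + 4 * RR P (fun D => ‖gex D - w‖ ^ 2)) := by
  have hX1 : (1:ℝ) ≤ X := by exact_mod_cast hX
  have hEDf := hED X (B * X) P P (fun D => g D - w) hX0 hP4 le_rfl hCP
  have hbdd : ∀ D : ℤ, ‖g D - w‖ ^ 2 ≤ (B * X) ^ 2 := fun D =>
    pow_le_pow_left₀ (norm_nonneg _) (CP_bdd hCP D) 2
  have h3 := ED_family (X := X) hX (f := fun D => ‖g D - w‖ ^ 2) (B := (B * X) ^ 2)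
    (fun D => by positivity) hbdd
  refine h3.trans ?_
  apply mul_le_mul_of_nonneg_left _ (by positivity)
  have h4 := (abs_sub_le_iff.1 hEDf).1
  have h5 : RR P (fun D => ‖g D - w‖ ^ 2) ≤
      2 * RR P (fun D => ‖g D - gex D‖ ^ 2) + 2 * RR P (fun D => ‖gex D - w‖ ^ 2) :=
    RR_two (fun D => sq_le)
  have h8 : Real.exp (-X) * (B * X) ^ 2 ≤ 6 * B ^ 2 / X := by
    have e1 := exp_small (X := X) hX1
    calc Real.exp (-X) * (B * X) ^ 2 = B ^ 2 * (Real.exp (-X) * (X:ℝ) ^ 2) := by ring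
      _ ≤ B ^ 2 * (6 / X) := by gcongr
      _ = _ := by ring
  linarith

/-- size of the coefficients -/
lemma coef_le {X : ℝ} {Cg N P y m : ℕ} {E : ℝ} (hE : 1 ≤ E) (hNP : N ≤ P) (hP4 : (P : ℝ) ^ 4 ≤ X)
    (hN : E * (y : ℝ) ^ (4 * m) ≤ N) :
    (Cg : ℝ) * (N : ℝ) ^ 2 * (y : ℝ) ^ (8 * m) ≤ Cg * X := by
  have h0 : 0 ≤ (y : ℝ) ^ (4 * m) := by positivity
  have e1 : (y : ℝ) ^ (4 * m) ≤ N := le_trans (by nlinarith) hN
  have e2 : (y : ℝ) ^ (8 * m) = ((y : ℝ) ^ (4 * m)) ^ 2 := by rw [← pow_mul]; congr 1; ring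
  have e3 : (N : ℝ) ≤ P := by exact_mod_cast hNP
  have e4 := e1.trans e3
  calc (Cg : ℝ) * (N : ℝ) ^ 2 * (y : ℝ) ^ (8 * m) = Cg * ((N : ℝ) ^ 2 * ((y : ℝ) ^ (4 * m)) ^ 2) := by
        rw [e2]; ring
    _ ≤ Cg * ((P : ℝ) ^ 2 * (P : ℝ) ^ 2) := by gcongr
    _ = Cg * (P : ℝ) ^ 4 := by ring
    _ ≤ Cg * X := by gcongr

/-- integration over the centres and Markov's inequality -/
lemma markov_int {X : ℕ} {T₁ T₂ lam A₁ A₂ M : ℝ} {w : ℝ → ℂ} {g : ℤ → ℝ → ℂ} {R : ℝ → ℝ}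
    (hT : T₁ < T₂) (hl : 0 < lam) (hM : M ≤ lam) (hg : ∀ D, Continuous (g D)) (hw : Continuous w)
    (hR : Continuous R) (hlow : ∀ t, T₁ ≤ t → t ≤ T₂ → 2 * lam ≤ ‖w t‖)
    (hfix : ∀ t, T₁ ≤ t → t ≤ T₂ → ∑ d ∈ (Ioc X (2 * X)).filter Squarefree, ‖g d t - w t‖ ^ 2 ≤
      30 * X * (A₁ + 4 * R t)) (hRi : ∫ t in T₁..T₂, R t ≤ A₂) :
    ∃ S : ℝ, S ≤ 30 * X * ((T₂ - T₁) * A₁ + 4 * A₂) ∧
    ∑ d ∈ (Ioc X (2 * X)).filter Squarefree, (volume {t₀ : ℝ | t₀ ∈ Set.Icc T₁ T₂ ∧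
      ‖g d t₀‖ < M}).toReal ≤ S / lam ^ 2 := by
  have hfc : ∀ D : ℤ, Continuous (fun t => ‖g D t - w t‖ ^ 2) := fun D =>
    (((hg D).sub hw).norm).pow 2
  refine ⟨∫ t in T₁..T₂, ∑ d ∈ (Ioc X (2 * X)).filter Squarefree, ‖g d t - w t‖ ^ 2, ?_, ?_⟩
  · have hcs : Continuous (fun t => ∑ d ∈ (Ioc X (2 * X)).filter Squarefree, ‖g d t - w t‖ ^ 2) :=
      continuous_finsetSum _ (fun (d : ℕ) _ => hfc (d : ℤ))
    have e1 : ∫ t in T₁..T₂, ∑ d ∈ (Ioc X (2 * X)).filter Squarefree, ‖g d t - w t‖ ^ 2 ≤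
        ∫ t in T₁..T₂, 30 * X * (A₁ + 4 * R t) := by
      refine intervalIntegral.integral_mono_on hT.le (hcs.intervalIntegrable _ _) ?_
        (fun t ht => hfix t ht.1 ht.2)
      exact (continuous_const.mul (continuous_const.add (continuous_const.mul hR))).intervalIntegrable _ _
    refine e1.trans ?_
    have hi1 : IntervalIntegrable (fun t => 4 * R t) volume T₁ T₂ :=
      (continuous_const.mul hR).intervalIntegrable _ _
    have hi2 : IntervalIntegrable (fun _ : ℝ => A₁) volume T₁ T₂ :=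
      continuous_const.intervalIntegrable _ _
    rw [intervalIntegral.integral_const_mul, intervalIntegral.integral_add hi2 hi1,
      intervalIntegral.integral_const, intervalIntegral.integral_const_mul, smul_eq_mul]
    gcongr
  · rw [intervalIntegral.integral_finsetSum
      (fun (d : ℕ) _ => (hfc (d : ℤ)).intervalIntegrable _ _), Finset.sum_div]
    refine Finset.sum_le_sum (fun d _ => ?_)
    refine (mono_meas (q := fun t => lam ^ 2 < ‖g d t - w t‖ ^ 2) (fun t ht hlt => ?_)).trans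
      (markov hT.le (by positivity) (fun t => by positivity)
        ((hfc d).continuousOn.integrableOn_Icc))
    have e1 := hlow t ht.1 ht.2
    have e2 : ‖w t‖ ≤ ‖g d t - w t‖ + ‖g d t‖ := by
      calc ‖w t‖ = ‖-(g d t - w t) + g d t‖ := by congr 1; ring
        _ ≤ _ := by
            refine (norm_add_le _ _).trans ?_
            rw [norm_neg]
    have e3 : lam < ‖g d t - w t‖ := by linarith
    gcongr

end ELG

open ELG in
/-- ELG: `GG` is large (uses GGP, DTR, DME, DVA, EDL) -/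
theorem E_lowG : ∃ K₀ : ℕ, ∀ (K : ℕ) (T₁ T₂ b δ : ℝ), K₀ ≤ K → 0 < T₁ → T₁ < T₂ → 1 / 2 < b → b < 1 →
    0 < δ → 4 * δ < 1 - b → 2 * δ < b → ∃ κ C : ℝ, 0 < κ ∧ ∀ (X m z₁ z y N : ℕ), 3 ≤ X →
    C * Real.log (Real.log X + 3) ≤ m → (m : ℝ) ≤ (Real.log X) ^ (δ / 2) →
    z₁ = ⌊Real.exp ((Real.log X) ^ (b - 2 * δ))⌋₊ → z = ⌈Real.exp ((Real.log X) ^ (b + δ))⌉₊ →
    y = ⌊Real.exp ((Real.log X) ^ (1 - δ))⌋₊ →
    N = ⌈Real.exp ((Real.log X) ^ b) * (y : ℝ) ^ (4 * m)⌉₊ →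
    ∑ d ∈ (Ioc X (2 * X)).filter Squarefree, (volume {t₀ : ℝ | t₀ ∈ Set.Icc T₁ T₂ ∧
      ‖GG K N z₁ z y m ((Real.log X) ^ (-b)) d t₀‖ < (Real.log X) ^ ((1 - b) / 4 - δ)}).toReal ≤
      C * X / (Real.log X) ^ κ := by
  obtain ⟨K₀, hvar⟩ := D_var
  refine ⟨max K₀ 3, ?_⟩
  intro K T₁ T₂ b δ hK hT₁ hT hb hb1 hδ hδ1 hδ2
  have hK3 : 3 ≤ K := (le_max_right _ _).trans hK
  obtain ⟨Cg, hGG⟩ := GG_poly (K := K) hK3
  obtain ⟨Ct, htr⟩ := D_trunc K 1 hK3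
  obtain ⟨c₀, Cme, hc₀, hmean⟩ := D_mean T₁ T₂ hT₁
  obtain ⟨Cv, κv, hκv, hv⟩ := hvar K T₁ T₂ ((le_max_left _ _).trans hK) hT₁ hT
  obtain ⟨X₀, hED⟩ := CP_ED
  obtain ⟨a, ha0, ha, -⟩ := what_zero (K := K) (by omega)
  obtain ⟨c4, hc4, hLL4⟩ := LL_le |Cv| (δ * κv / 2) (by positivity)
  obtain ⟨L₀, hL₀2, hL₀⟩ := params (G := max (2 / (a * c₀ / 2)) (max X₀ 1))
    (V := Real.log (2 * Cg + 1)) hb hb1 hδ hδ1 hδ2
  obtain ⟨κ, hκ⟩ : ∃ κ : ℝ, κ = min 1 (δ * κv / 2) := ⟨_, rfl⟩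
  have hκ0 : 0 < κ := by rw [hκ]; exact lt_min one_pos (by positivity)
  have hκ1 : κ ≤ 1 := by rw [hκ]; exact min_le_left _ _
  have hκ2 : κ ≤ δ * κv / 2 := by rw [hκ]; exact min_le_right _ _
  have hTT : 0 < T₂ - T₁ := by linarith
  obtain ⟨Bc, hBc⟩ : ∃ Bc : ℝ, Bc = Cg + a * |Cme| := ⟨_, rfl⟩
  have hBc0 : 0 ≤ Bc := by rw [hBc]; positivity
  obtain ⟨μ₀, hμ₀⟩ : ∃ μ₀ : ℝ, μ₀ = a * c₀ / 2 := ⟨_, rfl⟩
  have hμ₀0 : 0 < μ₀ := by rw [hμ₀]; positivity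
  rw [← hμ₀] at hL₀
  obtain ⟨CF, hCF⟩ : ∃ CF : ℝ,
    CF = 30 * ((T₂ - T₁) * (4 * |Ct| + 6 * Bc ^ 2) + 4 * (|Cv| * c4)) / μ₀ ^ 2 := ⟨_, rfl⟩
  have hCF0 : 0 ≤ CF := by rw [hCF]; positivity
  refine ⟨κ, max (max Ct 1) ((T₂ - T₁) * L₀ ^ κ + CF), hκ0, ?_⟩
  intro X m z₁ z y N hX hm1 hm2 hz₁ hz hy hN
  have hX3 : (3:ℝ) ≤ X := by exact_mod_cast hX
  have hX0 : (0:ℝ) < X := by linarith
  obtain ⟨L, hLdef⟩ : ∃ L : ℝ, L = Real.log X := ⟨_, rfl⟩
  rw [← hLdef] at hm1 hm2 hz₁ hz hy hN ⊢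
  have hL1 : 1 ≤ L := by
    rw [hLdef, Real.le_log_iff_exp_le (by linarith)]
    have := Real.exp_one_lt_d9
    linarith
  have hL0 : 0 < L := by linarith
  have hLX : L ≤ X := by
    rw [hLdef]; exact (Real.log_le_sub_one_of_pos hX0).trans (by linarith)
  have hLκ : 0 < L ^ κ := by positivity
  have hLL1 : 1 ≤ Real.log (L + 3) := by
    rw [Real.le_log_iff_exp_le (by linarith)]
    have := Real.exp_one_lt_d9
    linarith
  have hL₀0 : 0 < L₀ := by linarith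
  have hmt : Ct * Real.log (L + 3) ≤ m := by
    refine le_trans ?_ hm1
    have h2 : Ct ≤ max (max Ct 1) ((T₂ - T₁) * L₀ ^ κ + CF) :=
      (le_max_left _ _).trans (le_max_left _ _)
    gcongr
  have hm1' : (1:ℝ) ≤ m := by
    have h2 : (1:ℝ) ≤ max (max Ct 1) ((T₂ - T₁) * L₀ ^ κ + CF) :=
      (le_max_right _ _).trans (le_max_left _ _)
    nlinarith
  have hm1N : 1 ≤ m := by exact_mod_cast hm1'
  suffices hsuff : ∑ d ∈ (Ioc X (2 * X)).filter Squarefree, (volume {t₀ : ℝ | t₀ ∈ Set.Icc T₁ T₂ ∧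
      ‖GG K N z₁ z y m (L ^ (-b)) d t₀‖ < L ^ ((1 - b) / 4 - δ)}).toReal ≤
      ((T₂ - T₁) * L₀ ^ κ + CF) * X / L ^ κ by
    refine hsuff.trans ?_
    have := le_max_right (max Ct 1) ((T₂ - T₁) * L₀ ^ κ + CF)
    gcongr
  clear hm1
  rcases le_or_gt L₀ L with hLL₀ | hLL₀
  swap
  · have h1 : ∀ d ∈ (Ioc X (2 * X)).filter Squarefree, (volume {t₀ : ℝ | t₀ ∈ Set.Icc T₁ T₂ ∧
        ‖GG K N z₁ z y m (L ^ (-b)) d t₀‖ < L ^ ((1 - b) / 4 - δ)}).toReal ≤ T₂ - T₁ :=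
      fun d _ => triv_meas hT.le _
    refine (Finset.sum_le_sum h1).trans ?_
    rw [Finset.sum_const, nsmul_eq_mul, le_div_iff₀ hLκ]
    have h2 : L ^ κ ≤ L₀ ^ κ := Real.rpow_le_rpow hL0.le hLL₀.le hκ0.le
    calc (((Ioc X (2 * X)).filter Squarefree).card : ℝ) * (T₂ - T₁) * L ^ κ
        ≤ X * (T₂ - T₁) * L₀ ^ κ := by
          have := card_le X
          gcongr
      _ = (T₂ - T₁) * L₀ ^ κ * X := by ring
      _ ≤ _ := by nlinarith
  -- large X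
  obtain ⟨p1, p2, p3, p4, p5, p6⟩ := hL₀ L hLL₀
  have hL2 : 2 ≤ L := hL₀2.trans hLL₀
  obtain ⟨s1, s2, s3, s4, s5, s6, s7, s8, s9, s10, s11⟩ :=
    sizes (Cg := Cg) hb hδ hδ1 hδ2 hL2 hm2 hz₁ hz hy hN p1 p2 p3 p6
  clear hz₁ hz hy hN p1 p2 p3
  have hX0X : X₀ ≤ X := ((le_max_left _ _).trans (le_max_right _ _)).trans (p5.trans hLX)
  obtain ⟨h, hh⟩ : ∃ h : ℝ, h = L ^ (-b) := ⟨_, rfl⟩
  rw [← hh]
  have hh0 : 0 < h := by rw [hh]; positivity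
  have hh1 : h ≤ 1 := by rw [hh]; exact Real.rpow_le_one_of_one_le_of_nonpos hL1 (by linarith)
  have h1h : 1 / h = L ^ b := by rw [hh, Real.rpow_neg hL0.le, one_div, inv_inv]
  obtain ⟨P, hP⟩ : ∃ P : ℕ, P = Cg * N * y ^ (4 * m) := ⟨_, rfl⟩
  rw [← hP] at s11
  obtain ⟨N₁, q1, q2, q3, -⟩ := hGG h T₁ N z₁ z y m hh0 hh1 s1 s2 s3 hm1N s9
  rw [← hP] at q3
  have hyP : y ≤ P := q2.trans q3
  have hNP : N ≤ P := q1.trans q3
  have hPX4 : (P : ℝ) ^ 4 ≤ X := by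
    calc (P : ℝ) ^ 4 ≤ (Real.exp (L / 4)) ^ 4 := by gcongr
      _ = (X : ℝ) := by
          rw [← Real.exp_nat_mul]
          have : ((4 : ℕ) : ℝ) * (L / 4) = L := by push_cast; ring
          rw [this, hLdef, Real.exp_log hX0]
  have hP1 : 1 ≤ P := s9.trans hNP
  have hP1' : (1:ℝ) ≤ P := by exact_mod_cast hP1
  have hPX : (P : ℝ) ≤ X := by
    refine le_trans ?_ hPX4
    calc (P : ℝ) = (P : ℝ) ^ 1 := (pow_one _).symm
      _ ≤ (P : ℝ) ^ 4 := pow_le_pow_right₀ hP1' (by norm_num)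
  have hlogP : Real.log P ≤ L / 4 := by
    rw [Real.log_le_iff_le_exp (by linarith)]; exact s11
  have hlogP0 : 0 ≤ Real.log P := Real.log_nonneg hP1'
  have hlogz0 : 0 < Real.log z := lt_of_lt_of_le (by positivity) s5
  have hz1 : 1 ≤ Real.log z := by linarith
  have hlogyz : Real.log z ≤ Real.log y := by
    have e1 : L ^ (b + δ) + 1 ≤ L ^ (1 - δ) := (hL₀ L hLL₀).2.1
    have hzpos : (0:ℝ) < z := by
      by_contra hcon
      have hz' : (z:ℝ) = 0 := le_antisymm (not_lt.1 hcon) (Nat.cast_nonneg z)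
      rw [hz', Real.log_zero] at hlogz0
      exact lt_irrefl _ hlogz0
    exact Real.log_le_log hzpos (by exact_mod_cast s3)
  obtain ⟨ρ, hρ⟩ : ∃ ρ : ℝ, ρ = Real.log y / Real.log z := ⟨_, rfl⟩
  have hρ1 : 1 ≤ ρ := by rw [hρ, le_div_iff₀ hlogz0]; linarith
  have hρ0 : 0 < ρ := by linarith
  have hρX : ρ ≤ X := by
    have e7 : Real.log y ≤ L := s7.trans (by
      calc L ^ (1 - δ) ≤ L ^ (1:ℝ) := Real.rpow_le_rpow_of_exponent_le hL1 (by linarith)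
        _ = L := Real.rpow_one L)
    rw [hρ, div_le_iff₀ hlogz0]
    nlinarith
  have hμL : L ^ ((1 - b) / 4 - δ) ≤ μ₀ * ρ ^ (1 / 4 : ℝ) := by
    rw [hρ]
    exact mu_lower hL1 hlogz0 s6 s8 hμ₀0 ((le_max_left _ _).trans p4)
  -- the mean
  obtain ⟨C0, hC0⟩ : ∃ C0 : ℝ → ℂ, C0 = fun t₀ => what K 0 * RA P (fun D' => EX z₁ z y P D' t₀ t₀) :=
    ⟨_, rfl⟩
  have hC0c : Continuous C0 := by rw [hC0]; exact continuous_const.mul (mean_cont z₁ z y P)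
  have hC0low : ∀ t₀, T₁ ≤ t₀ → t₀ ≤ T₂ → 2 * (μ₀ * ρ ^ (1 / 4 : ℝ)) ≤ ‖C0 t₀‖ ∧
      ‖C0 t₀‖ ≤ a * |Cme| * X := by
    intro t₀ h1 h2
    obtain ⟨e1, e2⟩ := hmean t₀ z₁ z y P h1 h2 s1 s2 s3 hyP
    have e3 : ‖C0 t₀‖ = a * ‖RA P (fun D' => EX z₁ z y P D' t₀ t₀)‖ := by
      rw [hC0]
      simp only
      rw [norm_mul, ha, Complex.norm_real, Real.norm_eq_abs, abs_of_pos ha0]
    rw [e3]
    rw [← hρ] at e1 e2
    constructor
    · calc 2 * (μ₀ * ρ ^ (1 / 4 : ℝ)) = a * (c₀ * ρ ^ (1 / 4 : ℝ)) := by rw [hμ₀]; ring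
        _ ≤ _ := by gcongr
    · have e4 : ρ ^ (1 / 4 : ℝ) ≤ X := by
        calc ρ ^ (1 / 4 : ℝ) ≤ ρ ^ (1:ℝ) := Real.rpow_le_rpow_of_exponent_le hρ1 (by norm_num)
          _ = ρ := Real.rpow_one ρ
          _ ≤ X := hρX
      calc a * ‖RA P (fun D' => EX z₁ z y P D' t₀ t₀)‖ ≤ a * (Cme * ρ ^ (1 / 4 : ℝ)) := by gcongr
        _ ≤ a * (|Cme| * X) := by
            have := le_abs_self Cme
            gcongr
        _ = _ := by ring
  -- bound at a fixed centre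
  have hfix : ∀ t₀, T₁ ≤ t₀ → t₀ ≤ T₂ → ∑ d ∈ (Ioc X (2 * X)).filter Squarefree,
      ‖GG K N z₁ z y m h d t₀ - C0 t₀‖ ^ 2 ≤
      30 * X * ((4 * |Ct| + 6 * Bc ^ 2) / L + 4 * RR P (fun D => ‖GGex K z₁ z y P h D t₀ - C0 t₀‖ ^ 2)) := by
    intro t₀ h1 h2
    obtain ⟨N', r1, r2, r3, r4⟩ := hGG h t₀ N z₁ z y m hh0 hh1 s1 s2 s3 hm1N s9
    rw [← hP] at r3
    have hCP : CP P (Bc * X) (fun D => GG K N z₁ z y m h D t₀ - C0 t₀) := by
      have e1 : CP P (Cg * X) (fun D => GG K N z₁ z y m h D t₀) :=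
        CP_mono r4 r3 (coef_le (Real.one_le_exp (by positivity)) hNP hPX4 s10)
      have e2 : CP P (a * |Cme| * X) (fun _ => -C0 t₀) :=
        CP_const hP1 (by rw [norm_neg]; exact (hC0low t₀ h1 h2).2)
      have e3 := CP_add e1 e2
      have e4 : (Cg : ℝ) * X + a * |Cme| * X = Bc * X := by rw [hBc]; ring
      rw [e4] at e3
      exact CP_congr e3 (fun D => sub_eq_add_neg _ _)
    have h6 := htr X h t₀ N P z₁ z y m hX3 hh0 hh1 s1 s2 s3 hyP hNP hPX (by rw [← hLdef]; exact hmt)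
      (by rw [h1h]; exact s10)
    rw [pow_one, ← hLdef] at h6
    have h7 : Ct / L ≤ |Ct| / L := by
      have := le_abs_self Ct
      gcongr
    have h8 := fixed (X := X) (by omega) hED hX0X hPX4 hCP (h6.trans h7)
    refine h8.trans ?_
    have h9 : 6 * Bc ^ 2 / (X : ℝ) ≤ 6 * Bc ^ 2 / L := by gcongr
    have h10 : (4 * |Ct| + 6 * Bc ^ 2) / L = 4 * (|Ct| / L) + 6 * Bc ^ 2 / L := by ring
    rw [h10]
    gcongr
  -- the variance
  have hvarR : ∫ t₀ in T₁..T₂, RR P (fun D => ‖GGex K z₁ z y P h D t₀ - C0 t₀‖ ^ 2) ≤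
      |Cv| * c4 * L ^ (-(δ * κv / 2)) * ρ ^ (1 / 2 : ℝ) := by
    have e1 : Real.log P ≤ 1 / h ^ 2 := by
      have e2 : 1 / h ^ 2 = (L ^ b) ^ 2 := by rw [← h1h]; ring
      rw [e2]
      have e3 : L ≤ (L ^ b) ^ 2 := by
        rw [← Real.rpow_natCast, ← Real.rpow_mul hL0.le]
        calc L = L ^ (1:ℝ) := (Real.rpow_one L).symm
          _ ≤ _ := Real.rpow_le_rpow_of_exponent_le hL1 (by push_cast; linarith)
      linarith
    have e4 : h * Real.log z₁ ≤ L ^ (-δ) := by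
      calc h * Real.log z₁ ≤ L ^ (-b) * L ^ (b - 2 * δ) := by
            rw [hh]; gcongr
        _ = L ^ (-(2 * δ)) := by rw [← Real.rpow_add hL0]; congr 1; ring
        _ ≤ _ := Real.rpow_le_rpow_of_exponent_le hL1 (by linarith)
    have e5 : 1 ≤ L ^ (-δ) * (h * Real.log z) := by
      calc (1:ℝ) = L ^ (-δ) * (L ^ (-b) * L ^ (b + δ)) := by
            rw [← Real.rpow_add hL0, ← Real.rpow_add hL0]
            have : -δ + (-b + (b + δ)) = 0 := by ring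
            rw [this, Real.rpow_zero]
        _ ≤ _ := by rw [hh]; gcongr
    have e6 := hv h (L ^ (-δ)) z₁ z y P hh0 hh1 (by positivity)
      (Real.rpow_le_one_of_one_le_of_nonpos hL1 (by linarith)) s1 s2 s3 hyP e1 e4 e5
    rw [← hρ] at e6
    rw [hC0]
    exact var_final hL1 hlogP0 (by linarith) hρ0.le (hLL4 L hL1) e6
  -- Markov
  obtain ⟨S, hS1, hS2⟩ := markov_int (X := X) (g := fun D t₀ => GG K N z₁ z y m h D t₀)
    (R := fun t₀ => RR P (fun D => ‖GGex K z₁ z y P h D t₀ - C0 t₀‖ ^ 2)) hT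
    (show 0 < μ₀ * ρ ^ (1 / 4 : ℝ) by positivity) hμL
    (fun D => GG_cont K N z₁ z y m (by omega) hh0 D) hC0c
    (RR_cont (fun D => (((GGex_cont K z₁ z y P (by omega) hh0 D).sub hC0c).norm).pow 2))
    (fun t h1 h2 => (hC0low t h1 h2).1) hfix hvarR
  refine hS2.trans ?_
  have hfin := final_alg (X := X) (L := L) (κ := κ) (μ₀ := μ₀) (ρ := ρ) (Tt := T₂ - T₁)
    (E1 := 4 * |Ct| + 6 * Bc ^ 2) (E2 := |Cv| * c4) (S := S) (s := δ * κv / 2) hX0.le hL1 hκ1 hμ₀0 hρ1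
    hTT.le (by positivity) (by positivity) hκ2 hS1
  refine hfin.trans ?_
  rw [← hCF]
  apply div_le_div_of_nonneg_right _ hLκ.le
  have : 0 ≤ (T₂ - T₁) * L₀ ^ κ * X := by positivity
  nlinarith

end Pool.Agent.CZ
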