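import Mathlib
import Pool.Agent.CZ.Defs
import Pool.Agent.CZ.PS
import Pool.Agent.CZ.SUMS

/-! Module MPT: pointwise size of the mollifier -/

set_option autoImplicit false

open Complex Finset MeasureTheory

namespace Pool.Agent.CZ

open Pool.Agent.H5 (c bd)
open Pool.Agent.ZD (S Lf nu tau)


/-! ### coefficients of a polynomial -/

theorem mpt_iter_eval (p : Polynomial ℂ) (j : ℕ) :
    iteratedDeriv j (fun z : ℂ => p.eval z) =
      fun z : ℂ => (Polynomial.derivative^[j] p).eval z := by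
  induction j with
  | zero => simp [iteratedDeriv_zero]
  | succ j ih =>
    rw [iteratedDeriv_succ, ih, Function.iterate_succ_apply']
    funext z
    exact Polynomial.deriv _

theorem mpt_coeff_bound (p : Polynomial ℂ) {R M : ℝ} (hR : 0 < R)
    (h : ∀ z : ℂ, ‖z‖ = R → ‖p.eval z‖ ≤ M) (j : ℕ) : ‖p.coeff j‖ ≤ M / R ^ j := by
  have h1 := Complex.norm_iteratedDeriv_le_of_forall_mem_sphere_norm_le (c := (0 : ℂ)) (R := R)
    (C := M) (f := fun z : ℂ => p.eval z) j hR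
    (p.differentiable.diffContOnCl) (fun z hz => h z (by simpa using hz))
  rw [mpt_iter_eval] at h1
  beta_reduce at h1
  have h2 : (Polynomial.derivative^[j] p).eval 0 = (j.factorial : ℂ) * p.coeff j := by
    rw [← Polynomial.coeff_zero_eq_eval_zero, Polynomial.coeff_iterate_derivative]
    simp [Nat.descFactorial_self]
  rw [h2, norm_mul] at h1
  have h3 : (0 : ℝ) < j.factorial := by exact_mod_cast Nat.factorial_pos j
  have h4 : ‖(j.factorial : ℂ)‖ = (j.factorial : ℝ) := by simp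
  rw [h4, mul_div_assoc] at h1
  exact le_of_mul_le_mul_left h1 h3

theorem mpt_tail (p : Polynomial ℂ) {M : ℝ} (hM : 0 ≤ M)
    (h : ∀ z : ℂ, ‖z‖ = 2 → ‖p.eval z‖ ≤ M) (m : ℕ) :
    ‖p.eval 1 - ∑ j ∈ range (m + 1), p.coeff j‖ ≤ M / 2 ^ m := by
  have h1 : p.eval 1 = ∑ j ∈ range (m + 1 + p.natDegree + 1), p.coeff j := by
    rw [Polynomial.eval_eq_sum_range' (n := m + 1 + p.natDegree + 1) (by omega)]
    simp
  have h2 : p.eval 1 - ∑ j ∈ range (m + 1), p.coeff j =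
      ∑ j ∈ range (p.natDegree + 1), p.coeff (m + 1 + j) := by
    rw [h1, add_assoc (m + 1), Finset.sum_range_add]
    ring
  rw [h2]
  refine (norm_sum_le _ _).trans ?_
  calc ∑ j ∈ range (p.natDegree + 1), ‖p.coeff (m + 1 + j)‖
      ≤ ∑ j ∈ range (p.natDegree + 1), M / 2 ^ (m + 1) * (1 / 2) ^ j := by
        apply Finset.sum_le_sum
        intro j _
        refine (mpt_coeff_bound p (by norm_num) h (m + 1 + j)).trans (le_of_eq ?_)
        rw [pow_add, one_div, inv_pow]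
        field_simp
    _ = M / 2 ^ (m + 1) * ∑ j ∈ range (p.natDegree + 1), (1 / 2 : ℝ) ^ j := by
        rw [Finset.mul_sum]
    _ ≤ M / 2 ^ (m + 1) * 2 := by
        apply mul_le_mul_of_nonneg_left _ (by positivity)
        exact sum_geometric_two_le _
    _ = M / 2 ^ m := by rw [pow_succ]; field_simp

/-! ### sums over divisors of squares -/

theorem mpt_sum_divisors (f : ℕ → ℂ) (h1 : f 1 = 1)
    (hmul : ∀ m n : ℕ, m.Coprime n → 0 < m → 0 < n → f (m * n) = f m * f n) (s : Finset ℕ)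
    (hs : ∀ p ∈ s, p.Prime) :
    ∑ h ∈ ((∏ p ∈ s, p) ^ 2).divisors, f h = ∏ p ∈ s, (1 + f p + f (p ^ 2)) := by
  induction s using Finset.induction_on with
  | empty => simp [h1]
  | insert q s hq ih =>
    have hqp : q.Prime := hs q (Finset.mem_insert_self q s)
    have hs' : ∀ p ∈ s, p.Prime := fun p hp => hs p (Finset.mem_insert_of_mem hp)
    have hcop : (q ^ 2).Coprime ((∏ p ∈ s, p) ^ 2) := by
      apply Nat.Coprime.pow
      apply Nat.Coprime.prod_right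
      intro p hp
      rw [Nat.coprime_primes hqp (hs' p hp)]
      rintro rfl
      exact hq hp
    rw [Finset.prod_insert hq, Finset.prod_insert hq, mul_pow, Nat.divisors_mul, Finset.mul_def,
      Finset.sum_image hcop.mul_injOn_divisors, Finset.sum_product]
    have h2 : ∀ x ∈ (q ^ 2).divisors, ∑ y ∈ ((∏ p ∈ s, p) ^ 2).divisors, f (x * y) =
        f x * ∏ p ∈ s, (1 + f p + f (p ^ 2)) := by
      intro x hx
      rw [← ih hs', Finset.mul_sum]
      apply Finset.sum_congr rfl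
      intro y hy
      apply hmul
      · exact Nat.Coprime.of_dvd (Nat.dvd_of_mem_divisors hx) (Nat.dvd_of_mem_divisors hy) hcop
      · exact Nat.pos_of_mem_divisors hx
      · exact Nat.pos_of_mem_divisors hy
    rw [Finset.sum_congr rfl h2, ← Finset.sum_mul]
    congr 1
    rw [Nat.sum_divisors_prime_pow hqp]
    simp [Finset.sum_range_succ, h1]


/-! ### the terms of the mollifier -/

/-- `nu h (D/h) h^{-1-it}` -/
noncomputable def mptG (D : ℤ) (t : ℝ) (h : ℕ) : ℂ := ((nu h * jacobiSym D h : ℤ) : ℂ) * npow h t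

theorem mpt_nu_mul {m n : ℕ} (h : m.Coprime n) : nu (m * n) = nu m * nu n := by
  unfold nu
  rw [Nat.factorization_mul_of_coprime h]
  exact Finsupp.prod_add_index_of_disjoint (by simpa using h.disjoint_primeFactors) _

theorem mpt_npow_mul (m n : ℕ) (t : ℝ) : npow (m * n) t = npow m t * npow n t := by
  unfold npow
  rw [Nat.cast_mul, Complex.natCast_mul_natCast_cpow]

theorem mpt_G_one (D : ℤ) (t : ℝ) : mptG D t 1 = 1 := by
  unfold mptG npow nu
  simp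

theorem mpt_G_mul (D : ℤ) (t : ℝ) {m n : ℕ} (h : m.Coprime n) (hm : 0 < m) (hn : 0 < n) :
    mptG D t (m * n) = mptG D t m * mptG D t n := by
  have : NeZero m := ⟨hm.ne'⟩
  have : NeZero n := ⟨hn.ne'⟩
  unfold mptG
  rw [mpt_nu_mul h, mpt_npow_mul, jacobiSym.mul_right]
  push_cast
  ring

theorem mpt_nu_prime {p : ℕ} (hp : p.Prime) : nu p = -c p := by
  unfold nu
  rw [hp.factorization, Finsupp.prod_single_index (by simp [Pool.Agent.ZD.nuF])]
  simp [Pool.Agent.ZD.nuF]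

theorem mpt_nu_sq {p : ℕ} (hp : p.Prime) (h2 : p ≠ 2) : nu (p ^ 2) = p := by
  unfold nu
  rw [hp.factorization_pow, Finsupp.prod_single_index (by simp [Pool.Agent.ZD.nuF])]
  simp [Pool.Agent.ZD.nuF, h2]

theorem mpt_npow_sq (p : ℕ) (t : ℝ) : npow (p ^ 2) t = npow p t ^ 2 := by
  rw [pow_two, mpt_npow_mul, pow_two]

theorem mpt_G_prime (D : ℤ) (t : ℝ) {p : ℕ} (hp : p.Prime) :
    mptG D t p = -((bd D p : ℂ) * npow p t) := by
  unfold mptG bd
  rw [mpt_nu_prime hp]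
  push_cast
  ring

theorem mpt_G_sq (D : ℤ) (t : ℝ) {p : ℕ} (hp : p.Prime) (h2 : p ≠ 2) :
    mptG D t (p ^ 2) = ((jacobiSym D p : ℤ) : ℂ) ^ 2 * p * npow p t ^ 2 := by
  unfold mptG
  have : NeZero p := ⟨hp.ne_zero⟩
  rw [mpt_nu_sq hp h2, mpt_npow_sq, jacobiSym.pow_right]
  push_cast
  ring

/-- number of prime factors with multiplicity -/
def mptO (h : ℕ) : ℕ := h.primeFactorsList.length

theorem mpt_O_mul {m n : ℕ} (hm : 0 < m) (hn : 0 < n) : mptO (m * n) = mptO m + mptO n := by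
  unfold mptO
  rw [(Nat.perm_primeFactorsList_mul hm.ne' hn.ne').length_eq, List.length_append]

theorem mpt_O_prime {p : ℕ} (hp : p.Prime) : mptO p = 1 := by
  unfold mptO
  rw [Nat.primeFactorsList_prime hp]
  rfl

theorem mpt_O_sq {p : ℕ} (hp : p.Prime) : mptO (p ^ 2) = 2 := by
  rw [pow_two, mpt_O_mul hp.pos hp.pos, mpt_O_prime hp]

theorem mem_primesIoc {a b p : ℕ} : p ∈ primesIoc a b ↔ (a < p ∧ p ≤ b) ∧ p.Prime ∧ p ≠ 2 := by
  unfold primesIoc
  rw [Finset.mem_filter, Finset.mem_Ioc]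

/-- the modulus -/
def mptN (a b : ℕ) : ℕ := (∏ p ∈ primesIoc a b, p) ^ 2

/-- generating polynomial -/
noncomputable def mptP (a b : ℕ) (D : ℤ) (t : ℝ) : Polynomial ℂ :=
  ∑ h ∈ (mptN a b).divisors, Polynomial.C (mptG D t h) * Polynomial.X ^ (mptO h)

theorem mpt_P_eval (a b : ℕ) (D : ℤ) (t : ℝ) (ζ : ℂ) :
    (mptP a b D t).eval ζ = ∏ p ∈ primesIoc a b, (1 + ζ * mptG D t p + ζ ^ 2 * mptG D t (p ^ 2)) := by
  have h1 := mpt_sum_divisors (fun h => mptG D t h * ζ ^ (mptO h)) (by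
      simp [mpt_G_one, mptO]) (by
      intro m n hmn hm hn
      rw [mpt_G_mul D t hmn hm hn, mpt_O_mul hm hn, pow_add]
      ring) (primesIoc a b) (fun p hp => (mem_primesIoc.1 hp).2.1)
  have h2 : (mptP a b D t).eval ζ = ∑ h ∈ (mptN a b).divisors, mptG D t h * ζ ^ (mptO h) := by
    unfold mptP
    rw [Polynomial.eval_finsetSum]
    simp
  rw [h2]
  unfold mptN
  rw [h1]
  apply Finset.prod_congr rfl
  intro p hp
  obtain ⟨_, hp1, hp2⟩ := mem_primesIoc.1 hp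
  rw [mpt_O_prime hp1, mpt_O_sq hp1]
  ring

theorem mpt_P_eval_one (a b : ℕ) (D : ℤ) (t : ℝ) :
    (mptP a b D t).eval 1 = ∏ p ∈ primesIoc a b, ellInv D p t := by
  rw [mpt_P_eval]
  apply Finset.prod_congr rfl
  intro p hp
  obtain ⟨_, hp1, hp2⟩ := mem_primesIoc.1 hp
  rw [mpt_G_prime D t hp1, mpt_G_sq D t hp1 hp2]
  unfold ellInv
  ring

theorem mpt_P_coeff (a b m : ℕ) (D : ℤ) (t : ℝ) :
    ∑ j ∈ range (m + 1), (mptP a b D t).coeff j =
      ∑ h ∈ (mptN a b).divisors.filter (fun h => mptO h ≤ m), mptG D t h := by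
  have h1 : ∀ j, (mptP a b D t).coeff j =
      ∑ h ∈ (mptN a b).divisors, if j = mptO h then mptG D t h else 0 := by
    intro j
    unfold mptP
    rw [Polynomial.finsetSum_coeff]
    apply Finset.sum_congr rfl
    intro h _
    rw [Polynomial.coeff_C_mul, Polynomial.coeff_X_pow]
    split_ifs <;> simp
  rw [Finset.sum_congr rfl fun j _ => h1 j, Finset.sum_comm, Finset.sum_filter]
  apply Finset.sum_congr rfl
  intro h _
  rw [Finset.sum_ite_eq']
  congr 1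
  rw [Finset.mem_range, Nat.lt_succ_iff]

theorem mpt_N_pos (a b : ℕ) : 0 < mptN a b := by
  unfold mptN
  apply pow_pos
  apply Finset.prod_pos
  intro p hp
  exact (mem_primesIoc.1 hp).2.1.pos

theorem mpt_dvd_N {a b p h : ℕ} (hh : h ∣ mptN a b) (hp : p.Prime) (hph : p ∣ h) :
    p ∈ primesIoc a b := by
  have h1 : p ∣ ∏ p ∈ primesIoc a b, p := hp.dvd_of_dvd_pow (hph.trans hh)
  obtain ⟨q, hq, hpq⟩ := (Prime.dvd_finsetProd_iff hp.prime _).1 h1
  rw [(Nat.prime_dvd_prime_iff_eq hp (mem_primesIoc.1 hq).2.1).1 hpq]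
  exact hq

theorem mpt_Mo'_eq {a b m : ℕ} (ha : 2 ≤ a) (hb : 1 ≤ b) (D : ℤ) (t : ℝ) :
    Mo' a b m D t = ∑ j ∈ range (m + 1), (mptP a b D t).coeff j := by
  classical
  rw [mpt_P_coeff]
  unfold Mo'
  have hdef : ∀ h, h ∈ smoothSet a b m ↔ (1 ≤ h ∧ h ≤ b ^ m) ∧
      (∀ p, p.Prime → p ∣ h → a < p ∧ p ≤ b) ∧ mptO h ≤ m := by
    intro h
    unfold smoothSet mptO
    rw [Finset.mem_filter, Finset.mem_Icc]
  symm
  apply Finset.sum_subset_zero_on_sdiff
  · intro h hh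
    rw [Finset.mem_filter, Nat.mem_divisors] at hh
    obtain ⟨⟨hdvd, hN⟩, hO⟩ := hh
    have hpos : 0 < h := Nat.pos_of_dvd_of_pos hdvd (mpt_N_pos a b)
    have hpr : ∀ p, p.Prime → p ∣ h → a < p ∧ p ≤ b := fun p hp hph =>
      (mem_primesIoc.1 (mpt_dvd_N hdvd hp hph)).1
    rw [hdef]
    refine ⟨⟨hpos, ?_⟩, hpr, hO⟩
    have h1 : h = h.primeFactorsList.prod := (Nat.prod_primeFactorsList hpos.ne').symm
    have h2 : h.primeFactorsList.prod ≤ b ^ h.primeFactorsList.length := by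
      apply List.prod_le_pow_card
      intro p hp
      exact (hpr p (Nat.prime_of_mem_primeFactorsList hp) (Nat.dvd_of_mem_primeFactorsList hp)).2
    rw [h1]
    exact h2.trans (Nat.pow_le_pow_right hb hO)
  · intro h hh
    rw [Finset.mem_sdiff, hdef, Finset.mem_filter, Nat.mem_divisors] at hh
    obtain ⟨⟨⟨hpos, _⟩, hpr, hO⟩, hnot⟩ := hh
    have hnd : ¬ h ∣ mptN a b := fun hd => hnot ⟨⟨hd, (mpt_N_pos a b).ne'⟩, hO⟩
    have hnu : nu h = 0 := by
      rw [← Nat.factorization_prime_le_iff_dvd (by omega) (mpt_N_pos a b).ne'] at hnd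
      push Not at hnd
      obtain ⟨p, hp, hlt⟩ := hnd
      have hph : p ∣ h := by
        apply Nat.dvd_of_factorization_pos
        omega
      have hmem : p ∈ primesIoc a b := mem_primesIoc.2 ⟨hpr p hp hph, hp, by
        have := (hpr p hp hph).1
        omega⟩
      have hv : 2 ≤ (mptN a b).factorization p := by
        rw [← hp.pow_dvd_iff_le_factorization (mpt_N_pos a b).ne']
        exact pow_dvd_pow_of_dvd (Finset.dvd_prod_of_mem _ hmem) 2
      unfold nu Finsupp.prod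
      apply Finset.prod_eq_zero (i := p)
      · rw [Nat.support_factorization, Nat.mem_primeFactors]
        exact ⟨hp, hph, by omega⟩
      · unfold Pool.Agent.ZD.nuF
        rw [if_neg (by omega), if_neg (by omega), if_neg (by omega)]
    simp [hnu]
  · intro h _
    rfl


/-! ### local expansion -/

/-- the second order coefficient -/
noncomputable def mptq (D : ℤ) (t : ℝ) (p : ℕ) : ℂ :=
  ((jacobiSym D p : ℤ) : ℂ) ^ 2 * ((1 - lam2 p / 2 : ℝ) : ℂ) * npow p (2 * t)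

theorem mpt_npow_two {p : ℕ} (hp : 0 < p) (t : ℝ) : (p : ℂ) * npow p t ^ 2 = npow p (2 * t) := by
  unfold npow
  have hp0 : (p : ℂ) ≠ 0 := by exact_mod_cast hp.ne'
  rw [← Complex.cpow_nat_mul]
  nth_rewrite 1 [← Complex.cpow_one (p : ℂ)]
  rw [← Complex.cpow_add _ _ hp0]
  congr 1
  push_cast
  ring

theorem mpt_q_eq (D : ℤ) (t : ℝ) {p : ℕ} (hp : p.Prime) (h2 : p ≠ 2) :
    mptG D t (p ^ 2) - mptG D t p ^ 2 / 2 = mptq D t p := by
  rw [mpt_G_prime D t hp, mpt_G_sq D t hp h2]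
  unfold mptq bd lam2
  rw [← mpt_npow_two hp.pos t]
  have hp0 : (p : ℂ) ≠ 0 := by exact_mod_cast hp.ne_zero
  push_cast
  field_simp

theorem mpt_local (D : ℤ) (t : ℝ) {p : ℕ} (hp : p.Prime) (h10 : 10000 < p) (ζ : ℂ)
    (hζ : ‖ζ‖ ≤ 2) : ∃ E : ℂ, ‖E‖ ≤ 40 * (1 / ((p : ℝ) * Real.sqrt p)) ∧
      1 + ζ * mptG D t p + ζ ^ 2 * mptG D t (p ^ 2) =
        exp (-ζ * ((bd D p : ℂ) * npow p t) + ζ ^ 2 * mptq D t p + E) := by
  have h2 : p ≠ 2 := by omega
  set s : ℝ := Real.sqrt p with hs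
  have hp0 : (0 : ℝ) < p := by exact_mod_cast hp.pos
  have hss : s * s = p := Real.mul_self_sqrt hp0.le
  have hs100 : 100 ≤ s := by
    rw [hs]
    apply Real.le_sqrt_of_sq_le
    have : (10000 : ℝ) ≤ p := by exact_mod_cast h10.le
    linarith
  have hs0 : 0 < s := by linarith
  have hn : ‖npow p t‖ = 1 / p := npow_norm hp.pos t
  have hG1 : ‖mptG D t p‖ ≤ 2 / s := by
    rw [mpt_G_prime D t hp, norm_neg, norm_mul, hn]
    have h3 : ‖((bd D p : ℤ) : ℂ)‖ ≤ 2 * s := by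
      rw [Complex.norm_intCast]
      exact (Pool.Agent.H5.abs_bd_le D p).trans (abs_c_prime hp)
    calc ‖((bd D p : ℤ) : ℂ)‖ * (1 / p) ≤ 2 * s * (1 / p) :=
          mul_le_mul_of_nonneg_right h3 (by positivity)
      _ = 2 / s := by
          rw [← hss]; field_simp
  have hj : ‖((jacobiSym D p : ℤ) : ℂ)‖ ≤ 1 := by
    rw [Complex.norm_intCast]
    rcases jacobiSym.trichotomy D p with h | h | h <;> rw [h] <;> simp
  have hG2 : ‖mptG D t (p ^ 2)‖ ≤ 1 / s ^ 2 := by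
    rw [mpt_G_sq D t hp h2, norm_mul, norm_mul, norm_pow, norm_pow, hn, Complex.norm_natCast]
    calc ‖((jacobiSym D p : ℤ) : ℂ)‖ ^ 2 * (p : ℝ) * (1 / p) ^ 2
        ≤ 1 * (p : ℝ) * (1 / p) ^ 2 := by
          apply mul_le_mul_of_nonneg_right _ (by positivity)
          apply mul_le_mul_of_nonneg_right _ (by positivity)
          exact pow_le_one₀ (norm_nonneg _) hj
      _ = 1 / s ^ 2 := by
          rw [← hss]; field_simp
  set x : ℂ := ζ * mptG D t p with hx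
  set y : ℂ := ζ ^ 2 * mptG D t (p ^ 2) with hy
  have hx1 : ‖x‖ ≤ 4 / s := by
    rw [hx, norm_mul]
    calc ‖ζ‖ * ‖mptG D t p‖ ≤ 2 * (2 / s) :=
          mul_le_mul hζ hG1 (norm_nonneg _) (by norm_num)
      _ = 4 / s := by ring
  have hy1 : ‖y‖ ≤ 4 / s ^ 2 := by
    rw [hy, norm_mul, norm_pow]
    calc ‖ζ‖ ^ 2 * ‖mptG D t (p ^ 2)‖ ≤ 2 ^ 2 * (1 / s ^ 2) :=
          mul_le_mul (pow_le_pow_left₀ (norm_nonneg _) hζ 2) hG2 (norm_nonneg _) (by norm_num)
      _ = 4 / s ^ 2 := by ring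
  have hsi : 1 / s ≤ 1 / 100 := one_div_le_one_div_of_le (by norm_num) hs100
  set v : ℝ := 1 / s with hv
  have hv0 : 0 < v := by positivity
  have e1 : 4 / s = 4 * v := by rw [hv]; ring
  have e2 : 4 / s ^ 2 = 4 * v ^ 2 := by rw [hv]; ring
  rw [e1] at hx1
  rw [e2] at hy1
  have hw : ‖x + y‖ ≤ 101 / 25 * v := by
    refine (norm_add_le _ _).trans ?_
    nlinarith
  have hw1 : ‖x + y‖ ≤ 101 / 2500 := by linarith
  have hlog := norm_log_sub_logTaylor_le 2 (z := x + y) (by linarith)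
  have htay : logTaylor (2 + 1) (x + y) = (x + y) - (x + y) ^ 2 / 2 := by
    simp [logTaylor, Finset.sum_range_succ]
    ring
  rw [htay] at hlog
  set e : ℂ := log (1 + (x + y)) - ((x + y) - (x + y) ^ 2 / 2) with he
  have he1 : ‖e‖ ≤ 23 * v ^ 3 := by
    refine hlog.trans ?_
    have h5 : ‖x + y‖ ^ (2 + 1) ≤ (101 / 25 * v) ^ 3 :=
      pow_le_pow_left₀ (norm_nonneg _) hw 3
    have h6 : (1 - ‖x + y‖)⁻¹ ≤ (1 - 101 / 2500)⁻¹ :=
      inv_anti₀ (by norm_num) (by linarith)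
    have h7 : ‖x + y‖ ^ (2 + 1) * (1 - ‖x + y‖)⁻¹ ≤ (101 / 25 * v) ^ 3 * (1 - 101 / 2500)⁻¹ :=
      mul_le_mul h5 h6 (inv_nonneg.2 (by linarith)) (by positivity)
    calc ‖x + y‖ ^ (2 + 1) * (1 - ‖x + y‖)⁻¹ / ((2 : ℕ) + 1)
        ≤ (101 / 25 * v) ^ 3 * (1 - 101 / 2500)⁻¹ / ((2 : ℕ) + 1) :=
          div_le_div_of_nonneg_right h7 (by positivity)
      _ ≤ 23 * v ^ 3 := by
          rw [mul_pow]
          push_cast
          have : 0 < v ^ 3 := by positivity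
          nlinarith
  refine ⟨e - x * y - y ^ 2 / 2, ?_, ?_⟩
  · have h8 : ‖e - x * y - y ^ 2 / 2‖ ≤ ‖e‖ + ‖x‖ * ‖y‖ + ‖y‖ ^ 2 / 2 := by
      refine (norm_sub_le _ _).trans (add_le_add ((norm_sub_le _ _).trans ?_) ?_)
      · rw [norm_mul]
      · rw [norm_div, norm_pow]; norm_num
    refine h8.trans ?_
    have h9 : 1 / ((p : ℝ) * s) = v ^ 3 := by
      rw [hv, ← hss]; field_simp
    rw [h9]
    have h10' : ‖x‖ * ‖y‖ ≤ 4 * v * (4 * v ^ 2) := mul_le_mul hx1 hy1 (norm_nonneg _) (by positivity)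
    have h11 : ‖y‖ ^ 2 ≤ (4 * v ^ 2) ^ 2 := pow_le_pow_left₀ (norm_nonneg _) hy1 2
    have h12 : 0 < v ^ 3 := by positivity
    nlinarith
  · have h13 : (1 + (x + y)) ≠ 0 := by
      intro h0
      have : ‖x + y‖ = 1 := by
        have : x + y = -1 := by linear_combination h0
        rw [this]; simp
      linarith
    have h14 : -ζ * ((bd D p : ℂ) * npow p t) + ζ ^ 2 * mptq D t p + (e - x * y - y ^ 2 / 2) =
        log (1 + (x + y)) := by
      rw [he, ← mpt_q_eq D t hp h2]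
      have h15 : -ζ * ((bd D p : ℂ) * npow p t) = x := by
        rw [hx, mpt_G_prime D t hp]; ring
      rw [h15, hx, hy]
      ring
    rw [h14, Complex.exp_log h13]
    ring

theorem mpt_prod (D : ℤ) (t : ℝ) (a b : ℕ) (ha : 10000 ≤ a) (ζ : ℂ) (hζ : ‖ζ‖ ≤ 2) :
    ∃ E : ℂ, ‖E‖ ≤ 40 * ∑ p ∈ primesIoc a b, (1 / ((p : ℝ) * Real.sqrt p)) ∧
      (mptP a b D t).eval ζ =
        exp (-ζ * PSum a b D t + ζ ^ 2 * (∑ p ∈ primesIoc a b, mptq D t p) + E) := by
  have h1 : ∀ p ∈ primesIoc a b, ∃ E : ℂ, ‖E‖ ≤ 40 * (1 / ((p : ℝ) * Real.sqrt p)) ∧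
      1 + ζ * mptG D t p + ζ ^ 2 * mptG D t (p ^ 2) =
        exp (-ζ * ((bd D p : ℂ) * npow p t) + ζ ^ 2 * mptq D t p + E) := by
    intro p hp
    obtain ⟨⟨h2, _⟩, h3, _⟩ := mem_primesIoc.1 hp
    exact mpt_local D t h3 (by omega) ζ hζ
  choose! E hE1 hE2 using h1
  refine ⟨∑ p ∈ primesIoc a b, E p, ?_, ?_⟩
  · refine (norm_sum_le _ _).trans ?_
    rw [Finset.mul_sum]
    exact Finset.sum_le_sum hE1
  · rw [mpt_P_eval, Finset.prod_congr rfl hE2, ← Complex.exp_sum]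
    congr 1
    unfold PSum
    rw [Finset.sum_add_distrib, Finset.sum_add_distrib, Finset.mul_sum, Finset.mul_sum]

theorem mpt_sum32 : ∃ S : ℝ, 0 ≤ S ∧ ∀ s : Finset ℕ,
    ∑ p ∈ s, (1 / ((p : ℝ) * Real.sqrt p)) ≤ S := by
  have h1 : Summable (fun n : ℕ => 1 / (n : ℝ) ^ (3 / 2 : ℝ)) :=
    Real.summable_one_div_nat_rpow.2 (by norm_num)
  refine ⟨∑' n : ℕ, 1 / (n : ℝ) ^ (3 / 2 : ℝ), tsum_nonneg fun n => by positivity, ?_⟩
  intro s
  have h2 : ∀ p ∈ s, 1 / ((p : ℝ) * Real.sqrt p) = 1 / (p : ℝ) ^ (3 / 2 : ℝ) := by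
    intro p _
    rcases Nat.eq_zero_or_pos p with hp | hp
    · subst hp
      rw [Nat.cast_zero, Real.zero_rpow (by norm_num)]
      simp
    · have hp0 : (0 : ℝ) < p := by exact_mod_cast hp
      have : (p : ℝ) ^ (3 / 2 : ℝ) = p * Real.sqrt p := by
        rw [Real.sqrt_eq_rpow, show (3 / 2 : ℝ) = 1 + 1 / 2 by norm_num, Real.rpow_add hp0,
          Real.rpow_one]
      rw [this]
  rw [Finset.sum_congr rfl h2]
  exact h1.sum_le_tsum _ fun n _ => by positivity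

theorem mpt_Q (T₁ T₂ : ℝ) (hT : 0 < T₁) : ∃ C : ℝ, 0 ≤ C ∧ ∀ (X : ℝ) (D : ℤ) (a b : ℕ) (t : ℝ),
    3 ≤ X → D ≠ 0 → |(D : ℝ)| ≤ X ^ 2 → z0 ≤ a → a ≤ b → T₁ ≤ t → t ≤ T₂ →
    ‖∑ p ∈ primesIoc a b, mptq D t p‖ ≤ Real.log (Real.log (Real.log X + 3)) + C := by
  obtain ⟨C1, hC1⟩ := PS3 (2 * T₁) (2 * T₂) (by linarith)
  obtain ⟨C2, hC2⟩ := sum_dvd_le
  refine ⟨2 * |C1| + |C2|, by positivity, ?_⟩
  intro X D a b t hX hD hDX ha hab ht1 ht2
  have ha1 : 1 ≤ a := by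
    have : z0 = 10000 := rfl
    omega
  obtain ⟨h1, h2⟩ := hC1 a b (2 * t) ha1 hab (by linarith) (by linarith)
  have h3 := hC2 X D b hX hD hDX
  set s := primesIoc a b with hs
  have h4 : ∑ p ∈ s, mptq D t p = ∑ p ∈ s, npow p (2 * t) -
      (1 / 2 : ℂ) * ∑ p ∈ s, ((lam2 p : ℝ) : ℂ) * npow p (2 * t) -
      ∑ p ∈ s.filter (fun p : ℕ => (p : ℤ) ∣ D), ((1 - lam2 p / 2 : ℝ) : ℂ) * npow p (2 * t) := by
    rw [Finset.mul_sum, Finset.sum_filter, ← Finset.sum_sub_distrib, ← Finset.sum_sub_distrib]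
    apply Finset.sum_congr rfl
    intro p hp
    obtain ⟨_, hpp, _⟩ := mem_primesIoc.1 hp
    have hpf : Fact p.Prime := ⟨hpp⟩
    unfold mptq
    by_cases hd : (p : ℤ) ∣ D
    · rw [if_pos hd]
      have : jacobiSym D p = 0 := by
        rw [← jacobiSym.legendreSym.to_jacobiSym]
        rw [legendreSym.eq_zero_iff]
        exact (ZMod.intCast_zmod_eq_zero_iff_dvd D p).2 hd
      rw [this]
      push_cast
      ring
    · rw [if_neg hd]
      have : ((jacobiSym D p : ℤ) : ℂ) ^ 2 = 1 := by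
        have h5 : (jacobiSym D p) ^ 2 = 1 := by
          rw [← jacobiSym.legendreSym.to_jacobiSym]
          apply legendreSym.sq_one
          intro h0
          exact hd ((ZMod.intCast_zmod_eq_zero_iff_dvd D p).1 h0)
        exact_mod_cast h5
      rw [this]
      push_cast
      ring
  have h5 : ‖∑ p ∈ s.filter (fun p : ℕ => (p : ℤ) ∣ D),
      ((1 - lam2 p / 2 : ℝ) : ℂ) * npow p (2 * t)‖ ≤
      Real.log (Real.log (Real.log X + 3)) + C2 := by
    refine (norm_sum_le _ _).trans (le_trans ?_ h3)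
    refine (Finset.sum_le_sum (g := fun p : ℕ => (1 : ℝ) / p) ?_).trans
      (Finset.sum_le_sum_of_subset_of_nonneg ?_ fun _ _ _ => by positivity)
    · intro p hp
      rw [Finset.mem_filter] at hp
      obtain ⟨_, hpp, _⟩ := mem_primesIoc.1 hp.1
      obtain ⟨l0, l4⟩ := lam2_le hpp
      rw [norm_mul, npow_norm hpp.pos]
      have h6 : ‖((1 - lam2 p / 2 : ℝ) : ℂ)‖ ≤ 1 := by
        rw [Complex.norm_real, Real.norm_eq_abs, abs_le]
        constructor <;> linarith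
      calc ‖((1 - lam2 p / 2 : ℝ) : ℂ)‖ * (1 / (p : ℝ)) ≤ 1 * (1 / (p : ℝ)) :=
            mul_le_mul_of_nonneg_right h6 (by positivity)
        _ = 1 / p := one_mul _
    · intro p hp
      rw [Finset.mem_filter] at hp ⊢
      refine ⟨?_, hp.2⟩
      obtain ⟨⟨h7, h8⟩, h9⟩ := mem_primesIoc.1 hp.1
      exact mem_primesIoc.2 ⟨⟨by omega, h8⟩, h9⟩
  rw [h4]
  have h6 : ‖(1 / 2 : ℂ) * ∑ p ∈ s, ((lam2 p : ℝ) : ℂ) * npow p (2 * t)‖ ≤ |C1| := by
    rw [norm_mul]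
    have h7 : ‖(1 / 2 : ℂ)‖ = 1 / 2 := by norm_num
    rw [h7]
    have h8 : C1 ≤ |C1| := le_abs_self _
    have h9 := abs_nonneg C1
    linarith
  have h7 : ‖∑ p ∈ s, npow p (2 * t)‖ ≤ |C1| := h1.trans (le_abs_self _)
  have h8 : C2 ≤ |C2| := le_abs_self _
  refine (norm_sub_le _ _).trans ?_
  have h9 := norm_sub_le (∑ p ∈ s, npow p (2 * t))
    ((1 / 2 : ℂ) * ∑ p ∈ s, ((lam2 p : ℝ) : ℂ) * npow p (2 * t))
  linarith


/-! ### assembly -/

theorem mpt_LL {X : ℝ} (hX : 3 ≤ X) : 1 ≤ Real.log (Real.log X + 3) := by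
  have h1 : 1 ≤ Real.log X := by
    rw [Real.le_log_iff_exp_le (by linarith)]
    linarith [Real.exp_one_lt_d9]
  rw [Real.le_log_iff_exp_le (by linarith)]
  linarith [Real.exp_one_lt_d9]

theorem mpt_main (T₁ T₂ : ℝ) (hT : 0 < T₁) : ∃ C : ℝ, 1 ≤ C ∧
    ∀ (X : ℝ) (D : ℤ) (a b m : ℕ) (t Λ : ℝ),
    3 ≤ X → D ≠ 0 → |(D : ℝ)| ≤ X ^ 2 → z0 ≤ a → a ≤ b → T₁ ≤ t → t ≤ T₂ →
    C * Real.log (Real.log X + 3) ≤ m → 0 ≤ Λ → Λ ≤ Real.log (Real.log X + 3) →
    ‖PSum a b D t‖ ≤ Λ →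
    Real.exp (-Λ) / (C * (Real.log (Real.log X + 3)) ^ C) ≤ ‖Mo' a b m D t‖ ∧
    ‖Mo' a b m D t‖ ≤ Real.exp Λ * (C * (Real.log (Real.log X + 3)) ^ C) := by
  obtain ⟨C5, hC5, hQ⟩ := mpt_Q T₁ T₂ hT
  obtain ⟨S, hS, hsum⟩ := mpt_sum32
  set K : ℝ := 4 * C5 + 40 * S with hK
  have hK0 : 0 ≤ K := by positivity
  have hK1 : C5 + 40 * S ≤ K := by linarith
  have heK : 1 ≤ Real.exp K := Real.one_le_exp hK0
  refine ⟨18 + 4 * K + 2 * Real.exp K, by linarith, ?_⟩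
  intro X D a b m t Λ hX hD hDX ha hab ht1 ht2 hm hΛ0 hΛ hP
  set LL : ℝ := Real.log (Real.log X + 3) with hLL
  have hLL1 : 1 ≤ LL := mpt_LL hX
  have hLL0 : 0 < LL := by linarith
  set l : ℝ := Real.log LL with hl
  have hl0 : 0 ≤ l := Real.log_nonneg hLL1
  have hlL : l ≤ LL := (Real.log_le_self hLL0.le)
  have hexpl : Real.exp l = LL := Real.exp_log hLL0
  have hz : z0 = 10000 := rfl
  have ha' : 10000 ≤ a := by omega
  have hQ1 := hQ X D a b t hX hD hDX ha hab ht1 ht2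
  have hE0 := hsum (primesIoc a b)
  set Q : ℂ := ∑ p ∈ primesIoc a b, mptq D t p with hQdef
  -- upper bound on the disc
  have hup : ∀ ζ : ℂ, ‖ζ‖ = 2 → ‖(mptP a b D t).eval ζ‖ ≤ Real.exp (2 * Λ + 4 * l + K) := by
    intro ζ hζ
    obtain ⟨E, hE1, hE2⟩ := mpt_prod D t a b ha' ζ hζ.le
    rw [hE2, Complex.norm_exp]
    apply Real.exp_le_exp.2
    refine (Complex.re_le_norm _).trans ?_
    have h1 : ‖-ζ * PSum a b D t‖ ≤ 2 * Λ := by
      rw [norm_mul, norm_neg, hζ]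
      linarith
    have h2 : ‖ζ ^ 2 * Q‖ ≤ 4 * (l + C5) := by
      rw [norm_mul, norm_pow, hζ]
      linarith
    have h3 := norm_add_le (-ζ * PSum a b D t + ζ ^ 2 * Q) E
    have h4 := norm_add_le (-ζ * PSum a b D t) (ζ ^ 2 * Q)
    linarith
  have htail := mpt_tail (mptP a b D t) (Real.exp_pos _).le hup m
  rw [← mpt_Mo'_eq (by omega) (by omega) D t] at htail
  -- size of the full product
  obtain ⟨E, hE1, hE2⟩ := mpt_prod D t a b ha' 1 (by norm_num)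
  have hw : ‖-1 * PSum a b D t + 1 ^ 2 * Q + E‖ ≤ Λ + l + K := by
    have h3 := norm_add_le (-1 * PSum a b D t + 1 ^ 2 * Q) E
    have h4 := norm_add_le (-1 * PSum a b D t) (1 ^ 2 * Q)
    have h5 : ‖-1 * PSum a b D t‖ ≤ Λ := by rw [norm_mul]; simpa using hP
    have h6 : ‖1 ^ 2 * Q‖ ≤ l + C5 := by rw [norm_mul]; simpa using hQ1
    linarith
  have hF1 : ‖(mptP a b D t).eval 1‖ ≤ Real.exp (Λ + l + K) := by
    rw [hE2, Complex.norm_exp]
    exact Real.exp_le_exp.2 ((Complex.re_le_norm _).trans hw)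
  have hF2 : Real.exp (-(Λ + l + K)) ≤ ‖(mptP a b D t).eval 1‖ := by
    rw [hE2, Complex.norm_exp]
    apply Real.exp_le_exp.2
    have h7 := Complex.abs_re_le_norm (-1 * PSum a b D t + 1 ^ 2 * Q + E)
    have h8 := neg_abs_le (-1 * PSum a b D t + 1 ^ 2 * Q + E).re
    linarith
  -- the tail is small
  have h2m : Real.exp ((m : ℝ) / 2) ≤ 2 ^ m := by
    have h9 : Real.exp ((m : ℝ) / 2) = (Real.exp (1 / 2)) ^ m := by
      rw [← Real.exp_nat_mul]
      congr 1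
      ring
    rw [h9]
    apply pow_le_pow_left₀ (Real.exp_pos _).le
    have h10 : Real.exp (1 / 2) ≤ Real.exp (Real.log 2) := by
      apply Real.exp_le_exp.2
      linarith [Real.log_two_gt_d9]
    rwa [Real.exp_log (by norm_num)] at h10
  have htail2 : Real.exp (2 * Λ + 4 * l + K) / 2 ^ m ≤ Real.exp (-(Λ + l + K)) / 2 := by
    rw [div_le_div_iff₀ (by positivity) (by norm_num)]
    calc Real.exp (2 * Λ + 4 * l + K) * 2 ≤ Real.exp (2 * Λ + 4 * l + K) * Real.exp 1 := by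
          apply mul_le_mul_of_nonneg_left _ (Real.exp_pos _).le
          linarith [Real.exp_one_gt_d9]
      _ = Real.exp (2 * Λ + 4 * l + K + 1) := by rw [← Real.exp_add]
      _ ≤ Real.exp (-(Λ + l + K) + (m : ℝ) / 2) := by
          apply Real.exp_le_exp.2
          have h11 : (18 + 4 * K) * LL ≤ m := by
            have h12 : 0 ≤ 2 * Real.exp K * LL := by positivity
            nlinarith
          nlinarith [mul_nonneg hK0 (sub_nonneg.2 hLL1)]
      _ = Real.exp (-(Λ + l + K)) * Real.exp ((m : ℝ) / 2) := by rw [← Real.exp_add]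
      _ ≤ Real.exp (-(Λ + l + K)) * 2 ^ m :=
          mul_le_mul_of_nonneg_left h2m (Real.exp_pos _).le
  have htail3 := htail.trans htail2
  rw [norm_sub_rev] at htail3
  have hlow : Real.exp (-(Λ + l + K)) / 2 ≤ ‖Mo' a b m D t‖ := by
    have h13 := norm_sub_norm_le ((mptP a b D t).eval 1) (Mo' a b m D t)
    rw [norm_sub_rev] at h13
    linarith
  have hupp : ‖Mo' a b m D t‖ ≤ 2 * Real.exp (Λ + l + K) := by
    have h14 := norm_sub_norm_le (Mo' a b m D t) ((mptP a b D t).eval 1)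
    have h15 : Real.exp (-(Λ + l + K)) ≤ Real.exp (Λ + l + K) :=
      Real.exp_le_exp.2 (by linarith)
    have h16 := Real.exp_pos (-(Λ + l + K))
    linarith
  set C : ℝ := 18 + 4 * K + 2 * Real.exp K with hC
  have hC1 : 1 ≤ C := by linarith
  have hC2 : 2 * Real.exp K ≤ C := by linarith
  have hLC : LL ≤ LL ^ C := by
    calc LL = LL ^ (1 : ℝ) := (Real.rpow_one _).symm
      _ ≤ LL ^ C := Real.rpow_le_rpow_of_exponent_le hLL1 hC1
  have hprod : 2 * Real.exp K * LL ≤ C * LL ^ C :=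
    mul_le_mul hC2 hLC hLL0.le (by linarith)
  constructor
  · refine le_trans ?_ hlow
    have h17 : Real.exp (-(Λ + l + K)) / 2 = Real.exp (-Λ) / (2 * Real.exp K * LL) := by
      rw [neg_add, neg_add, Real.exp_add, Real.exp_add, Real.exp_neg l, Real.exp_neg K, hexpl]
      field_simp
    rw [h17]
    exact div_le_div_of_nonneg_left (Real.exp_pos _).le (by positivity) hprod
  · refine hupp.trans ?_
    have h18 : 2 * Real.exp (Λ + l + K) = Real.exp Λ * (2 * Real.exp K * LL) := by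
      rw [Real.exp_add, Real.exp_add, hexpl]
      ring
    rw [h18]
    exact mul_le_mul_of_nonneg_left hprod (Real.exp_pos _).le

theorem Mo'_pointwise (T₁ T₂ : ℝ) (hT : 0 < T₁) : ∃ C : ℝ, ∀ (X : ℝ) (D : ℤ) (a b m : ℕ) (t Λ : ℝ),
    3 ≤ X → D ≠ 0 → |(D : ℝ)| ≤ X ^ 2 → z0 ≤ a → a ≤ b → (b : ℝ) ≤ X → T₁ ≤ t → t ≤ T₂ →
    C * Real.log (Real.log X + 3) ≤ m → 0 ≤ Λ → Λ ≤ Real.log (Real.log X + 3) →
    ‖PSum a b D t‖ ≤ Λ →
    Real.exp (-Λ) / (C * (Real.log (Real.log X + 3)) ^ C) ≤ ‖Mo' a b m D t‖ ∧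
    ‖Mo' a b m D t‖ ≤ Real.exp Λ * (C * (Real.log (Real.log X + 3)) ^ C) := by
  obtain ⟨C, _, h⟩ := mpt_main T₁ T₂ hT
  exact ⟨C, fun X D a b m t Λ h1 h2 h3 h4 h5 _ h7 h8 h9 h10 h11 h12 =>
    h X D a b m t Λ h1 h2 h3 h4 h5 h7 h8 h9 h10 h11 h12⟩

theorem mpt_ellInv_le (D : ℤ) {p : ℕ} (hp : p.Prime) (t : ℝ) : ‖ellInv D p t‖ ≤ 4 := by
  have hn : ‖npow p t‖ = 1 / p := npow_norm hp.pos t
  have hp0 : (0 : ℝ) < p := by exact_mod_cast hp.pos
  have hp1 : (1 : ℝ) ≤ p := by exact_mod_cast hp.one_lt.le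
  have hj : ‖((jacobiSym D p : ℤ) : ℂ)‖ ≤ 1 := by
    rw [Complex.norm_intCast]
    rcases jacobiSym.trichotomy D p with h | h | h <;> rw [h] <;> simp
  have h1 : ‖(bd D p : ℂ) * npow p t‖ ≤ 2 := by
    rw [norm_mul, hn, Complex.norm_intCast]
    have h3 : |(bd D p : ℝ)| ≤ 2 * Real.sqrt p :=
      (Pool.Agent.H5.abs_bd_le D p).trans (abs_c_prime hp)
    have h4 : Real.sqrt p ≤ p := by
      rw [Real.sqrt_le_left hp0.le]
      nlinarith
    calc |(bd D p : ℝ)| * (1 / p) ≤ 2 * (p : ℝ) * (1 / p) :=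
          mul_le_mul_of_nonneg_right (by linarith) (by positivity)
      _ = 2 := by field_simp
  have h2 : ‖((jacobiSym D p : ℤ) : ℂ) ^ 2 * p * npow p t ^ 2‖ ≤ 1 := by
    rw [norm_mul, norm_mul, norm_pow, norm_pow, hn, Complex.norm_natCast]
    calc ‖((jacobiSym D p : ℤ) : ℂ)‖ ^ 2 * (p : ℝ) * (1 / p) ^ 2
        ≤ 1 * (p : ℝ) * (1 / p) ^ 2 := by
          apply mul_le_mul_of_nonneg_right _ (by positivity)
          apply mul_le_mul_of_nonneg_right _ (by positivity)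
          exact pow_le_one₀ (norm_nonneg _) hj
      _ = 1 / (p : ℝ) := by field_simp
      _ ≤ 1 := by rw [div_le_one hp0]; exact hp1
  unfold ellInv
  refine (norm_add_le _ _).trans ?_
  have h5 := norm_sub_le (1 : ℂ) ((bd D p : ℂ) * npow p t)
  rw [norm_one] at h5
  linarith

theorem Mo_pointwise (T₁ T₂ : ℝ) (hT : 0 < T₁) : ∃ C : ℝ, ∀ (X : ℝ) (D : ℤ) (y m : ℕ) (t Λ : ℝ),
    3 ≤ X → D ≠ 0 → |(D : ℝ)| ≤ X ^ 2 → z0 ≤ y → (y : ℝ) ≤ X → T₁ ≤ t → t ≤ T₂ →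
    C * Real.log (Real.log X + 3) ≤ m → 0 ≤ Λ → Λ ≤ Real.log (Real.log X + 3) →
    ‖PSum z0 y D t‖ ≤ Λ →
    Real.exp (-Λ) / (C * (Real.log (Real.log X + 3)) ^ C) ≤ ‖Mo y m D t‖ ∧
    ‖Mo y m D t‖ ≤ Real.exp Λ * (C * (Real.log (Real.log X + 3)) ^ C) := by
  obtain ⟨C, hC1, h⟩ := mpt_main T₁ T₂ hT
  set c1 : ℝ := ∏ p ∈ primesIoc 0 z0, (1 - 1 / Real.sqrt p) ^ 2 with hc1
  set U : ℝ := ∏ p ∈ primesIoc 0 z0, (4 : ℝ) with hU
  have hc1pos : 0 < c1 := by
    rw [hc1]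
    apply Finset.prod_pos
    intro p hp
    obtain ⟨_, hpp, _⟩ := mem_primesIoc.1 hp
    have h1 : 1 < Real.sqrt p := by
      rw [Real.lt_sqrt (by norm_num)]
      have : (1 : ℝ) < p := by exact_mod_cast hpp.one_lt
      linarith
    have h2 : 1 / Real.sqrt p < 1 := by
      rw [div_lt_one (by linarith)]
      exact h1
    have h3 : 0 < 1 - 1 / Real.sqrt p := by linarith
    positivity
  have hU1 : 0 < U := by
    rw [hU]
    exact Finset.prod_pos fun _ _ => by norm_num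
  have hC0 : 0 < C := by linarith
  refine ⟨C * (1 + 1 / c1 + U), ?_⟩
  intro X D y m t Λ hX hD hDX hy hyX ht1 ht2 hm hΛ0 hΛ hP
  set C' : ℝ := C * (1 + 1 / c1 + U) with hC'
  have hLL1 : 1 ≤ Real.log (Real.log X + 3) := mpt_LL hX
  set LL : ℝ := Real.log (Real.log X + 3) with hLL
  have hCC : C ≤ C' := by
    rw [hC']
    have : 0 < 1 / c1 := by positivity
    nlinarith
  have hCc : C / c1 ≤ C' := by
    rw [hC', div_eq_mul_one_div]
    apply mul_le_mul_of_nonneg_left _ hC0.le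
    linarith
  have hCU : C * U ≤ C' := by
    rw [hC']
    apply mul_le_mul_of_nonneg_left _ hC0.le
    have : 0 < 1 / c1 := by positivity
    linarith
  have hLL' : LL ^ C ≤ LL ^ C' := Real.rpow_le_rpow_of_exponent_le hLL1 hCC
  have hLLC : 0 < LL ^ C := Real.rpow_pos_of_pos (by linarith) _
  have hm' : C * LL ≤ m := by
    refine le_trans ?_ hm
    exact mul_le_mul_of_nonneg_right hCC (by linarith)
  obtain ⟨h1, h2⟩ := h X D z0 y m t Λ hX hD hDX le_rfl hy ht1 ht2 hm' hΛ0 hΛ hP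
  have hlow : c1 ≤ ‖∏ p ∈ primesIoc 0 z0, ellInv D p t‖ := by
    rw [norm_prod, hc1]
    apply Finset.prod_le_prod
    · intro p _; positivity
    · intro p hp
      obtain ⟨_, hpp, hp2⟩ := mem_primesIoc.1 hp
      exact ellInv_norm_ge hpp hp2 t
  have hupp : ‖∏ p ∈ primesIoc 0 z0, ellInv D p t‖ ≤ U := by
    rw [norm_prod, hU]
    apply Finset.prod_le_prod
    · intro p _; positivity
    · intro p hp
      obtain ⟨_, hpp, hp2⟩ := mem_primesIoc.1 hp
      exact mpt_ellInv_le D hpp t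
  unfold Mo
  rw [norm_mul]
  constructor
  · calc Real.exp (-Λ) / (C' * LL ^ C') ≤ Real.exp (-Λ) / (C / c1 * LL ^ C) := by
          apply div_le_div_of_nonneg_left (Real.exp_pos _).le (by positivity)
          exact mul_le_mul hCc hLL' hLLC.le (by positivity)
      _ = c1 * (Real.exp (-Λ) / (C * LL ^ C)) := by field_simp
      _ ≤ ‖∏ p ∈ primesIoc 0 z0, ellInv D p t‖ * ‖Mo' z0 y m D t‖ :=
          mul_le_mul hlow h1 (by positivity) (norm_nonneg _)
  · calc ‖∏ p ∈ primesIoc 0 z0, ellInv D p t‖ * ‖Mo' z0 y m D t‖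
        ≤ U * (Real.exp Λ * (C * LL ^ C)) := mul_le_mul hupp h2 (norm_nonneg _) hU1.le
      _ = Real.exp Λ * (C * U * LL ^ C) := by ring
      _ ≤ Real.exp Λ * (C' * LL ^ C') := by
          apply mul_le_mul_of_nonneg_left _ (Real.exp_pos _).le
          exact mul_le_mul hCU hLL' hLLC.le (by positivity)

end Pool.Agent.CZ
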