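import Mathlib
import Pool.Agent.CZ.CPL
import Pool.Agent.CZ.MOM

/-! Project CZ, module PMO: even moments of the prime sums over the family. -/

set_option autoImplicit false

open Complex Finset MeasureTheory

namespace Pool.Agent.CZ

theorem PSum_moment : ∃ X₀ : ℝ, ∀ (X : ℝ) (a b k : ℕ) (t : ℝ), X₀ ≤ X → 1 ≤ k →
    ((b : ℝ) ^ k) ^ 4 ≤ X →
    ED X (fun D => ‖PSum a b D t‖ ^ (2 * k)) ≤
      3 * (2 * k * ∑ p ∈ primesIoc a b, lam2 p / p) ^ k + 1 / X := by
  obtain ⟨X₀, hX₀⟩ := CP_ED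
  refine ⟨max X₀ 1, fun X a b k t hX hk hb => ?_⟩
  have hX1 : 1 ≤ X := le_trans (le_max_right _ _) hX
  have hX0 : X₀ ≤ X := le_trans (le_max_left _ _) hX
  have hS : 0 ≤ ∑ p ∈ primesIoc a b, lam2 p / p :=
    Finset.sum_nonneg (fun p _ => by unfold lam2; positivity)
  have hpos : 0 ≤ (2 * k * ∑ p ∈ primesIoc a b, lam2 p / p : ℝ) ^ k := by positivity
  rcases Nat.eq_zero_or_pos b with rfl | hb1
  · have h0 : (fun D : ℤ => ‖PSum a 0 D t‖ ^ (2 * k)) = fun _ => (0 : ℝ) := by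
      funext D
      have h1 : primesIoc a 0 = ∅ := by simp [primesIoc]
      have h2 : 2 * k ≠ 0 := by omega
      simp [PSum, h1]
      omega
    rw [h0]
    have h3 : ED X (fun _ => (0 : ℝ)) = 0 := by simp [ED]
    rw [h3]
    positivity
  · have hcp := CP_pow (N := b) hb1 (CP_PSum (a := a) hb1 t) k
    have hbk : b ≤ b ^ k := Nat.le_self_pow (by omega) b
    have h1 := hX₀ X ((b : ℝ) ^ k) (b ^ k) (b ^ k) (fun D => PSum a b D t ^ k) hX0
      (by push_cast; exact hb) le_rfl hcp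
    have h2 := PSum_RR (a := a) hbk hk t
    have h3 : (fun D : ℤ => ‖PSum a b D t ^ k‖ ^ 2) = fun D => ‖PSum a b D t‖ ^ (2 * k) := by
      funext D
      rw [norm_pow, ← pow_mul, mul_comm k 2]
    rw [h3] at h1
    have h4 := (abs_le.mp h1).2
    have h5 : Real.exp (-X) * (((b : ℝ) ^ k)) ^ 2 ≤ 1 / X := by
      have hb2 : (((b : ℝ) ^ k)) ^ 2 ≤ X := by
        have h6 : (1 : ℝ) ≤ (b : ℝ) ^ k := one_le_pow₀ (by exact_mod_cast hb1)
        calc (((b : ℝ) ^ k)) ^ 2 ≤ (((b : ℝ) ^ k)) ^ 4 := pow_le_pow_right₀ h6 (by norm_num)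
          _ ≤ X := hb
      have h7 : X ^ 2 ≤ Real.exp X := by
        have h8 := Real.quadratic_le_exp_of_nonneg (x := X / 2) (by linarith)
        have h9 : Real.exp X = (Real.exp (X / 2)) ^ 2 := by
          rw [← Real.exp_nat_mul]; congr 1; push_cast; ring
        rw [h9]
        have h10 : X ≤ Real.exp (X / 2) := by nlinarith [sq_nonneg (X / 2 - 1)]
        exact pow_le_pow_left₀ (by linarith) h10 2
      have h8 : Real.exp (-X) * X ^ 2 ≤ 1 := by
        rw [Real.exp_neg]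
        rw [inv_mul_le_iff₀ (Real.exp_pos X)]
        linarith
      rw [le_div_iff₀ (by linarith)]
      calc Real.exp (-X) * (((b : ℝ) ^ k)) ^ 2 * X ≤ Real.exp (-X) * X * X := by
            gcongr
        _ = Real.exp (-X) * X ^ 2 := by ring
        _ ≤ 1 := h8
    linarith

end Pool.Agent.CZ
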