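import Mathlib
import Pool.Agent.CZ.Defs
import Pool.Agent.CZ.CPL
import Pool.Agent.CZ.EDL
import Pool.Agent.CZ.MOM
import Pool.Agent.CZ.MPT
import Pool.Agent.CZ.PMO
import Pool.Agent.CZ.PS
import Pool.Agent.CZ.SUMS

/-!
# Critical zeros (MP_553913_nt): tails of the test function (module TTT)
-/

set_option autoImplicit false

open Complex Finset MeasureTheory

namespace Pool.Agent.CZ


theorem TTT_logs {X : ℝ} (hX : 3 ≤ X) : 1 ≤ Real.log X ∧ 1 ≤ Real.log (Real.log X + 3) := by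
  have h1 : 1 ≤ Real.log X := by
    rw [Real.le_log_iff_exp_le (by linarith)]
    have := Real.exp_one_lt_d9
    linarith
  refine ⟨h1, ?_⟩
  rw [Real.le_log_iff_exp_le (by linarith)]
  have := Real.exp_one_lt_d9
  linarith

theorem TTT_ED_mono {X : ℝ} (hX : 1 ≤ X) {f g : ℤ → ℝ} {B B' : ℝ} (hf : ∀ D, |f D| ≤ B)
    (hg : ∀ D, |g D| ≤ B') (h : ∀ D, f D ≤ g D) : ED X f ≤ ED X g := by
  unfold ED
  refine div_le_div_of_nonneg_right ?_ (by linarith)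
  exact Summable.tsum_le_tsum (fun D => mul_le_mul_of_nonneg_left (h D) (Real.exp_nonneg _))
    (ED_summable hX hf) (ED_summable hX hg)

theorem TTT_ED_add {X : ℝ} (hX : 1 ≤ X) {f g : ℤ → ℝ} {B B' : ℝ} (hf : ∀ D, |f D| ≤ B)
    (hg : ∀ D, |g D| ≤ B') : ED X (fun D => f D + g D) = ED X f + ED X g := by
  unfold ED
  rw [← add_div, ← (ED_summable hX hf).tsum_add (ED_summable hX hg)]
  simp only [mul_add]

theorem TTT_ED_mul (X c : ℝ) (f : ℤ → ℝ) : ED X (fun D => c * f D) = c * ED X f := by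
  unfold ED
  rw [← mul_div_assoc, ← tsum_mul_left]
  congr 1
  exact tsum_congr fun D => by ring

/-- the terms `D = 0` and `|D| > X²` are negligible -/
theorem TTT_ED_ind {X : ℝ} (hX : 1 ≤ X) :
    ED X (fun D => if D = 0 ∨ X ^ 2 < |(D : ℝ)| then 1 else 0) ≤ 18 / X := by
  have hX0 : 0 < X := by linarith
  have hs2 : Real.sqrt 2 ^ 2 = 2 := Real.sq_sqrt (by norm_num)
  have hs0 : 0 ≤ Real.sqrt 2 := Real.sqrt_nonneg 2
  have hs1 : 1 ≤ Real.sqrt 2 := by nlinarith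
  have hs3 : Real.sqrt 2 ≤ 3 / 2 := by nlinarith
  have hX' : 1 ≤ Real.sqrt 2 * X := by nlinarith
  have hsum := ED_summable hX' (f := fun _ => 1) (B := 1) (fun D => by simp)
  have hone := ED_one hX'
  simp only [ED, mul_one] at hone hsum
  rw [div_le_iff₀ (by positivity)] at hone
  have h8 : ∀ D : ℤ, Real.exp (-(Real.pi * (D : ℝ) ^ 2 / (2 * (Real.sqrt 2 * X)) ^ 2)) =
      Real.exp (-(Real.pi * (D : ℝ) ^ 2 / (8 * X ^ 2))) := by
    intro D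
    have : (2 * (Real.sqrt 2 * X)) ^ 2 = 8 * X ^ 2 := by
      rw [mul_pow, mul_pow, hs2]; ring
    rw [this]
  simp only [h8] at hone hsum
  have hexp : Real.exp (-(Real.pi * X ^ 2 / 8)) ≤ 8 / (3 * X ^ 2) := by
    rw [Real.exp_neg, inv_le_comm₀ (Real.exp_pos _) (by positivity), inv_div]
    have h1 := Real.add_one_le_exp (Real.pi * X ^ 2 / 8)
    have h2 : 3 * X ^ 2 / 8 ≤ Real.pi * X ^ 2 / 8 := by
      have := Real.pi_gt_three
      have : 3 * X ^ 2 ≤ Real.pi * X ^ 2 := mul_le_mul_of_nonneg_right this.le (by positivity)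
      linarith
    linarith
  have hpt : ∀ D : ℤ, Real.exp (-(Real.pi * (D : ℝ) ^ 2 / (2 * X) ^ 2)) *
      (if D = 0 ∨ X ^ 2 < |(D : ℝ)| then 1 else 0) ≤
      (if D = 0 then 1 else 0) + Real.exp (-(Real.pi * X ^ 2 / 8)) *
        Real.exp (-(Real.pi * (D : ℝ) ^ 2 / (8 * X ^ 2))) := by
    intro D
    by_cases hD : D = 0
    · subst hD
      simp only [true_or, if_true, mul_one]
      have h1 : Real.exp (-(Real.pi * ((0 : ℤ) : ℝ) ^ 2 / (2 * X) ^ 2)) = 1 := by simp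
      rw [h1]
      have := mul_pos (Real.exp_pos (-(Real.pi * X ^ 2 / 8)))
        (Real.exp_pos (-(Real.pi * ((0 : ℤ) : ℝ) ^ 2 / (8 * X ^ 2))))
      linarith
    · simp only [hD, false_or, if_false, zero_add]
      split_ifs with h
      · rw [mul_one, ← Real.exp_add]
        apply Real.exp_le_exp.2
        have h1 : (X ^ 2) ^ 2 ≤ (D : ℝ) ^ 2 := by
          rw [← sq_abs (D : ℝ)]
          exact pow_le_pow_left₀ (by positivity) h.le 2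
        have h2 : Real.pi * X ^ 2 / 8 ≤ Real.pi * (D : ℝ) ^ 2 / (8 * X ^ 2) := by
          rw [div_le_div_iff₀ (by norm_num) (by positivity)]
          have := mul_le_mul_of_nonneg_left h1 Real.pi_pos.le
          nlinarith
        have h3 : Real.pi * (D : ℝ) ^ 2 / (2 * X) ^ 2 =
            Real.pi * (D : ℝ) ^ 2 / (8 * X ^ 2) + Real.pi * (D : ℝ) ^ 2 / (8 * X ^ 2) := by
          field_simp
          ring
        rw [h3]
        linarith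
      · rw [mul_zero]
        positivity
  have hs1' : Summable (fun D : ℤ => if D = 0 then (1 : ℝ) else 0) :=
    summable_of_ne_finset_zero (s := {0}) (fun D hD => by
      have : D ≠ 0 := by simpa using hD
      simp [this])
  have hs4 : Summable (fun D : ℤ => (if D = 0 then (1 : ℝ) else 0) +
      Real.exp (-(Real.pi * X ^ 2 / 8)) *
        Real.exp (-(Real.pi * (D : ℝ) ^ 2 / (8 * X ^ 2)))) := hs1'.add (hsum.mul_left _)
  have hs5 : Summable (fun D : ℤ => Real.exp (-(Real.pi * (D : ℝ) ^ 2 / (2 * X) ^ 2)) *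
      (if D = 0 ∨ X ^ 2 < |(D : ℝ)| then (1 : ℝ) else 0)) :=
    ED_summable hX (B := 1) (fun D => by split_ifs <;> simp)
  unfold ED
  refine div_le_div_of_nonneg_right ?_ hX0.le
  refine (hs5.tsum_le_tsum hpt hs4).trans ?_
  rw [hs1'.tsum_add (hsum.mul_left _), tsum_mul_left, tsum_ite_eq]
  have h1 : Real.exp (-(Real.pi * X ^ 2 / 8)) *
      ∑' D : ℤ, Real.exp (-(Real.pi * (D : ℝ) ^ 2 / (8 * X ^ 2))) ≤
      8 / (3 * X ^ 2) * (4 * (Real.sqrt 2 * X)) :=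
    mul_le_mul hexp hone (tsum_nonneg fun D => (Real.exp_pos _).le) (by positivity)
  have h2 : 8 / (3 * X ^ 2) * (4 * (Real.sqrt 2 * X)) ≤ 16 := by
    rw [div_mul_eq_mul_div, div_le_iff₀ (by positivity)]
    nlinarith
  linarith

theorem TTT_pow_log (A : ℕ) : ∃ C : ℝ, 1 ≤ C ∧ ∀ X : ℝ, 1 ≤ X → (Real.log X) ^ A ≤ C * Real.sqrt X := by
  refine ⟨2 ^ A * A.factorial, ?_, fun X hX => ?_⟩
  · have h1 : (1 : ℝ) ≤ 2 ^ A := one_le_pow₀ (by norm_num)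
    have h2 : (1 : ℝ) ≤ A.factorial := by exact_mod_cast Nat.one_le_iff_ne_zero.2 A.factorial_ne_zero
    nlinarith
  · have h0 : 0 ≤ Real.log X := Real.log_nonneg hX
    have h1 := Real.pow_div_factorial_le_exp (Real.log X / 2) (by linarith) A
    have h2 : Real.exp (Real.log X / 2) = Real.sqrt X := by
      rw [Real.exp_half, Real.exp_log (by linarith)]
    rw [h2, div_le_iff₀ (by positivity)] at h1
    calc (Real.log X) ^ A = 2 ^ A * (Real.log X / 2) ^ A := by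
          rw [← mul_pow]; congr 1; ring
      _ ≤ 2 ^ A * (Real.sqrt X * A.factorial) := by gcongr
      _ = _ := by ring

/-- the truncated exponential is bounded by `2` where `|θ| ≤ m / 6` -/
theorem TTT_gT_le {z y m : ℕ} {D : ℤ} {t : ℝ} (h : |theta z y D t| ≤ m / 6) :
    ‖gT z y m D t‖ ≤ 2 := by
  set θ := theta z y D t with hθ
  set x : ℂ := -(I * θ) with hx
  have hxn : ‖x‖ = |θ| := by
    rw [hx, norm_neg, norm_mul, Complex.norm_I, one_mul, Complex.norm_real, Real.norm_eq_abs]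
  have h1 : ‖exp x‖ = 1 := by
    have : x = ((-θ : ℝ) : ℂ) * I := by rw [hx]; push_cast; ring
    rw [this, Complex.norm_exp_ofReal_mul_I]
  have hm : (0 : ℝ) ≤ m := Nat.cast_nonneg m
  have h2 : ‖x‖ / ((m + 1).succ : ℕ) ≤ 1 / 2 := by
    rw [div_le_iff₀ (by positivity), hxn]
    push_cast
    linarith
  have h3 := Complex.exp_bound' h2
  have h4 : ‖x‖ ^ (m + 1) / ((m + 1).factorial : ℝ) ≤ 1 / 3 := by
    have h5 := Real.pow_div_factorial_le_exp ((m : ℝ) / 2) (by positivity) (m + 1)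
    have h6 : Real.exp ((m : ℝ) / 2) ≤ 3 ^ m := by
      have h7 : Real.exp ((m : ℝ) / 2) = Real.exp (1 / 2) ^ m := by
        rw [← Real.exp_nat_mul]; congr 1; ring
      rw [h7]
      refine pow_le_pow_left₀ (Real.exp_pos _).le ?_ m
      have h8 : Real.exp (1 / 2) ≤ Real.exp 1 := Real.exp_le_exp.2 (by norm_num)
      have := Real.exp_one_lt_d9
      linarith
    have h7 : ‖x‖ ^ (m + 1) ≤ ((m : ℝ) / 2) ^ (m + 1) / 3 ^ (m + 1) := by
      rw [← div_pow]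
      refine pow_le_pow_left₀ (norm_nonneg _) ?_ _
      rw [hxn]
      linarith
    have h8 : (0 : ℝ) < 3 ^ (m + 1) := by positivity
    have h9 : (0 : ℝ) < ((m + 1).factorial : ℝ) := by positivity
    calc ‖x‖ ^ (m + 1) / ((m + 1).factorial : ℝ) ≤
          ((m : ℝ) / 2) ^ (m + 1) / 3 ^ (m + 1) / ((m + 1).factorial : ℝ) :=
          div_le_div_of_nonneg_right h7 h9.le
      _ = ((m : ℝ) / 2) ^ (m + 1) / ((m + 1).factorial : ℝ) / 3 ^ (m + 1) := by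
          rw [div_right_comm]
      _ ≤ 3 ^ m / 3 ^ (m + 1) := div_le_div_of_nonneg_right (h5.trans h6) h8.le
      _ = 1 / 3 := by
          rw [pow_succ]; field_simp
  have h5 : gT z y m D t = exp x - (exp x - ∑ j ∈ range (m + 1), x ^ j / (j.factorial : ℂ)) := by
    rw [sub_sub_cancel]
    rfl
  rw [h5]
  refine (norm_sub_le _ _).trans ?_
  rw [h1]
  have : ‖exp x - ∑ j ∈ range (m + 1), x ^ j / (j.factorial : ℂ)‖ ≤ 1 / 3 * 2 :=
    h3.trans (mul_le_mul_of_nonneg_right h4 (by norm_num))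
  linarith

/-- length and size of the test function as a character polynomial -/
theorem TTT_CP {z₁ z y m : ℕ} (h1 : z0 ≤ z₁) (h2 : z₁ ≤ z) (h3 : z ≤ y) (t : ℝ) :
    CP (z ^ m * y ^ m) ((z : ℝ) ^ m * (3 * (y : ℝ) ^ m)) (fun D => Mo' z₁ z m D t * gT z y m D t) := by
  have hz0 : z0 = 10000 := rfl
  exact CP_mul (CP_Mo' h1 h2 t) (CP_gT (by omega) t)

/-- `y ^ (8 m)` and powers -/
theorem TTT_pow_le {X : ℝ} {y m n : ℕ} (hy : 1 ≤ y) (h : ((y : ℝ) ^ (8 * m)) ^ 4 ≤ X)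
    (hn : n ≤ 32 * m) : (y : ℝ) ^ n ≤ X := by
  have hy' : (1 : ℝ) ≤ y := by exact_mod_cast hy
  refine le_trans ?_ h
  rw [← pow_mul]
  exact pow_le_pow_right₀ hy' (by omega)

theorem TTT_RR_mono {P : ℕ} {f g : ℤ → ℝ} (h : ∀ D, f D ≤ g D) : RR P f ≤ RR P g := by
  unfold RR
  exact div_le_div_of_nonneg_right (sum_le_sum fun D _ => h D) (Nat.cast_nonneg _)

theorem TTT_RR_add {P : ℕ} {f g : ℤ → ℝ} : RR P (fun D => f D + g D) = RR P f + RR P g := by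
  unfold RR
  rw [sum_add_distrib, add_div]

/-- moments of the test function -/
theorem TTT_moment (j : ℕ) (hj : 1 ≤ j) (hj2 : j ≤ 2) : ∃ n : ℕ, 1 ≤ n ∧
    ∀ (X t : ℝ) (z₁ z y m : ℕ), (n : ℝ) ≤ X → 3 ≤ X → z0 ≤ z₁ → z₁ ≤ z → z ≤ y →
    (n : ℝ) * Real.log (Real.log X + 3) ≤ m → ((y : ℝ) ^ (8 * m)) ^ 4 ≤ X →
    ED X (fun D => ‖Mo' z₁ z m D t * gT z y m D t‖ ^ (2 * j)) ≤ n * (Real.log X) ^ n := by
  obtain ⟨C₁, hC₁⟩ := Mo'_trunc (4 * j) 0 (by omega)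
  obtain ⟨C₂, hC₂⟩ := gT_trunc (4 * j) 0 (by omega)
  obtain ⟨X₀, hX₀⟩ := CP_ED
  set n : ℕ := ⌈|C₁| + |C₂| + |X₀| + 9 ^ j⌉₊ with hn
  have hn1 : |C₁| + |C₂| + |X₀| + 9 ^ j ≤ n := Nat.le_ceil _
  have a1 := abs_nonneg C₁
  have a2 := abs_nonneg C₂
  have a3 := abs_nonneg X₀
  have b1 := le_abs_self C₁
  have b2 := le_abs_self C₂
  have b3 := le_abs_self X₀
  have a4 : (1 : ℝ) ≤ 9 ^ j := one_le_pow₀ (by norm_num)
  have hn0 : (1 : ℝ) ≤ n := by linarith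
  refine ⟨n, by exact_mod_cast hn0, ?_⟩
  intro X t z₁ z y m hXn hX3 h1 h2 h3 hm hyX
  obtain ⟨hL, hLL⟩ := TTT_logs hX3
  have hz0 : z0 = 10000 := rfl
  have hy1 : 1 ≤ y := by omega
  have hm1 : 1 ≤ m := by
    have : (1 : ℝ) ≤ m := by nlinarith
    exact_mod_cast this
  have hyy : (y : ℝ) ≤ X := by
    have := TTT_pow_le hy1 hyX (n := 1) (by omega)
    simpa using this
  have hzy : (z : ℝ) ≤ y := by exact_mod_cast h3
  have hzpos : 0 < z := by omega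
  have hypos : 0 < y := by omega
  have hcp := CP_pow (Nat.mul_pos (pow_pos hzpos m) (pow_pos hypos m)) (TTT_CP (m := m) h1 h2 h3 t) j
  set P : ℕ := (z ^ m * y ^ m) ^ j + y with hP
  have hB : ((z : ℝ) ^ m * (3 * (y : ℝ) ^ m)) ≤ 3 * (y : ℝ) ^ (2 * m) := by
    have : (z : ℝ) ^ m ≤ (y : ℝ) ^ m := pow_le_pow_left₀ (by positivity) hzy m
    calc ((z : ℝ) ^ m * (3 * (y : ℝ) ^ m)) ≤ (y : ℝ) ^ m * (3 * (y : ℝ) ^ m) := by gcongr
      _ = 3 * (y : ℝ) ^ (2 * m) := by rw [two_mul, pow_add]; ring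
  have hN4 : (((z ^ m * y ^ m) ^ j : ℕ) : ℝ) ^ 4 ≤ X := by
    have : ((z : ℝ) ^ m * (y : ℝ) ^ m) ≤ (y : ℝ) ^ (2 * m) := by
      have : (z : ℝ) ^ m ≤ (y : ℝ) ^ m := pow_le_pow_left₀ (by positivity) hzy m
      calc ((z : ℝ) ^ m * (y : ℝ) ^ m) ≤ (y : ℝ) ^ m * (y : ℝ) ^ m := by gcongr
        _ = (y : ℝ) ^ (2 * m) := by rw [two_mul, pow_add]
    push_cast
    calc (((z : ℝ) ^ m * (y : ℝ) ^ m) ^ j) ^ 4 ≤ (((y : ℝ) ^ (2 * m)) ^ j) ^ 4 := by gcongr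
      _ = (y : ℝ) ^ (2 * m * j * 4) := by rw [← pow_mul, ← pow_mul]; congr 1; ring
      _ ≤ X := TTT_pow_le hy1 hyX (by nlinarith)
  have hed := hX₀ X (((z : ℝ) ^ m * (3 * (y : ℝ) ^ m)) ^ j) ((z ^ m * y ^ m) ^ j) P _ (by linarith)
    hN4 (by omega) hcp
  have hB2 : Real.exp (-X) * (((z : ℝ) ^ m * (3 * (y : ℝ) ^ m)) ^ j) ^ 2 ≤ 9 ^ j := by
    have e1 : (((z : ℝ) ^ m * (3 * (y : ℝ) ^ m)) ^ j) ^ 2 ≤ 9 ^ j * X := by
      calc (((z : ℝ) ^ m * (3 * (y : ℝ) ^ m)) ^ j) ^ 2 ≤ ((3 * (y : ℝ) ^ (2 * m)) ^ j) ^ 2 := by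
            gcongr
        _ = 9 ^ j * (y : ℝ) ^ (2 * m * j * 2) := by
            rw [mul_pow, mul_pow, ← pow_mul, ← pow_mul, ← pow_mul, mul_comm j 2, pow_mul]
            norm_num
            congr 1
            ring
        _ ≤ 9 ^ j * X := by
            gcongr
            exact TTT_pow_le hy1 hyX (by nlinarith)
    have e2 : Real.exp (-X) * X ≤ 1 := by
      rw [Real.exp_neg, inv_mul_le_iff₀ (Real.exp_pos _)]
      have := Real.add_one_le_exp X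
      linarith
    calc Real.exp (-X) * (((z : ℝ) ^ m * (3 * (y : ℝ) ^ m)) ^ j) ^ 2 ≤
          Real.exp (-X) * (9 ^ j * X) := by gcongr
      _ = 9 ^ j * (Real.exp (-X) * X) := by ring
      _ ≤ 9 ^ j * 1 := by gcongr
      _ = 9 ^ j := by ring
  have hconv : ∀ D : ℤ, ‖(Mo' z₁ z m D t * gT z y m D t) ^ j‖ ^ 2 =
      ‖Mo' z₁ z m D t * gT z y m D t‖ ^ (2 * j) := by
    intro D
    rw [norm_pow, ← pow_mul, mul_comm j 2]
  simp only [hconv] at hed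
  have hrr : RR P (fun D => ‖Mo' z₁ z m D t * gT z y m D t‖ ^ (2 * j)) * 2 ≤
      (C₁ * (Real.log X) ^ C₁) + (C₂ * (Real.log X) ^ C₂) := by
    have hzz : 3 ≤ X := hX3
    have e1 := (hC₁ X z₁ z m P t hX3 h1 h2 (by omega) (hzy.trans hyy) (by nlinarith)).2
    have e2 := (hC₂ X z y m P t hX3 (by omega) hyy (by nlinarith)).2
    have e3 : RR P (fun D => ‖Mo' z₁ z m D t * gT z y m D t‖ ^ (2 * j)) ≤
        RR P (fun D => (1 / 2) * ‖Mo' z₁ z m D t‖ ^ (4 * j) + (1 / 2) * ‖gT z y m D t‖ ^ (4 * j)) := by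
      refine TTT_RR_mono fun D => ?_
      rw [norm_mul, mul_pow]
      have e4 : ‖Mo' z₁ z m D t‖ ^ (4 * j) = (‖Mo' z₁ z m D t‖ ^ (2 * j)) ^ 2 := by
        rw [← pow_mul]; congr 1; ring
      have e5 : ‖gT z y m D t‖ ^ (4 * j) = (‖gT z y m D t‖ ^ (2 * j)) ^ 2 := by
        rw [← pow_mul]; congr 1; ring
      rw [e4, e5]
      nlinarith [sq_nonneg (‖Mo' z₁ z m D t‖ ^ (2 * j) - ‖gT z y m D t‖ ^ (2 * j))]
    have e6 : RR P (fun D => (1 / 2) * ‖Mo' z₁ z m D t‖ ^ (4 * j) +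
        (1 / 2) * ‖gT z y m D t‖ ^ (4 * j)) =
        (1 / 2) * RR P (fun D => ‖Mo' z₁ z m D t‖ ^ (4 * j)) +
          (1 / 2) * RR P (fun D => ‖gT z y m D t‖ ^ (4 * j)) := by
      unfold RR
      rw [sum_add_distrib, ← mul_sum, ← mul_sum]
      ring
    rw [e6] at e3
    linarith
  have f1 : C₁ * (Real.log X) ^ C₁ ≤ |C₁| * (Real.log X) ^ n := by
    rw [← Real.rpow_natCast]
    have g1 : (Real.log X) ^ C₁ ≤ (Real.log X) ^ (n : ℝ) :=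
      Real.rpow_le_rpow_of_exponent_le hL (by linarith)
    have g2 : 0 < (Real.log X) ^ C₁ := Real.rpow_pos_of_pos (by linarith) _
    calc C₁ * (Real.log X) ^ C₁ ≤ |C₁| * (Real.log X) ^ C₁ :=
          mul_le_mul_of_nonneg_right b1 g2.le
      _ ≤ _ := mul_le_mul_of_nonneg_left g1 a1
  have f2 : C₂ * (Real.log X) ^ C₂ ≤ |C₂| * (Real.log X) ^ n := by
    rw [← Real.rpow_natCast]
    have g1 : (Real.log X) ^ C₂ ≤ (Real.log X) ^ (n : ℝ) :=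
      Real.rpow_le_rpow_of_exponent_le hL (by linarith)
    have g2 : 0 < (Real.log X) ^ C₂ := Real.rpow_pos_of_pos (by linarith) _
    calc C₂ * (Real.log X) ^ C₂ ≤ |C₂| * (Real.log X) ^ C₂ :=
          mul_le_mul_of_nonneg_right b2 g2.le
      _ ≤ _ := mul_le_mul_of_nonneg_left g1 a2
  have f3 : (1 : ℝ) ≤ (Real.log X) ^ n := one_le_pow₀ hL
  have f4 : (9 : ℝ) ^ j ≤ 9 ^ j * (Real.log X) ^ n := by nlinarith
  have f5 := (abs_le.1 hed).2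
  have f6 : |X₀| * (Real.log X) ^ n ≥ 0 := by positivity
  calc ED X (fun D => ‖Mo' z₁ z m D t * gT z y m D t‖ ^ (2 * j)) ≤
        |C₁| * (Real.log X) ^ n + |C₂| * (Real.log X) ^ n + 9 ^ j * (Real.log X) ^ n := by
        linarith
    _ ≤ (|C₁| + |C₂| + |X₀| + 9 ^ j) * (Real.log X) ^ n := by linarith
    _ ≤ n * (Real.log X) ^ n := mul_le_mul_of_nonneg_right hn1 (by positivity)

theorem TT_crude : ∃ C : ℝ, ∀ (X t : ℝ) (z₁ z y m : ℕ), C ≤ X → z0 ≤ z₁ → z₁ ≤ z → z ≤ y →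
    C * Real.log (Real.log X + 3) ≤ m → ((y : ℝ) ^ (8 * m)) ^ 4 ≤ X →
    ED X (fun D => ‖Mo' z₁ z m D t * gT z y m D t‖ ^ 2) ≤ C * (Real.log X) ^ C := by
  obtain ⟨n, hn1, hn⟩ := TTT_moment 1 le_rfl (by norm_num)
  refine ⟨n + 3, fun X t z₁ z y m hX h1 h2 h3 hm hy => ?_⟩
  have hn0 : (0 : ℝ) ≤ n := Nat.cast_nonneg n
  obtain ⟨hL, hLL⟩ := TTT_logs (X := X) (by linarith)
  refine (hn X t z₁ z y m (by linarith) (by linarith) h1 h2 h3 (by nlinarith) hy).trans ?_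
  have g1 : (Real.log X) ^ (n : ℝ) ≤ (Real.log X) ^ ((n : ℝ) + 3) :=
    Real.rpow_le_rpow_of_exponent_le hL (by linarith)
  rw [← Real.rpow_natCast]
  have g2 : 0 < (Real.log X) ^ (n : ℝ) := Real.rpow_pos_of_pos (by linarith) _
  calc (n : ℝ) * (Real.log X) ^ (n : ℝ) ≤ (n + 3) * (Real.log X) ^ (n : ℝ) := by nlinarith
    _ ≤ _ := mul_le_mul_of_nonneg_left g1 (by positivity)

/-- Markov factor: a moment of order `2 k` divided by the threshold -/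
theorem TTT_markov {X S T e : ℝ} {k : ℕ} {M : ℝ} (hX : 1 ≤ X) (hT : 1 ≤ T ^ 2)
    (hS : 0 ≤ S) (hM : M ≤ 3 * (2 * k * S) ^ k + 1 / X) (hV : 2 * k * S ≤ Real.exp (-1) * T ^ 2)
    (hk : e ≤ k) : (T ^ (2 * k))⁻¹ * M ≤ 3 * Real.exp (-e) + 1 / X := by
  have hT0 : 0 < T ^ 2 := by linarith
  have hTk : (1 : ℝ) ≤ T ^ (2 * k) := by
    rw [pow_mul]; exact one_le_pow₀ hT
  have hTk0 : 0 < T ^ (2 * k) := by linarith
  rw [inv_mul_le_iff₀ hTk0]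
  have h1 : (2 * k * S) ^ k ≤ Real.exp (-e) * T ^ (2 * k) := by
    calc (2 * k * S) ^ k ≤ (Real.exp (-1) * T ^ 2) ^ k :=
          pow_le_pow_left₀ (by positivity) hV k
      _ = Real.exp (-(k : ℝ)) * T ^ (2 * k) := by
          rw [mul_pow, ← Real.exp_nat_mul, pow_mul]
          congr 2
          ring
      _ ≤ Real.exp (-e) * T ^ (2 * k) := by
          apply mul_le_mul_of_nonneg_right _ hTk0.le
          exact Real.exp_le_exp.2 (by linarith)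
  have h2 : 1 / X ≤ 1 / X * T ^ (2 * k) := by
    have : 0 ≤ 1 / X := by positivity
    exact le_mul_of_one_le_right this hTk
  calc M ≤ 3 * (2 * k * S) ^ k + 1 / X := hM
    _ ≤ 3 * (Real.exp (-e) * T ^ (2 * k)) + 1 / X * T ^ (2 * k) := by linarith
    _ = _ := by ring

theorem TTT_sum_nonneg (a b : ℕ) : 0 ≤ ∑ p ∈ primesIoc a b, lam2 p / p := by
  refine sum_nonneg fun p hp => ?_
  have hpp : p.Prime := (mem_filter.1 hp).2.1
  have := (lam2_le hpp).1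
  positivity

/-- Mertens bound for `∑ λ(p)²/p` -/
theorem TTT_sum_le : ∃ C : ℝ, 1 ≤ C ∧ ∀ (X : ℝ) (z y : ℕ), 3 ≤ X → 1 ≤ z → z ≤ y → (y : ℝ) ≤ X →
    ∑ p ∈ primesIoc z y, lam2 p / p ≤ C * Real.log (Real.log X + 3) := by
  obtain ⟨C₅, hC₅⟩ := sum_inv_prime_le
  refine ⟨4 * (1 + |C₅|), by have := abs_nonneg C₅; linarith, ?_⟩
  intro X z y hX3 hz1 hzy hyy
  obtain ⟨hL, hLL⟩ := TTT_logs hX3
  have h1 : ∑ p ∈ primesIoc z y, lam2 p / p ≤ 4 * ∑ p ∈ primesIoc z y, (1 : ℝ) / p := by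
    rw [mul_sum]
    refine sum_le_sum fun p hp => ?_
    have hpp : p.Prime := (mem_filter.1 hp).2.1
    have h2 := (lam2_le hpp).2
    have h3 : (0 : ℝ) < p := by exact_mod_cast hpp.pos
    rw [mul_one_div]
    exact div_le_div_of_nonneg_right h2 h3.le
  have h2 := hC₅ z y hz1 hzy
  have h3 : Real.log (rho z y 0) ≤ Real.log (Real.log X + 3) := by
    have hy1 : (1 : ℝ) ≤ y := by exact_mod_cast hz1.trans hzy
    have hz1' : (1 : ℝ) ≤ z := by exact_mod_cast hz1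
    have hlz : 0 ≤ Real.log z := Real.log_nonneg hz1'
    have hly : 0 ≤ Real.log y := Real.log_nonneg hy1
    have hly2 : Real.log y ≤ Real.log X := Real.log_le_log (by linarith) hyy
    have h4 : rho z y 0 = (1 + Real.log y) / (1 + Real.log z) := by
      unfold rho
      rw [abs_zero, zero_mul, zero_mul, add_zero, mul_one, one_mul]
    rw [h4]
    apply Real.log_le_log (by positivity)
    rw [div_le_iff₀ (by positivity)]
    have : 0 ≤ (Real.log X + 3) * Real.log z := by positivity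
    linarith
  have h5 := le_abs_self C₅
  have h6 := abs_nonneg C₅
  have h7 : |C₅| ≤ |C₅| * Real.log (Real.log X + 3) := le_mul_of_one_le_right h6 hLL
  calc ∑ p ∈ primesIoc z y, lam2 p / p ≤ 4 * (Real.log (rho z y 0) + C₅) := by linarith
    _ ≤ 4 * (Real.log (Real.log X + 3) + |C₅| * Real.log (Real.log X + 3)) := by linarith
    _ = _ := by ring

theorem TTT_exp1 : 1 / 3 ≤ Real.exp (-1) := by
  rw [Real.exp_neg, ← one_div]
  apply one_div_le_one_div_of_le (Real.exp_pos _)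
  have := Real.exp_one_lt_d9
  linarith

theorem TTT_bd1 {C E LL V₁ u k : ℝ} (hC0 : 0 < C) (hE : 0 ≤ E) (hLL : 1 ≤ LL) (hu : 0 < u)
    (hk : k ≤ 2 * E * LL) (hk0 : 0 ≤ k) (hV0 : 0 ≤ V₁) (hV : C * V₁ ≤ u ^ 2 * LL) (hEC : 48 * E ≤ C) :
    2 * k * V₁ ≤ Real.exp (-1) * (u / 2 * LL) ^ 2 := by
  have h1 : V₁ ≤ u ^ 2 * LL / C := by
    rw [le_div_iff₀ hC0]; linarith
  have h2 : 2 * k * V₁ ≤ 2 * (2 * E * LL) * (u ^ 2 * LL / C) := by gcongr
  have h3 : 2 * (2 * E * LL) * (u ^ 2 * LL / C) = 16 * E / C * (u / 2 * LL) ^ 2 := by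
    field_simp; ring
  have h4 : 16 * E / C ≤ 1 / 3 := by
    rw [div_le_div_iff₀ hC0 (by norm_num)]
    linarith
  calc 2 * k * V₁ ≤ 16 * E / C * (u / 2 * LL) ^ 2 := h2.trans h3.le
    _ ≤ 1 / 3 * (u / 2 * LL) ^ 2 := by gcongr
    _ ≤ _ := by gcongr; exact TTT_exp1

theorem TTT_bd2 {C E LL V₂ C₄ m k : ℝ} (hC1 : 1 ≤ C) (hE : 0 ≤ E) (hLL : 1 ≤ LL) (hC₄ : 0 ≤ C₄)
    (hk : k ≤ 2 * E * LL) (hk0 : 0 ≤ k) (hV0 : 0 ≤ V₂) (hV : V₂ ≤ C₄ * LL) (hm : C * LL ≤ m)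
    (hEC : 500 * (E * C₄) ≤ C) :
    2 * k * V₂ ≤ Real.exp (-1) * (m / 6) ^ 2 := by
  have h1 : 2 * k * V₂ ≤ 2 * (2 * E * LL) * (C₄ * LL) := by gcongr
  have h2 : 2 * (2 * E * LL) * (C₄ * LL) = 4 * (E * C₄) * LL ^ 2 := by ring
  have h3 : (C * LL) ^ 2 ≤ m ^ 2 := pow_le_pow_left₀ (by positivity) hm 2
  have h5 : 500 * (E * C₄) ≤ C ^ 2 := by
    have : C ≤ C ^ 2 := by
      rw [sq]; exact le_mul_of_one_le_right (by linarith) hC1
    linarith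
  have h7 : 500 * (E * C₄) * LL ^ 2 ≤ C ^ 2 * LL ^ 2 :=
    mul_le_mul_of_nonneg_right h5 (by positivity)
  have h8 : C ^ 2 * LL ^ 2 = (C * LL) ^ 2 := by ring
  have h9 : 0 ≤ (E * C₄) * LL ^ 2 := by positivity
  have h6 : 4 * (E * C₄) * LL ^ 2 ≤ 1 / 3 * (m / 6) ^ 2 := by
    have : (m / 6) ^ 2 = m ^ 2 / 36 := by ring
    rw [this]
    linarith
  calc 2 * k * V₂ ≤ 1 / 3 * (m / 6) ^ 2 := h1.trans (h2.le.trans h6)
    _ ≤ _ := by gcongr; exact TTT_exp1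

theorem TTT_amgm {lam x : ℝ} (h0 : 0 < lam) : x ≤ lam * x ^ 2 + lam⁻¹ := by
  have h1 : 0 < lam⁻¹ := by positivity
  have h2 : lam * lam⁻¹ = 1 := mul_inv_cancel₀ h0.ne'
  have h4 : 0 ≤ lam * (x - lam⁻¹) ^ 2 := by positivity
  have h5 : lam * (x - lam⁻¹) ^ 2 = lam * x ^ 2 - 2 * (lam * lam⁻¹) * x + (lam * lam⁻¹) * lam⁻¹ := by
    ring
  rw [h5, h2] at h4
  have h6 : 0 ≤ lam * x ^ 2 := by positivity
  by_cases hx : 0 ≤ x
  · linarith
  · push Not at hx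
    linarith

theorem TTT_exp_le {L LL u : ℝ} (hL : 1 ≤ L) (hLL : LL = Real.log (L + 3)) (hu0 : 0 < u) (hu1 : u ≤ 1) :
    Real.exp (u / 2 * LL) ≤ 2 * L ^ u := by
  have hL0 : 0 < L := by linarith
  have e5 : Real.exp (u / 2 * LL) = (L + 3) ^ (u / 2) := by
    rw [Real.rpow_def_of_pos (by linarith), hLL]
    ring_nf
  rw [e5]
  have e6 : (L + 3) ^ (u / 2) ≤ (4 * L) ^ (u / 2) :=
    Real.rpow_le_rpow (by linarith) (by linarith) (by positivity)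
  have e7 : (4 * L) ^ (u / 2) = 2 ^ u * L ^ (u / 2) := by
    rw [Real.mul_rpow (by norm_num) hL0.le]
    congr 1
    rw [show (4 : ℝ) = 2 ^ (2 : ℝ) by norm_num, ← Real.rpow_mul (by norm_num)]
    congr 1
    ring
  have e8 : (2 : ℝ) ^ u ≤ 2 := by
    calc (2 : ℝ) ^ u ≤ 2 ^ (1 : ℝ) := Real.rpow_le_rpow_of_exponent_le (by norm_num) hu1
      _ = 2 := Real.rpow_one 2
  have e9 : L ^ (u / 2) ≤ L ^ u := Real.rpow_le_rpow_of_exponent_le hL (by linarith)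
  have e10 : 0 ≤ L ^ (u / 2) := Real.rpow_nonneg hL0.le _
  calc (L + 3) ^ (u / 2) ≤ 2 ^ u * L ^ (u / 2) := e6.trans e7.le
    _ ≤ 2 * L ^ u := mul_le_mul e8 e9 e10 (by norm_num)

/-- pointwise majorant -/
theorem TTT_pt {lam B W₁ W₂ V a p q : ℝ} {k : ℕ} {Ex : Prop} [Decidable Ex] (hlam0 : 0 < lam)
    (ha0 : 0 ≤ a) (haB : a ≤ B) (hW₁0 : 0 < W₁) (hW₂0 : 0 < W₂) (hp0 : 0 ≤ p) (hq0 : 0 ≤ q)
    (h : ¬ Ex → p ≤ W₁ → q ≤ W₂ → a ≤ V) :
    (big V a) ^ 2 ≤ (lam * a ^ (2 * 2) + B ^ 2 * (if Ex then 1 else 0)) +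
      (lam⁻¹ * ((W₁ ^ (2 * k))⁻¹ * p ^ (2 * k)) + lam⁻¹ * ((W₂ ^ (2 * k))⁻¹ * q ^ (2 * k))) := by
  have e1 : 0 ≤ lam * a ^ (2 * 2) := by positivity
  have e2 : 0 ≤ B ^ 2 * (if Ex then (1 : ℝ) else 0) := by
    split_ifs <;> positivity
  have e3 : 0 ≤ lam⁻¹ * ((W₁ ^ (2 * k))⁻¹ * p ^ (2 * k)) := by positivity
  have e4 : 0 ≤ lam⁻¹ * ((W₂ ^ (2 * k))⁻¹ * q ^ (2 * k)) := by positivity
  have e5 : 0 < lam⁻¹ := by positivity
  have k1 : W₁ < p → lam⁻¹ ≤ lam⁻¹ * ((W₁ ^ (2 * k))⁻¹ * p ^ (2 * k)) := fun hb1 => by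
    have h1 : 1 ≤ (W₁ ^ (2 * k))⁻¹ * p ^ (2 * k) := by
      rw [inv_mul_eq_div, one_le_div (by positivity)]
      exact pow_le_pow_left₀ hW₁0.le hb1.le _
    exact le_mul_of_one_le_right e5.le h1
  have k2 : W₂ < q → lam⁻¹ ≤ lam⁻¹ * ((W₂ ^ (2 * k))⁻¹ * q ^ (2 * k)) := fun hb2 => by
    have h1 : 1 ≤ (W₂ ^ (2 * k))⁻¹ * q ^ (2 * k) := by
      rw [inv_mul_eq_div, one_le_div (by positivity)]
      exact pow_le_pow_left₀ hW₂0.le hb2.le _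
    exact le_mul_of_one_le_right e5.le h1
  have hAG : a ^ 2 ≤ lam * a ^ (2 * 2) + lam⁻¹ := by
    have h3 : a ^ (2 * 2) = (a ^ 2) ^ 2 := by rw [← pow_mul]
    rw [h3]
    exact TTT_amgm hlam0
  have hB2 : a ^ 2 ≤ B ^ 2 := pow_le_pow_left₀ ha0 haB 2
  generalize lam⁻¹ * ((W₁ ^ (2 * k))⁻¹ * p ^ (2 * k)) = t3 at *
  generalize lam⁻¹ * ((W₂ ^ (2 * k))⁻¹ * q ^ (2 * k)) = t4 at *
  generalize lam⁻¹ = li at *
  generalize lam * a ^ (2 * 2) = t1 at *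
  unfold big
  by_cases hbig : V < a
  · rw [if_pos hbig]
    by_cases hD : Ex
    · rw [if_pos hD]
      linarith
    · rw [if_neg hD]
      by_cases hb1 : W₁ < p
      · have := k1 hb1
        linarith
      by_cases hb2 : W₂ < q
      · have := k2 hb2
        linarith
      exfalso
      push Not at hb1 hb2
      have := h hD hb1 hb2
      linarith
  · rw [if_neg hbig]
    have : (0 : ℝ) ^ 2 = 0 := by norm_num
    rw [this]
    linarith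

/-- the final numerical estimate -/
theorem TTT_num {A n : ℕ} {X C₆ C₇ B M₀ d P₁ P₂ e : ℝ} (hL0 : 0 < Real.log X) (hX0 : 0 < X)
    (hC₆ : 0 ≤ C₆) (hC₇ : 0 ≤ C₇) (g6 : Real.log X ^ A ≤ C₆ * Real.sqrt X)
    (g7 : Real.log X ^ (A + n) ≤ C₇ * Real.sqrt X) (hB2 : B ^ 2 ≤ 9 * Real.sqrt X)
    (hM₀ : M₀ ≤ n * Real.log X ^ n) (hd : d ≤ 18 / X)
    (he : e ≤ (Real.log X ^ (A + (A + n)))⁻¹) (hP₁ : P₁ ≤ 3 * e + 1 / X) (hP₂ : P₂ ≤ 3 * e + 1 / X) :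
    (Real.log X ^ (A + n))⁻¹ * M₀ + B ^ 2 * d +
      (((Real.log X ^ (A + n))⁻¹)⁻¹ * P₁ + ((Real.log X ^ (A + n))⁻¹)⁻¹ * P₂) ≤
      (n + 162 * C₆ + 6 + 2 * (C₆ * C₇)) / Real.log X ^ A := by
  generalize Real.log X = L at *
  have hsq : Real.sqrt X * Real.sqrt X = X := Real.mul_self_sqrt hX0.le
  have hsq0 : 0 < Real.sqrt X := Real.sqrt_pos.2 hX0
  have hLA0 : 0 < L ^ A := by positivity
  have hLn0 : 0 < L ^ n := by positivity
  have hLAn0 : 0 < L ^ (A + n) := by positivity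
  have hX1 : 1 / X = (1 / Real.sqrt X) * (1 / Real.sqrt X) := by
    rw [div_mul_div_comm, hsq, one_mul]
  have hs1 : Real.sqrt X * (1 / Real.sqrt X) = 1 := mul_one_div_cancel hsq0.ne'
  have hinv : 1 / Real.sqrt X ≤ C₆ / L ^ A := by
    rw [div_le_div_iff₀ hsq0 hLA0]
    linarith
  have hr : Real.sqrt X * (1 / X) = 1 / Real.sqrt X := by
    rw [hX1, ← mul_assoc, hs1, one_mul]
  have t1 : (L ^ (A + n))⁻¹ * M₀ ≤ n / L ^ A := by
    calc (L ^ (A + n))⁻¹ * M₀ ≤ (L ^ (A + n))⁻¹ * (n * L ^ n) :=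
          mul_le_mul_of_nonneg_left hM₀ (by positivity)
      _ = n / L ^ A := by
          rw [pow_add]
          field_simp
  have t2 : B ^ 2 * d ≤ 162 * (C₆ / L ^ A) := by
    calc B ^ 2 * d ≤ B ^ 2 * (18 / X) := mul_le_mul_of_nonneg_left hd (by positivity)
      _ ≤ (9 * Real.sqrt X) * (18 / X) := mul_le_mul_of_nonneg_right hB2 (by positivity)
      _ = 162 * (Real.sqrt X * (1 / X)) := by ring
      _ = 162 * (1 / Real.sqrt X) := by rw [hr]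
      _ ≤ _ := by linarith
  have t3 : ∀ M : ℝ, M ≤ 3 * e + 1 / X → ((L ^ (A + n))⁻¹)⁻¹ * M ≤
      3 * (1 / L ^ A) + C₇ * (C₆ / L ^ A) := by
    intro M hM
    rw [inv_inv]
    have r1 : L ^ (A + n) * (L ^ (A + (A + n)))⁻¹ = 1 / L ^ A := by
      rw [pow_add L A (A + n)]
      field_simp
    have r2 : L ^ (A + n) * (1 / X) ≤ C₇ * (1 / Real.sqrt X) := by
      calc L ^ (A + n) * (1 / X) ≤ (C₇ * Real.sqrt X) * (1 / X) :=
            mul_le_mul_of_nonneg_right g7 (by positivity)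
        _ = C₇ * (Real.sqrt X * (1 / X)) := by ring
        _ = C₇ * (1 / Real.sqrt X) := by rw [hr]
    have r3 : C₇ * (1 / Real.sqrt X) ≤ C₇ * (C₆ / L ^ A) :=
      mul_le_mul_of_nonneg_left hinv hC₇
    calc L ^ (A + n) * M ≤ L ^ (A + n) * (3 * (L ^ (A + (A + n)))⁻¹ + 1 / X) :=
          mul_le_mul_of_nonneg_left (hM.trans (by linarith)) hLAn0.le
      _ = 3 * (L ^ (A + n) * (L ^ (A + (A + n)))⁻¹) + L ^ (A + n) * (1 / X) := by ring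
      _ ≤ 3 * (1 / L ^ A) + C₇ * (C₆ / L ^ A) := by rw [r1]; linarith
  have t4 := t3 _ hP₁
  have t5 := t3 _ hP₂
  have t6 : (n + 162 * C₆ + 6 + 2 * (C₆ * C₇)) / L ^ A = n / L ^ A +
      162 * (C₆ / L ^ A) + 2 * (C₇ * (C₆ / L ^ A)) + 6 * (1 / L ^ A) := by
    ring
  rw [t6]
  linarith

theorem TT_tail (A : ℕ) (T₁ T₂ : ℝ) (hT : 0 < T₁) : ∃ C : ℝ,
    ∀ (X t u : ℝ) (z₁ z y m : ℕ), C ≤ X → T₁ ≤ t → t ≤ T₂ → z0 ≤ z₁ → z₁ ≤ z → z ≤ y →
    C * Real.log (Real.log X + 3) ≤ m → ((y : ℝ) ^ (8 * m)) ^ 4 ≤ X → 0 < u → u ≤ 1 →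
    C * (∑ p ∈ primesIoc z₁ z, lam2 p / p) ≤ u ^ 2 * Real.log (Real.log X + 3) →
    C ≤ u ^ 2 * Real.log (Real.log X + 3) →
    ED X (fun D => (big (C * (Real.log (Real.log X + 3)) ^ C * (Real.log X) ^ u)
      ‖Mo' z₁ z m D t * gT z y m D t‖) ^ 2) ≤ C / (Real.log X) ^ A := by
  obtain ⟨C₁, hC₁⟩ := Mo'_pointwise T₁ T₂ hT
  obtain ⟨X₀, hX₀⟩ := PSum_moment
  obtain ⟨n, hn1, hn⟩ := TTT_moment 2 (by norm_num) le_rfl
  obtain ⟨C₄, hC₄1, hC₄⟩ := TTT_sum_le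
  obtain ⟨C₆, hC₆, h₆⟩ := TTT_pow_log A
  obtain ⟨C₇, hC₇, h₇⟩ := TTT_pow_log (A + n)
  have hn0 : (1 : ℝ) ≤ n := by exact_mod_cast hn1
  obtain ⟨E, hE⟩ : ∃ E : ℝ, E = ((A + (A + n) : ℕ) : ℝ) := ⟨_, rfl⟩
  have hE1 : 1 ≤ E := by
    rw [hE]; push_cast
    have : (0 : ℝ) ≤ A := Nat.cast_nonneg A
    linarith
  have a1 := abs_nonneg C₁
  have b1 := le_abs_self C₁
  have a2 := abs_nonneg X₀
  have b2 := le_abs_self X₀
  have hEC : 1 ≤ E * C₄ := one_le_mul_of_one_le_of_one_le hE1 hC₄1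
  have hEC2 : E ≤ E * C₄ := le_mul_of_one_le_right (by linarith) hC₄1
  obtain ⟨C, hC⟩ : ∃ C : ℝ, C = 4 * |C₁| + |X₀| + 500 * (E * C₄) + n + 162 * C₆ + 2 * (C₆ * C₇) + 20 :=
    ⟨_, rfl⟩
  have hC67 : 1 ≤ C₆ * C₇ := one_le_mul_of_one_le_of_one_le hC₆ hC₇
  refine ⟨C, ?_⟩
  intro X t u z₁ z y m hX ht1 ht2 hz1 hz hzy hm hyX hu0 hu1 hV₁ hu2
  have hC20 : 20 ≤ C := by linarith
  have hX3 : 3 ≤ X := by linarith
  have hX0 : 0 < X := by linarith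
  have hlogs := TTT_logs hX3
  obtain ⟨L, hLdef⟩ : ∃ L : ℝ, L = Real.log X := ⟨_, rfl⟩
  obtain ⟨LL, hLLdef⟩ : ∃ LL : ℝ, LL = Real.log (L + 3) := ⟨_, rfl⟩
  rw [← hLdef, ← hLLdef] at hlogs hm hV₁ hu2 ⊢
  obtain ⟨hL, hLL⟩ := hlogs
  have hL0 : 0 < L := by linarith
  have hz0 : z0 = 10000 := rfl
  have hy1 : 1 ≤ y := by omega
  have hCm : C ≤ m := (le_mul_of_one_le_right (by linarith) hLL).trans hm
  have hm1' : 1 ≤ m := by
    have : (1 : ℝ) ≤ m := by linarith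
    exact_mod_cast this
  have hyy : (y : ℝ) ≤ X := by
    have := TTT_pow_le hy1 hyX (n := 1) (by omega)
    simpa using this
  have hzy' : (z : ℝ) ≤ y := by exact_mod_cast hzy
  -- the moment order
  have hELL : 1 ≤ E * LL := one_le_mul_of_one_le_of_one_le hE1 hLL
  obtain ⟨k, hk⟩ : ∃ k : ℕ, k = ⌈E * LL⌉₊ := ⟨_, rfl⟩
  have hkE : E * LL ≤ k := by rw [hk]; exact Nat.le_ceil _
  have hk2 : (k : ℝ) ≤ 2 * E * LL := by
    have h1 := Nat.ceil_lt_add_one (a := E * LL) (by linarith)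
    rw [← hk] at h1
    linarith
  have hk1 : 1 ≤ k := by
    have : (0 : ℝ) < k := by linarith
    exact_mod_cast this
  have hkm : k ≤ m := by
    have h1 : 2 * E * LL ≤ C * LL := mul_le_mul_of_nonneg_right (by linarith) (by linarith)
    have : (k : ℝ) ≤ m := by linarith
    exact_mod_cast this
  have hexpk : Real.exp (-(E * LL)) ≤ (L ^ (A + (A + n)))⁻¹ := by
    rw [Real.exp_neg, hE, Real.exp_nat_mul, hLLdef, Real.exp_log (by linarith)]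
    apply inv_anti₀ (by positivity)
    exact pow_le_pow_left₀ hL0.le (by linarith) _
  have hV₂ := hC₄ X z y hX3 (by omega) hzy hyy
  rw [← hLdef, ← hLLdef] at hV₂
  have hC0 : 0 < C := by linarith
  have hW₁0 : 0 < u / 2 * LL := by positivity
  have hW₂0 : (0 : ℝ) < (m : ℝ) / 6 := by
    have : (0 : ℝ) < m := by linarith
    positivity
  have hW₁1 : 1 ≤ (u / 2 * LL) ^ 2 := by
    have h1 : 20 ≤ u ^ 2 * LL := by linarith
    have h2 : u ^ 2 * LL ≤ u ^ 2 * LL * LL := le_mul_of_one_le_right (by linarith) hLL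
    have h3 : (u / 2 * LL) ^ 2 = u ^ 2 * LL * LL / 4 := by ring
    rw [h3]
    linarith
  have hW₂1 : 1 ≤ ((m : ℝ) / 6) ^ 2 := by
    apply one_le_pow₀
    linarith
  have hXX₀ : X₀ ≤ X := by linarith
  have hM₁ := hX₀ X z₁ z k t hXX₀ hk1 (by
    rw [← pow_mul]
    have hz1' : 1 ≤ z := by omega
    refine le_trans ?_ (TTT_pow_le hy1 hyX (n := k * 4) (by omega))
    exact pow_le_pow_left₀ (Nat.cast_nonneg _) hzy' _)
  have hM₂ := hX₀ X z y k t hXX₀ hk1 (by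
    rw [← pow_mul]
    exact TTT_pow_le hy1 hyX (n := k * 4) (by omega))
  have hP₁ := TTT_markov (by linarith) hW₁1 (TTT_sum_nonneg z₁ z) hM₁
    (TTT_bd1 hC0 (by linarith) hLL hu0 hk2 (Nat.cast_nonneg k) (TTT_sum_nonneg z₁ z) hV₁ (by linarith))
    hkE
  have hP₂ := TTT_markov (by linarith) hW₂1 (TTT_sum_nonneg z y) hM₂
    (TTT_bd2 (by linarith) (by linarith) hLL (by linarith) hk2 (Nat.cast_nonneg k)
      (TTT_sum_nonneg z y) hV₂ hm (by linarith)) hkE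
  -- the test function and its size
  have hcp := TTT_CP (m := m) hz1 hz hzy t
  obtain ⟨B, hBdef⟩ : ∃ B : ℝ, B = (z : ℝ) ^ m * (3 * (y : ℝ) ^ m) := ⟨_, rfl⟩
  rw [← hBdef] at hcp
  have hB0 : 0 ≤ B := by rw [hBdef]; positivity
  have hfB : ∀ D, ‖Mo' z₁ z m D t * gT z y m D t‖ ≤ B := fun D => CP_bdd hcp D
  have hB2 : B ^ 2 ≤ 9 * Real.sqrt X := by
    have h1 : (z : ℝ) ^ m ≤ (y : ℝ) ^ m := pow_le_pow_left₀ (by positivity) hzy' m
    have h2 : B ≤ 3 * (y : ℝ) ^ (2 * m) := by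
      calc B ≤ (y : ℝ) ^ m * (3 * (y : ℝ) ^ m) := by rw [hBdef]; gcongr
        _ = 3 * (y : ℝ) ^ (2 * m) := by rw [two_mul, pow_add]; ring
    have h3 : (y : ℝ) ^ (4 * m) ≤ Real.sqrt X := by
      apply Real.le_sqrt_of_sq_le
      rw [← pow_mul]
      exact TTT_pow_le hy1 hyX (by omega)
    calc B ^ 2 ≤ (3 * (y : ℝ) ^ (2 * m)) ^ 2 := pow_le_pow_left₀ hB0 h2 2
      _ = 9 * (y : ℝ) ^ (4 * m) := by
          rw [mul_pow, ← pow_mul]
          norm_num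
          congr 1
          ring
      _ ≤ 9 * Real.sqrt X := by gcongr
  have hgood : ∀ D : ℤ, ¬ (D = 0 ∨ X ^ 2 < |(D : ℝ)|) → ‖PSum z₁ z D t‖ ≤ u / 2 * LL →
      ‖PSum z y D t‖ ≤ (m : ℝ) / 6 →
      ‖Mo' z₁ z m D t * gT z y m D t‖ ≤ C * LL ^ C * L ^ u := by
    intro D hD hb1 hb2
    push Not at hD
    have hg := TTT_gT_le (z := z) (y := y) (m := m) (D := D) (t := t)
      ((Complex.abs_im_le_norm (PSum z y D t)).trans hb2)
    have hC₁C : C₁ ≤ C := by linarith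
    have hmo := (hC₁ X D z₁ z m t (u / 2 * LL) hX3 hD.1 hD.2 hz1 hz (hzy'.trans hyy) ht1 ht2
      (by
        rw [← hLdef, ← hLLdef]
        exact (mul_le_mul_of_nonneg_right hC₁C (by linarith)).trans hm) hW₁0.le
      (by
        rw [← hLdef, ← hLLdef]
        have : u / 2 * LL ≤ 1 * LL := mul_le_mul_of_nonneg_right (by linarith) (by linarith)
        linarith) hb1).2
    rw [← hLdef, ← hLLdef] at hmo
    have h1 : Real.exp (u / 2 * LL) ≤ 2 * L ^ u := TTT_exp_le hL hLLdef hu0 hu1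
    have h2 : C₁ * LL ^ C₁ ≤ |C₁| * LL ^ C := by
      have g1 : LL ^ C₁ ≤ LL ^ C := Real.rpow_le_rpow_of_exponent_le hLL hC₁C
      have g2 : 0 < LL ^ C₁ := Real.rpow_pos_of_pos (by linarith) _
      calc C₁ * LL ^ C₁ ≤ |C₁| * LL ^ C₁ := mul_le_mul_of_nonneg_right b1 g2.le
        _ ≤ _ := mul_le_mul_of_nonneg_left g1 a1
    have g3 : 0 < LL ^ C := Real.rpow_pos_of_pos (by linarith) _
    have g4 : 0 < L ^ u := Real.rpow_pos_of_pos hL0 _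
    rw [norm_mul]
    calc ‖Mo' z₁ z m D t‖ * ‖gT z y m D t‖ ≤
          (Real.exp (u / 2 * LL) * (C₁ * LL ^ C₁)) * 2 :=
          mul_le_mul hmo hg (norm_nonneg _) ((norm_nonneg _).trans hmo)
      _ ≤ (Real.exp (u / 2 * LL) * (|C₁| * LL ^ C)) * 2 := by gcongr
      _ ≤ ((2 * L ^ u) * (|C₁| * LL ^ C)) * 2 := by gcongr
      _ = (4 * |C₁|) * LL ^ C * L ^ u := by ring
      _ ≤ C * LL ^ C * L ^ u := by
          have : 4 * |C₁| ≤ C := by linarith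
          gcongr
  obtain ⟨V, hVdef⟩ : ∃ V : ℝ, V = C * LL ^ C * L ^ u := ⟨_, rfl⟩
  rw [← hVdef]
  rw [← hVdef] at hgood
  obtain ⟨lam, hlam⟩ : ∃ lam : ℝ, lam = (L ^ (A + n))⁻¹ := ⟨_, rfl⟩
  have hlam0 : 0 < lam := by rw [hlam]; positivity
  have hpt : ∀ D : ℤ, (big V ‖Mo' z₁ z m D t * gT z y m D t‖) ^ 2 ≤
      (lam * ‖Mo' z₁ z m D t * gT z y m D t‖ ^ (2 * 2) +
        B ^ 2 * (if D = 0 ∨ X ^ 2 < |(D : ℝ)| then 1 else 0)) +
      (lam⁻¹ * (((u / 2 * LL) ^ (2 * k))⁻¹ * ‖PSum z₁ z D t‖ ^ (2 * k)) +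
        lam⁻¹ * ((((m : ℝ) / 6) ^ (2 * k))⁻¹ * ‖PSum z y D t‖ ^ (2 * k))) := fun D =>
    TTT_pt hlam0 (norm_nonneg _) (hfB D) hW₁0 hW₂0 (norm_nonneg _) (norm_nonneg _) (hgood D)
  have hX1 : 1 ≤ X := by linarith
  have hps : ∀ (a b : ℕ), 1 ≤ b → ∀ D : ℤ, ‖PSum a b D t‖ ≤ b := fun a b hb D =>
    CP_bdd (CP_PSum hb t) D
  have q1 : ∀ D : ℤ, |(big V ‖Mo' z₁ z m D t * gT z y m D t‖) ^ 2| ≤ B ^ 2 := by
    intro D
    rw [abs_of_nonneg (by positivity)]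
    unfold big
    split_ifs
    · exact pow_le_pow_left₀ (norm_nonneg _) (hfB D) 2
    · have : (0 : ℝ) ^ 2 = 0 := by norm_num
      rw [this]; positivity
  have q2 : ∀ D : ℤ, |lam * ‖Mo' z₁ z m D t * gT z y m D t‖ ^ (2 * 2)| ≤ lam * B ^ (2 * 2) := by
    intro D
    rw [abs_of_nonneg (by positivity)]
    exact mul_le_mul_of_nonneg_left (pow_le_pow_left₀ (norm_nonneg _) (hfB D) _) hlam0.le
  have q3 : ∀ D : ℤ, |B ^ 2 * (if D = 0 ∨ X ^ 2 < |(D : ℝ)| then (1 : ℝ) else 0)| ≤ B ^ 2 := by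
    intro D
    split_ifs
    · rw [mul_one, abs_of_nonneg (by positivity)]
    · rw [mul_zero, abs_zero]; positivity
  have q4 : ∀ D : ℤ, |lam⁻¹ * (((u / 2 * LL) ^ (2 * k))⁻¹ * ‖PSum z₁ z D t‖ ^ (2 * k))| ≤
      lam⁻¹ * (((u / 2 * LL) ^ (2 * k))⁻¹ * (z : ℝ) ^ (2 * k)) := by
    intro D
    rw [abs_of_nonneg (by positivity)]
    gcongr
    exact hps z₁ z (by omega) D
  have q5 : ∀ D : ℤ, |lam⁻¹ * ((((m : ℝ) / 6) ^ (2 * k))⁻¹ * ‖PSum z y D t‖ ^ (2 * k))| ≤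
      lam⁻¹ * ((((m : ℝ) / 6) ^ (2 * k))⁻¹ * (y : ℝ) ^ (2 * k)) := by
    intro D
    rw [abs_of_nonneg (by positivity)]
    gcongr
    exact hps z y hy1 D
  have q6 : ∀ D : ℤ, |lam * ‖Mo' z₁ z m D t * gT z y m D t‖ ^ (2 * 2) +
      B ^ 2 * (if D = 0 ∨ X ^ 2 < |(D : ℝ)| then (1 : ℝ) else 0)| ≤ lam * B ^ (2 * 2) + B ^ 2 :=
    fun D => (abs_add_le _ _).trans (add_le_add (q2 D) (q3 D))
  have q7 := fun D : ℤ => (abs_add_le _ _).trans (add_le_add (q4 D) (q5 D))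
  have q8 := fun D : ℤ => (abs_add_le _ _).trans (add_le_add (q6 D) (q7 D))
  have hmain := TTT_ED_mono hX1 q1 q8 hpt
  rw [TTT_ED_add hX1 q6 q7, TTT_ED_add hX1 q2 q3, TTT_ED_add hX1 q4 q5, TTT_ED_mul, TTT_ED_mul,
    TTT_ED_mul, TTT_ED_mul, TTT_ED_mul, TTT_ED_mul] at hmain
  refine hmain.trans ?_
  have hnX := hn X t z₁ z y m (by linarith) hX3 hz1 hz hzy (by
    rw [← hLdef, ← hLLdef]
    exact (mul_le_mul_of_nonneg_right (by linarith) (by linarith)).trans hm) hyX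
  rw [← hLdef] at hnX
  rw [hLdef] at hnX
  have hfin := TTT_num (A := A) (n := n) (hLdef ▸ hL0) hX0 (by linarith) (by linarith) (h₆ X hX1) (h₇ X hX1)
    hB2 hnX (TTT_ED_ind hX1) (by rw [← hLdef]; exact hexpk) hP₁ hP₂
  rw [← hLdef, ← hlam] at hfin
  refine hfin.trans (div_le_div_of_nonneg_right ?_ (by positivity))
  linarith

end Pool.Agent.CZ
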