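import Mathlib
import Pool.Agent.CZ.Defs
import Pool.Agent.CZ.W
import Pool.Agent.CZ.PS
import Pool.Agent.CZ.CPL
import Pool.Agent.CZ.EDL
import Pool.Agent.CZ.POLY
import Pool.Agent.CZ.CL2
import Pool.Agent.CZ.TTT

/-!
# Critical zeros (MP_553913_nt), module ELT: large values of the test function
-/

set_option autoImplicit false

open Complex Finset MeasureTheory

namespace Pool.Agent.CZ

open Pool.Agent.H5 (c bd)
open Pool.Agent.ZD (S T Lf nu tau gk eps MM)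

/-! ### windows -/

theorem elt_peetre (s t : ℝ) : 1 + t ^ 2 ≤ 2 * (1 + s ^ 2) * (1 + (t - s) ^ 2) := by
  nlinarith [sq_nonneg (t - 2 * s), sq_nonneg (s * (t - s)), sq_nonneg s, sq_nonneg (t - s)]

theorem elt_fubini {K : ℕ} (hK : 2 ≤ K) {G : ℝ → ℝ} (hm : Measurable G) (h0 : ∀ t, 0 ≤ G t) {M : ℝ}
    (hM : ∀ t, G t ≤ M * (1 + t ^ 2)) {h T₁ T₂ : ℝ} (hh : 0 < h) (hh1 : h ≤ 1) (hT : T₁ ≤ T₂) :
    IntegrableOn (fun t₀ => ∫ t, G t * wK K ((t - t₀) / h)) (Set.Icc T₁ T₂) ∧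
    Integrable (fun t => G t * ∫ t₀ in Set.Icc T₁ T₂, wK K ((t - t₀) / h)) ∧
    ∫ t₀ in Set.Icc T₁ T₂, (∫ t, G t * wK K ((t - t₀) / h)) =
      ∫ t, G t * ∫ t₀ in Set.Icc T₁ T₂, wK K ((t - t₀) / h) := by
  obtain ⟨C, hC, hwK⟩ := wK_le K
  set R : ℝ := max (T₁ ^ 2) (T₂ ^ 2) with hR
  have hR0 : 0 ≤ R := le_max_of_le_left (sq_nonneg _)
  have hM0 : 0 ≤ M := by
    have := (h0 0).trans (hM 0)
    simpa using this
  set μ : Measure ℝ := volume.restrict (Set.Icc T₁ T₂) with hμ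
  have hFm : Measurable (fun p : ℝ × ℝ => G p.2 * wK K ((p.2 - p.1) / h)) := by
    refine (hm.comp measurable_snd).mul ((wK_continuous K).measurable.comp ?_)
    fun_prop
  have hbound : ∀ t₀ ∈ Set.Icc T₁ T₂, ∀ t, G t * wK K ((t - t₀) / h) ≤
      M * C * (2 * (1 + R)) ^ K * (1 + t ^ 2)⁻¹ := by
    intro t₀ ht₀ t
    have e1 : t₀ ^ 2 ≤ R := by
      rcases le_or_gt 0 t₀ with h' | h'
      · exact le_max_of_le_right (by nlinarith [ht₀.2])
      · exact le_max_of_le_left (by nlinarith [ht₀.1])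
    have e2 : 1 + t ^ 2 ≤ 2 * (1 + R) * (1 + ((t - t₀) / h) ^ 2) := by
      have e3 := elt_peetre t₀ t
      have e4 : (t - t₀) ^ 2 ≤ ((t - t₀) / h) ^ 2 := by
        rw [div_pow, le_div_iff₀ (by positivity)]
        have : h ^ 2 ≤ 1 := by nlinarith
        nlinarith [sq_nonneg (t - t₀)]
      calc 1 + t ^ 2 ≤ 2 * (1 + t₀ ^ 2) * (1 + (t - t₀) ^ 2) := e3
        _ ≤ 2 * (1 + R) * (1 + ((t - t₀) / h) ^ 2) := by gcongr
    have e5 : (1 + t ^ 2) ^ K ≤ (2 * (1 + R)) ^ K * (1 + ((t - t₀) / h) ^ 2) ^ K := by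
      rw [← mul_pow]
      exact pow_le_pow_left₀ (by positivity) e2 K
    have e6 : wK K ((t - t₀) / h) ≤ C * (2 * (1 + R)) ^ K / (1 + t ^ 2) ^ K := by
      refine (hwK _).trans ?_
      rw [div_le_div_iff₀ (by positivity) (by positivity)]
      nlinarith [mul_le_mul_of_nonneg_left e5 hC.le]
    have e7 : (1 + t ^ 2) ^ 2 ≤ (1 + t ^ 2) ^ K :=
      pow_le_pow_right₀ (by nlinarith [sq_nonneg t]) hK
    calc G t * wK K ((t - t₀) / h) ≤ (M * (1 + t ^ 2)) * (C * (2 * (1 + R)) ^ K / (1 + t ^ 2) ^ K) := by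
          refine mul_le_mul (hM t) e6 (wK_nonneg _ _) (by positivity)
      _ ≤ (M * (1 + t ^ 2)) * (C * (2 * (1 + R)) ^ K / (1 + t ^ 2) ^ 2) := by gcongr
      _ = M * C * (2 * (1 + R)) ^ K * (1 + t ^ 2)⁻¹ := by
          have : (1 + t ^ 2) ≠ 0 := by positivity
          field_simp
  have hint : Integrable (fun p : ℝ × ℝ => G p.2 * wK K ((p.2 - p.1) / h)) (μ.prod volume) := by
    have hb : Integrable (fun p : ℝ × ℝ => (1 : ℝ) * (M * C * (2 * (1 + R)) ^ K * (1 + p.2 ^ 2)⁻¹))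
        (μ.prod volume) :=
      Integrable.mul_prod (f := fun _ : ℝ => (1 : ℝ))
        (g := fun t : ℝ => M * C * (2 * (1 + R)) ^ K * (1 + t ^ 2)⁻¹)
        (integrable_const 1) (integrable_inv_one_add_sq.const_mul _)
    refine hb.mono' hFm.aestronglyMeasurable ?_
    rw [hμ, Measure.restrict_prod_eq_prod_univ]
    refine ae_restrict_of_forall_mem (measurableSet_Icc.prod MeasurableSet.univ) ?_
    rintro ⟨t₀, t⟩ ⟨h1, _⟩
    rw [Real.norm_of_nonneg (mul_nonneg (h0 _) (wK_nonneg _ _)), one_mul]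
    exact hbound t₀ h1 t
  have hswap : ∀ t, ∫ t₀, G t * wK K ((t - t₀) / h) ∂μ =
      G t * ∫ t₀ in Set.Icc T₁ T₂, wK K ((t - t₀) / h) := fun t => integral_const_mul _ _
  refine ⟨hint.integral_prod_left, ?_, ?_⟩
  · have := hint.integral_prod_right
    simp only [hswap] at this
    exact this
  · have := integral_integral_swap (μ := μ) (ν := volume)
      (f := fun t₀ t => G t * wK K ((t - t₀) / h)) hint
    rw [this]
    simp only [hswap]
    rfl

theorem elt_omega_le {K : ℕ} (hK : 1 ≤ K) {h T₁ T₂ : ℝ} (hh : 0 < h) (t : ℝ) :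
    ∫ t₀ in Set.Icc T₁ T₂, wK K ((t - t₀) / h) ≤ h * ∫ s, wK K s := by
  have h1 : ∫ t₀, wK K ((t - t₀) / h) = h * ∫ s, wK K s := by
    rw [integral_sub_left_eq_self (fun s => wK K (s / h)) volume t,
      Measure.integral_comp_div (wK K) h, abs_of_pos hh, smul_eq_mul]
  rw [← h1]
  refine setIntegral_le_integral ?_ (Filter.Eventually.of_forall fun _ => wK_nonneg _ _)
  exact ((wK_integrable hK).comp_div hh.ne').comp_sub_left t

theorem elt_omega_far {T₁ T₂ : ℝ} (hT : 0 < T₁) (hT' : T₁ < T₂) (K : ℕ) : ∃ C : ℝ, 0 < C ∧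
    ∀ (h t : ℝ), 0 < h → (t < T₁ / 2 ∨ T₂ + 1 < t) →
      ∫ t₀ in Set.Icc T₁ T₂, wK K ((t - t₀) / h) ≤ C * h ^ (2 * K) / (1 + t ^ 2) ^ K := by
  obtain ⟨C, hC, hwK⟩ := wK_le K
  set r : ℝ := min (T₁ / 2) 1 with hr
  have hr0 : 0 < r := lt_min (by linarith) one_pos
  set R : ℝ := 2 * (1 + T₂ ^ 2) * (1 + 1 / r ^ 2) with hR
  have hR0 : 0 < R := by positivity
  refine ⟨(T₂ - T₁) * (C * R ^ K), by have : 0 < T₂ - T₁ := by linarith
                                      positivity, ?_⟩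
  intro h t hh ht
  have hb : ∀ t₀ ∈ Set.Icc T₁ T₂, wK K ((t - t₀) / h) ≤ C * R ^ K * h ^ (2 * K) / (1 + t ^ 2) ^ K := by
    intro t₀ ht₀
    have e0 : r ^ 2 ≤ (t - t₀) ^ 2 := by
      have : r ≤ |t - t₀| := by
        rcases ht with h' | h'
        · rw [abs_of_neg (by linarith [ht₀.1])]
          exact (min_le_left _ _).trans (by linarith [ht₀.1])
        · rw [abs_of_pos (by linarith [ht₀.2])]
          exact (min_le_right _ _).trans (by linarith [ht₀.2])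
      rw [← sq_abs (t - t₀)]
      exact pow_le_pow_left₀ hr0.le this 2
    have e1 : t₀ ^ 2 ≤ T₂ ^ 2 := by nlinarith [ht₀.1, ht₀.2]
    have hpos : 0 < (t - t₀) ^ 2 := lt_of_lt_of_le (by positivity) e0
    have e2 : 1 + t ^ 2 ≤ R * (t - t₀) ^ 2 := by
      have e3 := elt_peetre t₀ t
      have e4 : 1 + (t - t₀) ^ 2 ≤ (1 + 1 / r ^ 2) * (t - t₀) ^ 2 := by
        have : 1 ≤ 1 / r ^ 2 * (t - t₀) ^ 2 := by
          rw [one_div, inv_mul_eq_div, le_div_iff₀ (by positivity)]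
          linarith
        linarith
      calc 1 + t ^ 2 ≤ 2 * (1 + t₀ ^ 2) * (1 + (t - t₀) ^ 2) := e3
        _ ≤ 2 * (1 + T₂ ^ 2) * ((1 + 1 / r ^ 2) * (t - t₀) ^ 2) := by gcongr
        _ = R * (t - t₀) ^ 2 := by rw [hR]; ring
    have e5 : (1 + t ^ 2) * h⁻¹ ^ 2 ≤ R * (1 + ((t - t₀) / h) ^ 2) := by
      have : ((t - t₀) / h) ^ 2 = (t - t₀) ^ 2 * h⁻¹ ^ 2 := by
        rw [div_eq_mul_inv, mul_pow]
      rw [this]
      have h6 := mul_le_mul_of_nonneg_right e2 (sq_nonneg h⁻¹)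
      nlinarith
    have e6 : (1 + t ^ 2) ^ K * (h⁻¹ ^ 2) ^ K ≤ R ^ K * (1 + ((t - t₀) / h) ^ 2) ^ K := by
      rw [← mul_pow, ← mul_pow]
      exact pow_le_pow_left₀ (by positivity) e5 K
    refine (hwK _).trans ?_
    rw [div_le_div_iff₀ (by positivity) (by positivity)]
    have e7 : (h⁻¹ ^ 2) ^ K * h ^ (2 * K) = 1 := by
      rw [← pow_mul, ← mul_pow, inv_mul_cancel₀ hh.ne', one_pow]
    calc C * (1 + t ^ 2) ^ K = C * ((1 + t ^ 2) ^ K * (h⁻¹ ^ 2) ^ K) * h ^ (2 * K) := by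
          rw [mul_assoc, mul_assoc, e7, mul_one]
      _ ≤ C * (R ^ K * (1 + ((t - t₀) / h) ^ 2) ^ K) * h ^ (2 * K) := by gcongr
      _ = C * R ^ K * h ^ (2 * K) * (1 + ((t - t₀) / h) ^ 2) ^ K := by ring
  have hb' : IntegrableOn (fun _ : ℝ => C * R ^ K * h ^ (2 * K) / (1 + t ^ 2) ^ K) (Set.Icc T₁ T₂) :=
    integrableOn_const (by simp)
  have hwi : IntegrableOn (fun t₀ => wK K ((t - t₀) / h)) (Set.Icc T₁ T₂) := by
    have : Continuous (fun t₀ => wK K ((t - t₀) / h)) := (wK_continuous K).comp (by fun_prop)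
    exact this.continuousOn.integrableOn_Icc
  refine (setIntegral_mono_on hwi hb' measurableSet_Icc hb).trans (le_of_eq ?_)
  rw [setIntegral_const, smul_eq_mul, Measure.real, Real.volume_Icc, ENNReal.toReal_ofReal (by linarith)]
  ring

/-- the abstract estimate -/
theorem elt_main {T₁ T₂ : ℝ} (hT : 0 < T₁) (hT' : T₁ < T₂) {K : ℕ} (hK : 2 ≤ K) : ∃ C : ℝ, 0 < C ∧
    ∀ (Q : Finset ℕ) (G : ℕ → ℝ → ℝ) (h H₁ H₂ : ℝ) (E : ℕ), E + 1 ≤ K →
      (∀ d ∈ Q, Measurable (G d)) → (∀ d ∈ Q, ∀ t, 0 ≤ G d t) →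
      (∀ d ∈ Q, ∃ M : ℝ, ∀ t, G d t ≤ M * (1 + t ^ 2)) → 0 < h → h ≤ 1 → 0 ≤ H₁ → 0 ≤ H₂ →
      (∀ t, T₁ / 2 ≤ t → t ≤ T₂ + 1 → ∑ d ∈ Q, G d t ≤ H₁) →
      (∀ t, ∑ d ∈ Q, G d t ≤ H₂ * (1 + t ^ 2) ^ E) →
      ∑ d ∈ Q, (volume {t₀ : ℝ | t₀ ∈ Set.Icc T₁ T₂ ∧
        1 < h⁻¹ * ∫ t, G d t * wK K ((t - t₀) / h)}).toReal ≤ C * (H₁ + H₂ * h ^ (2 * K - 1)) := by
  obtain ⟨C, hC, hfar⟩ := elt_omega_far hT hT' K
  have hI0 : 0 ≤ ∫ s, wK K s := integral_nonneg fun s => wK_nonneg _ _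
  have hpi := Real.pi_pos
  have hT2 : 0 < T₂ := by linarith
  refine ⟨(T₂ + 1) * (∫ s, wK K s) + C * Real.pi, by positivity, ?_⟩
  intro Q G h H₁ H₂ E hE hmeas h0 hM hh hh1 hH₁ hH₂ hnear hall
  set ω : ℝ → ℝ := fun t => ∫ t₀ in Set.Icc T₁ T₂, wK K ((t - t₀) / h) with hω
  have hω0 : ∀ t, 0 ≤ ω t := fun t => setIntegral_nonneg measurableSet_Icc fun _ _ => wK_nonneg _ _
  -- Markov
  have hmk : ∀ d ∈ Q, (volume {t₀ : ℝ | t₀ ∈ Set.Icc T₁ T₂ ∧
      1 < h⁻¹ * ∫ t, G d t * wK K ((t - t₀) / h)}).toReal ≤ h⁻¹ * ∫ t, G d t * ω t := by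
    intro d hd
    obtain ⟨M, hM'⟩ := hM d hd
    obtain ⟨f1, f2, f3⟩ := elt_fubini hK (hmeas d hd) (h0 d hd) hM' hh hh1 hT'.le
    rw [← f3]
    have e1 : ∀ t₀, 0 ≤ h⁻¹ * ∫ t, G d t * wK K ((t - t₀) / h) := fun t₀ =>
      mul_nonneg (by positivity) (integral_nonneg fun t => mul_nonneg (h0 d hd t) (wK_nonneg _ _))
    have e2 := mul_meas_ge_le_integral_of_nonneg (μ := volume.restrict (Set.Icc T₁ T₂))
      (f := fun t₀ => h⁻¹ * ∫ t, G d t * wK K ((t - t₀) / h)) (Filter.Eventually.of_forall e1)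
      (f1.const_mul _) 1
    rw [one_mul, integral_const_mul] at e2
    refine le_trans ?_ e2
    have hsub : {t₀ : ℝ | t₀ ∈ Set.Icc T₁ T₂ ∧ 1 < h⁻¹ * ∫ t, G d t * wK K ((t - t₀) / h)} ⊆
        {t₀ : ℝ | 1 ≤ h⁻¹ * ∫ t, G d t * wK K ((t - t₀) / h)} ∩ Set.Icc T₁ T₂ :=
      fun t₀ ht => ⟨ht.2.le, ht.1⟩
    unfold Measure.real
    rw [Measure.restrict_apply' measurableSet_Icc]
    refine ENNReal.toReal_mono ?_ (measure_mono hsub)
    exact (lt_of_le_of_lt (measure_mono Set.inter_subset_right) (by simp)).ne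
  refine (Finset.sum_le_sum hmk).trans ?_
  rw [← Finset.mul_sum]
  have hsum : ∑ d ∈ Q, ∫ t, G d t * ω t = ∫ t, (∑ d ∈ Q, G d t) * ω t := by
    rw [← integral_finsetSum]
    · refine integral_congr_ae (Filter.Eventually.of_forall fun t => ?_)
      simp only
      rw [Finset.sum_mul]
    · intro d hd
      obtain ⟨M, hM'⟩ := hM d hd
      exact (elt_fubini hK (hmeas d hd) (h0 d hd) hM' hh hh1 hT'.le).2.1
  rw [hsum]
  set N : Set ℝ := Set.Icc (T₁ / 2) (T₂ + 1) with hN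
  have hbi1 : Integrable (N.indicator (fun _ : ℝ => H₁ * (h * ∫ s, wK K s))) := by
    rw [integrable_indicator_iff measurableSet_Icc]
    exact integrableOn_const (by simp)
  have hbi2 : Integrable (fun t : ℝ => H₂ * (C * h ^ (2 * K)) * (1 + t ^ 2)⁻¹) :=
    integrable_inv_one_add_sq.const_mul _
  have hpt : ∀ t, (∑ d ∈ Q, G d t) * ω t ≤ N.indicator (fun _ : ℝ => H₁ * (h * ∫ s, wK K s)) t +
      H₂ * (C * h ^ (2 * K)) * (1 + t ^ 2)⁻¹ := by
    intro t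
    have hs0 : 0 ≤ ∑ d ∈ Q, G d t := Finset.sum_nonneg fun d hd => h0 d hd t
    by_cases ht : t ∈ N
    · rw [Set.indicator_of_mem ht]
      have e1 := mul_le_mul (hnear t ht.1 ht.2) (elt_omega_le (T₁ := T₁) (T₂ := T₂) (by omega) hh t)
        (hω0 t) hH₁
      have e2 : 0 ≤ H₂ * (C * h ^ (2 * K)) * (1 + t ^ 2)⁻¹ := by positivity
      linarith
    · rw [Set.indicator_of_notMem ht, zero_add]
      have ht' : t < T₁ / 2 ∨ T₂ + 1 < t := by
        by_contra hcon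
        push Not at hcon
        exact ht ⟨hcon.1, hcon.2⟩
      have e1 := mul_le_mul (hall t) (hfar h t hh ht') (hω0 t) (by positivity)
      refine e1.trans ?_
      have e3 : (1 + t ^ 2) ^ (E + 1) ≤ (1 + t ^ 2) ^ K :=
        pow_le_pow_right₀ (by nlinarith [sq_nonneg t]) hE
      have e4 : C * h ^ (2 * K) / (1 + t ^ 2) ^ K ≤ C * h ^ (2 * K) / (1 + t ^ 2) ^ (E + 1) := by
        gcongr
      calc H₂ * (1 + t ^ 2) ^ E * (C * h ^ (2 * K) / (1 + t ^ 2) ^ K)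
          ≤ H₂ * (1 + t ^ 2) ^ E * (C * h ^ (2 * K) / (1 + t ^ 2) ^ (E + 1)) := by gcongr
        _ = H₂ * (C * h ^ (2 * K)) * (1 + t ^ 2)⁻¹ := by
            have : (1 + t ^ 2) ≠ 0 := by positivity
            field_simp
            ring
  have hint : ∫ t, (∑ d ∈ Q, G d t) * ω t ≤ (T₂ + 1) * (H₁ * (h * ∫ s, wK K s)) +
      H₂ * (C * h ^ (2 * K)) * Real.pi := by
    have e1 : ∫ t, (∑ d ∈ Q, G d t) * ω t ≤ ∫ t, (N.indicator (fun _ : ℝ => H₁ * (h * ∫ s, wK K s)) t +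
        H₂ * (C * h ^ (2 * K)) * (1 + t ^ 2)⁻¹) := by
      refine integral_mono_of_nonneg (Filter.Eventually.of_forall fun t =>
        mul_nonneg (Finset.sum_nonneg fun d hd => h0 d hd t) (hω0 t)) (hbi1.add hbi2)
        (Filter.Eventually.of_forall hpt)
    refine e1.trans ?_
    rw [integral_add hbi1 hbi2, integral_indicator measurableSet_Icc, setIntegral_const,
      integral_const_mul, integral_univ_inv_one_add_sq, smul_eq_mul, Measure.real, Real.volume_Icc,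
      ENNReal.toReal_ofReal (by linarith)]
    have : (T₂ + 1 - T₁ / 2) * (H₁ * (h * ∫ s, wK K s)) ≤ (T₂ + 1) * (H₁ * (h * ∫ s, wK K s)) := by
      refine mul_le_mul_of_nonneg_right (by linarith) (by positivity)
    linarith
  have hpow : h⁻¹ * h ^ (2 * K) = h ^ (2 * K - 1) := by
    have : 2 * K = (2 * K - 1) + 1 := by omega
    rw [this, pow_succ, Nat.add_sub_cancel]
    field_simp
  calc h⁻¹ * ∫ t, (∑ d ∈ Q, G d t) * ω t
      ≤ h⁻¹ * ((T₂ + 1) * (H₁ * (h * ∫ s, wK K s)) + H₂ * (C * h ^ (2 * K)) * Real.pi) := by gcongr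
    _ = (T₂ + 1) * (∫ s, wK K s) * H₁ * (h⁻¹ * h) + C * Real.pi * (H₂ * (h⁻¹ * h ^ (2 * K))) := by ring
    _ = (T₂ + 1) * (∫ s, wK K s) * H₁ + C * Real.pi * (H₂ * h ^ (2 * K - 1)) := by
        rw [hpow, inv_mul_cancel₀ hh.ne', mul_one]
    _ ≤ ((T₂ + 1) * (∫ s, wK K s) + C * Real.pi) * (H₁ + H₂ * h ^ (2 * K - 1)) := by
        have e1 : 0 ≤ (T₂ + 1) * (∫ s, wK K s) * (H₂ * h ^ (2 * K - 1)) := by positivity
        have e2 : 0 ≤ C * Real.pi * H₁ := by positivity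
        nlinarith

/-! ### the test function -/

theorem elt_npow_cont (n : ℕ) : Continuous (fun t : ℝ => npow n t) := by
  unfold npow
  rcases Nat.eq_zero_or_pos n with rfl | hn
  · have : (fun t : ℝ => (((0 : ℕ) : ℂ)) ^ (-(1 + (t : ℂ) * I))) = fun _ => 0 := by
      funext t
      rw [Nat.cast_zero, Complex.zero_cpow]
      intro h
      have := congrArg Complex.re h
      simp at this
    rw [this]
    exact continuous_const
  · have hn' : (n : ℂ) ≠ 0 := by exact_mod_cast hn.ne'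
    exact Continuous.const_cpow (by fun_prop) (Or.inl hn')

theorem elt_Mo'_cont (a b m : ℕ) (D : ℤ) : Continuous (fun t : ℝ => Mo' a b m D t) := by
  unfold Mo'
  exact continuous_finset_sum _ fun h _ => continuous_const.mul (elt_npow_cont h)

theorem elt_PSum_cont (a b : ℕ) (D : ℤ) : Continuous (fun t : ℝ => PSum a b D t) := by
  unfold PSum
  exact continuous_finset_sum _ fun h _ => continuous_const.mul (elt_npow_cont h)

theorem elt_gT_cont (a b m : ℕ) (D : ℤ) : Continuous (fun t : ℝ => gT a b m D t) := by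
  unfold gT theta
  refine continuous_finset_sum _ fun j _ => ?_
  refine Continuous.div_const (Continuous.pow (Continuous.neg (continuous_const.mul ?_)) _) _
  exact Complex.continuous_ofReal.comp (Complex.continuous_im.comp (elt_PSum_cont a b D))

theorem elt_big_nonneg {V x : ℝ} (hx : 0 ≤ x) : 0 ≤ big V x := by
  unfold big
  split_ifs
  · exact hx
  · exact le_refl _

theorem elt_big_le {V x : ℝ} (hx : 0 ≤ x) : big V x ≤ x := by
  unfold big
  split_ifs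
  · exact le_refl _
  · exact hx

theorem elt_big_anti {V V' x : ℝ} (hx : 0 ≤ x) (h : V' ≤ V) : big V x ≤ big V' x := by
  unfold big
  by_cases h1 : V < x
  · rw [if_pos h1, if_pos (lt_of_le_of_lt h h1)]
  · rw [if_neg h1]
    split_ifs
    · exact hx
    · exact le_refl _

theorem elt_big_meas (V : ℝ) : Measurable (big V) := by
  unfold big
  exact Measurable.ite (measurableSet_lt measurable_const measurable_id) measurable_id measurable_const

/-! ### asymptotics -/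

theorem elt_ev_LL (C s : ℝ) (hs : 0 < s) :
    ∀ᶠ L : ℝ in Filter.atTop, C * (Real.log (L + 3)) ^ C ≤ L ^ s := by
  have h1 := (isLittleO_log_rpow_rpow_atTop C hs).bound
    (show (0 : ℝ) < 1 / ((|C| + 1) * 2 ^ s) by positivity)
  have h2 : Filter.Tendsto (fun L : ℝ => L + 3) Filter.atTop Filter.atTop :=
    Filter.tendsto_atTop_add_const_right _ _ Filter.tendsto_id
  filter_upwards [h2.eventually h1, Filter.eventually_ge_atTop (3 : ℝ)] with L hL hL3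
  rw [Real.norm_of_nonneg (Real.rpow_nonneg (Real.log_nonneg (by linarith)) _),
    Real.norm_of_nonneg (Real.rpow_nonneg (by linarith) _)] at hL
  have hlog0 : 0 ≤ (Real.log (L + 3)) ^ C := Real.rpow_nonneg (Real.log_nonneg (by linarith)) _
  have h3 : (L + 3) ^ s ≤ 2 ^ s * L ^ s := by
    rw [← Real.mul_rpow (by norm_num) (by linarith)]
    exact Real.rpow_le_rpow (by linarith) (by linarith) hs.le
  have h4 : C ≤ |C| + 1 := by linarith [le_abs_self C]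
  calc C * (Real.log (L + 3)) ^ C ≤ (|C| + 1) * (Real.log (L + 3)) ^ C :=
        mul_le_mul_of_nonneg_right h4 hlog0
    _ ≤ (|C| + 1) * (1 / ((|C| + 1) * 2 ^ s) * (L + 3) ^ s) := by gcongr
    _ ≤ (|C| + 1) * (1 / ((|C| + 1) * 2 ^ s) * (2 ^ s * L ^ s)) := by gcongr
    _ = L ^ s := by
        have : (|C| + 1) ≠ 0 := by positivity
        have h5 : (2 : ℝ) ^ s ≠ 0 := by positivity
        field_simp

theorem elt_tendsto_LL : Filter.Tendsto (fun L : ℝ => Real.log (L + 3)) Filter.atTop Filter.atTop :=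
  Real.tendsto_log_atTop.comp (Filter.tendsto_atTop_add_const_right _ _ Filter.tendsto_id)

theorem elt_ev_sizes {b δ' : ℝ} (h1 : 0 < b - 2 * δ') (h2 : b + δ' < 1 - δ') (h3 : 0 < δ')
    (h4 : 0 < b) :
    ∀ᶠ L : ℝ in Filter.atTop, 1 ≤ L ∧ z0 ≤ ⌊Real.exp (L ^ (b - 2 * δ'))⌋₊ ∧
      ⌊Real.exp (L ^ (b - 2 * δ'))⌋₊ ≤ ⌈Real.exp (L ^ (b + δ'))⌉₊ ∧
      ⌈Real.exp (L ^ (b + δ'))⌉₊ ≤ ⌊Real.exp (L ^ (1 - δ'))⌋₊ ∧ 32 ≤ L ^ (δ' / 2) := by
  have t1 : Filter.Tendsto (fun L : ℝ => Real.exp (L ^ (b - 2 * δ'))) Filter.atTop Filter.atTop :=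
    Real.tendsto_exp_atTop.comp (tendsto_rpow_atTop h1)
  have t2 : Filter.Tendsto (fun L : ℝ => L ^ ((1 - δ') - (b + δ'))) Filter.atTop Filter.atTop :=
    tendsto_rpow_atTop (by linarith)
  have t3 : Filter.Tendsto (fun L : ℝ => L ^ (δ' / 2)) Filter.atTop Filter.atTop :=
    tendsto_rpow_atTop (by linarith)
  filter_upwards [t1.eventually_ge_atTop 10000, t2.eventually_ge_atTop 2, t3.eventually_ge_atTop 32,
    Filter.eventually_ge_atTop (1 : ℝ)] with L e1 e2 e3 e4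
  refine ⟨e4, ?_, ?_, ?_, e3⟩
  · unfold z0
    exact Nat.le_floor (by exact_mod_cast e1)
  · have : Real.exp (L ^ (b - 2 * δ')) ≤ Real.exp (L ^ (b + δ')) :=
      Real.exp_le_exp.mpr (Real.rpow_le_rpow_of_exponent_le e4 (by linarith))
    exact (Nat.floor_mono this).trans (Nat.floor_le_ceil _)
  · refine Nat.le_floor ?_
    have g1 : (⌈Real.exp (L ^ (b + δ'))⌉₊ : ℝ) < Real.exp (L ^ (b + δ')) + 1 :=
      Nat.ceil_lt_add_one (Real.exp_nonneg _)
    have g2 : L ^ (1 - δ') = L ^ (b + δ') * L ^ ((1 - δ') - (b + δ')) := by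
      rw [← Real.rpow_add (by linarith)]
      congr 1; ring
    have g3 : 1 ≤ L ^ (b + δ') := Real.one_le_rpow e4 (by linarith)
    have g4 : L ^ (b + δ') + 1 ≤ L ^ (1 - δ') := by rw [g2]; nlinarith
    have g5 : Real.exp (L ^ (b + δ')) + 1 ≤ Real.exp (L ^ (1 - δ')) := by
      have g6 := Real.exp_le_exp.mpr g4
      rw [Real.exp_add] at g6
      have g7 : (2 : ℝ) ≤ Real.exp 1 := by
        have := Real.add_one_le_exp (1 : ℝ); linarith
      have g8 : 1 ≤ Real.exp (L ^ (b + δ')) := by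
        have := Real.add_one_le_exp (L ^ (b + δ')); linarith
      nlinarith
    linarith

theorem elt_lam_sum : ∃ C : ℝ, 0 < C ∧ ∀ (L b δ' : ℝ), 1 ≤ L → 0 < b - 2 * δ' → 0 < δ' →
    ∑ p ∈ primesIoc ⌊Real.exp (L ^ (b - 2 * δ'))⌋₊ ⌈Real.exp (L ^ (b + δ'))⌉₊, lam2 p / p ≤
      3 * δ' * Real.log (L + 3) + C := by
  obtain ⟨C, hC⟩ := PS2
  refine ⟨|C| * (1 + Real.log 2) + Real.log 3, ?_, ?_⟩
  · have := Real.log_pos (show (1 : ℝ) < 3 by norm_num)
    have := Real.log_pos (show (1 : ℝ) < 2 by norm_num)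
    positivity
  intro L b δ' hL hb hδ
  set z₁ := ⌊Real.exp (L ^ (b - 2 * δ'))⌋₊ with hz₁
  set z := ⌈Real.exp (L ^ (b + δ'))⌉₊ with hz
  have hL0 : 0 < L := by linarith
  have p1 : 1 ≤ L ^ (b - 2 * δ') := Real.one_le_rpow hL hb.le
  have p2 : 1 ≤ L ^ (b + δ') := Real.one_le_rpow hL (by linarith)
  have q1 : 2 ≤ Real.exp (L ^ (b - 2 * δ')) := by
    have := Real.add_one_le_exp (L ^ (b - 2 * δ')); linarith
  have hz₁1 : 1 ≤ z₁ := Nat.le_floor (by push_cast; linarith)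
  have hz₁z : z₁ ≤ z := by
    have : Real.exp (L ^ (b - 2 * δ')) ≤ Real.exp (L ^ (b + δ')) :=
      Real.exp_le_exp.mpr (Real.rpow_le_rpow_of_exponent_le hL (by linarith))
    exact (Nat.floor_mono this).trans (Nat.floor_le_ceil _)
  have h0 := hC z₁ z 0 hz₁1 hz₁z
  simp only [zero_mul, Real.cos_zero, mul_one, abs_zero, add_zero] at h0
  have h1 : rho z₁ z 0 = (1 + Real.log z) / (1 + Real.log z₁) := by
    unfold rho
    simp
  rw [h1] at h0
  have hlz : Real.log z ≤ L ^ (b + δ') + 1 := by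
    have g1 : (z : ℝ) ≤ Real.exp (L ^ (b + δ') + 1) := by
      have g2 : (z : ℝ) < Real.exp (L ^ (b + δ')) + 1 := Nat.ceil_lt_add_one (Real.exp_nonneg _)
      rw [Real.exp_add]
      have g7 : (2 : ℝ) ≤ Real.exp 1 := by
        have := Real.add_one_le_exp (1 : ℝ); linarith
      have g8 : 1 ≤ Real.exp (L ^ (b + δ')) := Real.one_le_exp (by linarith)
      nlinarith
    have g3 : 0 < (z : ℝ) := by
      have : 1 ≤ z := hz₁1.trans hz₁z
      exact_mod_cast this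
    have := Real.log_le_log g3 g1
    rwa [Real.log_exp] at this
  have hlz₁ : L ^ (b - 2 * δ') ≤ 1 + Real.log z₁ := by
    have g1 : Real.exp (L ^ (b - 2 * δ')) / 2 ≤ z₁ := by
      have g2 : Real.exp (L ^ (b - 2 * δ')) - 1 < z₁ := Nat.sub_one_lt_floor _
      linarith
    have g3 := Real.log_le_log (by positivity) g1
    rw [Real.log_div (Real.exp_ne_zero _) (by norm_num), Real.log_exp] at g3
    have g4 : Real.log 2 ≤ 1 := by
      have := Real.log_le_sub_one_of_pos (show (0 : ℝ) < 2 by norm_num)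
      linarith
    linarith
  have hlz0 : 0 ≤ Real.log z := Real.log_natCast_nonneg _
  have hratio : (1 + Real.log z) / (1 + Real.log z₁) ≤ 3 * L ^ (3 * δ') := by
    rw [div_le_iff₀ (by linarith)]
    have g1 : L ^ (b + δ') = L ^ (3 * δ') * L ^ (b - 2 * δ') := by
      rw [← Real.rpow_add hL0]; congr 1; ring
    have g2 : 0 < L ^ (3 * δ') := Real.rpow_pos_of_pos hL0 _
    calc 1 + Real.log z ≤ 3 * L ^ (b + δ') := by linarith
      _ = 3 * L ^ (3 * δ') * L ^ (b - 2 * δ') := by rw [g1]; ring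
      _ ≤ 3 * L ^ (3 * δ') * (1 + Real.log z₁) := by gcongr
  have hlog : Real.log ((1 + Real.log z) / (1 + Real.log z₁)) ≤
      3 * δ' * Real.log (L + 3) + Real.log 3 := by
    have g1 := Real.log_le_log (by positivity) hratio
    rw [Real.log_mul (by norm_num) (Real.rpow_pos_of_pos hL0 _).ne', Real.log_rpow hL0] at g1
    have g2 : Real.log L ≤ Real.log (L + 3) := Real.log_le_log hL0 (by linarith)
    have g3 : 3 * δ' * Real.log L ≤ 3 * δ' * Real.log (L + 3) := by gcongr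
    linarith
  have h2 := (abs_le.mp h0).2
  have h3 : C * (1 + Real.log 2) ≤ |C| * (1 + Real.log 2) := by
    refine mul_le_mul_of_nonneg_right (le_abs_self C) ?_
    have := Real.log_pos (show (1 : ℝ) < 2 by norm_num)
    linarith
  linarith

/-! ### sums over the family -/

theorem elt_log_two_mul {X : ℕ} (hX : 3 ≤ X) : Real.log ((2 * X : ℕ) : ℝ) ≤ 2 * Real.log X := by
  have hX' : (3 : ℝ) ≤ X := by exact_mod_cast hX
  have h1 : ((2 * X : ℕ) : ℝ) ≤ (X : ℝ) ^ 2 := by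
    push_cast
    nlinarith
  have h2 := Real.log_le_log (by push_cast; linarith) h1
  rwa [Real.log_pow] at h2

theorem elt_sum_sq : ∃ A : ℕ, ∀ (X : ℕ) (t : ℝ), 3 ≤ X →
    ∑ d ∈ (Ioc X (2 * X)).filter Squarefree, ‖Lf d (1 + t * I)‖ ^ 2 ≤
      (A * 2 ^ A * 2) * (Real.log X) ^ A * (1 + |t|) ^ A * X := by
  obtain ⟨A, hA⟩ := crit_second_moment
  refine ⟨A, fun X t hX => ?_⟩
  have h1 := hA (2 * X) t (by omega)
  have h2 : ∑ d ∈ (Ioc X (2 * X)).filter Squarefree, ‖Lf d (1 + t * I)‖ ^ 2 ≤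
      ∑ d ∈ (Icc 1 (2 * X)).filter Squarefree, ‖Lf d (1 + t * I)‖ ^ 2 := by
    refine Finset.sum_le_sum_of_subset_of_nonneg ?_ fun _ _ _ => by positivity
    intro d hd
    rw [Finset.mem_filter, Finset.mem_Ioc] at hd
    rw [Finset.mem_filter, Finset.mem_Icc]
    exact ⟨⟨by omega, hd.1.2⟩, hd.2⟩
  refine h2.trans (h1.trans ?_)
  have hlog := elt_log_two_mul hX
  have hX' : (3 : ℝ) ≤ X := by exact_mod_cast hX
  have hl0 : 0 ≤ Real.log ((2 * X : ℕ) : ℝ) := Real.log_natCast_nonneg _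
  calc (A : ℝ) * (Real.log ((2 * X : ℕ) : ℝ)) ^ A * (1 + |t|) ^ A * ((2 * X : ℕ) : ℝ)
      ≤ A * (2 * Real.log X) ^ A * (1 + |t|) ^ A * ((2 * X : ℕ) : ℝ) := by gcongr
    _ = (A * 2 ^ A * 2) * (Real.log X) ^ A * (1 + |t|) ^ A * X := by
        rw [mul_pow]; push_cast; ring

/-- the family average dominates the sum over squarefree numbers, also for thresholds -/
theorem elt_sum_big {z₁ z y m : ℕ} (h1 : z0 ≤ z₁) (h2 : z₁ ≤ z) (h3 : z ≤ y) {X : ℕ} (hX : 1 ≤ X)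
    {V V' : ℝ} (hV : V' ≤ V) (t : ℝ) :
    ∑ d ∈ (Ioc X (2 * X)).filter Squarefree, (big V ‖Mo' z₁ z m d t * gT z y m d t‖) ^ 2 ≤
      30 * X * ED X (fun D => (big V' ‖Mo' z₁ z m D t * gT z y m D t‖) ^ 2) ∧
    ∑ d ∈ (Ioc X (2 * X)).filter Squarefree, (big V ‖Mo' z₁ z m d t * gT z y m d t‖) ^ 2 ≤
      30 * X * ED X (fun D => ‖Mo' z₁ z m D t * gT z y m D t‖ ^ 2) := by
  have hy2 : 2 ≤ y := by unfold z0 at h1; omega
  have hb : ∀ D : ℤ, ‖Mo' z₁ z m D t * gT z y m D t‖ ≤ (z : ℝ) ^ m * (3 * (y : ℝ) ^ m) := by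
    intro D
    rw [norm_mul]
    exact mul_le_mul (CP_bdd (CP_Mo' (m := m) h1 h2 t) D) (CP_bdd (CP_gT (z := z) (m := m) hy2 t) D)
      (norm_nonneg _) (by positivity)
  set B : ℝ := (z : ℝ) ^ m * (3 * (y : ℝ) ^ m) with hB
  constructor
  · refine le_trans ?_ (ED_family hX (f := fun D => (big V' ‖Mo' z₁ z m D t * gT z y m D t‖) ^ 2)
      (B := B ^ 2) (fun D => by positivity) (fun D => ?_))
    · refine Finset.sum_le_sum fun d _ => ?_
      exact pow_le_pow_left₀ (elt_big_nonneg (norm_nonneg _)) (elt_big_anti (norm_nonneg _) hV) 2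
    · exact pow_le_pow_left₀ (elt_big_nonneg (norm_nonneg _))
        ((elt_big_le (norm_nonneg _)).trans (hb D)) 2
  · refine le_trans ?_ (ED_family hX (f := fun D => ‖Mo' z₁ z m D t * gT z y m D t‖ ^ 2)
      (B := B ^ 2) (fun D => by positivity) (fun D => ?_))
    · refine Finset.sum_le_sum fun d _ => ?_
      exact pow_le_pow_left₀ (elt_big_nonneg (norm_nonneg _)) (elt_big_le (norm_nonneg _)) 2
    · exact pow_le_pow_left₀ (norm_nonneg _) (hb D) 2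

/-- properties of one function -/
theorem elt_G {d : ℕ} (hd : Squarefree d) {z₁ z y m : ℕ} (h1 : z0 ≤ z₁) (h2 : z₁ ≤ z) (h3 : z ≤ y)
    (V : ℝ) : Measurable (fun t : ℝ => ‖Lf d (1 + t * I)‖ * big V ‖Mo' z₁ z m d t * gT z y m d t‖) ∧
    (∀ t : ℝ, 0 ≤ ‖Lf d (1 + t * I)‖ * big V ‖Mo' z₁ z m d t * gT z y m d t‖) ∧
    ∃ M : ℝ, ∀ t : ℝ, ‖Lf d (1 + t * I)‖ * big V ‖Mo' z₁ z m d t * gT z y m d t‖ ≤
      M * (1 + t ^ 2) := by
  have hy2 : 2 ≤ y := by unfold z0 at h1; omega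
  have hLc : Continuous (fun t : ℝ => Lf d (1 + t * I)) :=
    (Pool.Agent.ZD.Lf_spec hd).1.continuous.comp (by fun_prop)
  have hTc : Continuous (fun t : ℝ => ‖Mo' z₁ z m d t * gT z y m d t‖) :=
    ((elt_Mo'_cont _ _ _ _).mul (elt_gT_cont _ _ _ _)).norm
  refine ⟨hLc.norm.measurable.mul ((elt_big_meas V).comp hTc.measurable),
    fun t => mul_nonneg (norm_nonneg _) (elt_big_nonneg (norm_nonneg _)), ?_⟩
  obtain ⟨C, hC⟩ := Lf_poly
  set B : ℝ := (z : ℝ) ^ m * (3 * (y : ℝ) ^ m) with hB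
  have hB0 : 0 ≤ B := by positivity
  have hpt : ∀ t : ℝ, ‖Lf d (1 + t * I)‖ ≤ C * d * (1 + |t|) ^ 2 := by
    intro t
    have := hC d (1 + t * I) hd (by simp) (by simp)
    simpa using this
  have hCd : 0 ≤ C * d := by
    have := (norm_nonneg _).trans (hpt 0)
    simpa using this
  refine ⟨C * d * 2 * B, fun t => ?_⟩
  have e1 : big V ‖Mo' z₁ z m d t * gT z y m d t‖ ≤ B := by
    refine (elt_big_le (norm_nonneg _)).trans ?_
    rw [norm_mul]
    exact mul_le_mul (CP_bdd (CP_Mo' (m := m) h1 h2 t) d) (CP_bdd (CP_gT (z := z) (m := m) hy2 t) d)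
      (norm_nonneg _) (by positivity)
  have e2 : (1 + |t|) ^ 2 ≤ 2 * (1 + t ^ 2) := by
    have := sq_nonneg (1 - |t|)
    nlinarith [sq_abs t]
  calc ‖Lf d (1 + t * I)‖ * big V ‖Mo' z₁ z m d t * gT z y m d t‖
      ≤ (C * d * (1 + |t|) ^ 2) * B :=
        mul_le_mul (hpt t) e1 (elt_big_nonneg (norm_nonneg _)) (by positivity)
    _ ≤ (C * d * (2 * (1 + t ^ 2))) * B := by gcongr
    _ = C * d * 2 * B * (1 + t ^ 2) := by ring

/-- ELT: the large values of the test function -/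
theorem E_lowT (T₁ T₂ b δ : ℝ) (hT : 0 < T₁) (hT' : T₁ < T₂) (hb : 1 / 2 < b) (hb' : b < 1)
    (hδ : 0 < δ) : ∃ δ₀ : ℝ, 0 < δ₀ ∧ ∀ δ' : ℝ, 0 < δ' → δ' ≤ δ₀ → ∃ K₀ : ℕ, ∀ K : ℕ, K₀ ≤ K →
    ∃ κ C : ℝ, 0 < κ ∧ ∀ (X m z₁ z y : ℕ), 3 ≤ X →
    C * Real.log (Real.log X + 3) ≤ m → (m : ℝ) ≤ (Real.log X) ^ (δ' / 2) →
    z₁ = ⌊Real.exp ((Real.log X) ^ (b - 2 * δ'))⌋₊ → z = ⌈Real.exp ((Real.log X) ^ (b + δ'))⌉₊ →
    y = ⌊Real.exp ((Real.log X) ^ (1 - δ'))⌋₊ →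
    ∑ d ∈ (Ioc X (2 * X)).filter Squarefree, (volume {t₀ : ℝ | t₀ ∈ Set.Icc T₁ T₂ ∧
      1 < (Real.log X) ^ b * ∫ t : ℝ, ‖Lf d (1 + t * I)‖ *
        big ((Real.log X) ^ δ) ‖Mo' z₁ z m d t * gT z y m d t‖ *
          wK K ((t - t₀) / (Real.log X) ^ (-b))}).toReal ≤
      C * X / (Real.log X) ^ κ := by
  obtain ⟨A, hA⟩ := elt_sum_sq
  obtain ⟨C₁', hC₁'⟩ := TT_tail (2 * A + 2) (T₁ / 2) (T₂ + 1) (by linarith)
  obtain ⟨C₂', hC₂'⟩ := TT_crude
  obtain ⟨C₃, hC₃, hlam⟩ := elt_lam_sum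
  set C₁ : ℝ := max C₁' 1 with hC₁
  set C₂ : ℝ := max C₂' 1 with hC₂
  have hC₁1 : 1 ≤ C₁ := le_max_right _ _
  have hC₂1 : 1 ≤ C₂ := le_max_right _ _
  set u : ℝ := min (δ / 2) 1 with hu
  have hu0 : 0 < u := lt_min (by linarith) one_pos
  have hu1 : u ≤ 1 := min_le_right _ _
  have huδ : u < δ := lt_of_le_of_lt (min_le_left _ _) (by linarith)
  refine ⟨min (min (b / 4) ((1 - b) / 4)) (u ^ 2 / (6 * C₁)), ?_, ?_⟩
  · refine lt_min (lt_min (by linarith) (by linarith)) (by positivity)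
  intro δ' hδ'0 hδ'
  have hd1 : δ' ≤ b / 4 := hδ'.trans ((min_le_left _ _).trans (min_le_left _ _))
  have hd2 : δ' ≤ (1 - b) / 4 := hδ'.trans ((min_le_left _ _).trans (min_le_right _ _))
  have hd3 : δ' ≤ u ^ 2 / (6 * C₁) := hδ'.trans (min_le_right _ _)
  have hd3' : C₁ * (3 * δ') ≤ u ^ 2 / 2 := by
    rw [le_div_iff₀ (by positivity)] at hd3
    linarith
  set e : ℕ := A + ⌈C₂⌉₊ with he
  refine ⟨e + 2, ?_⟩
  intro K hK
  have hK2 : 2 ≤ K := by omega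
  have hKA : A + 1 ≤ K := by omega
  obtain ⟨C₄, hC₄, hmain⟩ := elt_main hT hT' hK2
  -- constants
  set c₁ : ℝ := (A * 2 ^ A * 2) * (T₂ + 2) ^ A + 30 * C₁ with hc₁
  set c₂ : ℝ := (A * 2 ^ A * 2) * 2 ^ A + 30 * C₂ with hc₂
  have hT2 : 0 < T₂ := by linarith
  have hc₁0 : 0 ≤ c₁ := by positivity
  have hc₂0 : 0 ≤ c₂ := by positivity
  -- large `X`
  have hLtop : Filter.Tendsto (fun X : ℕ => Real.log (X : ℝ)) Filter.atTop Filter.atTop :=
    Real.tendsto_log_atTop.comp tendsto_natCast_atTop_atTop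
  have ev : ∀ᶠ X : ℕ in Filter.atTop, max C₁ C₂ ≤ X ∧
      (1 ≤ Real.log X ∧ z0 ≤ ⌊Real.exp ((Real.log X) ^ (b - 2 * δ'))⌋₊ ∧
      ⌊Real.exp ((Real.log X) ^ (b - 2 * δ'))⌋₊ ≤ ⌈Real.exp ((Real.log X) ^ (b + δ'))⌉₊ ∧
      ⌈Real.exp ((Real.log X) ^ (b + δ'))⌉₊ ≤ ⌊Real.exp ((Real.log X) ^ (1 - δ'))⌋₊ ∧
      32 ≤ (Real.log X) ^ (δ' / 2)) ∧
      C₁ * (Real.log (Real.log X + 3)) ^ C₁ ≤ (Real.log X) ^ (δ - u) ∧
      C₁ * (1 + C₃) ≤ (u ^ 2 / 2) * Real.log (Real.log X + 3) := by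
    refine (tendsto_natCast_atTop_atTop.eventually_ge_atTop (max C₁ C₂)).and
      ((hLtop.eventually (elt_ev_sizes (by linarith) (by linarith) hδ'0 (by linarith))).and
      ((hLtop.eventually (elt_ev_LL C₁ (δ - u) (by linarith))).and ?_))
    have h1 : Filter.Tendsto (fun X : ℕ => (u ^ 2 / 2) * Real.log (Real.log (X : ℝ) + 3))
        Filter.atTop Filter.atTop :=
      (elt_tendsto_LL.comp hLtop).const_mul_atTop (by positivity)
    exact h1.eventually_ge_atTop _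
  obtain ⟨X₀, hX₀⟩ := Filter.eventually_atTop.mp ev
  set C : ℝ := max (max C₁ C₂) (max (C₄ * (c₁ + c₂)) ((T₂ - T₁) * Real.log (X₀ + 3 : ℕ))) with hCdef
  refine ⟨1, C, one_pos, ?_⟩
  intro X m z₁ z y hX hm1 hm2 hz₁ hz hy
  have hX3 : (3 : ℝ) ≤ X := by exact_mod_cast hX
  have hlog1 : 1 ≤ Real.log X := by
    rw [Real.le_log_iff_exp_le (by linarith)]
    linarith [Real.exp_one_lt_three]
  have hlog0 : 0 < Real.log X := by linarith
  have hLL1 : 1 ≤ Real.log (Real.log X + 3) := by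
    rw [Real.le_log_iff_exp_le (by linarith)]
    linarith [Real.exp_one_lt_three]
  rw [Real.rpow_one]
  rcases lt_or_ge X X₀ with hsmall | hlarge
  · -- small `X`
    have h1 : ∀ d ∈ (Ioc X (2 * X)).filter Squarefree, (volume {t₀ : ℝ | t₀ ∈ Set.Icc T₁ T₂ ∧
        1 < (Real.log X) ^ b * ∫ t : ℝ, ‖Lf d (1 + t * I)‖ *
        big ((Real.log X) ^ δ) ‖Mo' z₁ z m d t * gT z y m d t‖ *
          wK K ((t - t₀) / (Real.log X) ^ (-b))}).toReal ≤ T₂ - T₁ := by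
      intro d _
      have h2 : (volume (Set.Icc T₁ T₂)).toReal = T₂ - T₁ := by
        rw [Real.volume_Icc, ENNReal.toReal_ofReal (by linarith)]
      rw [← h2]
      exact ENNReal.toReal_mono (by simp) (measure_mono fun t ht => ht.1)
    have hcard : (((Ioc X (2 * X)).filter Squarefree).card : ℝ) ≤ X := by
      have : ((Ioc X (2 * X)).filter Squarefree).card ≤ X := by
        refine (Finset.card_filter_le _ _).trans ?_
        rw [Nat.card_Ioc]; omega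
      exact_mod_cast this
    have h3 : (T₂ - T₁) * Real.log X ≤ C := by
      have h4 : Real.log X ≤ Real.log ((X₀ + 3 : ℕ) : ℝ) := by
        refine Real.log_le_log (by linarith) ?_
        exact_mod_cast (by omega : X ≤ X₀ + 3)
      refine (mul_le_mul_of_nonneg_left h4 (by linarith)).trans ?_
      exact (le_max_right _ _).trans (le_max_right _ _)
    calc _ ≤ ∑ d ∈ (Ioc X (2 * X)).filter Squarefree, (T₂ - T₁) := Finset.sum_le_sum h1
      _ = ((Ioc X (2 * X)).filter Squarefree).card * (T₂ - T₁) := by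
          rw [Finset.sum_const, nsmul_eq_mul]
      _ ≤ X * (T₂ - T₁) := by
          refine mul_le_mul_of_nonneg_right hcard (by linarith)
      _ = ((T₂ - T₁) * Real.log X) * X / Real.log X := by field_simp
      _ ≤ C * X / Real.log X := by gcongr
  -- large `X`
  obtain ⟨v1, ⟨v2, v3, v4, v5, v6⟩, v7, v8⟩ := hX₀ X hlarge
  rw [← hz₁] at v3 v4
  rw [← hz] at v4 v5
  rw [← hy] at v5
  have hCC : max C₁ C₂ ≤ C := le_max_left _ _
  have hCC₁ : C₁ ≤ C := (le_max_left _ _).trans hCC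
  have hCC₂ : C₂ ≤ C := (le_max_right _ _).trans hCC
  -- size of `y`
  have hy32 : ((y : ℝ) ^ (8 * m)) ^ 4 ≤ X := by
    have e1 : (y : ℝ) ≤ Real.exp ((Real.log X) ^ (1 - δ')) := by
      rw [hy]; exact Nat.floor_le (Real.exp_nonneg _)
    have e2 : ((y : ℝ) ^ (8 * m)) ^ 4 ≤ Real.exp ((32 * m : ℕ) * (Real.log X) ^ (1 - δ')) := by
      rw [← pow_mul, Real.exp_nat_mul]
      have : 8 * m * 4 = 32 * m := by ring
      rw [this]
      exact pow_le_pow_left₀ (by positivity) e1 _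
    refine e2.trans ?_
    rw [← Real.le_log_iff_exp_le (by linarith)]
    have e3 : (Real.log X) ^ (1 - δ') * ((Real.log X) ^ (δ' / 2) * (Real.log X) ^ (δ' / 2)) =
        Real.log X := by
      rw [← Real.rpow_add hlog0, ← Real.rpow_add hlog0]
      have : 1 - δ' + (δ' / 2 + δ' / 2) = 1 := by ring
      rw [this, Real.rpow_one]
    have e4 : 0 ≤ (Real.log X) ^ (1 - δ') := Real.rpow_nonneg hlog0.le _
    push_cast
    calc 32 * (m : ℝ) * (Real.log X) ^ (1 - δ')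
        ≤ (Real.log X) ^ (δ' / 2) * (Real.log X) ^ (δ' / 2) * (Real.log X) ^ (1 - δ') := by gcongr
      _ = Real.log X := by rw [mul_comm, e3]
  have hsum_lam : ∑ p ∈ primesIoc z₁ z, lam2 p / p ≤ 3 * δ' * Real.log (Real.log X + 3) + C₃ := by
    rw [hz₁, hz]
    exact hlam (Real.log X) b δ' v2 (by linarith) hδ'0
  have hsum_lam0 : 0 ≤ ∑ p ∈ primesIoc z₁ z, lam2 p / p := by
    refine Finset.sum_nonneg fun p _ => ?_
    unfold lam2
    positivity
  have hcond : C₁ * (∑ p ∈ primesIoc z₁ z, lam2 p / p) ≤ u ^ 2 * Real.log (Real.log X + 3) := by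
    have e1 := mul_le_mul_of_nonneg_left hsum_lam (by linarith : (0 : ℝ) ≤ C₁)
    have e2 : C₁ * (3 * δ') * Real.log (Real.log X + 3) ≤ u ^ 2 / 2 * Real.log (Real.log X + 3) := by
      gcongr
    nlinarith
  have hcond2 : C₁ ≤ u ^ 2 * Real.log (Real.log X + 3) := by
    have : 0 ≤ u ^ 2 * Real.log (Real.log X + 3) := by positivity
    nlinarith
  set V : ℝ := (Real.log X) ^ δ with hV
  set V' : ℝ := C₁' * (Real.log (Real.log X + 3)) ^ C₁' * (Real.log X) ^ u with hV'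
  have hVV : V' ≤ V := by
    have e1 : C₁' * (Real.log (Real.log X + 3)) ^ C₁' ≤ C₁ * (Real.log (Real.log X + 3)) ^ C₁ := by
      have g1 : 0 ≤ (Real.log (Real.log X + 3)) ^ C₁' := Real.rpow_nonneg (by linarith) _
      calc C₁' * (Real.log (Real.log X + 3)) ^ C₁' ≤ C₁ * (Real.log (Real.log X + 3)) ^ C₁' :=
            mul_le_mul_of_nonneg_right (le_max_left _ _) g1
        _ ≤ C₁ * (Real.log (Real.log X + 3)) ^ C₁ := by
            refine mul_le_mul_of_nonneg_left ?_ (by linarith)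
            exact Real.rpow_le_rpow_of_exponent_le hLL1 (le_max_left _ _)
    have e2 : 0 ≤ (Real.log X) ^ u := Real.rpow_nonneg hlog0.le _
    calc V' ≤ (C₁ * (Real.log (Real.log X + 3)) ^ C₁) * (Real.log X) ^ u :=
          mul_le_mul_of_nonneg_right e1 e2
      _ ≤ (Real.log X) ^ (δ - u) * (Real.log X) ^ u := mul_le_mul_of_nonneg_right v7 e2
      _ = V := by rw [← Real.rpow_add hlog0, hV]; congr 1; ring
  have hm1' : ∀ c : ℝ, c ≤ C → c * Real.log (Real.log X + 3) ≤ m := fun c hc =>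
    (mul_le_mul_of_nonneg_right hc (by linarith)).trans hm1
  set Q := (Ioc X (2 * X)).filter Squarefree with hQ
  set G : ℕ → ℝ → ℝ := fun d t => ‖Lf d (1 + t * I)‖ * big V ‖Mo' z₁ z m d t * gT z y m d t‖ with hG
  have hX1 : 1 ≤ X := by omega
  -- near part
  have hnear : ∀ t, T₁ / 2 ≤ t → t ≤ T₂ + 1 → ∑ d ∈ Q, G d t ≤ c₁ * X / Real.log X := by
    intro t ht1 ht2
    have s1 := hA X t hX
    have s2 := (elt_sum_big v3 v4 v5 (m := m) hX1 hVV t).1
    have s3 := hC₁' X t u z₁ z y m ((le_max_left C₁' 1).trans ((le_max_left _ _).trans v1)) ht1 ht2 v3 v4 v5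
      (hm1' _ ((le_max_left _ _).trans hCC₁)) hy32 hu0 hu1
      ((mul_le_mul_of_nonneg_right (le_max_left _ _) hsum_lam0).trans hcond)
      ((le_max_left _ _).trans hcond2)
    have habs : |t| ≤ T₂ + 1 := by rw [abs_of_pos (by linarith)]; exact ht2
    set L := Real.log X with hL
    have hGd : ∀ d ∈ Q, G d t ≤ (L ^ (A + 1))⁻¹ * ‖Lf d (1 + t * I)‖ ^ 2 +
        L ^ (A + 1) * (big V ‖Mo' z₁ z m d t * gT z y m d t‖) ^ 2 := by
      intro d _
      simp only [hG]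
      set p := ‖Lf d (1 + t * I)‖
      set q := big V ‖Mo' z₁ z m d t * gT z y m d t‖
      have hl : 0 < L ^ (A + 1) := by positivity
      have h5 : 0 ≤ (L ^ (A + 1))⁻¹ * (p - L ^ (A + 1) * q) ^ 2 := by positivity
      have h6 : (L ^ (A + 1))⁻¹ * (p - L ^ (A + 1) * q) ^ 2 =
          (L ^ (A + 1))⁻¹ * p ^ 2 - 2 * p * q + L ^ (A + 1) * q ^ 2 := by
        field_simp
        ring
      have h7 : 0 ≤ (L ^ (A + 1))⁻¹ * p ^ 2 + L ^ (A + 1) * q ^ 2 := by positivity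
      linarith
    have hs := Finset.sum_le_sum hGd
    rw [Finset.sum_add_distrib, ← Finset.mul_sum, ← Finset.mul_sum] at hs
    have t1 : (L ^ (A + 1))⁻¹ * ∑ d ∈ Q, ‖Lf d (1 + t * I)‖ ^ 2 ≤
        (A * 2 ^ A * 2) * (T₂ + 2) ^ A * X / L := by
      have g1 : (1 + |t|) ^ A ≤ (T₂ + 2) ^ A := pow_le_pow_left₀ (by positivity) (by linarith) A
      calc (L ^ (A + 1))⁻¹ * ∑ d ∈ Q, ‖Lf d (1 + t * I)‖ ^ 2
          ≤ (L ^ (A + 1))⁻¹ * ((A * 2 ^ A * 2) * L ^ A * (1 + |t|) ^ A * X) := by gcongr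
        _ ≤ (L ^ (A + 1))⁻¹ * ((A * 2 ^ A * 2) * L ^ A * (T₂ + 2) ^ A * X) := by gcongr
        _ = (A * 2 ^ A * 2) * (T₂ + 2) ^ A * X / L := by
            have hL0 : L ≠ 0 := hlog0.ne'
            field_simp
            ring
    have t2 : L ^ (A + 1) * ∑ d ∈ Q, (big V ‖Mo' z₁ z m d t * gT z y m d t‖) ^ 2 ≤
        30 * C₁ * X / L := by
      calc L ^ (A + 1) * ∑ d ∈ Q, (big V ‖Mo' z₁ z m d t * gT z y m d t‖) ^ 2
          ≤ L ^ (A + 1) * (30 * X * (C₁' / L ^ (2 * A + 2))) := by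
            refine mul_le_mul_of_nonneg_left (s2.trans ?_) (by positivity)
            exact mul_le_mul_of_nonneg_left s3 (by positivity)
        _ ≤ L ^ (A + 1) * (30 * X * (C₁ / L ^ (2 * A + 2))) := by
            gcongr
            exact le_max_left _ _
        _ = 30 * C₁ * X / L ^ (A + 1) := by
            have hL0 : L ≠ 0 := hlog0.ne'
            field_simp
            ring
        _ ≤ 30 * C₁ * X / L := by
            gcongr
            exact le_self_pow₀ hlog1 (by omega)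
    calc ∑ d ∈ Q, G d t ≤ _ := hs
      _ ≤ (A * 2 ^ A * 2) * (T₂ + 2) ^ A * X / L + 30 * C₁ * X / L := add_le_add t1 t2
      _ = c₁ * X / L := by rw [hc₁]; ring
  -- far part
  have hall : ∀ t, ∑ d ∈ Q, G d t ≤ (c₂ * X * (Real.log X) ^ e) * (1 + t ^ 2) ^ A := by
    intro t
    have s1 := hA X t hX
    have s2 := (elt_sum_big v3 v4 v5 (m := m) hX1 hVV t).2
    have s3 := hC₂' X t z₁ z y m ((le_max_left C₂' 1).trans ((le_max_right _ _).trans v1)) v3 v4 v5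
      (hm1' _ ((le_max_left _ _).trans hCC₂)) hy32
    set L := Real.log X with hL
    have hGd : ∀ d ∈ Q, G d t ≤ ‖Lf d (1 + t * I)‖ ^ 2 +
        (big V ‖Mo' z₁ z m d t * gT z y m d t‖) ^ 2 := by
      intro d _
      simp only [hG]
      nlinarith [sq_nonneg (‖Lf d (1 + t * I)‖ - big V ‖Mo' z₁ z m d t * gT z y m d t‖),
        sq_nonneg (‖Lf d (1 + t * I)‖), sq_nonneg (big V ‖Mo' z₁ z m d t * gT z y m d t‖)]
    have hs := Finset.sum_le_sum hGd
    rw [Finset.sum_add_distrib] at hs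
    have g1 : (1 + |t|) ^ A ≤ 2 ^ A * (1 + t ^ 2) ^ A := by
      rw [← mul_pow]
      refine pow_le_pow_left₀ (by positivity) ?_ A
      nlinarith [sq_nonneg (1 - |t|), sq_abs t, abs_nonneg t]
    have g2 : (1 : ℝ) ≤ (1 + t ^ 2) ^ A := one_le_pow₀ (by nlinarith [sq_nonneg t])
    have g3 : L ^ A ≤ L ^ e := pow_le_pow_right₀ hlog1 (by omega)
    have g4 : L ^ C₂ ≤ L ^ e := by
      rw [← Real.rpow_natCast L e]
      refine Real.rpow_le_rpow_of_exponent_le hlog1 ?_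
      refine (Nat.le_ceil C₂).trans ?_
      exact_mod_cast (by omega : ⌈C₂⌉₊ ≤ e)
    have g5 : C₂' * L ^ C₂' ≤ C₂ * L ^ e := by
      have g6 : 0 ≤ L ^ C₂' := Real.rpow_nonneg hlog0.le _
      calc C₂' * L ^ C₂' ≤ C₂ * L ^ C₂' := mul_le_mul_of_nonneg_right (le_max_left _ _) g6
        _ ≤ C₂ * L ^ C₂ := by
            refine mul_le_mul_of_nonneg_left ?_ (by linarith)
            exact Real.rpow_le_rpow_of_exponent_le hlog1 (le_max_left _ _)
        _ ≤ C₂ * L ^ e := by gcongr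
    have t1 : ∑ d ∈ Q, ‖Lf d (1 + t * I)‖ ^ 2 ≤
        (A * 2 ^ A * 2) * L ^ e * (2 ^ A * (1 + t ^ 2) ^ A) * X := by
      refine s1.trans ?_
      gcongr
    have t2 : ∑ d ∈ Q, (big V ‖Mo' z₁ z m d t * gT z y m d t‖) ^ 2 ≤
        30 * X * (C₂ * L ^ e) * (1 + t ^ 2) ^ A := by
      refine s2.trans ?_
      have g7 : 30 * (X : ℝ) * ED X (fun D => ‖Mo' z₁ z m D t * gT z y m D t‖ ^ 2) ≤
          30 * X * (C₂ * L ^ e) :=
        mul_le_mul_of_nonneg_left (s3.trans g5) (by positivity)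
      refine g7.trans ?_
      exact le_mul_of_one_le_right (by positivity) g2
    calc ∑ d ∈ Q, G d t ≤ _ := hs
      _ ≤ (A * 2 ^ A * 2) * L ^ e * (2 ^ A * (1 + t ^ 2) ^ A) * X +
          30 * X * (C₂ * L ^ e) * (1 + t ^ 2) ^ A := add_le_add t1 t2
      _ = (c₂ * X * L ^ e) * (1 + t ^ 2) ^ A := by rw [hc₂]; ring
  have hh : 0 < (Real.log X) ^ (-b) := Real.rpow_pos_of_pos hlog0 _
  have hh1 : (Real.log X) ^ (-b) ≤ 1 := Real.rpow_le_one_of_one_le_of_nonpos hlog1 (by linarith)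
  have hinv : ((Real.log X) ^ (-b))⁻¹ = (Real.log X) ^ b := by
    rw [Real.rpow_neg hlog0.le, inv_inv]
  have hfin := hmain Q G ((Real.log X) ^ (-b)) (c₁ * X / Real.log X) (c₂ * X * (Real.log X) ^ e) A hKA
    (fun d hd => (elt_G (Finset.mem_filter.mp hd).2 v3 v4 v5 V).1)
    (fun d hd => (elt_G (Finset.mem_filter.mp hd).2 v3 v4 v5 V).2.1)
    (fun d hd => (elt_G (Finset.mem_filter.mp hd).2 v3 v4 v5 V).2.2)
    hh hh1 (by positivity) (by positivity) hnear hall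
  rw [hinv] at hfin
  refine hfin.trans ?_
  have hpow : (Real.log X) ^ e * ((Real.log X) ^ (-b)) ^ (2 * K - 1) ≤ 1 / Real.log X := by
    rw [← Real.rpow_natCast (Real.log X) e, ← Real.rpow_natCast, ← Real.rpow_mul hlog0.le,
      ← Real.rpow_add hlog0, one_div, ← Real.rpow_neg_one]
    refine Real.rpow_le_rpow_of_exponent_le hlog1 ?_
    have h1 : ((2 * K - 1 : ℕ) : ℝ) = 2 * K - 1 := by
      rw [Nat.cast_sub (by omega)]; push_cast; ring
    rw [h1]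
    have h2 : (e : ℝ) + 2 ≤ K := by exact_mod_cast hK
    nlinarith
  have hsplit : C₄ * (c₁ * X / Real.log X + c₂ * X * (Real.log X) ^ e *
      ((Real.log X) ^ (-b)) ^ (2 * K - 1)) ≤ C₄ * (c₁ + c₂) * X / Real.log X := by
    have h1 : c₂ * X * (Real.log X) ^ e * ((Real.log X) ^ (-b)) ^ (2 * K - 1) ≤
        c₂ * X * (1 / Real.log X) := by
      rw [mul_assoc (c₂ * X)]
      exact mul_le_mul_of_nonneg_left hpow (by positivity)
    calc C₄ * (c₁ * X / Real.log X + c₂ * X * (Real.log X) ^ e *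
          ((Real.log X) ^ (-b)) ^ (2 * K - 1))
        ≤ C₄ * (c₁ * X / Real.log X + c₂ * X * (1 / Real.log X)) := by gcongr
      _ = C₄ * (c₁ + c₂) * X / Real.log X := by ring
  refine hsplit.trans ?_
  have hfinal : C₄ * (c₁ + c₂) ≤ C := (le_max_left _ _).trans (le_max_right _ _)
  gcongr

end Pool.Agent.CZ
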