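import Mathlib
import Pool.Agent.CZ.CPL
import Pool.Agent.CZ.EDL
import Pool.Agent.CZ.PS
import Pool.Agent.CZ.SUMS
import Pool.Agent.CZ.MPT
import Pool.Agent.CZ.PMO

/-! Project CZ, module MOT: typical size of the mollifier. -/

set_option autoImplicit false

open Complex Finset MeasureTheory

namespace Pool.Agent.CZ

theorem MOT_contPSum (a b : ℕ) (D : ℤ) : Continuous (fun t : ℝ => PSum a b D t) := by
  unfold PSum npow
  refine continuous_finsetSum _ (fun p hp => ?_)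
  refine Continuous.mul continuous_const ?_
  have hp0 : (p : ℂ) ≠ 0 := by
    have : p.Prime := (Finset.mem_filter.mp hp).2.1
    exact_mod_cast this.ne_zero
  refine Continuous.const_cpow ?_ (Or.inl hp0)
  fun_prop

theorem MOT_sum_lam (z y : ℕ) (hz1 : 1 ≤ z) (L : ℝ) (hL : 0 ≤ L) (hyL : Real.log y ≤ L) (C : ℝ)
    (hC : ∀ y P : ℕ, 1 ≤ y → y ≤ P →
    ∑ p ∈ primesIoc y P, (1 : ℝ) / p ≤ Real.log (rho y P 0) + C) (hz : z ≤ y) :
    ∑ p ∈ primesIoc z y, lam2 p / p ≤ 4 * Real.log (L + 3) + 4 * C := by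
  have h1 : ∑ p ∈ primesIoc z y, lam2 p / p ≤ 4 * ∑ p ∈ primesIoc z y, (1 : ℝ) / p := by
    rw [Finset.mul_sum]
    refine Finset.sum_le_sum (fun p hp => ?_)
    have hpp : p.Prime := (Finset.mem_filter.mp hp).2.1
    have h2 := (lam2_le hpp).2
    have h3 : (0 : ℝ) < p := by exact_mod_cast hpp.pos
    rw [mul_one_div]
    gcongr
  have h2 := hC z y hz1 hz
  have h3 : Real.log (rho z y 0) ≤ Real.log (L + 3) := by
    have hly : 0 ≤ Real.log y := Real.log_natCast_nonneg y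
    have hlz : 0 ≤ Real.log z := Real.log_natCast_nonneg z
    have hr : rho z y 0 = (1 + Real.log y) / (1 + Real.log z) := by
      unfold rho; simp
    rw [hr]
    apply Real.log_le_log (by positivity)
    rw [div_le_iff₀ (by positivity)]
    nlinarith
  linarith

theorem MOT_core {T₁ T₂ : ℝ} (hT' : T₁ ≤ T₂) {X a y k : ℕ} {Λ S : ℝ} (hX : 1 ≤ X) (hΛ : 0 < Λ)
    (hy : 1 ≤ y) (hk : 1 ≤ k)
    (hmom : ∀ t, ED X (fun D => ‖PSum a y D t‖ ^ (2 * k)) ≤ S)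
    (bad : ℕ → Set ℝ) (hbad : ∀ d ∈ (Ioc X (2 * X)).filter Squarefree,
      bad d ⊆ {t | t ∈ Set.Icc T₁ T₂ ∧ Λ < ‖PSum a y d t‖}) :
    ∑ d ∈ (Ioc X (2 * X)).filter Squarefree, (volume (bad d)).toReal ≤
      30 * X * S * (T₂ - T₁) / Λ ^ (2 * k) := by
  have hcont : ∀ D : ℤ, Continuous (fun t : ℝ => ‖PSum a y D t‖ ^ (2 * k)) := fun D =>
    ((MOT_contPSum a y D).norm).pow _
  have h1 : ∀ d ∈ (Ioc X (2 * X)).filter Squarefree, (volume (bad d)).toReal ≤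
      (∫ t in T₁..T₂, ‖PSum a y d t‖ ^ (2 * k)) / Λ ^ (2 * k) := by
    intro d hd
    have h2 := markov (T₁ := T₁) (T₂ := T₂) (κ := Λ ^ (2 * k)) hT' (by positivity)
      (f := fun t => ‖PSum a y d t‖ ^ (2 * k)) (fun t => by positivity)
      ((hcont d).continuousOn.integrableOn_Icc)
    refine le_trans ?_ h2
    apply ENNReal.toReal_mono
    · refine ne_of_lt (lt_of_le_of_lt (measure_mono (t := Set.Icc T₁ T₂) ?_) ?_)
      · rintro t ⟨ht, -⟩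
        exact ht
      · simp
    · refine measure_mono (subset_trans (hbad d hd) ?_)
      rintro t ⟨ht, ht2⟩
      refine ⟨ht, ?_⟩
      exact pow_lt_pow_left₀ ht2 hΛ.le (by omega)
  refine (Finset.sum_le_sum h1).trans ?_
  rw [← Finset.sum_div]
  refine div_le_div_of_nonneg_right ?_ (by positivity)
  have hsum : ∑ d ∈ (Ioc X (2 * X)).filter Squarefree,
      ∫ t in T₁..T₂, ‖PSum a y d t‖ ^ (2 * k) =
      ∫ t in T₁..T₂, ∑ d ∈ (Ioc X (2 * X)).filter Squarefree, ‖PSum a y d t‖ ^ (2 * k) :=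
    (intervalIntegral.integral_finsetSum
      (fun (d : ℕ) _ => (hcont (d : ℤ)).intervalIntegrable _ _)).symm
  rw [hsum]
  have h3 : ∀ t ∈ Set.Icc T₁ T₂,
      (∑ d ∈ (Ioc X (2 * X)).filter Squarefree, ‖PSum a y d t‖ ^ (2 * k)) ≤ 30 * X * S := by
    intro t _
    have h4 := ED_family (X := X) hX (f := fun D : ℤ => ‖PSum a y D t‖ ^ (2 * k))
      (B := (y : ℝ) ^ (2 * k)) (fun D => by positivity) (fun D => by
        have := CP_bdd (CP_PSum (a := a) hy t) D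
        exact pow_le_pow_left₀ (norm_nonneg _) this _)
    refine h4.trans ?_
    have h5 := hmom t
    gcongr
  calc ∫ t in T₁..T₂, (∑ d ∈ (Ioc X (2 * X)).filter Squarefree, ‖PSum a y d t‖ ^ (2 * k))
      ≤ ∫ t in T₁..T₂, (30 * X * S : ℝ) := by
        refine intervalIntegral.integral_mono_on hT' ?_ (by simp) h3
        exact (continuous_finsetSum _ (fun (d : ℕ) _ => hcont d)).intervalIntegrable _ _
    _ = 30 * X * S * (T₂ - T₁) := by
        rw [intervalIntegral.integral_const, smul_eq_mul]; ring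

theorem MOT_smooth (m : ℕ) : smoothSet z0 z0 m = {1} := by
  classical
  unfold smoothSet
  ext h
  simp only [Finset.mem_filter, Finset.mem_Icc, Finset.mem_singleton]
  constructor
  · rintro ⟨⟨h1, h2⟩, h3, h4⟩
    by_contra hne
    obtain ⟨p, hp, hpd⟩ := Nat.exists_prime_and_dvd hne
    have := h3 p hp hpd
    omega
  · rintro rfl
    refine ⟨⟨le_rfl, Nat.one_le_pow _ _ (by norm_num [z0])⟩, ?_, by simp⟩
    intro p hp hpd
    exact absurd (Nat.dvd_one.mp hpd) hp.one_lt.ne'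

theorem MOT_Mo_ne (m : ℕ) (D : ℤ) (t : ℝ) : Mo z0 m D t ≠ 0 := by
  unfold Mo Mo'
  rw [MOT_smooth, Finset.sum_singleton]
  refine mul_ne_zero ?_ ?_
  · rw [Finset.prod_ne_zero_iff]
    intro p hp
    have hpp := (Finset.mem_filter.mp hp).2
    have h1 := ellInv_norm_ge (D := D) hpp.1 hpp.2 t
    have h2 : 0 < (1 - 1 / Real.sqrt p) ^ 2 := by
      have h3 : (1 : ℝ) < p := by exact_mod_cast hpp.1.one_lt
      have h4 : 1 < Real.sqrt p := by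
        rw [Real.lt_sqrt (by norm_num)]; linarith
      have h5 : 1 / Real.sqrt p < 1 := by
        rw [div_lt_one (by linarith)]; exact h4
      have h6 : 0 < 1 - 1 / Real.sqrt p := by linarith
      positivity
    intro h0
    rw [h0, norm_zero] at h1
    linarith
  · have h1 : npow 1 t ≠ 0 := by simp [npow]
    refine mul_ne_zero ?_ h1
    have h2 : Pool.Agent.ZD.nu 1 ≠ 0 := by
      simp [Pool.Agent.ZD.nu]
    simpa using h2

theorem MOT_evt {δ Cp : ℝ} (hδ' : 0 < δ) (hδ1 : δ ≤ 1) (hCp : 0 < Cp) :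
    ∀ᶠ L : ℝ in Filter.atTop, 2 * Cp * (Real.log (L + 3)) ^ Cp ≤ L ^ (δ / 2) := by
  have h := (isLittleO_log_rpow_rpow_atTop Cp (half_pos hδ')).bound
    (c := 1 / (4 * Cp)) (by positivity)
  have h2 := (Filter.tendsto_atTop_add_const_right Filter.atTop (3 : ℝ)
    Filter.tendsto_id).eventually h
  filter_upwards [h2, Filter.eventually_ge_atTop (1 : ℝ)] with L h3 h4
  simp only [id] at h3
  have hl : 0 ≤ Real.log (L + 3) := Real.log_nonneg (by linarith)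
  rw [Real.norm_of_nonneg (by positivity), Real.norm_of_nonneg (by positivity)] at h3
  have h5 : (L + 3) ^ (δ / 2) ≤ 2 * L ^ (δ / 2) := by
    calc (L + 3) ^ (δ / 2) ≤ (4 * L) ^ (δ / 2) :=
          Real.rpow_le_rpow (by linarith) (by linarith) (by linarith)
      _ = 4 ^ (δ / 2) * L ^ (δ / 2) := Real.mul_rpow (by norm_num) (by linarith)
      _ ≤ 4 ^ ((1 : ℝ) / 2) * L ^ (δ / 2) := by
          gcongr
          norm_num
      _ = 2 * L ^ (δ / 2) := by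
          rw [← Real.sqrt_eq_rpow]
          have : Real.sqrt 4 = 2 := by
            rw [show (4 : ℝ) = 2 ^ 2 by norm_num]
            exact Real.sqrt_sq (by norm_num)
          rw [this]
  calc 2 * Cp * (Real.log (L + 3)) ^ Cp ≤ 2 * Cp * (1 / (4 * Cp) * (L + 3) ^ (δ / 2)) := by
        gcongr
    _ = (1 / 2) * (L + 3) ^ (δ / 2) := by field_simp; norm_num
    _ ≤ (1 / 2) * (2 * L ^ (δ / 2)) := by gcongr
    _ = L ^ (δ / 2) := by ring

theorem MOT_evt2 {δ κ : ℝ} (hδ : 0 < δ) (hκ : 0 < κ) :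
    ∀ᶠ L : ℝ in Filter.atTop, 4 * κ * Real.log (L + 3) ≤ L ^ δ := by
  have h := (isLittleO_log_rpow_atTop hδ).bound (c := 1 / (4 * κ * 4 ^ δ)) (by positivity)
  have h2 := (Filter.tendsto_atTop_add_const_right Filter.atTop (3 : ℝ)
    Filter.tendsto_id).eventually h
  filter_upwards [h2, Filter.eventually_ge_atTop (1 : ℝ)] with L h3 h4
  simp only [id] at h3
  have hl : 0 ≤ Real.log (L + 3) := Real.log_nonneg (by linarith)
  rw [Real.norm_of_nonneg hl, Real.norm_of_nonneg (by positivity)] at h3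
  have h5 : (L + 3) ^ δ ≤ 4 ^ δ * L ^ δ := by
    calc (L + 3) ^ δ ≤ (4 * L) ^ δ :=
          Real.rpow_le_rpow (by linarith) (by linarith) (by linarith)
      _ = 4 ^ δ * L ^ δ := Real.mul_rpow (by norm_num) (by linarith)
  have h6 : (0 : ℝ) < 4 ^ δ := by positivity
  calc 4 * κ * Real.log (L + 3) ≤ 4 * κ * (1 / (4 * κ * 4 ^ δ) * (L + 3) ^ δ) := by gcongr
    _ ≤ 4 * κ * (1 / (4 * κ * 4 ^ δ) * (4 ^ δ * L ^ δ)) := by gcongr
    _ = L ^ δ := by field_simp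

theorem MOT_Cp_pos {T₁ T₂ Cp : ℝ} (hT' : T₁ < T₂)
    (hCp : ∀ (X : ℝ) (D : ℤ) (y m : ℕ) (t Λ : ℝ),
    3 ≤ X → D ≠ 0 → |(D : ℝ)| ≤ X ^ 2 → z0 ≤ y → (y : ℝ) ≤ X → T₁ ≤ t → t ≤ T₂ →
    Cp * Real.log (Real.log X + 3) ≤ m → 0 ≤ Λ → Λ ≤ Real.log (Real.log X + 3) →
    ‖PSum z0 y D t‖ ≤ Λ →
    Real.exp (-Λ) / (Cp * (Real.log (Real.log X + 3)) ^ Cp) ≤ ‖Mo y m D t‖ ∧
    ‖Mo y m D t‖ ≤ Real.exp Λ * (Cp * (Real.log (Real.log X + 3)) ^ Cp)) : 0 < Cp := by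
  by_contra hneg
  push Not at hneg
  have hz : (z0 : ℝ) = 10000 := by norm_num [z0]
  have hl : 0 ≤ Real.log (Real.log (z0 : ℝ) + 3) := by
    apply Real.log_nonneg
    have : 0 ≤ Real.log (z0 : ℝ) := Real.log_natCast_nonneg z0
    linarith
  have hP : PSum z0 z0 1 T₁ = 0 := by
    have : primesIoc z0 z0 = ∅ := by simp [primesIoc]
    simp [PSum, this]
  have h := hCp (z0 : ℝ) 1 z0 0 T₁ 0 (by rw [hz]; norm_num) (by norm_num)
    (by rw [hz]; norm_num) le_rfl le_rfl le_rfl hT'.le (by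
      have := mul_nonneg (neg_nonneg.mpr hneg) hl
      push_cast
      linarith) le_rfl hl (by rw [hP]; simp)
  have h2 := h.2
  have h3 : 0 ≤ (-Cp) * (Real.log (Real.log (z0 : ℝ) + 3)) ^ Cp :=
    mul_nonneg (neg_nonneg.mpr hneg) (Real.rpow_nonneg hl _)
  rw [Real.exp_zero, one_mul] at h2
  have h4 : ‖Mo z0 0 1 T₁‖ ≤ 0 := by linarith
  exact MOT_Mo_ne 0 1 T₁ (norm_le_zero_iff.mp h4)

theorem MOT_gen (T₁ T₂ δ : ℝ) (hT' : T₁ < T₂) (hδ : 0 < δ) (z : ℕ) (hz1 : 1 ≤ z) (Cp Cs X₀ : ℝ)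
    (hCp0 : 0 < Cp) (hCp : ∀ (X : ℝ) (D : ℤ) (y m : ℕ) (t Λ : ℝ),
    3 ≤ X → D ≠ 0 → |(D : ℝ)| ≤ X ^ 2 → z ≤ y → (y : ℝ) ≤ X → T₁ ≤ t → t ≤ T₂ →
    Cp * Real.log (Real.log X + 3) ≤ m → 0 ≤ Λ → Λ ≤ Real.log (Real.log X + 3) →
    ‖PSum z y D t‖ ≤ Λ →
    Real.exp (-Λ) / (Cp * (Real.log (Real.log X + 3)) ^ Cp) ≤ ‖Mo y m D t‖ ∧
    ‖Mo y m D t‖ ≤ Real.exp Λ * (Cp * (Real.log (Real.log X + 3)) ^ Cp))
    (hCs : ∀ y P : ℕ, 1 ≤ y → y ≤ P →
    ∑ p ∈ primesIoc y P, (1 : ℝ) / p ≤ Real.log (rho y P 0) + Cs)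
    (hX₀ : ∀ (X : ℝ) (a b k : ℕ) (t : ℝ), X₀ ≤ X → 1 ≤ k →
    ((b : ℝ) ^ k) ^ 4 ≤ X →
    ED X (fun D => ‖PSum a b D t‖ ^ (2 * k)) ≤
      3 * (2 * k * ∑ p ∈ primesIoc a b, lam2 p / p) ^ k + 1 / X) : ∃ κ C : ℝ, 0 < κ ∧
    ∀ X y m : ℕ, 3 ≤ X → z ≤ y → Real.log y ≤ (Real.log X) ^ (1 - δ) →
    C * Real.log (Real.log X + 3) ≤ m →
    ∑ d ∈ (Ioc X (2 * X)).filter Squarefree, (volume {t₀ : ℝ | t₀ ∈ Set.Icc T₁ T₂ ∧
      ¬ ((Real.log X) ^ (-δ) ≤ ‖Mo y m d t₀‖ ∧ ‖Mo y m d t₀‖ ≤ (Real.log X) ^ δ)}).toReal ≤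
      C * X / (Real.log X) ^ κ := by
  obtain ⟨η, hη0, hη1, hηδ⟩ : ∃ η : ℝ, 0 < η ∧ η ≤ 1 ∧ η ≤ δ :=
    ⟨min δ 1, lt_min hδ one_pos, min_le_right _ _, min_le_left _ _⟩
  obtain ⟨κ, hκd⟩ : ∃ κ : ℝ, κ = η ^ 2 / 120 := ⟨_, rfl⟩
  have hκ0 : 0 < κ := by rw [hκd]; positivity
  have hκ1 : κ ≤ 1 := by rw [hκd]; nlinarith
  obtain ⟨L₀, hL₀⟩ := Filter.eventually_atTop.mp ((Real.tendsto_exp_atTop.eventually_ge_atTop X₀).and
    ((MOT_evt hη0 hη1 hCp0).and ((MOT_evt2 hδ hκ0).and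
    ((Real.tendsto_log_atTop.comp (Filter.tendsto_atTop_add_const_right Filter.atTop (3 : ℝ)
    Filter.tendsto_id)).eventually_ge_atTop (1 / κ + 4 * |Cs| + 2 / η)))))
  obtain ⟨L₁, hL₁1, hL₁0⟩ : ∃ L₁ : ℝ, 1 ≤ L₁ ∧ L₀ ≤ L₁ := ⟨max L₀ 1, le_max_right _ _, le_max_left _ _⟩
  refine ⟨κ, Cp + 300 * (T₂ - T₁) + (T₂ - T₁) * L₁ ^ κ, hκ0, fun X y m hX hz hy hm => ?_⟩
  have hX3 : (3 : ℝ) ≤ X := by exact_mod_cast hX
  have hT21 : 0 < T₂ - T₁ := by linarith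
  obtain ⟨L, hLdef⟩ : ∃ L : ℝ, L = Real.log X := ⟨_, rfl⟩
  rw [← hLdef] at hy hm ⊢
  have hL1 : 1 < L := by
    rw [hLdef, Real.lt_log_iff_exp_lt (by linarith)]
    have := Real.exp_one_lt_d9
    linarith
  have hXL : Real.exp L = X := by rw [hLdef, Real.exp_log (by linarith)]
  have hLκ : 0 < L ^ κ := by positivity
  have hvol : ∀ s : Set ℝ, s ⊆ Set.Icc T₁ T₂ → (volume s).toReal ≤ T₂ - T₁ := by
    intro s hs
    have h1 : (volume s) ≤ volume (Set.Icc T₁ T₂) := measure_mono hs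
    rw [Real.volume_Icc] at h1
    calc (volume s).toReal ≤ (ENNReal.ofReal (T₂ - T₁)).toReal :=
          ENNReal.toReal_mono ENNReal.ofReal_ne_top h1
      _ = T₂ - T₁ := ENNReal.toReal_ofReal hT21.le
  by_cases hbig : L₁ ≤ L
  swap
  · push Not at hbig
    have hcard : (((Ioc X (2 * X)).filter Squarefree).card : ℝ) ≤ X := by
      have h1 := Finset.card_filter_le (Ioc X (2 * X)) Squarefree
      rw [Nat.card_Ioc] at h1
      have : ((Ioc X (2 * X)).filter Squarefree).card ≤ X := by omega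
      exact_mod_cast this
    have h1 : ∑ d ∈ (Ioc X (2 * X)).filter Squarefree, (volume {t₀ : ℝ | t₀ ∈ Set.Icc T₁ T₂ ∧
      ¬ (L ^ (-δ) ≤ ‖Mo y m d t₀‖ ∧ ‖Mo y m d t₀‖ ≤ L ^ δ)}).toReal ≤ X * (T₂ - T₁) := by
      refine (Finset.sum_le_card_nsmul _ _ (T₂ - T₁) (fun d _ => hvol _ ?_)).trans ?_
      · rintro t ⟨ht, -⟩
        exact ht
      · rw [nsmul_eq_mul]
        gcongr
    refine h1.trans ?_
    rw [le_div_iff₀ hLκ]
    have h2 : L ^ κ ≤ L₁ ^ κ := Real.rpow_le_rpow (by linarith) hbig.le hκ0.le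
    have h3 : X * (T₂ - T₁) * L ^ κ ≤ X * (T₂ - T₁) * L₁ ^ κ := by gcongr
    have h4 : 0 ≤ (Cp + 300 * (T₂ - T₁)) * X := by positivity
    nlinarith
  obtain ⟨e1, e2, e3, e4⟩ := hL₀ L (hL₁0.trans hbig)
  rw [hXL] at e1
  simp only [Function.comp, id] at e4
  obtain ⟨l, hl⟩ : ∃ l : ℝ, l = Real.log (L + 3) := ⟨_, rfl⟩
  rw [← hl] at e2 e3 e4 hm
  have hCs0 : 0 ≤ |Cs| := abs_nonneg _
  have h1κ : 0 < 1 / κ := by positivity
  have h2η : 0 < 2 / η := by positivity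
  have hl0 : 0 < l := by linarith
  have hκl : 1 ≤ κ * l := by
    have : 1 / κ ≤ l := by linarith
    rw [div_le_iff₀ hκ0] at this
    linarith
  have hηl : 1 ≤ η / 2 * l := by
    have : 2 / η ≤ l := by linarith
    rw [div_le_iff₀ hη0] at this
    linarith
  obtain ⟨k, hkdef⟩ : ∃ k : ℕ, k = ⌊κ * l⌋₊ := ⟨_, rfl⟩
  have hk1 : 1 ≤ k := by
    rw [hkdef]; exact Nat.le_floor (by exact_mod_cast hκl)
  have hk2 : (k : ℝ) ≤ κ * l := by rw [hkdef]; exact Nat.floor_le (by linarith)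
  have hk3 : κ * l - 1 < k := by rw [hkdef]; exact Nat.sub_one_lt_floor _
  obtain ⟨Λ, hΛdef⟩ : ∃ Λ : ℝ, Λ = η / 2 * l := ⟨_, rfl⟩
  have hΛ1 : 1 ≤ Λ := by rw [hΛdef]; exact hηl
  have hy1 : 1 ≤ y := le_trans hz1 hz
  have hy0 : (0 : ℝ) < y := by exact_mod_cast hy1
  have hylog0 : 0 ≤ Real.log y := Real.log_natCast_nonneg y
  have hyL : Real.log y ≤ L := by
    refine hy.trans ?_
    calc L ^ (1 - δ) ≤ L ^ (1 : ℝ) := Real.rpow_le_rpow_of_exponent_le hL1.le (by linarith)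
      _ = L := Real.rpow_one L
  have hyX : (y : ℝ) ≤ X := by
    have h1 := hyL
    rw [hLdef] at h1
    exact (Real.log_le_log_iff hy0 (by linarith)).mp h1
  have hsum := MOT_sum_lam z y hz1 L (by linarith) hyL Cs hCs hz
  rw [← hl] at hsum
  have hsum5 : ∑ p ∈ primesIoc z y, lam2 p / p ≤ 5 * l := by
    have := le_abs_self Cs
    linarith
  obtain ⟨S, hS⟩ : ∃ S : ℝ, S = ∑ p ∈ primesIoc z y, lam2 p / p := ⟨_, rfl⟩
  have hS0 : 0 ≤ S := by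
    rw [hS]; exact Finset.sum_nonneg (fun p _ => by unfold lam2; positivity)
  rw [← hS] at hsum5
  have hmom : ∀ t, ED X (fun D => ‖PSum z y D t‖ ^ (2 * k)) ≤ 3 * (2 * k * S) ^ k + 1 / X := by
    intro t
    rw [hS]
    refine hX₀ X z y k t e1 hk1 ?_
    rw [← pow_mul]
    rw [← Real.log_le_log_iff (by positivity) (by linarith), Real.log_pow, ← hLdef]
    calc ((k * 4 : ℕ) : ℝ) * Real.log y = 4 * k * Real.log y := by push_cast; ring
      _ ≤ 4 * (κ * l) * L ^ (1 - δ) := by gcongr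
      _ = (4 * κ * l) * L ^ (1 - δ) := by ring
      _ ≤ L ^ δ * L ^ (1 - δ) := by gcongr
      _ = L := by
          rw [← Real.rpow_add (by linarith)]
          norm_num
  have hmul : Real.exp Λ * (Cp * l ^ Cp) ≤ L ^ δ := by
    have h1 : Real.exp Λ ≤ 2 * L ^ (η / 2) := by
      have h2 : Real.exp Λ = (L + 3) ^ (η / 2) := by
        rw [Real.rpow_def_of_pos (by linarith), ← hl, hΛdef, mul_comm]
      rw [h2]
      calc (L + 3) ^ (η / 2) ≤ (4 * L) ^ (η / 2) :=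
            Real.rpow_le_rpow (by linarith) (by linarith) (by linarith)
        _ = 4 ^ (η / 2) * L ^ (η / 2) := Real.mul_rpow (by norm_num) (by linarith)
        _ ≤ 4 ^ ((1 : ℝ) / 2) * L ^ (η / 2) := by
            gcongr
            norm_num
        _ = 2 * L ^ (η / 2) := by
            rw [← Real.sqrt_eq_rpow]
            have : Real.sqrt 4 = 2 := by
              rw [show (4 : ℝ) = 2 ^ 2 by norm_num]
              exact Real.sqrt_sq (by norm_num)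
            rw [this]
    calc Real.exp Λ * (Cp * l ^ Cp) ≤ (2 * L ^ (η / 2)) * (Cp * l ^ Cp) := by gcongr
      _ = L ^ (η / 2) * (2 * Cp * l ^ Cp) := by ring
      _ ≤ L ^ (η / 2) * L ^ (η / 2) := by gcongr
      _ = L ^ η := by
          rw [← Real.rpow_add (by linarith)]
          congr 1; ring
      _ ≤ L ^ δ := Real.rpow_le_rpow_of_exponent_le hL1.le hηδ
  have hcl : 0 < Cp * l ^ Cp := by positivity
  have hbad : ∀ d ∈ (Ioc X (2 * X)).filter Squarefree, {t₀ : ℝ | t₀ ∈ Set.Icc T₁ T₂ ∧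
      ¬ (L ^ (-δ) ≤ ‖Mo y m d t₀‖ ∧ ‖Mo y m d t₀‖ ≤ L ^ δ)} ⊆
      {t | t ∈ Set.Icc T₁ T₂ ∧ Λ < ‖PSum z y d t‖} := by
    rintro d hd t ⟨ht, hb⟩
    refine ⟨ht, ?_⟩
    by_contra hle
    push Not at hle
    apply hb
    have hd' := Finset.mem_Ioc.mp (Finset.mem_filter.mp hd).1
    have hdX : (d : ℝ) ≤ 2 * X := by exact_mod_cast hd'.2
    have hres := hCp X d y m t Λ hX3 (by
        have : 0 < d := by omega
        exact_mod_cast this.ne') (by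
        have h0 : ((d : ℤ) : ℝ) = (d : ℝ) := by push_cast; rfl
        rw [h0, abs_of_nonneg (Nat.cast_nonneg d)]
        nlinarith) hz hyX ht.1 ht.2 (by
        rw [← hLdef, ← hl]
        refine le_trans ?_ hm
        have h1 : 0 ≤ (300 * (T₂ - T₁) + (T₂ - T₁) * L₁ ^ κ) * l := by positivity
        nlinarith) (by linarith) (by
        rw [← hLdef, ← hl, hΛdef]
        nlinarith) hle
    rw [← hLdef, ← hl] at hres
    refine ⟨le_trans ?_ hres.1, hres.2.trans hmul⟩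
    rw [Real.rpow_neg (by linarith), Real.exp_neg, div_eq_mul_inv, ← mul_inv]
    exact inv_anti₀ (by positivity) hmul
  refine (MOT_core hT'.le (by omega) (by linarith) hy1 hk1 hmom _ hbad).trans ?_
  have hΛk : 1 ≤ Λ ^ (2 * k) := one_le_pow₀ hΛ1
  have h3k : (2 * k * S) ^ k ≤ Λ ^ (2 * k) / 3 ^ k := by
    rw [pow_mul, ← div_pow]
    apply pow_le_pow_left₀ (by positivity)
    calc 2 * k * S ≤ 2 * (κ * l) * (5 * l) := by gcongr
      _ = Λ ^ 2 / 3 := by rw [hΛdef, hκd]; ring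
  have h3e : (1 : ℝ) / 3 ^ k ≤ Real.exp 1 / L ^ κ := by
    have h1 : Real.exp k ≤ (3 : ℝ) ^ k := by
      have : Real.exp k = (Real.exp 1) ^ k := by rw [← Real.exp_nat_mul]; simp
      rw [this]
      apply pow_le_pow_left₀ (Real.exp_pos 1).le
      have := Real.exp_one_lt_d9
      linarith
    have h2 : L ^ κ ≤ Real.exp (κ * l) := by
      rw [hl, mul_comm, ← Real.rpow_def_of_pos (by linarith)]
      exact Real.rpow_le_rpow (by linarith) (by linarith) hκ0.le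
    rw [div_le_div_iff₀ (by positivity) hLκ, one_mul]
    calc L ^ κ ≤ Real.exp (κ * l) := h2
      _ ≤ Real.exp (1 + k) := Real.exp_le_exp.mpr (by linarith)
      _ = Real.exp 1 * Real.exp k := Real.exp_add _ _
      _ ≤ Real.exp 1 * 3 ^ k := by gcongr
  have hXκ : (1 : ℝ) / X ≤ 1 / L ^ κ := by
    apply one_div_le_one_div_of_le hLκ
    calc L ^ κ ≤ L ^ (1 : ℝ) := Real.rpow_le_rpow_of_exponent_le hL1.le hκ1
      _ = L := Real.rpow_one L
      _ ≤ X := by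
          rw [← hXL]
          have := Real.add_one_le_exp L
          linarith
  have hfin : 3 * (2 * k * S) ^ k + 1 / X ≤ Λ ^ (2 * k) * (10 / L ^ κ) := by
    have he := Real.exp_one_lt_d9
    calc 3 * (2 * k * S) ^ k + 1 / X ≤ 3 * (Λ ^ (2 * k) / 3 ^ k) + 1 / L ^ κ := by gcongr
      _ = Λ ^ (2 * k) * (3 * (1 / 3 ^ k)) + 1 * (1 / L ^ κ) := by ring
      _ ≤ Λ ^ (2 * k) * (3 * (Real.exp 1 / L ^ κ)) + Λ ^ (2 * k) * (1 / L ^ κ) := by gcongr
      _ = Λ ^ (2 * k) * ((3 * Real.exp 1 + 1) / L ^ κ) := by ring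
      _ ≤ Λ ^ (2 * k) * (10 / L ^ κ) := by
          gcongr
          linarith
  have hX0' : (0 : ℝ) < X := by linarith
  calc 30 * X * (3 * (2 * k * S) ^ k + 1 / X) * (T₂ - T₁) / Λ ^ (2 * k)
      ≤ 30 * X * (Λ ^ (2 * k) * (10 / L ^ κ)) * (T₂ - T₁) / Λ ^ (2 * k) := by gcongr
    _ = 300 * (T₂ - T₁) * X / L ^ κ := by
        have : Λ ^ (2 * k) ≠ 0 := by positivity
        field_simp
        ring
    _ ≤ (Cp + 300 * (T₂ - T₁) + (T₂ - T₁) * L₁ ^ κ) * X / L ^ κ := by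
        gcongr
        have : 0 ≤ (T₂ - T₁) * L₁ ^ κ := by positivity
        linarith

theorem MO_typ (T₁ T₂ δ : ℝ) (hT : 0 < T₁) (hT' : T₁ < T₂) (hδ : 0 < δ) : ∃ κ C : ℝ, 0 < κ ∧
    ∀ X y m : ℕ, 3 ≤ X → z0 ≤ y → Real.log y ≤ (Real.log X) ^ (1 - δ) →
    C * Real.log (Real.log X + 3) ≤ m →
    ∑ d ∈ (Ioc X (2 * X)).filter Squarefree, (volume {t₀ : ℝ | t₀ ∈ Set.Icc T₁ T₂ ∧
      ¬ ((Real.log X) ^ (-δ) ≤ ‖Mo y m d t₀‖ ∧ ‖Mo y m d t₀‖ ≤ (Real.log X) ^ δ)}).toReal ≤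
      C * X / (Real.log X) ^ κ := by
  obtain ⟨Cp, hCp⟩ := Mo_pointwise T₁ T₂ hT
  obtain ⟨Cs, hCs⟩ := sum_inv_prime_le
  obtain ⟨X₀, hX₀⟩ := PSum_moment
  exact MOT_gen T₁ T₂ δ hT' hδ z0 (by norm_num [z0]) Cp Cs X₀ (MOT_Cp_pos hT' hCp) hCp hCs hX₀

end Pool.Agent.CZ
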