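import Mathlib
import Pool.Agent.CZ.Defs
import Pool.Agent.CZ.W
import Pool.Agent.CZ.ELG
import Pool.Agent.CZ.GGL
import Pool.Agent.CZ.FOU
import Pool.Agent.CZ.MOT
import Pool.Agent.CZ.ELT

/-!
# Critical zeros (MP_553913_nt), part E: lower bound of the local `L¹` norm
-/

set_option autoImplicit false

open Complex Finset MeasureTheory

namespace Pool.Agent.CZ

open Pool.Agent.H5 (c bd)
open Pool.Agent.ZD (S T Lf nu tau gk eps MM)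

namespace ELO

lemma big_nonneg {V x : ℝ} (hx : 0 ≤ x) : 0 ≤ big V x := by
  unfold big
  split_ifs
  · exact hx
  · exact le_rfl

lemma big_le {V x : ℝ} (hx : 0 ≤ x) : big V x ≤ x := by
  unfold big
  split_ifs
  · exact le_rfl
  · exact hx

lemma le_big {V x : ℝ} (hV : 0 ≤ V) : x ≤ V + big V x := by
  unfold big
  split_ifs with h
  · linarith
  · linarith

lemma big_meas (V : ℝ) : Measurable (big V) := by
  unfold big
  exact Measurable.ite (measurableSet_lt measurable_const measurable_id) measurable_id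
    measurable_const

/-- the key inequality -/
lemma key {K : ℕ} (hK : 3 ≤ K) {d : ℕ} (hd : Squarefree d) {h t₀ V : ℝ} (hh : 0 < h) (hV : 0 ≤ V)
    {N z₁ z y m : ℕ} (h1 : z0 ≤ z₁) (h2 : z₁ ≤ z) (h3 : z ≤ y)
    (hN : Real.exp (1 / h) * (y : ℝ) ^ (4 * m) ≤ N) :
    ‖GG K N z₁ z y m h d t₀‖ ≤ ‖Mo z₁ m d t₀‖ *
      (V * (1 / h * ∫ t : ℝ, ‖Lf d (1 + t * I)‖ * wK K ((t - t₀) / h)) +
      1 / h * ∫ t : ℝ, ‖Lf d (1 + t * I)‖ * big V ‖Mo' z₁ z m d t * gT z y m d t‖ *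
        wK K ((t - t₀) / h)) := by
  obtain ⟨hi, hGG⟩ := GG_eq hK hd (t₀ := t₀) hh h1 h2 h3 hN
  -- integrability of the `L¹` weight
  obtain ⟨N₂, hN₂⟩ := exists_nat_ge (Real.exp (0 + 1 / h))
  have hi0 := (Fourier_support hK hd (t₀ := t₀) (u := 0) (U := 0) hh (by simp) hN₂).1
  have hi1 : Integrable (fun t : ℝ => ‖Lf d (1 + t * I)‖ * wK K ((t - t₀) / h)) := by
    refine hi0.norm.congr (Filter.Eventually.of_forall fun t => ?_)
    simp only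
    rw [norm_mul, norm_mul, Complex.norm_real, Real.norm_eq_abs, abs_of_nonneg (wK_nonneg K _)]
    have : exp (I * ((0:ℝ) : ℂ) * t) = 1 := by simp
    rw [this, norm_one, mul_one]
  obtain ⟨hFc, B, hB⟩ := (ELG.BC_Mo' z₁ z m d).mul (ELG.BC_gT z y m d)
  have hB0 : 0 ≤ B := (norm_nonneg _).trans (hB 0)
  have hbm : Measurable (fun t : ℝ => big V ‖Mo' z₁ z m d t * gT z y m d t‖) :=
    (big_meas V).comp (hFc.norm.measurable)
  have hi2 : Integrable (fun t : ℝ => ‖Lf d (1 + t * I)‖ * big V ‖Mo' z₁ z m d t * gT z y m d t‖ *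
      wK K ((t - t₀) / h)) := by
    have h4 : Integrable (fun t : ℝ => big V ‖Mo' z₁ z m d t * gT z y m d t‖ *
        (‖Lf d (1 + t * I)‖ * wK K ((t - t₀) / h))) := by
      refine hi1.bdd_mul (c := B) hbm.aestronglyMeasurable (Filter.Eventually.of_forall fun t => ?_)
      rw [Real.norm_eq_abs, abs_of_nonneg (big_nonneg (norm_nonneg _))]
      exact (big_le (norm_nonneg _)).trans (hB t)
    refine h4.congr (Filter.Eventually.of_forall fun t => ?_)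
    simp only
    ring
  rw [hGG, norm_div]
  have hhn : ‖(h : ℂ)‖ = h := by rw [Complex.norm_real, Real.norm_eq_abs, abs_of_pos hh]
  rw [hhn, div_le_iff₀ hh]
  have e1 : ∀ t : ℝ, ‖Lf d (1 + t * I) * TT z₁ z y m d t t₀ * (wK K ((t - t₀) / h) : ℂ)‖ ≤
      ‖Mo z₁ m d t₀‖ * (V * (‖Lf d (1 + t * I)‖ * wK K ((t - t₀) / h)) +
        ‖Lf d (1 + t * I)‖ * big V ‖Mo' z₁ z m d t * gT z y m d t‖ * wK K ((t - t₀) / h)) := by
    intro t
    have hw := wK_nonneg K ((t - t₀) / h)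
    rw [norm_mul, norm_mul, Complex.norm_real, Real.norm_eq_abs, abs_of_nonneg hw]
    have e2 : ‖TT z₁ z y m d t t₀‖ = ‖Mo z₁ m d t₀‖ * ‖Mo' z₁ z m d t * gT z y m d t‖ := by
      unfold TT
      rw [mul_assoc, norm_mul]
    rw [e2]
    have e3 := le_big (x := ‖Mo' z₁ z m d t * gT z y m d t‖) hV
    calc ‖Lf d (1 + t * I)‖ * (‖Mo z₁ m d t₀‖ * ‖Mo' z₁ z m d t * gT z y m d t‖) *
          wK K ((t - t₀) / h)
        ≤ ‖Lf d (1 + t * I)‖ * (‖Mo z₁ m d t₀‖ * (V + big V ‖Mo' z₁ z m d t * gT z y m d t‖)) *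
          wK K ((t - t₀) / h) := by gcongr
      _ = _ := by ring
  calc ‖∫ t : ℝ, Lf d (1 + t * I) * TT z₁ z y m d t t₀ * (wK K ((t - t₀) / h) : ℂ)‖
      ≤ ∫ t : ℝ, ‖Mo z₁ m d t₀‖ * (V * (‖Lf d (1 + t * I)‖ * wK K ((t - t₀) / h)) +
        ‖Lf d (1 + t * I)‖ * big V ‖Mo' z₁ z m d t * gT z y m d t‖ * wK K ((t - t₀) / h)) :=
        norm_integral_le_of_norm_le (((hi1.const_mul V).add hi2).const_mul _)
          (Filter.Eventually.of_forall e1)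
    _ = _ := by
        rw [integral_const_mul, integral_add (hi1.const_mul V) hi2, integral_const_mul]
        generalize (∫ t : ℝ, ‖Lf d (1 + t * I)‖ * wK K ((t - t₀) / h)) = A₁
        generalize (∫ t : ℝ, ‖Lf d (1 + t * I)‖ * big V ‖Mo' z₁ z m d t * gT z y m d t‖ *
          wK K ((t - t₀) / h)) = A₂
        have hh' : h ≠ 0 := hh.ne'
        field_simp

lemma fin_meas {T₁ T₂ : ℝ} (p : ℝ → Prop) : volume {t : ℝ | t ∈ Set.Icc T₁ T₂ ∧ p t} ≠ ⊤ := by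
  refine (lt_of_le_of_lt (measure_mono (?_ : {t : ℝ | t ∈ Set.Icc T₁ T₂ ∧ p t} ⊆ Set.Icc T₁ T₂)) ?_).ne
  · intro t ht; exact ht.1
  · rw [Real.volume_Icc]; exact ENNReal.ofReal_lt_top

lemma union3 {T₁ T₂ : ℝ} {p q r s : ℝ → Prop} (h : ∀ t ∈ Set.Icc T₁ T₂, p t → q t ∨ r t ∨ s t) :
    (volume {t : ℝ | t ∈ Set.Icc T₁ T₂ ∧ p t}).toReal ≤
      (volume {t : ℝ | t ∈ Set.Icc T₁ T₂ ∧ q t}).toReal +
      ((volume {t : ℝ | t ∈ Set.Icc T₁ T₂ ∧ r t}).toReal +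
      (volume {t : ℝ | t ∈ Set.Icc T₁ T₂ ∧ s t}).toReal) := by
  rw [← ENNReal.toReal_add (fin_meas r) (fin_meas s),
    ← ENNReal.toReal_add (fin_meas q) (ENNReal.add_ne_top.2 ⟨fin_meas r, fin_meas s⟩)]
  refine ENNReal.toReal_mono (ENNReal.add_ne_top.2 ⟨fin_meas q,
    ENNReal.add_ne_top.2 ⟨fin_meas r, fin_meas s⟩⟩) ?_
  have hsub : {t : ℝ | t ∈ Set.Icc T₁ T₂ ∧ p t} ⊆ {t : ℝ | t ∈ Set.Icc T₁ T₂ ∧ q t} ∪
      ({t : ℝ | t ∈ Set.Icc T₁ T₂ ∧ r t} ∪ {t : ℝ | t ∈ Set.Icc T₁ T₂ ∧ s t}) := by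
    rintro t ⟨ht, hp⟩
    rcases h t ht hp with h1 | h1 | h1
    · exact Or.inl ⟨ht, h1⟩
    · exact Or.inr (Or.inl ⟨ht, h1⟩)
    · exact Or.inr (Or.inr ⟨ht, h1⟩)
  exact (measure_mono hsub).trans ((measure_union_le _ _).trans
    (add_le_add le_rfl (measure_union_le _ _)))

/-- conditions on `L` -/
lemma params {b δ δ' Cm : ℝ} (hδ' : 0 < δ') (h1 : δ' ≤ δ / 8) (h2 : δ' ≤ (1 - b) / 16)
    (hb1 : b < 1) :
    ∃ L₀ : ℝ, 2 ≤ L₀ ∧ ∀ L : ℝ, L₀ ≤ L → 2 * Cm * Real.log (L + 3) ≤ L ^ (δ' / 2) ∧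
      L ^ δ' * (L ^ δ' * L ^ ((1 - b) / 4 - δ) + 1) < L ^ ((1 - b) / 4 - δ') := by
  obtain ⟨c1, hc1, hLL⟩ := ELG.LL_le 1 (δ' / 4) (by linarith)
  have hev : ∀ᶠ L : ℝ in Filter.atTop, (2 * |Cm| * c1 ≤ L ^ (δ' / 4)) ∧ (3 ≤ L ^ δ') :=
    ((tendsto_rpow_atTop (by linarith)).eventually_ge_atTop _).and
      ((tendsto_rpow_atTop (by linarith)).eventually_ge_atTop _)
  obtain ⟨L₁, hL₁⟩ := Filter.eventually_atTop.1 hev
  refine ⟨max 2 L₁, le_max_left _ _, fun L hL => ?_⟩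
  have hL2 : 2 ≤ L := (le_max_left _ _).trans hL
  have hL0 : 0 < L := by linarith
  have hL1 : 1 ≤ L := by linarith
  obtain ⟨e1, e2⟩ := hL₁ L ((le_max_right _ _).trans hL)
  constructor
  · have h3 := hLL L hL1
    rw [Real.rpow_one] at h3
    have hLLp : 0 ≤ Real.log (L + 3) := Real.log_nonneg (by linarith)
    calc 2 * Cm * Real.log (L + 3) ≤ 2 * |Cm| * (c1 * L ^ (δ' / 4)) := by
          have := le_abs_self Cm
          gcongr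
      _ = (2 * |Cm| * c1) * L ^ (δ' / 4) := by ring
      _ ≤ L ^ (δ' / 4) * L ^ (δ' / 4) := by gcongr
      _ = L ^ (δ' / 2) := by rw [← Real.rpow_add hL0]; congr 1; ring
  · set E : ℝ := L ^ ((1 - b) / 4 - δ') with hE
    have hE0 : 0 < E := by positivity
    have e3 : L ^ δ' * (L ^ δ' * L ^ ((1 - b) / 4 - δ)) ≤ E * (1 / 3) := by
      have f1 : L ^ δ' * (L ^ δ' * L ^ ((1 - b) / 4 - δ)) * 3 ≤ E := by
        calc L ^ δ' * (L ^ δ' * L ^ ((1 - b) / 4 - δ)) * 3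
            ≤ L ^ δ' * (L ^ δ' * L ^ ((1 - b) / 4 - δ)) * L ^ δ' := by gcongr
          _ = L ^ (δ' + (δ' + ((1 - b) / 4 - δ)) + δ') := by
              rw [← Real.rpow_add hL0, ← Real.rpow_add hL0, ← Real.rpow_add hL0]
          _ ≤ E := Real.rpow_le_rpow_of_exponent_le hL1 (by linarith)
      linarith
    have e4 : L ^ δ' ≤ E * (1 / 3) := by
      have f1 : L ^ δ' * 3 ≤ E := by
        calc L ^ δ' * 3 ≤ L ^ δ' * L ^ δ' := by gcongr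
          _ = L ^ (δ' + δ') := by rw [← Real.rpow_add hL0]
          _ ≤ E := Real.rpow_le_rpow_of_exponent_le hL1 (by linarith)
      linarith
    calc L ^ δ' * (L ^ δ' * L ^ ((1 - b) / 4 - δ) + 1)
        = L ^ δ' * (L ^ δ' * L ^ ((1 - b) / 4 - δ)) + L ^ δ' := by ring
      _ ≤ E * (1 / 3) + E * (1 / 3) := add_le_add e3 e4
      _ < E := by linarith

end ELO

open ELO in
/-- ELO: lower bound of the local `L¹` norm (uses ELG, ELT, MOT, GGL) -/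
theorem E_low : ∀ (T₁ T₂ b δ : ℝ), 0 < T₁ → T₁ < T₂ → 1 / 2 < b → b < 1 →
    0 < δ → ∃ K₀ : ℕ, ∀ K : ℕ, K₀ ≤ K → ∃ κ C : ℝ, 0 < κ ∧ ∀ X : ℕ, 3 ≤ X →
    ∑ d ∈ (Ioc X (2 * X)).filter Squarefree, (volume {t₀ : ℝ | t₀ ∈ Set.Icc T₁ T₂ ∧
      (Real.log X) ^ b * ∫ t : ℝ, ‖Lf d (1 + t * I)‖ * wK K ((t - t₀) / (Real.log X) ^ (-b)) <
        (Real.log X) ^ ((1 - b) / 4 - δ)}).toReal ≤
      C * X / (Real.log X) ^ κ := by
  intro T₁ T₂ b δ hT₁ hT hb hb1 hδ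
  obtain ⟨KG, hG⟩ := E_lowG
  obtain ⟨δ'', hδ''⟩ : ∃ x : ℝ, x = min (δ / 8) ((1 - b) / 16) := ⟨_, rfl⟩
  have hδ''0 : 0 < δ'' := by rw [hδ'']; exact lt_min (by linarith) (by linarith)
  have hδ''1 : δ'' ≤ δ / 8 := by rw [hδ'']; exact min_le_left _ _
  have hδ''2 : δ'' ≤ (1 - b) / 16 := by rw [hδ'']; exact min_le_right _ _
  obtain ⟨δ₀, hδ₀, hT'⟩ := E_lowT T₁ T₂ b δ'' hT₁ hT hb hb1 hδ''0
  obtain ⟨δ', hδ'⟩ : ∃ x : ℝ, x = min δ'' δ₀ := ⟨_, rfl⟩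
  have hδ'0 : 0 < δ' := by rw [hδ']; exact lt_min hδ''0 hδ₀
  have hδ'1 : δ' ≤ δ'' := by rw [hδ']; exact min_le_left _ _
  have hδ'2 : δ' ≤ δ₀ := by rw [hδ']; exact min_le_right _ _
  obtain ⟨KT, hT''⟩ := hT' δ' hδ'0 hδ'2
  refine ⟨max (max KG KT) 3, ?_⟩
  intro K hK
  have hK3 : 3 ≤ K := (le_max_right _ _).trans hK
  have hKG : KG ≤ K := ((le_max_left _ _).trans (le_max_left _ _)).trans hK
  have hKT : KT ≤ K := ((le_max_right _ _).trans (le_max_left _ _)).trans hK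
  obtain ⟨κG, CG, hκG, hGX⟩ := hG K T₁ T₂ b δ' hKG hT₁ hT hb hb1 hδ'0 (by linarith) (by linarith)
  obtain ⟨κT, CT, hκT, hTX⟩ := hT'' K hKT
  obtain ⟨κM, CM, hκM, hMX⟩ := MO_typ T₁ T₂ δ'' hT₁ hT hδ''0
  obtain ⟨Cm, hCm⟩ : ∃ x : ℝ, x = max (max CG CT) (max CM 1) := ⟨_, rfl⟩
  have hCm1 : 1 ≤ Cm := by rw [hCm]; exact (le_max_right _ _).trans (le_max_right _ _)
  have hCmM : CM ≤ Cm := by rw [hCm]; exact (le_max_left _ _).trans (le_max_right _ _)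
  have hCmG : CG ≤ Cm := by rw [hCm]; exact (le_max_left _ _).trans (le_max_left _ _)
  have hCmT : CT ≤ Cm := by rw [hCm]; exact (le_max_right _ _).trans (le_max_left _ _)
  obtain ⟨L₀, hL₀2, hL₀⟩ := params (δ := δ) (Cm := Cm) hδ''0 hδ''1 hδ''2 hb1
  obtain ⟨L₁, hL₁2, hL₁⟩ := params (δ := 8 * δ') (b := b) (Cm := Cm) hδ'0 (by linarith)
    (by linarith) hb1
  obtain ⟨L₂, hL₂2, hL₂⟩ := ELG.params (b := b) (δ := δ') (G := 1) (V := Real.log (2 * (1 : ℕ) + 1)) hb hb1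
    hδ'0 (by linarith) (by linarith)
  obtain ⟨κ, hκ⟩ : ∃ κ : ℝ, κ = min κG (min κT κM) := ⟨_, rfl⟩
  have hκ0 : 0 < κ := by rw [hκ]; exact lt_min hκG (lt_min hκT hκM)
  have hκ1 : κ ≤ κG := by rw [hκ]; exact min_le_left _ _
  have hκ2 : κ ≤ κT := by rw [hκ]; exact (min_le_right _ _).trans (min_le_left _ _)
  have hκ3 : κ ≤ κM := by rw [hκ]; exact (min_le_right _ _).trans (min_le_right _ _)
  obtain ⟨Λ, hΛ⟩ : ∃ x : ℝ, x = max L₀ (max L₁ L₂) := ⟨_, rfl⟩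
  have hΛ0 : 0 < Λ := by
    have : L₀ ≤ Λ := by rw [hΛ]; exact le_max_left _ _
    linarith
  have hTT : 0 < T₂ - T₁ := by linarith
  refine ⟨κ, (T₂ - T₁) * Λ ^ κ + (|CG| + (|CT| + |CM|)), hκ0, ?_⟩
  intro X hX
  have hX3 : (3:ℝ) ≤ X := by exact_mod_cast hX
  have hX0 : (0:ℝ) < X := by linarith
  obtain ⟨L, hLdef⟩ : ∃ L : ℝ, L = Real.log X := ⟨_, rfl⟩
  rw [← hLdef]
  have hL1 : 1 ≤ L := by
    rw [hLdef, Real.le_log_iff_exp_le (by linarith)]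
    have := Real.exp_one_lt_d9
    linarith
  have hL0 : 0 < L := by linarith
  have hLκ : 0 < L ^ κ := by positivity
  have hLL1 : 1 ≤ Real.log (L + 3) := by
    rw [Real.le_log_iff_exp_le (by linarith)]
    have := Real.exp_one_lt_d9
    linarith
  rcases le_or_gt Λ L with hΛL | hΛL
  swap
  · have h1 : ∀ d ∈ (Ioc X (2 * X)).filter Squarefree, (volume {t₀ : ℝ | t₀ ∈ Set.Icc T₁ T₂ ∧
        L ^ b * ∫ t : ℝ, ‖Lf d (1 + t * I)‖ * wK K ((t - t₀) / L ^ (-b)) <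
          L ^ ((1 - b) / 4 - δ)}).toReal ≤ T₂ - T₁ :=
      fun d _ => ELG.triv_meas hT.le _
    refine (Finset.sum_le_sum h1).trans ?_
    rw [Finset.sum_const, nsmul_eq_mul, le_div_iff₀ hLκ]
    have h2 : L ^ κ ≤ Λ ^ κ := Real.rpow_le_rpow hL0.le hΛL.le hκ0.le
    have h3 : 0 ≤ |CG| + (|CT| + |CM|) := by positivity
    calc (((Ioc X (2 * X)).filter Squarefree).card : ℝ) * (T₂ - T₁) * L ^ κ
        ≤ X * (T₂ - T₁) * Λ ^ κ := by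
          have := ELG.card_le X
          gcongr
      _ = (T₂ - T₁) * Λ ^ κ * X := by ring
      _ ≤ _ := by nlinarith
  have hLL₀ : L₀ ≤ L := le_trans (by rw [hΛ]; exact le_max_left _ _) hΛL
  have hLL₁ : L₁ ≤ L := le_trans (by rw [hΛ]; exact (le_max_left _ _).trans (le_max_right _ _)) hΛL
  have hLL₂ : L₂ ≤ L := le_trans (by rw [hΛ]; exact (le_max_right _ _).trans (le_max_right _ _)) hΛL
  have hL2 : 2 ≤ L := hL₀2.trans hLL₀
  obtain ⟨-, k2⟩ := hL₀ L hLL₀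
  obtain ⟨k1, -⟩ := hL₁ L hLL₁
  obtain ⟨p1, p2, p3, p4, p5, p6⟩ := hL₂ L hLL₂
  obtain ⟨m, hm⟩ : ∃ m : ℕ, m = ⌈Cm * Real.log (L + 3)⌉₊ := ⟨_, rfl⟩
  have hm1 : Cm * Real.log (L + 3) ≤ m := by rw [hm]; exact Nat.le_ceil _
  have hm2 : (m : ℝ) ≤ L ^ (δ' / 2) := by
    refine le_trans ?_ k1
    have e1 := (Nat.ceil_lt_add_one (show 0 ≤ Cm * Real.log (L + 3) by positivity)).le
    rw [← hm] at e1
    have e2 : 1 ≤ Cm * Real.log (L + 3) := by nlinarith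
    linarith
  obtain ⟨z₁, hz₁⟩ : ∃ z₁ : ℕ, z₁ = ⌊Real.exp (L ^ (b - 2 * δ'))⌋₊ := ⟨_, rfl⟩
  obtain ⟨z, hz⟩ : ∃ z : ℕ, z = ⌈Real.exp (L ^ (b + δ'))⌉₊ := ⟨_, rfl⟩
  obtain ⟨y, hy⟩ : ∃ y : ℕ, y = ⌊Real.exp (L ^ (1 - δ'))⌋₊ := ⟨_, rfl⟩
  obtain ⟨N, hN⟩ : ∃ N : ℕ, N = ⌈Real.exp (L ^ b) * (y : ℝ) ^ (4 * m)⌉₊ := ⟨_, rfl⟩
  obtain ⟨s1, s2, s3, s4, s5, s6, s7, s8, s9, s10, s11⟩ :=
    ELG.sizes (Cg := 1) hb hδ'0 (by linarith) (by linarith) hL2 hm2 hz₁ hz hy hN p1 p2 p3 p6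
  -- the three exceptional sets
  have hGs := hGX X m z₁ z y N hX (by rw [← hLdef]; exact le_trans (by gcongr) hm1)
    (by rw [← hLdef]; exact hm2) (by rw [← hLdef]; exact hz₁) (by rw [← hLdef]; exact hz)
    (by rw [← hLdef]; exact hy) (by rw [← hLdef]; exact hN)
  have hTs := hTX X m z₁ z y hX (by rw [← hLdef]; exact le_trans (by gcongr) hm1)
    (by rw [← hLdef]; exact hm2) (by rw [← hLdef]; exact hz₁) (by rw [← hLdef]; exact hz)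
    (by rw [← hLdef]; exact hy)
  have hMs := hMX X z₁ m hX s1 (by
      rw [← hLdef]
      exact s4.trans (Real.rpow_le_rpow_of_exponent_le hL1 (by linarith)))
    (by rw [← hLdef]; exact le_trans (by gcongr) hm1)
  rw [← hLdef] at hGs hTs hMs
  have hh0 : 0 < L ^ (-b) := by positivity
  have h1h : 1 / L ^ (-b) = L ^ b := by rw [Real.rpow_neg hL0.le, one_div, inv_inv]
  have hsub : ∀ d ∈ (Ioc X (2 * X)).filter Squarefree, (volume {t₀ : ℝ | t₀ ∈ Set.Icc T₁ T₂ ∧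
      L ^ b * ∫ t : ℝ, ‖Lf d (1 + t * I)‖ * wK K ((t - t₀) / L ^ (-b)) <
        L ^ ((1 - b) / 4 - δ)}).toReal ≤
      (volume {t₀ : ℝ | t₀ ∈ Set.Icc T₁ T₂ ∧
        ‖GG K N z₁ z y m (L ^ (-b)) d t₀‖ < L ^ ((1 - b) / 4 - δ')}).toReal +
      ((volume {t₀ : ℝ | t₀ ∈ Set.Icc T₁ T₂ ∧
        1 < L ^ b * ∫ t : ℝ, ‖Lf d (1 + t * I)‖ *
          big (L ^ δ'') ‖Mo' z₁ z m d t * gT z y m d t‖ * wK K ((t - t₀) / L ^ (-b))}).toReal +
      (volume {t₀ : ℝ | t₀ ∈ Set.Icc T₁ T₂ ∧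
        ¬ (L ^ (-δ'') ≤ ‖Mo z₁ m d t₀‖ ∧ ‖Mo z₁ m d t₀‖ ≤ L ^ δ'')}).toReal) := by
    intro d hd
    rw [Finset.mem_filter] at hd
    apply union3
    intro t₀ _ ht
    by_contra hcon
    push Not at hcon
    obtain ⟨g1, g2, g3⟩ := hcon
    have hkey := key hK3 hd.2 (h := L ^ (-b)) (t₀ := t₀) (V := L ^ δ'') hh0 (by positivity) s1 s2 s3
      (by rw [h1h]; exact s10)
    rw [h1h] at hkey
    have g4 : ‖GG K N z₁ z y m (L ^ (-b)) d t₀‖ ≤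
        L ^ δ'' * (L ^ δ'' * L ^ ((1 - b) / 4 - δ) + 1) := by
      refine hkey.trans ?_
      have hJ0 : 0 ≤ L ^ b * ∫ t : ℝ, ‖Lf d (1 + t * I)‖ * wK K ((t - t₀) / L ^ (-b)) :=
        mul_nonneg (by positivity) (integral_nonneg (fun t =>
          mul_nonneg (norm_nonneg _) (wK_nonneg K _)))
      have hTl0 : 0 ≤ L ^ b * ∫ t : ℝ, ‖Lf d (1 + t * I)‖ *
          big (L ^ δ'') ‖Mo' z₁ z m d t * gT z y m d t‖ * wK K ((t - t₀) / L ^ (-b)) :=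
        mul_nonneg (by positivity) (integral_nonneg (fun t =>
          mul_nonneg (mul_nonneg (norm_nonneg _) (big_nonneg (norm_nonneg _))) (wK_nonneg K _)))
      have g5 := g3.2
      have g6 : 0 ≤ L ^ δ'' := by positivity
      gcongr
    have g7 : L ^ ((1 - b) / 4 - δ'') ≤ L ^ ((1 - b) / 4 - δ') :=
      Real.rpow_le_rpow_of_exponent_le hL1 (by linarith)
    linarith
  refine (Finset.sum_le_sum hsub).trans ?_
  rw [Finset.sum_add_distrib, Finset.sum_add_distrib]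
  have hcmp : ∀ (Q κ' : ℝ), κ ≤ κ' → Q * X / L ^ κ' ≤ |Q| * X / L ^ κ := by
    intro Q κ' hk
    have e1 : L ^ κ ≤ L ^ κ' := Real.rpow_le_rpow_of_exponent_le hL1 hk
    have e2 := le_abs_self Q
    gcongr
  calc _ ≤ |CG| * X / L ^ κ + (|CT| * X / L ^ κ + |CM| * X / L ^ κ) :=
        add_le_add (hGs.trans (hcmp _ _ hκ1)) (add_le_add (hTs.trans (hcmp _ _ hκ2))
          (hMs.trans (hcmp _ _ hκ3)))
    _ = (|CG| + (|CT| + |CM|)) * X / L ^ κ := by ring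
    _ ≤ _ := by
        apply div_le_div_of_nonneg_right _ hLκ.le
        have : 0 ≤ (T₂ - T₁) * Λ ^ κ * X := by positivity
        nlinarith

end Pool.Agent.CZ
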