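import Mathlib
import Pool.Agent.CZ.Defs
import Pool.Agent.ZD.R

/-!
Module RALL: the mean square bound `R_main` of project ZD for all dyadic ranges at one `η`.
-/

set_option autoImplicit false

open Complex Finset MeasureTheory

namespace Pool.Agent.CZ

open Pool.Agent.H5 (c bd)
open Pool.Agent.ZD (S T Lf nu tau gk eps MM MM_trivial)
open Pool.Agent.ZD.R

theorem R_all : ∃ A : ℕ, ∀ (J I : ℕ) (a : ℝ), 1 ≤ J → 0 < a → a ≤ 1 / 8 →
    ∑ d ∈ (Icc 1 (2 ^ I)).filter Squarefree, (MM a (1 / (2 * J)) d) ^ 2 ≤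
      (A * J / a) ^ A * (2 + (I : ℝ)) ^ A * (2 ^ I + 8 ^ I / 4 ^ J) := by
  obtain ⟨C, hC1, hstep⟩ := R_step
  obtain ⟨c1, hc1, h1⟩ := sum_nw (4 * C + 14 + C)
  obtain ⟨c2, hc2, h2⟩ := sum_nw C
  obtain ⟨C₄, hC₄⟩ := MM_trivial
  set G : ℝ := 2 ^ (4 * C + 14 + 1) * c1 + 8 * c2 with hG
  have hG0 : 0 ≤ G := by positivity
  have hG1 : 2 ^ (4 * C + 14 + 1) * c1 ≤ G := by rw [hG]; linarith
  have hG2 : 8 * c2 ≤ G := by
    rw [hG]
    have : 0 ≤ 2 ^ (4 * C + 14 + 1) * c1 := by positivity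
    linarith
  set M : ℝ := 2 * (4 * G + 21) ^ 4 * (8 * (C:ℝ)) ^ (5 * C) + 16 * C₄ ^ 2 with hM
  have hM0 : 0 ≤ M := by positivity
  set E : ℕ := 10 * C + (4 * C + 14) + 4 with hE
  refine ⟨⌈M⌉₊ + E + 1, ?_⟩
  intro J I a hJ ha ha1
  set A' := ⌈M⌉₊ + E + 1 with hA'
  have hJ1 : (1:ℝ) ≤ J := by exact_mod_cast hJ
  have hJ0 : (0:ℝ) < J := by linarith
  set η : ℝ := 1 / (2 * J) with hη
  set δ : ℝ := a / (4 * J) with hδ
  have hη0 : 0 < η := by positivity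
  have hη1 : η ≤ 1 / 2 := by
    rw [hη, div_le_div_iff₀ (by positivity) (by norm_num)]; linarith
  have hδ0 : 0 < δ := by positivity
  have hδη : 0 < δ * η := by positivity
  set K : ℝ := (C / (δ * η)) ^ C with hK
  set α : ℝ := 2 * K * (4 * K * G + 21) ^ 4 with hα
  set β : ℝ := C₄ ^ 2 / (a / 2) ^ 4 with hβ
  have hβ0 : 0 ≤ β := by positivity
  -- the induction
  have hind : ∀ j : ℕ, j ≤ 2 * J → ∀ I : ℕ, ZD.R.FF η (a / 2 + j * δ) (2 ^ I) ≤
      α * 2 ^ I * (2 + (I : ℝ)) ^ (4 * C + 14) + β * (1 / 2) ^ j * 8 ^ I := by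
    intro j
    induction j with
    | zero =>
      intro _ I
      have h3 := ZD.R.FF_trivial hC₄ (a := a / 2) (η := η) (by positivity) (by linarith) hη0 hη1 I
      have h4 : 0 ≤ α * 2 ^ I * (2 + (I : ℝ)) ^ (4 * C + 14) := by positivity
      simp only [Nat.cast_zero, zero_mul, add_zero, pow_zero, mul_one]
      linarith
    | succ j ih =>
      intro hj I
      have hj' : ((j + 1 : ℕ) : ℝ) ≤ 2 * J := by exact_mod_cast hj
      have ha' : a / 2 + ((j + 1 : ℕ) : ℝ) * δ ≤ a := by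
        have : ((j + 1 : ℕ) : ℝ) * δ ≤ 2 * J * δ := by gcongr
        have e : 2 * J * δ = a / 2 := by rw [hδ]; field_simp; ring
        linarith
      have hsub : a / 2 + ((j + 1 : ℕ) : ℝ) * δ - δ = a / 2 + (j : ℝ) * δ := by push_cast; ring
      have hlt : δ < a / 2 + ((j + 1 : ℕ) : ℝ) * δ := by
        push_cast
        have : 0 ≤ (j : ℝ) * δ := by positivity
        linarith
      have h5 := rec_step h1 h2 hG1 hG2 hG0 hK hα
        (β := β * (1 / 2) ^ j) (by positivity)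
        (fun X P hX hP => hstep (a / 2 + ((j + 1 : ℕ) : ℝ) * δ) δ η X P hδ0 hlt (by linarith) hη0 hη1
          hX hP) hδη (by rw [hsub]; exact ih (by omega)) I
      refine h5.trans (le_of_eq ?_)
      rw [pow_succ]; ring
  have hfin := hind (2 * J) le_rfl I
  have e1 : a / 2 + ((2 * J : ℕ) : ℝ) * δ = a := by
    push_cast; rw [hδ]; field_simp; ring
  rw [e1] at hfin
  have e2 : β * (1 / 2) ^ (2 * J) * 8 ^ I = β * (8 ^ I / 4 ^ J) := by
    rw [pow_mul, show ((1 : ℝ) / 2) ^ 2 = 1 / 4 by norm_num, div_pow, one_pow]; ring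
  rw [e2] at hfin
  change ZD.R.FF η a (2 ^ I) ≤ _
  refine hfin.trans ?_
  -- polynomial bound in t = J / a
  set t : ℝ := J / a with ht
  have ht1 : 1 ≤ t := by
    rw [ht, le_div_iff₀ ha]; linarith
  have ht0 : 0 < t := by linarith
  have hJt : (J : ℝ) ≤ t := by
    rw [ht, le_div_iff₀ ha]; nlinarith
  have hat : 1 / a ≤ t := by rw [ht]; gcongr
  have hK1 : K ≤ (8 * (C:ℝ)) ^ C * t ^ (2 * C) := by
    rw [hK, pow_mul, ← mul_pow]
    apply pow_le_pow_left₀ (by positivity)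
    have e3 : (C : ℝ) / (δ * η) = 8 * C * (J * (J / a)) := by
      rw [hδ, hη]; field_simp; ring
    rw [e3]
    have : (J : ℝ) * (J / a) ≤ t ^ 2 := by rw [pow_two]; gcongr
    gcongr
  have hKge : 1 ≤ K := by
    rw [hK]
    apply one_le_pow₀
    rw [le_div_iff₀ hδη]
    have hC1' : (1:ℝ) ≤ C := by exact_mod_cast hC1
    have : δ * η ≤ 1 := by
      have h6 : δ ≤ 1 := by
        rw [hδ, div_le_one (by positivity)]; nlinarith
      nlinarith
    linarith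
  have hα1 : α ≤ 2 * (4 * G + 21) ^ 4 * (8 * (C:ℝ)) ^ (5 * C) * t ^ (10 * C) := by
    have h6 : 4 * K * G + 21 ≤ (4 * G + 21) * K := by nlinarith
    calc α ≤ 2 * K * ((4 * G + 21) * K) ^ 4 := by rw [hα]; gcongr
      _ = 2 * (4 * G + 21) ^ 4 * K ^ 5 := by ring
      _ ≤ 2 * (4 * G + 21) ^ 4 * ((8 * (C:ℝ)) ^ C * t ^ (2 * C)) ^ 5 := by gcongr
      _ = _ := by
        rw [mul_pow, ← pow_mul, ← pow_mul]
        rw [show C * 5 = 5 * C by ring, show 2 * C * 5 = 10 * C by ring]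
        ring
  have hβ1 : β ≤ 16 * C₄ ^ 2 * t ^ 4 := by
    have e4 : β = 16 * C₄ ^ 2 * (1 / a) ^ 4 := by rw [hβ]; field_simp; ring
    rw [e4]; gcongr
  have hpE : ∀ n : ℕ, n ≤ E → t ^ n ≤ t ^ E := fun n hn => pow_le_pow_right₀ ht1 hn
  have hI1 : (1 : ℝ) ≤ 2 + (I : ℝ) := by
    have : (0:ℝ) ≤ I := Nat.cast_nonneg I
    linarith
  set x : ℝ := 2 + (I : ℝ) with hx
  have hlast : M * t ^ E ≤ (A' * J / a) ^ A' := by
    have hA1 : (1:ℝ) ≤ A' := by exact_mod_cast (by omega : 1 ≤ A')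
    have h9 : M ≤ A' := by
      refine (Nat.le_ceil M).trans ?_
      exact_mod_cast (by omega : ⌈M⌉₊ ≤ A')
    have e5 : (A' : ℝ) * J / a = A' * t := by rw [ht]; ring
    rw [e5, mul_pow]
    have h10 : (A' : ℝ) ≤ (A' : ℝ) ^ A' := le_self_pow₀ hA1 (by omega)
    have h11 : t ^ E ≤ t ^ A' := pow_le_pow_right₀ ht1 (by omega)
    have h12 : M ≤ (A' : ℝ) ^ A' := h9.trans h10
    gcongr
  have hx14 : x ^ (4 * C + 14) ≤ x ^ A' := pow_le_pow_right₀ hI1 (by omega)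
  have hx0 : 1 ≤ x ^ A' := one_le_pow₀ hI1
  have hα2 : α ≤ M * t ^ E := by
    refine hα1.trans ?_
    have h7 := hpE (10 * C) (by omega)
    have h8 : 2 * (4 * G + 21) ^ 4 * (8 * (C:ℝ)) ^ (5 * C) ≤ M := by
      rw [hM]
      have : 0 ≤ 16 * C₄ ^ 2 := by positivity
      linarith
    gcongr
  have hβ2 : β ≤ M * t ^ E := by
    refine hβ1.trans ?_
    have h7 := hpE 4 (by omega)
    have h8 : 16 * C₄ ^ 2 ≤ M := by
      rw [hM]
      have : 0 ≤ 2 * (4 * G + 21) ^ 4 * (8 * (C:ℝ)) ^ (5 * C) := by positivity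
      linarith
    gcongr
  have hA0 : 0 ≤ (A' * J / a : ℝ) ^ A' := by positivity
  have e8 : (0 : ℝ) ≤ 8 ^ I / 4 ^ J := by positivity
  calc α * 2 ^ I * x ^ (4 * C + 14) + β * (8 ^ I / 4 ^ J)
      ≤ (A' * J / a) ^ A' * 2 ^ I * x ^ A' + (A' * J / a) ^ A' * (8 ^ I / 4 ^ J) := by
        have h3 := hα2.trans hlast
        have h4 := hβ2.trans hlast
        gcongr
    _ ≤ (A' * J / a) ^ A' * 2 ^ I * x ^ A' + (A' * J / a) ^ A' * (8 ^ I / 4 ^ J) * x ^ A' := by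
        have : (A' * J / a : ℝ) ^ A' * (8 ^ I / 4 ^ J) * 1 ≤
          (A' * J / a) ^ A' * (8 ^ I / 4 ^ J) * x ^ A' := by gcongr
        linarith
    _ = _ := by ring

end Pool.Agent.CZ
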