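import Mathlib
import Pool.Agent.CZ.RALL
import Pool.Agent.ZD.K2

/-!
Module OKS: summation over the frequencies `k = ± q v²`.
-/

set_option autoImplicit false

open Complex Finset MeasureTheory

namespace Pool.Agent.CZ

open Pool.Agent.H5 (c bd)
open Pool.Agent.ZD (S T Lf nu tau gk eps MM MM_trivial)

namespace OKS

open Pool.Agent.ZD.K2 (F3 F3_nonneg F3_summable MM_nonneg log_pow_le min_scale log_scale tsum_int_le)
open Pool.Agent.ZD.R (xw xw_nonneg xw_two xw_eight nw nw_nonneg sum_nw dual_range Vq Vq_nonneg)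

/-- the dual sum at `I = J` -/
lemma dual_J (A C : ℕ) {c1 K η : ℝ} (J : ℕ)
    (h1 : ∀ I N : ℕ, ∑ i ∈ Finset.range N, (2 + (i : ℝ)) ^ (A + C) * nw I i ≤
      c1 * (2 + (I : ℝ)) ^ (A + C + 1)) (hK : 0 ≤ K)
    (hF : ∀ i : ℕ, ZD.R.FF η (1 / 8) (2 ^ i) ≤ K * (2 + (i : ℝ)) ^ A * (2 ^ i + 8 ^ i / 4 ^ J))
    (N : ℕ) :
    ∑ q ∈ Finset.range N, Vq C (1 / 8) η (2 ^ J) q ≤
      (K * 2 ^ A * 10 * c1) * (2 + (J : ℝ)) ^ (A + C + 1) * 2 ^ J := by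
  have hn : N ≤ 2 ^ N := Nat.lt_two_pow_self.le
  have h3 : ∑ q ∈ Finset.range N, Vq C (1 / 8) η (2 ^ J) q ≤
      ∑ q ∈ Finset.range (2 ^ N), Vq C (1 / 8) η (2 ^ J) q :=
    Finset.sum_le_sum_of_subset_of_nonneg (Finset.range_subset_range.mpr hn)
      (fun q _ _ => Vq_nonneg _ _ _ _ q)
  refine h3.trans ((dual_range C (1 / 8) η J N).trans ?_)
  have e8 : (8 : ℝ) ^ J / 4 ^ J = 2 ^ J := by
    rw [← div_pow]; norm_num
  have h4 : ∀ i ∈ Finset.range N, xw J i * (2 + (i : ℝ)) ^ C * ZD.R.FF η (1 / 8) (2 ^ (i + 1)) ≤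
      (K * 2 ^ A * 10 * 2 ^ J) * ((2 + (i : ℝ)) ^ (A + C) * nw J i) := by
    intro i _
    have h5 := xw_nonneg J i
    have h6 := xw_two J i
    have h7 := xw_eight J i
    have h8 := hF (i + 1)
    have h9 : (2 + ((i + 1 : ℕ) : ℝ)) ^ A ≤ 2 ^ A * (2 + (i : ℝ)) ^ A := by
      rw [← mul_pow]
      have : (0:ℝ) ≤ i := Nat.cast_nonneg i
      gcongr
      push_cast
      linarith
    calc xw J i * (2 + (i : ℝ)) ^ C * ZD.R.FF η (1 / 8) (2 ^ (i + 1)) ≤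
        xw J i * (2 + (i : ℝ)) ^ C * (K * (2 ^ A * (2 + (i : ℝ)) ^ A) *
          (2 ^ (i + 1) + 8 ^ (i + 1) / 4 ^ J)) := by
          gcongr
          refine h8.trans ?_
          gcongr
      _ = (2 + (i : ℝ)) ^ C * (K * (2 ^ A * (2 + (i : ℝ)) ^ A)) * (xw J i * 2 ^ (i + 1)) +
          (2 + (i : ℝ)) ^ C * (K * (2 ^ A * (2 + (i : ℝ)) ^ A)) * (xw J i * 8 ^ (i + 1)) / 4 ^ J := by
          ring
      _ ≤ (2 + (i : ℝ)) ^ C * (K * (2 ^ A * (2 + (i : ℝ)) ^ A)) * (2 * 2 ^ J * nw J i) +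
          (2 + (i : ℝ)) ^ C * (K * (2 ^ A * (2 + (i : ℝ)) ^ A)) * (8 * 8 ^ J * nw J i) / 4 ^ J := by
          gcongr
      _ = (K * 2 ^ A) * ((2 + (i : ℝ)) ^ (A + C) * nw J i) * (2 * 2 ^ J + 8 * (8 ^ J / 4 ^ J)) := by
          rw [pow_add (2 + (i : ℝ)) A C]; ring
      _ = _ := by rw [e8]; ring
  refine (Finset.sum_le_sum h4).trans ?_
  rw [← Finset.mul_sum]
  have h10 := h1 J N
  calc _ ≤ (K * 2 ^ A * 10 * 2 ^ J) * (c1 * (2 + (J : ℝ)) ^ (A + C + 1)) := by gcongr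
    _ = _ := by ring

/-- the factor in `q` -/
noncomputable def G2 (C : ℕ) (η Z R : ℝ) (q : ℕ) : ℝ := if Squarefree q then
  min (R ^ (-(3 / 2 + η)) / q) (R ^ (-(15 / 2 + η)) / Z ^ 6 / q ^ 7) *
    (1 + Real.log q) ^ C * (MM (1 / 8) η q) ^ 2 else 0

lemma G2_nonneg (C : ℕ) {η Z R : ℝ} (hR : 0 < R) (hZ : 0 < Z) (q : ℕ) : 0 ≤ G2 C η Z R q := by
  unfold G2
  split_ifs
  · have : 0 ≤ Real.log q := Real.log_natCast_nonneg q
    have h2 : 0 ≤ min (R ^ (-(3 / 2 + η)) / q) (R ^ (-(15 / 2 + η)) / Z ^ 6 / q ^ 7) :=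
      le_min (by positivity) (by positivity)
    positivity
  · exact le_rfl

lemma G2_le (C J : ℕ) {η Z R : ℝ} (hR : 0 < R) (hZ : 0 < Z) (h1 : 1 ≤ R * Z * 2 ^ J) (q : ℕ) :
    G2 C η Z R q ≤ (R ^ (-(3 / 2 + η)) / 2 ^ J) * Vq C (1 / 8) η (2 ^ J) q := by
  unfold G2 Vq
  split_ifs with hq
  · have hq0 : 0 < q := Nat.pos_of_ne_zero hq.ne_zero
    have hq1 : (0 : ℝ) < q := by exact_mod_cast hq0
    have hlog : 0 ≤ Real.log q := Real.log_natCast_nonneg q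
    have hJ : (0 : ℝ) < 2 ^ J := by positivity
    have hm : min (R ^ (-(3 / 2 + η)) / q) (R ^ (-(15 / 2 + η)) / Z ^ 6 / q ^ 7) ≤
        (R ^ (-(3 / 2 + η)) / 2 ^ J) *
          min (6 * (((2 ^ J : ℕ) : ℝ) / q)) (6 ^ 13 * (((2 ^ J : ℕ) : ℝ) / q) ^ 7) := by
      rw [mul_min_of_nonneg _ _ (by positivity)]
      apply min_le_min
      · push_cast
        have e : R ^ (-(3 / 2 + η)) / 2 ^ J * (6 * (2 ^ J / (q : ℝ))) = 6 * (R ^ (-(3 / 2 + η)) / q) := by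
          field_simp
        rw [e]
        have : 0 ≤ R ^ (-(3 / 2 + η)) / q := by positivity
        linarith
      · push_cast
        have e1 : R ^ (-(15 / 2 + η)) = R ^ (-(3 / 2 + η)) / R ^ 6 := by
          rw [← Real.rpow_natCast R 6, ← Real.rpow_sub hR]
          congr 1
          push_cast; ring
        have e2 : R ^ (-(15 / 2 + η)) / Z ^ 6 / (q : ℝ) ^ 7 =
            (R ^ (-(3 / 2 + η)) / 2 ^ J * (2 ^ J / (q : ℝ)) ^ 7) / (R * Z * 2 ^ J) ^ 6 := by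
          rw [e1]; field_simp
        rw [e2]
        have h3 : 1 ≤ (R * Z * 2 ^ J) ^ 6 := one_le_pow₀ h1
        have h4 : 0 ≤ R ^ (-(3 / 2 + η)) / 2 ^ J * (2 ^ J / (q : ℝ)) ^ 7 := by positivity
        have h5 : (R ^ (-(3 / 2 + η)) / 2 ^ J * (2 ^ J / (q : ℝ)) ^ 7) / (R * Z * 2 ^ J) ^ 6 ≤
            R ^ (-(3 / 2 + η)) / 2 ^ J * (2 ^ J / (q : ℝ)) ^ 7 := div_le_self h4 h3
        nlinarith
    calc _ ≤ ((R ^ (-(3 / 2 + η)) / 2 ^ J) *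
          min (6 * (((2 ^ J : ℕ) : ℝ) / q)) (6 ^ 13 * (((2 ^ J : ℕ) : ℝ) / q) ^ 7)) *
            (1 + Real.log q) ^ C * (MM (1 / 8) η q) ^ 2 := by gcongr
      _ = _ := by ring
  · simp

lemma J_spec {X : ℝ} (hX : 3 ≤ X) : 1 ≤ Real.log X ∧ 1 ≤ ⌈20 * Real.log X⌉₊ ∧
    ((⌈20 * Real.log X⌉₊ : ℕ) : ℝ) ≤ 21 * Real.log X ∧ 200 * X ≤ 2 ^ ⌈20 * Real.log X⌉₊ := by
  have hX0 : (0 : ℝ) < X := by linarith
  have h3 : 1 ≤ Real.log X := by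
    rw [Real.le_log_iff_exp_le hX0]
    have := Real.exp_one_lt_d9
    linarith
  have hJ : 20 * Real.log X ≤ ((⌈20 * Real.log X⌉₊ : ℕ) : ℝ) := Nat.le_ceil _
  refine ⟨h3, ?_, ?_, ?_⟩
  · have : (0 : ℝ) < ((⌈20 * Real.log X⌉₊ : ℕ) : ℝ) := by linarith
    exact_mod_cast this
  · have := Nat.ceil_lt_add_one (by positivity : 0 ≤ 20 * Real.log X)
    linarith
  · have h4 : Real.exp (Real.log 2 * (20 * Real.log X)) ≤ 2 ^ ⌈20 * Real.log X⌉₊ := by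
      have h5 : (2 : ℝ) ^ ⌈20 * Real.log X⌉₊ = Real.exp (Real.log 2 * (⌈20 * Real.log X⌉₊ : ℕ)) := by
        rw [← Real.rpow_natCast, Real.rpow_def_of_pos (by norm_num)]
      rw [h5]
      apply Real.exp_le_exp.2
      have := Real.log_pos (by norm_num : (1 : ℝ) < 2)
      gcongr
    refine le_trans ?_ h4
    have h6 : Real.log (X ^ 12) ≤ Real.log 2 * (20 * Real.log X) := by
      rw [Real.log_pow]
      have := Real.log_two_gt_d9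
      push_cast
      nlinarith
    have h7 : X ^ 12 ≤ Real.exp (Real.log 2 * (20 * Real.log X)) := by
      rw [← Real.log_le_iff_le_exp (by positivity)]
      exact h6
    refine le_trans ?_ h7
    have h8 : (3 : ℝ) ^ 11 ≤ X ^ 11 := by gcongr
    nlinarith

lemma rpow_eta {R X : ℝ} {J : ℕ} (hJ : 1 ≤ J) (hX : 3 ≤ X) (hR : 1 / (400 * X ^ 2) ≤ R)
    (h2 : 200 * X ≤ 2 ^ J) : R ^ (-(1 / (2 * (J : ℝ)))) ≤ 2 := by
  have hX0 : (0 : ℝ) < X := by linarith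
  have hR0 : 0 < R := lt_of_lt_of_le (by positivity) hR
  have hJ0 : (0 : ℝ) < J := by exact_mod_cast hJ
  have h1 : R⁻¹ ≤ ((2 : ℝ) ^ J) ^ 2 := by
    have h3 : R⁻¹ ≤ (1 / (400 * X ^ 2))⁻¹ := by
      apply inv_anti₀ (by positivity) hR
    refine h3.trans ?_
    rw [one_div, inv_inv]
    have h4 : (200 * X) ^ 2 ≤ ((2 : ℝ) ^ J) ^ 2 := by gcongr
    nlinarith
  rw [Real.rpow_neg hR0.le, ← Real.inv_rpow hR0.le]
  calc R⁻¹ ^ (1 / (2 * (J : ℝ))) ≤ (((2 : ℝ) ^ J) ^ 2) ^ (1 / (2 * (J : ℝ))) := by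
        apply Real.rpow_le_rpow (by positivity) h1 (by positivity)
    _ = 2 := by
        rw [← pow_mul, ← Real.rpow_natCast, ← Real.rpow_mul (by norm_num)]
        have : ((J * 2 : ℕ) : ℝ) * (1 / (2 * (J : ℝ))) = 1 := by
          push_cast; field_simp
        rw [this, Real.rpow_one]

end OKS

open OKS Pool.Agent.ZD.K2 Pool.Agent.ZD.R in
theorem freq_sum_of (hKt : ∃ C : ℕ, ∀ (η Z r r' : ℝ) (k : ℤ) (q v g : ℕ),
    0 < η → η ≤ 1 / 2 → 0 < Z → 0 < r → 0 < r' → Squarefree q → 0 < v → Odd g →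
    k.natAbs = q * v ^ 2 →
    Z * ‖∑' n : ℕ × ℕ, gkg k g n.1 n.2 * ((Real.sqrt (n.1 * n.2 * g : ℕ) : ℝ) : ℂ)⁻¹ *
        exp (-(Real.pi * k ^ 2 * Z ^ 2 / ((n.1 * n.2 * g : ℕ) : ℂ) ^ 2)) *
        (exp (-(2 * Real.pi * n.1 * r)) * exp (-(2 * Real.pi * n.2 * r')))‖ ≤
      (C / η) ^ C * (1 + Real.log (q * v ^ 2)) ^ C * (v.divisors.card : ℝ) ^ C * (g : ℝ) ^ C *
        (MM (1 / 8) η q) ^ 2 *
        min ((r * r') ^ (-(3 / 2 + η)) / (q * v ^ 2))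
          ((r * r') ^ (-(15 / 2 + η)) / Z ^ 6 / (q * v ^ 2) ^ 7)) :
    ∃ C : ℕ, ∀ (X r r' : ℝ) (g : ℕ), 3 ≤ X → 1 / (20 * X) ≤ r → r ≤ 1 →
    1 / (20 * X) ≤ r' → r' ≤ 1 → Odd g →
    Summable (fun k : ℤ => if k = 0 then 0 else
      ‖∑' n : ℕ × ℕ, gkg k g n.1 n.2 * ((Real.sqrt (n.1 * n.2 * g : ℕ) : ℝ) : ℂ)⁻¹ *
        exp (-(Real.pi * k ^ 2 * (2 * X) ^ 2 / ((n.1 * n.2 * g : ℕ) : ℂ) ^ 2)) *
        (exp (-(2 * Real.pi * n.1 * r)) * exp (-(2 * Real.pi * n.2 * r')))‖) ∧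
    2 * X * ∑' k : ℤ, (if k = 0 then 0 else
      ‖∑' n : ℕ × ℕ, gkg k g n.1 n.2 * ((Real.sqrt (n.1 * n.2 * g : ℕ) : ℝ) : ℂ)⁻¹ *
        exp (-(Real.pi * k ^ 2 * (2 * X) ^ 2 / ((n.1 * n.2 * g : ℕ) : ℂ) ^ 2)) *
        (exp (-(2 * Real.pi * n.1 * r)) * exp (-(2 * Real.pi * n.2 * r')))‖) ≤
      C * (Real.log X) ^ C * (g : ℝ) ^ C * (r * r') ^ (-(3 / 2 : ℝ)) := by
  obtain ⟨C₁, hC₁⟩ := hKt
  obtain ⟨A, hA⟩ := R_all
  obtain ⟨c1, hc1, h1⟩ := ZD.R.sum_nw (A + C₁)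
  have hS3 : 0 ≤ ∑' v, F3 C₁ v := tsum_nonneg fun v => F3_nonneg _ _
  set S3 : ℝ := ∑' v, F3 C₁ v with hS3d
  set M : ℝ := 2 * ((42 * C₁) ^ C₁ * (2 * ((168 * A) ^ A * 2 ^ A * 10 * c1) * 23 ^ (A + C₁ + 1)) * S3)
    with hM
  have hM0 : 0 ≤ M := by positivity
  refine ⟨⌈M⌉₊ + (C₁ + A + (A + C₁ + 1)) + 1, ?_⟩
  intro X r r' g hX hr hr1 hr' hr1' hg
  set C : ℕ := ⌈M⌉₊ + (C₁ + A + (A + C₁ + 1)) + 1 with hC
  have hX0 : (0 : ℝ) < X := by linarith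
  have hr0 : 0 < r := lt_of_lt_of_le (by positivity) hr
  have hr0' : 0 < r' := lt_of_lt_of_le (by positivity) hr'
  have hg0 : 0 < g := hg.pos
  have hg1 : (1 : ℝ) ≤ g := by exact_mod_cast hg0
  obtain ⟨hL, hJ1, hJL, hJX⟩ := J_spec hX
  set J : ℕ := ⌈20 * Real.log X⌉₊ with hJ
  set L : ℝ := Real.log X with hLd
  have hJR : (1 : ℝ) ≤ J := by exact_mod_cast hJ1
  set η : ℝ := 1 / (2 * (J : ℝ)) with hη
  have hη0 : 0 < η := by positivity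
  have hη1 : η ≤ 1 / 2 := by
    rw [hη, div_le_div_iff₀ (by positivity) (by norm_num)]; linarith
  set R : ℝ := r * r' with hR
  have hR0 : 0 < R := by positivity
  have hRge : 1 / (400 * X ^ 2) ≤ R := by
    rw [hR]
    calc 1 / (400 * X ^ 2) = (1 / (20 * X)) * (1 / (20 * X)) := by field_simp; ring
      _ ≤ r * r' := by gcongr
  have hZ : 0 < 2 * X := by positivity
  have hRZ : 1 ≤ R * (2 * X) * 2 ^ J := by
    calc (1 : ℝ) = (1 / (400 * X ^ 2)) * (2 * X) * (200 * X) := by field_simp; ring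
      _ ≤ R * (2 * X) * 2 ^ J := by gcongr
  -- the sum over q
  set K : ℝ := (A * J / (1 / 8)) ^ A with hK
  have hK0 : 0 ≤ K := by positivity
  have hF : ∀ i : ℕ, ZD.R.FF η (1 / 8) (2 ^ i) ≤ K * (2 + (i : ℝ)) ^ A * (2 ^ i + 8 ^ i / 4 ^ J) :=
    fun i => hA J i (1 / 8) hJ1 (by norm_num) le_rfl
  have hV := dual_J A C₁ (η := η) J h1 hK0 hF
  have hVs : Summable (Vq C₁ (1 / 8) η (2 ^ J)) :=
    summable_of_sum_range_le (fun q => Vq_nonneg _ _ _ _ q) hV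
  have hVt : ∑' q, Vq C₁ (1 / 8) η (2 ^ J) q ≤
      (K * 2 ^ A * 10 * c1) * (2 + (J : ℝ)) ^ (A + C₁ + 1) * 2 ^ J :=
    Real.tsum_le_of_sum_range_le (fun q => Vq_nonneg _ _ _ _ q) hV
  have hGle := G2_le C₁ J (η := η) hR0 hZ hRZ
  have hG0 := G2_nonneg C₁ (η := η) hR0 hZ
  have hGs : Summable (G2 C₁ η (2 * X) R) :=
    Summable.of_nonneg_of_le hG0 hGle (hVs.mul_left _)
  have hGt : ∑' q, G2 C₁ η (2 * X) R q ≤
      R ^ (-(3 / 2 : ℝ)) * (2 * (K * 2 ^ A * 10 * c1) * (2 + (J : ℝ)) ^ (A + C₁ + 1)) := by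
    calc ∑' q, G2 C₁ η (2 * X) R q ≤
        ∑' q, (R ^ (-(3 / 2 + η)) / 2 ^ J) * Vq C₁ (1 / 8) η (2 ^ J) q :=
          hGs.tsum_le_tsum hGle (hVs.mul_left _)
      _ = (R ^ (-(3 / 2 + η)) / 2 ^ J) * ∑' q, Vq C₁ (1 / 8) η (2 ^ J) q := tsum_mul_left
      _ ≤ (R ^ (-(3 / 2 + η)) / 2 ^ J) *
          ((K * 2 ^ A * 10 * c1) * (2 + (J : ℝ)) ^ (A + C₁ + 1) * 2 ^ J) := by gcongr
      _ = R ^ (-(3 / 2 + η)) * ((K * 2 ^ A * 10 * c1) * (2 + (J : ℝ)) ^ (A + C₁ + 1)) := by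
          field_simp
      _ ≤ (R ^ (-(3 / 2 : ℝ)) * 2) * ((K * 2 ^ A * 10 * c1) * (2 + (J : ℝ)) ^ (A + C₁ + 1)) := by
          have e1 : R ^ (-(3 / 2 + η)) = R ^ (-(3 / 2 : ℝ)) * R ^ (-η) := by
            rw [← Real.rpow_add hR0]; congr 1; ring
          have e2 := rpow_eta hJ1 hX hRge hJX
          rw [e1]
          gcongr
      _ = _ := by ring
  -- the majorant
  set h : ℕ × ℕ → ℝ := fun x => ((C₁ : ℝ) / η) ^ C₁ * (g : ℝ) ^ C₁ *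
    (G2 C₁ η (2 * X) R x.1 * F3 C₁ x.2) with hh
  have hprod : Summable (fun x : ℕ × ℕ => G2 C₁ η (2 * X) R x.1 * F3 C₁ x.2) :=
    hGs.mul_of_nonneg (F3_summable C₁) hG0 (fun v => F3_nonneg _ v)
  have hhs : Summable h := hprod.mul_left _
  have hh0 : ∀ x, 0 ≤ h x := fun x => by
    have h1 := hG0 x.1
    have h2 := F3_nonneg C₁ x.2
    show 0 ≤ ((C₁ : ℝ) / η) ^ C₁ * (g : ℝ) ^ C₁ * (G2 C₁ η (2 * X) R x.1 * F3 C₁ x.2)
    positivity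
  set f : ℤ → ℝ := fun k : ℤ => if k = 0 then 0 else
      ‖∑' n : ℕ × ℕ, gkg k g n.1 n.2 * ((Real.sqrt (n.1 * n.2 * g : ℕ) : ℝ) : ℂ)⁻¹ *
        exp (-(Real.pi * k ^ 2 * (2 * X) ^ 2 / ((n.1 * n.2 * g : ℕ) : ℂ) ^ 2)) *
        (exp (-(2 * Real.pi * n.1 * r)) * exp (-(2 * Real.pi * n.2 * r')))‖ with hf
  have hf0 : ∀ k, 0 ≤ 2 * X * f k := by
    intro k
    have : 0 ≤ f k := by
      rw [hf]; dsimp only
      split_ifs
      · exact le_rfl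
      · exact norm_nonneg _
    positivity
  have H : ∀ (k : ℤ) (q v : ℕ), Squarefree q → 0 < v → k.natAbs = q * v ^ 2 →
      2 * X * f k ≤ h (q, v) := by
    intro k q v hq hv hk
    have hq0 : 0 < q := Nat.pos_of_ne_zero hq.ne_zero
    have hqR : (0 : ℝ) < q := by exact_mod_cast hq0
    have hvR : (1 : ℝ) ≤ v := by exact_mod_cast hv
    have hk0 : k ≠ 0 := by
      intro h0
      rw [h0] at hk
      have : 0 < q * v ^ 2 := by positivity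
      simp only [Int.natAbs_zero] at hk
      omega
    have h1 := hC₁ η (2 * X) r r' k q v g hη0 hη1 hZ hr0 hr0' hq hv hg hk
    have h2 : 2 * X * f k = 2 * X * ‖∑' n : ℕ × ℕ, gkg k g n.1 n.2 *
        ((Real.sqrt (n.1 * n.2 * g : ℕ) : ℝ) : ℂ)⁻¹ *
        exp (-(Real.pi * k ^ 2 * ((2 * X : ℝ) : ℂ) ^ 2 / ((n.1 * n.2 * g : ℕ) : ℂ) ^ 2)) *
        (exp (-(2 * Real.pi * n.1 * r)) * exp (-(2 * Real.pi * n.2 * r')))‖ := by
      rw [hf]; dsimp only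
      rw [if_neg hk0]
      push_cast
      rfl
    rw [h2]
    refine h1.trans ?_
    show _ ≤ ((C₁ : ℝ) / η) ^ C₁ * (g : ℝ) ^ C₁ * (G2 C₁ η (2 * X) R q * F3 C₁ v)
    unfold G2 F3
    rw [if_pos hq]
    have hm := min_scale (A := R ^ (-(3 / 2 + η))) (B := R ^ (-(15 / 2 + η)) / (2 * X) ^ 6)
      (by positivity) (by positivity) hvR hqR
    have hl := log_scale hq0 hv C₁
    have hlog : 0 ≤ Real.log q := Real.log_natCast_nonneg q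
    have hlog2 : 0 ≤ Real.log v := Real.log_natCast_nonneg v
    have hm0 : 0 ≤ min (R ^ (-(3 / 2 + η)) / (q * v ^ 2))
        (R ^ (-(15 / 2 + η)) / (2 * X) ^ 6 / (q * v ^ 2) ^ 7) :=
      le_min (by positivity) (by positivity)
    calc (C₁ / η) ^ C₁ * (1 + Real.log (q * v ^ 2)) ^ C₁ * (v.divisors.card : ℝ) ^ C₁ * (g : ℝ) ^ C₁ *
        (MM (1 / 8) η q) ^ 2 *
        min (R ^ (-(3 / 2 + η)) / (q * v ^ 2)) (R ^ (-(15 / 2 + η)) / (2 * X) ^ 6 / (q * v ^ 2) ^ 7)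
        ≤ (C₁ / η) ^ C₁ * ((1 + Real.log q) ^ C₁ * (1 + 2 * Real.log v) ^ C₁) *
          (v.divisors.card : ℝ) ^ C₁ * (g : ℝ) ^ C₁ * (MM (1 / 8) η q) ^ 2 *
          ((1 / (v : ℝ) ^ 2) * min (R ^ (-(3 / 2 + η)) / q)
            (R ^ (-(15 / 2 + η)) / (2 * X) ^ 6 / q ^ 7)) := by
          gcongr
      _ = _ := by ring
  obtain ⟨hgs, hgle⟩ := tsum_int_le hf0 hhs hh0 H
  have hfs : Summable f := by
    have := hgs.mul_left (2 * X)⁻¹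
    refine this.congr fun k => ?_
    field_simp
  refine ⟨hfs, ?_⟩
  have hf00 : f 0 = 0 := by rw [hf]; simp
  rw [tsum_mul_left, hf00, mul_zero, zero_add] at hgle
  refine hgle.trans ?_
  have e1 : ∑' x, h x = ((C₁ : ℝ) / η) ^ C₁ * (g : ℝ) ^ C₁ *
      ((∑' q, G2 C₁ η (2 * X) R q) * S3) := by
    show ∑' x : ℕ × ℕ, ((C₁ : ℝ) / η) ^ C₁ * (g : ℝ) ^ C₁ *
      (G2 C₁ η (2 * X) R x.1 * F3 C₁ x.2) = _
    rw [tsum_mul_left, hGs.tsum_mul_tsum (F3_summable C₁) hprod]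
  rw [e1]
  have e2 : (C₁ : ℝ) / η ≤ (42 * C₁) * L := by
    rw [hη]
    have : (C₁ : ℝ) / (1 / (2 * (J : ℝ))) = 2 * C₁ * J := by field_simp
    rw [this]
    have : (0 : ℝ) ≤ C₁ := Nat.cast_nonneg _
    nlinarith
  have e3 : K ≤ ((168 * A) * L) ^ A := by
    rw [hK]
    apply pow_le_pow_left₀ (by positivity)
    have : (A : ℝ) * J / (1 / 8) = 8 * A * J := by ring
    rw [this]
    have : (0 : ℝ) ≤ A := Nat.cast_nonneg _
    nlinarith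
  have e4 : 2 + (J : ℝ) ≤ 23 * L := by linarith
  have hL0 : 0 ≤ L := by linarith
  calc 2 * (((C₁ : ℝ) / η) ^ C₁ * (g : ℝ) ^ C₁ * ((∑' q, G2 C₁ η (2 * X) R q) * S3))
      ≤ 2 * (((42 * C₁) * L) ^ C₁ * (g : ℝ) ^ C₁ * ((R ^ (-(3 / 2 : ℝ)) *
          (2 * (((168 * A) * L) ^ A * 2 ^ A * 10 * c1) * (23 * L) ^ (A + C₁ + 1))) * S3)) := by
        have h5 : 0 ≤ ∑' q, G2 C₁ η (2 * X) R q := tsum_nonneg hG0
        gcongr
        refine hGt.trans ?_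
        gcongr
    _ = M * L ^ (C₁ + A + (A + C₁ + 1)) * (g : ℝ) ^ C₁ * R ^ (-(3 / 2 : ℝ)) := by
        rw [hM, mul_pow, mul_pow (168 * (A : ℝ)), mul_pow (23 : ℝ), pow_add L, pow_add L]
        ring
    _ ≤ C * L ^ C * (g : ℝ) ^ C * R ^ (-(3 / 2 : ℝ)) := by
        have h6 : M ≤ C := by
          refine (Nat.le_ceil M).trans ?_
          exact_mod_cast (by omega : ⌈M⌉₊ ≤ C)
        have h7 : L ^ (C₁ + A + (A + C₁ + 1)) ≤ L ^ C := pow_le_pow_right₀ hL (by omega)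
        have h8 : (g : ℝ) ^ C₁ ≤ (g : ℝ) ^ C := pow_le_pow_right₀ hg1 (by omega)
        gcongr

end Pool.Agent.CZ
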