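import Mathlib
import Pool.Agent.CZ.OKS

/-!
Module OFF: crude off-diagonal bound, combination of OPO, ORA, OKS.
-/

set_option autoImplicit false

open Complex Finset MeasureTheory

namespace Pool.Agent.CZ

open Pool.Agent.H5 (c bd)
open Pool.Agent.ZD (S T Lf nu tau gk eps MM)

theorem OFF_of
    (hP : ∀ {Z r r' : ℝ} {g : ℕ} (hZ : 0 < Z) (hr : 0 < r) (hr' : 0 < r') (hg : Odd g)
    (hs : Summable (fun k : ℤ => if k = 0 then 0 else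
      ‖∑' n : ℕ × ℕ, gkg k g n.1 n.2 * ((Real.sqrt (n.1 * n.2 * g : ℕ) : ℝ) : ℂ)⁻¹ *
        exp (-(Real.pi * k ^ 2 * Z ^ 2 / ((n.1 * n.2 * g : ℕ) : ℂ) ^ 2)) *
        (exp (-(2 * Real.pi * n.1 * r)) * exp (-(2 * Real.pi * n.2 * r')))‖)),
    Summable (fun D : ℤ => ‖(Real.exp (-(Real.pi * D ^ 2 / Z ^ 2)) : ℂ) *
      (((jacobiSym D g : ℤ) : ℂ) * (S D r * S D r'))‖) ∧
    ‖∑' D : ℤ, (Real.exp (-(Real.pi * D ^ 2 / Z ^ 2)) : ℂ) *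
        (((jacobiSym D g : ℤ) : ℂ) * (S D r * S D r')) -
      Z * ∑' n : ℕ × ℕ, if IsSquare (n.1 * n.2 * g) ∧ 0 < n.1 * n.2 then
        ((c n.1 * c n.2 : ℤ) : ℂ) * (((n.1 * n.2 * g).totient : ℝ) / (n.1 * n.2 * g : ℕ) : ℝ) *
        (exp (-(2 * Real.pi * n.1 * r)) * exp (-(2 * Real.pi * n.2 * r'))) else 0‖ ≤
      Z * ∑' k : ℤ, if k = 0 then 0 else
      ‖∑' n : ℕ × ℕ, gkg k g n.1 n.2 * ((Real.sqrt (n.1 * n.2 * g : ℕ) : ℝ) : ℂ)⁻¹ *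
        exp (-(Real.pi * k ^ 2 * Z ^ 2 / ((n.1 * n.2 * g : ℕ) : ℂ) ^ 2)) *
        (exp (-(2 * Real.pi * n.1 * r)) * exp (-(2 * Real.pi * n.2 * r')))‖)
    (hD : ∃ C : ℝ, ∀ (X r r' : ℝ) (P g : ℕ), 3 ≤ X → 1 / (20 * X) ≤ r → 1 / (20 * X) ≤ r' →
    X ^ 3 ≤ P → Odd g → (∀ p, p.Prime → p ∣ g → p ≤ P) →
    ‖RA P (fun D => ((jacobiSym D g : ℤ) : ℂ) * (S D r * S D r')) -
      ∑' n : ℕ × ℕ, if IsSquare (n.1 * n.2 * g) ∧ 0 < n.1 * n.2 then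
        ((c n.1 * c n.2 : ℤ) : ℂ) * (((n.1 * n.2 * g).totient : ℝ) / (n.1 * n.2 * g : ℕ) : ℝ) *
        (exp (-(2 * Real.pi * n.1 * r)) * exp (-(2 * Real.pi * n.2 * r'))) else 0‖ ≤
      C * Real.exp (-X))
    (hF : ∃ C : ℕ, ∀ (X r r' : ℝ) (g : ℕ), 3 ≤ X → 1 / (20 * X) ≤ r → r ≤ 1 →
    1 / (20 * X) ≤ r' → r' ≤ 1 → Odd g →
    Summable (fun k : ℤ => if k = 0 then 0 else
      ‖∑' n : ℕ × ℕ, gkg k g n.1 n.2 * ((Real.sqrt (n.1 * n.2 * g : ℕ) : ℝ) : ℂ)⁻¹ *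
        exp (-(Real.pi * k ^ 2 * (2 * X) ^ 2 / ((n.1 * n.2 * g : ℕ) : ℂ) ^ 2)) *
        (exp (-(2 * Real.pi * n.1 * r)) * exp (-(2 * Real.pi * n.2 * r')))‖) ∧
    2 * X * ∑' k : ℤ, (if k = 0 then 0 else
      ‖∑' n : ℕ × ℕ, gkg k g n.1 n.2 * ((Real.sqrt (n.1 * n.2 * g : ℕ) : ℝ) : ℂ)⁻¹ *
        exp (-(Real.pi * k ^ 2 * (2 * X) ^ 2 / ((n.1 * n.2 * g : ℕ) : ℂ) ^ 2)) *
        (exp (-(2 * Real.pi * n.1 * r)) * exp (-(2 * Real.pi * n.2 * r')))‖) ≤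
      C * (Real.log X) ^ C * (g : ℝ) ^ C * (r * r') ^ (-(3 / 2 : ℝ))) :
    ∃ C : ℕ, ∀ (X r r' : ℝ) (P g : ℕ), 3 ≤ X → 1 / (20 * X) ≤ r → r ≤ 1 →
    1 / (20 * X) ≤ r' → r' ≤ 1 → X ^ 3 ≤ P → Odd g → (∀ p, p.Prime → p ∣ g → p ≤ P) →
    Summable (fun D : ℤ => ‖(Real.exp (-(Real.pi * D ^ 2 / (2 * X) ^ 2)) : ℂ) *
        (((jacobiSym D g : ℤ) : ℂ) * (S D r * S D r'))‖) ∧
    ‖∑' D : ℤ, (Real.exp (-(Real.pi * D ^ 2 / (2 * X) ^ 2)) : ℂ) *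
        (((jacobiSym D g : ℤ) : ℂ) * (S D r * S D r')) -
      2 * X * RA P (fun D => ((jacobiSym D g : ℤ) : ℂ) * (S D r * S D r'))‖ ≤
      C * (Real.log X) ^ C * (g : ℝ) ^ C * (r * r') ^ (-(3 / 2 : ℝ)) := by
  obtain ⟨C₁, hC₁⟩ := hD
  obtain ⟨C₂, hC₂⟩ := hF
  refine ⟨C₂ + ⌈2 * |C₁|⌉₊, ?_⟩
  intro X r r' P g hX hr hr1 hr' hr1' hXP hg hgP
  set C : ℕ := C₂ + ⌈2 * |C₁|⌉₊ with hC
  have hX0 : (0 : ℝ) < X := by linarith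
  have hr0 : 0 < r := lt_of_lt_of_le (by positivity) hr
  have hr0' : 0 < r' := lt_of_lt_of_le (by positivity) hr'
  have hg0 : 0 < g := hg.pos
  have hg1 : (1 : ℝ) ≤ g := by exact_mod_cast hg0
  have hL : 1 ≤ Real.log X := (OKS.J_spec hX).1
  obtain ⟨hs, hle⟩ := hC₂ X r r' g hX hr hr1 hr' hr1' hg
  have hs' : Summable (fun k : ℤ => if k = 0 then 0 else
      ‖∑' n : ℕ × ℕ, gkg k g n.1 n.2 * ((Real.sqrt (n.1 * n.2 * g : ℕ) : ℝ) : ℂ)⁻¹ *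
        exp (-(Real.pi * k ^ 2 * ((2 * X : ℝ) : ℂ) ^ 2 / ((n.1 * n.2 * g : ℕ) : ℂ) ^ 2)) *
        (exp (-(2 * Real.pi * n.1 * r)) * exp (-(2 * Real.pi * n.2 * r')))‖) := by
    rw [Complex.ofReal_mul, Complex.ofReal_ofNat]; exact hs
  obtain ⟨h1, h2⟩ := hP (Z := 2 * X) (by positivity) hr0 hr0' hg hs'
  refine ⟨h1, ?_⟩
  have h3 := hC₁ X r r' P g hX hr hr' hXP hg hgP
  set Dg : ℂ := ∑' n : ℕ × ℕ, if IsSquare (n.1 * n.2 * g) ∧ 0 < n.1 * n.2 then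
        ((c n.1 * c n.2 : ℤ) : ℂ) * (((n.1 * n.2 * g).totient : ℝ) / (n.1 * n.2 * g : ℕ) : ℝ) *
        (exp (-(2 * Real.pi * n.1 * r)) * exp (-(2 * Real.pi * n.2 * r'))) else 0 with hDg
  set Sm : ℂ := ∑' D : ℤ, (Real.exp (-(Real.pi * D ^ 2 / (2 * X) ^ 2)) : ℂ) *
        (((jacobiSym D g : ℤ) : ℂ) * (S D r * S D r')) with hSm
  set Ra : ℂ := RA P (fun D => ((jacobiSym D g : ℤ) : ℂ) * (S D r * S D r')) with hRa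
  have h4 : ‖Sm - ((2 * X : ℝ) : ℂ) * Dg‖ ≤ C₂ * (Real.log X) ^ C₂ * (g : ℝ) ^ C₂ *
      (r * r') ^ (-(3 / 2 : ℝ)) := by
    refine h2.trans (le_trans (le_of_eq ?_) hle)
    rw [Complex.ofReal_mul, Complex.ofReal_ofNat]
  have hR1 : 1 ≤ (r * r') ^ (-(3 / 2 : ℝ)) := by
    apply Real.one_le_rpow_of_pos_of_le_one_of_nonpos (by positivity) _ (by norm_num)
    nlinarith
  have h5 : ‖((2 * X : ℝ) : ℂ) * (Dg - Ra)‖ ≤ 2 * |C₁| := by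
    rw [norm_mul, Complex.norm_real, Real.norm_of_nonneg (by positivity), norm_sub_rev]
    have h6 : X * Real.exp (-X) ≤ 1 := by
      have h7 := Real.add_one_le_exp X
      rw [Real.exp_neg, ← div_eq_mul_inv, div_le_one (Real.exp_pos _)]
      linarith
    calc 2 * X * ‖Ra - Dg‖ ≤ 2 * X * (C₁ * Real.exp (-X)) := by gcongr
      _ ≤ 2 * X * (|C₁| * Real.exp (-X)) := by
          have := le_abs_self C₁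
          gcongr
      _ = 2 * |C₁| * (X * Real.exp (-X)) := by ring
      _ ≤ 2 * |C₁| * 1 := by gcongr
      _ = _ := by ring
  have e : Sm - 2 * X * Ra = (Sm - ((2 * X : ℝ) : ℂ) * Dg) + ((2 * X : ℝ) : ℂ) * (Dg - Ra) := by
    push_cast; ring
  rw [e]
  refine (norm_add_le _ _).trans ((add_le_add h4 h5).trans ?_)
  have hLC : (Real.log X) ^ C₂ ≤ (Real.log X) ^ C := pow_le_pow_right₀ hL (by omega)
  have hgC : (g : ℝ) ^ C₂ ≤ (g : ℝ) ^ C := pow_le_pow_right₀ hg1 (by omega)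
  have hL1 : 1 ≤ (Real.log X) ^ C := one_le_pow₀ hL
  have hg2 : 1 ≤ (g : ℝ) ^ C := one_le_pow₀ hg1
  have h8 : 2 * |C₁| ≤ (⌈2 * |C₁|⌉₊ : ℕ) := Nat.le_ceil _
  have h9 : (2 * |C₁|) ≤ (⌈2 * |C₁|⌉₊ : ℕ) * (Real.log X) ^ C * (g : ℝ) ^ C *
      (r * r') ^ (-(3 / 2 : ℝ)) := by
    calc 2 * |C₁| ≤ (⌈2 * |C₁|⌉₊ : ℕ) * 1 * 1 * 1 := by linarith
      _ ≤ _ := by gcongr
  calc C₂ * (Real.log X) ^ C₂ * (g : ℝ) ^ C₂ * (r * r') ^ (-(3 / 2 : ℝ)) + 2 * |C₁|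
      ≤ C₂ * (Real.log X) ^ C * (g : ℝ) ^ C * (r * r') ^ (-(3 / 2 : ℝ)) +
        (⌈2 * |C₁|⌉₊ : ℕ) * (Real.log X) ^ C * (g : ℝ) ^ C * (r * r') ^ (-(3 / 2 : ℝ)) := by
        gcongr
    _ = _ := by rw [hC]; push_cast; ring

end Pool.Agent.CZ
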