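import Mathlib
import Pool.Agent.CZ.Defs
import Pool.Agent.ZD.E1

/-!
Critical zeros for the twists (MP_553913_nt), module ODS: the twisted double sum.
-/

set_option autoImplicit false

open Complex Finset MeasureTheory

namespace Pool.Agent.CZ

open Pool.Agent.H5 (c bd)
open Pool.Agent.ZD (S T Lf nu tau gk eps MM abs_c_le' abs_nu_le)
open Pool.Agent.ZD.E1 (Aq one_dim norm_jac card_div_le norm_Aq_le norm_c_le norm_bd_le
  norm_tau_le_aux maj maj_nonneg maj_summable norm_exp_le norm_cpow_le T_summable)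

namespace ODS

theorem gkg_eq (k : ℤ) (q g : ℕ) {m n : ℕ} (hm : 0 < m) (hn : 0 < n) :
    gkg k g m n = ∑ x ∈ m.divisors, ∑ y ∈ n.divisors,
      epsg k q g x y * ((bd q (m / x) : ℂ) * (bd q (n / y) : ℂ)) := by
  have h1 : ∀ x ∈ m.divisors, ∑ y ∈ n.divisors,
      epsg k q g x y * ((bd q (m / x) : ℂ) * (bd q (n / y) : ℂ)) =
      (∑ x' ∈ x.divisors, Aq q (x / x') * gkg k g x' n) * (bd q (m / x) : ℂ) := by
    intro x _
    have h2 : ∀ x' : ℕ, gkg k g x' n = ∑ y ∈ n.divisors,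
        (∑ y' ∈ y.divisors, Aq q (y / y') * gkg k g x' y') * (bd q (n / y) : ℂ) :=
      fun x' => (one_dim q (gkg k g x') hn).symm
    simp only [h2]
    simp only [epsg, Aq, Finset.sum_mul, Finset.mul_sum]
    rw [Finset.sum_comm]
    apply Finset.sum_congr rfl
    intro x' _
    apply Finset.sum_congr rfl
    intro y _
    apply Finset.sum_congr rfl
    intro y' _
    ring
  rw [Finset.sum_congr rfl h1]
  exact (one_dim q (fun x => gkg k g x n) hm).symm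

theorem norm_gkg_le (k : ℤ) {g x y : ℕ} (hg : 0 < g) (hx : 0 < x) (hy : 0 < y) :
    ‖gkg k g x y‖ ≤ g * ((x : ℝ) * y) ^ 3 := by
  unfold gkg
  rw [norm_mul, norm_div]
  have h1 : ‖((c x * c y : ℤ) : ℂ)‖ ≤ (x : ℝ) ^ 2 * (y : ℝ) ^ 2 := by
    push_cast
    rw [norm_mul]
    exact mul_le_mul (norm_c_le x) (norm_c_le y) (norm_nonneg _) (by positivity)
  have hxy : (1 : ℝ) ≤ ((x * y * g : ℕ) : ℝ) := by
    exact_mod_cast Nat.mul_pos (Nat.mul_pos hx hy) hg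
  have h2 : 1 ≤ ‖((Real.sqrt (x * y * g : ℕ) : ℝ) : ℂ)‖ := by
    rw [Complex.norm_real, Real.norm_of_nonneg (Real.sqrt_nonneg _)]
    rw [Real.one_le_sqrt]
    exact hxy
  have h3 : ‖tau k (x * y * g)‖ / ‖((Real.sqrt (x * y * g : ℕ) : ℝ) : ℂ)‖ ≤ (x : ℝ) * y * g := by
    rw [div_le_iff₀ (by linarith)]
    have := norm_tau_le_aux k (x * y * g)
    push_cast at this
    have h5 : (0 : ℝ) ≤ (x : ℝ) * y * g := by positivity
    nlinarith
  calc _ ≤ ((x : ℝ) ^ 2 * (y : ℝ) ^ 2) * ((x : ℝ) * y * g) :=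
        mul_le_mul h1 h3 (by positivity) (by positivity)
    _ = _ := by ring

theorem norm_epsg_le (k : ℤ) {g : ℕ} (hg : 0 < g) (q b₁ b₂ : ℕ) :
    ‖epsg k q g b₁ b₂‖ ≤ g * ((b₁ : ℝ) * b₂) ^ 6 := by
  rcases Nat.eq_zero_or_pos b₁ with rfl | hb1
  · simp [epsg]
  rcases Nat.eq_zero_or_pos b₂ with rfl | hb2
  · simp [epsg]
  unfold epsg
  have key : ∀ x ∈ b₁.divisors, ∀ y ∈ b₂.divisors,
      ‖((jacobiSym q (b₁ / x) * nu (b₁ / x) : ℤ) : ℂ) * ((jacobiSym q (b₂ / y) * nu (b₂ / y) : ℤ) : ℂ) *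
      gkg k g x y‖ ≤ g * ((b₁ : ℝ) * b₂) ^ 5 := by
    intro x hx y hy
    have hx0 : 0 < x := Nat.pos_of_mem_divisors hx
    have hxn := Nat.le_of_dvd hb1 (Nat.dvd_of_mem_divisors hx)
    have hdx : 0 < b₁ / x := Nat.div_pos hxn hx0
    have hy0 : 0 < y := Nat.pos_of_mem_divisors hy
    have hyn := Nat.le_of_dvd hb2 (Nat.dvd_of_mem_divisors hy)
    have hdy : 0 < b₂ / y := Nat.div_pos hyn hy0
    have h1 := norm_Aq_le q hdx
    have h2 := norm_Aq_le q hdy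
    have h3 := norm_gkg_le k hg hx0 hy0
    have h4 : ((b₁ / x : ℕ) : ℝ) ≤ b₁ := by exact_mod_cast Nat.div_le_self _ _
    have h5 : ((b₂ / y : ℕ) : ℝ) ≤ b₂ := by exact_mod_cast Nat.div_le_self _ _
    have h6 : (x : ℝ) ≤ b₁ := by exact_mod_cast hxn
    have h7 : (y : ℝ) ≤ b₂ := by exact_mod_cast hyn
    rw [norm_mul, norm_mul]
    unfold Aq at h1 h2
    calc _ ≤ (((b₁ / x : ℕ) : ℝ) ^ 2 * ((b₂ / y : ℕ) : ℝ) ^ 2) * (g * ((x : ℝ) * y) ^ 3) := by gcongr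
      _ ≤ ((b₁ : ℝ) ^ 2 * (b₂ : ℝ) ^ 2) * (g * ((b₁ : ℝ) * b₂) ^ 3) := by gcongr
      _ = _ := by ring
  calc _ ≤ ∑ x ∈ b₁.divisors, ∑ y ∈ b₂.divisors, (g : ℝ) * ((b₁ : ℝ) * b₂) ^ 5 := by
        refine (norm_sum_le _ _).trans (Finset.sum_le_sum fun x hx => ?_)
        exact (norm_sum_le _ _).trans (Finset.sum_le_sum fun y hy => key x hx y hy)
    _ = (b₁.divisors.card : ℝ) * ((b₂.divisors.card : ℝ) * (g * ((b₁ : ℝ) * b₂) ^ 5)) := by
        rw [Finset.sum_const, Finset.sum_const, nsmul_eq_mul, nsmul_eq_mul]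
    _ ≤ (b₁ : ℝ) * ((b₂ : ℝ) * (g * ((b₁ : ℝ) * b₂) ^ 5)) := by
        have h8 : (b₁.divisors.card : ℝ) ≤ b₁ := by exact_mod_cast card_div_le
        have h9 : (b₂.divisors.card : ℝ) ≤ b₂ := by exact_mod_cast card_div_le
        gcongr
    _ = _ := by ring

/-- the quadruple summand -/
noncomputable def Q (k : ℤ) (q g : ℕ) (u z w : ℂ) (p : (ℕ × ℕ) × (ℕ × ℕ)) : ℂ :=
  epsg k q g p.1.1 p.1.2 * ((bd q p.2.1 : ℂ) * (bd q p.2.2 : ℂ)) *
    (((p.1.1 * p.2.1) * (p.1.2 * p.2.2) : ℕ) : ℂ) ^ (u - 1 / 2) *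
    (exp (-(2 * Real.pi * (p.1.1 * p.2.1 : ℕ) * z)) * exp (-(2 * Real.pi * (p.1.2 * p.2.2 : ℕ) * w)))

theorem norm_Q_le (k : ℤ) (q : ℕ) {g : ℕ} (hg : 0 < g) (u : ℂ) {z w : ℂ} (hz : 0 < z.re) (hw : 0 < w.re) {M : ℕ}
    (hM : |(u - 1 / 2).re| ≤ M) (p : (ℕ × ℕ) × (ℕ × ℕ)) :
    ‖Q k q g u z w p‖ ≤ g * ((maj (M + 6) (Real.pi * z.re) p.1.1 * maj (M + 6) (Real.pi * w.re) p.1.2) *
      (maj (M + 6) (Real.pi * z.re) p.2.1 * maj (M + 6) (Real.pi * w.re) p.2.2)) := by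
  obtain ⟨⟨b₁, b₂⟩, m₁, m₂⟩ := p
  simp only [Q]
  have hnn : 0 ≤ (g : ℝ) * ((maj (M + 6) (Real.pi * z.re) b₁ * maj (M + 6) (Real.pi * w.re) b₂) *
      (maj (M + 6) (Real.pi * z.re) m₁ * maj (M + 6) (Real.pi * w.re) m₂)) := by
    have := maj_nonneg (M + 6) (Real.pi * z.re)
    have := maj_nonneg (M + 6) (Real.pi * w.re)
    unfold maj; positivity
  rcases Nat.eq_zero_or_pos b₁ with rfl | hb1
  · simpa [epsg] using hnn
  rcases Nat.eq_zero_or_pos b₂ with rfl | hb2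
  · simpa [epsg] using hnn
  rcases Nat.eq_zero_or_pos m₁ with rfl | hm1
  · simpa [Pool.Agent.H5.bd_zero] using hnn
  rcases Nat.eq_zero_or_pos m₂ with rfl | hm2
  · simpa [Pool.Agent.H5.bd_zero] using hnn
  have hN : 0 < (b₁ * m₁) * (b₂ * m₂) := by positivity
  have h1 := norm_epsg_le k hg q b₁ b₂
  have h2 : ‖((bd q m₁ : ℤ) : ℂ)‖ ≤ (m₁ : ℝ) ^ 6 := by
    refine (norm_bd_le q m₁).trans ?_
    exact pow_le_pow_right₀ (by exact_mod_cast hm1) (by norm_num)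
  have h3 : ‖((bd q m₂ : ℤ) : ℂ)‖ ≤ (m₂ : ℝ) ^ 6 := by
    refine (norm_bd_le q m₂).trans ?_
    exact pow_le_pow_right₀ (by exact_mod_cast hm2) (by norm_num)
  have h4 := norm_cpow_le u hN hM
  have h5 := norm_exp_le hb1 hm1 hz
  have h6 := norm_exp_le hb2 hm2 hw
  rw [norm_mul, norm_mul, norm_mul, norm_mul, norm_mul]
  calc _ ≤ ((g * ((b₁ : ℝ) * b₂) ^ 6) * ((m₁ : ℝ) ^ 6 * (m₂ : ℝ) ^ 6) *
        (((b₁ * m₁) * (b₂ * m₂) : ℕ) : ℝ) ^ M) *
        ((Real.exp (-b₁ * (Real.pi * z.re)) * Real.exp (-m₁ * (Real.pi * z.re))) *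
        (Real.exp (-b₂ * (Real.pi * w.re)) * Real.exp (-m₂ * (Real.pi * w.re)))) := by gcongr
    _ = _ := by
        unfold maj
        push_cast
        ring

theorem Q_summable (k : ℤ) (q : ℕ) {g : ℕ} (hg : 0 < g) (u : ℂ) {z w : ℂ} (hz : 0 < z.re) (hw : 0 < w.re) :
    Summable (Q k q g u z w) := by
  obtain ⟨M, hM⟩ := exists_nat_ge |(u - 1 / 2).re|
  have hz' : 0 < Real.pi * z.re := by positivity
  have hw' : 0 < Real.pi * w.re := by positivity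
  have s1 := maj_summable (M + 6) hz'
  have s2 := maj_summable (M + 6) hw'
  have s3 := s1.mul_of_nonneg s2 (maj_nonneg _ _) (maj_nonneg _ _)
  have s4 := s3.mul_of_nonneg s3 (fun p => mul_nonneg (maj_nonneg _ _ _) (maj_nonneg _ _ _))
    (fun p => mul_nonneg (maj_nonneg _ _ _) (maj_nonneg _ _ _))
  exact Summable.of_norm_bounded (s4.mul_left (g : ℝ)) (fun p => norm_Q_le k q hg u hz hw hM p)


end ODS

open ODS in
theorem double_sum_g (k : ℤ) (q g : ℕ) (u z w : ℂ) (hg : 0 < g) (hz : 0 < z.re) (hw : 0 < w.re) :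
    Summable (fun n : ℕ × ℕ => gkg k g n.1 n.2 * ((n.1 * n.2 : ℕ) : ℂ) ^ (u - 1 / 2) *
      (exp (-(2 * Real.pi * n.1 * z)) * exp (-(2 * Real.pi * n.2 * w)))) ∧
    Summable (fun b : ℕ × ℕ => epsg k q g b.1 b.2 * ((b.1 * b.2 : ℕ) : ℂ) ^ (u - 1 / 2) *
      (T q u (b.1 * z) * T q u (b.2 * w))) ∧
    ∑' n : ℕ × ℕ, gkg k g n.1 n.2 * ((n.1 * n.2 : ℕ) : ℂ) ^ (u - 1 / 2) *
      (exp (-(2 * Real.pi * n.1 * z)) * exp (-(2 * Real.pi * n.2 * w))) =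
    ∑' b : ℕ × ℕ, epsg k q g b.1 b.2 * ((b.1 * b.2 : ℕ) : ℂ) ^ (u - 1 / 2) *
      (T q u (b.1 * z) * T q u (b.2 * w)) := by
  classical
  have hQ := Q_summable k q hg u hz hw
  -- right hand side
  have hR : ∀ b : ℕ × ℕ, ∑' m : ℕ × ℕ, Q k q g u z w (b, m) =
      epsg k q g b.1 b.2 * ((b.1 * b.2 : ℕ) : ℂ) ^ (u - 1 / 2) *
      (T q u (b.1 * z) * T q u (b.2 * w)) := by
    rintro ⟨b₁, b₂⟩
    rcases Nat.eq_zero_or_pos b₁ with rfl | hb1
    · simp [Q, epsg]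
    rcases Nat.eq_zero_or_pos b₂ with rfl | hb2
    · simp [Q, epsg]
    unfold T
    rw [tsum_mul_tsum_of_summable_norm (T_summable q u hz hb1) (T_summable q u hw hb2),
      ← tsum_mul_left]
    apply tsum_congr
    rintro ⟨m₁, m₂⟩
    simp only [Q]
    have e1 : (((b₁ * m₁) * (b₂ * m₂) : ℕ) : ℂ) ^ (u - 1 / 2) =
        ((b₁ * b₂ : ℕ) : ℂ) ^ (u - 1 / 2) * ((m₁ : ℂ) ^ (u - 1 / 2) * (m₂ : ℂ) ^ (u - 1 / 2)) := by
      rw [← Complex.natCast_mul_natCast_cpow, ← Nat.cast_mul, ← Complex.natCast_mul_natCast_cpow,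
        ← Nat.cast_mul]
      congr 2
      ring
    have e2 : (-(2 * (Real.pi : ℂ) * (b₁ * m₁ : ℕ) * z)) = (-(2 * (Real.pi : ℂ) * m₁ * (b₁ * z))) := by
      push_cast; ring
    have e3 : (-(2 * (Real.pi : ℂ) * (b₂ * m₂ : ℕ) * w)) = (-(2 * (Real.pi : ℂ) * m₂ * (b₂ * w))) := by
      push_cast; ring
    rw [e1, e2, e3]
    push_cast
    ring
  -- left hand side
  have hL : ∀ n : ℕ × ℕ, ∑' p : (fun p : (ℕ × ℕ) × (ℕ × ℕ) => (p.1.1 * p.2.1, p.1.2 * p.2.2)) ⁻¹' {n},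
      Q k q g u z w p = gkg k g n.1 n.2 * ((n.1 * n.2 : ℕ) : ℂ) ^ (u - 1 / 2) *
      (exp (-(2 * Real.pi * n.1 * z)) * exp (-(2 * Real.pi * n.2 * w))) := by
    rintro ⟨n₁, n₂⟩
    by_cases hn : n₁ = 0 ∨ n₂ = 0
    · have hg' : gkg k g n₁ n₂ = 0 := by
        unfold gkg
        rcases hn with h | h <;> subst h <;> simp [Pool.Agent.H5.c_zero]
      simp only [hg', zero_mul]
      convert tsum_zero with p
      obtain ⟨⟨⟨b₁, b₂⟩, m₁, m₂⟩, hp⟩ := p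
      simp only [Set.mem_preimage, Set.mem_singleton_iff, Prod.mk.injEq] at hp
      simp only [Q]
      obtain ⟨hp1, hp2⟩ := hp
      rcases hn with h | h
      · rw [h] at hp1
        rcases Nat.mul_eq_zero.1 hp1 with h' | h' <;> subst h'
        · simp [epsg]
        · simp [Pool.Agent.H5.bd_zero]
      · rw [h] at hp2
        rcases Nat.mul_eq_zero.1 hp2 with h' | h' <;> subst h'
        · simp [epsg]
        · simp [Pool.Agent.H5.bd_zero]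
    · push Not at hn
      have hn1 : 0 < n₁ := Nat.pos_of_ne_zero hn.1
      have hn2 : 0 < n₂ := Nat.pos_of_ne_zero hn.2
      have hset : (fun p : (ℕ × ℕ) × (ℕ × ℕ) => (p.1.1 * p.2.1, p.1.2 * p.2.2)) ⁻¹' {(n₁, n₂)} =
          (((n₁.divisors ×ˢ n₂.divisors).image
            (fun b : ℕ × ℕ => (b, (n₁ / b.1, n₂ / b.2))) : Finset ((ℕ × ℕ) × (ℕ × ℕ))) :
            Set ((ℕ × ℕ) × (ℕ × ℕ))) := by
        ext ⟨⟨b₁, b₂⟩, m₁, m₂⟩
        simp only [Set.mem_preimage, Set.mem_singleton_iff, Prod.mk.injEq, Finset.coe_image,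
          Set.mem_image, Finset.mem_coe, Finset.mem_product, Nat.mem_divisors, Prod.exists]
        constructor
        · rintro ⟨h1, h2⟩
          refine ⟨b₁, b₂, ⟨⟨⟨m₁, h1.symm⟩, hn1.ne'⟩, ⟨m₂, h2.symm⟩, hn2.ne'⟩, ⟨rfl, rfl⟩, ?_, ?_⟩
          · rw [← h1]
            apply Nat.mul_div_cancel_left
            rcases Nat.eq_zero_or_pos b₁ with h | h
            · subst h; simp at h1; omega
            · exact h
          · rw [← h2]
            apply Nat.mul_div_cancel_left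
            rcases Nat.eq_zero_or_pos b₂ with h | h
            · subst h; simp at h2; omega
            · exact h
        · rintro ⟨a, b, ⟨⟨h1, _⟩, h2, _⟩, ⟨rfl, rfl⟩, rfl, rfl⟩
          exact ⟨Nat.mul_div_cancel' h1, Nat.mul_div_cancel' h2⟩
      rw [hset, Finset.tsum_subtype', Finset.sum_image (by
        intro a _ b _ hab
        exact (Prod.mk.inj hab).1), Finset.sum_product]
      simp only
      rw [gkg_eq k q g hn1 hn2, Finset.sum_mul, Finset.sum_mul]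
      apply Finset.sum_congr rfl
      intro x hx
      rw [Finset.sum_mul, Finset.sum_mul]
      apply Finset.sum_congr rfl
      intro y hy
      simp only [Q]
      rw [Nat.mul_div_cancel' (Nat.dvd_of_mem_divisors hx),
        Nat.mul_div_cancel' (Nat.dvd_of_mem_divisors hy)]
  have hF := hQ.hasSum.tsum_fiberwise (fun p : (ℕ × ℕ) × (ℕ × ℕ) => (p.1.1 * p.2.1, p.1.2 * p.2.2))
  simp only [hL] at hF
  have hP := hQ.prod
  simp only [hR] at hP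
  refine ⟨hF.summable, hP, ?_⟩
  rw [hF.tsum_eq, hQ.tsum_prod]
  simp only [hR]

end Pool.Agent.CZ
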