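import Mathlib
import Pool.Agent.CZ.Defs
import Pool.Agent.ZD.E2

/-!
Critical zeros for the twists (MP_553913_nt), module OEG: the norm of the twisted kernel `epsg`.
-/

set_option autoImplicit false

open Complex Finset MeasureTheory

namespace Pool.Agent.CZ

open Pool.Agent.H5 (c bd)
open Pool.Agent.ZD (S T Lf nu tau gk eps MM)

/-! ### Gauss sums -/

theorem oeg_tau_mul (k : ℤ) {m n : ℕ} (hm : Odd m) (hn : Odd n) (hmn : m.Coprime n) :
    tau k (m * n) = ((jacobiSym n m * jacobiSym m n : ℤ) : ℂ) * (tau k m * tau k n) := by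
  have hm0 : 0 < m := hm.pos
  have hn0 : 0 < n := hn.pos
  have : NeZero m := ⟨hm0.ne'⟩
  have : NeZero n := ⟨hn0.ne'⟩
  have hmn0 : 0 < m * n := Nat.mul_pos hm0 hn0
  unfold tau
  rw [Finset.sum_mul_sum, ← Finset.sum_product', Finset.mul_sum]
  symm
  have hinj : ∀ a ∈ range m ×ˢ range n, ∀ b ∈ range m ×ˢ range n,
      (n * a.1 + m * a.2) % (m * n) = (n * b.1 + m * b.2) % (m * n) → a = b := by
    rintro ⟨a1, a2⟩ ha ⟨b1, b2⟩ hb hab
    simp only [Finset.mem_product, Finset.mem_range] at ha hb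
    have h0 : (n * a1 + m * a2) ≡ (n * b1 + m * b2) [MOD m * n] := hab
    have h1 : n * a1 ≡ n * b1 [MOD m] := by
      have := (Nat.ModEq.of_mul_right n h0)
      have e1 : n * a1 + m * a2 ≡ n * a1 [MOD m] := by
        simp [Nat.ModEq]
      have e2 : n * b1 + m * b2 ≡ n * b1 [MOD m] := by
        simp [Nat.ModEq]
      exact e1.symm.trans (this.trans e2)
    have h2 : m * a2 ≡ m * b2 [MOD n] := by
      have := (Nat.ModEq.of_mul_left m h0)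
      have e1 : n * a1 + m * a2 ≡ m * a2 [MOD n] := by
        simp [Nat.ModEq]
      have e2 : n * b1 + m * b2 ≡ m * b2 [MOD n] := by
        simp [Nat.ModEq]
      exact e1.symm.trans (this.trans e2)
    have h3 : a1 ≡ b1 [MOD m] := Nat.ModEq.cancel_left_of_coprime hmn h1
    have h4 : a2 ≡ b2 [MOD n] := Nat.ModEq.cancel_left_of_coprime hmn.symm h2
    ext
    · exact Nat.ModEq.eq_of_lt_of_lt h3 ha.1 hb.1
    · exact Nat.ModEq.eq_of_lt_of_lt h4 ha.2 hb.2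
  refine Finset.sum_bij (fun a _ => (n * a.1 + m * a.2) % (m * n)) (fun x hx => by
      simp [Nat.mod_lt _ hmn0]) (fun a ha b hb hab => hinj a ha b hb hab) ?_ ?_
  · intro b hb
    obtain ⟨a, ha, hab⟩ := Finset.surj_on_of_inj_on_of_card_le (s := range m ×ˢ range n)
      (t := range (m * n)) (fun a _ => (n * a.1 + m * a.2) % (m * n))
      (fun x hx => by simp [Nat.mod_lt _ hmn0])
      (fun x1 x2 h1 h2 h12 => hinj x1 h1 x2 h2 h12) (by simp) b hb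
    exact ⟨a, ha, hab.symm⟩
  · rintro ⟨x1, x2⟩ hx
    simp only
    set x := (n * x1 + m * x2) % (m * n) with hxdef
    have hmod : ((x : ℕ) : ℤ) % ((m * n : ℕ) : ℤ) = ((n * x1 + m * x2 : ℤ)) % ((m * n : ℕ) : ℤ) := by
      rw [hxdef]; push_cast; rw [Int.emod_emod_of_dvd _ (dvd_refl _)]
    have hJ : jacobiSym x (m * n) = (jacobiSym n m * jacobiSym m n) *
        (jacobiSym x1 m * jacobiSym x2 n) := by
      rw [jacobiSym.mod_left' hmod, jacobiSym.mul_right]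
      have e1 : (n * x1 + m * x2 : ℤ) % m = ((n : ℤ) * x1) % m := by
        simp [Int.add_mul_emod_self_left]
      have e2 : (n * x1 + m * x2 : ℤ) % n = ((m : ℤ) * x2) % n := by
        rw [add_comm]
        simp [Int.add_mul_emod_self_left]
      rw [jacobiSym.mod_left' e1, jacobiSym.mod_left' e2, jacobiSym.mul_left, jacobiSym.mul_left]
      ring
    have hE : exp (2 * Real.pi * I * (k * (x : ℕ) / ((m * n : ℕ) : ℂ))) =
        exp (2 * Real.pi * I * (k * (x1 : ℕ) / m)) * exp (2 * Real.pi * I * (k * (x2 : ℕ) / n)) := by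
      have h1 := ZD.G1.exp_congr k hmn0.ne' hmod
      have h2 : ((x : ℤ) : ℂ) = ((x : ℕ) : ℂ) := by push_cast; rfl
      rw [h2] at h1
      rw [h1, ← Complex.exp_add]
      congr 1
      have hm' : (m : ℂ) ≠ 0 := by exact_mod_cast hm0.ne'
      have hn' : (n : ℂ) ≠ 0 := by exact_mod_cast hn0.ne'
      push_cast
      field_simp
    rw [hJ, hE]
    push_cast
    ring

/-- `g`-smooth numbers -/
def oegSm (g n : ℕ) : Prop := ∀ p : ℕ, p.Prime → p ∣ n → p ∣ g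

theorem oegSm_dvd {g m n : ℕ} (h : oegSm g n) (hmn : m ∣ n) : oegSm g m :=
  fun p hp hpm => h p hp (hpm.trans hmn)

theorem oegSm_mul {g m n : ℕ} (h : oegSm g m) (h' : oegSm g n) : oegSm g (m * n) := by
  intro p hp hpmn
  rcases (hp.dvd_mul).1 hpmn with h1 | h1
  · exact h p hp h1
  · exact h' p hp h1

theorem oeg_tau_dvd {k : ℤ} {g n : ℕ} (hg : Odd g) (hn : Odd n) (hsm : oegSm g n)
    (h : tau k (n * g) ≠ 0) : n ∣ k.natAbs := by
  rw [Nat.dvd_iff_prime_pow_dvd_dvd]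
  intro p j hp hpj
  rcases Nat.eq_zero_or_pos j with hj | hj
  · rw [hj, pow_zero]; exact one_dvd _
  have hpn : p ∣ n := (dvd_pow_self p hj.ne').trans hpj
  have hpg : p ∣ g := hsm p hp hpn
  have hp2 : p ≠ 2 := by
    rintro rfl
    rw [Nat.odd_iff] at hn
    omega
  have hng0 : n * g ≠ 0 := (Nat.mul_pos hn.pos hg.pos).ne'
  obtain ⟨e, N', hpN, hN⟩ := Nat.exists_eq_pow_mul_and_not_dvd hng0 p hp.ne_one
  have he : j + 1 ≤ e := by
    have h1 : p ^ (j + 1) ∣ p ^ e * N' := by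
      rw [← hN, pow_succ]
      exact mul_dvd_mul hpj hpg
    have hc : (p ^ (j + 1)).Coprime N' := Nat.Coprime.pow_left _ ((hp.coprime_iff_not_dvd).2 hpN)
    have h2 := hc.dvd_of_dvd_mul_right h1
    exact (Nat.pow_dvd_pow_iff_le_right hp.one_lt).1 h2
  have hodd : Odd (n * g) := hn.mul hg
  rw [hN] at hodd h
  have ho1 : Odd (p ^ e) := Nat.odd_mul.1 hodd |>.1
  have ho2 : Odd N' := Nat.odd_mul.1 hodd |>.2
  have hc : (p ^ e).Coprime N' := Nat.Coprime.pow_left _ ((hp.coprime_iff_not_dvd).2 hpN)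
  rw [oeg_tau_mul k ho1 ho2 hc] at h
  have h3 : tau k (p ^ e) ≠ 0 := by
    intro h0
    rw [h0] at h
    simp at h
  have h4 : (p : ℤ) ^ (e - 1) ∣ k := by
    by_contra hcon
    exact h3 (ZD.tau_prime_pow_eq_zero hp hp2 (by omega) hcon)
  have h5 : p ^ (e - 1) ∣ k.natAbs := by
    have := Int.natAbs_dvd_natAbs.2 h4
    simpa [Int.natAbs_pow] using this
  exact (pow_dvd_pow p (by omega)).trans h5

/-! ### multiplicativity -/

theorem oeg_c_ne {x y : ℕ} (hxy : c x * c y ≠ 0) : x % 4 = 1 ∧ y % 4 = 1 := by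
  constructor
  · by_contra hne
    exact hxy (by rw [H5.c_eq_zero_of hne, zero_mul])
  · by_contra hne
    exact hxy (by rw [H5.c_eq_zero_of hne, mul_zero])

theorem oeg_gkg_mul (k : ℤ) {g x' y' x y : ℕ} (hg : Odd g) (h : (x' * y').Coprime (x * y * g))
    (h1 : x' * y' ≠ 0) : gkg k g (x' * x) (y' * y) = gk k x' y' * gkg k g x y := by
  have hxy : (x' * y').Coprime (x * y) := Nat.Coprime.coprime_dvd_right (Dvd.intro _ rfl) h
  have hx : x'.Coprime x := Nat.Coprime.coprime_dvd_left (Dvd.intro _ rfl)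
    (Nat.Coprime.coprime_dvd_right (Dvd.intro _ rfl) hxy)
  have hy : y'.Coprime y := Nat.Coprime.coprime_dvd_left (Dvd.intro_left _ rfl)
    (Nat.Coprime.coprime_dvd_right (Dvd.intro_left _ rfl) hxy)
  have hx1 : x' ≠ 0 := left_ne_zero_of_mul h1
  have hy1 : y' ≠ 0 := right_ne_zero_of_mul h1
  unfold gkg gk
  rw [H5.c_mul hx hx1, H5.c_mul hy hy1]
  by_cases hc1 : c x' * c y' = 0
  · have : c x' * c x * (c y' * c y) = 0 := by
      calc _ = (c x' * c y') * (c x * c y) := by ring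
        _ = 0 := by rw [hc1, zero_mul]
    rw [this, hc1]; simp
  by_cases hc2 : c x * c y = 0
  · have : c x' * c x * (c y' * c y) = 0 := by
      calc _ = (c x' * c y') * (c x * c y) := by ring
        _ = 0 := by rw [hc2, mul_zero]
    rw [this, hc2]; simp
  have h41 : (x' * y') % 4 = 1 := by
    rw [Nat.mul_mod, (oeg_c_ne hc1).1, (oeg_c_ne hc1).2]
  have h42 : (x * y) % 4 = 1 := by
    rw [Nat.mul_mod, (oeg_c_ne hc2).1, (oeg_c_ne hc2).2]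
  have ho1 : Odd (x' * y') := by rw [Nat.odd_iff]; omega
  have ho2 : Odd (x * y * g) := by
    have : Odd (x * y) := by rw [Nat.odd_iff]; omega
    exact this.mul hg
  have hre : x' * x * (y' * y) * g = (x' * y') * (x * y * g) := by ring
  rw [hre, ZD.tau_mul k ho1 ho2 h h41, Nat.cast_mul (x' * y') (x * y * g),
    Real.sqrt_mul (by positivity)]
  push_cast
  rw [mul_div_mul_comm]
  ring

theorem oeg_epsg_mul (k : ℤ) (q : ℕ) {g b₁ b₂ c₁ c₂ : ℕ} (hg : Odd g)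
    (h : (b₁ * b₂).Coprime (c₁ * c₂ * g)) (h1 : b₁ * b₂ ≠ 0) :
    epsg k q g (b₁ * c₁) (b₂ * c₂) = eps k q b₁ b₂ * epsg k q g c₁ c₂ := by
  have h' : (b₁ * b₂).Coprime (c₁ * c₂) := Nat.Coprime.coprime_dvd_right (Dvd.intro _ rfl) h
  have hx : b₁.Coprime c₁ := Nat.Coprime.coprime_dvd_left (Dvd.intro _ rfl)
    (Nat.Coprime.coprime_dvd_right (Dvd.intro _ rfl) h')
  have hy : b₂.Coprime c₂ := Nat.Coprime.coprime_dvd_left (Dvd.intro_left _ rfl)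
    (Nat.Coprime.coprime_dvd_right (Dvd.intro_left _ rfl) h')
  unfold epsg eps
  rw [ZD.E2.sum_divisors_coprime hx]
  have step : ∀ x₁ ∈ b₁.divisors, ∀ x₂ ∈ c₁.divisors,
      ∑ y ∈ (b₂ * c₂).divisors,
        ((jacobiSym q (b₁ * c₁ / (x₁ * x₂)) * nu (b₁ * c₁ / (x₁ * x₂)) : ℤ) : ℂ) *
          ((jacobiSym q (b₂ * c₂ / y) * nu (b₂ * c₂ / y) : ℤ) : ℂ) * gkg k g (x₁ * x₂) y =
      ∑ y₁ ∈ b₂.divisors, ∑ y₂ ∈ c₂.divisors,
        (((jacobiSym q (b₁ / x₁) * nu (b₁ / x₁) : ℤ) : ℂ) *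
          ((jacobiSym q (b₂ / y₁) * nu (b₂ / y₁) : ℤ) : ℂ) * gk k x₁ y₁) *
        (((jacobiSym q (c₁ / x₂) * nu (c₁ / x₂) : ℤ) : ℂ) *
          ((jacobiSym q (c₂ / y₂) * nu (c₂ / y₂) : ℤ) : ℂ) * gkg k g x₂ y₂) := by
    intro x₁ hx₁ x₂ hx₂
    rw [ZD.E2.sum_divisors_coprime hy]
    refine Finset.sum_congr rfl (fun y₁ hy₁ => Finset.sum_congr rfl (fun y₂ hy₂ => ?_))
    rw [Nat.mem_divisors] at hx₁ hx₂ hy₁ hy₂
    rw [Nat.mul_div_mul_comm hx₁.1 hx₂.1, Nat.mul_div_mul_comm hy₁.1 hy₂.1]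
    have p1 : 0 < b₁ / x₁ := Nat.div_pos (Nat.le_of_dvd (Nat.pos_of_ne_zero hx₁.2) hx₁.1)
      (Nat.pos_of_dvd_of_pos hx₁.1 (Nat.pos_of_ne_zero hx₁.2))
    have p2 : 0 < c₁ / x₂ := Nat.div_pos (Nat.le_of_dvd (Nat.pos_of_ne_zero hx₂.2) hx₂.1)
      (Nat.pos_of_dvd_of_pos hx₂.1 (Nat.pos_of_ne_zero hx₂.2))
    have p3 : 0 < b₂ / y₁ := Nat.div_pos (Nat.le_of_dvd (Nat.pos_of_ne_zero hy₁.2) hy₁.1)
      (Nat.pos_of_dvd_of_pos hy₁.1 (Nat.pos_of_ne_zero hy₁.2))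
    have p4 : 0 < c₂ / y₂ := Nat.div_pos (Nat.le_of_dvd (Nat.pos_of_ne_zero hy₂.2) hy₂.1)
      (Nat.pos_of_dvd_of_pos hy₂.1 (Nat.pos_of_ne_zero hy₂.2))
    have c1 : (b₁ / x₁).Coprime (c₁ / x₂) :=
      Nat.Coprime.coprime_dvd_left (Nat.div_dvd_of_dvd hx₁.1)
        (Nat.Coprime.coprime_dvd_right (Nat.div_dvd_of_dvd hx₂.1) hx)
    have c2 : (b₂ / y₁).Coprime (c₂ / y₂) :=
      Nat.Coprime.coprime_dvd_left (Nat.div_dvd_of_dvd hy₁.1)
        (Nat.Coprime.coprime_dvd_right (Nat.div_dvd_of_dvd hy₂.1) hy)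
    have c3 : (x₁ * y₁).Coprime (x₂ * y₂ * g) :=
      Nat.Coprime.coprime_dvd_left (mul_dvd_mul hx₁.1 hy₁.1)
        (Nat.Coprime.coprime_dvd_right (mul_dvd_mul (mul_dvd_mul hx₂.1 hy₂.1) dvd_rfl) h)
    have n1 : x₁ * y₁ ≠ 0 := ne_zero_of_dvd_ne_zero h1 (mul_dvd_mul hx₁.1 hy₁.1)
    rw [oeg_gkg_mul k hg c3 n1, ZD.nu_mul c1 p1 p2, ZD.nu_mul c2 p3 p4,
      jacobiSym.mul_right' _ p1.ne' p2.ne', jacobiSym.mul_right' _ p3.ne' p4.ne']
    push_cast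
    ring
  rw [Finset.sum_congr rfl (fun x₁ hx₁ => Finset.sum_congr rfl (fun x₂ hx₂ => step x₁ hx₁ x₂ hx₂))]
  rw [Finset.sum_mul_sum]
  refine Finset.sum_congr rfl (fun x₁ _ => Finset.sum_congr rfl (fun x₂ _ => ?_))
  rw [Finset.sum_mul_sum]

/-! ### the `g`-part -/

theorem oeg_split (g : ℕ) : ∀ m : ℕ, m ≠ 0 → ∃ ab : ℕ × ℕ, m = ab.1 * ab.2 ∧ ab.1.Coprime g ∧
    ab.1 ≠ 0 ∧ ab.2 ≠ 0 ∧ oegSm g ab.2 := by
  intro m
  induction m using Nat.strong_induction_on with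
  | _ m ih =>
  intro hm
  by_cases hc : m.Coprime g
  · refine ⟨(m, 1), by simp, hc, hm, one_ne_zero, ?_⟩
    intro p hp hp1
    exact absurd (Nat.dvd_one.1 hp1) hp.ne_one
  · obtain ⟨p, hp, hpm, hpg⟩ := Nat.Prime.not_coprime_iff_dvd.1 hc
    obtain ⟨n, rfl⟩ := hpm
    have hn : n ≠ 0 := right_ne_zero_of_mul hm
    have hlt : n < p * n := by
      have := hp.two_le
      have := Nat.pos_of_ne_zero hn
      nlinarith
    obtain ⟨⟨a, b⟩, h1, h2, h3, h4, h5⟩ := ih n hlt hn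
    refine ⟨(a, p * b), ?_, h2, h3, mul_ne_zero hp.ne_zero h4, ?_⟩
    · simp only at h1 ⊢
      rw [h1]; ring
    · intro r hr hrb
      rcases (hr.dvd_mul).1 hrb with h | h
      · rw [(Nat.prime_dvd_prime_iff_eq hr hp).1 h]; exact hpg
      · exact h5 r hr h

theorem oeg_smooth_dvd {g q v n : ℕ} (hsq : Squarefree q) (hg : g ≠ 0) (hv : v ≠ 0)
    (hsm : oegSm g n) (h : n ∣ q * v ^ 2) : n ∣ g * v ^ 2 := by
  rw [Nat.dvd_iff_prime_pow_dvd_dvd]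
  intro p j hp hpj
  rcases Nat.eq_zero_or_pos j with hj | hj
  · rw [hj, pow_zero]; exact one_dvd _
  have hpn : p ∣ n := (dvd_pow_self p hj.ne').trans hpj
  have hpg : p ∣ g := hsm p hp hpn
  have hq0 : q ≠ 0 := hsq.ne_zero
  have hv2 : v ^ 2 ≠ 0 := pow_ne_zero 2 hv
  have h4 := (hp.pow_dvd_iff_le_factorization (mul_ne_zero hq0 hv2)).1 (hpj.trans h)
  rw [Nat.factorization_mul hq0 hv2] at h4
  rw [hp.pow_dvd_iff_le_factorization (mul_ne_zero hg hv2), Nat.factorization_mul hg hv2]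
  simp only [Finsupp.add_apply] at h4 ⊢
  have h5 := hsq.natFactorization_le_one p
  have h6 := (hp.dvd_iff_one_le_factorization hg).1 hpg
  omega

theorem oeg_nu_dvd {g n : ℕ} (hn : n ≠ 0) (hsm : oegSm g n) (h : nu n ≠ 0) : n ∣ g ^ 2 := by
  rw [Nat.dvd_iff_prime_pow_dvd_dvd]
  intro p j hp hpj
  rcases Nat.eq_zero_or_pos j with hj | hj
  · rw [hj, pow_zero]; exact one_dvd _
  have hpn : p ∣ n := (dvd_pow_self p hj.ne').trans hpj
  have hpg : p ∣ g := hsm p hp hpn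
  have h1 : ZD.nuF p (n.factorization p) ≠ 0 := by
    unfold nu Finsupp.prod at h
    rw [Finset.prod_ne_zero_iff] at h
    apply h p
    rw [Nat.support_factorization]
    exact Nat.mem_primeFactors.2 ⟨hp, hpn, hn⟩
  have h2 : n.factorization p ≤ 2 := by
    by_contra hcon
    apply h1
    unfold ZD.nuF
    rw [if_neg (by omega), if_neg (by omega), if_neg (by omega)]
  have h3 := (hp.pow_dvd_iff_le_factorization hn).1 hpj
  exact (pow_dvd_pow p (h3.trans h2)).trans (pow_dvd_pow_of_dvd hpg 2)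

theorem oeg_support {k : ℤ} {q v g m₁ m₂ : ℕ} (hsq : Squarefree q) (hv : v ≠ 0) (hg : Odd g)
    (hkq : k.natAbs = q * v ^ 2) (h1 : oegSm g m₁) (h2 : oegSm g m₂)
    (h : epsg k q g m₁ m₂ ≠ 0) : m₁ ∣ g ^ 3 * v ^ 2 ∧ m₂ ∣ g ^ 3 * v ^ 2 := by
  unfold epsg at h
  obtain ⟨x, hx, hx'⟩ := Finset.exists_ne_zero_of_sum_ne_zero h
  obtain ⟨y, hy, hy'⟩ := Finset.exists_ne_zero_of_sum_ne_zero hx'
  rw [Nat.mem_divisors] at hx hy
  have hg0 : g ≠ 0 := hg.pos.ne'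
  have n1 : nu (m₁ / x) ≠ 0 := by
    intro h0; apply hy'; rw [h0]; simp
  have n2 : nu (m₂ / y) ≠ 0 := by
    intro h0; apply hy'; rw [h0]; simp
  have n3 : gkg k g x y ≠ 0 := by
    intro h0; apply hy'; rw [h0]; simp
  have n4 : c x * c y ≠ 0 := by
    intro h0; apply n3; unfold gkg; rw [h0]; simp
  have n5 : tau k (x * y * g) ≠ 0 := by
    intro h0; apply n3; unfold gkg; rw [h0]; simp
  have ho : Odd (x * y) := by
    have := oeg_c_ne n4
    rw [Nat.odd_iff, Nat.mul_mod]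
    have e1 : x % 2 = 1 := by omega
    have e2 : y % 2 = 1 := by omega
    rw [e1, e2]
  have hsx : oegSm g x := oegSm_dvd h1 hx.1
  have hsy : oegSm g y := oegSm_dvd h2 hy.1
  have h3 := oeg_tau_dvd hg ho (oegSm_mul hsx hsy) n5
  rw [hkq] at h3
  have h4 := oeg_smooth_dvd hsq hg0 hv (oegSm_mul hsx hsy) h3
  have p1 : m₁ / x ≠ 0 := (Nat.div_pos (Nat.le_of_dvd (Nat.pos_of_ne_zero hx.2) hx.1)
      (Nat.pos_of_dvd_of_pos hx.1 (Nat.pos_of_ne_zero hx.2))).ne'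
  have p2 : m₂ / y ≠ 0 := (Nat.div_pos (Nat.le_of_dvd (Nat.pos_of_ne_zero hy.2) hy.1)
      (Nat.pos_of_dvd_of_pos hy.1 (Nat.pos_of_ne_zero hy.2))).ne'
  have h5 := oeg_nu_dvd p1 (oegSm_dvd h1 (Nat.div_dvd_of_dvd hx.1)) n1
  have h6 := oeg_nu_dvd p2 (oegSm_dvd h2 (Nat.div_dvd_of_dvd hy.1)) n2
  have e : g ^ 3 * v ^ 2 = g ^ 2 * (g * v ^ 2) := by ring
  constructor
  · rw [e, ← Nat.div_mul_cancel hx.1]
    exact mul_dvd_mul h5 ((Dvd.intro _ rfl).trans h4)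
  · rw [e, ← Nat.div_mul_cancel hy.1]
    exact mul_dvd_mul h6 ((Dvd.intro_left _ rfl).trans h4)

theorem oeg_card_le {d n : ℕ} (h : d ∣ n) (hn : n ≠ 0) : d.divisors.card ≤ n.divisors.card :=
  Finset.card_le_card (Nat.divisors_subset_of_dvd hn h)

theorem oeg_gkg_le (k : ℤ) {g x y : ℕ} (hg : 0 < g) (hx : 0 < x) (hy : 0 < y) :
    ‖gkg k g x y‖ ≤ (x.divisors.card * y.divisors.card) * ((x : ℝ) * y) * Real.sqrt g := by
  unfold gkg
  have h1 := ZD.abs_c_le' x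
  have h2 := ZD.abs_c_le' y
  have h3 := ZD.norm_tau_le k (x * y * g)
  have hN : (0 : ℝ) < ((x * y * g : ℕ) : ℝ) := by
    exact_mod_cast Nat.mul_pos (Nat.mul_pos hx hy) hg
  have hs : 0 < Real.sqrt ((x * y * g : ℕ) : ℝ) := Real.sqrt_pos.2 hN
  rw [norm_mul, norm_div, Complex.norm_intCast, Complex.norm_real, Real.norm_of_nonneg hs.le]
  push_cast
  rw [abs_mul]
  have h4 : ‖tau k (x * y * g)‖ / Real.sqrt ((x : ℝ) * y * g) ≤ Real.sqrt ((x : ℝ) * y * g) := by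
    push_cast at hs h3
    rw [div_le_iff₀ hs, Real.mul_self_sqrt (by positivity)]
    exact h3
  have e : Real.sqrt ((x : ℝ) * y * g) = Real.sqrt x * Real.sqrt y * Real.sqrt g := by
    rw [Real.sqrt_mul (by positivity), Real.sqrt_mul (by positivity)]
  calc |(c x : ℝ)| * |(c y : ℝ)| * (‖tau k (x * y * g)‖ / Real.sqrt ((x : ℝ) * y * g))
      ≤ (x.divisors.card * Real.sqrt x) * (y.divisors.card * Real.sqrt y) *
        Real.sqrt ((x : ℝ) * y * g) := by gcongr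
    _ = (x.divisors.card * y.divisors.card) * ((Real.sqrt x * Real.sqrt x) *
        (Real.sqrt y * Real.sqrt y)) * Real.sqrt g := by rw [e]; ring
    _ = _ := by
        rw [Real.mul_self_sqrt (Nat.cast_nonneg _), Real.mul_self_sqrt (Nat.cast_nonneg _)]

theorem oeg_nq_le (q : ℕ) {n : ℕ} (hn : 0 < n) :
    ‖((jacobiSym q n * nu n : ℤ) : ℂ)‖ ≤ n.divisors.card * (n : ℝ) := by
  rw [Complex.norm_intCast]
  push_cast
  rw [abs_mul]
  have h1 := ZD.abs_nu_le hn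
  have h2 := ZD.E2.abs_jacobi_le q n
  have hn1 : (1 : ℝ) ≤ n := by exact_mod_cast hn
  have h3 : Real.sqrt (n : ℝ) ≤ n := by
    rw [Real.sqrt_le_left (by positivity)]
    nlinarith
  calc _ ≤ 1 * (n.divisors.card * Real.sqrt n) := mul_le_mul h2 h1 (abs_nonneg _) zero_le_one
    _ ≤ 1 * (n.divisors.card * (n : ℝ)) := by gcongr
    _ = _ := one_mul _

theorem oeg_bound (k : ℤ) (q : ℕ) {g N m₁ m₂ : ℕ} (hg : 0 < g) (hN : N ≠ 0) (h1 : m₁ ∣ N)
    (h2 : m₂ ∣ N) :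
    ‖epsg k q g m₁ m₂‖ ≤ (N.divisors.card : ℝ) ^ 6 * Real.sqrt g * ((m₁ : ℝ) * m₂) := by
  set D : ℝ := (N.divisors.card : ℝ) with hD
  have hD0 : 0 ≤ D := Nat.cast_nonneg _
  have hm1 : 0 < m₁ := Nat.pos_of_dvd_of_pos h1 (Nat.pos_of_ne_zero hN)
  have hm2 : 0 < m₂ := Nat.pos_of_dvd_of_pos h2 (Nat.pos_of_ne_zero hN)
  have hc1 : ((m₁.divisors.card : ℕ) : ℝ) ≤ D := by
    rw [hD]; exact_mod_cast oeg_card_le h1 hN
  have hc2 : ((m₂.divisors.card : ℕ) : ℝ) ≤ D := by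
    rw [hD]; exact_mod_cast oeg_card_le h2 hN
  unfold epsg
  have key : ∀ x ∈ m₁.divisors, ∀ y ∈ m₂.divisors,
      ‖((jacobiSym q (m₁ / x) * nu (m₁ / x) : ℤ) : ℂ) *
        ((jacobiSym q (m₂ / y) * nu (m₂ / y) : ℤ) : ℂ) * gkg k g x y‖ ≤
        D ^ 4 * Real.sqrt g * ((m₁ : ℝ) * m₂) := by
    intro x hx y hy
    rw [Nat.mem_divisors] at hx hy
    have hx0 : 0 < x := Nat.pos_of_dvd_of_pos hx.1 hm1
    have hy0 : 0 < y := Nat.pos_of_dvd_of_pos hy.1 hm2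
    have p1 : 0 < m₁ / x := Nat.div_pos (Nat.le_of_dvd hm1 hx.1) hx0
    have p2 : 0 < m₂ / y := Nat.div_pos (Nat.le_of_dvd hm2 hy.1) hy0
    have e1 : ((m₁ / x : ℕ) : ℝ) * x = m₁ := by exact_mod_cast Nat.div_mul_cancel hx.1
    have e2 : ((m₂ / y : ℕ) : ℝ) * y = m₂ := by exact_mod_cast Nat.div_mul_cancel hy.1
    have d1 : (((m₁ / x).divisors.card : ℕ) : ℝ) ≤ D := by
      rw [hD]; exact_mod_cast oeg_card_le ((Nat.div_dvd_of_dvd hx.1).trans h1) hN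
    have d2 : (((m₂ / y).divisors.card : ℕ) : ℝ) ≤ D := by
      rw [hD]; exact_mod_cast oeg_card_le ((Nat.div_dvd_of_dvd hy.1).trans h2) hN
    have d3 : ((x.divisors.card : ℕ) : ℝ) ≤ D := by
      rw [hD]; exact_mod_cast oeg_card_le (hx.1.trans h1) hN
    have d4 : ((y.divisors.card : ℕ) : ℝ) ≤ D := by
      rw [hD]; exact_mod_cast oeg_card_le (hy.1.trans h2) hN
    rw [norm_mul, norm_mul]
    calc _ ≤ (((m₁ / x).divisors.card : ℝ) * ((m₁ / x : ℕ) : ℝ)) *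
          (((m₂ / y).divisors.card : ℝ) * ((m₂ / y : ℕ) : ℝ)) *
          ((x.divisors.card * y.divisors.card) * ((x : ℝ) * y) * Real.sqrt g) := by
          apply mul_le_mul (mul_le_mul (oeg_nq_le q p1) (oeg_nq_le q p2) (norm_nonneg _)
            (by positivity)) (oeg_gkg_le k hg hx0 hy0) (norm_nonneg _) (by positivity)
      _ ≤ (D * ((m₁ / x : ℕ) : ℝ)) * (D * ((m₂ / y : ℕ) : ℝ)) *
          ((D * D) * ((x : ℝ) * y) * Real.sqrt g) := by gcongr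
      _ = D ^ 4 * Real.sqrt g * ((((m₁ / x : ℕ) : ℝ) * x) * (((m₂ / y : ℕ) : ℝ) * y)) := by ring
      _ = _ := by rw [e1, e2]
  refine (norm_sum_le _ _).trans ?_
  calc _ ≤ ∑ x ∈ m₁.divisors, ∑ y ∈ m₂.divisors, D ^ 4 * Real.sqrt g * ((m₁ : ℝ) * m₂) := by
        refine Finset.sum_le_sum (fun x hx => (norm_sum_le _ _).trans ?_)
        exact Finset.sum_le_sum (fun y hy => key x hx y hy)
    _ = (m₁.divisors.card : ℝ) * (m₂.divisors.card : ℝ) *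
        (D ^ 4 * Real.sqrt g * ((m₁ : ℝ) * m₂)) := by
        rw [Finset.sum_const, Finset.sum_const]
        simp only [nsmul_eq_mul]
        ring
    _ ≤ D * D * (D ^ 4 * Real.sqrt g * ((m₁ : ℝ) * m₂)) := by gcongr
    _ = _ := by ring

theorem oeg_card_mul (m n : ℕ) : (m * n).divisors.card ≤ m.divisors.card * n.divisors.card := by
  rw [Nat.divisors_mul]
  exact Finset.card_mul_le

theorem oeg_D_le {g v : ℕ} : (((g ^ 3 * v ^ 2).divisors.card : ℕ) : ℝ) ≤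
    (g : ℝ) ^ 3 * (v.divisors.card : ℝ) ^ 2 := by
  have h1 : (g ^ 3 * v ^ 2).divisors.card ≤ g.divisors.card ^ 3 * v.divisors.card ^ 2 := by
    refine (oeg_card_mul _ _).trans ?_
    apply Nat.mul_le_mul
    · have : g ^ 3 = g * (g * g) := by ring
      rw [this]
      calc (g * (g * g)).divisors.card ≤ g.divisors.card * (g.divisors.card * g.divisors.card) :=
            (oeg_card_mul _ _).trans (Nat.mul_le_mul_left _ (oeg_card_mul _ _))
        _ = _ := by ring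
    · rw [sq, sq]
      exact oeg_card_mul _ _
  have h2 : g.divisors.card ^ 3 * v.divisors.card ^ 2 ≤ g ^ 3 * v.divisors.card ^ 2 :=
    Nat.mul_le_mul_right _ (Nat.pow_le_pow_left (Nat.card_divisors_le_self g) 3)
  exact_mod_cast h1.trans h2

theorem oeg_epsg_zero_left (k : ℤ) (q g b : ℕ) : epsg k q g 0 b = 0 := by
  unfold epsg; simp

theorem oeg_epsg_zero_right (k : ℤ) (q g b : ℕ) : epsg k q g b 0 = 0 := by
  unfold epsg; simp

theorem epsg_norm : ∃ C : ℕ, ∀ (η : ℝ) (k : ℤ) (q v g : ℕ), 0 < η → η ≤ 1 / 2 → Squarefree q →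
    0 < v → Odd g → k.natAbs = q * v ^ 2 →
    Summable (fun b : ℕ × ℕ => ‖epsg k q g b.1 b.2‖ * ((b.1 : ℝ) * b.2) ^ (-(1 + η))) ∧
    ∑' b : ℕ × ℕ, ‖epsg k q g b.1 b.2‖ * ((b.1 : ℝ) * b.2) ^ (-(1 + η)) ≤
      (C / η) ^ C * (1 + Real.log (q * v ^ 2)) ^ C * (v.divisors.card : ℝ) ^ C * (g : ℝ) ^ C := by
  obtain ⟨C, hC⟩ := ZD.eps_norm
  refine ⟨C + 25, fun η k q v g hη hη2 hsq hv hg hkq => ?_⟩
  obtain ⟨hE, hEle⟩ := hC η k q v hη hη2 hsq hv hkq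
  have hg0 : 0 < g := hg.pos
  set N : ℕ := g ^ 3 * v ^ 2 with hN
  have hN0 : N ≠ 0 := by
    rw [hN]
    exact (Nat.mul_pos (pow_pos hg0 _) (pow_pos hv _)).ne'
  set D : ℝ := (N.divisors.card : ℝ) with hD
  have hD0 : 0 ≤ D := Nat.cast_nonneg _
  set B0 : ℝ := D ^ 6 * Real.sqrt g with hB0
  have hB00 : 0 ≤ B0 := by positivity
  set H : ℕ × ℕ → ℝ := fun m => if m.1 ∈ N.divisors ∧ m.2 ∈ N.divisors then B0 else 0 with hH
  have hHz : ∀ m, m ∉ N.divisors ×ˢ N.divisors → H m = 0 := by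
    intro m hm
    rw [Finset.mem_product] at hm
    simp only [hH, if_neg hm]
  have hHs : Summable H := summable_of_ne_finset_zero hHz
  have hHt : ∑' m, H m = D ^ 2 * B0 := by
    rw [tsum_eq_sum hHz]
    have : ∀ m ∈ N.divisors ×ˢ N.divisors, H m = B0 := by
      intro m hm
      rw [Finset.mem_product] at hm
      simp only [hH, if_pos hm]
    rw [Finset.sum_congr rfl this, Finset.sum_const, Finset.card_product, nsmul_eq_mul]
    push_cast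
    rw [hD]; ring
  have hH0 : ∀ m, 0 ≤ H m := by
    intro m
    simp only [hH]
    split_ifs
    · exact hB00
    · exact le_rfl
  set E : ℕ × ℕ → ℝ := fun b => ‖eps k q b.1 b.2‖ * ((b.1 : ℝ) * b.2) ^ (-(1 + η)) with hEdef
  have hE0 : ∀ b, 0 ≤ E b := fun b => by simp only [hEdef]; positivity
  have hFs : Summable (fun x : (ℕ × ℕ) × (ℕ × ℕ) => E x.1 * H x.2) :=
    hE.mul_of_nonneg hHs hE0 hH0
  have hFt : (∑' b, E b) * ∑' m, H m = ∑' x : (ℕ × ℕ) × (ℕ × ℕ), E x.1 * H x.2 :=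
    hE.tsum_mul_tsum hHs hFs
  have hF0 : ∀ x : (ℕ × ℕ) × (ℕ × ℕ), 0 ≤ E x.1 * H x.2 := fun x => mul_nonneg (hE0 _) (hH0 _)
  have hex : ∀ m : ℕ, ∃ ab : ℕ × ℕ, m = ab.1 * ab.2 ∧ (m ≠ 0 → ab.1.Coprime g ∧
      ab.1 ≠ 0 ∧ ab.2 ≠ 0 ∧ oegSm g ab.2) := by
    intro m
    by_cases hm : m = 0
    · exact ⟨(0, 1), by simp [hm], fun h => absurd hm h⟩
    · obtain ⟨ab, h1, h2⟩ := oeg_split g m hm
      exact ⟨ab, h1, fun _ => h2⟩
  choose σ hσ1 hσ2 using hex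
  set i : ℕ × ℕ → (ℕ × ℕ) × (ℕ × ℕ) := fun b => (((σ b.1).1, (σ b.2).1), ((σ b.1).2, (σ b.2).2))
    with hi
  have hinj : Function.Injective i := by
    rintro ⟨b₁, b₂⟩ ⟨b₁', b₂'⟩ h
    simp only [hi, Prod.mk.injEq] at h
    obtain ⟨⟨h1, h2⟩, h3, h4⟩ := h
    have e1 : b₁ = b₁' := by rw [hσ1 b₁, h1, h3, ← hσ1 b₁']
    have e2 : b₂ = b₂' := by rw [hσ1 b₂, h2, h4, ← hσ1 b₂']
    rw [e1, e2]
  have hpt : ∀ b : ℕ × ℕ, ‖epsg k q g b.1 b.2‖ * ((b.1 : ℝ) * b.2) ^ (-(1 + η)) ≤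
      E (i b).1 * H (i b).2 := by
    rintro ⟨b₁, b₂⟩
    by_cases hb1 : b₁ = 0
    · simp only [hb1, oeg_epsg_zero_left, norm_zero, zero_mul]
      exact hF0 _
    by_cases hb2 : b₂ = 0
    · simp only [hb2, oeg_epsg_zero_right, norm_zero, zero_mul]
      exact hF0 _
    obtain ⟨u1, u2, u3, u4⟩ := hσ2 b₁ hb1
    obtain ⟨v1, v2, v3, v4⟩ := hσ2 b₂ hb2
    simp only [hi]
    set a₁ := (σ b₁).1 with ha₁
    set m₁ := (σ b₁).2 with hm₁
    set a₂ := (σ b₂).1 with ha₂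
    set m₂ := (σ b₂).2 with hm₂
    have hcop : (a₁ * a₂).Coprime (m₁ * m₂ * g) := by
      apply Nat.coprime_of_dvd
      intro p hp hpa hpm
      have hpg : p ∣ g := by
        rcases (hp.dvd_mul).1 hpm with h | h
        · exact oegSm_mul u4 v4 p hp h
        · exact h
      rcases (hp.dvd_mul).1 hpa with h | h
      · exact Nat.not_coprime_of_dvd_of_dvd hp.one_lt h hpg u1
      · exact Nat.not_coprime_of_dvd_of_dvd hp.one_lt h hpg v1
    have hmul := oeg_epsg_mul k q hg hcop (mul_ne_zero u2 v2)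
    rw [← hσ1 b₁, ← hσ1 b₂] at hmul
    have hm0 : (1 : ℝ) ≤ (m₁ : ℝ) * m₂ := by
      have : 1 ≤ m₁ * m₂ := Nat.one_le_iff_ne_zero.2 (mul_ne_zero u3 v3)
      exact_mod_cast this
    have hrp : ((b₁ : ℝ) * b₂) ^ (-(1 + η)) =
        ((a₁ : ℝ) * a₂) ^ (-(1 + η)) * ((m₁ : ℝ) * m₂) ^ (-(1 + η)) := by
      rw [← Real.mul_rpow (by positivity) (by positivity)]
      congr 1
      have e1 : (b₁ : ℝ) = a₁ * m₁ := by exact_mod_cast hσ1 b₁
      have e2 : (b₂ : ℝ) = a₂ * m₂ := by exact_mod_cast hσ1 b₂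
      rw [e1, e2]; ring
    have hloc : ‖epsg k q g m₁ m₂‖ * ((m₁ : ℝ) * m₂) ^ (-(1 + η)) ≤ H (m₁, m₂) := by
      by_cases hz : epsg k q g m₁ m₂ = 0
      · rw [hz, norm_zero, zero_mul]; exact hH0 _
      · obtain ⟨w1, w2⟩ := oeg_support hsq hv.ne' hg hkq u4 v4 hz
        have hin : m₁ ∈ N.divisors ∧ m₂ ∈ N.divisors :=
          ⟨Nat.mem_divisors.2 ⟨w1, hN0⟩, Nat.mem_divisors.2 ⟨w2, hN0⟩⟩
        have hHv : H (m₁, m₂) = B0 := by simp only [hH, if_pos hin]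
        rw [hHv]
        have hb := oeg_bound k q hg0 hN0 w1 w2
        have hx : ((m₁ : ℝ) * m₂) * ((m₁ : ℝ) * m₂) ^ (-(1 + η)) ≤ 1 := by
          rw [← Real.rpow_one_add' (by positivity) (by linarith)]
          apply Real.rpow_le_one_of_one_le_of_nonpos hm0
          linarith
        calc _ ≤ (B0 * ((m₁ : ℝ) * m₂)) * ((m₁ : ℝ) * m₂) ^ (-(1 + η)) :=
              mul_le_mul_of_nonneg_right hb (by positivity)
          _ = B0 * (((m₁ : ℝ) * m₂) * ((m₁ : ℝ) * m₂) ^ (-(1 + η))) := by ring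
          _ ≤ B0 * 1 := mul_le_mul_of_nonneg_left hx hB00
          _ = B0 := mul_one _
    rw [hmul, norm_mul, hrp]
    calc _ = (‖eps k q a₁ a₂‖ * ((a₁ : ℝ) * a₂) ^ (-(1 + η))) *
          (‖epsg k q g m₁ m₂‖ * ((m₁ : ℝ) * m₂) ^ (-(1 + η))) := by ring
      _ ≤ (‖eps k q a₁ a₂‖ * ((a₁ : ℝ) * a₂) ^ (-(1 + η))) * H (m₁, m₂) :=
          mul_le_mul_of_nonneg_left hloc (by positivity)
  have hci : Summable ((fun x : (ℕ × ℕ) × (ℕ × ℕ) => E x.1 * H x.2) ∘ i) :=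
    hFs.comp_injective hinj
  have hsum : Summable (fun b : ℕ × ℕ => ‖epsg k q g b.1 b.2‖ * ((b.1 : ℝ) * b.2) ^ (-(1 + η))) :=
    Summable.of_nonneg_of_le (fun b => by positivity) hpt hci
  refine ⟨hsum, ?_⟩
  have hle1 : ∑' b : ℕ × ℕ, ‖epsg k q g b.1 b.2‖ * ((b.1 : ℝ) * b.2) ^ (-(1 + η)) ≤
      (∑' b, E b) * (D ^ 2 * B0) := by
    rw [← hHt, hFt]
    exact (hsum.tsum_le_tsum hpt hci).trans (tsum_comp_le_tsum_of_inj hFs hF0 hinj)
  refine hle1.trans ?_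
  have hd1 : (1 : ℝ) ≤ (v.divisors.card : ℝ) := by
    exact_mod_cast Finset.card_pos.2 ⟨1, Nat.one_mem_divisors.2 hv.ne'⟩
  have hg1 : (1 : ℝ) ≤ g := by exact_mod_cast hg0
  have hlog : (0 : ℝ) ≤ Real.log (q * v ^ 2) := by
    apply Real.log_nonneg
    have : 1 ≤ q * v ^ 2 := Nat.one_le_iff_ne_zero.2 (mul_ne_zero hsq.ne_zero (pow_ne_zero 2 hv.ne'))
    exact_mod_cast this
  have hsg : Real.sqrt (g : ℝ) ≤ g := by
    rw [Real.sqrt_le_left (by positivity)]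
    nlinarith
  have hDle : D ≤ (g : ℝ) ^ 3 * (v.divisors.card : ℝ) ^ 2 := by
    rw [hD, hN]; exact oeg_D_le
  have h8 : D ^ 2 * B0 ≤ (v.divisors.card : ℝ) ^ 16 * (g : ℝ) ^ 25 := by
    calc D ^ 2 * B0 = D ^ 8 * Real.sqrt g := by rw [hB0]; ring
      _ ≤ ((g : ℝ) ^ 3 * (v.divisors.card : ℝ) ^ 2) ^ 8 * g := by
          have hd8 := pow_le_pow_left₀ hD0 hDle 8
          exact mul_le_mul hd8 hsg (Real.sqrt_nonneg _) ((pow_nonneg hD0 8).trans hd8)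
      _ = _ := by ring
  have hL1 : (1 : ℝ) ≤ 1 + Real.log (q * v ^ 2) := by linarith
  have hc1 : ((C : ℝ) / η) ^ C ≤ (((C + 25 : ℕ) : ℝ) / η) ^ (C + 25) := by
    have hb : (1 : ℝ) ≤ ((C + 25 : ℕ) : ℝ) / η := by
      rw [le_div_iff₀ hη]
      have : (25 : ℝ) ≤ ((C + 25 : ℕ) : ℝ) := by
        push_cast
        have : (0 : ℝ) ≤ C := Nat.cast_nonneg _
        linarith
      linarith
    calc ((C : ℝ) / η) ^ C ≤ (((C + 25 : ℕ) : ℝ) / η) ^ C := by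
          apply pow_le_pow_left₀ (by positivity)
          apply div_le_div_of_nonneg_right _ hη.le
          push_cast; linarith
      _ ≤ _ := pow_le_pow_right₀ hb (by omega)
  have hT0 : 0 ≤ ∑' b, E b := tsum_nonneg hE0
  have hP0 : 0 ≤ D ^ 2 * B0 := mul_nonneg (pow_nonneg hD0 2) hB00
  generalize 1 + Real.log ((q : ℝ) * (v : ℝ) ^ 2) = L at hL1 hEle ⊢
  generalize (v.divisors.card : ℝ) = dv at hd1 hEle h8 ⊢
  generalize hgr : (g : ℝ) = gr at hg1 h8 ⊢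
  have hL0 : 0 ≤ L := by linarith
  have hdv0 : 0 ≤ dv := by linarith
  have hgr0 : 0 ≤ gr := by linarith
  have hCη : 0 ≤ (C : ℝ) / η := by positivity
  generalize (C : ℝ) / η = x1 at hc1 hCη hEle
  generalize ((C + 25 : ℕ) : ℝ) / η = x2 at hc1 ⊢
  have hx1 : 0 ≤ x1 ^ C := pow_nonneg hCη _
  calc (∑' b, E b) * (D ^ 2 * B0)
      ≤ (x1 ^ C * L ^ C * dv ^ C) * (dv ^ 16 * gr ^ 25) := by
        apply mul_le_mul hEle h8 hP0
        exact mul_nonneg (mul_nonneg hx1 (pow_nonneg hL0 _)) (pow_nonneg hdv0 _)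
    _ = x1 ^ C * L ^ C * dv ^ (C + 16) * gr ^ 25 := by rw [pow_add]; ring
    _ ≤ x2 ^ (C + 25) * L ^ (C + 25) * dv ^ (C + 25) * gr ^ (C + 25) := by
        have hx2 : 0 ≤ x2 ^ (C + 25) := hx1.trans hc1
        apply mul_le_mul _ (pow_le_pow_right₀ hg1 (by omega)) (pow_nonneg hgr0 _)
        · exact mul_nonneg (mul_nonneg hx2 (pow_nonneg hL0 _)) (pow_nonneg hdv0 _)
        apply mul_le_mul _ (pow_le_pow_right₀ hd1 (by omega)) (pow_nonneg hdv0 _)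
        · exact mul_nonneg hx2 (pow_nonneg hL0 _)
        exact mul_le_mul hc1 (pow_le_pow_right₀ hL1 (by omega)) (pow_nonneg hL0 _) hx2

end Pool.Agent.CZ
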