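import Mathlib
import Pool.Agent.CZ.Defs
import Pool.Agent.ZD.T

/-!
Critical zeros for the twists (MP_553913_nt), module OT: the Mellin-Barnes bound at real points.
-/

set_option autoImplicit false

open Complex MeasureTheory Set Filter Topology

namespace Pool.Agent.CZ

open Pool.Agent.H5 (c bd)
open Pool.Agent.ZD (T Lf MM mbF mbF_shift T_repr two_pi_mul_re line_norm_le Gamma_le_5040 MM_bdd
  integrable_exp_abs integral_exp_abs)

theorem T_bound_real : ∃ C : ℝ, 0 < C ∧ ∀ (d : ℕ) (a η r τ κ : ℝ), Squarefree d → 0 < a →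
    a ≤ 1 / 8 → 0 < η → η ≤ 1 / 2 → 0 < r → (κ = 1 ∨ κ = 7) →
    ‖T d (κ + τ * I) (r : ℂ)‖ ≤ C * MM a η d * Real.exp (a * |τ|) * r ^ (-(κ + 1 / 2 + η)) := by
  refine ⟨5040 * 16 * 4, by norm_num, ?_⟩
  intro d a η r τ κ hd ha ha1 hη hη1 hr hκ'
  have hκ : 1 ≤ κ := by rcases hκ' with rfl | rfl <;> norm_num
  have hκ7 : κ ≤ 7 := by rcases hκ' with rfl | rfl <;> norm_num
  have hpi := Real.pi_gt_three
  have hpi4 := Real.pi_lt_four
  set z : ℂ := (r : ℂ) with hzdef
  have hz : 0 < z.re := by rw [hzdef, Complex.ofReal_re]; exact hr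
  set w : ℂ := 2 * Real.pi * z with hw
  have hwre : 0 < w.re := two_pi_mul_re hz
  have hw0 : w ≠ 0 := by intro h; rw [h] at hwre; simp at hwre
  have ew : w = ((2 * Real.pi * r : ℝ) : ℂ) := by rw [hw, hzdef]; push_cast; ring
  have hwarg : |w.arg| ≤ 0 := by
    rw [ew, Complex.arg_ofReal_of_nonneg (by positivity), abs_zero]
  have hwn : ‖w‖ = 2 * Real.pi * r := by
    rw [ew, Complex.norm_real, Real.norm_eq_abs, abs_of_pos (by positivity)]
  have hre : (κ + τ * I : ℂ).re = κ := by simp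
  have h1 := T_repr hd (u := (κ + τ * I : ℂ)) hz (by rw [hre]; linarith) (σ := κ + 2)
    (by rw [hre]; linarith)
  rw [mbF_shift hd (a := 1 / 8) (by norm_num) le_rfl hη hη1 hκ hwre
    (hwarg.trans (by linarith))] at h1
  set σ' : ℝ := κ + 1 / 2 + η with hσ'
  have hσ'1 : 1 ≤ σ' := by rw [hσ']; linarith
  have hσ'8 : σ' ≤ 8 := by rw [hσ']; linarith
  have hθ0 : 0 ≤ Real.pi / 4 := by linarith
  have hθ1 : Real.pi / 4 < Real.pi / 2 := by linarith
  have hM0 : 0 ≤ MM a η d := Real.iSup_nonneg (fun t => by positivity)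
  have hL : ∀ t : ℝ, ‖Lf d (1 + η + t * I)‖ ≤ MM a η d * Real.exp (a * |t|) := by
    intro t
    have := le_ciSup (MM_bdd hd (a := a) ha hη) t
    rw [Real.exp_neg, ← div_eq_mul_inv, div_le_iff₀ (Real.exp_pos _)] at this
    exact this
  have hGcos : Real.Gamma σ' * Real.cos (Real.pi / 4) ^ (-σ') ≤ 5040 * 16 := by
    have hg := Gamma_le_5040 hσ'1 hσ'8
    have hcos0 : 0 < Real.cos (Real.pi / 4) := by rw [Real.cos_pi_div_four]; positivity
    have hc : Real.cos (Real.pi / 4) ^ (-σ') ≤ 16 := by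
      rw [Real.rpow_neg hcos0.le, ← Real.inv_rpow hcos0.le]
      have h2 : (Real.cos (Real.pi / 4))⁻¹ = Real.sqrt 2 := by
        rw [Real.cos_pi_div_four, inv_div]
        rw [div_eq_iff (by positivity)]
        exact (Real.mul_self_sqrt (by norm_num)).symm
      rw [h2]
      have h3 : 1 ≤ Real.sqrt 2 := by
        rw [Real.one_le_sqrt]; norm_num
      calc Real.sqrt 2 ^ σ' ≤ Real.sqrt 2 ^ (8:ℝ) := Real.rpow_le_rpow_of_exponent_le h3 hσ'8
        _ = Real.sqrt 2 ^ (8 : ℕ) := by norm_cast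
        _ = (Real.sqrt 2 ^ 2) ^ 4 := by ring
        _ = 16 := by rw [Real.sq_sqrt (by norm_num)]; norm_num
    have hg0 : 0 ≤ Real.Gamma σ' := (Real.Gamma_pos_of_pos (by linarith)).le
    gcongr
  have hGc0 : 0 ≤ Real.Gamma σ' * Real.cos (Real.pi / 4) ^ (-σ') := by
    have hcos0 : 0 < Real.cos (Real.pi / 4) := by rw [Real.cos_pi_div_four]; positivity
    exact mul_nonneg (Real.Gamma_pos_of_pos (by linarith)).le (Real.rpow_nonneg hcos0.le _)
  have hwp : ‖w‖ ^ (-σ') ≤ r ^ (-σ') := by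
    rw [hwn]
    rw [Real.mul_rpow (by positivity) hr.le]
    have : (2 * Real.pi) ^ (-σ') ≤ 1 := by
      apply Real.rpow_le_one_of_one_le_of_nonpos (by linarith) (by linarith)
    have hrp : 0 < r ^ (-σ') := Real.rpow_pos_of_pos hr _
    nlinarith
  have hpt : ∀ v : ℝ, ‖mbF d (κ + τ * I) w (σ' + v * I)‖ ≤
      (r ^ (-σ') * (5040 * 16) * (MM a η d * Real.exp (a * |τ|))) *
        Real.exp (-(1 / 2 * |v|)) := by
    intro v
    unfold mbF
    rw [norm_mul]
    have h2 := line_norm_le (σ := σ') (by linarith) hw0 hθ0 hθ1 hwarg v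
    have e3 : (σ' + v * I : ℂ) - (κ + τ * I) + 1 / 2 = 1 + η + (v - τ : ℝ) * I := by
      rw [hσ']; push_cast; ring
    have h3 := hL (v - τ)
    rw [← e3] at h3
    have h4 : Real.exp (a * |v - τ|) ≤
        Real.exp (a * |τ|) * Real.exp (a * |v|) := by
      rw [← Real.exp_add]
      apply Real.exp_le_exp.mpr
      have := abs_sub v τ
      nlinarith
    have hv0 := abs_nonneg v
    calc ‖w ^ (-(σ' + v * I : ℂ)) * Complex.Gamma (σ' + v * I)‖ *
          ‖Lf d ((σ' + v * I : ℂ) - (κ + τ * I) + 1 / 2)‖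
        ≤ (r ^ (-σ') * (5040 * 16) *
            Real.exp (-((Real.pi / 4 - 0) * |v|))) *
          (MM a η d * (Real.exp (a * |τ|) * Real.exp (a * |v|))) := by
          gcongr
          · exact h2.trans (by gcongr)
          · exact h3.trans (by gcongr)
      _ = (r ^ (-σ') * (5040 * 16) *
            (MM a η d * Real.exp (a * |τ|))) *
          (Real.exp (-((Real.pi / 4 - 0) * |v|)) * Real.exp (a * |v|)) := by ring
      _ ≤ _ := by
          rw [← Real.exp_add]
          apply mul_le_mul_of_nonneg_left _ (by positivity)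
          apply Real.exp_le_exp.2
          nlinarith
  have hint : ‖2 * Real.pi * T d (κ + τ * I) z‖ ≤
      (r ^ (-σ') * (5040 * 16) * (MM a η d * Real.exp (a * |τ|))) * (2 / (1 / 2)) := by
    have e : (2 * (Real.pi : ℂ) * T d (κ + τ * I) z) =
        ∫ v : ℝ, mbF d (κ + τ * I) w (σ' + v * I) := h1
    rw [e, ← integral_exp_abs (by norm_num : (0 : ℝ) < 1 / 2), ← integral_const_mul]
    apply norm_integral_le_of_norm_le ((integrable_exp_abs (by norm_num)).const_mul _)
    exact Eventually.of_forall hpt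
  rw [norm_mul, norm_mul, Complex.norm_real, Real.norm_eq_abs, abs_of_pos (by positivity)] at hint
  have h2n : ‖(2:ℂ)‖ = 2 := by simp
  rw [h2n] at hint
  have hT0 := norm_nonneg (T d (κ + τ * I) z)
  calc ‖T d (κ + τ * I) z‖ ≤ 2 * Real.pi * ‖T d (κ + τ * I) z‖ := by nlinarith
    _ ≤ _ := hint
    _ = _ := by
        ring

end Pool.Agent.CZ
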