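import Mathlib
import Pool.Agent.CZ.Defs
import Pool.Agent.CZ.OEG
import Pool.Agent.CZ.ODS
import Pool.Agent.CZ.OT
import Pool.Agent.ZD.K1

/-!
Critical zeros for the twists (MP_553913_nt), module OK1: the contribution of one frequency.
-/

set_option autoImplicit false

open Complex Finset MeasureTheory

namespace Pool.Agent.CZ

open Pool.Agent.H5 (c bd)
open Pool.Agent.ZD (S T Lf nu tau gk eps MM K1G K1G_norm_le K1G_cont K1G_int K1_term K1_cpow_pos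
  K1_integrable_exp_abs K1_integral_exp_abs K1_alg1 K1_alg7)

theorem ok1_gkg_zero {k : ℤ} {g x y : ℕ} (h : x * y = 0) : gkg k g x y = 0 := by
  unfold gkg
  rcases Nat.mul_eq_zero.1 h with h | h <;> subst h <;> simp [Pool.Agent.H5.c_zero]

theorem ok1_epsg_zero {k : ℤ} {q g x y : ℕ} (h : x * y = 0) : epsg k q g x y = 0 := by
  unfold epsg
  rcases Nat.mul_eq_zero.1 h with h | h <;> subst h <;> simp

/-- core estimate: one frequency, one line of integration -/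
theorem ok1_core {P η r r' σ Mx : ℝ} {k : ℤ} {q g : ℕ} (hσ : 0 < σ) (hP : 0 < P) (hr : 0 < r)
    (hr' : 0 < r')
    (hT1 : ∀ τ x : ℝ, 0 < x → ‖T q (((2 * σ : ℝ) : ℂ) + τ * I) (x : ℂ)‖ ≤
      Mx * Real.exp (1 / 8 * |τ|) * x ^ (-(2 * σ + 1 / 2 + η)))
    (hE : Summable (fun b : ℕ × ℕ => ‖epsg k q g b.1 b.2‖ * ((b.1 : ℝ) * b.2) ^ (-(1 + η))))
    (hds : ∀ (u z w : ℂ), 0 < z.re → 0 < w.re →
      Summable (fun n : ℕ × ℕ => gkg k g n.1 n.2 * ((n.1 * n.2 : ℕ) : ℂ) ^ (u - 1 / 2) *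
        (exp (-(2 * Real.pi * n.1 * z)) * exp (-(2 * Real.pi * n.2 * w)))) ∧
      Summable (fun b : ℕ × ℕ => epsg k q g b.1 b.2 * ((b.1 * b.2 : ℕ) : ℂ) ^ (u - 1 / 2) *
        (T q u (b.1 * z) * T q u (b.2 * w))) ∧
      ∑' n : ℕ × ℕ, gkg k g n.1 n.2 * ((n.1 * n.2 : ℕ) : ℂ) ^ (u - 1 / 2) *
        (exp (-(2 * Real.pi * n.1 * z)) * exp (-(2 * Real.pi * n.2 * w))) =
      ∑' b : ℕ × ℕ, epsg k q g b.1 b.2 * ((b.1 * b.2 : ℕ) : ℂ) ^ (u - 1 / 2) *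
        (T q u (b.1 * z) * T q u (b.2 * w))) :
    ‖∑' n : ℕ × ℕ, gkg k g n.1 n.2 * ((Real.sqrt (n.1 * n.2 : ℕ) : ℝ) : ℂ)⁻¹ *
        exp (-((P : ℂ) / ((n.1 * n.2 : ℕ) : ℂ) ^ 2)) *
        (exp (-(2 * Real.pi * n.1 * r)) * exp (-(2 * Real.pi * n.2 * r')))‖ ≤
      (Real.Gamma σ * (1 / Real.cos 1) ^ σ) * P ^ (-σ) * Mx ^ 2 *
        (r * r') ^ (-(2 * σ + 1 / 2 + η)) *
        ∑' b : ℕ × ℕ, ‖epsg k q g b.1 b.2‖ * ((b.1 : ℝ) * b.2) ^ (-(1 + η)) := by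
  set z : ℂ := (r : ℂ) with hz
  set w : ℂ := (r' : ℂ) with hw
  have hzre : 0 < z.re := by rw [hz, Complex.ofReal_re]; exact hr
  have hwre : 0 < w.re := by rw [hw, Complex.ofReal_re]; exact hr'
  set En : ℕ × ℕ → ℂ := fun n => exp (-(2 * Real.pi * n.1 * z)) * exp (-(2 * Real.pi * n.2 * w)) with hEn
  set F : ℕ × ℕ → ℝ → ℂ := fun n τ =>
    K1G P σ τ * (gkg k g n.1 n.2 * ((n.1 * n.2 : ℕ) : ℂ) ^ (((2 * σ : ℝ) : ℂ) + 2 * τ * I - 1 / 2) * En n)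
    with hF
  -- termwise identity
  have hterm : ∀ n : ℕ × ℕ, gkg k g n.1 n.2 * ((Real.sqrt (n.1 * n.2 : ℕ) : ℝ) : ℂ)⁻¹ *
        exp (-((P : ℂ) / ((n.1 * n.2 : ℕ) : ℂ) ^ 2)) * En n =
      (1 / (2 * Real.pi) : ℂ) * ∫ τ : ℝ, F n τ := by
    intro n
    rcases Nat.eq_zero_or_pos (n.1 * n.2) with h0 | hpos
    · simp only [hF]
      rw [ok1_gkg_zero h0]
      simp
    · have h := K1_term hP hσ hpos
      have e2 : gkg k g n.1 n.2 * ((Real.sqrt (n.1 * n.2 : ℕ) : ℝ) : ℂ)⁻¹ *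
        exp (-((P : ℂ) / ((n.1 * n.2 : ℕ) : ℂ) ^ 2)) * En n = gkg k g n.1 n.2 * En n *
          (((Real.sqrt (n.1 * n.2 : ℕ) : ℝ) : ℂ)⁻¹ *
            exp (-((P : ℂ) / ((n.1 * n.2 : ℕ) : ℂ) ^ 2))) := by ring
      rw [e2, h, mul_left_comm, ← integral_const_mul]
      congr 2
      funext τ
      simp only [hF]
      ring
  -- norms of the terms
  set W : ℕ × ℕ → ℂ := fun n => gkg k g n.1 n.2 * ((n.1 * n.2 : ℕ) : ℂ) ^ (((2 * σ : ℝ) : ℂ) - 1 / 2) * En n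
    with hW
  have hWsum : Summable W := (hds ((2 * σ : ℝ) : ℂ) z w hzre hwre).1
  have hFnorm : ∀ n τ, ‖F n τ‖ = ‖K1G P σ τ‖ * ‖W n‖ := by
    intro n τ
    simp only [hF, hW]
    rw [norm_mul, norm_mul, norm_mul, norm_mul, norm_mul]
    rcases Nat.eq_zero_or_pos (n.1 * n.2) with h0 | hpos
    · rw [ok1_gkg_zero h0]; simp
    · have hmR : (0:ℝ) < ((n.1 * n.2 : ℕ) : ℝ) := by exact_mod_cast hpos
      have e1 := Complex.norm_cpow_eq_rpow_re_of_pos hmR (((2 * σ : ℝ) : ℂ) + 2 * τ * I - 1 / 2)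
      have e2 := Complex.norm_cpow_eq_rpow_re_of_pos hmR (((2 * σ : ℝ) : ℂ) - 1 / 2)
      have e3 : (((2 * σ : ℝ) : ℂ) + 2 * τ * I - 1 / 2).re = (((2 * σ : ℝ) : ℂ) - 1 / 2).re := by
        simp
      rw [e3, ← e2] at e1
      rw [Complex.ofReal_natCast] at e1
      rw [e1]
      simp only [hEn, norm_mul]
  have hFint : ∀ n, Integrable (F n) := by
    intro n
    have hcont : Continuous (F n) := by
      simp only [hF]
      rcases Nat.eq_zero_or_pos (n.1 * n.2) with h0 | hpos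
      · rw [ok1_gkg_zero h0]
        simp only [zero_mul, mul_zero]
        exact continuous_const
      · refine (K1G_cont hP hσ).mul ?_
        refine Continuous.mul (Continuous.mul continuous_const ?_) continuous_const
        have hmR : (0:ℝ) < ((n.1 * n.2 : ℕ) : ℝ) := by exact_mod_cast hpos
        have : (fun τ : ℝ => ((n.1 * n.2 : ℕ) : ℂ) ^ (((2 * σ : ℝ) : ℂ) + 2 * τ * I - 1 / 2)) =
            fun τ : ℝ => exp ((Real.log ((n.1 * n.2 : ℕ) : ℝ) : ℂ) *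
              (((2 * σ : ℝ) : ℂ) + 2 * τ * I - 1 / 2)) := by
          funext τ
          have := K1_cpow_pos hmR (((2 * σ : ℝ) : ℂ) + 2 * τ * I - 1 / 2)
          rwa [Complex.ofReal_natCast] at this
        rw [this]
        fun_prop
    refine ((K1G_int hP hσ).norm.mul_const ‖W n‖).mono' hcont.aestronglyMeasurable ?_
    filter_upwards with τ
    rw [hFnorm]
  have hFsum : Summable (fun n => ∫ τ, ‖F n τ‖) := by
    have e : (fun n => ∫ τ, ‖F n τ‖) = fun n => (∫ τ, ‖K1G P σ τ‖) * ‖W n‖ := by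
      funext n
      simp_rw [hFnorm]
      rw [integral_mul_const]
    rw [e]
    exact hWsum.norm.mul_left _
  have hmain := hasSum_integral_of_summable_integral_norm hFint hFsum
  -- the sum over n at fixed τ
  have hτ : ∀ τ : ℝ, ‖∑' n, F n τ‖ ≤
      (P ^ (-σ) * (Real.Gamma σ * (1 / Real.cos 1) ^ σ) * Mx ^ 2 * (r * r') ^ (-(2 * σ + 1 / 2 + η)) *
        ∑' b : ℕ × ℕ, ‖epsg k q g b.1 b.2‖ * ((b.1 : ℝ) * b.2) ^ (-(1 + η))) *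
        Real.exp (-(1 / 2 * |τ|)) := by
    intro τ
    set u : ℂ := ((2 * σ : ℝ) : ℂ) + 2 * τ * I with hu
    obtain ⟨h1, h2, h3⟩ := hds u z w hzre hwre
    have e1 : ∑' n, F n τ = K1G P σ τ * ∑' b : ℕ × ℕ, epsg k q g b.1 b.2 * ((b.1 * b.2 : ℕ) : ℂ) ^ (u - 1 / 2) *
        (T q u (b.1 * z) * T q u (b.2 * w)) := by
      rw [← h3, ← tsum_mul_left]
    have hb : ∀ b : ℕ × ℕ, ‖epsg k q g b.1 b.2 * ((b.1 * b.2 : ℕ) : ℂ) ^ (u - 1 / 2) *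
        (T q u (b.1 * z) * T q u (b.2 * w))‖ ≤
        (Mx ^ 2 * Real.exp (1 / 2 * |τ|) * (r * r') ^ (-(2 * σ + 1 / 2 + η))) *
          (‖epsg k q g b.1 b.2‖ * ((b.1 : ℝ) * b.2) ^ (-(1 + η))) := by
      intro b
      rcases Nat.eq_zero_or_pos (b.1 * b.2) with h0 | hpos
      · rw [ok1_epsg_zero h0]; simp
      · have hb1 : 0 < b.1 := Nat.pos_of_ne_zero (fun h => by simp [h] at hpos)
        have hb2 : 0 < b.2 := Nat.pos_of_ne_zero (fun h => by simp [h] at hpos)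
        have hb1R : (0:ℝ) < b.1 := by exact_mod_cast hb1
        have hb2R : (0:ℝ) < b.2 := by exact_mod_cast hb2
        have hmR : (0:ℝ) < ((b.1 * b.2 : ℕ) : ℝ) := by exact_mod_cast hpos
        have g1 : (b.1 : ℂ) * z = ((b.1 * r : ℝ) : ℂ) := by rw [hz]; push_cast; rfl
        have g2 : (b.2 : ℂ) * w = ((b.2 * r' : ℝ) : ℂ) := by rw [hw]; push_cast; rfl
        have gu : u = ((2 * σ : ℝ) : ℂ) + ((2 * τ : ℝ) : ℂ) * I := by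
          rw [hu]; push_cast; ring
        have t1 := hT1 (2 * τ) (b.1 * r) (by positivity)
        have t2 := hT1 (2 * τ) (b.2 * r') (by positivity)
        rw [← gu, ← g1] at t1
        rw [← gu, ← g2] at t2
        have e2 := Complex.norm_cpow_eq_rpow_re_of_pos hmR (u - 1 / 2)
        have e3 : (u - 1 / 2).re = 2 * σ - 1 / 2 := by
          rw [hu]; simp
        rw [e3, Complex.ofReal_natCast] at e2
        rw [norm_mul, norm_mul, norm_mul, e2]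
        have hexp : Real.exp (1 / 8 * |2 * τ|) * Real.exp (1 / 8 * |2 * τ|) ≤
            Real.exp (1 / 2 * |τ|) := by
          rw [← Real.exp_add, abs_mul, abs_two]
          apply Real.exp_le_exp.2
          nlinarith [abs_nonneg τ]
        have hTT : ‖T q u (b.1 * z)‖ * ‖T q u (b.2 * w)‖ ≤
            Mx ^ 2 * Real.exp (1 / 2 * |τ|) * (((b.1 : ℝ) * r) ^ (-(2 * σ + 1 / 2 + η)) *
              ((b.2 : ℝ) * r') ^ (-(2 * σ + 1 / 2 + η))) := by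
          refine (mul_le_mul t1 t2 (norm_nonneg _) ((norm_nonneg _).trans t1)).trans ?_
          have : Mx * Real.exp (1 / 8 * |2 * τ|) * ((b.1 : ℝ) * r) ^ (-(2 * σ + 1 / 2 + η)) *
              (Mx * Real.exp (1 / 8 * |2 * τ|) * ((b.2 : ℝ) * r') ^ (-(2 * σ + 1 / 2 + η))) =
              Mx ^ 2 * (Real.exp (1 / 8 * |2 * τ|) * Real.exp (1 / 8 * |2 * τ|)) *
              (((b.1 : ℝ) * r) ^ (-(2 * σ + 1 / 2 + η)) *
              ((b.2 : ℝ) * r') ^ (-(2 * σ + 1 / 2 + η))) := by ring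
          rw [this]
          gcongr
        have hpow : ((b.1 * b.2 : ℕ) : ℝ) ^ (2 * σ - 1 / 2) *
            (((b.1 : ℝ) * r) ^ (-(2 * σ + 1 / 2 + η)) * ((b.2 : ℝ) * r') ^ (-(2 * σ + 1 / 2 + η))) =
            (r * r') ^ (-(2 * σ + 1 / 2 + η)) * ((b.1 : ℝ) * b.2) ^ (-(1 + η)) := by
          push_cast
          rw [Real.mul_rpow hb1R.le hr.le, Real.mul_rpow hb2R.le hr'.le,
            Real.mul_rpow hb1R.le hb2R.le, Real.mul_rpow hb1R.le hb2R.le]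
          have f1 : (b.1 : ℝ) ^ (-(1 + η)) = (b.1 : ℝ) ^ (2 * σ - 1 / 2) *
              (b.1 : ℝ) ^ (-(2 * σ + 1 / 2 + η)) := by
            rw [← Real.rpow_add hb1R]; congr 1; ring
          have f2 : (b.2 : ℝ) ^ (-(1 + η)) = (b.2 : ℝ) ^ (2 * σ - 1 / 2) *
              (b.2 : ℝ) ^ (-(2 * σ + 1 / 2 + η)) := by
            rw [← Real.rpow_add hb2R]; congr 1; ring
          have f3 : (r * r') ^ (-(2 * σ + 1 / 2 + η)) = r ^ (-(2 * σ + 1 / 2 + η)) *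
              r' ^ (-(2 * σ + 1 / 2 + η)) := Real.mul_rpow hr.le hr'.le
          rw [f1, f2, f3]
          ring
        calc ‖epsg k q g b.1 b.2‖ * ((b.1 * b.2 : ℕ) : ℝ) ^ (2 * σ - 1 / 2) *
            (‖T q u (b.1 * z)‖ * ‖T q u (b.2 * w)‖)
            ≤ ‖epsg k q g b.1 b.2‖ * ((b.1 * b.2 : ℕ) : ℝ) ^ (2 * σ - 1 / 2) *
            (Mx ^ 2 * Real.exp (1 / 2 * |τ|) * (((b.1 : ℝ) * r) ^ (-(2 * σ + 1 / 2 + η)) *
              ((b.2 : ℝ) * r') ^ (-(2 * σ + 1 / 2 + η)))) := by gcongr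
          _ = ‖epsg k q g b.1 b.2‖ * (Mx ^ 2 * Real.exp (1 / 2 * |τ|)) *
              (((b.1 * b.2 : ℕ) : ℝ) ^ (2 * σ - 1 / 2) *
              (((b.1 : ℝ) * r) ^ (-(2 * σ + 1 / 2 + η)) *
              ((b.2 : ℝ) * r') ^ (-(2 * σ + 1 / 2 + η)))) := by ring
          _ = _ := by rw [hpow]; ring
    rw [e1, norm_mul]
    have h4 : ‖∑' b : ℕ × ℕ, epsg k q g b.1 b.2 * ((b.1 * b.2 : ℕ) : ℂ) ^ (u - 1 / 2) *
        (T q u (b.1 * z) * T q u (b.2 * w))‖ ≤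
        (Mx ^ 2 * Real.exp (1 / 2 * |τ|) * (r * r') ^ (-(2 * σ + 1 / 2 + η))) *
          ∑' b : ℕ × ℕ, (‖epsg k q g b.1 b.2‖ * ((b.1 : ℝ) * b.2) ^ (-(1 + η))) := by
      rw [← tsum_mul_left]
      exact tsum_of_norm_bounded (hE.mul_left _).hasSum hb
    have h5 := K1G_norm_le hP hσ τ
    have h6 : Real.exp (-|τ|) * Real.exp (1 / 2 * |τ|) = Real.exp (-(1 / 2 * |τ|)) := by
      rw [← Real.exp_add]; congr 1; ring
    calc ‖K1G P σ τ‖ * ‖∑' b : ℕ × ℕ, epsg k q g b.1 b.2 * ((b.1 * b.2 : ℕ) : ℂ) ^ (u - 1 / 2) *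
        (T q u (b.1 * z) * T q u (b.2 * w))‖ ≤
        (P ^ (-σ) * (Real.Gamma σ * (1 / Real.cos 1) ^ σ) * Real.exp (-|τ|)) *
        ((Mx ^ 2 * Real.exp (1 / 2 * |τ|) * (r * r') ^ (-(2 * σ + 1 / 2 + η))) *
          ∑' b : ℕ × ℕ, (‖epsg k q g b.1 b.2‖ * ((b.1 : ℝ) * b.2) ^ (-(1 + η)))) := by
          refine mul_le_mul h5 h4 (norm_nonneg _) ((norm_nonneg _).trans h5)
      _ = (P ^ (-σ) * (Real.Gamma σ * (1 / Real.cos 1) ^ σ) * Mx ^ 2 * (r * r') ^ (-(2 * σ + 1 / 2 + η)) *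
        ∑' b : ℕ × ℕ, ‖epsg k q g b.1 b.2‖ * ((b.1 : ℝ) * b.2) ^ (-(1 + η))) *
        Real.exp (-(1 / 2 * |τ|)) := by rw [← h6]; ring
  have hsumeq : ∑' n : ℕ × ℕ, gkg k g n.1 n.2 * ((Real.sqrt (n.1 * n.2 : ℕ) : ℝ) : ℂ)⁻¹ *
        exp (-((P : ℂ) / ((n.1 * n.2 : ℕ) : ℂ) ^ 2)) * En n =
      (1 / (2 * Real.pi) : ℂ) * ∫ τ : ℝ, ∑' n, F n τ := by
    rw [← hmain.tsum_eq, ← tsum_mul_left]
    exact tsum_congr hterm
  rw [hsumeq, norm_mul]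
  have hint : ‖∫ τ : ℝ, ∑' n, F n τ‖ ≤
      (P ^ (-σ) * (Real.Gamma σ * (1 / Real.cos 1) ^ σ) * Mx ^ 2 * (r * r') ^ (-(2 * σ + 1 / 2 + η)) *
        ∑' b : ℕ × ℕ, ‖epsg k q g b.1 b.2‖ * ((b.1 : ℝ) * b.2) ^ (-(1 + η))) * 4 := by
    have h7 := norm_integral_le_of_norm_le
      ((K1_integrable_exp_abs (c := 1 / 2) (by norm_num)).const_mul
      (P ^ (-σ) * (Real.Gamma σ * (1 / Real.cos 1) ^ σ) * Mx ^ 2 * (r * r') ^ (-(2 * σ + 1 / 2 + η)) *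
        ∑' b : ℕ × ℕ, ‖epsg k q g b.1 b.2‖ * ((b.1 : ℝ) * b.2) ^ (-(1 + η))))
      (Filter.Eventually.of_forall hτ)
    rw [integral_const_mul, K1_integral_exp_abs (by norm_num)] at h7
    norm_num at h7 ⊢
    exact h7
  have hSnn : 0 ≤ ∑' b : ℕ × ℕ, ‖epsg k q g b.1 b.2‖ * ((b.1 : ℝ) * b.2) ^ (-(1 + η)) :=
    tsum_nonneg (fun b => by positivity)
  have hcos1 : 0 < Real.cos 1 := Real.cos_one_pos
  have hG0 : 0 ≤ Real.Gamma σ * (1 / Real.cos 1) ^ σ :=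
    mul_nonneg (Real.Gamma_pos_of_pos hσ).le (by positivity)
  have hpi : ‖(1 / (2 * Real.pi) : ℂ)‖ * 4 ≤ 1 := by
    have : (1 / (2 * Real.pi) : ℂ) = ((1 / (2 * Real.pi) : ℝ) : ℂ) := by push_cast; rfl
    rw [this, Complex.norm_real, Real.norm_of_nonneg (by positivity), div_mul_eq_mul_div,
      div_le_one (by positivity)]
    linarith [Real.pi_gt_three]
  calc ‖(1 / (2 * Real.pi) : ℂ)‖ * ‖∫ τ : ℝ, ∑' n, F n τ‖
      ≤ ‖(1 / (2 * Real.pi) : ℂ)‖ * ((P ^ (-σ) * (Real.Gamma σ * (1 / Real.cos 1) ^ σ) * Mx ^ 2 *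
        (r * r') ^ (-(2 * σ + 1 / 2 + η)) *
        ∑' b : ℕ × ℕ, ‖epsg k q g b.1 b.2‖ * ((b.1 : ℝ) * b.2) ^ (-(1 + η))) * 4) :=
        mul_le_mul_of_nonneg_left hint (norm_nonneg _)
    _ = (‖(1 / (2 * Real.pi) : ℂ)‖ * 4) * (P ^ (-σ) * (Real.Gamma σ * (1 / Real.cos 1) ^ σ) * Mx ^ 2 *
        (r * r') ^ (-(2 * σ + 1 / 2 + η)) *
        ∑' b : ℕ × ℕ, ‖epsg k q g b.1 b.2‖ * ((b.1 : ℝ) * b.2) ^ (-(1 + η))) := by ring
    _ ≤ 1 * (P ^ (-σ) * (Real.Gamma σ * (1 / Real.cos 1) ^ σ) * Mx ^ 2 *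
        (r * r') ^ (-(2 * σ + 1 / 2 + η)) *
        ∑' b : ℕ × ℕ, ‖epsg k q g b.1 b.2‖ * ((b.1 : ℝ) * b.2) ^ (-(1 + η))) := by
        gcongr
    _ = (Real.Gamma σ * (1 / Real.cos 1) ^ σ) * P ^ (-σ) * Mx ^ 2 *
        (r * r') ^ (-(2 * σ + 1 / 2 + η)) *
        ∑' b : ℕ × ℕ, ‖epsg k q g b.1 b.2‖ * ((b.1 : ℝ) * b.2) ^ (-(1 + η)) := by ring


theorem ok1_term (k : ℤ) {g : ℕ} (hg : 0 < g) (Z : ℝ) (n : ℕ × ℕ) :
    gkg k g n.1 n.2 * ((Real.sqrt (n.1 * n.2 * g : ℕ) : ℝ) : ℂ)⁻¹ *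
        exp (-(Real.pi * k ^ 2 * Z ^ 2 / ((n.1 * n.2 * g : ℕ) : ℂ) ^ 2)) =
      ((Real.sqrt g : ℝ) : ℂ)⁻¹ * (gkg k g n.1 n.2 * ((Real.sqrt (n.1 * n.2 : ℕ) : ℝ) : ℂ)⁻¹ *
        exp (-(((Real.pi * k ^ 2 * Z ^ 2 / g ^ 2 : ℝ) : ℂ) / ((n.1 * n.2 : ℕ) : ℂ) ^ 2))) := by
  have hgc : (g : ℂ) ≠ 0 := by exact_mod_cast hg.ne'
  have e1 : Real.sqrt ((n.1 * n.2 * g : ℕ) : ℝ) = Real.sqrt ((n.1 * n.2 : ℕ) : ℝ) * Real.sqrt g := by
    rw [Nat.cast_mul (n.1 * n.2) g, Real.sqrt_mul (Nat.cast_nonneg _)]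
  have e2 : (Real.pi * k ^ 2 * Z ^ 2 / ((n.1 * n.2 * g : ℕ) : ℂ) ^ 2) =
      (((Real.pi * k ^ 2 * Z ^ 2 / g ^ 2 : ℝ) : ℂ) / ((n.1 * n.2 : ℕ) : ℂ) ^ 2) := by
    rw [Nat.cast_mul (n.1 * n.2) g]
    push_cast
    rw [div_div, ← mul_pow]
    congr 2
    ring
  rw [e1, e2]
  push_cast
  rw [mul_inv]
  ring

theorem K_term_g : ∃ C : ℕ, ∀ (η Z r r' : ℝ) (k : ℤ) (q v g : ℕ),
    0 < η → η ≤ 1 / 2 → 0 < Z → 0 < r → 0 < r' → Squarefree q → 0 < v → Odd g →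
    k.natAbs = q * v ^ 2 →
    Z * ‖∑' n : ℕ × ℕ, gkg k g n.1 n.2 * ((Real.sqrt (n.1 * n.2 * g : ℕ) : ℝ) : ℂ)⁻¹ *
        exp (-(Real.pi * k ^ 2 * Z ^ 2 / ((n.1 * n.2 * g : ℕ) : ℂ) ^ 2)) *
        (exp (-(2 * Real.pi * n.1 * r)) * exp (-(2 * Real.pi * n.2 * r')))‖ ≤
      (C / η) ^ C * (1 + Real.log (q * v ^ 2)) ^ C * (v.divisors.card : ℝ) ^ C * (g : ℝ) ^ C *
        (MM (1 / 8) η q) ^ 2 *
        min ((r * r') ^ (-(3 / 2 + η)) / (q * v ^ 2))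
          ((r * r') ^ (-(15 / 2 + η)) / Z ^ 6 / (q * v ^ 2) ^ 7) := by
  obtain ⟨C₁, hC₁⟩ := epsg_norm
  obtain ⟨C₂, hC₂pos, hC₂⟩ := T_bound_real
  set K₁ : ℝ := Real.Gamma (1 / 2) * (1 / Real.cos 1) ^ ((1 / 2) : ℝ) with hK₁
  set K₇ : ℝ := Real.Gamma (7 / 2) * (1 / Real.cos 1) ^ ((7 / 2) : ℝ) with hK₇
  have hcos1 : 0 < Real.cos 1 := Real.cos_one_pos
  have hK₁0 : 0 ≤ K₁ := mul_nonneg (Real.Gamma_pos_of_pos (by norm_num)).le (by positivity)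
  have hK₇0 : 0 ≤ K₇ := mul_nonneg (Real.Gamma_pos_of_pos (by norm_num)).le (by positivity)
  obtain ⟨C₃, hC₃⟩ := exists_nat_ge ((K₁ + K₇) * C₂ ^ 2)
  refine ⟨C₁ + C₃ + 18, ?_⟩
  intro η Z r r' k q v g hη hη1 hZ hr hr' hq hv hg hk
  have hg0 : 0 < g := hg.pos
  have hgR : (1 : ℝ) ≤ g := by exact_mod_cast hg0
  have hq0 : 0 < q := Nat.pos_of_ne_zero hq.ne_zero
  have hqR : (1:ℝ) ≤ q := by exact_mod_cast hq0
  have hvR : (1:ℝ) ≤ v := by exact_mod_cast hv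
  have hqv1 : (1:ℝ) ≤ q * v ^ 2 := by nlinarith [one_le_pow₀ (n := 2) hvR]
  have hkabs : |(k : ℝ)| = q * v ^ 2 := by
    have : ((k.natAbs : ℕ) : ℝ) = |(k : ℝ)| := by
      rw [Nat.cast_natAbs]; push_cast; rfl
    rw [← this, hk]; push_cast; rfl
  have hk0 : k ≠ 0 := by
    intro h
    rw [h] at hkabs
    simp at hkabs
    rcases hkabs with h | h <;> omega
  have hkR : (k : ℝ) ≠ 0 := by exact_mod_cast hk0
  obtain ⟨hEs, hEb⟩ := hC₁ η k q v g hη hη1 hq hv hg hk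
  have hMM : 0 ≤ MM (1 / 8) η q := by
    unfold MM
    exact Real.iSup_nonneg (fun t => by positivity)
  set Mx : ℝ := C₂ * MM (1 / 8) η q with hMx
  have hMx0 : 0 ≤ Mx := by positivity
  set S₀ : ℝ := ∑' b : ℕ × ℕ, ‖epsg k q g b.1 b.2‖ * ((b.1 : ℝ) * b.2) ^ (-(1 + η)) with hS₀
  have hS₀0 : 0 ≤ S₀ := tsum_nonneg (fun b => by positivity)
  set P : ℝ := Real.pi * k ^ 2 * Z ^ 2 / g ^ 2 with hPdef
  have hP : 0 < P := by
    have : 0 < (k : ℝ) ^ 2 := by positivity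
    positivity
  have hrr : 0 < r * r' := mul_pos hr hr'
  have hPle : ∀ σ : ℝ, 0 ≤ σ → P ^ (-σ) ≤ (|(k : ℝ)| * Z) ^ (-(2 * σ)) * (g : ℝ) ^ (2 * σ) := by
    intro σ hσ
    have hkZ : 0 < |(k : ℝ)| * Z := by positivity
    have e1 : (|(k : ℝ)| * Z) ^ (-(2 * σ)) * (g : ℝ) ^ (2 * σ) =
        ((|(k : ℝ)| * Z / g) ^ 2) ^ (-σ) := by
      rw [← Real.rpow_natCast, ← Real.rpow_mul (by positivity), Real.div_rpow hkZ.le (by positivity)]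
      have e2 : ((2 : ℕ) : ℝ) * -σ = -(2 * σ) := by push_cast; ring
      rw [e2, Real.rpow_neg (by positivity : (0 : ℝ) ≤ g) (2 * σ), div_inv_eq_mul]
    rw [e1]
    apply Real.rpow_le_rpow_of_nonpos (by positivity) _ (by linarith)
    rw [hPdef, div_pow, mul_pow, sq_abs, mul_assoc]
    apply div_le_div_of_nonneg_right _ (by positivity)
    have : 0 ≤ (k : ℝ) ^ 2 * Z ^ 2 := by positivity
    nlinarith [Real.pi_gt_three]
  have hsqg : ‖((Real.sqrt (g : ℝ) : ℝ) : ℂ)⁻¹‖ ≤ 1 := by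
    rw [norm_inv, Complex.norm_real, Real.norm_of_nonneg (Real.sqrt_nonneg _)]
    apply inv_le_one_of_one_le₀
    rw [Real.one_le_sqrt]; exact hgR
  set LHS : ℂ := ∑' n : ℕ × ℕ, gkg k g n.1 n.2 * ((Real.sqrt (n.1 * n.2 * g : ℕ) : ℝ) : ℂ)⁻¹ *
        exp (-(Real.pi * k ^ 2 * Z ^ 2 / ((n.1 * n.2 * g : ℕ) : ℂ) ^ 2)) *
        (exp (-(2 * Real.pi * n.1 * r)) * exp (-(2 * Real.pi * n.2 * r'))) with hLHS
  have hLe : LHS = ((Real.sqrt (g : ℝ) : ℝ) : ℂ)⁻¹ *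
      ∑' n : ℕ × ℕ, gkg k g n.1 n.2 * ((Real.sqrt (n.1 * n.2 : ℕ) : ℝ) : ℂ)⁻¹ *
        exp (-((P : ℂ) / ((n.1 * n.2 : ℕ) : ℂ) ^ 2)) *
        (exp (-(2 * Real.pi * n.1 * r)) * exp (-(2 * Real.pi * n.2 * r'))) := by
    rw [hLHS, ← tsum_mul_left]
    refine tsum_congr fun n => ?_
    rw [ok1_term k hg0 Z n]
    ring
  have hcore : ∀ κ : ℝ, (κ = 1 ∨ κ = 7) →
      ‖LHS‖ ≤ (Real.Gamma (κ / 2) * (1 / Real.cos 1) ^ (κ / 2)) *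
        ((|(k : ℝ)| * Z) ^ (-κ) * (g : ℝ) ^ κ) * Mx ^ 2 *
        (r * r') ^ (-(κ + 1 / 2 + η)) * S₀ := by
    intro κ hκ
    have hκ0 : 0 < κ := by rcases hκ with h | h <;> rw [h] <;> norm_num
    have h := ok1_core (P := P) (η := η) (r := r) (r' := r') (σ := κ / 2) (Mx := Mx) (k := k)
      (q := q) (g := g) (by positivity) hP hr hr'
      (fun τ x hx => by
        have := hC₂ q (1 / 8) η x τ κ hq (by norm_num) le_rfl hη hη1 hx hκ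
        rw [show (2 * (κ / 2) : ℝ) = κ by ring]
        exact this)
      hEs (fun u z w hz hw => double_sum_g k q g u z w hg0 hz hw)
    have h2 := hPle (κ / 2) (by positivity)
    rw [show (2 * (κ / 2) : ℝ) = κ by ring] at h h2
    have hG0 : 0 ≤ Real.Gamma (κ / 2) * (1 / Real.cos 1) ^ (κ / 2) :=
      mul_nonneg (Real.Gamma_pos_of_pos (by positivity)).le (by positivity)
    rw [hLe, norm_mul]
    calc _ ≤ 1 * ((Real.Gamma (κ / 2) * (1 / Real.cos 1) ^ (κ / 2)) * P ^ (-(κ / 2)) * Mx ^ 2 *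
        (r * r') ^ (-(κ + 1 / 2 + η)) * S₀) := mul_le_mul hsqg h (norm_nonneg _) zero_le_one
      _ = (Real.Gamma (κ / 2) * (1 / Real.cos 1) ^ (κ / 2)) * P ^ (-(κ / 2)) * Mx ^ 2 *
        (r * r') ^ (-(κ + 1 / 2 + η)) * S₀ := one_mul _
      _ ≤ _ := by gcongr
  have h1 := hcore 1 (Or.inl rfl)
  have h7 := hcore 7 (Or.inr rfl)
  -- collecting constants
  have hlog : 1 ≤ 1 + Real.log (q * v ^ 2) := by
    have := Real.log_nonneg hqv1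
    linarith
  have hcard : (1:ℝ) ≤ v.divisors.card := by
    have : 0 < v.divisors.card := Finset.card_pos.2 ⟨1, by simp [hv.ne']⟩
    exact_mod_cast this
  set N : ℕ := C₁ + C₃ + 18 with hN
  have hconst : (K₁ + K₇) * (g : ℝ) ^ 7 * Mx ^ 2 * S₀ ≤
      ((N : ℕ) / η) ^ N * (1 + Real.log (q * v ^ 2)) ^ N * (v.divisors.card : ℝ) ^ N *
        (g : ℝ) ^ N * (MM (1 / 8) η q) ^ 2 := by
    set L : ℝ := 1 + Real.log (q * v ^ 2) with hL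
    set D : ℝ := (v.divisors.card : ℝ) with hD
    have hL0 : 0 < L := lt_of_lt_of_le one_pos hlog
    have hD0 : 0 < D := lt_of_lt_of_le one_pos hcard
    have e1 : L ^ C₁ ≤ L ^ N := pow_le_pow_right₀ hlog (by omega)
    have e2 : D ^ C₁ ≤ D ^ N := pow_le_pow_right₀ hcard (by omega)
    have e2' : (g : ℝ) ^ (C₁ + 7) ≤ (g : ℝ) ^ N := pow_le_pow_right₀ hgR (by omega)
    have hN1 : (1:ℝ) ≤ N := by
      have : 1 ≤ N := by omega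
      exact_mod_cast this
    have e3 : (C₃ : ℝ) * (C₁ : ℝ) ^ C₁ ≤ (N : ℝ) ^ N := by
      have f1 : (C₁ : ℝ) ^ C₁ ≤ (N : ℝ) ^ C₁ := by
        apply pow_le_pow_left₀ (by positivity)
        have : C₁ ≤ N := by omega
        exact_mod_cast this
      have f2 : (C₃ : ℝ) ≤ (N : ℝ) ^ (C₃ + 18) := by
        have g1 : (C₃ : ℝ) ≤ N := by
          have : C₃ ≤ N := by omega
          exact_mod_cast this
        refine g1.trans ?_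
        calc (N : ℝ) = (N : ℝ) ^ 1 := (pow_one _).symm
          _ ≤ (N : ℝ) ^ (C₃ + 18) := pow_le_pow_right₀ hN1 (by omega)
      calc (C₃ : ℝ) * (C₁ : ℝ) ^ C₁ ≤ (N : ℝ) ^ (C₃ + 18) * (N : ℝ) ^ C₁ := by gcongr
        _ = (N : ℝ) ^ N := by rw [← pow_add]; congr 1; omega
    have e5 : (1 / η) ^ C₁ ≤ (1 / η) ^ N :=
      pow_le_pow_right₀ (by rw [le_div_iff₀ hη]; linarith) (by omega)
    have e6 : ((N : ℝ) / η) ^ N = (N : ℝ) ^ N * (1 / η) ^ N := by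
      rw [← mul_pow]; congr 1; field_simp
    have e7 : Mx ^ 2 = C₂ ^ 2 * (MM (1 / 8) η q) ^ 2 := by
      rw [hMx]; ring
    have e8 : ((C₁ : ℝ) / η) ^ C₁ = (C₁ : ℝ) ^ C₁ * (1 / η) ^ C₁ := by
      rw [← mul_pow]; congr 1; field_simp
    rw [e6, e7]
    rw [e8] at hEb
    have hKnn : 0 ≤ K₁ + K₇ := by linarith
    calc (K₁ + K₇) * (g : ℝ) ^ 7 * (C₂ ^ 2 * (MM (1 / 8) η q) ^ 2) * S₀
        = ((K₁ + K₇) * C₂ ^ 2) * (g : ℝ) ^ 7 * (MM (1 / 8) η q) ^ 2 * S₀ := by ring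
      _ ≤ (C₃ : ℝ) * (g : ℝ) ^ 7 * (MM (1 / 8) η q) ^ 2 *
          ((C₁ : ℝ) ^ C₁ * (1 / η) ^ N * L ^ N * D ^ N * (g : ℝ) ^ C₁) := by
          refine mul_le_mul ?_ ?_ hS₀0 (by positivity)
          · gcongr
          · refine hEb.trans ?_
            gcongr
      _ = ((C₃ : ℝ) * (C₁ : ℝ) ^ C₁) * (1 / η) ^ N * L ^ N * D ^ N * (g : ℝ) ^ (C₁ + 7) *
          (MM (1 / 8) η q) ^ 2 := by rw [pow_add]; ring
      _ ≤ _ := by gcongr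
  have hg7 : (g : ℝ) ≤ (g : ℝ) ^ 7 := le_self_pow₀ hgR (by norm_num)
  have hA0 : 0 ≤ K₁ * (g : ℝ) * Mx ^ 2 * S₀ := by positivity
  have hc1 : K₁ * (g : ℝ) * Mx ^ 2 * S₀ ≤ ((N : ℕ) / η) ^ N * (1 + Real.log (q * v ^ 2)) ^ N *
      (v.divisors.card : ℝ) ^ N * (g : ℝ) ^ N * (MM (1 / 8) η q) ^ 2 := by
    refine le_trans ?_ hconst
    have h3 : K₁ * (g : ℝ) ≤ (K₁ + K₇) * (g : ℝ) ^ 7 :=
      mul_le_mul (by linarith) hg7 (by positivity) (by linarith)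
    exact mul_le_mul_of_nonneg_right (mul_le_mul_of_nonneg_right h3 (sq_nonneg Mx)) hS₀0
  have hc7 : K₇ * (g : ℝ) ^ 7 * Mx ^ 2 * S₀ ≤ ((N : ℕ) / η) ^ N *
      (1 + Real.log (q * v ^ 2)) ^ N *
      (v.divisors.card : ℝ) ^ N * (g : ℝ) ^ N * (MM (1 / 8) η q) ^ 2 := by
    refine le_trans ?_ hconst
    have h3 : K₇ * (g : ℝ) ^ 7 ≤ (K₁ + K₇) * (g : ℝ) ^ 7 :=
      mul_le_mul (by linarith) le_rfl (by positivity) (by linarith)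
    exact mul_le_mul_of_nonneg_right (mul_le_mul_of_nonneg_right h3 (sq_nonneg Mx)) hS₀0
  have hRnn := hA0.trans hc1
  rw [mul_min_of_nonneg _ _ hRnn]
  have hqv0 : (0:ℝ) < q * v ^ 2 := by linarith
  refine le_min ?_ ?_
  · refine (mul_le_mul_of_nonneg_left h1 hZ.le).trans ?_
    have e1 : (|(k : ℝ)| * Z) ^ (-(1:ℝ)) = (q * v ^ 2 * Z)⁻¹ := by
      rw [Real.rpow_neg (by positivity), Real.rpow_one, hkabs]
    have e2 : (r * r') ^ (-((1:ℝ) + 1 / 2 + η)) = (r * r') ^ (-(3 / 2 + η)) := by congr 1; ring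
    rw [e1, e2, ← hK₁, Real.rpow_one]
    calc Z * (K₁ * ((q * v ^ 2 * Z)⁻¹ * g) * Mx ^ 2 * (r * r') ^ (-(3 / 2 + η)) * S₀)
        = Z * ((K₁ * g) * (q * v ^ 2 * Z)⁻¹ * Mx ^ 2 * (r * r') ^ (-(3 / 2 + η)) * S₀) := by ring
      _ = ((K₁ * g) * Mx ^ 2 * S₀) * ((r * r') ^ (-(3 / 2 + η)) / (q * v ^ 2)) :=
          K1_alg1 _ _ _ _ _ _ hqv0.ne' hZ.ne'
      _ ≤ _ := mul_le_mul_of_nonneg_right hc1 (by positivity)
  · refine (mul_le_mul_of_nonneg_left h7 hZ.le).trans ?_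
    have e1 : (|(k : ℝ)| * Z) ^ (-(7:ℝ)) = ((q * v ^ 2 * Z) ^ 7)⁻¹ := by
      rw [Real.rpow_neg (by positivity), hkabs, ← Real.rpow_natCast]
      norm_num
    have e3 : (g : ℝ) ^ (7 : ℝ) = (g : ℝ) ^ 7 := by norm_cast
    have e2 : (r * r') ^ (-((7:ℝ) + 1 / 2 + η)) = (r * r') ^ (-(15 / 2 + η)) := by congr 1; ring
    rw [e1, e2, e3, ← hK₇]
    calc Z * (K₇ * (((q * v ^ 2 * Z) ^ 7)⁻¹ * g ^ 7) * Mx ^ 2 * (r * r') ^ (-(15 / 2 + η)) * S₀)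
        = Z * ((K₇ * g ^ 7) * ((q * v ^ 2 * Z) ^ 7)⁻¹ * Mx ^ 2 * (r * r') ^ (-(15 / 2 + η)) * S₀) := by
          ring
      _ = ((K₇ * g ^ 7) * Mx ^ 2 * S₀) * ((r * r') ^ (-(15 / 2 + η)) / Z ^ 6 / (q * v ^ 2) ^ 7) :=
          K1_alg7 _ _ _ _ _ _ hqv0.ne' hZ.ne'
      _ ≤ _ := mul_le_mul_of_nonneg_right hc7 (by positivity)

end Pool.Agent.CZ
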