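import Mathlib
import Pool.Agent.CZ.InpCONT
import Pool.Agent.CZ.InpIDN
import Pool.Agent.CZ.InpLOW
import Pool.Agent.CZ.InpZET

/-!
Critical zeros (MP_553913_nt), analytic inputs, module AR: assembly of `A2` and `R1`.
-/

set_option autoImplicit false

open Complex Finset MeasureTheory

namespace Pool.Agent.CZ.Inp

open Pool.Agent.H5 (c bd P)

private lemma two_mul_re (w : ℂ) : (2 * w).re = 2 * w.re := by simp

private lemma z2_comp_diff : DifferentiableOn ℂ (fun w : ℂ => z2 (2 * w)) {w : ℂ | 3 / 4 < w.re} := by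
  refine DifferentiableOn.comp (t := {s : ℂ | 1 < s.re}) z2_diff ?_ ?_
  · exact (differentiable_const (2 : ℂ)).mul differentiable_id |>.differentiableOn
  · intro w hw
    have hw' : 3 / 4 < w.re := hw
    show 1 < (2 * w).re
    rw [two_mul_re]
    linarith

private lemma z2_ne {w : ℂ} (hw : 3 / 4 ≤ w.re) : z2 (2 * w) ≠ 0 := by
  obtain ⟨κ, hκ, h⟩ := z2_ge
  have h1 := h (2 * w) (by rw [two_mul_re]; linarith)
  intro h0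
  rw [h0, norm_zero] at h1
  linarith

theorem A2_diff : DifferentiableOn ℂ A2 {w : ℂ | 3 / 4 < w.re} := by
  have h1 : DifferentiableOn ℂ LX {w : ℂ | 3 / 4 < w.re} := LX_diff.mono fun w hw => by
    have hw' : 3 / 4 < w.re := hw
    show 0 < w.re
    linarith
  have h2 : DifferentiableOn ℂ (HL 1) {w : ℂ | 3 / 4 < w.re} := (HL_diff le_rfl).mono fun w hw => by
    have hw' : 3 / 4 < w.re := hw
    show 1 / 2 < w.re
    linarith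
  exact (h1.mul h2).div z2_comp_diff fun w hw => z2_ne (le_of_lt hw)

theorem R1_diff : DifferentiableOn ℂ R1 {w : ℂ | 3 / 4 < w.re} := by
  have h1 : DifferentiableOn ℂ H0 {w : ℂ | 3 / 4 < w.re} := H0_diff.mono fun w hw => by
    have hw' : 3 / 4 < w.re := hw
    show 1 / 2 < w.re
    linarith
  have h2 : DifferentiableOn ℂ (HL 1) {w : ℂ | 3 / 4 < w.re} := (HL_diff le_rfl).mono fun w hw => by
    have hw' : 3 / 4 < w.re := hw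
    show 1 / 2 < w.re
    linarith
  exact (h1.mul h2).div z2_comp_diff fun w hw => z2_ne (le_of_lt hw)

theorem A2_eq {w : ℂ} (hw : 1 < w.re) : LSeriesSummable (fun n => ((lam (n ^ 2) : ℝ) : ℂ)) w ∧
    A2 w = LSeries (fun n => ((lam (n ^ 2) : ℝ) : ℂ)) w := by
  obtain ⟨h1, h2⟩ := A2_id hw
  refine ⟨h1, ?_⟩
  unfold A2
  rw [LX_eq hw, HL_eq le_rfl hw, ← h2, mul_div_assoc, div_self (z2_ne (by linarith)), mul_one]

theorem R1_eq {w : ℂ} (hw : 1 < w.re) : LSeriesSummable (fun n => ((lam n ^ 2 : ℝ) : ℂ)) w ∧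
    R1 w = (w - 1) * LSeries (fun n => ((lam n ^ 2 : ℝ) : ℂ)) w := by
  obtain ⟨h1, h2⟩ := R1_id hw
  refine ⟨h1, ?_⟩
  unfold R1
  rw [H0_eq hw, HL_eq le_rfl hw, mul_assoc, ← h2, ← mul_assoc, mul_div_assoc,
    div_self (z2_ne (by linarith)), mul_one]

private lemma norm_le_strip {w : ℂ} (h0 : 0 ≤ w.re) (h4 : w.re ≤ 4) :
    ‖w‖ ≤ 4 * (1 + |w.im|) := by
  refine (Complex.norm_le_abs_re_add_abs_im w).trans ?_
  rw [abs_of_nonneg h0]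
  have := abs_nonneg w.im
  linarith

private lemma LX_strip : ∃ C : ℝ, 0 ≤ C ∧ ∀ w : ℂ, 4 / 5 ≤ w.re → w.re ≤ 4 →
    ‖LX w‖ ≤ C * (1 + |w.im|) := by
  refine ⟨5, by norm_num, fun w h0 h4 => ?_⟩
  have hw : 0 < w.re := by linarith
  have ht : 0 ≤ |w.im| := abs_nonneg _
  refine (LX_le hw).trans ?_
  rw [div_le_iff₀ hw]
  have := norm_le_strip hw.le h4
  nlinarith

private lemma HL_strip : ∃ C : ℝ, 0 ≤ C ∧ ∀ w : ℂ, 4 / 5 ≤ w.re → w.re ≤ 4 →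
    ‖HL 1 w‖ ≤ C * (1 + |w.im|) := by
  obtain ⟨C, hC⟩ := HL_le (le_refl 1)
  refine ⟨|C| * (4 / (3 / 10)), by positivity, fun w h0 h4 => ?_⟩
  have hw : 1 / 2 < w.re := by linarith
  have ht : 0 ≤ |w.im| := abs_nonneg _
  have hn := norm_le_strip (w := w) (by linarith) h4
  calc ‖HL 1 w‖ ≤ C * ‖w‖ / (w.re - 1 / 2) := hC w hw
    _ ≤ |C| * (4 * (1 + |w.im|)) / (3 / 10) := by
        have h1 : C * ‖w‖ ≤ |C| * (4 * (1 + |w.im|)) := by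
          gcongr
          exact le_abs_self C
        have h2 : 0 < w.re - 1 / 2 := by linarith
        have h3 : (3 / 10 : ℝ) ≤ w.re - 1 / 2 := by linarith
        have h5 : 0 ≤ |C| * (4 * (1 + |w.im|)) := by positivity
        calc C * ‖w‖ / (w.re - 1 / 2) ≤ |C| * (4 * (1 + |w.im|)) / (w.re - 1 / 2) := by gcongr
          _ ≤ _ := by gcongr
    _ = |C| * (4 / (3 / 10)) * (1 + |w.im|) := by ring

private lemma H0_strip : ∃ C : ℝ, 0 ≤ C ∧ ∀ w : ℂ, 4 / 5 ≤ w.re → w.re ≤ 4 →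
    ‖H0 w‖ ≤ C * (1 + |w.im|) ^ 2 := by
  obtain ⟨C, hC⟩ := H0_le
  refine ⟨|C| * (25 / (3 / 10)) + |C| * 4, by positivity, fun w h0 h4 => ?_⟩
  have hw : 1 / 2 < w.re := by linarith
  have ht : 0 ≤ |w.im| := abs_nonneg _
  have hn := norm_le_strip (w := w) (by linarith) h4
  have hn1 : 1 + ‖w‖ ≤ 5 * (1 + |w.im|) := by linarith
  have h2 : 0 < w.re - 1 / 2 := by linarith
  have h3 : (3 / 10 : ℝ) ≤ w.re - 1 / 2 := by linarith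
  have hA : C * (1 + ‖w‖) ^ 2 / (w.re - 1 / 2) ≤ |C| * (5 * (1 + |w.im|)) ^ 2 / (3 / 10) := by
    have h1 : C * (1 + ‖w‖) ^ 2 ≤ |C| * (5 * (1 + |w.im|)) ^ 2 := by
      gcongr
      exact le_abs_self C
    have h5 : 0 ≤ |C| * (5 * (1 + |w.im|)) ^ 2 := by positivity
    calc C * (1 + ‖w‖) ^ 2 / (w.re - 1 / 2) ≤ |C| * (5 * (1 + |w.im|)) ^ 2 / (w.re - 1 / 2) := by
          gcongr
      _ ≤ _ := by gcongr
  have hB : C * ‖w‖ ≤ |C| * (4 * (1 + |w.im|) ^ 2) := by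
    calc C * ‖w‖ ≤ |C| * (4 * (1 + |w.im|)) := by
          gcongr
          exact le_abs_self C
      _ ≤ |C| * (4 * (1 + |w.im|) ^ 2) := by
          gcongr
          nlinarith
  calc ‖H0 w‖ ≤ C * (1 + ‖w‖) ^ 2 / (w.re - 1 / 2) + C * ‖w‖ := hC w hw
    _ ≤ |C| * (5 * (1 + |w.im|)) ^ 2 / (3 / 10) + |C| * (4 * (1 + |w.im|) ^ 2) := add_le_add hA hB
    _ = _ := by ring

private lemma inv_z2_le : ∃ K : ℝ, 0 < K ∧ ∀ w : ℂ, 4 / 5 ≤ w.re → ‖z2 (2 * w)‖⁻¹ ≤ K := by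
  obtain ⟨κ, hκ, h⟩ := z2_ge
  refine ⟨κ⁻¹, by positivity, fun w hw => ?_⟩
  have h1 := h (2 * w) (by rw [two_mul_re]; linarith)
  gcongr

theorem A2_le : ∃ C : ℝ, ∃ A : ℕ, 0 < C ∧ ∀ w : ℂ, 4 / 5 ≤ w.re → w.re ≤ 4 →
    ‖A2 w‖ ≤ C * (1 + |w.im|) ^ A := by
  obtain ⟨C1, hC1, h1⟩ := LX_strip
  obtain ⟨C2, hC2, h2⟩ := HL_strip
  obtain ⟨K, hK, h3⟩ := inv_z2_le
  refine ⟨C1 * C2 * K + 1, 2, by positivity, fun w h0 h4 => ?_⟩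
  have ht : 0 ≤ |w.im| := abs_nonneg _
  unfold A2
  rw [norm_div, norm_mul, div_eq_mul_inv]
  calc ‖LX w‖ * ‖HL 1 w‖ * ‖z2 (2 * w)‖⁻¹
      ≤ (C1 * (1 + |w.im|)) * (C2 * (1 + |w.im|)) * K := by
        gcongr
        · exact h1 w h0 h4
        · exact h2 w h0 h4
        · exact h3 w h0
    _ = C1 * C2 * K * (1 + |w.im|) ^ 2 := by ring
    _ ≤ (C1 * C2 * K + 1) * (1 + |w.im|) ^ 2 := by
        gcongr
        linarith

theorem R1_le : ∃ C : ℝ, ∃ A : ℕ, 0 < C ∧ ∀ w : ℂ, 4 / 5 ≤ w.re → w.re ≤ 4 →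
    ‖R1 w‖ ≤ C * (1 + |w.im|) ^ A := by
  obtain ⟨C1, hC1, h1⟩ := H0_strip
  obtain ⟨C2, hC2, h2⟩ := HL_strip
  obtain ⟨K, hK, h3⟩ := inv_z2_le
  refine ⟨C1 * C2 * K + 1, 3, by positivity, fun w h0 h4 => ?_⟩
  have ht : 0 ≤ |w.im| := abs_nonneg _
  unfold R1
  rw [norm_div, norm_mul, div_eq_mul_inv]
  calc ‖H0 w‖ * ‖HL 1 w‖ * ‖z2 (2 * w)‖⁻¹
      ≤ (C1 * (1 + |w.im|) ^ 2) * (C2 * (1 + |w.im|)) * K := by
        gcongr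
        · exact h1 w h0 h4
        · exact h2 w h0 h4
        · exact h3 w h0
    _ = C1 * C2 * K * (1 + |w.im|) ^ 3 := by ring
    _ ≤ (C1 * C2 * K + 1) * (1 + |w.im|) ^ 3 := by
        gcongr
        linarith

/-- product of two polynomial lower bounds divided by a bounded function -/
private lemma quot_ge {F G : ℂ → ℂ} (hF : ∃ κ A : ℝ, 0 < κ ∧ 0 ≤ A ∧ ∀ s : ℂ, 1 ≤ s.re → s.re ≤ 4 →
      κ * (1 + |s.im|) ^ (-A) ≤ ‖F s‖)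
    (hG : ∃ κ A : ℝ, 0 < κ ∧ 0 ≤ A ∧ ∀ s : ℂ, 1 ≤ s.re → s.re ≤ 4 →
      κ * (1 + |s.im|) ^ (-A) ≤ ‖G s‖) :
    ∃ κ : ℝ, ∃ A : ℕ, 0 < κ ∧ ∀ w : ℂ, 1 ≤ w.re → w.re ≤ 4 →
      κ * (1 + |w.im|) ^ (-(A : ℝ)) ≤ ‖F w * G w / z2 (2 * w)‖ := by
  obtain ⟨κ1, A1, hκ1, hA1, h1⟩ := hF
  obtain ⟨κ2, A2, hκ2, hA2, h2⟩ := hG
  obtain ⟨C, hC⟩ := z2_le
  set K : ℝ := max C 1 with hK
  have hK1 : 0 < K := lt_of_lt_of_le one_pos (le_max_right _ _)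
  refine ⟨κ1 * κ2 / K, ⌈A1 + A2⌉₊, by positivity, fun w h0 h4 => ?_⟩
  have ht : 1 ≤ 1 + |w.im| := by linarith [abs_nonneg w.im]
  have ht0 : 0 < 1 + |w.im| := by linarith
  have hz : ‖z2 (2 * w)‖ ≤ K := (hC (2 * w) (by rw [two_mul_re]; linarith)).trans (le_max_left _ _)
  have hz0 : 0 < ‖z2 (2 * w)‖ := norm_pos_iff.2 (z2_ne (by linarith))
  rw [norm_div, norm_mul, le_div_iff₀ hz0]
  have e1 : (1 + |w.im|) ^ (-((⌈A1 + A2⌉₊ : ℕ) : ℝ)) ≤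
      (1 + |w.im|) ^ (-A1) * (1 + |w.im|) ^ (-A2) := by
    rw [← Real.rpow_add ht0]
    refine Real.rpow_le_rpow_of_exponent_le ht ?_
    have := Nat.le_ceil (A1 + A2)
    linarith
  have p1 : 0 ≤ (1 + |w.im|) ^ (-A1) := by positivity
  have p2 : 0 ≤ (1 + |w.im|) ^ (-A2) := by positivity
  calc κ1 * κ2 / K * (1 + |w.im|) ^ (-((⌈A1 + A2⌉₊ : ℕ) : ℝ)) * ‖z2 (2 * w)‖
      ≤ κ1 * κ2 / K * ((1 + |w.im|) ^ (-A1) * (1 + |w.im|) ^ (-A2)) * K := by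
        gcongr
    _ = (κ1 * (1 + |w.im|) ^ (-A1)) * (κ2 * (1 + |w.im|) ^ (-A2)) := by
        field_simp
    _ ≤ ‖F w‖ * ‖G w‖ := by
        gcongr
        · exact h1 w h0 h4
        · exact h2 w h0 h4

theorem A2_ge : ∃ κ : ℝ, ∃ A : ℕ, 0 < κ ∧ ∀ w : ℂ, 1 ≤ w.re → w.re ≤ 4 →
    κ * (1 + |w.im|) ^ (-(A : ℝ)) ≤ ‖A2 w‖ := quot_ge LX_ge HL1_ge

theorem R1_ge : ∃ κ : ℝ, ∃ A : ℕ, 0 < κ ∧ ∀ w : ℂ, 1 ≤ w.re → w.re ≤ 4 →
    κ * (1 + |w.im|) ^ (-(A : ℝ)) ≤ ‖R1 w‖ := quot_ge H0_ge HL1_ge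

end Pool.Agent.CZ.Inp
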