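import Mathlib
import Pool.Agent.CZ.IDefs
import Pool.Agent.CZ.InpIDN
import Pool.Agent.ZD.O
import Pool.Agent.ZD.G1
import Pool.Agent.CZ.InpAR

set_option autoImplicit false

open Complex Finset MeasureTheory

namespace Pool.Agent.CZ

open Pool.Agent.H5 (c bd)
open Pool.Agent.ZD (S Lf gk eps MM tau)
open Pool.Agent.CZ.Inp (lam A2 R1)

/-- the sequence of values on the powers of one odd prime -/
structure df_Loc (l : ℕ → ℝ) : Prop where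
  zero : l 0 = 1
  step : ∀ k, l (k + 2) = l 1 * l (k + 1) - l k
  bound : ∀ k, |l k| ≤ k + 1

lemma df_geo (m j : ℕ) {r : ℝ} (h0 : 0 < r) (h1 : r < 1) :
    Summable (fun k : ℕ => ((k : ℝ) + j) ^ m * r ^ k) := by
  have h := summable_pow_mul_geometric_of_norm_lt_one (R := ℝ) m (r := r)
    (by rw [Real.norm_of_nonneg h0.le]; exact h1)
  have h2 := ((summable_nat_add_iff j).2 h).mul_right (r ^ j)⁻¹
  refine h2.congr (fun k => ?_)
  push_cast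
  rw [pow_add]
  field_simp

lemma df_add {l : ℕ → ℝ} (hl : df_Loc l) (m n : ℕ) :
    l (m + n + 2) = l (m + 1) * l (n + 1) - l m * l n := by
  induction n using Nat.strong_induction_on with
  | _ n ih =>
    match n with
    | 0 =>
      rw [hl.zero, add_zero, hl.step, zero_add]
      ring
    | 1 =>
      have h1 := hl.step (m + 1)
      have h2 := hl.step m
      have h3 := hl.step 0
      rw [hl.zero, zero_add] at h3
      rw [show m + 1 + 2 = m + 1 + 2 from rfl, h1, show 1 + 1 = 0 + 2 from rfl, zero_add, h3,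
        show m + 1 + 1 = m + 2 from rfl, h2]
      ring
    | n + 2 =>
      have h1 := ih n (by omega)
      have h2 := ih (n + 1) (by omega)
      rw [show m + (n + 2) + 2 = (m + (n + 1) + 1) + 2 by ring, hl.step,
        show m + (n + 1) + 1 + 1 = m + (n + 1) + 2 by ring, h2,
        show m + (n + 1) + 1 = m + n + 2 by ring, h1, hl.step (n + 1), hl.step n]
      ring

lemma df_sq {l : ℕ → ℝ} (hl : df_Loc l) (k : ℕ) :
    l (2 * (k + 1)) = l (k + 1) ^ 2 - l k ^ 2 := by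
  have := df_add hl k k
  rw [show 2 * (k + 1) = k + k + 2 by ring, this]
  ring

lemma df_two {l : ℕ → ℝ} (hl : df_Loc l) : l 2 = l 1 ^ 2 - 1 := by
  have := hl.step 0
  rw [hl.zero, zero_add] at this
  rw [show (2 : ℕ) = 0 + 2 from rfl, this]
  ring

lemma df_one_sq {l : ℕ → ℝ} (hl : df_Loc l) : l 1 ^ 2 ≤ 4 := by
  have := hl.bound 1
  rw [Nat.cast_one] at this
  have h2 : |l 1| ^ 2 ≤ (1 + 1) ^ 2 := pow_le_pow_left₀ (abs_nonneg _) this 2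
  rw [sq_abs] at h2
  linarith

lemma df_two_le {l : ℕ → ℝ} (hl : df_Loc l) : |l 2| ≤ 3 := by
  have := hl.bound 2
  push_cast at this
  linarith

/-- the two local series -/
noncomputable def dfA (l : ℕ → ℝ) (z : ℂ) : ℂ := ∑' k : ℕ, (l (2 * k) : ℂ) * z ^ k
noncomputable def dfR (l : ℕ → ℝ) (z : ℂ) : ℂ := ∑' k : ℕ, ((l k ^ 2 : ℝ) : ℂ) * z ^ k

/-- constant of the tails -/
noncomputable def dfC : ℝ := ∑' k : ℕ, ((k : ℝ) + 3) ^ 2 * (1 / 3) ^ k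

lemma dfC_nonneg : 0 ≤ dfC := tsum_nonneg (fun k => by positivity)

lemma df_normA {l : ℕ → ℝ} (hl : df_Loc l) {z : ℂ} (hz : ‖z‖ ≤ 1 / 3) (j k : ℕ) :
    ‖(l (2 * (k + j)) : ℂ) * z ^ k‖ ≤ ((k : ℝ) + (j + 1 : ℕ)) ^ 2 * (1 / 3) ^ k := by
  rw [norm_mul, norm_pow, norm_real, Real.norm_eq_abs]
  have h1 := hl.bound (2 * (k + j))
  push_cast at h1 ⊢
  have h2 : |l (2 * (k + j))| ≤ ((k : ℝ) + (j + 1)) ^ 2 := by
    refine h1.trans ?_
    nlinarith [sq_nonneg ((k : ℝ) + j)]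
  exact mul_le_mul h2 (pow_le_pow_left₀ (norm_nonneg _) hz k) (by positivity) (by positivity)

lemma df_normR {l : ℕ → ℝ} (hl : df_Loc l) {z : ℂ} (hz : ‖z‖ ≤ 1 / 3) (j k : ℕ) :
    ‖((l (k + j) ^ 2 : ℝ) : ℂ) * z ^ k‖ ≤ ((k : ℝ) + (j + 1 : ℕ)) ^ 2 * (1 / 3) ^ k := by
  rw [norm_mul, norm_pow, norm_real, Real.norm_eq_abs, abs_pow]
  have h1 := hl.bound (k + j)
  push_cast at h1 ⊢
  have h2 : |l (k + j)| ^ 2 ≤ ((k : ℝ) + (j + 1)) ^ 2 :=
    pow_le_pow_left₀ (abs_nonneg _) (by linarith) 2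
  exact mul_le_mul h2 (pow_le_pow_left₀ (norm_nonneg _) hz k) (by positivity) (by positivity)

lemma df_sumA {l : ℕ → ℝ} (hl : df_Loc l) {z : ℂ} (hz : ‖z‖ ≤ 1 / 3) (j : ℕ) :
    Summable (fun k : ℕ => (l (2 * (k + j)) : ℂ) * z ^ k) :=
  Summable.of_norm_bounded (df_geo 2 (j + 1) (by norm_num) (by norm_num)) (df_normA hl hz j)

lemma df_sumR {l : ℕ → ℝ} (hl : df_Loc l) {z : ℂ} (hz : ‖z‖ ≤ 1 / 3) (j : ℕ) :
    Summable (fun k : ℕ => ((l (k + j) ^ 2 : ℝ) : ℂ) * z ^ k) :=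
  Summable.of_norm_bounded (df_geo 2 (j + 1) (by norm_num) (by norm_num)) (df_normR hl hz j)

/-- first step of a series -/
lemma df_head {a : ℕ → ℂ} {z : ℂ} (h : Summable (fun k : ℕ => a k * z ^ k)) :
    ∑' k : ℕ, a k * z ^ k = a 0 + z * ∑' k : ℕ, a (k + 1) * z ^ k := by
  rw [h.tsum_eq_zero_add, pow_zero, mul_one, ← tsum_mul_left]
  congr 1
  refine tsum_congr (fun k => ?_)
  rw [pow_succ]
  ring

lemma df_expA {l : ℕ → ℝ} (hl : df_Loc l) {z : ℂ} (hz : ‖z‖ ≤ 1 / 3) :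
    ‖dfA l z - 1 - l 2 * z‖ ≤ dfC * ‖z‖ ^ 2 := by
  have h1 : dfA l z = 1 + l 2 * z + z ^ 2 * ∑' k : ℕ, (l (2 * (k + 2)) : ℂ) * z ^ k := by
    have e0 := df_head (a := fun k => (l (2 * k) : ℂ)) (z := z) (by simpa using df_sumA hl hz 0)
    have e1 := df_head (a := fun k => (l (2 * (k + 1)) : ℂ)) (z := z) (df_sumA hl hz 1)
    unfold dfA
    rw [e0, e1, mul_zero, hl.zero]
    simp only [zero_add, mul_one, add_assoc]
    norm_num
    ring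
  have h2 : dfA l z - 1 - l 2 * z = z ^ 2 * ∑' k : ℕ, (l (2 * (k + 2)) : ℂ) * z ^ k := by
    rw [h1]; ring
  rw [h2, norm_mul, norm_pow, mul_comm]
  refine mul_le_mul_of_nonneg_right ?_ (by positivity)
  have h3 := tsum_of_norm_bounded (df_geo 2 3 (r := 1 / 3) (by norm_num) (by norm_num)).hasSum
    (df_normA hl hz 2)
  refine h3.trans (le_of_eq ?_)
  unfold dfC
  exact tsum_congr (fun k => by norm_num)

lemma df_expR {l : ℕ → ℝ} (hl : df_Loc l) {z : ℂ} (hz : ‖z‖ ≤ 1 / 3) :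
    ‖dfR l z - 1 - l 1 ^ 2 * z‖ ≤ dfC * ‖z‖ ^ 2 := by
  have h1 : dfR l z = 1 + l 1 ^ 2 * z + z ^ 2 * ∑' k : ℕ, ((l (k + 2) ^ 2 : ℝ) : ℂ) * z ^ k := by
    have e0 := df_head (a := fun k => ((l k ^ 2 : ℝ) : ℂ)) (z := z) (by simpa using df_sumR hl hz 0)
    have e1 := df_head (a := fun k => ((l (k + 1) ^ 2 : ℝ) : ℂ)) (z := z) (df_sumR hl hz 1)
    unfold dfR
    rw [e0, e1, hl.zero]
    simp only [zero_add, add_assoc]
    push_cast
    norm_num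
    ring
  have h2 : dfR l z - 1 - l 1 ^ 2 * z = z ^ 2 * ∑' k : ℕ, ((l (k + 2) ^ 2 : ℝ) : ℂ) * z ^ k := by
    rw [h1]; ring
  rw [h2, norm_mul, norm_pow, mul_comm]
  refine mul_le_mul_of_nonneg_right ?_ (by positivity)
  have h3 := tsum_of_norm_bounded (df_geo 2 3 (r := 1 / 3) (by norm_num) (by norm_num)).hasSum
    (df_normR hl hz 2)
  refine h3.trans (le_of_eq ?_)
  unfold dfC
  exact tsum_congr (fun k => by norm_num)

lemma df_closedA {l : ℕ → ℝ} (hl : df_Loc l) {z : ℂ} (hz : ‖z‖ ≤ 1 / 3) :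
    dfA l z * (1 - (l 1 ^ 2 - 2) * z + z ^ 2) = 1 + z := by
  have e0 := df_head (a := fun k => (l (2 * k) : ℂ)) (z := z) (by simpa using df_sumA hl hz 0)
  have e1 := df_head (a := fun k => (l (2 * (k + 1)) : ℂ)) (z := z) (df_sumA hl hz 1)
  have s0 : Summable (fun k : ℕ => (l (2 * k) : ℂ) * z ^ k) := by simpa using df_sumA hl hz 0
  have s1 := df_sumA hl hz 1
  have h2 : ∑' k : ℕ, (l (2 * (k + 1 + 1)) : ℂ) * z ^ k =
      (l 1 ^ 2 - 2) * ∑' k : ℕ, (l (2 * (k + 1)) : ℂ) * z ^ k - ∑' k : ℕ, (l (2 * k) : ℂ) * z ^ k := by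
    rw [← tsum_mul_left, ← (s1.mul_left _).tsum_sub s0]
    refine tsum_congr (fun k => ?_)
    have a1 := hl.step (2 * k + 2)
    have a2 := hl.step (2 * k + 1)
    have a3 := hl.step (2 * k)
    have a4 : l (2 * (k + 1 + 1)) = (l 1 ^ 2 - 2) * l (2 * (k + 1)) - l (2 * k) := by
      rw [show 2 * (k + 1 + 1) = 2 * k + 2 + 2 by ring, a1,
        show 2 * k + 2 + 1 = 2 * k + 1 + 2 by ring, a2, show 2 * k + 1 + 1 = 2 * k + 2 by ring, a3,
        show 2 * (k + 1) = 2 * k + 2 by ring, a3]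
      ring
    rw [a4]
    push_cast
    ring
  have h3 : (l (2 * (0 + 1)) : ℂ) = l 1 ^ 2 - 1 := by
    rw [show 2 * (0 + 1) = 2 from rfl, df_two hl]
    push_cast
    ring
  rw [h2] at e1
  simp only [mul_zero, hl.zero] at e0
  rw [h3] at e1
  set A : ℂ := ∑' k : ℕ, (l (2 * k) : ℂ) * z ^ k with hA
  set B : ℂ := ∑' k : ℕ, (l (2 * (k + 1)) : ℂ) * z ^ k with hB
  have hAd : dfA l z = A := rfl
  rw [hAd]
  push_cast at e0
  -- A = 1 + z B,  B = (l1^2 - 1) + z ((l1^2-2) B - A)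
  have hBz : z * B = A - 1 := by rw [e0]; ring
  have : A = 1 + z * ((l 1 ^ 2 - 1) + z * ((l 1 ^ 2 - 2) * B - A)) := by
    rw [← e1]; exact e0
  linear_combination this + z * (l 1 ^ 2 - 2) * hBz

lemma df_closedR {l : ℕ → ℝ} (hl : df_Loc l) {z : ℂ} (hz : ‖z‖ ≤ 1 / 3) :
    dfR l z * (1 - z) = dfA l z := by
  have e0 := df_head (a := fun k => ((l k ^ 2 : ℝ) : ℂ)) (z := z) (by simpa using df_sumR hl hz 0)
  have e1 := df_head (a := fun k => (l (2 * k) : ℂ)) (z := z) (by simpa using df_sumA hl hz 0)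
  have s0 : Summable (fun k : ℕ => ((l k ^ 2 : ℝ) : ℂ) * z ^ k) := by simpa using df_sumR hl hz 0
  have s1 := df_sumR hl hz 1
  have h2 : ∑' k : ℕ, (l (2 * (k + 1)) : ℂ) * z ^ k =
      ∑' k : ℕ, ((l (k + 1) ^ 2 : ℝ) : ℂ) * z ^ k - ∑' k : ℕ, ((l k ^ 2 : ℝ) : ℂ) * z ^ k := by
    rw [← s1.tsum_sub s0]
    refine tsum_congr (fun k => ?_)
    rw [df_sq hl k]
    push_cast
    ring
  rw [h2] at e1
  unfold dfR dfA
  rw [e1]
  simp only [mul_zero, hl.zero] at e0 ⊢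
  push_cast at e0 ⊢
  linear_combination e0

lemma df_lowA {l : ℕ → ℝ} (hl : df_Loc l) {z : ℂ} (hz : ‖z‖ ≤ 1 / 3) : 1 / 3 ≤ ‖dfA l z‖ := by
  have h1 := congrArg norm (df_closedA hl hz)
  rw [norm_mul] at h1
  have h2 : 2 / 3 ≤ ‖(1 : ℂ) + z‖ := by
    have := norm_sub_le (1 + z) z
    rw [add_sub_cancel_right, norm_one] at this
    linarith
  have h3 : ‖(1 : ℂ) - (l 1 ^ 2 - 2) * z + z ^ 2‖ ≤ 2 := by
    have a1 : ‖(1 : ℂ) - (l 1 ^ 2 - 2) * z + z ^ 2‖ ≤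
        ‖(1 : ℂ)‖ + ‖((l 1 : ℂ) ^ 2 - 2) * z‖ + ‖z ^ 2‖ :=
      (norm_add_le _ _).trans (add_le_add_left (norm_sub_le _ _) _)
    have a2 : ‖((l 1 : ℂ) ^ 2 - 2)‖ ≤ 2 := by
      have : ((l 1 : ℂ) ^ 2 - 2) = ((l 1 ^ 2 - 2 : ℝ) : ℂ) := by push_cast; ring
      rw [this, norm_real, Real.norm_eq_abs, abs_le]
      have := df_one_sq hl
      constructor <;> nlinarith [sq_nonneg (l 1)]
    rw [norm_one, norm_mul, norm_pow] at a1
    have a3 : ‖((l 1 : ℂ) ^ 2 - 2)‖ * ‖z‖ ≤ 2 * (1 / 3) :=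
      mul_le_mul a2 hz (norm_nonneg _) (by norm_num)
    have a4 : ‖z‖ ^ 2 ≤ (1 / 3) ^ 2 := pow_le_pow_left₀ (norm_nonneg _) hz 2
    linarith
  nlinarith [norm_nonneg (dfA l z)]

lemma df_lowR {l : ℕ → ℝ} (hl : df_Loc l) {z : ℂ} (hz : ‖z‖ ≤ 1 / 3) : 1 / 4 ≤ ‖dfR l z‖ := by
  have h1 := congrArg norm (df_closedR hl hz)
  rw [norm_mul] at h1
  have h2 := df_lowA hl hz
  have h3 : ‖(1 : ℂ) - z‖ ≤ 4 / 3 := by
    have := norm_sub_le 1 z
    rw [norm_one] at this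
    linarith
  nlinarith [norm_nonneg (dfR l z)]

/-- the convolution sum -/
noncomputable def dfT (l : ℕ → ℝ) (X Y : ℂ) (e : ℕ) : ℂ :=
  ∑ i ∈ range (e + 1), ((l i : ℂ) * X ^ i) * ((l (e - i) : ℂ) * Y ^ (e - i))

lemma df_normT {l : ℕ → ℝ} (hl : df_Loc l) {X Y : ℂ} {r : ℝ} (hX : ‖X‖ ≤ r) (hY : ‖Y‖ ≤ r)
    (e : ℕ) : ‖dfT l X Y e‖ ≤ ((e : ℝ) + 1) ^ 3 * r ^ e := by
  have hr : 0 ≤ r := (norm_nonneg _).trans hX
  unfold dfT
  refine (norm_sum_le _ _).trans ?_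
  have h1 : ∀ i ∈ range (e + 1), ‖((l i : ℂ) * X ^ i) * ((l (e - i) : ℂ) * Y ^ (e - i))‖ ≤
      ((e : ℝ) + 1) ^ 2 * r ^ e := by
    intro i hi
    rw [Finset.mem_range] at hi
    have hie : i ≤ e := by omega
    rw [norm_mul, norm_mul, norm_mul, norm_pow, norm_pow, norm_real, norm_real, Real.norm_eq_abs,
      Real.norm_eq_abs]
    have b1 : |l i| ≤ (e : ℝ) + 1 := by
      have := hl.bound i
      have h2 : (i : ℝ) ≤ e := by exact_mod_cast hie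
      linarith
    have b2 : |l (e - i)| ≤ (e : ℝ) + 1 := by
      have := hl.bound (e - i)
      have h2 : ((e - i : ℕ) : ℝ) ≤ e := by exact_mod_cast Nat.sub_le e i
      linarith
    have b3 : ‖X‖ ^ i ≤ r ^ i := pow_le_pow_left₀ (norm_nonneg _) hX i
    have b4 : ‖Y‖ ^ (e - i) ≤ r ^ (e - i) := pow_le_pow_left₀ (norm_nonneg _) hY (e - i)
    calc |l i| * ‖X‖ ^ i * (|l (e - i)| * ‖Y‖ ^ (e - i)) ≤
        (((e : ℝ) + 1) * r ^ i) * (((e : ℝ) + 1) * r ^ (e - i)) := by gcongr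
      _ = ((e : ℝ) + 1) ^ 2 * r ^ (i + (e - i)) := by rw [pow_add]; ring
      _ = _ := by rw [Nat.add_sub_cancel' hie]
  refine (Finset.sum_le_sum h1).trans (le_of_eq ?_)
  rw [Finset.sum_const, Finset.card_range, nsmul_eq_mul]
  push_cast
  ring

/-- density of the squares -/
noncomputable def dfh (P : ℝ) (e : ℕ) : ℂ :=
  if e = 0 then 1 else if Even e then ((1 - 1 / P : ℝ) : ℂ) else 0

lemma norm_dfh_le {P : ℝ} (hP : 1 ≤ P) (e : ℕ) : ‖dfh P e‖ ≤ 1 := by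
  unfold dfh
  have h1 : 0 ≤ 1 - 1 / P := by
    rw [sub_nonneg, div_le_one (by linarith)]; exact hP
  have h2 : 0 ≤ 1 / P := by positivity
  split_ifs
  · simp
  · rw [norm_real, Real.norm_of_nonneg h1]; linarith
  · simp

lemma dfT_zero {l : ℕ → ℝ} (hl : df_Loc l) (X Y : ℂ) : dfT l X Y 0 = 1 := by
  simp [dfT, hl.zero]

lemma dfT_two {l : ℕ → ℝ} (hl : df_Loc l) (X Y : ℂ) :
    dfT l X Y 2 = l 2 * X ^ 2 + l 1 ^ 2 * (X * Y) + l 2 * Y ^ 2 := by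
  simp [dfT, Finset.sum_range_succ, hl.zero]
  ring

lemma df_root {P : ℝ} (hP : 3 ≤ P) : 0 < Real.sqrt (1 / P) ∧ Real.sqrt (1 / P) ≤ Real.sqrt (1 / 3) ∧
    Real.sqrt (1 / P) ^ 2 = 1 / P := by
  refine ⟨Real.sqrt_pos.2 (by positivity), Real.sqrt_le_sqrt ?_, Real.sq_sqrt (by positivity)⟩
  exact one_div_le_one_div_of_le (by norm_num) hP

lemma df_third : 0 < Real.sqrt (1 / 3) ∧ Real.sqrt (1 / 3) < 1 := by
  refine ⟨Real.sqrt_pos.2 (by norm_num), ?_⟩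
  rw [Real.sqrt_lt' (by norm_num)]
  norm_num

/-- constant of the tail of the diagonal series -/
noncomputable def dfD : ℝ := ∑' k : ℕ, ((k : ℝ) + 5) ^ 3 * Real.sqrt (1 / 3) ^ k

lemma dfD_nonneg : 0 ≤ dfD := tsum_nonneg (fun k => by positivity)

lemma df_sumF {l : ℕ → ℝ} (hl : df_Loc l) {P : ℝ} (hP : 3 ≤ P) {X Y : ℂ}
    (hX : ‖X‖ ≤ Real.sqrt (1 / P)) (hY : ‖Y‖ ≤ Real.sqrt (1 / P)) :
    Summable (fun e : ℕ => dfh P e * dfT l X Y e) := by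
  obtain ⟨h1, h2, -⟩ := df_root hP
  refine Summable.of_norm_bounded
    (df_geo 3 1 (r := Real.sqrt (1 / P)) h1 (h2.trans_lt df_third.2)) (fun e => ?_)
  rw [norm_mul]
  have := df_normT hl hX hY e
  calc ‖dfh P e‖ * ‖dfT l X Y e‖ ≤ 1 * ‖dfT l X Y e‖ :=
        mul_le_mul_of_nonneg_right (norm_dfh_le (by linarith) e) (norm_nonneg _)
    _ ≤ _ := by rw [one_mul]; exact_mod_cast this

lemma df_expF {l : ℕ → ℝ} (hl : df_Loc l) {P : ℝ} (hP : 3 ≤ P) {X Y : ℂ}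
    (hX : ‖X‖ ≤ Real.sqrt (1 / P)) (hY : ‖Y‖ ≤ Real.sqrt (1 / P)) :
    ‖∑' e : ℕ, dfh P e * dfT l X Y e - 1 - dfT l X Y 2‖ ≤ (27 + dfD) * (1 / P) ^ 2 := by
  obtain ⟨h1, h2, h3⟩ := df_root hP
  have hs := df_sumF hl hP hX hY
  have e1 := hs.sum_add_tsum_nat_add 4
  have e2 : ∑ e ∈ range 4, dfh P e * dfT l X Y e = 1 + ((1 - 1 / P : ℝ) : ℂ) * dfT l X Y 2 := by
    have a2 : Even 2 := even_two
    have a1 : ¬ Even 1 := by decide
    have a3 : ¬ Even 3 := by decide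
    simp [Finset.sum_range_succ, dfh, dfT_zero hl, a1, a2, a3]
  rw [← e1, e2]
  have e3 : 1 + ((1 - 1 / P : ℝ) : ℂ) * dfT l X Y 2 + ∑' e, dfh P (e + 4) * dfT l X Y (e + 4) - 1 -
      dfT l X Y 2 = -(((1 / P : ℝ) : ℂ) * dfT l X Y 2) + ∑' e, dfh P (e + 4) * dfT l X Y (e + 4) := by
    push_cast
    ring
  rw [e3]
  refine (norm_add_le _ _).trans ?_
  rw [add_mul]
  refine add_le_add ?_ ?_
  · rw [norm_neg, norm_mul, norm_real, Real.norm_of_nonneg (by positivity)]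
    have := df_normT hl hX hY 2
    rw [h3] at this
    push_cast at this
    have hp : 0 < 1 / P := by positivity
    nlinarith
  · have hb : ∀ e : ℕ, ‖dfh P (e + 4) * dfT l X Y (e + 4)‖ ≤
        ((e : ℝ) + 5) ^ 3 * Real.sqrt (1 / 3) ^ e * (1 / P) ^ 2 := by
      intro e
      rw [norm_mul]
      have a1 := df_normT hl hX hY (e + 4)
      calc ‖dfh P (e + 4)‖ * ‖dfT l X Y (e + 4)‖ ≤ 1 * ‖dfT l X Y (e + 4)‖ :=
            mul_le_mul_of_nonneg_right (norm_dfh_le (by linarith) _) (norm_nonneg _)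
        _ ≤ (((e + 4 : ℕ) : ℝ) + 1) ^ 3 * Real.sqrt (1 / P) ^ (e + 4) := by rw [one_mul]; exact a1
        _ = ((e : ℝ) + 5) ^ 3 * Real.sqrt (1 / P) ^ e * (1 / P) ^ 2 := by
            rw [show (1 / P) ^ 2 = (Real.sqrt (1 / P) ^ 2) ^ 2 by rw [h3]]
            push_cast
            ring
        _ ≤ _ := by
            gcongr
    have h5 := (df_geo 3 5 df_third.1 df_third.2).mul_right ((1 / P) ^ 2)
    push_cast at h5
    have h6 := tsum_of_norm_bounded h5.hasSum hb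
    refine h6.trans (le_of_eq ?_)
    rw [tsum_mul_right]
    rfl

lemma df_prod {a b c : ℂ} {K r : ℝ} (hK : 0 ≤ K) (hr : 0 ≤ r) (hr1 : r ≤ 1) (ha : ‖a‖ ≤ K * r)
    (hb : ‖b‖ ≤ K * r) (hc : ‖c‖ ≤ K * r) :
    ‖(1 + a) * (1 + b) * (1 + c) - 1 - a - b - c‖ ≤ (3 * K ^ 2 + K ^ 3) * r ^ 2 := by
  have e : (1 + a) * (1 + b) * (1 + c) - 1 - a - b - c = a * b + b * c + a * c + a * b * c := by ring
  rw [e]
  have n1 : ‖a * b‖ ≤ (K * r) * (K * r) := by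
    rw [norm_mul]; exact mul_le_mul ha hb (norm_nonneg _) (by positivity)
  have n2 : ‖b * c‖ ≤ (K * r) * (K * r) := by
    rw [norm_mul]; exact mul_le_mul hb hc (norm_nonneg _) (by positivity)
  have n3 : ‖a * c‖ ≤ (K * r) * (K * r) := by
    rw [norm_mul]; exact mul_le_mul ha hc (norm_nonneg _) (by positivity)
  have n4 : ‖a * b * c‖ ≤ (K * r) * (K * r) * (K * r) := by
    rw [norm_mul]; exact mul_le_mul n1 hc (norm_nonneg _) (by positivity)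
  have n5 : ‖a * b + b * c + a * c + a * b * c‖ ≤ ‖a * b‖ + ‖b * c‖ + ‖a * c‖ + ‖a * b * c‖ :=
    norm_add₄_le
  have n6 : (K * r) * (K * r) * (K * r) ≤ K ^ 3 * r ^ 2 := by
    have : r ^ 3 ≤ r ^ 2 := pow_le_pow_of_le_one hr hr1 (by norm_num)
    calc (K * r) * (K * r) * (K * r) = K ^ 3 * r ^ 3 := by ring
      _ ≤ _ := by gcongr
  calc _ ≤ _ := n5
    _ ≤ (K * r) * (K * r) + (K * r) * (K * r) + (K * r) * (K * r) + K ^ 3 * r ^ 2 := by linarith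
    _ = _ := by ring

lemma df_expG {l : ℕ → ℝ} (hl : df_Loc l) {P : ℝ} (hP : 3 ≤ P) {X Y : ℂ}
    (hX : ‖X‖ ≤ Real.sqrt (1 / P)) (hY : ‖Y‖ ≤ Real.sqrt (1 / P)) :
    ‖dfA l (X ^ 2) * dfA l (Y ^ 2) * dfR l (X * Y) - 1 - dfT l X Y 2‖ ≤
      (3 * (4 + dfC) ^ 2 + (4 + dfC) ^ 3 + 3 * dfC) * (1 / P) ^ 2 := by
  obtain ⟨h1, h2, h3⟩ := df_root hP
  have hC := dfC_nonneg
  have hP0 : 0 < 1 / P := by positivity
  have hP1 : 1 / P ≤ 1 / 3 := one_div_le_one_div_of_le (by norm_num) hP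
  have nX : ‖X ^ 2‖ ≤ 1 / P := by
    rw [norm_pow, ← h3]; exact pow_le_pow_left₀ (norm_nonneg _) hX 2
  have nY : ‖Y ^ 2‖ ≤ 1 / P := by
    rw [norm_pow, ← h3]; exact pow_le_pow_left₀ (norm_nonneg _) hY 2
  have nXY : ‖X * Y‖ ≤ 1 / P := by
    rw [norm_mul, ← h3, sq]; exact mul_le_mul hX hY (norm_nonneg _) h1.le
  have gen : ∀ {z v w : ℂ}, ‖z‖ ≤ 1 / P → ‖v‖ ≤ 4 → ‖w - 1 - v * z‖ ≤ dfC * ‖z‖ ^ 2 →
      ‖w - 1‖ ≤ (4 + dfC) * (1 / P) ∧ ‖w - 1 - v * z‖ ≤ dfC * (1 / P) ^ 2 := by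
    intro z v w hz hv hw
    have a1 : dfC * ‖z‖ ^ 2 ≤ dfC * (1 / P) ^ 2 := by gcongr
    refine ⟨?_, hw.trans a1⟩
    have a2 : w - 1 = (w - 1 - v * z) + v * z := by ring
    rw [a2]
    refine (norm_add_le _ _).trans ?_
    have a3 : ‖v * z‖ ≤ 4 * (1 / P) := by
      rw [norm_mul]; exact mul_le_mul hv hz (norm_nonneg _) (by norm_num)
    have a4 : dfC * (1 / P) ^ 2 ≤ dfC * (1 / P) := by
      apply mul_le_mul_of_nonneg_left _ hC
      nlinarith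
    linarith
  have v2 : ‖((l 2 : ℝ) : ℂ)‖ ≤ 4 := by
    rw [norm_real, Real.norm_eq_abs]; linarith [df_two_le hl]
  have v1 : ‖(l 1 : ℂ) ^ 2‖ ≤ 4 := by
    rw [norm_pow, norm_real, Real.norm_eq_abs, sq_abs]; exact df_one_sq hl
  obtain ⟨gx, gx'⟩ := gen nX v2 (df_expA hl (nX.trans hP1))
  obtain ⟨gy, gy'⟩ := gen nY v2 (df_expA hl (nY.trans hP1))
  obtain ⟨gz, gz'⟩ := gen nXY v1 (df_expR hl (nXY.trans hP1))
  have key := df_prod (a := dfA l (X ^ 2) - 1) (b := dfA l (Y ^ 2) - 1) (c := dfR l (X * Y) - 1)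
    (K := 4 + dfC) (r := 1 / P) (by positivity) hP0.le (by linarith) gx gy gz
  rw [dfT_two hl]
  have e : dfA l (X ^ 2) * dfA l (Y ^ 2) * dfR l (X * Y) - 1 -
      (l 2 * X ^ 2 + l 1 ^ 2 * (X * Y) + l 2 * Y ^ 2) =
      ((1 + (dfA l (X ^ 2) - 1)) * (1 + (dfA l (Y ^ 2) - 1)) * (1 + (dfR l (X * Y) - 1)) - 1 -
        (dfA l (X ^ 2) - 1) - (dfA l (Y ^ 2) - 1) - (dfR l (X * Y) - 1)) +
      (dfA l (X ^ 2) - 1 - l 2 * X ^ 2) + (dfA l (Y ^ 2) - 1 - l 2 * Y ^ 2) +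
      (dfR l (X * Y) - 1 - l 1 ^ 2 * (X * Y)) := by ring
  rw [e]
  refine (norm_add₄_le).trans ?_
  linarith

/-- comparison of the local factors -/
lemma df_local : ∃ C : ℝ, 0 < C ∧ ∀ (l : ℕ → ℝ) (P : ℝ) (X Y : ℂ), df_Loc l → 3 ≤ P →
    ‖X‖ ≤ Real.sqrt (1 / P) → ‖Y‖ ≤ Real.sqrt (1 / P) →
    ‖∑' e : ℕ, dfh P e * dfT l X Y e‖ ≤
      (1 + C * (1 / P) ^ 2) * ‖dfA l (X ^ 2) * dfA l (Y ^ 2) * dfR l (X * Y)‖ := by
  have hC := dfC_nonneg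
  have hD := dfD_nonneg
  refine ⟨36 * ((27 + dfD) + (3 * (4 + dfC) ^ 2 + (4 + dfC) ^ 3 + 3 * dfC)), by positivity, ?_⟩
  intro l P X Y hl hP hX hY
  obtain ⟨h1, h2, h3⟩ := df_root hP
  have hP0 : 0 < 1 / P := by positivity
  have hP1 : 1 / P ≤ 1 / 3 := one_div_le_one_div_of_le (by norm_num) hP
  have nX : ‖X ^ 2‖ ≤ 1 / 3 := by
    rw [norm_pow]
    refine le_trans ?_ hP1
    rw [← h3]; exact pow_le_pow_left₀ (norm_nonneg _) hX 2
  have nY : ‖Y ^ 2‖ ≤ 1 / 3 := by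
    rw [norm_pow]
    refine le_trans ?_ hP1
    rw [← h3]; exact pow_le_pow_left₀ (norm_nonneg _) hY 2
  have nXY : ‖X * Y‖ ≤ 1 / 3 := by
    rw [norm_mul]
    refine le_trans ?_ hP1
    rw [← h3, sq]; exact mul_le_mul hX hY (norm_nonneg _) h1.le
  have low : 1 / 36 ≤ ‖dfA l (X ^ 2) * dfA l (Y ^ 2) * dfR l (X * Y)‖ := by
    rw [norm_mul, norm_mul]
    have a1 := df_lowA hl nX
    have a2 := df_lowA hl nY
    have a3 := df_lowR hl nXY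
    calc (1 : ℝ) / 36 = 1 / 3 * (1 / 3) * (1 / 4) := by norm_num
      _ ≤ _ := by gcongr
  have eF := df_expF hl hP hX hY
  have eG := df_expG hl hP hX hY
  set F := ∑' e : ℕ, dfh P e * dfT l X Y e
  set G := dfA l (X ^ 2) * dfA l (Y ^ 2) * dfR l (X * Y)
  have e1 : F = (F - 1 - dfT l X Y 2) - (G - 1 - dfT l X Y 2) + G := by ring
  have e2 : ‖F‖ ≤ ‖F - 1 - dfT l X Y 2‖ + ‖G - 1 - dfT l X Y 2‖ + ‖G‖ := by
    conv_lhs => rw [e1]
    exact (norm_add_le _ _).trans (add_le_add_left (norm_sub_le _ _) _)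
  set K := (27 + dfD) + (3 * (4 + dfC) ^ 2 + (4 + dfC) ^ 3 + 3 * dfC)
  have hK : 0 ≤ K := by positivity
  have e3 : ‖F - 1 - dfT l X Y 2‖ + ‖G - 1 - dfT l X Y 2‖ ≤ K * (1 / P) ^ 2 := by
    have : K * (1 / P) ^ 2 = (27 + dfD) * (1 / P) ^ 2 +
      (3 * (4 + dfC) ^ 2 + (4 + dfC) ^ 3 + 3 * dfC) * (1 / P) ^ 2 := by ring
    linarith
  have e4 : K * (1 / P) ^ 2 ≤ 36 * K * (1 / P) ^ 2 * ‖G‖ := by
    have : 0 ≤ K * (1 / P) ^ 2 := by positivity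
    nlinarith
  calc ‖F‖ ≤ K * (1 / P) ^ 2 + ‖G‖ := by linarith
    _ ≤ (1 + 36 * K * (1 / P) ^ 2) * ‖G‖ := by linarith

/-! ### the value of `tau` at frequency zero -/

lemma df_tau_sq {r : ℕ} (hr : 0 < r) : tau 0 (r * r) = (Nat.totient (r * r) : ℂ) := by
  unfold tau
  rw [Nat.totient_eq_card_coprime, Finset.card_filter, Nat.cast_sum]
  refine Finset.sum_congr rfl (fun x _ => ?_)
  have : NeZero r := ⟨hr.ne'⟩
  rw [jacobiSym.mul_right]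
  by_cases h : r.Coprime x
  · have h1 : (x : ℤ).gcd (r : ℤ) = 1 := by
      rw [Int.gcd_natCast_natCast]
      exact h.symm
    have h2 := jacobiSym.sq_one h1
    have h3 : (r * r).Coprime x := Nat.Coprime.mul_left h h
    rw [if_pos h3, ← sq, h2]
    simp
  · have h1 : ¬ (r * r).Coprime x := fun h' => h (Nat.Coprime.coprime_mul_right h')
    have h2 : jacobiSym (x : ℤ) r = 0 := by
      rw [jacobiSym.eq_zero_iff_not_coprime, Int.gcd_natCast_natCast]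
      exact fun h' => h (Nat.Coprime.symm h')
    rw [if_neg h1, h2]
    simp

open Classical in
/-- density of the squares, as an arithmetic function -/
noncomputable def dfH : ArithmeticFunction ℂ :=
  ⟨fun n => if IsSquare n then ((Nat.totient n : ℝ) / n : ℝ) else 0, by simp⟩

open Classical in
lemma dfH_apply (n : ℕ) : dfH n = if IsSquare n then (((Nat.totient n : ℝ) / n : ℝ) : ℂ) else 0 := rfl

lemma df_tau {m : ℕ} (hm : Odd m) : tau 0 m / m = dfH m := by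
  classical
  rw [dfH_apply]
  split_ifs with h
  · obtain ⟨r, rfl⟩ := h
    have hr : 0 < r := by
      rcases Nat.eq_zero_or_pos r with h | h
      · subst h; simp at hm
      · exact h
    rw [df_tau_sq hr]
    push_cast
    rfl
  · rw [Pool.Agent.ZD.tau_zero_not_square hm h, zero_div]

lemma dfH_mult : dfH.IsMultiplicative := by
  classical
  refine ⟨by rw [dfH_apply]; simp, fun {m n} h => ?_⟩
  rw [dfH_apply, dfH_apply, dfH_apply]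
  by_cases hm : IsSquare m <;> by_cases hn : IsSquare n <;>
    simp only [Inp.IDN.isSquare_mul_iff h, hm, hn, and_self, and_true, and_false, if_true, if_false,
      mul_zero, zero_mul]
  rw [Nat.totient_mul h, ← Complex.ofReal_mul]
  congr 1
  push_cast
  rw [mul_div_mul_comm]

lemma norm_dfH_le (n : ℕ) : ‖dfH n‖ ≤ 1 := by
  classical
  rw [dfH_apply]
  split_ifs
  · rw [norm_real, Real.norm_of_nonneg (by positivity)]
    apply div_le_one_of_le₀ _ (Nat.cast_nonneg n)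
    exact_mod_cast Nat.totient_le n
  · simp

lemma dfH_pow {p : ℕ} (hp : p.Prime) (e : ℕ) : dfH (p ^ e) = dfh p e := by
  classical
  rw [dfH_apply, dfh]
  simp only [Inp.IDN.isSquare_prime_pow hp]
  by_cases he : e = 0
  · subst he; simp
  · rw [if_neg he]
    split_ifs with h
    · congr 1
      rw [Nat.totient_prime_pow hp (Nat.pos_of_ne_zero he)]
      obtain ⟨k, rfl⟩ : ∃ k, e = k + 1 := ⟨e - 1, by omega⟩
      have hp0 : (p : ℝ) ≠ 0 := by exact_mod_cast hp.ne_zero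
      rw [Nat.add_sub_cancel]
      push_cast [Nat.cast_sub hp.one_le]
      field_simp
      ring
    · rfl

/-! ### powers and twisted coefficients -/

/-- `n^{-w}` as an arithmetic function -/
noncomputable def dfP (w : ℂ) : ArithmeticFunction ℂ :=
  ⟨fun n => if n = 0 then 0 else (n : ℂ) ^ (-w), by simp⟩

lemma dfP_apply (w : ℂ) {n : ℕ} (hn : n ≠ 0) : dfP w n = (n : ℂ) ^ (-w) := if_neg hn

lemma dfP_mult (w : ℂ) : (dfP w).IsMultiplicative := by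
  refine ⟨by rw [dfP_apply w one_ne_zero]; simp, fun {m n} _ => ?_⟩
  rcases eq_or_ne m 0 with rfl | hm
  · simp
  rcases eq_or_ne n 0 with rfl | hn
  · simp
  rw [dfP_apply w hm, dfP_apply w hn, dfP_apply w (mul_ne_zero hm hn), Nat.cast_mul,
    Complex.natCast_mul_natCast_cpow]

lemma dfP_pow (w : ℂ) {p : ℕ} (hp : p.Prime) (e : ℕ) : dfP w (p ^ e) = ((p : ℂ) ^ (-w)) ^ e := by
  rw [dfP_apply w (pow_ne_zero _ hp.ne_zero), Nat.cast_pow, ← Complex.natCast_cpow_natCast_mul,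
    ← Complex.cpow_nat_mul, mul_comm]

/-- `lam` as an arithmetic function -/
noncomputable def dfL : ArithmeticFunction ℂ := ⟨fun n => (lam n : ℂ), by simp [Inp.lam_zero]⟩

lemma dfL_mult : dfL.IsMultiplicative := by
  refine ⟨?_, fun {m n} h => ?_⟩
  · change (lam 1 : ℂ) = 1
    rw [Inp.lam_one]; simp
  · change (lam (m * n) : ℂ) = (lam m : ℂ) * (lam n : ℂ)
    rw [Inp.lam_mul h]
    push_cast
    rfl

/-- `lam n n^{-w}` -/
noncomputable def dfU (w : ℂ) : ArithmeticFunction ℂ := dfL.pmul (dfP w)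

lemma dfU_mult (w : ℂ) : (dfU w).IsMultiplicative := dfL_mult.pmul (dfP_mult w)

lemma dfU_apply (w : ℂ) {n : ℕ} (hn : n ≠ 0) : dfU w n = (lam n : ℂ) * (n : ℂ) ^ (-w) := by
  rw [dfU, ArithmeticFunction.pmul_apply, dfP_apply w hn]
  rfl

lemma dfU_pow (w : ℂ) {p : ℕ} (hp : p.Prime) (e : ℕ) :
    dfU w (p ^ e) = (lam (p ^ e) : ℂ) * ((p : ℂ) ^ (-w)) ^ e := by
  rw [dfU, ArithmeticFunction.pmul_apply, dfP_pow w hp]
  rfl

/-- the diagonal function -/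
noncomputable def dfF (w₁ w₂ : ℂ) : ArithmeticFunction ℂ := dfH.pmul (dfU w₁ * dfU w₂)

lemma dfF_mult (w₁ w₂ : ℂ) : (dfF w₁ w₂).IsMultiplicative :=
  dfH_mult.pmul ((dfU_mult w₁).mul (dfU_mult w₂))

lemma dfF_pow (w₁ w₂ : ℂ) {p : ℕ} (hp : p.Prime) (e : ℕ) :
    dfF w₁ w₂ (p ^ e) = dfh p e * dfT (fun k => lam (p ^ k)) ((p : ℂ) ^ (-w₁)) ((p : ℂ) ^ (-w₂)) e := by
  rw [dfF, ArithmeticFunction.pmul_apply, dfH_pow hp, Inp.IDN.mul_prime_pow _ _ hp]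
  congr 1
  unfold dfT
  refine Finset.sum_congr rfl (fun i _ => ?_)
  rw [dfU_pow w₁ hp, dfU_pow w₂ hp]

/-! ### the terms of the double series -/

/-- the term -/
noncomputable def dft (w₁ w₂ : ℂ) (n : ℕ × ℕ) : ℂ :=
  gk 0 n.1 n.2 * ((Real.sqrt (n.1 * n.2 : ℕ) : ℝ) : ℂ)⁻¹ *
      ((n.1 : ℂ) ^ (-(1 / 2 + w₁)) * (n.2 : ℂ) ^ (-(1 / 2 + w₂)))

lemma df_c_even {n : ℕ} (hn : ¬ Odd n) : c n = 0 := by
  rw [Nat.not_odd_iff_even, Nat.even_iff] at hn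
  unfold Pool.Agent.H5.c
  rw [Pool.Agent.H5.C_of_even hn, Zsqrtd.re_zero]

lemma df_lam_even {n : ℕ} (hn : ¬ Odd n) : lam n = 0 := by
  unfold Inp.lam
  rw [df_c_even hn]
  simp

lemma dft_eq (w₁ w₂ : ℂ) (n : ℕ × ℕ) : dft w₁ w₂ n = dfH (n.1 * n.2) * (dfU w₁ n.1 * dfU w₂ n.2) := by
  obtain ⟨a, b⟩ := n
  by_cases ha : Odd a
  swap
  · have h1 : dfU w₁ a = 0 := by
      rw [dfU, ArithmeticFunction.pmul_apply]
      have : dfL a = 0 := by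
        change (lam a : ℂ) = 0
        rw [df_lam_even ha]; simp
      rw [this, zero_mul]
    unfold dft gk
    simp [h1, df_c_even ha]
  by_cases hb : Odd b
  swap
  · have h1 : dfU w₂ b = 0 := by
      rw [dfU, ArithmeticFunction.pmul_apply]
      have : dfL b = 0 := by
        change (lam b : ℂ) = 0
        rw [df_lam_even hb]; simp
      rw [this, zero_mul]
    unfold dft gk
    simp [h1, df_c_even hb]
  have ha0 : a ≠ 0 := by rintro rfl; simp at ha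
  have hb0 : b ≠ 0 := by rintro rfl; simp at hb
  have ha' : (0 : ℝ) < a := by exact_mod_cast Nat.pos_of_ne_zero ha0
  have hb' : (0 : ℝ) < b := by exact_mod_cast Nat.pos_of_ne_zero hb0
  have hsa : (0 : ℝ) < Real.sqrt a := Real.sqrt_pos.2 ha'
  have hsb : (0 : ℝ) < Real.sqrt b := Real.sqrt_pos.2 hb'
  have hca : (a : ℂ) ≠ 0 := by exact_mod_cast ha0
  have hcb : (b : ℂ) ≠ 0 := by exact_mod_cast hb0
  simp only [dft, gk]
  rw [dfU_apply w₁ ha0, dfU_apply w₂ hb0, ← df_tau (ha.mul hb)]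
  have e1 : (a : ℂ) ^ (-(1 / 2 + w₁)) = ((Real.sqrt a : ℝ) : ℂ)⁻¹ * (a : ℂ) ^ (-w₁) := by
    rw [neg_add, Complex.cpow_add _ _ hca]
    congr 1
    rw [Complex.cpow_neg, Real.sqrt_eq_rpow, Complex.ofReal_cpow ha'.le]
    push_cast
    rfl
  have e2 : (b : ℂ) ^ (-(1 / 2 + w₂)) = ((Real.sqrt b : ℝ) : ℂ)⁻¹ * (b : ℂ) ^ (-w₂) := by
    rw [neg_add, Complex.cpow_add _ _ hcb]
    congr 1
    rw [Complex.cpow_neg, Real.sqrt_eq_rpow, Complex.ofReal_cpow hb'.le]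
    push_cast
    rfl
  rw [e1, e2]
  unfold Inp.lam
  have e3 : (((Real.sqrt (a * b : ℕ)) : ℝ) : ℂ) = ((Real.sqrt a : ℝ) : ℂ) * ((Real.sqrt b : ℝ) : ℂ) := by
    rw [Nat.cast_mul, Real.sqrt_mul ha'.le]
    push_cast
    rfl
  rw [e3]
  have e4 : (a : ℂ) = ((Real.sqrt a : ℝ) : ℂ) ^ 2 := by
    rw [← Complex.ofReal_pow, Real.sq_sqrt ha'.le]
    simp
  have e5 : (b : ℂ) = ((Real.sqrt b : ℝ) : ℂ) ^ 2 := by
    rw [← Complex.ofReal_pow, Real.sq_sqrt hb'.le]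
    simp
  have hsa' : ((Real.sqrt a : ℝ) : ℂ) ≠ 0 := by exact_mod_cast hsa.ne'
  have hsb' : ((Real.sqrt b : ℝ) : ℂ) ≠ 0 := by exact_mod_cast hsb.ne'
  have e6 : ((a * b : ℕ) : ℂ) = ((Real.sqrt a : ℝ) : ℂ) ^ 2 * ((Real.sqrt b : ℝ) : ℂ) ^ 2 := by
    rw [← e4, ← e5]
    push_cast
    rfl
  rw [e6]
  push_cast
  generalize (a : ℂ) ^ (-w₁) = A
  generalize (b : ℂ) ^ (-w₂) = B
  generalize ((Real.sqrt a : ℝ) : ℂ) = u at *
  generalize ((Real.sqrt b : ℝ) : ℂ) = v at *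
  field_simp

/-- summability of the terms -/
lemma dft_summable {w₁ w₂ : ℂ} (h1 : 1 / 2 < w₁.re) (h1' : w₁.re ≤ 3 / 2) (h2 : 1 / 2 < w₂.re) :
    Summable (fun n : ℕ × ℕ => ‖dft w₁ w₂ n‖) := by
  classical
  obtain ⟨C, hC⟩ := Pool.Agent.ZD.square_sum 1
  have hη : 0 < min w₁.re w₂.re - 1 / 2 := by
    have := lt_min h1 h2
    linarith
  have hη1 : min w₁.re w₂.re - 1 / 2 ≤ 1 := by
    have := min_le_left w₁.re w₂.re
    linarith
  have hs := (hC _ hη hη1).1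
  refine Summable.of_nonneg_of_le (fun _ => norm_nonneg _) (fun n => ?_) hs
  obtain ⟨a, b⟩ := n
  rw [dft_eq]
  simp only
  by_cases hab : a = 0 ∨ b = 0
  · have : dfH (a * b) = 0 := by
      rcases hab with rfl | rfl <;> simp
    rw [this, zero_mul, norm_zero]
    split_ifs <;> positivity
  · rw [not_or] at hab
    obtain ⟨ha0, hb0⟩ := hab
    by_cases hsq : IsSquare (a * b)
    swap
    · rw [dfH_apply, if_neg hsq, zero_mul, norm_zero, if_neg hsq]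
    rw [if_pos hsq, dfU_apply w₁ ha0, dfU_apply w₂ hb0, norm_mul, norm_mul, norm_mul, norm_mul,
      norm_real, norm_real, Real.norm_eq_abs, Real.norm_eq_abs,
      Complex.norm_natCast_cpow_of_pos (Nat.pos_of_ne_zero ha0),
      Complex.norm_natCast_cpow_of_pos (Nat.pos_of_ne_zero hb0)]
    have l1 := Inp.abs_lam_le a
    have l2 := Inp.abs_lam_le b
    have ha1 : (1 : ℝ) ≤ a := by exact_mod_cast Nat.pos_of_ne_zero ha0
    have hb1 : (1 : ℝ) ≤ b := by exact_mod_cast Nat.pos_of_ne_zero hb0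
    have p1 : (a : ℝ) ^ ((-w₁).re) ≤ (a : ℝ) ^ (-(1 / 2 + (min w₁.re w₂.re - 1 / 2))) := by
      apply Real.rpow_le_rpow_of_exponent_le ha1
      rw [neg_re]
      have := min_le_left w₁.re w₂.re
      linarith
    have p2 : (b : ℝ) ^ ((-w₂).re) ≤ (b : ℝ) ^ (-(1 / 2 + (min w₁.re w₂.re - 1 / 2))) := by
      apply Real.rpow_le_rpow_of_exponent_le hb1
      rw [neg_re]
      have := min_le_right w₁.re w₂.re
      linarith
    have hH := norm_dfH_le (a * b)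
    calc ‖dfH (a * b)‖ * (|lam a| * (a : ℝ) ^ ((-w₁).re) * (|lam b| * (b : ℝ) ^ ((-w₂).re)))
        ≤ 1 * ((a.divisors.card : ℝ) * (a : ℝ) ^ (-(1 / 2 + (min w₁.re w₂.re - 1 / 2))) *
          ((b.divisors.card : ℝ) * (b : ℝ) ^ (-(1 / 2 + (min w₁.re w₂.re - 1 / 2))))) := by
          gcongr
      _ = _ := by
          push_cast
          rw [Real.mul_rpow (by positivity) (by positivity)]
          ring

lemma df_fibre (a : ℕ × ℕ → ℂ) {n : ℕ} (hn : n ≠ 0) :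
    ∑' x : (fun p : ℕ × ℕ => p.1 * p.2) ⁻¹' {n}, a x = ∑ x ∈ n.divisorsAntidiagonal, a x := by
  have h : (fun p : ℕ × ℕ => p.1 * p.2) ⁻¹' {n} = (↑(n.divisorsAntidiagonal) : Set (ℕ × ℕ)) := by
    ext x
    simp [hn]
  rw [h, Finset.tsum_subtype']

lemma df_fibre_real (a : ℕ × ℕ → ℝ) {n : ℕ} (hn : n ≠ 0) :
    ∑' x : (fun p : ℕ × ℕ => p.1 * p.2) ⁻¹' {n}, a x = ∑ x ∈ n.divisorsAntidiagonal, a x := by
  have h : (fun p : ℕ × ℕ => p.1 * p.2) ⁻¹' {n} = (↑(n.divisorsAntidiagonal) : Set (ℕ × ℕ)) := by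
    ext x
    simp [hn]
  rw [h, Finset.tsum_subtype']

lemma dfF_eq (w₁ w₂ : ℂ) (n : ℕ) :
    dfF w₁ w₂ n = ∑ x ∈ n.divisorsAntidiagonal, dft w₁ w₂ x := by
  rw [dfF, ArithmeticFunction.pmul_apply, ArithmeticFunction.mul_apply, Finset.mul_sum]
  refine Finset.sum_congr rfl (fun x hx => ?_)
  rw [dft_eq, (Nat.mem_divisorsAntidiagonal.1 hx).1]

lemma dft_zero (w₁ w₂ : ℂ) {x : ℕ × ℕ} (hx : x.1 * x.2 = 0) : dft w₁ w₂ x = 0 := by
  rw [dft_eq, hx]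
  simp

lemma dfF_hasSum {w₁ w₂ : ℂ} (h1 : 1 / 2 < w₁.re) (h1' : w₁.re ≤ 3 / 2) (h2 : 1 / 2 < w₂.re) :
    Summable (fun n => ‖dfF w₁ w₂ n‖) ∧ ∑' n, dfF w₁ w₂ n = ∑' x, dft w₁ w₂ x := by
  have hs := dft_summable h1 h1' h2
  constructor
  · have h3 := (hs.hasSum.tsum_fiberwise (fun p : ℕ × ℕ => p.1 * p.2)).summable
    refine Summable.of_nonneg_of_le (fun _ => norm_nonneg _) (fun n => ?_) h3
    rcases eq_or_ne n 0 with rfl | hn
    · rw [ArithmeticFunction.map_zero, norm_zero]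
      exact tsum_nonneg (fun _ => norm_nonneg _)
    · rw [df_fibre_real (fun x => ‖dft w₁ w₂ x‖) hn, dfF_eq]
      exact norm_sum_le _ _
  · have h3 := (hs.of_norm.hasSum.tsum_fiberwise (fun p : ℕ × ℕ => p.1 * p.2)).tsum_eq
    rw [← h3]
    refine tsum_congr (fun n => ?_)
    rcases eq_or_ne n 0 with rfl | hn
    · rw [ArithmeticFunction.map_zero]
      symm
      refine (tsum_congr (fun x => ?_)).trans tsum_zero
      exact dft_zero w₁ w₂ x.2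
    · rw [df_fibre (fun x => dft w₁ w₂ x) hn, dfF_eq]

/-! ### Euler products -/

/-- `lam (n^2) n^{-w}` -/
noncomputable def dfa (w : ℂ) : ArithmeticFunction ℂ := Inp.IDN.fA.pmul (dfP w)
/-- `lam n ^ 2 n^{-w}` -/
noncomputable def dfr (w : ℂ) : ArithmeticFunction ℂ := Inp.IDN.fR.pmul (dfP w)

lemma df_term (f : ArithmeticFunction ℂ) (w : ℂ) (n : ℕ) :
    f.pmul (dfP w) n = LSeries.term (fun n => f n) w n := by
  rw [ArithmeticFunction.pmul_apply]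
  rcases eq_or_ne n 0 with rfl | hn
  · simp
  · rw [LSeries.term_of_ne_zero hn, dfP_apply w hn, Complex.cpow_neg, div_eq_mul_inv]

lemma df_euler (f : ArithmeticFunction ℂ) (hf : f.IsMultiplicative) {w : ℂ}
    (hs : LSeriesSummable (fun n => f n) w) :
    HasProd (fun p : Nat.Primes => ∑' e : ℕ, f ((p : ℕ) ^ e) * (((p : ℕ) : ℂ) ^ (-w)) ^ e)
      (LSeries (fun n => f n) w) := by
  have h1 : (f.pmul (dfP w)).IsMultiplicative := hf.pmul (dfP_mult w)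
  have h2 : Summable (fun n => ‖f.pmul (dfP w) n‖) := by
    refine (summable_norm_iff.2 hs).congr (fun n => ?_)
    rw [df_term]
  have h3 := h1.eulerProduct_hasProd h2
  have h4 : ∑' n, f.pmul (dfP w) n = LSeries (fun n => f n) w := by
    rw [LSeries]
    exact tsum_congr (fun n => df_term f w n)
  rw [h4] at h3
  have h5 : (fun p : Nat.Primes => ∑' e : ℕ, f.pmul (dfP w) ((p : ℕ) ^ e)) =
      fun p : Nat.Primes => ∑' e : ℕ, f ((p : ℕ) ^ e) * (((p : ℕ) : ℂ) ^ (-w)) ^ e := by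
    funext p
    refine tsum_congr (fun e => ?_)
    rw [ArithmeticFunction.pmul_apply, dfP_pow w p.2]
  rw [h5] at h3
  exact h3

/-! ### the local inequality -/

lemma df_loc_odd {p : ℕ} (hp : p.Prime) (h2 : p ≠ 2) : df_Loc (fun k => lam (p ^ k)) where
  zero := by simp only [pow_zero, Inp.lam_one]
  step := fun k => by
    have := Inp.lam_prime_pow hp h2 k
    simpa only [pow_one] using this
  bound := fun k => by
    refine (Inp.abs_lam_le (p ^ k)).trans (le_of_eq ?_)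
    rw [Nat.divisors_prime_pow hp, Finset.card_map, Finset.card_range]
    push_cast
    rfl

lemma df_norm_X {p : ℕ} (hp : p.Prime) {w : ℂ} (hw : 1 / 2 < w.re) :
    ‖(p : ℂ) ^ (-w)‖ ≤ Real.sqrt (1 / p) := by
  have hp1 : (1 : ℝ) ≤ p := by exact_mod_cast hp.one_le
  rw [Complex.norm_natCast_cpow_of_pos hp.pos, Real.sqrt_eq_rpow, one_div,
    Real.inv_rpow (by linarith), ← Real.rpow_neg (by linarith)]
  apply Real.rpow_le_rpow_of_exponent_le hp1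
  rw [neg_re]
  linarith

lemma df_ineq {C : ℝ} (hC : 0 < C) (hloc : ∀ (l : ℕ → ℝ) (P : ℝ) (X Y : ℂ), df_Loc l → 3 ≤ P →
    ‖X‖ ≤ Real.sqrt (1 / P) → ‖Y‖ ≤ Real.sqrt (1 / P) →
    ‖∑' e : ℕ, dfh P e * dfT l X Y e‖ ≤
      (1 + C * (1 / P) ^ 2) * ‖dfA l (X ^ 2) * dfA l (Y ^ 2) * dfR l (X * Y)‖)
    {w₁ w₂ : ℂ} (h1 : 1 / 2 < w₁.re) (h2 : 1 / 2 < w₂.re) {p : ℕ} (hp : p.Prime) :
    ‖∑' e : ℕ, dfF w₁ w₂ (p ^ e)‖ ≤ (1 + C * (1 / (p : ℝ)) ^ 2) *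
      ‖(∑' e : ℕ, Inp.IDN.fA (p ^ e) * ((p : ℂ) ^ (-(2 * w₁))) ^ e) *
        (∑' e : ℕ, Inp.IDN.fA (p ^ e) * ((p : ℂ) ^ (-(2 * w₂))) ^ e) *
        (∑' e : ℕ, Inp.IDN.fR (p ^ e) * ((p : ℂ) ^ (-(w₁ + w₂))) ^ e)‖ := by
  have hpc : (p : ℂ) ≠ 0 := by exact_mod_cast hp.ne_zero
  have eF : ∑' e : ℕ, dfF w₁ w₂ (p ^ e) =
      ∑' e : ℕ, dfh p e * dfT (fun k => lam (p ^ k)) ((p : ℂ) ^ (-w₁)) ((p : ℂ) ^ (-w₂)) e :=
    tsum_congr (fun e => dfF_pow w₁ w₂ hp e)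
  have eA : ∀ w : ℂ, ∑' e : ℕ, Inp.IDN.fA (p ^ e) * ((p : ℂ) ^ (-(2 * w))) ^ e =
      dfA (fun k => lam (p ^ k)) (((p : ℂ) ^ (-w)) ^ 2) := by
    intro w
    unfold dfA
    refine tsum_congr (fun e => ?_)
    have h3 : (p : ℂ) ^ (-(2 * w)) = ((p : ℂ) ^ (-w)) ^ 2 := by
      rw [← Complex.cpow_nat_mul]
      congr 1
      push_cast
      ring
    rw [Inp.IDN.fA_apply, h3, ← pow_mul p, mul_comm e 2]
  have eR : ∑' e : ℕ, Inp.IDN.fR (p ^ e) * ((p : ℂ) ^ (-(w₁ + w₂))) ^ e =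
      dfR (fun k => lam (p ^ k)) ((p : ℂ) ^ (-w₁) * (p : ℂ) ^ (-w₂)) := by
    unfold dfR
    refine tsum_congr (fun e => ?_)
    rw [Inp.IDN.fR_apply, neg_add, Complex.cpow_add _ _ hpc]
  rw [eF, eA, eA, eR]
  by_cases hp2 : p = 2
  · subst hp2
    have hz : ∀ k : ℕ, k ≠ 0 → lam (2 ^ k) = 0 := fun k hk =>
      Inp.lam_two_pow k (Nat.pos_of_ne_zero hk)
    have f1 : ∀ X Y : ℂ, ∑' e : ℕ, dfh (2 : ℕ) e * dfT (fun k => lam (2 ^ k)) X Y e = 1 := by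
      intro X Y
      rw [tsum_eq_single 0]
      · simp [dfT, dfh, Inp.lam_one]
      · intro e he
        have : dfT (fun k => lam (2 ^ k)) X Y e = 0 := by
          unfold dfT
          refine Finset.sum_eq_zero (fun i hi => ?_)
          rcases Nat.eq_zero_or_pos i with h | h
          · subst h
            simp [hz e he]
          · simp [hz i h.ne']
        rw [this, mul_zero]
    have f2 : ∀ z : ℂ, dfA (fun k => lam (2 ^ k)) z = 1 := by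
      intro z
      unfold dfA
      rw [tsum_eq_single 0]
      · simp [Inp.lam_one]
      · intro e he
        simp [hz (2 * e) (by omega)]
    have f3 : ∀ z : ℂ, dfR (fun k => lam (2 ^ k)) z = 1 := by
      intro z
      unfold dfR
      rw [tsum_eq_single 0]
      · simp [Inp.lam_one]
      · intro e he
        simp [hz e he]
    rw [f1, f2, f2, f3, mul_one, mul_one, norm_one, mul_one]
    have : 0 ≤ C * (1 / ((2 : ℕ) : ℝ)) ^ 2 := by positivity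
    linarith
  · have hp3 : (3 : ℝ) ≤ p := by
      have := hp.two_le
      have : 3 ≤ p := by omega
      exact_mod_cast this
    exact hloc _ p _ _ (df_loc_odd hp hp2) hp3 (df_norm_X hp h1) (df_norm_X hp h2)

lemma df_sum_primes (C : ℝ) : Summable (fun p : Nat.Primes => C * (1 / ((p : ℕ) : ℝ)) ^ 2) := by
  have h : Summable (fun n : ℕ => C * (1 / (n : ℝ)) ^ 2) := by
    refine (Summable.mul_left C (Real.summable_one_div_nat_pow.2 one_lt_two)).congr (fun n => ?_)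
    rw [div_pow, one_pow]
  exact h.subtype _

/-- the diagonal double series -/
theorem DF_le : ∃ C : ℝ, 0 < C ∧ ∀ w₁ w₂ : ℂ, 1 / 2 < w₁.re → w₁.re ≤ 3 / 2 → 1 / 2 < w₂.re →
    w₂.re ≤ 3 / 2 →
    Summable (fun n : ℕ × ℕ => ‖gk 0 n.1 n.2 * ((Real.sqrt (n.1 * n.2 : ℕ) : ℝ) : ℂ)⁻¹ *
      ((n.1 : ℂ) ^ (-(1 / 2 + w₁)) * (n.2 : ℂ) ^ (-(1 / 2 + w₂)))‖) ∧
    ‖∑' n : ℕ × ℕ, gk 0 n.1 n.2 * ((Real.sqrt (n.1 * n.2 : ℕ) : ℝ) : ℂ)⁻¹ *
      ((n.1 : ℂ) ^ (-(1 / 2 + w₁)) * (n.2 : ℂ) ^ (-(1 / 2 + w₂)))‖ ≤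
      C * (‖A2 (2 * w₁)‖ * ‖A2 (2 * w₂)‖ * ‖R1 (w₁ + w₂) / (w₁ + w₂ - 1)‖) := by
  obtain ⟨C, hC, hloc⟩ := df_local
  refine ⟨Real.exp (∑' p : Nat.Primes, C * (1 / ((p : ℕ) : ℝ)) ^ 2), Real.exp_pos _, ?_⟩
  intro w₁ w₂ h1 h1' h2 _
  refine ⟨dft_summable h1 h1' h2, ?_⟩
  obtain ⟨hs, he⟩ := dfF_hasSum h1 h1' h2
  change ‖∑' n, dft w₁ w₂ n‖ ≤ _
  rw [← he]
  have hF := (dfF_mult w₁ w₂).eulerProduct_hasProd hs
  obtain ⟨sA1, eA1⟩ := Inp.A2_eq (w := 2 * w₁) (by simp; linarith)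
  obtain ⟨sA2, eA2⟩ := Inp.A2_eq (w := 2 * w₂) (by simp; linarith)
  obtain ⟨sR, eR⟩ := Inp.R1_eq (w := w₁ + w₂) (by rw [add_re]; linarith)
  have hne : w₁ + w₂ - 1 ≠ 0 := by
    intro h
    have := congrArg Complex.re h
    rw [sub_re, add_re, one_re, zero_re] at this
    linarith
  have hA1 := df_euler Inp.IDN.fA Inp.IDN.mult_A (w := 2 * w₁) sA1
  have hA2 := df_euler Inp.IDN.fA Inp.IDN.mult_A (w := 2 * w₂) sA2
  have hR := df_euler Inp.IDN.fR Inp.IDN.mult_R (w := w₁ + w₂) sR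
  have hG := (hA1.mul hA2).mul hR
  have eG : LSeries (fun n => Inp.IDN.fA n) (2 * w₁) * LSeries (fun n => Inp.IDN.fA n) (2 * w₂) *
      LSeries (fun n => Inp.IDN.fR n) (w₁ + w₂) =
      A2 (2 * w₁) * A2 (2 * w₂) * (R1 (w₁ + w₂) / (w₁ + w₂ - 1)) := by
    rw [eA1, eA2, eR, mul_div_cancel_left₀ _ hne]
    rfl
  rw [eG] at hG
  rw [← norm_mul, ← norm_mul]
  refine le_of_tendsto_of_tendsto' hF.norm (hG.norm.const_mul _) (fun s => ?_)
  have q1 : ∏ p ∈ s, ‖∑' e : ℕ, dfF w₁ w₂ ((p : ℕ) ^ e)‖ ≤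
      ∏ p ∈ s, ((1 + C * (1 / ((p : ℕ) : ℝ)) ^ 2) *
      ‖(∑' e : ℕ, Inp.IDN.fA ((p : ℕ) ^ e) * (((p : ℕ) : ℂ) ^ (-(2 * w₁))) ^ e) *
        (∑' e : ℕ, Inp.IDN.fA ((p : ℕ) ^ e) * (((p : ℕ) : ℂ) ^ (-(2 * w₂))) ^ e) *
        (∑' e : ℕ, Inp.IDN.fR ((p : ℕ) ^ e) * (((p : ℕ) : ℂ) ^ (-(w₁ + w₂))) ^ e)‖) :=
    Finset.prod_le_prod (fun p _ => norm_nonneg _) (fun p _ => df_ineq hC hloc h1 h2 p.2)
  refine q1.trans ?_
  rw [Finset.prod_mul_distrib]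
  refine mul_le_mul_of_nonneg_right ?_ (Finset.prod_nonneg (fun _ _ => norm_nonneg _))
  have q2 : ∏ p ∈ s, (1 + C * (1 / ((p : ℕ) : ℝ)) ^ 2) ≤
      ∏ p ∈ s, Real.exp (C * (1 / ((p : ℕ) : ℝ)) ^ 2) := by
    refine Finset.prod_le_prod (fun p _ => by positivity) (fun p _ => ?_)
    have := Real.add_one_le_exp (C * (1 / ((p : ℕ) : ℝ)) ^ 2)
    linarith
  refine q2.trans ?_
  rw [← Real.exp_sum]
  apply Real.exp_le_exp.2
  exact (df_sum_primes C).sum_le_tsum s (fun p _ => by positivity)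

end Pool.Agent.CZ
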