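import Mathlib
import Pool.Agent.CZ.Defs
import Pool.Agent.CZ.IDF
import Pool.Agent.ZD.K2

/-!
# Critical zeros (MP_553913_nt), module OPO: Poisson summation in `D` with a twist
-/

set_option autoImplicit false

open Complex Finset MeasureTheory

namespace Pool.Agent.CZ

open Pool.Agent.H5 (c bd)
open Pool.Agent.ZD (S tau norm_tau_le)
open Pool.Agent.ZD.K2 (gs gs_nonneg gs_summable bb bb_nonneg summable_bb gauss_le norm_jac c_even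
  ee norm_ee abs_c_sq summable_poly_exp summable_S)

namespace OPO

/-- the weight of a pair -/
noncomputable def wt2 (r r' : ℝ) (p : ℕ × ℕ) : ℂ :=
  ((c p.1 : ℤ) : ℂ) * ((c p.2 : ℤ) : ℂ) * (ee r p.1 * ee r' p.2)

lemma wt2_zero {r r' : ℝ} {p : ℕ × ℕ} (h : ¬ (Odd p.1 ∧ Odd p.2)) : wt2 r r' p = 0 := by
  unfold wt2
  by_cases h1 : Odd p.1
  · have h2 : ¬ Odd p.2 := fun h2 => h ⟨h1, h2⟩
    rw [Nat.not_odd_iff] at h2
    rw [c_even h2]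
    simp
  · rw [Nat.not_odd_iff] at h1
    rw [c_even h1]
    simp

lemma norm_wt2_le {r r' : ℝ} (p : ℕ × ℕ) : ‖wt2 r r' p‖ ≤
    ((p.1 : ℝ) ^ 2 * Real.exp (-(2 * Real.pi * p.1 * r))) *
      ((p.2 : ℝ) ^ 2 * Real.exp (-(2 * Real.pi * p.2 * r'))) := by
  unfold wt2
  rw [norm_mul, norm_mul, norm_mul, norm_ee, norm_ee, Complex.ofReal_re, Complex.ofReal_re]
  have h1 : ‖((c p.1 : ℤ) : ℂ)‖ ≤ (p.1 : ℝ) ^ 2 := by
    rw [Complex.norm_intCast]; exact abs_c_sq _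
  have h2 : ‖((c p.2 : ℤ) : ℂ)‖ ≤ (p.2 : ℝ) ^ 2 := by
    rw [Complex.norm_intCast]; exact abs_c_sq _
  have h3 := mul_le_mul h1 h2 (norm_nonneg _) (by positivity)
  calc _ ≤ ((p.1 : ℝ) ^ 2 * (p.2 : ℝ) ^ 2) * (Real.exp (-(2 * Real.pi * p.1 * r)) *
        Real.exp (-(2 * Real.pi * p.2 * r'))) :=
        mul_le_mul_of_nonneg_right h3 (by positivity)
    _ = _ := by ring

lemma summable_wt2_poly {r r' : ℝ} (hr : 0 < r) (hr' : 0 < r') (k : ℕ) :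
    Summable (fun p : ℕ × ℕ => ‖wt2 r r' p‖ * ((p.1 * p.2 : ℕ) : ℝ) ^ k) := by
  have h1 := summable_poly_exp (2 + k) hr
  have h1' := summable_poly_exp (2 + k) hr'
  have h2 := h1.mul_of_nonneg h1' (fun n => by positivity) (fun n => by positivity)
  refine Summable.of_nonneg_of_le (fun p => by positivity) (fun p => ?_) h2
  calc ‖wt2 r r' p‖ * ((p.1 * p.2 : ℕ) : ℝ) ^ k ≤
      (((p.1 : ℝ) ^ 2 * Real.exp (-(2 * Real.pi * p.1 * r))) *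
      ((p.2 : ℝ) ^ 2 * Real.exp (-(2 * Real.pi * p.2 * r')))) * ((p.1 * p.2 : ℕ) : ℝ) ^ k :=
        mul_le_mul_of_nonneg_right (norm_wt2_le p) (by positivity)
    _ = _ := by push_cast; rw [pow_add, pow_add, mul_pow]; ring

lemma summable_wt2 {r r' : ℝ} (hr : 0 < r) (hr' : 0 < r') :
    Summable (fun p : ℕ × ℕ => ‖wt2 r r' p‖) := by
  simpa using summable_wt2_poly hr hr' 0

/-- expansion of the product -/
lemma S_mul_S {r r' : ℝ} (hr : 0 < r) (hr' : 0 < r') (D : ℤ) :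
    S D r * S D r' = ∑' p : ℕ × ℕ, ((jacobiSym D (p.1 * p.2) : ℤ) : ℂ) * wt2 r r' p := by
  have h2 : S D (r : ℂ) = ∑' n : ℕ, (bd D n : ℂ) * ee r n := rfl
  have h3 : S D (r' : ℂ) = ∑' n : ℕ, (bd D n : ℂ) * ee r' n := rfl
  have e1 : 0 < ((r : ℝ) : ℂ).re := by rwa [Complex.ofReal_re]
  have e2 : 0 < ((r' : ℝ) : ℂ).re := by rwa [Complex.ofReal_re]
  rw [h2, h3, tsum_mul_tsum_of_summable_norm (summable_S e1 D) (summable_S e2 D)]
  congr 1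
  funext p
  by_cases hp : Odd p.1 ∧ Odd p.2
  · have : NeZero p.1 := ⟨hp.1.pos.ne'⟩
    have : NeZero p.2 := ⟨hp.2.pos.ne'⟩
    rw [jacobiSym.mul_right]
    unfold bd wt2
    push_cast
    ring
  · rw [wt2_zero hp, mul_zero]
    unfold bd
    rw [not_and_or, Nat.not_odd_iff, Nat.not_odd_iff] at hp
    rcases hp with h | h
    · rw [c_even h]; simp
    · rw [c_even h]; simp

lemma gs_summable' {Z : ℝ} (hZ : 0 < Z) : Summable (gs Z) := by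
  refine Summable.of_nonneg_of_le (fun k => gs_nonneg _ _) (fun k => ?_)
    (gs_summable (le_max_right Z 1))
  unfold gs
  apply Real.exp_le_exp.mpr
  apply neg_le_neg
  apply div_le_div_of_nonneg_left (by positivity) (by positivity)
  exact pow_le_pow_left₀ hZ.le (le_max_left _ _) 2

lemma gauss_le' {Z : ℝ} (hZ : 0 < Z) {m : ℝ} (hm : 1 ≤ m) (k : ℤ) :
    Real.exp (-(Real.pi * k ^ 2 * Z ^ 2 / m ^ 2)) ≤ (m / min Z 1) ^ 2 * bb k := by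
  have h0 : 0 < min Z 1 := lt_min hZ one_pos
  have h1 : 1 ≤ m / min Z 1 := by
    rw [le_div_iff₀ h0, one_mul]
    exact (min_le_right _ _).trans hm
  refine le_trans ?_ (gauss_le h1 k)
  apply Real.exp_le_exp.mpr
  apply neg_le_neg
  have e1 : Real.pi * (k : ℝ) ^ 2 / (m / min Z 1) ^ 2 =
      Real.pi * (k : ℝ) ^ 2 * (min Z 1) ^ 2 / m ^ 2 := by
    field_simp
  rw [e1]
  apply div_le_div_of_nonneg_right _ (by positivity)
  apply mul_le_mul_of_nonneg_left _ (by positivity)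
  exact pow_le_pow_left₀ h0.le (min_le_left _ _) 2

/-- the dual term -/
noncomputable def HH2 (Z : ℝ) (g : ℕ) (r r' : ℝ) (k : ℤ) (p : ℕ × ℕ) : ℂ :=
  wt2 r r' p * (((Z / (p.1 * p.2 * g : ℕ) : ℝ) : ℂ) *
    (tau k (p.1 * p.2 * g) * exp (-(Real.pi * k ^ 2 * Z ^ 2 / ((p.1 * p.2 * g : ℕ) : ℂ) ^ 2))))

lemma norm_HH2_le {Z : ℝ} (hZ : 0 < Z) {g : ℕ} (hg : Odd g) (r r' : ℝ) (k : ℤ) (p : ℕ × ℕ) :
    ‖HH2 Z g r r' k p‖ ≤ (Z * (g : ℝ) ^ 2 / (min Z 1) ^ 2) *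
      ((‖wt2 r r' p‖ * ((p.1 * p.2 : ℕ) : ℝ) ^ 2) * bb k) := by
  by_cases hp : Odd p.1 ∧ Odd p.2
  · have hm : 1 ≤ p.1 * p.2 * g := Nat.mul_pos (Nat.mul_pos hp.1.pos hp.2.pos) hg.pos
    have hmR : (1 : ℝ) ≤ ((p.1 * p.2 * g : ℕ) : ℝ) := by exact_mod_cast hm
    unfold HH2
    rw [norm_mul, norm_mul, norm_mul, Pool.Agent.ZD.K2.norm_gexp, Complex.norm_real,
      Real.norm_of_nonneg (by positivity)]
    have h1 := norm_tau_le k (p.1 * p.2 * g)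
    have h2 := gauss_le' hZ hmR k
    have hb := bb_nonneg k
    have h0 : 0 < min Z 1 := lt_min hZ one_pos
    calc ‖wt2 r r' p‖ * (Z / ((p.1 * p.2 * g : ℕ) : ℝ) * (‖tau k (p.1 * p.2 * g)‖ *
          Real.exp (-(Real.pi * k ^ 2 * Z ^ 2 / ((p.1 * p.2 * g : ℕ) : ℝ) ^ 2))))
        ≤ ‖wt2 r r' p‖ * (Z / ((p.1 * p.2 * g : ℕ) : ℝ) * (((p.1 * p.2 * g : ℕ) : ℝ) *
          ((((p.1 * p.2 * g : ℕ) : ℝ) / min Z 1) ^ 2 * bb k))) := by
          gcongr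
      _ = _ := by
          have : ((p.1 * p.2 * g : ℕ) : ℝ) ≠ 0 := by positivity
          rw [← mul_assoc (Z / _), div_mul_cancel₀ _ this]
          push_cast
          field_simp
  · unfold HH2
    rw [wt2_zero hp]
    simp

lemma summable_HH2 {Z : ℝ} (hZ : 0 < Z) {g : ℕ} (hg : Odd g) {r r' : ℝ} (hr : 0 < r)
    (hr' : 0 < r') :
    Summable (fun y : (ℕ × ℕ) × ℤ => ‖HH2 Z g r r' y.2 y.1‖) := by
  have h1 := (summable_wt2_poly hr hr' 2).mul_of_nonneg summable_bb (fun n => by positivity)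
    (fun k => bb_nonneg k)
  refine Summable.of_nonneg_of_le (fun _ => norm_nonneg _) (fun y => ?_)
    (h1.mul_left (Z * (g : ℝ) ^ 2 / (min Z 1) ^ 2))
  exact norm_HH2_le hZ hg r r' y.2 y.1

lemma HH2_eq {Z : ℝ} (g : ℕ) (hg : Odd g) (r r' : ℝ) (k : ℤ) (p : ℕ × ℕ) :
    HH2 Z g r r' k p = (Z : ℂ) * (gkg k g p.1 p.2 *
      ((Real.sqrt (p.1 * p.2 * g : ℕ) : ℝ) : ℂ)⁻¹ *
      exp (-(Real.pi * k ^ 2 * Z ^ 2 / ((p.1 * p.2 * g : ℕ) : ℂ) ^ 2)) *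
      (exp (-(2 * Real.pi * p.1 * r)) * exp (-(2 * Real.pi * p.2 * r')))) := by
  by_cases hp : Odd p.1 ∧ Odd p.2
  · have hm : 0 < p.1 * p.2 * g := Nat.mul_pos (Nat.mul_pos hp.1.pos hp.2.pos) hg.pos
    have hmR : (0 : ℝ) < ((p.1 * p.2 * g : ℕ) : ℝ) := by exact_mod_cast hm
    have hs : (Real.sqrt ((p.1 * p.2 * g : ℕ) : ℝ)) * Real.sqrt ((p.1 * p.2 * g : ℕ) : ℝ) =
      ((p.1 * p.2 * g : ℕ) : ℝ) := Real.mul_self_sqrt hmR.le
    have e1 : ((Z / (p.1 * p.2 * g : ℕ) : ℝ) : ℂ) =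
        (Z : ℂ) * (((Real.sqrt ((p.1 * p.2 * g : ℕ) : ℝ) : ℝ) : ℂ)⁻¹ *
          ((Real.sqrt ((p.1 * p.2 * g : ℕ) : ℝ) : ℝ) : ℂ)⁻¹) := by
      rw [← mul_inv, ← Complex.ofReal_mul, hs]
      push_cast
      rw [div_eq_mul_inv]
    unfold HH2 wt2 gkg ee
    rw [e1]
    generalize ((Real.sqrt ((p.1 * p.2 * g : ℕ) : ℝ) : ℝ) : ℂ) = s
    rw [div_eq_mul_inv]
    push_cast
    ring
  · have hg : gkg k g p.1 p.2 = 0 := by
      unfold gkg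
      rw [not_and_or, Nat.not_odd_iff, Nat.not_odd_iff] at hp
      rcases hp with h | h
      · rw [c_even h]; simp
      · rw [c_even h]; simp
    unfold HH2
    rw [wt2_zero hp, hg]
    simp

lemma HH2_zero {Z : ℝ} (g : ℕ) (hg : Odd g) (r r' : ℝ) (n : ℕ × ℕ) :
    HH2 Z g r r' 0 n = (Z : ℂ) * (if IsSquare (n.1 * n.2 * g) ∧ 0 < n.1 * n.2 then
        ((c n.1 * c n.2 : ℤ) : ℂ) * (((n.1 * n.2 * g).totient : ℝ) / (n.1 * n.2 * g : ℕ) : ℝ) *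
        (exp (-(2 * Real.pi * n.1 * r)) * exp (-(2 * Real.pi * n.2 * r'))) else 0) := by
  by_cases hp : Odd n.1 ∧ Odd n.2
  · have hm : Odd (n.1 * n.2 * g) := (hp.1.mul hp.2).mul hg
    have hm' : 0 < n.1 * n.2 := (hp.1.mul hp.2).pos
    by_cases hsq : IsSquare (n.1 * n.2 * g)
    · rw [if_pos ⟨hsq, hm'⟩]
      obtain ⟨u, hu⟩ := hsq
      have hu0 : 0 < u := by
        rcases Nat.eq_zero_or_pos u with h | h
        · rw [h] at hu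
          have := hm.pos
          omega
        · exact h
      have ht : tau 0 (n.1 * n.2 * g) = ((n.1 * n.2 * g).totient : ℂ) := by
        rw [hu, df_tau_sq hu0]
      unfold HH2 wt2 ee
      rw [ht]
      push_cast
      simp
      ring
    · rw [if_neg (fun h => hsq h.1)]
      unfold HH2
      rw [Pool.Agent.ZD.tau_zero_not_square hm hsq]
      simp
  · have h0 : c n.1 * c n.2 = 0 := by
      rw [not_and_or, Nat.not_odd_iff, Nat.not_odd_iff] at hp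
      rcases hp with h | h
      · rw [c_even h]; simp
      · rw [c_even h]; simp
    unfold HH2
    rw [wt2_zero hp, h0]
    simp

lemma dual2 {Z r r' : ℝ} {g : ℕ} (hZ : 0 < Z) (hr : 0 < r) (hr' : 0 < r') (hg : Odd g) :
    Summable (fun D : ℤ => ‖(Real.exp (-(Real.pi * D ^ 2 / Z ^ 2)) : ℂ) *
      (((jacobiSym D g : ℤ) : ℂ) * (S D r * S D r'))‖) ∧
    ∑' D : ℤ, (Real.exp (-(Real.pi * D ^ 2 / Z ^ 2)) : ℂ) *
        (((jacobiSym D g : ℤ) : ℂ) * (S D r * S D r')) =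
      ∑' k : ℤ, ∑' p : ℕ × ℕ, HH2 Z g r r' k p := by
  have hG : Summable (fun y : ℤ × (ℕ × ℕ) => ‖((gs Z y.1 : ℝ) : ℂ) * (((jacobiSym y.1 g : ℤ) : ℂ) *
      (((jacobiSym y.1 (y.2.1 * y.2.2) : ℤ) : ℂ) * wt2 r r' y.2))‖) := by
    have h1 := (gs_summable' hZ).mul_of_nonneg (summable_wt2 hr hr')
      (fun n => gs_nonneg _ _) (fun k => norm_nonneg _)
    refine Summable.of_nonneg_of_le (fun _ => norm_nonneg _) (fun y => ?_) h1
    rw [norm_mul, norm_mul, norm_mul, Complex.norm_real, Real.norm_of_nonneg (gs_nonneg _ _)]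
    have h2 := norm_jac y.1 (y.2.1 * y.2.2)
    have h2' := norm_jac y.1 g
    have h3 : ‖((jacobiSym y.1 (y.2.1 * y.2.2) : ℤ) : ℂ)‖ * ‖wt2 r r' y.2‖ ≤
        ‖wt2 r r' y.2‖ := mul_le_of_le_one_left (norm_nonneg _) h2
    have h4 : ‖((jacobiSym y.1 g : ℤ) : ℂ)‖ * (‖((jacobiSym y.1 (y.2.1 * y.2.2) : ℤ) : ℂ)‖ *
        ‖wt2 r r' y.2‖) ≤ ‖wt2 r r' y.2‖ :=
      (mul_le_of_le_one_left (by positivity) h2').trans h3
    exact mul_le_mul_of_nonneg_left h4 (gs_nonneg _ _)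
  have hrow : ∀ D : ℤ, (Real.exp (-(Real.pi * D ^ 2 / Z ^ 2)) : ℂ) *
      (((jacobiSym D g : ℤ) : ℂ) * (S D r * S D r')) =
      ∑' p : ℕ × ℕ, ((gs Z D : ℝ) : ℂ) * (((jacobiSym D g : ℤ) : ℂ) *
        (((jacobiSym D (p.1 * p.2) : ℤ) : ℂ) * wt2 r r' p)) := by
    intro D
    rw [tsum_mul_left, tsum_mul_left, ← S_mul_S hr hr']
    rfl
  have hsum : Summable (fun D : ℤ => ‖(Real.exp (-(Real.pi * D ^ 2 / Z ^ 2)) : ℂ) *
      (((jacobiSym D g : ℤ) : ℂ) * (S D r * S D r'))‖) := by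
    refine Summable.of_nonneg_of_le (fun _ => norm_nonneg _) (fun D => ?_) hG.prod
    rw [hrow D]
    exact norm_tsum_le_tsum_norm (hG.prod_factor D)
  refine ⟨hsum, ?_⟩
  simp_rw [hrow]
  have hG1 := hG.of_norm
  have hG' : Summable (fun y : (ℕ × ℕ) × ℤ => ((gs Z y.2 : ℝ) : ℂ) *
      (((jacobiSym y.2 g : ℤ) : ℂ) *
        (((jacobiSym y.2 (y.1.1 * y.1.2) : ℤ) : ℂ) * wt2 r r' y.1))) :=
    (Equiv.prodComm _ _).summable_iff.1 (hG1.congr (fun x => rfl))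
  have hswap : ∑' (D : ℤ) (p : ℕ × ℕ), ((gs Z D : ℝ) : ℂ) * (((jacobiSym D g : ℤ) : ℂ) *
        (((jacobiSym D (p.1 * p.2) : ℤ) : ℂ) * wt2 r r' p)) =
      ∑' (p : ℕ × ℕ) (D : ℤ), ((gs Z D : ℝ) : ℂ) * (((jacobiSym D g : ℤ) : ℂ) *
        (((jacobiSym D (p.1 * p.2) : ℤ) : ℂ) * wt2 r r' p)) :=
    Summable.tsum_comm' (f := fun (p : ℕ × ℕ) (D : ℤ) => ((gs Z D : ℝ) : ℂ) *
      (((jacobiSym D g : ℤ) : ℂ) *
        (((jacobiSym D (p.1 * p.2) : ℤ) : ℂ) * wt2 r r' p))) hG' (fun p => hG'.prod_factor p)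
        (fun D => hG1.prod_factor D)
  rw [hswap]
  have hcol : ∀ p : ℕ × ℕ, ∑' D : ℤ, ((gs Z D : ℝ) : ℂ) * (((jacobiSym D g : ℤ) : ℂ) *
      (((jacobiSym D (p.1 * p.2) : ℤ) : ℂ) * wt2 r r' p)) =
      ∑' k : ℤ, HH2 Z g r r' k p := by
    intro p
    by_cases hp : Odd p.1 ∧ Odd p.2
    · have hm : Odd (p.1 * p.2 * g) := (hp.1.mul hp.2).mul hg
      have i1 : NeZero (p.1 * p.2) := ⟨(hp.1.mul hp.2).pos.ne'⟩
      have i2 : NeZero g := ⟨hg.pos.ne'⟩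
      obtain ⟨_, hP⟩ := Pool.Agent.ZD.poisson hm hZ
      have h1 : ∀ D : ℤ, ((gs Z D : ℝ) : ℂ) * (((jacobiSym D g : ℤ) : ℂ) *
          (((jacobiSym D (p.1 * p.2) : ℤ) : ℂ) * wt2 r r' p)) =
          wt2 r r' p * ((jacobiSym D (p.1 * p.2 * g) : ℂ) *
            exp (-(Real.pi * D ^ 2 / Z ^ 2))) := by
        intro D
        rw [jacobiSym.mul_right D (p.1 * p.2) g]
        unfold gs
        push_cast
        ring
      simp_rw [h1]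
      rw [tsum_mul_left, ← hP.tsum_eq, ← tsum_mul_left]
      rfl
    · unfold HH2
      rw [wt2_zero hp]
      simp
  simp_rw [hcol]
  have h2 : Summable (fun y : (ℕ × ℕ) × ℤ => HH2 Z g r r' y.2 y.1) :=
    (summable_HH2 hZ hg hr hr').of_norm
  have h2' : Summable (fun y : ℤ × (ℕ × ℕ) => HH2 Z g r r' y.1 y.2) :=
    (Equiv.prodComm _ _).summable_iff.1 (h2.congr (fun x => rfl))
  exact Summable.tsum_comm' (f := fun (k : ℤ) (p : ℕ × ℕ) => HH2 Z g r r' k p) h2'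
    (fun k => h2'.prod_factor k) (fun p => h2.prod_factor p)

lemma summable_k {Z r r' : ℝ} {g : ℕ} (hZ : 0 < Z) (hr : 0 < r) (hr' : 0 < r') (hg : Odd g) :
    Summable (fun k : ℤ => ‖∑' p : ℕ × ℕ, HH2 Z g r r' k p‖) := by
  have hN : Summable (fun y : ℤ × (ℕ × ℕ) => ‖HH2 Z g r r' y.1 y.2‖) :=
    (Equiv.prodComm _ _).summable_iff.1 ((summable_HH2 hZ hg hr hr').congr (fun x => rfl))
  refine Summable.of_nonneg_of_le (fun _ => norm_nonneg _) (fun k => ?_) hN.prod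
  exact norm_tsum_le_tsum_norm (hN.prod_factor k)

end OPO

open OPO

/-- OPO: Poisson in `D` -/
theorem poisson_twist {Z r r' : ℝ} {g : ℕ} (hZ : 0 < Z) (hr : 0 < r) (hr' : 0 < r') (hg : Odd g)
    (hs : Summable (fun k : ℤ => if k = 0 then 0 else
      ‖∑' n : ℕ × ℕ, gkg k g n.1 n.2 * ((Real.sqrt (n.1 * n.2 * g : ℕ) : ℝ) : ℂ)⁻¹ *
        exp (-(Real.pi * k ^ 2 * Z ^ 2 / ((n.1 * n.2 * g : ℕ) : ℂ) ^ 2)) *
        (exp (-(2 * Real.pi * n.1 * r)) * exp (-(2 * Real.pi * n.2 * r')))‖)) :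
    Summable (fun D : ℤ => ‖(Real.exp (-(Real.pi * D ^ 2 / Z ^ 2)) : ℂ) *
      (((jacobiSym D g : ℤ) : ℂ) * (S D r * S D r'))‖) ∧
    ‖∑' D : ℤ, (Real.exp (-(Real.pi * D ^ 2 / Z ^ 2)) : ℂ) *
        (((jacobiSym D g : ℤ) : ℂ) * (S D r * S D r')) -
      Z * ∑' n : ℕ × ℕ, if IsSquare (n.1 * n.2 * g) ∧ 0 < n.1 * n.2 then
        ((c n.1 * c n.2 : ℤ) : ℂ) * (((n.1 * n.2 * g).totient : ℝ) / (n.1 * n.2 * g : ℕ) : ℝ) *
        (exp (-(2 * Real.pi * n.1 * r)) * exp (-(2 * Real.pi * n.2 * r'))) else 0‖ ≤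
      Z * ∑' k : ℤ, if k = 0 then 0 else
      ‖∑' n : ℕ × ℕ, gkg k g n.1 n.2 * ((Real.sqrt (n.1 * n.2 * g : ℕ) : ℝ) : ℂ)⁻¹ *
        exp (-(Real.pi * k ^ 2 * Z ^ 2 / ((n.1 * n.2 * g : ℕ) : ℂ) ^ 2)) *
        (exp (-(2 * Real.pi * n.1 * r)) * exp (-(2 * Real.pi * n.2 * r')))‖ := by
  obtain ⟨hsum, hd⟩ := dual2 hZ hr hr' hg
  refine ⟨hsum, ?_⟩
  rw [hd]
  have hk := summable_k hZ hr hr' hg
  have hzero : (Z : ℂ) * ∑' n : ℕ × ℕ, (if IsSquare (n.1 * n.2 * g) ∧ 0 < n.1 * n.2 then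
        ((c n.1 * c n.2 : ℤ) : ℂ) * (((n.1 * n.2 * g).totient : ℝ) / (n.1 * n.2 * g : ℕ) : ℝ) *
        (exp (-(2 * Real.pi * n.1 * r)) * exp (-(2 * Real.pi * n.2 * r'))) else 0) =
      ∑' p : ℕ × ℕ, HH2 Z g r r' 0 p := by
    rw [← tsum_mul_left]
    exact tsum_congr (fun n => (HH2_zero g hg r r' n).symm)
  rw [hzero]
  have hsplit := hk.of_norm.tsum_eq_add_tsum_ite (0 : ℤ)
  rw [hsplit, add_sub_cancel_left, ← tsum_mul_left]
  have hterm : ∀ k : ℤ, ‖(if k = 0 then (0 : ℂ) else ∑' p : ℕ × ℕ, HH2 Z g r r' k p)‖ =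
      Z * (if k = 0 then 0 else
      ‖∑' n : ℕ × ℕ, gkg k g n.1 n.2 * ((Real.sqrt (n.1 * n.2 * g : ℕ) : ℝ) : ℂ)⁻¹ *
        exp (-(Real.pi * k ^ 2 * Z ^ 2 / ((n.1 * n.2 * g : ℕ) : ℂ) ^ 2)) *
        (exp (-(2 * Real.pi * n.1 * r)) * exp (-(2 * Real.pi * n.2 * r')))‖) := by
    intro k
    split_ifs with h
    · simp
    · simp_rw [HH2_eq g hg]
      rw [tsum_mul_left, norm_mul, Complex.norm_real, Real.norm_of_nonneg hZ.le]
  calc _ ≤ ∑' k : ℤ, ‖(if k = 0 then (0 : ℂ) else ∑' p : ℕ × ℕ, HH2 Z g r r' k p)‖ := by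
        apply norm_tsum_le_tsum_norm
        refine Summable.of_nonneg_of_le (fun _ => norm_nonneg _) (fun k => ?_) hk
        split_ifs with h
        · simp
        · exact le_rfl
    _ = _ := tsum_congr hterm

end Pool.Agent.CZ
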