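import Mathlib
import Pool.Agent.CZ.Defs
import Pool.Agent.CZ.RM
import Pool.Agent.ZD.K2

/-!
Module ORA: the diagonal of the twisted second moment is the second moment of the random model.
-/

set_option autoImplicit false

open Complex Finset MeasureTheory

namespace Pool.Agent.CZ

open Pool.Agent.H5 (c bd)
open Pool.Agent.ZD (S)

namespace ORA

open Pool.Agent.ZD.K2 (ee norm_ee c_even abs_c_sq summable_poly_exp norm_jac summable_S)

/-- weight of a pair -/
noncomputable def w (r r' : ℝ) (p : ℕ × ℕ) : ℂ :=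
  ((c p.1 * c p.2 : ℤ) : ℂ) * (exp (-(2 * Real.pi * p.1 * r)) * exp (-(2 * Real.pi * p.2 * r')))

/-- majorant of the weight -/
noncomputable def mj (r : ℝ) (n : ℕ) : ℝ := (n : ℝ) ^ 2 * Real.exp (-(2 * Real.pi * n * r))

lemma mj_nonneg (r : ℝ) (n : ℕ) : 0 ≤ mj r n := by unfold mj; positivity

lemma summable_mj {r : ℝ} (hr : 0 < r) : Summable (mj r) := summable_poly_exp 2 hr

lemma norm_w_le (r r' : ℝ) (p : ℕ × ℕ) : ‖w r r' p‖ ≤ mj r p.1 * mj r' p.2 := by
  have e1 : ‖exp (-(2 * (Real.pi : ℂ) * p.1 * r))‖ = Real.exp (-(2 * Real.pi * p.1 * r)) := by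
    have := norm_ee (r : ℂ) p.1
    simpa [ee] using this
  have e2 : ‖exp (-(2 * (Real.pi : ℂ) * p.2 * r'))‖ = Real.exp (-(2 * Real.pi * p.2 * r')) := by
    have := norm_ee (r' : ℂ) p.2
    simpa [ee] using this
  unfold w mj
  push_cast
  rw [norm_mul, norm_mul, norm_mul, e1, e2]
  have h1 : ‖((c p.1 : ℤ) : ℂ)‖ ≤ (p.1 : ℝ) ^ 2 := by
    rw [Complex.norm_intCast]; exact abs_c_sq _
  have h2 : ‖((c p.2 : ℤ) : ℂ)‖ ≤ (p.2 : ℝ) ^ 2 := by
    rw [Complex.norm_intCast]; exact abs_c_sq _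
  have h3 := mul_le_mul h1 h2 (norm_nonneg _) (by positivity)
  calc _ ≤ ((p.1 : ℝ) ^ 2 * (p.2 : ℝ) ^ 2) * (Real.exp (-(2 * Real.pi * p.1 * r)) *
        Real.exp (-(2 * Real.pi * p.2 * r'))) :=
        mul_le_mul_of_nonneg_right h3 (by positivity)
    _ = _ := by ring

lemma summable_w {r r' : ℝ} (hr : 0 < r) (hr' : 0 < r') : Summable (fun p => ‖w r r' p‖) :=
  Summable.of_nonneg_of_le (fun _ => norm_nonneg _) (fun p => norm_w_le r r' p)
    ((summable_mj hr).mul_of_nonneg (summable_mj hr') (mj_nonneg r) (mj_nonneg r'))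

lemma w_zero {r r' : ℝ} {p : ℕ × ℕ} (h : ¬ (Odd p.1 ∧ Odd p.2)) : w r r' p = 0 := by
  unfold w
  rw [not_and_or, Nat.not_odd_iff, Nat.not_odd_iff] at h
  rcases h with h | h
  · rw [c_even h]; simp
  · rw [c_even h]; simp

/-- expansion of the product of two theta series -/
lemma expand {r r' : ℝ} (hr : 0 < r) (hr' : 0 < r') {g : ℕ} (hg : Odd g) (D : ℤ) :
    ((jacobiSym D g : ℤ) : ℂ) * (S D r * S D r') =
      ∑' p : ℕ × ℕ, ((jacobiSym D (p.1 * p.2 * g) : ℤ) : ℂ) * w r r' p := by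
  have h2 : S D (r : ℂ) = ∑' n : ℕ, (bd D n : ℂ) * ee (r : ℂ) n := rfl
  have h3 : S D (r' : ℂ) = ∑' n : ℕ, (bd D n : ℂ) * ee (r' : ℂ) n := rfl
  rw [h2, h3, tsum_mul_tsum_of_summable_norm (summable_S (by simpa using hr) D)
    (summable_S (by simpa using hr') D), ← tsum_mul_left]
  congr 1
  funext p
  by_cases hp : Odd p.1 ∧ Odd p.2
  · have : NeZero p.1 := ⟨hp.1.pos.ne'⟩
    have : NeZero p.2 := ⟨hp.2.pos.ne'⟩
    have : NeZero g := ⟨hg.pos.ne'⟩
    have : NeZero (p.1 * p.2) := ⟨(Nat.mul_pos hp.1.pos hp.2.pos).ne'⟩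
    rw [jacobiSym.mul_right, jacobiSym.mul_right]
    unfold bd w ee
    push_cast
    ring
  · rw [w_zero hp, mul_zero]
    unfold bd
    rw [not_and_or, Nat.not_odd_iff, Nat.not_odd_iff] at hp
    rcases hp with h | h
    · rw [c_even h]; simp
    · rw [c_even h]; simp

lemma norm_RA_le {P : ℕ} {f : ℤ → ℂ} {B : ℝ} (hB : ∀ D, ‖f D‖ ≤ B) : ‖RA P f‖ ≤ B := by
  have hpos : (0 : ℝ) < MP P := by exact_mod_cast rm_MP_pos P
  unfold RA
  rw [norm_div, Complex.norm_natCast, div_le_iff₀ hpos]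
  calc ‖∑ D ∈ range (MP P), f D‖ ≤ ∑ D ∈ range (MP P), ‖f D‖ := norm_sum_le _ _
    _ ≤ ∑ _D ∈ range (MP P), B := Finset.sum_le_sum fun D _ => hB D
    _ = B * MP P := by rw [Finset.sum_const, Finset.card_range, nsmul_eq_mul]; ring

/-- the expectation of the expansion -/
lemma RA_expand {r r' : ℝ} (hr : 0 < r) (hr' : 0 < r') {g : ℕ} (hg : Odd g) (P : ℕ) :
    RA P (fun D => ((jacobiSym D g : ℤ) : ℂ) * (S D r * S D r')) =
      ∑' p : ℕ × ℕ, RA P (fun D => ((jacobiSym D (p.1 * p.2 * g) : ℤ) : ℂ)) * w r r' p := by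
  have hs : ∀ D : ℤ, Summable fun p : ℕ × ℕ =>
      ((jacobiSym D (p.1 * p.2 * g) : ℤ) : ℂ) * w r r' p := by
    intro D
    refine Summable.of_norm_bounded (summable_w hr hr') fun p => ?_
    rw [norm_mul]
    calc _ ≤ 1 * ‖w r r' p‖ := mul_le_mul_of_nonneg_right (norm_jac _ _) (norm_nonneg _)
      _ = _ := one_mul _
  unfold RA
  simp_rw [expand hr hr' hg]
  rw [← Summable.tsum_finsetSum (fun (i : ℕ) _ => hs (i : ℤ)), ← tsum_div_const]
  congr 1
  funext p
  rw [← Finset.sum_mul]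
  ring

lemma exp_lin {X : ℝ} : 2 * X - X ^ 2 / 7 ≤ 7 := by nlinarith [sq_nonneg (X - 7)]

/-- the full sum of the majorants -/
lemma tsum_mj_le {X : ℝ} (hX : 3 ≤ X) :
    ∑' n : ℕ, mj (1 / (40 * X)) n ≤ 5000 * X ^ 3 := by
  have hX0 : 0 < X := by linarith
  set s : ℝ := 2 * Real.pi * (1 / (40 * X)) with hs
  have hspos : 0 < s := by positivity
  have hs1 : 3 / (20 * X) ≤ s := by
    rw [hs, div_le_iff₀ (by positivity)]
    have : 2 * Real.pi * (1 / (40 * X)) * (20 * X) = Real.pi := by field_simp; ring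
    rw [this]; exact Real.pi_gt_three.le
  -- termwise bound
  have hterm : ∀ n : ℕ, mj (1 / (40 * X)) n ≤ 8 / s ^ 2 * Real.exp (-(s / 2)) ^ n := by
    intro n
    have h1 : mj (1 / (40 * X)) n = (n : ℝ) ^ 2 * Real.exp (-(s * n)) := by
      unfold mj; congr 2; rw [hs]; ring
    have h2 : (s * n / 2) ^ 2 / 2 ≤ Real.exp (s * n / 2) := by
      have := Real.quadratic_le_exp_of_nonneg (x := s * n / 2) (by positivity)
      have h0 : 0 ≤ s * n / 2 := by positivity
      linarith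
    have h3 : Real.exp (-(s / 2)) ^ n = Real.exp (s * n / 2) * Real.exp (-(s * n)) := by
      rw [← Real.exp_nat_mul, ← Real.exp_add]; congr 1; ring
    rw [h1, h3, ← mul_assoc]
    refine mul_le_mul_of_nonneg_right ?_ (Real.exp_pos _).le
    rw [div_mul_eq_mul_div, le_div_iff₀ (by positivity)]
    nlinarith
  have hq1 : Real.exp (-(s / 2)) < 1 := by rw [Real.exp_lt_one_iff]; linarith
  have hgeo := hasSum_geometric_of_lt_one (Real.exp_pos (-(s / 2))).le hq1
  have hsum : Summable (fun n : ℕ => 8 / s ^ 2 * Real.exp (-(s / 2)) ^ n) :=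
    hgeo.summable.mul_left _
  have hle : ∑' n : ℕ, mj (1 / (40 * X)) n ≤ 8 / s ^ 2 * (1 - Real.exp (-(s / 2)))⁻¹ := by
    rw [← hgeo.tsum_eq, ← tsum_mul_left]
    exact (summable_mj (by positivity)).tsum_le_tsum hterm hsum
  refine hle.trans ?_
  -- `1/(1 - e^{-u}) ≤ 1 + 1/u`
  have hu : (1 - Real.exp (-(s / 2)))⁻¹ ≤ 1 + 2 / s := by
    have h4 : 1 + s / 2 ≤ Real.exp (s / 2) := by linarith [Real.add_one_le_exp (s / 2)]
    have h5 : Real.exp (-(s / 2)) ≤ 1 / (1 + s / 2) := by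
      rw [Real.exp_neg, ← one_div]
      exact one_div_le_one_div_of_le (by positivity) h4
    have h6 : s / (2 + s) ≤ 1 - Real.exp (-(s / 2)) := by
      have : s / (2 + s) = 1 - 1 / (1 + s / 2) := by field_simp; ring
      rw [this]; linarith
    have h7 : 0 < s / (2 + s) := by positivity
    calc (1 - Real.exp (-(s / 2)))⁻¹ ≤ (s / (2 + s))⁻¹ := inv_anti₀ h7 h6
      _ = 1 + 2 / s := by field_simp; ring
  have h8 : 8 / s ^ 2 ≤ 8 / (3 / (20 * X)) ^ 2 := by
    apply div_le_div_of_nonneg_left (by norm_num) (by positivity)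
    exact pow_le_pow_left₀ (by positivity) hs1 2
  have h9 : 2 / s ≤ 2 / (3 / (20 * X)) :=
    div_le_div_of_nonneg_left (by norm_num) (by positivity) hs1
  have h10 : 0 ≤ (1 - Real.exp (-(s / 2)))⁻¹ := inv_nonneg.2 (by linarith)
  calc 8 / s ^ 2 * (1 - Real.exp (-(s / 2)))⁻¹
      ≤ 8 / (3 / (20 * X)) ^ 2 * (1 + 2 / (3 / (20 * X))) :=
        mul_le_mul h8 (hu.trans (by linarith)) h10 (by positivity)
    _ = 3200 / 9 * X ^ 2 * (1 + 40 / 3 * X) := by field_simp; ring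
    _ ≤ 5000 * X ^ 3 := by
        have h11 : 1 + 40 / 3 * X ≤ 14 * X := by linarith
        have h12 : 3200 / 9 * X ^ 2 * (1 + 40 / 3 * X) ≤ 3200 / 9 * X ^ 2 * (14 * X) :=
          mul_le_mul_of_nonneg_left h11 (by positivity)
        nlinarith [pow_pos hX0 3]

lemma mj_split {X r : ℝ} (hX : 3 ≤ X) (hr : 1 / (20 * X) ≤ r) (n : ℕ) :
    mj r n ≤ mj (1 / (40 * X)) n * Real.exp (-(Real.pi * n / (20 * X))) := by
  have hX0 : 0 < X := by linarith
  unfold mj
  rw [mul_assoc ((n : ℝ) ^ 2), ← Real.exp_add]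
  refine mul_le_mul_of_nonneg_left (Real.exp_le_exp.2 ?_) (by positivity)
  have h1 : 2 * Real.pi * n * (1 / (20 * X)) ≤ 2 * Real.pi * n * r :=
    mul_le_mul_of_nonneg_left hr (by positivity)
  have h2 : 2 * Real.pi * n * (1 / (20 * X)) =
      2 * Real.pi * n * (1 / (40 * X)) + Real.pi * n / (20 * X) := by field_simp; ring
  linarith

lemma mj_split' {X r : ℝ} (hX : 3 ≤ X) (hr : 1 / (20 * X) ≤ r) (n : ℕ) :
    mj r n ≤ mj (1 / (40 * X)) n := by
  have hX0 : 0 < X := by linarith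
  refine (mj_split hX hr n).trans ?_
  have h0 := mj_nonneg (1 / (40 * X)) n
  have h1 : Real.exp (-(Real.pi * n / (20 * X))) ≤ 1 := by
    rw [Real.exp_le_one_iff]
    have : 0 ≤ Real.pi * n / (20 * X) := by positivity
    linarith
  nlinarith

/-- pairs with a large entry have exponentially small weight -/
lemma mj_large {X r r' : ℝ} (hX : 3 ≤ X) (hr : 1 / (20 * X) ≤ r) (hr' : 1 / (20 * X) ≤ r') {P : ℕ}
    (hP : X ^ 3 ≤ P) {p : ℕ × ℕ} (hp : P < p.1 ∨ P < p.2) :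
    mj r p.1 * mj r' p.2 ≤
      Real.exp (-(X ^ 2 / 7)) * (mj (1 / (40 * X)) p.1 * mj (1 / (40 * X)) p.2) := by
  have hX0 : 0 < X := by linarith
  have key : ∀ n : ℕ, P < n → Real.exp (-(Real.pi * n / (20 * X))) ≤ Real.exp (-(X ^ 2 / 7)) := by
    intro n hn
    rw [Real.exp_le_exp]
    have h1 : X ^ 3 ≤ n := hP.trans (by exact_mod_cast hn.le)
    have h2 : X ^ 2 / 7 ≤ Real.pi * n / (20 * X) := by
      rw [div_le_div_iff₀ (by norm_num) (by positivity)]
      have h3 : 3 * (n : ℝ) ≤ Real.pi * n :=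
        mul_le_mul_of_nonneg_right Real.pi_gt_three.le (Nat.cast_nonneg n)
      nlinarith
    linarith
  rcases hp with hp | hp
  · have h1 := mj_split hX hr p.1
    have h2 := mj_split' hX hr' p.2
    have h3 := key _ hp
    have h4 : mj r p.1 ≤ mj (1 / (40 * X)) p.1 * Real.exp (-(X ^ 2 / 7)) :=
      h1.trans (mul_le_mul_of_nonneg_left h3 (mj_nonneg _ _))
    calc mj r p.1 * mj r' p.2 ≤ (mj (1 / (40 * X)) p.1 * Real.exp (-(X ^ 2 / 7))) *
        mj (1 / (40 * X)) p.2 := mul_le_mul h4 h2 (mj_nonneg _ _)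
          (mul_nonneg (mj_nonneg _ _) (Real.exp_pos _).le)
      _ = _ := by ring
  · have h1 := mj_split' hX hr p.1
    have h2 := mj_split hX hr' p.2
    have h3 := key _ hp
    have h4 : mj r' p.2 ≤ mj (1 / (40 * X)) p.2 * Real.exp (-(X ^ 2 / 7)) :=
      h2.trans (mul_le_mul_of_nonneg_left h3 (mj_nonneg _ _))
    calc mj r p.1 * mj r' p.2 ≤ mj (1 / (40 * X)) p.1 *
        (mj (1 / (40 * X)) p.2 * Real.exp (-(X ^ 2 / 7))) :=
          mul_le_mul h1 h4 (mj_nonneg _ _) (mj_nonneg _ _)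
      _ = _ := by ring

end ORA

open ORA in
/-- ORA: the diagonal is the random model (uses RM.RA_jacobi) -/
theorem diag_RA : ∃ C : ℝ, ∀ (X r r' : ℝ) (P g : ℕ), 3 ≤ X → 1 / (20 * X) ≤ r → 1 / (20 * X) ≤ r' →
    X ^ 3 ≤ P → Odd g → (∀ p, p.Prime → p ∣ g → p ≤ P) →
    ‖RA P (fun D => ((jacobiSym D g : ℤ) : ℂ) * (S D r * S D r')) -
      ∑' n : ℕ × ℕ, if IsSquare (n.1 * n.2 * g) ∧ 0 < n.1 * n.2 then
        ((c n.1 * c n.2 : ℤ) : ℂ) * (((n.1 * n.2 * g).totient : ℝ) / (n.1 * n.2 * g : ℕ) : ℝ) *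
        (exp (-(2 * Real.pi * n.1 * r)) * exp (-(2 * Real.pi * n.2 * r'))) else 0‖ ≤
      C * Real.exp (-X) := by
  refine ⟨2 * 5000 ^ 2 * 720 * Real.exp 7, ?_⟩
  intro X r r' P g hX hr hr' hP hg hgP
  have hX0 : 0 < X := by linarith
  have hr0 : 0 < r := lt_of_lt_of_le (by positivity) hr
  have hr0' : 0 < r' := lt_of_lt_of_le (by positivity) hr'
  rw [RA_expand hr0 hr0' hg P]
  set F : ℕ × ℕ → ℂ := fun p => RA P (fun D => ((jacobiSym D (p.1 * p.2 * g) : ℤ) : ℂ)) * w r r' p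
    with hF
  set G : ℕ × ℕ → ℂ := fun n => if IsSquare (n.1 * n.2 * g) ∧ 0 < n.1 * n.2 then
        ((c n.1 * c n.2 : ℤ) : ℂ) * (((n.1 * n.2 * g).totient : ℝ) / (n.1 * n.2 * g : ℕ) : ℝ) *
        (exp (-(2 * Real.pi * n.1 * r)) * exp (-(2 * Real.pi * n.2 * r'))) else 0 with hG
  have hFle : ∀ p, ‖F p‖ ≤ ‖w r r' p‖ := by
    intro p
    rw [hF]
    simp only
    rw [norm_mul]
    calc _ ≤ 1 * ‖w r r' p‖ := mul_le_mul_of_nonneg_right
            (norm_RA_le fun D => Pool.Agent.ZD.K2.norm_jac D _) (norm_nonneg _)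
      _ = _ := one_mul _
  have hGle : ∀ p, ‖G p‖ ≤ ‖w r r' p‖ := by
    intro p
    rw [hG]
    simp only
    split_ifs with h
    · have e : ((c p.1 * c p.2 : ℤ) : ℂ) *
          (((p.1 * p.2 * g).totient : ℝ) / (p.1 * p.2 * g : ℕ) : ℝ) *
          (exp (-(2 * Real.pi * p.1 * r)) * exp (-(2 * Real.pi * p.2 * r'))) =
          ((((p.1 * p.2 * g).totient : ℝ) / (p.1 * p.2 * g : ℕ) : ℝ) : ℂ) * w r r' p := by
        unfold w; ring
      rw [e, norm_mul, Complex.norm_real, Real.norm_eq_abs, abs_of_nonneg (by positivity)]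
      have hle : (((p.1 * p.2 * g).totient : ℝ) / (p.1 * p.2 * g : ℕ) : ℝ) ≤ 1 := by
        apply div_le_one_of_le₀ _ (by positivity)
        exact_mod_cast Nat.totient_le _
      calc _ ≤ 1 * ‖w r r' p‖ := mul_le_mul_of_nonneg_right hle (norm_nonneg _)
        _ = _ := one_mul _
    · rw [norm_zero]; exact norm_nonneg _
  have hsF : Summable F := Summable.of_norm_bounded (summable_w hr0 hr0') hFle
  have hsG : Summable G := Summable.of_norm_bounded (summable_w hr0 hr0') hGle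
  rw [← hsF.tsum_sub hsG]
  -- termwise comparison
  have hdiff : ∀ p, ‖F p - G p‖ ≤ 2 * (Real.exp (-(X ^ 2 / 7)) *
      (mj (1 / (40 * X)) p.1 * mj (1 / (40 * X)) p.2)) := by
    intro p
    by_cases hbig : P < p.1 ∨ P < p.2
    · have h1 := norm_sub_le (F p) (G p)
      have h2 := hFle p
      have h3 := hGle p
      have h4 := norm_w_le r r' p
      have h5 := mj_large hX hr hr' hP hbig
      linarith
    · have hz : F p = G p := by
        by_cases hodd : Odd p.1 ∧ Odd p.2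
        · rw [not_or, not_lt, not_lt] at hbig
          have hn : Odd (p.1 * p.2 * g) := (hodd.1.mul hodd.2).mul hg
          have hpr : ∀ q, q.Prime → q ∣ p.1 * p.2 * g → q ≤ P := by
            intro q hq hqd
            rcases (Nat.Prime.dvd_mul hq).1 hqd with h | h
            · rcases (Nat.Prime.dvd_mul hq).1 h with h | h
              · exact (Nat.le_of_dvd hodd.1.pos h).trans hbig.1
              · exact (Nat.le_of_dvd hodd.2.pos h).trans hbig.2
            · exact hgP q hq h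
          have hRA := RA_jacobi hn hpr
          have hpos : 0 < p.1 * p.2 := Nat.mul_pos hodd.1.pos hodd.2.pos
          rw [hF, hG]
          simp only
          rw [hRA]
          by_cases hsq : IsSquare (p.1 * p.2 * g)
          · rw [if_pos hsq, if_pos ⟨hsq, hpos⟩]
            unfold w
            push_cast
            ring
          · rw [if_neg hsq, if_neg (fun h => hsq h.1)]
            simp
        · have hw : w r r' p = 0 := w_zero hodd
          have h1 : ‖F p‖ ≤ 0 := by rw [← norm_zero (E := ℂ), ← hw]; exact hFle p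
          have h2 : ‖G p‖ ≤ 0 := by rw [← norm_zero (E := ℂ), ← hw]; exact hGle p
          rw [norm_le_zero_iff.1 h1, norm_le_zero_iff.1 h2]
      rw [hz, sub_self, norm_zero]
      have := mj_nonneg (1 / (40 * X)) p.1
      have := mj_nonneg (1 / (40 * X)) p.2
      positivity
  have h40 : 0 < 1 / (40 * X) := by positivity
  have hsm := (summable_mj h40).mul_of_nonneg (summable_mj h40) (mj_nonneg _) (mj_nonneg _)
  have hsum : Summable (fun p : ℕ × ℕ => 2 * (Real.exp (-(X ^ 2 / 7)) *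
      (mj (1 / (40 * X)) p.1 * mj (1 / (40 * X)) p.2))) := (hsm.mul_left _).mul_left _
  have h1 : ‖∑' p, (F p - G p)‖ ≤ ∑' p : ℕ × ℕ, 2 * (Real.exp (-(X ^ 2 / 7)) *
      (mj (1 / (40 * X)) p.1 * mj (1 / (40 * X)) p.2)) :=
    tsum_of_norm_bounded hsum.hasSum hdiff
  refine h1.trans ?_
  rw [tsum_mul_left, tsum_mul_left]
  have h2 : ∑' p : ℕ × ℕ, mj (1 / (40 * X)) p.1 * mj (1 / (40 * X)) p.2 =
      (∑' n, mj (1 / (40 * X)) n) * (∑' n, mj (1 / (40 * X)) n) :=
    ((summable_mj h40).tsum_mul_tsum (summable_mj h40) hsm).symm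
  rw [h2]
  have h3 := tsum_mj_le hX
  have h4 : 0 ≤ ∑' n : ℕ, mj (1 / (40 * X)) n := tsum_nonneg fun n => mj_nonneg _ n
  have h5 : (∑' n, mj (1 / (40 * X)) n) * (∑' n, mj (1 / (40 * X)) n) ≤
      (5000 * X ^ 3) * (5000 * X ^ 3) := mul_le_mul h3 h3 h4 (by positivity)
  have h6 : X ^ 6 ≤ 720 * Real.exp X := by
    have := Real.pow_div_factorial_le_exp X hX0.le 6
    rw [div_le_iff₀ (by positivity)] at this
    have e : ((Nat.factorial 6 : ℕ) : ℝ) = 720 := by norm_num [Nat.factorial]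
    rw [e] at this
    linarith
  have h7 : Real.exp X * Real.exp (-(X ^ 2 / 7)) ≤ Real.exp 7 * Real.exp (-X) := by
    rw [← Real.exp_add, ← Real.exp_add, Real.exp_le_exp]
    linarith [exp_lin (X := X)]
  have hE : 0 < Real.exp (-(X ^ 2 / 7)) := Real.exp_pos _
  calc 2 * (Real.exp (-(X ^ 2 / 7)) * ((∑' n, mj (1 / (40 * X)) n) * (∑' n, mj (1 / (40 * X)) n)))
      ≤ 2 * (Real.exp (-(X ^ 2 / 7)) * ((5000 * X ^ 3) * (5000 * X ^ 3))) := by
        refine mul_le_mul_of_nonneg_left (mul_le_mul_of_nonneg_left h5 hE.le) (by norm_num)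
    _ = 2 * 5000 ^ 2 * (Real.exp (-(X ^ 2 / 7)) * X ^ 6) := by ring
    _ ≤ 2 * 5000 ^ 2 * (Real.exp (-(X ^ 2 / 7)) * (720 * Real.exp X)) := by
        refine mul_le_mul_of_nonneg_left (mul_le_mul_of_nonneg_left h6 hE.le) (by norm_num)
    _ = 2 * 5000 ^ 2 * 720 * (Real.exp X * Real.exp (-(X ^ 2 / 7))) := by ring
    _ ≤ 2 * 5000 ^ 2 * 720 * (Real.exp 7 * Real.exp (-X)) := by
        refine mul_le_mul_of_nonneg_left h7 (by norm_num)
    _ = 2 * 5000 ^ 2 * 720 * Real.exp 7 * Real.exp (-X) := by ring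

end Pool.Agent.CZ
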