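import Mathlib
import Pool.Agent.CZ.OFFA
import Pool.Agent.CZ.OK1
import Pool.Agent.CZ.OPO
import Pool.Agent.CZ.ORA

/-!
Modules OKS and OFF: final form.
-/

set_option autoImplicit false

open Complex Finset MeasureTheory

namespace Pool.Agent.CZ

open Pool.Agent.H5 (c bd)
open Pool.Agent.ZD (S T Lf nu tau gk eps MM)

theorem freq_sum : ∃ C : ℕ, ∀ (X r r' : ℝ) (g : ℕ), 3 ≤ X → 1 / (20 * X) ≤ r → r ≤ 1 →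
    1 / (20 * X) ≤ r' → r' ≤ 1 → Odd g →
    Summable (fun k : ℤ => if k = 0 then 0 else
      ‖∑' n : ℕ × ℕ, gkg k g n.1 n.2 * ((Real.sqrt (n.1 * n.2 * g : ℕ) : ℝ) : ℂ)⁻¹ *
        exp (-(Real.pi * k ^ 2 * (2 * X) ^ 2 / ((n.1 * n.2 * g : ℕ) : ℂ) ^ 2)) *
        (exp (-(2 * Real.pi * n.1 * r)) * exp (-(2 * Real.pi * n.2 * r')))‖) ∧
    2 * X * ∑' k : ℤ, (if k = 0 then 0 else
      ‖∑' n : ℕ × ℕ, gkg k g n.1 n.2 * ((Real.sqrt (n.1 * n.2 * g : ℕ) : ℝ) : ℂ)⁻¹ *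
        exp (-(Real.pi * k ^ 2 * (2 * X) ^ 2 / ((n.1 * n.2 * g : ℕ) : ℂ) ^ 2)) *
        (exp (-(2 * Real.pi * n.1 * r)) * exp (-(2 * Real.pi * n.2 * r')))‖) ≤
      C * (Real.log X) ^ C * (g : ℝ) ^ C * (r * r') ^ (-(3 / 2 : ℝ)) :=
  freq_sum_of K_term_g

theorem OFF : ∃ C : ℕ, ∀ (X r r' : ℝ) (P g : ℕ), 3 ≤ X → 1 / (20 * X) ≤ r → r ≤ 1 →
    1 / (20 * X) ≤ r' → r' ≤ 1 → X ^ 3 ≤ P → Odd g → (∀ p, p.Prime → p ∣ g → p ≤ P) →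
    Summable (fun D : ℤ => ‖(Real.exp (-(Real.pi * D ^ 2 / (2 * X) ^ 2)) : ℂ) *
        (((jacobiSym D g : ℤ) : ℂ) * (S D r * S D r'))‖) ∧
    ‖∑' D : ℤ, (Real.exp (-(Real.pi * D ^ 2 / (2 * X) ^ 2)) : ℂ) *
        (((jacobiSym D g : ℤ) : ℂ) * (S D r * S D r')) -
      2 * X * RA P (fun D => ((jacobiSym D g : ℤ) : ℂ) * (S D r * S D r'))‖ ≤
      C * (Real.log X) ^ C * (g : ℝ) ^ C * (r * r') ^ (-(3 / 2 : ℝ)) :=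
  OFF_of (fun hZ hr hr' hg hs => poisson_twist hZ hr hr' hg hs) diag_RA freq_sum

end Pool.Agent.CZ
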