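import Mathlib
import Pool.Agent.CZ.Defs
import Pool.Agent.CZ.OFF
import Pool.Agent.CZ.PSI
import Pool.Agent.CZ.CPL
import Pool.Agent.CZ.EDL

/-!
# Module WOFF: windows, family average against the random model
-/

set_option autoImplicit false

open Complex Finset MeasureTheory

namespace Pool.Agent.CZ

open Pool.Agent.H5 (c bd)
open Pool.Agent.ZD (S)

/-! ### reality -/

/-- real version of the theta series at a real point -/
noncomputable def woffR (D : ℤ) (r : ℝ) : ℝ := ∑' n : ℕ, (bd D n : ℝ) * Real.exp (-(2 * Real.pi * n * r))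

theorem woff_S (D : ℤ) (r : ℝ) : S D r = (woffR D r : ℂ) := by
  unfold S woffR
  rw [Complex.ofReal_tsum]
  apply tsum_congr
  intro n
  push_cast
  rfl

theorem woff_conj_sB (D : ℤ) (M x : ℝ) : (starRingEnd ℂ) (sB D M x) = sB D M x := by
  unfold sB
  rw [woff_S, map_mul, Complex.conj_ofReal, Complex.conj_ofReal]

/-! ### complex family average -/

/-- the weight of the family average -/
noncomputable def woffw (X : ℝ) (D : ℤ) : ℝ := Real.exp (-(Real.pi * D ^ 2 / (2 * X) ^ 2))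

/-- complex family average -/
noncomputable def woffE (X : ℝ) (f : ℤ → ℂ) : ℂ := (∑' D : ℤ, (woffw X D : ℂ) * f D) / X

theorem woffw_pos (X : ℝ) (D : ℤ) : 0 < woffw X D := Real.exp_pos _

theorem woffw_summable {X : ℝ} (hX : 1 ≤ X) : Summable (woffw X) := by
  have := ED_summable hX (f := fun _ => 1) (B := 1) (fun D => by simp)
  simp only [mul_one] at this
  exact this

theorem woff_summable {X : ℝ} (hX : 1 ≤ X) {f : ℤ → ℂ} {B : ℝ} (hf : ∀ D, ‖f D‖ ≤ B) :
    Summable (fun D : ℤ => (woffw X D : ℂ) * f D) := by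
  apply Summable.of_norm_bounded ((woffw_summable hX).mul_right B)
  intro D
  rw [norm_mul, Complex.norm_real, Real.norm_of_nonneg (woffw_pos X D).le]
  exact mul_le_mul_of_nonneg_left (hf D) (woffw_pos X D).le

theorem woffE_sum {X : ℝ} (hX : 1 ≤ X) {ι : Type*} (s : Finset ι) (f : ι → ℤ → ℂ) (B : ι → ℝ)
    (hf : ∀ i D, ‖f i D‖ ≤ B i) : woffE X (fun D => ∑ i ∈ s, f i D) = ∑ i ∈ s, woffE X (f i) := by
  unfold woffE
  rw [← Finset.sum_div]
  congr 1
  simp_rw [Finset.mul_sum]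
  exact Summable.tsum_finsetSum (fun i _ => woff_summable hX (hf i))

theorem woffE_mul (X : ℝ) (a : ℂ) (f : ℤ → ℂ) : woffE X (fun D => a * f D) = a * woffE X f := by
  unfold woffE
  rw [mul_div_assoc', ← tsum_mul_left]
  congr 1
  apply tsum_congr
  intro D
  ring

theorem woffE_ofReal (X : ℝ) (f : ℤ → ℝ) : woffE X (fun D => (f D : ℂ)) = (ED X f : ℂ) := by
  unfold woffE ED woffw
  push_cast
  rfl

theorem woff_RA_sum (P : ℕ) {ι : Type*} (s : Finset ι) (f : ι → ℤ → ℂ) :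
    RA P (fun D => ∑ i ∈ s, f i D) = ∑ i ∈ s, RA P (f i) := by
  unfold RA
  rw [← Finset.sum_div, Finset.sum_comm]

theorem woff_RA_mul (P : ℕ) (a : ℂ) (f : ℤ → ℂ) : RA P (fun D => a * f D) = a * RA P f := by
  unfold RA
  rw [← Finset.mul_sum, mul_div_assoc]

theorem woff_RA_ofReal (P : ℕ) (f : ℤ → ℝ) : RA P (fun D => (f D : ℂ)) = (RR P f : ℂ) := by
  unfold RA RR
  push_cast
  rfl

/-! ### the double integral -/

/-- the twisted product of two blocks -/
noncomputable def woffG (M : ℝ) (Ψ : ℝ → ℂ) (g : ℕ) (D : ℤ) (z : ℝ × ℝ) : ℂ :=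
  ((jacobiSym D g : ℤ) : ℂ) * ((sB D M z.1 * Ψ z.1) * (sB D M z.2 * (starRingEnd ℂ) (Ψ z.2)))

theorem woff_jac (D : ℤ) (g : ℕ) : ‖((jacobiSym D g : ℤ) : ℂ)‖ ≤ 1 := by
  rcases jacobiSym.trichotomy D g with h | h | h <;> simp [h]

/-- hypotheses on the window -/
structure WWin (Ψ : ℝ → ℂ) (A B F : ℝ) : Prop where
  cont : Continuous Ψ
  bd : ∀ x, ‖Ψ x‖ ≤ F
  supp : ∀ x, (x ≤ A ∨ 2 * B ≤ x) → Ψ x = 0

theorem WWin.int {Ψ : ℝ → ℂ} {A B F : ℝ} (h : WWin Ψ A B F) {f : ℝ → ℂ} (hf : Continuous f) :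
    Integrable (fun x => f x * Ψ x) := by
  apply Continuous.integrable_of_hasCompactSupport (hf.mul h.cont)
  apply HasCompactSupport.intro (isCompact_Icc (a := A) (b := 2 * B))
  intro x hx
  rw [Set.mem_Icc, not_and_or, not_le, not_le] at hx
  rw [Pi.mul_apply, h.supp x (hx.imp le_of_lt le_of_lt), mul_zero]

theorem WWin.norm_int {Ψ : ℝ → ℂ} {A B F : ℝ} (h : WWin Ψ A B F) (hA : 0 ≤ A)
    (hB : 0 ≤ B) : ∫ x, ‖Ψ x‖ ≤ F * (2 * B) := by
  have h1 : ∀ x, ‖Ψ x‖ ≤ (Set.Icc 0 (2 * B)).indicator (fun _ => F) x := by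
    intro x
    by_cases hx : x ∈ Set.Icc 0 (2 * B)
    · rw [Set.indicator_of_mem hx]; exact h.bd x
    · rw [Set.indicator_of_notMem hx]
      rw [Set.mem_Icc, not_and_or, not_le, not_le] at hx
      rw [h.supp x (by rcases hx with hx | hx; left; linarith; right; linarith), norm_zero]
  calc ∫ x, ‖Ψ x‖ ≤ ∫ x, (Set.Icc 0 (2 * B)).indicator (fun _ => F) x := by
        apply integral_mono_of_nonneg (Filter.Eventually.of_forall (fun x => norm_nonneg _))
        · rw [integrable_indicator_iff measurableSet_Icc]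
          exact integrableOn_const (by rw [Real.volume_Icc]; exact ENNReal.ofReal_ne_top)
        · exact Filter.Eventually.of_forall h1
    _ = F * (2 * B) := by
        rw [integral_indicator measurableSet_Icc, setIntegral_const, smul_eq_mul, Measure.real,
          Real.volume_Icc, ENNReal.toReal_ofReal (by linarith)]
        ring

theorem WWin.sB_int {Ψ : ℝ → ℂ} {A B F : ℝ} (h : WWin Ψ A B F) (hF : 0 ≤ F) (hA : 0 ≤ A)
    (hB : 0 ≤ B) {M : ℝ} (hM : 0 < M) (D : ℤ) :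
    ∫ x, ‖sB D M x * Ψ x‖ ≤ 10 * (1 + M) * (F * (2 * B)) := by
  have h0 : Integrable (fun x => ‖Ψ x‖) := by
    have := (h.int (f := fun _ => 1) continuous_const).norm
    simpa using this
  calc ∫ x, ‖sB D M x * Ψ x‖ ≤ ∫ x, 10 * (1 + M) * ‖Ψ x‖ := by
        apply integral_mono (h.int (sB_continuous hM)).norm (h0.const_mul _)
        intro x
        simp only
        rw [norm_mul]
        rcases le_or_gt x 0 with hx | hx
        · rw [h.supp x (Or.inl (by linarith)), norm_zero, mul_zero, mul_zero]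
        · exact mul_le_mul_of_nonneg_right (sB_bound hM hx.le) (norm_nonneg _)
    _ = 10 * (1 + M) * ∫ x, ‖Ψ x‖ := integral_const_mul _ _
    _ ≤ _ := mul_le_mul_of_nonneg_left (h.norm_int hA hB) (by positivity)

theorem WWin.conj {Ψ : ℝ → ℂ} {A B F : ℝ} (h : WWin Ψ A B F) :
    WWin (fun x => (starRingEnd ℂ) (Ψ x)) A B F :=
  ⟨Complex.continuous_conj.comp h.cont, fun x => by rw [Complex.norm_conj]; exact h.bd x,
    fun x hx => by rw [h.supp x hx, map_zero]⟩

theorem woffG_int {Ψ : ℝ → ℂ} {A B F : ℝ} (h : WWin Ψ A B F) {M : ℝ} (hM : 0 < M) (g : ℕ) (D : ℤ) :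
    Integrable (woffG M Ψ g D) := by
  unfold woffG
  apply Integrable.const_mul
  exact (h.int (sB_continuous hM)).mul_prod (h.conj.int (sB_continuous hM))

theorem woffG_norm {Ψ : ℝ → ℂ} {A B F : ℝ} (h : WWin Ψ A B F) (hF : 0 ≤ F) (hA : 0 ≤ A)
    (hB : 0 ≤ B) {M : ℝ} (hM : 0 < M) (g : ℕ) (D : ℤ) :
    ∫ z, ‖woffG M Ψ g D z‖ ≤ (10 * (1 + M) * (F * (2 * B))) ^ 2 := by
  have h1 : ∀ z : ℝ × ℝ, ‖woffG M Ψ g D z‖ ≤
      ‖sB D M z.1 * Ψ z.1‖ * ‖sB D M z.2 * (starRingEnd ℂ) (Ψ z.2)‖ := by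
    intro z
    unfold woffG
    rw [norm_mul, norm_mul]
    exact mul_le_of_le_one_left (by positivity) (woff_jac D g)
  have i1 := (h.int (sB_continuous hM (D := D))).norm
  have i2 := (h.conj.int (sB_continuous hM (D := D))).norm
  calc ∫ z, ‖woffG M Ψ g D z‖ ≤
        ∫ z : ℝ × ℝ, ‖sB D M z.1 * Ψ z.1‖ * ‖sB D M z.2 * (starRingEnd ℂ) (Ψ z.2)‖ := by
        apply integral_mono (woffG_int h hM g D).norm (i1.mul_prod i2)
        exact h1
    _ = (∫ x, ‖sB D M x * Ψ x‖) * ∫ x, ‖sB D M x * (starRingEnd ℂ) (Ψ x)‖ := by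
        rw [Measure.volume_eq_prod]
        exact integral_prod_mul (fun x => ‖sB D M x * Ψ x‖)
          (fun x => ‖sB D M x * (starRingEnd ℂ) (Ψ x)‖)
    _ ≤ (10 * (1 + M) * (F * (2 * B))) * (10 * (1 + M) * (F * (2 * B))) := by
        apply mul_le_mul (h.sB_int hF hA hB hM D) (h.conj.sB_int hF hA hB hM D)
          (integral_nonneg (fun x => norm_nonneg _)) (by positivity)
    _ = _ := by ring

theorem woffG_cont {Ψ : ℝ → ℂ} {A B F : ℝ} (h : WWin Ψ A B F) {M : ℝ} (hM : 0 < M) (g : ℕ) (D : ℤ) :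
    Continuous (woffG M Ψ g D) := by
  unfold woffG
  have h1 := sB_continuous hM (D := D)
  have h2 := h.cont
  fun_prop

theorem woffG_le {Ψ : ℝ → ℂ} {A B F : ℝ} (h : WWin Ψ A B F) (hF : 0 ≤ F) (hA : 0 ≤ A)
    {M : ℝ} (hM : 0 < M) (g : ℕ) (D : ℤ) (z : ℝ × ℝ) :
    ‖woffG M Ψ g D z‖ ≤ (10 * (1 + M) * F) ^ 2 := by
  have h1 : ∀ x, ‖sB D M x * Ψ x‖ ≤ 10 * (1 + M) * F := by
    intro x
    rw [norm_mul]
    rcases le_or_gt x 0 with hx | hx
    · rw [h.supp x (Or.inl (by linarith)), norm_zero, mul_zero]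
      positivity
    · exact mul_le_mul (sB_bound hM hx.le) (h.bd x) (norm_nonneg _) (by positivity)
  have h2 := h1 z.1
  have h3 := h1 z.2
  unfold woffG
  have h4 : ‖sB D M z.2 * (starRingEnd ℂ) (Ψ z.2)‖ = ‖sB D M z.2 * Ψ z.2‖ := by
    rw [norm_mul, norm_mul, Complex.norm_conj]
  rw [norm_mul, norm_mul, h4, sq]
  calc _ ≤ 1 * (‖sB D M z.1 * Ψ z.1‖ * ‖sB D M z.2 * Ψ z.2‖) := by
        gcongr
        exact woff_jac D g
    _ ≤ _ := by
        rw [one_mul]
        exact mul_le_mul h2 h3 (norm_nonneg _) (by positivity)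

theorem woff_FF_sq (Ψ : ℝ → ℂ) (M : ℝ) (D : ℤ) :
    ((‖FF D M Ψ‖ ^ 2 : ℝ) : ℂ) =
      ∫ z : ℝ × ℝ, (sB D M z.1 * Ψ z.1) * (sB D M z.2 * (starRingEnd ℂ) (Ψ z.2)) := by
  have h1 : (starRingEnd ℂ) (FF D M Ψ) = ∫ x, sB D M x * (starRingEnd ℂ) (Ψ x) := by
    unfold FF
    rw [← integral_conj]
    congr 1
    funext x
    rw [map_mul, woff_conj_sB]
  rw [Measure.volume_eq_prod, integral_prod_mul (fun x => sB D M x * Ψ x)
    (fun x => sB D M x * (starRingEnd ℂ) (Ψ x)), ← h1]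
  have : (∫ x, sB D M x * Ψ x) = FF D M Ψ := rfl
  rw [this, Complex.mul_conj, Complex.normSq_eq_norm_sq]

theorem woff_error : ∃ C₁ : ℕ, ∀ (X M A B F : ℝ) (P g : ℕ) (Ψ : ℝ → ℂ), WWin Ψ A B F → 0 ≤ F → 3 ≤ X →
    X ≤ M → M ≤ 20 * X → 0 ≤ A → A ≤ B → 4 * B ≤ Real.log X → X ^ 3 ≤ P → Odd g →
    (∀ p, p.Prime → p ∣ g → p ≤ P) →
    ‖woffE X (fun D => ∫ z, woffG M Ψ g D z) - 2 * RA P (fun D => ∫ z, woffG M Ψ g D z)‖ ≤
      20 * C₁ * (Real.log X) ^ C₁ * (g : ℝ) ^ C₁ * Real.exp (-A) * (F * (2 * B)) ^ 2 := by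
  obtain ⟨C₁, hOFF⟩ := OFF
  refine ⟨C₁, ?_⟩
  intro X M A B F P g Ψ hW hF hX hM1 hM2 hA hAB hB hP hg hgP
  have hX0 : 0 < X := by linarith
  have hM : 0 < M := by linarith
  have hB0 : 0 ≤ B := hA.trans hAB
  have hL0 : 0 ≤ Real.log X := Real.log_nonneg (by linarith)
  -- exchange of sum and integral
  have e1 : woffE X (fun D => ∫ z, woffG M Ψ g D z) =
      ∫ z, (∑' D : ℤ, (woffw X D : ℂ) * woffG M Ψ g D z) / X := by
    unfold woffE
    rw [integral_div]
    congr 1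
    have := (hasSum_integral_of_summable_integral_norm
      (F := fun (D : ℤ) (z : ℝ × ℝ) => (woffw X D : ℂ) * woffG M Ψ g D z)
      (fun D => (woffG_int hW hM g D).const_mul _) (by
        apply Summable.of_nonneg_of_le (fun D => integral_nonneg (fun z => norm_nonneg _)) (fun D => ?_)
          ((woffw_summable (by linarith : (1:ℝ) ≤ X)).mul_right
            ((10 * (1 + M) * (F * (2 * B))) ^ 2))
        simp_rw [norm_mul, Complex.norm_real, Real.norm_of_nonneg (woffw_pos X D).le]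
        rw [integral_const_mul]
        exact mul_le_mul_of_nonneg_left (woffG_norm hW hF hA hB0 hM g D) (woffw_pos X D).le)).tsum_eq
    rw [← this]
    apply tsum_congr
    intro D
    exact (integral_const_mul _ _).symm
  have e2 : 2 * RA P (fun D => ∫ z, woffG M Ψ g D z) =
      ∫ z, 2 * RA P (fun D => woffG M Ψ g D z) := by
    rw [integral_const_mul]
    congr 1
    unfold RA
    rw [integral_div]
    congr 1
    exact (integral_finsetSum (range (MP P)) (f := fun (D : ℕ) z => woffG M Ψ g (D : ℤ) z)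
      (fun D _ => woffG_int hW hM g D)).symm
  have i1 : Integrable (fun z => (∑' D : ℤ, (woffw X D : ℂ) * woffG M Ψ g D z) / X) := by
    apply Integrable.div_const
    apply Continuous.integrable_of_hasCompactSupport
    · apply continuous_tsum (fun D => continuous_const.mul (woffG_cont hW hM g D))
        ((woffw_summable (by linarith : (1:ℝ) ≤ X)).mul_right ((10 * (1 + M) * F) ^ 2))
      intro D z
      rw [Pi.mul_apply, norm_mul, Complex.norm_real, Real.norm_of_nonneg (woffw_pos X D).le]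
      exact mul_le_mul_of_nonneg_left (woffG_le hW hF hA hM g D z) (woffw_pos X D).le
    · apply HasCompactSupport.intro ((isCompact_Icc (a := A) (b := 2 * B)).prod
        (isCompact_Icc (a := A) (b := 2 * B)))
      intro z hz
      have hG : ∀ D : ℤ, woffG M Ψ g D z = 0 := by
        intro D
        rw [Set.mem_prod, not_and_or, Set.mem_Icc, Set.mem_Icc, not_and_or, not_and_or, not_le,
          not_le, not_le, not_le] at hz
        unfold woffG
        rcases hz with hz | hz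
        · rw [hW.supp z.1 (hz.imp le_of_lt le_of_lt)]; simp
        · rw [hW.supp z.2 (hz.imp le_of_lt le_of_lt)]; simp
      simp [hG]
  have i2 : Integrable (fun z => 2 * RA P (fun D => woffG M Ψ g D z)) := by
    apply Integrable.const_mul
    unfold RA
    exact (integrable_finsetSum (range (MP P)) (f := fun (D : ℕ) z => woffG M Ψ g (D : ℤ) z)
      (fun D _ => woffG_int hW hM g D)).div_const _
  rw [e1, e2, ← integral_sub i1 i2]
  -- pointwise bound
  have key : ∀ z : ℝ × ℝ, ‖(∑' D : ℤ, (woffw X D : ℂ) * woffG M Ψ g D z) / X -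
      2 * RA P (fun D => woffG M Ψ g D z)‖ ≤
      20 * C₁ * (Real.log X) ^ C₁ * (g : ℝ) ^ C₁ * Real.exp (-A) * (‖Ψ z.1‖ * ‖Ψ z.2‖) := by
    intro z
    by_cases hz : A < z.1 ∧ z.1 < 2 * B ∧ A < z.2 ∧ z.2 < 2 * B
    · obtain ⟨z1, z2, z3, z4⟩ := hz
      set r := Real.exp z.1 / M with hr
      set r' := Real.exp z.2 / M with hr'
      have hr0 : 0 < r := by positivity
      have hr0' : 0 < r' := by positivity
      have hone : ∀ w : ℝ, A < w → w < 2 * B → 1 / (20 * X) ≤ Real.exp w / M ∧ Real.exp w / M ≤ 1 := by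
        intro w w1 w2
        constructor
        · rw [div_le_div_iff₀ (by positivity) hM]
          have : 1 ≤ Real.exp w := Real.one_le_exp (by linarith)
          nlinarith
        · rw [div_le_one hM]
          calc Real.exp w ≤ Real.exp (Real.log X) := Real.exp_le_exp.mpr (by linarith)
            _ = X := Real.exp_log hX0
            _ ≤ M := hM1
      have hO := (hOFF X r r' P g hX (hone _ z1 z2).1 (hone _ z1 z2).2 (hone _ z3 z4).1
        (hone _ z3 z4).2 hP hg hgP).2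
      set V : ℂ := Ψ z.1 * (starRingEnd ℂ) (Ψ z.2) with hV
      have eG : ∀ D : ℤ, woffG M Ψ g D z =
          ((r * r' : ℝ) : ℂ) * V * (((jacobiSym D g : ℤ) : ℂ) * (S D r * S D r')) := by
        intro D
        unfold woffG sB
        rw [← hr, ← hr', hV]
        push_cast
        ring
      have eS : (∑' D : ℤ, (woffw X D : ℂ) * woffG M Ψ g D z) / X -
          2 * RA P (fun D => woffG M Ψ g D z) = ((r * r' : ℝ) : ℂ) * V / X *
          (∑' D : ℤ, (Real.exp (-(Real.pi * D ^ 2 / (2 * X) ^ 2)) : ℂ) *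
            (((jacobiSym D g : ℤ) : ℂ) * (S D r * S D r')) -
          2 * X * RA P (fun D => ((jacobiSym D g : ℤ) : ℂ) * (S D r * S D r'))) := by
        simp_rw [eG]
        rw [woff_RA_mul, mul_sub, ← tsum_mul_left]
        have hXc : (X : ℂ) ≠ 0 := by exact_mod_cast hX0.ne'
        congr 1
        · rw [← tsum_div_const]
          apply tsum_congr
          intro D
          unfold woffw
          ring
        · field_simp
      rw [eS, norm_mul, norm_div, norm_mul, Complex.norm_real, Complex.norm_real,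
        Real.norm_of_nonneg (by positivity : 0 ≤ r * r'), Real.norm_of_nonneg hX0.le, hV, norm_mul,
        Complex.norm_conj]
      have hrr : (r * r') * (r * r') ^ (-(3 / 2 : ℝ)) ≤ 20 * X * Real.exp (-A) := by
        have e3 : (r * r') * (r * r') ^ (-(3 / 2 : ℝ)) = (r * r') ^ (-(1 / 2) : ℝ) := by
          nth_rewrite 1 [← Real.rpow_one (r * r')]
          rw [← Real.rpow_add (by positivity)]
          norm_num
        rw [e3, Real.rpow_neg (by positivity), ← Real.sqrt_eq_rpow]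
        have e4 : Real.exp A / M ≤ Real.sqrt (r * r') := by
          apply Real.le_sqrt_of_sq_le
          rw [hr, hr', div_mul_div_comm, ← Real.exp_add, div_pow, ← Real.exp_nat_mul, sq M]
          gcongr
          push_cast
          linarith
        calc (Real.sqrt (r * r'))⁻¹ ≤ (Real.exp A / M)⁻¹ := inv_anti₀ (by positivity) e4
          _ = M * Real.exp (-A) := by rw [inv_div, Real.exp_neg, div_eq_mul_inv]
          _ ≤ _ := by gcongr
      calc _ ≤ r * r' * (‖Ψ z.1‖ * ‖Ψ z.2‖) / X *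
            (C₁ * (Real.log X) ^ C₁ * (g : ℝ) ^ C₁ * (r * r') ^ (-(3 / 2 : ℝ))) := by
            gcongr
        _ = (C₁ * (Real.log X) ^ C₁ * (g : ℝ) ^ C₁ * (‖Ψ z.1‖ * ‖Ψ z.2‖) / X) *
            ((r * r') * (r * r') ^ (-(3 / 2 : ℝ))) := by ring
        _ ≤ (C₁ * (Real.log X) ^ C₁ * (g : ℝ) ^ C₁ * (‖Ψ z.1‖ * ‖Ψ z.2‖) / X) *
            (20 * X * Real.exp (-A)) := by gcongr
        _ = _ := by field_simp
    · have h0 : Ψ z.1 = 0 ∨ Ψ z.2 = 0 := by
        by_contra hcon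
        rw [not_or] at hcon
        apply hz
        refine ⟨?_, ?_, ?_, ?_⟩ <;> by_contra hcc <;> rw [not_lt] at hcc
        · exact hcon.1 (hW.supp _ (Or.inl hcc))
        · exact hcon.1 (hW.supp _ (Or.inr hcc))
        · exact hcon.2 (hW.supp _ (Or.inl hcc))
        · exact hcon.2 (hW.supp _ (Or.inr hcc))
      have hG : ∀ D : ℤ, woffG M Ψ g D z = 0 := by
        intro D
        unfold woffG
        rcases h0 with h0 | h0 <;> simp [h0]
      simp only [hG, mul_zero, tsum_zero, zero_div]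
      have : RA P (fun _ => (0 : ℂ)) = 0 := by simp [RA]
      rw [this, mul_zero, sub_zero, norm_zero]
      positivity
  have i0 : Integrable (fun x => ‖Ψ x‖) := by
    have := (hW.int (f := fun _ => 1) continuous_const).norm
    simpa using this
  calc _ ≤ ∫ z : ℝ × ℝ, ‖(∑' D : ℤ, (woffw X D : ℂ) * woffG M Ψ g D z) / X -
      2 * RA P (fun D => woffG M Ψ g D z)‖ := norm_integral_le_integral_norm _
    _ ≤ ∫ z : ℝ × ℝ, 20 * C₁ * (Real.log X) ^ C₁ * (g : ℝ) ^ C₁ * Real.exp (-A) *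
        (‖Ψ z.1‖ * ‖Ψ z.2‖) := by
        apply integral_mono (i1.sub i2).norm _ key
        exact (i0.mul_prod i0).const_mul _
    _ = 20 * C₁ * (Real.log X) ^ C₁ * (g : ℝ) ^ C₁ * Real.exp (-A) *
        ((∫ x, ‖Ψ x‖) * ∫ x, ‖Ψ x‖) := by
        rw [integral_const_mul, Measure.volume_eq_prod]
        congr 1
        exact integral_prod_mul (fun x => ‖Ψ x‖) (fun x => ‖Ψ x‖)
    _ ≤ _ := by
        rw [sq]
        have h1 := hW.norm_int hA hB0
        have h2 : 0 ≤ ∫ x, ‖Ψ x‖ := integral_nonneg (fun x => norm_nonneg _)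
        gcongr

/-! ### the final estimate -/

theorem woff_growth (n : ℕ) {δ : ℝ} (hδ : 0 < δ) : ∃ C : ℝ, 0 < C ∧ ∀ L : ℝ, 1 ≤ L →
    L ^ n * Real.exp (-(L ^ δ / 2)) ≤ C := by
  obtain ⟨k, hk⟩ := exists_nat_ge ((n : ℝ) / δ)
  refine ⟨2 ^ k * k.factorial, by positivity, fun L hL => ?_⟩
  have h1 : L ^ n ≤ (L ^ δ) ^ k := by
    rw [← Real.rpow_natCast, ← Real.rpow_natCast, ← Real.rpow_mul (by linarith)]
    apply Real.rpow_le_rpow_of_exponent_le hL
    rwa [div_le_iff₀ hδ, mul_comm] at hk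
  have h2 := Real.pow_div_factorial_le_exp (L ^ δ / 2) (by positivity) k
  rw [div_pow, div_div, div_le_iff₀ (by positivity)] at h2
  rw [Real.exp_neg, ← div_eq_mul_inv, div_le_iff₀ (Real.exp_pos _)]
  calc L ^ n ≤ (L ^ δ) ^ k := h1
    _ ≤ _ := h2
    _ = _ := by ring

theorem woff_expand {N : ℕ} {a : ℕ → ℂ} {f : ℤ → ℂ}
    (hf : ∀ D : ℤ, f D = ∑ n ∈ Icc 1 N, a n * ((jacobiSym D n : ℤ) : ℂ)) (Ψ : ℝ → ℂ) (M : ℝ)
    (D : ℤ) : ((‖FF D M Ψ * f D‖ ^ 2 : ℝ) : ℂ) = ∑ p ∈ (Icc 1 N) ×ˢ (Icc 1 N),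
      (a p.1 * (starRingEnd ℂ) (a p.2)) * ∫ z, woffG M Ψ (p.1 * p.2) D z := by
  have h1 : ((‖f D‖ ^ 2 : ℝ) : ℂ) = ∑ p ∈ (Icc 1 N) ×ˢ (Icc 1 N),
      (a p.1 * (starRingEnd ℂ) (a p.2)) * ((jacobiSym D (p.1 * p.2) : ℤ) : ℂ) := by
    rw [← Complex.normSq_eq_norm_sq, ← Complex.mul_conj, hf D, map_sum, Finset.sum_mul_sum,
      Finset.sum_product]
    apply Finset.sum_congr rfl
    intro n hn
    apply Finset.sum_congr rfl
    intro l hl
    rw [Finset.mem_Icc] at hn hl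
    have : NeZero n := ⟨by omega⟩
    have : NeZero l := ⟨by omega⟩
    rw [jacobiSym.mul_right, map_mul, map_intCast]
    push_cast
    ring
  rw [norm_mul, mul_pow, Complex.ofReal_mul, h1, Finset.mul_sum]
  apply Finset.sum_congr rfl
  intro p _
  unfold woffG
  rw [integral_const_mul, ← woff_FF_sq]
  ring

theorem WOFF (K : ℕ) (hK : 4 ≤ K) (T₀ δ : ℝ) (hδ : 0 < δ) : ∃ C : ℝ,
    ∀ (X h t₀ M A B : ℝ) (P y m : ℕ), 3 ≤ X → 0 < h → |t₀| ≤ T₀ → X ≤ M → M ≤ 20 * X →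
    (Real.log X) ^ δ ≤ A → A ≤ B → 4 * B ≤ Real.log X → h * A ≤ 1 → X ^ 3 ≤ P → z0 ≤ y →
    C * m * Real.log y ≤ A → 1 ≤ m → ∀ Ψ : ℝ → ℂ,
    (Ψ = Psi K h t₀ A B ∨ Ψ = deriv (Psi K h t₀ A B)) →
    ED X (fun D => ‖FF D M Ψ * Mo y m D t₀‖ ^ 2) ≤
      2 * RR P (fun D => ‖FF D M Ψ * Mo y m D t₀‖ ^ 2) + C := by
  obtain ⟨C₀, hCP⟩ := CP_Mo
  obtain ⟨C₁, hE⟩ := woff_error
  obtain ⟨F, hF⟩ := Psi_bound (K := K) (by omega) T₀
  obtain ⟨C₂, hC₂, hG⟩ := woff_growth (C₁ + 2) hδ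
  set F' := |F| with hF'
  set Ck : ℝ := 2 * (C₀ + 1) * (2 + 2 * C₁) with hCk
  refine ⟨Ck + 20 * C₁ * F' ^ 2 * C₂, ?_⟩
  intro X h t₀ M A B P y m hX hh ht₀ hM1 hM2 hA hAB hB hhA hP hy hm hm1 Ψ hΨ
  have hX0 : 0 < X := by linarith
  have hL : 1 ≤ Real.log X := by
    have h3 : Real.exp 1 ≤ X := by linarith [Real.exp_one_lt_d9]
    have := Real.log_le_log (Real.exp_pos 1) h3
    rwa [Real.log_exp] at this
  set L := Real.log X with hLdef
  have hLδ : 1 ≤ L ^ δ := Real.one_le_rpow hL hδ.le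
  have hA1 : 1 ≤ A := hLδ.trans hA
  have hA0 : 0 ≤ A := by linarith
  have hB0 : 0 ≤ B := by linarith
  have hF0 : 0 ≤ F' := abs_nonneg _
  have hF1 : F ≤ F' := le_abs_self _
  -- the window
  have hW : WWin Ψ A B F' := by
    have hc := Psi_contDiff (K := K) (by omega) (h := h) (t₀ := t₀) (A := A) (B := B)
    have hs := fun x hx => Psi_support (K := K) (h := h) (t₀ := t₀) (A := A) (B := B) (x := x)
      (by linarith) hAB hx
    have hb := fun x => hF h t₀ A B x hh ht₀ hA1 hAB hhA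
    rcases hΨ with rfl | rfl
    · exact ⟨hc.continuous, fun x => (hb x).1.trans hF1, fun x hx => (hs x hx).1⟩
    · exact ⟨hc.continuous_deriv (by norm_num), fun x => (hb x).2.trans hF1,
        fun x hx => (hs x hx).2⟩
  obtain ⟨a, ha0, haB, haf⟩ := hCP y m t₀ hy
  set N := C₀ * y ^ m with hN
  -- size of `N`
  have hy2 : (2 : ℝ) ≤ y := by
    have : (z0 : ℝ) ≤ y := by exact_mod_cast hy
    unfold z0 at this
    push_cast at this
    linarith
  have hy0 : (0 : ℝ) < y := by linarith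
  have hlogy : 0 ≤ Real.log y := Real.log_nonneg (by linarith)
  have hm1R : (1 : ℝ) ≤ m := by exact_mod_cast hm1
  set W : ℝ := Real.exp ((C₀ + 1) * m * Real.log y) with hWdef
  have hW1 : 1 ≤ W := Real.one_le_exp (by positivity)
  have hNW : (C₀ : ℝ) * (y : ℝ) ^ m ≤ W := by
    have e1 : W = (y : ℝ) ^ ((C₀ + 1) * m) := by
      rw [hWdef, show ((C₀ : ℝ) + 1) * m * Real.log y = (((C₀ + 1) * m : ℕ) : ℝ) * Real.log y by
        push_cast; ring, Real.exp_nat_mul, Real.exp_log hy0]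
    have e2 : (C₀ : ℝ) ≤ (y : ℝ) ^ (C₀ * m) := by
      calc (C₀ : ℝ) ≤ 2 ^ C₀ := by exact_mod_cast (Nat.lt_two_pow_self (n := C₀)).le
        _ ≤ (y : ℝ) ^ C₀ := pow_le_pow_left₀ (by norm_num) hy2 _
        _ ≤ (y : ℝ) ^ (C₀ * m) := pow_le_pow_right₀ (by linarith) (Nat.le_mul_of_pos_right _ hm1)
    rw [e1, add_mul, one_mul, pow_add]
    gcongr
  have hCkA : Ck * m * Real.log y ≤ A := by
    refine le_trans ?_ hm
    have : 0 ≤ 20 * C₁ * F' ^ 2 * C₂ := by positivity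
    gcongr
    linarith
  have hWA : W ≤ Real.exp A := by
    apply Real.exp_le_exp.mpr
    refine le_trans ?_ hCkA
    gcongr
    rw [hCk]
    have : (0 : ℝ) ≤ C₀ := Nat.cast_nonneg _
    have : (0 : ℝ) ≤ C₁ := Nat.cast_nonneg _
    nlinarith
  have hNP : (N : ℝ) ≤ P := by
    rw [hN]
    push_cast
    have h1 : Real.exp A ≤ X := by
      rw [← Real.exp_log hX0]; apply Real.exp_le_exp.mpr; linarith
    have h2 : X ≤ X ^ 3 := le_self_pow₀ (by linarith) (by norm_num)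
    linarith
  have hNP' : N ≤ P := by exact_mod_cast hNP
  -- the identity
  set w : ℕ × ℕ → ℂ := fun p => a p.1 * (starRingEnd ℂ) (a p.2) with hw
  have hexp : ∀ D : ℤ, ((‖FF D M Ψ * Mo y m D t₀‖ ^ 2 : ℝ) : ℂ) = ∑ p ∈ (Icc 1 N) ×ˢ (Icc 1 N),
      w p * ∫ z, woffG M Ψ (p.1 * p.2) D z := fun D => woff_expand haf Ψ M D
  set Bd := (10 * (1 + M) * (F' * (2 * B))) ^ 2 with hBd
  have hE1 : ((ED X (fun D => ‖FF D M Ψ * Mo y m D t₀‖ ^ 2) : ℝ) : ℂ) =
      ∑ p ∈ (Icc 1 N) ×ˢ (Icc 1 N), w p * woffE X (fun D => ∫ z, woffG M Ψ (p.1 * p.2) D z) := by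
    rw [← woffE_ofReal]
    simp_rw [hexp]
    rw [woffE_sum (by linarith : (1 : ℝ) ≤ X) _ _ (fun p => ‖w p‖ * Bd)]
    · apply Finset.sum_congr rfl
      intro p _
      exact woffE_mul X (w p) _
    · intro p D
      rw [norm_mul]
      apply mul_le_mul_of_nonneg_left _ (norm_nonneg _)
      exact (norm_integral_le_integral_norm _).trans (woffG_norm hW hF0 hA0 hB0 (by linarith) _ D)
  have hE2 : ((RR P (fun D => ‖FF D M Ψ * Mo y m D t₀‖ ^ 2) : ℝ) : ℂ) =
      ∑ p ∈ (Icc 1 N) ×ˢ (Icc 1 N), w p * RA P (fun D => ∫ z, woffG M Ψ (p.1 * p.2) D z) := by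
    rw [← woff_RA_ofReal]
    simp_rw [hexp]
    rw [woff_RA_sum]
    apply Finset.sum_congr rfl
    intro p _
    exact woff_RA_mul P (w p) _
  set R := 20 * C₁ * L ^ C₁ * (W ^ 2) ^ C₁ * Real.exp (-A) * (F' * (2 * B)) ^ 2 with hR
  have hR0 : 0 ≤ R := by positivity
  have hterm : ∀ p ∈ (Icc 1 N) ×ˢ (Icc 1 N),
      ‖w p * (woffE X (fun D => ∫ z, woffG M Ψ (p.1 * p.2) D z) -
        2 * RA P (fun D => ∫ z, woffG M Ψ (p.1 * p.2) D z))‖ ≤ ‖a p.1‖ * ‖a p.2‖ * R := by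
    intro p hp
    rw [Finset.mem_product, Finset.mem_Icc, Finset.mem_Icc] at hp
    obtain ⟨⟨n1, n2⟩, ⟨l1, l2⟩⟩ := hp
    by_cases ho : Odd p.1 ∧ Odd p.2
    · rw [norm_mul, hw, norm_mul, Complex.norm_conj]
      apply mul_le_mul_of_nonneg_left _ (by positivity)
      refine (hE X M A B F' P (p.1 * p.2) Ψ hW hF0 hX hM1 hM2 hA0 hAB hB hP (ho.1.mul ho.2)
        ?_).trans ?_
      · intro q hq hqd
        rcases (Nat.Prime.dvd_mul hq).mp hqd with h | h
        · exact (Nat.le_of_dvd (by omega) h).trans (n2.trans hNP')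
        · exact (Nat.le_of_dvd (by omega) h).trans (l2.trans hNP')
      · rw [hR]
        have hpW : ((p.1 * p.2 : ℕ) : ℝ) ≤ W ^ 2 := by
          have k1 : (p.1 : ℝ) ≤ W := by
            refine le_trans ?_ hNW
            have : (p.1 : ℝ) ≤ (N : ℝ) := by exact_mod_cast n2
            rw [hN] at this; push_cast at this; exact this
          have k2 : (p.2 : ℝ) ≤ W := by
            refine le_trans ?_ hNW
            have : (p.2 : ℝ) ≤ (N : ℝ) := by exact_mod_cast l2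
            rw [hN] at this; push_cast at this; exact this
          push_cast
          rw [sq]
          gcongr
        gcongr
    · have hw0 : w p = 0 := by
        rw [not_and_or, Nat.not_odd_iff_even, Nat.not_odd_iff_even] at ho
        simp only [hw]
        rcases ho with ho | ho
        · rw [ha0 _ ho, zero_mul]
        · rw [ha0 _ ho, map_zero, mul_zero]
      rw [hw0, zero_mul, norm_zero]
      positivity
  have hmain : ‖((ED X (fun D => ‖FF D M Ψ * Mo y m D t₀‖ ^ 2) : ℝ) : ℂ) -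
      2 * ((RR P (fun D => ‖FF D M Ψ * Mo y m D t₀‖ ^ 2) : ℝ) : ℂ)‖ ≤ W ^ 2 * R := by
    rw [hE1, hE2, Finset.mul_sum, ← Finset.sum_sub_distrib]
    calc _ ≤ ∑ p ∈ (Icc 1 N) ×ˢ (Icc 1 N), ‖a p.1‖ * ‖a p.2‖ * R := by
          refine (norm_sum_le _ _).trans (Finset.sum_le_sum (fun p hp => ?_))
          refine le_trans (le_of_eq ?_) (hterm p hp)
          congr 1
          ring
      _ = (∑ n ∈ Icc 1 N, ‖a n‖) * (∑ n ∈ Icc 1 N, ‖a n‖) * R := by
          rw [← Finset.sum_mul, Finset.sum_mul_sum, Finset.sum_product]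
      _ ≤ W * W * R := by
          have : 0 ≤ ∑ n ∈ Icc 1 N, ‖a n‖ := Finset.sum_nonneg (fun n _ => norm_nonneg _)
          have h5 := haB.trans hNW
          gcongr
      _ = _ := by ring
  have hreal : ED X (fun D => ‖FF D M Ψ * Mo y m D t₀‖ ^ 2) -
      2 * RR P (fun D => ‖FF D M Ψ * Mo y m D t₀‖ ^ 2) ≤ W ^ 2 * R := by
    refine (le_abs_self _).trans ?_
    rw [← Real.norm_eq_abs, ← Complex.norm_real]
    push_cast
    exact hmain
  -- size of the error
  have hfin : W ^ 2 * R ≤ 20 * C₁ * F' ^ 2 * C₂ := by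
    have g1 : W ^ 2 * (W ^ 2) ^ C₁ * Real.exp (-A) ≤ Real.exp (-(L ^ δ / 2)) := by
      rw [hWdef, ← pow_mul, ← pow_add, ← Real.exp_nat_mul, ← Real.exp_add]
      apply Real.exp_le_exp.mpr
      have g2 : ((2 + 2 * C₁ : ℕ) : ℝ) * ((C₀ + 1) * m * Real.log y) = Ck * m * Real.log y / 2 := by
        rw [hCk]; push_cast; ring
      rw [g2]
      linarith
    have g3 : 2 * B ≤ L := by linarith
    calc W ^ 2 * R = 20 * C₁ * F' ^ 2 * (L ^ C₁ * (2 * B) ^ 2) *
          (W ^ 2 * (W ^ 2) ^ C₁ * Real.exp (-A)) := by rw [hR]; ring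
      _ ≤ 20 * C₁ * F' ^ 2 * (L ^ C₁ * L ^ 2) * Real.exp (-(L ^ δ / 2)) := by gcongr
      _ = 20 * C₁ * F' ^ 2 * (L ^ (C₁ + 2) * Real.exp (-(L ^ δ / 2))) := by rw [pow_add]; ring
      _ ≤ _ := by
          have := hG L hL
          gcongr
  have hCk0 : 0 ≤ Ck := by positivity
  linarith

end Pool.Agent.CZ
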