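import Mathlib
import Pool.Agent.CZ.Defs
import Pool.Agent.CZ.W
import Pool.Agent.CZ.PSI
import Pool.Agent.CZ.EDL
import Pool.Agent.CZ.CPL
import Pool.Agent.CZ.MOT
import Pool.Agent.CZ.DIAG
import Pool.Agent.CZ.WOFF

/-!
# Critical zeros (MP_553913_nt), part E: one window
-/

set_option autoImplicit false

open Complex Finset MeasureTheory

namespace Pool.Agent.CZ

open Pool.Agent.H5 (c bd)
open Pool.Agent.ZD (S T Lf nu tau gk eps MM)

namespace EWI

/-! ### continuity -/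

lemma sB_shift (D : ℤ) {M : ℝ} (hM : 0 < M) (x : ℝ) : sB D M x = sB D 1 (x - Real.log M) := by
  unfold sB
  have : Real.exp (x - Real.log M) / 1 = Real.exp x / M := by
    rw [Real.exp_sub, Real.exp_log hM, div_one]
  rw [this]

lemma cont_M (D : ℤ) {Ψ : ℝ → ℂ} (hΨ : Continuous Ψ) (hc : HasCompactSupport Ψ) :
    ContinuousOn (fun M => FF D M Ψ) (Set.Ioi 0) := by
  have h1 : ContinuousOn (fun M => ∫ x : ℝ, sB D 1 (x - Real.log M) * Ψ x) (Set.Ioi 0) := by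
    refine continuousOn_integral_of_compact_support (k := tsupport Ψ) hc ?_ ?_
    · have h2 : Continuous (sB D 1) := sB_continuous (by norm_num)
      have h3 : ContinuousOn (fun p : ℝ × ℝ => p.2 - Real.log p.1)
          (Set.Ioi (0:ℝ) ×ˢ (Set.univ : Set ℝ)) := by
        refine continuousOn_snd.sub (ContinuousOn.log continuousOn_fst ?_)
        rintro ⟨a, b⟩ hab
        simp only [Set.mem_prod, Set.mem_Ioi, Set.mem_univ, and_true] at hab
        exact hab.ne'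
      have h4 := h2.comp_continuousOn h3
      have h5 : ContinuousOn (fun p : ℝ × ℝ => Ψ p.2) (Set.Ioi (0:ℝ) ×ˢ (Set.univ : Set ℝ)) :=
        (hΨ.comp continuous_snd).continuousOn
      exact h4.mul h5
    · intro M x _ hx
      rw [image_eq_zero_of_notMem_tsupport hx, mul_zero]
  refine h1.congr (fun M hM => ?_)
  unfold FF
  refine integral_congr_ae (Filter.Eventually.of_forall fun x => ?_)
  simp only [sB_shift D hM x]

lemma cont_t (D : ℤ) {K : ℕ} (hK : 3 ≤ K) {h A B M : ℝ} (hM : 0 < M) (hA : 0 < A) (hAB : A ≤ B) :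
    Continuous (fun t₀ => FF D M (Psi K h t₀ A B)) := by
  have h1 : ContinuousOn (fun t₀ : ℝ => ∫ x : ℝ, sB D M x * Psi K h t₀ A B x) Set.univ := by
    refine continuousOn_integral_of_compact_support (k := Set.Icc A (2 * B)) isCompact_Icc ?_ ?_
    · apply Continuous.continuousOn
      have h2 : Continuous (sB D M) := sB_continuous hM
      have h3 : Continuous (what K) := by
        have := what_contDiff (K := K) (n := 0) (by omega)
        exact this.continuous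
      have h4 : Continuous eta := by
        unfold eta
        exact Real.smoothTransition.continuous.comp (by fun_prop)
      have h5 : Continuous (fun p : ℝ × ℝ => sB D M p.2 * (exp (I * p.1 * p.2) * what K (h * p.2) *
          ((eta (p.2 / B) - eta (p.2 / A) : ℝ) : ℂ))) := by
        have h6 : Continuous (fun p : ℝ × ℝ => sB D M p.2) := h2.comp continuous_snd
        have h7 : Continuous (fun p : ℝ × ℝ => what K (h * p.2)) := h3.comp (by fun_prop)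
        have h8 : Continuous (fun p : ℝ × ℝ => eta (p.2 / B)) := h4.comp (by fun_prop)
        have h9 : Continuous (fun p : ℝ × ℝ => eta (p.2 / A)) := h4.comp (by fun_prop)
        have h10 : Continuous (fun p : ℝ × ℝ => ((eta (p.2 / B) - eta (p.2 / A) : ℝ) : ℂ)) :=
          continuous_ofReal.comp (h8.sub h9)
        have h11 : Continuous (fun p : ℝ × ℝ => exp (I * p.1 * p.2)) := by fun_prop
        exact h6.mul ((h11.mul h7).mul h10)
      exact h5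
    · intro t₀ x _ hx
      rw [Set.mem_Icc, not_and_or, not_le, not_le] at hx
      have := (Psi_support (K := K) (h := h) (t₀ := t₀) hA hAB
        (x := x) (hx.imp (fun h => h.le) (fun h => h.le))).1
      simp only [this, mul_zero]
  rw [← continuousOn_univ]
  exact h1

lemma npow_cont (n : ℕ) : Continuous (npow n) := by
  unfold npow
  have h1 : Continuous (fun t : ℝ => -(1 + (t : ℂ) * I)) := by fun_prop
  refine h1.const_cpow (Or.inr (fun t => ?_))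
  intro h
  have := congrArg Complex.re h
  simp at this

lemma Mo_cont (y m : ℕ) (D : ℤ) : Continuous (fun t₀ => Mo y m D t₀) := by
  unfold Mo
  refine Continuous.mul ?_ ?_
  · refine continuous_finsetProd _ (fun p _ => ?_)
    unfold ellInv
    have := npow_cont p
    fun_prop
  · unfold Mo'
    refine continuous_finsetSum _ (fun n _ => ?_)
    have := npow_cont n
    fun_prop

/-! ### passage from `M₀ = X` to `M_d` -/

lemma Md_range {X d : ℕ} (hd : X < d) (hd2 : d ≤ 2 * X) : (X : ℝ) ≤ Md d ∧ Md d ≤ 20 * X := by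
  have h1 : (X : ℝ) < d := by exact_mod_cast hd
  have h2 : (d : ℝ) ≤ 2 * X := by exact_mod_cast hd2
  have h0 : (0:ℝ) ≤ X := Nat.cast_nonneg X
  have hs : Real.sqrt 2 ≤ 2 := by
    rw [Real.sqrt_le_left (by norm_num)]; norm_num
  have hs1 : 1 ≤ Real.sqrt 2 := by
    rw [Real.one_le_sqrt]; norm_num
  unfold Md
  split_ifs
  · constructor <;> linarith
  · constructor
    · nlinarith
    · nlinarith

/-- pointwise bound -/
lemma pointwise {D : ℤ} {X M : ℝ} (hX : 0 < X) (h1 : X ≤ M) (h2 : M ≤ 20 * X) {Ψ : ℝ → ℂ}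
    (hΨ : ContDiff ℝ 1 Ψ) (hc : HasCompactSupport Ψ) (w : ℂ) :
    ‖FF D M Ψ * w‖ ^ 2 ≤ 2 * ‖FF D X Ψ * w‖ ^ 2 +
      38 / X * ∫ u in X..(20 * X), ‖FF D u (deriv Ψ) * w‖ ^ 2 := by
  have hΨ' : Continuous (deriv Ψ) := hΨ.continuous_deriv le_rfl
  have hc' : HasCompactSupport (deriv Ψ) := hc.deriv
  have hcont : ContinuousOn (fun u => ‖FF D u (deriv Ψ) * w‖) (Set.Icc X (20 * X)) := by
    have := cont_M D hΨ' hc'
    exact ((this.mul continuousOn_const).norm).mono (fun u hu => lt_of_lt_of_le hX hu.1)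
  have hX20 : X ≤ 20 * X := by linarith
  have hint : IntervalIntegrable (fun u => ‖FF D u (deriv Ψ) * w‖) volume X (20 * X) := by
    apply ContinuousOn.intervalIntegrable
    rwa [Set.uIcc_of_le hX20]
  have hint2 : IntervalIntegrable (fun u => ‖FF D u (deriv Ψ) * w‖ ^ 2) volume X (20 * X) := by
    apply ContinuousOn.intervalIntegrable
    rw [Set.uIcc_of_le hX20]
    exact hcont.pow 2
  have h3 := FF_change (D := D) hX h1 hΨ hc
  have h4 : (∫ u in X..M, ‖FF D u (deriv Ψ)‖ / u) * ‖w‖ ≤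
      1 / X * ∫ u in X..(20 * X), ‖FF D u (deriv Ψ) * w‖ := by
    have hintM : IntervalIntegrable (fun u => ‖FF D u (deriv Ψ) * w‖) volume X M :=
      hint.mono_set (by
        rw [Set.uIcc_of_le hX20, Set.uIcc_of_le h1]
        exact Set.Icc_subset_Icc le_rfl h2)
    have hintD : IntervalIntegrable (fun u => ‖FF D u (deriv Ψ)‖ / u * ‖w‖) volume X M := by
      apply ContinuousOn.intervalIntegrable
      rw [Set.uIcc_of_le h1]
      have h5 : ContinuousOn (fun u => ‖FF D u (deriv Ψ)‖) (Set.Icc X M) :=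
        ((cont_M D hΨ' hc').norm).mono (fun u hu => lt_of_lt_of_le hX hu.1)
      exact (h5.div continuousOn_id (fun u hu => (lt_of_lt_of_le hX hu.1).ne')).mul continuousOn_const
    rw [← intervalIntegral.integral_mul_const]
    calc ∫ u in X..M, ‖FF D u (deriv Ψ)‖ / u * ‖w‖
        ≤ ∫ u in X..M, 1 / X * ‖FF D u (deriv Ψ) * w‖ := by
          refine intervalIntegral.integral_mono_on h1 hintD (hintM.const_mul _) (fun u hu => ?_)
          rw [norm_mul]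
          have hu0 : 0 < u := lt_of_lt_of_le hX hu.1
          have : 1 / u ≤ 1 / X := one_div_le_one_div_of_le hX hu.1
          calc ‖FF D u (deriv Ψ)‖ / u * ‖w‖ = 1 / u * (‖FF D u (deriv Ψ)‖ * ‖w‖) := by ring
            _ ≤ _ := by gcongr
      _ = 1 / X * ∫ u in X..M, ‖FF D u (deriv Ψ) * w‖ := intervalIntegral.integral_const_mul _ _
      _ ≤ _ := by
          apply mul_le_mul_of_nonneg_left _ (by positivity)
          refine intervalIntegral.integral_mono_interval le_rfl h1 h2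
            (Filter.Eventually.of_forall fun u => norm_nonneg _) hint
  -- Cauchy-Schwarz
  set a := ∫ u in X..(20 * X), ‖FF D u (deriv Ψ) * w‖ with ha
  set b := ∫ u in X..(20 * X), ‖FF D u (deriv Ψ) * w‖ ^ 2 with hb
  have hCS : a ^ 2 ≤ 19 * X * b := by
    -- (a - integral)^2 ≥ 0 trick: for every s, ∫ (f - s)^2 ≥ 0
    have h6 : ∀ s : ℝ, 0 ≤ b - 2 * s * a + s ^ 2 * (19 * X) := by
      intro s
      have h7 : 0 ≤ ∫ u in X..(20 * X), (‖FF D u (deriv Ψ) * w‖ - s) ^ 2 :=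
        intervalIntegral.integral_nonneg hX20 (fun u _ => sq_nonneg _)
      have h8 : ∫ u in X..(20 * X), (‖FF D u (deriv Ψ) * w‖ - s) ^ 2 =
          b - 2 * s * a + s ^ 2 * (19 * X) := by
        have e1 : ∀ u, (‖FF D u (deriv Ψ) * w‖ - s) ^ 2 =
            (‖FF D u (deriv Ψ) * w‖ ^ 2 - 2 * s * ‖FF D u (deriv Ψ) * w‖) + s ^ 2 := by
          intro u; ring
        simp only [e1]
        rw [intervalIntegral.integral_add (hint2.sub (hint.const_mul _)) (by simp),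
          intervalIntegral.integral_sub hint2 (hint.const_mul _),
          intervalIntegral.integral_const_mul, intervalIntegral.integral_const]
        simp only [smul_eq_mul]
        ring
      rwa [h8] at h7
    have h9 := h6 (a / (19 * X))
    have h10 : b - 2 * (a / (19 * X)) * a + (a / (19 * X)) ^ 2 * (19 * X) = b - a ^ 2 / (19 * X) := by
      field_simp; ring
    rw [h10] at h9
    have h11 : a ^ 2 / (19 * X) ≤ b := by linarith
    rwa [div_le_iff₀ (by positivity), mul_comm] at h11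
  have h5 : ‖FF D M Ψ * w‖ ≤ ‖FF D X Ψ * w‖ + 1 / X * a := by
    calc ‖FF D M Ψ * w‖ = ‖FF D M Ψ‖ * ‖w‖ := norm_mul _ _
      _ ≤ (‖FF D X Ψ‖ + ∫ u in X..M, ‖FF D u (deriv Ψ)‖ / u) * ‖w‖ := by gcongr
      _ = ‖FF D X Ψ * w‖ + (∫ u in X..M, ‖FF D u (deriv Ψ)‖ / u) * ‖w‖ := by
          rw [add_mul, norm_mul]
      _ ≤ _ := by linarith
  calc ‖FF D M Ψ * w‖ ^ 2 ≤ (‖FF D X Ψ * w‖ + 1 / X * a) ^ 2 := by gcongr
    _ ≤ 2 * ‖FF D X Ψ * w‖ ^ 2 + 2 * (1 / X * a) ^ 2 := by nlinarith [sq_nonneg (‖FF D X Ψ * w‖ - 1 / X * a)]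
    _ = 2 * ‖FF D X Ψ * w‖ ^ 2 + 2 / X ^ 2 * a ^ 2 := by ring
    _ ≤ 2 * ‖FF D X Ψ * w‖ ^ 2 + 2 / X ^ 2 * (19 * X * b) := by gcongr
    _ = _ := by field_simp; ring

/-- summation over the family at a fixed centre -/
lemma family {X : ℕ} (hX : 1 ≤ X) {Ψ : ℝ → ℂ} (hΨ : ContDiff ℝ 1 Ψ) (hc : HasCompactSupport Ψ)
    (w : ℤ → ℂ) {E Bd : ℝ}
    (hb : ∀ (D : ℤ) (M : ℝ), (X : ℝ) ≤ M → M ≤ 20 * X →
      ‖FF D M Ψ * w D‖ ^ 2 ≤ Bd ∧ ‖FF D M (deriv Ψ) * w D‖ ^ 2 ≤ Bd)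
    (hE : ∀ M : ℝ, (X : ℝ) ≤ M → M ≤ 20 * X →
      ED X (fun D => ‖FF D M Ψ * w D‖ ^ 2) ≤ E ∧ ED X (fun D => ‖FF D M (deriv Ψ) * w D‖ ^ 2) ≤ E) :
    ∑ d ∈ (Ioc X (2 * X)).filter Squarefree, ‖FF d (Md d) Ψ * w d‖ ^ 2 ≤ 21720 * X * E := by
  have hX0 : (0:ℝ) < X := by exact_mod_cast hX
  have hX20 : (X:ℝ) ≤ 20 * X := by linarith
  have hΨ' : Continuous (deriv Ψ) := hΨ.continuous_deriv le_rfl
  have hc' : HasCompactSupport (deriv Ψ) := hc.deriv
  have hint : ∀ D : ℤ, IntervalIntegrable (fun u => ‖FF D u (deriv Ψ) * w D‖ ^ 2) volume X (20 * X) := by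
    intro D
    apply ContinuousOn.intervalIntegrable
    rw [Set.uIcc_of_le hX20]
    have := cont_M D hΨ' hc'
    exact (((this.mul continuousOn_const).norm).mono (fun u hu => lt_of_lt_of_le hX0 hu.1)).pow 2
  have h1 : ∀ d ∈ (Ioc X (2 * X)).filter Squarefree, ‖FF (d : ℤ) (Md d) Ψ * w d‖ ^ 2 ≤
      2 * ‖FF (d : ℤ) X Ψ * w d‖ ^ 2 +
      38 / X * ∫ u in (X : ℝ)..(20 * X), ‖FF (d : ℤ) u (deriv Ψ) * w d‖ ^ 2 := by
    intro d hd
    rw [Finset.mem_filter, Finset.mem_Ioc] at hd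
    obtain ⟨h2, h3⟩ := Md_range hd.1.1 hd.1.2
    exact pointwise hX0 h2 h3 hΨ hc _
  refine (Finset.sum_le_sum h1).trans ?_
  have hswap : ∑ d ∈ (Ioc X (2 * X)).filter Squarefree,
      ∫ u in (X : ℝ)..(20 * X), ‖FF (d : ℤ) u (deriv Ψ) * w d‖ ^ 2 =
      ∫ u in (X : ℝ)..(20 * X), ∑ d ∈ (Ioc X (2 * X)).filter Squarefree,
        ‖FF (d : ℤ) u (deriv Ψ) * w d‖ ^ 2 :=
    (intervalIntegral.integral_finsetSum (fun (d : ℕ) _ => hint (d : ℤ))).symm
  rw [Finset.sum_add_distrib, ← Finset.mul_sum, ← Finset.mul_sum, hswap]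
  have hF1 : ∑ d ∈ (Ioc X (2 * X)).filter Squarefree, ‖FF (d : ℤ) X Ψ * w d‖ ^ 2 ≤ 30 * X * E := by
    refine (ED_family hX (f := fun D => ‖FF D X Ψ * w D‖ ^ 2) (B := Bd) (fun D => by positivity)
      (fun D => (hb D X le_rfl hX20).1)).trans ?_
    exact mul_le_mul_of_nonneg_left (hE X le_rfl hX20).1 (by positivity)
  have hF2 : ∫ u in (X : ℝ)..(20 * X), ∑ d ∈ (Ioc X (2 * X)).filter Squarefree,
      ‖FF (d : ℤ) u (deriv Ψ) * w d‖ ^ 2 ≤ 19 * X * (30 * X * E) := by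
    have h4 : ∫ u in (X : ℝ)..(20 * X), ∑ d ∈ (Ioc X (2 * X)).filter Squarefree,
      ‖FF (d : ℤ) u (deriv Ψ) * w d‖ ^ 2 ≤ ∫ _u in (X : ℝ)..(20 * X), 30 * X * E := by
      refine intervalIntegral.integral_mono_on hX20 ?_ (by simp) (fun u hu => ?_)
      · have h5 := IntervalIntegrable.sum ((Ioc X (2 * X)).filter Squarefree)
          (f := fun (d : ℕ) (u : ℝ) => ‖FF (d : ℤ) u (deriv Ψ) * w d‖ ^ 2)
          (fun d _ => hint (d : ℤ))
        refine h5.congr_ae (Filter.Eventually.of_forall fun u => ?_)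
        simp only [Finset.sum_apply]
      · refine (ED_family hX (f := fun D => ‖FF D u (deriv Ψ) * w D‖ ^ 2) (B := Bd)
          (fun D => by positivity) (fun D => (hb D u hu.1 hu.2).2)).trans ?_
        exact mul_le_mul_of_nonneg_left (hE u hu.1 hu.2).2 (by positivity)
    rw [intervalIntegral.integral_const, smul_eq_mul] at h4
    calc _ ≤ _ := h4
      _ = _ := by ring
  calc _ ≤ 2 * (30 * X * E) + 38 / X * (19 * X * (30 * X * E)) := by gcongr
    _ = _ := by field_simp; ring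

/-- boundedness -/
lemma FF_bdd {D : ℤ} {M : ℝ} (hM : 0 < M) {Ψ : ℝ → ℂ} (hΨ : Continuous Ψ) (hc : HasCompactSupport Ψ)
    (h0 : ∀ x, x < 0 → Ψ x = 0) : ‖FF D M Ψ‖ ≤ 10 * (1 + M) * ∫ x, ‖Ψ x‖ := by
  unfold FF
  rw [← integral_const_mul]
  refine norm_integral_le_of_norm_le ((hΨ.norm.integrable_of_hasCompactSupport hc.norm).const_mul _)
    (Filter.Eventually.of_forall fun x => ?_)
  rw [norm_mul]
  by_cases hx : x < 0
  · rw [h0 x hx]; simp
  · exact mul_le_mul_of_nonneg_right (sB_bound hM (not_lt.1 hx)) (norm_nonneg _)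

/-- powers of `log log` against powers of `log` -/
lemma LL_le (k s : ℝ) (hs : 0 < s) : ∃ C : ℝ, 0 < C ∧ ∀ L : ℝ, 1 ≤ L →
    (Real.log (L + 3)) ^ k ≤ C * L ^ s := by
  set k' : ℝ := |k| + 1 with hk'
  have hk0 : 0 < k' := by positivity
  have hkk : k ≤ k' := (le_abs_self k).trans (by linarith)
  set e : ℝ := s / k' with he
  have he0 : 0 < e := by positivity
  refine ⟨(4 ^ e / e) ^ k', by positivity, fun L hL => ?_⟩
  have hLL : 1 ≤ Real.log (L + 3) := by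
    rw [Real.le_log_iff_exp_le (by linarith)]
    have := Real.exp_one_lt_d9
    linarith
  have h1 : Real.log (L + 3) ≤ 4 ^ e / e * L ^ e := by
    have h2 := Real.log_le_rpow_div (x := L + 3) (by linarith) he0
    have h3 : (L + 3) ^ e ≤ (4 * L) ^ e := Real.rpow_le_rpow (by linarith) (by linarith) he0.le
    rw [Real.mul_rpow (by norm_num) (by linarith)] at h3
    calc _ ≤ _ := h2
      _ ≤ 4 ^ e * L ^ e / e := by gcongr
      _ = _ := by ring
  calc (Real.log (L + 3)) ^ k ≤ (Real.log (L + 3)) ^ k' := Real.rpow_le_rpow_of_exponent_le hLL hkk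
    _ ≤ (4 ^ e / e * L ^ e) ^ k' := Real.rpow_le_rpow (by linarith) h1 hk0.le
    _ = (4 ^ e / e) ^ k' * L ^ s := by
        rw [Real.mul_rpow (by positivity) (by positivity), ← Real.rpow_mul (by linarith)]
        congr 2
        rw [he]; field_simp

lemma LL_one {L : ℝ} (hL : 1 ≤ L) : 1 ≤ Real.log (L + 3) := by
  rw [Real.le_log_iff_exp_le (by linarith)]
  have := Real.exp_one_lt_d9
  linarith

/-- floor of an exponential -/
lemma floor_exp {v : ℝ} (hv : 2 ≤ v) : Real.log (⌊Real.exp v⌋₊ : ℝ) ≤ v ∧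
    v / 2 ≤ Real.log (⌊Real.exp v⌋₊ : ℝ) := by
  have h1 : Real.exp 1 ≤ Real.exp v := Real.exp_le_exp.2 (by linarith)
  have h2 := Real.exp_one_gt_d9
  have h3 : (⌊Real.exp v⌋₊ : ℝ) ≤ Real.exp v := Nat.floor_le (by positivity)
  have h4 : Real.exp v / 2 ≤ (⌊Real.exp v⌋₊ : ℝ) := by
    have := Nat.lt_floor_add_one (Real.exp v)
    linarith
  have h5 : (0:ℝ) < (⌊Real.exp v⌋₊ : ℝ) := lt_of_lt_of_le (by positivity) h4
  refine ⟨?_, ?_⟩
  · rw [Real.log_le_iff_le_exp h5]; exact h3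
  · have h6 : Real.log (Real.exp v / 2) ≤ Real.log (⌊Real.exp v⌋₊ : ℝ) :=
      Real.log_le_log (by positivity) h4
    rw [Real.log_div (by positivity) (by norm_num), Real.log_exp] at h6
    have := Real.log_two_lt_d9
    linarith

/-- the second moment bound for one window, uniform in all parameters -/
lemma second (K : ℕ) (T₁ T₂ b δ' : ℝ) (hK : 4 ≤ K) (hT₁ : 0 < T₁) (hT : T₁ < T₂)
    (hb1 : b < 1) (hδ : 0 < δ') (hδ1 : δ' ≤ (1 - b) / 2) {Cd : ℝ} (hCd : 0 ≤ Cd)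
    (hD : ∀ (X h t₀ M A B : ℝ) (P y m : ℕ), 3 ≤ X → 0 < h → |t₀| ≤ T₂ → X ≤ M → M ≤ 20 * X →
      1 ≤ A → A ≤ B → B ≤ Real.log X → h * A ≤ 1 → X ^ 3 ≤ P → (P : ℝ) ≤ X ^ 4 → z0 ≤ y →
      Real.log y ≤ A → Cd * Real.log (Real.log X + 3) ≤ m → ∀ Ψ : ℝ → ℂ,
      (Ψ = Psi K h t₀ A B ∨ Ψ = deriv (Psi K h t₀ A B)) →
      RR P (fun D => ‖FF D M Ψ * Mo y m D t₀‖ ^ 2) ≤
        Cd * (Real.log (Real.log X + 3)) ^ Cd * (B / A) ^ Cd * (1 + B / Real.log y))
    (Cm : ℝ) (hCm : 1 ≤ Cm) (hCmD : Cd ≤ Cm) :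
    ∃ Cw L₀ C : ℝ, 1 ≤ Cw ∧ 2 ≤ L₀ ∧ 0 ≤ C ∧ ∀ (X : ℕ) (α t₀ M : ℝ), 3 ≤ X → L₀ ≤ Real.log X →
      δ' ≤ α → α ≤ b → T₁ ≤ t₀ → t₀ ≤ T₂ → (X : ℝ) ≤ M → M ≤ 20 * X → ∀ (m y : ℕ),
      m = ⌈Cm * Real.log (Real.log X + 3)⌉₊ →
      y = ⌊Real.exp ((Real.log X) ^ α / (Cw * m))⌋₊ → 
      z0 ≤ y ∧ Real.log y ≤ (Real.log X) ^ b ∧ Cm * Real.log (Real.log X + 3) ≤ m ∧
      ∀ Ψ : ℝ → ℂ,
      (Ψ = Psi K ((Real.log X) ^ (-b)) t₀ ((Real.log X) ^ α) ((Real.log X) ^ (α + δ')) ∨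
        Ψ = deriv (Psi K ((Real.log X) ^ (-b)) t₀ ((Real.log X) ^ α) ((Real.log X) ^ (α + δ')))) →
      ED X (fun D => ‖FF D M Ψ * Mo y m D t₀‖ ^ 2) ≤ C * (Real.log X) ^ ((Cd + 2) * δ') := by
  obtain ⟨Cw0, hW⟩ := WOFF K hK T₂ δ' hδ
  set Cw : ℝ := max Cw0 1 with hCw
  have hCw1 : 1 ≤ Cw := le_max_right _ _
  have hCw0 : Cw0 ≤ Cw := le_max_left _ _
  obtain ⟨c1, hc1, hLL1⟩ := LL_le 1 (δ' / 2) (by linarith)
  obtain ⟨c2, hc2, hLL2⟩ := LL_le (Cd + 1) δ' hδ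
  -- conditions on `L`
  set V : ℝ := Real.log z0 + 2 with hV
  have hz0 : (0:ℝ) < z0 := by norm_num [z0]
  have hV2 : 2 ≤ V := by
    have : 0 ≤ Real.log z0 := Real.log_nonneg (by norm_num [z0])
    linarith
  -- L₀
  set G : ℝ := V * (Cw * (2 * Cm) * c1) with hG
  have hG0 : 0 < G := by positivity
  set L₀ : ℝ := max 2 (max (G ^ (2 / δ')) (4 ^ (2 / (1 - b)))) with hL₀
  refine ⟨Cw, L₀, (2 * (Cd * (2 * (1 + 4 * Cw * Cm)) * c2)) + Cw, hCw1, le_max_left _ _, by positivity, ?_⟩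
  intro X α t₀ M hX hL hα hαb ht1 ht2 hM1 hM2 m y hm hy
  set L : ℝ := Real.log X with hLdef
  have hL2 : 2 ≤ L := (le_max_left _ _).trans hL
  have hL1 : 1 ≤ L := by linarith
  have hL0 : 0 < L := by linarith
  have hLG : G ^ (2 / δ') ≤ L := ((le_max_left _ _).trans (le_max_right _ _)).trans hL
  have hL4 : (4:ℝ) ^ (2 / (1 - b)) ≤ L := ((le_max_right _ _).trans (le_max_right _ _)).trans hL
  have hLL := LL_one hL1
  set LL : ℝ := Real.log (L + 3) with hLLdef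
  have hX3 : (3:ℝ) ≤ X := by exact_mod_cast hX
  have hX1 : (1:ℝ) ≤ X := by linarith
  -- size of m
  have hm1 : Cm * LL ≤ m := by rw [hm]; exact Nat.le_ceil _
  have hm2 : (m : ℝ) ≤ 2 * Cm * LL := by
    have := (Nat.ceil_lt_add_one (show 0 ≤ Cm * LL by positivity)).le
    rw [← hm] at this
    have : 1 ≤ Cm * LL := by nlinarith
    linarith
  have hm0 : (1:ℝ) ≤ m := by nlinarith
  have hmpos : (0:ℝ) < m := by linarith
  -- A and B
  set A : ℝ := L ^ α with hA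
  have hα0 : 0 < α := lt_of_lt_of_le hδ hα
  have hA1 : 1 ≤ A := Real.one_le_rpow hL1 hα0.le
  have hAd : L ^ δ' ≤ A := Real.rpow_le_rpow_of_exponent_le hL1 hα
  have hAb : A ≤ L ^ b := Real.rpow_le_rpow_of_exponent_le hL1 hαb
  set B : ℝ := L ^ (α + δ') with hB
  have hBA : B = A * L ^ δ' := by rw [hB, Real.rpow_add hL0]
  have hLd1 : 1 ≤ L ^ δ' := Real.one_le_rpow hL1 hδ.le
  have hAB : A ≤ B := by rw [hBA]; nlinarith
  have h4B : 4 * B ≤ L := by
    have h1b : 0 < 1 - b := by linarith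
    have e1 : B ≤ L ^ (1 - (1 - b) / 2) := by
      apply Real.rpow_le_rpow_of_exponent_le hL1
      linarith
    have e2 : (4:ℝ) ≤ L ^ ((1 - b) / 2) := by
      have := Real.rpow_le_rpow (by positivity) hL4 (z := (1 - b) / 2) (by linarith)
      rw [← Real.rpow_mul (by norm_num)] at this
      have e3 : 2 / (1 - b) * ((1 - b) / 2) = 1 := by field_simp
      rwa [e3, Real.rpow_one] at this
    calc 4 * B ≤ L ^ ((1 - b) / 2) * L ^ (1 - (1 - b) / 2) := by gcongr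
      _ = L := by
          rw [← Real.rpow_add hL0]
          have : (1 - b) / 2 + (1 - (1 - b) / 2) = 1 := by ring
          rw [this, Real.rpow_one]
  -- v
  set v : ℝ := A / (Cw * m) with hv
  have hvV : V ≤ v := by
    rw [hv, le_div_iff₀ (by positivity)]
    have e1 : G ≤ L ^ (δ' / 2) := by
      have := Real.rpow_le_rpow (by positivity) hLG (z := δ' / 2) (by linarith)
      rw [← Real.rpow_mul hG0.le] at this
      have e3 : 2 / δ' * (δ' / 2) = 1 := by field_simp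
      rwa [e3, Real.rpow_one] at this
    have e2 : LL ≤ c1 * L ^ (δ' / 2) := by
      have := hLL1 L hL1
      rwa [Real.rpow_one] at this
    calc V * (Cw * m) ≤ V * (Cw * (2 * Cm * (c1 * L ^ (δ' / 2)))) := by
          have : (m:ℝ) ≤ 2 * Cm * (c1 * L ^ (δ' / 2)) :=
            hm2.trans (mul_le_mul_of_nonneg_left e2 (by positivity))
          gcongr
      _ = G * L ^ (δ' / 2) := by rw [hG]; ring
      _ ≤ L ^ (δ' / 2) * L ^ (δ' / 2) := by gcongr
      _ = L ^ δ' := by rw [← Real.rpow_add hL0]; congr 1; ring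
      _ ≤ A := hAd
  have hv2 : 2 ≤ v := hV2.trans hvV
  obtain ⟨hy1, hy2⟩ := floor_exp hv2
  rw [← hy] at hy1 hy2
  have hvA : v ≤ A := by
    rw [hv]
    exact div_le_self (by linarith) (by nlinarith)
  have hz0y : z0 ≤ y := by
    rw [hy]
    apply Nat.le_floor
    rw [← Real.log_le_iff_le_exp hz0]
    linarith
  have hlogy : 0 < Real.log y := by linarith
  refine ⟨hz0y, by linarith, hm1, ?_⟩
  intro Ψ hΨ
  have hh : 0 < L ^ (-b) := by positivity
  have hhA : L ^ (-b) * A ≤ 1 := by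
    calc L ^ (-b) * A ≤ L ^ (-b) * L ^ b := by gcongr
      _ = 1 := by rw [← Real.rpow_add hL0]; simp
  have ht0 : |t₀| ≤ T₂ := by rw [abs_of_pos (by linarith)]; exact ht2
  have hP1 : (X:ℝ) ^ 3 ≤ ((X ^ 3 : ℕ) : ℝ) := by push_cast; exact le_rfl
  have hP2 : ((X ^ 3 : ℕ) : ℝ) ≤ (X:ℝ) ^ 4 := by
    push_cast
    exact pow_le_pow_right₀ hX1 (by norm_num)
  have hmN : 1 ≤ m := by exact_mod_cast hm0
  have hWm : Cw0 * m * Real.log y ≤ A := by
    calc Cw0 * m * Real.log y ≤ Cw * m * v := by gcongr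
      _ = A := by rw [hv]; field_simp
  have h1 := hW X (L ^ (-b)) t₀ M A B (X ^ 3) y m hX3 hh ht0 hM1 hM2 hAd hAB h4B hhA hP1 hz0y hWm hmN
    Ψ hΨ
  have hCdm : Cd * LL ≤ m := le_trans (by gcongr) hm1
  have h2 := hD X (L ^ (-b)) t₀ M A B (X ^ 3) y m hX3 hh ht0 hM1 hM2 hA1 hAB (by linarith) hhA hP1 hP2
    hz0y (by linarith) hCdm Ψ hΨ
  have h3 : B / A = L ^ δ' := by rw [hBA]; field_simp
  have h4 : 1 + B / Real.log y ≤ (1 + 4 * Cw * Cm) * LL * L ^ δ' := by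
    have e1 : B / Real.log y ≤ B / (v / 2) := by gcongr
    have e2 : B / (v / 2) = 2 * Cw * m * L ^ δ' := by
      rw [hBA, hv]; field_simp
    have e3 : 2 * Cw * m * L ^ δ' ≤ 2 * Cw * (2 * Cm * LL) * L ^ δ' := by gcongr
    have e4 : 1 ≤ LL * L ^ δ' := by nlinarith
    calc 1 + B / Real.log y ≤ LL * L ^ δ' + 2 * Cw * (2 * Cm * LL) * L ^ δ' := by linarith
      _ = _ := by ring
  have h5 : Cd * LL ^ Cd * (B / A) ^ Cd * (1 + B / Real.log y) ≤
      Cd * (2 * (1 + 4 * Cw * Cm)) * c2 * L ^ ((Cd + 2) * δ') := by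
    have e5 : LL ^ (Cd + 1) ≤ c2 * L ^ δ' := hLL2 L hL1
    have e6 : (L ^ δ') ^ Cd = L ^ (Cd * δ') := by
      rw [← Real.rpow_mul hL0.le]; congr 1; ring
    rw [h3, e6]
    calc Cd * LL ^ Cd * L ^ (Cd * δ') * (1 + B / Real.log y)
        ≤ Cd * LL ^ Cd * L ^ (Cd * δ') * ((1 + 4 * Cw * Cm) * LL * L ^ δ') := by gcongr
      _ = Cd * (1 + 4 * Cw * Cm) * (LL ^ Cd * LL) * (L ^ (Cd * δ') * L ^ δ') := by ring
      _ = Cd * (1 + 4 * Cw * Cm) * LL ^ (Cd + 1) * (L ^ (Cd * δ') * L ^ δ') := by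
          rw [Real.rpow_add (by linarith : 0 < LL), Real.rpow_one]
      _ ≤ Cd * (1 + 4 * Cw * Cm) * (c2 * L ^ δ') * (L ^ (Cd * δ') * L ^ δ') := by gcongr
      _ = Cd * (1 + 4 * Cw * Cm) * c2 * (L ^ δ' * (L ^ (Cd * δ') * L ^ δ')) := by ring
      _ = Cd * (1 + 4 * Cw * Cm) * c2 * L ^ ((Cd + 2) * δ') := by
          rw [← Real.rpow_add hL0, ← Real.rpow_add hL0]; congr 2; ring
      _ ≤ Cd * (2 * (1 + 4 * Cw * Cm)) * c2 * L ^ ((Cd + 2) * δ') := by
          gcongr; linarith [show 0 ≤ 4 * Cw * Cm by positivity]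
  have h6 : 1 ≤ L ^ ((Cd + 2) * δ') := Real.one_le_rpow hL1 (by positivity)
  calc ED X (fun D => ‖FF D M Ψ * Mo y m D t₀‖ ^ 2)
      ≤ 2 * RR (X ^ 3) (fun D => ‖FF D M Ψ * Mo y m D t₀‖ ^ 2) + Cw0 := h1
    _ ≤ 2 * (Cd * (2 * (1 + 4 * Cw * Cm)) * c2 * L ^ ((Cd + 2) * δ')) + Cw := by linarith
    _ ≤ 2 * (Cd * (2 * (1 + 4 * Cw * Cm)) * c2 * L ^ ((Cd + 2) * δ')) + Cw * L ^ ((Cd + 2) * δ') := by
        nlinarith
    _ = _ := by ring

/-- subsets of an interval have finite measure -/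
lemma fin_meas {T₁ T₂ : ℝ} (p : ℝ → Prop) : volume {t : ℝ | t ∈ Set.Icc T₁ T₂ ∧ p t} ≠ ⊤ := by
  refine (lt_of_le_of_lt (measure_mono (?_ : {t : ℝ | t ∈ Set.Icc T₁ T₂ ∧ p t} ⊆ Set.Icc T₁ T₂)) ?_).ne
  · intro t ht; exact ht.1
  · rw [Real.volume_Icc]; exact ENNReal.ofReal_lt_top

lemma triv_meas {T₁ T₂ : ℝ} (hT : T₁ ≤ T₂) (p : ℝ → Prop) :
    (volume {t : ℝ | t ∈ Set.Icc T₁ T₂ ∧ p t}).toReal ≤ T₂ - T₁ := by
  have h1 : volume {t : ℝ | t ∈ Set.Icc T₁ T₂ ∧ p t} ≤ volume (Set.Icc T₁ T₂) :=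
    measure_mono (fun t ht => ht.1)
  rw [Real.volume_Icc] at h1
  exact (ENNReal.toReal_mono ENNReal.ofReal_ne_top h1).trans
    (by rw [ENNReal.toReal_ofReal (by linarith)])

lemma union_meas {T₁ T₂ : ℝ} {p q r : ℝ → Prop} (h : ∀ t ∈ Set.Icc T₁ T₂, p t → q t ∨ r t) :
    (volume {t : ℝ | t ∈ Set.Icc T₁ T₂ ∧ p t}).toReal ≤
      (volume {t : ℝ | t ∈ Set.Icc T₁ T₂ ∧ q t}).toReal +
      (volume {t : ℝ | t ∈ Set.Icc T₁ T₂ ∧ r t}).toReal := by
  rw [← ENNReal.toReal_add (fin_meas q) (fin_meas r)]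
  refine ENNReal.toReal_mono (ENNReal.add_ne_top.2 ⟨fin_meas q, fin_meas r⟩) ?_
  refine (measure_mono ?_).trans (measure_union_le _ _)
  rintro t ⟨ht, hp⟩
  rcases h t ht hp with h1 | h1
  · exact Or.inl ⟨ht, h1⟩
  · exact Or.inr ⟨ht, h1⟩

lemma card_le (X : ℕ) : (((Ioc X (2 * X)).filter Squarefree).card : ℝ) ≤ X := by
  have : ((Ioc X (2 * X)).filter Squarefree).card ≤ X := by
    refine (Finset.card_filter_le _ _).trans ?_
    rw [Nat.card_Ioc]; omega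
  exact_mod_cast this

/-- average over the centres and Markov's inequality for a continuous family of functions -/
lemma markov_avg {X : ℕ} {T₁ T₂ lam E : ℝ} (hT : T₁ < T₂) (hl : 0 < lam) (f : ℕ → ℝ → ℝ)
    (h0 : ∀ d t, 0 ≤ f d t) (hc : ∀ d ∈ (Ioc X (2 * X)).filter Squarefree, Continuous (f d))
    (hE : ∀ t, T₁ ≤ t → t ≤ T₂ → ∑ d ∈ (Ioc X (2 * X)).filter Squarefree, f d t ≤ E) :
    ∑ d ∈ (Ioc X (2 * X)).filter Squarefree,
      (volume {t : ℝ | t ∈ Set.Icc T₁ T₂ ∧ lam < f d t}).toReal ≤ (T₂ - T₁) * E / lam := by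
  have h1 : ∀ d ∈ (Ioc X (2 * X)).filter Squarefree,
      (volume {t : ℝ | t ∈ Set.Icc T₁ T₂ ∧ lam < f d t}).toReal ≤ (∫ t in T₁..T₂, f d t) / lam :=
    fun d hd => markov hT.le hl (h0 d) ((hc d hd).continuousOn.integrableOn_Icc)
  refine (Finset.sum_le_sum h1).trans ?_
  rw [← Finset.sum_div, ← intervalIntegral.integral_finsetSum
    (fun d hd => (hc d hd).intervalIntegrable _ _)]
  apply div_le_div_of_nonneg_right _ hl.le
  have hcs : Continuous (fun t => ∑ d ∈ (Ioc X (2 * X)).filter Squarefree, f d t) :=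
    continuous_finsetSum _ (fun d hd => hc d hd)
  have h2 : ∫ t in T₁..T₂, ∑ d ∈ (Ioc X (2 * X)).filter Squarefree, f d t ≤ ∫ _t in T₁..T₂, E := by
    refine intervalIntegral.integral_mono_on hT.le (hcs.intervalIntegrable _ _) (by simp)
      (fun t ht => hE t ht.1 ht.2)
  rw [intervalIntegral.integral_const, smul_eq_mul] at h2
  exact h2

end EWI

open EWI in
/-- EWI: one window (uses DIAG, WOFF, PSI, MOT, EDL) -/
theorem E_win : ∃ K₀ : ℕ, ∀ (K : ℕ) (T₁ T₂ b δ : ℝ), K₀ ≤ K → 0 < T₁ → T₁ < T₂ → 0 < b → b < 1 →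
    0 < δ → ∃ δ' κ C : ℝ, 0 < δ' ∧ δ' ≤ δ ∧ 0 < κ ∧ ∀ (X : ℕ) (α : ℝ), 3 ≤ X → δ' ≤ α → α ≤ b →
    ∑ d ∈ (Ioc X (2 * X)).filter Squarefree, (volume {t₀ : ℝ | t₀ ∈ Set.Icc T₁ T₂ ∧
      (Real.log X) ^ δ < ‖FF d (Md d) (Psi K ((Real.log X) ^ (-b)) t₀ ((Real.log X) ^ α)
        ((Real.log X) ^ (α + δ')))‖}).toReal ≤ C * X / (Real.log X) ^ κ := by
  obtain ⟨K₀, hDIAG⟩ := DIAG
  refine ⟨max K₀ 4, ?_⟩
  intro K T₁ T₂ b δ hK hT₁ hT hb hb1 hδ
  have hK4 : 4 ≤ K := (le_max_right _ _).trans hK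
  obtain ⟨Cd0, hD0⟩ := hDIAG K T₂ ((le_max_left _ _).trans hK)
  set Cd : ℝ := max Cd0 0 with hCd
  have hCd0 : 0 ≤ Cd := le_max_right _ _
  have hCdd : Cd0 ≤ Cd := le_max_left _ _
  have hD : ∀ (X h t₀ M A B : ℝ) (P y m : ℕ), 3 ≤ X → 0 < h → |t₀| ≤ T₂ → X ≤ M → M ≤ 20 * X →
      1 ≤ A → A ≤ B → B ≤ Real.log X → h * A ≤ 1 → X ^ 3 ≤ P → (P : ℝ) ≤ X ^ 4 → z0 ≤ y →
      Real.log y ≤ A → Cd * Real.log (Real.log X + 3) ≤ m → ∀ Ψ : ℝ → ℂ,
      (Ψ = Psi K h t₀ A B ∨ Ψ = deriv (Psi K h t₀ A B)) →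
      RR P (fun D => ‖FF D M Ψ * Mo y m D t₀‖ ^ 2) ≤
        Cd * (Real.log (Real.log X + 3)) ^ Cd * (B / A) ^ Cd * (1 + B / Real.log y) := by
    intro X h t₀ M A B P y m hX hh ht₀ h1 h2 hA hAB hB hhA hP hP' hy hyA hm Ψ hΨ
    have hL : 1 ≤ Real.log X := by
      rw [Real.le_log_iff_exp_le (by linarith)]
      have := Real.exp_one_lt_d9
      linarith
    have hLL := LL_one hL
    have hAB1 : 1 ≤ B / A := by rw [le_div_iff₀ (by linarith)]; linarith
    have hm0 : Cd0 * Real.log (Real.log X + 3) ≤ m := le_trans (by gcongr) hm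
    refine (hD0 X h t₀ M A B P y m hX hh ht₀ h1 h2 hA hAB hB hhA hP hP' hy hyA hm0 Ψ hΨ).trans ?_
    have hlogy : 0 ≤ Real.log y := Real.log_natCast_nonneg y
    have hpos : 0 ≤ 1 + B / Real.log y := by
      have : 0 ≤ B / Real.log y := div_nonneg (by linarith) hlogy
      linarith
    apply mul_le_mul_of_nonneg_right _ hpos
    rcases le_total 0 Cd0 with h | h
    · have : Cd = Cd0 := by rw [hCd, max_eq_left h]
      rw [this]
    · have e1 : Cd = 0 := by rw [hCd, max_eq_right h]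
      rw [e1, zero_mul, zero_mul]
      have : 0 ≤ (Real.log (Real.log X + 3)) ^ Cd0 * (B / A) ^ Cd0 := by positivity
      rw [mul_assoc]
      exact mul_nonpos_of_nonpos_of_nonneg h this
  set δM : ℝ := min (δ / 4) (1 - b) with hδM
  have hδM0 : 0 < δM := lt_min (by linarith) (by linarith)
  have hδM1 : δM ≤ δ / 4 := min_le_left _ _
  have hδM2 : δM ≤ 1 - b := min_le_right _ _
  obtain ⟨κM, CM, hκM, hMO⟩ := MO_typ T₁ T₂ δM hT₁ hT hδM0
  set δ' : ℝ := min (min δ ((1 - b) / 2)) (δ / (2 * (Cd + 2))) with hδ'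
  have hδ'0 : 0 < δ' := lt_min (lt_min hδ (by linarith)) (by positivity)
  have hδ'1 : δ' ≤ δ := (min_le_left _ _).trans (min_le_left _ _)
  have hδ'2 : δ' ≤ (1 - b) / 2 := (min_le_left _ _).trans (min_le_right _ _)
  have hδ'3 : (Cd + 2) * δ' ≤ δ / 2 := by
    have : δ' ≤ δ / (2 * (Cd + 2)) := min_le_right _ _
    calc (Cd + 2) * δ' ≤ (Cd + 2) * (δ / (2 * (Cd + 2))) := by gcongr
      _ = δ / 2 := by field_simp
  set Cm : ℝ := max (max Cd CM) 1 with hCm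
  have hCm1 : 1 ≤ Cm := le_max_right _ _
  have hCmD : Cd ≤ Cm := (le_max_left _ _).trans (le_max_left _ _)
  have hCmM : CM ≤ Cm := (le_max_right _ _).trans (le_max_left _ _)
  obtain ⟨Cw, L₀, C, hCw, hL₀, hC, hsec⟩ := second K T₁ T₂ b δ' hK4 hT₁ hT hb1 hδ'0 hδ'2 hCd0 hD Cm
    hCm1 hCmD
  set κ : ℝ := min κM δ with hκ
  have hκ0 : 0 < κ := lt_min hκM hδ
  have hTT : 0 < T₂ - T₁ := by linarith
  refine ⟨δ', κ, (T₂ - T₁) * L₀ ^ κ + (|CM| + 21720 * C * (T₂ - T₁)), hδ'0, hδ'1, hκ0, ?_⟩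
  intro X α hX hα hαb
  have hX3 : (3:ℝ) ≤ X := by exact_mod_cast hX
  have hX0 : (0:ℝ) < X := by linarith
  set L : ℝ := Real.log X with hLdef
  have hL1 : 1 ≤ L := by
    rw [hLdef, Real.le_log_iff_exp_le (by linarith)]
    have := Real.exp_one_lt_d9
    linarith
  have hL0 : 0 < L := by linarith
  have hLκ : 0 < L ^ κ := by positivity
  rcases le_or_gt L₀ L with hLL₀ | hLL₀
  swap
  · -- small X
    have h1 : ∀ d ∈ (Ioc X (2 * X)).filter Squarefree, (volume {t₀ : ℝ | t₀ ∈ Set.Icc T₁ T₂ ∧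
        L ^ δ < ‖FF d (Md d) (Psi K (L ^ (-b)) t₀ (L ^ α) (L ^ (α + δ')))‖}).toReal ≤ T₂ - T₁ :=
      fun d _ => triv_meas hT.le _
    refine (Finset.sum_le_sum h1).trans ?_
    rw [Finset.sum_const, nsmul_eq_mul, le_div_iff₀ hLκ]
    have h2 : L ^ κ ≤ L₀ ^ κ := Real.rpow_le_rpow hL0.le hLL₀.le hκ0.le
    have h3 : 0 ≤ |CM| + 21720 * C * (T₂ - T₁) := by positivity
    calc (((Ioc X (2 * X)).filter Squarefree).card : ℝ) * (T₂ - T₁) * L ^ κ
        ≤ X * (T₂ - T₁) * L₀ ^ κ := by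
          have := card_le X
          gcongr
      _ = (T₂ - T₁) * L₀ ^ κ * X := by ring
      _ ≤ _ := by nlinarith
  · -- large X
    set m : ℕ := ⌈Cm * Real.log (L + 3)⌉₊ with hm
    set y : ℕ := ⌊Real.exp (L ^ α / (Cw * m))⌋₊ with hy
    set A : ℝ := L ^ α with hA
    set B : ℝ := L ^ (α + δ') with hB
    have hα0 : 0 < α := lt_of_lt_of_le hδ'0 hα
    have hA1 : 1 ≤ A := Real.one_le_rpow hL1 hα0.le
    have hA0 : 0 < A := by linarith
    have hAB : A ≤ B := Real.rpow_le_rpow_of_exponent_le hL1 (by linarith)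
    obtain ⟨hz0y, hylog, hmm, -⟩ := hsec X α T₁ X hX hLL₀ hα hαb le_rfl hT.le le_rfl (by linarith)
      m y hm hy
    -- typical size of the mollifier
    have hU := hMO X y m hX hz0y (hylog.trans (Real.rpow_le_rpow_of_exponent_le hL1 (by linarith)))
      (le_trans (by have := LL_one hL1; gcongr) hmm)
    -- second moment at each centre
    set f : ℕ → ℝ → ℝ := fun d t₀ => ‖FF (d : ℤ) (Md d) (Psi K (L ^ (-b)) t₀ A B) * Mo y m d t₀‖ ^ 2
      with hf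
    have hcont : ∀ d ∈ (Ioc X (2 * X)).filter Squarefree, Continuous (f d) := by
      intro d hd
      rw [Finset.mem_filter, Finset.mem_Ioc] at hd
      have hMd := (Md_range hd.1.1 hd.1.2).1
      have h1 := cont_t (d : ℤ) (K := K) (by omega) (h := L ^ (-b)) (M := Md d)
        (lt_of_lt_of_le hX0 hMd) hA0 hAB
      exact ((h1.mul (Mo_cont y m d)).norm).pow 2
    obtain ⟨Cmo, hCmo⟩ := CP_Mo
    have hsecond : ∀ t₀, T₁ ≤ t₀ → t₀ ≤ T₂ → ∑ d ∈ (Ioc X (2 * X)).filter Squarefree, f d t₀ ≤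
        21720 * X * (C * L ^ ((Cd + 2) * δ')) := by
      intro t₀ ht1 ht2
      have hC2 : ContDiff ℝ 2 (Psi K (L ^ (-b)) t₀ A B) := Psi_contDiff (by omega)
      have hcs : HasCompactSupport (Psi K (L ^ (-b)) t₀ A B) := Psi_compact hA0 hAB
      have hΨc : Continuous (Psi K (L ^ (-b)) t₀ A B) := hC2.continuous
      have hΨ'c : Continuous (deriv (Psi K (L ^ (-b)) t₀ A B)) := hC2.continuous_deriv (by norm_num)
      set Q : ℝ := max (∫ x, ‖Psi K (L ^ (-b)) t₀ A B x‖) (∫ x, ‖deriv (Psi K (L ^ (-b)) t₀ A B) x‖)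
        with hQ
      have hQ0 : 0 ≤ Q := le_trans (integral_nonneg (fun x => norm_nonneg _)) (le_max_left _ _)
      refine family (by omega) (hC2.of_le (by norm_num)) hcs (fun D => Mo y m D t₀)
        (Bd := (10 * (1 + 20 * X) * Q * (Cmo * (y : ℝ) ^ m)) ^ 2) ?_ ?_
      · intro D M hM1 hM2
        have hM0 : 0 < M := lt_of_lt_of_le hX0 hM1
        have hMo : ‖Mo y m D t₀‖ ≤ Cmo * (y : ℝ) ^ m := CP_bdd (hCmo y m t₀ hz0y) D
        have hMo0 : 0 ≤ Cmo * (y : ℝ) ^ m := (norm_nonneg _).trans hMo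
        have h3 : ∀ x, x < 0 → Psi K (L ^ (-b)) t₀ A B x = 0 ∧
            deriv (Psi K (L ^ (-b)) t₀ A B) x = 0 :=
          fun x hx => Psi_support hA0 hAB (Or.inl (by linarith))
        constructor
        · have h4 := FF_bdd (D := D) hM0 hΨc hcs (fun x hx => (h3 x hx).1)
          rw [norm_mul]
          have h5 : ‖FF D M (Psi K (L ^ (-b)) t₀ A B)‖ ≤ 10 * (1 + 20 * X) * Q := by
            refine h4.trans ?_
            have : ∫ x, ‖Psi K (L ^ (-b)) t₀ A B x‖ ≤ Q := le_max_left _ _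
            gcongr
          gcongr
        · have h4 := FF_bdd (D := D) hM0 hΨ'c hcs.deriv (fun x hx => (h3 x hx).2)
          rw [norm_mul]
          have h5 : ‖FF D M (deriv (Psi K (L ^ (-b)) t₀ A B))‖ ≤ 10 * (1 + 20 * X) * Q := by
            refine h4.trans ?_
            have : ∫ x, ‖deriv (Psi K (L ^ (-b)) t₀ A B) x‖ ≤ Q := le_max_right _ _
            gcongr
          gcongr
      · intro M hM1 hM2
        obtain ⟨-, -, -, h6⟩ := hsec X α t₀ M hX hLL₀ hα hαb ht1 ht2 hM1 hM2 m y hm hy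
        exact ⟨h6 _ (Or.inl rfl), h6 _ (Or.inr rfl)⟩
    have hV := markov_avg hT (lam := L ^ (2 * (δ - δM))) (by positivity) f
      (fun d t => by simp only [hf]; positivity) hcont hsecond
    -- combination
    have hsub : ∀ d ∈ (Ioc X (2 * X)).filter Squarefree, (volume {t₀ : ℝ | t₀ ∈ Set.Icc T₁ T₂ ∧
        L ^ δ < ‖FF d (Md d) (Psi K (L ^ (-b)) t₀ A B)‖}).toReal ≤
        (volume {t₀ : ℝ | t₀ ∈ Set.Icc T₁ T₂ ∧
          ¬ (L ^ (-δM) ≤ ‖Mo y m d t₀‖ ∧ ‖Mo y m d t₀‖ ≤ L ^ δM)}).toReal +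
        (volume {t₀ : ℝ | t₀ ∈ Set.Icc T₁ T₂ ∧ L ^ (2 * (δ - δM)) < f d t₀}).toReal := by
      intro d _
      apply union_meas
      intro t₀ _ ht
      by_cases hM : L ^ (-δM) ≤ ‖Mo y m d t₀‖ ∧ ‖Mo y m d t₀‖ ≤ L ^ δM
      · right
        have h7 : L ^ (δ - δM) < ‖FF (d : ℤ) (Md d) (Psi K (L ^ (-b)) t₀ A B) * Mo y m d t₀‖ := by
          rw [norm_mul, sub_eq_add_neg, Real.rpow_add hL0]
          have : 0 < L ^ (-δM) := by positivity
          calc L ^ δ * L ^ (-δM) < ‖FF (d : ℤ) (Md d) (Psi K (L ^ (-b)) t₀ A B)‖ * L ^ (-δM) := by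
                gcongr
            _ ≤ _ := by gcongr; exact hM.1
        simp only [hf]
        have h8 : L ^ (2 * (δ - δM)) = (L ^ (δ - δM)) ^ 2 := by
          rw [mul_comm, Real.rpow_mul hL0.le, Real.rpow_two]
        rw [h8]
        gcongr
      · left; exact hM
    refine (Finset.sum_le_sum hsub).trans ?_
    rw [Finset.sum_add_distrib]
    have h9 : CM * X / L ^ κM ≤ |CM| * X / L ^ κ := by
      have e1 : L ^ κ ≤ L ^ κM := Real.rpow_le_rpow_of_exponent_le hL1 (min_le_left _ _)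
      have e2 := le_abs_self CM
      gcongr
    have h10 : (T₂ - T₁) * (21720 * X * (C * L ^ ((Cd + 2) * δ'))) / L ^ (2 * (δ - δM)) ≤
        21720 * C * (T₂ - T₁) * X / L ^ κ := by
      rw [div_le_div_iff₀ (by positivity) (by positivity)]
      have e1 : L ^ ((Cd + 2) * δ') * L ^ κ ≤ L ^ (2 * (δ - δM)) := by
        rw [← Real.rpow_add hL0]
        apply Real.rpow_le_rpow_of_exponent_le hL1
        have : κ ≤ δ := min_le_right _ _
        linarith
      calc (T₂ - T₁) * (21720 * X * (C * L ^ ((Cd + 2) * δ'))) * L ^ κ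
          = 21720 * C * (T₂ - T₁) * X * (L ^ ((Cd + 2) * δ') * L ^ κ) := by ring
        _ ≤ _ := by gcongr
    calc _ ≤ CM * X / L ^ κM +
          (T₂ - T₁) * (21720 * X * (C * L ^ ((Cd + 2) * δ'))) / L ^ (2 * (δ - δM)) :=
        add_le_add hU hV
      _ ≤ |CM| * X / L ^ κ + 21720 * C * (T₂ - T₁) * X / L ^ κ := add_le_add h9 h10
      _ = (|CM| + 21720 * C * (T₂ - T₁)) * X / L ^ κ := by ring
      _ ≤ _ := by
          apply div_le_div_of_nonneg_right _ hLκ.le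
          have : 0 ≤ (T₂ - T₁) * L₀ ^ κ * X := by positivity
          nlinarith

end Pool.Agent.CZ
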