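import Mathlib
import Pool.Agent.ZD.T

/-!
# Critical zeros (MP_553913_nt), part (I): the kernel `e^u exp(-2 π e^u)` as a superposition of
modulated Gaussians
-/

set_option autoImplicit false

open Complex Finset MeasureTheory Filter Topology
open scoped FourierTransform

namespace Pool.Agent.CZ

/-- weight `min (e^y, e^(-4y))` -/
noncomputable def cmW (y : ℝ) : ℝ := min (Real.exp y) (Real.exp (-(4 * y)))

lemma cmW_nonneg (y : ℝ) : 0 ≤ cmW y := le_min (Real.exp_pos _).le (Real.exp_pos _).le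

lemma cmW_cont : Continuous cmW := by
  unfold cmW
  fun_prop

lemma cmW_shift (y u : ℝ) : cmW (y + u) ≤ Real.exp (4 * |u|) * cmW y := by
  unfold cmW
  rw [mul_min_of_nonneg _ _ (Real.exp_pos _).le, ← Real.exp_add, ← Real.exp_add]
  apply min_le_min
  · apply Real.exp_le_exp.2
    have := le_abs_self u
    have := abs_nonneg u
    linarith
  · apply Real.exp_le_exp.2
    have := neg_abs_le u
    linarith

lemma cmW_exp_le {a : ℝ} (h0 : 0 ≤ a) (h1 : a ≤ 3) (y : ℝ) :
    cmW y * Real.exp (a * y) ≤ Real.exp (-(1 * |y|)) := by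
  rcases le_total 0 y with hy | hy
  · rw [abs_of_nonneg hy]
    refine (mul_le_mul_of_nonneg_right (min_le_right _ _) (Real.exp_pos _).le).trans ?_
    rw [← Real.exp_add]
    apply Real.exp_le_exp.2
    nlinarith
  · rw [abs_of_nonpos hy]
    refine (mul_le_mul_of_nonneg_right (min_le_left _ _) (Real.exp_pos _).le).trans ?_
    rw [← Real.exp_add]
    apply Real.exp_le_exp.2
    nlinarith

lemma cmW_exp_integrable {a : ℝ} (h0 : 0 ≤ a) (h1 : a ≤ 3) :
    Integrable (fun y : ℝ => cmW y * Real.exp (a * y)) := by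
  refine Integrable.mono' (Pool.Agent.ZD.integrable_exp_abs (b := 1) one_pos)
    ((cmW_cont.mul (by fun_prop)).aestronglyMeasurable) (Eventually.of_forall fun y => ?_)
  rw [Real.norm_of_nonneg (mul_nonneg (cmW_nonneg y) (Real.exp_pos _).le)]
  exact cmW_exp_le h0 h1 y

lemma cmW_integrable : Integrable cmW := by
  have := cmW_exp_integrable (a := 0) le_rfl (by norm_num)
  simpa using this

/-! ### Gaussian integrals -/

lemma cm_gauss (b y : ℝ) :
    Integrable (fun v : ℝ => Real.exp (b * v - (v - y) ^ 2 / 2)) ∧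
    ∫ v : ℝ, Real.exp (b * v - (v - y) ^ 2 / 2)
      = Real.sqrt (2 * Real.pi) * Real.exp (b * y + b ^ 2 / 2) := by
  have h1 : (fun v : ℝ => Real.exp (b * v - (v - y) ^ 2 / 2))
      = fun v => Real.exp (b * y + b ^ 2 / 2) * Real.exp (-(1 / 2) * (v - (y + b)) ^ 2) := by
    funext v
    rw [← Real.exp_add]
    congr 1
    ring
  have hi : Integrable (fun v : ℝ => Real.exp (-(1 / 2) * (v - (y + b)) ^ 2)) :=
    (integrable_exp_neg_mul_sq (b := 1 / 2) (by norm_num)).comp_sub_right (y + b)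
  rw [h1]
  refine ⟨hi.const_mul _, ?_⟩
  rw [integral_const_mul, integral_sub_right_eq_self (fun v => Real.exp (-(1 / 2) * v ^ 2)),
    integral_gaussian, mul_comm]
  congr 2
  rw [div_div_eq_mul_div, div_one]
  ring

/-! ### The kernel -/

/-- `e^{z} exp(-2π e^z) exp(-(z-y)²/2)` -/
noncomputable def cmh (y : ℝ) (z : ℂ) : ℂ := exp (z - 2 * Real.pi * exp z - (z - y) ^ 2 / 2)

/-- rotated integrand -/
noncomputable def cmF (y w : ℝ) (u : ℂ) : ℂ := exp (-(2 * Real.pi * w * u)) * cmh y (-(I * u))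

lemma cmF_diff (y w : ℝ) : Differentiable ℂ (cmF y w) := by
  unfold cmF cmh
  fun_prop

lemma cmF_norm (y w x v : ℝ) : ‖cmF y w (x + v * I)‖ =
    Real.exp (-(2 * Real.pi * w * x)) *
      Real.exp (v - 2 * Real.pi * Real.exp v * Real.cos x - (v - y) ^ 2 / 2 + x ^ 2 / 2) := by
  have hz : -(I * ((x : ℂ) + v * I)) = (v : ℂ) + ((-x : ℝ) : ℂ) * I := by
    have := Complex.I_mul_I
    push_cast
    linear_combination (-(v : ℂ)) * this
  unfold cmF cmh
  rw [norm_mul, Complex.norm_exp, Complex.norm_exp, hz]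
  congr 2
  · simp
  · have h1 : (exp ((v : ℂ) + ((-x : ℝ) : ℂ) * I)).re = Real.exp v * Real.cos x := by
      rw [Complex.exp_re]
      simp
    have h2 : (2 * (Real.pi : ℂ) * exp ((v : ℂ) + ((-x : ℝ) : ℂ) * I)).re
        = 2 * Real.pi * (Real.exp v * Real.cos x) := by
      have : (2 * (Real.pi : ℂ)) = ((2 * Real.pi : ℝ) : ℂ) := by push_cast; rfl
      rw [this, Complex.re_ofReal_mul, h1]
    have h3 : ((((v : ℂ) + ((-x : ℝ) : ℂ) * I - y) ^ 2 / 2)).re = ((v - y) ^ 2 - x ^ 2) / 2 := by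
      have : (((v : ℂ) + ((-x : ℝ) : ℂ) * I - y) ^ 2 / 2)
          = ((((v - y) ^ 2 - x ^ 2) / 2 : ℝ) : ℂ) + ((-(x * (v - y)) : ℝ) : ℂ) * I := by
        push_cast
        linear_combination (x : ℂ) ^ 2 / 2 * Complex.I_sq
      rw [this, Complex.add_re, Complex.ofReal_re, Complex.re_ofReal_mul, Complex.I_re, mul_zero,
        add_zero]
    rw [Complex.sub_re, Complex.sub_re, h2, h3]
    simp
    ring

lemma cmF_bound (y w x v : ℝ) (hx : |x| ≤ 1) : ‖cmF y w (x + v * I)‖ ≤
    Real.exp (2 * Real.pi * |w| + 1 / 2) * Real.exp (1 * v - (v - y) ^ 2 / 2) := by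
  rw [cmF_norm, ← Real.exp_add, ← Real.exp_add]
  apply Real.exp_le_exp.2
  have h1 : -(2 * Real.pi * w * x) ≤ 2 * Real.pi * |w| := by
    have h2 : |w * x| ≤ |w| := by
      rw [abs_mul]
      exact mul_le_of_le_one_right (abs_nonneg _) hx
    have h3 := neg_abs_le (w * x)
    nlinarith [Real.pi_pos]
  have h2 : 0 ≤ 2 * Real.pi * Real.exp v * Real.cos x := by
    have h3 : 0 ≤ Real.cos x := by
      apply Real.cos_nonneg_of_mem_Icc
      have h4 := abs_le.1 hx
      have h5 := Real.pi_gt_three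
      constructor <;> linarith
    have := Real.pi_pos
    positivity
  have h3 : x ^ 2 ≤ 1 := by
    rw [← sq_abs]
    exact pow_le_one₀ (abs_nonneg x) hx
  linarith

lemma cm_tendsto (y K : ℝ) :
    Tendsto (fun v : ℝ => K * Real.exp (1 * v - (v - y) ^ 2 / 2)) atTop (𝓝 0) ∧
    Tendsto (fun v : ℝ => K * Real.exp (1 * v - (v - y) ^ 2 / 2)) atBot (𝓝 0) := by
  have h1 : ∀ v : ℝ, 1 * v - (v - y) ^ 2 / 2 ≤ (2 * |y| + 2) - |v| := by
    intro v
    have h0 := le_abs_self y
    have h0' := abs_nonneg y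
    rcases le_total 0 v with h | h
    · rw [abs_of_nonneg h]
      nlinarith [sq_nonneg (v - y - 2)]
    · rw [abs_of_nonpos h]
      nlinarith [sq_nonneg (v - y)]
  have h2 : Tendsto (fun v : ℝ => (2 * |y| + 2) - |v|) atTop atBot :=
    tendsto_atBot_add_const_left _ _ (tendsto_neg_atTop_atBot.comp tendsto_abs_atTop_atTop)
  have h3 : Tendsto (fun v : ℝ => (2 * |y| + 2) - |v|) atBot atBot :=
    tendsto_atBot_add_const_left _ _ (tendsto_neg_atTop_atBot.comp tendsto_abs_atBot_atTop)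
  constructor
  · have := (Real.tendsto_exp_atBot.comp (tendsto_atBot_mono h1 h2)).const_mul K
    simpa using this
  · have := (Real.tendsto_exp_atBot.comp (tendsto_atBot_mono h1 h3)).const_mul K
    simpa using this

lemma cmh_cont (y : ℝ) : Continuous (fun s : ℝ => cmh y s) := by
  unfold cmh
  fun_prop

lemma cmh_integrable (y : ℝ) : Integrable (fun s : ℝ => cmh y s) := by
  refine Integrable.mono' ((cm_gauss 1 y).1.const_mul (Real.exp (2 * Real.pi * |(0 : ℝ)| + 1 / 2)))
    (cmh_cont y).aestronglyMeasurable (Eventually.of_forall fun v => ?_)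
  have h := cmF_bound y 0 0 v (by simp)
  have h2 : cmF y 0 ((0 : ℝ) + v * I) = cmh y v := by
    unfold cmF
    have : -(I * (((0 : ℝ) : ℂ) + v * I)) = (v : ℂ) := by
      have := Complex.I_mul_I
      push_cast
      linear_combination (-(v : ℂ)) * this
    rw [this]
    simp
  rw [h2] at h
  exact h

/-- Fourier transform of `cmh y` -/
noncomputable def cmV (p : ℝ × ℝ) : ℂ := ∫ s : ℝ, exp (((-2 * Real.pi * s * p.2 : ℝ) : ℂ) * I) * cmh p.1 s

lemma cmV_meas : StronglyMeasurable cmV := by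
  unfold cmV
  apply StronglyMeasurable.integral_prod_right
  apply Continuous.stronglyMeasurable
  unfold cmh Function.uncurry
  fun_prop

lemma cmV_eq_fourier (y w : ℝ) : cmV (y, w) = 𝓕 (fun s : ℝ => cmh y s) w := by
  rw [Real.fourier_real_eq_integral_exp_smul]
  rfl

lemma cmV_eq_shift (y w σ : ℝ) (hσ : |σ| ≤ 1) : cmV (y, w) = ∫ v : ℝ, cmF y w (σ + v * I) := by
  have h1 : cmV (y, w) = ∫ v : ℝ, cmF y w (((0 : ℝ) : ℂ) + v * I) := by
    unfold cmV cmF
    congr 1
    funext v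
    have h2 : -(I * (((0 : ℝ) : ℂ) + v * I)) = (v : ℂ) := by
      have := Complex.I_mul_I
      push_cast
      linear_combination (-(v : ℂ)) * this
    rw [h2]
    congr 2
    push_cast
    ring
  rw [h1]
  refine Pool.Agent.ZD.vert_shift
    (g := fun v => Real.exp (2 * Real.pi * |w| + 1 / 2) * Real.exp (1 * v - (v - y) ^ 2 / 2))
    ?_ ?_ ?_ ?_ ?_
  · intro s _
    exact (cmF_diff y w).differentiableAt
  · exact (cm_gauss 1 y).1.const_mul _
  · exact (cm_tendsto y _).1
  · exact (cm_tendsto y _).2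
  · intro x hx v
    apply cmF_bound
    rw [Set.mem_uIcc] at hx
    rw [abs_le] at hσ ⊢
    rcases hx with hx | hx <;> constructor <;> linarith [hx.1, hx.2, hσ.1, hσ.2]

lemma cm_exp_pow {a : ℝ} (ha : 0 < a) (v : ℝ) :
    Real.exp (v - a * Real.exp v) ≤ (120 / a ^ 5) * Real.exp (-4 * v) := by
  have h1 := Real.pow_div_factorial_le_exp (a * Real.exp v) (by positivity) 5
  have h2 : Real.exp (v - a * Real.exp v) = Real.exp v / Real.exp (a * Real.exp v) :=
    Real.exp_sub _ _
  have h3 : (a * Real.exp v) ^ 5 = a ^ 5 * (Real.exp v * Real.exp (4 * v)) := by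
    rw [mul_pow, ← Real.exp_add, ← Real.exp_nat_mul]
    congr 2
    push_cast
    ring
  have h4 : Real.exp (-4 * v) = (Real.exp (4 * v))⁻¹ := by
    rw [← Real.exp_neg]
    congr 1
    ring
  rw [h2, div_le_iff₀ (Real.exp_pos _), h4]
  rw [h3] at h1
  norm_num [Nat.factorial] at h1
  have hE := Real.exp_pos (4 * v)
  have h5 : a ^ 5 * (Real.exp v * Real.exp (4 * v)) ≤ 120 * Real.exp (a * Real.exp v) := by
    linarith
  have ha5 : 0 < a ^ 5 := by positivity
  rw [div_mul_eq_mul_div, div_mul_eq_mul_div, le_div_iff₀ ha5]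
  rw [mul_right_comm, ← div_eq_mul_inv, le_div_iff₀ hE]
  linarith

lemma cmV_bound : ∃ C : ℝ, 0 < C ∧ ∀ y w : ℝ,
    ‖cmV (y, w)‖ ≤ C * cmW y * Real.exp (-(2 * Real.pi * |w|)) := by
  set a : ℝ := 2 * Real.pi * Real.cos 1 with ha
  have ha0 : 0 < a := by
    have := Real.cos_one_pos
    have := Real.pi_pos
    positivity
  set K : ℝ := 120 / a ^ 5 with hK
  have hK0 : 0 < K := by positivity
  set C : ℝ := Real.exp (1 / 2) * Real.sqrt (2 * Real.pi) * (Real.exp (1 / 2) + K * Real.exp 8)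
    with hC
  have hs : 0 < Real.sqrt (2 * Real.pi) := Real.sqrt_pos.2 (by have := Real.pi_pos; positivity)
  refine ⟨C, by positivity, fun y w => ?_⟩
  -- choose the sign
  obtain ⟨σ, hσ, hσw, hσ2⟩ : ∃ σ : ℝ, |σ| ≤ 1 ∧ w * σ = |w| ∧ σ ^ 2 = 1 ∧ Real.cos σ = Real.cos 1 := by
    rcases le_total 0 w with h | h
    · exact ⟨1, by simp, by rw [abs_of_nonneg h, mul_one], by norm_num, rfl⟩
    · exact ⟨-1, by simp, by rw [abs_of_nonpos h]; ring, by norm_num, Real.cos_neg 1⟩
  obtain ⟨hσ2, hσ3⟩ := hσ2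
  have hnorm : ∀ v : ℝ, ‖cmF y w (σ + v * I)‖ = Real.exp (-(2 * Real.pi * |w|)) * (Real.exp (1 / 2) *
      (Real.exp (v - a * Real.exp v) * Real.exp (-((v - y) ^ 2 / 2)))) := by
    intro v
    rw [cmF_norm, hσ2, hσ3, mul_assoc (2 * Real.pi) w σ, hσw]
    simp only [← Real.exp_add]
    congr 1
    rw [ha]
    ring
  have hle : ∀ b L : ℝ, 0 < L → (∀ v : ℝ, Real.exp (v - a * Real.exp v) ≤ L * Real.exp (b * v)) →
      ‖cmV (y, w)‖ ≤ Real.exp (-(2 * Real.pi * |w|)) * (Real.exp (1 / 2) *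
        (L * (Real.sqrt (2 * Real.pi) * Real.exp (b * y + b ^ 2 / 2)))) := by
    intro b L hL hb
    rw [cmV_eq_shift y w σ hσ, ← (cm_gauss b y).2]
    refine (norm_integral_le_integral_norm _).trans ?_
    rw [← integral_const_mul, ← integral_const_mul, ← integral_const_mul]
    apply integral_mono_of_nonneg
    · exact Eventually.of_forall fun v => norm_nonneg _
    · exact (((cm_gauss b y).1.const_mul _).const_mul _).const_mul _
    · refine Eventually.of_forall fun v => ?_
      change ‖cmF y w (σ + v * I)‖ ≤ _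
      rw [hnorm]
      apply mul_le_mul_of_nonneg_left _ (Real.exp_pos _).le
      apply mul_le_mul_of_nonneg_left _ (Real.exp_pos _).le
      rw [sub_eq_add_neg (b * v), Real.exp_add, ← mul_assoc]
      exact mul_le_mul_of_nonneg_right (hb v) (Real.exp_pos _).le
  have hA := hle 1 1 one_pos (fun v => by
    rw [one_mul, one_mul]
    apply Real.exp_le_exp.2
    have := Real.exp_pos v
    nlinarith)
  have hB := hle (-4) K hK0 (fun v => cm_exp_pow ha0 v)
  have hE := Real.exp_pos (-(2 * Real.pi * |w|))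
  have h1 : ‖cmV (y, w)‖ ≤ C * Real.exp (-(2 * Real.pi * |w|)) * Real.exp y := by
    refine hA.trans ?_
    rw [Real.exp_add]
    have : Real.exp (1 * y) = Real.exp y := by rw [one_mul]
    rw [this, hC]
    have h2 : Real.exp ((1 : ℝ) ^ 2 / 2) = Real.exp (1 / 2) := by norm_num
    rw [h2]
    have h3 : 0 < Real.exp (-(2 * Real.pi * |w|)) * Real.exp y * (Real.exp (1 / 2) *
      Real.sqrt (2 * Real.pi) * (K * Real.exp 8)) := by positivity
    nlinarith
  have h2 : ‖cmV (y, w)‖ ≤ C * Real.exp (-(2 * Real.pi * |w|)) * Real.exp (-(4 * y)) := by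
    refine hB.trans ?_
    rw [Real.exp_add]
    have h4 : Real.exp (-4 * y) = Real.exp (-(4 * y)) := by
      congr 1
      ring
    have h5 : Real.exp ((-4 : ℝ) ^ 2 / 2) = Real.exp 8 := by norm_num
    rw [h4, h5, hC]
    have h3 : 0 < Real.exp (-(2 * Real.pi * |w|)) * Real.exp (-(4 * y)) * (Real.exp (1 / 2) *
      Real.sqrt (2 * Real.pi) * Real.exp (1 / 2)) := by positivity
    nlinarith
  unfold cmW
  have h3 : 0 ≤ C * Real.exp (-(2 * Real.pi * |w|)) := by positivity
  calc ‖cmV (y, w)‖ ≤ C * Real.exp (-(2 * Real.pi * |w|)) *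
        min (Real.exp y) (Real.exp (-(4 * y))) := by
        rw [mul_min_of_nonneg _ _ h3]
        exact le_min h1 h2
    _ = _ := by ring

lemma cm_prod_integrable {f g : ℝ → ℝ} (hf : Integrable f) (hg : Integrable g) :
    Integrable (fun p : ℝ × ℝ => f p.1 * g p.2) := hf.mul_prod hg

theorem cm_kernel : ∃ (V : ℝ × ℝ → ℂ) (C : ℝ), 0 < C ∧ StronglyMeasurable V ∧
    (∀ p, ‖V p‖ ≤ C * cmW p.1 * Real.exp (-(2 * Real.pi * |p.2|))) ∧
    ∀ u : ℝ, exp ((u - 2 * Real.pi * Real.exp u : ℝ) : ℂ) =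
      ∫ p : ℝ × ℝ, V p * (exp (((2 * Real.pi * p.2 * u : ℝ) : ℂ) * I) *
        ((Real.exp (-((u - p.1) ^ 2 / 2)) : ℝ) : ℂ)) := by
  obtain ⟨C, hC, hb⟩ := cmV_bound
  have hsp : 0 < Real.sqrt Real.pi := Real.sqrt_pos.2 Real.pi_pos
  refine ⟨fun p => ((Real.sqrt Real.pi)⁻¹ : ℝ) * cmV p, (Real.sqrt Real.pi)⁻¹ * C, by positivity,
    cmV_meas.const_mul _, ?_, ?_⟩
  · intro p
    rw [norm_mul, Complex.norm_real, Real.norm_of_nonneg (by positivity)]
    have := mul_le_mul_of_nonneg_left (hb p.1 p.2) (inv_nonneg.2 hsp.le)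
    calc _ ≤ _ := this
      _ = _ := by ring
  · intro u
    have hint : Integrable (fun p : ℝ × ℝ => cmV p * (exp (((2 * Real.pi * p.2 * u : ℝ) : ℂ) * I) *
        ((Real.exp (-((u - p.1) ^ 2 / 2)) : ℝ) : ℂ))) := by
      refine Integrable.mono' (cm_prod_integrable (cmW_integrable.const_mul C)
        (Pool.Agent.ZD.integrable_exp_abs (b := 2 * Real.pi) (by have := Real.pi_pos; positivity)))
        ?_ (Eventually.of_forall fun p => ?_)
      · apply (cmV_meas.mul _).aestronglyMeasurable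
        apply Continuous.stronglyMeasurable
        fun_prop
      · rw [norm_mul, norm_mul, Complex.norm_exp_ofReal_mul_I, one_mul, Complex.norm_real,
          Real.norm_of_nonneg (Real.exp_pos _).le]
        refine (mul_le_of_le_one_right (norm_nonneg _) ?_).trans (hb p.1 p.2)
        rw [Real.exp_le_one_iff]
        have := sq_nonneg (u - p.1)
        linarith
    have hFI : ∀ y : ℝ, Integrable (𝓕 (fun s : ℝ => cmh y s)) := by
      intro y
      refine Integrable.mono' ((Pool.Agent.ZD.integrable_exp_abs (b := 2 * Real.pi)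
        (by have := Real.pi_pos; positivity)).const_mul (C * cmW y)) ?_
        (Eventually.of_forall fun w => ?_)
      · have h1 : 𝓕 (fun s : ℝ => cmh y s) = fun w => cmV (y, w) := by
          funext w
          exact (cmV_eq_fourier y w).symm
        rw [h1]
        exact (cmV_meas.comp_measurable (by fun_prop)).aestronglyMeasurable
      · rw [← cmV_eq_fourier]
        exact hb y w
    have hinner : ∀ y : ℝ, ∫ w : ℝ, cmV (y, w) * (exp (((2 * Real.pi * w * u : ℝ) : ℂ) * I) *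
        ((Real.exp (-((u - y) ^ 2 / 2)) : ℝ) : ℂ)) =
        exp ((u - 2 * Real.pi * Real.exp u : ℝ) : ℂ) * ((Real.exp (-1 * (u - y) ^ 2) : ℝ) : ℂ) := by
      intro y
      have h1 := congrFun ((cmh_cont y).fourierInv_fourier_eq (cmh_integrable y) (hFI y)) u
      rw [Real.fourierInv_eq'] at h1
      have h2 : ∀ w : ℝ, cmV (y, w) * (exp (((2 * Real.pi * w * u : ℝ) : ℂ) * I) *
          ((Real.exp (-((u - y) ^ 2 / 2)) : ℝ) : ℂ)) =
          (exp (((2 * Real.pi * inner ℝ w u : ℝ) : ℂ) * I) • 𝓕 (fun s : ℝ => cmh y s) w) *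
            ((Real.exp (-((u - y) ^ 2 / 2)) : ℝ) : ℂ) := by
        intro w
        rw [← cmV_eq_fourier, smul_eq_mul]
        have h3 : (2 * Real.pi * inner ℝ w u : ℝ) = 2 * Real.pi * w * u := by
          rw [real_inner_eq_re_inner]
          simp
          ring
        rw [h3]
        ring
      simp_rw [h2]
      rw [integral_mul_const, h1]
      unfold cmh
      rw [Complex.ofReal_exp, Complex.ofReal_exp, ← Complex.exp_add, ← Complex.exp_add]
      congr 1
      push_cast
      ring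
    have hmain : ∫ p : ℝ × ℝ, cmV p * (exp (((2 * Real.pi * p.2 * u : ℝ) : ℂ) * I) *
        ((Real.exp (-((u - p.1) ^ 2 / 2)) : ℝ) : ℂ)) =
        exp ((u - 2 * Real.pi * Real.exp u : ℝ) : ℂ) * ((Real.sqrt Real.pi : ℝ) : ℂ) := by
      rw [Measure.volume_eq_prod, integral_prod _ hint]
      simp only [hinner]
      rw [integral_const_mul, integral_complex_ofReal]
      congr 2
      rw [integral_sub_left_eq_self (fun v => Real.exp (-1 * v ^ 2)) volume u, integral_gaussian,
        div_one]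
    have hs : ((Real.sqrt Real.pi : ℝ) : ℂ) ≠ 0 := by exact_mod_cast hsp.ne'
    have h3 : ∀ p : ℝ × ℝ, (((Real.sqrt Real.pi)⁻¹ : ℝ) : ℂ) * cmV p *
        (exp (((2 * Real.pi * p.2 * u : ℝ) : ℂ) * I) *
        ((Real.exp (-((u - p.1) ^ 2 / 2)) : ℝ) : ℂ)) = (((Real.sqrt Real.pi)⁻¹ : ℝ) : ℂ) *
        (cmV p * (exp (((2 * Real.pi * p.2 * u : ℝ) : ℂ) * I) *
        ((Real.exp (-((u - p.1) ^ 2 / 2)) : ℝ) : ℂ))) := fun p => mul_assoc _ _ _
    simp_rw [h3]
    rw [integral_const_mul, hmain]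
    push_cast
    field_simp

end Pool.Agent.CZ
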