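import Mathlib
import Pool.Agent.CZ.IBAS
import Pool.Agent.CZ.InpARI
import Pool.Agent.CZ.ICMA

/-!
# Critical zeros (MP_553913_nt), part (I): theta blocks through Gaussian blocks
-/

set_option autoImplicit false

open Complex Finset MeasureTheory Filter Topology
open scoped ENNReal

namespace Pool.Agent.CZ

open Pool.Agent.H5 (c bd)
open Pool.Agent.ZD (S)

lemma cm_bd_le (D : ℤ) (n : ℕ) : ‖(bd D n : ℂ)‖ ≤ (n : ℝ) ^ 2 := by
  rw [Complex.norm_intCast]
  rcases Nat.eq_zero_or_pos n with hn | hn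
  · rw [hn, Pool.Agent.H5.bd_zero]
    simp
  have hs : (0 : ℝ) < Real.sqrt n := Real.sqrt_pos.2 (by exact_mod_cast hn)
  have h1 := Pool.Agent.CZ.Inp.abs_lam_le n
  unfold Pool.Agent.CZ.Inp.lam at h1
  rw [abs_div, abs_of_pos hs, div_le_iff₀ hs] at h1
  have h2 : (n.divisors.card : ℝ) ≤ n := by exact_mod_cast Nat.card_divisors_le_self n
  have h3 : Real.sqrt n ≤ n := by
    rw [Real.sqrt_le_left (by positivity)]
    have : (1 : ℝ) ≤ n := by exact_mod_cast hn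
    nlinarith
  calc |((bd D n : ℤ) : ℝ)| ≤ |((c n : ℤ) : ℝ)| := Pool.Agent.H5.abs_bd_le D n
    _ ≤ n.divisors.card * Real.sqrt n := h1
    _ ≤ n * n := mul_le_mul h2 h3 hs.le (by positivity)
    _ = (n : ℝ) ^ 2 := by ring

lemma cm_ga_le {n : ℕ} (hn : 0 < n) (x : ℝ) :
    Real.exp (-((Real.log n - x) ^ 2 / 2)) ≤ Real.exp (9 / 2) * Real.exp (3 * x) * ((n : ℝ) ^ 3)⁻¹ := by
  have h1 : ((n : ℝ) ^ 3)⁻¹ = Real.exp (-(3 * Real.log n)) := by
    rw [Real.exp_neg, ← Real.exp_log (by exact_mod_cast hn : (0 : ℝ) < n), ← Real.exp_nat_mul]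
    norm_num
  rw [h1, ← Real.exp_add, ← Real.exp_add]
  apply Real.exp_le_exp.2
  nlinarith [sq_nonneg (Real.log n - x - 3)]

/-- the integrand of the term `n` -/
noncomputable def cmT (V : ℝ × ℝ → ℂ) (D : ℤ) (Y : ℝ) (n : ℕ) (p : ℝ × ℝ) : ℂ :=
  ((bd D n : ℂ) / n) * (V p * (exp (((2 * Real.pi * p.2 * (Real.log n + Real.log Y) : ℝ) : ℂ) * I) *
    ((Real.exp (-(((Real.log n + Real.log Y) - p.1) ^ 2 / 2)) : ℝ) : ℂ)))

lemma cmT_zero (V : ℝ × ℝ → ℂ) (D : ℤ) (Y : ℝ) (p : ℝ × ℝ) : cmT V D Y 0 p = 0 := by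
  unfold cmT
  simp

lemma cmT_bound {V : ℝ × ℝ → ℂ} {C : ℝ} (hC : 0 < C)
    (hV : ∀ p, ‖V p‖ ≤ C * cmW p.1 * Real.exp (-(2 * Real.pi * |p.2|)))
    (D : ℤ) (Y : ℝ) (n : ℕ) (p : ℝ × ℝ) :
    ‖cmT V D Y n p‖ ≤ (C * Real.exp (9 / 2) * Real.exp (-(3 * Real.log Y)) * (1 / (n : ℝ) ^ 2)) *
      ((cmW p.1 * Real.exp (3 * p.1)) * Real.exp (-(2 * Real.pi * |p.2|))) := by
  rcases Nat.eq_zero_or_pos n with hn | hn
  · rw [hn, cmT_zero, norm_zero]
    have := cmW_nonneg p.1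
    positivity
  unfold cmT
  rw [norm_mul, norm_div, norm_mul, norm_mul, Complex.norm_exp_ofReal_mul_I, one_mul,
    Complex.norm_real, Real.norm_of_nonneg (Real.exp_pos _).le, Complex.norm_natCast]
  have hn0 : (0 : ℝ) < n := by exact_mod_cast hn
  have h1 : ‖(bd D n : ℂ)‖ / n ≤ n := by
    rw [div_le_iff₀ hn0]
    have := cm_bd_le D n
    nlinarith
  have h2 : Real.exp (-(((Real.log n + Real.log Y) - p.1) ^ 2 / 2)) ≤
      Real.exp (9 / 2) * Real.exp (3 * (p.1 - Real.log Y)) * ((n : ℝ) ^ 3)⁻¹ := by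
    have := cm_ga_le hn (p.1 - Real.log Y)
    refine le_trans (le_of_eq ?_) this
    congr 2
    ring
  have hW := cmW_nonneg p.1
  calc ‖(bd D n : ℂ)‖ / n * (‖V p‖ * Real.exp (-(((Real.log n + Real.log Y) - p.1) ^ 2 / 2)))
      ≤ n * ((C * cmW p.1 * Real.exp (-(2 * Real.pi * |p.2|))) *
        (Real.exp (9 / 2) * Real.exp (3 * (p.1 - Real.log Y)) * ((n : ℝ) ^ 3)⁻¹)) := by
        apply mul_le_mul h1 _ (by positivity) hn0.le
        exact mul_le_mul (hV p) h2 (Real.exp_pos _).le (by positivity)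
    _ = _ := by
        have h3 : Real.exp (3 * (p.1 - Real.log Y))
            = Real.exp (3 * p.1) * Real.exp (-(3 * Real.log Y)) := by
          rw [← Real.exp_add]
          congr 1
          ring
        rw [h3]
        field_simp

/-- the theta block as an integral of Gaussian blocks -/
theorem cm_repr {V : ℝ × ℝ → ℂ} {C : ℝ} (hC : 0 < C) (hVm : StronglyMeasurable V)
    (hV : ∀ p, ‖V p‖ ≤ C * cmW p.1 * Real.exp (-(2 * Real.pi * |p.2|)))
    (hK : ∀ u : ℝ, exp ((u - 2 * Real.pi * Real.exp u : ℝ) : ℂ) =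
      ∫ p : ℝ × ℝ, V p * (exp (((2 * Real.pi * p.2 * u : ℝ) : ℂ) * I) *
        ((Real.exp (-((u - p.1) ^ 2 / 2)) : ℝ) : ℂ)))
    (D : ℤ) {Y : ℝ} (hY : 0 < Y) :
    (Y : ℂ) * S D Y = ∫ p : ℝ × ℝ, V p * exp (((2 * Real.pi * p.2 * Real.log Y : ℝ) : ℂ) * I) *
      BB D (p.1 - Real.log Y) (-(2 * Real.pi * p.2)) := by
  have hmeas : ∀ n, AEStronglyMeasurable (cmT V D Y n) (volume : Measure (ℝ × ℝ)) := by
    intro n
    unfold cmT
    apply StronglyMeasurable.aestronglyMeasurable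
    apply StronglyMeasurable.const_mul
    apply hVm.mul
    apply Continuous.stronglyMeasurable
    fun_prop
  have hdom : Integrable (fun p : ℝ × ℝ => (cmW p.1 * Real.exp (3 * p.1)) *
      Real.exp (-(2 * Real.pi * |p.2|))) :=
    cm_prod_integrable (cmW_exp_integrable (a := 3) (by norm_num) le_rfl)
      (Pool.Agent.ZD.integrable_exp_abs (b := 2 * Real.pi) (by have := Real.pi_pos; positivity))
  have hint : ∀ n, Integrable (cmT V D Y n) := by
    intro n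
    exact Integrable.mono' (hdom.const_mul (C * Real.exp (9 / 2) * Real.exp (-(3 * Real.log Y)) *
      (1 / (n : ℝ) ^ 2))) (hmeas n) (Eventually.of_forall fun p => cmT_bound hC hV D Y n p)
  have hsum : Summable (fun n => ∫ p, ‖cmT V D Y n p‖) := by
    refine Summable.of_nonneg_of_le (fun n => integral_nonneg fun p => norm_nonneg _) (fun n => ?_)
      (((Real.summable_one_div_nat_pow (p := 2)).2 (by norm_num)).mul_left
        (C * Real.exp (9 / 2) * Real.exp (-(3 * Real.log Y)) *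
          ∫ p : ℝ × ℝ, (cmW p.1 * Real.exp (3 * p.1)) * Real.exp (-(2 * Real.pi * |p.2|))))
    calc ∫ p, ‖cmT V D Y n p‖ ≤ ∫ p : ℝ × ℝ, (C * Real.exp (9 / 2) *
          Real.exp (-(3 * Real.log Y)) * (1 / (n : ℝ) ^ 2)) *
          ((cmW p.1 * Real.exp (3 * p.1)) * Real.exp (-(2 * Real.pi * |p.2|))) := by
          apply integral_mono (hint n).norm (hdom.const_mul _)
          intro p
          exact cmT_bound hC hV D Y n p
      _ = _ := by
          rw [integral_const_mul]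
          ring
  have h1 := hasSum_integral_of_summable_integral_norm hint hsum
  have hterm : ∀ n : ℕ, (Y : ℂ) * ((bd D n : ℂ) * exp (-(2 * Real.pi * n * (Y : ℂ)))) =
      ∫ p, cmT V D Y n p := by
    intro n
    rcases Nat.eq_zero_or_pos n with hn | hn
    · rw [hn]
      simp only [cmT_zero, integral_zero, Pool.Agent.H5.bd_zero]
      simp
    · have hn0 : (n : ℝ) ≠ 0 := by positivity
      have hn1 : (0 : ℝ) < n := by exact_mod_cast hn
      have h2 := hK (Real.log n + Real.log Y)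
      unfold cmT
      rw [integral_const_mul, ← h2]
      have h3 : Real.exp (Real.log n + Real.log Y) = n * Y := by
        rw [Real.exp_add, Real.exp_log hn1, Real.exp_log hY]
      rw [h3]
      have h4 : exp ((Real.log n + Real.log Y - 2 * Real.pi * (n * Y) : ℝ) : ℂ)
          = (n * Y : ℂ) * exp (-(2 * Real.pi * n * (Y : ℂ))) := by
        rw [sub_eq_add_neg, Complex.ofReal_add, Complex.exp_add, ← Complex.ofReal_exp, h3]
        push_cast
        congr 2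
        ring
      rw [h4]
      have hnc : (n : ℂ) ≠ 0 := by exact_mod_cast hn0
      field_simp
  have hS : (Y : ℂ) * S D Y = ∑' n, ∫ p, cmT V D Y n p := by
    unfold Pool.Agent.ZD.S
    rw [← tsum_mul_left]
    exact tsum_congr hterm
  rw [hS, h1.tsum_eq]
  congr 1
  funext p
  unfold BB
  rw [← tsum_mul_left]
  apply tsum_congr
  intro n
  rcases Nat.eq_zero_or_pos n with hn | hn
  · rw [hn, cmT_zero, Pool.Agent.H5.bd_zero]
    simp
  · have hnc : (n : ℂ) ≠ 0 := by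
      have : n ≠ 0 := by omega
      exact_mod_cast this
    have h2 : npow n (-(2 * Real.pi * p.2)) =
        (n : ℂ)⁻¹ * exp (((2 * Real.pi * p.2 * Real.log n : ℝ) : ℂ) * I) := by
      unfold npow
      rw [neg_add, Complex.cpow_add _ _ hnc, Complex.cpow_neg_one, Complex.cpow_def_of_ne_zero hnc]
      congr 2
      push_cast
      ring
    have h3 : exp (((2 * Real.pi * p.2 * (Real.log n + Real.log Y) : ℝ) : ℂ) * I) =
        exp (((2 * Real.pi * p.2 * Real.log n : ℝ) : ℂ) * I) *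
          exp (((2 * Real.pi * p.2 * Real.log Y : ℝ) : ℂ) * I) := by
      rw [← Complex.exp_add]
      congr 1
      push_cast
      ring
    have h4 : ((Real.log n + Real.log Y) - p.1) ^ 2 / 2 = (Real.log n - (p.1 - Real.log Y)) ^ 2 / 2 := by
      ring
    unfold cmT
    rw [h2, h3, h4]
    ring

/-- Cauchy-Schwarz with a weight -/
lemma cm_cs {α : Type} [MeasurableSpace α] {μ : Measure α} {a h : α → ℝ≥0∞}
    (ha : AEMeasurable a μ) (hh : AEMeasurable h μ) :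
    (∫⁻ p, a p * h p ∂μ) ^ 2 ≤ (∫⁻ p, a p ∂μ) * ∫⁻ p, a p * h p ^ 2 ∂μ := by
  have h1 := ENNReal.lintegral_mul_norm_pow_le ha (ha.mul (hh.pow_const 2)) (p := 1 / 2)
    (q := 1 / 2) (by norm_num) (by norm_num) (by norm_num)
  have h2 : ∀ p, a p ^ (1 / 2 : ℝ) * (a p * h p ^ 2) ^ (1 / 2 : ℝ) = a p * h p := by
    intro p
    rw [ENNReal.mul_rpow_of_nonneg _ _ (by norm_num), ← mul_assoc,
      ← ENNReal.rpow_add_of_nonneg _ _ (by norm_num) (by norm_num),
      ← ENNReal.rpow_natCast, ← ENNReal.rpow_mul]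
    norm_num
  have h3 : ∫⁻ p, a p ^ (1 / 2 : ℝ) * (a * fun p => h p ^ 2) p ^ (1 / 2 : ℝ) ∂μ =
      ∫⁻ p, a p * h p ∂μ := lintegral_congr h2
  rw [h3] at h1
  calc (∫⁻ p, a p * h p ∂μ) ^ 2 ≤ ((∫⁻ p, a p ∂μ) ^ (1 / 2 : ℝ) *
        (∫⁻ p, (a * fun p => h p ^ 2) p ∂μ) ^ (1 / 2 : ℝ)) ^ 2 := pow_le_pow_left' h1 2
    _ = _ := by
      rw [mul_pow, ← ENNReal.rpow_natCast, ← ENNReal.rpow_mul, ← ENNReal.rpow_natCast,
        ← ENNReal.rpow_mul]
      norm_num

/-- the weight on the plane -/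
noncomputable def cmA (p : ℝ × ℝ) : ℝ≥0∞ :=
  ENNReal.ofReal (cmW p.1 * Real.exp (-(2 * Real.pi * |p.2|)))

lemma cmA_meas : Measurable cmA := by
  unfold cmA
  apply Measurable.ennreal_ofReal
  apply Continuous.measurable
  have := cmW_cont
  fun_prop

lemma cm_weight_ne_top (b : ℝ) (hb : 0 < b) :
    ∫⁻ p : ℝ × ℝ, ENNReal.ofReal (cmW p.1 * Real.exp (-(b * |p.2|))) ≠ ⊤ := by
  have h1 : Integrable (fun p : ℝ × ℝ => cmW p.1 * Real.exp (-(b * |p.2|))) :=
    cm_prod_integrable cmW_integrable (Pool.Agent.ZD.integrable_exp_abs hb)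
  rw [← ofReal_integral_eq_lintegral_ofReal h1
    (Eventually.of_forall fun p => mul_nonneg (cmW_nonneg _) (Real.exp_pos _).le)]
  exact ENNReal.ofReal_ne_top

lemma cm_BB_meas (D : ℤ) (x : ℝ) :
    Measurable (fun p : ℝ × ℝ => ‖BB D (p.1 + x) (-(2 * Real.pi * p.2))‖ₑ) := by
  have h2 : Continuous (fun p : ℝ × ℝ => ((p.1 + x, -(2 * Real.pi * p.2)) : ℝ × ℝ)) := by fun_prop
  have h3 : Continuous ((fun p : ℝ × ℝ => BB D p.1 p.2) ∘
      (fun p : ℝ × ℝ => ((p.1 + x, -(2 * Real.pi * p.2)) : ℝ × ℝ))) := (BB_cont D).comp h2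
  exact h3.measurable.enorm

/-- theta blocks in mean square -/
theorem cm_sq : ∃ K : ℝ≥0∞, K ≠ ⊤ ∧ ∀ (D : ℤ) (M x : ℝ), 0 < M →
    ‖sB D M x‖ₑ ^ 2 ≤ K * ∫⁻ p : ℝ × ℝ, cmA p *
      ‖BB D (p.1 + (Real.log M - x)) (-(2 * Real.pi * p.2))‖ₑ ^ 2 := by
  obtain ⟨V, C, hC, hVm, hV, hK⟩ := cm_kernel
  have hfin : ∫⁻ p : ℝ × ℝ, cmA p ≠ ⊤ := by
    unfold cmA
    exact cm_weight_ne_top (2 * Real.pi) (by have := Real.pi_pos; positivity)
  refine ⟨ENNReal.ofReal C ^ 2 * ∫⁻ p : ℝ × ℝ, cmA p, ?_, ?_⟩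
  · exact ENNReal.mul_ne_top (ENNReal.pow_ne_top ENNReal.ofReal_ne_top) hfin
  intro D M x hM
  have hY : 0 < Real.exp x / M := by positivity
  have hlog : Real.log (Real.exp x / M) = x - Real.log M := by
    rw [Real.log_div (Real.exp_pos x).ne' hM.ne', Real.log_exp]
  have h1 := cm_repr hC hVm hV hK D hY
  have h2 : ‖sB D M x‖ₑ ≤ ENNReal.ofReal C * ∫⁻ p : ℝ × ℝ, cmA p *
      ‖BB D (p.1 + (Real.log M - x)) (-(2 * Real.pi * p.2))‖ₑ := by
    have hm : Measurable (fun p : ℝ × ℝ => cmA p *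
        ‖BB D (p.1 + (Real.log M - x)) (-(2 * Real.pi * p.2))‖ₑ) := cmA_meas.mul (cm_BB_meas D _)
    unfold sB
    rw [h1, ← lintegral_const_mul _ hm]
    refine (enorm_integral_le_lintegral_enorm _).trans (lintegral_mono fun p => ?_)
    rw [enorm_mul, enorm_mul, hlog]
    have h3 : ‖exp (((2 * Real.pi * p.2 * (x - Real.log M) : ℝ) : ℂ) * I)‖ₑ = 1 := by
      rw [← ofReal_norm, Complex.norm_exp_ofReal_mul_I, ENNReal.ofReal_one]
    rw [h3, mul_one, ← mul_assoc]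
    have h4 : p.1 - (x - Real.log M) = p.1 + (Real.log M - x) := by ring
    rw [h4]
    apply mul_le_mul_left
    unfold cmA
    rw [← ENNReal.ofReal_mul hC.le, ← ofReal_norm]
    apply ENNReal.ofReal_le_ofReal
    have := hV p
    rw [mul_assoc] at this
    exact this
  calc ‖sB D M x‖ₑ ^ 2 ≤ (ENNReal.ofReal C * ∫⁻ p : ℝ × ℝ, cmA p *
      ‖BB D (p.1 + (Real.log M - x)) (-(2 * Real.pi * p.2))‖ₑ) ^ 2 := pow_le_pow_left' h2 2
    _ = ENNReal.ofReal C ^ 2 * (∫⁻ p : ℝ × ℝ, cmA p *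
      ‖BB D (p.1 + (Real.log M - x)) (-(2 * Real.pi * p.2))‖ₑ) ^ 2 := mul_pow _ _ _
    _ ≤ ENNReal.ofReal C ^ 2 * ((∫⁻ p : ℝ × ℝ, cmA p) * ∫⁻ p : ℝ × ℝ, cmA p *
      ‖BB D (p.1 + (Real.log M - x)) (-(2 * Real.pi * p.2))‖ₑ ^ 2) := by
        gcongr
        exact cm_cs cmA_meas.aemeasurable (cm_BB_meas D _).aemeasurable
    _ = _ := by rw [mul_assoc]

/-- a shift of the first variable costs a factor -/
lemma cm_shift (D : ℤ) (u x : ℝ) : ∫⁻ p : ℝ × ℝ, cmA p *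
      ‖BB D (p.1 + (u + x)) (-(2 * Real.pi * p.2))‖ₑ ^ 2 ≤
    ENNReal.ofReal (Real.exp (4 * |u|)) * ∫⁻ p : ℝ × ℝ, cmA p *
      ‖BB D (p.1 + x) (-(2 * Real.pi * p.2))‖ₑ ^ 2 := by
  have h1 := lintegral_add_right_eq_self (μ := (volume : Measure (ℝ × ℝ)))
    (fun p : ℝ × ℝ => cmA (p.1 - u, p.2) * ‖BB D (p.1 + x) (-(2 * Real.pi * p.2))‖ₑ ^ 2)
    ((u, 0) : ℝ × ℝ)
  have h2 : ∀ p : ℝ × ℝ, cmA ((p + (u, 0)).1 - u, (p + (u, 0)).2) *
      ‖BB D ((p + (u, 0)).1 + x) (-(2 * Real.pi * (p + (u, 0)).2))‖ₑ ^ 2 =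
      cmA p * ‖BB D (p.1 + (u + x)) (-(2 * Real.pi * p.2))‖ₑ ^ 2 := by
    intro p
    have h3 : (p + ((u, 0) : ℝ × ℝ)).1 = p.1 + u := rfl
    have h4 : (p + ((u, 0) : ℝ × ℝ)).2 = p.2 := by
      change p.2 + 0 = p.2
      rw [add_zero]
    rw [h3, h4, add_sub_cancel_right, add_assoc]
  simp only [h2] at h1
  have hm : Measurable (fun p : ℝ × ℝ => cmA p *
      ‖BB D (p.1 + x) (-(2 * Real.pi * p.2))‖ₑ ^ 2) := cmA_meas.mul ((cm_BB_meas D x).pow_const 2)
  rw [h1, ← lintegral_const_mul _ hm]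
  apply lintegral_mono
  intro p
  change cmA (p.1 - u, p.2) * ‖BB D (p.1 + x) (-(2 * Real.pi * p.2))‖ₑ ^ 2 ≤
    ENNReal.ofReal (Real.exp (4 * |u|)) * (cmA p *
      ‖BB D (p.1 + x) (-(2 * Real.pi * p.2))‖ₑ ^ 2)
  rw [← mul_assoc]
  apply mul_le_mul_left
  unfold cmA
  rw [← ENNReal.ofReal_mul (Real.exp_pos _).le]
  apply ENNReal.ofReal_le_ofReal
  have := cmW_shift p.1 (-u)
  rw [abs_neg, ← sub_eq_add_neg] at this
  calc cmW (p.1 - u) * Real.exp (-(2 * Real.pi * |p.2|)) ≤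
      (Real.exp (4 * |u|) * cmW p.1) * Real.exp (-(2 * Real.pi * |p.2|)) :=
        mul_le_mul_of_nonneg_right this (Real.exp_pos _).le
    _ = _ := by ring

lemma cm_Md {X : ℝ} (hX : 0 < X) {d : ℕ} (h1 : (d : ℝ) ≤ X) (h2 : X ≤ 6 * d) :
    0 < Md d ∧ |Real.log (Md d) - Real.log X| ≤ 2 := by
  have hd : (0 : ℝ) < d := by linarith
  have hs1 : (1 : ℝ) ≤ Real.sqrt 2 := by
    rw [Real.one_le_sqrt]
    norm_num
  have hs2 : Real.sqrt 2 ≤ 3 / 2 := by
    rw [Real.sqrt_le_left (by norm_num)]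
    norm_num
  have h3 : 4 * (d : ℝ) ≤ Md d ∧ Md d ≤ 6 * d := by
    unfold Md
    split_ifs
    · constructor <;> linarith
    · constructor <;> nlinarith
  have hM : 0 < Md d := by linarith [h3.1]
  refine ⟨hM, ?_⟩
  rw [← Real.log_div hM.ne' hX.ne', abs_le]
  have hq1 : 1 / 2 ≤ Md d / X := by
    rw [div_le_div_iff₀ (by norm_num) hX]
    linarith [h3.1]
  have hq2 : Md d / X ≤ 6 := by
    rw [div_le_iff₀ hX]
    linarith [h3.2]
  have hq0 : 0 < Md d / X := by positivity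
  constructor
  · rw [Real.le_log_iff_exp_le hq0]
    refine le_trans ?_ hq1
    rw [Real.exp_neg, inv_le_comm₀ (Real.exp_pos _) (by norm_num)]
    have := Real.add_one_le_exp (2 : ℝ)
    linarith
  · rw [Real.log_le_iff_le_exp hq0]
    refine hq2.trans ?_
    have h4 : Real.exp 2 = Real.exp 1 * Real.exp 1 := by
      rw [← Real.exp_add]
      norm_num
    have h5 := Real.exp_one_gt_d9
    rw [h4]
    nlinarith

/-- one block -/
theorem cm_block {a : ℝ} (h : HypE a) : ∃ B : ℝ, 0 ≤ B ∧ ∀ X x : ℝ, 3 ≤ X →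
    ∑ d ∈ (sqf X).filter (fun d : ℕ => X ≤ 6 * (d : ℝ)), ‖sB d (Md d) x‖ ^ 2 ≤ B * X * (Real.log X) ^ a := by
  obtain ⟨K, hK, hsq⟩ := cm_sq
  obtain ⟨C, hC, hE⟩ := h (1 / 2) (by norm_num)
  set J : ℝ≥0∞ := ∫⁻ p : ℝ × ℝ, ENNReal.ofReal (cmW p.1 * Real.exp (-(Real.pi * |p.2|))) with hJ
  have hJf : J ≠ ⊤ := cm_weight_ne_top Real.pi Real.pi_pos
  have hKJ : K * (ENNReal.ofReal (Real.exp 8) * (ENNReal.ofReal C * J)) ≠ ⊤ :=
    ENNReal.mul_ne_top hK (ENNReal.mul_ne_top ENNReal.ofReal_ne_top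
      (ENNReal.mul_ne_top ENNReal.ofReal_ne_top hJf))
  refine ⟨(K * (ENNReal.ofReal (Real.exp 8) * (ENNReal.ofReal C * J))).toReal,
    ENNReal.toReal_nonneg, fun X x hX => ?_⟩
  have hX0 : 0 < X := by linarith
  have hlog : 0 ≤ Real.log X := Real.log_nonneg (by linarith)
  have hL : 0 ≤ (Real.log X) ^ a := Real.rpow_nonneg hlog a
  set T := (sqf X).filter (fun d : ℕ => X ≤ 6 * (d : ℝ)) with hT
  have hd : ∀ d ∈ T, (d : ℝ) ≤ X ∧ X ≤ 6 * d := by
    intro d hd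
    rw [hT, Finset.mem_filter] at hd
    refine ⟨?_, hd.2⟩
    have h1 := hd.1
    unfold sqf at h1
    rw [Finset.mem_filter, Finset.mem_Icc] at h1
    exact (Nat.le_floor_iff hX0.le).1 h1.1.2
  have key : ENNReal.ofReal (∑ d ∈ T, ‖sB d (Md d) x‖ ^ 2) ≤
      (K * (ENNReal.ofReal (Real.exp 8) * (ENNReal.ofReal C * J))) *
        ENNReal.ofReal (X * (Real.log X) ^ a) := by
    rw [ENNReal.ofReal_sum_of_nonneg (fun d _ => by positivity)]
    have h1 : ∀ d ∈ T, ENNReal.ofReal (‖sB d (Md d) x‖ ^ 2) ≤ K * (ENNReal.ofReal (Real.exp 8) *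
        ∫⁻ p : ℝ × ℝ, cmA p * ‖BB d (p.1 + (Real.log X - x)) (-(2 * Real.pi * p.2))‖ₑ ^ 2) := by
      intro d hd'
      obtain ⟨h2, h3⟩ := hd d hd'
      obtain ⟨hM, h4⟩ := cm_Md hX0 h2 h3
      rw [ENNReal.ofReal_pow (norm_nonneg _), ofReal_norm]
      refine (hsq d (Md d) x hM).trans ?_
      gcongr
      have h5 := cm_shift d (Real.log (Md d) - Real.log X) (Real.log X - x)
      have h6 : Real.log (Md d) - Real.log X + (Real.log X - x) = Real.log (Md d) - x := by ring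
      rw [h6] at h5
      refine h5.trans ?_
      gcongr
      linarith
    refine (Finset.sum_le_sum h1).trans ?_
    have hm : ∀ d ∈ T, Measurable (fun p : ℝ × ℝ => cmA p *
        ‖BB d (p.1 + (Real.log X - x)) (-(2 * Real.pi * p.2))‖ₑ ^ 2) := fun d _ =>
      cmA_meas.mul ((cm_BB_meas d _).pow_const 2)
    rw [← Finset.mul_sum, ← Finset.mul_sum, ← lintegral_finsetSum _ hm, mul_assoc, mul_assoc,
      mul_assoc]
    gcongr
    rw [hJ, mul_comm _ (ENNReal.ofReal (X * (Real.log X) ^ a)), ← mul_assoc,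
      ← lintegral_const_mul _ (by
        apply Measurable.ennreal_ofReal
        apply Continuous.measurable
        have := cmW_cont
        fun_prop)]
    apply lintegral_mono
    intro p
    change ∑ d ∈ T, cmA p * ‖BB d (p.1 + (Real.log X - x)) (-(2 * Real.pi * p.2))‖ₑ ^ 2 ≤
      ENNReal.ofReal C * ENNReal.ofReal (X * (Real.log X) ^ a) *
        ENNReal.ofReal (cmW p.1 * Real.exp (-(Real.pi * |p.2|)))
    rw [← Finset.mul_sum]
    have h7 : ∑ d ∈ T, ‖BB d (p.1 + (Real.log X - x)) (-(2 * Real.pi * p.2))‖ₑ ^ 2 ≤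
        ENNReal.ofReal (C * X * (Real.log X) ^ a * Real.exp (1 / 2 * |-(2 * Real.pi * p.2)|)) := by
      have h8 := hE X (p.1 + (Real.log X - x)) (-(2 * Real.pi * p.2)) hX
      have h9 : ∑ d ∈ T, ‖BB d (p.1 + (Real.log X - x)) (-(2 * Real.pi * p.2))‖ ^ 2 ≤
          ∑ d ∈ sqf X, ‖BB d (p.1 + (Real.log X - x)) (-(2 * Real.pi * p.2))‖ ^ 2 :=
        Finset.sum_le_sum_of_subset_of_nonneg (Finset.filter_subset _ _)
          (fun _ _ _ => by positivity)
      refine le_trans (le_of_eq ?_) (ENNReal.ofReal_le_ofReal (h9.trans h8))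
      rw [ENNReal.ofReal_sum_of_nonneg (fun d _ => by positivity)]
      refine Finset.sum_congr rfl fun d _ => ?_
      rw [ENNReal.ofReal_pow (norm_nonneg _), ofReal_norm]
    refine (mul_le_mul_right h7 _).trans ?_
    unfold cmA
    rw [← ENNReal.ofReal_mul (mul_nonneg (cmW_nonneg _) (Real.exp_pos _).le),
      ← ENNReal.ofReal_mul hC.le, ← ENNReal.ofReal_mul (by positivity)]
    apply ENNReal.ofReal_le_ofReal
    have h10 : |-(2 * Real.pi * p.2)| = 2 * Real.pi * |p.2| := by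
      rw [abs_neg, abs_mul, abs_of_pos (by have := Real.pi_pos; positivity)]
    have h11 : Real.exp (-(2 * Real.pi * |p.2|)) * Real.exp (1 / 2 * (2 * Real.pi * |p.2|))
        = Real.exp (-(Real.pi * |p.2|)) := by
      rw [← Real.exp_add]
      congr 1
      ring
    rw [h10]
    apply le_of_eq
    calc cmW p.1 * Real.exp (-(2 * Real.pi * |p.2|)) * (C * X * (Real.log X) ^ a *
          Real.exp (1 / 2 * (2 * Real.pi * |p.2|)))
        = C * (X * (Real.log X) ^ a) * (cmW p.1 * (Real.exp (-(2 * Real.pi * |p.2|)) *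
          Real.exp (1 / 2 * (2 * Real.pi * |p.2|)))) := by ring
      _ = _ := by rw [h11]
  have h12 : K * (ENNReal.ofReal (Real.exp 8) * (ENNReal.ofReal C * J)) =
      ENNReal.ofReal (K * (ENNReal.ofReal (Real.exp 8) * (ENNReal.ofReal C * J))).toReal :=
    (ENNReal.ofReal_toReal hKJ).symm
  rw [h12, ← ENNReal.ofReal_mul ENNReal.toReal_nonneg] at key
  have h13 := (ENNReal.ofReal_le_ofReal_iff (by
    apply mul_nonneg ENNReal.toReal_nonneg
    positivity)).1 key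
  rw [← mul_assoc] at h13
  exact h13

/-- dyadic summation -/
lemma cm_dyadic {f : ℕ → ℝ} (hf : ∀ d, 0 ≤ f d) {B a : ℝ} (hB : 0 ≤ B) (ha : 0 ≤ a)
    (h : ∀ X : ℝ, 3 ≤ X → ∑ d ∈ (sqf X).filter (fun d : ℕ => X ≤ 6 * (d : ℝ)), f d ≤
      B * X * (Real.log X) ^ a) :
    ∀ n : ℕ, ∀ X : ℝ, 3 ≤ X → X < 6 * 2 ^ n → ∑ d ∈ sqf X, f d ≤ 2 * B * X * (Real.log X) ^ a := by
  intro n
  induction n with
  | zero =>
    intro X hX hX6
    have h1 : (sqf X).filter (fun d : ℕ => X ≤ 6 * (d : ℝ)) = sqf X := by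
      apply Finset.filter_true_of_mem
      intro d hd
      unfold sqf at hd
      rw [Finset.mem_filter, Finset.mem_Icc] at hd
      have : (1 : ℝ) ≤ d := by exact_mod_cast hd.1.1
      rw [pow_zero, mul_one] at hX6
      linarith
    have h2 := h X hX
    rw [h1] at h2
    have h3 : 0 ≤ B * X * (Real.log X) ^ a := by
      have := Real.log_nonneg (show (1 : ℝ) ≤ X by linarith)
      positivity
    linarith
  | succ n ih =>
    intro X hX hX6
    have hlog : 0 ≤ Real.log X := Real.log_nonneg (by linarith)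
    rcases lt_or_ge X 6 with h6 | h6
    · apply ih X hX
      have : (1 : ℝ) ≤ 2 ^ n := one_le_pow₀ (by norm_num)
      linarith
    · have h1 := Finset.sum_filter_add_sum_filter_not (sqf X) (fun d : ℕ => X ≤ 6 * (d : ℝ)) f
      have h2 : ∑ d ∈ (sqf X).filter (fun d : ℕ => ¬ X ≤ 6 * (d : ℝ)), f d ≤ ∑ d ∈ sqf (X / 2), f d := by
        apply Finset.sum_le_sum_of_subset_of_nonneg
        · intro d hd
          rw [Finset.mem_filter] at hd
          obtain ⟨h3, h4⟩ := hd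
          unfold sqf at h3 ⊢
          rw [Finset.mem_filter, Finset.mem_Icc] at h3 ⊢
          refine ⟨⟨h3.1.1, ?_⟩, h3.2⟩
          apply Nat.le_floor
          push Not at h4
          linarith
        · intro d _ _
          exact hf d
      have h3 := ih (X / 2) (by linarith) (by
        rw [pow_succ] at hX6
        linarith)
      have h4 : (Real.log (X / 2)) ^ a ≤ (Real.log X) ^ a := by
        apply Real.rpow_le_rpow (Real.log_nonneg (by linarith)) _ ha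
        exact Real.log_le_log (by linarith) (by linarith)
      have h5 := h X hX
      have h7 : 2 * B * (X / 2) * (Real.log (X / 2)) ^ a ≤ B * X * (Real.log X) ^ a := by
        have : 2 * B * (X / 2) = B * X := by ring
        rw [this]
        exact mul_le_mul_of_nonneg_left h4 (by positivity)
      linarith

/-- theta blocks on the border, from the bound for Gaussian blocks -/
theorem central_moment_of {a : ℝ} (ha : 0 ≤ a) (h : HypE a) : ∃ A : ℝ, ∀ (X x : ℝ), 3 ≤ X →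
    ∑ d ∈ (Finset.Icc 1 ⌊X⌋₊).filter Squarefree, ‖sB d (Md d) x‖ ^ 2 ≤
      A * X * (Real.log X) ^ a := by
  obtain ⟨B, hB, hb⟩ := cm_block h
  refine ⟨2 * B, fun X x hX => ?_⟩
  obtain ⟨n, hn⟩ := pow_unbounded_of_one_lt X (one_lt_two (α := ℝ))
  exact cm_dyadic (f := fun d : ℕ => ‖sB d (Md d) x‖ ^ 2) (fun d => by positivity) hB ha
    (fun X hX => hb X x hX) n X hX (by
      have : (0 : ℝ) < 2 ^ n := by positivity
      linarith)

end Pool.Agent.CZ
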