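import Mathlib
import Pool.Agent.CZ.IDefs
import Pool.Agent.CZ.IBAS
import Pool.Agent.ZD.T

/-!
# Critical zeros, part (I): integral representation of Gaussian blocks
-/

set_option autoImplicit false

open Complex Finset MeasureTheory

namespace Pool.Agent.CZ

open Pool.Agent.H5 (c bd Lser)
open Pool.Agent.ZD (Lf)

theorem LfL_cont {q : ℕ} (hq : Squarefree q) (η : ℝ) : Continuous (LfL η q) := by
  unfold LfL
  exact (Pool.Agent.ZD.Lf_spec hq).1.continuous.comp (by fun_prop)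

theorem LfL_growth {q : ℕ} (hq : Squarefree q) {κ : ℝ} (hκ : 0 < κ) :
    ∃ K : ℝ, 0 < K ∧ ∀ η v : ℝ, 0 ≤ η → η ≤ 2 → ‖LfL η q v‖ ≤ K * Real.exp (κ * |v|) := by
  obtain ⟨K, hK⟩ := Pool.Agent.ZD.growth hq hκ (σ₁ := 1) one_pos 3
  refine ⟨|K| + 1, by positivity, ?_⟩
  intro η v h0 h1
  unfold LfL
  have h := hK (1 + η + v * I) (by simp; linarith) (by simp; linarith)
  have e : (1 + (η : ℂ) + v * I).im = v := by simp
  rw [e] at h
  refine h.trans ?_
  have := le_abs_self K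
  gcongr
  linarith

/-- holomorphic integrand -/
noncomputable def bintH (q : ℕ) (x t : ℝ) (w : ℂ) : ℂ :=
  Lf q (1 + w) * exp ((w - t * I) * x + (w - t * I) ^ 2 / 2)

lemma bint_eq (q : ℕ) (η x t v : ℝ) :
    bintH q x t (η + v * I) =
      ((Real.exp (η * x + η ^ 2 / 2) : ℝ) : ℂ) * gI (LfL η q) (x + η) t v := by
  unfold bintH gI LfL
  have e : exp (((η + v * I : ℂ) - t * I) * x + ((η + v * I : ℂ) - t * I) ^ 2 / 2) =
     exp ((η * x + η ^ 2 / 2 : ℝ) : ℂ) * (exp (I * (v - t) * ((x + η : ℝ) : ℂ)) *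
       exp ((-((v - t) ^ 2 / 2) : ℝ) : ℂ)) := by
    rw [← Complex.exp_add, ← Complex.exp_add]
    congr 1
    push_cast
    linear_combination ((v - t : ℂ) ^ 2 / 2) * Complex.I_sq
  rw [e, Complex.ofReal_exp, Complex.ofReal_exp, ← add_assoc]
  ring

lemma bint_norm (q : ℕ) (η x t v : ℝ) :
    ‖bintH q x t (η + v * I)‖ =
      ‖LfL η q v‖ * Real.exp (η * x + η ^ 2 / 2 - (v - t) ^ 2 / 2) := by
  unfold bintH LfL
  rw [norm_mul, Complex.norm_exp, ← add_assoc]
  congr 2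
  have e : ((η + v * I : ℂ) - t * I) * x + ((η + v * I : ℂ) - t * I) ^ 2 / 2 =
      ((η * x + η ^ 2 / 2 - (v - t) ^ 2 / 2 : ℝ) : ℂ) + (((v - t) * x + η * (v - t) : ℝ) : ℂ) * I := by
    push_cast
    linear_combination ((v - t : ℂ) ^ 2 / 2) * Complex.I_sq
  rw [e]
  simp only [Complex.add_re, Complex.ofReal_re, Complex.mul_re, Complex.I_re, mul_zero,
    Complex.ofReal_im, Complex.I_im, mul_one, sub_self, add_zero]

lemma bint_quad (t v : ℝ) : |v| - (v - t) ^ 2 / 2 ≤ 2 * |t| + 2 - |v| := by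
  have h1 : |v| ≤ |t| + |v - t| := by
    have := abs_add_le t (v - t)
    rwa [add_sub_cancel] at this
  have h2 : (v - t) ^ 2 = |v - t| ^ 2 := (sq_abs _).symm
  rw [h2]
  nlinarith [sq_nonneg (|v - t| - 2)]

lemma bint_le {q : ℕ} (hq : Squarefree q) (x t : ℝ) : ∃ K : ℝ, 0 < K ∧
    ∀ η v : ℝ, 0 ≤ η → η ≤ 2 → ‖bintH q x t (η + v * I)‖ ≤ K * Real.exp (-(1 * |v|)) := by
  obtain ⟨K, hK0, hK⟩ := LfL_growth hq (κ := 1) one_pos
  refine ⟨K * Real.exp (2 * |x| + 2 + (2 * |t| + 2)), by positivity, ?_⟩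
  intro η v h0 h1
  rw [bint_norm]
  have h2 := hK η v h0 h1
  calc ‖LfL η q v‖ * Real.exp (η * x + η ^ 2 / 2 - (v - t) ^ 2 / 2)
      ≤ (K * Real.exp (1 * |v|)) * Real.exp (η * x + η ^ 2 / 2 - (v - t) ^ 2 / 2) := by gcongr
    _ = K * Real.exp (1 * |v| + (η * x + η ^ 2 / 2 - (v - t) ^ 2 / 2)) := by
        rw [Real.exp_add]; ring
    _ ≤ K * Real.exp ((2 * |x| + 2 + (2 * |t| + 2)) + -(1 * |v|)) := by
        gcongr K * Real.exp ?_
        have h3 := bint_quad t v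
        have h4 : η * x ≤ 2 * |x| := by
          have h5 := le_abs_self x
          have h6 := abs_nonneg x
          nlinarith
        have h5 : η ^ 2 / 2 ≤ 2 := by nlinarith
        linarith
    _ = _ := by rw [Real.exp_add]; ring

lemma bint_diff {q : ℕ} (hq : Squarefree q) (x t : ℝ) : Differentiable ℂ (bintH q x t) := by
  unfold bintH
  have h1 : Differentiable ℂ (fun w : ℂ => Lf q (1 + w)) :=
    (Pool.Agent.ZD.Lf_spec hq).1.comp (by fun_prop)
  have h2 : Differentiable ℂ (fun w : ℂ => exp ((w - t * I) * x + (w - t * I) ^ 2 / 2)) := by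
    fun_prop
  exact h1.mul h2

lemma bint_cont {q : ℕ} (hq : Squarefree q) (x t η : ℝ) :
    Continuous (fun v : ℝ => bintH q x t (η + v * I)) :=
  (bint_diff hq x t).continuous.comp (by fun_prop)

lemma bint_integrable {q : ℕ} (hq : Squarefree q) (x t : ℝ) {η : ℝ} (h0 : 0 ≤ η) (h1 : η ≤ 2) :
    Integrable (fun v : ℝ => bintH q x t (η + v * I)) := by
  obtain ⟨K, hK0, hK⟩ := bint_le hq x t
  refine Integrable.mono' ((Pool.Agent.ZD.integrable_exp_abs one_pos).const_mul K)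
    (bint_cont hq x t η).aestronglyMeasurable ?_
  filter_upwards with v
  exact hK η v h0 h1

lemma bint_shift {q : ℕ} (hq : Squarefree q) (x t : ℝ) {η : ℝ} (h0 : 0 ≤ η) (h1 : η ≤ 2) :
    ∫ v : ℝ, bintH q x t ((1 : ℝ) + v * I) = ∫ v : ℝ, bintH q x t (η + v * I) := by
  obtain ⟨K, hK0, hK⟩ := bint_le hq x t
  refine Pool.Agent.ZD.vert_shift (F := bintH q x t) (x₁ := 1) (x₂ := η)
    (fun s _ => (bint_diff hq x t) s)
    ((Pool.Agent.ZD.integrable_exp_abs one_pos).const_mul K)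
    (Pool.Agent.ZD.tendsto_exp_abs_top one_pos K) (Pool.Agent.ZD.tendsto_exp_abs_bot one_pos K) ?_
  intro y hy v
  have hy' : y ∈ Set.uIcc (0 : ℝ) 2 := by
    refine Set.uIcc_subset_uIcc ?_ ?_ hy
    · rw [Set.uIcc_of_le (by norm_num)]; exact ⟨by norm_num, by norm_num⟩
    · rw [Set.uIcc_of_le (by norm_num)]; exact ⟨h0, h1⟩
  rw [Set.uIcc_of_le (by norm_num)] at hy'
  exact hK y v hy'.1 hy'.2

/-- the Gaussian integral of one term -/
lemma bint_gauss (L x t : ℝ) :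
    ∫ v : ℝ, exp (-((2 + v * I) * L) + (((1 : ℝ) + v * I - t * I) * x +
      ((1 : ℝ) + v * I - t * I) ^ 2 / 2)) =
      (Real.sqrt (2 * Real.pi) : ℂ) * exp (-((1 + t * I) * L) + ((-((L - x) ^ 2 / 2) : ℝ) : ℂ)) := by
  have h := integral_cexp_quadratic (b := -(1 / 2 : ℂ)) (by norm_num) (I * (x - L + 1 - t * I))
    (-(2 * L) + (1 - t * I) * x + (1 - t * I) ^ 2 / 2)
  have e1 : ∀ v : ℝ, -((2 + v * I) * L) + (((1 : ℝ) + v * I - t * I) * x +
      ((1 : ℝ) + v * I - t * I) ^ 2 / 2) = -(1 / 2 : ℂ) * v ^ 2 + (I * (x - L + 1 - t * I)) * v +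
        (-(2 * L) + (1 - t * I) * x + (1 - t * I) ^ 2 / 2) := by
    intro v
    push_cast
    linear_combination ((v : ℂ) ^ 2 / 2) * Complex.I_sq
  simp_rw [e1]
  rw [h]
  congr 1
  · rw [Real.sqrt_eq_rpow, Complex.ofReal_cpow (by positivity)]
    congr 1
    · push_cast
      field_simp
    · push_cast
      ring
  · congr 1
    push_cast
    linear_combination (((x : ℂ) - L + 1 - t * I) ^ 2 / 2) * Complex.I_sq

lemma bint_term {q : ℕ} (x t : ℝ) (n : ℕ) :
    (∀ v : ℝ, ‖(bd q n : ℂ) * (n : ℂ) ^ (-(2 + v * I : ℂ)) * exp (((1 : ℝ) + v * I - t * I) * x +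
      ((1 : ℝ) + v * I - t * I) ^ 2 / 2)‖ = ‖(bd q n : ℂ) * (n : ℂ) ^ (-(2 : ℂ))‖ *
        (Real.exp (x + 1 / 2) * Real.exp (-(1 / 2) * (v - t) ^ 2))) ∧
    ∫ v : ℝ, (bd q n : ℂ) * (n : ℂ) ^ (-(2 + v * I : ℂ)) * exp (((1 : ℝ) + v * I - t * I) * x +
      ((1 : ℝ) + v * I - t * I) ^ 2 / 2) =
      (Real.sqrt (2 * Real.pi) : ℂ) * ((bd q n : ℂ) * npow n t * (ga x n : ℂ)) := by
  rcases Nat.eq_zero_or_pos n with rfl | hn
  · rw [Pool.Agent.H5.bd_zero]
    simp
  · have hn0 : (0 : ℝ) < n := by exact_mod_cast hn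
    have hnC : (n : ℂ) ≠ 0 := by exact_mod_cast hn.ne'
    constructor
    · intro v
      rw [norm_mul, norm_mul, norm_mul, Complex.norm_natCast_cpow_of_pos hn,
        Complex.norm_natCast_cpow_of_pos hn, Complex.norm_exp, ← Real.exp_add]
      congr 2
      · simp
      · have e : ((1 : ℝ) + v * I - t * I) * x + ((1 : ℝ) + v * I - t * I) ^ 2 / 2 =
            ((x + 1 / 2 - (v - t) ^ 2 / 2 : ℝ) : ℂ) + (((v - t) * x + (v - t) : ℝ) : ℂ) * I := by
          push_cast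
          linear_combination ((v - t : ℂ) ^ 2 / 2) * Complex.I_sq
        rw [e]
        simp only [Complex.add_re, Complex.ofReal_re, Complex.mul_re, Complex.I_re, mul_zero,
          Complex.ofReal_im, Complex.I_im, mul_one, sub_self, add_zero]
        ring
    · have e1 : ∀ v : ℝ, (bd q n : ℂ) * (n : ℂ) ^ (-(2 + v * I : ℂ)) *
          exp (((1 : ℝ) + v * I - t * I) * x + ((1 : ℝ) + v * I - t * I) ^ 2 / 2) =
          (bd q n : ℂ) * exp (-((2 + v * I) * (Real.log n : ℝ)) + (((1 : ℝ) + v * I - t * I) * x +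
            ((1 : ℝ) + v * I - t * I) ^ 2 / 2)) := by
        intro v
        rw [Complex.cpow_def_of_ne_zero hnC, mul_assoc, ← Complex.exp_add,
          Complex.natCast_log]
        congr 3
        ring
      simp_rw [e1]
      rw [integral_const_mul, bint_gauss]
      unfold npow ga
      rw [Complex.cpow_def_of_ne_zero hnC, Complex.exp_add, Complex.ofReal_exp,
        Complex.natCast_log]
      have e2 : Complex.log n * -(1 + (t : ℂ) * I) = -((1 + (t : ℂ) * I) * Complex.log n) := by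
        ring
      rw [e2]
      ring

lemma bint_main {q : ℕ} (hq : Squarefree q) (x t : ℝ) :
    ∫ v : ℝ, bintH q x t ((1 : ℝ) + v * I) = (Real.sqrt (2 * Real.pi) : ℂ) * BB q x t := by
  set F : ℕ → ℝ → ℂ := fun n v => (bd q n : ℂ) * (n : ℂ) ^ (-(2 + v * I : ℂ)) *
    exp (((1 : ℝ) + v * I - t * I) * x + ((1 : ℝ) + v * I - t * I) ^ 2 / 2) with hF
  have hgi : Integrable (fun v : ℝ => Real.exp (x + 1 / 2) * Real.exp (-(1 / 2) * (v - t) ^ 2)) := by
    apply Integrable.const_mul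
    exact (integrable_exp_neg_mul_sq (b := 1 / 2) (by norm_num)).comp_sub_right t
  have hFc : ∀ n, Continuous (F n) := by
    intro n
    rcases Nat.eq_zero_or_pos n with rfl | hn
    · have : F 0 = fun _ => 0 := by
        funext v
        simp only [hF]
        rw [Pool.Agent.H5.bd_zero]; simp
      rw [this]
      exact continuous_const
    · have hnC : (n : ℂ) ≠ 0 := by exact_mod_cast hn.ne'
      simp only [hF]
      apply Continuous.mul
      · apply Continuous.mul continuous_const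
        apply Continuous.const_cpow (by fun_prop)
        exact Or.inl hnC
      · fun_prop
  have hFint : ∀ n, Integrable (F n) := by
    intro n
    refine Integrable.mono' (hgi.const_mul ‖(bd q n : ℂ) * (n : ℂ) ^ (-(2 : ℂ))‖)
      (hFc n).aestronglyMeasurable ?_
    filter_upwards with v
    exact ((bint_term x t n).1 v).le
  have hsumn : Summable (fun n : ℕ => ‖(bd q n : ℂ) * (n : ℂ) ^ (-(2 : ℂ))‖) :=
    Pool.Agent.H5.summable_bd q (by norm_num)
  have hFsum : Summable (fun n => ∫ v : ℝ, ‖F n v‖) := by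
    have : ∀ n, ∫ v : ℝ, ‖F n v‖ = ‖(bd q n : ℂ) * (n : ℂ) ^ (-(2 : ℂ))‖ *
        ∫ v : ℝ, Real.exp (x + 1 / 2) * Real.exp (-(1 / 2) * (v - t) ^ 2) := by
      intro n
      rw [← integral_const_mul]
      apply integral_congr_ae
      filter_upwards with v
      exact (bint_term x t n).1 v
    simp_rw [this]
    exact hsumn.mul_right _
  have hmain := hasSum_integral_of_summable_integral_norm hFint hFsum
  have hsumF : ∀ v : ℝ, ∑' n, F n v = bintH q x t ((1 : ℝ) + v * I) := by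
    intro v
    unfold bintH
    have hre : 3 / 2 < ((1 : ℂ) + ((1 : ℝ) + v * I)).re := by
      simp; norm_num
    rw [(Pool.Agent.ZD.Lf_spec hq).2 _ hre]
    unfold Lser
    rw [← tsum_mul_right]
    congr 1
    funext n
    simp only [hF]
    congr 4
    push_cast
    ring
  rw [← integral_congr_ae (Filter.Eventually.of_forall hsumF), ← hmain.tsum_eq]
  have hval : ∀ n, ∫ v : ℝ, F n v =
      (Real.sqrt (2 * Real.pi) : ℂ) * ((bd q n : ℂ) * npow n t * (ga x n : ℂ)) :=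
    fun n => (bint_term x t n).2
  simp_rw [hval]
  rw [tsum_mul_left]
  rfl

theorem BB_int {q : ℕ} (hq : Squarefree q) {η : ℝ} (h0 : 0 ≤ η) (h1 : η ≤ 2) (x t : ℝ) :
    Integrable (gI (LfL η q) (x + η) t) ∧
    BB q x t = ((Real.exp (η * x + η ^ 2 / 2) / Real.sqrt (2 * Real.pi) : ℝ) : ℂ) *
      Gt (LfL η q) (x + η) t := by
  have hE : ((Real.exp (η * x + η ^ 2 / 2) : ℝ) : ℂ) ≠ 0 := by
    exact_mod_cast (Real.exp_pos _).ne'
  have hS : ((Real.sqrt (2 * Real.pi) : ℝ) : ℂ) ≠ 0 := by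
    have : 0 < Real.sqrt (2 * Real.pi) := Real.sqrt_pos.mpr (by positivity)
    exact_mod_cast this.ne'
  constructor
  · have h2 := bint_integrable hq x t h0 h1
    have e : (fun v : ℝ => bintH q x t (η + v * I)) = fun v : ℝ =>
        ((Real.exp (η * x + η ^ 2 / 2) : ℝ) : ℂ) * gI (LfL η q) (x + η) t v := by
      funext v; exact bint_eq q η x t v
    rw [e] at h2
    have h3 := h2.const_mul (((Real.exp (η * x + η ^ 2 / 2) : ℝ) : ℂ)⁻¹)
    refine h3.congr ?_
    filter_upwards with v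
    rw [← mul_assoc, inv_mul_cancel₀ hE, one_mul]
  · have h2 := bint_main hq x t
    rw [bint_shift hq x t h0 h1] at h2
    have e : ∫ v : ℝ, bintH q x t (η + v * I) =
        ((Real.exp (η * x + η ^ 2 / 2) : ℝ) : ℂ) * Gt (LfL η q) (x + η) t := by
      unfold Gt
      rw [← integral_const_mul]
      apply integral_congr_ae
      filter_upwards with v
      exact bint_eq q η x t v
    rw [e] at h2
    rw [Complex.ofReal_div, div_mul_eq_mul_div, h2, mul_div_cancel_left₀ _ hS]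

lemma bint_Gt_le {F : ℝ → ℂ} {K κ : ℝ} (hK : 0 < K) (hκ : 0 < κ)
    (hF : ∀ v, ‖F v‖ ≤ K * Real.exp (κ * |v|)) (x t : ℝ) :
    ‖Gt F x t‖ ≤ (K * ∫ v : ℝ, Real.exp (κ * |v| - v ^ 2 / 2)) * Real.exp (κ * |t|) := by
  have hint : Integrable (fun v : ℝ => Real.exp (κ * |v| - v ^ 2 / 2)) := by
    have h1 : Integrable (fun v : ℝ => Real.exp (κ ^ 2) * Real.exp (-(1 / 4) * v ^ 2)) :=
      (integrable_exp_neg_mul_sq (b := 1 / 4) (by norm_num)).const_mul _
    refine Integrable.mono' h1 (by fun_prop) ?_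
    filter_upwards with v
    rw [Real.norm_eq_abs, abs_of_pos (Real.exp_pos _), ← Real.exp_add]
    apply Real.exp_le_exp.mpr
    nlinarith [sq_nonneg (|v| / 2 - κ), sq_abs v]
  have h2 : ∀ v : ℝ, ‖gI F x t v‖ ≤
      (K * Real.exp (κ * |t|)) * Real.exp (κ * |v - t| - (v - t) ^ 2 / 2) := by
    intro v
    unfold gI
    rw [norm_mul, norm_mul, Complex.norm_exp, Complex.norm_real, Real.norm_eq_abs,
      abs_of_pos (Real.exp_pos _)]
    have e : (I * (v - t) * x : ℂ).re = 0 := by simp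
    rw [e, Real.exp_zero, mul_one]
    calc ‖F v‖ * Real.exp (-((v - t) ^ 2 / 2))
        ≤ (K * Real.exp (κ * |v|)) * Real.exp (-((v - t) ^ 2 / 2)) := by
          gcongr
          exact hF v
      _ ≤ (K * Real.exp (κ * |t| + κ * |v - t|)) * Real.exp (-((v - t) ^ 2 / 2)) := by
          gcongr
          have := abs_add_le t (v - t)
          rw [add_sub_cancel] at this
          nlinarith
      _ = _ := by
          rw [sub_eq_add_neg (κ * |v - t|), Real.exp_add, Real.exp_add]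
          ring
  unfold Gt
  have h3 : ‖∫ v : ℝ, gI F x t v‖ ≤
      ∫ v : ℝ, (K * Real.exp (κ * |t|)) * Real.exp (κ * |v - t| - (v - t) ^ 2 / 2) := by
    apply norm_integral_le_of_norm_le ((hint.comp_sub_right t).const_mul _)
    filter_upwards with v
    exact h2 v
  refine h3.trans (le_of_eq ?_)
  rw [integral_const_mul, integral_sub_right_eq_self (fun v : ℝ => Real.exp (κ * |v| - v ^ 2 / 2)) t]
  ring

theorem BB_growth {q : ℕ} (hq : Squarefree q) {κ : ℝ} (hκ : 0 < κ) :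
    ∃ K : ℝ, 0 < K ∧ ∀ x t : ℝ, ‖BB q x t‖ ≤ K * Real.exp (κ * |t|) := by
  obtain ⟨K, hK0, hK⟩ := LfL_growth hq hκ
  have hS : 0 < Real.sqrt (2 * Real.pi) := Real.sqrt_pos.mpr (by positivity)
  set J : ℝ := ∫ v : ℝ, Real.exp (κ * |v| - v ^ 2 / 2) with hJ
  have hJ0 : 0 ≤ J := integral_nonneg fun v => (Real.exp_pos _).le
  refine ⟨1 / Real.sqrt (2 * Real.pi) * (K * (J + 1)), by positivity, ?_⟩
  intro x t
  have h1 := (BB_int hq le_rfl (by norm_num : (0 : ℝ) ≤ 2) x t).2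
  have h2 := bint_Gt_le hK0 hκ (F := LfL 0 q) (fun v => hK 0 v le_rfl (by norm_num)) x t
  rw [← hJ] at h2
  rw [h1, norm_mul, Complex.norm_real, Real.norm_eq_abs, add_zero]
  have e : Real.exp (0 * x + 0 ^ 2 / 2) = 1 := by simp
  rw [e, abs_of_pos (by positivity)]
  calc 1 / Real.sqrt (2 * Real.pi) * ‖Gt (LfL 0 q) x t‖
      ≤ 1 / Real.sqrt (2 * Real.pi) * ((K * J) * Real.exp (κ * |t|)) := by gcongr
    _ ≤ 1 / Real.sqrt (2 * Real.pi) * ((K * (J + 1)) * Real.exp (κ * |t|)) := by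
        gcongr
        linarith
    _ = _ := by ring

lemma bint_sqf_squarefree {X : ℝ} {q : ℕ} (hq : q ∈ sqf X) : Squarefree q :=
  (Finset.mem_filter.mp hq).2

lemma bint_card_sqf {X : ℝ} (hX : 0 ≤ X) : ((sqf X).card : ℝ) ≤ X := by
  unfold sqf
  have h1 : ((Icc 1 ⌊X⌋₊).filter Squarefree).card ≤ ⌊X⌋₊ := by
    refine (Finset.card_filter_le _ _).trans ?_
    rw [Nat.card_Icc]
    omega
  have h2 : (((Icc 1 ⌊X⌋₊).filter Squarefree).card : ℝ) ≤ (⌊X⌋₊ : ℝ) := by exact_mod_cast h1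
  exact h2.trans (Nat.floor_le hX)

lemma bint_Gt_eq {q : ℕ} (hq : Squarefree q) {η : ℝ} (h0 : 0 ≤ η) (h1 : η ≤ 2) (y t : ℝ) :
    ‖Gt (LfL η q) y t‖ = Real.sqrt (2 * Real.pi) * Real.exp (-(η * y) + η ^ 2 / 2) *
      ‖BB q (y - η) t‖ := by
  have hS : 0 < Real.sqrt (2 * Real.pi) := Real.sqrt_pos.mpr (by positivity)
  have h2 := (BB_int hq h0 h1 (y - η) t).2
  rw [sub_add_cancel] at h2
  rw [h2, norm_mul, Complex.norm_real, Real.norm_eq_abs, abs_of_pos (by positivity)]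
  have e : Real.exp (-(η * y) + η ^ 2 / 2) * Real.exp (η * (y - η) + η ^ 2 / 2) = 1 := by
    rw [← Real.exp_add, Real.exp_eq_one_iff]
    ring
  have hS' := hS.ne'
  calc ‖Gt (LfL η q) y t‖ = (Real.exp (-(η * y) + η ^ 2 / 2) *
        Real.exp (η * (y - η) + η ^ 2 / 2)) * ‖Gt (LfL η q) y t‖ := by rw [e, one_mul]
    _ = _ := by
        field_simp

/-- moment bound for the Gabor transforms on the line `1 + η` -/
theorem Gt_sum {a : ℝ} (ha : 0 ≤ a) (h : HypE a) (κ : ℝ) (hκ : 0 < κ) : ∃ C : ℝ, 0 < C ∧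
    ∀ (X η y t : ℝ), 3 ≤ X → 0 ≤ η → η ≤ 1 / 2 →
    ∑ q ∈ sqf X, ‖Gt (LfL η q) y t‖ ^ 2 ≤ C * X * (Real.log X) ^ a * Real.exp (κ * |t|) := by
  obtain ⟨C₁, hC₁, h1⟩ := h κ hκ
  obtain ⟨C₂, hC₂, h2⟩ := BB_crude 0
  have hpi := Real.pi_pos
  refine ⟨2 * Real.pi * (Real.exp 1 ^ 2 * C₁) + 2 * Real.pi * (Real.exp 1 * C₂) ^ 2,
    by positivity, ?_⟩
  intro X η y t hX h0 hη
  have hX0 : 0 < X := by linarith
  have hlog : 1 ≤ Real.log X := by
    rw [Real.le_log_iff_exp_le hX0]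
    have := Real.exp_one_lt_d9
    linarith
  have hla : 1 ≤ (Real.log X) ^ a := Real.one_le_rpow hlog ha
  have hek : 1 ≤ Real.exp (κ * |t|) := Real.one_le_exp (by positivity)
  have hS2 : Real.sqrt (2 * Real.pi) ^ 2 = 2 * Real.pi := Real.sq_sqrt (by positivity)
  have heq : ∀ q ∈ sqf X, ‖Gt (LfL η q) y t‖ ^ 2 =
      2 * Real.pi * (Real.exp (-(η * y) + η ^ 2 / 2) * ‖BB q (y - η) t‖) ^ 2 := by
    intro q hq
    rw [bint_Gt_eq (bint_sqf_squarefree hq) h0 (by linarith) y t, mul_assoc, mul_pow, hS2]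
  rw [Finset.sum_congr rfl heq]
  rcases le_or_gt 0 y with hy | hy
  · have hE : Real.exp (-(η * y) + η ^ 2 / 2) ≤ Real.exp 1 := by
      apply Real.exp_le_exp.mpr
      nlinarith [mul_nonneg h0 hy]
    calc ∑ q ∈ sqf X, 2 * Real.pi * (Real.exp (-(η * y) + η ^ 2 / 2) * ‖BB q (y - η) t‖) ^ 2
        ≤ ∑ q ∈ sqf X, 2 * Real.pi * (Real.exp 1 * ‖BB q (y - η) t‖) ^ 2 := by
          apply Finset.sum_le_sum
          intro q _
          gcongr
      _ = 2 * Real.pi * Real.exp 1 ^ 2 * ∑ q ∈ sqf X, ‖BB q (y - η) t‖ ^ 2 := by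
          rw [Finset.mul_sum]
          refine Finset.sum_congr rfl fun q _ => ?_
          ring
      _ ≤ 2 * Real.pi * Real.exp 1 ^ 2 * (C₁ * X * (Real.log X) ^ a * Real.exp (κ * |t|)) := by
          gcongr
          exact h1 X (y - η) t hX
      _ = (2 * Real.pi * (Real.exp 1 ^ 2 * C₁)) * X * (Real.log X) ^ a * Real.exp (κ * |t|) := by
          ring
      _ ≤ _ := by
          gcongr
          have : 0 ≤ 2 * Real.pi * (Real.exp 1 * C₂) ^ 2 := by positivity
          linarith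
  · have hB : ∀ q ∈ sqf X, Real.exp (-(η * y) + η ^ 2 / 2) * ‖BB q (y - η) t‖ ≤
        Real.exp 1 * C₂ := by
      intro q _
      have h3 := h2 q (y - η) t
      calc Real.exp (-(η * y) + η ^ 2 / 2) * ‖BB q (y - η) t‖
          ≤ Real.exp (-(η * y) + η ^ 2 / 2) * (C₂ * Real.exp (((0 : ℕ) + 1) * (y - η))) := by
            gcongr
        _ = Real.exp (-(η * y) + η ^ 2 / 2 + ((0 : ℕ) + 1) * (y - η)) * C₂ := by
            rw [Real.exp_add (-(η * y) + η ^ 2 / 2)]; ring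
        _ ≤ Real.exp 1 * C₂ := by
            gcongr
            push_cast
            nlinarith
    calc ∑ q ∈ sqf X, 2 * Real.pi * (Real.exp (-(η * y) + η ^ 2 / 2) * ‖BB q (y - η) t‖) ^ 2
        ≤ ∑ _q ∈ sqf X, 2 * Real.pi * (Real.exp 1 * C₂) ^ 2 := by
          apply Finset.sum_le_sum
          intro q hq
          have := hB q hq
          gcongr
      _ = ((sqf X).card : ℝ) * (2 * Real.pi * (Real.exp 1 * C₂) ^ 2) := by
          rw [Finset.sum_const, nsmul_eq_mul]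
      _ ≤ X * (2 * Real.pi * (Real.exp 1 * C₂) ^ 2) := by
          gcongr
          exact bint_card_sqf hX0.le
      _ = (2 * Real.pi * (Real.exp 1 * C₂) ^ 2) * X * 1 * 1 := by ring
      _ ≤ (2 * Real.pi * (Real.exp 1 ^ 2 * C₁) + 2 * Real.pi * (Real.exp 1 * C₂) ^ 2) * X *
            (Real.log X) ^ a * Real.exp (κ * |t|) := by
          gcongr
          have : 0 ≤ 2 * Real.pi * (Real.exp 1 ^ 2 * C₁) := by positivity
          linarith

end Pool.Agent.CZ
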