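import Mathlib
import Pool.Agent.CZ.IDefs

/-!
# Critical zeros (MP_553913_nt), part (I): Fourier kernels of multipliers
-/

set_option autoImplicit false

open Complex Finset MeasureTheory

namespace Pool.Agent.CZ

open scoped FourierTransform

/-- Fourier inversion in the normalisation `∫ k(y) e^{iyv} dy` -/
theorem ker_inv (g : ℝ → ℂ) (hg : Continuous g) (i0 : Integrable g)
    (hF : Integrable (fun y : ℝ => ((2 * Real.pi : ℝ) : ℂ)⁻¹ * 𝓕 g ((2 * Real.pi)⁻¹ * y))) (v : ℝ) :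
    g v = ∫ y : ℝ, (((2 * Real.pi : ℝ) : ℂ)⁻¹ * 𝓕 g ((2 * Real.pi)⁻¹ * y)) * exp (I * y * v) := by
  have hpi : (0 : ℝ) < 2 * Real.pi := by positivity
  set k : ℝ → ℂ := fun y => ((2 * Real.pi : ℝ) : ℂ)⁻¹ * 𝓕 g ((2 * Real.pi)⁻¹ * y) with hk
  have hFk : ∀ w : ℝ, 𝓕 g w = ((2 * Real.pi : ℝ) : ℂ) * k ((2 * Real.pi) * w) := by
    intro w
    simp only [hk]
    rw [← mul_assoc, mul_inv_cancel₀ (by exact_mod_cast hpi.ne'), one_mul, ← mul_assoc,
      inv_mul_cancel₀ hpi.ne', one_mul]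
  have hFi : Integrable (𝓕 g) := by
    have := (hF.comp_mul_left' hpi.ne').const_mul ((2 * Real.pi : ℝ) : ℂ)
    exact this.congr (Filter.Eventually.of_forall fun w => (hFk w).symm)
  have hinv := congrFun (hg.fourierInv_fourier_eq i0 hFi) v
  rw [← hinv, Real.fourierInv_eq']
  have h3 := MeasureTheory.Measure.integral_comp_mul_left
    (fun y : ℝ => k y * exp (I * y * v)) (2 * Real.pi)
  have h4 : ∫ y : ℝ, k y * exp (I * y * v) = (2 * Real.pi) •
      ∫ w : ℝ, k ((2 * Real.pi) * w) * exp (I * ((2 * Real.pi * w : ℝ) : ℂ) * v) := by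
    rw [h3, abs_of_pos (by positivity), smul_smul, mul_inv_cancel₀ hpi.ne', one_smul]
  rw [h4, ← integral_smul]
  refine integral_congr_ae (Filter.Eventually.of_forall fun w => ?_)
  simp only
  rw [hFk w, Complex.real_smul, smul_eq_mul]
  have h5 : (((2 * Real.pi * inner ℝ w v : ℝ) : ℂ) * I) = I * ((2 * Real.pi * w : ℝ) : ℂ) * v := by
    simp only [RCLike.inner_apply', conj_trivial]
    push_cast
    ring
  rw [h5]
  ring

/-- a `C²` function with integrable derivatives is the Fourier transform of a kernel with quadratic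
decay -/
theorem ker_core (g : ℝ → ℂ) (hg : ContDiff ℝ 2 g) (i0 : Integrable g) (i1 : Integrable (deriv g))
    (i2 : Integrable (iteratedDeriv 2 g)) : ∃ k : ℝ → ℂ, Continuous k ∧
      (∀ y, ‖k y‖ ≤ ((∫ v, ‖g v‖) + ∫ v, ‖iteratedDeriv 2 g v‖) / (1 + y ^ 2)) ∧
      ∀ v : ℝ, g v = ∫ y : ℝ, k y * exp (I * y * v) := by
  have hpi : (0 : ℝ) < 2 * Real.pi := by positivity
  have hpi1 : (1 : ℝ) ≤ 2 * Real.pi := by
    have := Real.pi_gt_three
    linarith
  have hc0 : Continuous (𝓕 g) := by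
    exact VectorFourier.fourierIntegral_continuous Real.continuous_fourierChar
      (by exact continuous_inner) i0
  have hb0 : ∀ w : ℝ, ‖𝓕 g w‖ ≤ ∫ v, ‖g v‖ := fun w =>
    VectorFourier.norm_fourierIntegral_le_integral_norm _ _ _ g w
  have hb2 : ∀ w : ℝ, ‖𝓕 (iteratedDeriv 2 g) w‖ ≤ ∫ v, ‖iteratedDeriv 2 g v‖ := fun w =>
    VectorFourier.norm_fourierIntegral_le_integral_norm _ _ _ _ w
  have h2 : 𝓕 (iteratedDeriv 2 g) = fun x : ℝ => (2 * Real.pi * I * x) ^ 2 • (𝓕 g x) := by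
    have := Real.fourier_iteratedDeriv (N := (2 : ℕ∞)) (n := 2) (f := g) (by exact_mod_cast hg) ?_
      le_rfl
    · exact this
    · intro n hn
      have hn' : n ≤ 2 := by exact_mod_cast hn
      interval_cases n
      · rw [iteratedDeriv_zero]; exact i0
      · rw [iteratedDeriv_one]; exact i1
      · exact i2
  let k : ℝ → ℂ := fun y => ((2 * Real.pi : ℝ) : ℂ)⁻¹ * 𝓕 g ((2 * Real.pi)⁻¹ * y)
  have hkc : Continuous k := by
    refine continuous_const.mul (hc0.comp ?_)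
    fun_prop
  have hkb : ∀ y, ‖k y‖ ≤ ((∫ v, ‖g v‖) + ∫ v, ‖iteratedDeriv 2 g v‖) / (1 + y ^ 2) := by
    intro y
    rw [le_div_iff₀ (by positivity)]
    have e1 : ‖k y‖ = (2 * Real.pi)⁻¹ * ‖𝓕 g ((2 * Real.pi)⁻¹ * y)‖ := by
      simp only [k]
      rw [norm_mul, norm_inv, Complex.norm_real, Real.norm_of_nonneg hpi.le]
    have e2 : y ^ 2 * ‖𝓕 g ((2 * Real.pi)⁻¹ * y)‖ =
        ‖𝓕 (iteratedDeriv 2 g) ((2 * Real.pi)⁻¹ * y)‖ := by
      rw [h2]
      simp only
      rw [norm_smul, norm_pow]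
      congr 1
      have : ‖(2 * Real.pi * I * (((2 * Real.pi)⁻¹ * y : ℝ) : ℂ) : ℂ)‖ = |y| := by
        have e3 : (2 * Real.pi * I * (((2 * Real.pi)⁻¹ * y : ℝ) : ℂ) : ℂ) = (y : ℂ) * I := by
          push_cast
          have : (2 * (Real.pi : ℂ)) ≠ 0 := by
            have := Real.pi_ne_zero
            simp [this]
          field_simp
        rw [e3, norm_mul, Complex.norm_I, mul_one, Complex.norm_real, Real.norm_eq_abs]
      rw [this, sq_abs]
    have e4 := hb0 ((2 * Real.pi)⁻¹ * y)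
    have e5 := hb2 ((2 * Real.pi)⁻¹ * y)
    rw [← e2] at e5
    rw [e1]
    have e6 : (2 * Real.pi)⁻¹ ≤ 1 := inv_le_one_of_one_le₀ hpi1
    have e7 : 0 ≤ (2 * Real.pi)⁻¹ := by positivity
    have e8 : 0 ≤ ‖𝓕 g ((2 * Real.pi)⁻¹ * y)‖ := norm_nonneg _
    calc (2 * Real.pi)⁻¹ * ‖𝓕 g ((2 * Real.pi)⁻¹ * y)‖ * (1 + y ^ 2)
        = (2 * Real.pi)⁻¹ * (‖𝓕 g ((2 * Real.pi)⁻¹ * y)‖ +
            y ^ 2 * ‖𝓕 g ((2 * Real.pi)⁻¹ * y)‖) := by ring
      _ ≤ 1 * (‖𝓕 g ((2 * Real.pi)⁻¹ * y)‖ + y ^ 2 * ‖𝓕 g ((2 * Real.pi)⁻¹ * y)‖) := by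
          apply mul_le_mul_of_nonneg_right e6
          positivity
      _ ≤ _ := by rw [one_mul]; exact add_le_add e4 e5
  have hki : Integrable k := by
    refine Integrable.mono' (g := fun y : ℝ =>
      ((∫ v, ‖g v‖) + ∫ v, ‖iteratedDeriv 2 g v‖) * (1 + y ^ 2)⁻¹) ?_
      hkc.aestronglyMeasurable ?_
    · exact integrable_inv_one_add_sq.const_mul _
    · exact Filter.Eventually.of_forall fun y => by
        rw [← div_eq_mul_inv]
        exact hkb y
  exact ⟨k, hkc, hkb, fun v => ker_inv g hg.continuous i0 hki v⟩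

/-- `m(v) φ(v-t) = ∫ k(y) e^{iyv} dy` with `|k(y)| ≤ C (1+|t|)^A / (1+y²)` -/
theorem ker_C2 (C : ℝ) (A : ℕ) (φ : ℝ → ℝ) (hφ : ContDiff ℝ 2 φ)
    (hi : Integrable (fun v : ℝ => (1 + |v|) ^ A * (|φ v| + |deriv φ v| + |iteratedDeriv 2 φ v|))) :
    ∃ C' : ℝ, 0 < C' ∧ ∀ m : ℝ → ℂ, PolyC2 C A m → ∀ t : ℝ, ∃ k : ℝ → ℂ, Continuous k ∧
      (∀ y, ‖k y‖ ≤ C' * (1 + |t|) ^ A / (1 + y ^ 2)) ∧
      ∀ v : ℝ, m v * (φ (v - t) : ℂ) = ∫ y : ℝ, k y * exp (I * y * v) := by
  set h : ℝ → ℝ := fun v => (1 + |v|) ^ A * (|φ v| + |deriv φ v| + |iteratedDeriv 2 φ v|) with hh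
  have hh0 : ∀ v, 0 ≤ h v := fun v => by simp only [hh]; positivity
  set H := ∫ v, h v with hH
  have hH0 : 0 ≤ H := integral_nonneg hh0
  refine ⟨3 * |C| * H + 1, by positivity, ?_⟩
  intro m hm t
  obtain ⟨hm1, hm2⟩ := hm
  have h1ne : (1 : WithTop ℕ∞) ≤ 2 := by norm_num
  -- derivatives of m
  have dm1 : ∀ v, HasDerivAt m (deriv m v) v := fun v =>
    ((hm1.differentiable (by norm_num)) v).hasDerivAt
  have dm2 : ∀ v, HasDerivAt (deriv m) (iteratedDeriv 2 m v) v := fun v => by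
    have e : iteratedDeriv 2 m = deriv (deriv m) := by
      rw [iteratedDeriv_succ, iteratedDeriv_one]
    rw [e]
    have : Differentiable ℝ (deriv m) := by
      have := (contDiff_succ_iff_deriv (n := 1) (f := m)).1 (by exact_mod_cast hm1)
      exact this.2.2.differentiable (by norm_num)
    exact (this v).hasDerivAt
  have dp1 : ∀ v, HasDerivAt φ (deriv φ v) v := fun v =>
    ((hφ.differentiable (by norm_num)) v).hasDerivAt
  have dp2 : ∀ v, HasDerivAt (deriv φ) (iteratedDeriv 2 φ v) v := fun v => by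
    have e : iteratedDeriv 2 φ = deriv (deriv φ) := by
      rw [iteratedDeriv_succ, iteratedDeriv_one]
    rw [e]
    have : Differentiable ℝ (deriv φ) := by
      have := (contDiff_succ_iff_deriv (n := 1) (f := φ)).1 (by exact_mod_cast hφ)
      exact this.2.2.differentiable (by norm_num)
    exact (this v).hasDerivAt
  have dq1 : ∀ v, HasDerivAt (fun v : ℝ => (φ (v - t) : ℂ)) ((deriv φ (v - t) : ℝ) : ℂ) v := fun v => by
    have := (dp1 (v - t)).comp_sub_const v t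
    exact this.ofReal_comp
  have dq2 : ∀ v, HasDerivAt (fun v : ℝ => ((deriv φ (v - t) : ℝ) : ℂ)) ((iteratedDeriv 2 φ (v - t) : ℝ) : ℂ) v :=
    fun v => by
    have := (dp2 (v - t)).comp_sub_const v t
    exact this.ofReal_comp
  set g : ℝ → ℂ := fun v => m v * (φ (v - t) : ℂ) with hg
  have dg1 : ∀ v, HasDerivAt g (deriv m v * (φ (v - t) : ℂ) + m v * ((deriv φ (v - t) : ℝ) : ℂ)) v :=
    fun v => (dm1 v).mul (dq1 v)
  have eg1 : deriv g = fun v => deriv m v * (φ (v - t) : ℂ) + m v * ((deriv φ (v - t) : ℝ) : ℂ) := by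
    ext v; exact (dg1 v).deriv
  have dg2 : ∀ v, HasDerivAt (deriv g) ((iteratedDeriv 2 m v * (φ (v - t) : ℂ) +
      deriv m v * ((deriv φ (v - t) : ℝ) : ℂ)) + (deriv m v * ((deriv φ (v - t) : ℝ) : ℂ) +
        m v * ((iteratedDeriv 2 φ (v - t) : ℝ) : ℂ))) v := by
    intro v
    rw [eg1]
    exact ((dm2 v).mul (dq1 v)).add ((dm1 v).mul (dq2 v))
  have eg2 : iteratedDeriv 2 g = fun v => (iteratedDeriv 2 m v * (φ (v - t) : ℂ) +
      deriv m v * ((deriv φ (v - t) : ℝ) : ℂ)) + (deriv m v * ((deriv φ (v - t) : ℝ) : ℂ) +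
        m v * ((iteratedDeriv 2 φ (v - t) : ℝ) : ℂ)) := by
    rw [iteratedDeriv_succ, iteratedDeriv_one]
    ext v; exact (dg2 v).deriv
  have hgC : ContDiff ℝ 2 g := by
    refine hm1.mul ?_
    have : ContDiff ℝ 2 (fun v : ℝ => φ (v - t)) := hφ.comp (contDiff_id.sub contDiff_const)
    exact Complex.ofRealCLM.contDiff.comp this
  -- weights
  have hw : ∀ v : ℝ, (1 + |v|) ^ A ≤ (1 + |t|) ^ A * (1 + |v - t|) ^ A := by
    intro v
    rw [← mul_pow]
    apply pow_le_pow_left₀ (by positivity)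
    have : |v| ≤ |v - t| + |t| := by
      have := abs_add_le (v - t) t
      rwa [sub_add_cancel] at this
    nlinarith [abs_nonneg (v - t), abs_nonneg t]
  have hm0 : ∀ v, ‖m v‖ ≤ |C| * ((1 + |t|) ^ A * (1 + |v - t|) ^ A) := fun v =>
    ((hm2 v).1.trans (mul_le_mul_of_nonneg_right (le_abs_self C) (by positivity))).trans
      (mul_le_mul_of_nonneg_left (hw v) (abs_nonneg C))
  have hm1' : ∀ v, ‖deriv m v‖ ≤ |C| * ((1 + |t|) ^ A * (1 + |v - t|) ^ A) := fun v =>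
    ((hm2 v).2.1.trans (mul_le_mul_of_nonneg_right (le_abs_self C) (by positivity))).trans
      (mul_le_mul_of_nonneg_left (hw v) (abs_nonneg C))
  have hm2' : ∀ v, ‖iteratedDeriv 2 m v‖ ≤ |C| * ((1 + |t|) ^ A * (1 + |v - t|) ^ A) := fun v =>
    ((hm2 v).2.2.trans (mul_le_mul_of_nonneg_right (le_abs_self C) (by positivity))).trans
      (mul_le_mul_of_nonneg_left (hw v) (abs_nonneg C))
  have hn : ∀ x : ℝ, ‖(x : ℂ)‖ = |x| := fun x => by rw [Complex.norm_real, Real.norm_eq_abs]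
  have b0 : ∀ v, ‖g v‖ ≤ (|C| * (1 + |t|) ^ A) * h (v - t) := by
    intro v
    simp only [hg]
    rw [norm_mul, hn]
    calc ‖m v‖ * |φ (v - t)| ≤ |C| * ((1 + |t|) ^ A * (1 + |v - t|) ^ A) * |φ (v - t)| :=
          mul_le_mul_of_nonneg_right (hm0 v) (abs_nonneg _)
      _ = (|C| * (1 + |t|) ^ A) * ((1 + |v - t|) ^ A * |φ (v - t)|) := by ring
      _ ≤ _ := by
          apply mul_le_mul_of_nonneg_left _ (by positivity)
          simp only [hh]
          apply mul_le_mul_of_nonneg_left _ (by positivity)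
          linarith [abs_nonneg (deriv φ (v - t)), abs_nonneg (iteratedDeriv 2 φ (v - t))]
  have b1 : ∀ v, ‖deriv g v‖ ≤ (|C| * (1 + |t|) ^ A) * h (v - t) := by
    intro v
    rw [eg1]
    simp only
    refine (norm_add_le _ _).trans ?_
    rw [norm_mul, norm_mul, hn, hn]
    calc ‖deriv m v‖ * |φ (v - t)| + ‖m v‖ * |deriv φ (v - t)|
        ≤ |C| * ((1 + |t|) ^ A * (1 + |v - t|) ^ A) * |φ (v - t)| +
          |C| * ((1 + |t|) ^ A * (1 + |v - t|) ^ A) * |deriv φ (v - t)| :=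
          add_le_add (mul_le_mul_of_nonneg_right (hm1' v) (abs_nonneg _))
            (mul_le_mul_of_nonneg_right (hm0 v) (abs_nonneg _))
      _ = (|C| * (1 + |t|) ^ A) * ((1 + |v - t|) ^ A * (|φ (v - t)| + |deriv φ (v - t)|)) := by
          ring
      _ ≤ _ := by
          apply mul_le_mul_of_nonneg_left _ (by positivity)
          simp only [hh]
          apply mul_le_mul_of_nonneg_left _ (by positivity)
          linarith [abs_nonneg (iteratedDeriv 2 φ (v - t))]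
  have b2 : ∀ v, ‖iteratedDeriv 2 g v‖ ≤ 2 * (|C| * (1 + |t|) ^ A) * h (v - t) := by
    intro v
    rw [eg2]
    simp only
    refine (norm_add_le _ _).trans ?_
    refine (add_le_add (norm_add_le _ _) (norm_add_le _ _)).trans ?_
    rw [norm_mul, norm_mul, norm_mul, hn, hn, hn]
    have f0 := mul_le_mul_of_nonneg_right (hm2' v) (abs_nonneg (φ (v - t)))
    have f1 := mul_le_mul_of_nonneg_right (hm1' v) (abs_nonneg (deriv φ (v - t)))
    have f2 := mul_le_mul_of_nonneg_right (hm0 v) (abs_nonneg (iteratedDeriv 2 φ (v - t)))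
    have f3 : 0 ≤ |C| * ((1 + |t|) ^ A * (1 + |v - t|) ^ A) := by positivity
    have f4 := mul_nonneg f3 (abs_nonneg (φ (v - t)))
    have f5 := mul_nonneg f3 (abs_nonneg (iteratedDeriv 2 φ (v - t)))
    have f6 : 2 * (|C| * (1 + |t|) ^ A) * h (v - t) =
        2 * (|C| * ((1 + |t|) ^ A * (1 + |v - t|) ^ A) * |φ (v - t)|) +
        2 * (|C| * ((1 + |t|) ^ A * (1 + |v - t|) ^ A) * |deriv φ (v - t)|) +
        2 * (|C| * ((1 + |t|) ^ A * (1 + |v - t|) ^ A) * |iteratedDeriv 2 φ (v - t)|) := by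
      simp only [hh]; ring
    rw [f6]
    linarith
  have ih : Integrable (fun v => h (v - t)) := hi.comp_sub_right t
  have hIt : ∫ v, h (v - t) = H := integral_sub_right_eq_self h t
  have i0 : Integrable g := Integrable.mono' (ih.const_mul (|C| * (1 + |t|) ^ A))
    hgC.continuous.aestronglyMeasurable (Filter.Eventually.of_forall b0)
  have i1 : Integrable (deriv g) := Integrable.mono' (ih.const_mul (|C| * (1 + |t|) ^ A))
    (hgC.continuous_deriv h1ne).aestronglyMeasurable (Filter.Eventually.of_forall b1)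
  have i2 : Integrable (iteratedDeriv 2 g) :=
    Integrable.mono' (ih.const_mul (2 * (|C| * (1 + |t|) ^ A)))
    (hgC.continuous_iteratedDeriv 2 (by norm_num)).aestronglyMeasurable
      (Filter.Eventually.of_forall b2)
  obtain ⟨k, hk1, hk2, hk3⟩ := ker_core g hgC i0 i1 i2
  refine ⟨k, hk1, fun y => (hk2 y).trans ?_, hk3⟩
  apply div_le_div_of_nonneg_right _ (by positivity)
  have j0 : ∫ v, ‖g v‖ ≤ (|C| * (1 + |t|) ^ A) * H := by
    rw [← hIt, ← integral_const_mul]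
    exact integral_mono i0.norm (ih.const_mul _) b0
  have j2 : ∫ v, ‖iteratedDeriv 2 g v‖ ≤ 2 * (|C| * (1 + |t|) ^ A) * H := by
    rw [← hIt, ← integral_const_mul]
    exact integral_mono i2.norm (ih.const_mul _) b2
  have j3 : (0 : ℝ) ≤ (1 + |t|) ^ A := by positivity
  nlinarith

end Pool.Agent.CZ
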