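import Mathlib
import Pool.Agent.CZ.IDefs
import Pool.Agent.CZ.IKER
import Pool.Agent.ZD.T

/-!
# Critical zeros (MP_553913_nt), part (I): Fourier kernels of holomorphic multipliers
-/

set_option autoImplicit false

open Complex Finset MeasureTheory

namespace Pool.Agent.CZ

open scoped FourierTransform

theorem wE_pos (y : ℝ) : 0 < wE y := lt_min (Real.exp_pos _) (Real.exp_pos _)

theorem kerh_wE_cont : Continuous wE := by
  unfold wE
  fun_prop

theorem wE_shift (y u : ℝ) : wE (y + u) ≤ Real.exp (2 * |u|) * wE y := by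
  unfold wE
  rw [mul_min_of_nonneg _ _ (Real.exp_pos _).le]
  apply min_le_min
  · rw [← Real.exp_add]
    apply Real.exp_le_exp.2
    have := le_abs_self u
    have := abs_nonneg u
    linarith
  · rw [← Real.exp_add]
    apply Real.exp_le_exp.2
    have := neg_abs_le u
    linarith

theorem wE_integrable {a : ℝ} (h0 : 0 ≤ a) (h1 : a < 2) :
    Integrable (fun y : ℝ => wE y * (1 + Real.exp (a * y))) := by
  have hcont : Continuous (fun y : ℝ => wE y * (1 + Real.exp (a * y))) :=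
    kerh_wE_cont.mul (by fun_prop)
  rw [← integrableOn_univ, ← Set.Iic_union_Ioi (a := (0 : ℝ))]
  refine IntegrableOn.union ?_ ?_
  · have h2 := (integrableOn_exp_mul_Iic (a := 1 / 2) (by norm_num) 0).const_mul 2
    refine Integrable.mono' h2 hcont.aestronglyMeasurable ?_
    refine (ae_restrict_iff' measurableSet_Iic).2 (Filter.Eventually.of_forall fun y hy => ?_)
    have hy' : y ≤ 0 := hy
    rw [Real.norm_of_nonneg (mul_nonneg (wE_pos y).le (by positivity))]
    have e1 : wE y ≤ Real.exp (1 / 2 * y) := by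
      unfold wE
      refine (min_le_left _ _).trans (le_of_eq ?_)
      congr 1; ring
    have e2 : Real.exp (a * y) ≤ 1 := by
      rw [Real.exp_le_one_iff]
      exact mul_nonpos_of_nonneg_of_nonpos h0 hy'
    calc wE y * (1 + Real.exp (a * y)) ≤ Real.exp (1 / 2 * y) * (1 + 1) :=
          mul_le_mul e1 (by linarith) (by positivity) (Real.exp_pos _).le
      _ = 2 * Real.exp (1 / 2 * y) := by ring
  · have h2 := (integrableOn_exp_mul_Ioi (a := a - 2) (by linarith) 0).const_mul 2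
    refine Integrable.mono' h2 hcont.aestronglyMeasurable ?_
    refine (ae_restrict_iff' measurableSet_Ioi).2 (Filter.Eventually.of_forall fun y hy => ?_)
    have hy' : 0 < y := hy
    rw [Real.norm_of_nonneg (mul_nonneg (wE_pos y).le (by positivity))]
    have e1 : wE y ≤ Real.exp (-(2 * y)) := by
      unfold wE
      exact min_le_right _ _
    have e2 : 1 ≤ Real.exp (a * y) := Real.one_le_exp (by positivity)
    calc wE y * (1 + Real.exp (a * y)) ≤ Real.exp (-(2 * y)) * (2 * Real.exp (a * y)) :=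
          mul_le_mul e1 (by linarith) (by positivity) (Real.exp_pos _).le
      _ = 2 * Real.exp ((a - 2) * y) := by
          rw [mul_left_comm, ← Real.exp_add]
          congr 2; ring

theorem kerh_wE_integrable : Integrable wE := by
  have h := wE_integrable (a := 0) le_rfl (by norm_num)
  have h2 := h.const_mul (1 / 2)
  refine h2.congr (Filter.Eventually.of_forall fun y => ?_)
  simp only [zero_mul, Real.exp_zero]
  ring

/-- Gaussians absorb exponentials -/
theorem kerh_absorb (β ρ t v : ℝ) (hρ : 0 < ρ) :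
    Real.exp (β * |v|) * Real.exp (-(ρ * (v - t) ^ 2)) ≤
      Real.exp (β * |t|) * (Real.exp (β ^ 2 / (2 * ρ)) * Real.exp (-(ρ / 2 * (v - t) ^ 2))) := by
  rw [← Real.exp_add, ← Real.exp_add, ← Real.exp_add]
  apply Real.exp_le_exp.2
  have h1 : β * |v| ≤ β * |t| + |β| * |v - t| := by
    have e1 : |v| ≤ |t| + |v - t| := by
      have := abs_add_le t (v - t)
      rwa [add_sub_cancel] at this
    have e2 : |t| ≤ |v| + |v - t| := by
      have := abs_add_le v (t - v)
      rw [add_sub_cancel, abs_sub_comm t v] at this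
      exact this
    rcases le_total 0 β with h | h
    · rw [abs_of_nonneg h]
      nlinarith
    · rw [abs_of_nonpos h]
      nlinarith
  have h2 : |β| * |v - t| ≤ β ^ 2 / (2 * ρ) + ρ / 2 * (v - t) ^ 2 := by
    have e3 : β ^ 2 / (2 * ρ) + ρ / 2 * (v - t) ^ 2 - |β| * |v - t| =
        (|β| - ρ * |v - t|) ^ 2 / (2 * ρ) := by
      rw [← sq_abs β, ← sq_abs (v - t)]
      field_simp
      ring
    have e4 : 0 ≤ (|β| - ρ * |v - t|) ^ 2 / (2 * ρ) := by positivity
    linarith
  linarith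

theorem kerh_gauss_int (ρ t : ℝ) (hρ : 0 < ρ) :
    Integrable (fun v : ℝ => Real.exp (-(ρ / 2 * (v - t) ^ 2))) := by
  have := (integrable_exp_neg_mul_sq (b := ρ / 2) (by positivity)).comp_sub_right t
  refine this.congr (Filter.Eventually.of_forall fun v => ?_)
  simp only
  congr 1; ring

theorem kerh_gauss_val (ρ t : ℝ) :
    ∫ v : ℝ, Real.exp (-(ρ / 2 * (v - t) ^ 2)) = ∫ v : ℝ, Real.exp (-(ρ / 2 * v ^ 2)) :=
  integral_sub_right_eq_self (fun v : ℝ => Real.exp (-(ρ / 2 * v ^ 2))) t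

/-- the integrand -/
noncomputable def kerh_f (m : ℂ → ℂ) (ρ t y : ℝ) (z : ℂ) : ℂ :=
  m z * exp (-(ρ * (z - t) ^ 2)) * exp (-(I * y * z))

theorem kerh_norm (m : ℂ → ℂ) (ρ t y x v : ℝ) :
    ‖kerh_f m ρ t y (v - x * I)‖ = ‖m (v - x * I)‖ *
      (Real.exp (ρ * x ^ 2) * Real.exp (-(ρ * (v - t) ^ 2))) * Real.exp (-(y * x)) := by
  unfold kerh_f
  rw [norm_mul, norm_mul, Complex.norm_exp, Complex.norm_exp, ← Real.exp_add]
  congr 2
  · congr 1
    have e : (-(ρ * ((v : ℂ) - x * I - t) ^ 2)) = ((ρ * x ^ 2 + -(ρ * (v - t) ^ 2) : ℝ) : ℂ) +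
        ((ρ * (2 * (v - t) * x) : ℝ) : ℂ) * I := by
      push_cast
      ring_nf
      rw [I_sq]
      ring
    rw [e]
    simp only [add_re, ofReal_re, mul_re, ofReal_im, I_re, I_im]
    ring
  · simp

theorem kerh_tendsto (K ρ t : ℝ) (hρ : 0 < ρ) :
    Filter.Tendsto (fun v : ℝ => K * Real.exp (-(ρ / 2 * (v - t) ^ 2))) Filter.atTop (nhds 0) ∧
    Filter.Tendsto (fun v : ℝ => K * Real.exp (-(ρ / 2 * (v - t) ^ 2))) Filter.atBot (nhds 0) := by
  have h1 : Filter.Tendsto (fun u : ℝ => Real.exp (-(ρ / 2 * u))) Filter.atTop (nhds 0) := by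
    apply Real.tendsto_exp_neg_atTop_nhds_zero.comp
    exact Filter.tendsto_id.const_mul_atTop (by positivity)
  have h2 : Filter.Tendsto (fun v : ℝ => (v - t) ^ 2) Filter.atTop Filter.atTop :=
    (Filter.tendsto_pow_atTop two_ne_zero).comp
      (Filter.tendsto_atTop_add_const_right _ (-t) Filter.tendsto_id)
  have h3 : Filter.Tendsto (fun v : ℝ => (v - t) ^ 2) Filter.atBot Filter.atTop := by
    have : Filter.Tendsto (fun v : ℝ => (t - v) ^ 2) Filter.atBot Filter.atTop := by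
      refine (Filter.tendsto_pow_atTop two_ne_zero).comp ?_
      have := Filter.tendsto_atTop_add_const_left Filter.atBot t Filter.tendsto_neg_atBot_atTop
      refine this.congr fun v => ?_
      ring
    refine this.congr fun v => ?_
    ring
  constructor
  · have := (h1.comp h2).const_mul K
    rw [mul_zero] at this
    exact this
  · have := (h1.comp h3).const_mul K
    rw [mul_zero] at this
    exact this

theorem kerh_shift (m : ℂ → ℂ)
    (hm : ∀ z : ℂ, -2 ≤ z.im → z.im ≤ 1 / 2 → DifferentiableAt ℂ m z)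
    (B : ℝ) (h2 : ∀ z : ℂ, -2 ≤ z.im → z.im ≤ 1 / 2 → ‖m z‖ ≤ B * Real.exp (B * |z.re|))
    (ρ : ℝ) (hρ : 0 < ρ) (t y x : ℝ) (hx1 : -(1 / 2) ≤ x) (hx2 : x ≤ 2) :
    ∫ v : ℝ, kerh_f m ρ t y v = ∫ v : ℝ, kerh_f m ρ t y (v - x * I) := by
  have hB : 0 ≤ B := by
    have := (norm_nonneg _).trans (h2 0 (by simp) (by simp))
    simpa using this
  set K : ℝ := B * Real.exp (4 * ρ) * Real.exp (2 * |y|) *
    (Real.exp (B * |t|) * Real.exp (B ^ 2 / (2 * ρ))) with hK
  have hsub : ∀ x' ∈ Set.uIcc 0 x, -(1 / 2) ≤ x' ∧ x' ≤ 2 := by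
    intro x' hx'
    rw [Set.mem_uIcc] at hx'
    rcases hx' with h | h <;> constructor <;> linarith
  have key := Pool.Agent.ZD.vert_shift (F := fun s => kerh_f m ρ t y (-(I * s))) (x₁ := 0)
    (x₂ := x) (g := fun v => K * Real.exp (-(ρ / 2 * (v - t) ^ 2))) ?_
    ((kerh_gauss_int ρ t hρ).const_mul K) (kerh_tendsto K ρ t hρ).1 (kerh_tendsto K ρ t hρ).2 ?_
  · have e1 : ∀ v x' : ℝ, -(I * ((x' : ℂ) + v * I)) = v - x' * I := by
      intro v x'
      ring_nf
      rw [I_sq]
      ring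
    simp only [e1] at key
    simpa using key
  · intro s hs
    have hs' := hsub _ hs
    have h1 : DifferentiableAt ℂ m (-(I * s)) := by
      apply hm
      · simp; linarith
      · simp; linarith
    unfold kerh_f
    have h3 : DifferentiableAt ℂ (fun s : ℂ => -(I * s)) s := by fun_prop
    refine DifferentiableAt.mul (DifferentiableAt.mul (h1.comp s h3) ?_) ?_
    · fun_prop
    · fun_prop
  · intro x' hx' v
    have hs' := hsub _ hx'
    have e1 : -(I * ((x' : ℂ) + v * I)) = v - x' * I := by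
      ring_nf
      rw [I_sq]
      ring
    simp only [e1]
    rw [kerh_norm]
    have b1 : ‖m (v - x' * I)‖ ≤ B * Real.exp (B * |v|) := by
      have := h2 (v - x' * I) (by simp; linarith) (by simp; linarith)
      simpa using this
    have b2 : Real.exp (ρ * x' ^ 2) ≤ Real.exp (4 * ρ) := by
      apply Real.exp_le_exp.2
      have h5 : x' ^ 2 ≤ 4 := by
        nlinarith [mul_nonneg (sub_nonneg.2 hs'.2) (show (0 : ℝ) ≤ 2 + x' by linarith [hs'.1])]
      nlinarith
    have b3 : Real.exp (-(y * x')) ≤ Real.exp (2 * |y|) := by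
      apply Real.exp_le_exp.2
      have h5 : |y * x'| ≤ |y| * 2 := by
        rw [abs_mul]
        apply mul_le_mul_of_nonneg_left _ (abs_nonneg y)
        rw [abs_le]; constructor <;> linarith
      have := neg_abs_le (y * x')
      linarith
    have b4 := kerh_absorb B ρ t v hρ
    calc ‖m (v - x' * I)‖ * (Real.exp (ρ * x' ^ 2) * Real.exp (-(ρ * (v - t) ^ 2))) *
          Real.exp (-(y * x'))
        ≤ (B * Real.exp (B * |v|)) * (Real.exp (4 * ρ) * Real.exp (-(ρ * (v - t) ^ 2))) *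
          Real.exp (2 * |y|) := by
          apply mul_le_mul _ b3 (Real.exp_pos _).le (by positivity)
          apply mul_le_mul b1 _ (by positivity) (by positivity)
          exact mul_le_mul_of_nonneg_right b2 (Real.exp_pos _).le
      _ = (B * Real.exp (4 * ρ) * Real.exp (2 * |y|)) *
          (Real.exp (B * |v|) * Real.exp (-(ρ * (v - t) ^ 2))) := by ring
      _ ≤ (B * Real.exp (4 * ρ) * Real.exp (2 * |y|)) *
          (Real.exp (B * |t|) * (Real.exp (B ^ 2 / (2 * ρ)) *
            Real.exp (-(ρ / 2 * (v - t) ^ 2)))) :=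
          mul_le_mul_of_nonneg_left b4 (by positivity)
      _ = K * Real.exp (-(ρ / 2 * (v - t) ^ 2)) := by rw [hK]; ring

theorem kerh_bound (m : ℂ → ℂ) (C₁ β ρ : ℝ) (hρ : 0 < ρ) (t y x : ℝ)
    (hx1 : -(1 / 2) ≤ x) (hx2 : x ≤ 2)
    (h3 : ∀ v : ℝ, ‖m (v - x * I)‖ ≤ C₁ * Real.exp (β * |v|)) :
    ‖∫ v : ℝ, kerh_f m ρ t y (v - x * I)‖ ≤ (C₁ * Real.exp (4 * ρ) * Real.exp (β ^ 2 / (2 * ρ)) *
      ∫ v : ℝ, Real.exp (-(ρ / 2 * v ^ 2))) * Real.exp (β * |t|) * Real.exp (-(y * x)) := by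
  have hC : 0 ≤ C₁ := by
    have := (norm_nonneg _).trans (h3 0)
    simpa using this
  have hb : ∀ v : ℝ, ‖kerh_f m ρ t y (v - x * I)‖ ≤
      (C₁ * Real.exp (4 * ρ) * Real.exp (β ^ 2 / (2 * ρ)) * Real.exp (β * |t|) *
        Real.exp (-(y * x))) * Real.exp (-(ρ / 2 * (v - t) ^ 2)) := by
    intro v
    rw [kerh_norm]
    have b2 : Real.exp (ρ * x ^ 2) ≤ Real.exp (4 * ρ) := by
      apply Real.exp_le_exp.2
      have h5 : x ^ 2 ≤ 4 := by
        nlinarith [mul_nonneg (sub_nonneg.2 hx2) (show (0 : ℝ) ≤ 2 + x by linarith)]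
      nlinarith
    have b4 := kerh_absorb β ρ t v hρ
    calc ‖m (v - x * I)‖ * (Real.exp (ρ * x ^ 2) * Real.exp (-(ρ * (v - t) ^ 2))) *
          Real.exp (-(y * x))
        ≤ (C₁ * Real.exp (β * |v|)) * (Real.exp (4 * ρ) * Real.exp (-(ρ * (v - t) ^ 2))) *
          Real.exp (-(y * x)) := by
          apply mul_le_mul_of_nonneg_right _ (Real.exp_pos _).le
          apply mul_le_mul (h3 v) _ (by positivity) (by positivity)
          exact mul_le_mul_of_nonneg_right b2 (Real.exp_pos _).le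
      _ = (C₁ * Real.exp (4 * ρ) * Real.exp (-(y * x))) *
          (Real.exp (β * |v|) * Real.exp (-(ρ * (v - t) ^ 2))) := by ring
      _ ≤ (C₁ * Real.exp (4 * ρ) * Real.exp (-(y * x))) *
          (Real.exp (β * |t|) * (Real.exp (β ^ 2 / (2 * ρ)) *
            Real.exp (-(ρ / 2 * (v - t) ^ 2)))) :=
          mul_le_mul_of_nonneg_left b4 (by positivity)
      _ = _ := by ring
  refine (norm_integral_le_of_norm_le ((kerh_gauss_int ρ t hρ).const_mul _)
    (Filter.Eventually.of_forall hb)).trans (le_of_eq ?_)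
  rw [integral_const_mul, kerh_gauss_val]
  ring

/-- kernels of holomorphic multipliers -/
theorem ker_H (m : ℂ → ℂ) (hm : ∀ z : ℂ, -2 ≤ z.im → z.im ≤ 1 / 2 → DifferentiableAt ℂ m z)
    (B β C₁ : ℝ) (h2 : ∀ z : ℂ, -2 ≤ z.im → z.im ≤ 1 / 2 → ‖m z‖ ≤ B * Real.exp (B * |z.re|))
    (h3 : ∀ v : ℝ, ‖m (v - 2 * I)‖ ≤ C₁ * Real.exp (β * |v|) ∧
      ‖m (v + I / 2)‖ ≤ C₁ * Real.exp (β * |v|)) (ρ : ℝ) (hρ : 0 < ρ) :
    ∃ C' : ℝ, 0 < C' ∧ ∀ t : ℝ, ∃ k : ℝ → ℂ, Continuous k ∧
      (∀ y, ‖k y‖ ≤ C' * Real.exp (β * |t|) * wE y) ∧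
      ∀ v : ℝ, m v * (Real.exp (-(ρ * (v - t) ^ 2)) : ℂ) = ∫ y : ℝ, k y * exp (I * y * v) := by
  have hpi : (0 : ℝ) < 2 * Real.pi := by positivity
  have hpi1 : (1 : ℝ) ≤ 2 * Real.pi := by
    have := Real.pi_gt_three
    linarith
  have hC : 0 ≤ C₁ := by
    have := (norm_nonneg _).trans (h3 0).1
    simpa using this
  have hB : 0 ≤ B := by
    have := (norm_nonneg _).trans (h2 0 (by simp) (by simp))
    simpa using this
  set G : ℝ := ∫ v : ℝ, Real.exp (-(ρ / 2 * v ^ 2)) with hG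
  have hG0 : 0 ≤ G := integral_nonneg fun v => (Real.exp_pos _).le
  set C' : ℝ := C₁ * Real.exp (4 * ρ) * Real.exp (β ^ 2 / (2 * ρ)) * G with hC'
  have hC'0 : 0 ≤ C' := by positivity
  refine ⟨C' + 1, by positivity, fun t => ?_⟩
  set g : ℝ → ℂ := fun v => m v * ((Real.exp (-(ρ * (v - t) ^ 2)) : ℝ) : ℂ) with hg
  have hmc : Continuous (fun v : ℝ => m v) := by
    rw [continuous_iff_continuousAt]
    intro v
    have := (hm v (by simp) (by simp)).continuousAt
    exact this.comp (f := fun v : ℝ => (v : ℂ)) Complex.continuous_ofReal.continuousAt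
  have hgc : Continuous g := hmc.mul (by fun_prop)
  have hgi : Integrable g := by
    refine Integrable.mono' ((kerh_gauss_int ρ t hρ).const_mul
      (B * (Real.exp (B * |t|) * Real.exp (B ^ 2 / (2 * ρ))))) hgc.aestronglyMeasurable
      (Filter.Eventually.of_forall fun v => ?_)
    simp only [hg]
    rw [norm_mul, Complex.norm_real, Real.norm_of_nonneg (Real.exp_pos _).le]
    have b1 : ‖m v‖ ≤ B * Real.exp (B * |v|) := by
      have := h2 v (by simp) (by simp)
      simpa using this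
    calc ‖m v‖ * Real.exp (-(ρ * (v - t) ^ 2))
        ≤ B * Real.exp (B * |v|) * Real.exp (-(ρ * (v - t) ^ 2)) :=
          mul_le_mul_of_nonneg_right b1 (Real.exp_pos _).le
      _ = B * (Real.exp (B * |v|) * Real.exp (-(ρ * (v - t) ^ 2))) := by ring
      _ ≤ B * (Real.exp (B * |t|) * (Real.exp (B ^ 2 / (2 * ρ)) *
            Real.exp (-(ρ / 2 * (v - t) ^ 2)))) :=
          mul_le_mul_of_nonneg_left (kerh_absorb B ρ t v hρ) hB
      _ = _ := by ring
  have hFg : ∀ y : ℝ, 𝓕 g ((2 * Real.pi)⁻¹ * y) = ∫ v : ℝ, kerh_f m ρ t y v := by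
    intro y
    rw [Real.fourier_real_eq_integral_exp_smul]
    refine integral_congr_ae (Filter.Eventually.of_forall fun v => ?_)
    simp only [hg]
    unfold kerh_f
    rw [smul_eq_mul]
    have e1 : ((-2 * Real.pi * v * ((2 * Real.pi)⁻¹ * y) : ℝ) : ℂ) * I = -(I * y * v) := by
      have : (-2 * Real.pi * v * ((2 * Real.pi)⁻¹ * y) : ℝ) = -(v * y) := by
        field_simp
      rw [this]
      push_cast
      ring
    rw [e1]
    push_cast
    ring
  have hkb : ∀ y : ℝ, ‖((2 * Real.pi : ℝ) : ℂ)⁻¹ * 𝓕 g ((2 * Real.pi)⁻¹ * y)‖ ≤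
      C' * Real.exp (β * |t|) * wE y := by
    intro y
    have c1 : ‖((2 * Real.pi : ℝ) : ℂ)⁻¹ * 𝓕 g ((2 * Real.pi)⁻¹ * y)‖ ≤
        ‖∫ v : ℝ, kerh_f m ρ t y v‖ := by
      rw [norm_mul, norm_inv, Complex.norm_real, Real.norm_of_nonneg hpi.le, hFg y]
      exact mul_le_of_le_one_left (norm_nonneg _) (inv_le_one_of_one_le₀ hpi1)
    have c2 := kerh_shift m hm B h2 ρ hρ t y 2 (by norm_num) le_rfl
    have c3 := kerh_shift m hm B h2 ρ hρ t y (-(1 / 2)) le_rfl (by norm_num)
    have c4 := kerh_bound m C₁ β ρ hρ t y 2 (by norm_num) le_rfl (fun v => by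
      have := (h3 v).1
      push_cast
      exact this)
    have c5 := kerh_bound m C₁ β ρ hρ t y (-(1 / 2)) le_rfl (by norm_num) (fun v => by
      have := (h3 v).2
      have e : ((v : ℂ) - ((-(1 / 2) : ℝ) : ℂ) * I) = v + I / 2 := by
        push_cast; ring
      rw [e]
      exact this)
    rw [← c2] at c4
    rw [← c3] at c5
    refine c1.trans ?_
    unfold wE
    rw [mul_min_of_nonneg _ _ (by positivity)]
    refine le_min ?_ ?_
    · refine c5.trans (le_of_eq ?_)
      rw [hC', hG]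
      congr 2
      ring
    · refine c4.trans (le_of_eq ?_)
      rw [hC', hG]
      congr 2
      ring
  have hkc : Continuous (fun y : ℝ => ((2 * Real.pi : ℝ) : ℂ)⁻¹ * 𝓕 g ((2 * Real.pi)⁻¹ * y)) := by
    have hc0 : Continuous (𝓕 g) :=
      VectorFourier.fourierIntegral_continuous Real.continuous_fourierChar
        (by exact continuous_inner) hgi
    refine continuous_const.mul (hc0.comp ?_)
    fun_prop
  have hki : Integrable (fun y : ℝ => ((2 * Real.pi : ℝ) : ℂ)⁻¹ * 𝓕 g ((2 * Real.pi)⁻¹ * y)) :=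
    Integrable.mono' (kerh_wE_integrable.const_mul (C' * Real.exp (β * |t|)))
      hkc.aestronglyMeasurable (Filter.Eventually.of_forall hkb)
  refine ⟨_, hkc, fun y => (hkb y).trans ?_, fun v => ker_inv g hgc hgi hki v⟩
  apply mul_le_mul_of_nonneg_right _ (wE_pos y).le
  apply mul_le_mul_of_nonneg_right _ (Real.exp_pos _).le
  linarith

end Pool.Agent.CZ
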