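import Mathlib
import Pool.Agent.CZ.IDefs
import Pool.Agent.CZ.IBAS
import Pool.Agent.CZ.IBINT
import Pool.Agent.CZ.IKERH
import Pool.Agent.ZD.F1
import Pool.Agent.H6.HeatSimple

/-!
Critical zeros, part (I), module FEK: functional equation for Gaussian blocks.
-/

set_option autoImplicit false

open Complex Finset MeasureTheory

namespace Pool.Agent.CZ

open Pool.Agent.H5 (c bd)
open Pool.Agent.ZD (S Lf gk eps MM tau)
open Pool.Agent.CZ.Inp (lam A2 R1)

/-! ### The quotient of Gamma values -/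

/-- `Γ(1 + iz)/Γ(1 - iz)` -/
noncomputable def fek_m (z : ℂ) : ℂ := Gamma (1 + I * z) * (Gamma (1 - I * z))⁻¹

lemma fek_m_diff {z : ℂ} (h : z.im ≤ 1 / 2) : DifferentiableAt ℂ fek_m z := by
  have h1 : DifferentiableAt ℂ (fun z : ℂ => Gamma (1 + I * z)) z := by
    have hg : DifferentiableAt ℂ Gamma (1 + I * z) := by
      refine differentiableAt_Gamma _ fun m hm => ?_
      have := congrArg Complex.re hm
      simp at this
      have hm0 : (0:ℝ) ≤ m := Nat.cast_nonneg m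
      linarith
    exact hg.comp z (by fun_prop)
  have h2 : DifferentiableAt ℂ (fun z : ℂ => (Gamma (1 - I * z))⁻¹) z :=
    (differentiable_one_div_Gamma.comp (by fun_prop : Differentiable ℂ fun z : ℂ => 1 - I * z)) z
  exact h1.mul h2

lemma fek_inv_Gamma (w : ℂ) : (Gamma w)⁻¹ = w * (w + 1) * (w + 2) * (Gamma (w + 3))⁻¹ := by
  rw [one_div_Gamma_eq_self_mul_one_div_Gamma_add_one w,
    one_div_Gamma_eq_self_mul_one_div_Gamma_add_one (w + 1),
    one_div_Gamma_eq_self_mul_one_div_Gamma_add_one (w + 1 + 1)]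
  have e1 : w + 1 + 1 = w + 2 := by ring
  have e2 : w + 1 + 1 + 1 = w + 3 := by ring
  rw [e2, e1]
  ring

lemma fek_Gamma_bounds : ∃ G g : ℝ, 0 < g ∧ 0 < G ∧
    (∀ x : ℝ, 1 / 2 ≤ x → x ≤ 5 → g ≤ Real.Gamma x ∧ Real.Gamma x ≤ G) := by
  have hc : ContinuousOn Real.Gamma (Set.Icc (1 / 2) 5) := by
    intro x hx
    refine (Real.differentiableAt_Gamma fun m => ?_).continuousAt.continuousWithinAt
    have hm0 : (0:ℝ) ≤ m := Nat.cast_nonneg m
    have := hx.1
    linarith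
  obtain ⟨G, hG⟩ := isCompact_Icc.bddAbove_image hc
  obtain ⟨x₀, hx₀, hmin⟩ := isCompact_Icc.exists_isMinOn (Set.nonempty_Icc.2 (by norm_num)) hc
  have hpos : 0 < Real.Gamma x₀ := Real.Gamma_pos_of_pos (by have := hx₀.1; linarith)
  refine ⟨G, Real.Gamma x₀, hpos, ?_, fun x h1 h2 => ⟨hmin ⟨h1, h2⟩, hG ⟨x, ⟨h1, h2⟩, rfl⟩⟩⟩
  exact hpos.trans_le (hG ⟨x₀, hx₀, rfl⟩)

lemma fek_pow_le_exp (a : ℝ) (ha : 0 ≤ a) : (4 + a) ^ 3 ≤ 64 * Real.exp a := by
  have h1 : 1 + a / 3 ≤ Real.exp (a / 3) := by linarith [Real.add_one_le_exp (a / 3)]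
  have h2 : 4 + a ≤ 4 * Real.exp (a / 3) := by linarith
  have h3 : Real.exp (a / 3) ^ 3 = Real.exp a := by
    rw [← Real.exp_nat_mul]
    congr 1
    push_cast
    ring
  calc (4 + a) ^ 3 ≤ (4 * Real.exp (a / 3)) ^ 3 := by gcongr
    _ = _ := by rw [mul_pow, h3]; norm_num

lemma fek_m_growth : ∃ B : ℝ, ∀ z : ℂ, -2 ≤ z.im → z.im ≤ 1 / 2 →
    ‖fek_m z‖ ≤ B * Real.exp (B * |z.re|) := by
  obtain ⟨G, g, hg, hG0, hG⟩ := fek_Gamma_bounds
  refine ⟨max (64 * G / g) 4, fun z h1 h2 => ?_⟩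
  set a := |z.re| with ha
  have ha0 : 0 ≤ a := abs_nonneg _
  have hb1 : ‖Gamma (1 + I * z)‖ ≤ G := by
    have hre : (1 + I * z).re = 1 - z.im := by simp; ring
    refine (H6.FEData.norm_Gamma_le_re (by rw [hre]; linarith)).trans ?_
    rw [hre]
    exact (hG _ (by linarith) (by linarith)).2
  have hb2 : ‖(Gamma (1 - I * z))⁻¹‖ ≤ 64 * Real.exp a * (Real.exp (Real.pi / 2 * a) / g) := by
    rw [fek_inv_Gamma, norm_mul, norm_mul, norm_mul, norm_inv]
    have n1 : ∀ c : ℝ, 0 ≤ c → c ≤ 2 → ‖1 - I * z + c‖ ≤ 4 + a := by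
      intro c hc0 hc2
      refine (Complex.norm_le_abs_re_add_abs_im _).trans ?_
      have e1 : (1 - I * z + c).re = 1 + c + z.im := by simp; ring
      have e2 : (1 - I * z + c).im = -z.re := by simp
      rw [e1, e2, abs_neg, ← ha]
      have : |1 + c + z.im| ≤ 4 := by rw [abs_le]; constructor <;> linarith
      linarith
    have m1 := n1 0 (le_refl _) (by norm_num)
    have m2 := n1 1 (by norm_num) (by norm_num)
    have m3 := n1 2 (by norm_num) le_rfl
    push_cast at m1 m2 m3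
    rw [add_zero] at m1
    have m4 : g * Real.exp (-(Real.pi / 2 * a)) ≤ ‖Gamma (1 - I * z + 3)‖ := by
      have h3 := ZD.norm_Gamma_ge (η := 3 + z.im) (by linarith) (-z.re)
      have e3 : (1 + ((3 + z.im : ℝ) : ℂ) + ((-z.re : ℝ) : ℂ) * I) = 1 - I * z + 3 := by
        apply Complex.ext
        · simp; ring
        · simp
      rw [e3, abs_neg, ← ha] at h3
      refine le_trans ?_ h3
      gcongr
      exact (hG _ (by linarith) (by linarith)).1
    have m5 : ‖Gamma (1 - I * z + 3)‖⁻¹ ≤ Real.exp (Real.pi / 2 * a) / g := by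
      rw [inv_le_comm₀ (lt_of_lt_of_le (by positivity) m4) (by positivity), inv_div]
      refine le_trans (le_of_eq ?_) m4
      rw [Real.exp_neg, div_eq_mul_inv]
    calc _ ≤ (4 + a) * (4 + a) * (4 + a) * (Real.exp (Real.pi / 2 * a) / g) := by gcongr
      _ = (4 + a) ^ 3 * (Real.exp (Real.pi / 2 * a) / g) := by ring
      _ ≤ _ := by gcongr; exact fek_pow_le_exp a ha0
  have hB4 : (4 : ℝ) ≤ max (64 * G / g) 4 := le_max_right _ _
  have hBG : 64 * G / g ≤ max (64 * G / g) 4 := le_max_left _ _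
  rw [fek_m, norm_mul]
  calc _ ≤ G * (64 * Real.exp a * (Real.exp (Real.pi / 2 * a) / g)) := by gcongr
    _ = (64 * G / g) * (Real.exp a * Real.exp (Real.pi / 2 * a)) := by ring
    _ = (64 * G / g) * Real.exp (a + Real.pi / 2 * a) := by rw [Real.exp_add]
    _ ≤ _ := by
        gcongr
        have := Real.pi_le_four
        nlinarith

lemma fek_norm_Gamma_symm (a v : ℝ) : ‖Gamma (a - I * v)‖ = ‖Gamma (a + I * v)‖ := by
  have h := Complex.Gamma_conj (a + I * v)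
  have e : (starRingEnd ℂ) (a + I * v) = a - I * v := by
    simp [Complex.ext_iff]
  rw [e] at h
  rw [h]
  exact RCLike.norm_conj _

lemma fek_m_boundary {β : ℝ} (hβ : 0 < β) : ∃ C₁ : ℝ, ∀ v : ℝ,
    ‖fek_m (v - 2 * I)‖ ≤ C₁ * Real.exp (β * |v|) ∧
      ‖fek_m (v + I / 2)‖ ≤ C₁ * Real.exp (β * |v|) := by
  refine ⟨max ((2 + 4 / β) ^ 4) 2, fun v => ⟨?_, ?_⟩⟩
  · have hv0 : 0 ≤ |v| := abs_nonneg v
    have e1 : 1 + I * (v - 2 * I) = (1 + I * v) + 1 + 1 := by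
      linear_combination (-2) * Complex.I_sq
    have e2 : 1 - I * (v - 2 * I) = -1 - I * v := by
      linear_combination 2 * Complex.I_sq
    have g1 : Gamma ((1 + I * v) + 1 + 1) = (1 + I * v + 1) * ((1 + I * v) * Gamma (1 + I * v)) := by
      rw [Complex.Gamma_add_one, Complex.Gamma_add_one]
      · intro h
        have := congrArg Complex.re h
        simp at this
      · intro h
        have := congrArg Complex.re h
        norm_num at this
    have g2 : (Gamma (-1 - I * v))⁻¹ = (-1 - I * v) * ((-1 - I * v + 1) * (Gamma (1 - I * v))⁻¹) := by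
      rw [one_div_Gamma_eq_self_mul_one_div_Gamma_add_one (-1 - I * v),
        one_div_Gamma_eq_self_mul_one_div_Gamma_add_one (-1 - I * v + 1)]
      congr 4
      ring
    have hG : ‖Gamma (1 + I * v)‖ ≠ 0 := by
      rw [norm_ne_zero_iff]
      exact Gamma_ne_zero_of_re_pos (by simp)
    have hsym := fek_norm_Gamma_symm 1 v
    push_cast at hsym
    rw [fek_m, e1, e2, g1, g2, norm_mul, norm_mul, norm_mul, norm_mul, norm_mul, norm_inv, hsym]
    have nb : ∀ s : ℂ, |s.re| ≤ 2 → |s.im| = |v| → ‖s‖ ≤ 2 + |v| := by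
      intro s h1 h2
      refine (Complex.norm_le_abs_re_add_abs_im _).trans ?_
      rw [h2]; linarith
    have n1 : ‖1 + I * (v : ℂ) + 1‖ ≤ 2 + |v| := nb _ (by norm_num) (by simp)
    have n2 : ‖1 + I * (v : ℂ)‖ ≤ 2 + |v| := nb _ (by norm_num) (by simp)
    have n3 : ‖-1 - I * (v : ℂ)‖ ≤ 2 + |v| := nb _ (by norm_num) (by simp)
    have n4 : ‖-1 - I * (v : ℂ) + 1‖ ≤ 2 + |v| := nb _ (by norm_num) (by simp)
    have key : (2 + |v|) ^ 4 ≤ (2 + 4 / β) ^ 4 * Real.exp (β * |v|) := by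
      have h1 : 1 + β * |v| / 4 ≤ Real.exp (β * |v| / 4) := by
        linarith [Real.add_one_le_exp (β * |v| / 4)]
      have h2 : 2 + |v| ≤ (2 + 4 / β) * Real.exp (β * |v| / 4) := by
        refine le_trans ?_ (mul_le_mul_of_nonneg_left h1 (by positivity))
        have : (2 + 4 / β) * (1 + β * |v| / 4) = 2 + |v| + 4 / β + β * |v| / 2 := by
          field_simp; ring
        rw [this]
        have : 0 < 4 / β := by positivity
        have : 0 ≤ β * |v| / 2 := by positivity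
        linarith
      have h3 : Real.exp (β * |v| / 4) ^ 4 = Real.exp (β * |v|) := by
        rw [← Real.exp_nat_mul]
        congr 1
        push_cast
        ring
      calc (2 + |v|) ^ 4 ≤ ((2 + 4 / β) * Real.exp (β * |v| / 4)) ^ 4 := by gcongr
        _ = _ := by rw [mul_pow, h3]
    calc _ = (‖1 + I * (v : ℂ) + 1‖ * ‖1 + I * (v : ℂ)‖ * ‖-1 - I * (v : ℂ)‖ *
          ‖-1 - I * (v : ℂ) + 1‖) * (‖Gamma (1 + I * v)‖ * ‖Gamma (1 + I * v)‖⁻¹) := by ring
      _ = ‖1 + I * (v : ℂ) + 1‖ * ‖1 + I * (v : ℂ)‖ * ‖-1 - I * (v : ℂ)‖ *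
          ‖-1 - I * (v : ℂ) + 1‖ := by rw [mul_inv_cancel₀ hG, mul_one]
      _ ≤ (2 + |v|) * (2 + |v|) * (2 + |v|) * (2 + |v|) := by gcongr
      _ = (2 + |v|) ^ 4 := by ring
      _ ≤ (2 + 4 / β) ^ 4 * Real.exp (β * |v|) := key
      _ ≤ _ := by gcongr; exact le_max_left _ _
  · have e1 : 1 + I * (v + I / 2) = ((1 / 2 : ℝ) : ℂ) + I * v := by
      push_cast
      linear_combination (1 / 2) * Complex.I_sq
    have e2 : 1 - I * (v + I / 2) = (((1 / 2 : ℝ) : ℂ) - I * v) + 1 := by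
      push_cast
      linear_combination (-1 / 2) * Complex.I_sq
    have hne : ((1 / 2 : ℝ) : ℂ) - I * v ≠ 0 := by
      intro h
      have := congrArg Complex.re h
      norm_num at this
    have hG : ‖Gamma (((1 / 2 : ℝ) : ℂ) + I * v)‖ ≠ 0 := by
      rw [norm_ne_zero_iff]
      exact Gamma_ne_zero_of_re_pos (by norm_num)
    rw [fek_m, e1, e2, Complex.Gamma_add_one _ hne, norm_mul, norm_inv, norm_mul,
      fek_norm_Gamma_symm, mul_inv]
    have n1 : (1 / 2 : ℝ) ≤ ‖((1 / 2 : ℝ) : ℂ) - I * v‖ := by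
      have := Complex.re_le_norm (((1 / 2 : ℝ) : ℂ) - I * v)
      simpa using this
    have n2 : ‖((1 / 2 : ℝ) : ℂ) - I * v‖⁻¹ ≤ 2 := by
      rw [inv_le_comm₀ (by linarith) (by norm_num)]
      linarith
    have n3 : 1 ≤ Real.exp (β * |v|) := Real.one_le_exp (by positivity)
    calc _ = (‖Gamma (((1 / 2 : ℝ) : ℂ) + I * v)‖ * ‖Gamma (((1 / 2 : ℝ) : ℂ) + I * v)‖⁻¹) *
          ‖((1 / 2 : ℝ) : ℂ) - I * v‖⁻¹ := by ring
      _ = ‖((1 / 2 : ℝ) : ℂ) - I * v‖⁻¹ := by rw [mul_inv_cancel₀ hG, one_mul]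
      _ ≤ 2 := n2
      _ ≤ max ((2 + 4 / β) ^ 4) 2 * 1 := by rw [mul_one]; exact le_max_right _ _
      _ ≤ _ := by
          have : (0:ℝ) ≤ max ((2 + 4 / β) ^ 4) 2 := le_trans (by norm_num) (le_max_right _ _)
          gcongr

/-! ### The functional equation on the line `Re s = 1` -/

lemma fek_line {q : ℕ} (hq : Squarefree q) : ∃ (w : ℂ) (u : ℝ), ‖w‖ = 1 ∧ |u| ≤ 1 ∧
    ∀ v : ℝ, LfL 0 q (-v) = w * exp (I * v * (2 * Real.log q + u : ℝ)) * fek_m v * LfL 0 q v := by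
  obtain ⟨w, hw, hfe⟩ := H5.Th_fe q hq
  have hq0 : 0 < q := Nat.pos_of_ne_zero hq.ne_zero
  have hqr : (0:ℝ) < q := by exact_mod_cast hq0
  have hQ0 : (0:ℝ) < ((H5.Q q : ℕ) : ℝ) := by
    have : 0 < H5.Q q := by
      unfold H5.Q
      split_ifs <;> positivity
    exact_mod_cast this
  obtain ⟨Λ, D, hΛ⟩ := H6.exists_FEData (q : ℤ) hQ0 hw hfe
  have E : H6.EdData q (√(H5.Q q) / Real.pi) Λ := ⟨H6.exists_ThData hq, D.diff, hΛ⟩
  set M : ℝ := √(H5.Q q) / Real.pi with hM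
  have hMpos : 0 < M := E.Mpos
  refine ⟨w, 2 * Real.log M - 2 * Real.log q, ?_, ?_, fun v => ?_⟩
  · rcases hw with rfl | rfl <;> simp
  · -- the constant
    obtain ⟨r, hr, hMr⟩ : ∃ r : ℝ, (r = 2 ∨ r = 2 * √2) ∧ M = r * q / Real.pi := by
      rcases Nat.even_or_odd q with he | ho
      · refine ⟨2, Or.inl rfl, ?_⟩
        rw [hM, H5.Q, if_pos he]
        push_cast
        rw [show (4:ℝ) * (q:ℝ) ^ 2 = (2 * q) ^ 2 by ring, Real.sqrt_sq (by positivity)]
      · refine ⟨2 * √2, Or.inr rfl, ?_⟩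
        rw [hM, H5.Q, if_neg (Nat.not_even_iff_odd.2 ho)]
        push_cast
        rw [show (8:ℝ) * (q:ℝ) ^ 2 = 2 * (2 * q) ^ 2 by ring, Real.sqrt_mul (by norm_num),
          Real.sqrt_sq (by positivity)]
        ring
    have hs2 : √2 ≤ 1.4143 := by
      rw [Real.sqrt_le_left (by norm_num)]; norm_num
    have hs2' : 1 ≤ √2 := by
      rw [Real.le_sqrt' (by norm_num)]; norm_num
    have hpi1 := Real.pi_gt_three
    have hpi2 := Real.pi_lt_d2
    have hr1 : 2 ≤ r := by rcases hr with rfl | rfl <;> linarith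
    have hr2 : r ≤ Real.pi := by rcases hr with rfl | rfl <;> linarith
    have hr0 : 0 < r := by linarith
    have e : 2 * Real.log M - 2 * Real.log q = 2 * Real.log (r / Real.pi) := by
      rw [hMr, Real.log_div (by positivity) (by positivity), Real.log_mul hr0.ne' hqr.ne',
        Real.log_div hr0.ne' (by positivity)]
      ring
    rw [e, abs_le]
    have hrp : 0 < r / Real.pi := by positivity
    constructor
    · have h1 := Real.one_sub_inv_le_log_of_pos (x := (r / Real.pi) ^ (1 / 2 : ℝ)) (by positivity)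
      have h2 : 5 / 8 ≤ r / Real.pi := by
        rw [le_div_iff₀ (by positivity)]; linarith
      have h3 := Real.log_le_log (by norm_num) h2
      have h4 : -(1 / 2) ≤ Real.log (5 / 8 : ℝ) := by
        have : Real.log (5 / 8 : ℝ) = -Real.log (8 / 5 : ℝ) := by
          rw [← Real.log_inv]; norm_num
        rw [this]
        have h5 : Real.log (8 / 5 : ℝ) ≤ 1 / 2 := by
          rw [Real.log_le_iff_le_exp (by norm_num)]
          have := Real.quadratic_le_exp_of_nonneg (show (0:ℝ) ≤ 1 / 2 by norm_num)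
          norm_num at this ⊢
          linarith
        linarith
      linarith
    · have : Real.log (r / Real.pi) ≤ 0 := Real.log_nonpos hrp.le (by
        rw [div_le_one (by positivity)]; exact hr2)
      linarith
  · have e1 : (1 : ℂ) + ((0:ℝ) : ℂ) + ((-v : ℝ) : ℂ) * I = 2 - (1 + v * I) := by
      push_cast; ring
    have e2 : (1 : ℂ) + ((0:ℝ) : ℂ) + (v : ℂ) * I = 1 + v * I := by
      push_cast; ring
    have h1 := ZD.Lf_eq hq E (s := 1 + v * I) (by simp)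
    have h3 := ZD.Lf_eq hq E (s := 2 - (1 + v * I)) (by norm_num)
    rw [D.fe, ← h1] at h3
    unfold LfL fek_m
    rw [e1, e2]
    have hMc : (M : ℂ) ≠ 0 := by exact_mod_cast hMpos.ne'
    have e3 : (1 : ℂ) + I * v = 1 + v * I := by ring
    have e4 : (1 : ℂ) - I * v = 2 - (1 + v * I) := by ring
    have hGne : Gamma (2 - (1 + v * I)) ≠ 0 := Gamma_ne_zero_of_re_pos (by norm_num)
    have hMne : (M : ℂ) ^ (2 - (1 + v * I)) ≠ 0 := by
      rw [Complex.cpow_ne_zero_iff]; left; exact hMc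
    have e5 : (M : ℂ) ^ (1 + v * I) = (M : ℂ) ^ (2 - (1 + v * I)) *
        exp (I * v * (2 * Real.log q + (2 * Real.log M - 2 * Real.log q) : ℝ)) := by
      rw [Complex.cpow_def_of_ne_zero hMc, Complex.cpow_def_of_ne_zero hMc, ← Complex.exp_add,
        ← Complex.ofReal_log hMpos.le]
      congr 1
      push_cast
      ring
    rw [e3, e4]
    have h4 : (M : ℂ) ^ (2 - (1 + v * I)) * Gamma (2 - (1 + v * I)) * Lf q (2 - (1 + v * I)) =
        (M : ℂ) ^ (2 - (1 + v * I)) * Gamma (2 - (1 + v * I)) *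
        (w * exp (I * v * (2 * Real.log q + (2 * Real.log M - 2 * Real.log q) : ℝ)) *
          (Gamma (1 + v * I) * (Gamma (2 - (1 + v * I)))⁻¹) * Lf q (1 + v * I)) := by
      rw [h3, e5]
      field_simp
    exact mul_left_cancel₀ (mul_ne_zero hMne hGne) h4

/-! ### Integrals -/

lemma fek_gauss (a : ℝ) : ∫ r : ℝ, Real.exp (-((a - r) ^ 2 / 2)) * Real.exp (-(r ^ 2 / 2)) =
    √Real.pi * Real.exp (-(a ^ 2 / 4)) := by
  have e : ∀ r : ℝ, Real.exp (-((a - r) ^ 2 / 2)) * Real.exp (-(r ^ 2 / 2)) =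
      Real.exp (-(a ^ 2 / 4)) * Real.exp (-1 * (r - a / 2) ^ 2) := by
    intro r
    rw [← Real.exp_add, ← Real.exp_add]
    congr 1
    ring
  simp_rw [e]
  rw [MeasureTheory.integral_const_mul,
    integral_sub_right_eq_self (fun r : ℝ => Real.exp (-1 * r ^ 2)) (a / 2), integral_gaussian]
  rw [div_one]
  ring

lemma fek_cs {α : Type*} [MeasureSpace α] {f g : α → ℝ}
    (hf : AEStronglyMeasurable f) (hg : AEStronglyMeasurable g)
    (hf2 : Integrable (fun x => f x ^ 2)) (hg2 : Integrable (fun x => g x ^ 2)) :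
    Integrable (fun x => f x * g x) ∧
      (∫ x, f x * g x) ^ 2 ≤ (∫ x, f x ^ 2) * ∫ x, g x ^ 2 := by
  have hfg : Integrable (fun x => f x * g x) := by
    refine (hf2.add hg2).mono' (hf.mul hg) (Filter.Eventually.of_forall fun x => ?_)
    rw [Real.norm_eq_abs, abs_mul]
    simp only [Pi.add_apply]
    nlinarith [sq_nonneg (|f x| - |g x|), sq_abs (f x), sq_abs (g x), abs_nonneg (f x),
      abs_nonneg (g x)]
  refine ⟨hfg, ?_⟩
  have h1 : ∀ s : ℝ, 0 ≤ (∫ x, f x ^ 2) * (s * s) + (-2 * ∫ x, f x * g x) * s + ∫ x, g x ^ 2 := by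
    intro s
    have h2 : ∫ x, (s * f x - g x) ^ 2 = (∫ x, f x ^ 2) * (s * s) +
        (-2 * ∫ x, f x * g x) * s + ∫ x, g x ^ 2 := by
      have e : ∀ x, (s * f x - g x) ^ 2 = (s * s) * f x ^ 2 + (-2 * s) * (f x * g x) + g x ^ 2 :=
        fun x => by ring
      simp_rw [e]
      have i1 : Integrable (fun x => s * s * f x ^ 2) := hf2.const_mul _
      have i2 : Integrable (fun x => -2 * s * (f x * g x)) := hfg.const_mul _
      have i3 : Integrable (fun x => s * s * f x ^ 2 + -2 * s * (f x * g x)) := i1.add i2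
      rw [integral_add i3 hg2, integral_add i1 i2, MeasureTheory.integral_const_mul,
        MeasureTheory.integral_const_mul]
      ring
    rw [← h2]
    exact integral_nonneg fun x => sq_nonneg _
  have h3 := discrim_le_zero h1
  unfold discrim at h3
  nlinarith

lemma fek_wE_nonneg (y : ℝ) : 0 ≤ wE y := le_min (Real.exp_pos _).le (Real.exp_pos _).le

lemma fek_wE_cont : Continuous wE := by
  unfold wE
  fun_prop

lemma fek_wE_int : Integrable wE := by
  have h := wE_integrable (a := 0) le_rfl (by norm_num)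
  have := h.mul_const (1 / 2)
  refine this.congr (Filter.Eventually.of_forall fun y => ?_)
  simp only [zero_mul, Real.exp_zero]
  ring

/-- the transformed representation -/
lemma fek_repr {q : ℕ} (hq : Squarefree q) (x t : ℝ) {w : ℂ} {Y : ℝ} (hw : ‖w‖ = 1)
    (hfe : ∀ v : ℝ, LfL 0 q (-v) = w * exp (I * v * (Y : ℝ)) * fek_m v * LfL 0 q v)
    {k : ℝ → ℂ} (hk : Continuous k) (hki : Integrable k)
    (hker : ∀ v : ℝ, fek_m v * (Real.exp (-(1 / 4 * (v - (-t)) ^ 2)) : ℂ) =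
      ∫ y : ℝ, k y * exp (I * y * v)) :
    ‖BB q x t‖ ≤ (√Real.pi)⁻¹ * ∫ p : ℝ × ℝ, ‖k p.1‖ * Real.exp (-(p.2 ^ 2 / 2)) *
      ‖BB q (Y - x + p.1) (-t + p.2)‖ := by
  set F : ℝ → ℂ := LfL 0 q with hF
  have hFc : Continuous F := LfL_cont hq 0
  obtain ⟨K, hK, hKg⟩ := LfL_growth hq (κ := 1) one_pos
  set Z : ℝ := Y - x with hZ
  set H : ℝ → ℝ × ℝ → ℂ := fun v p => F v * exp (I * (v + t) * Z) * (k p.1 * exp (I * p.1 * v)) *
    ((Real.exp (-((v + t - p.2) ^ 2 / 2)) * Real.exp (-(p.2 ^ 2 / 2)) : ℝ) : ℂ) with hH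
  have hphase : ∀ a : ℝ, ‖exp (I * (a : ℂ))‖ = 1 := fun a => by
    rw [mul_comm, Complex.norm_exp_ofReal_mul_I]
  have hnH : ∀ v p, ‖H v p‖ = ‖F v‖ * ‖k p.1‖ *
      (Real.exp (-((v + t - p.2) ^ 2 / 2)) * Real.exp (-(p.2 ^ 2 / 2))) := by
    intro v p
    have e1 : exp (I * (v + t) * Z) = exp (I * ((v + t) * Z : ℝ)) := by push_cast; ring_nf
    have e2 : exp (I * p.1 * v) = exp (I * (p.1 * v : ℝ)) := by push_cast; ring_nf
    rw [hH]
    simp only
    rw [norm_mul, norm_mul, norm_mul, norm_mul, e1, e2, hphase, hphase, mul_one, mul_one,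
      Complex.norm_real, Real.norm_eq_abs, abs_of_nonneg (by positivity)]
  -- integrability
  have hHc : Continuous (fun z : ℝ × ℝ × ℝ => H z.1 z.2) := by
    rw [hH]
    fun_prop
  have hHi : Integrable (Function.uncurry H) (volume.prod volume) := by
    have h1 : Integrable (fun v : ℝ => K * Real.exp (6 + t ^ 2 / 6) * Real.exp (-(1 / 24) * v ^ 2)) :=
      (integrable_exp_neg_mul_sq (by norm_num)).const_mul _
    have h2 : Integrable (fun r : ℝ => Real.exp (-(1 / 4) * r ^ 2)) :=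
      integrable_exp_neg_mul_sq (by norm_num)
    have h3 : Integrable (fun p : ℝ × ℝ => ‖k p.1‖ * Real.exp (-(1 / 4) * p.2 ^ 2)) :=
      hki.norm.mul_prod h2
    have h4 := h1.mul_prod h3
    refine h4.mono' hHc.aestronglyMeasurable (Filter.Eventually.of_forall fun z => ?_)
    obtain ⟨v, y, r⟩ := z
    simp only [Function.uncurry_apply_pair]
    rw [hnH]
    have h5 : ‖F v‖ ≤ K * Real.exp (1 * |v|) := hKg 0 v le_rfl (by norm_num)
    have h6 : Real.exp (1 * |v|) * (Real.exp (-((v + t - r) ^ 2 / 2)) * Real.exp (-(r ^ 2 / 2))) ≤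
        Real.exp (6 + t ^ 2 / 6) * Real.exp (-(1 / 24) * v ^ 2) * Real.exp (-(1 / 4) * r ^ 2) := by
      rw [← Real.exp_add, ← Real.exp_add, ← Real.exp_add, ← Real.exp_add]
      apply Real.exp_le_exp.2
      have a1 : |v| ≤ v ^ 2 / 24 + 6 := by
        nlinarith [sq_nonneg (|v| - 12), sq_abs v]
      nlinarith [sq_nonneg (2 * (v + t) - 3 * r), sq_nonneg (v + 2 * t)]
    calc ‖F v‖ * ‖k y‖ * (Real.exp (-((v + t - r) ^ 2 / 2)) * Real.exp (-(r ^ 2 / 2)))
        ≤ (K * Real.exp (1 * |v|)) * ‖k y‖ *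
          (Real.exp (-((v + t - r) ^ 2 / 2)) * Real.exp (-(r ^ 2 / 2))) := by gcongr
      _ = K * ‖k y‖ * (Real.exp (1 * |v|) *
          (Real.exp (-((v + t - r) ^ 2 / 2)) * Real.exp (-(r ^ 2 / 2)))) := by ring
      _ ≤ K * ‖k y‖ * (Real.exp (6 + t ^ 2 / 6) * Real.exp (-(1 / 24) * v ^ 2) *
          Real.exp (-(1 / 4) * r ^ 2)) := by gcongr
      _ = _ := by ring
  -- inner integral over `p`
  have hp : ∀ v : ℝ, ∫ p : ℝ × ℝ, H v p = (√Real.pi : ℂ) *
      (F v * exp (I * (v + t) * Z) * fek_m v * (Real.exp (-((v + t) ^ 2 / 2)) : ℂ)) := by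
    intro v
    have e1 : ∀ p : ℝ × ℝ, H v p = (F v * exp (I * (v + t) * Z)) * ((k p.1 * exp (I * p.1 * v)) *
      ((Real.exp (-((v + t - p.2) ^ 2 / 2)) * Real.exp (-(p.2 ^ 2 / 2)) : ℝ) : ℂ)) := by
      intro p; rw [hH]; ring
    simp_rw [e1]
    rw [MeasureTheory.integral_const_mul]
    have e2 : ∫ p : ℝ × ℝ, (k p.1 * exp (I * p.1 * v)) *
      ((Real.exp (-((v + t - p.2) ^ 2 / 2)) * Real.exp (-(p.2 ^ 2 / 2)) : ℝ) : ℂ) =
      (∫ y : ℝ, k y * exp (I * y * v)) *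
      ∫ r : ℝ, ((Real.exp (-((v + t - r) ^ 2 / 2)) * Real.exp (-(r ^ 2 / 2)) : ℝ) : ℂ) :=
      integral_prod_mul (fun y : ℝ => k y * exp (I * y * v))
        (fun r : ℝ => ((Real.exp (-((v + t - r) ^ 2 / 2)) * Real.exp (-(r ^ 2 / 2)) : ℝ) : ℂ))
    rw [e2, ← hker, integral_complex_ofReal, fek_gauss]
    have e3 : Real.exp (-((v + t) ^ 2 / 2)) = Real.exp (-(1 / 4 * (v - -t) ^ 2)) *
        Real.exp (-((v + t) ^ 2 / 4)) := by
      rw [← Real.exp_add]; congr 1; ring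
    rw [e3]
    push_cast
    ring
  -- inner integral over `v`
  have hv : ∀ p : ℝ × ℝ, ‖∫ v : ℝ, H v p‖ ≤ ‖k p.1‖ * Real.exp (-(p.2 ^ 2 / 2)) *
      (√(2 * Real.pi) * ‖BB q (Z + p.1) (-t + p.2)‖) := by
    rintro ⟨y, r⟩
    simp only
    have e1 : ∀ v : ℝ, H v (y, r) = (k y * (Real.exp (-(r ^ 2 / 2)) : ℂ) *
        exp (I * (r * Z + r * y - t * y : ℝ))) * gI F (Z + y) (-t + r) v := by
      intro v
      rw [hH, gI]
      simp only
      have e2 : exp (I * (v + t) * Z) * exp (I * y * v) =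
          exp (I * (r * Z + r * y - t * y : ℝ)) * exp (I * (v - (-t + r : ℝ)) * (Z + y : ℝ)) := by
        rw [← Complex.exp_add, ← Complex.exp_add]
        congr 1
        push_cast
        ring
      have e3 : (v + t - r) ^ 2 = (v - (-t + r)) ^ 2 := by ring
      rw [e3]
      push_cast
      push_cast at e2
      calc _ = (F v * (k y) * (cexp (-((v - (-t + r)) ^ 2 / 2)) * cexp (-(r ^ 2 / 2)))) *
            (exp (I * (v + t) * Z) * exp (I * y * v)) := by ring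
        _ = _ := by rw [e2]; ring
    simp_rw [e1]
    rw [MeasureTheory.integral_const_mul, norm_mul, norm_mul, norm_mul, hphase, mul_one,
      Complex.norm_real, Real.norm_eq_abs, abs_of_pos (Real.exp_pos _)]
    have h2 := (BB_int hq (η := 0) le_rfl (by norm_num) (Z + y) (-t + r)).2
    have h3 : ‖∫ v : ℝ, gI F (Z + y) (-t + r) v‖ = √(2 * Real.pi) * ‖BB q (Z + y) (-t + r)‖ := by
      rw [h2]
      simp only [add_zero, zero_mul]
      rw [norm_mul, Complex.norm_real, Real.norm_eq_abs, abs_of_nonneg (by positivity)]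
      have hs : 0 < √(2 * Real.pi) := by positivity
      have : Real.exp (0 + 0 ^ 2 / 2) = 1 := by norm_num
      rw [this, ← mul_assoc, mul_one_div_cancel hs.ne', one_mul]
      rfl
    rw [h3]
  -- the block through `H`
  have h0 := (BB_int hq (η := 0) le_rfl (by norm_num) x t).2
  have e4 : ‖BB q x t‖ = (√(2 * Real.pi))⁻¹ * ‖∫ v : ℝ, gI F x t v‖ := by
    rw [h0]
    simp only [add_zero, zero_mul]
    rw [norm_mul, Complex.norm_real, Real.norm_eq_abs, abs_of_nonneg (by positivity)]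
    have : Real.exp (0 + 0 ^ 2 / 2) = 1 := by norm_num
    rw [this, one_div]
    rfl
  have e5 : ∫ v : ℝ, gI F x t v = (w * exp (-(I * t * Y)) * ((√Real.pi : ℝ) : ℂ)⁻¹) *
      ∫ v : ℝ, ∫ p : ℝ × ℝ, H v p := by
    rw [← integral_neg_eq_self (fun v : ℝ => gI F x t v) volume,
      ← MeasureTheory.integral_const_mul]
    congr 1
    funext v
    rw [hp, gI, hfe]
    have hpi : ((√Real.pi : ℝ) : ℂ) ≠ 0 := by
      have : √Real.pi ≠ 0 := by positivity
      exact_mod_cast this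
    have e6 : exp (I * v * (Y : ℝ)) * exp (I * ((-v : ℝ) - t) * x) =
        exp (-(I * t * Y)) * exp (I * (v + t) * Z) := by
      rw [← Complex.exp_add, ← Complex.exp_add]
      congr 1
      rw [hZ]
      push_cast
      ring
    have e7 : (-v - t) ^ 2 = (v + t) ^ 2 := by ring
    rw [e7]
    calc _ = (w * fek_m v * F v * (Real.exp (-((v + t) ^ 2 / 2)) : ℂ)) *
          (exp (I * v * (Y : ℝ)) * exp (I * ((-v : ℝ) - t) * x)) := by ring
      _ = (w * fek_m v * F v * (Real.exp (-((v + t) ^ 2 / 2)) : ℂ)) *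
          (exp (-(I * t * Y)) * exp (I * (v + t) * Z)) * (((√Real.pi : ℝ) : ℂ)⁻¹ *
            ((√Real.pi : ℝ) : ℂ)) := by rw [e6, inv_mul_cancel₀ hpi, mul_one]
      _ = _ := by ring
  have e8 : ∫ v : ℝ, ∫ p : ℝ × ℝ, H v p = ∫ p : ℝ × ℝ, ∫ v : ℝ, H v p :=
    integral_integral_swap hHi
  have e9 : ‖w * exp (-(I * t * Y)) * ((√Real.pi : ℝ) : ℂ)⁻¹‖ = (√Real.pi)⁻¹ := by
    have : exp (-(I * t * Y)) = exp (I * (-(t * Y) : ℝ)) := by push_cast; ring_nf
    rw [norm_mul, norm_mul, hw, this, hphase, norm_inv, Complex.norm_real, Real.norm_eq_abs,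
      abs_of_nonneg (by positivity), one_mul, one_mul]
  rw [e4, e5, norm_mul, e9, e8]
  have hs : 0 < √(2 * Real.pi) := by positivity
  have hint : Integrable (fun p : ℝ × ℝ => ‖k p.1‖ * Real.exp (-(p.2 ^ 2 / 2)) *
      (√(2 * Real.pi) * ‖BB q (Z + p.1) (-t + p.2)‖)) := by
    obtain ⟨K', hK', hB⟩ := BB_growth hq (κ := 1) one_pos
    have h2 : Integrable (fun r : ℝ => √(2 * Real.pi) * K' * Real.exp (|t| + 1) *
        Real.exp (-(1 / 4) * r ^ 2)) :=
      (integrable_exp_neg_mul_sq (by norm_num)).const_mul _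
    have h3 := hki.norm.mul_prod h2
    refine h3.mono' ?_ (Filter.Eventually.of_forall fun p => ?_)
    · have hBc := BB_cont q
      have hBc' : Continuous (fun p : ℝ × ℝ => BB q (Z + p.1) (-t + p.2)) :=
        hBc.comp (g := fun p : ℝ × ℝ => BB q p.1 p.2)
          (f := fun p : ℝ × ℝ => (Z + p.1, -t + p.2)) (by fun_prop)
      exact (((hk.comp continuous_fst).norm.mul (by fun_prop)).mul
        (continuous_const.mul hBc'.norm)).aestronglyMeasurable
    · rw [Real.norm_eq_abs, abs_of_nonneg (by positivity)]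
      have h5 := hB (Z + p.1) (-t + p.2)
      have h6 : Real.exp (-(p.2 ^ 2 / 2)) * Real.exp (1 * |-t + p.2|) ≤
          Real.exp (|t| + 1) * Real.exp (-(1 / 4) * p.2 ^ 2) := by
        rw [← Real.exp_add, ← Real.exp_add]
        apply Real.exp_le_exp.2
        have a1 : |-t + p.2| ≤ |t| + |p.2| := by
          refine (abs_add_le _ _).trans ?_
          rw [abs_neg]
        nlinarith [sq_nonneg (|p.2| - 2), sq_abs p.2]
      calc ‖k p.1‖ * Real.exp (-(p.2 ^ 2 / 2)) * (√(2 * Real.pi) * ‖BB q (Z + p.1) (-t + p.2)‖)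
          ≤ ‖k p.1‖ * Real.exp (-(p.2 ^ 2 / 2)) * (√(2 * Real.pi) *
            (K' * Real.exp (1 * |-t + p.2|))) := by gcongr
        _ = ‖k p.1‖ * (√(2 * Real.pi) * K') * (Real.exp (-(p.2 ^ 2 / 2)) *
            Real.exp (1 * |-t + p.2|)) := by ring
        _ ≤ ‖k p.1‖ * (√(2 * Real.pi) * K') * (Real.exp (|t| + 1) *
            Real.exp (-(1 / 4) * p.2 ^ 2)) := by gcongr
        _ = _ := by ring
  have h7 : ‖∫ p : ℝ × ℝ, ∫ v : ℝ, H v p‖ ≤ ∫ p : ℝ × ℝ, ‖k p.1‖ * Real.exp (-(p.2 ^ 2 / 2)) *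
      (√(2 * Real.pi) * ‖BB q (Z + p.1) (-t + p.2)‖) :=
    norm_integral_le_of_norm_le hint (Filter.Eventually.of_forall hv)
  have h8 : ∫ p : ℝ × ℝ, ‖k p.1‖ * Real.exp (-(p.2 ^ 2 / 2)) *
      (√(2 * Real.pi) * ‖BB q (Z + p.1) (-t + p.2)‖) = √(2 * Real.pi) *
      ∫ p : ℝ × ℝ, ‖k p.1‖ * Real.exp (-(p.2 ^ 2 / 2)) * ‖BB q (Z + p.1) (-t + p.2)‖ := by
    rw [← MeasureTheory.integral_const_mul]
    congr 1
    funext p
    ring
  rw [h8] at h7
  calc (√(2 * Real.pi))⁻¹ * ((√Real.pi)⁻¹ * ‖∫ p : ℝ × ℝ, ∫ v : ℝ, H v p‖)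
      ≤ (√(2 * Real.pi))⁻¹ * ((√Real.pi)⁻¹ * (√(2 * Real.pi) *
      ∫ p : ℝ × ℝ, ‖k p.1‖ * Real.exp (-(p.2 ^ 2 / 2)) * ‖BB q (Z + p.1) (-t + p.2)‖)) := by gcongr
    _ = _ := by field_simp

theorem FE_kernel (κ : ℝ) (hκ : 0 < κ) : ∃ C : ℝ, 0 < C ∧ ∀ (q : ℕ) (x t : ℝ), Squarefree q →
    Integrable (fun p : ℝ × ℝ => wE p.1 * Real.exp (-(p.2 ^ 2 / 8)) *
      ‖BB q (2 * Real.log q - x + p.1) (-t + p.2)‖ ^ 2) ∧
    ‖BB q x t‖ ^ 2 ≤ C * Real.exp (κ * |t|) * ∫ p : ℝ × ℝ, wE p.1 * Real.exp (-(p.2 ^ 2 / 8)) *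
      ‖BB q (2 * Real.log q - x + p.1) (-t + p.2)‖ ^ 2 := by
  obtain ⟨B, hB⟩ := fek_m_growth
  obtain ⟨C₁, hC₁⟩ := fek_m_boundary (β := κ / 2) (by positivity)
  obtain ⟨C', hC', hker⟩ := ker_H fek_m (fun z _ h2 => fek_m_diff h2) B (κ / 2) C₁ hB hC₁
    (1 / 4) (by norm_num)
  set A : ℝ := ∫ p : ℝ × ℝ, wE p.1 * Real.exp (-(7 / 8) * p.2 ^ 2) with hA
  have hA0 : 0 ≤ A := integral_nonneg fun p => mul_nonneg (fek_wE_nonneg _) (Real.exp_pos _).le
  refine ⟨C' ^ 2 * A * Real.exp 2 + 1, by positivity, fun q x t hq => ?_⟩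
  obtain ⟨K, hK, hBg⟩ := BB_growth hq (κ := 1) one_pos
  have hBc := BB_cont q
  -- integrability for every shift
  have hInt : ∀ Z : ℝ, Integrable (fun p : ℝ × ℝ => wE p.1 * Real.exp (-(p.2 ^ 2 / 8)) *
      ‖BB q (Z + p.1) (-t + p.2)‖ ^ 2) := by
    intro Z
    have hBc' : Continuous (fun p : ℝ × ℝ => BB q (Z + p.1) (-t + p.2)) :=
      hBc.comp (g := fun p : ℝ × ℝ => BB q p.1 p.2)
        (f := fun p : ℝ × ℝ => (Z + p.1, -t + p.2)) (by fun_prop)
    have h2 : Integrable (fun r : ℝ => K ^ 2 * Real.exp (2 * |t| + 16) *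
        Real.exp (-(1 / 16) * r ^ 2)) :=
      (integrable_exp_neg_mul_sq (by norm_num)).const_mul _
    have h3 := fek_wE_int.mul_prod h2
    refine h3.mono' ?_ (Filter.Eventually.of_forall fun p => ?_)
    · exact (((fek_wE_cont.comp continuous_fst).mul (by fun_prop)).mul
        (hBc'.norm.pow 2)).aestronglyMeasurable
    · have hw0 := fek_wE_nonneg p.1
      rw [Real.norm_eq_abs, abs_of_nonneg (by positivity)]
      have h5 := hBg (Z + p.1) (-t + p.2)
      have h6 : Real.exp (-(p.2 ^ 2 / 8)) * (Real.exp (1 * |-t + p.2|)) ^ 2 ≤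
          Real.exp (2 * |t| + 16) * Real.exp (-(1 / 16) * p.2 ^ 2) := by
        rw [← Real.exp_nat_mul, ← Real.exp_add, ← Real.exp_add]
        apply Real.exp_le_exp.2
        have a1 : |-t + p.2| ≤ |t| + |p.2| := by
          refine (abs_add_le _ _).trans ?_
          rw [abs_neg]
        push_cast
        nlinarith [sq_nonneg (|p.2| - 16), sq_abs p.2]
      calc wE p.1 * Real.exp (-(p.2 ^ 2 / 8)) * ‖BB q (Z + p.1) (-t + p.2)‖ ^ 2
          ≤ wE p.1 * Real.exp (-(p.2 ^ 2 / 8)) * (K * Real.exp (1 * |-t + p.2|)) ^ 2 := by gcongr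
        _ = wE p.1 * K ^ 2 * (Real.exp (-(p.2 ^ 2 / 8)) * (Real.exp (1 * |-t + p.2|)) ^ 2) := by ring
        _ ≤ wE p.1 * K ^ 2 * (Real.exp (2 * |t| + 16) * Real.exp (-(1 / 16) * p.2 ^ 2)) := by
            gcongr
        _ = _ := by ring
  refine ⟨hInt _, ?_⟩
  obtain ⟨w, u, hw, hu, hfe⟩ := fek_line hq
  obtain ⟨k, hkc, hkb, hk⟩ := hker (-t)
  have hki : Integrable k := by
    refine (fek_wE_int.const_mul (C' * Real.exp (κ / 2 * |-t|))).mono' hkc.aestronglyMeasurable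
      (Filter.Eventually.of_forall fun y => ?_)
    exact hkb y
  have hrepr := fek_repr hq x t hw hfe hkc hki hk
  set Z : ℝ := 2 * Real.log q + u - x with hZ
  have hBc' : Continuous (fun p : ℝ × ℝ => BB q (Z + p.1) (-t + p.2)) :=
    hBc.comp (g := fun p : ℝ × ℝ => BB q p.1 p.2)
      (f := fun p : ℝ × ℝ => (Z + p.1, -t + p.2)) (by fun_prop)
  -- Cauchy-Schwarz
  have e1 : ∀ p : ℝ × ℝ, (√(wE p.1) * Real.exp (-(7 / 16) * p.2 ^ 2)) ^ 2 =
      wE p.1 * Real.exp (-(7 / 8) * p.2 ^ 2) := by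
    intro p
    rw [mul_pow, Real.sq_sqrt (fek_wE_nonneg _), ← Real.exp_nat_mul]
    congr 2
    push_cast
    ring
  have e2 : ∀ p : ℝ × ℝ, (√(wE p.1) * Real.exp (-(1 / 16) * p.2 ^ 2) *
      ‖BB q (Z + p.1) (-t + p.2)‖) ^ 2 = wE p.1 * Real.exp (-(p.2 ^ 2 / 8)) *
      ‖BB q (Z + p.1) (-t + p.2)‖ ^ 2 := by
    intro p
    rw [mul_pow, mul_pow, Real.sq_sqrt (fek_wE_nonneg _), ← Real.exp_nat_mul]
    congr 3
    push_cast
    ring
  have e3 : ∀ p : ℝ × ℝ, (√(wE p.1) * Real.exp (-(7 / 16) * p.2 ^ 2)) *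
      (√(wE p.1) * Real.exp (-(1 / 16) * p.2 ^ 2) * ‖BB q (Z + p.1) (-t + p.2)‖) =
      wE p.1 * Real.exp (-(p.2 ^ 2 / 2)) * ‖BB q (Z + p.1) (-t + p.2)‖ := by
    intro p
    have a1 : √(wE p.1) * √(wE p.1) = wE p.1 := Real.mul_self_sqrt (fek_wE_nonneg _)
    have a2 : Real.exp (-(7 / 16) * p.2 ^ 2) * Real.exp (-(1 / 16) * p.2 ^ 2) =
        Real.exp (-(p.2 ^ 2 / 2)) := by
      rw [← Real.exp_add]; congr 1; ring
    calc _ = (√(wE p.1) * √(wE p.1)) * (Real.exp (-(7 / 16) * p.2 ^ 2) *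
          Real.exp (-(1 / 16) * p.2 ^ 2)) * ‖BB q (Z + p.1) (-t + p.2)‖ := by ring
      _ = _ := by rw [a1, a2]
  have hcs := fek_cs (α := ℝ × ℝ)
    (f := fun p => √(wE p.1) * Real.exp (-(7 / 16) * p.2 ^ 2))
    (g := fun p => √(wE p.1) * Real.exp (-(1 / 16) * p.2 ^ 2) * ‖BB q (Z + p.1) (-t + p.2)‖)
    ((((Real.continuous_sqrt.comp (fek_wE_cont.comp continuous_fst))).mul
      (by fun_prop)).aestronglyMeasurable)
    (((((Real.continuous_sqrt.comp (fek_wE_cont.comp continuous_fst))).mul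
      (by fun_prop)).mul hBc'.norm).aestronglyMeasurable)
    (by
      simp_rw [e1]
      exact fek_wE_int.mul_prod (integrable_exp_neg_mul_sq (by norm_num)))
    (by
      simp_rw [e2]
      exact hInt Z)
  simp_rw [e1, e2, e3] at hcs
  obtain ⟨hi1, hcs1⟩ := hcs
  rw [← hA] at hcs1
  set B1 : ℝ := ∫ p : ℝ × ℝ, wE p.1 * Real.exp (-(p.2 ^ 2 / 2)) *
    ‖BB q (Z + p.1) (-t + p.2)‖ with hB1
  have hB10 : 0 ≤ B1 := integral_nonneg fun p =>
    mul_nonneg (mul_nonneg (fek_wE_nonneg _) (Real.exp_pos _).le) (norm_nonneg _)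
  -- first bound
  have h1 : ‖BB q x t‖ ≤ C' * Real.exp (κ / 2 * |t|) * B1 := by
    refine hrepr.trans ?_
    have h2 : ∫ p : ℝ × ℝ, ‖k p.1‖ * Real.exp (-(p.2 ^ 2 / 2)) *
        ‖BB q (Z + p.1) (-t + p.2)‖ ≤ ∫ p : ℝ × ℝ, (C' * Real.exp (κ / 2 * |t|)) *
        (wE p.1 * Real.exp (-(p.2 ^ 2 / 2)) * ‖BB q (Z + p.1) (-t + p.2)‖) := by
      refine integral_mono_of_nonneg (Filter.Eventually.of_forall fun p => by positivity)
        (hi1.const_mul _) (Filter.Eventually.of_forall fun p => ?_)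
      have h3 := hkb p.1
      rw [abs_neg] at h3
      simp only
      calc ‖k p.1‖ * Real.exp (-(p.2 ^ 2 / 2)) * ‖BB q (Z + p.1) (-t + p.2)‖
          ≤ (C' * Real.exp (κ / 2 * |t|) * wE p.1) * Real.exp (-(p.2 ^ 2 / 2)) *
            ‖BB q (Z + p.1) (-t + p.2)‖ := by gcongr
        _ = _ := by ring
    rw [MeasureTheory.integral_const_mul, ← hB1] at h2
    have h4 : (√Real.pi)⁻¹ ≤ 1 := by
      apply inv_le_one_of_one_le₀
      rw [Real.one_le_sqrt]
      linarith [Real.pi_gt_three]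
    have h5 : 0 ≤ ∫ p : ℝ × ℝ, ‖k p.1‖ * Real.exp (-(p.2 ^ 2 / 2)) *
        ‖BB q (Z + p.1) (-t + p.2)‖ := integral_nonneg fun p => by positivity
    calc _ ≤ 1 * ∫ p : ℝ × ℝ, ‖k p.1‖ * Real.exp (-(p.2 ^ 2 / 2)) *
        ‖BB q (Z + p.1) (-t + p.2)‖ := by gcongr
      _ ≤ _ := by rw [one_mul]; exact h2
  -- translation
  have h6 : ∫ p : ℝ × ℝ, wE p.1 * Real.exp (-(p.2 ^ 2 / 8)) *
      ‖BB q (Z + p.1) (-t + p.2)‖ ^ 2 ≤ Real.exp 2 * ∫ p : ℝ × ℝ, wE p.1 *
      Real.exp (-(p.2 ^ 2 / 8)) * ‖BB q (2 * Real.log q - x + p.1) (-t + p.2)‖ ^ 2 := by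
    have h7 := integral_add_right_eq_self (μ := (volume : Measure (ℝ × ℝ)))
      (fun p : ℝ × ℝ => wE p.1 * Real.exp (-(p.2 ^ 2 / 8)) *
      ‖BB q (Z + p.1) (-t + p.2)‖ ^ 2) ((-u, 0) : ℝ × ℝ)
    rw [← h7, ← MeasureTheory.integral_const_mul]
    refine integral_mono_of_nonneg (Filter.Eventually.of_forall fun p => ?_)
      ((hInt _).const_mul _) (Filter.Eventually.of_forall fun p => ?_)
    · have := fek_wE_nonneg (p + (-u, 0)).1
      positivity
    · simp only [Prod.fst_add, Prod.snd_add, add_zero]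
      have e5 : Z + (p.1 + -u) = 2 * Real.log q - x + p.1 := by rw [hZ]; ring
      rw [e5]
      have h8 := wE_shift p.1 (-u)
      have h9 : Real.exp (2 * |-u|) ≤ Real.exp 2 := by
        apply Real.exp_le_exp.2
        rw [abs_neg]; linarith
      have h10 : wE (p.1 + -u) ≤ Real.exp 2 * wE p.1 := by
        refine h8.trans ?_
        have := fek_wE_nonneg p.1
        gcongr
      calc _ ≤ (Real.exp 2 * wE p.1) * Real.exp (-(p.2 ^ 2 / 8)) *
            ‖BB q (2 * Real.log q - x + p.1) (-t + p.2)‖ ^ 2 := by gcongr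
        _ = _ := by ring
  set J : ℝ := ∫ p : ℝ × ℝ, wE p.1 * Real.exp (-(p.2 ^ 2 / 8)) *
    ‖BB q (2 * Real.log q - x + p.1) (-t + p.2)‖ ^ 2 with hJ
  have hJ0 : 0 ≤ J := integral_nonneg fun p => by
    have := fek_wE_nonneg p.1
    positivity
  have e6 : Real.exp (κ / 2 * |t|) ^ 2 = Real.exp (κ * |t|) := by
    rw [← Real.exp_nat_mul]
    congr 1
    push_cast
    ring
  calc ‖BB q x t‖ ^ 2 ≤ (C' * Real.exp (κ / 2 * |t|) * B1) ^ 2 := by gcongr
    _ = C' ^ 2 * Real.exp (κ * |t|) * B1 ^ 2 := by rw [mul_pow, mul_pow, e6]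
    _ ≤ C' ^ 2 * Real.exp (κ * |t|) * (A * (Real.exp 2 * J)) := by
        gcongr
        exact hcs1.trans (by gcongr)
    _ = (C' ^ 2 * A * Real.exp 2) * Real.exp (κ * |t|) * J := by ring
    _ ≤ _ := by
        gcongr
        linarith

end Pool.Agent.CZ
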