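import Mathlib
import Pool.Agent.CZ.IDefs
import Pool.Agent.ZD.F
import Pool.Agent.ZD.R
import Pool.Agent.CZ.IBINT
import Pool.Agent.CZ.IKERH
import Pool.Agent.CZ.IFEK

/-!
# Critical zeros (MP_553913_nt), part (I): a priori bound
-/

set_option autoImplicit false

open Complex Finset MeasureTheory

namespace Pool.Agent.CZ

open Pool.Agent.H5 (c bd)
open Pool.Agent.ZD (S Lf gk eps MM tau)

/-- the constant of the Gaussian integral -/
noncomputable def apG : ℝ := ∫ v : ℝ, Real.exp (|v| / 8) * Real.exp (-(v ^ 2 / 2))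

theorem ap_int_gauss {a b : ℝ} (hb : 0 < b) :
    Integrable (fun v : ℝ => Real.exp (a * |v|) * Real.exp (-(b * v ^ 2))) := by
  -- `a |v| ≤ a² / (2 b) + b v² / 2`
  have h1 : Integrable (fun v : ℝ => Real.exp (a ^ 2 / (2 * b)) * Real.exp (-(b / 2) * v ^ 2)) :=
    (integrable_exp_neg_mul_sq (by positivity)).const_mul _
  refine h1.mono' (by fun_prop) (Filter.Eventually.of_forall fun v => ?_)
  rw [Real.norm_of_nonneg (by positivity), ← Real.exp_add, ← Real.exp_add]
  refine Real.exp_le_exp.mpr ?_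
  have h2 : 0 ≤ (a - b * |v|) ^ 2 / (2 * b) := by positivity
  have h3 : (a - b * |v|) ^ 2 / (2 * b) = a ^ 2 / (2 * b) - a * |v| + b / 2 * |v| ^ 2 := by
    field_simp
    ring
  rw [h3, sq_abs] at h2
  linarith

theorem apG_nonneg : 0 ≤ apG := integral_nonneg fun v => by positivity

/-- pointwise bound for the `L`-function -/
theorem ap_Lf_le {q : ℕ} (hq : Squarefree q) {a η : ℝ} (ha : 0 < a) (hη : 0 < η) (v : ℝ) :
    ‖LfL η q v‖ ≤ MM a η q * Real.exp (a * |v|) := by
  have h := le_ciSup (Pool.Agent.ZD.MM_bdd hq (a := a) (η := η) ha hη) v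
  have h2 : ‖Lf q (1 + η + v * I)‖ * Real.exp (-(a * |v|)) * Real.exp (a * |v|) ≤
      MM a η q * Real.exp (a * |v|) :=
    mul_le_mul_of_nonneg_right h (Real.exp_nonneg _)
  rw [mul_assoc, ← Real.exp_add, neg_add_cancel, Real.exp_zero, mul_one] at h2
  exact h2

theorem ap_MM_nonneg {q : ℕ} (hq : Squarefree q) {a η : ℝ} (ha : 0 < a) (hη : 0 < η) :
    0 ≤ MM a η q := by
  have h := ap_Lf_le hq ha hη 0
  simp only [abs_zero, mul_zero, Real.exp_zero, mul_one] at h
  exact (norm_nonneg _).trans h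

theorem ap_norm_gI (F : ℝ → ℂ) (x t v : ℝ) :
    ‖gI F x t v‖ = ‖F v‖ * Real.exp (-((v - t) ^ 2 / 2)) := by
  unfold gI
  rw [norm_mul, norm_mul, Complex.norm_real, Real.norm_of_nonneg (Real.exp_nonneg _)]
  have : ‖exp (I * (v - t) * x)‖ = 1 := by
    rw [Complex.norm_exp]
    have : (I * ((v : ℂ) - t) * x).re = 0 := by
      simp
    rw [this, Real.exp_zero]
  rw [this, mul_one]

theorem ap_Gt_le {q : ℕ} (hq : Squarefree q) {a η : ℝ} (ha : 0 < a) (ha8 : a ≤ 1 / 8)
    (hη : 0 < η) (x t : ℝ) : ‖Gt (LfL η q) x t‖ ≤ MM a η q * Real.exp (a * |t|) * apG := by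
  unfold Gt
  have hint : Integrable (fun v : ℝ => Real.exp (|v| / 8) * Real.exp (-(v ^ 2 / 2))) := by
    have := ap_int_gauss (a := 1 / 8) (b := 1 / 2) (by norm_num)
    refine this.congr (Filter.Eventually.of_forall fun v => ?_)
    simp only
    congr 2 <;> ring
  have hint' := (hint.comp_sub_right t).const_mul (MM a η q * Real.exp (a * |t|))
  have h0 := ap_MM_nonneg hq ha hη
  refine (norm_integral_le_of_norm_le hint' (Filter.Eventually.of_forall fun v => ?_)).trans ?_
  · rw [ap_norm_gI]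
    have h1 := ap_Lf_le hq ha hη v
    have h2 : Real.exp (a * |v|) ≤ Real.exp (a * |t|) * Real.exp (|v - t| / 8) := by
      rw [← Real.exp_add]
      refine Real.exp_le_exp.mpr ?_
      have h3 : |v| ≤ |t| + |v - t| := by
        have := abs_add_le t (v - t)
        simpa using this
      have h4 : a * |v - t| ≤ |v - t| / 8 := by
        have := mul_le_mul_of_nonneg_right ha8 (abs_nonneg (v - t))
        linarith
      nlinarith
    calc ‖LfL η q v‖ * Real.exp (-((v - t) ^ 2 / 2))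
        ≤ (MM a η q * Real.exp (a * |v|)) * Real.exp (-((v - t) ^ 2 / 2)) := by gcongr
      _ ≤ (MM a η q * (Real.exp (a * |t|) * Real.exp (|v - t| / 8))) *
          Real.exp (-((v - t) ^ 2 / 2)) := by gcongr
      _ = _ := by ring
  · rw [integral_const_mul, integral_sub_right_eq_self (fun v : ℝ =>
      Real.exp (|v| / 8) * Real.exp (-(v ^ 2 / 2))) t]
    exact le_of_eq rfl

theorem ap_BB_le {q : ℕ} (hq : Squarefree q) {a η : ℝ} (ha : 0 < a) (ha8 : a ≤ 1 / 8)
    (hη : 0 < η) (hη1 : η ≤ 1 / 2) (x t : ℝ) :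
    ‖BB q x t‖ ≤ 2 * apG * Real.exp (η * x) * (MM a η q * Real.exp (a * |t|)) := by
  rw [(BB_int hq hη.le (by linarith) x t).2, norm_mul, Complex.norm_real,
    Real.norm_of_nonneg (by positivity)]
  have h1 := ap_Gt_le hq ha ha8 hη (x + η) t
  have h0 := ap_MM_nonneg hq ha hη
  have h2 : Real.exp (η * x + η ^ 2 / 2) / Real.sqrt (2 * Real.pi) ≤ 2 * Real.exp (η * x) := by
    have h3 : 1 ≤ Real.sqrt (2 * Real.pi) := by
      rw [Real.one_le_sqrt]
      have := Real.pi_gt_three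
      linarith
    have h4 : Real.exp (η * x + η ^ 2 / 2) / Real.sqrt (2 * Real.pi) ≤
        Real.exp (η * x + η ^ 2 / 2) := div_le_self (Real.exp_nonneg _) h3
    have h5 : Real.exp (η * x + η ^ 2 / 2) ≤ 2 * Real.exp (η * x) := by
      rw [Real.exp_add, mul_comm]
      refine mul_le_mul_of_nonneg_right ?_ (Real.exp_nonneg _)
      have h6 : Real.exp (η ^ 2 / 2) ≤ Real.exp (1 / 2) := by
        refine Real.exp_le_exp.mpr ?_
        nlinarith
      have h7 : Real.exp (1 / 2) ≤ 2 := by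
        have h8 : Real.exp (1 / 2) ^ 2 = Real.exp 1 := by
          rw [← Real.exp_nat_mul]
          norm_num
        have h9 := Real.exp_one_lt_three
        nlinarith [Real.exp_nonneg (1 / 2 : ℝ)]
      exact h6.trans h7
    exact h4.trans h5
  calc Real.exp (η * x + η ^ 2 / 2) / Real.sqrt (2 * Real.pi) * ‖Gt (LfL η q) (x + η) t‖
      ≤ (2 * Real.exp (η * x)) * (MM a η q * Real.exp (a * |t|) * apG) := by
        gcongr
    _ = _ := by ring

/-- the bound for all `x`, for `q < 2 ^ J` -/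
theorem ap_BB_all (κ : ℝ) (hκ : 0 < κ) : ∃ (C a : ℝ), 0 < C ∧ 0 < a ∧ a ≤ 1 / 8 ∧
    ∀ (q J : ℕ) (x t : ℝ), Squarefree q → 1 ≤ J → q ≤ 2 ^ J →
      ‖BB q x t‖ ^ 2 ≤ C * (MM a (1 / (2 * J)) q) ^ 2 * Real.exp (κ * |t|) := by
  obtain ⟨C₁, hC₁, hFE⟩ := FE_kernel (κ / 2) (by positivity)
  set a : ℝ := min (κ / 4) (1 / 8) with ha
  have ha0 : 0 < a := lt_min (by positivity) (by norm_num)
  have ha8 : a ≤ 1 / 8 := min_le_right _ _
  have haκ : a ≤ κ / 4 := min_le_left _ _
  -- constants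
  set W : ℝ := ∫ y : ℝ, wE y * (1 + Real.exp (1 * y)) with hW
  set G₂ : ℝ := ∫ r : ℝ, Real.exp (1 / 4 * |r|) * Real.exp (-(1 / 8 * r ^ 2)) with hG₂
  have hwE : ∀ y, 0 ≤ wE y := fun y => le_min (Real.exp_nonneg _) (Real.exp_nonneg _)
  have hW0 : 0 ≤ W := integral_nonneg fun y => mul_nonneg (hwE y) (by positivity)
  have hG0 : 0 ≤ G₂ := integral_nonneg fun r => by positivity
  have hG := apG_nonneg
  refine ⟨(2 * apG) ^ 2 * 4 + C₁ * (2 * apG) ^ 2 * (W * G₂) + 1, a, by positivity, ha0, ha8, ?_⟩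
  intro q J x t hq hJ hqJ
  have hJ0 : (0 : ℝ) < J := by exact_mod_cast hJ
  have hJ1 : (1 : ℝ) ≤ J := by exact_mod_cast hJ
  set η : ℝ := 1 / (2 * J) with hη
  have hη0 : 0 < η := by positivity
  have hη1 : η ≤ 1 / 2 := by
    rw [hη, div_le_div_iff₀ (by positivity) (by norm_num)]; linarith
  set M := MM a η q with hM
  have hM0 : 0 ≤ M := ap_MM_nonneg hq ha0 hη0
  have hq0 : 0 < q := Nat.pos_of_ne_zero (fun h => by rw [h] at hq; exact not_squarefree_zero hq)
  have hq1 : (1 : ℝ) ≤ q := by exact_mod_cast hq0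
  have hsq : ∀ x t : ℝ, ‖BB q x t‖ ^ 2 ≤
      (2 * apG) ^ 2 * Real.exp (2 * (η * x)) * (M ^ 2 * Real.exp (2 * (a * |t|))) := by
    intro x t
    have h := ap_BB_le hq ha0 ha8 hη0 hη1 x t
    have h2 := pow_le_pow_left₀ (norm_nonneg _) h 2
    refine h2.trans (le_of_eq ?_)
    have e1 : Real.exp (2 * (η * x)) = Real.exp (η * x) ^ 2 := by
      rw [← Real.exp_nat_mul]; norm_num
    have e2 : Real.exp (2 * (a * |t|)) = Real.exp (a * |t|) ^ 2 := by
      rw [← Real.exp_nat_mul]; norm_num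
    rw [e1, e2]
    ring
  rcases le_or_gt x (2 * Real.log q) with hx | hx
  · have h1 : Real.exp (2 * (η * x)) ≤ 4 := by
      have h2 : η * x ≤ Real.log 2 := by
        have h3 : Real.log q ≤ J * Real.log 2 := by
          have : (q : ℝ) ≤ 2 ^ J := by exact_mod_cast hqJ
          have h4 := Real.log_le_log (by linarith) this
          rwa [Real.log_pow] at h4
        calc η * x ≤ η * (2 * (J * Real.log 2)) := by
              refine mul_le_mul_of_nonneg_left ?_ hη0.le
              linarith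
          _ = Real.log 2 := by
              rw [hη]; field_simp
      calc Real.exp (2 * (η * x)) ≤ Real.exp (2 * Real.log 2) := Real.exp_le_exp.mpr (by linarith)
        _ = 4 := by
            rw [show (2 : ℝ) * Real.log 2 = Real.log 2 + Real.log 2 by ring, Real.exp_add,
              Real.exp_log (by norm_num)]
            norm_num
    have h5 : Real.exp (2 * (a * |t|)) ≤ Real.exp (κ * |t|) := by
      refine Real.exp_le_exp.mpr ?_
      nlinarith [abs_nonneg t]
    calc ‖BB q x t‖ ^ 2 ≤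
        (2 * apG) ^ 2 * Real.exp (2 * (η * x)) * (M ^ 2 * Real.exp (2 * (a * |t|))) := hsq x t
      _ ≤ (2 * apG) ^ 2 * 4 * (M ^ 2 * Real.exp (κ * |t|)) := by gcongr
      _ ≤ ((2 * apG) ^ 2 * 4 + C₁ * (2 * apG) ^ 2 * (W * G₂) + 1) *
          (M ^ 2 * Real.exp (κ * |t|)) := by
        refine mul_le_mul_of_nonneg_right ?_ (by positivity)
        have : 0 ≤ C₁ * (2 * apG) ^ 2 * (W * G₂) := by positivity
        linarith
      _ = _ := by ring
  · obtain ⟨hI, hle⟩ := hFE q x t hq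
    have hWi := wE_integrable (a := 1) (by norm_num) (by norm_num)
    have hGi := ap_int_gauss (a := 1 / 4) (b := 1 / 8) (by norm_num)
    have hprod := hWi.mul_prod hGi
    have hbound : ∀ p : ℝ × ℝ, wE p.1 * Real.exp (-(p.2 ^ 2 / 8)) *
        ‖BB q (2 * Real.log q - x + p.1) (-t + p.2)‖ ^ 2 ≤
        ((2 * apG) ^ 2 * M ^ 2 * Real.exp (κ / 2 * |t|)) *
          ((wE p.1 * (1 + Real.exp (1 * p.1))) *
            (Real.exp (1 / 4 * |p.2|) * Real.exp (-(1 / 8 * p.2 ^ 2)))) := by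
      intro p
      have h1 := hsq (2 * Real.log q - x + p.1) (-t + p.2)
      have h2 : Real.exp (2 * (η * (2 * Real.log q - x + p.1))) ≤ 1 + Real.exp (1 * p.1) := by
        have h3 : η * (2 * Real.log q - x + p.1) ≤ η * p.1 :=
          mul_le_mul_of_nonneg_left (by linarith) hη0.le
        rcases le_or_gt 0 p.1 with hp | hp
        · have h4 : 2 * (η * (2 * Real.log q - x + p.1)) ≤ 1 * p.1 := by nlinarith
          have := Real.exp_le_exp.mpr h4
          linarith
        · have h4 : 2 * (η * (2 * Real.log q - x + p.1)) ≤ 0 := by nlinarith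
          have := Real.exp_le_one_iff.mpr h4
          have := Real.exp_nonneg (1 * p.1)
          linarith
      have h5 : Real.exp (2 * (a * |(-t + p.2)|)) ≤
          Real.exp (κ / 2 * |t|) * Real.exp (1 / 4 * |p.2|) := by
        rw [← Real.exp_add]
        refine Real.exp_le_exp.mpr ?_
        have h6 : |(-t + p.2)| ≤ |t| + |p.2| := by
          have := abs_add_le (-t) p.2
          rwa [abs_neg] at this
        have h7 : 2 * (a * |(-t + p.2)|) ≤ 2 * (a * |t|) + 2 * (a * |p.2|) := by nlinarith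
        have h8 : 2 * (a * |t|) ≤ κ / 2 * |t| := by nlinarith [abs_nonneg t]
        have h9 : 2 * (a * |p.2|) ≤ 1 / 4 * |p.2| := by nlinarith [abs_nonneg p.2]
        linarith
      have h6 : Real.exp (-(p.2 ^ 2 / 8)) = Real.exp (-(1 / 8 * p.2 ^ 2)) := by
        congr 1; ring
      rw [h6]
      calc wE p.1 * Real.exp (-(1 / 8 * p.2 ^ 2)) *
            ‖BB q (2 * Real.log q - x + p.1) (-t + p.2)‖ ^ 2
          ≤ wE p.1 * Real.exp (-(1 / 8 * p.2 ^ 2)) *
            ((2 * apG) ^ 2 * (1 + Real.exp (1 * p.1)) *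
              (M ^ 2 * (Real.exp (κ / 2 * |t|) * Real.exp (1 / 4 * |p.2|)))) := by
            refine mul_le_mul_of_nonneg_left ?_ (mul_nonneg (hwE _) (Real.exp_nonneg _))
            refine h1.trans ?_
            gcongr
        _ = _ := by ring
    have hint : ∫ p : ℝ × ℝ, wE p.1 * Real.exp (-(p.2 ^ 2 / 8)) *
        ‖BB q (2 * Real.log q - x + p.1) (-t + p.2)‖ ^ 2 ≤
        ((2 * apG) ^ 2 * M ^ 2 * Real.exp (κ / 2 * |t|)) * (W * G₂) := by
      refine (integral_mono hI (hprod.const_mul _) hbound).trans (le_of_eq ?_)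
      rw [integral_const_mul]
      congr 1
      rw [hW, hG₂]
      exact integral_prod_mul (fun y : ℝ => wE y * (1 + Real.exp (1 * y)))
        (fun r : ℝ => Real.exp (1 / 4 * |r|) * Real.exp (-(1 / 8 * r ^ 2)))
    have hee : Real.exp (κ / 2 * |t|) * Real.exp (κ / 2 * |t|) = Real.exp (κ * |t|) := by
      rw [← Real.exp_add]
      congr 1; ring
    calc ‖BB q x t‖ ^ 2 ≤ C₁ * Real.exp (κ / 2 * |t|) *
          (((2 * apG) ^ 2 * M ^ 2 * Real.exp (κ / 2 * |t|)) * (W * G₂)) := by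
          refine hle.trans ?_
          refine mul_le_mul_of_nonneg_left hint (by positivity)
      _ = (C₁ * (2 * apG) ^ 2 * (W * G₂)) * (M ^ 2 * Real.exp (κ * |t|)) := by
          rw [← hee]; ring
      _ ≤ ((2 * apG) ^ 2 * 4 + C₁ * (2 * apG) ^ 2 * (W * G₂) + 1) *
          (M ^ 2 * Real.exp (κ * |t|)) := by
        refine mul_le_mul_of_nonneg_right ?_ (by positivity)
        have : 0 ≤ (2 * apG) ^ 2 * 4 := by positivity
        linarith
      _ = _ := by ring

theorem I_apriori : ∃ A : ℕ, HypE A := by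
  obtain ⟨A, hA⟩ := Pool.Agent.ZD.R_main
  refine ⟨A, ?_⟩
  intro κ hκ
  obtain ⟨C, a, hC, ha0, ha8, hB⟩ := ap_BB_all κ hκ
  refine ⟨C * ((A * 3 / a) ^ A * 2) + 1, by positivity, ?_⟩
  intro X x t hX
  set n : ℕ := ⌊X⌋₊ with hn
  have hn3 : 3 ≤ n := Nat.le_floor (by exact_mod_cast hX)
  have hnX : (n : ℝ) ≤ X := Nat.floor_le (by linarith)
  set J : ℕ := Nat.clog 2 n with hJdef
  have hJ1 : 1 ≤ J := by
    have := Nat.clog_pos (b := 2) (by norm_num) (show 2 ≤ n by omega)
    omega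
  have hnJ : n ≤ 2 ^ J := Nat.le_pow_clog (by norm_num) n
  have hJn : 2 ^ (J - 1) < n := Nat.pow_pred_clog_lt_self (by norm_num) (by omega)
  have hJX : (2 : ℝ) ^ (J - 1) ≤ X := by
    have : ((2 ^ (J - 1) : ℕ) : ℝ) < n := by exact_mod_cast hJn
    push_cast at this
    linarith
  have h2J : (2 : ℝ) ^ J ≤ 2 * X := by
    have : (2 : ℝ) ^ J = 2 * 2 ^ (J - 1) := by
      rw [← pow_succ']
      congr 1
      omega
    rw [this]
    linarith
  have hlog1 : 1 ≤ Real.log X := by
    rw [Real.le_log_iff_exp_le (by linarith)]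
    linarith [Real.exp_one_lt_three]
  have hJlog : (J : ℝ) ≤ 3 * Real.log X := by
    have h1 := Real.log_le_log (by positivity) hJX
    rw [Real.log_pow] at h1
    have h2 : ((J - 1 : ℕ) : ℝ) = J - 1 := by
      rw [Nat.cast_sub hJ1]; simp
    rw [h2] at h1
    have h3 := Real.log_two_gt_d9
    have h4 : (0 : ℝ) ≤ (J : ℝ) - 1 := by
      have : (1 : ℝ) ≤ J := by exact_mod_cast hJ1
      linarith
    nlinarith
  have hsub : sqf X ⊆ (Finset.Icc 1 (2 ^ J)).filter Squarefree := by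
    intro q hq
    unfold sqf at hq
    rw [Finset.mem_filter, Finset.mem_Icc] at hq ⊢
    exact ⟨⟨hq.1.1, hq.1.2.trans hnJ⟩, hq.2⟩
  have hsum := hA J a hJ1 ha0 ha8
  calc ∑ q ∈ sqf X, ‖BB q x t‖ ^ 2
      ≤ ∑ q ∈ sqf X, C * (MM a (1 / (2 * J)) q) ^ 2 * Real.exp (κ * |t|) := by
        refine Finset.sum_le_sum fun q hq => ?_
        have hq' := hsub hq
        rw [Finset.mem_filter, Finset.mem_Icc] at hq'
        exact hB q J x t hq'.2 hJ1 hq'.1.2
    _ ≤ ∑ q ∈ (Finset.Icc 1 (2 ^ J)).filter Squarefree,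
          C * (MM a (1 / (2 * J)) q) ^ 2 * Real.exp (κ * |t|) := by
        refine Finset.sum_le_sum_of_subset_of_nonneg hsub fun q _ _ => by positivity
    _ = C * (∑ q ∈ (Finset.Icc 1 (2 ^ J)).filter Squarefree, (MM a (1 / (2 * J)) q) ^ 2) *
          Real.exp (κ * |t|) := by
        rw [Finset.mul_sum, Finset.sum_mul]
    _ ≤ C * ((A * J / a) ^ A * 2 ^ J) * Real.exp (κ * |t|) := by gcongr
    _ ≤ C * ((A * (3 * Real.log X) / a) ^ A * (2 * X)) * Real.exp (κ * |t|) := by gcongr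
    _ = (C * ((A * 3 / a) ^ A * 2)) * X * (Real.log X) ^ (A : ℝ) * Real.exp (κ * |t|) := by
        rw [Real.rpow_natCast]
        have : (A * (3 * Real.log X) / a) ^ A = (A * 3 / a) ^ A * (Real.log X) ^ A := by
          rw [← mul_pow]
          congr 1
          ring
        rw [this]
        ring
    _ ≤ (C * ((A * 3 / a) ^ A * 2) + 1) * X * (Real.log X) ^ (A : ℝ) * Real.exp (κ * |t|) := by
        gcongr
        linarith

end Pool.Agent.CZ
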