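import Mathlib
import Pool.Agent.CZ.IDefs
import Pool.Agent.CZ.IBINT
import Pool.Agent.CZ.IFEK
import Pool.Agent.CZ.IKERH

/-!
# Critical zeros (MP_553913_nt), part (I): from `HypL` to `HypE`
-/

set_option autoImplicit false

open Complex Finset MeasureTheory

namespace Pool.Agent.CZ

open Pool.Agent.H5 (c bd)
open Pool.Agent.ZD (S Lf gk eps MM tau)
open Pool.Agent.CZ.Inp (lam A2 R1)

/-- the numbers of the top dyadic block -/
noncomputable def fesB (X : ℝ) : Finset ℕ := (sqf X).filter (fun q => X / 2 < (q : ℝ))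

theorem fes_mem {X : ℝ} {q : ℕ} (hq : q ∈ fesB X) : Squarefree q ∧ X / 2 < (q : ℝ) ∧ (q : ℝ) ≤ X ∧
    1 ≤ q := by
  rw [fesB, Finset.mem_filter, sqf, Finset.mem_filter, Finset.mem_Icc] at hq
  exact ⟨hq.1.2, hq.2, (Nat.le_floor_iff' (by omega)).mp hq.1.1.2, hq.1.1.1⟩

/-- one block -/
theorem fes_block {a : ℝ} (ha : 0 ≤ a) (h : HypL a) (κ : ℝ) (hκ : 0 < κ) : ∃ B : ℝ, 0 < B ∧
    ∀ X x t : ℝ, 3 ≤ X → Real.log X < x →
      ∑ q ∈ fesB X, ‖BB q x t‖ ^ 2 ≤ B * X * (Real.log X) ^ a * Real.exp (κ * |t|) := by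
  obtain ⟨C₁, hC₁, hF⟩ := FE_kernel (κ / 2) (by positivity)
  obtain ⟨C₂, hC₂, hL⟩ := h (κ / 2) (by positivity)
  set W : ℝ := ∫ y : ℝ, wE y * (1 + Real.exp (3 / 2 * y)) with hW
  have hWi : Integrable (fun y : ℝ => wE y * (1 + Real.exp (3 / 2 * y))) :=
    wE_integrable (by norm_num) (by norm_num)
  set G : ℝ := ∫ r : ℝ, Real.exp (-(1 / 16) * r ^ 2) with hG
  have hGi : Integrable (fun r : ℝ => Real.exp (-(1 / 16) * r ^ 2)) :=
    integrable_exp_neg_mul_sq (by norm_num)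
  have hW0 : 0 ≤ W := integral_nonneg fun y => mul_nonneg (wE_pos y).le (by positivity)
  have hG0 : 0 ≤ G := integral_nonneg fun y => (Real.exp_pos _).le
  refine ⟨C₁ * (16 * (C₂ * Real.exp (4 * (κ / 2) ^ 2) * (W * G))) + 1, by positivity,
    fun X x t hX hx => ?_⟩
  have hX0 : 0 < X := by linarith
  have hlog : 0 ≤ Real.log X := Real.log_nonneg (by linarith)
  -- integrability of the unshifted integrand
  have hint : ∀ q ∈ fesB X, Integrable (fun p : ℝ × ℝ => wE p.1 * Real.exp (-(p.2 ^ 2 / 8)) *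
      ‖BB q (2 * Real.log X - x + p.1) (-t + p.2)‖ ^ 2) := by
    intro q hq
    have := (hF q (x + 2 * Real.log q - 2 * Real.log X) t (fes_mem hq).1).1
    have e : 2 * Real.log q - (x + 2 * Real.log q - 2 * Real.log X) = 2 * Real.log X - x := by ring
    rwa [e] at this
  have hone : ∀ q ∈ fesB X, ‖BB q x t‖ ^ 2 ≤ C₁ * Real.exp (κ / 2 * |t|) *
      (16 * ∫ p : ℝ × ℝ, wE p.1 * Real.exp (-(p.2 ^ 2 / 8)) *
        ‖BB q (2 * Real.log X - x + p.1) (-t + p.2)‖ ^ 2) := by
    intro q hq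
    obtain ⟨hsq, hq1, hq2, hq3⟩ := fes_mem hq
    have hq0 : (0 : ℝ) < q := by exact_mod_cast hq3
    obtain ⟨hi, hb⟩ := hF q x t hsq
    set u : ℝ := 2 * Real.log X - 2 * Real.log q with hu
    have hu0 : 0 ≤ u := by
      have := Real.log_le_log hq0 hq2
      linarith
    have hu1 : u ≤ 2 * Real.log 2 := by
      have : Real.log X ≤ Real.log (2 * q) := Real.log_le_log hX0 (by linarith)
      rw [Real.log_mul (by norm_num) hq0.ne'] at this
      linarith
    refine hb.trans (mul_le_mul_of_nonneg_left ?_ (by positivity))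
    have hshift := integral_add_right_eq_self (μ := (volume : Measure (ℝ × ℝ)))
      (fun p : ℝ × ℝ => wE p.1 * Real.exp (-(p.2 ^ 2 / 8)) *
        ‖BB q (2 * Real.log q - x + p.1) (-t + p.2)‖ ^ 2) ((u, 0) : ℝ × ℝ)
    rw [← hshift, ← integral_const_mul]
    refine integral_mono (hi.comp_add_right ((u, 0) : ℝ × ℝ)) ((hint q hq).const_mul 16) fun p => ?_
    simp only [Prod.fst_add, Prod.snd_add, add_zero]
    have e : 2 * Real.log q - x + (p.1 + u) = 2 * Real.log X - x + p.1 := by rw [hu]; ring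
    rw [e]
    have hw : wE (p.1 + u) ≤ 16 * wE p.1 := by
      refine (wE_shift p.1 u).trans (mul_le_mul_of_nonneg_right ?_ (wE_pos _).le)
      rw [abs_of_nonneg hu0]
      calc Real.exp (2 * u) ≤ Real.exp (Real.log 16) := by
            refine Real.exp_le_exp.mpr ?_
            have : Real.log 16 = 4 * Real.log 2 := by
              rw [show (16 : ℝ) = 2 ^ 4 by norm_num, Real.log_pow]; norm_num
            linarith
        _ = 16 := Real.exp_log (by norm_num)
    calc wE (p.1 + u) * Real.exp (-(p.2 ^ 2 / 8)) *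
          ‖BB q (2 * Real.log X - x + p.1) (-t + p.2)‖ ^ 2
        ≤ (16 * wE p.1) * Real.exp (-(p.2 ^ 2 / 8)) *
          ‖BB q (2 * Real.log X - x + p.1) (-t + p.2)‖ ^ 2 := by
          gcongr
      _ = _ := by ring
  -- the sum inside the integral
  have hsub : fesB X ⊆ sqf X := Finset.filter_subset _ _
  have hsum : ∫ p : ℝ × ℝ, ∑ q ∈ fesB X, wE p.1 * Real.exp (-(p.2 ^ 2 / 8)) *
      ‖BB q (2 * Real.log X - x + p.1) (-t + p.2)‖ ^ 2 ≤
      C₂ * Real.exp (4 * (κ / 2) ^ 2) * X * (Real.log X) ^ a * Real.exp (κ / 2 * |t|) * (W * G) := by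
    have hgi : Integrable (fun p : ℝ × ℝ => (wE p.1 * (1 + Real.exp (3 / 2 * p.1))) *
        Real.exp (-(1 / 16) * p.2 ^ 2)) := hWi.mul_prod hGi
    have hval : ∫ p : ℝ × ℝ, (wE p.1 * (1 + Real.exp (3 / 2 * p.1))) *
        Real.exp (-(1 / 16) * p.2 ^ 2) = W * G := by
      rw [hW, hG]
      exact integral_prod_mul (fun y : ℝ => wE y * (1 + Real.exp (3 / 2 * y)))
        (fun r : ℝ => Real.exp (-(1 / 16) * r ^ 2))
    rw [← hval, ← integral_const_mul]
    refine integral_mono (integrable_finsetSum _ fun q hq => hint q hq) (hgi.const_mul _)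
      fun p => ?_
    simp only
    rw [← Finset.mul_sum]
    have h1 : ∑ q ∈ fesB X, ‖BB q (2 * Real.log X - x + p.1) (-t + p.2)‖ ^ 2 ≤
        C₂ * (X * (1 + Real.exp (3 / 2 * p.1))) * (Real.log X) ^ a *
          (Real.exp (κ / 2 * |t|) * Real.exp (κ / 2 * |p.2|)) := by
      refine (Finset.sum_le_sum_of_subset_of_nonneg hsub fun _ _ _ => sq_nonneg _).trans
        ((hL X (2 * Real.log X - x + p.1) (-t + p.2) hX).trans ?_)
      have h2 : Real.exp (3 / 2 * (2 * Real.log X - x + p.1)) / Real.sqrt X ≤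
          X * Real.exp (3 / 2 * p.1) := by
        rw [div_le_iff₀ (Real.sqrt_pos.mpr hX0)]
        have h3 : X * Real.sqrt X = Real.exp (3 / 2 * Real.log X) := by
          rw [Real.sqrt_eq_rpow, Real.rpow_def_of_pos hX0]
          nth_rewrite 1 [← Real.exp_log hX0]
          rw [← Real.exp_add]
          congr 1
          ring
        calc Real.exp (3 / 2 * (2 * Real.log X - x + p.1))
            ≤ Real.exp (3 / 2 * Real.log X + 3 / 2 * p.1) := Real.exp_le_exp.mpr (by linarith)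
          _ = X * Real.sqrt X * Real.exp (3 / 2 * p.1) := by rw [h3, Real.exp_add]
          _ = _ := by ring
      have h4 : Real.exp (κ / 2 * |-t + p.2|) ≤ Real.exp (κ / 2 * |t|) * Real.exp (κ / 2 * |p.2|) := by
        rw [← Real.exp_add]
        refine Real.exp_le_exp.mpr ?_
        have : |-t + p.2| ≤ |t| + |p.2| := by
          have := abs_add_le (-t) p.2
          rwa [abs_neg] at this
        nlinarith
      have h5 : X + Real.exp (3 / 2 * (2 * Real.log X - x + p.1)) / Real.sqrt X ≤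
          X * (1 + Real.exp (3 / 2 * p.1)) := by nlinarith
      gcongr
    have h6 : Real.exp (-(p.2 ^ 2 / 8)) * Real.exp (κ / 2 * |p.2|) ≤
        Real.exp (4 * (κ / 2) ^ 2) * Real.exp (-(1 / 16) * p.2 ^ 2) := by
      rw [← Real.exp_add, ← Real.exp_add]
      refine Real.exp_le_exp.mpr ?_
      nlinarith [sq_nonneg (|p.2| / 4 - 2 * (κ / 2)), sq_abs p.2]
    calc wE p.1 * Real.exp (-(p.2 ^ 2 / 8)) *
          ∑ q ∈ fesB X, ‖BB q (2 * Real.log X - x + p.1) (-t + p.2)‖ ^ 2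
        ≤ wE p.1 * Real.exp (-(p.2 ^ 2 / 8)) * (C₂ * (X * (1 + Real.exp (3 / 2 * p.1))) *
          (Real.log X) ^ a * (Real.exp (κ / 2 * |t|) * Real.exp (κ / 2 * |p.2|))) :=
          mul_le_mul_of_nonneg_left h1 (mul_nonneg (wE_pos _).le (Real.exp_pos _).le)
      _ = C₂ * X * (Real.log X) ^ a * Real.exp (κ / 2 * |t|) *
          (wE p.1 * (1 + Real.exp (3 / 2 * p.1))) *
          (Real.exp (-(p.2 ^ 2 / 8)) * Real.exp (κ / 2 * |p.2|)) := by ring
      _ ≤ C₂ * X * (Real.log X) ^ a * Real.exp (κ / 2 * |t|) *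
          (wE p.1 * (1 + Real.exp (3 / 2 * p.1))) *
          (Real.exp (4 * (κ / 2) ^ 2) * Real.exp (-(1 / 16) * p.2 ^ 2)) := by
          refine mul_le_mul_of_nonneg_left h6 ?_
          have := (wE_pos p.1).le
          positivity
      _ = _ := by ring
  calc ∑ q ∈ fesB X, ‖BB q x t‖ ^ 2
      ≤ ∑ q ∈ fesB X, C₁ * Real.exp (κ / 2 * |t|) *
        (16 * ∫ p : ℝ × ℝ, wE p.1 * Real.exp (-(p.2 ^ 2 / 8)) *
          ‖BB q (2 * Real.log X - x + p.1) (-t + p.2)‖ ^ 2) := Finset.sum_le_sum hone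
    _ = C₁ * Real.exp (κ / 2 * |t|) * (16 * ∫ p : ℝ × ℝ, ∑ q ∈ fesB X,
        wE p.1 * Real.exp (-(p.2 ^ 2 / 8)) *
          ‖BB q (2 * Real.log X - x + p.1) (-t + p.2)‖ ^ 2) := by
        rw [← Finset.mul_sum, ← Finset.mul_sum, integral_finsetSum _ fun q hq => hint q hq]
    _ ≤ C₁ * Real.exp (κ / 2 * |t|) * (16 * (C₂ * Real.exp (4 * (κ / 2) ^ 2) * X *
        (Real.log X) ^ a * Real.exp (κ / 2 * |t|) * (W * G))) := by
        refine mul_le_mul_of_nonneg_left (mul_le_mul_of_nonneg_left hsum (by norm_num)) ?_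
        positivity
    _ = (C₁ * (16 * (C₂ * Real.exp (4 * (κ / 2) ^ 2) * (W * G)))) * X * (Real.log X) ^ a *
        (Real.exp (κ / 2 * |t|) * Real.exp (κ / 2 * |t|)) := by ring
    _ = (C₁ * (16 * (C₂ * Real.exp (4 * (κ / 2) ^ 2) * (W * G)))) * X * (Real.log X) ^ a *
        Real.exp (κ * |t|) := by
        rw [← Real.exp_add]
        congr 2
        ring
    _ ≤ _ := by
        have h7 : 0 ≤ X * (Real.log X) ^ a * Real.exp (κ * |t|) := by positivity
        nlinarith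

/-- small moduli -/
theorem fes_small (κ : ℝ) (hκ : 0 < κ) : ∃ K : ℝ, 0 < K ∧ ∀ x t : ℝ,
    ∑ q ∈ sqf 3, ‖BB q x t‖ ^ 2 ≤ K * Real.exp (κ * |t|) := by
  have h : ∀ q ∈ sqf 3, ∃ K : ℝ, 0 < K ∧ ∀ x t : ℝ, ‖BB q x t‖ ^ 2 ≤ K * Real.exp (κ * |t|) := by
    intro q hq
    obtain ⟨K, hK, hb⟩ := BB_growth (Finset.mem_filter.mp hq).2 (κ := κ / 2) (by positivity)
    refine ⟨K ^ 2, by positivity, fun x t => ?_⟩
    calc ‖BB q x t‖ ^ 2 ≤ (K * Real.exp (κ / 2 * |t|)) ^ 2 :=
          pow_le_pow_left₀ (norm_nonneg _) (hb x t) 2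
      _ = K ^ 2 * Real.exp (κ * |t|) := by
          rw [mul_pow, ← Real.exp_nat_mul]
          congr 2
          push_cast
          ring
  choose! K hK hb using h
  refine ⟨1 + ∑ q ∈ sqf 3, K q, ?_, fun x t => ?_⟩
  · have : 0 ≤ ∑ q ∈ sqf 3, K q := Finset.sum_nonneg fun q hq => (hK q hq).le
    linarith
  · calc ∑ q ∈ sqf 3, ‖BB q x t‖ ^ 2 ≤ ∑ q ∈ sqf 3, K q * Real.exp (κ * |t|) :=
          Finset.sum_le_sum fun q hq => hb q hq x t
      _ = (∑ q ∈ sqf 3, K q) * Real.exp (κ * |t|) := by rw [Finset.sum_mul]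
      _ ≤ _ := mul_le_mul_of_nonneg_right (by linarith) (Real.exp_pos _).le

theorem fes_rec {a : ℝ} (ha : 0 ≤ a) {B K E x t : ℝ} (hB : 0 ≤ B) (hK : 0 ≤ K)
    (hblock : ∀ X : ℝ, 3 ≤ X → Real.log X < x →
      ∑ q ∈ fesB X, ‖BB q x t‖ ^ 2 ≤ B * X * (Real.log X) ^ a * E)
    (hE : 0 ≤ E) (hsmall : ∑ q ∈ sqf 3, ‖BB q x t‖ ^ 2 ≤ K * E) (n : ℕ) :
    ∀ X : ℝ, 0 < X → X ≤ 3 * 2 ^ n → Real.log X < x →
      ∑ q ∈ sqf X, ‖BB q x t‖ ^ 2 ≤ (2 * B * X * (Real.log (max X 3)) ^ a + K) * E := by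
  have hmono : ∀ X : ℝ, X ≤ 3 → ∑ q ∈ sqf X, ‖BB q x t‖ ^ 2 ≤ ∑ q ∈ sqf 3, ‖BB q x t‖ ^ 2 := by
    intro X hX
    refine Finset.sum_le_sum_of_subset_of_nonneg ?_ fun _ _ _ => sq_nonneg _
    intro q hq
    rw [sqf, Finset.mem_filter, Finset.mem_Icc] at hq ⊢
    exact ⟨⟨hq.1.1, hq.1.2.trans (Nat.floor_le_floor hX)⟩, hq.2⟩
  induction n with
  | zero =>
    intro X hX0 hX hx
    have h0 : 0 ≤ 2 * B * X * (Real.log (max X 3)) ^ a := by
      have : 0 ≤ Real.log (max X 3) := Real.log_nonneg (by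
        have := le_max_right X 3
        linarith)
      positivity
    refine (hmono X (by simpa using hX)).trans (hsmall.trans ?_)
    exact mul_le_mul_of_nonneg_right (by linarith) hE
  | succ n ih =>
    intro X hX0 hX hx
    by_cases h3 : X ≤ 3
    · have h0 : 0 ≤ 2 * B * X * (Real.log (max X 3)) ^ a := by
        have : 0 ≤ Real.log (max X 3) := Real.log_nonneg (by
          have := le_max_right X 3
          linarith)
        positivity
      refine (hmono X h3).trans (hsmall.trans ?_)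
      exact mul_le_mul_of_nonneg_right (by linarith) hE
    push Not at h3
    have hlt : Real.log (X / 2) < x := by
      have := Real.log_le_log (by positivity : 0 < X / 2) (by linarith : X / 2 ≤ X)
      linarith
    have h1 := ih (X / 2) (by positivity) (by rw [pow_succ] at hX; linarith) hlt
    have h2 := hblock X h3.le hx
    have hsplit : ∑ q ∈ sqf X, ‖BB q x t‖ ^ 2 ≤
        ∑ q ∈ sqf (X / 2), ‖BB q x t‖ ^ 2 + ∑ q ∈ fesB X, ‖BB q x t‖ ^ 2 := by
      rw [← Finset.sum_filter_add_sum_filter_not (sqf X) (fun q : ℕ => X / 2 < (q : ℝ)), add_comm]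
      refine add_le_add ?_ le_rfl
      refine Finset.sum_le_sum_of_subset_of_nonneg ?_ fun _ _ _ => sq_nonneg _
      intro q hq
      rw [Finset.mem_filter, sqf, Finset.mem_filter, Finset.mem_Icc] at hq
      rw [sqf, Finset.mem_filter, Finset.mem_Icc]
      exact ⟨⟨hq.1.1.1, Nat.le_floor (not_lt.mp hq.2)⟩, hq.1.2⟩
    have hm : (Real.log (max (X / 2) 3)) ^ a ≤ (Real.log (max X 3)) ^ a := by
      refine Real.rpow_le_rpow (Real.log_nonneg ?_) (Real.log_le_log ?_ ?_) ha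
      · have := le_max_right (X / 2) 3
        linarith
      · have := le_max_right (X / 2) 3
        linarith
      · exact max_le_max (by linarith) le_rfl
    have hm3 : max X 3 = X := max_eq_left h3.le
    have h4 : (2 * B * (X / 2) * (Real.log (max (X / 2) 3)) ^ a + K) * E ≤
        (B * X * (Real.log (max X 3)) ^ a + K) * E := by
      refine mul_le_mul_of_nonneg_right ?_ hE
      have : 2 * B * (X / 2) * (Real.log (max (X / 2) 3)) ^ a ≤
          B * X * (Real.log (max X 3)) ^ a := by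
        have e : 2 * B * (X / 2) = B * X := by ring
        rw [e]
        exact mul_le_mul_of_nonneg_left hm (by positivity)
      linarith
    rw [hm3] at h4 ⊢
    calc ∑ q ∈ sqf X, ‖BB q x t‖ ^ 2
        ≤ (B * X * (Real.log X) ^ a + K) * E + B * X * (Real.log X) ^ a * E := by linarith
      _ = _ := by ring

theorem HypE_of_HypL {a : ℝ} (ha : 0 ≤ a) (h : HypL a) : HypE a := by
  intro κ hκ
  obtain ⟨C, hC, hL⟩ := h κ hκ
  obtain ⟨B, hB, hblock⟩ := fes_block ha h κ hκ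
  obtain ⟨K, hK, hsmall⟩ := fes_small κ hκ
  refine ⟨2 * C + (2 * B + K), by positivity, fun X x t hX => ?_⟩
  have hX0 : 0 < X := by linarith
  have hlog1 : 1 ≤ Real.log X := by
    rw [Real.le_log_iff_exp_le hX0]
    have := Real.exp_one_lt_d9
    linarith
  have hpow : 1 ≤ (Real.log X) ^ a := Real.one_le_rpow hlog1 ha
  have hE := Real.exp_pos (κ * |t|)
  rcases le_or_gt x (Real.log X) with hx | hx
  · refine (hL X x t hX).trans ?_
    have h1 : Real.exp (3 / 2 * x) / Real.sqrt X ≤ X := by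
      rw [div_le_iff₀ (Real.sqrt_pos.mpr hX0)]
      have h3 : X * Real.sqrt X = Real.exp (3 / 2 * Real.log X) := by
        rw [Real.sqrt_eq_rpow, Real.rpow_def_of_pos hX0]
        nth_rewrite 1 [← Real.exp_log hX0]
        rw [← Real.exp_add]
        congr 1
        ring
      rw [h3]
      exact Real.exp_le_exp.mpr (by linarith)
    calc C * (X + Real.exp (3 / 2 * x) / Real.sqrt X) * (Real.log X) ^ a * Real.exp (κ * |t|)
        ≤ C * (X + X) * (Real.log X) ^ a * Real.exp (κ * |t|) := by gcongr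
      _ = (2 * C) * X * (Real.log X) ^ a * Real.exp (κ * |t|) := by ring
      _ ≤ _ := by
          have h7 : 0 ≤ X * (Real.log X) ^ a * Real.exp (κ * |t|) := by positivity
          nlinarith
  · obtain ⟨n, hn⟩ := pow_unbounded_of_one_lt X (one_lt_two : (1 : ℝ) < 2)
    have := fes_rec ha hB.le hK.le (fun X hX hx => hblock X x t hX hx) hE.le (hsmall x t) n X hX0
      (by linarith [pow_pos (two_pos : (0 : ℝ) < 2) n]) hx
    refine this.trans ?_
    rw [max_eq_left hX]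
    have h8 : K ≤ K * (X * (Real.log X) ^ a) := by
      have : 1 ≤ X * (Real.log X) ^ a := by nlinarith
      nlinarith
    have h9 : 0 ≤ C * (X * (Real.log X) ^ a) := by positivity
    calc (2 * B * X * (Real.log X) ^ a + K) * Real.exp (κ * |t|)
        ≤ ((2 * C + (2 * B + K)) * (X * (Real.log X) ^ a)) * Real.exp (κ * |t|) :=
          mul_le_mul_of_nonneg_right (by nlinarith) hE.le
      _ = _ := by ring

end Pool.Agent.CZ
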