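import Mathlib
import Pool.Agent.CZ.IDefs
import Pool.Agent.CZ.InpAR
import Pool.Agent.CZ.IDF

/-!
# Critical zeros (MP_553913_nt), part (I): the diagonal term
-/

set_option autoImplicit false

open Complex Finset MeasureTheory

namespace Pool.Agent.CZ

open Pool.Agent.H5 (c bd)
open Pool.Agent.ZD (S Lf gk eps MM tau)
open Pool.Agent.CZ.Inp (lam A2 R1)

/-! ### the Gaussian window as an integral -/

/-- the phase and window in the variable `v` -/
noncomputable def diagG (y t v : ℝ) : ℂ :=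
  exp (I * (v - t) * y) * (Real.exp (-((v - t) ^ 2 / 2)) : ℂ)

theorem diag_norm_G (y t v : ℝ) : ‖diagG y t v‖ = Real.exp (-((v - t) ^ 2 / 2)) := by
  unfold diagG
  rw [norm_mul, Complex.norm_exp]
  have h1 : (I * (v - t) * y : ℂ).re = 0 := by simp
  rw [h1, Real.exp_zero, one_mul, Complex.norm_real, Real.norm_eq_abs, Real.abs_exp]

theorem diag_cont_G (y t : ℝ) : Continuous (diagG y t) := by
  unfold diagG
  fun_prop

theorem diag_fourier (y : ℝ) :
    ∫ w : ℝ, exp (I * y * w) * (Real.exp (-(w ^ 2 / 2)) : ℂ) =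
      ((Real.sqrt (2 * Real.pi) * Real.exp (-(y ^ 2 / 2)) : ℝ) : ℂ) := by
  have h := fourierIntegral_gaussian (b := 1 / 2) (by norm_num) (y : ℂ)
  have h1 : (fun x : ℝ => exp (I * y * x) * exp (-(1 / 2 : ℂ) * (x : ℂ) ^ 2)) =
      fun w : ℝ => exp (I * y * w) * (Real.exp (-(w ^ 2 / 2)) : ℂ) := by
    funext x
    push_cast
    congr 2
    ring
  rw [h1] at h
  rw [h]
  push_cast
  congr 1
  · have h2 : (Real.pi / (1 / 2) : ℂ) = ((2 * Real.pi : ℝ) : ℂ) := by
      push_cast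
      ring
    rw [h2, Real.sqrt_eq_rpow, Complex.ofReal_cpow (by positivity)]
    norm_num
  · congr 1
    ring

theorem diag_window {n : ℕ} (s x t : ℝ) (hs : 0 < s) :
    npow n t * (ga x n : ℂ) =
      ((Real.exp (s * x + s ^ 2 / 2) / Real.sqrt (2 * Real.pi) : ℝ) : ℂ) *
        ∫ v : ℝ, (n : ℂ) ^ (-(1 + s + v * I)) * diagG (x + s) t v := by
  rcases Nat.eq_zero_or_pos n with h0 | hn
  · subst h0
    have h1 : npow 0 t = 0 := by
      unfold npow
      rw [Nat.cast_zero, Complex.zero_cpow]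
      intro h
      have := congrArg Complex.re h
      simp at this
    rw [h1, zero_mul]
    have h2 : (fun v : ℝ => ((0 : ℕ) : ℂ) ^ (-(1 + s + v * I)) * diagG (x + s) t v) = fun _ => 0 := by
      funext v
      rw [Nat.cast_zero, Complex.zero_cpow, zero_mul]
      intro h
      have := congrArg Complex.re h
      simp at this
      linarith
    rw [h2]
    simp
  have hn0 : (n : ℂ) ≠ 0 := by exact_mod_cast hn.ne'
  set l : ℝ := Real.log n with hl
  have hlog : Complex.log (n : ℂ) = (l : ℂ) := by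
    rw [hl, Complex.natCast_log]
  have h1 : (fun v : ℝ => (n : ℂ) ^ (-(1 + s + v * I)) * diagG (x + s) t v) =
      fun v : ℝ => (fun w : ℝ => exp (-(1 + s + t * I) * l) *
        (exp (I * ((x + s - l : ℝ) : ℂ) * w) * (Real.exp (-(w ^ 2 / 2)) : ℂ))) (v - t) := by
    funext v
    unfold diagG
    beta_reduce
    rw [Complex.cpow_def_of_ne_zero hn0, hlog, ← mul_assoc, ← mul_assoc, ← Complex.exp_add,
      ← Complex.exp_add]
    congr 2
    push_cast
    ring
  rw [h1, integral_sub_right_eq_self (fun w : ℝ => exp (-(1 + s + t * I) * l) *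
        (exp (I * ((x + s - l : ℝ) : ℂ) * w) * (Real.exp (-(w ^ 2 / 2)) : ℂ))) t,
    integral_const_mul, diag_fourier]
  unfold npow ga
  rw [Complex.cpow_def_of_ne_zero hn0, hlog, ← hl]
  have h2 : ((Real.exp (s * x + s ^ 2 / 2) / Real.sqrt (2 * Real.pi) : ℝ) : ℂ) *
      (exp (-(1 + s + t * I) * l) *
        ((Real.sqrt (2 * Real.pi) * Real.exp (-((x + s - l) ^ 2 / 2)) : ℝ) : ℂ)) =
      ((Real.exp (s * x + s ^ 2 / 2) * Real.exp (-((x + s - l) ^ 2 / 2)) : ℝ) : ℂ) *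
        exp (-(1 + s + t * I) * l) := by
    have h3 : ((Real.sqrt (2 * Real.pi) : ℝ) : ℂ) ≠ 0 := by
      rw [Ne, Complex.ofReal_eq_zero]
      positivity
    push_cast
    field_simp
  rw [h2]
  push_cast
  rw [← Complex.exp_add, ← Complex.exp_add, ← Complex.exp_add]
  congr 1
  ring


/-! ### a singular kernel -/

/-- `2 / (δ + |y|)` near zero -/
noncomputable def diagK (δ y : ℝ) : ℝ := Set.indicator (Set.Icc (-1 : ℝ) 1) (fun y => 2 / (δ + |y|)) y

theorem diag_K_nonneg {δ : ℝ} (hδ : 0 < δ) (y : ℝ) : 0 ≤ diagK δ y := by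
  unfold diagK
  exact Set.indicator_nonneg (fun y _ => by positivity) y

theorem diag_K_le {δ : ℝ} (hδ : 0 < δ) (y : ℝ) : diagK δ y ≤ 2 / δ := by
  unfold diagK
  by_cases h : y ∈ Set.Icc (-1 : ℝ) 1
  · rw [Set.indicator_of_mem h]
    exact div_le_div_of_nonneg_left (by norm_num) hδ (by linarith [abs_nonneg y])
  · rw [Set.indicator_of_notMem h]
    positivity

theorem diag_K_integrable {δ : ℝ} (hδ : 0 < δ) : Integrable (diagK δ) := by
  unfold diagK
  rw [integrable_indicator_iff measurableSet_Icc]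
  apply ContinuousOn.integrableOn_Icc
  apply Continuous.continuousOn
  refine continuous_const.div (by fun_prop) fun y => ?_
  have := abs_nonneg y
  positivity

theorem diag_K_integral {δ : ℝ} (hδ : 0 < δ) : ∫ y, diagK δ y = 4 * Real.log (1 + 1 / δ) := by
  unfold diagK
  rw [integral_indicator measurableSet_Icc, integral_Icc_eq_integral_Ioc,
    ← intervalIntegral.integral_of_le (by norm_num)]
  have hc : Continuous (fun y : ℝ => 2 / (δ + |y|)) := by
    refine continuous_const.div (by fun_prop) fun y => ?_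
    have := abs_nonneg y
    positivity
  rw [← intervalIntegral.integral_add_adjacent_intervals (b := 0)
    (hc.intervalIntegrable _ _) (hc.intervalIntegrable _ _)]
  have h1 : ∫ y in (0 : ℝ)..1, 2 / (δ + |y|) = 2 * Real.log (1 + 1 / δ) := by
    have h2 : ∀ y ∈ Set.uIcc (0 : ℝ) 1, HasDerivAt (fun y => 2 * Real.log (δ + y)) (2 / (δ + |y|)) y := by
      intro y hy
      rw [Set.uIcc_of_le zero_le_one] at hy
      rw [abs_of_nonneg hy.1]
      have h3 : HasDerivAt (fun y : ℝ => δ + y) 1 y := by simpa using (hasDerivAt_id y).const_add δ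
      have h4 := (h3.log (by linarith [hy.1])).const_mul 2
      have h5 : 2 / (δ + y) = 2 * (1 / (δ + y)) := by ring
      rw [h5]
      exact h4
    rw [intervalIntegral.integral_eq_sub_of_hasDerivAt h2 (hc.intervalIntegrable _ _)]
    rw [← mul_sub, ← Real.log_div (by positivity) (by positivity)]
    congr 2
    field_simp
    ring
  have h2 : ∫ y in (-1 : ℝ)..0, 2 / (δ + |y|) = 2 * Real.log (1 + 1 / δ) := by
    rw [← h1]
    have h3 := intervalIntegral.integral_comp_neg (a := 0) (b := 1) (fun y : ℝ => 2 / (δ + |y|))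
    simp only [abs_neg, neg_zero] at h3
    exact h3.symm
  rw [h1, h2]
  ring

theorem diag_inv_le {δ y : ℝ} (hδ : 0 < δ) : ‖((δ : ℂ) + y * I)⁻¹‖ ≤ 2 + diagK δ y := by
  have h1 : (δ + |y|) / 2 ≤ ‖(δ : ℂ) + y * I‖ := by
    have h2 := Complex.abs_re_le_norm ((δ : ℂ) + y * I)
    have h3 := Complex.abs_im_le_norm ((δ : ℂ) + y * I)
    simp only [Complex.add_re, Complex.ofReal_re, Complex.mul_re, Complex.I_re, mul_zero,
      Complex.ofReal_im, Complex.I_im, mul_one, sub_self, add_zero, Complex.add_im,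
      Complex.mul_im, zero_add] at h2 h3
    rw [abs_of_pos hδ] at h2
    linarith
  have h4 : 0 < (δ + |y|) / 2 := by
    have := abs_nonneg y
    positivity
  rw [norm_inv]
  have h5 : ‖(δ : ℂ) + y * I‖⁻¹ ≤ 2 / (δ + |y|) := by
    have h6 := inv_anti₀ h4 h1
    rw [inv_div] at h6
    exact h6
  refine h5.trans ?_
  unfold diagK
  by_cases h : y ∈ Set.Icc (-1 : ℝ) 1
  · rw [Set.indicator_of_mem h]
    linarith
  · rw [Set.indicator_of_notMem h, add_zero]
    have h7 : 1 ≤ |y| := by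
      by_contra h8
      rw [not_le, abs_lt] at h8
      exact h ⟨h8.1.le, h8.2.le⟩
    rw [div_le_iff₀ (by linarith)]
    linarith

/-- polynomial growth against the Gaussian -/
theorem diag_poly (B : ℕ) : ∃ M : ℝ, 0 < M ∧ ∀ u : ℝ,
    (1 + |u|) ^ B * Real.exp (-(u ^ 2 / 2)) ≤ M * Real.exp (-(u ^ 2 / 4)) := by
  refine ⟨B.factorial * Real.exp 2, by positivity, fun u => ?_⟩
  have h1 := Real.pow_div_factorial_le_exp (1 + |u|) (by positivity) B
  rw [div_le_iff₀ (by positivity)] at h1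
  have h2 : Real.exp (1 + |u|) ≤ Real.exp (2 + u ^ 2 / 4) := by
    apply Real.exp_le_exp.2
    nlinarith [sq_nonneg (|u| / 2 - 1), sq_abs u]
  calc (1 + |u|) ^ B * Real.exp (-(u ^ 2 / 2))
      ≤ (Real.exp (2 + u ^ 2 / 4) * B.factorial) * Real.exp (-(u ^ 2 / 2)) := by
        refine mul_le_mul_of_nonneg_right (h1.trans ?_) (Real.exp_pos _).le
        exact mul_le_mul_of_nonneg_right h2 (by positivity)
    _ = B.factorial * Real.exp 2 * Real.exp (-(u ^ 2 / 4)) := by
        rw [mul_comm (Real.exp (2 + u ^ 2 / 4)), mul_assoc, mul_assoc, ← Real.exp_add,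
          ← Real.exp_add]
        congr 2
        ring


/-! ### the diagonal term -/

theorem diag_gauss_int (a : ℝ) : Integrable (fun v : ℝ => Real.exp (-((v - a) ^ 2 / 4))) := by
  have h := integrable_exp_neg_mul_sq (b := 1 / 4) (by norm_num)
  have h2 := h.comp_sub_right a
  refine h2.congr (Filter.Eventually.of_forall fun v => ?_)
  change Real.exp (-(1 / 4) * (v - a) ^ 2) = Real.exp (-((v - a) ^ 2 / 4))
  congr 1
  ring

theorem diag_gauss_int2 (a : ℝ) : Integrable (fun v : ℝ => Real.exp (-((v - a) ^ 2 / 2))) := by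
  have h := integrable_exp_neg_mul_sq (b := 1 / 2) (by norm_num)
  have h2 := h.comp_sub_right a
  refine h2.congr (Filter.Eventually.of_forall fun v => ?_)
  change Real.exp (-(1 / 2) * (v - a) ^ 2) = Real.exp (-((v - a) ^ 2 / 2))
  congr 1
  ring

/-- the Gaussian integral -/
noncomputable def diagH : ℝ := ∫ v : ℝ, Real.exp (-(v ^ 2 / 4))

theorem diag_H_nonneg : 0 ≤ diagH := integral_nonneg fun _ => (Real.exp_pos _).le

theorem diag_H_eq (a : ℝ) : ∫ v : ℝ, Real.exp (-((v - a) ^ 2 / 4)) = diagH :=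
  integral_sub_right_eq_self (fun v : ℝ => Real.exp (-(v ^ 2 / 4))) a

/-- the double integral -/
theorem diag_double {δ : ℝ} (hδ : 0 < δ) (t : ℝ) :
    Integrable (fun v : ℝ × ℝ => Real.exp (-((v.1 - t) ^ 2 / 4)) *
      Real.exp (-((v.2 + t) ^ 2 / 4)) * (2 + diagK δ (v.1 + v.2))) ∧
    ∫ v : ℝ × ℝ, Real.exp (-((v.1 - t) ^ 2 / 4)) *
      Real.exp (-((v.2 + t) ^ 2 / 4)) * (2 + diagK δ (v.1 + v.2)) ≤
        diagH * (2 * diagH + 4 * Real.log (1 + 1 / δ)) := by
  have hK : Measurable (diagK δ) := by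
    unfold diagK
    refine Measurable.indicator ?_ measurableSet_Icc
    fun_prop
  have hi2 : Integrable (fun v : ℝ => Real.exp (-((v + t) ^ 2 / 4))) := by
    have := diag_gauss_int (-t)
    simpa only [sub_neg_eq_add] using this
  have hH2 : ∫ v : ℝ, Real.exp (-((v + t) ^ 2 / 4)) = diagH := by
    have := diag_H_eq (-t)
    simpa only [sub_neg_eq_add] using this
  have hint : Integrable (fun v : ℝ × ℝ => Real.exp (-((v.1 - t) ^ 2 / 4)) *
      Real.exp (-((v.2 + t) ^ 2 / 4)) * (2 + diagK δ (v.1 + v.2))) := by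
    have h1 := ((diag_gauss_int t).mul_prod hi2).mul_const (2 + 2 / δ)
    refine h1.mono' ?_ (Filter.Eventually.of_forall fun v => ?_)
    · apply Measurable.aestronglyMeasurable
      have h3 : Measurable (fun v : ℝ × ℝ => diagK δ (v.1 + v.2)) :=
        hK.comp (measurable_fst.add measurable_snd)
      fun_prop
    · have h2 := diag_K_nonneg hδ (v.1 + v.2)
      rw [Real.norm_eq_abs, abs_of_nonneg (by positivity)]
      refine mul_le_mul_of_nonneg_left ?_ (by positivity)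
      linarith [diag_K_le hδ (v.1 + v.2)]
  refine ⟨hint, ?_⟩
  rw [Measure.volume_eq_prod, integral_prod _ (by rw [← Measure.volume_eq_prod]; exact hint)]
  have h1 : ∀ v : ℝ, ∫ w : ℝ, Real.exp (-((v - t) ^ 2 / 4)) *
      Real.exp (-((w + t) ^ 2 / 4)) * (2 + diagK δ (v + w)) ≤
      Real.exp (-((v - t) ^ 2 / 4)) * (2 * diagH + 4 * Real.log (1 + 1 / δ)) := by
    intro v
    have e1 : ∀ w : ℝ, Real.exp (-((v - t) ^ 2 / 4)) *
      Real.exp (-((w + t) ^ 2 / 4)) * (2 + diagK δ (v + w)) =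
      Real.exp (-((v - t) ^ 2 / 4)) * (Real.exp (-((w + t) ^ 2 / 4)) * (2 + diagK δ (v + w))) :=
      fun w => by ring
    simp only [e1]
    rw [integral_const_mul]
    refine mul_le_mul_of_nonneg_left ?_ (Real.exp_pos _).le
    have hKi : Integrable (fun w : ℝ => diagK δ (v + w)) := (diag_K_integrable hδ).comp_add_left v
    have e2 : ∫ w : ℝ, (2 * Real.exp (-((w + t) ^ 2 / 4)) + diagK δ (v + w)) =
        2 * diagH + 4 * Real.log (1 + 1 / δ) := by
      rw [integral_add (hi2.const_mul 2) hKi, integral_const_mul, hH2,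
        integral_add_left_eq_self (diagK δ) v, diag_K_integral hδ]
    rw [← e2]
    refine integral_mono_of_nonneg (Filter.Eventually.of_forall fun w => ?_)
      ((hi2.const_mul 2).add hKi) (Filter.Eventually.of_forall fun w => ?_)
    · have h2 := diag_K_nonneg hδ (v + w)
      change 0 ≤ Real.exp (-((w + t) ^ 2 / 4)) * (2 + diagK δ (v + w))
      positivity
    · change Real.exp (-((w + t) ^ 2 / 4)) * (2 + diagK δ (v + w)) ≤
        2 * Real.exp (-((w + t) ^ 2 / 4)) + diagK δ (v + w)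
      have h2 := diag_K_nonneg hδ (v + w)
      have h3 : Real.exp (-((w + t) ^ 2 / 4)) ≤ 1 := by
        rw [Real.exp_le_one_iff]
        have := sq_nonneg (w + t)
        linarith
      nlinarith [Real.exp_pos (-((w + t) ^ 2 / 4))]
  have e3 : ∫ v : ℝ, Real.exp (-((v - t) ^ 2 / 4)) * (2 * diagH + 4 * Real.log (1 + 1 / δ)) =
      diagH * (2 * diagH + 4 * Real.log (1 + 1 / δ)) := by
    rw [integral_mul_const, diag_H_eq]
  rw [← e3]
  refine integral_mono_of_nonneg (Filter.Eventually.of_forall fun v => ?_)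
    ((diag_gauss_int t).mul_const _) (Filter.Eventually.of_forall h1)
  refine integral_nonneg fun w => ?_
  have h2 := diag_K_nonneg hδ (v + w)
  change 0 ≤ Real.exp (-((v - t) ^ 2 / 4)) *
      Real.exp (-((w + t) ^ 2 / 4)) * (2 + diagK δ (v + w))
  positivity


theorem diag_norm_pow (n : ℕ) {s : ℝ} (hs : 0 < s) (v : ℝ) :
    ‖(n : ℂ) ^ (-(1 + s + v * I))‖ = (n : ℝ) ^ (-(1 + s)) := by
  have h1 : (-(1 + s + v * I) : ℂ).re = -(1 + s) := by simp
  rw [Complex.norm_natCast_cpow_of_re_ne_zero n (by rw [h1]; linarith), h1]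

theorem diag_int (n : ℕ) {s : ℝ} (hs : 0 < s) (y t : ℝ) :
    Integrable (fun v : ℝ => (n : ℂ) ^ (-(1 + s + v * I)) * diagG y t v) := by
  have h1 := (diag_gauss_int2 t).const_mul ((n : ℝ) ^ (-(1 + s)))
  refine h1.mono' ?_ (Filter.Eventually.of_forall fun v => ?_)
  · apply Continuous.aestronglyMeasurable
    rcases Nat.eq_zero_or_pos n with h0 | hn
    · have h2 : (fun v : ℝ => (n : ℂ) ^ (-(1 + s + v * I)) * diagG y t v) = fun _ => 0 := by
        funext v
        rw [h0, Nat.cast_zero, Complex.zero_cpow, zero_mul]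
        intro h
        have := congrArg Complex.re h
        simp at this
        linarith
      rw [h2]
      exact continuous_const
    · refine Continuous.mul ?_ (diag_cont_G y t)
      refine Continuous.const_cpow (by fun_prop) ?_
      left
      exact_mod_cast hn.ne'
  · rw [norm_mul, diag_norm_pow n hs, diag_norm_G]

theorem PK0_le : ∃ (C : ℝ) (A : ℕ), 0 < C ∧ ∀ Z x t : ℝ,
    ‖PK 0 Z x t‖ ≤ C * (1 + |t|) ^ A * Real.log (3 + |x|) := by
  obtain ⟨C₀, hC₀, hF⟩ := DF_le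
  obtain ⟨C₁, A₁, hC₁, hA2⟩ := Inp.A2_le
  obtain ⟨C₂, A₂, hC₂, hR1⟩ := Inp.R1_le
  obtain ⟨M, hM, hpoly⟩ := diag_poly (A₁ + A₂)
  have hH := diag_H_nonneg
  refine ⟨Real.exp 3 * (C₀ * C₁ ^ 2 * C₂ * 4 ^ A₁ * M ^ 2 * (diagH * (2 * diagH + 4))) + 1,
    2 * A₁, by positivity, fun Z x t => ?_⟩
  have hax := abs_nonneg x
  have hat := abs_nonneg t
  set s : ℝ := 1 / (2 + |x|) with hsdef
  have hs : 0 < s := by positivity
  have hs2 : s ≤ 1 / 2 := by
    rw [hsdef]
    exact one_div_le_one_div_of_le (by norm_num) (by linarith)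
  set a : ℕ × ℕ → ℂ := fun n => gk 0 n.1 n.2 * ((Real.sqrt (n.1 * n.2 : ℕ) : ℝ) : ℂ)⁻¹ with ha
  set K : ℝ := Real.exp (s * x + s ^ 2 / 2) / Real.sqrt (2 * Real.pi) with hK
  set F : ℕ × ℕ → ℝ × ℝ → ℂ := fun n v => a n *
    (((n.1 : ℂ) ^ (-(1 + s + v.1 * I)) * diagG (x + s) t v.1) *
      ((n.2 : ℂ) ^ (-(1 + s + v.2 * I)) * diagG (x + s) (-t) v.2)) with hFdef
  have hw : ∀ v : ℝ, -(1 / 2 + (1 / 2 + s + v * I) : ℂ) = -(1 + s + v * I) := fun v => by ring
  have hwre : ∀ v : ℝ, (1 / 2 + s + v * I : ℂ).re = 1 / 2 + s := fun v => by simp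
  -- the sum inside
  have hD : ∀ v : ℝ × ℝ, Summable (fun n : ℕ × ℕ => ‖a n *
      ((n.1 : ℂ) ^ (-(1 + s + v.1 * I)) * (n.2 : ℂ) ^ (-(1 + s + v.2 * I)))‖) ∧
      ‖∑' n : ℕ × ℕ, a n * ((n.1 : ℂ) ^ (-(1 + s + v.1 * I)) * (n.2 : ℂ) ^ (-(1 + s + v.2 * I)))‖ ≤
      C₀ * (‖A2 (2 * (1 / 2 + s + v.1 * I))‖ * ‖A2 (2 * (1 / 2 + s + v.2 * I))‖ *
        ‖R1 ((1 / 2 + s + v.1 * I) + (1 / 2 + s + v.2 * I)) /
          ((1 / 2 + s + v.1 * I) + (1 / 2 + s + v.2 * I) - 1)‖) := by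
    intro v
    have := hF (1 / 2 + s + v.1 * I) (1 / 2 + s + v.2 * I) (by rw [hwre]; linarith)
      (by rw [hwre]; linarith) (by rw [hwre]; linarith) (by rw [hwre]; linarith)
    simp only [hw] at this
    exact this
  have hFint : ∀ n, Integrable (F n) := fun n =>
    ((diag_int n.1 hs (x + s) t).mul_prod (diag_int n.2 hs (x + s) (-t))).const_mul (a n)
  have hFnorm : ∀ n v, ‖F n v‖ = (‖a n‖ * ((n.1 : ℝ) ^ (-(1 + s)) * (n.2 : ℝ) ^ (-(1 + s)))) *
      (Real.exp (-((v.1 - t) ^ 2 / 2)) * Real.exp (-((v.2 - -t) ^ 2 / 2))) := by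
    intro n v
    rw [hFdef]
    simp only [norm_mul, diag_norm_pow _ hs, diag_norm_G]
    ring
  have hFsum : Summable (fun n => ∫ v, ‖F n v‖) := by
    have h1 := (hD (0, 0)).1
    simp only [norm_mul] at h1
    simp only [hFnorm, integral_const_mul]
    refine Summable.mul_right _ ?_
    refine h1.congr fun n => ?_
    rw [diag_norm_pow n.1 hs 0, diag_norm_pow n.2 hs 0]
  have hmain := hasSum_integral_of_summable_integral_norm hFint hFsum
  have hPK : PK 0 Z x t = (K : ℂ) ^ 2 * ∫ v, ∑' n, F n v := by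
    rw [← hmain.tsum_eq, ← tsum_mul_left]
    unfold PK
    refine tsum_congr fun n => ?_
    rw [diag_window s x t hs, diag_window s x (-t) hs]
    have e1 : ∫ v, F n v = a n * ((∫ v : ℝ, (n.1 : ℂ) ^ (-(1 + s + v * I)) * diagG (x + s) t v) *
        ∫ v : ℝ, (n.2 : ℂ) ^ (-(1 + s + v * I)) * diagG (x + s) (-t) v) := by
      rw [hFdef]
      beta_reduce
      rw [integral_const_mul, Measure.volume_eq_prod]
      exact congrArg _ (integral_prod_mul
        (fun v : ℝ => (n.1 : ℂ) ^ (-(1 + s + v * I)) * diagG (x + s) t v)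
        (fun v : ℝ => (n.2 : ℂ) ^ (-(1 + s + v * I)) * diagG (x + s) (-t) v))
    rw [e1, ← hK]
    simp only [Int.cast_zero]
    have e2 : exp (-(Real.pi * (0 : ℂ) ^ 2 * Z ^ 2 / ((n.1 * n.2 : ℕ) : ℂ) ^ 2)) = 1 := by
      simp
    rw [e2, ha]
    ring
  have hre : ∀ v : ℝ, (2 * (1 / 2 + s + v * I) : ℂ).re = 1 + 2 * s := fun v => by
    simp
    ring
  have him : ∀ v : ℝ, (2 * (1 / 2 + s + v * I) : ℂ).im = 2 * v := fun v => by
    simp
  have hre2 : ∀ v w : ℝ, ((1 / 2 + s + v * I) + (1 / 2 + s + w * I) : ℂ).re = 1 + 2 * s :=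
    fun v w => by
      simp
      ring
  have him2 : ∀ v w : ℝ, ((1 / 2 + s + v * I) + (1 / 2 + s + w * I) : ℂ).im = v + w :=
    fun v w => by
      simp
  have hbound : ∀ v : ℝ × ℝ, ‖∑' n, F n v‖ ≤
      C₀ * C₁ ^ 2 * C₂ * 4 ^ A₁ * M ^ 2 * (1 + |t|) ^ (2 * A₁) *
      (Real.exp (-((v.1 - t) ^ 2 / 4)) * Real.exp (-((v.2 + t) ^ 2 / 4)) *
        (2 + diagK (2 * s) (v.1 + v.2))) := by
    intro v
    have e1 : ∑' n, F n v = (∑' n : ℕ × ℕ, a n * ((n.1 : ℂ) ^ (-(1 + s + v.1 * I)) *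
        (n.2 : ℂ) ^ (-(1 + s + v.2 * I)))) * (diagG (x + s) t v.1 * diagG (x + s) (-t) v.2) := by
      rw [← tsum_mul_right]
      refine tsum_congr fun n => ?_
      rw [hFdef]
      beta_reduce
      ring
    have h0 := (hD v).2
    have b1 := hA2 (2 * (1 / 2 + s + v.1 * I)) (by rw [hre]; linarith) (by rw [hre]; linarith)
    have b2 := hA2 (2 * (1 / 2 + s + v.2 * I)) (by rw [hre]; linarith) (by rw [hre]; linarith)
    have b3 := hR1 ((1 / 2 + s + v.1 * I) + (1 / 2 + s + v.2 * I)) (by rw [hre2]; linarith)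
      (by rw [hre2]; linarith)
    rw [him] at b1 b2
    rw [him2] at b3
    have b4 : ‖R1 ((1 / 2 + s + v.1 * I) + (1 / 2 + s + v.2 * I)) /
        ((1 / 2 + s + v.1 * I) + (1 / 2 + s + v.2 * I) - 1)‖ ≤
        C₂ * (1 + |v.1 + v.2|) ^ A₂ * (2 + diagK (2 * s) (v.1 + v.2)) := by
      rw [div_eq_mul_inv, norm_mul]
      have e2 : ((1 / 2 + s + v.1 * I) + (1 / 2 + s + v.2 * I) - 1 : ℂ) =
          ((2 * s : ℝ) : ℂ) + ((v.1 + v.2 : ℝ) : ℂ) * I := by
        push_cast
        ring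
      rw [e2]
      exact mul_le_mul b3 (diag_inv_le (by positivity)) (norm_nonneg _) (by positivity)
    have hk := diag_K_nonneg (δ := 2 * s) (by positivity) (v.1 + v.2)
    -- polynomial bounds
    set u₁ : ℝ := |v.1 - t| with hu1
    set u₂ : ℝ := |v.2 + t| with hu2
    have hu1n : 0 ≤ u₁ := abs_nonneg _
    have hu2n : 0 ≤ u₂ := abs_nonneg _
    have p1 : 1 + |2 * v.1| ≤ 2 * (1 + |t|) * (1 + u₁) := by
      have h3 : |2 * v.1| ≤ 2 * u₁ + 2 * |t| := by
        have h4 : 2 * v.1 = 2 * (v.1 - t) + 2 * t := by ring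
        rw [h4]
        refine (abs_add_le _ _).trans ?_
        rw [abs_mul, abs_mul, abs_two]
      nlinarith
    have p2 : 1 + |2 * v.2| ≤ 2 * (1 + |t|) * (1 + u₂) := by
      have h3 : |2 * v.2| ≤ 2 * u₂ + 2 * |t| := by
        have h4 : 2 * v.2 = 2 * (v.2 + t) + 2 * (-t) := by ring
        rw [h4]
        refine (abs_add_le _ _).trans ?_
        rw [abs_mul, abs_mul, abs_two, abs_neg]
      nlinarith
    have p3 : 1 + |v.1 + v.2| ≤ (1 + u₁) * (1 + u₂) := by
      have h3 : |v.1 + v.2| ≤ u₁ + u₂ := by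
        have h4 : v.1 + v.2 = (v.1 - t) + (v.2 + t) := by ring
        rw [h4]
        exact abs_add_le _ _
      nlinarith
    have q1 : ‖A2 (2 * (1 / 2 + s + v.1 * I))‖ ≤ C₁ * (2 ^ A₁ * (1 + |t|) ^ A₁ * (1 + u₁) ^ A₁) := by
      refine b1.trans (mul_le_mul_of_nonneg_left ?_ hC₁.le)
      rw [← mul_pow, ← mul_pow]
      exact pow_le_pow_left₀ (by positivity) p1 A₁
    have q2 : ‖A2 (2 * (1 / 2 + s + v.2 * I))‖ ≤ C₁ * (2 ^ A₁ * (1 + |t|) ^ A₁ * (1 + u₂) ^ A₁) := by
      refine b2.trans (mul_le_mul_of_nonneg_left ?_ hC₁.le)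
      rw [← mul_pow, ← mul_pow]
      exact pow_le_pow_left₀ (by positivity) p2 A₁
    have q3 : (1 + |v.1 + v.2|) ^ A₂ ≤ (1 + u₁) ^ A₂ * (1 + u₂) ^ A₂ := by
      rw [← mul_pow]
      exact pow_le_pow_left₀ (by positivity) p3 A₂
    have g1 := hpoly (v.1 - t)
    have g2 := hpoly (v.2 + t)
    rw [← hu1, pow_add] at g1
    rw [← hu2, pow_add] at g2
    rw [e1, norm_mul, norm_mul, diag_norm_G, diag_norm_G, sub_neg_eq_add]
    calc ‖∑' n : ℕ × ℕ, a n * ((n.1 : ℂ) ^ (-(1 + s + v.1 * I)) *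
        (n.2 : ℂ) ^ (-(1 + s + v.2 * I)))‖ *
          (Real.exp (-((v.1 - t) ^ 2 / 2)) * Real.exp (-((v.2 + t) ^ 2 / 2)))
        ≤ (C₀ * ((C₁ * (2 ^ A₁ * (1 + |t|) ^ A₁ * (1 + u₁) ^ A₁)) *
            (C₁ * (2 ^ A₁ * (1 + |t|) ^ A₁ * (1 + u₂) ^ A₁)) *
            (C₂ * ((1 + u₁) ^ A₂ * (1 + u₂) ^ A₂) * (2 + diagK (2 * s) (v.1 + v.2))))) *
          (Real.exp (-((v.1 - t) ^ 2 / 2)) * Real.exp (-((v.2 + t) ^ 2 / 2))) := by
          refine mul_le_mul_of_nonneg_right (h0.trans ?_) (by positivity)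
          refine mul_le_mul_of_nonneg_left ?_ hC₀.le
          refine mul_le_mul (mul_le_mul q1 q2 (norm_nonneg _) (by positivity))
            (b4.trans ?_) (norm_nonneg _) (by positivity)
          refine mul_le_mul_of_nonneg_right ?_ (by positivity)
          exact mul_le_mul_of_nonneg_left q3 hC₂.le
      _ = C₀ * C₁ ^ 2 * C₂ * 4 ^ A₁ * (1 + |t|) ^ (2 * A₁) * (2 + diagK (2 * s) (v.1 + v.2)) *
          (((1 + u₁) ^ A₁ * (1 + u₁) ^ A₂ * Real.exp (-((v.1 - t) ^ 2 / 2))) *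
          ((1 + u₂) ^ A₁ * (1 + u₂) ^ A₂ * Real.exp (-((v.2 + t) ^ 2 / 2)))) := by
          have e4 : (4 : ℝ) ^ A₁ = 2 ^ A₁ * 2 ^ A₁ := by
            rw [← mul_pow]
            norm_num
          rw [e4, two_mul A₁, pow_add]
          ring
      _ ≤ C₀ * C₁ ^ 2 * C₂ * 4 ^ A₁ * (1 + |t|) ^ (2 * A₁) * (2 + diagK (2 * s) (v.1 + v.2)) *
          ((M * Real.exp (-((v.1 - t) ^ 2 / 4))) * (M * Real.exp (-((v.2 + t) ^ 2 / 4)))) := by
          refine mul_le_mul_of_nonneg_left ?_ (by positivity)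
          exact mul_le_mul g1 g2 (by positivity) (by positivity)
      _ = _ := by ring
  obtain ⟨hdi, hdl⟩ := diag_double (δ := 2 * s) (by positivity) t
  have hint : ‖∫ v, ∑' n, F n v‖ ≤ C₀ * C₁ ^ 2 * C₂ * 4 ^ A₁ * M ^ 2 * (1 + |t|) ^ (2 * A₁) *
      (diagH * (2 * diagH + 4 * Real.log (1 + 1 / (2 * s)))) := by
    refine (norm_integral_le_of_norm_le (hdi.const_mul _)
      (Filter.Eventually.of_forall hbound)).trans ?_
    rw [integral_const_mul]
    exact mul_le_mul_of_nonneg_left hdl (by positivity)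
  have hlog3 : 1 ≤ Real.log (3 + |x|) := by
    rw [Real.le_log_iff_exp_le (by positivity)]
    have := Real.exp_one_lt_d9
    linarith
  have hlogs : Real.log (1 + 1 / (2 * s)) ≤ Real.log (3 + |x|) := by
    apply Real.log_le_log (by positivity)
    rw [hsdef]
    have e5 : 1 / (2 * (1 / (2 + |x|))) = (2 + |x|) / 2 := by field_simp
    rw [e5]
    linarith
  have hKb : ‖(K : ℂ) ^ 2‖ ≤ Real.exp 3 := by
    rw [norm_pow, Complex.norm_real, Real.norm_eq_abs, sq_abs, hK, div_pow, ← Real.exp_nat_mul,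
      Real.sq_sqrt (by positivity)]
    have h1 : Real.exp (((2 : ℕ) : ℝ) * (s * x + s ^ 2 / 2)) ≤ Real.exp 3 := by
      apply Real.exp_le_exp.2
      have h2 : s * x ≤ 1 := by
        have h3 : s * x ≤ s * |x| := mul_le_mul_of_nonneg_left (le_abs_self x) hs.le
        have h4 : s * |x| ≤ 1 := by
          rw [hsdef, one_div, inv_mul_le_iff₀ (by positivity)]
          linarith
        linarith
      push_cast
      nlinarith
    have h5 : 1 ≤ 2 * Real.pi := by
      have := Real.pi_gt_three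
      linarith
    exact (div_le_self (Real.exp_pos _).le h5).trans h1
  rw [hPK, norm_mul]
  calc ‖(K : ℂ) ^ 2‖ * ‖∫ v, ∑' n, F n v‖
      ≤ Real.exp 3 * (C₀ * C₁ ^ 2 * C₂ * 4 ^ A₁ * M ^ 2 * (1 + |t|) ^ (2 * A₁) *
      (diagH * (2 * diagH + 4 * Real.log (1 + 1 / (2 * s))))) :=
        mul_le_mul hKb hint (norm_nonneg _) (Real.exp_pos _).le
    _ ≤ Real.exp 3 * (C₀ * C₁ ^ 2 * C₂ * 4 ^ A₁ * M ^ 2 * (1 + |t|) ^ (2 * A₁) *
      (diagH * ((2 * diagH + 4) * Real.log (3 + |x|)))) := by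
        refine mul_le_mul_of_nonneg_left (mul_le_mul_of_nonneg_left
          (mul_le_mul_of_nonneg_left ?_ hH) (by positivity)) (Real.exp_pos _).le
        nlinarith
    _ = (Real.exp 3 * (C₀ * C₁ ^ 2 * C₂ * 4 ^ A₁ * M ^ 2 * (diagH * (2 * diagH + 4)))) *
        (1 + |t|) ^ (2 * A₁) * Real.log (3 + |x|) := by ring
    _ ≤ (Real.exp 3 * (C₀ * C₁ ^ 2 * C₂ * 4 ^ A₁ * M ^ 2 * (diagH * (2 * diagH + 4))) + 1) *
        (1 + |t|) ^ (2 * A₁) * Real.log (3 + |x|) := by
        refine mul_le_mul_of_nonneg_right (mul_le_mul_of_nonneg_right ?_ (by positivity))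
          (by linarith)
        linarith

end Pool.Agent.CZ
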