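import Mathlib
import Pool.Agent.CZ.IDefs
import Pool.Agent.ZD.E1
import Pool.Agent.CZ.IBAS

/-!
# Critical zeros (MP_553913_nt), part (I), module DS: convolution identity in one frequency
-/

set_option autoImplicit false

open Complex Finset MeasureTheory

namespace Pool.Agent.CZ

open Pool.Agent.H5 (c bd)
open Pool.Agent.ZD (gk eps gk_eq)
open Pool.Agent.ZD.E1 (norm_eps_le norm_bd_le)

/-- the window decays faster than any power -/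
theorem ds_ga_le (x : ℝ) (N : ℕ) {n : ℕ} (hn : 0 < n) :
    ga x n ≤ Real.exp (N * x + N ^ 2 / 2) * ((n : ℝ) ^ N)⁻¹ := by
  have hn' : (0 : ℝ) < n := by exact_mod_cast hn
  have h1 : ((n : ℝ) ^ N)⁻¹ = Real.exp (-(N * Real.log n)) := by
    rw [Real.exp_neg, mul_comm, Real.exp_mul, Real.exp_log hn', Real.rpow_natCast]
  unfold ga
  rw [h1, ← Real.exp_add]
  apply Real.exp_le_exp.2
  nlinarith [sq_nonneg (Real.log n - x - N)]

theorem ds_ga_nonneg (x : ℝ) (n : ℕ) : 0 ≤ ga x n := (Real.exp_pos _).le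

theorem ds_norm_ga (x : ℝ) (n : ℕ) : ‖((ga x n : ℝ) : ℂ)‖ = ga x n := by
  rw [Complex.norm_real, Real.norm_of_nonneg (ds_ga_nonneg x n)]

theorem ds_norm_cpow_le (u : ℂ) {N M : ℕ} (hN : 0 < N) (hM : |u.re| ≤ M) :
    ‖(N : ℂ) ^ u‖ ≤ (N : ℝ) ^ M := by
  rw [Complex.norm_natCast_cpow_of_pos hN, ← Real.rpow_natCast]
  apply Real.rpow_le_rpow_of_exponent_le (by exact_mod_cast hN)
  exact (le_abs_self _).trans hM

theorem ds_eps_zero_left (k : ℤ) (q b : ℕ) : eps k q 0 b = 0 := by simp [eps]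

theorem ds_eps_zero_right (k : ℤ) (q b : ℕ) : eps k q b 0 = 0 := by simp [eps]

/-- the quadruple summand -/
noncomputable def dsQ (k : ℤ) (q : ℕ) (u : ℂ) (x t : ℝ) (p : (ℕ × ℕ) × (ℕ × ℕ)) : ℂ :=
  eps k q p.1.1 p.1.2 * ((bd q p.2.1 : ℂ) * (bd q p.2.2 : ℂ)) *
    (((p.1.1 * p.2.1) * (p.1.2 * p.2.2) : ℕ) : ℂ) ^ u *
    ((npow (p.1.1 * p.2.1) t * (ga x (p.1.1 * p.2.1) : ℂ)) *
      (npow (p.1.2 * p.2.2) (-t) * (ga x (p.1.2 * p.2.2) : ℂ)))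

/-- majorant -/
noncomputable def dsM (n : ℕ) : ℝ := ((n : ℝ) ^ 2)⁻¹

theorem dsM_nonneg (n : ℕ) : 0 ≤ dsM n := by unfold dsM; positivity

theorem dsM_summable : Summable dsM := Real.summable_nat_pow_inv.2 one_lt_two

theorem dsM_summable2 : Summable (fun b : ℕ × ℕ => dsM b.1 * dsM b.2) :=
  dsM_summable.mul_of_nonneg dsM_summable dsM_nonneg dsM_nonneg

/-- bound for the factor in one variable -/
theorem ds_one (x t : ℝ) (M : ℕ) {b m : ℕ} (hb : 0 < b) (hm : 0 < m) :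
    ((b : ℝ) * m) ^ M * ((b : ℝ) ^ 6 * (m : ℝ) ^ 6) * ‖npow (b * m) t * (ga x (b * m) : ℂ)‖ ≤
      Real.exp ((M + 8 : ℕ) * x + (M + 8 : ℕ) ^ 2 / 2) * (dsM b * dsM m) := by
  have hbm : 0 < b * m := Nat.mul_pos hb hm
  have hb' : (0 : ℝ) < b := by exact_mod_cast hb
  have hm' : (0 : ℝ) < m := by exact_mod_cast hm
  have h1 := ds_ga_le x (M + 8) hbm
  have h2 : ‖npow (b * m) t‖ ≤ 1 := by
    rw [norm_npow hbm]
    exact inv_le_one_of_one_le₀ (by exact_mod_cast hbm)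
  rw [norm_mul, ds_norm_ga]
  calc _ ≤ ((b : ℝ) * m) ^ M * ((b : ℝ) ^ 6 * (m : ℝ) ^ 6) * (1 *
        (Real.exp ((M + 8 : ℕ) * x + (M + 8 : ℕ) ^ 2 / 2) * (((b * m : ℕ) : ℝ) ^ (M + 8))⁻¹)) := by
        have := ds_ga_nonneg x (b * m)
        gcongr
    _ = _ := by
        unfold dsM
        push_cast
        field_simp
        ring

theorem dsQ_le (k : ℤ) (q : ℕ) (u : ℂ) (x t : ℝ) {M : ℕ} (hM : |u.re| ≤ M)
    (p : (ℕ × ℕ) × (ℕ × ℕ)) :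
    ‖dsQ k q u x t p‖ ≤ Real.exp ((M + 8 : ℕ) * x + (M + 8 : ℕ) ^ 2 / 2) ^ 2 *
      ((dsM p.1.1 * dsM p.1.2) * (dsM p.2.1 * dsM p.2.2)) := by
  obtain ⟨⟨b₁, b₂⟩, m₁, m₂⟩ := p
  simp only [dsQ]
  have hnn : 0 ≤ Real.exp ((M + 8 : ℕ) * x + (M + 8 : ℕ) ^ 2 / 2) ^ 2 *
      ((dsM b₁ * dsM b₂) * (dsM m₁ * dsM m₂)) := by
    have := dsM_nonneg
    unfold dsM; positivity
  rcases Nat.eq_zero_or_pos b₁ with rfl | hb1
  · simpa [ds_eps_zero_left] using hnn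
  rcases Nat.eq_zero_or_pos b₂ with rfl | hb2
  · simpa [ds_eps_zero_right] using hnn
  rcases Nat.eq_zero_or_pos m₁ with rfl | hm1
  · simpa [Pool.Agent.H5.bd_zero] using hnn
  rcases Nat.eq_zero_or_pos m₂ with rfl | hm2
  · simpa [Pool.Agent.H5.bd_zero] using hnn
  have hN : 0 < (b₁ * m₁) * (b₂ * m₂) := by positivity
  have h1 := norm_eps_le k q b₁ b₂
  have h2 : ‖((bd q m₁ : ℤ) : ℂ)‖ ≤ (m₁ : ℝ) ^ 6 := by
    refine (norm_bd_le q m₁).trans ?_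
    exact pow_le_pow_right₀ (by exact_mod_cast hm1) (by norm_num)
  have h3 : ‖((bd q m₂ : ℤ) : ℂ)‖ ≤ (m₂ : ℝ) ^ 6 := by
    refine (norm_bd_le q m₂).trans ?_
    exact pow_le_pow_right₀ (by exact_mod_cast hm2) (by norm_num)
  have h4 := ds_norm_cpow_le u hN hM
  have h5 := ds_one x t M hb1 hm1
  have h6 := ds_one x (-t) M hb2 hm2
  rw [norm_mul, norm_mul, norm_mul, norm_mul, norm_mul]
  calc _ ≤ (((b₁ : ℝ) * b₂) ^ 6 * ((m₁ : ℝ) ^ 6 * (m₂ : ℝ) ^ 6) *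
        (((b₁ * m₁) * (b₂ * m₂) : ℕ) : ℝ) ^ M) *
        (‖npow (b₁ * m₁) t * (ga x (b₁ * m₁) : ℂ)‖ *
          ‖npow (b₂ * m₂) (-t) * (ga x (b₂ * m₂) : ℂ)‖) := by gcongr
    _ = (((b₁ : ℝ) * m₁) ^ M * ((b₁ : ℝ) ^ 6 * (m₁ : ℝ) ^ 6) *
          ‖npow (b₁ * m₁) t * (ga x (b₁ * m₁) : ℂ)‖) *
        (((b₂ : ℝ) * m₂) ^ M * ((b₂ : ℝ) ^ 6 * (m₂ : ℝ) ^ 6) *
          ‖npow (b₂ * m₂) (-t) * (ga x (b₂ * m₂) : ℂ)‖) := by
        push_cast
        ring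
    _ ≤ (Real.exp ((M + 8 : ℕ) * x + (M + 8 : ℕ) ^ 2 / 2) * (dsM b₁ * dsM m₁)) *
        (Real.exp ((M + 8 : ℕ) * x + (M + 8 : ℕ) ^ 2 / 2) * (dsM b₂ * dsM m₂)) := by
        refine mul_le_mul h5 h6 (by positivity) ?_
        have := dsM_nonneg
        unfold dsM; positivity
    _ = _ := by ring

theorem dsQ_summable (k : ℤ) (q : ℕ) (u : ℂ) (x t : ℝ) :
    Summable (fun p => ‖dsQ k q u x t p‖) := by
  obtain ⟨M, hM⟩ := exists_nat_ge |u.re|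
  have s4 := dsM_summable2.mul_of_nonneg dsM_summable2
    (fun p => mul_nonneg (dsM_nonneg _) (dsM_nonneg _))
    (fun p => mul_nonneg (dsM_nonneg _) (dsM_nonneg _))
  exact Summable.of_nonneg_of_le (fun p => norm_nonneg _) (fun p => dsQ_le k q u x t hM p)
    (s4.mul_left _)

/-- the sum over `m` for fixed `b` -/
theorem dsQ_right (k : ℤ) (q : ℕ) (u : ℂ) (x t : ℝ) (b : ℕ × ℕ) :
    ∑' m : ℕ × ℕ, dsQ k q u x t (b, m) =
      Real.exp (2 * u.re * x + u.re ^ 2) * (eps k q b.1 b.2 *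
        ((npow b.1 (t - u.im) * BB q (x + u.re - Real.log b.1) (t - u.im)) *
         (npow b.2 (-t - u.im) * BB q (x + u.re - Real.log b.2) (-t - u.im)))) := by
  obtain ⟨b₁, b₂⟩ := b
  rcases Nat.eq_zero_or_pos b₁ with rfl | hb1
  · simp [dsQ, ds_eps_zero_left]
  rcases Nat.eq_zero_or_pos b₂ with rfl | hb2
  · simp [dsQ, ds_eps_zero_right]
  obtain ⟨s1, e1⟩ := BB_tilt q b₁ hb1 u x t
  obtain ⟨s2, e2⟩ := BB_tilt q b₂ hb2 u x (-t)
  have h : ∀ m : ℕ × ℕ, dsQ k q u x t ((b₁, b₂), m) = eps k q b₁ b₂ *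
      (((bd q m.1 : ℂ) * (((b₁ * m.1 : ℕ) : ℂ) ^ u * (npow (b₁ * m.1) t * (ga x (b₁ * m.1) : ℂ)))) *
      ((bd q m.2 : ℂ) * (((b₂ * m.2 : ℕ) : ℂ) ^ u *
        (npow (b₂ * m.2) (-t) * (ga x (b₂ * m.2) : ℂ))))) := by
    rintro ⟨m₁, m₂⟩
    simp only [dsQ]
    have e1 : (((b₁ * m₁) * (b₂ * m₂) : ℕ) : ℂ) ^ u =
        ((b₁ * m₁ : ℕ) : ℂ) ^ u * ((b₂ * m₂ : ℕ) : ℂ) ^ u := by
      rw [← Complex.natCast_mul_natCast_cpow, ← Nat.cast_mul]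
    rw [e1]
    ring
  rw [tsum_congr h, tsum_mul_left, ← tsum_mul_tsum_of_summable_norm s1 s2, e1, e2]
  have h3 : (Real.exp (2 * u.re * x + u.re ^ 2) : ℂ) =
      (Real.exp (u.re * x + u.re ^ 2 / 2) : ℂ) * (Real.exp (u.re * x + u.re ^ 2 / 2) : ℂ) := by
    rw [← Complex.ofReal_mul, ← Real.exp_add]
    congr 2
    ring
  simp only
  rw [h3]
  ring

/-- the sum over the fibre of `(n₁, n₂)` -/
theorem dsQ_left (k : ℤ) (q : ℕ) (u : ℂ) (x t : ℝ) (n : ℕ × ℕ) :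
    ∑' p : (fun p : (ℕ × ℕ) × (ℕ × ℕ) => (p.1.1 * p.2.1, p.1.2 * p.2.2)) ⁻¹' {n},
      dsQ k q u x t p = gk k n.1 n.2 * ((n.1 * n.2 : ℕ) : ℂ) ^ u *
      ((npow n.1 t * (ga x n.1 : ℂ)) * (npow n.2 (-t) * (ga x n.2 : ℂ))) := by
  classical
  obtain ⟨n₁, n₂⟩ := n
  by_cases hn : n₁ = 0 ∨ n₂ = 0
  · have hg : gk k n₁ n₂ = 0 := by
      unfold gk
      rcases hn with h | h <;> subst h <;> simp [Pool.Agent.H5.c_zero]
    simp only [hg, zero_mul]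
    convert tsum_zero with p
    obtain ⟨⟨⟨b₁, b₂⟩, m₁, m₂⟩, hp⟩ := p
    simp only [Set.mem_preimage, Set.mem_singleton_iff, Prod.mk.injEq] at hp
    simp only [dsQ]
    obtain ⟨hp1, hp2⟩ := hp
    rcases hn with h | h
    · rw [h] at hp1
      rcases Nat.mul_eq_zero.1 hp1 with h' | h' <;> subst h'
      · simp [ds_eps_zero_left]
      · simp [Pool.Agent.H5.bd_zero]
    · rw [h] at hp2
      rcases Nat.mul_eq_zero.1 hp2 with h' | h' <;> subst h'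
      · simp [ds_eps_zero_right]
      · simp [Pool.Agent.H5.bd_zero]
  · push Not at hn
    have hn1 : 0 < n₁ := Nat.pos_of_ne_zero hn.1
    have hn2 : 0 < n₂ := Nat.pos_of_ne_zero hn.2
    have hset : (fun p : (ℕ × ℕ) × (ℕ × ℕ) => (p.1.1 * p.2.1, p.1.2 * p.2.2)) ⁻¹' {(n₁, n₂)} =
        (((n₁.divisors ×ˢ n₂.divisors).image
          (fun b : ℕ × ℕ => (b, (n₁ / b.1, n₂ / b.2))) : Finset ((ℕ × ℕ) × (ℕ × ℕ))) :
          Set ((ℕ × ℕ) × (ℕ × ℕ))) := by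
      ext ⟨⟨b₁, b₂⟩, m₁, m₂⟩
      simp only [Set.mem_preimage, Set.mem_singleton_iff, Prod.mk.injEq, Finset.coe_image,
        Set.mem_image, Finset.mem_coe, Finset.mem_product, Nat.mem_divisors, Prod.exists]
      constructor
      · rintro ⟨h1, h2⟩
        refine ⟨b₁, b₂, ⟨⟨⟨m₁, h1.symm⟩, hn1.ne'⟩, ⟨m₂, h2.symm⟩, hn2.ne'⟩, ⟨rfl, rfl⟩, ?_, ?_⟩
        · rw [← h1]
          apply Nat.mul_div_cancel_left
          rcases Nat.eq_zero_or_pos b₁ with h | h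
          · subst h; simp at h1; omega
          · exact h
        · rw [← h2]
          apply Nat.mul_div_cancel_left
          rcases Nat.eq_zero_or_pos b₂ with h | h
          · subst h; simp at h2; omega
          · exact h
      · rintro ⟨a, b, ⟨⟨h1, _⟩, h2, _⟩, ⟨rfl, rfl⟩, rfl, rfl⟩
        exact ⟨Nat.mul_div_cancel' h1, Nat.mul_div_cancel' h2⟩
    rw [hset, Finset.tsum_subtype', Finset.sum_image (by
      intro a _ b _ hab
      exact (Prod.mk.inj hab).1), Finset.sum_product]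
    simp only
    rw [gk_eq k q hn1 hn2, Finset.sum_mul, Finset.sum_mul]
    apply Finset.sum_congr rfl
    intro y hy
    rw [Finset.sum_mul, Finset.sum_mul]
    apply Finset.sum_congr rfl
    intro z hz
    simp only [dsQ]
    rw [Nat.mul_div_cancel' (Nat.dvd_of_mem_divisors hy),
      Nat.mul_div_cancel' (Nat.dvd_of_mem_divisors hz)]

/-- double series of norms over the fibres -/
theorem ds_norm_fibre (k : ℤ) (q : ℕ) (u : ℂ) (x t : ℝ) :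
    Summable (fun n : ℕ × ℕ => ‖gk k n.1 n.2 * ((n.1 * n.2 : ℕ) : ℂ) ^ u *
      ((npow n.1 t * (ga x n.1 : ℂ)) * (npow n.2 (-t) * (ga x n.2 : ℂ)))‖) := by
  have hQ := dsQ_summable k q u x t
  have hF := hQ.hasSum.tsum_fiberwise (fun p : (ℕ × ℕ) × (ℕ × ℕ) => (p.1.1 * p.2.1, p.1.2 * p.2.2))
  refine Summable.of_nonneg_of_le (fun n => norm_nonneg _) (fun n => ?_) hF.summable
  rw [← dsQ_left k q u x t n]
  exact norm_tsum_le_tsum_norm (hQ.comp_injective Subtype.val_injective)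

theorem DS (k : ℤ) (q : ℕ) (u : ℂ) (x t : ℝ) :
    Summable (fun n : ℕ × ℕ => ‖gk k n.1 n.2 * ((n.1 * n.2 : ℕ) : ℂ) ^ u *
      ((npow n.1 t * (ga x n.1 : ℂ)) * (npow n.2 (-t) * (ga x n.2 : ℂ)))‖) ∧
    ∑' n : ℕ × ℕ, gk k n.1 n.2 * ((n.1 * n.2 : ℕ) : ℂ) ^ u *
      ((npow n.1 t * (ga x n.1 : ℂ)) * (npow n.2 (-t) * (ga x n.2 : ℂ))) =
    Real.exp (2 * u.re * x + u.re ^ 2) * YS k q (x + u.re) (t - u.im) (-t - u.im) := by
  refine ⟨ds_norm_fibre k q u x t, ?_⟩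
  have hQ : Summable (dsQ k q u x t) := (dsQ_summable k q u x t).of_norm
  have hF := hQ.hasSum.tsum_fiberwise (fun p : (ℕ × ℕ) × (ℕ × ℕ) => (p.1.1 * p.2.1, p.1.2 * p.2.2))
  simp only [dsQ_left] at hF
  rw [hF.tsum_eq, hQ.tsum_prod]
  simp only [dsQ_right]
  rw [tsum_mul_left]
  rfl

/-- majorant for the terms of `YS` -/
theorem ds_ys_le (x : ℝ) (A : ℕ) : ∃ K : ℝ, 0 ≤ K ∧ ∀ (k : ℤ) (q : ℕ) (t₁ t₂ : ℝ) (b : ℕ × ℕ),
    ((b.1 * b.2 : ℕ) : ℝ) ^ A * ‖eps k q b.1 b.2 *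
      ((npow b.1 t₁ * BB q (x - Real.log b.1) t₁) * (npow b.2 t₂ * BB q (x - Real.log b.2) t₂))‖ ≤
      K * (dsM b.1 * dsM b.2) := by
  obtain ⟨C, hC, h⟩ := BB_crude (A + 7)
  refine ⟨(C * Real.exp (((A + 7 : ℕ) + 1) * x)) ^ 2, by positivity, ?_⟩
  rintro k q t₁ t₂ ⟨b₁, b₂⟩
  simp only
  have hnn : 0 ≤ (C * Real.exp (((A + 7 : ℕ) + 1) * x)) ^ 2 * (dsM b₁ * dsM b₂) := by
    unfold dsM; positivity
  rcases Nat.eq_zero_or_pos b₁ with rfl | hb1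
  · simpa [ds_eps_zero_left] using hnn
  rcases Nat.eq_zero_or_pos b₂ with rfl | hb2
  · simpa [ds_eps_zero_right] using hnn
  have key : ∀ (b : ℕ) (hb : 0 < b) (t : ℝ), ‖npow b t * BB q (x - Real.log b) t‖ ≤
      C * Real.exp (((A + 7 : ℕ) + 1) * x) * ((b : ℝ) ^ (A + 8))⁻¹ := by
    intro b hb t
    have hb' : (0 : ℝ) < b := by exact_mod_cast hb
    have h2 : ‖npow b t‖ ≤ 1 := by
      rw [norm_npow hb]
      exact inv_le_one_of_one_le₀ (by exact_mod_cast hb)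
    have h1 := h q (x - Real.log b) t
    have h3 : Real.exp (((A + 7 : ℕ) + 1) * (x - Real.log b)) =
        Real.exp (((A + 7 : ℕ) + 1) * x) * ((b : ℝ) ^ (A + 8))⁻¹ := by
      have h4 : ((b : ℝ) ^ (A + 8))⁻¹ = Real.exp (-((A + 8 : ℕ) * Real.log b)) := by
        rw [Real.exp_neg, mul_comm, Real.exp_mul, Real.exp_log hb', Real.rpow_natCast]
      rw [h4, ← Real.exp_add]
      congr 1
      push_cast
      ring
    rw [norm_mul]
    calc _ ≤ 1 * (C * Real.exp (((A + 7 : ℕ) + 1) * (x - Real.log b))) := by gcongr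
      _ = _ := by rw [h3]; ring
  have h1 := norm_eps_le k q b₁ b₂
  have h5 := key b₁ hb1 t₁
  have h6 := key b₂ hb2 t₂
  have hb1' : (0 : ℝ) < b₁ := by exact_mod_cast hb1
  have hb2' : (0 : ℝ) < b₂ := by exact_mod_cast hb2
  rw [norm_mul, norm_mul]
  calc _ ≤ ((b₁ * b₂ : ℕ) : ℝ) ^ A * (((b₁ : ℝ) * b₂) ^ 6 *
        ((C * Real.exp (((A + 7 : ℕ) + 1) * x) * ((b₁ : ℝ) ^ (A + 8))⁻¹) *
        (C * Real.exp (((A + 7 : ℕ) + 1) * x) * ((b₂ : ℝ) ^ (A + 8))⁻¹))) := by gcongr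
    _ = _ := by
        unfold dsM
        push_cast
        field_simp
        ring

theorem YS_summable (k : ℤ) (q : ℕ) (x t₁ t₂ : ℝ) (A : ℕ) :
    Summable (fun b : ℕ × ℕ => ((b.1 * b.2 : ℕ) : ℝ) ^ A * ‖eps k q b.1 b.2 *
      ((npow b.1 t₁ * BB q (x - Real.log b.1) t₁) * (npow b.2 t₂ * BB q (x - Real.log b.2) t₂))‖) := by
  obtain ⟨K, _, h⟩ := ds_ys_le x A
  exact Summable.of_nonneg_of_le (fun b => by positivity) (fun b => h k q t₁ t₂ b)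
    (dsM_summable2.mul_left K)

theorem ds_npow_cont (n : ℕ) : Continuous (fun t : ℝ => npow n t) := by
  unfold npow
  have h1 : Continuous (fun t : ℝ => -(1 + (t : ℂ) * I)) := by fun_prop
  refine h1.const_cpow (Or.inr fun t h => ?_)
  have := congrArg Complex.re h
  simp at this

theorem ds_term_le (k : ℤ) (q : ℕ) (x : ℝ) : ∃ K : ℝ, 0 ≤ K ∧ ∀ (t₁ t₂ : ℝ) (b : ℕ × ℕ),
    ‖eps k q b.1 b.2 * ((npow b.1 t₁ * BB q (x - Real.log b.1) t₁) *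
      (npow b.2 t₂ * BB q (x - Real.log b.2) t₂))‖ ≤ K * (dsM b.1 * dsM b.2) := by
  obtain ⟨K, hK, h⟩ := ds_ys_le x 0
  refine ⟨K, hK, fun t₁ t₂ b => ?_⟩
  have := h k q t₁ t₂ b
  rwa [pow_zero, one_mul] at this

theorem ds_term_cont (k : ℤ) (q : ℕ) (x : ℝ) (b : ℕ × ℕ) : Continuous (fun p : ℝ × ℝ =>
    eps k q b.1 b.2 * ((npow b.1 p.1 * BB q (x - Real.log b.1) p.1) *
      (npow b.2 p.2 * BB q (x - Real.log b.2) p.2))) := by
  have hB : ∀ (y : ℝ) (f : ℝ × ℝ → ℝ), Continuous f →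
      Continuous (fun p : ℝ × ℝ => BB q y (f p)) := fun y f hf => by
    have h5 : Continuous (fun p : ℝ × ℝ => ((y, f p) : ℝ × ℝ)) := by fun_prop
    have h6 := (BB_cont (q : ℤ)).comp h5
    simp only [Function.comp_def] at h6
    exact h6
  have h1 : Continuous (fun p : ℝ × ℝ => npow b.1 p.1) := (ds_npow_cont b.1).comp continuous_fst
  have h2 : Continuous (fun p : ℝ × ℝ => npow b.2 p.2) := (ds_npow_cont b.2).comp continuous_snd
  have h3 := hB (x - Real.log b.1) Prod.fst continuous_fst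
  have h4 := hB (x - Real.log b.2) Prod.snd continuous_snd
  exact continuous_const.mul ((h1.mul h3).mul (h2.mul h4))

theorem YS_cont (k : ℤ) (q : ℕ) (x : ℝ) : Continuous (fun p : ℝ × ℝ => YS k q x p.1 p.2) := by
  obtain ⟨K, hK, h⟩ := ds_term_le k q x
  exact continuous_tsum (ds_term_cont k q x) (dsM_summable2.mul_left K) (fun b p => h p.1 p.2 b)

theorem YS_bdd (k : ℤ) (q : ℕ) (x : ℝ) : ∃ K : ℝ, ∀ t₁ t₂ : ℝ, ‖YS k q x t₁ t₂‖ ≤ K := by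
  obtain ⟨K, hK, h⟩ := ds_term_le k q x
  refine ⟨∑' b : ℕ × ℕ, K * (dsM b.1 * dsM b.2), fun t₁ t₂ => ?_⟩
  unfold YS
  exact tsum_of_norm_bounded (dsM_summable2.mul_left K).hasSum (fun b => h t₁ t₂ b)

end Pool.Agent.CZ
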