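import Mathlib
import Pool.Agent.CZ.IDS
import Pool.Agent.ZD.K1

/-! Module I_PTERM: the contribution of one frequency. -/

set_option autoImplicit false

open Complex Finset MeasureTheory

namespace Pool.Agent.CZ

open Pool.Agent.H5 (c bd)
open Pool.Agent.ZD (gk eps K1G K1G_norm_le K1G_cont K1G_int K1_term K1_gk_zero K1_cpow_pos
  K1_integrable_exp_abs)

/-- the integrand of one frequency is integrable -/
theorem pterm_int (k : ℤ) (q : ℕ) (y t : ℝ) :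
    Integrable (fun τ : ℝ => Real.exp (-|τ|) * ‖YS k q y (t - 2 * τ) (-t - 2 * τ)‖) := by
  obtain ⟨K, hK⟩ := YS_bdd k q y
  have h1 : Integrable (fun τ : ℝ => Real.exp (-|τ|)) := by
    have := K1_integrable_exp_abs (c := 1) one_pos
    simpa using this
  refine (h1.mul_const K).mono' ?_ ?_
  · apply Continuous.aestronglyMeasurable
    have h2 : Continuous (fun τ : ℝ => YS k q y (t - 2 * τ) (-t - 2 * τ)) :=
      (YS_cont k q y).comp (f := fun τ : ℝ => ((t - 2 * τ, -t - 2 * τ) : ℝ × ℝ)) (by fun_prop)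
    exact (by fun_prop : Continuous (fun τ : ℝ => Real.exp (-|τ|))).mul h2.norm
  · filter_upwards with τ
    rw [Real.norm_of_nonneg (by positivity)]
    exact mul_le_mul_of_nonneg_left (hK _ _) (Real.exp_pos _).le

theorem P_term {σ : ℝ} (hσ : 0 < σ) : ∃ C : ℝ, 0 < C ∧ ∀ (k : ℤ) (q : ℕ) (Z x t : ℝ), k ≠ 0 → 0 < Z →
    Integrable (fun τ : ℝ => Real.exp (-|τ|) *
      ‖YS k q (x + (2 * σ - 1 / 2)) (t - 2 * τ) (-t - 2 * τ)‖) ∧
    ‖PK k Z x t‖ ≤ C * (|(k : ℝ)| * Z) ^ (-(2 * σ)) * Real.exp ((4 * σ - 1) * x) *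
      ∫ τ : ℝ, Real.exp (-|τ|) * ‖YS k q (x + (2 * σ - 1 / 2)) (t - 2 * τ) (-t - 2 * τ)‖ := by
  have hcos1 : 0 < Real.cos 1 := Real.cos_one_pos
  set G : ℝ := Real.Gamma σ * (1 / Real.cos 1) ^ σ with hG
  have hG0 : 0 < G := mul_pos (Real.Gamma_pos_of_pos hσ) (by positivity)
  refine ⟨G * Real.exp ((2 * σ - 1 / 2) ^ 2), by positivity, ?_⟩
  intro k q Z x t hk hZ
  have hint0 := pterm_int k q (x + (2 * σ - 1 / 2)) t
  refine ⟨hint0, ?_⟩
  have hkR : (k : ℝ) ≠ 0 := by exact_mod_cast hk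
  set P : ℝ := Real.pi * (k : ℝ) ^ 2 * Z ^ 2 with hPdef
  have hP : 0 < P := by
    have : 0 < (k : ℝ) ^ 2 := by positivity
    positivity
  set En : ℕ × ℕ → ℂ := fun n => (npow n.1 t * (ga x n.1 : ℂ)) * (npow n.2 (-t) * (ga x n.2 : ℂ))
    with hEn
  set F : ℕ × ℕ → ℝ → ℂ := fun n τ =>
    K1G P σ τ * (gk k n.1 n.2 * ((n.1 * n.2 : ℕ) : ℂ) ^ (((2 * σ : ℝ) : ℂ) + 2 * τ * I - 1 / 2) * En n)
    with hF
  -- termwise identity
  have hterm : ∀ n : ℕ × ℕ, gk k n.1 n.2 * ((Real.sqrt (n.1 * n.2 : ℕ) : ℝ) : ℂ)⁻¹ *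
        exp (-(Real.pi * k ^ 2 * Z ^ 2 / ((n.1 * n.2 : ℕ) : ℂ) ^ 2)) * En n =
      (1 / (2 * Real.pi) : ℂ) * ∫ τ : ℝ, F n τ := by
    intro n
    rcases Nat.eq_zero_or_pos (n.1 * n.2) with h0 | hpos
    · simp only [hF]
      rw [K1_gk_zero h0]
      simp
    · have h := K1_term hP hσ hpos
      have e : exp (-(Real.pi * k ^ 2 * Z ^ 2 / ((n.1 * n.2 : ℕ) : ℂ) ^ 2)) =
          exp (-((P : ℂ) / ((n.1 * n.2 : ℕ) : ℂ) ^ 2)) := by
        rw [hPdef]; push_cast; rfl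
      rw [e]
      have e2 : gk k n.1 n.2 * ((Real.sqrt (n.1 * n.2 : ℕ) : ℝ) : ℂ)⁻¹ *
        exp (-((P : ℂ) / ((n.1 * n.2 : ℕ) : ℂ) ^ 2)) * En n = gk k n.1 n.2 * En n *
          (((Real.sqrt (n.1 * n.2 : ℕ) : ℝ) : ℂ)⁻¹ *
            exp (-((P : ℂ) / ((n.1 * n.2 : ℕ) : ℂ) ^ 2))) := by ring
      rw [e2, h, mul_left_comm, ← integral_const_mul]
      congr 2
      funext τ
      simp only [hF]
      ring
  -- norms of the terms
  set W : ℕ × ℕ → ℂ := fun n => gk k n.1 n.2 * ((n.1 * n.2 : ℕ) : ℂ) ^ (((2 * σ - 1 / 2 : ℝ) : ℂ)) * En n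
    with hW
  have hWsum : Summable (fun n => ‖W n‖) := (DS k q ((2 * σ - 1 / 2 : ℝ) : ℂ) x t).1
  have hFnorm : ∀ n τ, ‖F n τ‖ = ‖K1G P σ τ‖ * ‖W n‖ := by
    intro n τ
    simp only [hF, hW, norm_mul]
    rcases Nat.eq_zero_or_pos (n.1 * n.2) with h0 | hpos
    · rw [K1_gk_zero h0]; simp
    · have hmR : (0:ℝ) < ((n.1 * n.2 : ℕ) : ℝ) := by exact_mod_cast hpos
      have e1 := Complex.norm_cpow_eq_rpow_re_of_pos hmR (((2 * σ : ℝ) : ℂ) + 2 * τ * I - 1 / 2)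
      have e2 := Complex.norm_cpow_eq_rpow_re_of_pos hmR (((2 * σ - 1 / 2 : ℝ) : ℂ))
      have e3 : (((2 * σ : ℝ) : ℂ) + 2 * τ * I - 1 / 2).re = (((2 * σ - 1 / 2 : ℝ) : ℂ)).re := by
        simp
      rw [e3, ← e2] at e1
      rw [Complex.ofReal_natCast] at e1
      rw [e1]
  have hFint : ∀ n, Integrable (F n) := by
    intro n
    have hcont : Continuous (F n) := by
      simp only [hF]
      rcases Nat.eq_zero_or_pos (n.1 * n.2) with h0 | hpos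
      · rw [K1_gk_zero h0]
        simp only [zero_mul, mul_zero]
        exact continuous_const
      · refine (K1G_cont hP hσ).mul ?_
        refine Continuous.mul (Continuous.mul continuous_const ?_) continuous_const
        have hmR : (0:ℝ) < ((n.1 * n.2 : ℕ) : ℝ) := by exact_mod_cast hpos
        have : (fun τ : ℝ => ((n.1 * n.2 : ℕ) : ℂ) ^ (((2 * σ : ℝ) : ℂ) + 2 * τ * I - 1 / 2)) =
            fun τ : ℝ => exp ((Real.log ((n.1 * n.2 : ℕ) : ℝ) : ℂ) *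
              (((2 * σ : ℝ) : ℂ) + 2 * τ * I - 1 / 2)) := by
          funext τ
          have := K1_cpow_pos hmR (((2 * σ : ℝ) : ℂ) + 2 * τ * I - 1 / 2)
          rwa [Complex.ofReal_natCast] at this
        rw [this]
        fun_prop
    refine ((K1G_int hP hσ).norm.mul_const ‖W n‖).mono' hcont.aestronglyMeasurable ?_
    filter_upwards with τ
    rw [hFnorm]
  have hFsum : Summable (fun n => ∫ τ, ‖F n τ‖) := by
    have e : (fun n => ∫ τ, ‖F n τ‖) = fun n => (∫ τ, ‖K1G P σ τ‖) * ‖W n‖ := by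
      funext n
      simp_rw [hFnorm]
      rw [integral_mul_const]
    rw [e]
    exact hWsum.mul_left _
  have hmain := hasSum_integral_of_summable_integral_norm hFint hFsum
  -- the sum over n at fixed τ
  have hτ : ∀ τ : ℝ, ‖∑' n, F n τ‖ ≤
      (P ^ (-σ) * G * Real.exp ((2 * σ - 1 / 2) ^ 2) * Real.exp ((4 * σ - 1) * x)) *
        (Real.exp (-|τ|) * ‖YS k q (x + (2 * σ - 1 / 2)) (t - 2 * τ) (-t - 2 * τ)‖) := by
    intro τ
    set u : ℂ := ((2 * σ : ℝ) : ℂ) + 2 * τ * I - 1 / 2 with hu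
    have hure : u.re = 2 * σ - 1 / 2 := by rw [hu]; simp
    have huim : u.im = 2 * τ := by rw [hu]; simp
    have h3 := (DS k q u x t).2
    rw [hure, huim] at h3
    have e1 : ∑' n, F n τ = K1G P σ τ * ((Real.exp (2 * (2 * σ - 1 / 2) * x + (2 * σ - 1 / 2) ^ 2) : ℝ) *
        YS k q (x + (2 * σ - 1 / 2)) (t - 2 * τ) (-t - 2 * τ)) := by
      rw [← h3, ← tsum_mul_left]
    rw [e1, norm_mul, norm_mul, Complex.norm_real, Real.norm_of_nonneg (Real.exp_pos _).le]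
    have h5 := K1G_norm_le hP hσ τ
    rw [← hG] at h5
    have e2 : Real.exp (2 * (2 * σ - 1 / 2) * x + (2 * σ - 1 / 2) ^ 2) =
        Real.exp ((2 * σ - 1 / 2) ^ 2) * Real.exp ((4 * σ - 1) * x) := by
      rw [← Real.exp_add]; congr 1; ring
    rw [e2]
    calc ‖K1G P σ τ‖ * (Real.exp ((2 * σ - 1 / 2) ^ 2) * Real.exp ((4 * σ - 1) * x) *
          ‖YS k q (x + (2 * σ - 1 / 2)) (t - 2 * τ) (-t - 2 * τ)‖)
        ≤ (P ^ (-σ) * G * Real.exp (-|τ|)) *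
          (Real.exp ((2 * σ - 1 / 2) ^ 2) * Real.exp ((4 * σ - 1) * x) *
          ‖YS k q (x + (2 * σ - 1 / 2)) (t - 2 * τ) (-t - 2 * τ)‖) :=
          mul_le_mul_of_nonneg_right h5 (by positivity)
      _ = _ := by ring
  have hsumeq : PK k Z x t = (1 / (2 * Real.pi) : ℂ) * ∫ τ : ℝ, ∑' n, F n τ := by
    rw [← hmain.tsum_eq, ← tsum_mul_left]
    exact tsum_congr hterm
  rw [hsumeq, norm_mul]
  have hint : ‖∫ τ : ℝ, ∑' n, F n τ‖ ≤
      (P ^ (-σ) * G * Real.exp ((2 * σ - 1 / 2) ^ 2) * Real.exp ((4 * σ - 1) * x)) *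
        ∫ τ : ℝ, Real.exp (-|τ|) * ‖YS k q (x + (2 * σ - 1 / 2)) (t - 2 * τ) (-t - 2 * τ)‖ := by
    rw [← integral_const_mul]
    exact norm_integral_le_of_norm_le (hint0.const_mul _) (Filter.Eventually.of_forall hτ)
  have hPle : P ^ (-σ) ≤ (|(k : ℝ)| * Z) ^ (-(2 * σ)) := by
    have hkZ : 0 < |(k : ℝ)| * Z := by positivity
    have e1 : (|(k : ℝ)| * Z) ^ (-(2 * σ)) = ((|(k : ℝ)| * Z) ^ 2) ^ (-σ) := by
      rw [← Real.rpow_natCast, ← Real.rpow_mul hkZ.le]; congr 1; push_cast; ring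
    rw [e1]
    apply Real.rpow_le_rpow_of_nonpos (by positivity) _ (by linarith)
    rw [hPdef, mul_pow, sq_abs, mul_assoc]
    have : 0 ≤ (k : ℝ) ^ 2 * Z ^ 2 := by positivity
    nlinarith [Real.pi_gt_three]
  have hpi : ‖(1 / (2 * Real.pi) : ℂ)‖ ≤ 1 := by
    have : (1 / (2 * Real.pi) : ℂ) = ((1 / (2 * Real.pi) : ℝ) : ℂ) := by push_cast; rfl
    rw [this, Complex.norm_real, Real.norm_of_nonneg (by positivity), div_le_one (by positivity)]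
    linarith [Real.pi_gt_three]
  have hI0 : 0 ≤ ∫ τ : ℝ, Real.exp (-|τ|) * ‖YS k q (x + (2 * σ - 1 / 2)) (t - 2 * τ) (-t - 2 * τ)‖ :=
    integral_nonneg (fun τ => by positivity)
  calc ‖(1 / (2 * Real.pi) : ℂ)‖ * ‖∫ τ : ℝ, ∑' n, F n τ‖
      ≤ 1 * ‖∫ τ : ℝ, ∑' n, F n τ‖ := mul_le_mul_of_nonneg_right hpi (norm_nonneg _)
    _ = ‖∫ τ : ℝ, ∑' n, F n τ‖ := one_mul _
    _ ≤ _ := hint
    _ ≤ ((|(k : ℝ)| * Z) ^ (-(2 * σ)) * G * Real.exp ((2 * σ - 1 / 2) ^ 2) *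
          Real.exp ((4 * σ - 1) * x)) *
        ∫ τ : ℝ, Real.exp (-|τ|) * ‖YS k q (x + (2 * σ - 1 / 2)) (t - 2 * τ) (-t - 2 * τ)‖ := by
        gcongr
    _ = _ := by ring

end Pool.Agent.CZ
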