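import Mathlib
import Pool.Agent.CZ.IDefs
import Pool.Agent.CZ.InpARI
import Pool.Agent.CZ.InpAR
import Pool.Agent.ZD.E2A

/-!
Critical zeros for the twists (MP_553913_nt), part (I): the array `G1` and its Dirichlet series.
-/

set_option autoImplicit false

open Complex Finset MeasureTheory

namespace Pool.Agent.CZ

open Pool.Agent.H5 (c bd)
open Pool.Agent.ZD (S Lf gk eps MM tau)
open Pool.Agent.CZ.Inp (lam A2 R1)

/-! ### bound -/

theorem g1_div_card_le {d n : ℕ} (h : d ∣ n) (hn : n ≠ 0) : d.divisors.card ≤ n.divisors.card :=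
  Finset.card_le_card (Nat.divisors_subset_of_dvd hn h)

theorem g1_le5 {a b : ℕ} (ha : 0 < a) (hb : 0 < b) :
    |G1 a b| ≤ ((a * b).divisors.card : ℝ) ^ 5 := by
  set D : ℝ := ((a * b).divisors.card : ℝ) with hD
  have hab : a * b ≠ 0 := (Nat.mul_pos ha hb).ne'
  have hD0 : 0 ≤ D := Nat.cast_nonneg _
  have key : ∀ l ∈ (a.gcd b).divisors,
      |(if IsSquare (a / l) ∧ IsSquare (b / l) then lam (a / l) * lam (b / l) * lam l ^ 2 else 0)|
        ≤ D ^ 4 := by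
    intro l hl
    have hl' := Nat.dvd_of_mem_divisors hl
    have hla : l ∣ a := hl'.trans (Nat.gcd_dvd_left a b)
    have hlb : l ∣ b := hl'.trans (Nat.gcd_dvd_right a b)
    split_ifs with h
    · have h1 : |lam (a / l)| ≤ D := (Inp.abs_lam_le _).trans (by
        rw [hD]
        exact_mod_cast g1_div_card_le ((Nat.div_dvd_of_dvd hla).trans (Dvd.intro _ rfl)) hab)
      have h2 : |lam (b / l)| ≤ D := (Inp.abs_lam_le _).trans (by
        rw [hD]
        exact_mod_cast g1_div_card_le ((Nat.div_dvd_of_dvd hlb).trans (Dvd.intro_left _ rfl)) hab)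
      have h3 : |lam l| ≤ D := (Inp.abs_lam_le _).trans (by
        rw [hD]
        exact_mod_cast g1_div_card_le (hla.trans (Dvd.intro _ rfl)) hab)
      rw [abs_mul, abs_mul, abs_pow]
      calc |lam (a / l)| * |lam (b / l)| * |lam l| ^ 2 ≤ D * D * D ^ 2 := by
            gcongr
        _ = D ^ 4 := by ring
    · rw [abs_zero]; positivity
  unfold G1
  refine (Finset.abs_sum_le_sum_abs _ _).trans ((Finset.sum_le_sum key).trans ?_)
  rw [Finset.sum_const, nsmul_eq_mul]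
  have h4 : (((a.gcd b).divisors.card : ℕ) : ℝ) ≤ D := by
    rw [hD]
    exact_mod_cast g1_div_card_le ((Nat.gcd_dvd_left a b).trans (Dvd.intro _ rfl)) hab
  calc (((a.gcd b).divisors.card : ℕ) : ℝ) * D ^ 4 ≤ D * D ^ 4 := by gcongr
    _ = D ^ 5 := by ring

theorem G1_le : ∃ A : ℕ, ∀ a b : ℕ, 0 < a → 0 < b → |G1 a b| ≤ ((a * b).divisors.card : ℝ) ^ A :=
  ⟨5, fun _ _ ha hb => g1_le5 ha hb⟩

/-! ### multiplicativity -/

theorem g1_isSquare_mul {m n : ℕ} (h : m.Coprime n) :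
    IsSquare (m * n) ↔ IsSquare m ∧ IsSquare n := by
  constructor
  · rintro ⟨r, hr⟩
    have h1 : IsUnit (gcd m n) := by
      rw [Nat.isUnit_iff]; exact h
    have h2 : IsUnit (gcd n m) := by
      rw [Nat.isUnit_iff]; exact h.symm
    obtain ⟨d, hd⟩ := exists_eq_pow_of_mul_eq_pow h1 (k := 2) (c := r) (by rw [hr, sq])
    obtain ⟨e, he⟩ := exists_eq_pow_of_mul_eq_pow h2 (k := 2) (c := r) (by rw [mul_comm, hr, sq])
    exact ⟨⟨d, by rw [hd, sq]⟩, ⟨e, by rw [he, sq]⟩⟩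
  · rintro ⟨h1, h2⟩
    exact h1.mul h2

theorem g1_one : G1 1 1 = 1 := by
  unfold G1
  simp [Inp.lam_one]

theorem G1_mul {a b a' b' : ℕ} (h : (a * b).Coprime (a' * b')) :
    G1 (a * a') (b * b') = G1 a b * G1 a' b' := by
  by_cases h0 : a * b = 0
  · rw [h0, Nat.coprime_zero_left, mul_eq_one] at h
    rw [h.1, h.2, mul_one, mul_one, g1_one, mul_one]
  by_cases h0' : a' * b' = 0
  · rw [h0', Nat.coprime_zero_right, mul_eq_one] at h
    rw [h.1, h.2, one_mul, one_mul, g1_one, one_mul]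
  have ha : a.Coprime a' := Nat.Coprime.coprime_dvd_left (Dvd.intro _ rfl)
    (Nat.Coprime.coprime_dvd_right (Dvd.intro _ rfl) h)
  have hab' : a.Coprime b' := Nat.Coprime.coprime_dvd_left (Dvd.intro _ rfl)
    (Nat.Coprime.coprime_dvd_right (Dvd.intro_left _ rfl) h)
  have hba' : b.Coprime a' := Nat.Coprime.coprime_dvd_left (Dvd.intro_left _ rfl)
    (Nat.Coprime.coprime_dvd_right (Dvd.intro _ rfl) h)
  have hb : b.Coprime b' := Nat.Coprime.coprime_dvd_left (Dvd.intro_left _ rfl)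
    (Nat.Coprime.coprime_dvd_right (Dvd.intro_left _ rfl) h)
  have ha0 : a ≠ 0 := left_ne_zero_of_mul h0
  have hb0 : b ≠ 0 := right_ne_zero_of_mul h0
  have ha0' : a' ≠ 0 := left_ne_zero_of_mul h0'
  have hb0' : b' ≠ 0 := right_ne_zero_of_mul h0'
  have hgcd : (a * a').gcd (b * b') = a.gcd b * a'.gcd b' := by
    rw [Nat.Coprime.gcd_mul _ hb, Nat.Coprime.gcd_mul_right_cancel _ hba'.symm,
      Nat.Coprime.gcd_mul_left_cancel _ hab']
  have hgc : (a.gcd b).Coprime (a'.gcd b') := Nat.Coprime.coprime_dvd_left (Nat.gcd_dvd_left a b)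
    (Nat.Coprime.coprime_dvd_right (Nat.gcd_dvd_left a' b') ha)
  unfold G1
  rw [hgcd, ZD.E2.sum_divisors_coprime hgc, Finset.sum_mul_sum]
  refine Finset.sum_congr rfl fun l hl => Finset.sum_congr rfl fun l' hl' => ?_
  have hl1 := Nat.dvd_of_mem_divisors hl
  have hl2 := Nat.dvd_of_mem_divisors hl'
  have hla : l ∣ a := hl1.trans (Nat.gcd_dvd_left a b)
  have hlb : l ∣ b := hl1.trans (Nat.gcd_dvd_right a b)
  have hla' : l' ∣ a' := hl2.trans (Nat.gcd_dvd_left a' b')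
  have hlb' : l' ∣ b' := hl2.trans (Nat.gcd_dvd_right a' b')
  rw [Nat.mul_div_mul_comm hla hla', Nat.mul_div_mul_comm hlb hlb']
  have c1 : (a / l).Coprime (a' / l') := Nat.Coprime.coprime_dvd_left (Nat.div_dvd_of_dvd hla)
    (Nat.Coprime.coprime_dvd_right (Nat.div_dvd_of_dvd hla') ha)
  have c2 : (b / l).Coprime (b' / l') := Nat.Coprime.coprime_dvd_left (Nat.div_dvd_of_dvd hlb)
    (Nat.Coprime.coprime_dvd_right (Nat.div_dvd_of_dvd hlb') hb)
  have c3 : l.Coprime l' := Nat.Coprime.coprime_dvd_left hla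
    (Nat.Coprime.coprime_dvd_right hla' ha)
  simp only [g1_isSquare_mul c1, g1_isSquare_mul c2, Inp.lam_mul c1, Inp.lam_mul c2, Inp.lam_mul c3]
  by_cases p1 : IsSquare (a / l) <;> by_cases p2 : IsSquare (b / l) <;>
    by_cases p3 : IsSquare (a' / l') <;> by_cases p4 : IsSquare (b' / l') <;>
    simp [p1, p2, p3, p4]
  ring

/-! ### the Dirichlet series -/

theorem g1_zero_left (b : ℕ) : G1 0 b = 0 := by
  unfold G1
  refine Finset.sum_eq_zero fun l _ => ?_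
  rw [Nat.zero_div, Inp.lam_zero, zero_mul, zero_mul]
  split_ifs <;> rfl

theorem g1_zero_right (a : ℕ) : G1 a 0 = 0 := by
  unfold G1
  refine Finset.sum_eq_zero fun l _ => ?_
  rw [Nat.zero_div, Inp.lam_zero, mul_zero, zero_mul]
  split_ifs <;> rfl

/-- terms of the three series -/
noncomputable def g1T (f : ℕ → ℝ) (w : ℂ) (n : ℕ) : ℂ := (f n : ℂ) * (n : ℂ) ^ (-w)

/-- the triple product -/
noncomputable def g1F (w₁ w₂ : ℂ) (x : ℕ × (ℕ × ℕ)) : ℂ :=
  g1T (fun n => lam n ^ 2) (w₁ + w₂) x.1 *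
    (g1T (fun n => lam (n ^ 2)) (2 * w₁) x.2.1 * g1T (fun n => lam (n ^ 2)) (2 * w₂) x.2.2)

theorem g1F_eq (w₁ w₂ : ℂ) (l s r : ℕ) : g1F w₁ w₂ (l, s, r) =
    ((lam (s ^ 2) * lam (r ^ 2) * lam l ^ 2 : ℝ) : ℂ) *
      (((l * s ^ 2 : ℕ) : ℂ) ^ (-w₁) * ((l * r ^ 2 : ℕ) : ℂ) ^ (-w₂)) := by
  unfold g1F g1T
  rcases Nat.eq_zero_or_pos l with hl | hl
  · subst hl
    simp [Inp.lam_zero]
  · have hl' : (l : ℂ) ≠ 0 := by exact_mod_cast hl.ne'
    have e1 : ((l * s ^ 2 : ℕ) : ℂ) ^ (-w₁) = (l : ℂ) ^ (-w₁) * (s : ℂ) ^ (-(2 * w₁)) := by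
      have : (s : ℂ) ^ (-(2 * w₁)) = ((s : ℂ) ^ 2) ^ (-w₁) := by
        have := Complex.natCast_cpow_natCast_mul s 2 (-w₁)
        rw [← this]
        congr 1
        push_cast
        ring
      rw [this, Nat.cast_mul, Complex.natCast_mul_natCast_cpow, Nat.cast_pow]
    have e2 : ((l * r ^ 2 : ℕ) : ℂ) ^ (-w₂) = (l : ℂ) ^ (-w₂) * (r : ℂ) ^ (-(2 * w₂)) := by
      have : (r : ℂ) ^ (-(2 * w₂)) = ((r : ℂ) ^ 2) ^ (-w₂) := by
        have := Complex.natCast_cpow_natCast_mul r 2 (-w₂)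
        rw [← this]
        congr 1
        push_cast
        ring
      rw [this, Nat.cast_mul, Complex.natCast_mul_natCast_cpow, Nat.cast_pow]
    have e3 : (l : ℂ) ^ (-(w₁ + w₂)) = (l : ℂ) ^ (-w₁) * (l : ℂ) ^ (-w₂) := by
      rw [← Complex.cpow_add _ _ hl']
      congr 1
      ring
    rw [e1, e2, e3]
    push_cast
    ring

/-- the parametrisation -/
def g1Phi (x : ℕ × (ℕ × ℕ)) : ℕ × ℕ := (x.1 * x.2.1 ^ 2, x.1 * x.2.2 ^ 2)

theorem g1_fiber (w₁ w₂ : ℂ) (c : ℕ × ℕ) :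
    ∑' x : (g1Phi ⁻¹' {c}), g1F w₁ w₂ x =
      (G1 c.1 c.2 : ℂ) * ((c.1 : ℂ) ^ (-w₁) * (c.2 : ℂ) ^ (-w₂)) := by
  obtain ⟨a, b⟩ := c
  rw [tsum_subtype (g1Phi ⁻¹' {(a, b)}) (g1F w₁ w₂)]
  by_cases h0 : a = 0 ∨ b = 0
  · have hG : G1 a b = 0 := by
      rcases h0 with h | h
      · rw [h]; exact g1_zero_left b
      · rw [h]; exact g1_zero_right a
    rw [hG]
    simp only [Complex.ofReal_zero, zero_mul]
    rw [← tsum_zero (α := ℂ) (β := ℕ × (ℕ × ℕ))]
    congr 1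
    funext x
    by_cases hx : x ∈ g1Phi ⁻¹' {(a, b)}
    · rw [Set.indicator_of_mem hx]
      obtain ⟨l, s, r⟩ := x
      have h1 : l * s ^ 2 = a := congrArg Prod.fst hx
      have h2 : l * r ^ 2 = b := congrArg Prod.snd hx
      rw [g1F_eq]
      rcases h0 with h | h
      · rw [h] at h1
        rcases Nat.mul_eq_zero.1 h1 with h3 | h3
        · rw [h3, Inp.lam_zero]; simp
        · rw [h3, Inp.lam_zero]; simp
      · rw [h] at h2
        rcases Nat.mul_eq_zero.1 h2 with h3 | h3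
        · rw [h3, Inp.lam_zero]; simp
        · rw [h3, Inp.lam_zero]; simp
    · rw [Set.indicator_of_notMem hx]
  · push Not at h0
    obtain ⟨ha, hb⟩ := h0
    set Q : Finset ℕ := (a.gcd b).divisors.filter (fun l => IsSquare (a / l) ∧ IsSquare (b / l))
      with hQ
    set j : ℕ → ℕ × (ℕ × ℕ) := fun l => (l, Nat.sqrt (a / l), Nat.sqrt (b / l)) with hj
    have hjinj : Function.Injective j := fun l l' h => congrArg Prod.fst h
    have hmem : ∀ l ∈ Q, l * (Nat.sqrt (a / l)) ^ 2 = a ∧ l * (Nat.sqrt (b / l)) ^ 2 = b ∧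
        (Nat.sqrt (a / l)) ^ 2 = a / l ∧ (Nat.sqrt (b / l)) ^ 2 = b / l := by
      intro l hl
      rw [hQ, Finset.mem_filter] at hl
      have hd := Nat.dvd_of_mem_divisors hl.1
      have hla : l ∣ a := hd.trans (Nat.gcd_dvd_left a b)
      have hlb : l ∣ b := hd.trans (Nat.gcd_dvd_right a b)
      obtain ⟨s, hs⟩ := hl.2.1
      obtain ⟨r, hr⟩ := hl.2.2
      have e1 : Nat.sqrt (a / l) ^ 2 = a / l := by
        rw [hs, Nat.sqrt_eq, sq]
      have e2 : Nat.sqrt (b / l) ^ 2 = b / l := by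
        rw [hr, Nat.sqrt_eq, sq]
      exact ⟨by rw [e1, Nat.mul_div_cancel' hla], by rw [e2, Nat.mul_div_cancel' hlb], e1, e2⟩
    rw [tsum_eq_sum (s := Q.image j)]
    · rw [Finset.sum_image (fun x _ y _ h => hjinj h)]
      have hG : G1 a b = ∑ l ∈ Q, lam (a / l) * lam (b / l) * lam l ^ 2 := by
        unfold G1
        rw [hQ, Finset.sum_filter]
      rw [hG]
      push_cast
      rw [Finset.sum_mul]
      refine Finset.sum_congr rfl fun l hl => ?_
      obtain ⟨e1, e2, e3, e4⟩ := hmem l hl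
      have hin : j l ∈ g1Phi ⁻¹' {(a, b)} := by
        show (l * Nat.sqrt (a / l) ^ 2, l * Nat.sqrt (b / l) ^ 2) = (a, b)
        rw [e1, e2]
      rw [Set.indicator_of_mem hin, hj]
      simp only
      rw [g1F_eq, e1, e2, e3, e4]
      push_cast
      ring
    · intro x hx
      by_contra hne
      apply hx
      have hin : x ∈ g1Phi ⁻¹' {(a, b)} := by
        by_contra h
        exact hne (Set.indicator_of_notMem h _)
      obtain ⟨l, s, r⟩ := x
      have h1 : l * s ^ 2 = a := congrArg Prod.fst hin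
      have h2 : l * r ^ 2 = b := congrArg Prod.snd hin
      have hl0 : 0 < l := by
        rcases Nat.eq_zero_or_pos l with h | h
        · exfalso; rw [h, zero_mul] at h1; exact ha h1.symm
        · exact h
      have d1 : a / l = s ^ 2 := by rw [← h1, Nat.mul_div_cancel_left _ hl0]
      have d2 : b / l = r ^ 2 := by rw [← h2, Nat.mul_div_cancel_left _ hl0]
      rw [Finset.mem_image]
      refine ⟨l, ?_, ?_⟩
      · rw [hQ, Finset.mem_filter, Nat.mem_divisors]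
        refine ⟨⟨Nat.dvd_gcd (Dvd.intro _ h1) (Dvd.intro _ h2), ?_⟩, ?_, ?_⟩
        · exact fun h => ha (Nat.eq_zero_of_gcd_eq_zero_left h)
        · rw [d1]; exact ⟨s, sq s⟩
        · rw [d2]; exact ⟨r, sq r⟩
      · rw [hj]
        simp only
        rw [d1, d2, Nat.sqrt_eq', Nat.sqrt_eq']

theorem g1_summable {w₁ w₂ : ℂ} (h1 : 1 / 2 < w₁.re) (h2 : 1 / 2 < w₂.re) :
    Summable (fun x => ‖g1F w₁ w₂ x‖) ∧ ∑' x, g1F w₁ w₂ x =
      A2 (2 * w₁) * A2 (2 * w₂) * (R1 (w₁ + w₂) / (w₁ + w₂ - 1)) := by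
  have r1 : 1 < (2 * w₁).re := by
    simp only [Complex.mul_re, Complex.re_ofNat, Complex.im_ofNat, zero_mul, sub_zero]
    linarith
  have r2 : 1 < (2 * w₂).re := by
    simp only [Complex.mul_re, Complex.re_ofNat, Complex.im_ofNat, zero_mul, sub_zero]
    linarith
  have r3 : 1 < (w₁ + w₂).re := by
    rw [Complex.add_re]; linarith
  obtain ⟨s1, t1⟩ := Inp.A2_eq r1
  obtain ⟨s2, t2⟩ := Inp.A2_eq r2
  obtain ⟨s3, t3⟩ := Inp.R1_eq r3
  have conv : ∀ (f : ℕ → ℝ) (w : ℂ), f 0 = 0 →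
      LSeries.term (fun n => ((f n : ℝ) : ℂ)) w = g1T f w := by
    intro f w hf
    funext n
    rw [LSeries.term_def₀ (by simp [hf])]
    rfl
  have z1 : (fun n => lam (n ^ 2)) 0 = 0 := by simp [Inp.lam_zero]
  have z2 : (fun n => lam n ^ 2) 0 = 0 := by simp [Inp.lam_zero]
  have S1 : Summable (g1T (fun n => lam (n ^ 2)) (2 * w₁)) := by
    have := s1
    rw [LSeriesSummable, conv (fun n => lam (n ^ 2)) _ z1] at this
    exact this
  have S2 : Summable (g1T (fun n => lam (n ^ 2)) (2 * w₂)) := by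
    have := s2
    rw [LSeriesSummable, conv (fun n => lam (n ^ 2)) _ z1] at this
    exact this
  have S3 : Summable (g1T (fun n => lam n ^ 2) (w₁ + w₂)) := by
    have := s3
    rw [LSeriesSummable, conv (fun n => lam n ^ 2) _ z2] at this
    exact this
  have T1 : A2 (2 * w₁) = ∑' n, g1T (fun n => lam (n ^ 2)) (2 * w₁) n := by
    rw [t1, LSeries, conv (fun n => lam (n ^ 2)) _ z1]
  have T2 : A2 (2 * w₂) = ∑' n, g1T (fun n => lam (n ^ 2)) (2 * w₂) n := by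
    rw [t2, LSeries, conv (fun n => lam (n ^ 2)) _ z1]
  have T3 : R1 (w₁ + w₂) / (w₁ + w₂ - 1) = ∑' n, g1T (fun n => lam n ^ 2) (w₁ + w₂) n := by
    have hne : w₁ + w₂ - 1 ≠ 0 := by
      intro h
      have := congrArg Complex.re h
      rw [Complex.sub_re, Complex.one_re, Complex.zero_re] at this
      linarith
    rw [t3, mul_div_cancel_left₀ _ hne, LSeries, conv (fun n => lam n ^ 2) _ z2]
  have S12 : Summable (fun x : ℕ × ℕ => ‖g1T (fun n => lam (n ^ 2)) (2 * w₁) x.1 *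
      g1T (fun n => lam (n ^ 2)) (2 * w₂) x.2‖) := Summable.mul_norm S1.norm S2.norm
  have S123 := Summable.mul_norm (f := g1T (fun n => lam n ^ 2) (w₁ + w₂))
    (g := fun x : ℕ × ℕ => g1T (fun n => lam (n ^ 2)) (2 * w₁) x.1 *
      g1T (fun n => lam (n ^ 2)) (2 * w₂) x.2) S3.norm S12
  have E12 := tsum_mul_tsum_of_summable_norm S1.norm S2.norm
  have E123 := tsum_mul_tsum_of_summable_norm (f := g1T (fun n => lam n ^ 2) (w₁ + w₂))
    (g := fun x : ℕ × ℕ => g1T (fun n => lam (n ^ 2)) (2 * w₁) x.1 *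
      g1T (fun n => lam (n ^ 2)) (2 * w₂) x.2) S3.norm S12
  refine ⟨S123, ?_⟩
  rw [T1, T2, T3, E12, mul_comm, E123]
  rfl

theorem G1_sum {w₁ w₂ : ℂ} (h1 : 1 / 2 < w₁.re) (h2 : 1 / 2 < w₂.re) :
    Summable (fun b : ℕ × ℕ => ‖(G1 b.1 b.2 : ℂ) * ((b.1 : ℂ) ^ (-w₁) * (b.2 : ℂ) ^ (-w₂))‖) ∧
    ∑' b : ℕ × ℕ, (G1 b.1 b.2 : ℂ) * ((b.1 : ℂ) ^ (-w₁) * (b.2 : ℂ) ^ (-w₂)) =
      A2 (2 * w₁) * A2 (2 * w₂) * (R1 (w₁ + w₂) / (w₁ + w₂ - 1)) := by
  obtain ⟨hs, ht⟩ := g1_summable h1 h2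
  constructor
  · have h3 := hs.hasSum.tsum_fiberwise g1Phi
    refine Summable.of_nonneg_of_le (fun _ => norm_nonneg _) (fun c => ?_) h3.summable
    rw [← g1_fiber w₁ w₂ c]
    exact norm_tsum_le_tsum_norm (hs.subtype _)
  · have h4 := hs.of_norm.hasSum.tsum_fiberwise g1Phi
    rw [ht] at h4
    rw [← h4.tsum_eq]
    exact tsum_congr fun c => (g1_fiber w₁ w₂ c).symm

end Pool.Agent.CZ
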