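import Mathlib
import Pool.Agent.CZ.IDefs
import Pool.Agent.ZD.G2

/-! Module I_TAU2: exact value of the Ramanujan type sum at `p ^ 2`. -/

set_option autoImplicit false

open Complex Finset

namespace Pool.Agent.CZ

open Pool.Agent.ZD (tau tau_pow_eq jacobi_eq_quadraticChar sum_exp_range)

theorem tau_prime_sq {k : ℤ} {p : ℕ} (hp : p.Prime) (h2 : p ≠ 2) (h1 : (p : ℤ) ∣ k)
    (hk : ¬ (p : ℤ) ^ 2 ∣ k) : tau k (p ^ 2) = -(p : ℂ) := by
  have := Fact.mk hp
  have _ := h2
  obtain ⟨j, rfl⟩ := h1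
  have hj : ¬ (p : ℤ) ∣ j := fun h => hk (by rw [sq]; exact mul_dvd_mul_left _ h)
  have hpC : (p : ℂ) ≠ 0 := by exact_mod_cast hp.ne_zero
  have h := tau_pow_eq (p * j) (e := 1) hp
  rw [pow_one, if_pos (Dvd.intro _ rfl)] at h
  have h3 : ∑ x ∈ range p, (jacobiSym x (p ^ (1 + 1)) : ℂ) *
    exp (2 * Real.pi * I * ((p * j : ℤ) * x / (p ^ (1 + 1) : ℕ))) = -1 := by
    have h4 : ∀ x ∈ range p, (jacobiSym x (p ^ (1 + 1)) : ℂ) *
        exp (2 * Real.pi * I * ((p * j : ℤ) * x / (p ^ (1 + 1) : ℕ))) =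
        exp (2 * Real.pi * I * (j * x / p)) - if x = 0 then 1 else 0 := by
      intro x hx
      have h5 : exp (2 * Real.pi * I * ((p * j : ℤ) * x / (p ^ (1 + 1) : ℕ))) =
          exp (2 * Real.pi * I * (j * x / p)) := by
        congr 1
        push_cast
        field_simp
      rw [h5]
      by_cases hx0 : x = 0
      · subst hx0
        rw [if_pos rfl, jacobiSym.pow_right, jacobi_eq_quadraticChar]
        simp
      · rw [if_neg hx0, jacobiSym.pow_right, jacobi_eq_quadraticChar]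
        have h6 : ((x : ℤ) : ZMod p) ≠ 0 := by
          rw [Int.cast_natCast, Ne, ZMod.natCast_eq_zero_iff]
          intro h7
          exact hx0 (Nat.eq_zero_of_dvd_of_lt h7 (Finset.mem_range.mp hx))
        rw [show 1 + 1 = 2 from rfl, quadraticChar_sq_one h6]
        simp
    rw [Finset.sum_congr rfl h4, Finset.sum_sub_distrib, sum_exp_range j hp.pos, if_neg hj,
      Finset.sum_ite_eq', if_pos (Finset.mem_range.mpr hp.pos)]
    ring
  rw [h3] at h
  rw [show (2 : ℕ) = 1 + 1 from rfl, h]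
  ring

end Pool.Agent.CZ
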