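import Mathlib
import Pool.Agent.CZ.IDefs
import Pool.Agent.CZ.IG1
import Pool.Agent.CZ.ITAU2
import Pool.Agent.ZD.E2

/-!
Critical zeros for the twists (MP_553913_nt), part (I): local values of `E0`.
-/

set_option autoImplicit false

open Complex Finset MeasureTheory

namespace Pool.Agent.CZ

open Pool.Agent.H5 (c bd)
open Pool.Agent.ZD (S Lf gk eps MM tau)
open Pool.Agent.CZ.Inp (lam A2 R1)

/-! ### multiplicativity -/

theorem e0m_epsn_mul (k : ℤ) (q : ℕ) {x₁ y₁ x₂ y₂ : ℕ} (h : (x₁ * y₁).Coprime (x₂ * y₂))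
    (h1 : x₁ * y₁ ≠ 0) :
    epsn k q (x₁ * x₂) (y₁ * y₂) = epsn k q x₁ y₁ * epsn k q x₂ y₂ := by
  unfold epsn
  have hre : x₁ * x₂ * (y₁ * y₂) = (x₁ * y₁) * (x₂ * y₂) := by ring
  rw [ZD.E2.eps_mul k q h h1, hre, Nat.cast_mul (x₁ * y₁) (x₂ * y₂),
    Real.sqrt_mul (by positivity)]
  push_cast
  rw [mul_div_mul_comm]

theorem e0m_epsn_one (k : ℤ) (q : ℕ) : epsn k q 1 1 = 1 := by
  unfold epsn
  rw [ZD.E2.eps_one]; simp

theorem e0m_one (k : ℤ) (q : ℕ) : E0 k q 1 1 = 1 := by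
  unfold E0
  simp [e0m_epsn_one, g1_one]

theorem E0_mul (k : ℤ) (q : ℕ) {a b a' b' : ℕ} (h : (a * b).Coprime (a' * b')) (h0 : a * b ≠ 0) :
    E0 k q (a * a') (b * b') = E0 k q a b * E0 k q a' b' := by
  by_cases h0' : a' * b' = 0
  · rw [h0', Nat.coprime_zero_right, mul_eq_one] at h
    rw [h.1, h.2, one_mul, one_mul, e0m_one, one_mul]
  have hx : a.Coprime a' := Nat.Coprime.coprime_dvd_left (Dvd.intro _ rfl)
    (Nat.Coprime.coprime_dvd_right (Dvd.intro _ rfl) h)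
  have hy : b.Coprime b' := Nat.Coprime.coprime_dvd_left (Dvd.intro_left _ rfl)
    (Nat.Coprime.coprime_dvd_right (Dvd.intro_left _ rfl) h)
  unfold E0
  rw [ZD.E2.sum_divisors_coprime hx]
  have step : ∀ x₁ ∈ a.divisors, ∀ x₂ ∈ a'.divisors,
      ∑ y ∈ (b * b').divisors, epsn k q (x₁ * x₂) y * (G1 (a * a' / (x₁ * x₂)) (b * b' / y) : ℂ) =
      ∑ y₁ ∈ b.divisors, ∑ y₂ ∈ b'.divisors,
        (epsn k q x₁ y₁ * (G1 (a / x₁) (b / y₁) : ℂ)) *
        (epsn k q x₂ y₂ * (G1 (a' / x₂) (b' / y₂) : ℂ)) := by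
    intro x₁ hx₁ x₂ hx₂
    rw [ZD.E2.sum_divisors_coprime hy]
    refine Finset.sum_congr rfl (fun y₁ hy₁ => Finset.sum_congr rfl (fun y₂ hy₂ => ?_))
    rw [Nat.mem_divisors] at hx₁ hx₂ hy₁ hy₂
    rw [Nat.mul_div_mul_comm hx₁.1 hx₂.1, Nat.mul_div_mul_comm hy₁.1 hy₂.1]
    have c3 : (x₁ * y₁).Coprime (x₂ * y₂) :=
      Nat.Coprime.coprime_dvd_left (mul_dvd_mul hx₁.1 hy₁.1)
        (Nat.Coprime.coprime_dvd_right (mul_dvd_mul hx₂.1 hy₂.1) h)
    have c4 : ((a / x₁) * (b / y₁)).Coprime ((a' / x₂) * (b' / y₂)) :=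
      Nat.Coprime.coprime_dvd_left (mul_dvd_mul (Nat.div_dvd_of_dvd hx₁.1) (Nat.div_dvd_of_dvd hy₁.1))
        (Nat.Coprime.coprime_dvd_right
          (mul_dvd_mul (Nat.div_dvd_of_dvd hx₂.1) (Nat.div_dvd_of_dvd hy₂.1)) h)
    have n1 : x₁ * y₁ ≠ 0 := ne_zero_of_dvd_ne_zero h0 (mul_dvd_mul hx₁.1 hy₁.1)
    rw [e0m_epsn_mul k q c3 n1, G1_mul c4]
    push_cast
    ring
  rw [Finset.sum_congr rfl (fun x₁ hx₁ => Finset.sum_congr rfl (fun x₂ hx₂ => step x₁ hx₁ x₂ hx₂))]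
  rw [Finset.sum_mul_sum]
  refine Finset.sum_congr rfl (fun x₁ _ => Finset.sum_congr rfl (fun x₂ _ => ?_))
  rw [Finset.sum_mul_sum]

/-! ### the array `G1` at prime powers -/

theorem e0m_G1_pp {p : ℕ} (hp : p.Prime) (a b : ℕ) : G1 (p ^ a) (p ^ b) =
    ∑ t ∈ range (min a b + 1), if IsSquare (p ^ (a - t)) ∧ IsSquare (p ^ (b - t)) then
      lam (p ^ (a - t)) * lam (p ^ (b - t)) * lam (p ^ t) ^ 2 else 0 := by
  have hg : (p ^ a).gcd (p ^ b) = p ^ min a b := by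
    rcases le_total a b with h | h
    · rw [min_eq_left h, Nat.gcd_eq_left (pow_dvd_pow _ h)]
    · rw [min_eq_right h, Nat.gcd_eq_right (pow_dvd_pow _ h)]
  unfold G1
  rw [hg, Nat.sum_divisors_prime_pow hp]
  refine Finset.sum_congr rfl fun t ht => ?_
  rw [Finset.mem_range] at ht
  rw [Nat.pow_div (by omega) hp.pos, Nat.pow_div (by omega) hp.pos]

theorem e0m_not_sq {p : ℕ} (hp : p.Prime) : ¬ IsSquare p := hp.prime.not_isSquare

theorem e0m_G1_10 {p : ℕ} (hp : p.Prime) : G1 p 1 = 0 ∧ G1 1 p = 0 := by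
  have h1 := e0m_G1_pp hp 1 0
  have h2 := e0m_G1_pp hp 0 1
  rw [pow_one, pow_zero] at h1 h2
  rw [h1, h2]
  simp [e0m_not_sq hp]

theorem e0m_G1_20 {p : ℕ} (hp : p.Prime) : G1 (p ^ 2) 1 = lam (p ^ 2) ∧ G1 1 (p ^ 2) = lam (p ^ 2) := by
  have h1 := e0m_G1_pp hp 2 0
  have h2 := e0m_G1_pp hp 0 2
  rw [pow_zero] at h1 h2
  have h3 : IsSquare (p ^ 2) := ⟨p, sq p⟩
  rw [h1, h2]
  simp [Inp.lam_one, h3]

theorem e0m_G1_11 {p : ℕ} (hp : p.Prime) : G1 p p = lam p ^ 2 := by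
  have h1 := e0m_G1_pp hp 1 1
  rw [pow_one] at h1
  rw [h1]
  simp [Finset.sum_range_succ, e0m_not_sq hp, Inp.lam_one]

theorem e0m_G1_two {a b : ℕ} (h : 1 ≤ a + b) : G1 (2 ^ a) (2 ^ b) = 0 := by
  rw [e0m_G1_pp Nat.prime_two]
  refine Finset.sum_eq_zero fun t ht => ?_
  rw [Finset.mem_range] at ht
  split_ifs
  · by_cases h1 : 1 ≤ t
    · rw [Inp.lam_two_pow t h1]; simp
    · by_cases h2 : 1 ≤ a - t
      · rw [Inp.lam_two_pow _ h2]; simp
      · rw [Inp.lam_two_pow (b - t) (by omega)]; simp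
  · rfl

theorem e0m_G1_le {p : ℕ} (hp : p.Prime) (a b : ℕ) :
    |G1 (p ^ a) (p ^ b)| ≤ ((a : ℝ) + b + 1) ^ 5 := by
  have h1 := g1_le5 (a := p ^ a) (b := p ^ b) (pow_pos hp.pos _) (pow_pos hp.pos _)
  rw [← pow_add, Nat.divisors_prime_pow hp, Finset.card_map, Finset.card_range] at h1
  push_cast at h1
  exact h1

/-! ### local values -/

theorem e0m_pp (k : ℤ) (q : ℕ) {p : ℕ} (hp : p.Prime) (a b : ℕ) :
    E0 k q (p ^ a) (p ^ b) = ∑ i ∈ range (a + 1), ∑ j ∈ range (b + 1),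
      epsn k q (p ^ i) (p ^ j) * (G1 (p ^ (a - i)) (p ^ (b - j)) : ℂ) := by
  unfold E0
  rw [Nat.sum_divisors_prime_pow hp]
  refine Finset.sum_congr rfl (fun i hi => ?_)
  rw [Nat.sum_divisors_prime_pow hp]
  refine Finset.sum_congr rfl (fun j hj => ?_)
  rw [Finset.mem_range] at hi hj
  rw [Nat.pow_div (by omega) hp.pos, Nat.pow_div (by omega) hp.pos]

theorem e0m_sqrt_sq {p : ℕ} : Real.sqrt ((p ^ 2 : ℕ) : ℝ) = p := by
  rw [Nat.cast_pow, Real.sqrt_sq (Nat.cast_nonneg _)]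

theorem e0m_lam_sq {p : ℕ} (_hp : p.Prime) : lam p ^ 2 = (c p : ℝ) ^ 2 / p := by
  unfold lam
  rw [div_pow, Real.sq_sqrt (Nat.cast_nonneg _)]

theorem e0m_lam_p2 {p : ℕ} : lam (p ^ 2) = (c (p ^ 2) : ℝ) / p := by
  unfold lam
  rw [e0m_sqrt_sq]

theorem e0m_lam_rec {p : ℕ} (hp : p.Prime) (h2 : p ≠ 2) : lam (p ^ 2) = lam p ^ 2 - 1 := by
  have := Inp.lam_prime_pow hp h2 0
  rw [zero_add, zero_add, pow_one, pow_zero, Inp.lam_one] at this
  rw [this]; ring

/-- the values of `epsn` in degrees one and two at a prime not dividing `v` -/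
structure E0mLoc (k : ℤ) (q p : ℕ) : Prop where
  e10 : epsn k q p 1 = 0
  e01 : epsn k q 1 p = 0
  e20 : epsn k q (p ^ 2) 1 = -(lam (p ^ 2) : ℂ)
  e02 : epsn k q 1 (p ^ 2) = -(lam (p ^ 2) : ℂ)
  e11 : epsn k q p p = -((lam p ^ 2 : ℝ) : ℂ)
  bd : ∀ i j : ℕ, ‖epsn k q (p ^ i) (p ^ j)‖ ≤ 27 * ((i : ℝ) + j + 1) ^ 2

theorem e0m_nq_one (q : ℕ) : ZD.E2.nq q 1 = 1 := by
  unfold ZD.E2.nq ZD.nu; simp

theorem e0m_sqrt_ne {p : ℕ} (hp : p.Prime) : ((Real.sqrt (p : ℝ) : ℝ) : ℂ) ≠ 0 := by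
  rw [Complex.ofReal_ne_zero]
  exact (Real.sqrt_pos.2 (by exact_mod_cast hp.pos)).ne'

theorem e0m_eps_le (k : ℤ) (q p i j : ℕ) :
    ‖eps k q (p ^ i) (p ^ j)‖ ≤ ZD.E2.EE k q p (i + j) := by
  have h := Finset.single_le_sum
    (f := fun a => ‖eps k q (p ^ a) (p ^ (i + j - a))‖) (s := range (i + j + 1))
    (fun a _ => norm_nonneg _) (Finset.mem_range.2 (by omega : i < i + j + 1))
  simp only [Nat.add_sub_cancel_left] at h
  exact h

theorem e0m_epsn_norm (k : ℤ) (q : ℕ) {p : ℕ} (hp : p.Prime) (i j : ℕ) :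
    ‖epsn k q (p ^ i) (p ^ j)‖ * Real.sqrt (p : ℝ) ^ (i + j) = ‖eps k q (p ^ i) (p ^ j)‖ := by
  have hs : 0 < Real.sqrt (p : ℝ) := Real.sqrt_pos.2 (by exact_mod_cast hp.pos)
  unfold epsn
  rw [← pow_add, norm_div, Nat.cast_pow, ZD.E2.sqrt_pow' (Nat.cast_nonneg _), Complex.norm_real,
    Real.norm_of_nonneg (by positivity), div_mul_cancel₀ _ (by positivity)]

theorem e0m_good {k : ℤ} {q v : ℕ} {p : ℕ} (hp : p.Prime) (h2 : p ≠ 2)
    (hkq : k.natAbs = q * v ^ 2) (hpk : ¬ (p : ℤ) ∣ k) : E0mLoc k q p := by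
  have hp0 : (p : ℂ) ≠ 0 := by exact_mod_cast hp.ne_zero
  obtain ⟨g1, g2⟩ := ZD.E2.gk_good hp hkq hpk
  have g00 := ZD.E2.gk_one k
  have hz : ∀ i j : ℕ, 2 ≤ i + j → gk k (p ^ i) (p ^ j) = 0 := fun i j hij =>
    ZD.E2.gk_pp_zero hp h2 (m := 0) (by simpa using hpk) (by omega)
  have g20 : gk k (p ^ 2) 1 = 0 := by simpa using hz 2 0 (by norm_num)
  have g02 : gk k 1 (p ^ 2) = 0 := by simpa using hz 0 2 (by norm_num)
  have g11 : gk k p p = 0 := by simpa using hz 1 1 (by norm_num)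
  have hpq : ¬ p ∣ q := by
    intro hd
    apply hpk
    rw [Int.natCast_dvd, hkq]
    exact Dvd.dvd.mul_right hd _
  have hJ : jacobiSym q p ^ 2 = 1 := by
    apply jacobiSym.sq_one
    rw [Int.gcd_natCast_natCast]
    exact (hp.coprime_iff_not_dvd.2 hpq).symm
  have hn1 : ZD.E2.nq q 1 = 1 := e0m_nq_one q
  have hnp : ZD.E2.nq q p = - (c p * jacobiSym q p) := by
    have : ZD.nu p = - c p := by
      have := ZD.E2.nu_prime_pow hp 1
      rw [pow_one] at this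
      rw [this]; simp [ZD.nuF]
    unfold ZD.E2.nq; rw [this]; ring
  have hnp2 : ZD.E2.nq q (p ^ 2) = p := by
    unfold ZD.E2.nq
    rw [ZD.E2.nu_prime_pow hp, jacobiSym.pow_right, hJ]
    unfold ZD.nuF
    rw [if_neg (by norm_num), if_neg (by norm_num), if_pos rfl, if_neg h2, one_mul]
  have hJc : ((jacobiSym q p : ℤ) : ℂ) ^ 2 = 1 := by exact_mod_cast hJ
  have E10 : eps k q p 1 = 0 := by
    have := ZD.E2.eps_pp k q hp 1 0
    rw [pow_one, pow_zero] at this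
    rw [this]
    simp [Finset.sum_range_succ, g00, hn1, hnp, g1]
  have E01 : eps k q 1 p = 0 := by
    have := ZD.E2.eps_pp k q hp 0 1
    rw [pow_one, pow_zero] at this
    rw [this]
    simp [Finset.sum_range_succ, g00, hn1, hnp, g2]
  have E20 : eps k q (p ^ 2) 1 = (p : ℂ) - (c p : ℂ) ^ 2 := by
    have := ZD.E2.eps_pp k q hp 2 0
    rw [pow_zero] at this
    rw [this]
    simp only [Finset.sum_range_succ, Finset.sum_range_zero, zero_add, pow_zero, pow_one,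
      Nat.sub_zero, Nat.sub_self, show 2 - 1 = 1 from rfl, g00, hn1, hnp, hnp2, g1, g20]
    push_cast
    linear_combination (-(c p : ℂ) ^ 2) * hJc
  have E02 : eps k q 1 (p ^ 2) = (p : ℂ) - (c p : ℂ) ^ 2 := by
    have := ZD.E2.eps_pp k q hp 0 2
    rw [pow_zero] at this
    rw [this]
    simp only [Finset.sum_range_succ, Finset.sum_range_zero, zero_add, pow_zero, pow_one,
      Nat.sub_zero, Nat.sub_self, show 2 - 1 = 1 from rfl, g00, hn1, hnp, hnp2, g2, g02]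
    push_cast
    linear_combination (-(c p : ℂ) ^ 2) * hJc
  have E11 : eps k q p p = - (c p : ℂ) ^ 2 := by
    have := ZD.E2.eps_pp k q hp 1 1
    rw [pow_one] at this
    rw [this]
    simp only [Finset.sum_range_succ, Finset.sum_range_zero, zero_add, pow_zero, pow_one,
      Nat.sub_zero, Nat.sub_self, g00, hn1, hnp, g1, g2, g11]
    push_cast
    linear_combination (-(c p : ℂ) ^ 2) * hJc
  have hlam2 : ((lam p ^ 2 : ℝ) : ℂ) = (c p : ℂ) ^ 2 / p := by
    rw [e0m_lam_sq hp]; push_cast; rfl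
  have hlamp : ((lam (p ^ 2) : ℝ) : ℂ) = (c p : ℂ) ^ 2 / p - 1 := by
    rw [e0m_lam_rec hp h2]
    push_cast at hlam2 ⊢
    rw [hlam2]
  refine ⟨?_, ?_, ?_, ?_, ?_, ?_⟩
  · unfold epsn; rw [E10, zero_div]
  · unfold epsn; rw [E01, zero_div]
  · unfold epsn
    rw [E20, mul_one, e0m_sqrt_sq, hlamp]
    push_cast
    field_simp
    ring
  · unfold epsn
    rw [E02, one_mul, e0m_sqrt_sq, hlamp]
    push_cast
    field_simp
    ring
  · unfold epsn
    rw [E11, ← sq, e0m_sqrt_sq, hlam2]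
    push_cast
    ring
  · intro i j
    have h3 := ZD.E2.eps_pp_le (k := k) q hp (a := i) (b := j) (K := 2) (t := Real.sqrt p) le_rfl
      (fun a b _ _ => ZD.E2.gk_good_le hp h2 hkq hpk a b)
    have hs : 0 < Real.sqrt (p : ℝ) := Real.sqrt_pos.2 (by exact_mod_cast hp.pos)
    unfold epsn
    rw [← pow_add, norm_div, Nat.cast_pow, ZD.E2.sqrt_pow' (Nat.cast_nonneg _), Complex.norm_real,
      Real.norm_of_nonneg (by positivity), div_le_iff₀ (by positivity)]
    refine h3.trans ?_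
    have h4 : (0 : ℝ) ≤ Real.sqrt (p : ℝ) ^ (i + j) := by positivity
    have h5 : ((i : ℝ) + 1) * (j + 1) * 8 ≤ 27 * ((i : ℝ) + j + 1) ^ 2 := by
      have hi : (0 : ℝ) ≤ i := Nat.cast_nonneg _
      have hj : (0 : ℝ) ≤ j := Nat.cast_nonneg _
      nlinarith [mul_nonneg hi hj, mul_nonneg hi hi, mul_nonneg hj hj]
    calc ((i : ℝ) + 1) * (j + 1) * (4 * 2 * Real.sqrt (p : ℝ) ^ (i + j))
        = (((i : ℝ) + 1) * (j + 1) * 8) * Real.sqrt (p : ℝ) ^ (i + j) := by ring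
      _ ≤ _ := mul_le_mul_of_nonneg_right h5 h4

theorem e0m_mid {k : ℤ} {q : ℕ} {p : ℕ} (hp : p.Prime) (h2 : p ≠ 2) (hq : p ∣ q)
    (hk : (p : ℤ) ∣ k) (hk2 : ¬ (p : ℤ) ^ 2 ∣ k) : E0mLoc k q p := by
  have hp0 : (p : ℂ) ≠ 0 := by exact_mod_cast hp.ne_zero
  have hj : ∀ m, 1 ≤ m → ZD.E2.nq q (p ^ m) = 0 := by
    intro m hm
    unfold ZD.E2.nq
    have : jacobiSym q (p ^ m) = 0 := by
      rw [jacobiSym.pow_right]
      have h0 : jacobiSym q p = 0 := by
        rw [jacobiSym.eq_zero_iff]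
        refine ⟨hp.ne_zero, ?_⟩
        intro h1
        rw [Int.gcd_natCast_natCast] at h1
        have h3 : p ∣ Nat.gcd q p := Nat.dvd_gcd hq dvd_rfl
        rw [h1] at h3
        exact hp.one_lt.ne' (Nat.dvd_one.1 h3)
      rw [h0, zero_pow (by omega)]
    rw [this, zero_mul]
  have hj0 : ZD.E2.nq q (p ^ 0) = 1 := by
    rw [pow_zero]; exact e0m_nq_one q
  have heps : ∀ a b, eps k q (p ^ a) (p ^ b) = gk k (p ^ a) (p ^ b) := by
    intro a b
    rw [ZD.E2.eps_pp k q hp, Finset.sum_eq_single a, Finset.sum_eq_single b]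
    · rw [Nat.sub_self, Nat.sub_self, hj0]; simp
    · intro j hj1 hj2
      rw [Finset.mem_range] at hj1
      rw [hj (b - j) (by omega)]; simp
    · intro h; exact absurd (Finset.mem_range.2 (Nat.lt_succ_self _)) h
    · intro i hi1 hi2
      rw [Finset.mem_range] at hi1
      refine Finset.sum_eq_zero (fun j _ => ?_)
      rw [hj (a - i) (by omega)]; simp
    · intro h; exact absurd (Finset.mem_range.2 (Nat.lt_succ_self _)) h
  have ht1 : tau k p = 0 := ZD.tau_prime_dvd hp h2 hk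
  have ht2 : tau k (p ^ 2) = -(p : ℂ) := tau_prime_sq hp h2 hk hk2
  have hlam2 : ((lam p ^ 2 : ℝ) : ℂ) = (c p : ℂ) ^ 2 / p := by
    rw [e0m_lam_sq hp]; push_cast; rfl
  have hlamp : ((lam (p ^ 2) : ℝ) : ℂ) = (c (p ^ 2) : ℂ) / p := by
    rw [e0m_lam_p2]; push_cast; rfl
  refine ⟨?_, ?_, ?_, ?_, ?_, ?_⟩
  · have := heps 1 0
    rw [pow_one, pow_zero] at this
    unfold epsn gk at *
    rw [this, mul_one, ht1]
    simp
  · have := heps 0 1
    rw [pow_one, pow_zero] at this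
    unfold epsn gk at *
    rw [this, one_mul, ht1]
    simp
  · have := heps 2 0
    rw [pow_zero] at this
    unfold epsn
    rw [this]
    unfold gk
    rw [mul_one, e0m_sqrt_sq, ht2, H5.c_one, mul_one, hlamp]
    push_cast
    field_simp
  · have := heps 0 2
    rw [pow_zero] at this
    unfold epsn
    rw [this]
    unfold gk
    rw [one_mul, e0m_sqrt_sq, ht2, H5.c_one, one_mul, hlamp]
    push_cast
    field_simp
  · have := heps 1 1
    rw [pow_one] at this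
    unfold epsn
    rw [this]
    unfold gk
    rw [← sq p, e0m_sqrt_sq, ht2, hlam2]
    push_cast
    field_simp
  · intro i j
    have hs : 0 < Real.sqrt (p : ℝ) := Real.sqrt_pos.2 (by exact_mod_cast hp.pos)
    have h3 := e0m_epsn_norm k q hp i j
    have h4 := (e0m_eps_le k q p i j).trans (ZD.E2.EE_mid hp h2 hq hk hk2 (e := i + j))
    rw [← h3] at h4
    have hi : (0 : ℝ) ≤ i := Nat.cast_nonneg _
    have hj : (0 : ℝ) ≤ j := Nat.cast_nonneg _
    have h5 : (1 : ℝ) ≤ ((i : ℝ) + j + 1) ^ 2 := by nlinarith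
    split_ifs at h4 with h6 h7
    · rw [h6, pow_zero, mul_one] at h4
      linarith
    · rw [h7, Real.sq_sqrt (Nat.cast_nonneg _)] at h4
      have hp0' : (0 : ℝ) < p := by exact_mod_cast hp.pos
      have h8 := le_of_mul_le_mul_right h4 hp0'
      linarith
    · have h8 : (0 : ℝ) < Real.sqrt (p : ℝ) ^ (i + j) := by positivity
      have h9 : ‖epsn k q (p ^ i) (p ^ j)‖ ≤ 0 := by
        by_contra hcon
        push Not at hcon
        have := mul_pos hcon h8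
        linarith
      linarith

theorem e0m_deg_le {k : ℤ} {q : ℕ} {p : ℕ} (hp : p.Prime) (H : E0mLoc k q p) {a b : ℕ}
    (h1 : 1 ≤ a + b) (h3 : a + b ≤ 2) : E0 k q (p ^ a) (p ^ b) = 0 := by
  obtain ⟨G10, G01⟩ := e0m_G1_10 hp
  obtain ⟨G20, G02⟩ := e0m_G1_20 hp
  have G11 := e0m_G1_11 hp
  have G00 := g1_one
  have e00 := e0m_epsn_one k q
  have hcases : (a = 1 ∧ b = 0) ∨ (a = 0 ∧ b = 1) ∨ (a = 2 ∧ b = 0) ∨ (a = 0 ∧ b = 2) ∨
      (a = 1 ∧ b = 1) := by omega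
  rw [e0m_pp k q hp]
  rcases hcases with ⟨rfl, rfl⟩ | ⟨rfl, rfl⟩ | ⟨rfl, rfl⟩ | ⟨rfl, rfl⟩ | ⟨rfl, rfl⟩
  · simp only [Finset.sum_range_succ, Finset.sum_range_zero, zero_add, pow_zero, pow_one,
      Nat.sub_zero, Nat.sub_self, G10, G01, G11, G00, e00, H.e10, H.e01, H.e11]
    simp
  · simp only [Finset.sum_range_succ, Finset.sum_range_zero, zero_add, pow_zero, pow_one,
      Nat.sub_zero, Nat.sub_self, G10, G01, G11, G00, e00, H.e10, H.e01, H.e11]
    simp
  · simp only [Finset.sum_range_succ, Finset.sum_range_zero, zero_add, pow_zero, pow_one,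
      Nat.sub_zero, Nat.sub_self, show 2 - 1 = 1 from rfl, G10, G20, G00, e00, H.e10, H.e20]
    simp
  · simp only [Finset.sum_range_succ, Finset.sum_range_zero, zero_add, pow_zero, pow_one,
      Nat.sub_zero, Nat.sub_self, show 2 - 1 = 1 from rfl, G01, G02, G00, e00, H.e01, H.e02]
    simp
  · simp only [Finset.sum_range_succ, Finset.sum_range_zero, zero_add, pow_zero, pow_one,
      Nat.sub_zero, Nat.sub_self, G10, G01, G11, G00, e00, H.e10, H.e01, H.e11]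
    simp

theorem e0m_sum_le {k : ℤ} {q : ℕ} {p : ℕ} (hp : p.Prime) {a b : ℕ} {B : ℝ} (hB : 0 ≤ B)
    (h : ∀ i j, i ≤ a → j ≤ b → ‖epsn k q (p ^ i) (p ^ j)‖ ≤ B) :
    ‖E0 k q (p ^ a) (p ^ b)‖ ≤ ((a + b : ℕ) + 1 : ℝ) ^ 7 * B := by
  rw [e0m_pp k q hp]
  set E : ℝ := ((a + b : ℕ) + 1 : ℝ) with hE
  have ha : (0 : ℝ) ≤ a := Nat.cast_nonneg _
  have hb : (0 : ℝ) ≤ b := Nat.cast_nonneg _
  have hE0 : 0 ≤ E := by rw [hE]; positivity
  have h1 : ∀ i ∈ range (a + 1), ∀ j ∈ range (b + 1),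
      ‖epsn k q (p ^ i) (p ^ j) * (G1 (p ^ (a - i)) (p ^ (b - j)) : ℂ)‖ ≤ B * E ^ 5 := by
    intro i hi j hj
    rw [Finset.mem_range] at hi hj
    rw [norm_mul, Complex.norm_real, Real.norm_eq_abs]
    have h2 := e0m_G1_le hp (a - i) (b - j)
    have h3 : (((a - i : ℕ) : ℝ) + ((b - j : ℕ) : ℝ) + 1) ≤ E := by
      rw [hE]
      have : (((a - i) + (b - j) : ℕ) : ℝ) ≤ ((a + b : ℕ) : ℝ) := by
        exact_mod_cast (by omega : (a - i) + (b - j) ≤ a + b)
      push_cast at this ⊢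
      linarith
    have h4 : |G1 (p ^ (a - i)) (p ^ (b - j))| ≤ E ^ 5 :=
      h2.trans (pow_le_pow_left₀ (by positivity) h3 5)
    exact mul_le_mul (h i j (by omega) (by omega)) h4 (abs_nonneg _) hB
  refine (norm_sum_le _ _).trans ?_
  calc _ ≤ ∑ i ∈ range (a + 1), ∑ j ∈ range (b + 1), B * E ^ 5 := by
        refine Finset.sum_le_sum (fun i hi => (norm_sum_le _ _).trans ?_)
        exact Finset.sum_le_sum (fun j hj => h1 i hi j hj)
    _ = ((a : ℝ) + 1) * (b + 1) * (B * E ^ 5) := by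
        rw [Finset.sum_const, Finset.sum_const, Finset.card_range, Finset.card_range]
        simp only [nsmul_eq_mul]
        push_cast
        ring
    _ ≤ E ^ 2 * (B * E ^ 5) := by
        apply mul_le_mul_of_nonneg_right _ (by positivity)
        rw [hE]
        push_cast
        nlinarith
    _ = E ^ 7 * B := by ring

/-- the local bound -/
theorem e0m_local {k : ℤ} {q v : ℕ} (hsq : Squarefree q) (hv : 0 < v)
    (hkq : k.natAbs = q * v ^ 2) {p : ℕ} (hp : p.Prime) (a b : ℕ) (hab : 1 ≤ a + b) :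
    ‖E0 k q (p ^ a) (p ^ b)‖ ≤ ym 14 v p (a + b) := by
  have hs1 : 1 ≤ Real.sqrt (p : ℝ) := by
    rw [Real.one_le_sqrt]; exact_mod_cast hp.one_le
  have hs : 0 < Real.sqrt (p : ℝ) := by linarith
  have hym0 : 0 ≤ ym 14 v p (a + b) := by
    unfold ym
    split_ifs <;> positivity
  have hE2 : (2 : ℝ) ≤ ((a + b : ℕ) : ℝ) + 1 := by
    have : (1 : ℝ) ≤ ((a + b : ℕ) : ℝ) := by exact_mod_cast hab
    linarith
  by_cases h2 : p = 2
  · have h0 : E0 k q (p ^ a) (p ^ b) = 0 := by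
      rw [e0m_pp k q hp]
      refine Finset.sum_eq_zero fun i hi => Finset.sum_eq_zero fun j hj => ?_
      rw [Finset.mem_range] at hi hj
      by_cases h3 : 1 ≤ (a - i) + (b - j)
      · rw [h2, e0m_G1_two h3]; simp
      · have h4 : i + j = a + b := by omega
        have h5 := e0m_epsn_norm k q hp i j
        have h6 := e0m_eps_le k q p i j
        rw [h2, ZD.E2.EE_two k q (by omega)] at h6
        have h7 : ‖epsn k q (p ^ i) (p ^ j)‖ = 0 := by
          have h8 : (0 : ℝ) < Real.sqrt (p : ℝ) ^ (i + j) := by positivity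
          rw [← h2] at h6
          have h9 : ‖epsn k q (p ^ i) (p ^ j)‖ ≤ 0 := by
            by_contra hcon
            push Not at hcon
            have := mul_pos hcon h8
            linarith
          exact le_antisymm h9 (norm_nonneg _)
        rw [norm_eq_zero.1 h7, zero_mul]
    rw [h0, norm_zero]
    exact hym0
  by_cases hpv : p ∣ v
  · -- bad primes
    have hv0 : v ≠ 0 := hv.ne'
    set w := v.factorization p with hw
    have hw1 : 1 ≤ w := (hp.dvd_iff_one_le_factorization hv0).1 hpv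
    have hm : ¬ (p : ℤ) ^ ((3 * w) + 1) ∣ k := by
      intro h
      have h3 : p ^ (3 * w + 1) ∣ q * v ^ 2 := by
        rw [← hkq]
        have := Int.natAbs_dvd_natAbs.2 h
        simpa [Int.natAbs_pow] using this
      have hq0 : q ≠ 0 := hsq.ne_zero
      have h4 := (hp.pow_dvd_iff_le_factorization (mul_ne_zero hq0 (pow_ne_zero 2 hv0))).1 h3
      rw [Nat.factorization_mul hq0 (pow_ne_zero 2 hv0), Nat.factorization_pow] at h4
      simp only [Finsupp.add_apply, Finsupp.smul_apply, smul_eq_mul] at h4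
      have h5 := hsq.natFactorization_le_one p
      omega
    set B : ℝ := 4 * (((a + b : ℕ) : ℝ) + 1) ^ 5 * Real.sqrt p ^ min (a + b) (3 * w + 6) with hB
    have hB0 : 0 ≤ B := by rw [hB]; positivity
    have h1 : ∀ i j, i ≤ a → j ≤ b → ‖epsn k q (p ^ i) (p ^ j)‖ ≤ B := by
      intro i j hi hj
      have h5 := e0m_epsn_norm k q hp i j
      have h6 := e0m_eps_le k q p i j
      have h8 : (0 : ℝ) < Real.sqrt (p : ℝ) ^ (i + j) := by positivity
      by_cases h7 : 3 * w + 6 ≤ i + j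
      · rw [ZD.E2.EE_big q hp h2 hm h7] at h6
        have h9 : ‖epsn k q (p ^ i) (p ^ j)‖ ≤ 0 := by
          by_contra hcon
          push Not at hcon
          have := mul_pos hcon h8
          linarith
        linarith
      · have h9 := h6.trans (ZD.E2.EE_triv q hp (i + j))
        rw [← h5] at h9
        have h10 : (p : ℝ) ^ (i + j) = Real.sqrt (p : ℝ) ^ (i + j) * Real.sqrt (p : ℝ) ^ (i + j) := by
          rw [← mul_pow, Real.mul_self_sqrt (Nat.cast_nonneg _)]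
        rw [h10, ← mul_assoc] at h9
        have h11 := le_of_mul_le_mul_right h9 h8
        refine h11.trans ?_
        rw [hB]
        have h12 : ((i + j : ℕ) : ℝ) ≤ ((a + b : ℕ) : ℝ) := by exact_mod_cast (by omega : i + j ≤ a + b)
        have h13 : Real.sqrt (p : ℝ) ^ (i + j) ≤ Real.sqrt (p : ℝ) ^ min (a + b) (3 * w + 6) :=
          pow_le_pow_right₀ hs1 (by omega)
        gcongr
    refine (e0m_sum_le hp hB0 h1).trans ?_
    unfold ym
    rw [if_neg (by omega), if_pos hpv, ← hw, hB]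
    have h14 : (0 : ℝ) ≤ Real.sqrt (p : ℝ) ^ min (a + b) (3 * w + 6) := by positivity
    have h15 : (4 : ℝ) ≤ (((a + b : ℕ) : ℝ) + 1) ^ 2 := by nlinarith
    have h16 : (0 : ℝ) ≤ (((a + b : ℕ) : ℝ) + 1) ^ 12 := by positivity
    calc _ = 4 * (((a + b : ℕ) : ℝ) + 1) ^ 12 * Real.sqrt (p : ℝ) ^ min (a + b) (3 * w + 6) := by
          ring
      _ ≤ (((a + b : ℕ) : ℝ) + 1) ^ 2 * (((a + b : ℕ) : ℝ) + 1) ^ 12 *
          Real.sqrt (p : ℝ) ^ min (a + b) (3 * w + 6) := by gcongr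
      _ = _ := by ring
  · -- good primes
    have H : E0mLoc k q p := by
      by_cases hpk : (p : ℤ) ∣ k
      · have hpk' : p ∣ q * v ^ 2 := by rw [← hkq]; exact Int.natCast_dvd.1 hpk
        have hpq : p ∣ q := by
          rcases (hp.dvd_mul).1 hpk' with h | h
          · exact h
          · exact absurd (hp.dvd_of_dvd_pow h) hpv
        have hk2 : ¬ (p : ℤ) ^ 2 ∣ k := by
          intro h
          have h3 : p ^ 2 ∣ q * v ^ 2 := by
            rw [← hkq]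
            have := Int.natAbs_dvd_natAbs.2 h
            simpa [Int.natAbs_pow] using this
          have hc : (p ^ 2).Coprime (v ^ 2) := Nat.Coprime.pow 2 2 ((hp.coprime_iff_not_dvd).2 hpv)
          have h4 : p ^ 2 ∣ q := hc.dvd_of_dvd_mul_right h3
          have h5 := (Nat.squarefree_iff_prime_squarefree.1 hsq) p hp
          rw [pow_two] at h4
          exact h5 h4
        exact e0m_mid hp h2 hpq hpk hk2
      · exact e0m_good hp h2 hkq hpk
    by_cases h3 : a + b ≤ 2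
    · rw [e0m_deg_le hp H hab h3, norm_zero]
      exact hym0
    · have hE4 : (4 : ℝ) ≤ ((a + b : ℕ) : ℝ) + 1 := by
        have : (3 : ℝ) ≤ ((a + b : ℕ) : ℝ) := by exact_mod_cast (by omega : 3 ≤ a + b)
        linarith
      have h1 : ∀ i j, i ≤ a → j ≤ b → ‖epsn k q (p ^ i) (p ^ j)‖ ≤
          27 * (((a + b : ℕ) : ℝ) + 1) ^ 2 := by
        intro i j hi hj
        refine (H.bd i j).trans ?_
        have h12 : ((i + j : ℕ) : ℝ) ≤ ((a + b : ℕ) : ℝ) := by exact_mod_cast (by omega : i + j ≤ a + b)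
        push_cast at h12
        have : (i : ℝ) + j + 1 ≤ ((a + b : ℕ) : ℝ) + 1 := by push_cast; linarith
        gcongr
      refine (e0m_sum_le hp (by positivity) h1).trans ?_
      unfold ym
      rw [if_neg (by omega), if_neg hpv, if_neg h3]
      set E : ℝ := ((a + b : ℕ) : ℝ) + 1 with hE
      have h5 : (27 : ℝ) ≤ E ^ 3 := by
        calc (27 : ℝ) ≤ 4 ^ 3 := by norm_num
          _ ≤ E ^ 3 := pow_le_pow_left₀ (by norm_num) hE4 3
      have h6 : (1 : ℝ) ≤ E ^ 2 := one_le_pow₀ (by linarith)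
      have h7 : (0 : ℝ) ≤ E ^ 9 := by positivity
      calc E ^ 7 * (27 * E ^ 2) = 27 * E ^ 9 := by ring
        _ ≤ E ^ 3 * E ^ 9 := mul_le_mul_of_nonneg_right h5 h7
        _ = 1 * E ^ 12 := by ring
        _ ≤ E ^ 2 * E ^ 12 := mul_le_mul_of_nonneg_right h6 (by positivity)
        _ = E ^ 14 := by ring

theorem e0m_YM_mul (A v : ℕ) {p : ℕ} (hp : p.Prime) {e m : ℕ} (he : 1 ≤ e) (hm : m ≠ 0)
    (hpm : ¬ p ∣ m) : YM A v (p ^ e * m) = ym A v p e * YM A v m := by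
  unfold YM
  rw [Nat.factorization_mul (pow_ne_zero _ hp.ne_zero) hm, hp.factorization_pow]
  rw [Finsupp.prod_add_index_of_disjoint, Finsupp.prod_single_index]
  · unfold ym; simp
  · rw [Finset.disjoint_left]
    intro r hr hr'
    have h1 : r = p := by
      by_contra hne
      rw [Finsupp.mem_support_iff, Finsupp.single_apply, if_neg (fun h => hne h.symm)] at hr
      exact hr rfl
    rw [h1, Nat.support_factorization, Nat.mem_primeFactors] at hr'
    exact hpm hr'.2.1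

theorem e0m_main {k : ℤ} {q v : ℕ} (hsq : Squarefree q) (hv : 0 < v)
    (hkq : k.natAbs = q * v ^ 2) : ∀ n a b : ℕ, 0 < a → 0 < b → a * b = n →
    ‖E0 k q a b‖ ≤ YM 14 v (a * b) := by
  intro n
  induction n using Nat.strong_induction_on with
  | _ n ih =>
  intro a b ha hb hn
  by_cases h1 : n = 1
  · rw [h1, mul_eq_one] at hn
    rw [hn.1, hn.2, e0m_one]
    unfold YM
    simp
  · have hn0 : n ≠ 0 := by rw [← hn]; exact (Nat.mul_pos ha hb).ne'
    obtain ⟨p, hp, hpn⟩ := Nat.exists_prime_and_dvd h1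
    obtain ⟨i, a', hpa, haa⟩ := Nat.exists_eq_pow_mul_and_not_dvd ha.ne' p hp.ne_one
    obtain ⟨j, b', hpb, hbb⟩ := Nat.exists_eq_pow_mul_and_not_dvd hb.ne' p hp.ne_one
    have ha' : 0 < a' := Nat.pos_of_ne_zero (by rintro rfl; simp at hpa)
    have hb' : 0 < b' := Nat.pos_of_ne_zero (by rintro rfl; simp at hpb)
    have hab : 1 ≤ i + j := by
      by_contra hcon
      have hi : i = 0 := by omega
      have hj : j = 0 := by omega
      rw [hi, pow_zero, one_mul] at haa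
      rw [hj, pow_zero, one_mul] at hbb
      rw [← hn] at hpn
      rcases (hp.dvd_mul).1 hpn with h | h
      · exact hpa (haa ▸ h)
      · exact hpb (hbb ▸ h)
    have hpab : ¬ p ∣ a' * b' := by
      intro h
      rcases (hp.dvd_mul).1 h with h | h
      · exact hpa h
      · exact hpb h
    have hcop : (p ^ i * p ^ j).Coprime (a' * b') := by
      rw [← pow_add]
      exact Nat.Coprime.pow_left _ ((hp.coprime_iff_not_dvd).2 hpab)
    have hmul := E0_mul k q hcop (mul_ne_zero (pow_ne_zero _ hp.ne_zero) (pow_ne_zero _ hp.ne_zero))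
    rw [← haa, ← hbb] at hmul
    have hprod : a * b = p ^ (i + j) * (a' * b') := by
      rw [haa, hbb, pow_add]; ring
    have hlt : a' * b' < n := by
      rw [← hn, hprod]
      have h3 : 1 < p ^ (i + j) := Nat.one_lt_pow (by omega) hp.one_lt
      have h4 : 0 < a' * b' := Nat.mul_pos ha' hb'
      nlinarith
    have h5 := ih (a' * b') hlt a' b' ha' hb' rfl
    rw [hmul, norm_mul, hprod, e0m_YM_mul 14 v hp hab (Nat.mul_pos ha' hb').ne' hpab]
    exact mul_le_mul (e0m_local hsq hv hkq hp i j hab) h5 (norm_nonneg _)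
      ((norm_nonneg _).trans (e0m_local hsq hv hkq hp i j hab))

theorem E0_le : ∃ A : ℕ, ∀ (k : ℤ) (q v a b : ℕ), Squarefree q → 0 < v → k.natAbs = q * v ^ 2 →
    0 < a → 0 < b → ‖E0 k q a b‖ ≤ YM A v (a * b) :=
  ⟨14, fun _ _ _ a b hq hv hk ha hb => e0m_main hq hv hk (a * b) a b ha hb rfl⟩

end Pool.Agent.CZ
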