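import Mathlib
import Pool.Agent.CZ.IDefs
import Pool.Agent.ZD.E2A

/-!
# Critical zeros (MP_553913_nt), part (I): norm of the majorant `YM`
-/

set_option autoImplicit false

open Complex Finset MeasureTheory

namespace Pool.Agent.CZ

open Pool.Agent.ZD.E2 (euler_bound double_bound prod_val_le prod_prime_le)

lemma e0n_ym_nonneg (A v p e : ℕ) : 0 ≤ ym A v p e := by
  unfold ym
  split_ifs <;> positivity

theorem YM_nonneg (A v n : ℕ) : 0 ≤ YM A v n := by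
  unfold YM
  exact Finset.prod_nonneg (fun p _ => e0n_ym_nonneg A v p _)

lemma e0n_YM_mul (A v : ℕ) {m n : ℕ} (h : m.Coprime n) : YM A v (m * n) = YM A v m * YM A v n := by
  unfold YM
  rw [Nat.factorization_mul_of_coprime h, Finsupp.prod_add_index_of_disjoint]
  exact h.disjoint_primeFactors

lemma e0n_YM_pow (A v : ℕ) {p : ℕ} (hp : p.Prime) (e : ℕ) : YM A v (p ^ e) = ym A v p e := by
  unfold YM
  rw [hp.factorization_pow, Finsupp.prod_single_index (by simp [ym])]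

/-- ratio -/
noncomputable def e0n_r : ℝ := (Real.sqrt 2)⁻¹

lemma e0n_r_pos : 0 < e0n_r := by unfold e0n_r; positivity

lemma e0n_r_lt : e0n_r < 1 := by
  unfold e0n_r
  have h : (1:ℝ) < Real.sqrt 2 := by
    rw [show (1:ℝ) = Real.sqrt 1 by simp]
    exact Real.sqrt_lt_sqrt (by norm_num) (by norm_num)
  exact inv_lt_one_of_one_lt₀ h

lemma e0n_sq_le {p : ℕ} (hp : p.Prime) : 0 < Real.sqrt p ∧ (Real.sqrt p)⁻¹ ≤ e0n_r := by
  have h2 : (2:ℝ) ≤ p := by exact_mod_cast hp.two_le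
  have h1 : 0 < Real.sqrt p := Real.sqrt_pos.2 (by linarith)
  refine ⟨h1, ?_⟩
  unfold e0n_r
  exact inv_anti₀ (by positivity) (Real.sqrt_le_sqrt h2)

lemma e0n_summ (B : ℕ) : Summable (fun j : ℕ => ((j : ℝ) + 1) ^ B * e0n_r ^ j) := by
  have h0 := e0n_r_pos
  have h := (summable_nat_add_iff 1).2 (summable_pow_mul_geometric_of_norm_lt_one (R := ℝ) B (r := e0n_r)
    (by rw [Real.norm_eq_abs, abs_of_pos h0]; exact e0n_r_lt))
  refine (h.mul_left e0n_r⁻¹).congr (fun j => ?_)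
  push_cast
  rw [pow_succ]
  field_simp

/-- `∑ (j+1)^B r^j` -/
noncomputable def e0n_S (B : ℕ) : ℝ := ∑' j : ℕ, ((j : ℝ) + 1) ^ B * e0n_r ^ j

lemma e0n_S_ge (B : ℕ) : 1 ≤ e0n_S B := by
  have h := (e0n_summ B).sum_le_tsum (range 1) (fun j _ => by have := e0n_r_pos; positivity)
  simpa [e0n_S] using h

/-- local factor -/
noncomputable def e0n_T (A v p e : ℕ) : ℝ := ((e : ℝ) + 1) * ym A v p e * (Real.sqrt p)⁻¹ ^ e

lemma e0n_T_nonneg (A v p e : ℕ) : 0 ≤ e0n_T A v p e := by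
  unfold e0n_T
  have := e0n_ym_nonneg A v p e
  positivity

lemma e0n_good (A v : ℕ) {p : ℕ} (hp : p.Prime) (hv : ¬ p ∣ v) :
    Summable (fun e => e0n_T A v p e) ∧
    ∑' e, e0n_T A v p e ≤ 1 + 4 ^ (A + 1) * e0n_S (A + 1) * (p : ℝ) ^ (-(1 + 1 / 2) : ℝ) := by
  obtain ⟨hs, hr⟩ := e0n_sq_le hp
  have hr0 := e0n_r_pos
  have hp0 : (0:ℝ) < p := by exact_mod_cast hp.pos
  have hs0 : 0 < (Real.sqrt p)⁻¹ := by positivity
  have hp32 : (Real.sqrt p)⁻¹ ^ 3 = (p : ℝ) ^ (-(1 + 1 / 2) : ℝ) := by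
    rw [Real.sqrt_eq_rpow, ← Real.rpow_neg hp0.le, ← Real.rpow_natCast, ← Real.rpow_mul hp0.le]
    norm_num
  have hT : ∀ j : ℕ, e0n_T A v p (j + 3) ≤
      4 ^ (A + 1) * (p : ℝ) ^ (-(1 + 1 / 2) : ℝ) * (((j : ℝ) + 1) ^ (A + 1) * e0n_r ^ j) := by
    intro j
    have e1 : e0n_T A v p (j + 3) = ((j : ℝ) + 4) ^ (A + 1) * (Real.sqrt p)⁻¹ ^ (j + 3) := by
      unfold e0n_T ym
      rw [if_neg (by omega), if_neg hv, if_neg (by omega)]
      push_cast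
      ring
    rw [e1, pow_add (Real.sqrt p)⁻¹ j 3, hp32]
    have h1 : ((j : ℝ) + 4) ^ (A + 1) ≤ 4 ^ (A + 1) * ((j : ℝ) + 1) ^ (A + 1) := by
      rw [← mul_pow]
      have : (0:ℝ) ≤ j := Nat.cast_nonneg j
      exact pow_le_pow_left₀ (by linarith) (by linarith) _
    have h2 : (Real.sqrt p)⁻¹ ^ j ≤ e0n_r ^ j := pow_le_pow_left₀ hs0.le hr _
    calc ((j : ℝ) + 4) ^ (A + 1) * ((Real.sqrt p)⁻¹ ^ j * (p : ℝ) ^ (-(1 + 1 / 2) : ℝ))
        ≤ (4 ^ (A + 1) * ((j : ℝ) + 1) ^ (A + 1)) * (e0n_r ^ j * (p : ℝ) ^ (-(1 + 1 / 2) : ℝ)) := by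
          gcongr
      _ = _ := by ring
  have hsum3 : Summable (fun j => e0n_T A v p (j + 3)) :=
    Summable.of_nonneg_of_le (fun j => e0n_T_nonneg A v p _) hT ((e0n_summ (A + 1)).mul_left _)
  have hsum : Summable (fun e => e0n_T A v p e) := (summable_nat_add_iff 3).1 hsum3
  refine ⟨hsum, ?_⟩
  rw [← hsum.sum_add_tsum_nat_add 3]
  have h3 : ∑ i ∈ range 3, e0n_T A v p i = 1 := by
    simp [Finset.sum_range_succ, e0n_T, ym, hv]
  have h4 : ∑' j, e0n_T A v p (j + 3) ≤ 4 ^ (A + 1) * (p : ℝ) ^ (-(1 + 1 / 2) : ℝ) * e0n_S (A + 1) := by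
    unfold e0n_S
    rw [← tsum_mul_left]
    exact hsum3.tsum_le_tsum hT ((e0n_summ (A + 1)).mul_left _)
  rw [h3]
  calc _ ≤ 1 + 4 ^ (A + 1) * (p : ℝ) ^ (-(1 + 1 / 2) : ℝ) * e0n_S (A + 1) := by linarith
    _ = _ := by ring

lemma e0n_bad (A v : ℕ) {p : ℕ} (hp : p.Prime) (hv : p ∣ v) :
    Summable (fun e => e0n_T A v p e) ∧
    ∑' e, e0n_T A v p e ≤
      ((3 * v.factorization p + 7 : ℕ) : ℝ) ^ (A + 2) * (1 + e0n_S (A + 1)) := by
  obtain ⟨hs, hr⟩ := e0n_sq_le hp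
  have hr0 := e0n_r_pos
  have hr1 := e0n_r_lt
  have hs0 : 0 < (Real.sqrt p)⁻¹ := by positivity
  set M : ℕ := 3 * v.factorization p + 6 with hM
  have hT : ∀ e : ℕ, e0n_T A v p e ≤ ((e : ℝ) + 1) ^ (A + 1) * e0n_r ^ (e - M) := by
    intro e
    rcases Nat.eq_zero_or_pos e with h0 | h0
    · subst h0
      simp [e0n_T, ym]
    have e1 : e0n_T A v p e = ((e : ℝ) + 1) ^ (A + 1) * (Real.sqrt p ^ min e M * (Real.sqrt p)⁻¹ ^ e) := by
      unfold e0n_T ym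
      rw [if_neg (by omega), if_pos hv]
      ring
    rw [e1]
    have e2 : Real.sqrt p ^ min e M * (Real.sqrt p)⁻¹ ^ e = (Real.sqrt p)⁻¹ ^ (e - M) := by
      have e3 : e = min e M + (e - M) := by omega
      conv_lhs => rw [show (Real.sqrt p)⁻¹ ^ e = (Real.sqrt p)⁻¹ ^ (min e M + (e - M)) by rw [← e3]]
      rw [pow_add, ← mul_assoc, ← mul_pow, mul_inv_cancel₀ hs.ne', one_pow, one_mul]
    rw [e2]
    have h2 : (Real.sqrt p)⁻¹ ^ (e - M) ≤ e0n_r ^ (e - M) := pow_le_pow_left₀ hs0.le hr _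
    gcongr
  have hTM : ∀ j : ℕ, e0n_T A v p (j + M) ≤
      ((M : ℝ) + 1) ^ (A + 1) * (((j : ℝ) + 1) ^ (A + 1) * e0n_r ^ j) := by
    intro j
    refine (hT (j + M)).trans ?_
    rw [Nat.add_sub_cancel, ← mul_assoc, ← mul_pow]
    have h1 : (((j + M : ℕ) : ℝ) + 1) ≤ ((M : ℝ) + 1) * ((j : ℝ) + 1) := by
      push_cast
      have : (0:ℝ) ≤ (M : ℝ) * j := by positivity
      nlinarith
    gcongr
  have hsumM : Summable (fun j => e0n_T A v p (j + M)) :=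
    Summable.of_nonneg_of_le (fun j => e0n_T_nonneg A v p _) hTM ((e0n_summ (A + 1)).mul_left _)
  have hsum : Summable (fun e => e0n_T A v p e) := (summable_nat_add_iff M).1 hsumM
  refine ⟨hsum, ?_⟩
  rw [← hsum.sum_add_tsum_nat_add M]
  have h3 : ∑ i ∈ range M, e0n_T A v p i ≤ M * ((M : ℝ) + 1) ^ (A + 1) := by
    have : ∑ i ∈ range M, e0n_T A v p i ≤ ∑ _i ∈ range M, ((M : ℝ) + 1) ^ (A + 1) := by
      refine Finset.sum_le_sum (fun i hi => ?_)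
      rw [Finset.mem_range] at hi
      refine (hT i).trans ?_
      rw [Nat.sub_eq_zero_of_le hi.le, pow_zero, mul_one]
      have : (i : ℝ) ≤ M := by exact_mod_cast hi.le
      gcongr
    simpa using this
  have h4 : ∑' j, e0n_T A v p (j + M) ≤ ((M : ℝ) + 1) ^ (A + 1) * e0n_S (A + 1) := by
    unfold e0n_S
    rw [← tsum_mul_left]
    exact hsumM.tsum_le_tsum hTM ((e0n_summ (A + 1)).mul_left _)
  have h5 : ((3 * v.factorization p + 7 : ℕ) : ℝ) = (M : ℝ) + 1 := by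
    rw [hM]; push_cast; ring
  rw [h5]
  have hM0 : (0:ℝ) ≤ M := Nat.cast_nonneg M
  have hS := e0n_S_ge (A + 1)
  calc _ ≤ M * ((M : ℝ) + 1) ^ (A + 1) + ((M : ℝ) + 1) ^ (A + 1) * e0n_S (A + 1) := by linarith
    _ = ((M : ℝ) + 1) ^ (A + 1) * (M + e0n_S (A + 1)) := by ring
    _ ≤ ((M : ℝ) + 1) ^ (A + 1) * (((M : ℝ) + 1) * (1 + e0n_S (A + 1))) := by
        have : (M : ℝ) + e0n_S (A + 1) ≤ ((M : ℝ) + 1) * (1 + e0n_S (A + 1)) := by nlinarith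
        gcongr
    _ = _ := by ring

lemma e0n_local (A : ℕ) : ∃ (k A' : ℕ), ∀ (v p : ℕ), p.Prime → 0 < v →
    Summable (fun e => e0n_T A v p e) ∧
    ∑' e, e0n_T A v p e ≤ (1 + (p : ℝ) ^ (-(1 + 1 / 2) : ℝ)) ^ k *
      ((v.factorization p + 1 : ℕ) : ℝ) ^ A' := by
  obtain ⟨k, hk⟩ := exists_nat_ge (4 ^ (A + 1) * e0n_S (A + 1))
  obtain ⟨l, hl⟩ : ∃ l : ℕ, 1 + e0n_S (A + 1) ≤ 2 ^ l := by
    obtain ⟨l, hl⟩ := exists_nat_ge (1 + e0n_S (A + 1))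
    refine ⟨l, hl.trans ?_⟩
    exact_mod_cast (Nat.lt_two_pow_self (n := l)).le
  refine ⟨k, l + 4 * (A + 2), fun v p hp hv => ?_⟩
  have hp0 : (0:ℝ) < p := by exact_mod_cast hp.pos
  have hx : 0 < (p : ℝ) ^ (-(1 + 1 / 2) : ℝ) := by positivity
  by_cases hd : p ∣ v
  · obtain ⟨h1, h2⟩ := e0n_bad A v hp hd
    refine ⟨h1, h2.trans ?_⟩
    have hw : 1 ≤ v.factorization p := (hp.dvd_iff_one_le_factorization hv.ne').1 hd
    set w := v.factorization p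
    have hw2 : (2:ℝ) ≤ ((w + 1 : ℕ) : ℝ) := by exact_mod_cast (by omega : 2 ≤ w + 1)
    have h3 : ((3 * w + 7 : ℕ) : ℝ) ≤ ((w + 1 : ℕ) : ℝ) ^ 4 := by
      have : 3 * w + 7 ≤ (w + 1) ^ 4 := by
        obtain ⟨u, hu⟩ : ∃ u, w = u + 1 := ⟨w - 1, by omega⟩
        rw [hu]
        have e : (u + 1 + 1) ^ 4 = u ^ 4 + 8 * u ^ 3 + 24 * u ^ 2 + 32 * u + 16 := by ring
        rw [e]
        have h1 : 0 ≤ u ^ 4 := Nat.zero_le _
        have h2 : 0 ≤ u ^ 3 := Nat.zero_le _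
        have h3 : 0 ≤ u ^ 2 := Nat.zero_le _
        linarith
      exact_mod_cast this
    have h4 : (1:ℝ) ≤ (1 + (p : ℝ) ^ (-(1 + 1 / 2) : ℝ)) ^ k := one_le_pow₀ (by linarith)
    calc ((3 * w + 7 : ℕ) : ℝ) ^ (A + 2) * (1 + e0n_S (A + 1))
        ≤ (((w + 1 : ℕ) : ℝ) ^ 4) ^ (A + 2) * ((w + 1 : ℕ) : ℝ) ^ l := by
          have h5 : (1 + e0n_S (A + 1)) ≤ ((w + 1 : ℕ) : ℝ) ^ l :=
            hl.trans (pow_le_pow_left₀ (by norm_num) hw2 _)
          have h6 := e0n_S_ge (A + 1)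
          gcongr
      _ = 1 * ((w + 1 : ℕ) : ℝ) ^ (l + 4 * (A + 2)) := by
          rw [← pow_mul, ← pow_add, one_mul]; congr 1; ring
      _ ≤ _ := by gcongr
  · obtain ⟨h1, h2⟩ := e0n_good A v hp hd
    refine ⟨h1, h2.trans ?_⟩
    rw [Nat.factorization_eq_zero_of_not_dvd hd]
    simp only [zero_add, Nat.cast_one, one_pow, mul_one]
    have h3 : 1 + (k : ℝ) * (p : ℝ) ^ (-(1 + 1 / 2) : ℝ) ≤ (1 + (p : ℝ) ^ (-(1 + 1 / 2) : ℝ)) ^ k :=
      one_add_mul_le_pow (by linarith) k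
    refine le_trans ?_ h3
    gcongr

/-- `G(n) = YM(n) n^{-1/2} d(n)` -/
noncomputable def e0n_G (A v n : ℕ) : ℝ :=
  (n.divisors.card : ℝ) * (YM A v n * (n : ℝ) ^ (-(1 / 2) : ℝ))

lemma e0n_G_pow (A v : ℕ) {p : ℕ} (hp : p.Prime) (e : ℕ) : e0n_G A v (p ^ e) = e0n_T A v p e := by
  unfold e0n_G e0n_T
  rw [e0n_YM_pow A v hp, Nat.divisors_prime_pow hp, Finset.card_map, Finset.card_range]
  have hp0 : (0:ℝ) ≤ p := Nat.cast_nonneg p
  have : ((p ^ e : ℕ) : ℝ) ^ (-(1 / 2) : ℝ) = (Real.sqrt p)⁻¹ ^ e := by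
    rw [Real.sqrt_eq_rpow, ← Real.rpow_neg hp0, ← Real.rpow_natCast ((p : ℝ) ^ (-(1 / 2) : ℝ)),
      ← Real.rpow_mul hp0, Nat.cast_pow, ← Real.rpow_natCast (p : ℝ) e, ← Real.rpow_mul hp0]
    congr 1; ring
  rw [this]
  push_cast
  ring

theorem YM_norm (A : ℕ) : ∃ (C : ℝ) (A' : ℕ), 0 < C ∧ ∀ v : ℕ, 0 < v →
    Summable (fun b : ℕ × ℕ => YM A v (b.1 * b.2) * ((b.1 : ℝ) * b.2) ^ (-(1 / 2) : ℝ)) ∧
    ∑' b : ℕ × ℕ, YM A v (b.1 * b.2) * ((b.1 : ℝ) * b.2) ^ (-(1 / 2) : ℝ) ≤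
      C * (v.divisors.card : ℝ) ^ A' := by
  obtain ⟨k, A', hloc⟩ := e0n_local A
  refine ⟨3 ^ k, A', by positivity, fun v hv => ?_⟩
  have hG0 : ∀ n, 0 ≤ e0n_G A v n := by
    intro n
    unfold e0n_G
    have := YM_nonneg A v n
    positivity
  have key : ∀ u : Finset ℕ, ∑ n ∈ u, e0n_G A v n ≤ 3 ^ k * (v.divisors.card : ℝ) ^ A' := by
    intro u
    refine euler_bound hG0 (by simp [e0n_G]) (by simp [e0n_G, YM]) ?_ ?_ (v + 1) ?_ u
    · intro m n hmn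
      unfold e0n_G
      rw [e0n_YM_mul A v hmn, hmn.card_divisors_mul, Nat.cast_mul, Nat.cast_mul,
        Real.mul_rpow (Nat.cast_nonneg m) (Nat.cast_nonneg n)]
      ring
    · intro p hp
      exact (hloc v p hp hv).1.congr (fun e => (e0n_G_pow A v hp e).symm)
    · intro N hN
      calc ∏ p ∈ (range N).filter Nat.Prime, ∑' e, e0n_G A v (p ^ e)
          ≤ ∏ p ∈ (range N).filter Nat.Prime, ((1 + (p : ℝ) ^ (-(1 + 1 / 2) : ℝ)) ^ k *
            ((v.factorization p + 1 : ℕ) : ℝ) ^ A') := by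
            refine Finset.prod_le_prod (fun p _ => tsum_nonneg (fun e => hG0 _)) (fun p hp => ?_)
            have hp' := (Finset.mem_filter.1 hp).2
            rw [tsum_congr (fun e => e0n_G_pow A v hp' e)]
            exact (hloc v p hp' hv).2
        _ = (∏ p ∈ (range N).filter Nat.Prime, (1 + (p : ℝ) ^ (-(1 + 1 / 2) : ℝ))) ^ k *
            (v.divisors.card : ℝ) ^ A' := by
            rw [Finset.prod_mul_distrib, Finset.prod_pow, prod_val_le hv.ne' hN]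
        _ ≤ 3 ^ k * (v.divisors.card : ℝ) ^ A' := by
            have h1 := prod_prime_le (η := 1 / 2) (by norm_num) (by norm_num) N
            have h2 : (1:ℝ) + 1 / (1 / 2) = 3 := by norm_num
            rw [h2] at h1
            have h3 : 0 ≤ ∏ p ∈ (range N).filter Nat.Prime, (1 + (p : ℝ) ^ (-(1 + 1 / 2) : ℝ)) :=
              Finset.prod_nonneg (fun p _ => by positivity)
            gcongr
  refine double_bound (F := fun a b => YM A v (a * b) * ((a : ℝ) * b) ^ (-(1 / 2) : ℝ)) ?_ ?_ ?_ ?_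
  · intro a b
    have := YM_nonneg A v (a * b)
    positivity
  · intro b
    simp
  · intro a
    simp
  · intro u
    refine le_trans (le_of_eq ?_) (key u)
    refine Finset.sum_congr rfl (fun n _ => ?_)
    unfold e0n_G
    rw [Finset.sum_congr rfl (g := fun _ => YM A v n * (n : ℝ) ^ (-(1 / 2) : ℝ)) (fun x hx => ?_)]
    · rw [Finset.sum_const, nsmul_eq_mul, ← Nat.map_div_right_divisors, Finset.card_map]
    · rw [Nat.mem_divisorsAntidiagonal] at hx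
      rw [← Nat.cast_mul, hx.1]

end Pool.Agent.CZ
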