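import Mathlib
import Pool.Agent.CZ.IDefs
import Pool.Agent.CZ.IKER

/-!
# CZ, part (I): the two-variable multiplier lemma for families (module I_M3)
-/

set_option autoImplicit false

open Complex Finset MeasureTheory Filter Topology

namespace Pool.Agent.CZ


/-! ### Gaussians -/

/-- `e^{-x²/8}` -/
noncomputable def m3phi (x : ℝ) : ℝ := Real.exp (-(x ^ 2 / 8))

lemma m3_gauss_int {b : ℝ} (hb : 0 < b) : Integrable (fun x : ℝ => Real.exp (-(x ^ 2 * b))) := by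
  have := integrable_exp_neg_mul_sq hb
  refine this.congr (Eventually.of_forall fun x => ?_)
  simp only
  congr 1; ring

lemma m3_gauss_exp_int {b c : ℝ} (hb : 0 < b) (t : ℝ) :
    Integrable (fun v : ℝ => Real.exp (c * |v|) * Real.exp (-((v - t) ^ 2 * b))) := by
  have h1 : Integrable (fun v : ℝ => Real.exp (|c| * |t| + c ^ 2 / (2 * b)) *
      Real.exp (-((v - t) ^ 2 * (b / 2)))) := by
    have := (m3_gauss_int (b := b / 2) (by positivity)).comp_sub_right t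
    exact this.const_mul _
  refine h1.mono' (by fun_prop) (Eventually.of_forall fun v => ?_)
  rw [Real.norm_of_nonneg (by positivity), ← Real.exp_add, ← Real.exp_add]
  apply Real.exp_le_exp.mpr
  have h2 : c * |v| ≤ |c| * |t| + |c| * |v - t| := by
    have h3 : |v| ≤ |t| + |v - t| := by
      calc |v| = |t + (v - t)| := by ring_nf
        _ ≤ _ := abs_add_le _ _
    have h4 : c * |v| ≤ |c| * |v| := mul_le_mul_of_nonneg_right (le_abs_self c) (abs_nonneg _)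
    nlinarith [abs_nonneg c]
  have h5 : |c| * |v - t| ≤ c ^ 2 / (2 * b) + (v - t) ^ 2 * (b / 2) := by
    have h6 : 0 ≤ (|c| - b * |v - t|) ^ 2 := sq_nonneg _
    have h7 : |c| ^ 2 = c ^ 2 := sq_abs c
    have h8 : |v - t| ^ 2 = (v - t) ^ 2 := sq_abs _
    rw [div_add' _ _ _ (by positivity), le_div_iff₀ (by positivity), ← h7, ← h8]
    linarith [h6, show (|c| - b * |v - t|) ^ 2 = |c| ^ 2 + |v - t| ^ 2 * (b / 2) * (2 * b) -
      |c| * |v - t| * (2 * b) by ring]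
  nlinarith

/-- `e^{-x²/8}` as a Fourier integral -/
lemma m3_phi_fourier (x : ℝ) : ((m3phi x : ℝ) : ℂ) =
    ∫ r : ℝ, ((Real.sqrt (2 / Real.pi) * Real.exp (-(r ^ 2 * 2)) : ℝ) : ℂ) * exp (I * r * x) := by
  have h := fourierIntegral_gaussian (b := 2) (by norm_num) (x : ℂ)
  have hpi := Real.pi_pos
  have h1 : ((Real.pi : ℂ) / 2) ^ (1 / 2 : ℂ) = ((Real.sqrt (Real.pi / 2) : ℝ) : ℂ) := by
    rw [Real.sqrt_eq_rpow, Complex.ofReal_cpow (by positivity)]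
    push_cast
    rfl
  rw [h1] at h
  have h2 : ∫ r : ℝ, ((Real.sqrt (2 / Real.pi) * Real.exp (-(r ^ 2 * 2)) : ℝ) : ℂ) * exp (I * r * x) =
      ((Real.sqrt (2 / Real.pi) : ℝ) : ℂ) * ∫ r : ℝ, cexp (I * x * r) * cexp (-2 * (r : ℂ) ^ 2) := by
    rw [← integral_const_mul]
    congr 1
    funext r
    push_cast
    rw [show (-((r : ℂ) ^ 2 * 2)) = -2 * (r : ℂ) ^ 2 by ring,
      show I * (r : ℂ) * x = I * x * r by ring]
    ring
  rw [h2, h, ← mul_assoc, ← Complex.ofReal_mul, ← Real.sqrt_mul (by positivity)]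
  have h3 : 2 / Real.pi * (Real.pi / 2) = 1 := by field_simp
  rw [h3, Real.sqrt_one, Complex.ofReal_one, one_mul]
  unfold m3phi
  push_cast
  congr 1
  ring

/-- `e^{-x²/8}` as a convolution of Gaussians -/
lemma m3_phi_conv (x : ℝ) : ((m3phi x : ℝ) : ℂ) =
    ∫ r : ℝ, ((1 / Real.sqrt (3 * Real.pi / 2) * Real.exp (-(r ^ 2 / 6)) *
      Real.exp (-((x - r) ^ 2 / 2)) : ℝ) : ℂ) := by
  have hpi := Real.pi_pos
  rw [integral_complex_ofReal]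
  congr 1
  have h1 : ∀ r : ℝ, 1 / Real.sqrt (3 * Real.pi / 2) * Real.exp (-(r ^ 2 / 6)) *
      Real.exp (-((x - r) ^ 2 / 2)) = (1 / Real.sqrt (3 * Real.pi / 2) * m3phi x) *
        Real.exp (-(2 / 3) * (r - 3 * x / 4) ^ 2) := by
    intro r
    unfold m3phi
    rw [mul_assoc, mul_assoc, ← Real.exp_add, ← Real.exp_add]
    congr 2
    ring
  simp_rw [h1]
  rw [integral_const_mul, integral_sub_right_eq_self (fun r : ℝ => Real.exp (-(2 / 3) * r ^ 2)),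
    integral_gaussian]
  have h2 : Real.pi / (2 / 3) = 3 * Real.pi / 2 := by ring
  rw [h2]
  field_simp

/-! ### one variable -/

/-- block with a multiplier and a wide Gaussian -/
noncomputable def m3J (F m : ℝ → ℂ) (x t : ℝ) : ℂ :=
  ∫ v : ℝ, F v * m v * exp (I * (v - t) * x) * (Real.exp (-((v - t) ^ 2 / 4)) : ℂ)

lemma m3_swap {α β : Type*} [MeasurableSpace α] [MeasurableSpace β] {μ : Measure α} {ν : Measure β}
    [SFinite μ] [SFinite ν] {f : α → β → ℂ} (h : Integrable (Function.uncurry f) (μ.prod ν)) :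
    Integrable (fun y => ∫ x, f x y ∂μ) ν ∧
      ∫ x, ∫ y, f x y ∂ν ∂μ = ∫ y, ∫ x, f x y ∂μ ∂ν := by
  refine ⟨?_, integral_integral_swap h⟩
  exact h.integral_prod_right

theorem m3_J_le {F m k : ℝ → ℂ} (hF : Continuous F) {K : ℝ} (hK : ∀ v, ‖F v‖ ≤ K * Real.exp |v|)
    (hkc : Continuous k) (hki : Integrable k) {t : ℝ}
    (hk : ∀ v : ℝ, m v * (m3phi (v - t) : ℂ) = ∫ y : ℝ, k y * exp (I * y * v)) (x : ℝ) :
    Integrable (fun p : ℝ × ℝ => ‖k p.1‖ * Real.exp (-(p.2 ^ 2 / 6)) *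
      ‖Gt F (x + p.1) (t + p.2)‖) ∧
    ‖m3J F m x t‖ ≤ ∫ p : ℝ × ℝ, ‖k p.1‖ * Real.exp (-(p.2 ^ 2 / 6)) *
      ‖Gt F (x + p.1) (t + p.2)‖ := by
  have hpi := Real.pi_gt_three
  set c : ℝ := 1 / Real.sqrt (3 * Real.pi / 2) with hc
  have hc0 : 0 < c := by positivity
  have hc1 : c ≤ 1 := by
    rw [hc, div_le_one (by positivity)]
    rw [Real.le_sqrt' (by norm_num)]
    linarith
  -- the integrand
  set f : ℝ → ℝ × ℝ → ℂ := fun v p => F v * exp (I * (v - t) * x) * (k p.1 * exp (I * p.1 * v)) *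
    ((c * Real.exp (-(p.2 ^ 2 / 6)) * Real.exp (-((v - t - p.2) ^ 2 / 2)) : ℝ) : ℂ) with hf
  have hnf : ∀ v p, ‖f v p‖ = ‖F v‖ * ‖k p.1‖ *
      (c * Real.exp (-(p.2 ^ 2 / 6)) * Real.exp (-((v - t - p.2) ^ 2 / 2))) := by
    intro v p
    rw [hf]
    simp only
    have e1 : ‖exp (I * (v - t) * x)‖ = 1 := by
      rw [show I * ((v : ℂ) - t) * x = ((((v - t) * x : ℝ)) : ℂ) * I by push_cast; ring,
        Complex.norm_exp_ofReal_mul_I]
    have e2 : ‖exp (I * p.1 * v)‖ = 1 := by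
      rw [show I * (p.1 : ℂ) * v = (((p.1 * v : ℝ)) : ℂ) * I by push_cast; ring,
        Complex.norm_exp_ofReal_mul_I]
    rw [norm_mul, norm_mul, norm_mul, norm_mul, e1, e2, Complex.norm_real,
      Real.norm_of_nonneg (by positivity)]
    ring
  have hint : Integrable (Function.uncurry f) ((volume : Measure ℝ).prod (volume : Measure (ℝ × ℝ))) := by
    have h1 : Integrable (fun v : ℝ => K * (Real.exp (1 * |v|) * Real.exp (-((v - t) ^ 2 * (1 / 16))))) :=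
      (m3_gauss_exp_int (by norm_num) t).const_mul _
    have h2 : Integrable (fun p : ℝ × ℝ => ‖k p.1‖ * Real.exp (-(p.2 ^ 2 * (1 / 12)))) :=
      hki.norm.mul_prod (m3_gauss_int (by norm_num))
    have h3 := h1.mul_prod h2
    refine h3.mono' ?_ (Eventually.of_forall fun z => ?_)
    · have : Continuous (Function.uncurry f) := by
        rw [hf]
        simp only [Function.uncurry_def]
        fun_prop
      exact this.aestronglyMeasurable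
    · have h4 : ‖Function.uncurry f z‖ = ‖f z.1 z.2‖ := rfl
      rw [h4, hnf]
      have h5 := hK z.1
      have h6 : c * Real.exp (-(z.2.2 ^ 2 / 6)) * Real.exp (-((z.1 - t - z.2.2) ^ 2 / 2)) ≤
          Real.exp (-((z.1 - t) ^ 2 * (1 / 16))) * Real.exp (-(z.2.2 ^ 2 * (1 / 12))) := by
        rw [mul_assoc, ← Real.exp_add, ← Real.exp_add]
        calc _ ≤ 1 * Real.exp (-(z.2.2 ^ 2 / 6) + -((z.1 - t - z.2.2) ^ 2 / 2)) :=
              mul_le_mul_of_nonneg_right hc1 (Real.exp_pos _).le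
          _ ≤ _ := by
            rw [one_mul]
            apply Real.exp_le_exp.mpr
            nlinarith [sq_nonneg (7 * z.2.2 - 6 * (z.1 - t)), sq_nonneg (z.1 - t)]
      calc ‖F z.1‖ * ‖k z.2.1‖ * (c * Real.exp (-(z.2.2 ^ 2 / 6)) *
            Real.exp (-((z.1 - t - z.2.2) ^ 2 / 2)))
          ≤ (K * Real.exp |z.1|) * ‖k z.2.1‖ * (Real.exp (-((z.1 - t) ^ 2 * (1 / 16))) *
            Real.exp (-(z.2.2 ^ 2 * (1 / 12)))) := by
              apply mul_le_mul _ h6 (by positivity)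
              · have := (norm_nonneg _).trans h5
                positivity
              · exact mul_le_mul_of_nonneg_right h5 (norm_nonneg _)
        _ = _ := by rw [one_mul]; ring
  obtain ⟨hi, hswap⟩ := m3_swap hint
  -- the inner integral over `v`
  have hinner : ∀ p : ℝ × ℝ, ∫ v, f v p = ((c * Real.exp (-(p.2 ^ 2 / 6)) : ℝ) : ℂ) * k p.1 *
      exp (I * (p.2 * (x + p.1) + p.1 * t)) * Gt F (x + p.1) (t + p.2) := by
    intro p
    unfold Gt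
    rw [← integral_const_mul]
    congr 1
    funext v
    rw [hf]
    unfold gI
    simp only
    have e1 : exp (I * ((v : ℂ) - t) * x) * exp (I * p.1 * v) =
        exp (I * (p.2 * (x + p.1) + p.1 * t)) *
          exp (I * ((v : ℂ) - ((t + p.2 : ℝ) : ℂ)) * ((x + p.1 : ℝ) : ℂ)) := by
      rw [← Complex.exp_add, ← Complex.exp_add]
      congr 1
      push_cast
      ring
    have e2 : (v - t - p.2) ^ 2 = (v - (t + p.2)) ^ 2 := by ring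
    rw [e2]
    push_cast at e1 ⊢
    linear_combination (F v * k p.1 * ((c : ℂ) * cexp (-((p.2 : ℂ) ^ 2 / 6)) *
      cexp (-(((v : ℂ) - (t + p.2)) ^ 2 / 2)))) * e1
  have hninner : ∀ p : ℝ × ℝ, ‖∫ v, f v p‖ = c * (‖k p.1‖ * Real.exp (-(p.2 ^ 2 / 6)) *
      ‖Gt F (x + p.1) (t + p.2)‖) := by
    intro p
    rw [hinner p]
    have e2 : ‖exp (I * (p.2 * (x + p.1) + p.1 * t))‖ = 1 := by
      rw [show I * ((p.2 : ℂ) * (x + p.1) + p.1 * t) =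
        ((((p.2 * (x + p.1) + p.1 * t : ℝ))) : ℂ) * I by push_cast; ring,
        Complex.norm_exp_ofReal_mul_I]
    rw [norm_mul, norm_mul, norm_mul, e2, Complex.norm_real, Real.norm_of_nonneg (by positivity)]
    ring
  have hfin : Integrable (fun p : ℝ × ℝ => ‖k p.1‖ * Real.exp (-(p.2 ^ 2 / 6)) *
      ‖Gt F (x + p.1) (t + p.2)‖) := by
    have := hi.norm.const_mul (c⁻¹)
    refine this.congr (Eventually.of_forall fun p => ?_)
    simp only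
    rw [hninner p, inv_mul_cancel_left₀ hc0.ne']
  refine ⟨hfin, ?_⟩
  have hJ : m3J F m x t = ∫ v, ∫ p, f v p := by
    unfold m3J
    congr 1
    funext v
    have e3 : ∫ p, f v p = F v * exp (I * (v - t) * x) * ((∫ y : ℝ, k y * exp (I * y * v)) *
        ∫ r : ℝ, ((c * Real.exp (-(r ^ 2 / 6)) * Real.exp (-((v - t - r) ^ 2 / 2)) : ℝ) : ℂ)) := by
      rw [← integral_prod_mul, ← integral_const_mul]
      congr 1
      funext p
      rw [hf]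
      ring
    rw [e3, ← hk v, ← m3_phi_conv (v - t)]
    have e4 : ((Real.exp (-((v - t) ^ 2 / 4)) : ℝ) : ℂ) = (m3phi (v - t) : ℂ) * (m3phi (v - t) : ℂ) := by
      unfold m3phi
      rw [← Complex.ofReal_mul, ← Real.exp_add]
      congr 2
      ring
    rw [e4]
    ring
  rw [hJ, hswap]
  refine (norm_integral_le_integral_norm _).trans ?_
  simp_rw [hninner]
  rw [integral_const_mul]
  have h0 : 0 ≤ ∫ p : ℝ × ℝ, ‖k p.1‖ * Real.exp (-(p.2 ^ 2 / 6)) * ‖Gt F (x + p.1) (t + p.2)‖ :=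
    integral_nonneg fun _ => by positivity
  calc _ ≤ 1 * _ := mul_le_mul_of_nonneg_right hc1 h0
    _ = _ := one_mul _


/-! ### the Gaussian window -/

lemma m3_pow_le (n : ℕ) (v : ℝ) : (1 + |v|) ^ n ≤ n.factorial * Real.exp (1 + |v|) := by
  have h := Real.pow_div_factorial_le_exp (1 + |v|) (by positivity) n
  rw [div_le_iff₀ (by positivity)] at h
  linarith

lemma m3_phi_deriv (v : ℝ) : HasDerivAt m3phi (-(v / 4) * m3phi v) v := by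
  unfold m3phi
  have h1 : HasDerivAt (fun x : ℝ => -(x ^ 2 / 8)) (-(2 * v / 8)) v := by
    have := ((hasDerivAt_pow 2 v).div_const 8).fun_neg
    simpa using this
  have := h1.exp
  convert this using 1
  ring

lemma m3_deriv_phi : deriv m3phi = fun v => -(v / 4) * m3phi v :=
  funext fun v => (m3_phi_deriv v).deriv

lemma m3_phi_deriv2 (v : ℝ) : iteratedDeriv 2 m3phi v = (v ^ 2 / 16 - 1 / 4) * m3phi v := by
  rw [iteratedDeriv_succ, iteratedDeriv_one, m3_deriv_phi]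
  have h1 : HasDerivAt (fun x : ℝ => -(x / 4)) (-(1 / 4)) v := by
    have := ((hasDerivAt_id' v).div_const 4).fun_neg
    simpa using this
  have h2 := h1.mul (m3_phi_deriv v)
  have h3 : deriv (fun v => -(v / 4) * m3phi v) v = -(1 / 4) * m3phi v + -(v / 4) * (-(v / 4) * m3phi v) :=
    h2.deriv
  rw [h3]
  ring

lemma m3_phi_contDiff : ContDiff ℝ 2 m3phi := by
  unfold m3phi
  fun_prop

lemma m3_phi_pos (v : ℝ) : 0 < m3phi v := Real.exp_pos _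

lemma m3_phi_int (A : ℕ) : Integrable (fun v : ℝ => (1 + |v|) ^ A *
    (|m3phi v| + |deriv m3phi v| + |iteratedDeriv 2 m3phi v|)) := by
  have h1 : Integrable (fun v : ℝ => (2 * (A + 2).factorial * Real.exp 1) * (Real.exp (1 * |v|) *
      Real.exp (-((v - 0) ^ 2 * (1 / 8))))) := (m3_gauss_exp_int (by norm_num) 0).const_mul _
  refine h1.mono' ?_ (Eventually.of_forall fun v => ?_)
  · have hc0 := m3_phi_contDiff.continuous
    have hc1 : Continuous (deriv m3phi) := m3_phi_contDiff.continuous_deriv (by norm_num)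
    have hc2 : Continuous (iteratedDeriv 2 m3phi) := m3_phi_contDiff.continuous_iteratedDeriv 2 le_rfl
    exact (by fun_prop : Continuous (fun v : ℝ => (1 + |v|) ^ A *
      (|m3phi v| + |deriv m3phi v| + |iteratedDeriv 2 m3phi v|))).aestronglyMeasurable
  · rw [Real.norm_of_nonneg (by positivity), m3_phi_deriv2, m3_deriv_phi]
    simp only
    have hp := m3_phi_pos v
    have h2 : |m3phi v| + |-(v / 4) * m3phi v| + |(v ^ 2 / 16 - 1 / 4) * m3phi v| ≤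
        2 * (1 + |v|) ^ 2 * m3phi v := by
      rw [abs_mul, abs_mul, abs_of_pos hp, abs_neg, abs_div]
      have h3 : |v ^ 2 / 16 - 1 / 4| ≤ |v| ^ 2 / 16 + 1 / 4 := by
        rw [sq_abs, abs_le]
        constructor <;> nlinarith [sq_nonneg v]
      have h4 : |(4:ℝ)| = 4 := by norm_num
      rw [h4]
      have h5 := abs_nonneg v
      have h6 : 1 + |v| / 4 + |v ^ 2 / 16 - 1 / 4| ≤ 2 * (1 + |v|) ^ 2 := by nlinarith
      calc _ = (1 + |v| / 4 + |v ^ 2 / 16 - 1 / 4|) * m3phi v := by ring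
        _ ≤ _ := mul_le_mul_of_nonneg_right h6 hp.le
    have h7 := m3_pow_le (A + 2) v
    calc (1 + |v|) ^ A * (|m3phi v| + |-(v / 4) * m3phi v| + |(v ^ 2 / 16 - 1 / 4) * m3phi v|)
        ≤ (1 + |v|) ^ A * (2 * (1 + |v|) ^ 2 * m3phi v) :=
          mul_le_mul_of_nonneg_left h2 (by positivity)
      _ = 2 * (1 + |v|) ^ (A + 2) * m3phi v := by ring
      _ ≤ 2 * ((A + 2).factorial * Real.exp (1 + |v|)) * m3phi v := by
          gcongr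
      _ = _ := by
          unfold m3phi
          rw [Real.exp_add]
          have : -(v ^ 2 / 8) = -((v - 0) ^ 2 * (1 / 8)) := by ring
          rw [this, one_mul]
          ring


/-! ### families, one variable -/

lemma m3_weight {k : ℝ → ℂ} (hki : Integrable k) (κ t : ℝ) :
    Integrable (fun p : ℝ × ℝ => ‖k p.1‖ * Real.exp (-(p.2 ^ 2 / 6)) *
      Real.exp (κ * |t + p.2|)) := by
  have h1 : Integrable (fun r : ℝ => Real.exp (-(r ^ 2 / 6)) * Real.exp (κ * |t + r|)) := by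
    have := (m3_gauss_exp_int (b := 1 / 6) (c := κ) (by norm_num) t).comp_add_left t
    refine this.congr (Eventually.of_forall fun r => ?_)
    simp only
    rw [mul_comm]
    congr 2
    ring
  have := hki.norm.mul_prod h1
  refine this.congr (Eventually.of_forall fun p => ?_)
  simp only
  ring

lemma m3_weight_le (k : ℝ → ℂ) {κ : ℝ} (hκ : 0 < κ) (t : ℝ) :
    ∫ p : ℝ × ℝ, ‖k p.1‖ * Real.exp (-(p.2 ^ 2 / 6)) * Real.exp (κ * |t + p.2|) ≤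
      (∫ y, ‖k y‖) * (Real.exp (κ * |t|) *
        ∫ r : ℝ, Real.exp (κ * |r|) * Real.exp (-((r - 0) ^ 2 * (1 / 6)))) := by
  have h1 : Integrable (fun r : ℝ => Real.exp (-(r ^ 2 / 6)) * Real.exp (κ * |t + r|)) := by
    have := (m3_gauss_exp_int (b := 1 / 6) (c := κ) (by norm_num) t).comp_add_left t
    refine this.congr (Eventually.of_forall fun r => ?_)
    simp only
    rw [mul_comm]
    congr 2
    ring
  have e1 : ∫ p : ℝ × ℝ, ‖k p.1‖ * Real.exp (-(p.2 ^ 2 / 6)) * Real.exp (κ * |t + p.2|) =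
      (∫ y, ‖k y‖) * ∫ r : ℝ, Real.exp (-(r ^ 2 / 6)) * Real.exp (κ * |t + r|) := by
    rw [← integral_prod_mul (fun y => ‖k y‖)
      (fun r : ℝ => Real.exp (-(r ^ 2 / 6)) * Real.exp (κ * |t + r|))]
    congr 1
    funext p
    ring
  rw [e1]
  apply mul_le_mul_of_nonneg_left _ (integral_nonneg fun _ => norm_nonneg _)
  rw [← integral_const_mul]
  apply integral_mono h1 ((m3_gauss_exp_int (by norm_num) 0).const_mul _)
  intro r
  simp only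
  have h2 : |t + r| ≤ |t| + |r| := abs_add_le _ _
  have h3 : Real.exp (κ * |t + r|) ≤ Real.exp (κ * |t|) * Real.exp (κ * |r|) := by
    rw [← Real.exp_add]
    apply Real.exp_le_exp.mpr
    nlinarith
  have e2 : Real.exp (-((r - 0) ^ 2 * (1 / 6))) = Real.exp (-(r ^ 2 / 6)) := by
    congr 1; ring
  rw [e2]
  calc _ ≤ Real.exp (-(r ^ 2 / 6)) * (Real.exp (κ * |t|) * Real.exp (κ * |r|)) :=
        mul_le_mul_of_nonneg_left h3 (Real.exp_pos _).le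
    _ = _ := by ring

theorem m3_family {κ : ℝ} {Q : Finset ℕ} {F G : ℕ → ℝ → ℂ} {S : ℝ} {m₁ m₂ k₁ k₂ : ℝ → ℂ}
    (hF : ∀ i ∈ Q, Continuous (F i) ∧ ∃ K : ℝ, ∀ v, ‖F i v‖ ≤ K * Real.exp |v|)
    (hG : ∀ i ∈ Q, Continuous (G i) ∧ ∃ K : ℝ, ∀ v, ‖G i v‖ ≤ K * Real.exp |v|)
    (hS : ∀ x x' t t' : ℝ, ∑ i ∈ Q, ‖Gt (F i) x t‖ * ‖Gt (G i) x' t'‖ ≤
      S * Real.exp (κ * (|t| + |t'|)))
    (hk₁ : Continuous k₁) (hk₂ : Continuous k₂) (hi₁ : Integrable k₁) (hi₂ : Integrable k₂)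
    {t₁ t₂ : ℝ} (h₁ : ∀ v : ℝ, m₁ v * (m3phi (v - t₁) : ℂ) = ∫ y : ℝ, k₁ y * exp (I * y * v))
    (h₂ : ∀ v : ℝ, m₂ v * (m3phi (v - t₂) : ℂ) = ∫ y : ℝ, k₂ y * exp (I * y * v)) (x x' : ℝ) :
    ∑ i ∈ Q, ‖m3J (F i) m₁ x t₁‖ * ‖m3J (G i) m₂ x' t₂‖ ≤
      S * ((∫ p : ℝ × ℝ, ‖k₁ p.1‖ * Real.exp (-(p.2 ^ 2 / 6)) * Real.exp (κ * |t₁ + p.2|)) *
        ∫ p : ℝ × ℝ, ‖k₂ p.1‖ * Real.exp (-(p.2 ^ 2 / 6)) * Real.exp (κ * |t₂ + p.2|)) := by
  set w₁ : ℝ × ℝ → ℝ := fun p => ‖k₁ p.1‖ * Real.exp (-(p.2 ^ 2 / 6)) with hw₁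
  set w₂ : ℝ × ℝ → ℝ := fun p => ‖k₂ p.1‖ * Real.exp (-(p.2 ^ 2 / 6)) with hw₂
  have hw₁0 : ∀ p, 0 ≤ w₁ p := fun p => by rw [hw₁]; positivity
  have hw₂0 : ∀ p, 0 ≤ w₂ p := fun p => by rw [hw₂]; positivity
  have hA : ∀ i ∈ Q, Integrable (fun p : ℝ × ℝ => w₁ p * ‖Gt (F i) (x + p.1) (t₁ + p.2)‖) ∧
      ‖m3J (F i) m₁ x t₁‖ ≤ ∫ p : ℝ × ℝ, w₁ p * ‖Gt (F i) (x + p.1) (t₁ + p.2)‖ := by
    intro i hi
    obtain ⟨hc, K, hK⟩ := hF i hi
    exact m3_J_le hc hK hk₁ hi₁ h₁ x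
  have hB : ∀ i ∈ Q, Integrable (fun p : ℝ × ℝ => w₂ p * ‖Gt (G i) (x' + p.1) (t₂ + p.2)‖) ∧
      ‖m3J (G i) m₂ x' t₂‖ ≤ ∫ p : ℝ × ℝ, w₂ p * ‖Gt (G i) (x' + p.1) (t₂ + p.2)‖ := by
    intro i hi
    obtain ⟨hc, K, hK⟩ := hG i hi
    exact m3_J_le hc hK hk₂ hi₂ h₂ x'
  have hprod : ∀ i ∈ Q, Integrable (fun z : (ℝ × ℝ) × (ℝ × ℝ) =>
      (w₁ z.1 * ‖Gt (F i) (x + z.1.1) (t₁ + z.1.2)‖) *
        (w₂ z.2 * ‖Gt (G i) (x' + z.2.1) (t₂ + z.2.2)‖)) := fun i hi =>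
    (hA i hi).1.mul_prod (hB i hi).1
  calc ∑ i ∈ Q, ‖m3J (F i) m₁ x t₁‖ * ‖m3J (G i) m₂ x' t₂‖
      ≤ ∑ i ∈ Q, (∫ p : ℝ × ℝ, w₁ p * ‖Gt (F i) (x + p.1) (t₁ + p.2)‖) *
          ∫ p : ℝ × ℝ, w₂ p * ‖Gt (G i) (x' + p.1) (t₂ + p.2)‖ := by
        refine Finset.sum_le_sum fun i hi => ?_
        exact mul_le_mul (hA i hi).2 (hB i hi).2 (norm_nonneg _)
          ((norm_nonneg _).trans (hA i hi).2)
    _ = ∑ i ∈ Q, ∫ z : (ℝ × ℝ) × (ℝ × ℝ), (w₁ z.1 * ‖Gt (F i) (x + z.1.1) (t₁ + z.1.2)‖) *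
        (w₂ z.2 * ‖Gt (G i) (x' + z.2.1) (t₂ + z.2.2)‖) := by
        refine Finset.sum_congr rfl fun i hi => ?_
        rw [← integral_prod_mul (fun p : ℝ × ℝ => w₁ p * ‖Gt (F i) (x + p.1) (t₁ + p.2)‖)
          (fun p : ℝ × ℝ => w₂ p * ‖Gt (G i) (x' + p.1) (t₂ + p.2)‖)]
        rfl
    _ = ∫ z : (ℝ × ℝ) × (ℝ × ℝ), ∑ i ∈ Q, (w₁ z.1 * ‖Gt (F i) (x + z.1.1) (t₁ + z.1.2)‖) *
        (w₂ z.2 * ‖Gt (G i) (x' + z.2.1) (t₂ + z.2.2)‖) := by
        rw [integral_finsetSum _ hprod]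
    _ ≤ ∫ z : (ℝ × ℝ) × (ℝ × ℝ), S * ((w₁ z.1 * Real.exp (κ * |t₁ + z.1.2|)) *
        (w₂ z.2 * Real.exp (κ * |t₂ + z.2.2|))) := by
        apply integral_mono (integrable_finsetSum _ hprod)
          (((m3_weight hi₁ κ t₁).mul_prod (m3_weight hi₂ κ t₂)).const_mul S)
        intro z
        simp only
        have h3 := hS (x + z.1.1) (x' + z.2.1) (t₁ + z.1.2) (t₂ + z.2.2)
        have h4 := mul_le_mul_of_nonneg_left h3 (mul_nonneg (hw₁0 z.1) (hw₂0 z.2))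
        calc ∑ i ∈ Q, (w₁ z.1 * ‖Gt (F i) (x + z.1.1) (t₁ + z.1.2)‖) *
              (w₂ z.2 * ‖Gt (G i) (x' + z.2.1) (t₂ + z.2.2)‖)
            = w₁ z.1 * w₂ z.2 * ∑ i ∈ Q, ‖Gt (F i) (x + z.1.1) (t₁ + z.1.2)‖ *
              ‖Gt (G i) (x' + z.2.1) (t₂ + z.2.2)‖ := by
              rw [Finset.mul_sum]
              exact Finset.sum_congr rfl fun i _ => by ring
          _ ≤ _ := h4
          _ = _ := by rw [mul_add, Real.exp_add]; ring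
    _ = _ := by
        rw [integral_const_mul, ← integral_prod_mul
          (fun p : ℝ × ℝ => w₁ p * Real.exp (κ * |t₁ + p.2|))
          (fun p : ℝ × ℝ => w₂ p * Real.exp (κ * |t₂ + p.2|))]
        rfl


/-! ### two variables -/

lemma m3_Jint {F m : ℝ → ℂ} (hF : Continuous F) {K : ℝ} (hK : ∀ v, ‖F v‖ ≤ K * Real.exp |v|)
    (hm : Continuous m) {C : ℝ} {A : ℕ} (hmb : ∀ v, ‖m v‖ ≤ C * (1 + |v|) ^ A) (t : ℝ) :
    Integrable (fun v : ℝ => ‖F v‖ * ‖m v‖ * Real.exp (-((v - t) ^ 2 / 4))) := by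
  have h1 : Integrable (fun v : ℝ => (K * (C * (A.factorial * Real.exp 1))) * (Real.exp (2 * |v|) *
      Real.exp (-((v - t) ^ 2 * (1 / 4))))) := (m3_gauss_exp_int (by norm_num) t).const_mul _
  refine h1.mono' (by fun_prop) (Eventually.of_forall fun v => ?_)
  rw [Real.norm_of_nonneg (by positivity)]
  have hK0 : 0 ≤ K := by
    have := (norm_nonneg _).trans (hK 0)
    simpa using this
  have hC0 : 0 ≤ C := by
    have := (norm_nonneg _).trans (hmb 0)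
    simpa using this
  have h2 := m3_pow_le A v
  calc ‖F v‖ * ‖m v‖ * Real.exp (-((v - t) ^ 2 / 4))
      ≤ (K * Real.exp |v|) * (C * (A.factorial * Real.exp (1 + |v|))) *
        Real.exp (-((v - t) ^ 2 / 4)) := by
        apply mul_le_mul_of_nonneg_right _ (Real.exp_pos _).le
        apply mul_le_mul (hK v) _ (norm_nonneg _) (by positivity)
        exact (hmb v).trans (mul_le_mul_of_nonneg_left h2 hC0)
    _ = _ := by
        have e1 : Real.exp (2 * |v|) = Real.exp |v| * Real.exp |v| := by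
          rw [← Real.exp_add]; congr 1; ring
        have e2 : -((v - t) ^ 2 / 4) = -((v - t) ^ 2 * (1 / 4)) := by ring
        rw [e1, e2, Real.exp_add]
        ring

/-- the Gaussian weight `√(2/π) e^{-2r²}` -/
noncomputable def m3g (r : ℝ) : ℝ := Real.sqrt (2 / Real.pi) * Real.exp (-(r ^ 2 * 2))

lemma m3g_pos (r : ℝ) : 0 < m3g r := by
  have := Real.pi_pos
  unfold m3g; positivity

lemma m3g_int : Integrable m3g := (m3_gauss_int (by norm_num)).const_mul _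

lemma m3g_integral : ∫ r, m3g r = 1 := by
  have h := m3_phi_fourier 0
  have h1 : m3phi 0 = 1 := by unfold m3phi; simp
  rw [h1] at h
  simp only [Complex.ofReal_zero, mul_zero, Complex.exp_zero, mul_one] at h
  have h2 : ∫ r : ℝ, ((Real.sqrt (2 / Real.pi) * Real.exp (-(r ^ 2 * 2)) : ℝ) : ℂ) =
      ((∫ r, m3g r : ℝ) : ℂ) := integral_complex_ofReal
  rw [h2] at h
  exact_mod_cast h.symm

theorem m3_LS_le {F G m₁ m₂ m₃ k₃ : ℝ → ℂ} (hF : Continuous F) {K : ℝ}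
    (hKF : ∀ v, ‖F v‖ ≤ K * Real.exp |v|) (hG : Continuous G) {K' : ℝ}
    (hKG : ∀ v, ‖G v‖ ≤ K' * Real.exp |v|) (hm₁ : Continuous m₁) (hm₂ : Continuous m₂)
    {C : ℝ} {A : ℕ} (hb₁ : ∀ v, ‖m₁ v‖ ≤ C * (1 + |v|) ^ A) (hb₂ : ∀ v, ‖m₂ v‖ ≤ C * (1 + |v|) ^ A)
    (hk₃ : Continuous k₃) (hi₃ : Integrable k₃) {t₁ t₂ : ℝ}
    (h₃ : ∀ v : ℝ, m₃ v * (m3phi (v - (t₁ + t₂)) : ℂ) = ∫ y : ℝ, k₃ y * exp (I * y * v))
    (x₁ x₂ : ℝ) :
    Integrable (fun p : ℝ × ℝ => (‖k₃ p.1‖ * m3g p.2) * (‖m3J F m₁ (x₁ + p.1 + p.2) t₁‖ *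
      ‖m3J G m₂ (x₂ + p.1 - p.2) t₂‖)) ∧
    ‖LS3 F G m₁ m₂ m₃ x₁ x₂ t₁ t₂‖ ≤ ∫ p : ℝ × ℝ, (‖k₃ p.1‖ * m3g p.2) *
      (‖m3J F m₁ (x₁ + p.1 + p.2) t₁‖ * ‖m3J G m₂ (x₂ + p.1 - p.2) t₂‖) := by
  set f : ℝ × ℝ → ℝ × ℝ → ℂ := fun v p =>
    (F v.1 * m₁ v.1 * exp (I * (v.1 - t₁) * x₁) * (Real.exp (-((v.1 - t₁) ^ 2 / 4)) : ℂ)) *
    (G v.2 * m₂ v.2 * exp (I * (v.2 - t₂) * x₂) * (Real.exp (-((v.2 - t₂) ^ 2 / 4)) : ℂ)) *
    ((k₃ p.1 * exp (I * p.1 * ((v.1 + v.2 : ℝ) : ℂ))) *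
      ((m3g p.2 : ℂ) * exp (I * p.2 * ((v.1 - t₁ - (v.2 - t₂) : ℝ) : ℂ)))) with hf
  have hn1 : ∀ a : ℝ, ‖exp (I * (a : ℂ))‖ = 1 := by
    intro a
    rw [mul_comm, Complex.norm_exp_ofReal_mul_I]
  have hnf : ∀ v p, ‖f v p‖ = ((‖F v.1‖ * ‖m₁ v.1‖ * Real.exp (-((v.1 - t₁) ^ 2 / 4))) *
      (‖G v.2‖ * ‖m₂ v.2‖ * Real.exp (-((v.2 - t₂) ^ 2 / 4)))) * (‖k₃ p.1‖ * m3g p.2) := by
    intro v p
    rw [hf]
    simp only
    have e1 : ‖exp (I * (v.1 - t₁) * x₁)‖ = 1 := by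
      rw [← hn1 ((v.1 - t₁) * x₁)]; push_cast; ring_nf
    have e2 : ‖exp (I * (v.2 - t₂) * x₂)‖ = 1 := by
      rw [← hn1 ((v.2 - t₂) * x₂)]; push_cast; ring_nf
    have e3 : ‖exp (I * p.1 * ((v.1 + v.2 : ℝ) : ℂ))‖ = 1 := by
      rw [← hn1 (p.1 * (v.1 + v.2))]; push_cast; ring_nf
    have e4 : ‖exp (I * p.2 * ((v.1 - t₁ - (v.2 - t₂) : ℝ) : ℂ))‖ = 1 := by
      rw [← hn1 (p.2 * (v.1 - t₁ - (v.2 - t₂)))]; push_cast; ring_nf
    simp only [norm_mul, e1, e2, e3, e4, Complex.norm_real, mul_one]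
    rw [Real.norm_of_nonneg (m3g_pos _).le, Real.norm_of_nonneg (Real.exp_pos _).le,
      Real.norm_of_nonneg (Real.exp_pos _).le]
  have hint : Integrable (Function.uncurry f)
      ((volume : Measure (ℝ × ℝ)).prod (volume : Measure (ℝ × ℝ))) := by
    have h1 := (m3_Jint hF hKF hm₁ hb₁ t₁).mul_prod (m3_Jint hG hKG hm₂ hb₂ t₂)
    have h2 := hi₃.norm.mul_prod m3g_int
    have h3 := h1.mul_prod h2
    refine h3.mono' ?_ (Eventually.of_forall fun z => le_of_eq ?_)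
    · have : Continuous (Function.uncurry f) := by
        rw [hf]
        unfold m3g
        simp only [Function.uncurry_def]
        fun_prop
      exact this.aestronglyMeasurable
    · have h4 : ‖Function.uncurry f z‖ = ‖f z.1 z.2‖ := rfl
      rw [h4, hnf]
  obtain ⟨hi, hswap⟩ := m3_swap hint
  have hinner : ∀ p : ℝ × ℝ, ∫ v, f v p = k₃ p.1 * (m3g p.2 : ℂ) *
      exp (I * ((p.1 * (t₁ + t₂) : ℝ) : ℂ)) *
      (m3J F m₁ (x₁ + p.1 + p.2) t₁ * m3J G m₂ (x₂ + p.1 - p.2) t₂) := by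
    intro p
    unfold m3J
    rw [← integral_prod_mul, ← integral_const_mul]
    congr 1
    funext v
    rw [hf]
    simp only
    have e1 : exp (I * ((v.1 : ℂ) - t₁) * x₁) * exp (I * ((v.2 : ℂ) - t₂) * x₂) *
        exp (I * p.1 * ((v.1 + v.2 : ℝ) : ℂ)) *
        exp (I * p.2 * ((v.1 - t₁ - (v.2 - t₂) : ℝ) : ℂ)) =
        exp (I * ((p.1 * (t₁ + t₂) : ℝ) : ℂ)) *
          (exp (I * ((v.1 : ℂ) - t₁) * ((x₁ + p.1 + p.2 : ℝ) : ℂ)) *
            exp (I * ((v.2 : ℂ) - t₂) * ((x₂ + p.1 - p.2 : ℝ) : ℂ))) := by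
      rw [← Complex.exp_add, ← Complex.exp_add, ← Complex.exp_add, ← Complex.exp_add,
        ← Complex.exp_add]
      congr 1
      push_cast
      ring
    linear_combination (F v.1 * m₁ v.1 * (Real.exp (-((v.1 - t₁) ^ 2 / 4)) : ℂ) *
      (G v.2 * m₂ v.2 * (Real.exp (-((v.2 - t₂) ^ 2 / 4)) : ℂ)) * k₃ p.1 * (m3g p.2 : ℂ)) * e1
  have hninner : ∀ p : ℝ × ℝ, ‖∫ v, f v p‖ = (‖k₃ p.1‖ * m3g p.2) *
      (‖m3J F m₁ (x₁ + p.1 + p.2) t₁‖ * ‖m3J G m₂ (x₂ + p.1 - p.2) t₂‖) := by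
    intro p
    rw [hinner p, norm_mul, norm_mul, norm_mul, norm_mul, hn1, Complex.norm_real,
      Real.norm_of_nonneg (m3g_pos _).le, mul_one]
  refine ⟨hi.norm.congr (Eventually.of_forall hninner), ?_⟩
  have hL : LS3 F G m₁ m₂ m₃ x₁ x₂ t₁ t₂ = ∫ v, ∫ p, f v p := by
    unfold LS3
    congr 1
    funext v
    have e3 : ∫ p, f v p =
        (F v.1 * m₁ v.1 * exp (I * (v.1 - t₁) * x₁) * (Real.exp (-((v.1 - t₁) ^ 2 / 4)) : ℂ)) *
        (G v.2 * m₂ v.2 * exp (I * (v.2 - t₂) * x₂) * (Real.exp (-((v.2 - t₂) ^ 2 / 4)) : ℂ)) *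
        ((∫ y : ℝ, k₃ y * exp (I * y * ((v.1 + v.2 : ℝ) : ℂ))) *
          ∫ r : ℝ, ((Real.sqrt (2 / Real.pi) * Real.exp (-(r ^ 2 * 2)) : ℝ) : ℂ) *
            exp (I * r * ((v.1 - t₁ - (v.2 - t₂) : ℝ) : ℂ))) := by
      rw [← integral_prod_mul, ← integral_const_mul]
      rfl
    rw [e3, ← h₃ (v.1 + v.2), ← m3_phi_fourier]
    unfold gI m3phi
    have e4 : ((Real.exp (-((v.1 - t₁) ^ 2 / 2)) : ℝ) : ℂ) * ((Real.exp (-((v.2 - t₂) ^ 2 / 2)) : ℝ) : ℂ) =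
        ((Real.exp (-((v.1 - t₁) ^ 2 / 4)) : ℝ) : ℂ) * ((Real.exp (-((v.2 - t₂) ^ 2 / 4)) : ℝ) : ℂ) *
        (((Real.exp (-((v.1 + v.2 - (t₁ + t₂)) ^ 2 / 8)) : ℝ) : ℂ) *
          ((Real.exp (-((v.1 - t₁ - (v.2 - t₂)) ^ 2 / 8)) : ℝ) : ℂ)) := by
      rw [← Complex.ofReal_mul, ← Complex.ofReal_mul, ← Complex.ofReal_mul, ← Complex.ofReal_mul,
        ← Real.exp_add, ← Real.exp_add, ← Real.exp_add, ← Real.exp_add]
      congr 2
      ring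
    linear_combination (F v.1 * exp (I * (v.1 - t₁) * x₁) * (G v.2 * exp (I * (v.2 - t₂) * x₂)) *
      (m₁ v.1 * m₂ v.2 * m₃ (v.1 + v.2))) * e4
  rw [hL, hswap]
  refine (norm_integral_le_integral_norm _).trans (le_of_eq ?_)
  simp_rw [hninner]


/-! ### the main lemma -/

lemma m3_pow_exp {κ : ℝ} (hκ : 0 < κ) (n : ℕ) (t : ℝ) :
    (1 + |t|) ^ n ≤ (n.factorial * Real.exp κ / κ ^ n) * Real.exp (κ * |t|) := by
  have h := Real.pow_div_factorial_le_exp (κ * (1 + |t|)) (by positivity) n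
  rw [div_le_iff₀ (by positivity), mul_pow] at h
  rw [div_mul_eq_mul_div, le_div_iff₀ (by positivity)]
  calc (1 + |t|) ^ n * κ ^ n = κ ^ n * (1 + |t|) ^ n := by ring
    _ ≤ _ := h
    _ = _ := by rw [mul_add, Real.exp_add, mul_one]; ring

lemma m3_k_int {k : ℝ → ℂ} (hk : Continuous k) {H : ℝ} (hb : ∀ y, ‖k y‖ ≤ H / (1 + y ^ 2)) :
    Integrable k ∧ ∫ y, ‖k y‖ ≤ H * Real.pi := by
  have h1 : Integrable (fun y : ℝ => H * (1 + y ^ 2)⁻¹) := integrable_inv_one_add_sq.const_mul _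
  have h2 : Integrable k := h1.mono' hk.aestronglyMeasurable
    (Eventually.of_forall fun y => by rw [← div_eq_mul_inv]; exact hb y)
  refine ⟨h2, ?_⟩
  calc ∫ y, ‖k y‖ ≤ ∫ y : ℝ, H * (1 + y ^ 2)⁻¹ := by
        apply integral_mono h2.norm h1
        intro y
        simp only
        rw [← div_eq_mul_inv]; exact hb y
    _ = H * Real.pi := by rw [integral_const_mul, integral_univ_inv_one_add_sq]

theorem M3 (κ : ℝ) (hκ : 0 < κ) (C : ℝ) (A : ℕ) : ∃ C' : ℝ, 0 < C' ∧ ∀ (m₁ m₂ m₃ : ℝ → ℂ),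
    PolyC2 C A m₁ → PolyC2 C A m₂ → PolyC2 C A m₃ → ∀ (Q : Finset ℕ) (F G : ℕ → ℝ → ℂ) (S : ℝ),
    (∀ i ∈ Q, Continuous (F i) ∧ ∃ K : ℝ, ∀ v, ‖F i v‖ ≤ K * Real.exp |v|) →
    (∀ i ∈ Q, Continuous (G i) ∧ ∃ K : ℝ, ∀ v, ‖G i v‖ ≤ K * Real.exp |v|) →
    (∀ x x' t t' : ℝ, ∑ i ∈ Q, ‖Gt (F i) x t‖ * ‖Gt (G i) x' t'‖ ≤
      S * Real.exp (κ * (|t| + |t'|))) →
    ∀ x₁ x₂ t₁ t₂ : ℝ, ∑ i ∈ Q, ‖LS3 (F i) (G i) m₁ m₂ m₃ x₁ x₂ t₁ t₂‖ ≤
      C' * S * Real.exp (2 * κ * (|t₁| + |t₂|)) := by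
  obtain ⟨C1, hC1, hker⟩ := ker_C2 C A m3phi m3_phi_contDiff (m3_phi_int A)
  have hpi := Real.pi_pos
  set E : ℝ := ∫ r : ℝ, Real.exp (κ * |r|) * Real.exp (-((r - 0) ^ 2 * (1 / 6))) with hE
  have hE0 : 0 ≤ E := integral_nonneg fun _ => by positivity
  set D : ℝ := ((2 * A).factorial * Real.exp κ / κ ^ (2 * A)) with hD
  have hD0 : 0 < D := by positivity
  refine ⟨(C1 * Real.pi) ^ 3 * E ^ 2 * D ^ 2 + 1, by positivity, ?_⟩
  intro m₁ m₂ m₃ h1 h2 h3 Q F G S hF hG hS x₁ x₂ t₁ t₂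
  have hS0 : 0 ≤ S := by
    have := (Finset.sum_nonneg fun i _ => by positivity :
      0 ≤ ∑ i ∈ Q, ‖Gt (F i) 0 0‖ * ‖Gt (G i) 0 0‖).trans (hS 0 0 0 0)
    simpa using this
  obtain ⟨k₁, hk₁c, hk₁b, hk₁⟩ := hker m₁ h1 t₁
  obtain ⟨k₂, hk₂c, hk₂b, hk₂⟩ := hker m₂ h2 t₂
  obtain ⟨k₃, hk₃c, hk₃b, hk₃⟩ := hker m₃ h3 (t₁ + t₂)
  obtain ⟨i₁, n₁⟩ := m3_k_int hk₁c hk₁b
  obtain ⟨i₂, n₂⟩ := m3_k_int hk₂c hk₂b
  obtain ⟨i₃, n₃⟩ := m3_k_int hk₃c hk₃b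
  set W₁ : ℝ := ∫ p : ℝ × ℝ, ‖k₁ p.1‖ * Real.exp (-(p.2 ^ 2 / 6)) * Real.exp (κ * |t₁ + p.2|) with hW₁
  set W₂ : ℝ := ∫ p : ℝ × ℝ, ‖k₂ p.1‖ * Real.exp (-(p.2 ^ 2 / 6)) * Real.exp (κ * |t₂ + p.2|) with hW₂
  have hW₁0 : 0 ≤ W₁ := integral_nonneg fun _ => by positivity
  have hW₂0 : 0 ≤ W₂ := integral_nonneg fun _ => by positivity
  have hfam := m3_family hF hG hS hk₁c hk₂c i₁ i₂ hk₁ hk₂
  have hLS : ∀ i ∈ Q, Integrable (fun p : ℝ × ℝ => (‖k₃ p.1‖ * m3g p.2) *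
      (‖m3J (F i) m₁ (x₁ + p.1 + p.2) t₁‖ * ‖m3J (G i) m₂ (x₂ + p.1 - p.2) t₂‖)) ∧
      ‖LS3 (F i) (G i) m₁ m₂ m₃ x₁ x₂ t₁ t₂‖ ≤ ∫ p : ℝ × ℝ, (‖k₃ p.1‖ * m3g p.2) *
        (‖m3J (F i) m₁ (x₁ + p.1 + p.2) t₁‖ * ‖m3J (G i) m₂ (x₂ + p.1 - p.2) t₂‖) := fun i hi => by
    obtain ⟨hc, K, hK⟩ := hF i hi
    obtain ⟨hc', K', hK'⟩ := hG i hi
    exact m3_LS_le hc hK hc' hK' h1.1.continuous h2.1.continuous (fun v => (h1.2 v).1)
      (fun v => (h2.2 v).1) hk₃c i₃ hk₃ x₁ x₂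
  have step1 : ∑ i ∈ Q, ‖LS3 (F i) (G i) m₁ m₂ m₃ x₁ x₂ t₁ t₂‖ ≤
      (∫ y, ‖k₃ y‖) * (S * (W₁ * W₂)) := by
    calc ∑ i ∈ Q, ‖LS3 (F i) (G i) m₁ m₂ m₃ x₁ x₂ t₁ t₂‖
        ≤ ∑ i ∈ Q, ∫ p : ℝ × ℝ, (‖k₃ p.1‖ * m3g p.2) *
          (‖m3J (F i) m₁ (x₁ + p.1 + p.2) t₁‖ * ‖m3J (G i) m₂ (x₂ + p.1 - p.2) t₂‖) :=
          Finset.sum_le_sum fun i hi => (hLS i hi).2
      _ = ∫ p : ℝ × ℝ, ∑ i ∈ Q, (‖k₃ p.1‖ * m3g p.2) *
          (‖m3J (F i) m₁ (x₁ + p.1 + p.2) t₁‖ * ‖m3J (G i) m₂ (x₂ + p.1 - p.2) t₂‖) := by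
          rw [integral_finsetSum _ fun i hi => (hLS i hi).1]
      _ ≤ ∫ p : ℝ × ℝ, (‖k₃ p.1‖ * m3g p.2) * (S * (W₁ * W₂)) := by
          apply integral_mono (integrable_finsetSum _ fun i hi => (hLS i hi).1)
            ((i₃.norm.mul_prod m3g_int).mul_const _)
          intro p
          simp only
          rw [← Finset.mul_sum]
          exact mul_le_mul_of_nonneg_left (hfam _ _)
            (mul_nonneg (norm_nonneg _) (m3g_pos _).le)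
      _ = _ := by
          rw [integral_mul_const]
          congr 1
          have := integral_prod_mul (fun y : ℝ => ‖k₃ y‖) m3g (μ := volume) (ν := volume)
          rw [m3g_integral, mul_one] at this
          exact this
  have hw₁ : W₁ ≤ (C1 * Real.pi * (1 + |t₁|) ^ A) * (Real.exp (κ * |t₁|) * E) := by
    refine (m3_weight_le k₁ hκ t₁).trans ?_
    apply mul_le_mul_of_nonneg_right _ (by positivity)
    calc _ ≤ _ := n₁
      _ = _ := by ring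
  have hw₂ : W₂ ≤ (C1 * Real.pi * (1 + |t₂|) ^ A) * (Real.exp (κ * |t₂|) * E) := by
    refine (m3_weight_le k₂ hκ t₂).trans ?_
    apply mul_le_mul_of_nonneg_right _ (by positivity)
    calc _ ≤ _ := n₂
      _ = _ := by ring
  have hn₃ : ∫ y, ‖k₃ y‖ ≤ C1 * Real.pi * ((1 + |t₁|) ^ A * (1 + |t₂|) ^ A) := by
    refine n₃.trans ?_
    have h4 : (1 + |t₁ + t₂|) ≤ (1 + |t₁|) * (1 + |t₂|) := by
      have := abs_add_le t₁ t₂
      nlinarith [abs_nonneg t₁, abs_nonneg t₂]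
    have h5 : (1 + |t₁ + t₂|) ^ A ≤ (1 + |t₁|) ^ A * (1 + |t₂|) ^ A := by
      rw [← mul_pow]
      exact pow_le_pow_left₀ (by positivity) h4 A
    calc C1 * (1 + |t₁ + t₂|) ^ A * Real.pi = C1 * Real.pi * (1 + |t₁ + t₂|) ^ A := by ring
      _ ≤ _ := mul_le_mul_of_nonneg_left h5 (by positivity)
  have hp₁ := m3_pow_exp hκ (2 * A) t₁
  have hp₂ := m3_pow_exp hκ (2 * A) t₂
  have hk3n : 0 ≤ ∫ y, ‖k₃ y‖ := integral_nonneg fun _ => norm_nonneg _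
  calc ∑ i ∈ Q, ‖LS3 (F i) (G i) m₁ m₂ m₃ x₁ x₂ t₁ t₂‖
      ≤ (∫ y, ‖k₃ y‖) * (S * (W₁ * W₂)) := step1
    _ ≤ (C1 * Real.pi * ((1 + |t₁|) ^ A * (1 + |t₂|) ^ A)) *
        (S * (((C1 * Real.pi * (1 + |t₁|) ^ A) * (Real.exp (κ * |t₁|) * E)) *
          ((C1 * Real.pi * (1 + |t₂|) ^ A) * (Real.exp (κ * |t₂|) * E)))) := by
        gcongr
    _ = (C1 * Real.pi) ^ 3 * E ^ 2 * S * (((1 + |t₁|) ^ (2 * A) * Real.exp (κ * |t₁|)) *
        ((1 + |t₂|) ^ (2 * A) * Real.exp (κ * |t₂|))) := by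
        rw [mul_comm 2 A, pow_mul, pow_mul]
        ring
    _ ≤ (C1 * Real.pi) ^ 3 * E ^ 2 * S * (((D * Real.exp (κ * |t₁|)) * Real.exp (κ * |t₁|)) *
        ((D * Real.exp (κ * |t₂|)) * Real.exp (κ * |t₂|))) := by
        gcongr
    _ = ((C1 * Real.pi) ^ 3 * E ^ 2 * D ^ 2) * (S * Real.exp (2 * κ * (|t₁| + |t₂|))) := by
        have e1 : Real.exp (2 * κ * (|t₁| + |t₂|)) = Real.exp (κ * |t₁|) * Real.exp (κ * |t₁|) *
            (Real.exp (κ * |t₂|) * Real.exp (κ * |t₂|)) := by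
          rw [← Real.exp_add, ← Real.exp_add, ← Real.exp_add]
          congr 1; ring
        rw [e1]; ring
    _ ≤ ((C1 * Real.pi) ^ 3 * E ^ 2 * D ^ 2 + 1) * (S * Real.exp (2 * κ * (|t₁| + |t₂|))) := by
        apply mul_le_mul_of_nonneg_right _ (by positivity)
        linarith
    _ = _ := by ring

end Pool.Agent.CZ
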