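import Mathlib
import Pool.Agent.CZ.IDefs
import Pool.Agent.CZ.InpAR

/-!
# Critical zeros (MP_553913_nt), part (I): the multipliers (module I_MUL)
-/

set_option autoImplicit false

open Complex Finset MeasureTheory

namespace Pool.Agent.CZ

open Pool.Agent.CZ.Inp

/-- first and second derivatives of a `C²` function of a real variable -/
theorem imul_hasDerivAt {m : ℝ → ℂ} (h : ContDiff ℝ 2 m) (v : ℝ) :
    HasDerivAt m (deriv m v) v ∧ HasDerivAt (deriv m) (iteratedDeriv 2 m v) v := by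
  have h1 : Differentiable ℝ m := h.differentiable (by norm_num)
  have h2 : ContDiff ℝ 1 (deriv m) := by
    have h3 : ContDiff ℝ (1 + 1) m := by
      have : (1 + 1 : WithTop ℕ∞) = 2 := by norm_num
      rw [this]; exact h
    exact (contDiff_succ_iff_deriv.1 h3).2.2
  have h4 : Differentiable ℝ (deriv m) := h2.differentiable (by norm_num)
  refine ⟨(h1 v).hasDerivAt, ?_⟩
  have h5 : iteratedDeriv 2 m = deriv (deriv m) := by
    rw [iteratedDeriv_succ, iteratedDeriv_one]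
  rw [h5]
  exact (h4 v).hasDerivAt

/-- criterion with explicit derivatives -/
theorem imul_of {m m' m'' : ℝ → ℂ} {C : ℝ} {A : ℕ} (h0 : ∀ v, HasDerivAt m (m' v) v)
    (h1 : ∀ v, HasDerivAt m' (m'' v) v) (hc : Continuous m'')
    (hb : ∀ v, ‖m v‖ ≤ C * (1 + |v|) ^ A ∧ ‖m' v‖ ≤ C * (1 + |v|) ^ A ∧
      ‖m'' v‖ ≤ C * (1 + |v|) ^ A) : PolyC2 C A m := by
  have e1 : deriv m = m' := funext fun v => (h0 v).deriv
  have e2 : deriv m' = m'' := funext fun v => (h1 v).deriv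
  have e3 : iteratedDeriv 2 m = m'' := by
    rw [iteratedDeriv_succ, iteratedDeriv_one, e1, e2]
  refine ⟨?_, fun v => ?_⟩
  · have h2 : (2 : WithTop ℕ∞) = 1 + 1 := by norm_num
    rw [h2, contDiff_succ_iff_deriv]
    refine ⟨fun v => (h0 v).differentiableAt, by simp, ?_⟩
    rw [e1]
    have h3 : (1 : WithTop ℕ∞) = 0 + 1 := by norm_num
    rw [h3, contDiff_succ_iff_deriv]
    refine ⟨fun v => (h1 v).differentiableAt, by simp, ?_⟩
    rw [e2]
    exact contDiff_zero.2 hc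
  · rw [e1, e3]
    exact hb v

theorem imul_mono {m : ℝ → ℂ} {C C' : ℝ} {A A' : ℕ} (h : PolyC2 C A m) (hC0 : 0 ≤ C) (hC : C ≤ C')
    (hA : A ≤ A') : PolyC2 C' A' m := by
  have key : ∀ v : ℝ, C * (1 + |v|) ^ A ≤ C' * (1 + |v|) ^ A' := by
    intro v
    have h1 : (1 : ℝ) ≤ 1 + |v| := by linarith [abs_nonneg v]
    have h2 : (1 + |v|) ^ A ≤ (1 + |v|) ^ A' := pow_le_pow_right₀ h1 hA
    exact mul_le_mul hC h2 (by positivity) (hC0.trans hC)
  exact ⟨h.1, fun v => ⟨(h.2 v).1.trans (key v), (h.2 v).2.1.trans (key v),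
    (h.2 v).2.2.trans (key v)⟩⟩

/-- products -/
theorem imul_mul {f g : ℝ → ℂ} {C D : ℝ} {A B : ℕ} (hf : PolyC2 C A f) (hg : PolyC2 D B g)
    (hC : 0 ≤ C) (hD : 0 ≤ D) : PolyC2 (4 * (C * D)) (A + B) (fun v => f v * g v) := by
  have hf' := imul_hasDerivAt hf.1
  have hg' := imul_hasDerivAt hg.1
  have c1 : Continuous (deriv f) := continuous_iff_continuousAt.2 fun v => (hf' v).2.continuousAt
  have c2 : Continuous (deriv g) := continuous_iff_continuousAt.2 fun v => (hg' v).2.continuousAt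
  have c3 : Continuous (iteratedDeriv 2 f) := hf.1.continuous_iteratedDeriv 2 (by norm_num)
  have c4 : Continuous (iteratedDeriv 2 g) := hg.1.continuous_iteratedDeriv 2 (by norm_num)
  refine imul_of (m' := fun v => deriv f v * g v + f v * deriv g v)
    (m'' := fun v => (iteratedDeriv 2 f v * g v + deriv f v * deriv g v) +
      (deriv f v * deriv g v + f v * iteratedDeriv 2 g v))
    (fun v => (hf' v).1.mul (hg' v).1)
    (fun v => ((hf' v).2.mul (hg' v).1).add ((hf' v).1.mul (hg' v).2)) ?_ ?_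
  · exact ((c3.mul hg.1.continuous).add (c1.mul c2)).add
      ((c1.mul c2).add (hf.1.continuous.mul c4))
  · intro v
    have hv : (0 : ℝ) ≤ 1 + |v| := by positivity
    obtain ⟨f0, f1, f2⟩ := hf.2 v
    obtain ⟨g0, g1, g2⟩ := hg.2 v
    have hP : ∀ a b : ℂ, ‖a‖ ≤ C * (1 + |v|) ^ A → ‖b‖ ≤ D * (1 + |v|) ^ B →
        ‖a * b‖ ≤ C * D * (1 + |v|) ^ (A + B) := by
      intro a b ha hb
      rw [norm_mul, pow_add]
      calc ‖a‖ * ‖b‖ ≤ (C * (1 + |v|) ^ A) * (D * (1 + |v|) ^ B) :=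
            mul_le_mul ha hb (norm_nonneg _) (by positivity)
        _ = _ := by ring
    have hQ : 0 ≤ C * D * (1 + |v|) ^ (A + B) := by positivity
    refine ⟨?_, ?_, ?_⟩
    · have := hP _ _ f0 g0
      linarith
    · have e1 := hP _ _ f1 g0
      have e2 := hP _ _ f0 g1
      have e3 := norm_add_le (deriv f v * g v) (f v * deriv g v)
      linarith
    · have e1 := hP _ _ f2 g0
      have e2 := hP _ _ f1 g1
      have e3 := hP _ _ f0 g2
      have e4 := norm_add_le (iteratedDeriv 2 f v * g v + deriv f v * deriv g v)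
        (deriv f v * deriv g v + f v * iteratedDeriv 2 g v)
      have e5 := norm_add_le (iteratedDeriv 2 f v * g v) (deriv f v * deriv g v)
      have e6 := norm_add_le (deriv f v * deriv g v) (f v * iteratedDeriv 2 g v)
      linarith

/-- inverses -/
theorem imul_inv {f : ℝ → ℂ} {C κ : ℝ} {A B : ℕ} (hf : PolyC2 C A f) (hC : 0 ≤ C) (hκ : 0 < κ)
    (hl : ∀ v, κ ≤ ‖f v‖ * (1 + |v|) ^ B) :
    PolyC2 (κ⁻¹ + C * κ⁻¹ ^ 2 + 2 * C ^ 2 * κ⁻¹ ^ 3) (2 * A + 3 * B) (fun v => (f v)⁻¹) := by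
  have hf' := imul_hasDerivAt hf.1
  have hne : ∀ v, f v ≠ 0 := by
    intro v hv
    have := hl v
    rw [hv, norm_zero, zero_mul] at this
    linarith
  have c1 : Continuous (deriv f) := continuous_iff_continuousAt.2 fun v => (hf' v).2.continuousAt
  have c3 : Continuous (iteratedDeriv 2 f) := hf.1.continuous_iteratedDeriv 2 (by norm_num)
  have hd1 : ∀ v, HasDerivAt (fun v => (f v)⁻¹) (-deriv f v * (f v)⁻¹ ^ 2) v := by
    intro v
    refine ((hf' v).1.inv (hne v)).congr_deriv ?_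
    have := hne v
    field_simp
  have hd2 : ∀ v, HasDerivAt (fun v => -deriv f v * (f v)⁻¹ ^ 2)
      (-iteratedDeriv 2 f v * (f v)⁻¹ ^ 2 + 2 * deriv f v ^ 2 * (f v)⁻¹ ^ 3) v := by
    intro v
    have h1 := (hf' v).2.neg.mul ((hd1 v).pow 2)
    refine h1.congr_deriv ?_
    have := hne v
    simp only [Pi.pow_apply, Pi.neg_apply]
    push_cast
    ring
  refine imul_of hd1 hd2 ?_ ?_
  · have ci : Continuous (fun v => (f v)⁻¹) := hf.1.continuous.inv₀ hne
    exact (c3.neg.mul (ci.pow 2)).add ((continuous_const.mul (c1.pow 2)).mul (ci.pow 3))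
  · intro v
    have hv1 : (1 : ℝ) ≤ 1 + |v| := by linarith [abs_nonneg v]
    have hv : (0 : ℝ) < 1 + |v| := by positivity
    obtain ⟨f0, f1, f2⟩ := hf.2 v
    have hi : ‖(f v)⁻¹‖ ≤ κ⁻¹ * (1 + |v|) ^ B := by
      rw [norm_inv]
      have h1 : 0 < ‖f v‖ := norm_pos_iff.2 (hne v)
      rw [inv_le_comm₀ h1 (by positivity), _root_.mul_inv, inv_inv]
      have h2 := hl v
      rw [← div_eq_mul_inv, div_le_iff₀ (by positivity)]
      exact h2
    have hp : ∀ (K : ℝ) (n : ℕ), 0 ≤ K → n ≤ 2 * A + 3 * B →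
        K * (1 + |v|) ^ n ≤ K * (1 + |v|) ^ (2 * A + 3 * B) := by
      intro K n hK hn
      exact mul_le_mul_of_nonneg_left (pow_le_pow_right₀ hv1 hn) hK
    have hi2 : ‖(f v)⁻¹ ^ 2‖ ≤ κ⁻¹ ^ 2 * (1 + |v|) ^ (2 * B) := by
      rw [norm_pow]
      calc ‖(f v)⁻¹‖ ^ 2 ≤ (κ⁻¹ * (1 + |v|) ^ B) ^ 2 :=
            pow_le_pow_left₀ (norm_nonneg _) hi 2
        _ = _ := by ring
    have hi3 : ‖(f v)⁻¹ ^ 3‖ ≤ κ⁻¹ ^ 3 * (1 + |v|) ^ (3 * B) := by
      rw [norm_pow]
      calc ‖(f v)⁻¹‖ ^ 3 ≤ (κ⁻¹ * (1 + |v|) ^ B) ^ 3 :=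
            pow_le_pow_left₀ (norm_nonneg _) hi 3
        _ = _ := by ring
    have hk : 0 ≤ κ⁻¹ := by positivity
    have t1 : 0 ≤ κ⁻¹ * (1 + |v|) ^ (2 * A + 3 * B) := by positivity
    have t2 : 0 ≤ C * κ⁻¹ ^ 2 * (1 + |v|) ^ (2 * A + 3 * B) := by positivity
    have t3 : 0 ≤ 2 * C ^ 2 * κ⁻¹ ^ 3 * (1 + |v|) ^ (2 * A + 3 * B) := by positivity
    have e0 : ∀ z : ℂ, ‖z‖ ≤ C * (1 + |v|) ^ A → ‖-z * (f v)⁻¹ ^ 2‖ ≤
        C * κ⁻¹ ^ 2 * (1 + |v|) ^ (2 * A + 3 * B) := by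
      intro z hz
      rw [norm_mul, norm_neg]
      calc ‖z‖ * ‖(f v)⁻¹ ^ 2‖ ≤ (C * (1 + |v|) ^ A) * (κ⁻¹ ^ 2 * (1 + |v|) ^ (2 * B)) :=
            mul_le_mul hz hi2 (norm_nonneg _) (by positivity)
        _ = C * κ⁻¹ ^ 2 * (1 + |v|) ^ (A + 2 * B) := by ring
        _ ≤ _ := hp _ _ (by positivity) (by omega)
    refine ⟨?_, ?_, ?_⟩
    · have := hi.trans (hp κ⁻¹ B hk (by omega))
      linarith
    · have := e0 _ f1
      linarith
    · have h1 := e0 _ f2
      have h2 : ‖2 * deriv f v ^ 2 * (f v)⁻¹ ^ 3‖ ≤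
          2 * C ^ 2 * κ⁻¹ ^ 3 * (1 + |v|) ^ (2 * A + 3 * B) := by
        rw [norm_mul, norm_mul, norm_pow]
        have h3 : ‖deriv f v‖ ^ 2 ≤ (C * (1 + |v|) ^ A) ^ 2 :=
          pow_le_pow_left₀ (norm_nonneg _) f1 2
        have h4 : ‖(2 : ℂ)‖ = 2 := by simp
        rw [h4]
        calc 2 * ‖deriv f v‖ ^ 2 * ‖(f v)⁻¹ ^ 3‖ ≤
              (2 * (C * (1 + |v|) ^ A) ^ 2) * (κ⁻¹ ^ 3 * (1 + |v|) ^ (3 * B)) :=
              mul_le_mul (by linarith) hi3 (norm_nonneg _) (by positivity)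
          _ = 2 * C ^ 2 * κ⁻¹ ^ 3 * (1 + |v|) ^ (2 * A + 3 * B) := by ring
      have h5 := norm_add_le (-iteratedDeriv 2 f v * (f v)⁻¹ ^ 2)
        (2 * deriv f v ^ 2 * (f v)⁻¹ ^ 3)
      linarith

/-- holomorphic functions of polynomial growth along vertical lines -/
theorem imul_line {F : ℂ → ℂ} (hF : DifferentiableOn ℂ F {w : ℂ | 3 / 4 < w.re}) {C : ℝ} {A : ℕ}
    (hC : 0 < C) (hb : ∀ w : ℂ, 4 / 5 ≤ w.re → w.re ≤ 4 → ‖F w‖ ≤ C * (1 + |w.im|) ^ A)
    {σ a : ℝ} (h1 : 1 ≤ σ) (h2 : σ ≤ 2) (ha : 1 ≤ a) (ha' : a ≤ 2) :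
    PolyC2 (288 * C * 4 ^ A) A (fun v => F (σ + a * v * I)) := by
  have hopen : IsOpen {w : ℂ | 3 / 4 < w.re} := isOpen_lt continuous_const Complex.continuous_re
  have hF1 : DifferentiableOn ℂ (deriv F) {w : ℂ | 3 / 4 < w.re} := hF.deriv hopen
  have hF2 : DifferentiableOn ℂ (deriv (deriv F)) {w : ℂ | 3 / 4 < w.re} := hF1.deriv hopen
  set w : ℝ → ℂ := fun v => σ + a * v * I with hw
  have hwre : ∀ v, (w v).re = σ := by intro v; simp [hw]
  have hwim : ∀ v, (w v).im = a * v := by intro v; simp [hw]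
  have hmem : ∀ v, w v ∈ {w : ℂ | 3 / 4 < w.re} := by
    intro v; show 3 / 4 < (w v).re; rw [hwre]; linarith
  have hnh : ∀ v, {w : ℂ | 3 / 4 < w.re} ∈ nhds (w v) := fun v => hopen.mem_nhds (hmem v)
  have hwd : ∀ v, HasDerivAt w (a * I) v := by
    intro v
    have h3 : HasDerivAt (fun v : ℝ => (v : ℂ)) 1 v := Complex.ofRealCLM.hasDerivAt
    have h4 := ((h3.const_mul (a : ℂ)).mul_const I).const_add (σ : ℂ)
    simpa [hw] using h4
  have hd : ∀ (G : ℂ → ℂ), DifferentiableOn ℂ G {w : ℂ | 3 / 4 < w.re} → ∀ v,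
      HasDerivAt (fun v => G (w v)) (deriv G (w v) * (a * I)) v := by
    intro G hG v
    have h3 : HasDerivAt G (deriv G (w v)) (w v) :=
      (hG.differentiableAt (hnh v)).hasDerivAt
    exact h3.comp v (hwd v)
  have hwc : Continuous w := continuous_iff_continuousAt.2 fun v => (hwd v).continuousAt
  refine imul_of (m' := fun v => deriv F (w v) * (a * I))
    (m'' := fun v => deriv (deriv F) (w v) * (a * I) * (a * I)) (hd F hF)
    (fun v => (hd (deriv F) hF1 v).mul_const _) ?_ ?_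
  · have h3 : Continuous (fun v => deriv (deriv F) (w v)) :=
      continuous_iff_continuousAt.2 fun v => (hd _ hF2 v).continuousAt
    exact (h3.mul continuous_const).mul continuous_const
  · intro v
    have hv : (0 : ℝ) ≤ |v| := abs_nonneg v
    have hpow : (1 + |(w v).im|) ^ A ≤ 2 ^ A * (1 + |v|) ^ A := by
      rw [← mul_pow]
      refine pow_le_pow_left₀ (by positivity) ?_ A
      rw [hwim, abs_mul, abs_of_nonneg (by linarith : (0 : ℝ) ≤ a)]
      nlinarith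
    -- bound on the closed disc
    have hdisc : ∀ z : ℂ, ‖z - w v‖ ≤ 1 / 6 → 3 / 4 < z.re ∧ ‖F z‖ ≤ C * 4 ^ A * (1 + |v|) ^ A := by
      intro z hz
      have e1 : |z.re - σ| ≤ 1 / 6 := by
        have := (Complex.abs_re_le_norm (z - w v)).trans hz
        rwa [Complex.sub_re, hwre] at this
      have e2 : |z.im - (w v).im| ≤ 1 / 6 := by
        have := (Complex.abs_im_le_norm (z - w v)).trans hz
        rwa [Complex.sub_im] at this
      have e3 := abs_le.1 e1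
      refine ⟨by linarith, ?_⟩
      refine (hb z (by linarith) (by linarith)).trans ?_
      have e4 : 1 + |z.im| ≤ 2 * (1 + |(w v).im|) := by
        have : |z.im| ≤ |z.im - (w v).im| + |(w v).im| := by
          have := abs_add_le (z.im - (w v).im) (w v).im
          simpa using this
        have := abs_nonneg (w v).im
        linarith
      have e5 : (1 + |z.im|) ^ A ≤ 4 ^ A * (1 + |v|) ^ A := by
        calc (1 + |z.im|) ^ A ≤ (2 * (1 + |(w v).im|)) ^ A := pow_le_pow_left₀ (by positivity) e4 A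
          _ = 2 ^ A * (1 + |(w v).im|) ^ A := by rw [mul_pow]
          _ ≤ 2 ^ A * (2 ^ A * (1 + |v|) ^ A) := by gcongr
          _ = 4 ^ A * (1 + |v|) ^ A := by
              rw [← mul_assoc, ← mul_pow]; norm_num
      calc C * (1 + |z.im|) ^ A ≤ C * (4 ^ A * (1 + |v|) ^ A) := by gcongr
        _ = _ := by ring
    set K := C * 4 ^ A * (1 + |v|) ^ A with hK
    have hK0 : 0 ≤ K := by positivity
    have hdc : DiffContOnCl ℂ F (Metric.ball (w v) (1 / 6)) := by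
      apply DifferentiableOn.diffContOnCl
      rw [closure_ball _ (by norm_num)]
      refine hF.mono fun z hz => ?_
      rw [Metric.mem_closedBall, dist_eq_norm] at hz
      exact (hdisc z hz).1
    have hsph : ∀ z ∈ Metric.sphere (w v) (1 / 6), ‖F z‖ ≤ K := by
      intro z hz
      rw [Metric.mem_sphere, dist_eq_norm] at hz
      exact (hdisc z hz.le).2
    have c1 : ‖deriv F (w v)‖ ≤ K / (1 / 6) :=
      Complex.norm_deriv_le_of_forall_mem_sphere_norm_le (by norm_num) hdc hsph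
    have c2 : ‖iteratedDeriv 2 F (w v)‖ ≤ (2 : ℕ).factorial * K / (1 / 6) ^ 2 :=
      Complex.norm_iteratedDeriv_le_of_forall_mem_sphere_norm_le 2 (by norm_num) hdc hsph
    have c3 : iteratedDeriv 2 F (w v) = deriv (deriv F) (w v) := by
      rw [iteratedDeriv_succ, iteratedDeriv_one]
    rw [c3] at c2
    have c4 : ‖(a : ℂ) * I‖ = a := by
      rw [norm_mul, Complex.norm_I, mul_one, Complex.norm_real, Real.norm_of_nonneg (by linarith)]
    have c5 : (288 * C * 4 ^ A) * (1 + |v|) ^ A = 288 * K := by rw [hK]; ring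
    rw [c5]
    refine ⟨?_, ?_, ?_⟩
    · have := (hdisc (w v) (by simp)).2
      show ‖F (w v)‖ ≤ _
      linarith
    · rw [norm_mul, c4]
      have e1 : ‖deriv F (w v)‖ ≤ 6 * K := by linarith
      have e2 := norm_nonneg (deriv F (w v))
      nlinarith
    · rw [norm_mul, norm_mul, c4]
      have e1 : ‖deriv (deriv F) (w v)‖ ≤ 72 * K := by
        refine c2.trans (le_of_eq ?_)
        norm_num [Nat.factorial]
        ring
      have e2 := norm_nonneg (deriv (deriv F) (w v))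
      have e3 : a * a ≤ 4 := by nlinarith
      calc ‖deriv (deriv F) (w v)‖ * a * a = ‖deriv (deriv F) (w v)‖ * (a * a) := by ring
        _ ≤ (72 * K) * 4 := mul_le_mul e1 e3 (by positivity) (by positivity)
        _ = 288 * K := by ring

/-- lower bound along vertical lines -/
theorem imul_line_ge {F : ℂ → ℂ} {κ : ℝ} {A : ℕ}
    (hb : ∀ w : ℂ, 1 ≤ w.re → w.re ≤ 4 → κ * (1 + |w.im|) ^ (-(A : ℝ)) ≤ ‖F w‖)
    {σ a : ℝ} (h1 : 1 ≤ σ) (h2 : σ ≤ 2) (ha : 1 ≤ a) (ha' : a ≤ 2) (v : ℝ) :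
    κ / 2 ^ A ≤ ‖F (σ + a * v * I)‖ * (1 + |v|) ^ A := by
  have hre : ((σ : ℂ) + a * v * I).re = σ := by simp
  have him : ((σ : ℂ) + a * v * I).im = a * v := by simp
  have h3 := hb ((σ : ℂ) + a * v * I) (by rw [hre]; exact h1) (by rw [hre]; linarith)
  rw [him] at h3
  have hv : (0 : ℝ) ≤ |v| := abs_nonneg v
  have h4 : (1 + |a * v|) ^ A ≤ 2 ^ A * (1 + |v|) ^ A := by
    rw [← mul_pow]
    refine pow_le_pow_left₀ (by positivity) ?_ A
    rw [abs_mul, abs_of_nonneg (by linarith : (0 : ℝ) ≤ a)]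
    nlinarith
  have h5 : (1 + |a * v|) ^ (-(A : ℝ)) = ((1 + |a * v|) ^ A)⁻¹ := by
    rw [Real.rpow_neg (by positivity), Real.rpow_natCast]
  rw [h5] at h3
  have h6 : 0 < (1 + |a * v|) ^ A := by positivity
  rw [div_le_iff₀ (by positivity)]
  have h7 : κ ≤ ‖F ((σ : ℂ) + a * v * I)‖ * (1 + |a * v|) ^ A := by
    rwa [← div_eq_mul_inv, div_le_iff₀ h6] at h3
  calc κ ≤ ‖F ((σ : ℂ) + a * v * I)‖ * (1 + |a * v|) ^ A := h7
    _ ≤ ‖F ((σ : ℂ) + a * v * I)‖ * (2 ^ A * (1 + |v|) ^ A) := by gcongr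
    _ = _ := by ring

/-- the linear factor -/
theorem imul_lin {η : ℝ} (h0 : 0 ≤ η) (h1 : η ≤ 1 / 2) :
    PolyC2 1 1 (fun v : ℝ => ((2 * η : ℂ) + v * I)) := by
  refine imul_of (m' := fun _ => I) (m'' := fun _ => 0) ?_ ?_ continuous_const ?_
  · intro v
    have h3 : HasDerivAt (fun v : ℝ => (v : ℂ)) 1 v := Complex.ofRealCLM.hasDerivAt
    simpa using (h3.mul_const I).const_add (2 * η : ℂ)
  · intro v; exact hasDerivAt_const v I
  · intro v
    have hv : (0 : ℝ) ≤ |v| := abs_nonneg v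
    refine ⟨?_, ?_, ?_⟩
    · refine (norm_add_le _ _).trans ?_
      have e1 : ‖(2 * η : ℂ)‖ = 2 * η := by
        have : (2 * η : ℂ) = ((2 * η : ℝ) : ℂ) := by push_cast; ring
        rw [this, Complex.norm_real, Real.norm_of_nonneg (by linarith)]
      have e2 : ‖(v : ℂ) * I‖ = |v| := by
        rw [norm_mul, Complex.norm_I, mul_one, Complex.norm_real, Real.norm_eq_abs]
      rw [e1, e2]
      linarith
    · rw [Complex.norm_I]; linarith
    · rw [norm_zero]; linarith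

/-- the multipliers `mA`, `mR` are `C²` with polynomial bounds, uniformly in `η` -/
theorem mul_bound : ∃ (C : ℝ) (A : ℕ), 0 < C ∧ ∀ η : ℝ, 0 ≤ η → η ≤ 1 / 2 →
    PolyC2 C A (mA η) ∧ PolyC2 C A (mR η) := by
  obtain ⟨C1, A1, hC1, hA1⟩ := A2_le
  obtain ⟨C2, A2', hC2, hA2⟩ := R1_le
  obtain ⟨κ1, B1, hκ1, hB1⟩ := A2_ge
  obtain ⟨κ2, B2, hκ2, hB2⟩ := R1_ge
  set K1 := (κ1 / 2 ^ B1)⁻¹ + (288 * C1 * 4 ^ A1) * (κ1 / 2 ^ B1)⁻¹ ^ 2 +
    2 * (288 * C1 * 4 ^ A1) ^ 2 * (κ1 / 2 ^ B1)⁻¹ ^ 3 with hK1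
  set K2 := (κ2 / 2 ^ B2)⁻¹ + (288 * C2 * 4 ^ A2') * (κ2 / 2 ^ B2)⁻¹ ^ 2 +
    2 * (288 * C2 * 4 ^ A2') ^ 2 * (κ2 / 2 ^ B2)⁻¹ ^ 3 with hK2
  have hK1p : 0 < K1 := by positivity
  have hK2p : 0 < K2 := by positivity
  refine ⟨K1 + 4 * (1 * K2), (2 * A1 + 3 * B1) + (1 + (2 * A2' + 3 * B2)), by positivity, ?_⟩
  intro η h0 h1
  constructor
  · have e1 := imul_line (F := A2) A2_diff hC1 hA1 (σ := 1 + 2 * η) (a := 2) (by linarith)
      (by linarith) (by norm_num) le_rfl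
    have e2 := imul_inv e1 (by positivity) (by positivity : 0 < κ1 / 2 ^ B1)
      (fun v => imul_line_ge hB1 (by linarith) (by linarith) (by norm_num) le_rfl v)
    have e3 : mA η = fun v : ℝ => (A2 (((1 + 2 * η : ℝ) : ℂ) + ((2 : ℝ) : ℂ) * v * I))⁻¹ := by
      funext v
      unfold mA
      push_cast
      ring_nf
    rw [e3]
    exact imul_mono e2 hK1p.le (by linarith) (by omega)
  · have e1 := imul_line (F := R1) R1_diff hC2 hA2 (σ := 1 + 2 * η) (a := 1) (by linarith)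
      (by linarith) le_rfl (by norm_num)
    have e2 := imul_inv e1 (by positivity) (by positivity : 0 < κ2 / 2 ^ B2)
      (fun v => imul_line_ge hB2 (by linarith) (by linarith) le_rfl (by norm_num) v)
    have e4 := imul_mul (imul_lin h0 h1) e2 zero_le_one hK2p.le
    have e3 : mR η = fun v : ℝ => ((2 * η : ℂ) + v * I) *
        (R1 (((1 + 2 * η : ℝ) : ℂ) + ((1 : ℝ) : ℂ) * v * I))⁻¹ := by
      funext v
      unfold mR
      rw [div_eq_mul_inv]
      push_cast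
      ring_nf
    rw [e3]
    exact imul_mono e4 (by positivity) (by linarith) (by omega)

end Pool.Agent.CZ
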