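import Mathlib
import Pool.Agent.CZ.IDefs
import Pool.Agent.CZ.IBINT
import Pool.Agent.CZ.IG1
import Pool.Agent.CZ.IE0N
import Pool.Agent.CZ.IMUL
import Pool.Agent.CZ.InpAR
import Pool.Agent.ZD.E2

/-!
# Critical zeros (MP_553913_nt), part (I), module YID: the sum `YS` through `LS3`
-/

set_option autoImplicit false

open Complex Finset MeasureTheory

namespace Pool.Agent.CZ

open Pool.Agent.H5 (c bd)
open Pool.Agent.ZD (Lf gk eps eps_norm)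
open Pool.Agent.CZ.Inp (lam A2 R1 A2_ge R1_ge)

/-! ### Gabor integrands -/

lemma yid_norm_gI (F : ℝ → ℂ) (x t v : ℝ) :
    ‖gI F x t v‖ = ‖F v‖ * Real.exp (-((v - t) ^ 2 / 2)) := by
  unfold gI
  rw [norm_mul, norm_mul, Complex.norm_exp, Complex.norm_real, Real.norm_of_nonneg (Real.exp_pos _).le]
  have : (I * ((v : ℂ) - t) * x).re = 0 := by simp
  rw [this, Real.exp_zero, mul_one]

lemma yid_cont_gI {F : ℝ → ℂ} (hF : Continuous F) (x t : ℝ) : Continuous (gI F x t) := by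
  unfold gI
  fun_prop

lemma yid_gauss (B : ℕ) (t : ℝ) : ∃ K : ℝ, 0 < K ∧ ∀ v : ℝ,
    Real.exp |v| * (1 + |v|) ^ B * Real.exp (-((v - t) ^ 2 / 2)) ≤
      K * Real.exp (-(1 / 4) * (v - t) ^ 2) := by
  refine ⟨B.factorial * Real.exp (5 + 2 * |t|), by positivity, fun v => ?_⟩
  have h1 : (1 + |v|) ^ B ≤ B.factorial * Real.exp (1 + |v|) := by
    have := Real.pow_div_factorial_le_exp (1 + |v|) (by positivity) B
    rw [div_le_iff₀ (by positivity)] at this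
    linarith
  have h2 : Real.exp |v| * (1 + |v|) ^ B * Real.exp (-((v - t) ^ 2 / 2)) ≤
      Real.exp |v| * (B.factorial * Real.exp (1 + |v|)) * Real.exp (-((v - t) ^ 2 / 2)) := by
    gcongr
  refine h2.trans ?_
  have h3 : Real.exp |v| * (B.factorial * Real.exp (1 + |v|)) * Real.exp (-((v - t) ^ 2 / 2)) =
      B.factorial * Real.exp (|v| + (1 + |v|) + -((v - t) ^ 2 / 2)) := by
    rw [Real.exp_add (|v| + (1 + |v|)), Real.exp_add |v| (1 + |v|)]; ring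
  rw [h3, mul_assoc, ← Real.exp_add]
  refine mul_le_mul_of_nonneg_left (Real.exp_le_exp.2 ?_) (by positivity)
  have h4 : |v| ≤ |t| + |v - t| := by
    calc |v| = |t + (v - t)| := by ring_nf
      _ ≤ _ := abs_add_le _ _
  have h5 : 2 * |v - t| ≤ (v - t) ^ 2 / 4 + 4 := by
    have := sq_nonneg (|v - t| / 2 - 2)
    have h6 : |v - t| ^ 2 = (v - t) ^ 2 := sq_abs _
    nlinarith
  nlinarith

lemma yid_int {F : ℝ → ℂ} {K : ℝ} (hK : ∀ v, ‖F v‖ ≤ K * Real.exp |v|)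
    {M : ℝ × ℝ → ℂ} {C : ℝ} {B : ℕ} (hC0 : 0 ≤ C)
    (hC : ∀ v, ‖M v‖ ≤ C * ((1 + |v.1|) ^ B * (1 + |v.2|) ^ B)) (t₁ t₂ : ℝ) :
    ∃ h : ℝ × ℝ → ℝ, Integrable h ∧ ∀ (x₁ x₂ : ℝ) (v : ℝ × ℝ),
      ‖gI F x₁ t₁ v.1 * gI F x₂ t₂ v.2 * M v‖ ≤ h v := by
  obtain ⟨K₁, hK1, h1⟩ := yid_gauss B t₁
  obtain ⟨K₂, hK2, h2⟩ := yid_gauss B t₂
  have hi : ∀ t : ℝ, Integrable (fun v : ℝ => Real.exp (-(1 / 4) * (v - t) ^ 2)) := fun t =>
    (integrable_exp_neg_mul_sq (b := 1 / 4) (by norm_num)).comp_sub_right t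
  have hK0 : 0 ≤ K := by
    have := hK 0
    simp at this
    exact (norm_nonneg _).trans this
  refine ⟨fun v => (C * K ^ 2 * K₁ * K₂) * (Real.exp (-(1 / 4) * (v.1 - t₁) ^ 2) *
    Real.exp (-(1 / 4) * (v.2 - t₂) ^ 2)), ((hi t₁).mul_prod (hi t₂)).const_mul _, fun x₁ x₂ v => ?_⟩
  rw [norm_mul, norm_mul, yid_norm_gI, yid_norm_gI]
  calc ‖F v.1‖ * Real.exp (-((v.1 - t₁) ^ 2 / 2)) * (‖F v.2‖ * Real.exp (-((v.2 - t₂) ^ 2 / 2))) * ‖M v‖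
      ≤ (K * Real.exp |v.1|) * Real.exp (-((v.1 - t₁) ^ 2 / 2)) *
        ((K * Real.exp |v.2|) * Real.exp (-((v.2 - t₂) ^ 2 / 2))) *
          (C * ((1 + |v.1|) ^ B * (1 + |v.2|) ^ B)) := by
        gcongr
        · exact hK _
        · exact hK _
        · exact hC _
    _ = (C * K ^ 2) * ((Real.exp |v.1| * (1 + |v.1|) ^ B * Real.exp (-((v.1 - t₁) ^ 2 / 2))) *
        (Real.exp |v.2| * (1 + |v.2|) ^ B * Real.exp (-((v.2 - t₂) ^ 2 / 2)))) := by ring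
    _ ≤ (C * K ^ 2) * ((K₁ * Real.exp (-(1 / 4) * (v.1 - t₁) ^ 2)) *
        (K₂ * Real.exp (-(1 / 4) * (v.2 - t₂) ^ 2))) := by
        refine mul_le_mul_of_nonneg_left (mul_le_mul (h1 _) (h2 _) (by positivity) (by positivity))
          (by positivity)
    _ = _ := by ring

lemma yid_exch {F : ℝ → ℂ} (hF : Continuous F) {M : ℝ × ℝ → ℂ} (hM : Continuous M)
    {h : ℝ × ℝ → ℝ} (hh : Integrable h) {x₁ x₂ t₁ t₂ : ℝ}
    (hb : ∀ v, ‖gI F x₁ t₁ v.1 * gI F x₂ t₂ v.2 * M v‖ ≤ h v)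
    {g : ℕ × ℕ → ℝ × ℝ → ℂ} (hg : ∀ b, Continuous (g b)) {w : ℕ × ℕ → ℝ} (hw : Summable w)
    (hgw : ∀ b v, ‖g b v‖ ≤ w b) :
    ∑' b, ∫ v : ℝ × ℝ, (gI F x₁ t₁ v.1 * gI F x₂ t₂ v.2 * M v) * g b v =
      ∫ v : ℝ × ℝ, (gI F x₁ t₁ v.1 * gI F x₂ t₂ v.2 * M v) * ∑' b, g b v := by
  have hc : Continuous (fun v : ℝ × ℝ => gI F x₁ t₁ v.1 * gI F x₂ t₂ v.2 * M v) :=
    (((yid_cont_gI hF x₁ t₁).comp continuous_fst).mul ((yid_cont_gI hF x₂ t₂).comp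
      continuous_snd)).mul hM
  have hh0 : ∀ v, 0 ≤ h v := fun v => (norm_nonneg _).trans (hb v)
  have hb2 : ∀ b v, ‖(gI F x₁ t₁ v.1 * gI F x₂ t₂ v.2 * M v) * g b v‖ ≤ h v * w b := by
    intro b v
    rw [norm_mul]
    exact mul_le_mul (hb v) (hgw b v) (norm_nonneg _) (hh0 v)
  have hint : ∀ b, Integrable (fun v : ℝ × ℝ => (gI F x₁ t₁ v.1 * gI F x₂ t₂ v.2 * M v) * g b v) := by
    intro b
    exact Integrable.mono' (hh.mul_const (w b)) (hc.mul (hg b)).aestronglyMeasurable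
      (Filter.Eventually.of_forall (hb2 b))
  have hs : Summable (fun b => ∫ v : ℝ × ℝ,
      ‖(gI F x₁ t₁ v.1 * gI F x₂ t₂ v.2 * M v) * g b v‖) := by
    refine Summable.of_nonneg_of_le (fun b => integral_nonneg (fun v => norm_nonneg _)) (fun b => ?_)
      (hw.mul_left (∫ v, h v))
    rw [← integral_mul_const]
    exact integral_mono (hint b).norm (hh.mul_const _) (hb2 b)
  rw [integral_tsum_of_summable_integral_norm hint hs]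
  simp only [tsum_mul_left]

/-! ### powers -/

lemma yid_cpow {b : ℕ} (hb : 0 < b) (s : ℂ) : (b : ℂ) ^ s = exp (s * (Real.log b : ℂ)) := by
  rw [Complex.cpow_def_of_ne_zero (by exact_mod_cast hb.ne'), Complex.natCast_log, mul_comm]

lemma yid_shift (F : ℝ → ℂ) (x t v : ℝ) (a : ℂ) {b : ℕ} (hb : 0 < b) :
    gI F x t v * (b : ℂ) ^ (-(a + v * I)) =
      (b : ℂ) ^ (-(a + t * I)) * gI F (x - Real.log b) t v := by
  rw [yid_cpow hb, yid_cpow hb]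
  unfold gI
  have e : exp (I * (v - t) * x) * exp (-(a + v * I) * (Real.log b : ℂ)) =
      exp (-(a + t * I) * (Real.log b : ℂ)) * exp (I * (v - t) * ((x - Real.log b : ℝ) : ℂ)) := by
    rw [← Complex.exp_add, ← Complex.exp_add]
    congr 1
    push_cast
    ring
  calc _ = F v * (Real.exp (-((v - t) ^ 2 / 2)) : ℂ) *
        (exp (I * (v - t) * x) * exp (-(a + v * I) * (Real.log b : ℂ))) := by ring
    _ = _ := by rw [e]; ring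

lemma yid_cont_pow (b : ℕ) {a : ℝ} (ha : 0 < a) : Continuous (fun v : ℝ => (b : ℂ) ^ (-((a : ℂ) + v * I))) := by
  refine Continuous.const_cpow (by fun_prop) (Or.inr (fun v h => ?_))
  have := congrArg Complex.re h
  simp at this
  exact ha.ne' this

lemma yid_norm_pow (b : ℕ) {a : ℝ} (ha : 0 < a) (v : ℝ) :
    ‖(b : ℂ) ^ (-((a : ℂ) + v * I))‖ = (b : ℝ) ^ (-a) := by
  rw [Complex.norm_natCast_cpow_of_re_ne_zero]
  · simp
  · simp [ha.ne']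

lemma yid_zero_pow {a : ℝ} (ha : 0 < a) (v : ℝ) : ((0 : ℕ) : ℂ) ^ (-((a : ℂ) + v * I)) = 0 := by
  rw [Nat.cast_zero, Complex.zero_cpow]
  intro h
  have := congrArg Complex.re h
  simp at this
  exact ha.ne' this

lemma yid_zero_pow' {w : ℂ} (hw : w.re ≠ 0) : ((0 : ℕ) : ℂ) ^ (-w) = 0 := by
  rw [Nat.cast_zero, Complex.zero_cpow]
  intro h
  apply hw
  have := congrArg Complex.re h
  simpa using this

/-- one variable: block times `b^{-1-it}` as an integral on the line `1 + η` -/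
lemma yid_one {q : ℕ} (hq : Squarefree q) {η : ℝ} (h0 : 0 ≤ η) (h1 : η ≤ 2) (x t : ℝ) {b : ℕ}
    (hb : 0 < b) :
    npow b t * BB q (x - Real.log b) t =
      ((Real.exp (η * x + η ^ 2 / 2) / Real.sqrt (2 * Real.pi) : ℝ) : ℂ) *
        ∫ v : ℝ, gI (LfL η q) (x + η) t v * (b : ℂ) ^ (-(((1 + η : ℝ) : ℂ) + v * I)) := by
  rw [(BB_int hq h0 h1 (x - Real.log b) t).2]
  have e1 : (fun v : ℝ => gI (LfL η q) (x + η) t v * (b : ℂ) ^ (-(((1 + η : ℝ) : ℂ) + v * I))) =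
      fun v : ℝ => (b : ℂ) ^ (-(((1 + η : ℝ) : ℂ) + t * I)) * gI (LfL η q) (x - Real.log b + η) t v := by
    funext v
    rw [yid_shift _ _ _ _ _ hb]
    congr 2
    ring
  rw [e1, integral_const_mul]
  have e2 : npow b t * ((Real.exp (η * (x - Real.log b) + η ^ 2 / 2) / Real.sqrt (2 * Real.pi) : ℝ) : ℂ) =
      ((Real.exp (η * x + η ^ 2 / 2) / Real.sqrt (2 * Real.pi) : ℝ) : ℂ) *
        (b : ℂ) ^ (-(((1 + η : ℝ) : ℂ) + t * I)) := by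
    unfold npow
    rw [yid_cpow hb, yid_cpow hb]
    have e3 : exp (-(1 + (t : ℂ) * I) * (Real.log b : ℂ)) *
        exp ((η : ℂ) * (x - (Real.log b : ℂ)) + (η : ℂ) ^ 2 / 2) =
        exp ((η : ℂ) * x + (η : ℂ) ^ 2 / 2) * exp (-(((1 + η : ℝ) : ℂ) + t * I) * (Real.log b : ℂ)) := by
      rw [← Complex.exp_add, ← Complex.exp_add]
      congr 1
      push_cast
      ring
    push_cast at e3 ⊢
    rw [mul_div_assoc', e3]
    ring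
  unfold Gt
  rw [← mul_assoc, e2]
  ring

/-! ### double Dirichlet convolution -/

lemma yid_conv {f g : ℕ × ℕ → ℂ} (hf : Summable (fun b => ‖f b‖)) (hg : Summable (fun b => ‖g b‖))
    (hf0 : ∀ b, b.1 = 0 ∨ b.2 = 0 → f b = 0) (hg0 : ∀ b, b.1 = 0 ∨ b.2 = 0 → g b = 0) :
    ∑' n : ℕ × ℕ, ∑ x ∈ n.1.divisors, ∑ y ∈ n.2.divisors, f (x, y) * g (n.1 / x, n.2 / y) =
      (∑' b, f b) * ∑' b, g b := by
  classical
  have hQ := summable_mul_of_summable_norm hf hg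
  rw [tsum_mul_tsum_of_summable_norm hf hg]
  have hL : ∀ n : ℕ × ℕ, ∑' p : (fun p : (ℕ × ℕ) × (ℕ × ℕ) => (p.1.1 * p.2.1, p.1.2 * p.2.2)) ⁻¹' {n},
      f (p : (ℕ × ℕ) × (ℕ × ℕ)).1 * g (p : (ℕ × ℕ) × (ℕ × ℕ)).2 =
      ∑ x ∈ n.1.divisors, ∑ y ∈ n.2.divisors, f (x, y) * g (n.1 / x, n.2 / y) := by
    rintro ⟨n₁, n₂⟩
    by_cases hn : n₁ = 0 ∨ n₂ = 0
    · have hg : ∑ x ∈ n₁.divisors, ∑ y ∈ n₂.divisors, f (x, y) * g (n₁ / x, n₂ / y) = 0 := by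
        rcases hn with h | h <;> subst h <;> simp
      rw [hg]
      convert tsum_zero with p
      obtain ⟨⟨⟨b₁, b₂⟩, m₁, m₂⟩, hp⟩ := p
      simp only [Set.mem_preimage, Set.mem_singleton_iff, Prod.mk.injEq] at hp
      obtain ⟨hp1, hp2⟩ := hp
      simp only
      rcases hn with h | h
      · rw [h] at hp1
        rcases Nat.mul_eq_zero.1 hp1 with h' | h'
        · rw [hf0 _ (Or.inl h'), zero_mul]
        · rw [hg0 _ (Or.inl h'), mul_zero]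
      · rw [h] at hp2
        rcases Nat.mul_eq_zero.1 hp2 with h' | h'
        · rw [hf0 _ (Or.inr h'), zero_mul]
        · rw [hg0 _ (Or.inr h'), mul_zero]
    · push Not at hn
      have hn1 : 0 < n₁ := Nat.pos_of_ne_zero hn.1
      have hn2 : 0 < n₂ := Nat.pos_of_ne_zero hn.2
      have hset : (fun p : (ℕ × ℕ) × (ℕ × ℕ) => (p.1.1 * p.2.1, p.1.2 * p.2.2)) ⁻¹' {(n₁, n₂)} =
          (((n₁.divisors ×ˢ n₂.divisors).image
            (fun b : ℕ × ℕ => (b, (n₁ / b.1, n₂ / b.2))) : Finset ((ℕ × ℕ) × (ℕ × ℕ))) :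
            Set ((ℕ × ℕ) × (ℕ × ℕ))) := by
        ext ⟨⟨b₁, b₂⟩, m₁, m₂⟩
        simp only [Set.mem_preimage, Set.mem_singleton_iff, Prod.mk.injEq, Finset.coe_image,
          Set.mem_image, Finset.mem_coe, Finset.mem_product, Nat.mem_divisors, Prod.exists]
        constructor
        · rintro ⟨h1, h2⟩
          refine ⟨b₁, b₂, ⟨⟨⟨m₁, h1.symm⟩, hn1.ne'⟩, ⟨m₂, h2.symm⟩, hn2.ne'⟩, ⟨rfl, rfl⟩, ?_, ?_⟩
          · rw [← h1]
            apply Nat.mul_div_cancel_left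
            rcases Nat.eq_zero_or_pos b₁ with h | h
            · subst h; simp at h1; omega
            · exact h
          · rw [← h2]
            apply Nat.mul_div_cancel_left
            rcases Nat.eq_zero_or_pos b₂ with h | h
            · subst h; simp at h2; omega
            · exact h
        · rintro ⟨a, b, ⟨⟨h1, _⟩, h2, _⟩, ⟨rfl, rfl⟩, rfl, rfl⟩
          exact ⟨Nat.mul_div_cancel' h1, Nat.mul_div_cancel' h2⟩
      rw [hset, Finset.tsum_subtype' _ (fun p : (ℕ × ℕ) × (ℕ × ℕ) => f p.1 * g p.2),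
        Finset.sum_image (by
        intro a _ b _ hab
        exact (Prod.mk.inj hab).1), Finset.sum_product]
  have hF := hQ.hasSum.tsum_fiberwise (fun p : (ℕ × ℕ) × (ℕ × ℕ) => (p.1.1 * p.2.1, p.1.2 * p.2.2))
  simp only [hL] at hF
  exact hF.tsum_eq

/-! ### non-vanishing -/

lemma yid_A2_ne {η : ℝ} (h0 : 0 < η) (h1 : η ≤ 1 / 2) (v : ℝ) : A2 (1 + 2 * η + 2 * v * I) ≠ 0 := by
  obtain ⟨κ, A, hκ, h⟩ := A2_ge
  have := h (1 + 2 * η + 2 * v * I) (by simp; linarith) (by simp; linarith)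
  intro h2
  rw [h2, norm_zero] at this
  have h3 : 0 < κ * (1 + |(1 + 2 * η + 2 * v * I : ℂ).im|) ^ (-(A : ℝ)) := by positivity
  linarith

lemma yid_R1_ne {η : ℝ} (h0 : 0 < η) (h1 : η ≤ 1 / 2) (v : ℝ) : R1 (1 + 2 * η + v * I) ≠ 0 := by
  obtain ⟨κ, A, hκ, h⟩ := R1_ge
  have := h (1 + 2 * η + v * I) (by simp; linarith) (by simp; linarith)
  intro h2
  rw [h2, norm_zero] at this
  have h3 : 0 < κ * (1 + |(1 + 2 * η + v * I : ℂ).im|) ^ (-(A : ℝ)) := by positivity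
  linarith

/-- the product of the multipliers -/
noncomputable def yidM (η : ℝ) (v : ℝ × ℝ) : ℂ := mA η v.1 * mA η v.2 * mR η (v.1 + v.2)

lemma yid_M_cont {η : ℝ} (h0 : 0 ≤ η) (h1 : η ≤ 1 / 2) : Continuous (yidM η) := by
  obtain ⟨C, A, hC, h⟩ := mul_bound
  obtain ⟨h2, h3⟩ := h η h0 h1
  have c2 : Continuous (mA η) := h2.1.continuous
  have c3 : Continuous (mR η) := h3.1.continuous
  unfold yidM
  exact ((c2.comp continuous_fst).mul (c2.comp continuous_snd)).mul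
    (c3.comp (continuous_fst.add continuous_snd))

lemma yid_M_le {η : ℝ} (h0 : 0 ≤ η) (h1 : η ≤ 1 / 2) : ∃ (C : ℝ) (B : ℕ), 0 ≤ C ∧
    ∀ v : ℝ × ℝ, ‖yidM η v‖ ≤ C * ((1 + |v.1|) ^ B * (1 + |v.2|) ^ B) := by
  obtain ⟨C, A, hC, h⟩ := mul_bound
  obtain ⟨h2, h3⟩ := h η h0 h1
  refine ⟨C ^ 3, 2 * A, by positivity, fun v => ?_⟩
  unfold yidM
  rw [norm_mul, norm_mul]
  have e : (1 + |v.1 + v.2|) ^ A ≤ (1 + |v.1|) ^ A * (1 + |v.2|) ^ A := by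
    rw [← mul_pow]
    refine pow_le_pow_left₀ (by positivity) ?_ _
    nlinarith [abs_add_le v.1 v.2, abs_nonneg v.1, abs_nonneg v.2,
      mul_nonneg (abs_nonneg v.1) (abs_nonneg v.2)]
  calc ‖mA η v.1‖ * ‖mA η v.2‖ * ‖mR η (v.1 + v.2)‖ ≤
      (C * (1 + |v.1|) ^ A) * (C * (1 + |v.2|) ^ A) * (C * ((1 + |v.1|) ^ A * (1 + |v.2|) ^ A)) := by
        gcongr
        · exact (h2.2 _).1
        · exact (h2.2 _).1
        · exact (h3.2 _).1.trans (mul_le_mul_of_nonneg_left e hC.le)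
    _ = _ := by ring

/-! ### the identity for the double Dirichlet series -/

lemma yid_epsn {k : ℤ} {q : ℕ} {η : ℝ} (v₁ v₂ : ℝ) (b : ℕ × ℕ) :
    epsn k q b.1 b.2 * ((b.1 : ℂ) ^ (-(((1 / 2 + η : ℝ) : ℂ) + v₁ * I)) *
      (b.2 : ℂ) ^ (-(((1 / 2 + η : ℝ) : ℂ) + v₂ * I))) =
    eps k q b.1 b.2 * ((b.1 : ℂ) ^ (-(((1 + η : ℝ) : ℂ) + v₁ * I)) *
      (b.2 : ℂ) ^ (-(((1 + η : ℝ) : ℂ) + v₂ * I))) := by
  obtain ⟨b₁, b₂⟩ := b
  rcases Nat.eq_zero_or_pos b₁ with rfl | hb1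
  · simp [epsn, eps]
  rcases Nat.eq_zero_or_pos b₂ with rfl | hb2
  · simp [epsn, eps]
  unfold epsn
  simp only
  have hs : ∀ b : ℕ, 0 < b → ((Real.sqrt b : ℝ) : ℂ) = exp ((1 / 2 : ℂ) * (Real.log b : ℂ)) := by
    intro b hb
    have hb' : (0 : ℝ) < b := by exact_mod_cast hb
    rw [Real.sqrt_eq_rpow, Real.rpow_def_of_pos hb']
    push_cast
    congr 1
    ring
  have hne : ∀ b : ℕ, 0 < b → ((Real.sqrt b : ℝ) : ℂ) ≠ 0 := by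
    intro b hb
    rw [hs b hb]
    exact Complex.exp_ne_zero _
  have h1 : ∀ (b : ℕ) (v : ℝ), 0 < b → (b : ℂ) ^ (-(((1 / 2 + η : ℝ) : ℂ) + v * I)) =
      (b : ℂ) ^ (-(((1 + η : ℝ) : ℂ) + v * I)) * ((Real.sqrt b : ℝ) : ℂ) := by
    intro b v hb
    rw [hs b hb, yid_cpow hb, yid_cpow hb, ← Complex.exp_add]
    congr 1
    push_cast
    ring
  rw [h1 b₁ v₁ hb1, h1 b₂ v₂ hb2, Nat.cast_mul, Real.sqrt_mul (Nat.cast_nonneg _), Complex.ofReal_mul]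
  have e1 := hne b₁ hb1
  have e2 := hne b₂ hb2
  field_simp

lemma yid_rpow_mul (a b : ℕ) (r : ℝ) : ((a : ℝ) * b) ^ r = (a : ℝ) ^ r * (b : ℝ) ^ r :=
  Real.mul_rpow (Nat.cast_nonneg _) (Nat.cast_nonneg _)

lemma yid_eps_sum {k : ℤ} {q v : ℕ} (hq : Squarefree q) (hv : 0 < v) (hk : k.natAbs = q * v ^ 2)
    {η : ℝ} (h0 : 0 < η) (h1 : η ≤ 1 / 2) :
    Summable (fun b : ℕ × ℕ => ‖eps k q b.1 b.2‖ * ((b.1 : ℝ) ^ (-(1 + η)) * (b.2 : ℝ) ^ (-(1 + η)))) := by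
  obtain ⟨C, hC⟩ := eps_norm
  refine (hC η k q v h0 h1 hq hv hk).1.congr (fun b => ?_)
  rw [yid_rpow_mul]

lemma yid_E0_sum (A : ℕ) (hA : ∀ (k : ℤ) (q v a b : ℕ), Squarefree q → 0 < v → k.natAbs = q * v ^ 2 →
      0 < a → 0 < b → ‖E0 k q a b‖ ≤ YM A v (a * b))
    {k : ℤ} {q v : ℕ} (hq : Squarefree q) (hv : 0 < v) (hk : k.natAbs = q * v ^ 2)
    {η : ℝ} (h0 : 0 < η) (b : ℕ × ℕ) :
    ‖E0 k q b.1 b.2‖ * ((b.1 : ℝ) ^ (-(1 / 2 + η)) * (b.2 : ℝ) ^ (-(1 / 2 + η))) ≤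
      YM A v (b.1 * b.2) * ((b.1 : ℝ) * b.2) ^ (-(1 / 2) : ℝ) := by
  obtain ⟨b₁, b₂⟩ := b
  have hY : 0 ≤ YM A v (b₁ * b₂) := YM_nonneg _ _ _
  rcases Nat.eq_zero_or_pos b₁ with rfl | hb1
  · refine le_trans (le_of_eq ?_) (mul_nonneg hY (by positivity))
    simp only [Nat.cast_zero]
    rw [Real.zero_rpow (by linarith)]
    simp only [zero_mul, mul_zero]
  rcases Nat.eq_zero_or_pos b₂ with rfl | hb2
  · refine le_trans (le_of_eq ?_) (mul_nonneg hY (by positivity))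
    simp only [Nat.cast_zero]
    rw [Real.zero_rpow (by linarith)]
    simp only [mul_zero]
  rw [yid_rpow_mul]
  have hp : ∀ b : ℕ, 0 < b → (b : ℝ) ^ (-(1 / 2 + η)) ≤ (b : ℝ) ^ (-(1 / 2) : ℝ) := fun b hb =>
    Real.rpow_le_rpow_of_exponent_le (by exact_mod_cast hb) (by linarith)
  have := hA k q v b₁ b₂ hq hv hk hb1 hb2
  have p1 := hp b₁ hb1
  have p2 := hp b₂ hb2
  simp only
  gcongr

lemma yid_id {k : ℤ} {q v : ℕ} (hq : Squarefree q) (hv : 0 < v) (hk : k.natAbs = q * v ^ 2)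
    {η : ℝ} (h0 : 0 < η) (h1 : η ≤ 1 / 2) (w : ℝ × ℝ) :
    ∑' b : ℕ × ℕ, eps k q b.1 b.2 * ((b.1 : ℂ) ^ (-(((1 + η : ℝ) : ℂ) + w.1 * I)) *
      (b.2 : ℂ) ^ (-(((1 + η : ℝ) : ℂ) + w.2 * I))) =
    yidM η w * ∑' b : ℕ × ℕ, E0 k q b.1 b.2 * ((b.1 : ℂ) ^ (-(((1 / 2 + η : ℝ) : ℂ) + w.1 * I)) *
      (b.2 : ℂ) ^ (-(((1 / 2 + η : ℝ) : ℂ) + w.2 * I))) := by
  set w₁ : ℂ := ((1 / 2 + η : ℝ) : ℂ) + w.1 * I with hw1
  set w₂ : ℂ := ((1 / 2 + η : ℝ) : ℂ) + w.2 * I with hw2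
  have r1 : w₁.re = 1 / 2 + η := by simp [hw1]
  have r2 : w₂.re = 1 / 2 + η := by simp [hw2]
  obtain ⟨g1, g2⟩ := G1_sum (w₁ := w₁) (w₂ := w₂) (by rw [r1]; linarith) (by rw [r2]; linarith)
  have hf : Summable (fun b : ℕ × ℕ => ‖epsn k q b.1 b.2 * ((b.1 : ℂ) ^ (-w₁) * (b.2 : ℂ) ^ (-w₂))‖) := by
    refine (yid_eps_sum hq hv hk h0 h1).congr (fun b => ?_)
    rw [hw1, hw2, yid_epsn, norm_mul, norm_mul, yid_norm_pow _ (by linarith),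
      yid_norm_pow _ (by linarith)]
  have hz1 : ∀ b : ℕ, b = 0 → (b : ℂ) ^ (-w₁) = 0 := by
    rintro b rfl
    exact yid_zero_pow' (by rw [r1]; linarith)
  have hz2 : ∀ b : ℕ, b = 0 → (b : ℂ) ^ (-w₂) = 0 := by
    rintro b rfl
    exact yid_zero_pow' (by rw [r2]; linarith)
  have hconv := yid_conv hf g1
    (by
      rintro b (hb | hb)
      · rw [hz1 _ hb]; ring
      · rw [hz2 _ hb]; ring)
    (by
      rintro b (hb | hb)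
      · rw [hz1 _ hb]; ring
      · rw [hz2 _ hb]; ring)
  have hE : ∀ n : ℕ × ℕ, E0 k q n.1 n.2 * ((n.1 : ℂ) ^ (-w₁) * (n.2 : ℂ) ^ (-w₂)) =
      ∑ x ∈ n.1.divisors, ∑ y ∈ n.2.divisors,
        epsn k q x y * ((x : ℂ) ^ (-w₁) * (y : ℂ) ^ (-w₂)) *
        ((G1 (n.1 / x) (n.2 / y) : ℂ) * (((n.1 / x : ℕ) : ℂ) ^ (-w₁) * ((n.2 / y : ℕ) : ℂ) ^ (-w₂))) := by
    intro n
    unfold E0
    rw [Finset.sum_mul]
    refine Finset.sum_congr rfl (fun x hx => ?_)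
    rw [Finset.sum_mul]
    refine Finset.sum_congr rfl (fun y hy => ?_)
    have e1 : (n.1 : ℂ) ^ (-w₁) = (x : ℂ) ^ (-w₁) * ((n.1 / x : ℕ) : ℂ) ^ (-w₁) := by
      rw [← Complex.natCast_mul_natCast_cpow, ← Nat.cast_mul,
        Nat.mul_div_cancel' (Nat.dvd_of_mem_divisors hx)]
    have e2 : (n.2 : ℂ) ^ (-w₂) = (y : ℂ) ^ (-w₂) * ((n.2 / y : ℕ) : ℂ) ^ (-w₂) := by
      rw [← Complex.natCast_mul_natCast_cpow, ← Nat.cast_mul,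
        Nat.mul_div_cancel' (Nat.dvd_of_mem_divisors hy)]
    rw [e1, e2]
    ring
  have hE' : ∑' b : ℕ × ℕ, E0 k q b.1 b.2 * ((b.1 : ℂ) ^ (-w₁) * (b.2 : ℂ) ^ (-w₂)) =
      (∑' b : ℕ × ℕ, epsn k q b.1 b.2 * ((b.1 : ℂ) ^ (-w₁) * (b.2 : ℂ) ^ (-w₂))) *
        (A2 (2 * w₁) * A2 (2 * w₂) * (R1 (w₁ + w₂) / (w₁ + w₂ - 1))) := by
    rw [← g2, ← hconv]
    exact tsum_congr hE
  rw [hE']
  have hS : ∑' b : ℕ × ℕ, epsn k q b.1 b.2 * ((b.1 : ℂ) ^ (-w₁) * (b.2 : ℂ) ^ (-w₂)) =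
      ∑' b : ℕ × ℕ, eps k q b.1 b.2 * ((b.1 : ℂ) ^ (-(((1 + η : ℝ) : ℂ) + w.1 * I)) *
      (b.2 : ℂ) ^ (-(((1 + η : ℝ) : ℂ) + w.2 * I))) :=
    tsum_congr (fun b => yid_epsn w.1 w.2 b)
  rw [hS]
  have a1 : 2 * w₁ = 1 + 2 * η + 2 * w.1 * I := by rw [hw1]; push_cast; ring
  have a2 : 2 * w₂ = 1 + 2 * η + 2 * w.2 * I := by rw [hw2]; push_cast; ring
  have a3 : w₁ + w₂ = 1 + 2 * η + ((w.1 + w.2 : ℝ) : ℂ) * I := by rw [hw1, hw2]; push_cast; ring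
  have a4 : w₁ + w₂ - 1 = 2 * η + ((w.1 + w.2 : ℝ) : ℂ) * I := by rw [a3]; ring
  have n1 := yid_A2_ne h0 h1 w.1
  have n2 := yid_A2_ne h0 h1 w.2
  have n3 := yid_R1_ne h0 h1 (w.1 + w.2)
  have n4 : (2 * (η : ℂ) + ((w.1 + w.2 : ℝ) : ℂ) * I) ≠ 0 := by
    intro h
    have := congrArg Complex.re h
    simp at this
    exact h0.ne' this
  unfold yidM mA mR
  rw [a4, a1, a2, a3]
  generalize (∑' b : ℕ × ℕ, eps k q b.1 b.2 * ((b.1 : ℂ) ^ (-(((1 + η : ℝ) : ℂ) + w.1 * I)) *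
      (b.2 : ℂ) ^ (-(((1 + η : ℝ) : ℂ) + w.2 * I)))) = Z
  generalize A2 (1 + 2 * η + 2 * w.1 * I) = X1 at n1 ⊢
  generalize A2 (1 + 2 * η + 2 * w.2 * I) = X2 at n2 ⊢
  generalize R1 (1 + 2 * η + ((w.1 + w.2 : ℝ) : ℂ) * I) = X3 at n3 ⊢
  generalize (2 * (η : ℂ) + ((w.1 + w.2 : ℝ) : ℂ) * I) = X4 at n4 ⊢
  field_simp

/-! ### main statement -/

theorem YS_le (A : ℕ) (hA : ∀ (k : ℤ) (q v a b : ℕ), Squarefree q → 0 < v → k.natAbs = q * v ^ 2 →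
      0 < a → 0 < b → ‖E0 k q a b‖ ≤ YM A v (a * b))
    {k : ℤ} {q v : ℕ} (hq : Squarefree q) (hv : 0 < v) (hk : k.natAbs = q * v ^ 2)
    {η : ℝ} (h0 : 0 < η) (h1 : η ≤ 1 / 2) (x t₁ t₂ : ℝ) :
    Summable (fun b : ℕ × ℕ => YM A v (b.1 * b.2) * ((b.1 : ℝ) * b.2) ^ (-(1 / 2) : ℝ) *
      ‖LS3 (LfL η q) (LfL η q) (mA η) (mA η) (mR η) (x + η - Real.log b.1) (x + η - Real.log b.2)
        t₁ t₂‖) ∧
    ‖YS k q x t₁ t₂‖ ≤ Real.exp (2 * η * x + η ^ 2) *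
      ∑' b : ℕ × ℕ, YM A v (b.1 * b.2) * ((b.1 : ℝ) * b.2) ^ (-(1 / 2) : ℝ) *
      ‖LS3 (LfL η q) (LfL η q) (mA η) (mA η) (mR η) (x + η - Real.log b.1) (x + η - Real.log b.2)
        t₁ t₂‖ := by
  have hL := LfL_cont hq η
  obtain ⟨K, hK0, hK⟩ := LfL_growth hq (κ := 1) one_pos
  have hK' : ∀ z, ‖LfL η q z‖ ≤ K * Real.exp |z| := fun z => by
    simpa using hK η z h0.le (by linarith)
  obtain ⟨CM, BM, hCM, hMle⟩ := yid_M_le h0.le h1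
  have hMc := yid_M_cont h0.le h1
  obtain ⟨h, hh, hhb⟩ := yid_int hK' hCM hMle t₁ t₂
  obtain ⟨h', hh', hhb'⟩ := yid_int (M := fun _ => 1) (C := 1) (B := 0) hK' zero_le_one
    (fun _ => by simp) t₁ t₂
  have hLS : ∀ y₁ y₂, ‖LS3 (LfL η q) (LfL η q) (mA η) (mA η) (mR η) y₁ y₂ t₁ t₂‖ ≤ ∫ z, h z := by
    intro y₁ y₂
    exact norm_integral_le_of_norm_le hh (Filter.Eventually.of_forall (fun z => hhb y₁ y₂ z))
  obtain ⟨CY, AY, hCY, hYM⟩ := YM_norm A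
  have hY0 : ∀ b : ℕ × ℕ, 0 ≤ YM A v (b.1 * b.2) * ((b.1 : ℝ) * b.2) ^ (-(1 / 2) : ℝ) := fun b =>
    mul_nonneg (YM_nonneg _ _ _) (by positivity)
  have hsum : Summable (fun b : ℕ × ℕ => YM A v (b.1 * b.2) * ((b.1 : ℝ) * b.2) ^ (-(1 / 2) : ℝ) *
      ‖LS3 (LfL η q) (LfL η q) (mA η) (mA η) (mR η) (x + η - Real.log b.1) (x + η - Real.log b.2)
        t₁ t₂‖) := by
    refine Summable.of_nonneg_of_le (fun b => mul_nonneg (hY0 b) (norm_nonneg _)) (fun b => ?_)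
      ((hYM v hv).1.mul_right (∫ z, h z))
    exact mul_le_mul_of_nonneg_left (hLS _ _) (hY0 b)
  refine ⟨hsum, ?_⟩
  set c0 : ℝ := Real.exp (η * x + η ^ 2 / 2) / Real.sqrt (2 * Real.pi) with hc0
  have hc2 : c0 ^ 2 ≤ Real.exp (2 * η * x + η ^ 2) := by
    rw [hc0, div_pow, Real.sq_sqrt (by positivity), ← Real.exp_nat_mul]
    have e : ((2 : ℕ) : ℝ) * (η * x + η ^ 2 / 2) = 2 * η * x + η ^ 2 := by push_cast; ring
    rw [e]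
    refine div_le_self (Real.exp_pos _).le ?_
    linarith [Real.pi_gt_three]
  -- step 1
  have s1 : YS k q x t₁ t₂ = ((c0 ^ 2 : ℝ) : ℂ) * ∑' b : ℕ × ℕ, ∫ z : ℝ × ℝ,
      (gI (LfL η q) (x + η) t₁ z.1 * gI (LfL η q) (x + η) t₂ z.2 * 1) *
      (eps k q b.1 b.2 * ((b.1 : ℂ) ^ (-(((1 + η : ℝ) : ℂ) + z.1 * I)) *
        (b.2 : ℂ) ^ (-(((1 + η : ℝ) : ℂ) + z.2 * I)))) := by
    unfold YS
    rw [← tsum_mul_left]
    refine tsum_congr (fun b => ?_)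
    obtain ⟨b₁, b₂⟩ := b
    rcases Nat.eq_zero_or_pos b₁ with rfl | hb1
    · simp [eps]
    rcases Nat.eq_zero_or_pos b₂ with rfl | hb2
    · simp [eps]
    simp only
    rw [yid_one hq h0.le (by linarith) x t₁ hb1, yid_one hq h0.le (by linarith) x t₂ hb2]
    have e : (fun z : ℝ × ℝ => (gI (LfL η q) (x + η) t₁ z.1 * gI (LfL η q) (x + η) t₂ z.2 * 1) *
        (eps k q b₁ b₂ * ((b₁ : ℂ) ^ (-(((1 + η : ℝ) : ℂ) + z.1 * I)) *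
        (b₂ : ℂ) ^ (-(((1 + η : ℝ) : ℂ) + z.2 * I))))) =
        fun z : ℝ × ℝ => eps k q b₁ b₂ *
          ((gI (LfL η q) (x + η) t₁ z.1 * (b₁ : ℂ) ^ (-(((1 + η : ℝ) : ℂ) + z.1 * I))) *
          (gI (LfL η q) (x + η) t₂ z.2 * (b₂ : ℂ) ^ (-(((1 + η : ℝ) : ℂ) + z.2 * I)))) := by
      funext z
      ring
    rw [e, integral_const_mul, Measure.volume_eq_prod,
      integral_prod_mul (fun z : ℝ => gI (LfL η q) (x + η) t₁ z *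
        (b₁ : ℂ) ^ (-(((1 + η : ℝ) : ℂ) + z * I)))
        (fun z : ℝ => gI (LfL η q) (x + η) t₂ z * (b₂ : ℂ) ^ (-(((1 + η : ℝ) : ℂ) + z * I))),
      ← hc0, Complex.ofReal_pow]
    generalize (∫ z : ℝ, gI (LfL η q) (x + η) t₁ z * (b₁ : ℂ) ^ (-(((1 + η : ℝ) : ℂ) + z * I))) = U
    generalize (∫ z : ℝ, gI (LfL η q) (x + η) t₂ z * (b₂ : ℂ) ^ (-(((1 + η : ℝ) : ℂ) + z * I))) = V
    ring
  -- step 2
  have s2 : ∑' b : ℕ × ℕ, ∫ z : ℝ × ℝ,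
      (gI (LfL η q) (x + η) t₁ z.1 * gI (LfL η q) (x + η) t₂ z.2 * 1) *
      (eps k q b.1 b.2 * ((b.1 : ℂ) ^ (-(((1 + η : ℝ) : ℂ) + z.1 * I)) *
        (b.2 : ℂ) ^ (-(((1 + η : ℝ) : ℂ) + z.2 * I)))) =
      ∫ z : ℝ × ℝ, (gI (LfL η q) (x + η) t₁ z.1 * gI (LfL η q) (x + η) t₂ z.2 * 1) *
      ∑' b : ℕ × ℕ, (eps k q b.1 b.2 * ((b.1 : ℂ) ^ (-(((1 + η : ℝ) : ℂ) + z.1 * I)) *
        (b.2 : ℂ) ^ (-(((1 + η : ℝ) : ℂ) + z.2 * I)))) := by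
    refine yid_exch hL (M := fun _ => 1) continuous_const hh' (hhb' _ _)
      (g := fun b z => eps k q b.1 b.2 * ((b.1 : ℂ) ^ (-(((1 + η : ℝ) : ℂ) + z.1 * I)) *
        (b.2 : ℂ) ^ (-(((1 + η : ℝ) : ℂ) + z.2 * I)))) (fun b => ?_)
      (yid_eps_sum hq hv hk h0 h1) (fun b z => ?_)
    · exact continuous_const.mul (((yid_cont_pow b.1 (by linarith)).comp continuous_fst).mul
        ((yid_cont_pow b.2 (by linarith)).comp continuous_snd))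
    · rw [norm_mul, norm_mul, yid_norm_pow _ (by linarith), yid_norm_pow _ (by linarith)]
  -- step 3
  have s3 : ∫ z : ℝ × ℝ, (gI (LfL η q) (x + η) t₁ z.1 * gI (LfL η q) (x + η) t₂ z.2 * 1) *
      ∑' b : ℕ × ℕ, (eps k q b.1 b.2 * ((b.1 : ℂ) ^ (-(((1 + η : ℝ) : ℂ) + z.1 * I)) *
        (b.2 : ℂ) ^ (-(((1 + η : ℝ) : ℂ) + z.2 * I)))) =
      ∫ z : ℝ × ℝ, (gI (LfL η q) (x + η) t₁ z.1 * gI (LfL η q) (x + η) t₂ z.2 * yidM η z) *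
      ∑' b : ℕ × ℕ, (E0 k q b.1 b.2 * ((b.1 : ℂ) ^ (-(((1 / 2 + η : ℝ) : ℂ) + z.1 * I)) *
        (b.2 : ℂ) ^ (-(((1 / 2 + η : ℝ) : ℂ) + z.2 * I)))) := by
    congr 1
    funext z
    rw [yid_id hq hv hk h0 h1 z]
    ring
  have s4 : ∑' b : ℕ × ℕ, ∫ z : ℝ × ℝ,
      (gI (LfL η q) (x + η) t₁ z.1 * gI (LfL η q) (x + η) t₂ z.2 * yidM η z) *
      (E0 k q b.1 b.2 * ((b.1 : ℂ) ^ (-(((1 / 2 + η : ℝ) : ℂ) + z.1 * I)) *
        (b.2 : ℂ) ^ (-(((1 / 2 + η : ℝ) : ℂ) + z.2 * I)))) =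
      ∫ z : ℝ × ℝ, (gI (LfL η q) (x + η) t₁ z.1 * gI (LfL η q) (x + η) t₂ z.2 * yidM η z) *
      ∑' b : ℕ × ℕ, (E0 k q b.1 b.2 * ((b.1 : ℂ) ^ (-(((1 / 2 + η : ℝ) : ℂ) + z.1 * I)) *
        (b.2 : ℂ) ^ (-(((1 / 2 + η : ℝ) : ℂ) + z.2 * I)))) := by
    refine yid_exch hL hMc hh (hhb _ _)
      (g := fun b z => E0 k q b.1 b.2 * ((b.1 : ℂ) ^ (-(((1 / 2 + η : ℝ) : ℂ) + z.1 * I)) *
        (b.2 : ℂ) ^ (-(((1 / 2 + η : ℝ) : ℂ) + z.2 * I)))) (fun b => ?_)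
      (hYM v hv).1 (fun b z => ?_)
    · exact continuous_const.mul (((yid_cont_pow b.1 (by linarith)).comp continuous_fst).mul
        ((yid_cont_pow b.2 (by linarith)).comp continuous_snd))
    · rw [norm_mul, norm_mul, yid_norm_pow _ (by linarith), yid_norm_pow _ (by linarith)]
      exact yid_E0_sum A hA hq hv hk h0 b
  -- step 5: one term
  have s5 : ∀ b : ℕ × ℕ, ‖∫ z : ℝ × ℝ,
      (gI (LfL η q) (x + η) t₁ z.1 * gI (LfL η q) (x + η) t₂ z.2 * yidM η z) *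
      (E0 k q b.1 b.2 * ((b.1 : ℂ) ^ (-(((1 / 2 + η : ℝ) : ℂ) + z.1 * I)) *
        (b.2 : ℂ) ^ (-(((1 / 2 + η : ℝ) : ℂ) + z.2 * I))))‖ ≤
      YM A v (b.1 * b.2) * ((b.1 : ℝ) * b.2) ^ (-(1 / 2) : ℝ) *
      ‖LS3 (LfL η q) (LfL η q) (mA η) (mA η) (mR η) (x + η - Real.log b.1) (x + η - Real.log b.2)
        t₁ t₂‖ := by
    intro b
    refine le_trans (le_of_eq ?_) (mul_le_mul_of_nonneg_right (yid_E0_sum A hA hq hv hk h0 b)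
      (norm_nonneg _))
    obtain ⟨b₁, b₂⟩ := b
    rcases Nat.eq_zero_or_pos b₁ with rfl | hb1
    · simp [E0]
    rcases Nat.eq_zero_or_pos b₂ with rfl | hb2
    · simp [E0]
    simp only
    have e : (fun z : ℝ × ℝ => (gI (LfL η q) (x + η) t₁ z.1 * gI (LfL η q) (x + η) t₂ z.2 * yidM η z) *
        (E0 k q b₁ b₂ * ((b₁ : ℂ) ^ (-(((1 / 2 + η : ℝ) : ℂ) + z.1 * I)) *
        (b₂ : ℂ) ^ (-(((1 / 2 + η : ℝ) : ℂ) + z.2 * I))))) =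
        fun z : ℝ × ℝ => (E0 k q b₁ b₂ * ((b₁ : ℂ) ^ (-(((1 / 2 + η : ℝ) : ℂ) + t₁ * I)) *
          (b₂ : ℂ) ^ (-(((1 / 2 + η : ℝ) : ℂ) + t₂ * I)))) *
          (gI (LfL η q) (x + η - Real.log b₁) t₁ z.1 * gI (LfL η q) (x + η - Real.log b₂) t₂ z.2 *
            (mA η z.1 * mA η z.2 * mR η (z.1 + z.2))) := by
      funext z
      have e1 := yid_shift (LfL η q) (x + η) t₁ z.1 ((1 / 2 + η : ℝ) : ℂ) hb1
      have e2 := yid_shift (LfL η q) (x + η) t₂ z.2 ((1 / 2 + η : ℝ) : ℂ) hb2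
      unfold yidM
      calc _ = E0 k q b₁ b₂ * ((gI (LfL η q) (x + η) t₁ z.1 *
            (b₁ : ℂ) ^ (-(((1 / 2 + η : ℝ) : ℂ) + z.1 * I))) *
            (gI (LfL η q) (x + η) t₂ z.2 * (b₂ : ℂ) ^ (-(((1 / 2 + η : ℝ) : ℂ) + z.2 * I)))) *
            (mA η z.1 * mA η z.2 * mR η (z.1 + z.2)) := by ring
        _ = _ := by rw [e1, e2]; ring
    rw [e, integral_const_mul, norm_mul, norm_mul, norm_mul, yid_norm_pow _ (by linarith),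
      yid_norm_pow _ (by linarith)]
    rfl
  rw [s1, s2, s3, ← s4, norm_mul, Complex.norm_real, Real.norm_of_nonneg (by positivity)]
  refine mul_le_mul hc2 ?_ (norm_nonneg _) (Real.exp_pos _).le
  exact tsum_of_norm_bounded hsum.hasSum s5

end Pool.Agent.CZ
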