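import Mathlib
import Pool.Agent.CZ.IDefs
import Pool.Agent.CZ.IYID
import Pool.Agent.CZ.IM3
import Pool.Agent.CZ.IMUL
import Pool.Agent.CZ.IBINT
import Pool.Agent.CZ.IE0M
import Pool.Agent.CZ.IE0N

/-!
# Critical zeros (MP_553913_nt), part (I): moment of `YS`
-/

set_option autoImplicit false

open Complex Finset MeasureTheory

namespace Pool.Agent.CZ

open Pool.Agent.H5 (c bd)
open Pool.Agent.ZD (S Lf gk eps MM tau)
open Pool.Agent.CZ.Inp (lam A2 R1)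

theorem vs_exp (x : ℝ) : 0 < 1 / (2 + |x|) ∧ 1 / (2 + |x|) ≤ 1 / 2 ∧
    Real.exp (2 * (1 / (2 + |x|)) * x + (1 / (2 + |x|)) ^ 2) ≤ Real.exp 3 := by
  have hx := abs_nonneg x
  have h0 : 0 < 1 / (2 + |x|) := by positivity
  have h1 : 1 / (2 + |x|) ≤ 1 / 2 := one_div_le_one_div_of_le (by norm_num) (by linarith)
  refine ⟨h0, h1, Real.exp_le_exp.mpr ?_⟩
  have h2 : 1 / (2 + |x|) * x ≤ 1 := by
    rw [one_div_mul_eq_div, div_le_one (by linarith)]
    have := le_abs_self x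
    linarith
  nlinarith

theorem VS : ∃ A' : ℕ, ∀ (a : ℝ), 0 ≤ a → HypE a → ∀ κ : ℝ, 0 < κ → ∃ C : ℝ, 0 < C ∧
    ∀ (X x t₁ t₂ : ℝ) (v : ℕ) (u : ℤ), 3 ≤ X → 0 < v → (u = 1 ∨ u = -1) →
    ∑ q ∈ sqf X, ‖YS (u * (q * v ^ 2 : ℕ)) q x t₁ t₂‖ ≤ C * (v.divisors.card : ℝ) ^ A' * X *
      (Real.log X) ^ a * Real.exp (κ * (|t₁| + |t₂|)) := by
  obtain ⟨A, hA⟩ := E0_le
  obtain ⟨C₁, A', hC₁, hYM⟩ := YM_norm A
  obtain ⟨C₀, A₀, hC₀, hmul⟩ := mul_bound
  refine ⟨A', fun a ha hE κ hκ => ?_⟩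
  obtain ⟨C₂, hC₂, hGt⟩ := Gt_sum ha hE κ hκ
  obtain ⟨C₃, hC₃, hM3⟩ := M3 (κ / 2) (by positivity) C₀ A₀
  refine ⟨Real.exp 3 * C₁ * C₃ * C₂, by positivity, fun X x t₁ t₂ v u hX hv hu => ?_⟩
  obtain ⟨h0, h1, h2⟩ := vs_exp x
  set η : ℝ := 1 / (2 + |x|) with hη
  have hlog : 0 ≤ Real.log X := Real.log_nonneg (by linarith)
  have hSn : 0 ≤ C₂ * X * (Real.log X) ^ a := by positivity
  have hsq : ∀ q ∈ sqf X, Squarefree q := fun q hq => (Finset.mem_filter.mp hq).2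
  have hk : ∀ q : ℕ, (u * (q * v ^ 2 : ℕ)).natAbs = q * v ^ 2 := by
    intro q
    rw [Int.natAbs_mul, Int.natAbs_natCast]
    rcases hu with rfl | rfl <;> simp
  -- the multiplier lemma
  have hm : ∀ x₁ x₂ : ℝ, ∑ q ∈ sqf X, ‖LS3 (LfL η q) (LfL η q) (mA η) (mA η) (mR η) x₁ x₂ t₁ t₂‖ ≤
      C₃ * (C₂ * X * (Real.log X) ^ a) * Real.exp (κ * (|t₁| + |t₂|)) := by
    intro x₁ x₂
    have hg : ∀ i ∈ sqf X, Continuous (LfL η i) ∧ ∃ K : ℝ, ∀ v, ‖LfL η i v‖ ≤ K * Real.exp |v| := by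
      intro i hi
      refine ⟨LfL_cont (hsq i hi) η, ?_⟩
      obtain ⟨K, _, hK⟩ := LfL_growth (hsq i hi) (κ := 1) one_pos
      refine ⟨K, fun v => ?_⟩
      have := hK η v h0.le (by linarith)
      rwa [one_mul] at this
    have := hM3 (mA η) (mA η) (mR η) (hmul η h0.le h1).1 (hmul η h0.le h1).1 (hmul η h0.le h1).2
      (sqf X) (fun q => LfL η q) (fun q => LfL η q) (C₂ * X * (Real.log X) ^ a) hg hg (by
        intro y y' s s'
        calc ∑ i ∈ sqf X, ‖Gt (LfL η i) y s‖ * ‖Gt (LfL η i) y' s'‖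
            ≤ Real.sqrt (∑ i ∈ sqf X, ‖Gt (LfL η i) y s‖ ^ 2) *
              Real.sqrt (∑ i ∈ sqf X, ‖Gt (LfL η i) y' s'‖ ^ 2) := by
              exact Real.sum_mul_le_sqrt_mul_sqrt _ _ _
          _ ≤ Real.sqrt (C₂ * X * (Real.log X) ^ a * Real.exp (κ * |s|)) *
              Real.sqrt (C₂ * X * (Real.log X) ^ a * Real.exp (κ * |s'|)) :=
              mul_le_mul (Real.sqrt_le_sqrt (hGt X η y s hX h0.le h1))
                (Real.sqrt_le_sqrt (hGt X η y' s' hX h0.le h1)) (Real.sqrt_nonneg _)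
                (Real.sqrt_nonneg _)
          _ = C₂ * X * (Real.log X) ^ a * Real.exp (κ / 2 * (|s| + |s'|)) := by
              rw [← Real.sqrt_mul (by positivity)]
              have : C₂ * X * (Real.log X) ^ a * Real.exp (κ * |s|) *
                  (C₂ * X * (Real.log X) ^ a * Real.exp (κ * |s'|)) =
                  (C₂ * X * (Real.log X) ^ a * Real.exp (κ / 2 * (|s| + |s'|))) ^ 2 := by
                have h3 : Real.exp (κ * |s|) * Real.exp (κ * |s'|) =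
                    Real.exp (κ / 2 * (|s| + |s'|)) ^ 2 := by
                  rw [← Real.exp_add, ← Real.exp_nat_mul]
                  congr 1
                  push_cast
                  ring
                rw [mul_pow, ← h3]
                ring
              rw [this, Real.sqrt_sq (by positivity)]) x₁ x₂ t₁ t₂
    have e : (2 * (κ / 2) * (|t₁| + |t₂|)) = κ * (|t₁| + |t₂|) := by ring
    rwa [e] at this
  -- the bound for one `q`
  have hq : ∀ q ∈ sqf X, _ := fun q hq => YS_le A hA (hsq q hq) hv (hk q) h0 h1 x t₁ t₂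
  obtain ⟨hYs, hYb⟩ := hYM v hv
  calc ∑ q ∈ sqf X, ‖YS (u * (q * v ^ 2 : ℕ)) q x t₁ t₂‖
      ≤ ∑ q ∈ sqf X, Real.exp (2 * η * x + η ^ 2) *
        ∑' b : ℕ × ℕ, YM A v (b.1 * b.2) * ((b.1 : ℝ) * b.2) ^ (-(1 / 2) : ℝ) *
        ‖LS3 (LfL η q) (LfL η q) (mA η) (mA η) (mR η) (x + η - Real.log b.1) (x + η - Real.log b.2)
          t₁ t₂‖ := Finset.sum_le_sum fun q hq' => (hq q hq').2
    _ = Real.exp (2 * η * x + η ^ 2) * ∑' b : ℕ × ℕ, ∑ q ∈ sqf X,
        YM A v (b.1 * b.2) * ((b.1 : ℝ) * b.2) ^ (-(1 / 2) : ℝ) *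
        ‖LS3 (LfL η q) (LfL η q) (mA η) (mA η) (mR η) (x + η - Real.log b.1) (x + η - Real.log b.2)
          t₁ t₂‖ := by
        rw [← Finset.mul_sum, Summable.tsum_finsetSum (fun q hq' => (hq q hq').1)]
    _ ≤ Real.exp 3 * ∑' b : ℕ × ℕ, YM A v (b.1 * b.2) * ((b.1 : ℝ) * b.2) ^ (-(1 / 2) : ℝ) *
        (C₃ * (C₂ * X * (Real.log X) ^ a) * Real.exp (κ * (|t₁| + |t₂|))) := by
        have hterm : ∀ b : ℕ × ℕ, ∑ q ∈ sqf X,
            YM A v (b.1 * b.2) * ((b.1 : ℝ) * b.2) ^ (-(1 / 2) : ℝ) *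
            ‖LS3 (LfL η q) (LfL η q) (mA η) (mA η) (mR η) (x + η - Real.log b.1)
              (x + η - Real.log b.2) t₁ t₂‖ ≤
            YM A v (b.1 * b.2) * ((b.1 : ℝ) * b.2) ^ (-(1 / 2) : ℝ) *
            (C₃ * (C₂ * X * (Real.log X) ^ a) * Real.exp (κ * (|t₁| + |t₂|))) := by
          intro b
          rw [← Finset.mul_sum]
          exact mul_le_mul_of_nonneg_left (hm _ _)
            (mul_nonneg (YM_nonneg _ _ _) (Real.rpow_nonneg (by positivity) _))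
        refine mul_le_mul h2 (Summable.tsum_le_tsum hterm
          (summable_sum fun q hq' => (hq q hq').1) (hYs.mul_right _)) ?_ (Real.exp_nonneg _)
        exact tsum_nonneg fun b => Finset.sum_nonneg fun q _ => mul_nonneg
          (mul_nonneg (YM_nonneg _ _ _) (Real.rpow_nonneg (by positivity) _)) (norm_nonneg _)
    _ = Real.exp 3 * (∑' b : ℕ × ℕ, YM A v (b.1 * b.2) * ((b.1 : ℝ) * b.2) ^ (-(1 / 2) : ℝ)) *
        (C₃ * (C₂ * X * (Real.log X) ^ a) * Real.exp (κ * (|t₁| + |t₂|))) := by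
        rw [tsum_mul_right]
        ring
    _ ≤ Real.exp 3 * (C₁ * (v.divisors.card : ℝ) ^ A') *
        (C₃ * (C₂ * X * (Real.log X) ^ a) * Real.exp (κ * (|t₁| + |t₂|))) := by
        refine mul_le_mul_of_nonneg_right (mul_le_mul_of_nonneg_left hYb (Real.exp_nonneg _)) ?_
        positivity
    _ = _ := by ring

end Pool.Agent.CZ
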