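import Mathlib
import Pool.Agent.CZ.IDefs
import Pool.Agent.CZ.IPTERM
import Pool.Agent.CZ.IVS
import Pool.Agent.ZD.K1
import Pool.Agent.ZD.K2
import Pool.Agent.ZD.O

/-!
# Part (I), module DU: the dual sum over all frequencies
-/

set_option autoImplicit false

open Complex Finset MeasureTheory

namespace Pool.Agent.CZ

open Pool.Agent.ZD (K1_integral_exp_abs K1_integrable_exp_abs)

/-! ### a dyadic summation lemma -/

theorem du_mem_sqf {X : ℝ} {q : ℕ} (hq : Squarefree q) (h : (q : ℝ) ≤ X) : q ∈ sqf X := by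
  unfold sqf
  rw [Finset.mem_filter, Finset.mem_Icc]
  exact ⟨⟨Nat.pos_of_ne_zero hq.ne_zero, Nat.le_floor h⟩, hq⟩

theorem du_sqf_sub {X Y : ℝ} (h : X ≤ Y) : sqf X ⊆ sqf Y := by
  unfold sqf
  apply Finset.filter_subset_filter
  exact Finset.Icc_subset_Icc_right (Nat.floor_le_floor h)

theorem du_sqf_lt_one {X : ℝ} (h : X < 1) : sqf X = ∅ := by
  unfold sqf
  rw [Nat.floor_eq_zero.mpr h]
  rfl

/-- bound for the partial sums -/
theorem du_part {a B Y L : ℝ} (ha : 0 ≤ a) (hB : 0 ≤ B) (hY : 0 < Y) (w : ℕ → ℝ)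
    (hw : ∀ q, 0 ≤ w q) (h : ∀ X : ℝ, 3 ≤ X → ∑ q ∈ sqf X, w q ≤ B * X * (Real.log X) ^ a)
    (hL0 : 0 ≤ L) (hL : Real.log (3 * Y) ≤ L) : ∑ q ∈ sqf Y, w q ≤ 3 * B * Y * L ^ a := by
  rcases lt_or_ge Y 1 with h1 | h1
  · rw [du_sqf_lt_one h1, Finset.sum_empty]
    positivity
  · have h3 := h (3 * Y) (by linarith)
    have h4 : ∑ q ∈ sqf Y, w q ≤ ∑ q ∈ sqf (3 * Y), w q :=
      Finset.sum_le_sum_of_subset_of_nonneg (du_sqf_sub (by linarith)) (fun q _ _ => hw q)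
    have h5 : 0 ≤ Real.log (3 * Y) := Real.log_nonneg (by linarith)
    have h6 : (Real.log (3 * Y)) ^ a ≤ L ^ a := Real.rpow_le_rpow h5 hL ha
    calc _ ≤ _ := h4
      _ ≤ _ := h3
      _ ≤ B * (3 * Y) * L ^ a := by gcongr
      _ = _ := by ring

/-- pointwise decomposition into dyadic levels -/
theorem du_point {K : ℝ} (hK : 0 < K) {q J : ℕ} (hq : 1 ≤ q) (h1 : K < 2 ^ J)
    (h2 : (q : ℝ) ≤ K * 2 ^ J) {w₁ w₂ : ℝ} (hw1 : 0 ≤ w₁) (hw2 : 0 ≤ w₂) :
    min (Real.sqrt (K / q) * w₁) ((K / q) ^ 2 * w₂) ≤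
      ∑ j ∈ range J, (if (q : ℝ) ≤ K / 2 ^ j then Real.sqrt 2 ^ (j + 1) * w₁ else 0) +
      ∑ j ∈ range J, (if (q : ℝ) ≤ K * 2 ^ (j + 1) then (1 / 4) ^ j * w₂ else 0) := by
  have hqR : (1 : ℝ) ≤ q := by exact_mod_cast hq
  have n1 : ∀ j ∈ range J, (0 : ℝ) ≤ (if (q : ℝ) ≤ K / 2 ^ j then Real.sqrt 2 ^ (j + 1) * w₁ else 0) := by
    intro j _; split_ifs <;> positivity
  have n2 : ∀ j ∈ range J, (0 : ℝ) ≤ (if (q : ℝ) ≤ K * 2 ^ (j + 1) then (1 / 4) ^ j * w₂ else 0) := by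
    intro j _; split_ifs <;> positivity
  rcases le_or_gt (q : ℝ) K with hle | hgt
  · have hex : ∃ m : ℕ, ¬ ((q : ℝ) ≤ K / 2 ^ m) := ⟨J, by
      rw [not_le, div_lt_iff₀ (by positivity)]
      have : (0 : ℝ) < 2 ^ J := by positivity
      nlinarith⟩
    classical
    set m := Nat.find hex with hm
    have hm1 := Nat.find_spec hex
    have hm0 : m ≠ 0 := by
      intro h0
      rw [← hm, h0] at hm1
      exact hm1 (by simpa using hle)
    obtain ⟨j, hj⟩ := Nat.exists_eq_succ_of_ne_zero hm0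
    have hj1 : (q : ℝ) ≤ K / 2 ^ j := by
      by_contra hcon
      have := Nat.find_min' hex hcon
      omega
    have hjJ : j < J := by
      by_contra hcon
      have h3 : (J : ℕ) ≤ j := by omega
      have h4 : (2 : ℝ) ^ J ≤ 2 ^ j := pow_le_pow_right₀ (by norm_num) h3
      rw [le_div_iff₀ (by positivity)] at hj1
      have : (2 : ℝ) ^ j ≤ q * 2 ^ j := le_mul_of_one_le_left (by positivity) hqR
      linarith
    have h5 : K / q ≤ 2 ^ (j + 1) := by
      rw [← hm, hj, not_le, div_lt_iff₀ (by positivity)] at hm1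
      rw [div_le_iff₀ (by linarith)]
      have := hm1.le
      rw [Nat.succ_eq_add_one, mul_comm] at this
      exact this
    have h6 : Real.sqrt (K / q) ≤ Real.sqrt 2 ^ (j + 1) := by
      rw [Real.sqrt_le_left (by positivity), ← pow_mul, mul_comm, pow_mul, Real.sq_sqrt (by norm_num)]
      exact h5
    have h7 := Finset.single_le_sum n1 (Finset.mem_range.mpr hjJ)
    rw [if_pos hj1] at h7
    have h8 := Finset.sum_nonneg n2
    calc _ ≤ Real.sqrt (K / q) * w₁ := min_le_left _ _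
      _ ≤ Real.sqrt 2 ^ (j + 1) * w₁ := by gcongr
      _ ≤ _ := by linarith
  · have hex : ∃ m : ℕ, (q : ℝ) ≤ K * 2 ^ m := ⟨J, h2⟩
    classical
    set m := Nat.find hex with hm
    have hm1 := Nat.find_spec hex
    have hm0 : m ≠ 0 := by
      intro h0
      rw [← hm, h0] at hm1
      simp at hm1
      linarith
    obtain ⟨j, hj⟩ := Nat.exists_eq_succ_of_ne_zero hm0
    rw [← hm, hj, Nat.succ_eq_add_one] at hm1
    have hj1 : K * 2 ^ j < q := by
      by_contra hcon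
      have := Nat.find_min' hex (not_lt.mp hcon)
      omega
    have hjJ : j < J := by
      have := Nat.find_min' hex h2
      omega
    have h5 : K / q ≤ (1 / 2) ^ j := by
      rw [div_le_iff₀ (by linarith), one_div, inv_pow, inv_mul_eq_div, le_div_iff₀ (by positivity)]
      exact hj1.le
    have h6 : (K / q) ^ 2 ≤ (1 / 4) ^ j := by
      calc (K / q) ^ 2 ≤ ((1 / 2) ^ j) ^ 2 := by gcongr
        _ = (1 / 4) ^ j := by rw [← pow_mul, mul_comm, pow_mul]; norm_num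
    have h7 := Finset.single_le_sum n2 (Finset.mem_range.mpr hjJ)
    rw [if_pos hm1] at h7
    have h8 := Finset.sum_nonneg n1
    calc _ ≤ (K / q) ^ 2 * w₂ := min_le_right _ _
      _ ≤ (1 / 4) ^ j * w₂ := by gcongr
      _ ≤ _ := by linarith

/-- the dyadic summation lemma -/
theorem du_dyadic {a : ℝ} (ha : 0 ≤ a) : ∃ C : ℝ, 0 < C ∧ ∀ (B K : ℝ) (w₁ w₂ : ℕ → ℝ), 0 ≤ B →
    0 < K → (∀ q, 0 ≤ w₁ q) → (∀ q, 0 ≤ w₂ q) →
    (∀ X : ℝ, 3 ≤ X → ∑ q ∈ sqf X, w₁ q ≤ B * X * (Real.log X) ^ a) →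
    (∀ X : ℝ, 3 ≤ X → ∑ q ∈ sqf X, w₂ q ≤ B * X * (Real.log X) ^ a) → ∀ u : Finset ℕ,
    ∑ q ∈ u, (if Squarefree q then min (Real.sqrt (K / q) * w₁ q) ((K / q) ^ 2 * w₂ q) else 0) ≤
      C * B * K * (Real.log (3 + K)) ^ a := by
  have hs1 : Summable (fun j : ℕ => Real.sqrt 2 ^ (j + 1) * (1 / 2 : ℝ) ^ j) := by
    have : (fun j : ℕ => Real.sqrt 2 ^ (j + 1) * (1 / 2 : ℝ) ^ j) =
        fun j : ℕ => Real.sqrt 2 * (Real.sqrt 2 / 2) ^ j := by
      funext j; rw [div_pow, div_pow, one_pow, pow_succ]; ring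
    rw [this]
    apply Summable.mul_left
    apply summable_geometric_of_lt_one (by positivity)
    rw [div_lt_one (by norm_num)]
    have := Real.sqrt_lt_sqrt (by norm_num) (show (2 : ℝ) < 4 by norm_num)
    rwa [show (4 : ℝ) = 2 ^ 2 by norm_num, Real.sqrt_sq (by norm_num)] at this
  obtain ⟨n, hn⟩ := exists_nat_ge a
  have hs2 : Summable (fun j : ℕ => (1 / 2 : ℝ) ^ j * ((j : ℝ) + 2) ^ a) := by
    have h1 : Summable (fun j : ℕ => ((j : ℝ)) ^ n * (1 / 2 : ℝ) ^ j) :=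
      summable_pow_mul_geometric_of_norm_lt_one n (by norm_num)
    have h2 : Summable (fun j : ℕ => (((j + 2 : ℕ) : ℝ)) ^ n * (1 / 2 : ℝ) ^ (j + 2)) :=
      (summable_nat_add_iff 2).mpr h1
    refine Summable.of_nonneg_of_le (fun j => by positivity) (fun j => ?_) (h2.mul_left 4)
    have h3 : ((j : ℝ) + 2) ^ a ≤ ((j : ℝ) + 2) ^ (n : ℝ) :=
      Real.rpow_le_rpow_of_exponent_le (by linarith [(Nat.cast_nonneg j : (0:ℝ) ≤ j)]) hn
    rw [Real.rpow_natCast] at h3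
    calc (1 / 2 : ℝ) ^ j * ((j : ℝ) + 2) ^ a ≤ (1 / 2 : ℝ) ^ j * ((j : ℝ) + 2) ^ n := by gcongr
      _ = _ := by push_cast; rw [pow_add]; ring
  set S1 := ∑' j : ℕ, Real.sqrt 2 ^ (j + 1) * (1 / 2 : ℝ) ^ j with hS1
  set S2 := ∑' j : ℕ, (1 / 2 : ℝ) ^ j * ((j : ℝ) + 2) ^ a with hS2
  have hS1n : 0 ≤ S1 := tsum_nonneg (fun j => by positivity)
  have hS2n : 0 ≤ S2 := tsum_nonneg (fun j => by positivity)
  refine ⟨(3 * S1 + 6 * S2) * 2 ^ a + 1, by positivity, ?_⟩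
  intro B K w₁ w₂ hB hK hw1 hw2 h1 h2 u
  set L := Real.log (3 + 3 * K) with hL
  have hL1 : 1 ≤ L := by
    have h3 : Real.exp 1 ≤ 3 + 3 * K := by linarith [Real.exp_one_lt_d9]
    have := Real.log_le_log (Real.exp_pos 1) h3
    rwa [Real.log_exp] at this
  obtain ⟨J, hJ1, hJ2⟩ : ∃ J : ℕ, K < 2 ^ J ∧ ∀ q ∈ u, (q : ℝ) ≤ K * 2 ^ J := by
    obtain ⟨J, hJ⟩ := pow_unbounded_of_one_lt (K + (u.sup id : ℕ) / K) (show (1 : ℝ) < 2 by norm_num)
    have hsup : (0 : ℝ) ≤ (u.sup id : ℕ) / K := by positivity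
    refine ⟨J, by linarith, fun q hq => ?_⟩
    have h3 : (q : ℝ) ≤ (u.sup id : ℕ) := by exact_mod_cast Finset.le_sup (f := id) hq
    have h4 : ((u.sup id : ℕ) : ℝ) / K ≤ 2 ^ J := by linarith
    rw [div_le_iff₀ hK] at h4
    linarith
  have p1 : ∀ j : ℕ, ∑ q ∈ sqf (K / 2 ^ j), w₁ q ≤ 3 * B * (K / 2 ^ j) * L ^ a := by
    intro j
    refine du_part ha hB (by positivity) w₁ hw1 h1 (by linarith) ?_
    apply Real.log_le_log (by positivity)
    have : K / 2 ^ j ≤ K := div_le_self hK.le (one_le_pow₀ (by norm_num))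
    linarith
  have p2 : ∀ j : ℕ, ∑ q ∈ sqf (K * 2 ^ (j + 1)), w₂ q ≤
      3 * B * (K * 2 ^ (j + 1)) * (L * ((j : ℝ) + 2)) ^ a := by
    intro j
    refine du_part ha hB (by positivity) w₂ hw2 h2 (by positivity) ?_
    have h3 : Real.log (3 * (K * 2 ^ (j + 1))) = Real.log (3 * K) + (j + 1) * Real.log 2 := by
      rw [← mul_assoc, Real.log_mul (by positivity) (by positivity), Real.log_pow]
      push_cast; ring
    have h4 : Real.log (3 * K) ≤ L := Real.log_le_log (by positivity) (by linarith)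
    have h5 : Real.log 2 ≤ 1 := by linarith [Real.log_two_lt_d9]
    have h6 : (0 : ℝ) ≤ j := Nat.cast_nonneg j
    rw [h3]
    nlinarith
  have key : ∀ q ∈ u, (if Squarefree q then min (Real.sqrt (K / q) * w₁ q) ((K / q) ^ 2 * w₂ q)
      else 0) ≤ ∑ j ∈ range J, (if Squarefree q ∧ (q : ℝ) ≤ K / 2 ^ j then
        Real.sqrt 2 ^ (j + 1) * w₁ q else 0) + ∑ j ∈ range J,
        (if Squarefree q ∧ (q : ℝ) ≤ K * 2 ^ (j + 1) then (1 / 4) ^ j * w₂ q else 0) := by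
    intro q hq
    by_cases hs : Squarefree q
    · rw [if_pos hs]
      have := du_point hK (Nat.pos_of_ne_zero hs.ne_zero) hJ1 (hJ2 q hq) (hw1 q) (hw2 q)
      simpa [hs] using this
    · rw [if_neg hs]
      simp [hs]
  refine (Finset.sum_le_sum key).trans ?_
  rw [Finset.sum_add_distrib, Finset.sum_comm (s := u), Finset.sum_comm (s := u)]
  have b1 : ∀ j ∈ range J, ∑ q ∈ u, (if Squarefree q ∧ (q : ℝ) ≤ K / 2 ^ j then
      Real.sqrt 2 ^ (j + 1) * w₁ q else 0) ≤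
      3 * B * K * L ^ a * (Real.sqrt 2 ^ (j + 1) * (1 / 2 : ℝ) ^ j) := by
    intro j _
    rw [← Finset.sum_filter]
    calc ∑ q ∈ u.filter (fun q : ℕ => Squarefree q ∧ (q : ℝ) ≤ K / 2 ^ j), Real.sqrt 2 ^ (j + 1) * w₁ q
        ≤ ∑ q ∈ sqf (K / 2 ^ j), Real.sqrt 2 ^ (j + 1) * w₁ q := by
          apply Finset.sum_le_sum_of_subset_of_nonneg
          · intro q hq
            rw [Finset.mem_filter] at hq
            exact du_mem_sqf hq.2.1 hq.2.2
          · intro q _ _; exact mul_nonneg (by positivity) (hw1 q)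
      _ = Real.sqrt 2 ^ (j + 1) * ∑ q ∈ sqf (K / 2 ^ j), w₁ q := by rw [Finset.mul_sum]
      _ ≤ Real.sqrt 2 ^ (j + 1) * (3 * B * (K / 2 ^ j) * L ^ a) := by
          apply mul_le_mul_of_nonneg_left (p1 j) (by positivity)
      _ = _ := by rw [div_pow (1 : ℝ) 2 j, one_pow]; ring
  have b2 : ∀ j ∈ range J, ∑ q ∈ u, (if Squarefree q ∧ (q : ℝ) ≤ K * 2 ^ (j + 1) then
      (1 / 4) ^ j * w₂ q else 0) ≤ 6 * B * K * L ^ a * ((1 / 2 : ℝ) ^ j * ((j : ℝ) + 2) ^ a) := by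
    intro j _
    rw [← Finset.sum_filter]
    calc ∑ q ∈ u.filter (fun q : ℕ => Squarefree q ∧ (q : ℝ) ≤ K * 2 ^ (j + 1)), (1 / 4) ^ j * w₂ q
        ≤ ∑ q ∈ sqf (K * 2 ^ (j + 1)), (1 / 4) ^ j * w₂ q := by
          apply Finset.sum_le_sum_of_subset_of_nonneg
          · intro q hq
            rw [Finset.mem_filter] at hq
            exact du_mem_sqf hq.2.1 hq.2.2
          · intro q _ _; exact mul_nonneg (by positivity) (hw2 q)
      _ = (1 / 4) ^ j * ∑ q ∈ sqf (K * 2 ^ (j + 1)), w₂ q := by rw [Finset.mul_sum]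
      _ ≤ (1 / 4) ^ j * (3 * B * (K * 2 ^ (j + 1)) * (L * ((j : ℝ) + 2)) ^ a) := by
          apply mul_le_mul_of_nonneg_left (p2 j) (by positivity)
      _ = _ := by
          have e5 : (1 / 2 : ℝ) ^ j * 2 ^ j = 1 := by rw [← mul_pow]; norm_num
          rw [Real.mul_rpow (by linarith) (by positivity), pow_succ,
            show (1 / 4 : ℝ) ^ j = (1 / 2) ^ j * (1 / 2) ^ j by rw [← mul_pow]; norm_num]
          calc _ = 6 * B * K * L ^ a * ((1 / 2 : ℝ) ^ j * ((j : ℝ) + 2) ^ a) *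
                ((1 / 2 : ℝ) ^ j * 2 ^ j) := by ring
            _ = _ := by rw [e5, mul_one]
  have c1 := Finset.sum_le_sum b1
  have c2 := Finset.sum_le_sum b2
  rw [← Finset.mul_sum] at c1 c2
  have d1 : ∑ j ∈ range J, Real.sqrt 2 ^ (j + 1) * (1 / 2 : ℝ) ^ j ≤ S1 :=
    hs1.sum_le_tsum _ (fun j _ => by positivity)
  have d2 : ∑ j ∈ range J, (1 / 2 : ℝ) ^ j * ((j : ℝ) + 2) ^ a ≤ S2 :=
    hs2.sum_le_tsum _ (fun j _ => by positivity)
  have hLa : 0 ≤ L ^ a := by positivity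
  have e1 : L ^ a ≤ 2 ^ a * (Real.log (3 + K)) ^ a := by
    rw [← Real.mul_rpow (by norm_num) (Real.log_nonneg (by linarith))]
    apply Real.rpow_le_rpow (by linarith) _ ha
    have : (2 : ℝ) * Real.log (3 + K) = Real.log ((3 + K) ^ 2) := by rw [Real.log_pow]; push_cast; ring
    rw [this]
    apply Real.log_le_log (by positivity)
    nlinarith
  have hlog0 : 0 ≤ (Real.log (3 + K)) ^ a := Real.rpow_nonneg (Real.log_nonneg (by linarith)) _
  calc _ ≤ 3 * B * K * L ^ a * S1 + 6 * B * K * L ^ a * S2 := by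
        refine add_le_add (c1.trans ?_) (c2.trans ?_)
        · exact mul_le_mul_of_nonneg_left d1 (by positivity)
        · exact mul_le_mul_of_nonneg_left d2 (by positivity)
    _ = (3 * S1 + 6 * S2) * (B * K) * L ^ a := by ring
    _ ≤ (3 * S1 + 6 * S2) * (B * K) * (2 ^ a * (Real.log (3 + K)) ^ a) := by gcongr
    _ ≤ _ := by
        have : 0 ≤ B * K * (Real.log (3 + K)) ^ a := by positivity
        nlinarith

/-! ### the weights -/

/-- weight in the dual sum -/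
noncomputable def duW (s : ℝ) (k : ℤ) (q : ℕ) (x t : ℝ) : ℝ :=
  ∫ τ : ℝ, Real.exp (-|τ|) * ‖YS k q (x + s) (t - 2 * τ) (-t - 2 * τ)‖

theorem duW_nonneg (s : ℝ) (k : ℤ) (q : ℕ) (x t : ℝ) : 0 ≤ duW s k q x t :=
  integral_nonneg (fun τ => by positivity)

theorem duW_int {s : ℝ} (hs : s = 0 ∨ s = 3 / 2) {k : ℤ} (hk : k ≠ 0) (q : ℕ) (x t : ℝ) :
    Integrable (fun τ : ℝ => Real.exp (-|τ|) * ‖YS k q (x + s) (t - 2 * τ) (-t - 2 * τ)‖) := by
  rcases hs with rfl | rfl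
  · obtain ⟨C, _, H⟩ := P_term (σ := 1 / 4) (by norm_num)
    have := (H k q 1 x t hk one_pos).1
    rwa [show (2 * (1 / 4) - 1 / 2 : ℝ) = 0 by norm_num] at this
  · obtain ⟨C, _, H⟩ := P_term (σ := 1) (by norm_num)
    have := (H k q 1 x t hk one_pos).1
    rwa [show (2 * 1 - 1 / 2 : ℝ) = 3 / 2 by norm_num] at this

theorem du_term : ∃ C : ℝ, 0 < C ∧ ∀ (k : ℤ) (q : ℕ) (Z x t : ℝ), k ≠ 0 → 0 < Z →
    ‖PK k Z x t‖ ≤ C * Real.exp (-x) *
      min (Real.sqrt (Real.exp (2 * x) / Z / |(k : ℝ)|) * duW 0 k q x t)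
        ((Real.exp (2 * x) / Z / |(k : ℝ)|) ^ 2 * duW (3 / 2) k q x t) := by
  obtain ⟨C1, hC1, H1⟩ := P_term (σ := 1 / 4) (by norm_num)
  obtain ⟨C2, hC2, H2⟩ := P_term (σ := 1) (by norm_num)
  refine ⟨C1 + C2, by positivity, ?_⟩
  intro k q Z x t hk hZ
  have hk0 : (0 : ℝ) < |(k : ℝ)| := by
    rw [abs_pos]; exact_mod_cast hk
  have h1 := (H1 k q Z x t hk hZ).2
  have h2 := (H2 k q Z x t hk hZ).2
  rw [show (2 * (1 / 4) - 1 / 2 : ℝ) = 0 by norm_num,
    show (-(2 * (1 / 4)) : ℝ) = -(1 / 2) by norm_num,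
    show ((4 * (1 / 4) - 1) * x : ℝ) = 0 by ring, Real.exp_zero, mul_one] at h1
  rw [show (2 * 1 - 1 / 2 : ℝ) = 3 / 2 by norm_num,
    show (-(2 * 1) : ℝ) = -((2 : ℕ) : ℝ) by norm_num,
    show ((4 * 1 - 1) * x : ℝ) = 3 * x by ring, Real.rpow_neg (by positivity),
    Real.rpow_natCast] at h2
  change ‖PK k Z x t‖ ≤ C1 * (|(k : ℝ)| * Z) ^ (-(1 / 2) : ℝ) * duW 0 k q x t at h1
  change ‖PK k Z x t‖ ≤ C2 * ((|(k : ℝ)| * Z) ^ 2)⁻¹ * Real.exp (3 * x) * duW (3 / 2) k q x t at h2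
  have e1 : Real.exp (-x) * Real.sqrt (Real.exp (2 * x) / Z / |(k : ℝ)|) =
      (|(k : ℝ)| * Z) ^ (-(1 / 2) : ℝ) := by
    rw [div_div, mul_comm Z, Real.sqrt_div (Real.exp_pos _).le,
      show Real.exp (2 * x) = Real.exp x ^ 2 by rw [← Real.exp_nat_mul]; norm_num,
      Real.sqrt_sq (Real.exp_pos _).le, ← mul_div_assoc, ← Real.exp_add, neg_add_cancel,
      Real.exp_zero, Real.rpow_neg (by positivity), ← Real.sqrt_eq_rpow, one_div]
  have e2 : Real.exp (-x) * (Real.exp (2 * x) / Z / |(k : ℝ)|) ^ 2 =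
      ((|(k : ℝ)| * Z) ^ 2)⁻¹ * Real.exp (3 * x) := by
    rw [div_div, mul_comm Z, div_pow, ← Real.exp_nat_mul, ← mul_div_assoc, ← Real.exp_add]
    rw [show (-x + ((2 : ℕ) : ℝ) * (2 * x)) = 3 * x by push_cast; ring]
    rw [div_eq_mul_inv, mul_comm]
  have w1 := duW_nonneg 0 k q x t
  have w2 := duW_nonneg (3 / 2) k q x t
  rw [mul_assoc, mul_min_of_nonneg _ _ (Real.exp_pos _).le, mul_min_of_nonneg _ _ (by positivity)]
  apply le_min
  · rw [← mul_assoc (Real.exp (-x)), e1]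
    refine h1.trans ?_
    have : 0 ≤ (|(k : ℝ)| * Z) ^ (-(1 / 2) : ℝ) * duW 0 k q x t := by positivity
    nlinarith
  · rw [← mul_assoc (Real.exp (-x)), e2]
    refine h2.trans ?_
    have : 0 ≤ ((|(k : ℝ)| * Z) ^ 2)⁻¹ * Real.exp (3 * x) * duW (3 / 2) k q x t := by positivity
    nlinarith

theorem du_sum {a : ℝ} (ha : 0 ≤ a) (h : HypE a) (κ : ℝ) (hκ : 0 < κ) :
    ∃ (C : ℝ) (A' : ℕ), 0 < C ∧ ∀ (s X x t : ℝ) (v : ℕ) (u : ℤ), (s = 0 ∨ s = 3 / 2) → 3 ≤ X →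
    0 < v → (u = 1 ∨ u = -1) →
    ∑ q ∈ sqf X, duW s (u * (q * v ^ 2 : ℕ)) q x t ≤
      C * (v.divisors.card : ℝ) ^ A' * Real.exp (κ * |t|) * X * (Real.log X) ^ a := by
  obtain ⟨A', HVS⟩ := VS
  obtain ⟨C, hC, H⟩ := HVS a ha h (min (κ / 2) (1 / 8)) (by positivity)
  refine ⟨4 * C, A', by positivity, ?_⟩
  intro s X x t v u hs hX hv hu
  have hint : ∀ q ∈ sqf X, Integrable (fun τ : ℝ => Real.exp (-|τ|) *
      ‖YS (u * (q * v ^ 2 : ℕ)) q (x + s) (t - 2 * τ) (-t - 2 * τ)‖) := by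
    intro q hq
    apply duW_int hs
    have h1 : q ≠ 0 := by
      unfold sqf at hq
      rw [Finset.mem_filter, Finset.mem_Icc] at hq
      omega
    have h2 : ((q * v ^ 2 : ℕ) : ℤ) ≠ 0 := by
      have : q * v ^ 2 ≠ 0 := by positivity
      exact_mod_cast this
    rcases hu with rfl | rfl
    · simpa using h2
    · simpa using h2
  have hlog : 0 ≤ Real.log X := Real.log_nonneg (by linarith)
  set B := C * (v.divisors.card : ℝ) ^ A' * X * (Real.log X) ^ a with hB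
  have hB0 : 0 ≤ B := by positivity
  unfold duW
  rw [← integral_finsetSum _ hint]
  calc ∫ τ : ℝ, ∑ q ∈ sqf X, Real.exp (-|τ|) *
        ‖YS (u * (q * v ^ 2 : ℕ)) q (x + s) (t - 2 * τ) (-t - 2 * τ)‖
      ≤ ∫ τ : ℝ, (B * Real.exp (κ * |t|)) * Real.exp (-(1 / 2 * |τ|)) := by
        apply integral_mono (integrable_finsetSum _ hint)
          ((K1_integrable_exp_abs (by norm_num)).const_mul _)
        intro τ
        simp only
        rw [← Finset.mul_sum]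
        have h1 := H X (x + s) (t - 2 * τ) (-t - 2 * τ) v u hX hv hu
        have h2 : min (κ / 2) (1 / 8) * (|t - 2 * τ| + |-t - 2 * τ|) ≤ κ * |t| + 1 / 2 * |τ| := by
          have a1 : |t - 2 * τ| ≤ |t| + 2 * |τ| := by
            refine (abs_sub _ _).trans ?_
            rw [abs_mul]; norm_num
          have a2 : |-t - 2 * τ| ≤ |t| + 2 * |τ| := by
            refine (abs_sub _ _).trans ?_
            rw [abs_mul, abs_neg]; norm_num
          have a3 : min (κ / 2) (1 / 8) ≤ κ / 2 := min_le_left _ _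
          have a4 : min (κ / 2) (1 / 8) ≤ 1 / 8 := min_le_right _ _
          have a5 : 0 < min (κ / 2) (1 / 8) := by positivity
          have a6 := abs_nonneg t
          have a7 := abs_nonneg τ
          calc _ ≤ min (κ / 2) (1 / 8) * ((|t| + 2 * |τ|) + (|t| + 2 * |τ|)) := by gcongr
            _ = min (κ / 2) (1 / 8) * (2 * |t|) + min (κ / 2) (1 / 8) * (4 * |τ|) := by ring
            _ ≤ κ / 2 * (2 * |t|) + 1 / 8 * (4 * |τ|) := by gcongr
            _ = _ := by ring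
        calc _ ≤ Real.exp (-|τ|) * (B * Real.exp (κ * |t| + 1 / 2 * |τ|)) := by
              apply mul_le_mul_of_nonneg_left _ (Real.exp_pos _).le
              refine h1.trans ?_
              apply mul_le_mul_of_nonneg_left (Real.exp_le_exp.mpr h2) hB0
          _ = B * (Real.exp (-|τ|) * Real.exp (κ * |t| + 1 / 2 * |τ|)) := by ring
          _ = B * (Real.exp (κ * |t|) * Real.exp (-(1 / 2 * |τ|))) := by
              rw [← Real.exp_add, ← Real.exp_add]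
              congr 2
              ring
          _ = _ := by ring
    _ = B * Real.exp (κ * |t|) * 4 := by
        rw [integral_const_mul, K1_integral_exp_abs (by norm_num)]
        norm_num
    _ = _ := by rw [hB]; ring

/-- elementary: `ℕ × ℕ` sums bounded fibrewise -/
theorem du_fib {h : ℕ × ℕ → ℝ} (h0 : ∀ p, 0 ≤ h p) {c : ℕ → ℝ} (hc : Summable c)
    (hb : ∀ (v : ℕ) (u : Finset ℕ), ∑ q ∈ u, h (q, v) ≤ c v) :
    Summable h ∧ ∑' p, h p ≤ ∑' v, c v := by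
  have hc0 : ∀ v, 0 ≤ c v := fun v => by simpa using hb v ∅
  have key : ∀ u : Finset (ℕ × ℕ), ∑ p ∈ u, h p ≤ ∑' v, c v := by
    intro u
    classical
    calc ∑ p ∈ u, h p ≤ ∑ p ∈ (u.image Prod.fst) ×ˢ (u.image Prod.snd), h p := by
          apply Finset.sum_le_sum_of_subset_of_nonneg _ (fun p _ _ => h0 p)
          intro p hp
          rw [Finset.mem_product]
          exact ⟨Finset.mem_image_of_mem _ hp, Finset.mem_image_of_mem _ hp⟩
      _ = ∑ v ∈ u.image Prod.snd, ∑ q ∈ u.image Prod.fst, h (q, v) := by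
          rw [Finset.sum_product_right]
      _ ≤ ∑ v ∈ u.image Prod.snd, c v := Finset.sum_le_sum (fun v _ => hb v _)
      _ ≤ _ := hc.sum_le_tsum _ (fun v _ => hc0 v)
  have hs : Summable h := summable_of_sum_le h0 key
  exact ⟨hs, hs.tsum_le_of_sum_le key⟩

theorem dual_sum {a : ℝ} (ha : 0 ≤ a) (h : HypE a) (κ : ℝ) (hκ : 0 < κ) : ∃ C : ℝ, 0 < C ∧
    ∀ (Z x t : ℝ), 1 ≤ Z → Z * (∑' k : ℤ, if k = 0 then 0 else ‖PK k Z x t‖) ≤
      C * Real.exp x * (Real.log (3 + Real.exp (2 * x) / Z)) ^ a * Real.exp (κ * |t|) := by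
  obtain ⟨C1, hC1, H1⟩ := du_term
  obtain ⟨C2, A', hC2, H2⟩ := du_sum ha h κ hκ
  obtain ⟨C3, hC3, H3⟩ := du_dyadic ha
  obtain ⟨C4, H4⟩ := Pool.Agent.ZD.divisor_sum A'
  obtain ⟨hD, -⟩ := H4 1 one_pos le_rfl
  set D := ∑' l : ℕ, ((l.divisors.card : ℝ) ^ A') * (l : ℝ) ^ (-(1 + 1) : ℝ) with hDdef
  have hD0 : 0 ≤ D := tsum_nonneg (fun l => by positivity)
  refine ⟨4 * C1 * C2 * C3 * (D + 1), by positivity, ?_⟩
  intro Z x t hZ
  have hZ0 : 0 < Z := by linarith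
  set K := Real.exp (2 * x) / Z with hK
  have hK0 : 0 < K := by positivity
  set E := Real.exp (κ * |t|) with hE
  have hE0 : 0 < E := Real.exp_pos _
  set LL := (Real.log (3 + K)) ^ a with hLL
  have hLL0 : 0 ≤ LL := Real.rpow_nonneg (Real.log_nonneg (by linarith)) _
  let mn : ℤ → ℕ → ℕ → ℝ := fun u q v => min
    (Real.sqrt (K / (v : ℝ) ^ 2 / q) * duW 0 (u * (q * v ^ 2 : ℕ)) q x t)
    ((K / (v : ℝ) ^ 2 / q) ^ 2 * duW (3 / 2) (u * (q * v ^ 2 : ℕ)) q x t)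
  have hmn0 : ∀ u q v, 0 ≤ mn u q v := by
    intro u q v
    apply le_min
    · exact mul_nonneg (Real.sqrt_nonneg _) (duW_nonneg _ _ _ _ _)
    · exact mul_nonneg (by positivity) (duW_nonneg _ _ _ _ _)
  let g : ℤ → ℝ := fun k => if k = 0 then 0 else ‖PK k Z x t‖
  let hh : ℕ × ℕ → ℝ := fun p => if 0 < p.2 then (C1 * Real.exp (-x)) *
    ((if Squarefree p.1 then mn 1 p.1 p.2 else 0) + (if Squarefree p.1 then mn (-1) p.1 p.2 else 0))
    else 0
  have hhh0 : ∀ p, 0 ≤ hh p := by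
    intro p
    simp only [hh]
    split_ifs
    · exact mul_nonneg (by positivity) (add_nonneg (hmn0 _ _ _) (hmn0 _ _ _))
    · simp
    · exact le_rfl
  have hsumu : ∀ (w : ℤ), (w = 1 ∨ w = -1) → ∀ (v : ℕ) (u : Finset ℕ), 0 < v →
      ∑ q ∈ u, (if Squarefree q then mn w q v else 0) ≤
        (C2 * C3 * E * K * LL) * ((v.divisors.card : ℝ) ^ A' * (v : ℝ) ^ (-(1 + 1) : ℝ)) := by
    intro w hw v u hv
    have hvR : (1 : ℝ) ≤ v := by exact_mod_cast hv
    have hKv : K / (v : ℝ) ^ 2 ≤ K := div_le_self hK0.le (one_le_pow₀ hvR)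
    have h5 := H3 (C2 * (v.divisors.card : ℝ) ^ A' * E) (K / (v : ℝ) ^ 2)
      (fun q => duW 0 (w * (q * v ^ 2 : ℕ)) q x t) (fun q => duW (3 / 2) (w * (q * v ^ 2 : ℕ)) q x t)
      (by positivity) (by positivity) (fun q => duW_nonneg _ _ _ _ _) (fun q => duW_nonneg _ _ _ _ _)
      (fun X hX => H2 0 X x t v w (Or.inl rfl) hX hv hw)
      (fun X hX => H2 (3 / 2) X x t v w (Or.inr rfl) hX hv hw) u
    refine h5.trans ?_
    have h6 : (Real.log (3 + K / (v : ℝ) ^ 2)) ^ a ≤ LL := by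
      apply Real.rpow_le_rpow (Real.log_nonneg _) _ ha
      · have : 0 ≤ K / (v : ℝ) ^ 2 := by positivity
        linarith
      · apply Real.log_le_log (by positivity)
        linarith
    have h7 : (v : ℝ) ^ (-(1 + 1) : ℝ) = ((v : ℝ) ^ 2)⁻¹ := by
      rw [Real.rpow_neg (by positivity), show ((1 : ℝ) + 1) = ((2 : ℕ) : ℝ) by norm_num,
        Real.rpow_natCast]
    rw [h7]
    calc _ ≤ C3 * (C2 * (v.divisors.card : ℝ) ^ A' * E) * (K / (v : ℝ) ^ 2) * LL := by gcongr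
      _ = _ := by ring
  obtain ⟨hs, hle⟩ := du_fib hhh0 (c := fun v => (2 * C1 * Real.exp (-x) * (C2 * C3 * E * K * LL)) *
      ((v.divisors.card : ℝ) ^ A' * (v : ℝ) ^ (-(1 + 1) : ℝ))) (hD.mul_left _) (by
    intro v u
    rcases Nat.eq_zero_or_pos v with h0 | hv
    · simp only [hh, h0, lt_irrefl, if_false, Finset.sum_const_zero]
      positivity
    · simp only [hh, hv, if_true]
      rw [← Finset.mul_sum, Finset.sum_add_distrib]
      have a1 := hsumu 1 (Or.inl rfl) v u hv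
      have a2 := hsumu (-1) (Or.inr rfl) v u hv
      calc _ ≤ (C1 * Real.exp (-x)) *
          ((C2 * C3 * E * K * LL) * ((v.divisors.card : ℝ) ^ A' * (v : ℝ) ^ (-(1 + 1) : ℝ)) +
          (C2 * C3 * E * K * LL) * ((v.divisors.card : ℝ) ^ A' * (v : ℝ) ^ (-(1 + 1) : ℝ))) := by
            gcongr
        _ = _ := by ring)
  obtain ⟨-, hfin⟩ := Pool.Agent.ZD.K2.tsum_int_le (g := g) (h := hh) (fun k => by
    simp only [g]; split_ifs <;> positivity) hs hhh0 (by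
    intro k q v hq hv hk
    have hq0 := hq.ne_zero
    have hk0 : k ≠ 0 := by
      intro h0
      rw [h0, Int.natAbs_zero] at hk
      have : q * v ^ 2 ≠ 0 := by positivity
      exact this hk.symm
    have hkabs : |(k : ℝ)| = (v : ℝ) ^ 2 * q := by
      have : |(k : ℝ)| = ((k.natAbs : ℕ) : ℝ) := by
        rw [Nat.cast_natAbs]; push_cast; rfl
      rw [this, hk]; push_cast; ring
    simp only [g, hh, hk0, if_false, hv, if_true, hq]
    refine (H1 k q Z x t hk0 hZ0).trans ?_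
    rw [← hK, hkabs, ← div_div]
    apply mul_le_mul_of_nonneg_left _ (by positivity)
    have hcase : k = 1 * (q * v ^ 2 : ℕ) ∨ k = -1 * (q * v ^ 2 : ℕ) := by
      rw [← hk]
      rcases Int.natAbs_eq k with h1 | h1
      · left; rw [one_mul]; exact h1
      · right; rw [neg_one_mul]; exact h1
    rcases hcase with h1 | h1
    · have := hmn0 (-1) q v
      calc _ = mn 1 q v := by simp only [mn]; rw [← h1]
        _ ≤ _ := by linarith
    · have := hmn0 1 q v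
      calc _ = mn (-1) q v := by simp only [mn]; rw [← h1]
        _ ≤ _ := by linarith)
  have hg0 : g 0 = 0 := by simp [g]
  rw [hg0, zero_add] at hfin
  rw [tsum_mul_left] at hle
  have hZK : Z * (Real.exp (-x) * K) = Real.exp x := by
    rw [hK, ← mul_div_assoc, ← Real.exp_add, show (-x + 2 * x) = x by ring]
    field_simp
  calc Z * ∑' k : ℤ, g k ≤ Z * (2 * (2 * C1 * Real.exp (-x) * (C2 * C3 * E * K * LL) * D)) := by
        gcongr
        exact hfin.trans (by linarith)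
    _ = (4 * C1 * C2 * C3 * D) * (Z * (Real.exp (-x) * K)) * LL * E := by ring
    _ = (4 * C1 * C2 * C3 * D) * Real.exp x * LL * E := by rw [hZK]
    _ ≤ _ := by
      gcongr
      linarith

end Pool.Agent.CZ
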