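import Mathlib
import Pool.Agent.CZ.IDefs
import Pool.Agent.CZ.IBAS
import Pool.Agent.ZD.K2

/-!
# Critical zeros (MP_553913_nt), part (I), module I_POI: Poisson summation in `D`
-/

set_option autoImplicit false

open Complex Finset MeasureTheory

namespace Pool.Agent.CZ

open Pool.Agent.H5 (c bd)
open Pool.Agent.ZD (gk tau norm_tau_le)
open Pool.Agent.ZD.K2 (gs gs_nonneg gs_summable bb bb_nonneg summable_bb gauss_le norm_jac c_even)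

/-- factor of one variable -/
noncomputable def poi_e (x t : ℝ) (n : ℕ) : ℂ := npow n t * (ga x n : ℂ)

/-- the weight of a pair -/
noncomputable def poi_wt (x t : ℝ) (p : ℕ × ℕ) : ℂ :=
  ((c p.1 : ℤ) : ℂ) * ((c p.2 : ℤ) : ℂ) * (poi_e x t p.1 * poi_e x (-t) p.2)

lemma poi_wt_zero {x t : ℝ} {p : ℕ × ℕ} (h : ¬ (Odd p.1 ∧ Odd p.2)) : poi_wt x t p = 0 := by
  unfold poi_wt
  by_cases h1 : Odd p.1
  · have h2 : ¬ Odd p.2 := fun h2 => h ⟨h1, h2⟩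
    rw [Nat.not_odd_iff] at h2
    rw [c_even h2]
    simp
  · rw [Nat.not_odd_iff] at h1
    rw [c_even h1]
    simp

lemma poi_bd_one (n : ℕ) : (bd 1 n : ℂ) = ((c n : ℤ) : ℂ) := by
  unfold bd
  rw [jacobiSym.one_left]
  simp

lemma poi_summable_c (x t : ℝ) (k : ℕ) :
    Summable (fun n : ℕ => (n : ℝ) ^ k * ‖((c n : ℤ) : ℂ) * poi_e x t n‖) := by
  have h := BB_summable 1 x t (k : ℝ)
  refine h.congr fun n => ?_
  rw [poi_bd_one, Real.rpow_natCast, mul_assoc ((c n : ℤ) : ℂ)]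
  rfl

lemma poi_summable_poly (x t : ℝ) (k : ℕ) :
    Summable (fun p : ℕ × ℕ => ‖poi_wt x t p‖ * ((p.1 * p.2 : ℕ) : ℝ) ^ k) := by
  have h2 := (poi_summable_c x t k).mul_of_nonneg (poi_summable_c x (-t) k)
    (fun n => by positivity) (fun n => by positivity)
  refine h2.congr fun p => ?_
  unfold poi_wt
  simp only [norm_mul]
  push_cast
  ring

lemma poi_summable_wt (x t : ℝ) : Summable (fun p : ℕ × ℕ => ‖poi_wt x t p‖) := by
  simpa using poi_summable_poly x t 0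

lemma poi_summable_BB (D : ℤ) (x t : ℝ) :
    Summable (fun n : ℕ => ‖(bd D n : ℂ) * poi_e x t n‖) := by
  have h := BB_summable D x t 0
  refine h.congr fun n => ?_
  rw [Real.rpow_zero, one_mul, mul_assoc (bd D n : ℂ)]
  rfl

/-- expansion of the square -/
lemma poi_norm_sq (D : ℤ) (x t : ℝ) :
    ((‖BB D x t‖ ^ 2 : ℝ) : ℂ) =
      ∑' p : ℕ × ℕ, ((jacobiSym D (p.1 * p.2) : ℤ) : ℂ) * poi_wt x t p := by
  have h1 : ((‖BB D x t‖ ^ 2 : ℝ) : ℂ) = BB D x t * BB D x (-t) := by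
    rw [← BB_conj, Complex.mul_conj, Complex.normSq_eq_norm_sq]
  rw [h1]
  have h2 : ∀ s : ℝ, BB D x s = ∑' n : ℕ, (bd D n : ℂ) * poi_e x s n := by
    intro s
    rw [BB_eq]
    congr 1
    funext n
    unfold poi_e
    ring
  rw [h2 t, h2 (-t), tsum_mul_tsum_of_summable_norm (poi_summable_BB D x t)
    (poi_summable_BB D x (-t))]
  congr 1
  funext p
  by_cases hp : Odd p.1 ∧ Odd p.2
  · have : NeZero p.1 := ⟨hp.1.pos.ne'⟩
    have : NeZero p.2 := ⟨hp.2.pos.ne'⟩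
    rw [jacobiSym.mul_right]
    unfold bd poi_wt
    push_cast
    ring
  · rw [poi_wt_zero hp, mul_zero]
    unfold bd
    rw [not_and_or, Nat.not_odd_iff, Nat.not_odd_iff] at hp
    rcases hp with h | h
    · rw [c_even h]; simp
    · rw [c_even h]; simp

/-- the dual term -/
noncomputable def poi_HH (Z x t : ℝ) (k : ℤ) (p : ℕ × ℕ) : ℂ :=
  poi_wt x t p * (((Z / (p.1 * p.2 : ℕ) : ℝ) : ℂ) *
    (tau k (p.1 * p.2) * exp (-(Real.pi * k ^ 2 * Z ^ 2 / ((p.1 * p.2 : ℕ) : ℂ) ^ 2))))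

lemma poi_norm_HH_le {Z : ℝ} (hZ : 1 ≤ Z) (x t : ℝ) (k : ℤ) (p : ℕ × ℕ) :
    ‖poi_HH Z x t k p‖ ≤ Z * ((‖poi_wt x t p‖ * ((p.1 * p.2 : ℕ) : ℝ) ^ 2) * bb k) := by
  by_cases hp : Odd p.1 ∧ Odd p.2
  · have hm : 1 ≤ p.1 * p.2 := Nat.mul_pos hp.1.pos hp.2.pos
    have hmR : (1 : ℝ) ≤ ((p.1 * p.2 : ℕ) : ℝ) := by exact_mod_cast hm
    unfold poi_HH
    rw [norm_mul, norm_mul, norm_mul, Pool.Agent.ZD.K2.norm_gexp, Complex.norm_real,
      Real.norm_of_nonneg (by positivity)]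
    have h1 := norm_tau_le k (p.1 * p.2)
    have h2 : Real.exp (-(Real.pi * k ^ 2 * Z ^ 2 / ((p.1 * p.2 : ℕ) : ℝ) ^ 2)) ≤
        ((p.1 * p.2 : ℕ) : ℝ) ^ 2 * bb k := by
      refine le_trans ?_ (gauss_le hmR k)
      apply Real.exp_le_exp.mpr
      apply neg_le_neg
      apply div_le_div_of_nonneg_right _ (by positivity)
      have : 0 ≤ Real.pi * (k : ℝ) ^ 2 := by positivity
      exact le_mul_of_one_le_right this (one_le_pow₀ hZ)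
    have hb := bb_nonneg k
    calc ‖poi_wt x t p‖ * (Z / ((p.1 * p.2 : ℕ) : ℝ) * (‖tau k (p.1 * p.2)‖ *
          Real.exp (-(Real.pi * k ^ 2 * Z ^ 2 / ((p.1 * p.2 : ℕ) : ℝ) ^ 2))))
        ≤ ‖poi_wt x t p‖ * (Z / ((p.1 * p.2 : ℕ) : ℝ) * (((p.1 * p.2 : ℕ) : ℝ) *
          (((p.1 * p.2 : ℕ) : ℝ) ^ 2 * bb k))) := by
          gcongr
      _ = _ := by
          have : ((p.1 * p.2 : ℕ) : ℝ) ≠ 0 := by positivity
          field_simp
  · unfold poi_HH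
    rw [poi_wt_zero hp]
    simp

lemma poi_summable_HH {Z : ℝ} (hZ : 1 ≤ Z) (x t : ℝ) :
    Summable (fun y : (ℕ × ℕ) × ℤ => ‖poi_HH Z x t y.2 y.1‖) := by
  have h1 := (poi_summable_poly x t 2).mul_of_nonneg summable_bb (fun n => by positivity)
    (fun k => bb_nonneg k)
  refine Summable.of_nonneg_of_le (fun _ => norm_nonneg _) (fun y => ?_) (h1.mul_left Z)
  exact poi_norm_HH_le hZ x t y.2 y.1

lemma poi_PK {Z : ℝ} (k : ℤ) (x t : ℝ) :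
    (Z : ℂ) * PK k Z x t = ∑' p : ℕ × ℕ, poi_HH Z x t k p := by
  unfold PK
  rw [← tsum_mul_left]
  congr 1
  funext p
  by_cases hp : Odd p.1 ∧ Odd p.2
  · have hm : 0 < p.1 * p.2 := Nat.mul_pos hp.1.pos hp.2.pos
    have hmR : (0 : ℝ) < ((p.1 * p.2 : ℕ) : ℝ) := by exact_mod_cast hm
    have hs : (Real.sqrt ((p.1 * p.2 : ℕ) : ℝ)) * Real.sqrt ((p.1 * p.2 : ℕ) : ℝ) =
      ((p.1 * p.2 : ℕ) : ℝ) := Real.mul_self_sqrt hmR.le
    have hs0 : Real.sqrt ((p.1 * p.2 : ℕ) : ℝ) ≠ 0 := (Real.sqrt_pos.2 hmR).ne'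
    have hsC0 : ((Real.sqrt ((p.1 * p.2 : ℕ) : ℝ) : ℝ) : ℂ) ≠ 0 := by exact_mod_cast hs0
    have e1 : ((Z / (p.1 * p.2 : ℕ) : ℝ) : ℂ) =
        (Z : ℂ) * (((Real.sqrt ((p.1 * p.2 : ℕ) : ℝ) : ℝ) : ℂ)⁻¹ *
          ((Real.sqrt ((p.1 * p.2 : ℕ) : ℝ) : ℝ) : ℂ)⁻¹) := by
      rw [← mul_inv, ← Complex.ofReal_mul, hs]
      push_cast
      rw [div_eq_mul_inv]
    unfold poi_HH poi_wt gk poi_e
    rw [e1]
    push_cast
    ring
  · have hg : gk k p.1 p.2 = 0 := by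
      unfold gk
      rw [not_and_or, Nat.not_odd_iff, Nat.not_odd_iff] at hp
      rcases hp with h | h
      · rw [c_even h]; simp
      · rw [c_even h]; simp
    unfold poi_HH
    rw [poi_wt_zero hp, hg]
    simp

/-! ### I_POI -/

theorem P_poisson {Z : ℝ} (hZ : 1 ≤ Z) (x t : ℝ) :
    Summable (fun D : ℤ => Real.exp (-(Real.pi * D ^ 2 / Z ^ 2)) * ‖BB D x t‖ ^ 2) ∧
    Summable (fun k : ℤ => ‖PK k Z x t‖) ∧
    ((∑' D : ℤ, Real.exp (-(Real.pi * D ^ 2 / Z ^ 2)) * ‖BB D x t‖ ^ 2 : ℝ) : ℂ) =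
      Z * ∑' k : ℤ, PK k Z x t := by
  have hZ0 : (0 : ℝ) < Z := lt_of_lt_of_le one_pos hZ
  have hG : Summable (fun y : ℤ × (ℕ × ℕ) => ((gs Z y.1 : ℝ) : ℂ) *
      (((jacobiSym y.1 (y.2.1 * y.2.2) : ℤ) : ℂ) * poi_wt x t y.2)) := by
    have h1 := (gs_summable hZ).mul_of_nonneg (poi_summable_wt x t)
      (fun n => (Real.exp_pos _).le) (fun k => norm_nonneg _)
    refine Summable.of_norm_bounded h1 (fun y => ?_)
    rw [norm_mul, norm_mul, Complex.norm_real, Real.norm_of_nonneg (gs_nonneg _ _)]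
    have h2 := norm_jac y.1 (y.2.1 * y.2.2)
    have h3 : ‖((jacobiSym y.1 (y.2.1 * y.2.2) : ℤ) : ℂ)‖ * ‖poi_wt x t y.2‖ ≤
        ‖poi_wt x t y.2‖ := by
      nlinarith [norm_nonneg (poi_wt x t y.2)]
    exact mul_le_mul_of_nonneg_left h3 (gs_nonneg _ _)
  have hrow : ∀ D : ℤ, ((gs Z D * ‖BB D x t‖ ^ 2 : ℝ) : ℂ) =
      ∑' p : ℕ × ℕ, ((gs Z D : ℝ) : ℂ) *
        (((jacobiSym D (p.1 * p.2) : ℤ) : ℂ) * poi_wt x t p) := by
    intro D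
    rw [tsum_mul_left, ← poi_norm_sq]
    push_cast
    ring
  have hsumC : Summable (fun D : ℤ => ((gs Z D * ‖BB D x t‖ ^ 2 : ℝ) : ℂ)) := by
    simp_rw [hrow]
    exact hG.prod
  have hsumR : Summable (fun D : ℤ => gs Z D * ‖BB D x t‖ ^ 2) :=
    Complex.summable_ofReal.1 hsumC
  have hN : Summable (fun y : ℤ × (ℕ × ℕ) => ‖poi_HH Z x t y.1 y.2‖) :=
    (Equiv.prodComm _ _).summable_iff.1 ((poi_summable_HH hZ x t).congr (fun x => rfl))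
  have hPK : ∀ k : ℤ, PK k Z x t = (Z : ℂ)⁻¹ * ∑' p : ℕ × ℕ, poi_HH Z x t k p := by
    intro k
    have hZc : (Z : ℂ) ≠ 0 := by exact_mod_cast hZ0.ne'
    rw [← poi_PK, inv_mul_cancel_left₀ hZc]
  have hPKs : Summable (fun k : ℤ => ‖PK k Z x t‖) := by
    refine Summable.of_nonneg_of_le (fun _ => norm_nonneg _) (fun k => ?_)
      (hN.prod.mul_left Z⁻¹)
    rw [hPK k, norm_mul, norm_inv, Complex.norm_real, Real.norm_of_nonneg hZ0.le]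
    exact mul_le_mul_of_nonneg_left (norm_tsum_le_tsum_norm (hN.prod_factor k))
      (inv_nonneg.2 hZ0.le)
  refine ⟨hsumR, hPKs, ?_⟩
  rw [← tsum_mul_left]
  simp_rw [poi_PK]
  have hLHS : ((∑' D : ℤ, Real.exp (-(Real.pi * D ^ 2 / Z ^ 2)) * ‖BB D x t‖ ^ 2 : ℝ) : ℂ) =
      ((∑' D : ℤ, gs Z D * ‖BB D x t‖ ^ 2 : ℝ) : ℂ) := rfl
  rw [hLHS, Complex.ofReal_tsum]
  simp_rw [hrow]
  have hG' : Summable (fun y : (ℕ × ℕ) × ℤ => ((gs Z y.2 : ℝ) : ℂ) *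
      (((jacobiSym y.2 (y.1.1 * y.1.2) : ℤ) : ℂ) * poi_wt x t y.1)) :=
    (Equiv.prodComm _ _).summable_iff.1 (hG.congr (fun x => rfl))
  have hswap : ∑' (D : ℤ) (p : ℕ × ℕ), ((gs Z D : ℝ) : ℂ) *
        (((jacobiSym D (p.1 * p.2) : ℤ) : ℂ) * poi_wt x t p) =
      ∑' (p : ℕ × ℕ) (D : ℤ), ((gs Z D : ℝ) : ℂ) *
        (((jacobiSym D (p.1 * p.2) : ℤ) : ℂ) * poi_wt x t p) :=
    Summable.tsum_comm' (f := fun (p : ℕ × ℕ) (D : ℤ) => ((gs Z D : ℝ) : ℂ) *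
        (((jacobiSym D (p.1 * p.2) : ℤ) : ℂ) * poi_wt x t p)) hG' (fun p => hG'.prod_factor p)
        (fun D => hG.prod_factor D)
  rw [hswap]
  have hcol : ∀ p : ℕ × ℕ, ∑' D : ℤ, ((gs Z D : ℝ) : ℂ) *
      (((jacobiSym D (p.1 * p.2) : ℤ) : ℂ) * poi_wt x t p) =
      ∑' k : ℤ, poi_HH Z x t k p := by
    intro p
    by_cases hp : Odd p.1 ∧ Odd p.2
    · have hm : Odd (p.1 * p.2) := hp.1.mul hp.2
      obtain ⟨_, hP⟩ := Pool.Agent.ZD.poisson hm hZ0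
      have h1 : ∀ D : ℤ, ((gs Z D : ℝ) : ℂ) *
          (((jacobiSym D (p.1 * p.2) : ℤ) : ℂ) * poi_wt x t p) =
          poi_wt x t p * ((jacobiSym D (p.1 * p.2) : ℂ) *
            exp (-(Real.pi * D ^ 2 / Z ^ 2))) := by
        intro D
        unfold gs
        push_cast
        ring
      simp_rw [h1]
      rw [tsum_mul_left, ← hP.tsum_eq, ← tsum_mul_left]
      rfl
    · unfold poi_HH
      rw [poi_wt_zero hp]
      simp
  simp_rw [hcol]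
  have h2 : Summable (fun y : (ℕ × ℕ) × ℤ => poi_HH Z x t y.2 y.1) :=
    (poi_summable_HH hZ x t).of_norm
  have h2' : Summable (fun y : ℤ × (ℕ × ℕ) => poi_HH Z x t y.1 y.2) :=
    (Equiv.prodComm _ _).summable_iff.1 (h2.congr (fun x => rfl))
  exact Summable.tsum_comm' (f := fun (k : ℤ) (p : ℕ × ℕ) => poi_HH Z x t k p) h2'
    (fun k => h2'.prod_factor k) (fun p => h2.prod_factor p)

end Pool.Agent.CZ
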