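import Mathlib
import Pool.Agent.CZ.IDefs
import Pool.Agent.ZD.R6
import Pool.Agent.ZD.E1
import Pool.Agent.CZ.IBAS
import Pool.Agent.CZ.IPOI

/-!
# Critical zeros (MP_553913_nt), part (I), module PRT: the prime trick
-/

set_option autoImplicit false

open Complex Finset MeasureTheory

namespace Pool.Agent.CZ

open Pool.Agent.H5 (c bd bd_zero bd_one bd_mul bd_prime)

/-! ### The relation between the blocks of `d` and `d p²` -/

theorem prt_npow_mul {p m : ℕ} (t : ℝ) : npow (p * m) t = npow p t * npow m t := by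
  unfold npow
  rw [Nat.cast_mul, natCast_mul_natCast_cpow]

theorem prt_ga_mul {p m : ℕ} (hp : 0 < p) (hm : 0 < m) (x : ℝ) :
    ga x (p * m) = ga (x - Real.log p) m := by
  unfold ga
  have h1 : Real.log ((p * m : ℕ) : ℝ) = Real.log p + Real.log m := by
    rw [Nat.cast_mul, Real.log_mul (by exact_mod_cast hp.ne') (by exact_mod_cast hm.ne')]
  rw [h1]
  congr 2
  ring

/-- the terms of the block -/
noncomputable def prtT (D : ℤ) (x t : ℝ) (n : ℕ) : ℂ := (bd D n : ℂ) * npow n t * (ga x n : ℂ)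

theorem prt_summable (D : ℤ) (x t : ℝ) : Summable (prtT D x t) := by
  have h := BB_summable D x t 0
  simp only [Real.rpow_zero, one_mul] at h
  exact h.of_norm

theorem prt_hasSum (D : ℤ) (x t : ℝ) : HasSum (prtT D x t) (BB D x t) := (prt_summable D x t).hasSum

theorem prt_mult (d : ℤ) (x t : ℝ) {m : ℕ} (hm : 0 < m) :
    HasSum (fun n : ℕ => ((if m ∣ n then bd d (n / m) else 0 : ℤ) : ℂ) * npow n t * (ga x n : ℂ))
      (npow m t * BB d (x - Real.log m) t) := by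
  have hinj : Function.Injective (fun k : ℕ => m * k) := fun a b h =>
    Nat.eq_of_mul_eq_mul_left hm h
  have hs := (prt_hasSum d (x - Real.log m) t).mul_left (npow m t)
  rw [← hinj.hasSum_iff]
  · have e : ((fun n : ℕ => ((if m ∣ n then bd d (n / m) else 0 : ℤ) : ℂ) * npow n t * (ga x n : ℂ)) ∘
        fun k => m * k) = fun n : ℕ => npow m t * prtT d (x - Real.log m) t n := by
      funext k
      simp only [Function.comp]
      rw [if_pos (Dvd.intro k rfl), Nat.mul_div_cancel_left k hm]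
      rcases Nat.eq_zero_or_pos k with rfl | hk
      · simp [prtT, bd_zero]
      · rw [prt_npow_mul, prt_ga_mul hm hk, prtT]
        ring
    rw [e]
    exact hs
  · intro n hn
    have : ¬ m ∣ n := by
      rintro ⟨k, hk⟩
      exact hn ⟨k, hk.symm⟩
    simp [this]

theorem prt_BB_psq (d : ℤ) {p : ℕ} (hp : p.Prime) (h2 : p ≠ 2) (x t : ℝ) :
    BB (d * (p : ℤ) ^ 2) x t = BB d x t - (bd d p : ℂ) * (npow p t * BB d (x - Real.log p) t) +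
      (ZD.R.sqf d p : ℂ) * (npow (p ^ 2) t * BB d (x - Real.log (p ^ 2 : ℕ)) t) := by
  have h0 := prt_hasSum d x t
  have h1 := prt_mult d x t hp.pos
  have h3 := prt_mult d x t (pow_pos hp.pos 2)
  have h4 := (h0.sub (h1.mul_left (bd d p : ℂ))).add (h3.mul_left (ZD.R.sqf d p : ℂ))
  have h5 := prt_hasSum (d * (p : ℤ) ^ 2) x t
  have e2 : prtT (d * (p : ℤ) ^ 2) x t = fun n : ℕ => prtT d x t n -
        (bd d p : ℂ) * (((if p ∣ n then bd d (n / p) else 0 : ℤ) : ℂ) * npow n t * (ga x n : ℂ)) +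
        (ZD.R.sqf d p : ℂ) * (((if p ^ 2 ∣ n then bd d (n / p ^ 2) else 0 : ℤ) : ℂ) * npow n t *
          (ga x n : ℂ)) := by
    funext n
    rw [prtT, ZD.R.bd_psq d hp h2 n, prtT]
    push_cast
    ring
  rw [e2] at h5
  exact h5.unique h4

theorem prt_abs_bd (d : ℤ) {p : ℕ} (hp : p.Prime) : |(bd d p : ℝ)| ≤ 2 * Real.sqrt p := by
  have h1 := Pool.Agent.H5.abs_bd_le d p
  have h2 := Pool.Agent.ZD.abs_c_le' p
  rw [Nat.Prime.divisors hp, Finset.card_pair hp.one_lt.ne] at h2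
  push_cast at h2
  exact h1.trans h2

theorem prt_pointwise (d : ℤ) {p : ℕ} (hp : p.Prime) (h2 : p ≠ 2) (x t : ℝ) :
    ‖BB d x t‖ ^ 2 ≤ 2 * ‖BB (d * (p : ℤ) ^ 2) x t‖ ^ 2 +
      (16 / p * ‖BB d (x - Real.log p) t‖ ^ 2 +
        4 / p * ‖BB d (x - Real.log (p ^ 2 : ℕ)) t‖ ^ 2) := by
  have hp0 : (0 : ℝ) < p := by exact_mod_cast hp.pos
  have hp1 : (1 : ℝ) ≤ p := by exact_mod_cast hp.one_lt.le
  set a := ‖BB (d * (p : ℤ) ^ 2) x t‖ with ha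
  set b := ‖BB d (x - Real.log p) t‖ with hb
  set e := ‖BB d (x - Real.log (p ^ 2 : ℕ)) t‖ with he
  have hb0 : 0 ≤ b := norm_nonneg _
  have he0 : 0 ≤ e := norm_nonneg _
  have ha0 : 0 ≤ a := norm_nonneg _
  have h3 : BB d x t = BB (d * (p : ℤ) ^ 2) x t + ((bd d p : ℂ) * (npow p t * BB d (x - Real.log p) t) -
      (ZD.R.sqf d p : ℂ) * (npow (p ^ 2) t * BB d (x - Real.log (p ^ 2 : ℕ)) t)) := by
    rw [prt_BB_psq d hp h2]
    ring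
  have h4 : ‖(bd d p : ℂ) * (npow p t * BB d (x - Real.log p) t)‖ ≤ 2 * Real.sqrt p / p * b := by
    rw [norm_mul, norm_mul, norm_npow hp.pos, Complex.norm_intCast]
    have := prt_abs_bd d hp
    calc |(bd d p : ℝ)| * ((p : ℝ)⁻¹ * b) ≤ 2 * Real.sqrt p * ((p : ℝ)⁻¹ * b) := by gcongr
      _ = _ := by ring
  have h5 : ‖(ZD.R.sqf d p : ℂ) * (npow (p ^ 2) t * BB d (x - Real.log (p ^ 2 : ℕ)) t)‖ ≤
      1 / p * e := by
    rw [norm_mul, norm_mul, norm_npow (pow_pos hp.pos 2), Complex.norm_intCast]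
    have := ZD.R.abs_sqf_le d p
    calc |(ZD.R.sqf d p : ℝ)| * ((((p ^ 2 : ℕ) : ℝ))⁻¹ * e) ≤ p * ((((p ^ 2 : ℕ) : ℝ))⁻¹ * e) := by
          gcongr
      _ = _ := by
          push_cast
          field_simp
  have h6 : ‖BB d x t‖ ≤ a + (2 * Real.sqrt p / p * b + 1 / p * e) := by
    rw [h3]
    refine (norm_add_le _ _).trans ?_
    gcongr
    refine (norm_sub_le _ _).trans ?_
    gcongr
  have h7 : (2 * Real.sqrt p / p * b) ^ 2 = 4 / p * b ^ 2 := by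
    rw [mul_pow, div_pow, mul_pow, Real.sq_sqrt hp0.le]
    field_simp
    ring
  have h8 : (1 / p * e) ^ 2 ≤ 1 / p * e ^ 2 := by
    rw [mul_pow]
    gcongr
    rw [div_pow, one_pow]
    gcongr
    nlinarith
  have h9 : 0 ≤ 2 * Real.sqrt p / p * b := by positivity
  have h10 : 0 ≤ 1 / p * e := by positivity
  set u := 2 * Real.sqrt p / p * b with hu
  set v := 1 / p * e with hv
  have h11 : ‖BB d x t‖ ^ 2 ≤ (a + (u + v)) ^ 2 := by gcongr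
  have h12 : (a + (u + v)) ^ 2 ≤ 2 * a ^ 2 + (4 * u ^ 2 + 4 * v ^ 2) := by
    nlinarith [sq_nonneg (a - (u + v)), sq_nonneg (u - v)]
  calc ‖BB d x t‖ ^ 2 ≤ 2 * a ^ 2 + (4 * u ^ 2 + 4 * v ^ 2) := h11.trans h12
    _ ≤ 2 * a ^ 2 + (4 * (4 / p * b ^ 2) + 4 * (1 / p * e ^ 2)) := by rw [h7]; gcongr
    _ = _ := by ring

theorem prime_trick : ∃ C : ℝ, 0 < C ∧ ∀ (X x t B : ℝ) (p : ℕ), p.Prime → 3 ≤ p →
    (∀ y : ℝ, ∑ q ∈ sqf X, ‖BB q y t‖ ^ 2 ≤ B) →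
    ∑ q ∈ sqf X, ‖BB q x t‖ ^ 2 ≤
      2 * ∑ q ∈ sqf X, ‖BB (q * (p : ℤ) ^ 2) x t‖ ^ 2 + C * B / p := by
  refine ⟨20, by norm_num, fun X x t B p hp h3 hB => ?_⟩
  have hp0 : (0 : ℝ) < p := by exact_mod_cast hp.pos
  have h2 : p ≠ 2 := by omega
  calc ∑ q ∈ sqf X, ‖BB q x t‖ ^ 2
      ≤ ∑ q ∈ sqf X, (2 * ‖BB (q * (p : ℤ) ^ 2) x t‖ ^ 2 +
        (16 / p * ‖BB q (x - Real.log p) t‖ ^ 2 +
          4 / p * ‖BB q (x - Real.log (p ^ 2 : ℕ)) t‖ ^ 2)) :=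
        Finset.sum_le_sum fun q _ => prt_pointwise q hp h2 x t
    _ = 2 * ∑ q ∈ sqf X, ‖BB (q * (p : ℤ) ^ 2) x t‖ ^ 2 +
        (16 / p * ∑ q ∈ sqf X, ‖BB q (x - Real.log p) t‖ ^ 2 +
          4 / p * ∑ q ∈ sqf X, ‖BB q (x - Real.log (p ^ 2 : ℕ)) t‖ ^ 2) := by
        rw [Finset.sum_add_distrib, Finset.sum_add_distrib, Finset.mul_sum, Finset.mul_sum,
          Finset.mul_sum]
    _ ≤ 2 * ∑ q ∈ sqf X, ‖BB (q * (p : ℤ) ^ 2) x t‖ ^ 2 + (16 / p * B + 4 / p * B) := by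
        have h4 := hB (x - Real.log p)
        have h5 := hB (x - Real.log (p ^ 2 : ℕ))
        gcongr
    _ = _ := by ring

theorem prt_inj {X : ℝ} {T : Finset ℕ} (hT : ∀ p ∈ T, p.Prime) :
    Set.InjOn (fun x : ℕ × ℕ => ((x.2 : ℤ) * (x.1 : ℤ) ^ 2)) (T ×ˢ sqf X : Finset (ℕ × ℕ)) := by
  intro x hx y hy h
  rw [Finset.mem_coe, Finset.mem_product] at hx hy
  have hxs : Squarefree x.2 := (Finset.mem_filter.1 hx.2).2
  have hys : Squarefree y.2 := (Finset.mem_filter.1 hy.2).2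
  have hxp := hT _ hx.1
  have hyp := hT _ hy.1
  have h' : (x.2 : ℤ) * (x.1 : ℤ) ^ 2 = (y.2 : ℤ) * (y.1 : ℤ) ^ 2 := h
  have h1 : x.2 * x.1 ^ 2 = y.2 * y.1 ^ 2 := by exact_mod_cast h'
  have h2 : x.1 = y.1 := by
    by_contra hne
    have h3 : x.1 ^ 2 ∣ y.2 * y.1 ^ 2 := by rw [← h1]; exact Dvd.intro_left _ rfl
    have h4 : (x.1 ^ 2).Coprime (y.1 ^ 2) :=
      Nat.Coprime.pow 2 2 ((Nat.coprime_primes hxp hyp).mpr hne)
    have h5 : x.1 ^ 2 ∣ y.2 := h4.dvd_of_dvd_mul_right h3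
    have h6 := hys x.1 (by rw [← pow_two]; exact h5)
    exact hxp.one_lt.ne' (Nat.isUnit_iff.mp h6)
  have h7 : x.2 = y.2 := by
    rw [h2] at h1
    exact Nat.eq_of_mul_eq_mul_right (pow_pos hyp.pos 2) h1
  exact Prod.ext h2 h7

theorem prime_sum {X x t P : ℝ} (hX : 1 ≤ X) (hP : 1 ≤ P) (T : Finset ℕ)
    (hT : ∀ p ∈ T, p.Prime ∧ 3 ≤ p ∧ (p : ℝ) ≤ P) :
    ∑ p ∈ T, ∑ q ∈ sqf X, ‖BB (q * (p : ℤ) ^ 2) x t‖ ^ 2 ≤
      Real.exp Real.pi * ∑' D : ℤ, Real.exp (-(Real.pi * D ^ 2 / (X * P ^ 2) ^ 2)) * ‖BB D x t‖ ^ 2 := by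
  set Z : ℝ := X * P ^ 2 with hZ
  have hZ1 : 1 ≤ Z := by
    rw [hZ]
    have : (1:ℝ) ≤ P ^ 2 := one_le_pow₀ hP
    nlinarith
  have hZ0 : 0 < Z := by linarith
  have hs1 := (P_poisson hZ1 x t).1
  rw [← Finset.sum_product', ← tsum_mul_left]
  have h2 := (hs1.mul_left (Real.exp Real.pi)).sum_le_tsum
    ((T ×ˢ sqf X).image (fun x : ℕ × ℕ => ((x.2 : ℤ) * (x.1 : ℤ) ^ 2)))
    (fun D _ => by positivity)
  rw [Finset.sum_image (prt_inj fun p hp => (hT p hp).1)] at h2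
  refine le_trans (Finset.sum_le_sum (fun y hy => ?_)) h2
  rw [Finset.mem_product] at hy
  have hyX : (y.2 : ℝ) ≤ X := by
    have := (Finset.mem_Icc.1 (Finset.mem_filter.1 hy.2).1).2
    exact (Nat.cast_le.2 this).trans (Nat.floor_le (by linarith))
  have hyP : (y.1 : ℝ) ≤ P := (hT _ hy.1).2.2
  have h3 : ((((y.2 : ℤ) * (y.1 : ℤ) ^ 2 : ℤ) : ℝ)) ^ 2 ≤ Z ^ 2 := by
    push_cast
    rw [hZ]
    gcongr
  have h6 : 1 ≤ Real.exp Real.pi *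
      Real.exp (-(Real.pi * (((y.2 : ℤ) * (y.1 : ℤ) ^ 2 : ℤ) : ℝ) ^ 2 / Z ^ 2)) := by
    rw [← Real.exp_add]
    apply Real.one_le_exp
    have h7 : (((y.2 : ℤ) * (y.1 : ℤ) ^ 2 : ℤ) : ℝ) ^ 2 / Z ^ 2 ≤ 1 := by
      rw [div_le_one (by positivity)]; exact h3
    have h8 : Real.pi * (((y.2 : ℤ) * (y.1 : ℤ) ^ 2 : ℤ) : ℝ) ^ 2 / Z ^ 2 ≤ Real.pi := by
      rw [mul_div_assoc]
      nlinarith [Real.pi_pos]
    linarith
  calc ‖BB ((y.2 : ℤ) * (y.1 : ℤ) ^ 2) x t‖ ^ 2 =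
      1 * ‖BB ((y.2 : ℤ) * (y.1 : ℤ) ^ 2) x t‖ ^ 2 := (one_mul _).symm
    _ ≤ (Real.exp Real.pi *
      Real.exp (-(Real.pi * (((y.2 : ℤ) * (y.1 : ℤ) ^ 2 : ℤ) : ℝ) ^ 2 / Z ^ 2))) *
        ‖BB ((y.2 : ℤ) * (y.1 : ℤ) ^ 2) x t‖ ^ 2 := by gcongr
    _ = _ := by ring

theorem prime_set : ∃ P₀ : ℝ, ∀ P : ℝ, P₀ ≤ P → ∃ T : Finset ℕ,
    (∀ p ∈ T, p.Prime ∧ 3 ≤ p ∧ P ^ (1 / 4 : ℝ) ≤ (p : ℝ) ∧ (p : ℝ) ≤ P) ∧ P ^ (1 / 2 : ℝ) / 8 ≤ T.card := by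
  refine ⟨20 ^ 4, fun P hP => ?_⟩
  have hP0 : 0 < P := by linarith [show (0 : ℝ) < 20 ^ 4 by norm_num]
  set r : ℝ := P ^ (1 / 4 : ℝ) with hr
  have hr0 : 0 < r := by positivity
  have hr4 : r ^ 4 = P := by
    rw [hr, ← Real.rpow_natCast, ← Real.rpow_mul hP0.le]
    norm_num
  have hr2 : P ^ (1 / 2 : ℝ) = r ^ 2 := by
    rw [hr, ← Real.rpow_natCast, ← Real.rpow_mul hP0.le]
    norm_num
  have hr20 : 20 ≤ r := by
    rw [← hr4] at hP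
    exact le_of_pow_le_pow_left₀ (by norm_num) hr0.le hP
  set N : ℕ := ⌊r ^ 2⌋₊ with hN
  have hN1 : (N : ℝ) ≤ r ^ 2 := Nat.floor_le (by positivity)
  have hN2 : r ^ 2 < N + 1 := Nat.lt_floor_add_one _
  have hN20 : 20 ≤ N := by
    rw [hN]
    apply Nat.le_floor
    push_cast
    nlinarith
  have hc := ZD.R.prime_count N hN20
  refine ⟨((Finset.Icc 11 (N ^ 2)).filter Nat.Prime).filter (fun p : ℕ => r ≤ (p : ℝ)), ?_, ?_⟩
  · intro p hp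
    rw [Finset.mem_filter, Finset.mem_filter, Finset.mem_Icc] at hp
    refine ⟨hp.1.2, by omega, hp.2, ?_⟩
    have h1 : (p : ℝ) ≤ (N : ℝ) ^ 2 := by exact_mod_cast hp.1.1.2
    calc (p : ℝ) ≤ (N : ℝ) ^ 2 := h1
      _ ≤ (r ^ 2) ^ 2 := by gcongr
      _ = P := by rw [← pow_mul, hr4]
  · rw [hr2]
    have h1 : (((Finset.Icc 11 (N ^ 2)).filter Nat.Prime).card : ℝ) ≤
        ((((Finset.Icc 11 (N ^ 2)).filter Nat.Prime).filter (fun p : ℕ => r ≤ (p : ℝ))).card : ℝ) + r := by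
      have h2 : ((Finset.Icc 11 (N ^ 2)).filter Nat.Prime) ⊆
          (((Finset.Icc 11 (N ^ 2)).filter Nat.Prime).filter (fun p : ℕ => r ≤ (p : ℝ))) ∪
            (Finset.Icc 1 ⌊r⌋₊) := by
        intro p hp
        rw [Finset.mem_union]
        by_cases h : r ≤ (p : ℝ)
        · exact Or.inl (Finset.mem_filter.2 ⟨hp, h⟩)
        · refine Or.inr (Finset.mem_Icc.2 ⟨?_, Nat.le_floor (not_le.1 h).le⟩)
          have := (Finset.mem_Icc.1 (Finset.mem_filter.1 hp).1).1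
          omega
      have h3 := (Finset.card_le_card h2).trans (Finset.card_union_le _ _)
      rw [Nat.card_Icc, Nat.add_sub_cancel] at h3
      have h4 : (⌊r⌋₊ : ℝ) ≤ r := Nat.floor_le hr0.le
      have h5 : (((Finset.Icc 11 (N ^ 2)).filter Nat.Prime).card : ℝ) ≤
        ((((Finset.Icc 11 (N ^ 2)).filter Nat.Prime).filter (fun p : ℕ => r ≤ (p : ℝ))).card : ℝ) +
          (⌊r⌋₊ : ℝ) := by exact_mod_cast h3
      linarith
    nlinarith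

end Pool.Agent.CZ
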