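import Mathlib
import Pool.Agent.CZ.IDefs
import Pool.Agent.CZ.IBAS
import Pool.Agent.CZ.IPOI
import Pool.Agent.CZ.IPRT
import Pool.Agent.CZ.IDIAG
import Pool.Agent.CZ.IDU

/-!
# Part (I), module STEP: one step of the recursion
-/

set_option autoImplicit false

open Complex Finset MeasureTheory

namespace Pool.Agent.CZ


/-! ### elementary inequalities -/

theorem st_poly (A : ℕ) {κ : ℝ} (hκ : 0 < κ) : ∃ C : ℝ, 0 < C ∧ ∀ y : ℝ, 0 ≤ y →
    (1 + y) ^ A ≤ C * Real.exp (κ * y) := by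
  refine ⟨A.factorial * Real.exp κ / κ ^ A, by positivity, fun y hy => ?_⟩
  have h := Real.pow_div_factorial_le_exp (κ * (1 + y)) (by positivity) A
  rw [div_le_iff₀ (by positivity), mul_pow, mul_add, mul_one, Real.exp_add] at h
  rw [div_mul_eq_mul_div, le_div_iff₀ (by positivity)]
  linarith

theorem st_rpow (a : ℝ) {κ : ℝ} (hκ : 0 < κ) : ∃ C : ℝ, 0 < C ∧ ∀ y : ℝ, 0 ≤ y →
    (1 + y) ^ a ≤ C * Real.exp (κ * y) := by
  obtain ⟨n, hn⟩ := exists_nat_ge a
  obtain ⟨C, hC, H⟩ := st_poly n hκ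
  refine ⟨C, hC, fun y hy => le_trans ?_ (H y hy)⟩
  rw [← Real.rpow_natCast]
  exact Real.rpow_le_rpow_of_exponent_le (by linarith) hn

theorem st_log {X : ℝ} (hX : 3 ≤ X) : 1 ≤ Real.log X := by
  have h3 : Real.exp 1 ≤ X := by linarith [Real.exp_one_lt_d9]
  have := Real.log_le_log (Real.exp_pos 1) h3
  rwa [Real.log_exp] at this

theorem st_card (X : ℝ) (hX : 0 ≤ X) : ((sqf X).card : ℝ) ≤ X := by
  have h1 : (sqf X).card ≤ ⌊X⌋₊ := by
    unfold sqf
    refine (Finset.card_filter_le _ _).trans ?_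
    rw [Nat.card_Icc]; omega
  calc ((sqf X).card : ℝ) ≤ (⌊X⌋₊ : ℝ) := by exact_mod_cast h1
    _ ≤ X := Nat.floor_le hX

/-- Poisson, absolute values -/
theorem st_poisson {Z : ℝ} (hZ : 1 ≤ Z) (x t : ℝ) :
    ∑' D : ℤ, Real.exp (-(Real.pi * D ^ 2 / Z ^ 2)) * ‖BB D x t‖ ^ 2 ≤
      Z * ‖PK 0 Z x t‖ + Z * ∑' k : ℤ, (if k = 0 then 0 else ‖PK k Z x t‖) := by
  obtain ⟨h1, h2, h3⟩ := P_poisson hZ x t
  have h4 : 0 ≤ ∑' D : ℤ, Real.exp (-(Real.pi * D ^ 2 / Z ^ 2)) * ‖BB D x t‖ ^ 2 :=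
    tsum_nonneg (fun D => by positivity)
  have h5 : ∑' D : ℤ, Real.exp (-(Real.pi * D ^ 2 / Z ^ 2)) * ‖BB D x t‖ ^ 2 =
      ‖((∑' D : ℤ, Real.exp (-(Real.pi * D ^ 2 / Z ^ 2)) * ‖BB D x t‖ ^ 2 : ℝ) : ℂ)‖ := by
    rw [Complex.norm_real, Real.norm_of_nonneg h4]
  rw [h5, h3, norm_mul, Complex.norm_real, Real.norm_of_nonneg (by linarith), ← mul_add]
  apply mul_le_mul_of_nonneg_left _ (by linarith)
  refine (norm_tsum_le_tsum_norm h2).trans (le_of_eq ?_)
  exact h2.tsum_eq_add_tsum_ite 0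

/-- the diagonal weight: `X log (3 + x)` -/
theorem st_diag {ε : ℝ} (hε : 0 < ε) : ∃ C : ℝ, 0 < C ∧ ∀ X x : ℝ, 3 ≤ X → 0 ≤ x →
    X * Real.log (3 + |x|) ≤ C * (X + Real.exp (3 / 2 * x) / Real.sqrt X) * (Real.log X) ^ ε := by
  refine ⟨6 ^ ε / ε + 3, by positivity, ?_⟩
  intro X x hX hx
  have hL := st_log hX
  set L := Real.log X with hLdef
  have hX0 : 0 < X := by linarith
  rw [abs_of_nonneg hx]
  have hLe : 1 ≤ L ^ ε := Real.one_le_rpow hL hε.le
  have hE : 0 ≤ Real.exp (3 / 2 * x) / Real.sqrt X := by positivity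
  rcases le_or_gt x (3 * L) with h | h
  · have h1 : Real.log (3 + x) ≤ 6 ^ ε / ε * L ^ ε := by
      have h2 := Real.log_le_rpow_div (show 0 ≤ 3 + x by linarith) hε
      refine h2.trans ?_
      rw [div_mul_eq_mul_div, ← Real.mul_rpow (by norm_num) (by linarith)]
      gcongr
      linarith
    calc X * Real.log (3 + x) ≤ X * (6 ^ ε / ε * L ^ ε) := by gcongr
      _ = 6 ^ ε / ε * X * L ^ ε := by ring
      _ ≤ _ := by
        have h3 : 0 ≤ (6 : ℝ) ^ ε / ε := by positivity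
        have h4 : 0 ≤ L ^ ε := by positivity
        apply mul_le_mul_of_nonneg_right _ h4
        nlinarith
  · have h1 : Real.log (3 + x) ≤ 3 * Real.exp (x / 3) := by
      have h2 := Real.add_one_le_exp (x / 3)
      have h3 := Real.log_le_sub_one_of_pos (show 0 < 3 + x by linarith)
      linarith
    have h2 : X ≤ Real.exp (x / 3) := by
      rw [← Real.exp_log hX0]
      apply Real.exp_le_exp.mpr
      linarith
    have h3 : Real.sqrt X ≤ Real.exp (x / 6) := by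
      rw [Real.sqrt_le_left (Real.exp_pos _).le, ← Real.exp_nat_mul]
      refine h2.trans (Real.exp_le_exp.mpr ?_)
      push_cast; linarith
    have h4 : Real.exp (4 / 3 * x) ≤ Real.exp (3 / 2 * x) / Real.sqrt X := by
      rw [le_div_iff₀ (Real.sqrt_pos.mpr hX0)]
      calc _ ≤ Real.exp (4 / 3 * x) * Real.exp (x / 6) := by gcongr
        _ = Real.exp (3 / 2 * x) := by rw [← Real.exp_add]; congr 1; ring
    have hlog0 : 0 ≤ Real.log (3 + x) := Real.log_nonneg (by linarith)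
    calc X * Real.log (3 + x) ≤ Real.exp (x / 3) * (3 * Real.exp (x / 3)) := by gcongr
      _ = 3 * Real.exp (2 / 3 * x) := by rw [mul_left_comm, ← Real.exp_add]; congr 2; ring
      _ ≤ 3 * Real.exp (4 / 3 * x) := by gcongr; linarith
      _ ≤ 3 * (Real.exp (3 / 2 * x) / Real.sqrt X) := by gcongr
      _ ≤ (6 ^ ε / ε + 3) * (X + Real.exp (3 / 2 * x) / Real.sqrt X) := by
        have h3 : 0 ≤ (6 : ℝ) ^ ε / ε := by positivity
        nlinarith [mul_nonneg h3 hE, mul_nonneg h3 hX0.le]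
      _ ≤ _ := by
        apply le_mul_of_one_le_right (by positivity) hLe

/-- the dual weight -/
theorem st_dual {a : ℝ} (ha : 0 ≤ a) : ∃ C : ℝ, 0 < C ∧ ∀ X Z x : ℝ, 3 ≤ X → X ≤ Z → 0 ≤ x →
    Real.exp x * (Real.log (3 + Real.exp (2 * x) / Z)) ^ a ≤
      C * (X + Real.exp (3 / 2 * x) / Real.sqrt X) * (Real.log X) ^ a := by
  obtain ⟨C, hC, H⟩ := st_rpow a (show (0 : ℝ) < 1 / 2 by norm_num)
  refine ⟨2 ^ a + 4 ^ a * C, by positivity, ?_⟩
  intro X Z x hX hZ hx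
  have hL := st_log hX
  set L := Real.log X with hLdef
  have hX0 : 0 < X := by linarith
  have hZ0 : 0 < Z := by linarith
  have hE : 0 ≤ Real.exp (3 / 2 * x) / Real.sqrt X := by positivity
  have hLa : 0 ≤ L ^ a := by positivity
  have hk0 : 0 ≤ Real.exp (2 * x) / Z := by positivity
  rcases le_or_gt x L with h | h
  · have h1 : Real.exp x ≤ X := by
      rw [← Real.exp_log hX0]; exact Real.exp_le_exp.mpr h
    have h2 : Real.exp (2 * x) / Z ≤ X := by
      rw [div_le_iff₀ hZ0, show (2 : ℝ) * x = x + x by ring, Real.exp_add]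
      have h0 := Real.exp_pos x
      nlinarith
    have h3 : Real.log (3 + Real.exp (2 * x) / Z) ≤ 2 * L := by
      rw [hLdef, show (2 : ℝ) * Real.log X = Real.log (X ^ 2) by rw [Real.log_pow]; push_cast; ring]
      apply Real.log_le_log (by positivity)
      nlinarith
    have h4 : (Real.log (3 + Real.exp (2 * x) / Z)) ^ a ≤ 2 ^ a * L ^ a := by
      rw [← Real.mul_rpow (by norm_num) (by linarith)]
      exact Real.rpow_le_rpow (Real.log_nonneg (by linarith)) h3 ha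
    have h5 : (0 : ℝ) ≤ 2 ^ a := by positivity
    have h6 : (0 : ℝ) ≤ 4 ^ a * C := by positivity
    calc _ ≤ X * (2 ^ a * L ^ a) := by
          apply mul_le_mul h1 h4 _ hX0.le
          exact Real.rpow_nonneg (Real.log_nonneg (by linarith)) _
      _ = 2 ^ a * X * L ^ a := by ring
      _ ≤ _ := by
        apply mul_le_mul_of_nonneg_right _ hLa
        nlinarith [mul_nonneg h5 hE, mul_nonneg h6 hE, mul_nonneg h6 hX0.le]
  · have h1 : Real.exp (2 * x) / Z ≤ Real.exp (2 * x) := by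
      apply div_le_self (Real.exp_pos _).le; linarith
    have h2 : Real.log (3 + Real.exp (2 * x) / Z) ≤ 4 * (L * (1 + (x - L))) := by
      have h3 : (1 : ℝ) ≤ Real.exp (2 * x) := Real.one_le_exp (by linarith)
      have h4 : Real.log (3 + Real.exp (2 * x) / Z) ≤ Real.log (4 * Real.exp (2 * x)) := by
        apply Real.log_le_log (by positivity)
        linarith
      rw [Real.log_mul (by norm_num) (Real.exp_pos _).ne', Real.log_exp] at h4
      have h5 : Real.log 4 ≤ 2 := by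
        rw [show (4 : ℝ) = 2 ^ 2 by norm_num, Real.log_pow]
        push_cast
        linarith [Real.log_two_lt_d9]
      nlinarith
    have h3 : (Real.log (3 + Real.exp (2 * x) / Z)) ^ a ≤
        4 ^ a * (L ^ a * (C * Real.exp (1 / 2 * (x - L)))) := by
      calc _ ≤ (4 * (L * (1 + (x - L)))) ^ a :=
            Real.rpow_le_rpow (Real.log_nonneg (by linarith)) h2 ha
        _ = 4 ^ a * (L ^ a * (1 + (x - L)) ^ a) := by
            have : 0 ≤ 1 + (x - L) := by linarith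
            rw [Real.mul_rpow (by norm_num) (by positivity), Real.mul_rpow (by linarith) this]
        _ ≤ _ := by
            have := H (x - L) (by linarith)
            gcongr
    have h4 : Real.exp x * Real.exp (1 / 2 * (x - L)) = Real.exp (3 / 2 * x) / Real.sqrt X := by
      rw [Real.sqrt_eq_rpow, Real.rpow_def_of_pos hX0, ← Real.exp_add, ← Real.exp_sub]
      congr 1
      ring
    have h5 : (0 : ℝ) ≤ 2 ^ a := by positivity
    have h6 : (0 : ℝ) ≤ 4 ^ a * C := by positivity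
    calc _ ≤ Real.exp x * (4 ^ a * (L ^ a * (C * Real.exp (1 / 2 * (x - L))))) := by gcongr
      _ = 4 ^ a * C * (Real.exp x * Real.exp (1 / 2 * (x - L))) * L ^ a := by ring
      _ = 4 ^ a * C * (Real.exp (3 / 2 * x) / Real.sqrt X) * L ^ a := by rw [h4]
      _ ≤ _ := by
        apply mul_le_mul_of_nonneg_right _ hLa
        nlinarith [mul_nonneg h5 hE, mul_nonneg h5 hX0.le, mul_nonneg h6 hX0.le]

/-- averaging the prime trick over a set of primes -/
theorem st_average {C : ℝ} (hC0 : 0 < C) (hC : ∀ (X x t B : ℝ) (p : ℕ), p.Prime → 3 ≤ p →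
    (∀ y : ℝ, ∑ q ∈ sqf X, ‖BB q y t‖ ^ 2 ≤ B) →
    ∑ q ∈ sqf X, ‖BB q x t‖ ^ 2 ≤
      2 * ∑ q ∈ sqf X, ‖BB (q * (p : ℤ) ^ 2) x t‖ ^ 2 + C * B / p)
    {X x t B P R : ℝ} (hX : 1 ≤ X) (hP : 1 ≤ P) (T : Finset ℕ) (hR : 0 < R)
    (hT : ∀ p ∈ T, p.Prime ∧ 3 ≤ p ∧ R ≤ (p : ℝ) ∧ (p : ℝ) ≤ P)
    (hB : ∀ y : ℝ, ∑ q ∈ sqf X, ‖BB q y t‖ ^ 2 ≤ B) (hB0 : 0 ≤ B) :
    (T.card : ℝ) * ∑ q ∈ sqf X, ‖BB q x t‖ ^ 2 ≤
      2 * Real.exp Real.pi * (X * P ^ 2 * ‖PK 0 (X * P ^ 2) x t‖ + X * P ^ 2 *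
        ∑' k : ℤ, (if k = 0 then 0 else ‖PK k (X * P ^ 2) x t‖)) + T.card * (C * B / R) := by
  have h1 : ∀ p ∈ T, ∑ q ∈ sqf X, ‖BB q x t‖ ^ 2 ≤
      2 * ∑ q ∈ sqf X, ‖BB (q * (p : ℤ) ^ 2) x t‖ ^ 2 + C * B / R := by
    intro p hp
    obtain ⟨a1, a2, a3, a4⟩ := hT p hp
    refine (hC X x t B p a1 a2 hB).trans ?_
    gcongr
  have h2 := Finset.sum_le_sum h1
  rw [Finset.sum_const, nsmul_eq_mul, Finset.sum_add_distrib, ← Finset.mul_sum, Finset.sum_const,
    nsmul_eq_mul] at h2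
  have h3 := prime_sum (X := X) (x := x) (t := t) (P := P) hX hP T
    (fun p hp => ⟨(hT p hp).1, (hT p hp).2.1, (hT p hp).2.2.2⟩)
  have h4 := st_poisson (Z := X * P ^ 2) (by nlinarith [one_le_pow₀ hP (n := 2)]) x t
  have h5 := mul_le_mul_of_nonneg_left h4 (Real.exp_pos Real.pi).le
  nlinarith

theorem I_step (ε : ℝ) (hε : 0 < ε) (h1 : ε ≤ 1) : ∃ δ : ℝ, 0 < δ ∧ ∀ a : ℝ, 0 ≤ a → HypE a →
    HypL (max ε (a - δ)) := by
  refine ⟨ε / 16, by positivity, fun a ha h κ hκ => ?_⟩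
  obtain ⟨C1, hC1, H1⟩ := BB_crude 0
  obtain ⟨C2, hC2, H2⟩ := prime_trick
  obtain ⟨P₀, H3⟩ := prime_set
  obtain ⟨C4, A4, hC4, H4⟩ := PK0_le
  obtain ⟨C5, hC5, H5⟩ := dual_sum ha h κ hκ
  obtain ⟨C6, hC6, H6⟩ := h κ hκ
  obtain ⟨C7, hC7, H7⟩ := st_diag (show 0 < ε / 2 by positivity)
  obtain ⟨C8, hC8, H8⟩ := st_dual ha
  obtain ⟨C9, hC9, H9⟩ := st_poly A4 hκ
  set b := max ε (a - ε / 16) with hb
  have hbε : ε ≤ b := le_max_left _ _
  have hba : a - ε / 16 ≤ b := le_max_right _ _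
  set L₀ := (max P₀ 1) ^ (4 / ε) with hL₀
  have hL₀1 : 1 ≤ L₀ := Real.one_le_rpow (le_max_right _ _) (by positivity)
  refine ⟨C1 ^ 2 + C6 * L₀ ^ a + (16 * Real.exp Real.pi * (C4 * C7 * C9 + C5 * C8) + C2 * C6),
    by positivity, ?_⟩
  intro X x t hX
  have hL := st_log hX
  have hX0 : 0 < X := by linarith
  set L := Real.log X with hLdef
  have hL0 : 0 < L := by linarith
  set Y := X + Real.exp (3 / 2 * x) / Real.sqrt X with hY
  have hXY : X ≤ Y := by
    have : 0 ≤ Real.exp (3 / 2 * x) / Real.sqrt X := by positivity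
    linarith
  have hY0 : 0 < Y := by linarith
  have hLb : 1 ≤ L ^ b := Real.one_le_rpow hL (by linarith)
  set E := Real.exp (κ * |t|) with hE
  have hE1 : 1 ≤ E := Real.one_le_exp (by positivity)
  have hYLE : X ≤ Y * L ^ b * E := by
    calc X ≤ Y := hXY
      _ ≤ Y * L ^ b := le_mul_of_one_le_right hY0.le hLb
      _ ≤ _ := le_mul_of_one_le_right (by positivity) hE1
  have hW0 : 0 ≤ Y * L ^ b * E := by positivity
  -- it is enough to bound by one of the three constants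
  suffices hs : ∑ q ∈ sqf X, ‖BB q x t‖ ^ 2 ≤ C1 ^ 2 * (Y * L ^ b * E) ∨
      ∑ q ∈ sqf X, ‖BB q x t‖ ^ 2 ≤ C6 * L₀ ^ a * (Y * L ^ b * E) ∨
      ∑ q ∈ sqf X, ‖BB q x t‖ ^ 2 ≤ (16 * Real.exp Real.pi * (C4 * C7 * C9 + C5 * C8) + C2 * C6) *
        (Y * L ^ b * E) by
    have p1 : 0 ≤ C1 ^ 2 * (Y * L ^ b * E) := by positivity
    have p2 : 0 ≤ C6 * L₀ ^ a * (Y * L ^ b * E) := by positivity
    have p3 : 0 ≤ (16 * Real.exp Real.pi * (C4 * C7 * C9 + C5 * C8) + C2 * C6) *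
        (Y * L ^ b * E) := by positivity
    have e : (C1 ^ 2 + C6 * L₀ ^ a + (16 * Real.exp Real.pi * (C4 * C7 * C9 + C5 * C8) + C2 * C6)) *
        Y * L ^ b * E = C1 ^ 2 * (Y * L ^ b * E) + C6 * L₀ ^ a * (Y * L ^ b * E) +
        (16 * Real.exp Real.pi * (C4 * C7 * C9 + C5 * C8) + C2 * C6) * (Y * L ^ b * E) := by ring
    rw [e]
    rcases hs with h | h | h <;> linarith
  rcases le_or_gt x 0 with hx | hx
  · -- trivial range
    left
    calc ∑ q ∈ sqf X, ‖BB q x t‖ ^ 2 ≤ ∑ q ∈ sqf X, C1 ^ 2 := by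
          apply Finset.sum_le_sum
          intro q _
          have h2 := H1 q x t
          have h3 : Real.exp ((((0 : ℕ) : ℝ) + 1) * x) ≤ 1 := by
            rw [Real.exp_le_one_iff]; push_cast; linarith
          have h4 : ‖BB q x t‖ ≤ C1 := h2.trans (mul_le_of_le_one_right hC1.le h3)
          gcongr
      _ = (sqf X).card * C1 ^ 2 := by rw [Finset.sum_const, nsmul_eq_mul]
      _ ≤ X * C1 ^ 2 := by
          apply mul_le_mul_of_nonneg_right (st_card X hX0.le) (by positivity)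
      _ = C1 ^ 2 * X := by ring
      _ ≤ _ := by gcongr
  rcases lt_or_ge L L₀ with hLs | hLs
  · -- small `X`
    right; left
    calc ∑ q ∈ sqf X, ‖BB q x t‖ ^ 2 ≤ C6 * X * L ^ a * E := H6 X x t hX
      _ ≤ C6 * Y * L₀ ^ a * (E * L ^ b) := by
          have : E ≤ E * L ^ b := le_mul_of_one_le_right (by positivity) hLb
          gcongr
      _ = _ := by ring
  · -- main range
    right; right
    set P := L ^ (ε / 4) with hP
    have hP1 : 1 ≤ P := Real.one_le_rpow hL (by positivity)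
    have hPP : P₀ ≤ P := by
      calc P₀ ≤ max P₀ 1 := le_max_left _ _
        _ = L₀ ^ (ε / 4) := by
            rw [hL₀, ← Real.rpow_mul (by positivity), show 4 / ε * (ε / 4) = 1 by field_simp,
              Real.rpow_one]
        _ ≤ P := Real.rpow_le_rpow (by linarith) hLs (by positivity)
    obtain ⟨T, hT, hTc⟩ := H3 P hPP
    have hR : P ^ (1 / 4 : ℝ) = L ^ (ε / 16) := by
      rw [hP, ← Real.rpow_mul hL0.le]; congr 1; ring
    have hM : P ^ (1 / 2 : ℝ) = L ^ (ε / 8) := by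
      rw [hP, ← Real.rpow_mul hL0.le]; congr 1; ring
    have hP2 : P ^ 2 = L ^ (ε / 2) := by
      rw [hP, ← Real.rpow_natCast, ← Real.rpow_mul hL0.le]; congr 1; push_cast; ring
    rw [hR] at hT
    rw [hM] at hTc
    set B := C6 * X * L ^ a * E with hB
    have hB0 : 0 ≤ B := by positivity
    have hav := st_average hC2 H2 (x := x) (t := t) (by linarith : (1 : ℝ) ≤ X) hP1 T
      (Real.rpow_pos_of_pos hL0 _) hT (fun y => H6 X y t hX) hB0
    set Z := X * P ^ 2 with hZ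
    have hXZ : X ≤ Z := by
      have : 1 ≤ P ^ 2 := one_le_pow₀ hP1
      nlinarith
    set M := (T.card : ℝ) with hMdef
    have hMpos : 0 < L ^ (ε / 8) / 8 := by positivity
    have hM0 : 0 < M := lt_of_lt_of_le hMpos hTc
    -- the diagonal
    have q1 : Z * ‖PK 0 Z x t‖ ≤ C4 * C7 * C9 * (L ^ (ε / 2) * (Y * L ^ (ε / 2) * E)) := by
      have r1 := H4 Z x t
      have r2 := H7 X x hX hx.le
      have r3 := H9 |t| (abs_nonneg t)
      have r4 : 0 ≤ Real.log (3 + |x|) := Real.log_nonneg (by linarith [abs_nonneg x])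
      calc Z * ‖PK 0 Z x t‖ ≤ Z * (C4 * (1 + |t|) ^ A4 * Real.log (3 + |x|)) := by
            gcongr
        _ = C4 * (1 + |t|) ^ A4 * P ^ 2 * (X * Real.log (3 + |x|)) := by rw [hZ]; ring
        _ ≤ C4 * (C9 * E) * P ^ 2 * (C7 * Y * L ^ (ε / 2)) := by gcongr
        _ = _ := by rw [hP2]; ring
    have q2 : Z * (∑' k : ℤ, if k = 0 then 0 else ‖PK k Z x t‖) ≤ C5 * C8 * (Y * L ^ a * E) := by
      have r1 := H5 Z x t (by linarith)
      have r2 := H8 X Z x hX hXZ hx.le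
      calc _ ≤ _ := r1
        _ = C5 * (Real.exp x * (Real.log (3 + Real.exp (2 * x) / Z)) ^ a) * E := by ring
        _ ≤ C5 * (C8 * Y * L ^ a) * E := by gcongr
        _ = _ := by ring
    -- divide by `M`
    have hS0 : 0 ≤ ∑ q ∈ sqf X, ‖BB q x t‖ ^ 2 := Finset.sum_nonneg (fun q _ => by positivity)
    have d1 : ∑ q ∈ sqf X, ‖BB q x t‖ ^ 2 ≤ 2 * Real.exp Real.pi * (Z * ‖PK 0 Z x t‖ +
        Z * ∑' k : ℤ, (if k = 0 then 0 else ‖PK k Z x t‖)) / M + C2 * B / L ^ (ε / 16) := by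
      rw [← sub_le_iff_le_add, le_div_iff₀ hM0]
      have e : (∑ q ∈ sqf X, ‖BB q x t‖ ^ 2 - C2 * B / L ^ (ε / 16)) * M =
          M * ∑ q ∈ sqf X, ‖BB q x t‖ ^ 2 - M * (C2 * B / L ^ (ε / 16)) := by ring
      rw [e]
      linarith
    have d2 : 2 * Real.exp Real.pi * (Z * ‖PK 0 Z x t‖ +
        Z * ∑' k : ℤ, (if k = 0 then 0 else ‖PK k Z x t‖)) / M ≤
        2 * Real.exp Real.pi * (C4 * C7 * C9 * (L ^ (ε / 2) * (Y * L ^ (ε / 2) * E)) +
          C5 * C8 * (Y * L ^ a * E)) / (L ^ (ε / 8) / 8) := by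
      have p0 : 0 ≤ ∑' k : ℤ, (if k = 0 then 0 else ‖PK k Z x t‖) :=
        tsum_nonneg (fun k => by split_ifs <;> positivity)
      gcongr
    have f1 : L ^ (ε / 2) * L ^ (ε / 2) / L ^ (ε / 8) ≤ L ^ b := by
      rw [← Real.rpow_add hL0, ← Real.rpow_sub hL0]
      exact Real.rpow_le_rpow_of_exponent_le hL (by linarith)
    have f2 : L ^ a / L ^ (ε / 8) ≤ L ^ b := by
      rw [← Real.rpow_sub hL0]
      exact Real.rpow_le_rpow_of_exponent_le hL (by linarith)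
    have f3 : L ^ a / L ^ (ε / 16) ≤ L ^ b := by
      rw [← Real.rpow_sub hL0]
      exact Real.rpow_le_rpow_of_exponent_le hL (by linarith)
    calc ∑ q ∈ sqf X, ‖BB q x t‖ ^ 2 ≤ _ := d1
      _ ≤ 2 * Real.exp Real.pi * (C4 * C7 * C9 * (L ^ (ε / 2) * (Y * L ^ (ε / 2) * E)) +
          C5 * C8 * (Y * L ^ a * E)) / (L ^ (ε / 8) / 8) + C2 * B / L ^ (ε / 16) := by gcongr
      _ = 16 * Real.exp Real.pi * (C4 * C7 * C9 * (Y * E * (L ^ (ε / 2) * L ^ (ε / 2) / L ^ (ε / 8)))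
          + C5 * C8 * (Y * E * (L ^ a / L ^ (ε / 8)))) + C2 * C6 * (X * E * (L ^ a / L ^ (ε / 16))) := by
          rw [hB]
          field_simp
          ring
      _ ≤ 16 * Real.exp Real.pi * (C4 * C7 * C9 * (Y * E * L ^ b)
          + C5 * C8 * (Y * E * L ^ b)) + C2 * C6 * (Y * E * L ^ b) := by gcongr
      _ = _ := by ring

end Pool.Agent.CZ
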