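import Mathlib
import Pool.Agent.CZ.IDefs
import Pool.Agent.CZ.ISTEP
import Pool.Agent.CZ.IFES
import Pool.Agent.CZ.IAP

/-!
# Part (I), module FIN: the final bound for Gaussian blocks
-/

set_option autoImplicit false

open Complex Finset MeasureTheory

namespace Pool.Agent.CZ


theorem fin_mono {a b : ℝ} (hab : a ≤ b) (h : HypE a) : HypE b := by
  intro κ hκ
  obtain ⟨C, hC, H⟩ := h κ hκ
  refine ⟨C, hC, fun X x t hX => (H X x t hX).trans ?_⟩
  have hL : 1 ≤ Real.log X := by
    have h3 : Real.exp 1 ≤ X := by linarith [Real.exp_one_lt_d9]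
    have := Real.log_le_log (Real.exp_pos 1) h3
    rwa [Real.log_exp] at this
  have h1 : (Real.log X) ^ a ≤ (Real.log X) ^ b := Real.rpow_le_rpow_of_exponent_le hL hab
  have h2 : 0 < X := by linarith
  gcongr

theorem HypE_all (ε : ℝ) (hε : 0 < ε) : HypE ε := by
  obtain ⟨A, hA⟩ := I_apriori
  obtain ⟨δ, hδ, hstep⟩ := I_step (min ε 1) (by positivity) (min_le_right _ _)
  have hε' : 0 < min ε 1 := by positivity
  have key : ∀ n : ℕ, HypE (max (min ε 1) (A - n * δ)) := by
    intro n
    induction n with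
    | zero =>
      refine fin_mono ?_ hA
      have := le_max_right (min ε 1) ((A : ℝ) - ((0 : ℕ) : ℝ) * δ)
      push_cast at this ⊢
      linarith
    | succ n ih =>
      have h0 : 0 ≤ max (min ε 1) ((A : ℝ) - n * δ) := hε'.le.trans (le_max_left _ _)
      have h1 := HypE_of_HypL (hε'.le.trans (le_max_left _ _)) (hstep _ h0 ih)
      refine fin_mono ?_ h1
      apply max_le (le_max_left _ _)
      rw [sub_le_iff_le_add]
      apply max_le
      · have := le_max_left (min ε 1) ((A : ℝ) - ((n + 1 : ℕ) : ℝ) * δ)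
        linarith
      · have := le_max_right (min ε 1) ((A : ℝ) - ((n + 1 : ℕ) : ℝ) * δ)
        push_cast at this ⊢
        linarith
  obtain ⟨n, hn⟩ := exists_nat_ge ((A : ℝ) / δ)
  refine fin_mono ?_ (key n)
  apply max_le (min_le_left _ _)
  rw [div_le_iff₀ hδ] at hn
  linarith

end Pool.Agent.CZ
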