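import Mathlib
import Pool.Agent.CZ.Defs
import Pool.Agent.CZ.IFIN
import Pool.Agent.CZ.ICMB

/-!
# Critical zeros (MP_553913_nt), part (I): theta blocks on the border, final form
-/

set_option autoImplicit false

open Complex Finset MeasureTheory

namespace Pool.Agent.CZ

theorem central_moment (ε : ℝ) (hε : 0 < ε) : ∃ A : ℝ, ∀ (X x : ℝ), 3 ≤ X → 0 ≤ x →
    ∑ d ∈ (Finset.Icc 1 ⌊X⌋₊).filter Squarefree, ‖sB d (Md d) x‖ ^ 2 ≤
      A * X * (Real.log X) ^ ε := by
  obtain ⟨A, h⟩ := central_moment_of hε.le (HypE_all ε hε)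
  exact ⟨A, fun X x hX _ => h X x hX⟩

end Pool.Agent.CZ
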