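import Mathlib
import Pool.Agent.CZ.Defs
import Pool.Agent.CZ.W
import Pool.Agent.CZ.PSI
import Pool.Agent.CZ.EWI
import Pool.Agent.CZ.ECE
import Pool.Agent.CZ.ICM

/-!
# Critical zeros (MP_553913_nt), part E: upper bound for the smoothed integral
-/

set_option autoImplicit false

open Complex Finset MeasureTheory

namespace Pool.Agent.CZ

open Pool.Agent.H5 (c bd)
open Pool.Agent.ZD (S T Lf nu tau gk eps MM)

namespace EUP

lemma fin_meas {T₁ T₂ : ℝ} (p : ℝ → Prop) : volume {t : ℝ | t ∈ Set.Icc T₁ T₂ ∧ p t} ≠ ⊤ := by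
  refine (lt_of_le_of_lt (measure_mono (?_ : {t : ℝ | t ∈ Set.Icc T₁ T₂ ∧ p t} ⊆ Set.Icc T₁ T₂)) ?_).ne
  · intro t ht; exact ht.1
  · rw [Real.volume_Icc]; exact ENNReal.ofReal_lt_top

lemma triv_meas {T₁ T₂ : ℝ} (hT : T₁ ≤ T₂) (p : ℝ → Prop) :
    (volume {t : ℝ | t ∈ Set.Icc T₁ T₂ ∧ p t}).toReal ≤ T₂ - T₁ := by
  have h1 : volume {t : ℝ | t ∈ Set.Icc T₁ T₂ ∧ p t} ≤ volume (Set.Icc T₁ T₂) :=
    measure_mono (fun t ht => ht.1)
  rw [Real.volume_Icc] at h1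
  exact (ENNReal.toReal_mono ENNReal.ofReal_ne_top h1).trans
    (by rw [ENNReal.toReal_ofReal (by linarith)])

lemma union_meas {T₁ T₂ : ℝ} {p q : ℝ → Prop} {J : ℕ} {r : ℕ → ℝ → Prop}
    (h : ∀ t ∈ Set.Icc T₁ T₂, p t → q t ∨ ∃ j < J, r j t) :
    (volume {t : ℝ | t ∈ Set.Icc T₁ T₂ ∧ p t}).toReal ≤
      (volume {t : ℝ | t ∈ Set.Icc T₁ T₂ ∧ q t}).toReal +
      ∑ j ∈ range J, (volume {t : ℝ | t ∈ Set.Icc T₁ T₂ ∧ r j t}).toReal := by
  rw [← ENNReal.toReal_sum (fun j _ => fin_meas (r j)),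
    ← ENNReal.toReal_add (fin_meas q) (ENNReal.sum_ne_top.2 (fun j _ => fin_meas (r j)))]
  refine ENNReal.toReal_mono (ENNReal.add_ne_top.2 ⟨fin_meas q,
    ENNReal.sum_ne_top.2 (fun j _ => fin_meas (r j))⟩) ?_
  have hsub : {t : ℝ | t ∈ Set.Icc T₁ T₂ ∧ p t} ⊆ {t : ℝ | t ∈ Set.Icc T₁ T₂ ∧ q t} ∪
      ⋃ j ∈ range J, {t : ℝ | t ∈ Set.Icc T₁ T₂ ∧ r j t} := by
    rintro t ⟨ht, hp⟩
    rcases h t ht hp with h1 | ⟨j, hj, h1⟩
    · exact Or.inl ⟨ht, h1⟩
    · refine Or.inr ?_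
      rw [Set.mem_iUnion₂]
      exact ⟨j, Finset.mem_range.2 hj, ht, h1⟩
  refine (measure_mono hsub).trans ((measure_union_le _ _).trans (add_le_add le_rfl ?_))
  exact measure_biUnion_finset_le _ _

lemma card_le (X : ℕ) : (((Ioc X (2 * X)).filter Squarefree).card : ℝ) ≤ X := by
  have : ((Ioc X (2 * X)).filter Squarefree).card ≤ X := by
    refine (Finset.card_filter_le _ _).trans ?_
    rw [Nat.card_Ioc]; omega
  exact_mod_cast this

lemma Md_pos {d : ℕ} (hd : 0 < d) : 0 < Md d := by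
  have : (0:ℝ) < d := by exact_mod_cast hd
  unfold Md
  split_ifs <;> positivity

lemma eta_cont : Continuous eta := by
  unfold eta
  exact Real.smoothTransition.continuous.comp (by fun_prop)

lemma eta_one {x : ℝ} (hx : x ≤ 1) : eta x = 1 := by
  unfold eta
  exact Real.smoothTransition.one_of_one_le (by linarith)

lemma eta_zero {x : ℝ} (hx : 2 ≤ x) : eta x = 0 := by
  unfold eta
  exact Real.smoothTransition.zero_of_nonpos (by linarith)

lemma what_cont {K : ℕ} (hK : 1 ≤ K) : Continuous (what K) :=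
  (what_contDiff (K := K) (n := 0) (by omega)).continuous

/-- telescoping identity for the partition of unity -/
lemma partition {K : ℕ} (hK : 1 ≤ K) {L h t₀ δ' b : ℝ} {J : ℕ} (hL : 1 ≤ L) (hh : h = L ^ (-b))
    (hJ : b ≤ (J + 1) * δ') (x : ℝ) :
    exp (I * t₀ * x) * what K (h * x) =
      exp (I * t₀ * x) * what K (h * x) * (eta (x / L ^ δ') : ℂ) +
      ∑ j ∈ range J, Psi K h t₀ (L ^ ((j + 1 : ℕ) * δ')) (L ^ ((j + 1 : ℕ) * δ' + δ')) x := by
  have hL0 : 0 < L := by linarith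
  obtain ⟨f, hf⟩ : ∃ f : ℕ → ℂ, ∀ i, f i = ((eta (x / L ^ ((i + 1 : ℕ) * δ')) : ℝ) : ℂ) :=
    ⟨_, fun i => rfl⟩
  have h1 : ∀ j ∈ range J, Psi K h t₀ (L ^ ((j + 1 : ℕ) * δ')) (L ^ ((j + 1 : ℕ) * δ' + δ')) x =
      exp (I * t₀ * x) * what K (h * x) * (f (j + 1) - f j) := by
    intro j _
    rw [hf, hf]
    unfold Psi
    have e1 : ((j + 1 : ℕ) : ℝ) * δ' + δ' = ((j + 1 + 1 : ℕ) : ℝ) * δ' := by push_cast; ring
    rw [e1]
    push_cast
    ring
  rw [Finset.sum_congr rfl h1, ← Finset.mul_sum, Finset.sum_range_sub]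
  have e2 : f 0 = ((eta (x / L ^ δ') : ℝ) : ℂ) := by
    rw [hf]; simp
  rw [e2, hf]
  by_cases hx : x ≤ L ^ ((J + 1 : ℕ) * δ')
  · have : eta (x / L ^ ((J + 1 : ℕ) * δ')) = 1 := by
      apply eta_one
      rw [div_le_one (by positivity)]
      exact hx
    rw [this]
    push_cast
    ring
  · have hwz : what K (h * x) = 0 := by
      apply what_eq_zero hK
      rw [not_le] at hx
      have h2 : L ^ b ≤ L ^ (((J + 1 : ℕ) : ℝ) * δ') := by
        apply Real.rpow_le_rpow_of_exponent_le hL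
        push_cast
        exact hJ
      have h3 : L ^ b ≤ x := by linarith
      have h4 : 1 ≤ h * x := by
        rw [hh]
        calc (1:ℝ) = L ^ (-b) * L ^ b := by rw [← Real.rpow_add hL0]; simp
          _ ≤ L ^ (-b) * x := by gcongr
      exact h4.trans (le_abs_self _)
    rw [hwz]
    ring

/-- decomposition of the integral -/
lemma decomp {K : ℕ} (hK : 3 ≤ K) {D : ℤ} {M L h t₀ δ' b : ℝ} {J : ℕ} (hM : 0 < M) (hL : 1 ≤ L)
    (hδ : 0 < δ') (hh : h = L ^ (-b)) (hJ : b ≤ (J + 1) * δ') :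
    ∫ x in Set.Ioi (0 : ℝ), sB D M x * (exp (I * t₀ * x) * what K (h * x)) =
      (∫ x in Set.Ioi (0 : ℝ), sB D M x * (exp (I * t₀ * x) * what K (h * x) * (eta (x / L ^ δ') : ℂ))) +
      ∑ j ∈ range J, FF D M (Psi K h t₀ (L ^ ((j + 1 : ℕ) * δ')) (L ^ ((j + 1 : ℕ) * δ' + δ'))) := by
  have hL0 : 0 < L := by linarith
  have hsB : Continuous (sB D M) := sB_continuous hM
  have hw := what_cont (K := K) (by omega)
  -- integrability of the central part
  have hi1 : IntegrableOn (fun x : ℝ => sB D M x * (exp (I * t₀ * x) * what K (h * x) *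
      (eta (x / L ^ δ') : ℂ))) (Set.Ioi 0) := by
    have hcont : Continuous (fun x : ℝ => sB D M x * (exp (I * t₀ * x) * what K (h * x) *
      (eta (x / L ^ δ') : ℂ))) := by
      have h2 : Continuous (fun x : ℝ => what K (h * x)) := hw.comp (by fun_prop)
      have h3 : Continuous (fun x : ℝ => ((eta (x / L ^ δ') : ℝ) : ℂ)) :=
        continuous_ofReal.comp (eta_cont.comp (by fun_prop))
      have h4 : Continuous (fun x : ℝ => exp (I * t₀ * x)) := by fun_prop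
      exact hsB.mul ((h4.mul h2).mul h3)
    have hsplit : Set.Ioi (0:ℝ) ⊆ Set.Icc 0 (2 * L ^ δ') ∪ Set.Ioi (2 * L ^ δ') := by
      intro x hx
      rcases le_or_gt x (2 * L ^ δ') with h | h
      · exact Or.inl ⟨(Set.mem_Ioi.1 hx).le, h⟩
      · exact Or.inr h
    refine IntegrableOn.mono_set (IntegrableOn.union ?_ ?_) hsplit
    · exact hcont.continuousOn.integrableOn_Icc
    · refine (integrableOn_zero : IntegrableOn (fun _ : ℝ => (0 : ℂ)) (Set.Ioi (2 * L ^ δ'))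
        volume).congr_fun ?_ measurableSet_Ioi
      intro x hx
      have : eta (x / L ^ δ') = 0 := by
        apply eta_zero
        rw [le_div_iff₀ (by positivity)]
        exact (Set.mem_Ioi.1 hx).le
      simp [this]
  have hAj : ∀ j : ℕ, 0 < L ^ ((j + 1 : ℕ) * δ') ∧
      L ^ ((j + 1 : ℕ) * δ') ≤ L ^ ((j + 1 : ℕ) * δ' + δ') := by
    intro j
    exact ⟨by positivity, Real.rpow_le_rpow_of_exponent_le hL (by linarith)⟩
  have hi2 : ∀ j : ℕ, Integrable (fun x : ℝ => sB D M x *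
      Psi K h t₀ (L ^ ((j + 1 : ℕ) * δ')) (L ^ ((j + 1 : ℕ) * δ' + δ')) x) := by
    intro j
    have hc : HasCompactSupport (Psi K h t₀ (L ^ ((j + 1 : ℕ) * δ')) (L ^ ((j + 1 : ℕ) * δ' + δ'))) :=
      Psi_compact (hAj j).1 (hAj j).2
    have hcont : Continuous (Psi K h t₀ (L ^ ((j + 1 : ℕ) * δ')) (L ^ ((j + 1 : ℕ) * δ' + δ'))) :=
      (Psi_contDiff (K := K) (by omega)).continuous
    exact (hsB.mul hcont).integrable_of_hasCompactSupport hc.mul_left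
  have hFF : ∀ j : ℕ, FF D M (Psi K h t₀ (L ^ ((j + 1 : ℕ) * δ')) (L ^ ((j + 1 : ℕ) * δ' + δ'))) =
      ∫ x in Set.Ioi (0 : ℝ), sB D M x *
        Psi K h t₀ (L ^ ((j + 1 : ℕ) * δ')) (L ^ ((j + 1 : ℕ) * δ' + δ')) x := by
    intro j
    unfold FF
    symm
    apply setIntegral_eq_integral_of_forall_compl_eq_zero
    intro x hx
    rw [Set.mem_Ioi, not_lt] at hx
    rw [(Psi_support (hAj j).1 (hAj j).2 (Or.inl (hx.trans (hAj j).1.le))).1, mul_zero]
  rw [Finset.sum_congr rfl (fun j _ => hFF j),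
    ← integral_finsetSum _ (fun j _ => (hi2 j).integrableOn),
    ← integral_add hi1 (integrable_finsetSum _ (fun j _ => (hi2 j).integrableOn))]
  refine setIntegral_congr_fun measurableSet_Ioi (fun x _ => ?_)
  have hp := partition (K := K) (t₀ := t₀) (by omega) hL hh hJ x
  calc sB D M x * (exp (I * t₀ * x) * what K (h * x))
      = sB D M x * (exp (I * t₀ * x) * what K (h * x) * (eta (x / L ^ δ') : ℂ) +
        ∑ j ∈ range J, Psi K h t₀ (L ^ ((j + 1 : ℕ) * δ')) (L ^ ((j + 1 : ℕ) * δ' + δ')) x) := by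
        rw [← hp]
    _ = _ := by rw [mul_add, Finset.mul_sum]

end EUP

open EUP in
/-- EUP: upper bound (uses EWI, ECE) -/
theorem E_up : ∃ K₀ : ℕ, ∀ (K : ℕ) (T₁ T₂ b δ : ℝ), K₀ ≤ K → 0 < T₁ → T₁ < T₂ → 0 < b → b < 1 →
    0 < δ → ∃ κ C : ℝ, 0 < κ ∧ ∀ X : ℕ, 3 ≤ X →
    ∑ d ∈ (Ioc X (2 * X)).filter Squarefree, (volume {t₀ : ℝ | t₀ ∈ Set.Icc T₁ T₂ ∧
      (Real.log X) ^ δ < ‖∫ x in Set.Ioi (0 : ℝ), sB d (Md d) x *
        (exp (I * t₀ * x) * what K ((Real.log X) ^ (-b) * x))‖}).toReal ≤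
      C * X / (Real.log X) ^ κ := by
  obtain ⟨K₀, hwin⟩ := E_win
  refine ⟨max K₀ 3, ?_⟩
  intro K T₁ T₂ b δ hK hT₁ hT hb hb1 hδ
  have hK3 : 3 ≤ K := (le_max_right _ _).trans hK
  obtain ⟨δ', κw, Cw, hδ'0, hδ'1, hκw, hw⟩ := hwin K T₁ T₂ b (δ / 4) ((le_max_left _ _).trans hK) hT₁ hT
    hb hb1 (by linarith)
  obtain ⟨κc, Cc, hκc, hcen⟩ := E_cen_of central_moment K hK3 T₁ T₂ b (δ / 2) hT₁ hT hb (by linarith)
  set J : ℕ := ⌊b / δ'⌋₊ with hJdef
  have hJ1 : (J : ℝ) * δ' ≤ b := by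
    rw [← le_div_iff₀ hδ'0]
    exact Nat.floor_le (by positivity)
  have hJ2 : b ≤ (J + 1) * δ' := by
    rw [← div_le_iff₀ hδ'0]
    exact (Nat.lt_floor_add_one _).le
  set κ : ℝ := min κw κc with hκ
  have hκ0 : 0 < κ := lt_min hκw hκc
  set L₀ : ℝ := ((J : ℝ) + 1) ^ (2 / δ) with hL₀
  have hTT : 0 < T₂ - T₁ := by linarith
  refine ⟨κ, (T₂ - T₁) * L₀ ^ κ + (|Cc| + J * |Cw|), hκ0, ?_⟩
  intro X hX
  have hX3 : (3:ℝ) ≤ X := by exact_mod_cast hX
  have hX0 : (0:ℝ) < X := by linarith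
  set L : ℝ := Real.log X with hLdef
  have hL1 : 1 ≤ L := by
    rw [hLdef, Real.le_log_iff_exp_le (by linarith)]
    have := Real.exp_one_lt_d9
    linarith
  have hL0 : 0 < L := by linarith
  have hLκ : 0 < L ^ κ := by positivity
  have hL₀0 : 0 ≤ L₀ := by positivity
  rcases le_or_gt L₀ L with hLL₀ | hLL₀
  swap
  · have h1 : ∀ d ∈ (Ioc X (2 * X)).filter Squarefree, (volume {t₀ : ℝ | t₀ ∈ Set.Icc T₁ T₂ ∧
        L ^ δ < ‖∫ x in Set.Ioi (0 : ℝ), sB d (Md d) x *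
        (exp (I * t₀ * x) * what K (L ^ (-b) * x))‖}).toReal ≤ T₂ - T₁ :=
      fun d _ => triv_meas hT.le _
    refine (Finset.sum_le_sum h1).trans ?_
    rw [Finset.sum_const, nsmul_eq_mul, le_div_iff₀ hLκ]
    have h2 : L ^ κ ≤ L₀ ^ κ := Real.rpow_le_rpow hL0.le hLL₀.le hκ0.le
    have h3 : 0 ≤ |Cc| + J * |Cw| := by positivity
    calc (((Ioc X (2 * X)).filter Squarefree).card : ℝ) * (T₂ - T₁) * L ^ κ
        ≤ X * (T₂ - T₁) * L₀ ^ κ := by
          have := card_le X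
          gcongr
      _ = (T₂ - T₁) * L₀ ^ κ * X := by ring
      _ ≤ _ := by nlinarith
  · have hJL : (J : ℝ) + 1 ≤ L ^ (δ / 2) := by
      have := Real.rpow_le_rpow hL₀0 hLL₀ (z := δ / 2) (by linarith)
      rw [hL₀, ← Real.rpow_mul (by positivity)] at this
      have e3 : 2 / δ * (δ / 2) = 1 := by field_simp
      rwa [e3, Real.rpow_one] at this
    have hcX := hcen X δ' hX hδ'0.le (by linarith)
    have hwX : ∀ j ∈ range J, ∑ d ∈ (Ioc X (2 * X)).filter Squarefree,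
        (volume {t₀ : ℝ | t₀ ∈ Set.Icc T₁ T₂ ∧ L ^ (δ / 4) < ‖FF d (Md d)
          (Psi K (L ^ (-b)) t₀ (L ^ ((j + 1 : ℕ) * δ')) (L ^ ((j + 1 : ℕ) * δ' + δ')))‖}).toReal ≤
        |Cw| * X / L ^ κ := by
      intro j hj
      rw [Finset.mem_range] at hj
      have hj0 : δ' ≤ (j + 1 : ℕ) * δ' := by
        push_cast
        have : (0:ℝ) ≤ j * δ' := by positivity
        linarith
      have hjb : ((j + 1 : ℕ) : ℝ) * δ' ≤ b := by
        refine le_trans ?_ hJ1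
        have : ((j + 1 : ℕ) : ℝ) ≤ J := by exact_mod_cast hj
        gcongr
      refine (hw X _ hX hj0 hjb).trans ?_
      have e1 : L ^ κ ≤ L ^ κw := Real.rpow_le_rpow_of_exponent_le hL1 (min_le_left _ _)
      have e2 := le_abs_self Cw
      gcongr
    have hsub : ∀ d ∈ (Ioc X (2 * X)).filter Squarefree, (volume {t₀ : ℝ | t₀ ∈ Set.Icc T₁ T₂ ∧
        L ^ δ < ‖∫ x in Set.Ioi (0 : ℝ), sB d (Md d) x *
          (exp (I * t₀ * x) * what K (L ^ (-b) * x))‖}).toReal ≤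
        (volume {t₀ : ℝ | t₀ ∈ Set.Icc T₁ T₂ ∧ L ^ (δ / 2) < ‖∫ x in Set.Ioi (0 : ℝ),
          sB d (Md d) x * (exp (I * t₀ * x) * what K (L ^ (-b) * x) * (eta (x / L ^ δ') : ℂ))‖}).toReal +
        ∑ j ∈ range J, (volume {t₀ : ℝ | t₀ ∈ Set.Icc T₁ T₂ ∧ L ^ (δ / 4) < ‖FF d (Md d)
          (Psi K (L ^ (-b)) t₀ (L ^ ((j + 1 : ℕ) * δ')) (L ^ ((j + 1 : ℕ) * δ' + δ')))‖}).toReal := by
      intro d hd
      rw [Finset.mem_filter, Finset.mem_Ioc] at hd
      have hMd : 0 < Md d := Md_pos (by omega)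
      apply union_meas
      intro t₀ _ ht
      by_contra hcon
      push Not at hcon
      obtain ⟨h1, h2⟩ := hcon
      rw [decomp (K := K) hK3 (D := (d : ℤ)) hMd hL1 hδ'0 rfl hJ2] at ht
      have h3 : ‖(∫ x in Set.Ioi (0 : ℝ), sB d (Md d) x * (exp (I * t₀ * x) * what K (L ^ (-b) * x) *
          (eta (x / L ^ δ') : ℂ))) +
          ∑ j ∈ range J, FF d (Md d) (Psi K (L ^ (-b)) t₀ (L ^ ((j + 1 : ℕ) * δ'))
            (L ^ ((j + 1 : ℕ) * δ' + δ')))‖ ≤ L ^ (δ / 2) + J * L ^ (δ / 4) := by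
        refine (norm_add_le _ _).trans (add_le_add h1 ?_)
        refine (norm_sum_le _ _).trans ?_
        refine (Finset.sum_le_sum (fun j hj => h2 j (Finset.mem_range.1 hj))).trans ?_
        rw [Finset.sum_const, Finset.card_range, nsmul_eq_mul]
      have h4 : L ^ (δ / 4) ≤ L ^ (δ / 2) := Real.rpow_le_rpow_of_exponent_le hL1 (by linarith)
      have h5 : L ^ (δ / 2) + J * L ^ (δ / 4) ≤ L ^ δ := by
        calc L ^ (δ / 2) + J * L ^ (δ / 4) ≤ L ^ (δ / 2) + J * L ^ (δ / 2) := by gcongr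
          _ = ((J : ℝ) + 1) * L ^ (δ / 2) := by ring
          _ ≤ L ^ (δ / 2) * L ^ (δ / 2) := by gcongr
          _ = L ^ δ := by rw [← Real.rpow_add hL0]; congr 1; ring
      linarith
    refine (Finset.sum_le_sum hsub).trans ?_
    rw [Finset.sum_add_distrib, Finset.sum_comm]
    have h9 : Cc * X / L ^ κc ≤ |Cc| * X / L ^ κ := by
      have e1 : L ^ κ ≤ L ^ κc := Real.rpow_le_rpow_of_exponent_le hL1 (min_le_right _ _)
      have e2 := le_abs_self Cc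
      gcongr
    have h10 := Finset.sum_le_sum hwX
    rw [Finset.sum_const, Finset.card_range, nsmul_eq_mul] at h10
    calc _ ≤ |Cc| * X / L ^ κ + J * (|Cw| * X / L ^ κ) := add_le_add (hcX.trans h9) h10
      _ = (|Cc| + J * |Cw|) * X / L ^ κ := by ring
      _ ≤ _ := by
          apply div_le_div_of_nonneg_right _ hLκ.le
          have : 0 ≤ (T₂ - T₁) * L₀ ^ κ * X := by positivity
          nlinarith

end Pool.Agent.CZ
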