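import Mathlib
import Pool.Agent.CZ.Defs
import Pool.Agent.CZ.W
import Pool.Agent.ZD.F1
import Pool.Agent.ZD.T

/-!
Module FR: the real function on the critical line.
-/

set_option autoImplicit false

open Complex Finset MeasureTheory

namespace Pool.Agent.CZ

open Pool.Agent.H5 (c bd)
open Pool.Agent.ZD (S Lf)

namespace FR

open Pool.Agent.H6 (Fs bR ThData EdData)

lemma Md_eq (d : ℕ) : √((H5.Q d : ℕ) : ℝ) / Real.pi = Md d / (2 * Real.pi) := by
  have hpi := Real.pi_pos
  unfold Md H5.Q
  split_ifs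
  · have : (((4 * d ^ 2 : ℕ)) : ℝ) = (2 * d) ^ 2 := by push_cast; ring
    rw [this, Real.sqrt_sq (by positivity)]
    field_simp
    ring
  · have : (((8 * d ^ 2 : ℕ)) : ℝ) = (√2 * (2 * d)) ^ 2 := by
      rw [mul_pow, Real.sq_sqrt (by norm_num)]; push_cast; ring
    rw [this, Real.sqrt_sq (by positivity)]
    field_simp
    ring

lemma Md_pos {d : ℕ} (hd : Squarefree d) : 0 < Md d := by
  have hd0 : (0 : ℝ) < d := by exact_mod_cast Nat.pos_of_ne_zero hd.ne_zero
  unfold Md
  split_ifs <;> positivity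

lemma sB_eq (D : ℤ) {M : ℝ} (hM : 0 < M) (x : ℝ) :
    sB D M x = ((Real.exp x / M : ℝ) : ℂ) * Fs (bR D) ((Real.exp x / (M / (2 * Real.pi)) : ℝ) : ℂ) := by
  have hpi := Real.pi_pos
  unfold sB
  rw [ZD.S_eq_Fs]
  congr 2
  push_cast
  have h1 : (Real.pi : ℂ) ≠ 0 := by exact_mod_cast hpi.ne'
  have h2 : (M : ℂ) ≠ 0 := by exact_mod_cast hM.ne'
  field_simp

lemma sB_conj (D : ℤ) {M : ℝ} (hM : 0 < M) (x : ℝ) : (starRingEnd ℂ) (sB D M x) = sB D M x := by
  rw [sB_eq D hM, map_mul, Complex.conj_ofReal, ← H6.Fs_conj, Complex.conj_ofReal]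

lemma sB_cont (D : ℤ) {M : ℝ} (hM : 0 < M) : Continuous (sB D M) := by
  obtain ⟨C, hC, h, -, -⟩ := H6.linear_bR D
  have hpi := Real.pi_pos
  have h1 : sB D M = fun x => ((Real.exp x / M : ℝ) : ℂ) *
      Fs (bR D) ((Real.exp x / (M / (2 * Real.pi)) : ℝ) : ℂ) := funext fun x => sB_eq D hM x
  rw [h1]
  apply Continuous.mul
  · fun_prop
  · rw [← continuousOn_univ]
    apply (H6.Fs_continuousOn hC h).comp
    · apply Continuous.continuousOn
      fun_prop
    · intro x _
      change 0 < (((Real.exp x / (M / (2 * Real.pi)) : ℝ) : ℂ)).re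
      rw [Complex.ofReal_re]
      positivity

lemma sB_neg {D : ℤ} {M w : ℝ} (hD : ThData (bR D) (M / (2 * Real.pi)) w) (hM : 0 < M) (x : ℝ) :
    sB D M (-x) = w * sB D M x := by
  have hpi := Real.pi_pos
  set m := M / (2 * Real.pi) with hm
  have hm0 : 0 < m := by positivity
  have h1 := hD.fe (Real.exp x / m) (by positivity)
  have hmc : (m : ℂ) ≠ 0 := by exact_mod_cast hm0.ne'
  have e1 : (m : ℂ) * ((Real.exp x / m : ℝ) : ℂ) = ((Real.exp x : ℝ) : ℂ) := by
    push_cast
    field_simp
  have e2 : 1 / ((m : ℂ) ^ 2 * ((Real.exp x / m : ℝ) : ℂ)) = ((Real.exp (-x) / m : ℝ) : ℂ) := by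
    rw [Real.exp_neg]
    push_cast
    have : cexp x ≠ 0 := Complex.exp_ne_zero _
    field_simp
  rw [e1, e2] at h1
  have hw2 : (w : ℂ) * w = 1 := by rcases hD.sgn with h | h <;> rw [h] <;> norm_num
  rw [sB_eq D hM, sB_eq D hM, ← hm, h1]
  generalize Fs (bR D) ((Real.exp (-x) / m : ℝ) : ℂ) = F
  rw [Real.exp_neg]
  have h3 : ((Real.exp x : ℝ) : ℂ) ≠ 0 := by exact_mod_cast (Real.exp_pos x).ne'
  have h4 : (M : ℂ) ≠ 0 := by exact_mod_cast hM.ne'
  push_cast at h3 ⊢
  field_simp
  linear_combination (-1 : ℂ) * F * hw2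

lemma sB_bound {D : ℤ} {M w : ℝ} (hD : ThData (bR D) (M / (2 * Real.pi)) w) (hM : 0 < M) :
    ∃ C : ℝ, ∀ x, ‖sB D M x‖ ≤ C * Real.exp (-(1 * |x|)) := by
  obtain ⟨C, hC⟩ := ZD.norm_S_le
  have h0 : ∀ x : ℝ, 0 ≤ x → ‖sB D M x‖ ≤ (C * M) * Real.exp (-x) := by
    intro x hx
    have h1 := hC D ((Real.exp x / M : ℝ) : ℂ) (by rw [Complex.ofReal_re]; positivity)
    rw [Complex.ofReal_re] at h1
    have hC0 : 0 ≤ C * (1 / (Real.exp x / M) ^ 2) := by
      have h2 := (norm_nonneg _).trans h1
      exact nonneg_of_mul_nonneg_left h2 (Real.exp_pos _)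
    have h3 : ‖S D ((Real.exp x / M : ℝ) : ℂ)‖ ≤ C * (1 / (Real.exp x / M) ^ 2) * 1 := by
      refine h1.trans (mul_le_mul_of_nonneg_left ?_ hC0)
      rw [Real.exp_le_one_iff]
      have : 0 ≤ Real.exp x / M := by positivity
      linarith
    unfold sB
    rw [norm_mul, Complex.norm_real, Real.norm_of_nonneg (by positivity)]
    refine (mul_le_mul_of_nonneg_left h3 (by positivity)).trans (le_of_eq ?_)
    rw [Real.exp_neg]
    field_simp
  refine ⟨C * M, fun x => ?_⟩
  rw [one_mul]
  rcases le_total 0 x with hx | hx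
  · rw [abs_of_nonneg hx]; exact h0 x hx
  · rw [abs_of_nonpos hx]
    have h1 := h0 (-x) (by linarith)
    rw [sB_neg hD hM, norm_mul] at h1
    have hw : ‖(w : ℂ)‖ = 1 := by rcases hD.sgn with h | h <;> rw [h] <;> simp
    rwa [hw, one_mul] at h1

lemma sB_int {D : ℤ} {M w : ℝ} (hD : ThData (bR D) (M / (2 * Real.pi)) w) (hM : 0 < M) :
    Integrable (sB D M) := by
  obtain ⟨C, hC⟩ := sB_bound hD hM
  refine ((ZD.integrable_exp_abs one_pos).const_mul C).mono' (sB_cont D hM).aestronglyMeasurable ?_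
  exact Filter.Eventually.of_forall hC

/-- the completed L-function on the critical line as a Fourier transform -/
lemma lam_eq {d : ℕ} {Λ : ℂ → ℂ} (E : EdData d (Md d / (2 * Real.pi)) Λ) (hM : 0 < Md d) (t : ℝ) :
    Λ (1 + t * I) = Md d * ∫ x : ℝ, sB d (Md d) x * exp (I * t * x) := by
  have hpi := Real.pi_pos
  set m := Md d / (2 * Real.pi) with hm
  have hm0 : 0 < m := by positivity
  have hmc : (m : ℂ) ≠ 0 := by exact_mod_cast hm0.ne'
  have h1 := E.mellin_eq (z := ((1 / m : ℝ) : ℂ)) (by rw [Complex.ofReal_re]; positivity)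
    (by rw [Complex.norm_real, Real.norm_of_nonneg (by positivity)]; field_simp) (1 + t * I)
  have e1 : (m : ℂ) * ((1 / m : ℝ) : ℂ) = 1 := by
    push_cast
    field_simp
  rw [e1, Complex.one_cpow, one_mul] at h1
  rw [← h1, mellin_eq_fourier, Real.fourier_real_eq_integral_exp_smul, ← integral_const_mul,
    ← integral_neg_eq_self]
  refine integral_congr_ae (Filter.Eventually.of_forall fun x => ?_)
  simp only [neg_neg, smul_eq_mul, Complex.real_smul]
  have e2 : ((1 : ℂ) + t * I).re = 1 := by simp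
  have e3 : ((1 : ℂ) + t * I).im = t := by simp
  rw [e2, e3, sB_eq _ hM, ← hm]
  have e4 : ((1 / m : ℝ) : ℂ) * ((Real.exp x : ℝ) : ℂ) = ((Real.exp x / m : ℝ) : ℂ) := by
    push_cast; ring
  have e5 : ((-2 * Real.pi * -x * (t / (2 * Real.pi)) : ℝ) : ℂ) * I = I * t * x := by
    have : (Real.pi : ℂ) ≠ 0 := by exact_mod_cast hpi.ne'
    push_cast
    field_simp
  rw [e4, e5]
  have h4 : (Md d : ℂ) ≠ 0 := by exact_mod_cast hM.ne'
  have e6 : (-1 : ℝ) * -x = x := by ring
  rw [e6]
  push_cast
  field_simp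

/-- folding an integral over the line -/
lemma fold {g : ℝ → ℂ} (hg : Integrable g) :
    ∫ x, g x = (∫ x in Set.Ioi (0 : ℝ), g x) + ∫ x in Set.Ioi (0 : ℝ), g (-x) := by
  have h1 := intervalIntegral.integral_Iic_add_Ioi (b := (0 : ℝ)) hg.integrableOn hg.integrableOn
  rw [← h1, integral_comp_neg_Ioi, neg_zero, add_comm]

end FR

theorem real_function {d : ℕ} (hd : Squarefree d) : ∃ R : ℝ → ℝ,
    (∀ t, AnalyticAt ℝ R t) ∧
    (∃ u : ℂ, ‖u‖ = 1 ∧ ∀ t : ℝ, (R t : ℂ) = u * ((Md d / (2 * Real.pi) : ℝ) : ℂ) ^ (1 + t * I : ℂ) *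
      Complex.Gamma (1 + t * I) * Lf d (1 + t * I)) ∧
    ∀ (K : ℕ) (h t₀ : ℝ), 2 ≤ K → 0 < h →
      Integrable (fun t => R t * wK K ((t - t₀) / h)) ∧
      IntegrableOn (fun x => sB d (Md d) x * (exp (I * t₀ * x) * what K (h * x))) (Set.Ioi 0) ∧
      |∫ t, R t * wK K ((t - t₀) / h)| ≤ 2 * Md d * h *
        ‖∫ x in Set.Ioi (0 : ℝ), sB d (Md d) x * (exp (I * t₀ * x) * what K (h * x))‖ := by
  have hM := FR.Md_pos hd
  have hpi := Real.pi_pos
  obtain ⟨Λ, E⟩ := ZD.exists_EdData hd
  rw [FR.Md_eq] at E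
  obtain ⟨w, D⟩ := E.th
  obtain ⟨u, hu, huw⟩ : ∃ u : ℂ, ‖u‖ = 1 ∧ (starRingEnd ℂ) u * w = u := by
    rcases D.sgn with h | h
    · exact ⟨1, by simp, by rw [h]; simp⟩
    · exact ⟨-I, by simp, by rw [h]; simp⟩
  set s : ℝ → ℂ := sB d (Md d) with hs
  have hsint : Integrable s := FR.sB_int D hM
  have hscont : Continuous s := FR.sB_cont d hM
  have hlam : ∀ t : ℝ, Λ (1 + t * I) = Md d * ∫ x : ℝ, s x * exp (I * t * x) := FR.lam_eq E hM
  have hexp : ∀ t x : ℝ, ‖exp (I * t * x)‖ = 1 := by
    intro t x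
    rw [Complex.norm_exp]
    simp
  have hLcont : Continuous fun t : ℝ => Λ (1 + t * I) := by
    have := E.diff.continuous
    fun_prop
  have hreal : ∀ t : ℝ, (((u * Λ (1 + t * I)).re : ℝ) : ℂ) = u * Λ (1 + t * I) := by
    intro t
    rw [← Complex.conj_eq_iff_re, map_mul, hlam t, map_mul, Complex.conj_ofReal, ← integral_conj]
    have h1 : ∫ x : ℝ, (starRingEnd ℂ) (s x * exp (I * t * x)) = w * ∫ x : ℝ, s x * exp (I * t * x) := by
      rw [← integral_const_mul, ← integral_neg_eq_self]
      refine integral_congr_ae (Filter.Eventually.of_forall fun x => ?_)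
      simp only [map_mul, ← Complex.exp_conj, Complex.conj_I, Complex.conj_ofReal]
      rw [hs, FR.sB_conj _ hM, FR.sB_neg D hM, mul_assoc]
      congr 3
      push_cast
      ring
    rw [h1]
    linear_combination (Md d : ℂ) * (∫ x : ℝ, s x * exp (I * t * x)) * huw
  refine ⟨fun t : ℝ => (u * Λ (1 + t * I)).re, ?_, ⟨u, hu, ?_⟩, ?_⟩
  · intro t
    have h1 : AnalyticAt ℝ (fun t : ℝ => u * Λ (1 + t * I)) t := by
      have h2 : AnalyticAt ℝ (fun z : ℂ => u * Λ (1 + z * I)) (t : ℂ) := by
        have h3 : Differentiable ℂ (fun z : ℂ => u * Λ (1 + z * I)) := by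
          have := E.diff
          fun_prop
        exact (h3.analyticAt (t : ℂ)).restrictScalars
      have h4 : AnalyticAt ℝ (fun t : ℝ => (t : ℂ)) t := Complex.ofRealCLM.analyticAt t
      exact h2.comp h4
    exact (Complex.reCLM.analyticAt _).comp h1
  · intro t
    rw [hreal, ← ZD.Lf_eq hd E (s := 1 + t * I) (by simp)]
    ring
  · intro K h t₀ hK hh
    have hK1 : 1 ≤ K := by omega
    obtain ⟨B, hB⟩ := what_norm_le K
    have hwcont : Continuous (what K) := (what_contDiff (K := K) (n := 2) (by omega)).continuous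
    -- the weight
    set W : ℝ → ℝ := fun t => wK K ((t - t₀) / h) with hW
    have hWint : Integrable W := ((wK_integrable hK1).comp_div hh.ne').comp_sub_right t₀
    have hWcont : Continuous W := by
      have := wK_continuous K
      fun_prop
    -- the window
    set g : ℝ → ℂ := fun x => s x * (exp (I * t₀ * x) * what K (h * x)) with hg
    have hgint : Integrable g := by
      refine (hsint.norm.mul_const B).mono' ?_ ?_
      · apply Continuous.aestronglyMeasurable
        fun_prop
      · refine Filter.Eventually.of_forall fun x => ?_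
        rw [hg]
        simp only [norm_mul, hexp, one_mul]
        exact mul_le_mul_of_nonneg_left (hB _) (norm_nonneg _)
    have hRint : Integrable (fun t : ℝ => (u * Λ (1 + t * I)).re * W t) := by
      refine (hWint.norm.const_mul (Md d * ∫ x, ‖s x‖)).mono' ?_ ?_
      · exact ((Complex.continuous_re.comp (continuous_const.mul hLcont)).mul
          hWcont).aestronglyMeasurable
      · refine Filter.Eventually.of_forall fun t => ?_
        rw [norm_mul]
        refine mul_le_mul_of_nonneg_right ?_ (norm_nonneg _)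
        rw [Real.norm_eq_abs]
        refine (Complex.abs_re_le_norm _).trans ?_
        rw [norm_mul, hu, one_mul, hlam, norm_mul, Complex.norm_real, Real.norm_of_nonneg hM.le]
        refine mul_le_mul_of_nonneg_left ?_ hM.le
        refine (norm_integral_le_integral_norm _).trans (le_of_eq ?_)
        refine integral_congr_ae (Filter.Eventually.of_forall fun x => ?_)
        simp only [norm_mul, hexp, mul_one]
    refine ⟨hRint, hgint.integrableOn, ?_⟩
    -- Fubini
    have hprod : Integrable (fun q : ℝ × ℝ => (s q.2 * exp (I * q.1 * q.2)) * (W q.1 : ℂ))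
        (volume.prod volume) := by
      have h1 : Integrable (fun q : ℝ × ℝ => W q.1 * ‖s q.2‖) (volume.prod volume) :=
        hWint.mul_prod hsint.norm
      refine h1.norm.mono' ?_ ?_
      · apply Continuous.aestronglyMeasurable
        fun_prop
      · refine Filter.Eventually.of_forall fun q => ?_
        simp only [norm_mul, hexp, mul_one, Complex.norm_real, norm_norm]
        rw [mul_comm]
    have key : ((∫ t : ℝ, (u * Λ (1 + t * I)).re * W t : ℝ) : ℂ) = (u * Md d * h) * ∫ x, g x := by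
      rw [← integral_complex_ofReal]
      have h1 : ∀ t : ℝ, (((u * Λ (1 + t * I)).re * W t : ℝ) : ℂ) =
          (u * Md d) * ∫ x : ℝ, s x * exp (I * t * x) * (W t : ℂ) := by
        intro t
        rw [Complex.ofReal_mul, hreal, hlam, integral_mul_const]
        ring
      simp_rw [h1]
      rw [integral_const_mul, integral_integral_swap hprod, mul_assoc (u * (Md d : ℂ)) (h : ℂ),
        ← integral_const_mul (h : ℂ)]
      congr 1
      refine integral_congr_ae (Filter.Eventually.of_forall fun x => ?_)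
      have h2 := (what_scale hK1 hh t₀ x).2
      simp only [hg]
      calc ∫ t : ℝ, s x * exp (I * t * x) * (W t : ℂ)
          = s x * ∫ t : ℝ, exp (I * x * t) * (wK K ((t - t₀) / h) : ℂ) := by
            rw [← integral_const_mul]
            refine integral_congr_ae (Filter.Eventually.of_forall fun t => ?_)
            simp only [hW]
            rw [mul_assoc]
            congr 3
            ring
        _ = _ := by
            rw [h2]
            have : I * (x : ℂ) * t₀ = I * t₀ * x := by ring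
            rw [this]
            ring
    have hfold : ∫ x, g x = (∫ x in Set.Ioi (0 : ℝ), g x) +
        w * (starRingEnd ℂ) (∫ x in Set.Ioi (0 : ℝ), g x) := by
      rw [FR.fold hgint, ← integral_conj, ← integral_const_mul]
      congr 1
      refine integral_congr_ae (Filter.Eventually.of_forall fun x => ?_)
      simp only [hg, map_mul, ← Complex.exp_conj, Complex.conj_I, Complex.conj_ofReal, what_conj]
      rw [hs, FR.sB_conj _ hM, FR.sB_neg D hM, mul_neg, what_neg, mul_assoc]
      congr 4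
      push_cast
      ring
    have hn : ‖(w : ℂ)‖ = 1 := by rcases D.sgn with h | h <;> rw [h] <;> simp
    calc |∫ t : ℝ, (u * Λ (1 + t * I)).re * W t|
        = ‖((∫ t : ℝ, (u * Λ (1 + t * I)).re * W t : ℝ) : ℂ)‖ := by
          rw [Complex.norm_real, Real.norm_eq_abs]
      _ = Md d * h * ‖∫ x, g x‖ := by
          rw [key, norm_mul, norm_mul, norm_mul, hu, Complex.norm_real, Complex.norm_real,
            Real.norm_of_nonneg hM.le, Real.norm_of_nonneg hh.le, one_mul]
      _ ≤ Md d * h * (2 * ‖∫ x in Set.Ioi (0 : ℝ), g x‖) := by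
          refine mul_le_mul_of_nonneg_left ?_ (by positivity)
          rw [hfold]
          refine (norm_add_le _ _).trans (le_of_eq ?_)
          rw [norm_mul, hn, one_mul, Complex.norm_conj]
          ring
      _ = 2 * Md d * h * ‖∫ x in Set.Ioi (0 : ℝ), g x‖ := by ring

end Pool.Agent.CZ
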