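import Mathlib
import Pool.Agent.CZ.FR
import Pool.Agent.CZ.EUP
import Pool.Agent.CZ.ELO
import Pool.Agent.CZ.EFA
import Pool.Agent.CZ.EFI1

/-!
# Many zeros of odd order on the critical line, for almost all congruent number curves
-/

set_option autoImplicit false

open Finset MeasureTheory Complex

namespace Pool.Agent.CZ

/-- dyadic form -/
theorem zeros_dyadic (ε T₁ T₂ : ℝ) (hε : 0 < ε) (hT : 0 < T₁) (hT' : T₁ < T₂) : ∃ κ C : ℝ, 0 < κ ∧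
    ∀ X : ℕ, 3 ≤ X →
    ({d : ℕ | X < d ∧ d ≤ 2 * X ∧ Squarefree d ∧ Few d T₁ T₂ (Real.log X) κ ε}.ncard : ℝ) ≤
      C * X / (Real.log X) ^ κ :=
  zeros_dyadic_of (fun hd => real_function hd) E_up E_low
    (fun T₁ T₂ b δ h1 h2 h3 h4 h5 => E_far T₁ T₂ b δ h1 h2 h3 h4 h5) ε T₁ T₂ hε hT hT'

/-- every short interval has its share of the zeros -/
theorem zeros_many2 (ε T₁ T₂ : ℝ) (hε : 0 < ε) (hT : 0 < T₁) (hT' : T₁ < T₂) : ∃ κ C : ℝ, 0 < κ ∧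
    ∀ X : ℕ, 3 ≤ X →
    ({d : ℕ | 1 ≤ d ∧ d ≤ X ∧ Squarefree d ∧ Few d T₁ T₂ (Real.log X) κ ε}.ncard : ℝ) ≤
      C * X / (Real.log X) ^ κ :=
  zeros_many2_of zeros_dyadic ε T₁ T₂ hε hT hT'

/-- almost all `E_d` have at least `(log d)^(1-ε)` zeros of odd order in any segment of the
critical line -/
theorem zeros_many (ε T₁ T₂ : ℝ) (hε : 0 < ε) (hT' : T₁ < T₂) : ∃ κ C : ℝ, 0 < κ ∧
    ∀ X : ℕ, 3 ≤ X →
    ({d : ℕ | 1 ≤ d ∧ d ≤ X ∧ Squarefree d ∧ NZ d T₁ T₂ < (Real.log X) ^ (1 - ε)}.ncard : ℝ) ≤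
      C * X / (Real.log X) ^ κ :=
  zeros_many_of zeros_many2 ε T₁ T₂ hε hT'

end Pool.Agent.CZ
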